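import Pool.Agent.Lib.MP_29e17e_pr.Z.Df

set_option autoImplicit false
set_option linter.unusedSectionVars false

/-! Rows 29d-G1 .. 29d-G4: clusters off a set, in a general finite graph. -/

open Finset

namespace Pool.Agent.PERC29.DZ

open Pool.Agent.PERC29 Pool.Agent.PERC29.AE

variable {V : Type*} [Fintype V] [DecidableEq V] {E : Type*} [Fintype E] [DecidableEq E]
  {ends : E → Sym2 V}

/-- Row G1. -/
lemma mem_cS {ω : E → Bool} {D A : Set V} {y : V} :
    y ∈ cS ends ω D A ↔ ∃ a ∈ A, a ∉ D ∧ Rch ends ω Dᶜ a y := by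
  classical
  simp only [cS, Finset.mem_filter, Finset.mem_univ, true_and]

/-- Row G1. `Rch.mem'`. -/
lemma cS_off {ω : E → Bool} {D A : Set V} {y : V} (h : y ∈ cS ends ω D A) : y ∉ D := by
  obtain ⟨a, -, haD, har⟩ := mem_cS.1 h
  exact Rch.mem' (S := Dᶜ) haD har

/-- Row G1. `Rch.mono`. -/
lemma cS_mono {ω ω' : E → Bool} {D D' A A' : Set V} (hω : ∀ e, ω e = true → ω' e = true)
    (hD : D' ⊆ D) (hA : A ⊆ A') : cS ends ω D A ⊆ cS ends ω' D' A' := by
  intro y hy
  obtain ⟨a, ha, haD, har⟩ := mem_cS.1 hy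
  exact mem_cS.2 ⟨a, hA ha, fun h => haD (hD h), har.mono hω (Set.compl_subset_compl.2 hD)⟩

lemma cS_union {ω : E → Bool} {D A A' : Set V} : cS ends ω D (A ∪ A') = cS ends ω D A ∪ cS ends ω D A' := by
  classical
  ext y
  rw [Finset.mem_union, mem_cS, mem_cS, mem_cS]
  constructor
  · rintro ⟨a, ha | ha, haD, har⟩
    · exact Or.inl ⟨a, ha, haD, har⟩
    · exact Or.inr ⟨a, ha, haD, har⟩
  · rintro (⟨a, ha, haD, har⟩ | ⟨a, ha, haD, har⟩)
    · exact ⟨a, Or.inl ha, haD, har⟩
    · exact ⟨a, Or.inr ha, haD, har⟩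

/-- Row G1. Closed under open edges off `D`: `Relation.ReflTransGen.tail`. -/
lemma cS_step {ω : E → Bool} {D A : Set V} {y z : V} (h : y ∈ cS ends ω D A) (e : E) (he : ends e = s(y, z))
    (ho : ω e = true) (hz : z ∉ D) : z ∈ cS ends ω D A := by
  have hy := cS_off h
  obtain ⟨a, ha, haD, har⟩ := mem_cS.1 h
  exact mem_cS.2 ⟨a, ha, haD, Relation.ReflTransGen.tail har ⟨hy, hz, e, ho, he⟩⟩

/-- Row G1. The cluster only depends on the edges between a vertex of the cluster and a vertex off `D`: `reach_dep` with `S = Dᶜ`, `B = A \ D`. -/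
lemma cS_dep {ω ω' : E → Bool} {D A : Set V}
    (h : ∀ e a b, ends e = s(a, b) → a ∈ cS ends ω D A → b ∉ D → ω e = ω' e) :
    cS ends ω' D A = cS ends ω D A := by
  have hA : ∀ z, (∃ b ∈ A \ D, Rch ends ω Dᶜ b z) ↔ z ∈ ((cS ends ω D A : Finset V) : Set V) := by
    intro z
    rw [Finset.mem_coe, mem_cS]
    constructor
    · rintro ⟨b, ⟨hb, hbD⟩, hbr⟩
      exact ⟨b, hb, hbD, hbr⟩
    · rintro ⟨b, hb, hbD, hbr⟩
      exact ⟨b, ⟨hb, hbD⟩, hbr⟩
  have h1 := reach_dep (ω' := ω') hA (fun e a b he _ hbS haA => h e a b he (Finset.mem_coe.1 haA) hbS)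
  ext z
  rw [← Finset.mem_coe, ← Finset.mem_coe, ← h1 z, Finset.mem_coe, mem_cS]
  constructor
  · rintro ⟨b, hb, hbD, hbr⟩
    exact ⟨b, ⟨hb, hbD⟩, hbr⟩
  · rintro ⟨b, ⟨hb, hbD⟩, hbr⟩
    exact ⟨b, hb, hbD, hbr⟩

/-- Row G1. If the cluster off `D` of `A` does not meet `D'` at its boundary.. (a path off `D` which starts in `A` and avoids `D'`): the cluster off `D ∪ D'` is the
same if no vertex of `D'` is in the cluster off `D`. -/
lemma cS_avoid {ω : E → Bool} {D D' A : Set V} (h : ∀ y ∈ cS ends ω D A, y ∉ D') :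
    cS ends ω (D ∪ D') A = cS ends ω D A := by
  refine Finset.Subset.antisymm (cS_mono (fun _ h => h) Set.subset_union_left (Set.Subset.refl _)) ?_
  intro y hy
  obtain ⟨a, ha, haD, har⟩ := mem_cS.1 hy
  have ha' : a ∉ D' := h a (mem_cS.2 ⟨a, ha, haD, Rch.refl a⟩)
  refine mem_cS.2 ⟨a, ha, fun h1 => h1.elim haD ha', ?_⟩
  clear hy
  induction har with
  | refl => exact Rch.refl a
  | @tail c d hac hcd ih =>
    obtain ⟨h1, h2, e, h3, h4⟩ := hcd
    have hc : c ∉ D' := h c (mem_cS.2 ⟨a, ha, haD, hac⟩)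
    have hd : d ∉ D' := h d (mem_cS.2 ⟨a, ha, haD, Relation.ReflTransGen.tail hac ⟨h1, h2, e, h3, h4⟩⟩)
    exact Relation.ReflTransGen.tail ih ⟨fun h5 => h5.elim h1 hc, fun h5 => h5.elim h2 hd, e, h3, h4⟩

/-- Row G2. The two pieces. If `B` is a set of vertices off `D` which contains `A \ D` (or only: `A \ D ⊆ B`), every vertex of `B` is joined to `A` off `D`
(`B ⊆ cS ω D A`), and `N` contains every end `v ∉ D ∪ B` of an open edge which starts in `B`, and every vertex of `N` is joined to `A` off `D`, then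
`cS ω D A = B ∪ cS ω (D ∪ B) N`, and the union is disjoint. Proof: `⊆`: take the last vertex of the path from `A` in `B` (exists, the path starts in `A \ D ⊆ B`); the next vertex is in
`N` and the rest of the path is off `D ∪ B` (induction on `Relation.ReflTransGen` from the end: invariant `y ∈ B ∨ y ∈ cS ω (D ∪ B) N`). `⊇`: clear. -/
lemma cS_split {ω : E → Bool} {D A N : Set V} {B : Finset V} (hAB : ∀ a ∈ A, a ∉ D → a ∈ B)
    (hB : B ⊆ cS ends ω D A) (hN : ∀ a ∈ B, ∀ v e, ends e = s(a, v) → ω e = true → v ∉ D → v ∉ B → v ∈ N)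
    (hN' : ∀ v ∈ N, v ∈ cS ends ω D A) (hN'' : ∀ v ∈ N, v ∉ D ∧ v ∉ B) :
    cS ends ω D A = B ∪ cS ends ω (D ∪ (B : Set V)) N ∧ Disjoint B (cS ends ω (D ∪ (B : Set V)) N) := by
  classical
  constructor
  · ext y
    rw [Finset.mem_union]
    constructor
    · intro hy
      obtain ⟨a, haA, haD, hr⟩ := mem_cS.1 hy
      have key : ∀ z, Rch ends ω Dᶜ a z → z ∈ B ∨ z ∈ cS ends ω (D ∪ (B : Set V)) N := by
        intro z hz
        induction hz with
        | refl => exact Or.inl (hAB a haA haD)
        | @tail c w _ hcw ih =>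
          obtain ⟨_, hwD, e, ho, he⟩ := hcw
          by_cases hwB : w ∈ B
          · exact Or.inl hwB
          · right
            have hwDB : w ∉ D ∪ (B : Set V) := by
              rintro (h | h)
              · exact hwD h
              · exact hwB (Finset.mem_coe.1 h)
            rcases ih with hc | hc
            · exact mem_cS.2 ⟨w, hN c hc w e he ho hwD hwB, hwDB, Rch.refl w⟩
            · exact cS_step hc e he ho hwDB
      exact key y hr
    · rintro (hy | hy)
      · exact hB hy
      · obtain ⟨v, hvN, _, hr⟩ := mem_cS.1 hy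
        obtain ⟨a, haA, haD, hr'⟩ := mem_cS.1 (hN' v hvN)
        refine mem_cS.2 ⟨a, haA, haD, hr'.trans (Rch.mono (fun _ h => h) ?_ hr)⟩
        intro x hx hxD
        exact hx (Or.inl hxD)
  · rw [Finset.disjoint_left]
    intro y hyB hy
    exact cS_off hy (Or.inr (Finset.mem_coe.2 hyB))

/-- Row G3. `a ↔ u` off `D` has probability at most `ta a u`; `A`: union bound. -/
lemma two_cS {p : ℝ} (h0 : 0 ≤ p) (h1 : p ≤ 1) (D : Set V) (A : Finset V) (u : V) :
    Ex p (fun ω => if u ∈ cS ends ω D (A : Set V) then (1 : ℝ) else 0) ≤ ∑ a ∈ A, ta ends p a u := by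
  classical
  unfold ta
  rw [← Ex_sum]
  refine Ex_mono h0 h1 (fun ω => ?_)
  by_cases h : u ∈ cS ends ω D (A : Set V)
  · rw [if_pos h]
    obtain ⟨a, ha, _, hr⟩ := mem_cS.1 h
    have hu : u ∈ cu ends ω a := by
      have hr' : Rch ends ω Set.univ a u := hr.mono (fun _ h => h) (Set.subset_univ _)
      rw [mem_cu]
      exact hr'
    have := Finset.single_le_sum (f := fun a => if u ∈ cu ends ω a then (1 : ℝ) else 0) (s := A)
      (fun i _ => by split_ifs <;> norm_num) (by exact_mod_cast ha)
    simpa [hu] using this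
  · rw [if_neg h]
    exact Finset.sum_nonneg (fun i _ => by split_ifs <;> norm_num)

open scoped Classical in
/-- the open edges off `D` -/
private noncomputable def G3b_off (ends : E → Sym2 V) (ω : E → Bool) (D : Set V) : E → Bool :=
  fun e => decide (ω e = true ∧ ∀ v, v ∈ ends e → v ∉ D)

private lemma G3b_off_iff {ω : E → Bool} {D : Set V} {e : E} :
    G3b_off ends ω D e = true ↔ ω e = true ∧ ∀ v, v ∈ ends e → v ∉ D := by
  classical
  unfold G3b_off
  exact decide_eq_true_iff

private lemma G3b_rch {ω : E → Bool} {D : Set V} {a y : V} (h : Rch ends ω Dᶜ a y) :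
    Rch ends (G3b_off ends ω D) Set.univ a y := by
  induction h with
  | refl => exact Rch.refl _
  | tail _ hbc ih =>
    obtain ⟨h1, h2, e, h3, h4⟩ := hbc
    refine Relation.ReflTransGen.tail ih ⟨trivial, trivial, e, G3b_off_iff.2 ⟨h3, ?_⟩, h4⟩
    intro v hv
    rw [h4, Sym2.mem_iff] at hv
    rcases hv with rfl | rfl
    · exact h1
    · exact h2

/-- a walk of edges off `D` gives a connection off `D` -/
private lemma G3b_walk {ω : E → Bool} {D : Set V} {a b : V}
    (p : (openG ends (G3b_off ends ω D)).Walk a b) (L : List (Sym2 V)) (hL : ∀ s ∈ p.edges, s ∈ L) :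
    Rch ends (fun e => decide (e ∈ opL ends (G3b_off ends ω D) L)) Dᶜ a b := by
  induction p with
  | nil => exact Rch.refl _
  | @cons a c b hadj p ih =>
    have hadj' := hadj
    obtain ⟨-, e, h3, h4⟩ := hadj'
    have h5 := G3b_off_iff.1 h3
    refine Relation.ReflTransGen.head ⟨h5.2 a (by rw [h4]; exact Sym2.mem_mk_left _ _),
      h5.2 c (by rw [h4]; exact Sym2.mem_mk_right _ _), e, ?_, h4⟩ (ih (fun s hs => hL s ?_))
    · have : e ∈ opL ends (G3b_off ends ω D) L := by
        refine Finset.mem_filter.2 ⟨Finset.mem_univ _, h3, ?_⟩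
        rw [h4]
        refine hL _ ?_
        simp
      simpa using this
    · rw [SimpleGraph.Walk.edges_cons]
      exact List.mem_cons_of_mem _ hs

/-- the edge sets which join `z` to `A` off `D` -/
private def G3b_fam (ends : E → Sym2 V) (D A : Set V) (z : V) : Set (Finset E) :=
  {F | ∃ a ∈ A, a ∉ D ∧ Rch ends (fun e => decide (e ∈ F)) Dᶜ a z}

private lemma G3b_opn (D : Set V) (A : Finset V) (z : V) (ω : E → Bool) :
    opn (G3b_fam ends D (A : Set V) z) ω = if z ∈ cS ends ω D (A : Set V) then 1 else 0 := by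
  classical
  unfold opn
  apply if_congr _ rfl rfl
  rw [mem_cS]
  constructor
  · rintro ⟨F, ⟨a, ha, haD, hF⟩, hop⟩
    exact ⟨a, ha, haD, hF.mono (fun e he => hop e (of_decide_eq_true he)) le_rfl⟩
  · rintro ⟨a, ha, haD, h⟩
    refine ⟨Finset.univ.filter (fun e => ω e = true), ⟨a, ha, haD, ?_⟩, ?_⟩
    · exact h.mono (fun e he => by simp [he]) le_rfl
    · intro e he
      exact (Finset.mem_filter.1 he).2

/-- the tripod or the two disjoint paths -/
private lemma G3b_tri {ω : E → Bool} {D : Set V} {A : Finset V} {u w : V}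
    (hu : u ∈ cS ends ω D (A : Set V)) (hw : w ∈ cS ends ω D (A : Set V)) :
    (∃ z, ∃ F ∈ G3b_fam ends D (A : Set V) z, ∃ G ∈ Pth ends z u, ∃ H ∈ Pth ends z w,
      Disjoint F G ∧ Disjoint (F ∪ G) H ∧ ∀ e ∈ F ∪ G ∪ H, ω e = true) ∨
    (∃ a ∈ A, ∃ a' ∈ A, ∃ F ∈ Pth ends a u, ∃ H ∈ Pth ends a' w,
      Disjoint F H ∧ ∀ e ∈ F ∪ H, ω e = true) := by
  classical
  obtain ⟨a, ha, haD, hau⟩ := mem_cS.1 hu
  obtain ⟨a', ha', haD', haw⟩ := mem_cS.1 hw
  obtain ⟨p0⟩ := exists_walk (G3b_rch hau)
  obtain ⟨q⟩ := exists_walk (G3b_rch haw).symm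
  obtain ⟨p, hp⟩ : ∃ p : (openG ends (G3b_off ends ω D)).Walk a u, p.IsPath :=
    ⟨_, p0.bypass_isPath⟩
  obtain ⟨z, hz, q', hq'⟩ := first_hit ({w | w ∈ p.support} ∪ {a'}) q (Or.inr rfl)
  have hop : ∀ (L : List (Sym2 V)), ∀ e ∈ opL ends (G3b_off ends ω D) L, ω e = true := by
    intro L e he
    exact (G3b_off_iff.1 (Finset.mem_filter.1 he).2.1).1
  have hqp : ∀ s ∈ q'.edges, s ∉ p.edges := by
    intro s hs hs'
    induction s using Sym2.ind with
    | _ x y =>
      have hx : x = z := hq' x (q'.fst_mem_support_of_mem_edges hs)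
        (Or.inl (p.fst_mem_support_of_mem_edges hs'))
      have hy : y = z := hq' y (q'.snd_mem_support_of_mem_edges hs)
        (Or.inl (p.snd_mem_support_of_mem_edges hs'))
      have hadj := q'.adj_of_mem_edges hs
      exact hadj.ne (hx.trans hy.symm)
  by_cases hz' : z ∈ p.support
  · left
    have hnd : (p.takeUntil z hz').edges.Disjoint (p.dropUntil z hz').edges := by
      have h1 : p.edges.Nodup := hp.isTrail.edges_nodup
      rw [← p.take_spec hz', SimpleGraph.Walk.edges_append] at h1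
      exact (List.nodup_append'.1 h1).2.2
    have hsubT : ∀ s ∈ (p.takeUntil z hz').edges, s ∈ p.edges :=
      fun s hs => p.edges_takeUntil_subset_edges hz' hs
    have hsubD : ∀ s ∈ (p.dropUntil z hz').edges, s ∈ p.edges :=
      fun s hs => p.edges_dropUntil_subset_edges hz' hs
    refine ⟨z, opL ends (G3b_off ends ω D) (p.takeUntil z hz').edges,
      ⟨a, ha, haD, G3b_walk _ _ (fun s hs => hs)⟩,
      opL ends (G3b_off ends ω D) (p.dropUntil z hz').edges, walk_mem_Pth _ _ (fun s hs => hs),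
      opL ends (G3b_off ends ω D) q'.edges,
      walk_mem_Pth q'.reverse _ (fun s hs => by simpa using hs), ?_, ?_, ?_⟩
    · exact opL_disjoint (fun s hs hs' => hnd hs hs')
    · rw [Finset.disjoint_union_left]
      exact ⟨opL_disjoint (fun s hs hs' => hqp s hs' (hsubT s hs)),
        opL_disjoint (fun s hs hs' => hqp s hs' (hsubD s hs))⟩
    · intro e he
      rw [Finset.mem_union, Finset.mem_union] at he
      rcases he with (he | he) | he
      · exact hop _ e he
      · exact hop _ e he
      · exact hop _ e he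
  · right
    have hza : z = a' := by
      rcases hz with h | h
      · exact absurd h hz'
      · exact h
    subst hza
    refine ⟨a, ha, z, ha', opL ends (G3b_off ends ω D) p.edges,
      walk_mem_Pth _ _ (fun s hs => hs), opL ends (G3b_off ends ω D) q'.edges,
      walk_mem_Pth q'.reverse _ (fun s hs => by simpa using hs), ?_, ?_⟩
    · exact opL_disjoint (fun s hs hs' => hqp s hs' hs)
    · intro e he
      rw [Finset.mem_union] at he
      rcases he with he | he
      · exact hop _ e he
      · exact hop _ e he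

/-- Row G3. The tree graph inequality for the cluster of a set off `D`. If `u, w` are both in the cluster of `A` off `D`: take a simple open path off `D` from some `a ∈ A` to `u`
and an open path off `D` from `w` to `A`; stop the second one at its first point `z` on the first path or in `A`.
If `z` is on the first path: disjoint connections `a ↔ z` off `D`, `z ↔ u`, `z ↔ w` (as in `tripod`, `tree_graph`; the first one off `D`, the event `z ∈ cS ω D A`).
Otherwise (the second path reaches some `a' ∈ A` without meeting the first path): disjoint connections `a ↔ u`, `a' ↔ w`.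
BK (`bk`) with the families `{F | z is joined to A off D by F}`, `Pth z u`, `Pth z w`, resp. `Pth a u`, `Pth a' w`. -/
lemma tree_cS (hinj : Function.Injective ends) {p : ℝ} (h0 : 0 ≤ p) (h1 : p ≤ 1) (D : Set V) (A : Finset V) (u w : V) :
    Ex p (fun ω => (if u ∈ cS ends ω D (A : Set V) then (1 : ℝ) else 0) *
      (if w ∈ cS ends ω D (A : Set V) then 1 else 0)) ≤
      ∑ z, Ex p (fun ω => if z ∈ cS ends ω D (A : Set V) then (1 : ℝ) else 0) * (ta ends p z u * ta ends p z w) +
      ∑ a ∈ A, ∑ a' ∈ A, ta ends p a u * ta ends p a' w := by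
  classical
  have hnn : ∀ (𝒜 : Set (Finset E)) (ω : E → Bool), 0 ≤ opn 𝒜 ω := by
    intro 𝒜 ω
    unfold opn
    split_ifs <;> norm_num
  have hpt : ∀ ω : E → Bool, (if u ∈ cS ends ω D (A : Set V) then (1 : ℝ) else 0) *
      (if w ∈ cS ends ω D (A : Set V) then 1 else 0) ≤
      ∑ z, opn (dsj (dsj (G3b_fam ends D (A : Set V) z) (Pth ends z u)) (Pth ends z w)) ω +
      ∑ a ∈ A, ∑ a' ∈ A, opn (dsj (Pth ends a u) (Pth ends a' w)) ω := by
    intro ω
    have hn1 : 0 ≤ ∑ z, opn (dsj (dsj (G3b_fam ends D (A : Set V) z) (Pth ends z u))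
        (Pth ends z w)) ω := Finset.sum_nonneg fun z _ => hnn _ _
    have hn2 : 0 ≤ ∑ a ∈ A, ∑ a' ∈ A, opn (dsj (Pth ends a u) (Pth ends a' w)) ω :=
      Finset.sum_nonneg fun a _ => Finset.sum_nonneg fun a' _ => hnn _ _
    by_cases hu : u ∈ cS ends ω D (A : Set V)
    · by_cases hw : w ∈ cS ends ω D (A : Set V)
      · rw [if_pos hu, if_pos hw, one_mul]
        rcases G3b_tri hu hw with ⟨z, F, hF, G, hG, H, hH, h3, h4, h5⟩ |
          ⟨a, ha, a', ha', F, hF, H, hH, h3, h4⟩
        · have h6 : opn (dsj (dsj (G3b_fam ends D (A : Set V) z) (Pth ends z u))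
              (Pth ends z w)) ω = 1 := by
            unfold opn
            rw [if_pos]
            exact ⟨F ∪ G ∪ H, ⟨F ∪ G, ⟨F, hF, G, hG, h3, rfl⟩, H, hH, h4, rfl⟩, h5⟩
          have h7 := Finset.single_le_sum (f := fun z =>
            opn (dsj (dsj (G3b_fam ends D (A : Set V) z) (Pth ends z u)) (Pth ends z w)) ω)
            (fun z _ => hnn _ _) (Finset.mem_univ z)
          linarith
        · have h6 : opn (dsj (Pth ends a u) (Pth ends a' w)) ω = 1 := by
            unfold opn
            rw [if_pos]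
            exact ⟨F ∪ H, ⟨F, hF, H, hH, h3, rfl⟩, h4⟩
          have h7 := Finset.single_le_sum (f := fun a' =>
            opn (dsj (Pth ends a u) (Pth ends a' w)) ω) (fun a' _ => hnn _ _) ha'
          have h8 := Finset.single_le_sum (f := fun a => ∑ a' ∈ A,
            opn (dsj (Pth ends a u) (Pth ends a' w)) ω)
            (fun a _ => Finset.sum_nonneg fun a' _ => hnn _ _) ha
          linarith
      · rw [if_neg hw, mul_zero]
        linarith
    · rw [if_neg hu, zero_mul]
      linarith
  have e1 : ∀ a b : V, Ex p (opn (Pth ends a b)) = ta ends p a b := by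
    intro a b
    unfold ta
    exact Ex_congr fun ω => opn_Pth a b ω
  refine (Ex_mono h0 h1 hpt).trans ?_
  rw [Ex_add, Ex_sum, Ex_sum]
  refine add_le_add (Finset.sum_le_sum fun z _ => ?_) (Finset.sum_le_sum fun a _ => ?_)
  · have h2 := bk h0 h1 (dsj (G3b_fam ends D (A : Set V) z) (Pth ends z u)) (Pth ends z w)
    have h3 := bk h0 h1 (G3b_fam ends D (A : Set V) z) (Pth ends z u)
    rw [e1] at h2 h3
    have e2 : Ex p (opn (G3b_fam ends D (A : Set V) z)) =
        Ex p (fun ω => if z ∈ cS ends ω D (A : Set V) then (1 : ℝ) else 0) :=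
      Ex_congr fun ω => G3b_opn D A z ω
    rw [e2] at h3
    calc Ex p (fun ω => opn (dsj (dsj (G3b_fam ends D (A : Set V) z) (Pth ends z u))
          (Pth ends z w)) ω) ≤
        Ex p (opn (dsj (G3b_fam ends D (A : Set V) z) (Pth ends z u))) * ta ends p z w := h2
      _ ≤ (Ex p (fun ω => if z ∈ cS ends ω D (A : Set V) then (1 : ℝ) else 0) *
            ta ends p z u) * ta ends p z w := mul_le_mul_of_nonneg_right h3 (ta_nonneg h0 h1 z w)
      _ = _ := by ring
  · rw [Ex_sum]
    refine Finset.sum_le_sum fun a' _ => ?_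
    have h2 := bk h0 h1 (Pth ends a u) (Pth ends a' w)
    rw [e1, e1] at h2
    exact h2

private lemma G4a_mono {p p' : ℝ} (h0 : 0 ≤ p) (hpp : p ≤ p') (h1 : p' ≤ 1) (f : (E → Bool) → ℝ)
    (hf : ∀ ω ω' : E → Bool, (∀ e, ω e = true → ω' e = true) → f ω ≤ f ω') : Ex p f ≤ Ex p' f := by
  rcases eq_or_lt_of_le (hpp.trans h1) with hp | hp
  · have : p' = p := le_antisymm (by rw [hp]; exact h1) hpp
    rw [this]
  · have hq : 0 < 1 - p := by linarith
    have hs0 : 0 ≤ (p' - p) / (1 - p) := div_nonneg (by linarith) hq.le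
    have hs1 : (p' - p) / (1 - p) ≤ 1 := by
      rw [div_le_one hq]
      linarith
    have he : p' = 1 - (1 - p) * (1 - (p' - p) / (1 - p)) := by
      field_simp
      ring
    rw [he, Ex_orc]
    refine Ex_mono h0 hp.le fun ω => ?_
    calc f ω = Ex ((p' - p) / (1 - p)) (fun _ : E → Bool => f ω) := (Ex_const _ _).symm
      _ ≤ Ex ((p' - p) / (1 - p)) (fun ω' => f (orc ω ω')) := by
        refine Ex_mono hs0 hs1 fun ω' => hf _ _ fun e h => ?_
        simp [orc, h]

/-- Row G4. `ta` is monotone in `p` (the event is increasing; e.g. `Ex_orc` with `1 - p' = (1-p)(1-s)`, or the derivative). -/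
lemma ta_mono_p {p p' : ℝ} (h0 : 0 ≤ p) (hpp : p ≤ p') (h1 : p' ≤ 1) (x y : V) : ta ends p x y ≤ ta ends p' x y := by
  classical
  unfold ta
  refine G4a_mono h0 hpp h1 _ fun ω ω' h => ?_
  by_cases hx : y ∈ cu ends ω x
  · rw [if_pos hx, if_pos (mem_cu.2 ((mem_cu.1 hx).mono h (Set.subset_univ _)))]
  · rw [if_neg hx]
    split_ifs <;> norm_num

/-- Row G4. An increasing function has an increasing expectation (the same proof). -/
lemma Ex_mono_p {p p' : ℝ} (h0 : 0 ≤ p) (hpp : p ≤ p') (h1 : p' ≤ 1) (f : (E → Bool) → ℝ)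
    (hf : ∀ ω ω' : E → Bool, (∀ e, ω e = true → ω' e = true) → f ω ≤ f ω') : Ex p f ≤ Ex p' f := by
  exact G4a_mono h0 hpp h1 f hf

/-- Row G4. Deterministic second configuration: `s = 0`. -/
lemma Ex_zero' (f : (E → Bool) → ℝ) : Ex 0 f = f (fun _ => false) := by
  unfold Ex
  rw [Finset.sum_eq_single (fun _ => false)]
  · simp [wt]
  · intro ω _ h
    have : ∃ e, ω e = true := by
      by_contra hc
      push Not at hc
      exact h (funext fun e => by simpa using hc e)
    obtain ⟨e, he⟩ := this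
    have hw : wt 0 ω = 0 := by
      unfold wt
      exact Finset.prod_eq_zero (Finset.mem_univ e) (by rw [if_pos he])
    rw [hw, zero_mul]
  · intro h
    exact absurd (Finset.mem_univ _) h

/-- Row G4. The expectation is a continuous function of `p` (a polynomial). -/
lemma Ex_cont (f : (E → Bool) → ℝ) : Continuous (fun p : ℝ => Ex p f) := by
  unfold Ex wt
  refine continuous_finsetSum _ fun ω _ => Continuous.mul ?_ continuous_const
  refine continuous_finsetProd _ fun e _ => ?_
  split_ifs
  · exact continuous_id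
  · exact continuous_const.sub continuous_id

/-- The probability of a cylinder. -/
private lemma G4b_cyl (p : ℝ) (K : Finset E) (η : E → Bool) :
    ∑ ω : E → Bool, wt p ω * (if ∀ e, e ∉ K → ω e = η e then (1 : ℝ) else 0) =
      ∏ e, (if e ∈ K then (1 : ℝ) else (if η e = true then p else 1 - p)) := by
  classical
  have h3 : ∀ ω : E → Bool, wt p ω * (if ∀ e, e ∉ K → ω e = η e then (1 : ℝ) else 0) =
      ∏ e, (if e ∈ K then (if ω e = true then p else 1 - p) else
        (if ω e = η e then (if ω e = true then p else 1 - p) else 0)) := by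
    intro ω
    unfold wt
    by_cases h : ∀ e, e ∉ K → ω e = η e
    · rw [if_pos h, mul_one]
      refine Finset.prod_congr rfl fun e _ => ?_
      by_cases he : e ∈ K
      · rw [if_pos he]
      · rw [if_neg he, if_pos (h e he)]
    · rw [if_neg h, mul_zero]
      push Not at h
      obtain ⟨e, he, hω⟩ := h
      symm
      apply Finset.prod_eq_zero (Finset.mem_univ e)
      rw [if_neg he, if_neg hω]
  rw [Finset.sum_congr rfl (fun ω _ => h3 ω)]
  have h4 := (Finset.prod_univ_sum (fun _ : E => (Finset.univ : Finset Bool))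
    (fun e b => if e ∈ K then (if b = true then p else 1 - p) else
        (if b = η e then (if b = true then p else 1 - p) else 0)))
  rw [Fintype.piFinset_univ] at h4
  rw [← h4]
  refine Finset.prod_congr rfl fun e _ => ?_
  by_cases he : e ∈ K
  · simp [he]
  · cases hη : η e <;> simp [he]

private lemma G4b_wt {p : ℝ} (h0 : 0 < p) (h1 : p < 1) (K : Finset E) (η : E → Bool) :
    (min p (1 - p)) ^ K.card * ∏ e, (if e ∈ K then (1 : ℝ) else (if η e = true then p else 1 - p)) ≤
      wt p η := by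
  have hm : 0 < min p (1 - p) := lt_min h0 (by linarith)
  have e1 : (min p (1 - p)) ^ K.card = ∏ e : E, (if e ∈ K then min p (1 - p) else 1) := by
    rw [Finset.prod_ite_mem, Finset.univ_inter, Finset.prod_const]
  rw [e1, ← Finset.prod_mul_distrib]
  unfold wt
  refine Finset.prod_le_prod (fun e _ => ?_) (fun e _ => ?_)
  · refine mul_nonneg ?_ ?_
    · split_ifs
      · exact hm.le
      · exact zero_le_one
    · split_ifs
      · exact zero_le_one
      · exact h0.le
      · linarith
  · by_cases he : e ∈ K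
    · rw [if_pos he, if_pos he, mul_one]
      split_ifs
      · exact min_le_left _ _
      · exact min_le_right _ _
    · rw [if_neg he, if_neg he, one_mul]

/-- Row G4. Reset of the edges in `K`. If `T ω` agrees with `ω` off `K`, then for `f ≥ 0`:
`min(p,1-p)^|K| * E f(T ω) ≤ E f(ω)`. Proof: group the configurations `ω` according to `ω' = T ω`: the ones with the same image agree with it off `K`, so their total weight is at most
the weight of the coordinates off `K`, which is `wt ω' / (weight of ω' on K) ≤ wt ω' / min(p,1-p)^|K|`. (E.g. `∑_ω wt ω f(T ω) = ∑_{ω'} f ω' ∑_{ω : T ω = ω'} wt ω`.) -/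
lemma Ex_reset {p : ℝ} (h0 : 0 < p) (h1 : p < 1) (K : Finset E) (T : (E → Bool) → (E → Bool))
    (hT : ∀ ω, ∀ e, e ∉ K → T ω e = ω e) (f : (E → Bool) → ℝ) (hf : ∀ ω, 0 ≤ f ω) :
    (min p (1 - p)) ^ K.card * Ex p (fun ω => f (T ω)) ≤ Ex p f := by
  classical
  have hm : 0 < min p (1 - p) := lt_min h0 (by linarith)
  have hL : Ex p (fun ω => f (T ω)) ≤ ∑ η : E → Bool, f η *
      ∑ ω : E → Bool, wt p ω * (if ∀ e, e ∉ K → ω e = η e then (1 : ℝ) else 0) := by
    have e1 : Ex p (fun ω => f (T ω)) = ∑ η : E → Bool, ∑ ω : E → Bool,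
        (if η = T ω then wt p ω * f η else 0) := by
      unfold Ex
      rw [Finset.sum_comm]
      refine Finset.sum_congr rfl fun ω _ => ?_
      rw [Finset.sum_ite_eq' Finset.univ (T ω) (fun η => wt p ω * f η)]
      simp
    rw [e1]
    refine Finset.sum_le_sum fun η _ => ?_
    rw [Finset.mul_sum]
    refine Finset.sum_le_sum fun ω _ => ?_
    by_cases hη : η = T ω
    · rw [if_pos hη, if_pos]
      · rw [mul_one, mul_comm]
      · intro e he
        rw [hη, hT ω e he]
    · rw [if_neg hη]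
      refine mul_nonneg (hf η) (mul_nonneg (wt_nonneg h0.le h1.le ω) ?_)
      split_ifs <;> norm_num
  refine (mul_le_mul_of_nonneg_left hL (pow_nonneg hm.le _)).trans ?_
  rw [Finset.mul_sum]
  unfold Ex
  refine Finset.sum_le_sum fun η _ => ?_
  rw [G4b_cyl]
  have h2 := mul_le_mul_of_nonneg_left (G4b_wt h0 h1 K η) (hf η)
  linarith

end Pool.Agent.PERC29.DZ
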