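import Pool.Agent.Lib.MP_29e17e_pr.Bridge
import Pool.Agent.Lib.MP_29e17e_pr.V.Df
import Pool.Agent.Lib.MP_29e17e_pr.V.Lt

namespace Pool.Agent.PERC29
end Pool.Agent.PERC29
namespace Pool.Agent.PERC29.AE
end Pool.Agent.PERC29.AE

set_option autoImplicit false
set_option linter.unusedSectionVars false

/-! Definitions for the rows 29d. -/

open Finset

namespace Pool.Agent.PERC29.DZ

open Pool.Agent.PERC29 Pool.Agent.PERC29.AE

/-- The lattice. -/
abbrev Zd (d : ℕ) := Fin d → ℤ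

variable {d : ℕ}

/-- The maximum norm. -/
def nz (x : Zd d) : ℕ := Finset.univ.sup (fun i => (x i).natAbs)

/-- The kernel `(1 + |x|)^(-k)`. -/
noncomputable def fz (k : ℕ) (x : Zd d) : ℝ := 1 / (1 + (nz x : ℝ)) ^ k

/-- The ball of radius `R` about the origin. -/
noncomputable def bz (R : ℕ) : Finset (Zd d) := Finset.Icc (fun _ => -(R : ℤ)) (fun _ => (R : ℤ))

/-- The ball of radius `R` about `v`. -/
noncomputable def bv (v : Zd d) (R : ℕ) : Finset (Zd d) := Finset.Icc (fun i => v i - (R : ℤ)) (fun i => v i + (R : ℤ))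

noncomputable instance bxF (d l : ℕ) : Fintype (boxG d l).edgeSet := Fintype.ofFinite _

section gen

variable {V : Type*} [Fintype V] [DecidableEq V] {E : Type*} [Fintype E] [DecidableEq E]

open scoped Classical in
/-- The vertices joined to `A` by open paths off `D`. -/
noncomputable def cS (ends : E → Sym2 V) (ω : E → Bool) (D A : Set V) : Finset V :=
  Finset.univ.filter (fun y => ∃ a ∈ A, a ∉ D ∧ Rch ends ω Dᶜ a y)

/-- `1 - (1-h)^k`. -/
noncomputable def gh (h : ℝ) (k : ℕ) : ℝ := 1 - (1 - h) ^ k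

/-- `k (1-h)^k`. -/
noncomputable def fh (h : ℝ) (k : ℕ) : ℝ := (k : ℝ) * (1 - h) ^ k

/-- The probability that `A` is joined to the green vertices off `D`. -/
noncomputable def piS (ends : E → Sym2 V) (p h : ℝ) (D A : Set V) : ℝ :=
  Ex p (fun ω => gh h (cS ends ω D A).card)

/-- The size biased functional. -/
noncomputable def sgS (ends : E → Sym2 V) (p h : ℝ) (D A : Set V) : ℝ :=
  Ex p (fun ω => fh h (cS ends ω D A).card)

end gen

/-- The position of `x` relative to `u`. -/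
def rel {l : ℕ} (u x : Fin d → Fin l) : Zd d := fun i => ((x i : ℕ) : ℤ) - ((u i : ℕ) : ℤ)

/-- The vertices of the box with relative position in `D`. -/
def pre {l : ℕ} (u : Fin d → Fin l) (D : Finset (Zd d)) : Set (Fin d → Fin l) := {x | rel u x ∈ D}

/-- The functionals in the box with base point `u`. -/
noncomputable def piF (l : ℕ) (u : Fin d → Fin l) (p h : ℝ) (D A : Finset (Zd d)) : ℝ :=
  piS (gends (boxG d l)) p h (pre u D) (pre u A)

noncomputable def sgF (l : ℕ) (u : Fin d → Fin l) (p h : ℝ) (D A : Finset (Zd d)) : ℝ :=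
  sgS (gends (boxG d l)) p h (pre u D) (pre u A)

/-- The cluster of `A` off `D` inside the ball of radius `R` about `u`. -/
noncomputable def BB {l : ℕ} (u : Fin d → Fin l) (R : ℕ) (D A : Finset (Zd d))
    (ω : (boxG d l).edgeSet → Bool) : Finset (Fin d → Fin l) :=
  cS (gends (boxG d l)) ω (pre u D ∪ {x | rel u x ∉ (bz R : Finset (Zd d))}) (pre u A)

open scoped Classical in
/-- The next vertices. -/
noncomputable def NB {l : ℕ} (u : Fin d → Fin l) (R : ℕ) (D A : Finset (Zd d))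
    (ω η : (boxG d l).edgeSet → Bool) : Finset (Fin d → Fin l) :=
  Finset.univ.filter (fun v => v ∉ pre u D ∧ v ∉ BB u R D A ω ∧ ∃ a ∈ BB u R D A ω, ∃ e,
    gends (boxG d l) e = s(a, v) ∧ (if rel u v ∈ (bz R : Finset (Zd d)) then η e = true
      else (ω e = true ∨ η e = true)))

/-- The same as sets of relative positions. -/
noncomputable def Bz {l : ℕ} (u : Fin d → Fin l) (R : ℕ) (D A : Finset (Zd d))
    (ω : (boxG d l).edgeSet → Bool) : Finset (Zd d) := (BB u R D A ω).image (rel u)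

noncomputable def Nz {l : ℕ} (u : Fin d → Fin l) (R : ℕ) (D A : Finset (Zd d))
    (ω η : (boxG d l).edgeSet → Bool) : Finset (Zd d) := (NB u R D A ω η).image (rel u)

/-- The centre of the window of radius `R`. -/
def cR (d R : ℕ) : Fin d → Fin (2 * R + 3) := fun _ => ⟨R + 1, by omega⟩

/-- The configurations of the window. -/
abbrev Om (d R : ℕ) := (boxG d (2 * R + 3)).edgeSet → Bool

noncomputable def Wb (R : ℕ) (D A : Finset (Zd d)) (ω : Om d R) : Finset (Zd d) := Bz (cR d R) R D A ω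

noncomputable def Wn (R : ℕ) (D A : Finset (Zd d)) (ω η : Om d R) : Finset (Zd d) :=
  Nz (cR d R) R D A ω η

/-- The part of the next vertices inside the ball. -/
noncomputable def Wr (R : ℕ) (D A : Finset (Zd d)) (ω η : Om d R) : Finset (Zd d) :=
  (Wn R D A ω η).filter (fun v => v ∈ (bz R : Finset (Zd d)))

/-- The part of the next vertices outside the ball. -/
noncomputable def We (R : ℕ) (D A : Finset (Zd d)) (ω η : Om d R) : Finset (Zd d) :=
  (Wn R D A ω η).filter (fun v => v ∉ (bz R : Finset (Zd d)))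

/-- The hypotheses on the boxes which are used for the uniqueness theorem. -/
structure HP (d : ℕ) (C pc : ℝ) : Prop where
  d11 : 11 ≤ d
  C1 : 1 ≤ C
  p0 : 0 < pc
  p1 : pc < 1
  U : ∀ (l : ℕ) (x y : Fin d → Fin l), ta (gends (boxG d l)) pc x y ≤ C * fk (d - 2) x y
  X : ∀ (l : ℕ) (x : Fin d → Fin l) (p : ℝ), 0 < p → p < pc →
    Ex p (fun ω => cz (gends (boxG d l)) ω x) ≤ C / (pc - p)

/-- The class of the limits. -/
structure SL (d : ℕ) (C L pc : ℝ) (φ : Finset (Zd d) → Finset (Zd d) → ℝ) : Prop where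
  nn : ∀ D A, 0 ≤ φ D A
  em : ∀ D, φ D ∅ = 0
  on : ∀ v, φ ∅ {v} = 1
  ex : ∀ (R : ℕ) (p1 s : ℝ) (D A : Finset (Zd d)), 0 < p1 → p1 ≤ pc → 0 ≤ s → s < 1 →
    1 - pc = (1 - p1) * (1 - s) → A ⊆ bz R →
    φ D A = Ex p1 (fun ω => Ex s (fun η => φ (D ∪ Wb R D A ω) (Wn R D A ω η)))
  lo0 : ∀ D D' A, φ (D ∪ D') A ≤ φ D A
  lo : ∀ D D' A, φ D A - φ (D ∪ D') A ≤ L * ∑ a ∈ A, ∑ s ∈ D', C * fz (d - 2) (a - s)
  mo : ∀ D A A', φ D A ≤ φ D (A ∪ A')
  sb : ∀ D A A', φ D (A ∪ A') ≤ φ D A + ∑ a ∈ A', φ D {a}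
  su : ∀ D A, ∑ a ∈ A, φ D {a} - φ D A ≤ L * ∑ a ∈ A, ∑ a' ∈ A.erase a, C * fz (d - 4) (a - a')

/-- The class of the differences. -/
structure HL (d : ℕ) (C L H0 pc : ℝ) (H : Finset (Zd d) → Finset (Zd d) → ℝ) : Prop where
  nn : ∀ D A, 0 ≤ H D A
  on : ∀ v, H ∅ {v} = H0
  ex : ∀ (R : ℕ) (p1 s : ℝ) (D A : Finset (Zd d)), 0 < p1 → p1 ≤ pc → 0 ≤ s → s < 1 →
    1 - pc = (1 - p1) * (1 - s) → A ⊆ bz R →
    H D A = Ex p1 (fun ω => Ex s (fun η => H (D ∪ Wb R D A ω) (Wn R D A ω η)))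
  lo : ∀ D D' A, |H D A - H (D ∪ D') A| ≤ L * ∑ a ∈ A, ∑ s ∈ D', C * fz (d - 2) (a - s)
  mo : ∀ D A A', |H D (A ∪ A') - H D A| ≤ L * (A'.card : ℝ)
  su : ∀ D A, |∑ a ∈ A, H D {a} - H D A| ≤ L * ∑ a ∈ A, ∑ a' ∈ A.erase a, C * fz (d - 4) (a - a')

end Pool.Agent.PERC29.DZ
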