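import Pool.Agent.Lib.MP_29e17e_pr.Z.Wi

set_option autoImplicit false
set_option linter.unusedSectionVars false

/-! Rows 29d-U1 .. 29d-U9: the uniqueness theorem. -/

open Finset

namespace Pool.Agent.PERC29.DZ

open Pool.Agent.PERC29 Pool.Agent.PERC29.AE

variable {d : ℕ}

/-- The unit vector number zero. -/
def e0 {d : ℕ} (hd : 0 < d) : Zd d := Pi.single ⟨0, hd⟩ 1

/-- `γ` consists of the points `v - k e0`, `1 ≤ k ≤ n`, and of at most `(4 d + 8) (n + 1)` points at distance exactly `n` from `v`. -/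
def Axi (hd : 0 < d) (v : Zd d) (n : ℕ) (γ : Finset (Zd d)) : Prop :=
  (∀ s ∈ γ, nz (s - v) = n ∨ ∃ k : ℕ, 1 ≤ k ∧ k ≤ n ∧ s = v - (k : ℤ) • e0 hd) ∧
  (∀ k : ℕ, 1 ≤ k → k ≤ n → v - (k : ℤ) • e0 hd ∈ γ) ∧
  (γ.filter (fun s => nz (s - v) = n)).card ≤ (4 * d + 8) * (n + 1)

/-- Row U1. `Axi` sets: energy outside of the ball of radius `ρ` (`axis_z` with `m = 4d+8`), `v ∉ γ` for `n ≥ 1`. -/
lemma axi_en (hd : 5 ≤ d) (v : Zd d) (n ρ : ℕ) (hρ : ρ ≤ n) (γ : Finset (Zd d)) (hγ : Axi (by omega) v n γ) :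
    ∑ s ∈ γ.filter (fun s => ρ < nz (s - v)), fz (d - 2) (s - v) ≤ (4 * (d : ℝ) + 10) / (1 + (ρ : ℝ)) := by
  obtain ⟨h1, -, h3⟩ := hγ
  have h4 := axis_z hd v γ n ρ (4 * d + 8) hρ
    (fun s hs => (h1 s hs).imp id (fun ⟨k, hk1, hk2, hk3⟩ => ⟨k, hk1, hk2, by
      rw [hk3, e0, ← Pi.single_smul]; simp⟩)) h3
  refine h4.trans (le_of_eq ?_)
  push_cast
  ring

private lemma U1b_bd {K L S x y X : ℝ} (hK : 0 ≤ K) (hx0 : 0 ≤ x) (hx : x ≤ L * S) (hy0 : 0 ≤ y)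
    (hy : y ≤ L * S) {B : ℝ} (hX : X = K * x - y) (hB : B = (K + 1) * (L * S)) : |X| ≤ B := by
  have h1 : K * x ≤ K * (L * S) := mul_le_mul_of_nonneg_left hx hK
  have h2 : 0 ≤ K * x := mul_nonneg hK hx0
  have h3 : 0 ≤ L * S := hy0.trans hy
  have h4 : 0 ≤ K * (L * S) := mul_nonneg hK h3
  rw [hX, hB, abs_le]
  constructor <;> linarith

private lemma U1b_mo {C L pc : ℝ} {φ : Finset (Zd d) → Finset (Zd d) → ℝ} (hφ : SL d C L pc φ)
    (D A A' : Finset (Zd d)) : φ D (A ∪ A') - φ D A ≤ (A'.card : ℝ) := by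
  have h1 := hφ.sb D A A'
  have h2 : ∑ a ∈ A', φ D {a} ≤ ∑ _a ∈ A', (1 : ℝ) := by
    refine Finset.sum_le_sum fun a _ => ?_
    have h3 := hφ.lo0 ∅ D {a}
    rw [Finset.empty_union, hφ.on] at h3
    exact h3
  rw [Finset.sum_const, nsmul_eq_mul, mul_one] at h2
  linarith

private lemma U1b_sb {C L pc : ℝ} {φ : Finset (Zd d) → Finset (Zd d) → ℝ} (hφ : SL d C L pc φ)
    (D A : Finset (Zd d)) : 0 ≤ ∑ a ∈ A, φ D {a} - φ D A := by
  have h1 := hφ.sb D ∅ A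
  rw [Finset.empty_union, hφ.em] at h1
  linarith

/-- Row U1. Linear combination of two members of the class. `mo`: `|K (ψ(A ∪ A') - ψ(A)) - (φ(A ∪ A') - φ(A))| ≤ (K+1) |A'|` because `φ D {a} ≤ φ ∅ {a} = 1` (`lo0`, `on`)
and `0 ≤ φ(A ∪ A') - φ(A) ≤ ∑ φ D {a}`. `lo`, `su`: the differences of `φ`, `ψ` are between `0` and the bound (for `su` the lower bound `0 ≤ ∑ φ D {a} - φ D A` is `sb` with `A = ∅`).
`ex` is linear (`Ex_add`, `Ex_mul_left`). -/
lemma SL_comb {C L pc K : ℝ} (hC : 1 ≤ C) (hL : 1 ≤ L) (hK : 0 ≤ K) {φ ψ : Finset (Zd d) → Finset (Zd d) → ℝ} (hφ : SL d C L pc φ)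
    (hψ : SL d C L pc ψ) (hle : ∀ D A, φ D A ≤ K * ψ D A) :
    HL d C ((K + 1) * L) (K - 1) pc (fun D A => K * ψ D A - φ D A) := by
  refine ⟨fun D A => sub_nonneg.2 (hle D A), fun v => ?_, ?_, ?_, ?_, ?_⟩
  · show K * ψ ∅ {v} - φ ∅ {v} = K - 1
    rw [hψ.on, hφ.on, mul_one]
  · intro R p1 s D A h1 h2 h3 h4 h5 h6
    show K * ψ D A - φ D A = Ex p1 (fun ω => Ex s (fun η =>
      K * ψ (D ∪ Wb R D A ω) (Wn R D A ω η) - φ (D ∪ Wb R D A ω) (Wn R D A ω η)))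
    rw [hψ.ex R p1 s D A h1 h2 h3 h4 h5 h6, hφ.ex R p1 s D A h1 h2 h3 h4 h5 h6, ← Ex_mul_left]
    have h7 : ∀ ω : Om d R, Ex s (fun η : Om d R => K * ψ (D ∪ Wb R D A ω) (Wn R D A ω η) -
        φ (D ∪ Wb R D A ω) (Wn R D A ω η)) =
        K * Ex s (fun η => ψ (D ∪ Wb R D A ω) (Wn R D A ω η)) +
          (-1) * Ex s (fun η => φ (D ∪ Wb R D A ω) (Wn R D A ω η)) := by
      intro ω
      rw [← Ex_mul_left, ← Ex_mul_left, ← Ex_add]
      exact Ex_congr fun η => by ring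
    rw [Ex_congr h7, Ex_add, Ex_mul_left p1 (-1)]
    ring
  · intro D D' A
    exact U1b_bd hK (sub_nonneg.2 (hψ.lo0 D D' A)) (hψ.lo D D' A) (sub_nonneg.2 (hφ.lo0 D D' A))
      (hφ.lo D D' A) (by ring) (by ring)
  · intro D A A'
    have h1 := hψ.mo D A A'
    have h2 := hφ.mo D A A'
    have h3 := U1b_mo hφ D A A'
    have h4 := U1b_mo hψ D A A'
    have hc : (A'.card : ℝ) ≤ L * (A'.card : ℝ) :=
      le_mul_of_one_le_left (Nat.cast_nonneg _) hL
    exact U1b_bd hK (sub_nonneg.2 h1) (h4.trans hc) (sub_nonneg.2 h2) (h3.trans hc)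
      (by ring) (by ring)
  · intro D A
    have h1 : 0 ≤ ∑ a ∈ A, ψ D {a} - ψ D A := U1b_sb hψ D A
    have h2 : 0 ≤ ∑ a ∈ A, φ D {a} - φ D A := U1b_sb hφ D A
    refine U1b_bd hK h1 (hψ.su D A) h2 (hφ.su D A) ?_ (by ring)
    rw [Finset.sum_sub_distrib, ← Finset.mul_sum]
    ring

/-- Row U1. A member of the class is in the second class with `H0 = 1` (the same estimates, or `K = 0`). -/
lemma SL_HL {C L pc : ℝ} (hC : 1 ≤ C) (hL : 1 ≤ L) {φ : Finset (Zd d) → Finset (Zd d) → ℝ} (hφ : SL d C L pc φ) : HL d C L 1 pc φ := by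
  refine ⟨hφ.nn, hφ.on, hφ.ex, ?_, ?_, ?_⟩
  · intro D D' A
    rw [abs_of_nonneg (sub_nonneg.2 (hφ.lo0 D D' A))]
    exact hφ.lo D D' A
  · intro D A A'
    rw [abs_of_nonneg (sub_nonneg.2 (hφ.mo D A A'))]
    exact (U1b_mo hφ D A A').trans (le_mul_of_one_le_left (Nat.cast_nonneg _) hL)
  · intro D A
    rw [abs_of_nonneg (U1b_sb hφ D A)]
    exact hφ.su D A

/-- Row U1. -/
lemma SL_mono {C L L' pc : ℝ} (hC : 0 ≤ C) (hL : L ≤ L') {φ : Finset (Zd d) → Finset (Zd d) → ℝ} (hφ : SL d C L pc φ) : SL d C L' pc φ := by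
  refine ⟨hφ.nn, hφ.em, hφ.on, hφ.ex, hφ.lo0, ?_, hφ.mo, hφ.sb, ?_⟩
  · intro D D' A
    refine (hφ.lo D D' A).trans (mul_le_mul_of_nonneg_right hL ?_)
    exact Finset.sum_nonneg fun a _ => Finset.sum_nonneg fun b _ => mul_nonneg hC (fz_pos _ _).le
  · intro D A
    refine (hφ.su D A).trans (mul_le_mul_of_nonneg_right hL ?_)
    exact Finset.sum_nonneg fun a _ => Finset.sum_nonneg fun b _ => mul_nonneg hC (fz_pos _ _).le

private lemma U2_ab {E : Type*} [Fintype E] [DecidableEq E] {p : ℝ} (h0 : 0 ≤ p) (h1 : p ≤ 1) {f g h : (E → Bool) → ℝ}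
    (H : ∀ ω, |f ω - g ω| ≤ h ω) : |Ex p f - Ex p g| ≤ Ex p h := by
  have e1 : Ex p f ≤ Ex p (fun ω => g ω + h ω) := Ex_mono h0 h1 (fun ω => by
    have := abs_le.1 (H ω)
    linarith [this.2])
  have e2 : Ex p g ≤ Ex p (fun ω => f ω + h ω) := Ex_mono h0 h1 (fun ω => by
    have := abs_le.1 (H ω)
    linarith [this.1])
  rw [Ex_add] at e1 e2
  rw [abs_le]
  constructor <;> linarith

/-- Row U2. (2.2) Linearization: `H D A = E H(D ∪ Wb) Wn` (`ex`), `|H(Wn) - H(Wr)| ≤ L |We|` (`mo`, `Wn = Wr ∪ We`), `|∑_{v ∈ Wr} H {v} - H Wr| ≤ L ∑∑ C fz (d-4)` (`su`), `en2`. -/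
lemma linz {C pc : ℝ} (hp : HP d C pc) : ∃ K : ℝ, 1 ≤ K ∧ ∀ (L H0 : ℝ) (H : Finset (Zd d) → Finset (Zd d) → ℝ), 0 ≤ L → HL d C L H0 pc H →
    ∀ (R : ℕ) (D A : Finset (Zd d)), A ⊆ bz R → ∀ (p1 s : ℝ), 0 < p1 → p1 ≤ pc → 0 ≤ s → s < 1 → 1 - pc = (1 - p1) * (1 - s) →
    |H D A - Ex p1 (fun ω => Ex s (fun η => ∑ v ∈ Wr R D A ω η, H (D ∪ Wb R D A ω) {v}))| ≤
      L * (Ex p1 (fun ω => Ex s (fun η => ((We R D A ω η).card : ℝ))) +
        K * s ^ 2 * (Ex p1 (fun ω => ((Wb R D A ω).card : ℝ)) + (A.card : ℝ) ^ 2)) := by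
  classical
  obtain ⟨K2, hK2, H2⟩ := en2 hp
  have hC := hp.C1
  refine ⟨K2 * C, by nlinarith, ?_⟩
  intro L H0 H hL hH R D A hA p1 s hp0 hp1 hs0 hs1 hps
  have hp1' : p1 ≤ 1 := hp1.trans hp.p1.le
  have hpt : ∀ (ω η : Om d R), |H (D ∪ Wb R D A ω) (Wn R D A ω η) - ∑ v ∈ Wr R D A ω η, H (D ∪ Wb R D A ω) {v}| ≤
      L * ((We R D A ω η).card : ℝ) +
        L * C * ∑ v ∈ Wr R D A ω η, ∑ w ∈ (Wr R D A ω η).erase v, fz (d - 4) (v - w) := by
    intro ω η
    have hun : Wr R D A ω η ∪ We R D A ω η = Wn R D A ω η := by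
      unfold Wr We
      exact Finset.filter_union_filter_not_eq _ _
    have h1 := hH.mo (D ∪ Wb R D A ω) (Wr R D A ω η) (We R D A ω η)
    have h2 := hH.su (D ∪ Wb R D A ω) (Wr R D A ω η)
    rw [hun] at h1
    have h3 : L * ∑ a ∈ Wr R D A ω η, ∑ a' ∈ (Wr R D A ω η).erase a, C * fz (d - 4) (a - a') =
        L * C * ∑ v ∈ Wr R D A ω η, ∑ w ∈ (Wr R D A ω η).erase v, fz (d - 4) (v - w) := by
      simp only [← Finset.mul_sum]
      ring
    rw [h3] at h2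
    have h4 := abs_sub_le (H (D ∪ Wb R D A ω) (Wn R D A ω η)) (H (D ∪ Wb R D A ω) (Wr R D A ω η))
      (∑ v ∈ Wr R D A ω η, H (D ∪ Wb R D A ω) {v})
    rw [abs_sub_comm (∑ v ∈ Wr R D A ω η, H (D ∪ Wb R D A ω) {v})] at h2
    linarith
  rw [hH.ex R p1 s D A hp0 hp1 hs0 hs1 hps hA]
  have hin : ∀ ω : Om d R, |Ex s (fun η => H (D ∪ Wb R D A ω) (Wn R D A ω η)) -
      Ex s (fun η => ∑ v ∈ Wr R D A ω η, H (D ∪ Wb R D A ω) {v})| ≤
      Ex s (fun η => L * ((We R D A ω η).card : ℝ) +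
        L * C * ∑ v ∈ Wr R D A ω η, ∑ w ∈ (Wr R D A ω η).erase v, fz (d - 4) (v - w)) :=
    fun ω => U2_ab hs0 hs1.le (hpt ω)
  refine (U2_ab hp0.le hp1' hin).trans ?_
  simp only [Ex_add, Ex_mul_left]
  have h5 := H2 R D A hA p1 s hp0 hp1 hs0 hs1.le
  have h6 : L * C * Ex p1 (fun ω => Ex s (fun η => ∑ v ∈ Wr R D A ω η, ∑ w ∈ (Wr R D A ω η).erase v, fz (d - 4) (v - w))) ≤
      L * C * (K2 * s ^ 2 * (Ex p1 (fun ω => ((Wb R D A ω).card : ℝ)) + (A.card : ℝ) ^ 2)) :=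
    mul_le_mul_of_nonneg_left h5 (by positivity)
  have h7 : L * (Ex p1 (fun ω => Ex s (fun η => ((We R D A ω η).card : ℝ))) +
        K2 * C * s ^ 2 * (Ex p1 (fun ω => ((Wb R D A ω).card : ℝ)) + (A.card : ℝ) ^ 2)) =
      L * Ex p1 (fun ω => Ex s (fun η => ((We R D A ω η).card : ℝ))) +
        L * C * (K2 * s ^ 2 * (Ex p1 (fun ω => ((Wb R D A ω).card : ℝ)) + (A.card : ℝ) ^ 2)) := by ring
  rw [h7]
  linarith

/-- The vertices off `gam` in the ball of radius `ρ` about `v`. -/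
def Tw (hd : 0 < d) (v : Zd d) (ρ : ℕ) : Finset (Zd d) :=
  (Finset.Icc 1 ρ).image (fun k : ℕ => v - (k : ℤ) • e0 hd)

private lemma U3a_mem_bv (v : Zd d) (R : ℕ) (x : Zd d) :
    x ∈ bv v R ↔ ∀ i, v i - (R : ℤ) ≤ x i ∧ x i ≤ v i + (R : ℤ) := by
  simp only [bv, Finset.mem_Icc, Pi.le_def, forall_and]

private lemma U3a_mem_bz (R : ℕ) (x : Zd d) :
    x ∈ (bz R : Finset (Zd d)) ↔ ∀ i, -(R : ℤ) ≤ x i ∧ x i ≤ (R : ℤ) := by
  simp only [bz, Finset.mem_Icc, Pi.le_def, forall_and]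

private lemma U3a_nz (x : Zd d) (R : ℕ) (h : nz x ≤ R) (i : Fin d) : -(R : ℤ) ≤ x i ∧ x i ≤ (R : ℤ) := by
  have h1 : (x i).natAbs ≤ nz x := Finset.le_sup (f := fun i => (x i).natAbs) (Finset.mem_univ i)
  omega

private lemma U3a_nz_le (x : Zd d) (R : ℕ) (h : ∀ i, -(R : ℤ) ≤ x i ∧ x i ≤ (R : ℤ)) : nz x ≤ R := by
  apply Finset.sup_le
  intro i _
  have := h i
  omega

private lemma U3a_mem_Tw (hd : 0 < d) (v : Zd d) (ρ : ℕ) (w : Zd d) :
    w ∈ Tw hd v ρ ↔ (∀ j, j ≠ ⟨0, hd⟩ → w j = v j) ∧ v ⟨0, hd⟩ - (ρ : ℤ) ≤ w ⟨0, hd⟩ ∧ w ⟨0, hd⟩ < v ⟨0, hd⟩ := by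
  simp only [Tw, e0, Finset.mem_image, Finset.mem_Icc]
  constructor
  · rintro ⟨k, ⟨hk1, hk2⟩, rfl⟩
    refine ⟨?_, ?_, ?_⟩
    · intro j hj
      simp [Pi.single_eq_of_ne hj]
    · simp; omega
    · simp; omega
  · rintro ⟨h1, h2, h3⟩
    refine ⟨(v ⟨0, hd⟩ - w ⟨0, hd⟩).toNat, ⟨by omega, by omega⟩, ?_⟩
    have h4 : (((v ⟨0, hd⟩ - w ⟨0, hd⟩).toNat : ℕ) : ℤ) = v ⟨0, hd⟩ - w ⟨0, hd⟩ := by omega
    rw [h4]
    funext j
    by_cases hj : j = ⟨0, hd⟩
    · subst hj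
      simp
    · simp [Pi.single_eq_of_ne hj, h1 j hj]

/-- the distance which decreases along the path to the centre -/
private def U3a_m (v w : Zd d) : ℕ := ∑ j, (w j - v j).natAbs

private lemma U3a_dec (v w w' : Zd d) (i : Fin d) (hi : (w' i - v i).natAbs < (w i - v i).natAbs)
    (hj : ∀ j, j ≠ i → w' j = w j) : U3a_m v w' < U3a_m v w := by
  apply Finset.sum_lt_sum
  · intro j _
    by_cases h : j = i
    · rw [h]; exact hi.le
    · rw [hj j h]
  · exact ⟨i, Finset.mem_univ i, hi⟩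

private lemma U3a_step (hd : 0 < d) (v : Zd d) (ρ : ℕ) (w : Zd d) (hw : w ∈ bv v ρ) (hw' : w ∉ Tw hd v ρ) (hne : w ≠ v) :
    ∃ w', w' ∈ bv v ρ ∧ w' ∉ Tw hd v ρ ∧ U3a_m v w' < U3a_m v w ∧
      ∃ i, w' = w + Pi.single i 1 ∨ w = w' + Pi.single i 1 := by
  rw [U3a_mem_bv] at hw
  rw [U3a_mem_Tw] at hw'
  -- choose the coordinate
  obtain ⟨i, hi, hi'⟩ : ∃ i, w i ≠ v i ∧ (i = ⟨0, hd⟩ ∨ w ⟨0, hd⟩ = v ⟨0, hd⟩) := by
    by_cases h0 : w ⟨0, hd⟩ = v ⟨0, hd⟩
    · obtain ⟨i, hi⟩ := Function.ne_iff.1 hne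
      exact ⟨i, hi, Or.inr h0⟩
    · exact ⟨_, h0, Or.inl rfl⟩
  obtain ⟨ε, hε⟩ : ∃ ε : ℤ, (w i < v i ∧ ε = 1) ∨ (v i < w i ∧ ε = -1) := by
    rcases lt_or_gt_of_ne hi with h | h
    · exact ⟨1, Or.inl ⟨h, rfl⟩⟩
    · exact ⟨-1, Or.inr ⟨h, rfl⟩⟩
  have e1 : (w + (Pi.single i ε : Zd d)) i = w i + ε := by simp
  have e2 : ∀ j, j ≠ i → (w + (Pi.single i ε : Zd d)) j = w j := by
    intro j hj
    simp [Pi.single_eq_of_ne hj]
  refine ⟨w + Pi.single i ε, ?_, ?_, ?_, i, ?_⟩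
  · rw [U3a_mem_bv]
    intro j
    by_cases hj : j = i
    · subst hj
      rw [e1]
      have := hw j
      omega
    · rw [e2 j hj]; exact hw j
  · rw [U3a_mem_Tw]
    rintro ⟨h1, h2, h3⟩
    rcases hi' with hi' | hi'
    · subst hi'
      apply hw'
      refine ⟨?_, (hw _).1, ?_⟩
      · intro j hj
        rw [← h1 j hj, e2 j hj]
      · rw [e1] at h3
        omega
    · have : i ≠ ⟨0, hd⟩ := by
        intro h
        rw [h] at hi
        exact hi hi'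
      rw [e2 _ (Ne.symm this)] at h3
      omega
  · apply U3a_dec v w _ i
    · rw [e1]; omega
    · exact e2
  · rcases hε with ⟨-, h⟩ | ⟨-, h⟩
    · left; rw [h]
    · right
      rw [h]
      funext j
      by_cases hj : j = i
      · subst hj; simp
      · simp [Pi.single_eq_of_ne hj]

/-- the only way out of the thin set -/
private lemma U3a_out (hd : 0 < d) (v : Zd d) (ρ : ℕ) (hρ : 1 ≤ ρ) (c w : Zd d) (hc : c ∈ Tw hd v ρ) (hw : w ∉ bv v ρ)
    (h : ∃ i, w = c + Pi.single i 1 ∨ c = w + Pi.single i 1) : w = v - ((ρ : ℤ) + 1) • e0 hd := by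
  rw [U3a_mem_Tw] at hc
  obtain ⟨h1, h2, h3⟩ := hc
  obtain ⟨i, h⟩ := h
  obtain ⟨ε, hε, e1, e2⟩ : ∃ ε : ℤ, (ε = 1 ∨ ε = -1) ∧ w i = c i + ε ∧ ∀ j, j ≠ i → w j = c j := by
    rcases h with h | h
    · refine ⟨1, Or.inl rfl, by rw [h]; simp, ?_⟩
      intro j hj
      rw [h]; simp [Pi.single_eq_of_ne hj]
    · refine ⟨-1, Or.inr rfl, by rw [h]; simp, ?_⟩
      intro j hj
      rw [h]; simp [Pi.single_eq_of_ne hj]
  have hbd : ∀ j, v j - (ρ : ℤ) ≤ c j ∧ c j ≤ v j + (ρ : ℤ) := by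
    intro j
    by_cases hj : j = ⟨0, hd⟩
    · subst hj; omega
    · rw [h1 j hj]; omega
  rw [U3a_mem_bv] at hw
  push Not at hw
  obtain ⟨j, hj⟩ := hw
  have hji : j = i := by
    by_contra hne
    rw [e2 j hne] at hj
    have := hbd j
    have := hj this.1
    omega
  subst hji
  have hj0 : j = ⟨0, hd⟩ := by
    by_contra hne
    rw [e1, h1 j hne] at hj
    have h5 : v j - (ρ : ℤ) ≤ v j + ε := by omega
    have := hj h5
    omega
  subst hj0
  have hw0 : w ⟨0, hd⟩ = v ⟨0, hd⟩ - ((ρ : ℤ) + 1) := by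
    rw [e1] at hj ⊢
    by_contra hne
    have h5 : v ⟨0, hd⟩ - (ρ : ℤ) ≤ c ⟨0, hd⟩ + ε := by omega
    have := hj h5
    omega
  funext j
  by_cases hj : j = ⟨0, hd⟩
  · subst hj
    rw [hw0]
    simp [e0]
  · rw [e2 j hj, h1 j hj]
    simp [e0, Pi.single_eq_of_ne hj]


/-- the reset configuration -/
private noncomputable def U3a_T (hd : 0 < d) (R : ℕ) (v : Zd d) (ρ : ℕ) (Y1 : Finset (Zd d))
    (K : Finset (boxG d (2 * R + 3)).edgeSet) (ω : Om d R) : Om d R := by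
  classical
  exact fun e => if e ∈ K then decide
    ((∃ x y, gends (boxG d (2 * R + 3)) e = s(x, y) ∧ (rel (cR d R) x ∈ bv v ρ ∧ rel (cR d R) x ∉ Tw hd v ρ) ∧
        (rel (cR d R) y ∈ bv v ρ ∧ rel (cR d R) y ∉ Tw hd v ρ)) ∨
      (ω e = true ∧ ∃ a b, gends (boxG d (2 * R + 3)) e = s(a, b) ∧ rel (cR d R) a ∈ bv v ρ ∧
        rel (cR d R) b ∉ bv v ρ ∧ rel (cR d R) a ∉ Tw hd v ρ ∧ a ∈ BB (cR d R) R Y1 {v} ω)) else ω e

private lemma U3a_T1 (hd : 0 < d) (R : ℕ) (v : Zd d) (ρ : ℕ) (Y1 : Finset (Zd d))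
    (K : Finset (boxG d (2 * R + 3)).edgeSet) (ω : Om d R) (e : (boxG d (2 * R + 3)).edgeSet) (he : e ∉ K) :
    U3a_T hd R v ρ Y1 K ω e = ω e := by
  classical
  simp only [U3a_T]
  rw [if_neg he]

private lemma U3a_T2 (hd : 0 < d) (R : ℕ) (v : Zd d) (ρ : ℕ) (Y1 : Finset (Zd d))
    (K : Finset (boxG d (2 * R + 3)).edgeSet)
    (hK : ∀ e, e ∈ K ↔ ∃ x y, gends (boxG d (2 * R + 3)) e = s(x, y) ∧ rel (cR d R) x ∈ bv v ρ)
    (ω : Om d R) (e : (boxG d (2 * R + 3)).edgeSet) (x y : Fin d → Fin (2 * R + 3))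
    (he : gends (boxG d (2 * R + 3)) e = s(x, y)) (hx : rel (cR d R) x ∈ bv v ρ) (hx' : rel (cR d R) x ∉ Tw hd v ρ)
    (hy : rel (cR d R) y ∈ bv v ρ) (hy' : rel (cR d R) y ∉ Tw hd v ρ) :
    U3a_T hd R v ρ Y1 K ω e = true := by
  classical
  simp only [U3a_T]
  rw [if_pos ((hK e).2 ⟨x, y, he, hx⟩), decide_eq_true_eq]
  exact Or.inl ⟨x, y, he, ⟨hx, hx'⟩, hy, hy'⟩

private lemma U3a_T3 (hd : 0 < d) (R : ℕ) (v : Zd d) (ρ : ℕ) (Y1 : Finset (Zd d))
    (K : Finset (boxG d (2 * R + 3)).edgeSet)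
    (hK : ∀ e, e ∈ K ↔ ∃ x y, gends (boxG d (2 * R + 3)) e = s(x, y) ∧ rel (cR d R) x ∈ bv v ρ)
    (ω : Om d R) (e : (boxG d (2 * R + 3)).edgeSet) (x y : Fin d → Fin (2 * R + 3))
    (he : gends (boxG d (2 * R + 3)) e = s(x, y)) (hx : rel (cR d R) x ∈ bv v ρ) (hy : rel (cR d R) y ∉ bv v ρ) :
    U3a_T hd R v ρ Y1 K ω e = true ↔ (ω e = true ∧ rel (cR d R) x ∉ Tw hd v ρ ∧ x ∈ BB (cR d R) R Y1 {v} ω) := by
  classical
  simp only [U3a_T]
  rw [if_pos ((hK e).2 ⟨x, y, he, hx⟩), decide_eq_true_eq]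
  constructor
  · rintro (⟨a, b, hab, h1, h2⟩ | ⟨ho, a, b, hab, h1, h2, h3, h4⟩)
    · rw [he, Sym2.eq_iff] at hab
      rcases hab with ⟨rfl, rfl⟩ | ⟨rfl, rfl⟩
      · exact absurd h2.1 hy
      · exact absurd h1.1 hy
    · rw [he, Sym2.eq_iff] at hab
      rcases hab with ⟨rfl, rfl⟩ | ⟨rfl, rfl⟩
      · exact ⟨ho, h3, h4⟩
      · exact absurd h1 hy
  · rintro ⟨h1, h2, h3⟩
    exact Or.inr ⟨h1, x, y, he, hx, hy, h2, h3⟩

/-- an edge with no end in the ball is not in `K` -/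
private lemma U3a_nK (R : ℕ) (v : Zd d) (ρ : ℕ) (K : Finset (boxG d (2 * R + 3)).edgeSet)
    (hK : ∀ e, e ∈ K ↔ ∃ x y, gends (boxG d (2 * R + 3)) e = s(x, y) ∧ rel (cR d R) x ∈ bv v ρ)
    (e : (boxG d (2 * R + 3)).edgeSet) (x y : Fin d → Fin (2 * R + 3))
    (he : gends (boxG d (2 * R + 3)) e = s(x, y)) (hx : rel (cR d R) x ∉ bv v ρ) (hy : rel (cR d R) y ∉ bv v ρ) :
    e ∉ K := by
  intro h
  obtain ⟨a, b, hab, h1⟩ := (hK e).1 h
  rw [he, Sym2.eq_iff] at hab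
  rcases hab with ⟨rfl, rfl⟩ | ⟨rfl, rfl⟩
  · exact hx h1
  · exact hy h1

private lemma U3a_adj {l : ℕ} (u x y : Fin d → Fin l) (e : (boxG d l).edgeSet) (he : gends (boxG d l) e = s(x, y)) :
    ∃ i, rel u y = rel u x + Pi.single i 1 ∨ rel u x = rel u y + Pi.single i 1 := by
  have h : s(x, y) ∈ (boxG d l).edgeSet := by
    rw [← he]; exact e.2
  exact (adj_rel u x y).1 h

private lemma U3a_memBB {l : ℕ} (u : Fin d → Fin l) (R : ℕ) (D A : Finset (Zd d)) (ω : (boxG d l).edgeSet → Bool)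
    (y : Fin d → Fin l) : y ∈ BB u R D A ω ↔ ∃ a, rel u a ∈ A ∧ (rel u a ∉ D ∧ rel u a ∈ (bz R : Finset (Zd d))) ∧
      Rch (gends (boxG d l)) ω (pre u D ∪ {x | rel u x ∉ (bz R : Finset (Zd d))})ᶜ a y := by
  rw [BB, mem_cS]
  constructor
  · rintro ⟨a, h1, h2, h3⟩
    refine ⟨a, h1, ?_, h3⟩
    simp only [pre, Set.mem_union, Set.mem_setOf_eq, not_or, not_not] at h2
    exact h2
  · rintro ⟨a, h1, h2, h3⟩
    refine ⟨a, h1, ?_, h3⟩
    simp only [pre, Set.mem_union, Set.mem_setOf_eq, not_or, not_not]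
    exact h2

private lemma U3a_stepBB {l : ℕ} (u : Fin d → Fin l) (R : ℕ) (D A : Finset (Zd d)) (ω : (boxG d l).edgeSet → Bool)
    (y z : Fin d → Fin l) (hy : y ∈ BB u R D A ω) (e : (boxG d l).edgeSet) (he : gends (boxG d l) e = s(y, z))
    (ho : ω e = true) (hz : rel u z ∉ D) (hz' : rel u z ∈ (bz R : Finset (Zd d))) : z ∈ BB u R D A ω := by
  refine cS_step hy e he ho ?_
  simp only [pre, Set.mem_union, Set.mem_setOf_eq, not_or, not_not]
  exact ⟨hz, hz'⟩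

/-- induction along a path of the cluster -/
private lemma U3a_ind {l : ℕ} (u : Fin d → Fin l) (R : ℕ) (D A : Finset (Zd d)) (ω : (boxG d l).edgeSet → Bool)
    (Q : (Fin d → Fin l) → Prop)
    (h0 : ∀ a, rel u a ∈ A → rel u a ∉ D → rel u a ∈ (bz R : Finset (Zd d)) → Q a)
    (h1 : ∀ c w e, gends (boxG d l) e = s(c, w) → ω e = true → c ∈ BB u R D A ω → rel u w ∉ D →
      rel u w ∈ (bz R : Finset (Zd d)) → Q c → Q w) (y : Fin d → Fin l) (hy : y ∈ BB u R D A ω) : Q y := by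
  obtain ⟨a, ha, ⟨ha1, ha2⟩, hr⟩ := (U3a_memBB u R D A ω y).1 hy
  clear hy
  induction hr with
  | refl => exact h0 a ha ha1 ha2
  | @tail b c hab hbc ih =>
    obtain ⟨-, h3, e, h4, h5⟩ := hbc
    simp only [pre, Set.mem_compl_iff, Set.mem_union, Set.mem_setOf_eq, not_or, not_not] at h3
    exact h1 b c e h5 h4 ((U3a_memBB u R D A ω b).2 ⟨a, ha, ⟨ha1, ha2⟩, hab⟩) h3.1 h3.2 ih

/-- the small ball lies inside the window -/
private lemma U3a_in (R : ℕ) (v : Zd d) (ρ : ℕ) (hR : nz v + ρ + 2 ≤ R) (s : Zd d) (hs : s ∈ bv v ρ) :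
    s ∈ (bz R : Finset (Zd d)) := by
  rw [U3a_mem_bv] at hs
  rw [U3a_mem_bz]
  intro i
  have h1 := hs i
  have h2 := U3a_nz v (nz v) le_rfl i
  omega

private lemma U3a_far (R : ℕ) (v : Zd d) (ρ : ℕ) (hR : nz v + ρ + 2 ≤ R) (s t : Zd d) (hs : s ∈ bv v ρ)
    (h : ∃ i, t = s + Pi.single i 1 ∨ s = t + Pi.single i 1) : t ∈ (bz R : Finset (Zd d)) := by
  rw [U3a_mem_bv] at hs
  rw [U3a_mem_bz]
  intro j
  have h1 := hs j
  have h2 := U3a_nz v (nz v) le_rfl j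
  obtain ⟨i, h | h⟩ := h
  · have h3 := congrFun h j
    by_cases hj : j = i
    · subst hj
      simp at h3
      omega
    · simp [Pi.single_eq_of_ne hj] at h3
      omega
  · have h3 := congrFun h j
    by_cases hj : j = i
    · subst hj
      simp at h3
      omega
    · simp [Pi.single_eq_of_ne hj] at h3
      omega

/-- the ball without the thin set is contained in the new cluster -/
private lemma U3a_ball (hd : 0 < d) (R : ℕ) (v : Zd d) (ρ : ℕ) (hR : nz v + ρ + 2 ≤ R) (Y1 : Finset (Zd d))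
    (hY : ∀ s ∈ Y1, s ∉ bv v ρ)
    (K : Finset (boxG d (2 * R + 3)).edgeSet)
    (hK : ∀ e, e ∈ K ↔ ∃ x y, gends (boxG d (2 * R + 3)) e = s(x, y) ∧ rel (cR d R) x ∈ bv v ρ)
    (ω : Om d R) (n : ℕ) : ∀ x : Fin d → Fin (2 * R + 3), U3a_m v (rel (cR d R) x) = n → rel (cR d R) x ∈ bv v ρ →
      rel (cR d R) x ∉ Tw hd v ρ → x ∈ BB (cR d R) R (Y1 ∪ Tw hd v ρ) {v} (U3a_T hd R v ρ Y1 K ω) := by
  induction n using Nat.strong_induction_on with
  | _ n ih =>
    intro x hn hx hx'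
    have hoff : ∀ y : Fin d → Fin (2 * R + 3), rel (cR d R) y ∈ bv v ρ → rel (cR d R) y ∉ Tw hd v ρ →
        rel (cR d R) y ∉ Y1 ∪ Tw hd v ρ := by
      intro y hy hy' h
      rcases Finset.mem_union.1 h with h | h
      · exact hY _ h hy
      · exact hy' h
    by_cases hv : rel (cR d R) x = v
    · rw [U3a_memBB]
      exact ⟨x, by rw [hv]; exact Finset.mem_singleton_self v, ⟨hoff x hx hx', U3a_in R v ρ hR _ hx⟩, Rch.refl x⟩
    · obtain ⟨w, hw1, hw2, hw3, i, hw4⟩ := U3a_step hd v ρ _ hx hx' hv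
      have hw5 : nz w ≤ R + 1 := by
        have := U3a_in R v ρ hR _ hw1
        rw [U3a_mem_bz] at this
        apply U3a_nz_le
        intro j
        have := this j
        push_cast
        omega
      obtain ⟨y, rfl⟩ := ex_rel R w hw5
      have hadj : (boxG d (2 * R + 3)).Adj y x := by
        rw [adj_rel (cR d R)]
        exact ⟨i, hw4.symm⟩
      have hy := ih _ (by rw [← hn]; exact hw3) y rfl hw1 hw2
      refine U3a_stepBB (cR d R) R _ _ _ y x hy ⟨s(y, x), hadj⟩ rfl ?_ (hoff x hx hx') (U3a_in R v ρ hR _ hx)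
      exact U3a_T2 hd R v ρ Y1 K hK ω _ y x rfl hw1 hw2 hx hx'

/-- the two clusters agree off the ball -/
private lemma U3a_agree (hd : 0 < d) (R : ℕ) (v : Zd d) (ρ : ℕ) (hρ : 1 ≤ ρ) (hR : nz v + ρ + 2 ≤ R) (Y1 : Finset (Zd d))
    (hY : ∀ s ∈ Y1, s ∉ bv v ρ) (hY' : v - ((ρ : ℤ) + 1) • e0 hd ∈ Y1)
    (K : Finset (boxG d (2 * R + 3)).edgeSet)
    (hK : ∀ e, e ∈ K ↔ ∃ x y, gends (boxG d (2 * R + 3)) e = s(x, y) ∧ rel (cR d R) x ∈ bv v ρ)
    (ω : Om d R) (x : Fin d → Fin (2 * R + 3)) (hx : rel (cR d R) x ∉ bv v ρ) :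
    x ∈ BB (cR d R) R (Y1 ∪ Tw hd v ρ) {v} (U3a_T hd R v ρ Y1 K ω) ↔ x ∈ BB (cR d R) R Y1 {v} ω := by
  have hvb : v ∈ bv v ρ := by
    rw [U3a_mem_bv]; intro i; omega
  have hTb : ∀ s, s ∈ Tw hd v ρ → s ∈ bv v ρ := by
    intro s hs
    rw [U3a_mem_Tw] at hs
    rw [U3a_mem_bv]
    intro j
    by_cases hj : j = ⟨0, hd⟩
    · subst hj; omega
    · rw [hs.1 j hj]; omega
  constructor
  · intro h
    have key : ∀ y, y ∈ BB (cR d R) R (Y1 ∪ Tw hd v ρ) {v} (U3a_T hd R v ρ Y1 K ω) →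
        (rel (cR d R) y ∈ bv v ρ ∨ y ∈ BB (cR d R) R Y1 {v} ω) := by
      apply U3a_ind
      · intro a ha _ _
        rw [Finset.mem_singleton] at ha
        left
        rw [ha]; exact hvb
      · intro c w e he ho _ hw hw' hc
        by_cases hwb : rel (cR d R) w ∈ bv v ρ
        · exact Or.inl hwb
        right
        have hwY : rel (cR d R) w ∉ Y1 := fun h => hw (Finset.mem_union_left _ h)
        by_cases hcb : rel (cR d R) c ∈ bv v ρ
        · obtain ⟨h1, -, h3⟩ := (U3a_T3 hd R v ρ Y1 K hK ω e c w he hcb hwb).1 ho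
          exact U3a_stepBB (cR d R) R _ _ _ c w h3 e he h1 hwY hw'
        · have hcB : c ∈ BB (cR d R) R Y1 {v} ω := by
            rcases hc with hc | hc
            · exact absurd hc hcb
            · exact hc
          rw [U3a_T1 hd R v ρ Y1 K ω e (U3a_nK R v ρ K hK e c w he hcb hwb)] at ho
          exact U3a_stepBB (cR d R) R _ _ _ c w hcB e he ho hwY hw'
    rcases key x h with h1 | h1
    · exact absurd h1 hx
    · exact h1
  · intro h
    have key : ∀ y, y ∈ BB (cR d R) R Y1 {v} ω → (rel (cR d R) y ∈ Tw hd v ρ ∨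
        y ∈ BB (cR d R) R (Y1 ∪ Tw hd v ρ) {v} (U3a_T hd R v ρ Y1 K ω)) := by
      apply U3a_ind
      · intro a ha _ _
        rw [Finset.mem_singleton] at ha
        right
        apply U3a_ball hd R v ρ hR Y1 hY K hK ω _ a rfl
        · rw [ha]; exact hvb
        · rw [ha, U3a_mem_Tw]
          rintro ⟨-, -, h⟩
          exact lt_irrefl _ h
      · intro c w e he ho hcB hw hw' hc
        by_cases hwT : rel (cR d R) w ∈ Tw hd v ρ
        · exact Or.inl hwT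
        right
        by_cases hwb : rel (cR d R) w ∈ bv v ρ
        · exact U3a_ball hd R v ρ hR Y1 hY K hK ω _ w rfl hwb hwT
        have hwYT : rel (cR d R) w ∉ Y1 ∪ Tw hd v ρ := by
          intro h
          rcases Finset.mem_union.1 h with h | h
          · exact hw h
          · exact hwT h
        have hcT : rel (cR d R) c ∉ Tw hd v ρ := by
          intro h
          apply hw
          rw [U3a_out hd v ρ hρ _ _ h hwb (U3a_adj (cR d R) c w e he)]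
          exact hY'
        have hcB' : c ∈ BB (cR d R) R (Y1 ∪ Tw hd v ρ) {v} (U3a_T hd R v ρ Y1 K ω) := by
          rcases hc with hc | hc
          · exact absurd hc hcT
          · exact hc
        refine U3a_stepBB (cR d R) R _ _ _ c w hcB' e he ?_ hwYT hw'
        by_cases hcb : rel (cR d R) c ∈ bv v ρ
        · rw [U3a_T3 hd R v ρ Y1 K hK ω e c w he hcb hwb]
          exact ⟨ho, hcT, hcB⟩
        · rw [U3a_T1 hd R v ρ Y1 K ω e (U3a_nK R v ρ K hK e c w he hcb hwb)]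
          exact ho
    rcases key x h with h1 | h1
    · exact absurd (hTb _ h1) hx
    · exact h1

/-- Row U3. The reset map of Lemma M. `v` with `|v| + ρ + 2 ≤ R`, `1 ≤ ρ`, `Y1` a set without points in `bv v ρ` which contains `v - (ρ+1) e0`, `K` = the edges of the window with an end
(relative position) in `bv v ρ`. There is `T` which changes only edges of `K` such that for all `ω` (second configuration all closed)
`Wn (Y1 ∪ Tw v ρ) {v} (T ω) = Wn Y1 {v} ω` and the two clusters agree outside `bv v ρ`.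
Definition of `T ω` on `K`: an edge with both ends in `bv v ρ \ Tw` is open; an edge `(a,b)`, `a ∈ bv v ρ`, `b ∉ bv v ρ`, is open iff it is open in `ω` and `a ∈ Wb Y1 {v} ω` and `a ∉ Tw`; all others (ends in `Tw`) are closed.
Facts: `bv v ρ \ Tw v ρ` is connected and contains `v` (box minus a segment from the boundary to a neighbour of the centre; `d ≥ 2`); the only neighbour outside `bv v ρ` of a point of `Tw v ρ` is `v - (ρ+1) e0`, a neighbour of `v - ρ e0`, and it is in `Y1`, so no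
edge `(a,b)` with `a ∈ Tw`, `b ∉ bv v ρ ∪ Y1` exists. So the cluster of `v` off `Y1 ∪ Tw` in `T ω` inside the ball `bz R` is `(bv v ρ \ Tw) ∪ (Wb Y1 {v} ω \ bv v ρ)`: a point `z` of `Wb Y1 {v} ω` outside of `bv v ρ` is reached in `ω` from `v`; after the last visit of the path to
`bv v ρ` it uses an edge `(a,b)` as above and then edges outside of `K`. Conversely paths in `T ω` outside of `bv v ρ` are paths of `ω`. -/
lemma resetM (hd : 2 ≤ d) (R : ℕ) (v : Zd d) (ρ : ℕ) (hρ : 1 ≤ ρ) (hR : nz v + ρ + 2 ≤ R) (Y1 : Finset (Zd d))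
    (hY : ∀ s ∈ Y1, s ∉ bv v ρ) (hY' : v - ((ρ : ℤ) + 1) • e0 (by omega) ∈ Y1)
    (K : Finset (boxG d (2 * R + 3)).edgeSet)
    (hK : ∀ e, e ∈ K ↔ ∃ x y, gends (boxG d (2 * R + 3)) e = s(x, y) ∧ rel (cR d R) x ∈ bv v ρ) :
    ∃ T : Om d R → Om d R, (∀ ω, ∀ e, e ∉ K → T ω e = ω e) ∧ ∀ ω,
      Wn R (Y1 ∪ Tw (by omega) v ρ) {v} (T ω) (fun _ => false) = Wn R Y1 {v} ω (fun _ => false) ∧
      ∀ s, s ∉ bv v ρ → (s ∈ Wb R (Y1 ∪ Tw (by omega) v ρ) {v} (T ω) ↔ s ∈ Wb R Y1 {v} ω) := by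
  classical
  have hd0 : 0 < d := by omega
  have hag := U3a_agree hd0 R v ρ hρ hR Y1 hY hY' K hK
  refine ⟨U3a_T hd0 R v ρ Y1 K, U3a_T1 hd0 R v ρ Y1 K, fun ω => ⟨?_, ?_⟩⟩
  · unfold Wn Nz
    congr 1
    ext w
    simp only [NB, Finset.mem_filter, Finset.mem_univ, true_and]
    by_cases hw : rel (cR d R) w ∈ (bz R : Finset (Zd d))
    · simp only [hw, if_true, Bool.false_eq_true, and_false, exists_false]
    · simp only [hw, if_false, Bool.false_eq_true, or_false]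
      have hwb : rel (cR d R) w ∉ bv v ρ := fun h => hw (U3a_in R v ρ hR _ h)
      have hwT : rel (cR d R) w ∉ Tw hd0 v ρ := by
        intro h
        apply hwb
        rw [U3a_mem_Tw] at h
        rw [U3a_mem_bv]
        intro j
        by_cases hj : j = ⟨0, hd0⟩
        · subst hj; omega
        · rw [h.1 j hj]; omega
      have hnb : ∀ a e, gends (boxG d (2 * R + 3)) e = s(a, w) → rel (cR d R) a ∉ bv v ρ := by
        intro a e he h
        exact hw (U3a_far R v ρ hR _ _ h (U3a_adj (cR d R) a w e he))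
      rw [hag ω w hwb]
      constructor
      · rintro ⟨h1, h2, a, ha, e, he, ho⟩
        have hab := hnb a e he
        refine ⟨?_, h2, a, (hag ω a hab).1 ha, e, he, ?_⟩
        · intro h
          exact h1 (Finset.mem_union_left _ h)
        · rwa [U3a_T1 hd0 R v ρ Y1 K ω e (U3a_nK R v ρ K hK e a w he hab hwb)] at ho
      · rintro ⟨h1, h2, a, ha, e, he, ho⟩
        have hab := hnb a e he
        refine ⟨?_, h2, a, (hag ω a hab).2 ha, e, he, ?_⟩
        · intro h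
          rcases Finset.mem_union.1 h with h | h
          · exact h1 h
          · exact hwT h
        · rwa [U3a_T1 hd0 R v ρ Y1 K ω e (U3a_nK R v ρ K hK e a w he hab hwb)]
  · intro s hs
    constructor
    · intro h
      simp only [Wb, Bz, Finset.mem_image] at h
      obtain ⟨x, hx, rfl⟩ := h
      rw [mem_Wb]
      exact (hag ω x hs).1 hx
    · intro h
      simp only [Wb, Bz, Finset.mem_image] at h
      obtain ⟨x, hx, rfl⟩ := h
      rw [mem_Wb]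
      exact (hag ω x hs).2 hx

/-- Row U3. The number of edges of the window which touch a set of `m` vertices is at most `2 d m`. -/
lemma K_card (R : ℕ) (B : Finset (Zd d)) (K : Finset (boxG d (2 * R + 3)).edgeSet)
    (hK : ∀ e, e ∈ K ↔ ∃ x y, gends (boxG d (2 * R + 3)) e = s(x, y) ∧ rel (cR d R) x ∈ B) :
    K.card ≤ 2 * d * B.card := by
  classical
  have key : ∀ e ∈ K, ∃ c : Zd d × (Fin d × Bool), c.1 ∈ B ∧ ∃ x y,
      gends (boxG d (2 * R + 3)) e = s(x, y) ∧ rel (cR d R) x = c.1 ∧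
      rel (cR d R) y = (if c.2.2 = true then c.1 + Pi.single c.2.1 1 else c.1 - Pi.single c.2.1 1) := by
    intro e he
    obtain ⟨x, y, hxy, hx⟩ := (hK e).1 he
    have hadj : (boxG d (2 * R + 3)).Adj x y := by
      have h1 := e.2
      have h2 : (e : Sym2 (Fin d → Fin (2 * R + 3))) = s(x, y) := hxy
      rw [h2] at h1
      exact h1
    rw [adj_rel (cR d R)] at hadj
    obtain ⟨i, hi | hi⟩ := hadj
    · exact ⟨(rel (cR d R) x, (i, true)), hx, x, y, hxy, rfl, by simpa using hi⟩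
    · refine ⟨(rel (cR d R) x, (i, false)), hx, x, y, hxy, rfl, ?_⟩
      simp only [Bool.false_eq_true, if_false]
      rw [hi]
      simp
  choose f hf1 hf2 using key
  have hle : K.attach.card ≤ (B ×ˢ (Finset.univ : Finset (Fin d × Bool))).card := by
    apply Finset.card_le_card_of_injOn (fun e => f e.1 e.2)
    · intro e _
      exact Finset.mem_coe.2 (Finset.mem_product.2 ⟨hf1 e.1 e.2, Finset.mem_univ _⟩)
    · intro e _ e' _ heq
      have heq' : f e.1 e.2 = f e'.1 e'.2 := heq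
      obtain ⟨x, y, h1, h2, h3⟩ := hf2 e.1 e.2
      obtain ⟨x', y', h1', h2', h3'⟩ := hf2 e'.1 e'.2
      have hx : x = x' := rel_inj (cR d R) (by rw [h2, h2', heq'])
      have hy : y = y' := rel_inj (cR d R) (by rw [h3, h3', heq'])
      apply Subtype.ext
      apply Subtype.ext
      have e1 : ((e.1 : (boxG d (2 * R + 3)).edgeSet) : Sym2 (Fin d → Fin (2 * R + 3))) = s(x, y) := h1
      have e2 : ((e'.1 : (boxG d (2 * R + 3)).edgeSet) : Sym2 (Fin d → Fin (2 * R + 3))) = s(x', y') := h1'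
      rw [e1, e2, hx, hy]
  rw [Finset.card_attach, Finset.card_product, Finset.card_univ, Fintype.card_prod, Fintype.card_fin,
    Fintype.card_bool] at hle
  calc K.card ≤ B.card * (d * 2) := hle
    _ = 2 * d * B.card := by ring

/-- closed second configuration: the next vertices are outside of the ball -/
private lemma U4a_far (R : ℕ) (D A : Finset (Zd d)) (ω : Om d R) (n : Zd d)
    (h : n ∈ Wn R D A ω (fun _ => false)) : R < nz n := by
  classical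
  unfold Wn Nz at h
  rw [Finset.mem_image] at h
  obtain ⟨x, hx, hxn⟩ := h
  unfold NB at hx
  obtain ⟨-, -, a, -, e, -, hif⟩ := (Finset.mem_filter.1 hx).2
  by_contra hcon
  have h1 : rel (cR d R) x ∈ (bz R : Finset (Zd d)) := by
    rw [mem_bz, hxn]
    omega
  rw [if_pos h1] at hif
  exact absurd hif (by simp)

private lemma U4a_sum (R : ℕ) (v : Zd d) (ρ : ℕ) (hd : 11 ≤ d) (hR : 2 * nz v + 2 * ρ + 4 ≤ R) (C : ℝ) (hC : 0 ≤ C)
    (N : Finset (Zd d)) (hN : ∀ n ∈ N, R < nz n) :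
    ∑ a ∈ N, ∑ s ∈ bv v ρ, C * fz (d - 2) (a - s) ≤
      (N.card : ℝ) * (((bv v ρ).card : ℝ) * (C * (4 / ((R : ℝ) + 1) ^ 2))) := by
  have h1 : ∀ a ∈ N, ∑ s ∈ bv v ρ, C * fz (d - 2) (a - s) ≤
      ((bv v ρ).card : ℝ) * (C * (4 / ((R : ℝ) + 1) ^ 2)) := by
    intro a ha
    have h2 : ∀ s ∈ bv v ρ, C * fz (d - 2) (a - s) ≤ C * (4 / ((R : ℝ) + 1) ^ 2) := by
      intro s hs
      refine mul_le_mul_of_nonneg_left ?_ hC
      rw [mem_bv] at hs
      have h3 := hN a ha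
      have h4 : nz a ≤ nz (a - s) + nz s := by
        have := nz_add (a - s) s
        rwa [sub_add_cancel] at this
      have h5 : nz s ≤ nz (s - v) + nz v := by
        have := nz_add (s - v) v
        rwa [sub_add_cancel] at this
      have h6 : R + 1 ≤ 2 * (1 + nz (a - s)) := by omega
      have h7 : ((R : ℝ) + 1) / 2 ≤ 1 + (nz (a - s) : ℝ) := by
        have h8 : ((R + 1 : ℕ) : ℝ) ≤ ((2 * (1 + nz (a - s)) : ℕ) : ℝ) := by exact_mod_cast h6
        push_cast at h8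
        linarith
      have h9 : (1 : ℝ) ≤ ((R : ℝ) + 1) / 2 := by
        have : (4 : ℝ) ≤ (R : ℝ) := by exact_mod_cast (by omega : 4 ≤ R)
        linarith
      have h10 : (((R : ℝ) + 1) / 2) ^ 2 ≤ (1 + (nz (a - s) : ℝ)) ^ (d - 2) :=
        (pow_le_pow_right₀ h9 (by omega)).trans (pow_le_pow_left₀ (by linarith) h7 _)
      unfold fz
      have h11 : (0 : ℝ) < (((R : ℝ) + 1) / 2) ^ 2 := by positivity
      refine (one_div_le_one_div_of_le h11 h10).trans (le_of_eq ?_)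
      have h12 : ((R : ℝ) + 1) ≠ 0 := by positivity
      field_simp
      norm_num
    refine (Finset.sum_le_sum h2).trans (le_of_eq ?_)
    rw [Finset.sum_const, nsmul_eq_mul]
  refine (Finset.sum_le_sum h1).trans (le_of_eq ?_)
  rw [Finset.sum_const, nsmul_eq_mul]

private lemma U4a_cmp {C pc L H0 : ℝ} (hC : 0 ≤ C) (hL : 0 ≤ L) (hd : 11 ≤ d) {H : Finset (Zd d) → Finset (Zd d) → ℝ}
    (hH : HL d C L H0 pc H) (R : ℕ) (v : Zd d) (ρ : ℕ) (hR : 2 * nz v + 2 * ρ + 4 ≤ R)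
    (P1 P2 N : Finset (Zd d)) (hP : P1 ∪ bv v ρ = P2 ∪ bv v ρ) (hN : ∀ n ∈ N, R < nz n) :
    H P1 N ≤ H P2 N + 8 * L * C * ((bv v ρ).card : ℝ) / ((R : ℝ) + 1) ^ 2 * (N.card : ℝ) := by
  have h1 := hH.lo P1 (bv v ρ) N
  have h2 := hH.lo P2 (bv v ρ) N
  rw [hP] at h1
  have h3 := mul_le_mul_of_nonneg_left (U4a_sum R v ρ hd hR C hC N hN) hL
  have h4 := (le_abs_self _).trans h1
  have h5 := (neg_abs_le _).trans' (neg_le_neg h2)
  have h6 : 8 * L * C * ((bv v ρ).card : ℝ) / ((R : ℝ) + 1) ^ 2 * (N.card : ℝ) =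
      2 * (L * ((N.card : ℝ) * (((bv v ρ).card : ℝ) * (C * (4 / ((R : ℝ) + 1) ^ 2))))) := by
    ring
  rw [h6]
  linarith

/-- Row U4. Lemma M, one step. For `Y1` as in `resetM`: `min(pc,1-pc)^(2d (2ρ+1)^d) H(Y1, v) ≤ H(Y1 ∪ Tw v ρ, v)`. For every `R ≥ 2|v| + 2ρ + 4`, by `ex` with `p1 = pc`, `s = 0`:
`H(Y1, v) = E H(Y1 ∪ B, N)`, `H(Y1 ∪ Tw, v) = E H(Y1 ∪ Tw ∪ B', N')`; `Ex_reset` with `f ω = H(Y1 ∪ Tw ∪ B'(ω), N'(ω)) ≥ 0` and the map `T` of `resetM`;
the sets `Y1 ∪ Tw ∪ B'(T ω)` and `Y1 ∪ B(ω)` agree outside of `bv v ρ`, `N'(T ω) = N(ω)`, so by `lo` (both compared with the union with `bv v ρ`)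
`H(Y1 ∪ Tw ∪ B'(Tω), N) ≥ H(Y1 ∪ B, N) - 2 L ∑_{n ∈ N} ∑_{s ∈ bv v ρ} C fz (d-2) (n-s)`, every point of `N` has norm `R+1` and distance at least `R/3` from `bv v ρ`, `E|N| ≤ K(R+1)` (`exit_lin`): the error is at most
`2 L C (2ρ+1)^d K (R+1) (3/R)^(d-2)`, which tends to zero as `R → ∞` (and the constant of `Ex_reset` is at least the power with `K_card`). -/
lemma stepM {C pc : ℝ} (hp : HP d C pc) (L H0 : ℝ) (hL : 0 ≤ L) (H : Finset (Zd d) → Finset (Zd d) → ℝ) (hH : HL d C L H0 pc H)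
    (v : Zd d) (ρ : ℕ) (hρ : 1 ≤ ρ) (Y1 : Finset (Zd d)) (hd : 0 < d) (hY : ∀ s ∈ Y1, s ∉ bv v ρ) (hY' : v - ((ρ : ℤ) + 1) • e0 hd ∈ Y1) :
    (min pc (1 - pc)) ^ (2 * d * (2 * ρ + 1) ^ d) * H Y1 {v} ≤ H (Y1 ∪ Tw hd v ρ) {v} := by
  have hd11 := hp.d11
  have hC1 := hp.C1
  have hC0 : (0 : ℝ) ≤ C := by linarith
  obtain ⟨Kx, hKx, hex⟩ := exit_lin hp
  have hp1 : 0 < 1 - pc := by linarith [hp.p1]
  have hm0 : 0 ≤ min pc (1 - pc) := le_min hp.p0.le hp1.le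
  have hm1 : min pc (1 - pc) ≤ 1 := (min_le_left _ _).trans hp.p1.le
  have hc0 : 0 ≤ (min pc (1 - pc)) ^ (2 * d * (2 * ρ + 1) ^ d) := pow_nonneg hm0 _
  have hc1 : (min pc (1 - pc)) ^ (2 * d * (2 * ρ + 1) ^ d) ≤ 1 := pow_le_one₀ hm0 hm1
  have main : ∀ R : ℕ, 2 * nz v + 2 * ρ + 4 ≤ R →
      (min pc (1 - pc)) ^ (2 * d * (2 * ρ + 1) ^ d) *
        (H Y1 {v} - 8 * L * C * ((bv v ρ).card : ℝ) * Kx / ((R : ℝ) + 1)) ≤
        H (Y1 ∪ Tw hd v ρ) {v} := by
    intro R hR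
    have hR1 : (0 : ℝ) < (R : ℝ) + 1 := by positivity
    obtain ⟨K, hK⟩ : ∃ K : Finset (boxG d (2 * R + 3)).edgeSet, ∀ e, e ∈ K ↔
        ∃ x y, gends (boxG d (2 * R + 3)) e = s(x, y) ∧ rel (cR d R) x ∈ bv v ρ := by
      classical
      exact ⟨Finset.univ.filter (fun e =>
        ∃ x y, gends (boxG d (2 * R + 3)) e = s(x, y) ∧ rel (cR d R) x ∈ bv v ρ), by simp⟩
    obtain ⟨Tm, hTK, hT⟩ := resetM (by omega) R v ρ hρ (by omega) Y1 hY hY' K hK
    have hcard : K.card ≤ 2 * d * (2 * ρ + 1) ^ d := by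
      have h1 := K_card R (bv v ρ) K hK
      rwa [card_bv] at h1
    have hsub : ({v} : Finset (Zd d)) ⊆ bz R := by
      rw [Finset.singleton_subset_iff, mem_bz]
      omega
    have e1 := hH.ex R pc 0 Y1 {v} hp.p0 le_rfl le_rfl one_pos (by ring) hsub
    have e2 := hH.ex R pc 0 (Y1 ∪ Tw hd v ρ) {v} hp.p0 le_rfl le_rfl one_pos (by ring) hsub
    have e3 := hex R Y1 v (by omega)
    simp only [Ex_zero'] at e1 e2 e3
    have hreset := Ex_reset hp.p0 hp.p1 K Tm hTK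
      (fun ω => H (Y1 ∪ Tw hd v ρ ∪ Wb R (Y1 ∪ Tw hd v ρ) {v} ω)
        (Wn R (Y1 ∪ Tw hd v ρ) {v} ω (fun _ => false))) (fun ω => hH.nn _ _)
    rw [← e2] at hreset
    have hcmp : ∀ ω : Om d R, H (Y1 ∪ Wb R Y1 {v} ω) (Wn R Y1 {v} ω (fun _ => false)) ≤
        H (Y1 ∪ Tw hd v ρ ∪ Wb R (Y1 ∪ Tw hd v ρ) {v} (Tm ω))
          (Wn R (Y1 ∪ Tw hd v ρ) {v} (Tm ω) (fun _ => false)) +
        8 * L * C * ((bv v ρ).card : ℝ) / ((R : ℝ) + 1) ^ 2 *
          ((Wn R Y1 {v} ω (fun _ => false)).card : ℝ) := by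
      intro ω
      obtain ⟨hN, hB⟩ := hT ω
      rw [hN]
      refine U4a_cmp hC0 hL hd11 hH R v ρ hR _ _ _ ?_ (fun n hn => U4a_far R Y1 {v} ω n hn)
      ext s
      by_cases hs : s ∈ bv v ρ
      · simp only [Finset.mem_union, hs, or_true]
      · have h1 := hB s hs
        have h2 : s ∉ Tw hd v ρ := by
          intro hst
          apply hs
          unfold Tw at hst
          rw [Finset.mem_image] at hst
          obtain ⟨k, hk, rfl⟩ := hst
          rw [Finset.mem_Icc] at hk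
          rw [mem_bv]
          have h3 : v - (k : ℤ) • e0 hd - v = -((k : ℤ) • e0 hd) := by abel
          rw [h3, nz_neg]
          unfold nz
          refine Finset.sup_le fun i _ => ?_
          unfold e0
          rw [Pi.smul_apply, Pi.single_apply]
          split_ifs
          · simp only [smul_eq_mul, mul_one, Int.natAbs_natCast]
            exact hk.2
          · simp
        simp only [Finset.mem_union, h1, h2, or_false]
    have hE := Ex_mono hp.p0.le hp.p1.le hcmp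
    rw [Ex_add, Ex_mul_left, ← e1] at hE
    have hNn : 0 ≤ Ex pc (fun ω : Om d R => ((Wn R Y1 {v} ω (fun _ => false)).card : ℝ)) :=
      Ex_nonneg hp.p0.le hp.p1.le fun ω => Nat.cast_nonneg _
    have hcoef : 0 ≤ 8 * L * C * ((bv v ρ).card : ℝ) / ((R : ℝ) + 1) ^ 2 := by positivity
    have h7 : 8 * L * C * ((bv v ρ).card : ℝ) / ((R : ℝ) + 1) ^ 2 *
        Ex pc (fun ω : Om d R => ((Wn R Y1 {v} ω (fun _ => false)).card : ℝ)) ≤
        8 * L * C * ((bv v ρ).card : ℝ) * Kx / ((R : ℝ) + 1) := by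
      refine (mul_le_mul_of_nonneg_left e3 hcoef).trans (le_of_eq ?_)
      field_simp
    have hEn : 0 ≤ Ex pc (fun ω : Om d R => H (Y1 ∪ Tw hd v ρ ∪ Wb R (Y1 ∪ Tw hd v ρ) {v} (Tm ω))
          (Wn R (Y1 ∪ Tw hd v ρ) {v} (Tm ω) (fun _ => false))) :=
      Ex_nonneg hp.p0.le hp.p1.le fun ω => hH.nn _ _
    have h8 : (min pc (1 - pc)) ^ (2 * d * (2 * ρ + 1) ^ d) ≤ (min pc (1 - pc)) ^ K.card :=
      pow_le_pow_of_le_one hm0 hm1 hcard
    calc (min pc (1 - pc)) ^ (2 * d * (2 * ρ + 1) ^ d) *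
        (H Y1 {v} - 8 * L * C * ((bv v ρ).card : ℝ) * Kx / ((R : ℝ) + 1))
        ≤ (min pc (1 - pc)) ^ (2 * d * (2 * ρ + 1) ^ d) *
          Ex pc (fun ω : Om d R => H (Y1 ∪ Tw hd v ρ ∪ Wb R (Y1 ∪ Tw hd v ρ) {v} (Tm ω))
          (Wn R (Y1 ∪ Tw hd v ρ) {v} (Tm ω) (fun _ => false))) :=
          mul_le_mul_of_nonneg_left (by linarith) hc0
      _ ≤ (min pc (1 - pc)) ^ K.card *
          Ex pc (fun ω : Om d R => H (Y1 ∪ Tw hd v ρ ∪ Wb R (Y1 ∪ Tw hd v ρ) {v} (Tm ω))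
          (Wn R (Y1 ∪ Tw hd v ρ) {v} (Tm ω) (fun _ => false))) :=
          mul_le_mul_of_nonneg_right h8 hEn
      _ ≤ _ := hreset
  by_contra hcon
  push Not at hcon
  obtain ⟨δ, hδ⟩ : ∃ δ, δ = (min pc (1 - pc)) ^ (2 * d * (2 * ρ + 1) ^ d) * H Y1 {v} -
    H (Y1 ∪ Tw hd v ρ) {v} := ⟨_, rfl⟩
  have hδ0 : 0 < δ := by linarith
  obtain ⟨M, hM⟩ : ∃ M, M = 8 * L * C * ((bv v ρ).card : ℝ) * Kx := ⟨_, rfl⟩
  have hM0 : 0 ≤ M := by rw [hM]; positivity
  obtain ⟨n, hn⟩ := exists_nat_gt (M / δ)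
  have h1 := main (2 * nz v + 2 * ρ + 4 + n) (by omega)
  rw [← hM] at h1
  have h2 : M < δ * (((2 * nz v + 2 * ρ + 4 + n : ℕ) : ℝ) + 1) := by
    have h3 : M < δ * n := by
      rw [div_lt_iff₀ hδ0] at hn
      linarith
    have h4 : (n : ℝ) ≤ ((2 * nz v + 2 * ρ + 4 + n : ℕ) : ℝ) + 1 := by
      have : (n : ℝ) ≤ ((2 * nz v + 2 * ρ + 4 + n : ℕ) : ℝ) := by exact_mod_cast (by omega)
      linarith
    exact h3.trans_le (mul_le_mul_of_nonneg_left h4 hδ0.le)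
  have h5 : M / (((2 * nz v + 2 * ρ + 4 + n : ℕ) : ℝ) + 1) < δ := by
    rw [div_lt_iff₀ (by positivity)]
    exact h2
  have h6 : 0 ≤ M / (((2 * nz v + 2 * ρ + 4 + n : ℕ) : ℝ) + 1) := by positivity
  have h7 : (min pc (1 - pc)) ^ (2 * d * (2 * ρ + 1) ^ d) *
      (M / (((2 * nz v + 2 * ρ + 4 + n : ℕ) : ℝ) + 1)) ≤
      M / (((2 * nz v + 2 * ρ + 4 + n : ℕ) : ℝ) + 1) := mul_le_of_le_one_left h6 hc1
  rw [mul_sub] at h1
  linarith

lemma U4b_nz (hd : 0 < d) (v : Zd d) (k : ℕ) : nz ((v - (k : ℤ) • e0 hd) - v) = k := by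
  have h1 : (v - (k : ℤ) • e0 hd) - v = -((k : ℤ) • e0 hd) := by abel
  rw [h1, nz_neg]
  unfold nz e0
  apply le_antisymm
  · apply Finset.sup_le
    intro i _
    by_cases hi : i = ⟨0, hd⟩
    · subst hi
      simp
    · simp [Pi.single_eq_of_ne hi]
  · have := Finset.le_sup (f := fun i : Fin d => (((k : ℤ) • (Pi.single (⟨0, hd⟩ : Fin d) (1 : ℤ) : Zd d)) i).natAbs) (Finset.mem_univ (⟨0, hd⟩ : Fin d))
    refine le_trans ?_ this
    simp

/-- Row U4. (2.3) Lemma M. `ρ` with `L C (4d+10)/(1+ρ) ≤ H0/4`, `n0 = ρ + 1`; `Y1 = γ \ bv v ρ`, `γ ∩ bv v ρ = Tw v ρ`; `|H(Y1,v) - H(∅,v)| ≤ L C ∑_{Y1} fz ≤ H0/4` (`lo`, `axi_en`), so `H(Y1,v) ≥ 3H0/4`;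
`stepM`: `cK = min(pc,1-pc)^(2d(2ρ+1)^d) * 3H0/4`. -/
lemma lemM {C pc : ℝ} (hp : HP d C pc) (hd : 0 < d) (L H0 : ℝ) (hL : 0 < L) (hH0 : 0 < H0) : ∃ cK : ℝ, 0 < cK ∧ ∃ n0 : ℕ, ∀ H : Finset (Zd d) → Finset (Zd d) → ℝ,
    HL d C L H0 pc H → ∀ (v : Zd d) (n : ℕ), n0 ≤ n → ∀ γ, Axi hd v n γ → cK ≤ H γ {v} := by
  have hC : 0 < C := lt_of_lt_of_le one_pos hp.C1
  have hd5 : 5 ≤ d := le_trans (by norm_num) hp.d11
  obtain ⟨m, hm⟩ := exists_nat_ge (4 * (L * C * (4 * (d : ℝ) + 10)) / H0)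
  set ρ : ℕ := m + 1 with hρdef
  have hρ1 : 1 ≤ ρ := by omega
  have hρ : L * C * ((4 * (d : ℝ) + 10) / (1 + (ρ : ℝ))) ≤ H0 / 4 := by
    have h1 : (0 : ℝ) < 1 + (ρ : ℝ) := by positivity
    rw [← mul_div_assoc, div_le_iff₀ h1]
    rw [div_le_iff₀ hH0] at hm
    have h2 : (m : ℝ) ≤ 1 + (ρ : ℝ) := by
      rw [hρdef]; push_cast; linarith
    linarith [mul_le_mul_of_nonneg_right h2 hH0.le]
  have hmin : 0 < min pc (1 - pc) := lt_min hp.p0 (by linarith [hp.p1])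
  refine ⟨(min pc (1 - pc)) ^ (2 * d * (2 * ρ + 1) ^ d) * (3 / 4 * H0), by positivity, ρ + 1, ?_⟩
  intro H hH v n hn γ hγ
  set Y1 : Finset (Zd d) := γ.filter (fun s => ρ < nz (s - v)) with hY1
  have hY : ∀ s ∈ Y1, s ∉ bv v ρ := by
    intro s hs
    rw [mem_bv]
    have := (Finset.mem_filter.1 hs).2
    omega
  have hY' : v - ((ρ : ℤ) + 1) • e0 hd ∈ Y1 := by
    rw [hY1, Finset.mem_filter]
    have e : ((ρ : ℤ) + 1) = ((ρ + 1 : ℕ) : ℤ) := by push_cast; rfl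
    rw [e]
    refine ⟨hγ.2.1 (ρ + 1) (by omega) hn, ?_⟩
    rw [U4b_nz]; omega
  have hun : Y1 ∪ Tw hd v ρ = γ := by
    ext s
    rw [Finset.mem_union]
    constructor
    · rintro (h | h)
      · exact (Finset.mem_filter.1 h).1
      · unfold Tw at h
        obtain ⟨k, hk, rfl⟩ := Finset.mem_image.1 h
        rw [Finset.mem_Icc] at hk
        exact hγ.2.1 k hk.1 (by omega)
    · intro h
      by_cases h1 : ρ < nz (s - v)
      · left; exact Finset.mem_filter.2 ⟨h, h1⟩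
      · right
        rcases hγ.1 s h with h2 | ⟨k, hk1, hk2, rfl⟩
        · omega
        · rw [U4b_nz] at h1
          unfold Tw
          exact Finset.mem_image.2 ⟨k, Finset.mem_Icc.2 ⟨hk1, by omega⟩, rfl⟩
  have hstep := stepM hp L H0 hL.le H hH v ρ hρ1 Y1 hd hY hY'
  rw [hun] at hstep
  refine le_trans ?_ hstep
  apply mul_le_mul_of_nonneg_left _ (by positivity)
  have hlo := hH.lo ∅ Y1 {v}
  rw [Finset.empty_union, hH.on v, Finset.sum_singleton] at hlo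
  have hen := axi_en hd5 v n ρ (by omega) γ hγ
  rw [← hY1] at hen
  have hsum : ∑ s ∈ Y1, C * fz (d - 2) (v - s) ≤ C * ((4 * (d : ℝ) + 10) / (1 + (ρ : ℝ))) := by
    rw [← Finset.mul_sum]
    apply mul_le_mul_of_nonneg_left _ hC.le
    refine le_trans (le_of_eq ?_) hen
    apply Finset.sum_congr rfl
    intro s _
    exact fz_sub _ _ _
  have h3 : L * ∑ s ∈ Y1, C * fz (d - 2) (v - s) ≤ H0 / 4 := by
    refine le_trans (mul_le_mul_of_nonneg_left hsum hL.le) ?_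
    rw [← mul_assoc]; exact hρ
  have h4 := (abs_le.1 (le_trans hlo h3)).2
  linarith

private def U5st (γ : Finset (Zd d)) (x y : Zd d) : Prop :=
  y ∈ γ ∧ x ∈ γ ∧ ∃ i, y = x + Pi.single i 1 ∨ x = y + Pi.single i 1

private def U5Ch (v b : Zd d) (n m : ℕ) (x : Zd d) (γ : Finset (Zd d)) : Prop :=
  (∀ s ∈ γ, ∀ i, (s i - v i).natAbs ≤ n) ∧ (∀ s ∈ γ, ∃ j, (s j - v j).natAbs = n) ∧ b ∈ γ ∧ x ∈ γ ∧
    γ.card ≤ m * (2 * n + 1) ∧ ∀ s ∈ γ, Relation.ReflTransGen (U5st γ) b s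

private lemma U5_nz (y : Zd d) (n : ℕ) (h : ∀ i, (y i).natAbs ≤ n) (j : Fin d) (hj : (y j).natAbs = n) : nz y = n := by
  unfold nz
  refine le_antisymm (Finset.sup_le fun i _ => h i) ?_
  calc n = (y j).natAbs := hj.symm
    _ ≤ _ := Finset.le_sup (f := fun i => (y i).natAbs) (Finset.mem_univ j)

private lemma U5_mono {γ γ' : Finset (Zd d)} (h : γ ⊆ γ') {x y : Zd d} (hxy : Relation.ReflTransGen (U5st γ) x y) :
    Relation.ReflTransGen (U5st γ') x y :=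
  Relation.ReflTransGen.mono (r := U5st γ) (p := U5st γ') (fun _ _ hab => ⟨h hab.1, h hab.2.1, hab.2.2⟩) _ _ hxy

private lemma U5_unit (x : Zd d) (i : Fin d) (ε : ℤ) (hε : ε = 1 ∨ ε = -1) (c : ℤ) :
    Function.update x i (c + ε) = Function.update x i c + Pi.single i 1 ∨
      Function.update x i c = Function.update x i (c + ε) + Pi.single i 1 := by
  rcases hε with rfl | rfl
  · left
    funext k
    by_cases hk : k = i
    · subst hk; simp
    · simp [hk]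
  · right
    funext k
    by_cases hk : k = i
    · subst hk; simp
    · simp [hk]

private lemma U5_move {v b : Zd d} {n m : ℕ} {x : Zd d} {γ : Finset (Zd d)} (h : U5Ch v b n m x γ) (i : Fin d) (t : ℤ)
    (ht : (t - v i).natAbs ≤ n) (j : Fin d) (hji : j ≠ i) (hj : (x j - v j).natAbs = n) :
    ∃ γ', U5Ch v b n (m + 1) (Function.update x i t) γ' := by
  obtain ⟨h1, h2, h3, h4, h5, h6⟩ := h
  obtain ⟨ε, k, hε, hk⟩ : ∃ (ε : ℤ) (k : ℕ), (ε = 1 ∨ ε = -1) ∧ t = x i + ε * k := by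
    rcases le_total (x i) t with h | h
    · exact ⟨1, (t - x i).toNat, Or.inl rfl, by omega⟩
    · exact ⟨-1, (x i - t).toNat, Or.inr rfl, by omega⟩
  have hxi := h1 x h4 i
  have hk2 : k ≤ 2 * n := by rcases hε with rfl | rfl <;> omega
  have hc : ∀ c : ℕ, c ≤ k → (x i + ε * c - v i).natAbs ≤ n := by
    intro c hc
    rcases hε with rfl | rfl <;> omega
  set pt : ℕ → Zd d := fun c => Function.update x i (x i + ε * (c : ℤ)) with hpt
  set sg : Finset (Zd d) := (Finset.range (k + 1)).image pt with hsg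
  have hsgm : ∀ c, c ≤ k → pt c ∈ γ ∪ sg := fun c hc =>
    Finset.mem_union_right _ (Finset.mem_image_of_mem _ (Finset.mem_range.2 (by omega)))
  have hpt0 : pt 0 = x := by
    rw [hpt]
    simp
  have hptk : pt k = Function.update x i t := by
    rw [hpt, hk]
  have hrun : ∀ c, c ≤ k → Relation.ReflTransGen (U5st (γ ∪ sg)) b (pt c) := by
    intro c
    induction c with
    | zero =>
      intro _
      rw [hpt0]
      exact U5_mono Finset.subset_union_left (h6 x h4)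
    | succ c ih =>
      intro hck
      refine (ih (by omega)).tail ⟨hsgm _ hck, hsgm _ (by omega), i, ?_⟩
      have h7 : x i + ε * ((c + 1 : ℕ) : ℤ) = (x i + ε * (c : ℤ)) + ε := by push_cast; ring
      simp only [hpt]
      rw [h7]
      exact U5_unit x i ε hε _
  refine ⟨γ ∪ sg, ?_, ?_, Finset.mem_union_left _ h3, hptk ▸ hsgm k le_rfl, ?_, ?_⟩
  · intro s hs i'
    rcases Finset.mem_union.1 hs with hs | hs
    · exact h1 s hs i'
    · obtain ⟨c, hc', rfl⟩ := Finset.mem_image.1 hs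
      by_cases hi : i' = i
      · subst hi
        simp only [hpt, Function.update_self]
        exact hc c (by have := Finset.mem_range.1 hc'; omega)
      · simp only [hpt, Function.update_of_ne hi]
        exact h1 x h4 i'
  · intro s hs
    rcases Finset.mem_union.1 hs with hs | hs
    · exact h2 s hs
    · obtain ⟨c, hc', rfl⟩ := Finset.mem_image.1 hs
      refine ⟨j, ?_⟩
      simp only [hpt, Function.update_of_ne hji]
      exact hj
  · have h8 : sg.card ≤ k + 1 := by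
      calc sg.card ≤ (Finset.range (k + 1)).card := Finset.card_image_le
        _ = k + 1 := Finset.card_range _
    have h9 := Finset.card_union_le γ sg
    have h10 : (m + 1) * (2 * n + 1) = m * (2 * n + 1) + (2 * n + 1) := by ring
    omega
  · intro s hs
    rcases Finset.mem_union.1 hs with hs | hs
    · exact U5_mono Finset.subset_union_left (h6 s hs)
    · obtain ⟨c, hc', rfl⟩ := Finset.mem_image.1 hs
      exact hrun c (by have := Finset.mem_range.1 hc'; omega)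

private lemma U5_others {v b : Zd d} {n m : ℕ} {x : Zd d} {γ : Finset (Zd d)} (h : U5Ch v b n m x γ) (o : Fin d)
    (ho : (x o - v o).natAbs = n) (I : Finset (Fin d)) (hI : o ∉ I) :
    ∃ γ', U5Ch v b n (m + I.card) (fun i => if i ∈ I then v i else x i) γ' := by
  induction I using Finset.induction_on with
  | empty => exact ⟨γ, by simpa using h⟩
  | insert a I haI ih =>
    obtain ⟨γ1, h1⟩ := ih (fun hh => hI (Finset.mem_insert_of_mem hh))
    have hoa : o ≠ a := fun hh => hI (hh ▸ Finset.mem_insert_self _ _)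
    have hoI : o ∉ I := fun hh => hI (Finset.mem_insert_of_mem hh)
    obtain ⟨γ2, h2⟩ := U5_move h1 a (v a) (by simp) o hoa (by simp only [if_neg hoI]; exact ho)
    refine ⟨γ2, ?_⟩
    rw [Finset.card_insert_of_notMem haI]
    have e : (fun i => if i ∈ insert a I then v i else x i) =
        Function.update (fun i => if i ∈ I then v i else x i) a (v a) := by
      funext i
      by_cases hi : i = a
      · subst hi; simp
      · simp [Finset.mem_insert, hi]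
    rw [e]
    exact h2

private lemma U5_first (hd : 2 ≤ d) (v b : Zd d) (n : ℕ) (hb : nz (b - v) = n) :
    ∃ (x : Zd d) (γ : Finset (Zd d)), U5Ch v b n 3 x γ ∧ x ⟨0, by omega⟩ = v ⟨0, by omega⟩ - n := by
  have hle : ∀ i, (b i - v i).natAbs ≤ n := by
    intro i
    rw [← hb]
    exact Finset.le_sup (f := fun i => ((b - v) i).natAbs) (Finset.mem_univ i)
  have : Nonempty (Fin d) := ⟨⟨0, by omega⟩⟩
  obtain ⟨j, _, hj⟩ := Finset.exists_mem_eq_sup (Finset.univ : Finset (Fin d)) Finset.univ_nonempty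
    (fun i => ((b - v) i).natAbs)
  have hjn : (b j - v j).natAbs = n := by
    rw [← hb]
    exact hj.symm
  have hstart : U5Ch v b n 1 b {b} := by
    refine ⟨?_, ?_, Finset.mem_singleton_self _, Finset.mem_singleton_self _, ?_, ?_⟩
    · intro s hs
      rw [Finset.mem_singleton.1 hs]
      exact hle
    · intro s hs
      rw [Finset.mem_singleton.1 hs]
      exact ⟨j, hjn⟩
    · rw [Finset.card_singleton]; omega
    · intro s hs
      rw [Finset.mem_singleton.1 hs]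
  have hmono : ∀ {m m' : ℕ} {x : Zd d} {γ : Finset (Zd d)}, m ≤ m' → U5Ch v b n m x γ → U5Ch v b n m' x γ := by
    intro m m' x γ hm h
    exact ⟨h.1, h.2.1, h.2.2.1, h.2.2.2.1, h.2.2.2.2.1.trans (Nat.mul_le_mul_right _ hm), h.2.2.2.2.2⟩
  by_cases h0 : b ⟨0, by omega⟩ = v ⟨0, by omega⟩ - n
  · exact ⟨b, _, hmono (by omega) hstart, h0⟩
  by_cases hj0 : j = ⟨0, by omega⟩
  · rw [hj0] at hjn
    obtain ⟨γ1, h1⟩ := U5_move hstart (⟨1, by omega⟩ : Fin d) (v ⟨1, by omega⟩ + n) (by omega) ⟨0, by omega⟩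
      (by simp) hjn
    obtain ⟨γ2, h2⟩ := U5_move h1 (⟨0, by omega⟩ : Fin d) (v ⟨0, by omega⟩ - n) (by omega) ⟨1, by omega⟩
      (by simp) (by rw [Function.update_self]; omega)
    exact ⟨_, γ2, h2, by rw [Function.update_self]⟩
  · obtain ⟨γ1, h1⟩ := U5_move hstart (⟨0, by omega⟩ : Fin d) (v ⟨0, by omega⟩ - n) (by omega) j hj0 hjn
    exact ⟨_, γ1, hmono (by omega) h1, by rw [Function.update_self]⟩

private lemma U5_sphere (hd : 2 ≤ d) (v b : Zd d) (n : ℕ) (hb : nz (b - v) = n) :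
    ∃ γ : Finset (Zd d), U5Ch v b n (d + 2) (v - (n : ℤ) • e0 (by omega)) γ := by
  obtain ⟨x, γ, h1, h2⟩ := U5_first hd v b n hb
  obtain ⟨γ1, h3⟩ := U5_others h1 ⟨0, by omega⟩ (by rw [h2]; omega)
    (Finset.univ.erase (⟨0, by omega⟩ : Fin d)) (Finset.notMem_erase _ _)
  refine ⟨γ1, ?_⟩
  have hc : (Finset.univ.erase (⟨0, by omega⟩ : Fin d)).card = d - 1 := by
    rw [Finset.card_erase_of_mem (Finset.mem_univ _), Finset.card_univ, Fintype.card_fin]
  have e : (fun i => if i ∈ Finset.univ.erase (⟨0, by omega⟩ : Fin d) then v i else x i) =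
      v - (n : ℤ) • e0 (by omega) := by
    funext i
    by_cases hi : i = ⟨0, by omega⟩
    · subst hi
      simp [e0, h2]
    · simp [e0, hi]
  rw [hc, e] at h3
  have e3 : 3 + (d - 1) = d + 2 := by omega
  rw [e3] at h3
  exact h3

/-- Row U5. The curve from a point `b` at distance `n` from `v` to `v - e0`. There is `γ` with `Axi`, `b ∈ γ`, which is connected by steps of unit vectors. The axis `v - k e0` (`1 ≤ k ≤ n`), and from `b` to `v - n e0` straight segments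
on the sphere: if the coordinate zero of `b - v` is `-n`: bring the other coordinates to zero one after the other. If it is not `±n`, some other coordinate is `±n`: first bring coordinate zero to `-n`, then as before. If it is `+n`: first bring coordinate number one to `n`, then
coordinate zero to `-n`, then as before. At most `d + 2` segments with at most `2n + 1` points each. -/
lemma curve (hd : 2 ≤ d) (v b : Zd d) (n : ℕ) (hn : 1 ≤ n) (hb : nz (b - v) = n) : ∃ γ : Finset (Zd d), Axi (by omega) v n γ ∧ b ∈ γ ∧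
    ∀ s ∈ γ, Relation.ReflTransGen (fun x y : Zd d => y ∈ γ ∧ x ∈ γ ∧ ∃ i, y = x + Pi.single i 1 ∨ x = y + Pi.single i 1) b s := by
  obtain ⟨γ, h1, h2, h3, h4, h5, h6⟩ := U5_sphere hd v b n hb
  set ax : Finset (Zd d) := (Finset.Icc 1 n).image (fun k : ℕ => v - (k : ℤ) • e0 (by omega)) with hax
  have haxm : ∀ k : ℕ, 1 ≤ k → k ≤ n → v - (k : ℤ) • e0 (by omega) ∈ γ ∪ ax := fun k hk1 hk2 =>
    Finset.mem_union_right _ (Finset.mem_image_of_mem _ (Finset.mem_Icc.2 ⟨hk1, hk2⟩))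
  have hrun : ∀ c : ℕ, c + 1 ≤ n → Relation.ReflTransGen (U5st (γ ∪ ax)) b (v - ((n - c : ℕ) : ℤ) • e0 (by omega)) := by
    intro c
    induction c with
    | zero =>
      intro _
      exact U5_mono Finset.subset_union_left (h6 _ h4)
    | succ c ih =>
      intro hc
      refine (ih (by omega)).tail ⟨haxm _ (by omega) (by omega), haxm _ (by omega) (by omega), ⟨0, by omega⟩, Or.inl ?_⟩
      have e : ((n - c : ℕ) : ℤ) = ((n - (c + 1) : ℕ) : ℤ) + 1 := by omega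
      rw [e, add_smul, one_smul]
      unfold e0
      abel
  refine ⟨γ ∪ ax, ⟨?_, haxm, ?_⟩, Finset.mem_union_left _ h3, ?_⟩
  · intro s hs
    rcases Finset.mem_union.1 hs with hs | hs
    · obtain ⟨j, hj⟩ := h2 s hs
      exact Or.inl (U5_nz (s - v) n (h1 s hs) j hj)
    · obtain ⟨k, hk, rfl⟩ := Finset.mem_image.1 hs
      rw [Finset.mem_Icc] at hk
      exact Or.inr ⟨k, hk.1, hk.2, rfl⟩
  · have hsub : (γ ∪ ax).filter (fun s => nz (s - v) = n) ⊆ γ := by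
      intro s hs
      rw [Finset.mem_filter] at hs
      rcases Finset.mem_union.1 hs.1 with h | h
      · exact h
      · obtain ⟨k, hk, rfl⟩ := Finset.mem_image.1 h
        have h7 : nz (v - (k : ℤ) • e0 (by omega) - v) = k := by
          refine U5_nz _ k ?_ ⟨0, by omega⟩ ?_
          · intro i
            by_cases hi : i = ⟨0, by omega⟩
            · subst hi; simp [e0]
            · simp [e0, hi]
          · simp [e0]
        have h8 := hs.2
        rw [h7] at h8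
        subst h8
        exact h4
    refine (Finset.card_le_card hsub).trans (h5.trans ?_)
    linarith
  · intro s hs
    show Relation.ReflTransGen (U5st (γ ∪ ax)) b s
    rcases Finset.mem_union.1 hs with hs | hs
    · exact U5_mono Finset.subset_union_left (h6 s hs)
    · obtain ⟨k, hk, rfl⟩ := Finset.mem_image.1 hs
      rw [Finset.mem_Icc] at hk
      have h9 := hrun (n - k) (by omega)
      have e : n - (n - k) = k := by omega
      rw [e] at h9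
      exact h9

/-- `v` is a good end: the cluster sees `v` through a curve, and otherwise from far. -/
def Nice (hd : 0 < d) (v : Zd d) (n : ℕ) (δ : ℝ) (B : Finset (Zd d)) : Prop :=
  ∃ γ, Axi hd v n γ ∧ (∀ s, s ∈ bv v n → (s ∈ B ↔ s ∈ γ)) ∧ ∑ s ∈ B.filter (fun s => n < nz (s - v)), fz (d - 2) (v - s) ≤ δ

/-- Row U6a. The points of an `Axi` set lie in the ball. -/
lemma U6a_sub (hd0 : 0 < d) (v : Zd d) (n : ℕ) (γ : Finset (Zd d)) (hγ : Axi hd0 v n γ) (s : Zd d)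
    (hs : s ∈ γ) : s ∈ bv v n := by
  rw [mem_bv]
  rcases hγ.1 s hs with h | ⟨k, _, hk2, rfl⟩
  · exact h.le
  · have h1 : v - (k : ℤ) • e0 hd0 - v = -((k : ℤ) • e0 hd0) := by abel
    rw [h1, nz_neg]
    unfold nz
    refine Finset.sup_le fun i _ => ?_
    simp only [e0, Pi.smul_apply, Pi.single_apply, smul_eq_mul]
    split_ifs
    · simpa using hk2
    · simp

/-- Row U6a. First entry into the set `Q`. -/
lemma U6a_entry {V : Type*} [Fintype V] [DecidableEq V] {E : Type*} [Fintype E] [DecidableEq E]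
    {ends : E → Sym2 V} {ω : E → Bool} {S Q A : Set V} {a : V} (ha : a ∈ cS ends ω (S ∪ Q) A)
    (y : V) (h : Rch ends ω Sᶜ a y) :
    y ∈ cS ends ω (S ∪ Q) A ∨ ∃ b' b e, b' ∈ cS ends ω (S ∪ Q) A ∧ b ∈ Q ∧ b ∉ S ∧
      ends e = s(b', b) := by
  induction h with
  | refl => exact Or.inl ha
  | @tail c z _ hcd ih =>
    obtain ⟨_, h2, e, h3, h4⟩ := hcd
    rcases ih with ih | ih
    · by_cases hz : z ∈ Q
      · exact Or.inr ⟨c, z, e, ih, hz, h2, h4⟩
      · refine Or.inl (cS_step ih e h4 h3 ?_)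
        rintro (h | h)
        · exact h2 h
        · exact hz h
    · exact Or.inr ih

/-- Row U6a. The reset for one configuration. -/
lemma U6a_point (hd : 2 ≤ d) (R : ℕ) (D A : Finset (Zd d)) (v : Zd d) (n : ℕ) (hn : 1 ≤ n)
    (hR : nz v + n + 2 ≤ R) (δ : ℝ)
    (hA : ∀ a ∈ A, a ∉ bv v (n + 1)) (hD : ∀ a ∈ D, a ∉ bv v (n + 1))
    (K : Finset (boxG d (2 * R + 3)).edgeSet)
    (hK : ∀ e, e ∈ K ↔ ∃ x y, gends (boxG d (2 * R + 3)) e = s(x, y) ∧ rel (cR d R) x ∈ bv v n)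
    (ω : Om d R) (hv : v ∈ Wb R D A ω)
    (hδ : ∑ s ∈ (Wb R D A ω).filter (fun s => n < nz (s - v)), fz (d - 2) (v - s) ≤ δ) :
    ∃ ω' : Om d R, (∀ e, e ∉ K → ω' e = ω e) ∧ Nice (by omega) v n δ (Wb R D A ω') := by
  classical
  obtain ⟨u, hu⟩ : ∃ u, u = cR d R := ⟨_, rfl⟩
  obtain ⟨ends, hends⟩ : ∃ ends, ends = gends (boxG d (2 * R + 3)) := ⟨_, rfl⟩
  obtain ⟨S0, hS0⟩ : ∃ S0 : Set (Fin d → Fin (2 * R + 3)),
      S0 = pre u D ∪ {x | rel u x ∉ (bz R : Finset (Zd d))} := ⟨_, rfl⟩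
  have hWb : ∀ (ξ : Om d R) (s : Zd d), s ∈ Wb R D A ξ ↔ ∃ x, x ∈ cS ends ξ S0 (pre u A) ∧
      rel u x = s := by
    intro ξ s
    unfold Wb Bz BB
    rw [Finset.mem_image, hends, hS0, hu]
  obtain ⟨Bo, hBo⟩ : ∃ Bo, Bo = cS ends ω (S0 ∪ pre u (bv v n)) (pre u A) := ⟨_, rfl⟩
  have hBoS : Bo ⊆ cS ends ω S0 (pre u A) := by
    rw [hBo]
    exact cS_mono (fun _ h => h) Set.subset_union_left (subset_refl _)
  have hsub1 : ∀ s, s ∈ bv v n → s ∈ bv v (n + 1) := by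
    intro s hs
    rw [mem_bv] at hs ⊢
    omega
  -- the points outside of the ball
  have hoff : ∀ x, x ∈ Bo → rel u x ∉ bv v n := by
    intro x hx hb
    rw [hBo] at hx
    exact cS_off hx (Or.inr hb)
  -- the entry
  obtain ⟨xv, hxv, hxv'⟩ := (hWb ω v).1 hv
  obtain ⟨a, haA, haS, hr⟩ := mem_cS.1 hxv
  have haB : a ∈ cS ends ω (S0 ∪ pre u (bv v n)) (pre u A) := by
    refine mem_cS.2 ⟨a, haA, ?_, Rch.refl a⟩
    rintro (h | h)
    · exact haS h
    · exact hA _ haA (hsub1 _ h)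
  have hentry := U6a_entry haB xv hr
  rw [← hBo] at hentry
  obtain ⟨b', b, e1, hb', hb, hbS, he1⟩ : ∃ b' b e, b' ∈ Bo ∧ b ∈ pre u (bv v n) ∧ b ∉ S0 ∧
      ends e = s(b', b) := by
    rcases hentry with h | h
    · exfalso
      refine hoff xv h ?_
      rw [hxv', mem_bv, sub_self, nz_zero]
      exact Nat.zero_le _
    · exact h
  have hadj1 : (boxG d (2 * R + 3)).Adj b' b := by
    have h1 := e1.2
    have h2 : (e1 : Sym2 (Fin d → Fin (2 * R + 3))) = s(b', b) := by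
      rw [hends] at he1
      exact he1
    rw [h2] at h1
    exact h1
  have hnb : nz (rel u b - v) = n := by
    have h1 : nz (rel u b - v) ≤ n := by
      rw [← mem_bv]
      exact hb
    have h2 : ¬ nz (rel u b' - v) ≤ n := by
      rw [← mem_bv]
      exact hoff b' hb'
    have h3 := adj_nz u b' b hadj1
    have h4 := nz_tri (rel u b') (rel u b) v
    omega
  obtain ⟨γ, hγ, hbγ, hγc⟩ := curve hd v (rel u b) n hn hnb
  have hγb : ∀ s, s ∈ γ → s ∈ bv v n := fun s hs => U6a_sub (by omega) v n γ hγ s hs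
  have hγR : ∀ s, s ∈ γ → nz s ≤ R := by
    intro s hs
    have h1 := hγb s hs
    rw [mem_bv] at h1
    have h2 := nz_add (s - v) v
    rw [sub_add_cancel] at h2
    omega
  have hγS : ∀ x, rel u x ∈ γ → x ∉ S0 := by
    intro x hx h
    rw [hS0] at h
    rcases h with h | h
    · exact hD _ h (hsub1 _ (hγb _ hx))
    · exact h ((mem_bz R _).2 (hγR _ hx))
  -- the new configuration
  obtain ⟨ω', hω'⟩ : ∃ ω' : Om d R, ω' = fun e => if e ∈ K then decide (ends e = s(b', b) ∨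
      ∃ x y, ends e = s(x, y) ∧ rel u x ∈ γ ∧ rel u y ∈ γ) else ω e := ⟨_, rfl⟩
  have hn' : ∀ e, e ∉ K → ω' e = ω e := by
    intro e he
    rw [hω']
    simp only [if_neg he]
  have hk' : ∀ e, e ∈ K → (ω' e = true ↔ (ends e = s(b', b) ∨
      ∃ x y, ends e = s(x, y) ∧ rel u x ∈ γ ∧ rel u y ∈ γ)) := by
    intro e he
    rw [hω']
    simp only [if_pos he, decide_eq_true_eq]
  have hKin : ∀ e x y, ends e = s(x, y) → rel u x ∈ bv v n → e ∈ K := by
    intro e x y he hx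
    rw [hK]
    refine ⟨x, y, ?_, ?_⟩
    · rw [← hends]
      exact he
    · rw [← hu]
      exact hx
  have hKout : ∀ e x y, ends e = s(x, y) → e ∉ K → rel u x ∉ bv v n ∧ rel u y ∉ bv v n := by
    intro e x y he hne
    refine ⟨fun h => hne (hKin e x y he h), fun h => hne (hKin e y x ?_ h)⟩
    rw [he, Sym2.eq_swap]
  have hKnot : ∀ e x y, ends e = s(x, y) → rel u x ∉ bv v n → rel u y ∉ bv v n → e ∉ K := by
    intro e x y he hx hy h
    rw [hK] at h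
    obtain ⟨x', y', h1, h2⟩ := h
    rw [← hends, he] at h1
    rw [← hu] at h2
    rcases Sym2.eq_iff.1 h1 with ⟨rfl, rfl⟩ | ⟨rfl, rfl⟩
    · exact hx h2
    · exact hy h2
  -- the cluster
  have hcl : ∀ y, y ∈ cS ends ω' S0 (pre u A) ↔ (y ∈ Bo ∨ rel u y ∈ γ) := by
    have hBo' : ∀ y, y ∈ Bo → y ∈ cS ends ω' S0 (pre u A) := by
      intro y hy
      rw [hBo] at hy
      obtain ⟨a0, ha0, ha0n, hr0⟩ := mem_cS.1 hy
      refine mem_cS.2 ⟨a0, ha0, fun h => ha0n (Or.inl h), ?_⟩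
      clear hy
      induction hr0 with
      | refl => exact Rch.refl a0
      | @tail c z _ hcd ih =>
        obtain ⟨h1, h2, e, h3, h4⟩ := hcd
        refine Relation.ReflTransGen.tail ih ⟨fun h => h1 (Or.inl h), fun h => h2 (Or.inl h), e,
          ?_, h4⟩
        rw [hn' e (hKnot e c z h4 (fun h => h1 (Or.inr h)) (fun h => h2 (Or.inr h)))]
        exact h3
    have hbc : b ∈ cS ends ω' S0 (pre u A) := by
      refine cS_step (hBo' b' hb') e1 he1 ?_ hbS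
      rw [hk' e1 (hKin e1 b b' (by rw [he1, Sym2.eq_swap]) hb)]
      exact Or.inl he1
    have hγc' : ∀ s, Relation.ReflTransGen (fun x y : Zd d => y ∈ γ ∧ x ∈ γ ∧
        ∃ i, y = x + Pi.single i 1 ∨ x = y + Pi.single i 1) (rel u b) s →
        ∀ y, rel u y = s → y ∈ cS ends ω' S0 (pre u A) := by
      intro s hs
      induction hs with
      | refl =>
        intro y hy
        rw [rel_inj u hy]
        exact hbc
      | @tail s t _ hst ih =>
        intro y hy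
        obtain ⟨ht, hs', i, hi⟩ := hst
        obtain ⟨x, hx⟩ : ∃ x, rel u x = s := by
          rw [hu]
          exact ex_rel R s (by have := hγR s hs'; omega)
        have hadj : (boxG d (2 * R + 3)).Adj x y := by
          rw [adj_rel u x y]
          refine ⟨i, ?_⟩
          rw [hx, hy]
          exact hi
        obtain ⟨e, he⟩ : ∃ e, ends e = s(x, y) := by
          refine ⟨⟨s(x, y), hadj⟩, ?_⟩
          rw [hends]
          rfl
        refine cS_step (ih x hx) e he ?_ (hγS y (by rw [hy]; exact ht))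
        rw [hk' e (hKin e x y he (hγb _ (by rw [hx]; exact hs')))]
        exact Or.inr ⟨x, y, he, by rw [hx]; exact hs', by rw [hy]; exact ht⟩
    intro y
    constructor
    · intro hy
      obtain ⟨a0, ha0, ha0n, hr0⟩ := mem_cS.1 hy
      clear hy
      induction hr0 with
      | refl =>
        left
        rw [hBo]
        refine mem_cS.2 ⟨a0, ha0, ?_, Rch.refl a0⟩
        rintro (h | h)
        · exact ha0n h
        · exact hA _ ha0 (hsub1 _ h)
      | @tail c z _ hcd ih =>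
        obtain ⟨h1, h2, e, h3, h4⟩ := hcd
        by_cases heK : e ∈ K
        · rw [hk' e heK] at h3
          rcases h3 with h3 | ⟨x', y', h3, hx', hy'⟩
          · rw [h4] at h3
            rcases Sym2.eq_iff.1 h3 with ⟨rfl, rfl⟩ | ⟨rfl, rfl⟩
            · exact Or.inr hbγ
            · exact Or.inl hb'
          · rw [h4] at h3
            rcases Sym2.eq_iff.1 h3 with ⟨rfl, rfl⟩ | ⟨rfl, rfl⟩
            · exact Or.inr hy'
            · exact Or.inr hx'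
        · obtain ⟨hc, hz⟩ := hKout e c z h4 heK
          rw [hn' e heK] at h3
          rcases ih with ih | ih
          · left
            rw [hBo] at ih ⊢
            refine cS_step ih e h4 h3 ?_
            rintro (h | h)
            · exact h2 h
            · exact hz h
          · exact absurd (hγb _ ih) hc
    · rintro (hy | hy)
      · exact hBo' y hy
      · exact hγc' _ (hγc _ hy) y rfl
  refine ⟨ω', hn', γ, hγ, ?_, ?_⟩
  · intro s hs
    rw [hWb ω' s]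
    constructor
    · rintro ⟨x, hx, rfl⟩
      rcases (hcl x).1 hx with h | h
      · exact absurd hs (hoff x h)
      · exact h
    · intro h
      obtain ⟨x, hx⟩ : ∃ x, rel u x = s := by
        rw [hu]
        exact ex_rel R s (by have := hγR s h; omega)
      exact ⟨x, (hcl x).2 (Or.inr (by rw [hx]; exact h)), hx⟩
  · refine le_trans (Finset.sum_le_sum_of_subset_of_nonneg ?_ fun s _ _ => (fz_pos _ _).le) hδ
    intro s hs
    rw [Finset.mem_filter] at hs ⊢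
    refine ⟨?_, hs.2⟩
    rw [hWb] at hs ⊢
    obtain ⟨⟨x, hx, hxs⟩, hs2⟩ := hs
    rcases (hcl x).1 hx with h | h
    · exact ⟨x, hBoS h, hxs⟩
    · exfalso
      have h1 := hγb _ h
      rw [hxs, mem_bv] at h1
      omega

/-- Row U6. The reset map of Lemma E. `|v| + n + 2 ≤ R`, `bv v (n+1)` contains no point of `A` and no point of `D`, `K` = the edges touching `bv v n`. There is `T` which changes only edges of `K` such that for all `ω` with `v ∈ Wb D A ω`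
and `∑_{s ∈ Wb, |s-v| > n} fz (v-s) ≤ δ` the set `Wb D A (T ω)` is `Nice`.
Proof: `Bo` = cluster of `A` off `D` and off `bv v n` inside `bz R` in `ω`. Since `v ∈ Wb` and `A` has no point in `bv v n`, `Bo` contains a point `b'` adjacent to some `b ∈ bv v n` (the path from `A` to `v`, its last vertex before it enters `bv v n`), `|b - v| = n`.
Choose such `b, b'` (depending on `ω`), `γ` from `curve`; `T ω` on `K`: the edge `(b',b)` and all edges with both ends in `γ` are open, all others closed. Then `Wb D A (T ω) = Bo ∪ γ`, `Bo ⊆ Wb D A ω`, `Bo ∩ bv v n = ∅`. (If `ω` is not of this kind: `T ω = ω`.) -/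
lemma resetE (hd : 2 ≤ d) (R : ℕ) (D A : Finset (Zd d)) (v : Zd d) (n : ℕ) (hn : 1 ≤ n) (hR : nz v + n + 2 ≤ R) (δ : ℝ)
    (hA : ∀ a ∈ A, a ∉ bv v (n + 1)) (hD : ∀ a ∈ D, a ∉ bv v (n + 1))
    (K : Finset (boxG d (2 * R + 3)).edgeSet)
    (hK : ∀ e, e ∈ K ↔ ∃ x y, gends (boxG d (2 * R + 3)) e = s(x, y) ∧ rel (cR d R) x ∈ bv v n) :
    ∃ T : Om d R → Om d R, (∀ ω, ∀ e, e ∉ K → T ω e = ω e) ∧ ∀ ω, v ∈ Wb R D A ω →
      ∑ s ∈ (Wb R D A ω).filter (fun s => n < nz (s - v)), fz (d - 2) (v - s) ≤ δ → Nice (by omega) v n δ (Wb R D A (T ω)) := by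
  classical
  have hall : ∀ ω : Om d R, ∃ ω' : Om d R, (∀ e, e ∉ K → ω' e = ω e) ∧ (v ∈ Wb R D A ω →
      ∑ s ∈ (Wb R D A ω).filter (fun s => n < nz (s - v)), fz (d - 2) (v - s) ≤ δ →
      Nice (by omega) v n δ (Wb R D A ω')) := by
    intro ω
    by_cases h : v ∈ Wb R D A ω ∧
        ∑ s ∈ (Wb R D A ω).filter (fun s => n < nz (s - v)), fz (d - 2) (v - s) ≤ δ
    · obtain ⟨ω', h1, h2⟩ := U6a_point hd R D A v n hn hR δ hA hD K hK ω h.1 h.2
      exact ⟨ω', h1, fun _ _ => h2⟩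
    · exact ⟨ω, fun _ _ => rfl, fun h1 h2 => absurd ⟨h1, h2⟩ h⟩
  choose T hT using hall
  exact ⟨T, fun ω => (hT ω).1, fun ω => (hT ω).2⟩

open scoped Classical in
/-- Row U6. `Ex_reset` (`f = 1(Nice)`), `resetE`, `K_card`. -/
lemma nice_prob (hd : 2 ≤ d) (R : ℕ) (D A : Finset (Zd d)) (v : Zd d) (n : ℕ) (hn : 1 ≤ n) (hR : nz v + n + 2 ≤ R) (δ : ℝ)
    (hA : ∀ a ∈ A, a ∉ bv v (n + 1)) (hD : ∀ a ∈ D, a ∉ bv v (n + 1)) (p1 : ℝ) (h0 : 0 < p1) (h1 : p1 < 1) (hd0 : 0 < d) :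
    (min p1 (1 - p1)) ^ (2 * d * (2 * n + 1) ^ d) * Ex p1 (fun ω => if v ∈ Wb R D A ω ∧
      ∑ s ∈ (Wb R D A ω).filter (fun s => n < nz (s - v)), fz (d - 2) (v - s) ≤ δ then (1 : ℝ) else 0) ≤
      Ex p1 (fun ω => if Nice hd0 v n δ (Wb R D A ω) then (1 : ℝ) else 0) := by
  set K : Finset (boxG d (2 * R + 3)).edgeSet := Finset.univ.filter
    (fun e => ∃ x y, gends (boxG d (2 * R + 3)) e = s(x, y) ∧ rel (cR d R) x ∈ bv v n) with hKdef
  have hK : ∀ e, e ∈ K ↔ ∃ x y, gends (boxG d (2 * R + 3)) e = s(x, y) ∧ rel (cR d R) x ∈ bv v n := by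
    intro e
    rw [hKdef]
    simp only [Finset.mem_filter, Finset.mem_univ, true_and]
  obtain ⟨T, hT1, hT2⟩ := resetE hd R D A v n hn hR δ hA hD K hK
  have hcard : K.card ≤ 2 * d * (2 * n + 1) ^ d := by
    have h := K_card R (bv v n) K hK
    rwa [card_bv] at h
  have hm0 : (0 : ℝ) ≤ min p1 (1 - p1) := le_min h0.le (by linarith)
  have hm1 : min p1 (1 - p1) ≤ 1 := (min_le_left _ _).trans h1.le
  have hr := Ex_reset h0 h1 K T hT1 (fun ω => if Nice hd0 v n δ (Wb R D A ω) then (1 : ℝ) else 0)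
    (by intro ω; split_ifs <;> norm_num)
  refine le_trans ?_ hr
  refine mul_le_mul (pow_le_pow_of_le_one hm0 hm1 hcard) ?_ ?_ (pow_nonneg hm0 _)
  · refine Ex_mono h0.le h1.le (fun ω => ?_)
    by_cases hc : v ∈ Wb R D A ω ∧
      ∑ s ∈ (Wb R D A ω).filter (fun s => n < nz (s - v)), fz (d - 2) (v - s) ≤ δ
    · have hN : Nice hd0 v n δ (Wb R D A (T ω)) := hT2 ω hc.1 hc.2
      rw [if_pos hc, if_pos hN]
    · rw [if_neg hc]
      split_ifs <;> norm_num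
  · refine Ex_nonneg h0.le h1.le (fun ω => ?_)
    split_ifs <;> norm_num

private lemma U7a_ne (hd0 : 0 < d) (v : Zd d) (k : ℕ) (hk : 1 ≤ k) : v ≠ v - (k : ℤ) • e0 hd0 := by
  intro h
  have h1 := congrFun h ⟨0, hd0⟩
  simp only [Pi.sub_apply, Pi.smul_apply, e0, Pi.single_eq_same, smul_eq_mul, mul_one] at h1
  omega

private lemma U7a_nz (hd0 : 0 < d) : nz (e0 hd0 : Zd d) = 1 := by
  unfold nz e0
  refine le_antisymm (Finset.sup_le fun i _ => ?_) ?_
  · by_cases h : i = ⟨0, hd0⟩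
    · rw [h, Pi.single_eq_same]; rfl
    · rw [Pi.single_eq_of_ne h]; simp
  · have h := Finset.le_sup (f := fun i => ((Pi.single (⟨0, hd0⟩ : Fin d) (1 : ℤ) : Zd d) i).natAbs)
      (Finset.mem_univ (⟨0, hd0⟩ : Fin d))
    simpa using h

/-- the edge which makes a nice point a next vertex -/
private lemma U7a_edge (hd0 : 0 < d) (R : ℕ) (D A : Finset (Zd d)) (n : ℕ) (hn : 1 ≤ n) (δ : ℝ)
    (ω : Om d R) (v : Zd d) (hvR : v ∈ (bz R : Finset (Zd d))) (hvD : v ∉ D) (hN : Nice hd0 v n δ (Wb R D A ω)) :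
    ∃ e : (boxG d (2 * R + 3)).edgeSet, ∀ η : Om d R, η e = true → v ∈ Wr R D A ω η := by
  classical
  obtain ⟨γ, ⟨hγ1, hγ2, -⟩, hB, -⟩ := hN
  have hvγ : v ∉ γ := by
    intro h
    rcases hγ1 v h with h1 | ⟨k, hk, -, h1⟩
    · rw [sub_self, nz_zero] at h1
      omega
    · exact U7a_ne hd0 v k hk h1
  have hvW : v ∉ Wb R D A ω := by
    intro h
    refine hvγ ((hB v ?_).1 h)
    rw [mem_bv, sub_self, nz_zero]
    omega
  have ha : v - e0 hd0 ∈ γ := by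
    have := hγ2 1 le_rfl hn
    simpa using this
  have haW : v - e0 hd0 ∈ Wb R D A ω := by
    refine (hB _ ?_).2 ha
    rw [mem_bv, sub_sub_cancel_left, nz_neg, U7a_nz]
    exact hn
  have haW' := haW
  unfold Wb Bz at haW'
  rw [Finset.mem_image] at haW'
  obtain ⟨y, hy, hyv⟩ := haW'
  rw [mem_bz] at hvR
  obtain ⟨x, hx⟩ := ex_rel R v (by omega)
  have hadj : (boxG d (2 * R + 3)).Adj y x := by
    rw [adj_rel (cR d R)]
    refine ⟨⟨0, hd0⟩, Or.inl ?_⟩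
    rw [hx, hyv]
    exact (sub_add_cancel v (e0 hd0)).symm
  refine ⟨⟨s(y, x), hadj⟩, fun η hη => ?_⟩
  unfold Wr
  rw [Finset.mem_filter, mem_bz]
  refine ⟨?_, hvR⟩
  unfold Wn Nz
  rw [Finset.mem_image]
  refine ⟨x, ?_, hx⟩
  unfold NB
  rw [Finset.mem_filter]
  refine ⟨Finset.mem_univ _, ?_, ?_, y, hy, ⟨s(y, x), hadj⟩, rfl, ?_⟩
  · intro h
    apply hvD
    rw [← hx]
    exact h
  · rw [← mem_Wb, hx]
    exact hvW
  · rw [if_pos (by rw [hx, mem_bz]; exact hvR)]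
    exact hη

open scoped Classical in
/-- Row U7. Nice points are next vertices with probability at least `s`: if `Nice v n δ (Wb ω)` then `v - e0 ∈ γ ⊆ Wb`, `v ∉ Wb` (`v ∈ bv v n`, `v ∉ γ`), so `v ∈ Wr` if the edge `(v - e0, v)` is open in `η` (for `v ∉ D`, `|v| ≤ R`).
So for `F ≥ 0` and a finite set `S` of points off `D` in the ball: `s ∑_{v ∈ S} E[1(Nice v) F(ω, v)] ≤ E E ∑_{v ∈ Wr ∩ S, Nice} F(ω, v)`. -/
lemma nice_next (hd0 : 0 < d) (R : ℕ) (D A : Finset (Zd d)) (n : ℕ) (hn : 1 ≤ n) (δ : ℝ) (p1 s : ℝ) (h0 : 0 ≤ p1) (h1 : p1 ≤ 1) (hs0 : 0 ≤ s) (hs1 : s ≤ 1)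
    (S : Finset (Zd d)) (hS : S ⊆ bz R) (hSD : ∀ v ∈ S, v ∉ D) :
    s * ∑ v ∈ S, Ex p1 (fun ω => if Nice hd0 v n δ (Wb R D A ω) then (1 : ℝ) else 0) ≤
      Ex p1 (fun ω => Ex s (fun η => (((Wr R D A ω η).filter (fun v => v ∈ S ∧ Nice hd0 v n δ (Wb R D A ω))).card : ℝ))) := by
  have hLHS : s * ∑ v ∈ S, Ex p1 (fun ω => if Nice hd0 v n δ (Wb R D A ω) then (1 : ℝ) else 0) =
      Ex p1 (fun ω => s * ∑ v ∈ S, if Nice hd0 v n δ (Wb R D A ω) then (1 : ℝ) else 0) := by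
    rw [Ex_mul_left, Ex_sum]
  rw [hLHS]
  refine Ex_mono h0 h1 fun ω => ?_
  have hcard : ∀ η : Om d R, (((Wr R D A ω η).filter (fun v => v ∈ S ∧ Nice hd0 v n δ (Wb R D A ω))).card : ℝ) =
      ∑ v ∈ S, if v ∈ Wr R D A ω η ∧ Nice hd0 v n δ (Wb R D A ω) then (1 : ℝ) else 0 := by
    intro η
    rw [Finset.sum_boole]
    congr 1
    congr 1
    ext v
    simp only [Finset.mem_filter]
    tauto
  rw [Ex_congr hcard, Ex_sum, Finset.mul_sum]
  refine Finset.sum_le_sum fun v hv => ?_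
  by_cases hN : Nice hd0 v n δ (Wb R D A ω)
  · rw [if_pos hN, mul_one]
    obtain ⟨e, he⟩ := U7a_edge hd0 R D A n hn δ ω v (hS hv) (hSD v hv) hN
    calc s = Ex s (fun η : Om d R => (if η e = true then (1 : ℝ) else 0) * 1) := by
          rw [Ex_coord s e (fun _ => (1 : ℝ)) (fun _ _ _ => rfl), Ex_const, mul_one]
      _ ≤ Ex s (fun η => if v ∈ Wr R D A ω η ∧ Nice hd0 v n δ (Wb R D A ω) then (1 : ℝ) else 0) := by
          refine Ex_mono hs0 hs1 fun η => ?_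
          by_cases h : η e = true
          · rw [if_pos h, if_pos ⟨he η h, hN⟩, mul_one]
          · rw [if_neg h, zero_mul]
            split_ifs <;> norm_num
  · rw [if_neg hN, mul_zero]
    refine Ex_nonneg hs0 hs1 fun η => ?_
    split_ifs <;> norm_num

/-- The pointwise inequality of Row U7b. -/
private lemma U7b_pt (R n r : ℕ) (D A B : Finset (Zd d)) (δ : ℝ) (hδ : 0 < δ) (hn : n + 2 ≤ R)
    (S : Finset (Zd d)) (hS : S = (bz (R - n - 2)).filter (fun v => ∀ a ∈ A ∪ D, n + 1 + r < nz (a - v))) (ef : Zd d → ℝ)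
    (hef : ∀ v, 0 ≤ ef v) (P : Zd d → Prop) [DecidablePred P] (hP : ∀ v, P v ↔ (v ∈ B ∧ ef v ≤ δ)) :
    (B.card : ℝ) ≤ ∑ v ∈ S, (if P v then (1 : ℝ) else 0) +
      (((A ∪ D).card : ℝ) * (2 * ((n : ℝ) + 1 + r) + 1) ^ d +
      (((B.filter (fun v => R ≤ nz v + (n + 2))).card : ℝ) + (1 / δ) * ∑ v ∈ B, ef v)) := by
  classical
  have hsub : B ⊆ (S.filter P) ∪ ((A ∪ D).biUnion (fun a => bv a (n + 1 + r)) ∪
      (B.filter (fun v => R ≤ nz v + (n + 2)) ∪ B.filter (fun v => δ < ef v))) := by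
    intro v hv
    simp only [Finset.mem_union, Finset.mem_filter, Finset.mem_biUnion, mem_bv]
    by_cases h1 : R ≤ nz v + (n + 2)
    · right; right; left; exact ⟨hv, h1⟩
    by_cases h2 : ∀ a ∈ A ∪ D, n + 1 + r < nz (a - v)
    · by_cases h3 : ef v ≤ δ
      · left
        refine ⟨?_, (hP v).2 ⟨hv, h3⟩⟩
        rw [hS, Finset.mem_filter, mem_bz]
        exact ⟨by omega, h2⟩
      · right; right; right
        exact ⟨hv, not_le.1 h3⟩
    · right; left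
      push Not at h2
      obtain ⟨a, ha, hle⟩ := h2
      refine ⟨a, ?_, ?_⟩
      · exact Finset.mem_union.1 ha
      · rw [nz_sub]; exact hle
  have hc1 : (B.card : ℝ) ≤ ((S.filter P).card : ℝ) + ((((A ∪ D).biUnion (fun a => bv a (n + 1 + r))).card : ℝ) +
      (((B.filter (fun v => R ≤ nz v + (n + 2))).card : ℝ) + ((B.filter (fun v => δ < ef v)).card : ℝ))) := by
    have h := Finset.card_le_card hsub
    have h2 := h.trans (Finset.card_union_le _ _)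
    have h3 := Finset.card_union_le ((A ∪ D).biUnion (fun a => bv a (n + 1 + r)))
      (B.filter (fun v => R ≤ nz v + (n + 2)) ∪ B.filter (fun v => δ < ef v))
    have h4 := Finset.card_union_le (B.filter (fun v => R ≤ nz v + (n + 2))) (B.filter (fun v => δ < ef v))
    have h5 : B.card ≤ (S.filter P).card + (((A ∪ D).biUnion (fun a => bv a (n + 1 + r))).card +
        ((B.filter (fun v => R ≤ nz v + (n + 2))).card + (B.filter (fun v => δ < ef v)).card)) := by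
      omega
    exact_mod_cast h5
  have hc2 : ((S.filter P).card : ℝ) = ∑ v ∈ S, (if P v then (1 : ℝ) else 0) := by
    rw [Finset.sum_boole]
  have hc3 : (((A ∪ D).biUnion (fun a => bv a (n + 1 + r))).card : ℝ) ≤
      ((A ∪ D).card : ℝ) * (2 * ((n : ℝ) + 1 + r) + 1) ^ d := by
    have h := Finset.card_biUnion_le_card_mul (A ∪ D) (fun a => bv a (n + 1 + r)) ((2 * (n + 1 + r) + 1) ^ d)
      (fun a _ => (card_bv a (n + 1 + r)).le)
    have h2 : ((((A ∪ D).biUnion (fun a => bv a (n + 1 + r))).card : ℕ) : ℝ) ≤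
        (((A ∪ D).card * (2 * (n + 1 + r) + 1) ^ d : ℕ) : ℝ) := by exact_mod_cast h
    push_cast at h2
    exact h2
  have hc4 : ((B.filter (fun v => δ < ef v)).card : ℝ) ≤ (1 / δ) * ∑ v ∈ B, ef v := by
    have h : (((B.filter (fun v => δ < ef v)).card : ℕ) : ℝ) = ∑ v ∈ B.filter (fun v => δ < ef v), (1 : ℝ) := by
      simp
    rw [h, Finset.mul_sum]
    calc ∑ v ∈ B.filter (fun v => δ < ef v), (1 : ℝ)
        ≤ ∑ v ∈ B.filter (fun v => δ < ef v), 1 / δ * ef v := by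
          apply Finset.sum_le_sum
          intro v hv
          have := (Finset.mem_filter.1 hv).2
          rw [one_div, inv_mul_eq_div, one_le_div hδ]
          exact this.le
      _ ≤ ∑ v ∈ B, 1 / δ * ef v := by
          apply Finset.sum_le_sum_of_subset_of_nonneg (Finset.filter_subset _ _)
          intro v _ _
          exact mul_nonneg (by positivity) (hef v)
  rw [hc2] at hc1
  linarith

/-- Row U7. The points `v` of the cluster with small energy. With `S` = the points of `bz (R - n - 2)` at distance more than `n+1+r` from `A ∪ D`: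
`∑_{v ∈ S} P(v ∈ Wb, energy outside bv v n ≤ δ) ≥ E|Wb| - (|A|+|D|)(2(n+1+r)+1)^d - E|Wb ∩ shell| - (1/δ) K (E|Wb|/(1+n) + |A|^2)` (`en4` with `ρ = n + 1`, Markov for each `v`:
`1(v ∈ Wb) ≤ 1(v ∈ Wb, energy ≤ δ) + 1(v ∈ Wb) energy/δ`). -/
lemma good_sum {C pc : ℝ} (hp : HP d C pc) : ∃ K : ℝ, 1 ≤ K ∧ ∀ (R : ℕ) (D A : Finset (Zd d)), A ⊆ bz R → ∀ (p1 : ℝ) (n r : ℕ) (δ : ℝ), 0 < p1 → p1 ≤ pc → 0 < δ → n + 2 ≤ R →
    ∀ S : Finset (Zd d), S = (bz (R - n - 2)).filter (fun v => ∀ a ∈ A ∪ D, n + 1 + r < nz (a - v)) →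
    Ex p1 (fun ω => ((Wb R D A ω).card : ℝ)) * (1 - K / (δ * (1 + (n : ℝ)))) - ((A ∪ D).card : ℝ) * (2 * ((n : ℝ) + 1 + r) + 1) ^ d -
      Ex p1 (fun ω => (((Wb R D A ω).filter (fun v => R ≤ nz v + (n + 2))).card : ℝ)) - K / δ * (A.card : ℝ) ^ 2 ≤
      ∑ v ∈ S, Ex p1 (fun ω => if v ∈ Wb R D A ω ∧
        ∑ s ∈ (Wb R D A ω).filter (fun s => n < nz (s - v)), fz (d - 2) (v - s) ≤ δ then (1 : ℝ) else 0) := by
  obtain ⟨K, hK1, hK⟩ := en4 hp
  refine ⟨K, hK1, ?_⟩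
  intro R D A hA p1 n r δ h0 h1 hδ hn S hS
  have hp11 : p1 ≤ 1 := h1.trans hp.p1.le
  have hE := hK R D A hA p1 (n + 1) h0 h1
  set X := Ex p1 (fun ω : Om d R => ((Wb R D A ω).card : ℝ)) with hX
  have hX0 : 0 ≤ X := Ex_nonneg h0.le hp11 (fun ω => Nat.cast_nonneg _)
  set EN := Ex p1 (fun ω : Om d R => ∑ v ∈ Wb R D A ω, ∑ w ∈ (Wb R D A ω).filter (fun w => n + 1 ≤ nz (w - v)), fz (d - 2) (v - w)) with hEN
  set SH := Ex p1 (fun ω : Om d R => (((Wb R D A ω).filter (fun v => R ≤ nz v + (n + 2))).card : ℝ)) with hSH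
  have hmain : X ≤ ∑ v ∈ S, Ex p1 (fun ω : Om d R => if v ∈ Wb R D A ω ∧
        ∑ s ∈ (Wb R D A ω).filter (fun s => n < nz (s - v)), fz (d - 2) (v - s) ≤ δ then (1 : ℝ) else 0) +
      (((A ∪ D).card : ℝ) * (2 * ((n : ℝ) + 1 + r) + 1) ^ d + (SH + (1 / δ) * EN)) := by
    rw [hX, hSH, hEN, ← Ex_sum, ← Ex_mul_left, ← Ex_add,
      ← Ex_const (E := (boxG d (2 * R + 3)).edgeSet) p1 (((A ∪ D).card : ℝ) * (2 * ((n : ℝ) + 1 + r) + 1) ^ d), ← Ex_add, ← Ex_add]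
    apply Ex_mono h0.le hp11
    intro ω
    exact U7b_pt R n r D A (Wb R D A ω) δ hδ hn S hS
      (fun v => ∑ w ∈ (Wb R D A ω).filter (fun w => n + 1 ≤ nz (w - v)), fz (d - 2) (v - w))
      (fun v => Finset.sum_nonneg (fun w _ => (fz_pos _ _).le)) _ (fun v => Iff.rfl)
  have hcast : ((n + 1 : ℕ) : ℝ) = (n : ℝ) + 1 := by push_cast; ring
  have hEN2 : EN ≤ K * (X / (1 + (n : ℝ)) + (A.card : ℝ) ^ 2) := by
    refine hE.trans ?_
    apply mul_le_mul_of_nonneg_left _ (by linarith)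
    have : X / (1 + ((n + 1 : ℕ) : ℝ)) ≤ X / (1 + (n : ℝ)) := by
      apply div_le_div_of_nonneg_left hX0 (by positivity)
      rw [hcast]; linarith
    linarith
  have hEN3 : (1 / δ) * EN ≤ K / δ * (X / (1 + (n : ℝ))) + K / δ * (A.card : ℝ) ^ 2 := by
    calc (1 / δ) * EN ≤ (1 / δ) * (K * (X / (1 + (n : ℝ)) + (A.card : ℝ) ^ 2)) :=
          mul_le_mul_of_nonneg_left hEN2 (by positivity)
      _ = _ := by ring
  have hne : (1 + (n : ℝ)) ≠ 0 := by positivity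
  have h5 : X * (1 - K / (δ * (1 + (n : ℝ)))) = X - K / δ * (X / (1 + (n : ℝ))) := by
    field_simp
  rw [h5]
  linarith

private lemma U8_axi (hd : 0 < d) (v : Zd d) (n : ℕ) (γ : Finset (Zd d)) (hγ : Axi hd v n γ) :
    ∀ s ∈ γ, s ∈ bv v n := by
  intro s hs
  rw [mem_bv]
  rcases hγ.1 s hs with h | ⟨k, _, hk, rfl⟩
  · exact h.le
  · unfold nz
    refine Finset.sup_le fun i _ => ?_
    have h1 : (v - (k : ℤ) • e0 hd - v) i = -((k : ℤ) * (e0 hd : Zd d) i) := by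
      simp only [Pi.sub_apply, Pi.smul_apply, smul_eq_mul]
      ring
    rw [h1]
    unfold e0
    rw [Pi.single_apply]
    split_ifs
    · rw [mul_one, Int.natAbs_neg, Int.natAbs_natCast]
      exact hk
    · simp

private lemma U8_low {C pc L H0 cK δ : ℝ} (hp : HP d C pc) (hL : 0 < L) (hd0 : 0 < d) (n r : ℕ)
    {H : Finset (Zd d) → Finset (Zd d) → ℝ} (hH : HL d C L H0 pc H) (D : Finset (Zd d)) (v : Zd d)
    (B : Finset (Zd d)) (hM : ∀ γ, Axi hd0 v n γ → cK ≤ H γ {v})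
    (hr : L * (C * (D.card : ℝ)) / (1 + (r : ℝ)) ≤ cK / 8) (hD : ∀ a ∈ D, r < nz (a - v))
    (hδ : L * (C * δ) ≤ cK / 8) (hc : 0 < cK) (hB : Nice hd0 v n δ B) : cK / 2 ≤ H (D ∪ B) {v} := by
  classical
  obtain ⟨γ, hγ, hb, hs⟩ := hB
  have hγB : γ ⊆ B := fun s hs => (hb s (U8_axi hd0 v n γ hγ s hs)).2 hs
  have e1 : D ∪ B = γ ∪ ((D ∪ B) \ γ) :=
    (Finset.union_sdiff_of_subset (hγB.trans Finset.subset_union_right)).symm
  have h1 := hH.lo γ ((D ∪ B) \ γ) {v}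
  rw [← e1, Finset.sum_singleton, ← Finset.mul_sum] at h1
  have h2 := hM γ hγ
  have hsub : (D ∪ B) \ γ ⊆ D ∪ B.filter (fun s => n < nz (s - v)) := by
    intro s hs
    rw [Finset.mem_sdiff, Finset.mem_union] at hs
    rw [Finset.mem_union, Finset.mem_filter]
    rcases hs.1 with h | h
    · exact Or.inl h
    · refine Or.inr ⟨h, ?_⟩
      by_contra hcon
      exact hs.2 ((hb s ((mem_bv _ _ _).2 (not_lt.1 hcon))).1 h)
  have h3 : ∑ s ∈ (D ∪ B) \ γ, fz (d - 2) (v - s) ≤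
      ∑ s ∈ D, fz (d - 2) (v - s) + ∑ s ∈ B.filter (fun s => n < nz (s - v)), fz (d - 2) (v - s) := by
    rw [← Finset.sum_union_inter]
    have h4 := Finset.sum_le_sum_of_subset_of_nonneg (f := fun s => fz (d - 2) (v - s)) hsub
      (fun i _ _ => (fz_pos _ _).le)
    have h5 : 0 ≤ ∑ s ∈ D ∩ B.filter (fun s => n < nz (s - v)), fz (d - 2) (v - s) :=
      Finset.sum_nonneg fun i _ => (fz_pos _ _).le
    linarith
  have h4 : ∑ s ∈ D, fz (d - 2) (v - s) ≤ (D.card : ℝ) * (1 / (1 + (r : ℝ))) := by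
    rw [← nsmul_eq_mul]
    refine Finset.sum_le_card_nsmul _ _ _ fun s hs => ?_
    unfold fz
    have h5 : r < nz (v - s) := by
      rw [nz_sub]
      exact hD s hs
    have h6 : (1 : ℝ) + r ≤ 1 + (nz (v - s) : ℝ) := by
      have : (r : ℝ) ≤ (nz (v - s) : ℝ) := by exact_mod_cast h5.le
      linarith
    have h7 : (1 : ℝ) ≤ 1 + (nz (v - s) : ℝ) := by
      have : (0 : ℝ) ≤ (nz (v - s) : ℝ) := Nat.cast_nonneg _
      linarith
    have h8 : (1 : ℝ) + (nz (v - s) : ℝ) ≤ (1 + (nz (v - s) : ℝ)) ^ (d - 2) :=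
      le_self_pow₀ h7 (by have := hp.d11; omega)
    have h9 : (0 : ℝ) < 1 + r := by positivity
    exact one_div_le_one_div_of_le h9 (h6.trans h8)
  have hC : 0 < C := lt_of_lt_of_le one_pos hp.C1
  have h5 : L * (C * ∑ s ∈ (D ∪ B) \ γ, fz (d - 2) (v - s)) ≤ cK / 4 := by
    have h6 : L * (C * ∑ s ∈ (D ∪ B) \ γ, fz (d - 2) (v - s)) ≤
        L * (C * ((D.card : ℝ) * (1 / (1 + (r : ℝ))) + δ)) := by
      refine mul_le_mul_of_nonneg_left (mul_le_mul_of_nonneg_left ?_ hC.le) hL.le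
      linarith
    have h7 : L * (C * ((D.card : ℝ) * (1 / (1 + (r : ℝ))) + δ)) =
        L * (C * (D.card : ℝ)) / (1 + (r : ℝ)) + L * (C * δ) := by
      ring
    linarith
  have h6 := (abs_le.1 h1).2
  linarith

/-- Row U8. (2.4) Lemma E. `cK, n0` from `lemM`, `δ = cK/(8 L C)`, `n ≥ n0, n ≥ 1` with `K/(δ(1+n)) ≤ 1/2` (`good_sum`), `r` with `L C |D| (1+r)^(-(d-2)) ≤ cK/8`.
For a nice `v ∈ S`: `H(D ∪ Wb, v) ≥ H(γ, v) - L C (∑_{s ∈ D} fz (v-s) + δ) ≥ cK/2` (`lo` with `D' = (D ∪ Wb) \ γ`: the points of `Wb \ γ` have distance `> n`). So by `linz` and `H ≥ 0`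
`H D A ≥ (cK/2) E E #(nice next vertices in S) - L(E E|We| + K s^2 (X + |A|^2))`, `nice_next`, `nice_prob` (`min(p1,1-p1) ≥ min(pc/2,1-pc)` for `p1 ≥ pc/2`), `good_sum`. Everything which does not contain `X` or `s^2` or the shells is put into the constant `C2`. -/
lemma lemE {C pc : ℝ} (hp : HP d C pc) (L H0 : ℝ) (hL : 0 < L) (hH0 : 0 < H0) : ∃ c2 K : ℝ, ∃ n : ℕ, 0 < c2 ∧ 1 ≤ K ∧ ∀ H : Finset (Zd d) → Finset (Zd d) → ℝ,
    HL d C L H0 pc H → ∀ (D A : Finset (Zd d)), ∃ C2 : ℝ, ∀ (R : ℕ), A ⊆ bz R → n + 2 ≤ R → ∀ (p1 s : ℝ), pc / 2 ≤ p1 → p1 ≤ pc → 0 ≤ s → s < 1 → 1 - pc = (1 - p1) * (1 - s) →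
    c2 * (s * Ex p1 (fun ω => ((Wb R D A ω).card : ℝ))) - s * C2 -
      K * (Ex p1 (fun ω => (((Wb R D A ω).filter (fun v => R ≤ nz v + (n + 2))).card : ℝ)) +
        s ^ 2 * (Ex p1 (fun ω => ((Wb R D A ω).card : ℝ)) + (A.card : ℝ) ^ 2)) ≤ H D A := by
  classical
  have hd0 : 0 < d := by have := hp.d11; omega
  have hd2 : 2 ≤ d := by have := hp.d11; omega
  have hC : 0 < C := lt_of_lt_of_le one_pos hp.C1
  obtain ⟨cK, hcK, n0, hM⟩ := lemM hp hd0 L H0 hL hH0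
  obtain ⟨K1, hK1, hlin⟩ := linz hp
  obtain ⟨K2, hK2, hgood⟩ := good_sum hp
  obtain ⟨δ, hδdef⟩ : ∃ δ : ℝ, δ = cK / (8 * L * C) := ⟨_, rfl⟩
  have hδ : 0 < δ := by rw [hδdef]; positivity
  have hδ' : L * (C * δ) ≤ cK / 8 := by
    rw [hδdef]
    apply le_of_eq
    field_simp
  obtain ⟨n, hn0, hn1, hnK⟩ : ∃ n : ℕ, n0 ≤ n ∧ 1 ≤ n ∧ K2 / (δ * (1 + (n : ℝ))) ≤ 1 / 2 := by
    refine ⟨max n0 (max 1 ⌈2 * K2 / δ⌉₊), le_max_left _ _,
      (le_max_left _ _).trans (le_max_right _ _), ?_⟩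
    have h1 : 2 * K2 / δ ≤ ((max n0 (max 1 ⌈2 * K2 / δ⌉₊) : ℕ) : ℝ) :=
      (Nat.le_ceil _).trans (by exact_mod_cast (le_max_right _ _).trans (le_max_right _ _))
    set n : ℕ := max n0 (max 1 ⌈2 * K2 / δ⌉₊)
    rw [div_le_iff₀ hδ] at h1
    have h2 : 0 < δ * (1 + (n : ℝ)) := by positivity
    rw [div_le_iff₀ h2]
    linarith
  obtain ⟨q, hqdef⟩ : ∃ q : ℝ, q = min (pc / 2) (1 - pc) := ⟨_, rfl⟩
  have hq : 0 < q := by
    rw [hqdef]
    exact lt_min (by linarith [hp.p0]) (by linarith [hp.p1])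
  obtain ⟨κ, hκdef⟩ : ∃ κ : ℝ, κ = q ^ (2 * d * (2 * n + 1) ^ d) := ⟨_, rfl⟩
  have hκ : 0 < κ := by rw [hκdef]; exact pow_pos hq _
  refine ⟨cK * κ / 4, 1 + cK / 2 * κ + L * 3 ^ d + L * K1, n, by positivity, ?_, ?_⟩
  · have h1 : 0 ≤ cK / 2 * κ := by positivity
    have h2 : 0 ≤ L * 3 ^ d := by positivity
    have h3 : 0 ≤ L * K1 := mul_nonneg hL.le (by linarith)
    linarith
  intro H hH D A
  obtain ⟨r, hr⟩ : ∃ r : ℕ, L * (C * (D.card : ℝ)) / (1 + (r : ℝ)) ≤ cK / 8 := by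
    refine ⟨⌈8 * (L * (C * (D.card : ℝ))) / cK⌉₊, ?_⟩
    have h1 := Nat.le_ceil (8 * (L * (C * (D.card : ℝ))) / cK)
    set r : ℕ := ⌈8 * (L * (C * (D.card : ℝ))) / cK⌉₊
    rw [div_le_iff₀ hcK] at h1
    have h2 : (0 : ℝ) < 1 + (r : ℝ) := by positivity
    rw [div_le_iff₀ h2]
    linarith
  refine ⟨cK / 2 * κ * (((A ∪ D).card : ℝ) * (2 * ((n : ℝ) + 1 + r) + 1) ^ d +
    K2 / δ * (A.card : ℝ) ^ 2), ?_⟩
  intro R hA hnR p1 s hp1 hp1' hs0 hs1 hps
  have hp0 : 0 < p1 := by linarith [hp.p0]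
  have hp1lt : p1 < 1 := lt_of_le_of_lt hp1' hp.p1
  obtain ⟨S, hSdef⟩ : ∃ S : Finset (Zd d),
      S = (bz (R - n - 2)).filter (fun v => ∀ a ∈ A ∪ D, n + 1 + r < nz (a - v)) := ⟨_, rfl⟩
  have hSm : ∀ v ∈ S, nz v ≤ R - n - 2 ∧ ∀ a ∈ A ∪ D, n + 1 + r < nz (a - v) := by
    intro v hv
    simp only [hSdef, Finset.mem_filter, mem_bz] at hv
    exact hv
  have hSR : S ⊆ bz R := fun v hv => (mem_bz _ _).2 (by have := (hSm v hv).1; omega)
  have hSD : ∀ v ∈ S, v ∉ D := fun v hv hvD => by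
    have h1 := (hSm v hv).2 v (Finset.mem_union_right _ hvD)
    rw [sub_self, nz_zero] at h1
    omega
  have h1 := hlin L H0 H hL.le hH R D A hA p1 s hp0 hp1' hs0 hs1 hps
  have h6 := hgood R D A hA p1 n r δ hp0 hp1' hδ hnR S (by rw [hSdef]; congr)
  have h4 := nice_next hd0 R D A n hn1 δ p1 s hp0.le hp1lt.le hs0 hs1.le S hSR hSD
  -- the shells
  have h2 : Ex p1 (fun ω => Ex s (fun η => ((We R D A ω η).card : ℝ))) ≤
      3 ^ d * Ex p1 (fun ω => (((Wb R D A ω).filter (fun v => R ≤ nz v + (n + 2))).card : ℝ)) := by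
    rw [← Ex_mul_left]
    refine Ex_mono hp0.le hp1lt.le fun ω => ?_
    have h3 : Ex s (fun η => ((We R D A ω η).card : ℝ)) ≤ Ex s (fun _ : Om d R =>
        3 ^ d * (((Wb R D A ω).filter (fun v => R ≤ nz v + (n + 2))).card : ℝ)) := by
      refine Ex_mono hs0 hs1.le fun η => (We_card R D A ω η).trans ?_
      refine mul_le_mul_of_nonneg_left ?_ (by positivity)
      exact_mod_cast Finset.card_le_card (fun v hv => by
        rw [Finset.mem_filter] at hv ⊢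
        exact ⟨hv.1, by omega⟩)
    rw [Ex_const] at h3
    exact h3
  -- nice vertices
  have h3 : cK / 2 * Ex p1 (fun ω => Ex s (fun η => (((Wr R D A ω η).filter
        (fun v => v ∈ S ∧ Nice hd0 v n δ (Wb R D A ω))).card : ℝ))) ≤
      Ex p1 (fun ω => Ex s (fun η => ∑ v ∈ Wr R D A ω η, H (D ∪ Wb R D A ω) {v})) := by
    rw [← Ex_mul_left]
    refine Ex_mono hp0.le hp1lt.le fun ω => ?_
    rw [← Ex_mul_left]
    refine Ex_mono hs0 hs1.le fun η => ?_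
    have h5 : ((Wr R D A ω η).filter (fun v => v ∈ S ∧ Nice hd0 v n δ (Wb R D A ω))).card • (cK / 2) ≤
        ∑ v ∈ (Wr R D A ω η).filter (fun v => v ∈ S ∧ Nice hd0 v n δ (Wb R D A ω)),
          H (D ∪ Wb R D A ω) {v} := by
      refine Finset.card_nsmul_le_sum _ _ _ fun v hv => ?_
      obtain ⟨-, hvS, hvN⟩ := Finset.mem_filter.1 hv
      refine U8_low hp hL hd0 n r hH D v _ (fun γ hγ => hM H hH v n hn0 γ hγ) hr (fun a ha => ?_)
        hδ' hcK hvN
      have := (hSm v hvS).2 a (Finset.mem_union_right _ ha)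
      omega
    rw [nsmul_eq_mul] at h5
    have h7 : ∑ v ∈ (Wr R D A ω η).filter (fun v => v ∈ S ∧ Nice hd0 v n δ (Wb R D A ω)),
          H (D ∪ Wb R D A ω) {v} ≤ ∑ v ∈ Wr R D A ω η, H (D ∪ Wb R D A ω) {v} :=
      Finset.sum_le_sum_of_subset_of_nonneg (Finset.filter_subset _ _) fun i _ _ => hH.nn _ _
    linarith
  have h5 : κ * ∑ v ∈ S, Ex p1 (fun ω => if v ∈ Wb R D A ω ∧
        ∑ s ∈ (Wb R D A ω).filter (fun s => n < nz (s - v)), fz (d - 2) (v - s) ≤ δ then (1 : ℝ) else 0) ≤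
      ∑ v ∈ S, Ex p1 (fun ω => if Nice hd0 v n δ (Wb R D A ω) then (1 : ℝ) else 0) := by
    rw [Finset.mul_sum]
    refine Finset.sum_le_sum fun v hv => ?_
    have h7 := nice_prob hd2 R D A v n hn1 (by have := (hSm v hv).1; omega) δ
      (fun a ha => by
        rw [mem_bv]
        have := (hSm v hv).2 a (Finset.mem_union_left _ ha)
        omega)
      (fun a ha => by
        rw [mem_bv]
        have := (hSm v hv).2 a (Finset.mem_union_right _ ha)
        omega) p1 hp0 hp1lt hd0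
    refine le_trans (mul_le_mul_of_nonneg_right ?_ (Ex_nonneg hp0.le hp1lt.le fun ω => ?_)) h7
    · rw [hκdef]
      refine pow_le_pow_left₀ hq.le (le_min ?_ ?_) _
      · rw [hqdef]
        exact (min_le_left _ _).trans hp1
      · rw [hqdef]
        exact (min_le_right _ _).trans (by linarith)
    · split_ifs <;> norm_num
  have hX : 0 ≤ Ex p1 (fun ω => ((Wb R D A ω).card : ℝ)) :=
    Ex_nonneg hp0.le hp1lt.le fun ω => Nat.cast_nonneg _
  have hsh : 0 ≤ Ex p1 (fun ω => (((Wb R D A ω).filter (fun v => R ≤ nz v + (n + 2))).card : ℝ)) :=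
    Ex_nonneg hp0.le hp1lt.le fun ω => Nat.cast_nonneg _
  generalize Ex p1 (fun ω => ((Wb R D A ω).card : ℝ)) = X at *
  generalize Ex p1 (fun ω => (((Wb R D A ω).filter (fun v => R ≤ nz v + (n + 2))).card : ℝ)) = sh at *
  generalize Ex p1 (fun ω => Ex s (fun η => ((We R D A ω η).card : ℝ))) = We' at *
  generalize Ex p1 (fun ω => Ex s (fun η => ∑ v ∈ Wr R D A ω η, H (D ∪ Wb R D A ω) {v})) = W at *
  generalize Ex p1 (fun ω => Ex s (fun η => (((Wr R D A ω η).filter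
        (fun v => v ∈ S ∧ Nice hd0 v n δ (Wb R D A ω))).card : ℝ))) = CC at *
  generalize ∑ v ∈ S, Ex p1 (fun ω => if Nice hd0 v n δ (Wb R D A ω) then (1 : ℝ) else 0) = Q at *
  generalize ∑ v ∈ S, Ex p1 (fun ω => if v ∈ Wb R D A ω ∧
        ∑ s ∈ (Wb R D A ω).filter (fun s => n < nz (s - v)), fz (d - 2) (v - s) ≤ δ then (1 : ℝ) else 0)
        = P at *
  generalize ((A ∪ D).card : ℝ) * (2 * ((n : ℝ) + 1 + r) + 1) ^ d = a1 at *
  generalize hZ : X + (A.card : ℝ) ^ 2 = Z at *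
  have hZ0 : 0 ≤ Z := by rw [← hZ]; positivity
  generalize K2 / δ * (A.card : ℝ) ^ 2 = a2 at *
  have i1 := (abs_le.1 h1).1
  have i2 : X / 2 - a1 - sh - a2 ≤ P := by
    have : X * (K2 / (δ * (1 + (n : ℝ)))) ≤ X * (1 / 2) := mul_le_mul_of_nonneg_left hnK hX
    linarith
  have i3 : κ * (X / 2 - a1 - sh - a2) ≤ Q := (mul_le_mul_of_nonneg_left i2 hκ.le).trans h5
  have i4 : s * (κ * (X / 2 - a1 - sh - a2)) ≤ CC := (mul_le_mul_of_nonneg_left i3 hs0).trans h4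
  have i5 : cK / 2 * (s * (κ * (X / 2 - a1 - sh - a2))) ≤ W :=
    (mul_le_mul_of_nonneg_left i4 (by positivity)).trans h3
  have i6 : L * We' ≤ L * (3 ^ d * sh) := mul_le_mul_of_nonneg_left h2 hL.le
  have i7 : cK / 2 * κ * (s * sh) ≤ cK / 2 * κ * (1 * sh) :=
    mul_le_mul_of_nonneg_left (mul_le_mul_of_nonneg_right hs1.le hsh) (by positivity)
  have j1 : 0 ≤ s ^ 2 * Z := by positivity
  have j2 : 0 ≤ (1 + cK / 2 * κ + L * 3 ^ d) * (s ^ 2 * Z) := by positivity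
  have j3 : 0 ≤ (1 + L * K1) * sh := mul_nonneg (by nlinarith) hsh
  have e1 : L * (We' + K1 * s ^ 2 * Z) = L * We' + L * K1 * (s ^ 2 * Z) := by ring
  have e2 : cK / 2 * (s * (κ * (X / 2 - a1 - sh - a2))) =
      cK * κ / 4 * (s * X) - s * (cK / 2 * κ * (a1 + a2)) - cK / 2 * κ * (s * sh) := by ring
  have e3 : (1 + cK / 2 * κ + L * 3 ^ d + L * K1) * (sh + s ^ 2 * Z) =
      (1 + L * K1) * sh + cK / 2 * κ * (1 * sh) + L * (3 ^ d * sh) +
        ((1 + cK / 2 * κ + L * 3 ^ d) * (s ^ 2 * Z) + L * K1 * (s ^ 2 * Z)) := by ring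
  rw [e3]
  rw [e1] at i1
  rw [e2] at i5
  linarith

private lemma U9a_nn {E : Type*} [Fintype E] [DecidableEq E] {p : ℝ} (h0 : 0 ≤ p) (h1 : p ≤ 1)
    {f : (E → Bool) → ℝ} (hf : ∀ ω, 0 ≤ f ω) : 0 ≤ Ex p f := by
  have h := Ex_mono (f := fun _ => (0 : ℝ)) h0 h1 hf
  rwa [Ex_const] at h

/-- The exits. -/
private lemma U9a_We (R : ℕ) (D A : Finset (Zd d)) (n : ℕ) (p1 s : ℝ) (hp0 : 0 ≤ p1) (hp1 : p1 ≤ 1)
    (h0 : 0 ≤ s) (h1 : s ≤ 1) :
    Ex p1 (fun ω => Ex s (fun η => ((We R D A ω η).card : ℝ))) ≤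
      3 ^ d * Ex p1 (fun ω => (((Wb R D A ω).filter (fun v => R ≤ nz v + (n + 2))).card : ℝ)) := by
  rw [← Ex_mul_left]
  refine Ex_mono hp0 hp1 fun ω => ?_
  have h2 : Ex (E := (boxG d (2 * R + 3)).edgeSet) s (fun _ =>
      (3 : ℝ) ^ d * (((Wb R D A ω).filter (fun v => R ≤ nz v + (n + 2))).card : ℝ)) =
      (3 : ℝ) ^ d * (((Wb R D A ω).filter (fun v => R ≤ nz v + (n + 2))).card : ℝ) := Ex_const _ _
  rw [← h2]
  refine Ex_mono h0 h1 fun η => ?_
  refine (We_card R D A ω η).trans ?_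
  refine mul_le_mul_of_nonneg_left ?_ (by positivity)
  have h3 : (Wb R D A ω).filter (fun v => R ≤ nz v) ⊆
      (Wb R D A ω).filter (fun v => R ≤ nz v + (n + 2)) := by
    intro v hv
    obtain ⟨h4, h5⟩ := Finset.mem_filter.1 hv
    exact Finset.mem_filter.2 ⟨h4, by omega⟩
  exact_mod_cast Finset.card_le_card h3

/-- The upper bound for a member of the first class. -/
private lemma U9a_Wr {C L pc : ℝ} {ψ : Finset (Zd d) → Finset (Zd d) → ℝ} (hψ : SL d C L pc ψ)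
    (R : ℕ) (D A : Finset (Zd d)) (p1 s : ℝ) (hp0 : 0 ≤ p1) (hp1 : p1 ≤ 1)
    (h0 : 0 ≤ s) (h1 : s ≤ 1) :
    Ex p1 (fun ω => Ex s (fun η => ∑ v ∈ Wr R D A ω η, ψ (D ∪ Wb R D A ω) {v})) ≤
      3 ^ d * (s * Ex p1 (fun ω => ((Wb R D A ω).card : ℝ))) := by
  refine le_trans ?_ (en0 R D A p1 s hp0 hp1 h0 h1)
  refine Ex_mono hp0 hp1 fun ω => Ex_mono h0 h1 fun η => ?_
  have h2 : ∀ v ∈ Wr R D A ω η, ψ (D ∪ Wb R D A ω) {v} ≤ 1 := by
    intro v _
    have h3 := hψ.lo0 ∅ (D ∪ Wb R D A ω) {v}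
    rw [hψ.on v, Finset.empty_union] at h3
    exact h3
  have h4 := Finset.sum_le_card_nsmul (Wr R D A ω η) _ 1 h2
  rw [nsmul_eq_mul, mul_one] at h4
  exact h4

/-- Row U9. Comparison: for a member `H` of the second class and a member `ψ` of the first class there is `c > 0` (depending on `L`, `H0`, the constants) with `c ψ ≤ H`. `lemE` for `H`; `linz` for `ψ` (`SL_HL`) and `ψ(D ∪ B, v) ≤ 1` give
`ψ D A ≤ 3^d s X + L(E E|We| + K s^2 (X + |A|^2))` (`en0`). For `p1 = pc - κ`, `s = κ/(1-p1)`, `κ → 0`, and `R` from `shell_small` with `δ = κ^2` (`We_card`): `s X ≤ |A| C/(1-pc)` (`Wb_card`), so all error terms tend to `0` with `κ`: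
`c2 limsup s X ≤ H D A`, `ψ D A ≤ 3^d limsup s X`. So `c = c2/3^d` (or half of it). -/
lemma compar {C pc : ℝ} (hp : HP d C pc) (L H0 : ℝ) (hL : 1 ≤ L) (hH0 : 0 < H0) : ∃ c : ℝ, 0 < c ∧ ∀ H ψ : Finset (Zd d) → Finset (Zd d) → ℝ,
    HL d C L H0 pc H → SL d C L pc ψ → ∀ D A, c * ψ D A ≤ H D A := by
  obtain ⟨c2, K1, n, hc2, hK1, hE⟩ := lemE hp L H0 (by linarith) hH0
  obtain ⟨K2, hK2, hlin⟩ := linz hp
  refine ⟨c2 / 3 ^ d, by positivity, fun H ψ hH hψ D A => ?_⟩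
  obtain ⟨C2, hC2⟩ := hE H hH D A
  have hψ' := SL_HL hp.C1 hL hψ
  have hC1 := hp.C1
  have hp0 := hp.p0
  have hp1 := hp.p1
  set b : ℝ := 1 / (1 - pc) with hb
  have hb0 : 0 < b := by
    rw [hb]
    exact one_div_pos.2 (by linarith)
  set a : ℝ := (A.card : ℝ) with ha
  have ha0 : 0 ≤ a := Nat.cast_nonneg _
  set Q : ℝ := b ^ 2 * (a * C + a ^ 2) with hQ
  have hQ0 : 0 ≤ Q := by positivity
  set Err : ℝ := b * |C2| + K1 * (1 + Q) + c2 / 3 ^ d * (L * (3 ^ d + K2 * Q)) with hErr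
  have hErr0 : 0 ≤ Err := by positivity
  have hkey : ∀ κ : ℝ, 0 < κ → κ ≤ pc / 2 → κ ≤ 1 →
      c2 / 3 ^ d * ψ D A ≤ H D A + κ * Err := by
    intro κ hκ0 hκp hκ1
    set p1 : ℝ := pc - κ with hp1d
    have q0 : 0 < p1 := by linarith
    have q1 : p1 < pc := by linarith
    have q2 : 0 < 1 - p1 := by linarith
    have q3 : p1 ≤ 1 := by linarith
    set s : ℝ := κ / (1 - p1) with hs
    have s0 : 0 ≤ s := by positivity
    have s1 : s < 1 := by
      rw [hs, div_lt_one q2]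
      linarith
    have s2 : 1 - pc = (1 - p1) * (1 - s) := by
      rw [hs, mul_sub, mul_one, mul_div_cancel₀ _ q2.ne']
      linarith
    have s3 : s ≤ κ * b := by
      rw [hs, hb, mul_one_div]
      exact div_le_div_of_nonneg_left hκ0.le (by linarith) (by linarith)
    obtain ⟨R, hR, hSh⟩ := shell_small hp D A p1 q0 q1 (n + 2) (max (A.sup nz) (n + 2)) κ hκ0
    have hAR : A ⊆ bz R := by
      intro x hx
      rw [mem_bz]
      exact (Finset.le_sup (f := nz) hx).trans ((le_max_left _ _).trans hR)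
    have hnR : n + 2 ≤ R := (le_max_right _ _).trans hR
    set X : ℝ := Ex p1 (fun ω => ((Wb R D A ω).card : ℝ)) with hX
    set Sh : ℝ := Ex p1 (fun ω =>
      (((Wb R D A ω).filter (fun v => R ≤ nz v + (n + 2))).card : ℝ)) with hShd
    have hX0 : 0 ≤ X := U9a_nn q0.le q3 fun ω => Nat.cast_nonneg _
    have hXκ : κ * X ≤ a * C := by
      have h1 := Wb_card hp R D A p1 q0 q1
      have h2 : pc - p1 = κ := by rw [hp1d]; ring
      rw [h2] at h1
      have h3 := mul_le_mul_of_nonneg_left h1 hκ0.le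
      have h4 : κ * ((A.card : ℝ) * (C / κ)) = a * C := by
        rw [ha]
        field_simp
      rw [h4] at h3
      exact h3
    have hsQ : s ^ 2 * (X + a ^ 2) ≤ κ * Q := by
      have h1 : s ^ 2 ≤ (κ * b) ^ 2 := pow_le_pow_left₀ s0 s3 2
      have h2 : s ^ 2 * (X + a ^ 2) ≤ (κ * b) ^ 2 * (X + a ^ 2) :=
        mul_le_mul_of_nonneg_right h1 (by positivity)
      have h3 : (κ * b) ^ 2 * (X + a ^ 2) = κ * (b ^ 2 * (κ * X + κ * a ^ 2)) := by ring
      have h4 : κ * X + κ * a ^ 2 ≤ a * C + a ^ 2 := by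
        have : κ * a ^ 2 ≤ 1 * a ^ 2 := mul_le_mul_of_nonneg_right hκ1 (by positivity)
        linarith
      rw [h3] at h2
      refine h2.trans ?_
      rw [hQ]
      exact mul_le_mul_of_nonneg_left (mul_le_mul_of_nonneg_left h4 (by positivity)) hκ0.le
    have hEE := hC2 R hAR hnR p1 s (by linarith) q1.le s0 s1 s2
    have hLL := hlin L 1 ψ (by linarith) hψ' R D A hAR p1 s q0 q1.le s0 s1 s2
    have hWe := U9a_We R D A n p1 s q0.le q3 s0 s1.le
    have hWr := U9a_Wr hψ R D A p1 s q0.le q3 s0 s1.le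
    have hup : ψ D A ≤ 3 ^ d * (s * X) + L * (3 ^ d * κ + K2 * (κ * Q)) := by
      have h1 := (abs_le.1 hLL).2
      have h2 : L * (Ex p1 (fun ω => Ex s (fun η => ((We R D A ω η).card : ℝ))) +
          K2 * s ^ 2 * (X + a ^ 2)) ≤ L * (3 ^ d * κ + K2 * (κ * Q)) := by
        refine mul_le_mul_of_nonneg_left ?_ (by linarith)
        have h3 : (3 : ℝ) ^ d * Sh ≤ 3 ^ d * κ := mul_le_mul_of_nonneg_left hSh (by positivity)
        have h4 : K2 * s ^ 2 * (X + a ^ 2) ≤ K2 * (κ * Q) := by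
          rw [mul_assoc]
          exact mul_le_mul_of_nonneg_left hsQ (by linarith)
        linarith
      linarith
    have h5 := mul_le_mul_of_nonneg_left hup (show (0 : ℝ) ≤ c2 / 3 ^ d by positivity)
    have h6 : c2 / 3 ^ d * (3 ^ d * (s * X) + L * (3 ^ d * κ + K2 * (κ * Q))) =
        c2 * (s * X) + κ * (c2 / 3 ^ d * (L * (3 ^ d + K2 * Q))) := by
      field_simp
    have h7 : s * C2 ≤ κ * (b * |C2|) := by
      calc s * C2 ≤ s * |C2| := mul_le_mul_of_nonneg_left (le_abs_self _) s0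
        _ ≤ κ * b * |C2| := mul_le_mul_of_nonneg_right s3 (abs_nonneg _)
        _ = κ * (b * |C2|) := by ring
    have h8 : K1 * (Sh + s ^ 2 * (X + a ^ 2)) ≤ κ * (K1 * (1 + Q)) := by
      have : Sh + s ^ 2 * (X + a ^ 2) ≤ κ * (1 + Q) := by linarith
      calc K1 * (Sh + s ^ 2 * (X + a ^ 2)) ≤ K1 * (κ * (1 + Q)) :=
            mul_le_mul_of_nonneg_left this (by linarith)
        _ = κ * (K1 * (1 + Q)) := by ring
    have h9 : κ * Err = κ * (b * |C2|) + κ * (K1 * (1 + Q)) +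
        κ * (c2 / 3 ^ d * (L * (3 ^ d + K2 * Q))) := by
      rw [hErr]
      ring
    rw [h6] at h5
    rw [h9]
    linarith
  refine le_of_forall_pos_le_add fun ε hε => ?_
  set κ : ℝ := min (min (pc / 2) 1) (ε / (Err + 1)) with hκ
  have hκ0 : 0 < κ := by
    rw [hκ]
    exact lt_min (lt_min (by linarith) one_pos) (by positivity)
  have h1 := hkey κ hκ0 ((min_le_left _ _).trans (min_le_left _ _))
    ((min_le_left _ _).trans (min_le_right _ _))
  have h2 : κ * Err ≤ ε := by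
    have h3 : κ ≤ ε / (Err + 1) := min_le_right _ _
    calc κ * Err ≤ ε / (Err + 1) * Err := mul_le_mul_of_nonneg_right h3 hErr0
      _ ≤ ε / (Err + 1) * (Err + 1) :=
        mul_le_mul_of_nonneg_left (by linarith) (by positivity)
      _ = ε := by field_simp
  linarith

private lemma U9b_le {C pc L : ℝ} (hp : HP d C pc) (hL : 1 ≤ L) {φ ψ : Finset (Zd d) → Finset (Zd d) → ℝ} (hφ : SL d C L pc φ) (hψ : SL d C L pc ψ) :
    ∀ D A, φ D A ≤ ψ D A := by
  have hC := hp.C1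
  set S : Set ℝ := {k : ℝ | 0 ≤ k ∧ ∀ D A, φ D A ≤ k * ψ D A} with hS
  have hbdd : BddBelow S := ⟨0, fun k hk => hk.1⟩
  have hne : S.Nonempty := by
    obtain ⟨c, hc, h⟩ := compar hp L 1 hL one_pos
    have h1 := h ψ φ (SL_HL hC hL hψ) hφ
    refine ⟨c⁻¹, (inv_pos.2 hc).le, fun D A => ?_⟩
    have h2 := mul_le_mul_of_nonneg_left (h1 D A) (inv_pos.2 hc).le
    rwa [← mul_assoc, inv_mul_cancel₀ hc.ne', one_mul] at h2
  set K : ℝ := sInf S with hK
  have hK0 : 0 ≤ K := le_csInf hne (fun k hk => hk.1)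
  have hle : ∀ D A, φ D A ≤ K * ψ D A := by
    intro D A
    rcases (hψ.nn D A).eq_or_lt with h0 | h0
    · obtain ⟨k, hk⟩ := hne
      have h1 := hk.2 D A
      rw [← h0, mul_zero] at h1 ⊢
      exact h1
    · have h1 : φ D A / ψ D A ≤ K := le_csInf hne (fun k hk => (div_le_iff₀ h0).2 (hk.2 D A))
      exact (div_le_iff₀ h0).1 h1
  have hK1 : K ≤ 1 := by
    by_contra hcon
    have hK2 : 1 < K := not_le.1 hcon
    have hL2 : 1 ≤ (K + 1) * L := by nlinarith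
    have hLL : L ≤ (K + 1) * L := by nlinarith
    have hH := SL_comb hC hL hK0 hφ hψ hle
    obtain ⟨c, hc, h⟩ := compar hp ((K + 1) * L) (K - 1) hL2 (by linarith)
    have h1 := h _ ψ hH (SL_mono (by linarith) hLL hψ)
    have h2 : K - min c K ∈ S := by
      refine ⟨by linarith [min_le_right c K], fun D A => ?_⟩
      have h3 : c * ψ D A ≤ K * ψ D A - φ D A := h1 D A
      have h4 : min c K * ψ D A ≤ c * ψ D A := mul_le_mul_of_nonneg_right (min_le_left c K) (hψ.nn D A)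
      linarith
    have h5 : K ≤ K - min c K := csInf_le hbdd h2
    have h6 : 0 < min c K := lt_min hc (by linarith)
    linarith
  intro D A
  calc φ D A ≤ K * ψ D A := hle D A
    _ ≤ 1 * ψ D A := mul_le_mul_of_nonneg_right hK1 (hψ.nn D A)
    _ = ψ D A := one_mul _

/-- Row U9. (2.5) The uniqueness theorem. By `compar` (`SL_HL`) `φ ≤ c^(-1) ψ`; let `K` be the infimum of the numbers `k ≥ 0` with `φ ≤ k ψ`; then `φ ≤ K ψ`, and `K ≥ 1` (state `(∅,{v})`). If `K > 1`: `H = K ψ - φ` is in the second class (`SL_comb`) with `H0 = K - 1`,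
`compar` gives `c > 0` with `c ψ ≤ K ψ - φ`, so `φ ≤ (K - c) ψ` (one may take `c ≤ K`), contradiction. So `φ ≤ ψ`; by symmetry equality. -/
theorem uniq {C pc L : ℝ} (hp : HP d C pc) (hL : 1 ≤ L) {φ ψ : Finset (Zd d) → Finset (Zd d) → ℝ} (hφ : SL d C L pc φ) (hψ : SL d C L pc ψ) :
    φ = ψ := by
  funext D A
  exact le_antisymm (U9b_le hp hL hφ hψ D A) (U9b_le hp hL hψ hφ D A)

end Pool.Agent.PERC29.DZ
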