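import Pool.Agent.Lib.MP_29e17e_pr.Z.Fq

set_option autoImplicit false
set_option linter.unusedSectionVars false

/-! Assembly for the whole range `ε V^(1/3) → ∞`. -/

open Finset Filter Topology

namespace Pool.Agent.PERC29.DZ

open Pool.Agent.PERC29 Pool.Agent.PERC29.AE

/-- The two conclusions on the torus. -/
def GEv (d n : ℕ) [NeZero n] [Fintype (torG d n).edgeSet] (pc q η ε : ℝ) : Prop :=
  Ex (pc + ε) (fun ω => open scoped Classical in
      if η * ε * (n : ℝ) ^ d < |mxc (gends (torG d n)) ω - q * ε * (n : ℝ) ^ d|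
      then (1 : ℝ) else 0) ≤ η ∧
    Ex (pc + ε) (fun ω => open scoped Classical in
      if ∃ x x', η * ε * (n : ℝ) ^ d ≤ cz (gends (torG d n)) ω x ∧
      η * ε * (n : ℝ) ^ d ≤ cz (gends (torG d n)) ω x' ∧ x' ∉ cu (gends (torG d n)) ω x
      then (1 : ℝ) else 0) ≤ η

/-- Range `ε n² ≤ A`. -/
def GMid (d : ℕ) (pc q : ℝ) : Prop :=
  ∀ η A1 : ℝ, 0 < η → 0 < A1 → ∃ A ε0 : ℝ, 0 < A ∧ 0 < ε0 ∧
    ∀ (n : ℕ) [NeZero n] [Fintype (torG d n).edgeSet] (ε : ℝ),
    0 < ε → ε ≤ ε0 → ε * (n : ℝ) ^ 2 ≤ A1 → A ≤ ε ^ 3 * (n : ℝ) ^ d → GEv d n pc q η ε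

/-- The whole range. -/
def GLimV (d : ℕ) (pc q : ℝ) : Prop :=
  ∀ η : ℝ, 0 < η → ∃ A ε0 : ℝ, 0 < A ∧ 0 < ε0 ∧
    ∀ (n : ℕ) [NeZero n] [Fintype (torG d n).edgeSet] (ε : ℝ),
    0 < ε → ε ≤ ε0 → A ≤ ε ^ 3 * (n : ℝ) ^ d → GEv d n pc q η ε

theorem GLimV_of {d : ℕ} {pc q : ℝ} (h1 : GLim d pc q) (h2 : GMid d pc q) : GLimV d pc q := by
  intro η hη
  obtain ⟨A1, e1, hA1, he1, g1⟩ := h1 η hη
  obtain ⟨A2, e2, hA2, he2, g2⟩ := h2 η A1 hη hA1
  refine ⟨A2, min e1 e2, hA2, lt_min he1 he2, ?_⟩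
  intro n hn0 hft ε hε hεle hA
  by_cases hc : A1 ≤ ε * (n : ℝ) ^ 2
  · exact g1 n ε hε (hεle.trans (min_le_left _ _)) hc
  · push Not at hc
    exact g2 n ε hε (hεle.trans (min_le_right _ _)) hc.le hA

lemma cube_eq {N : ℝ} (hN : 0 < N) (d : ℕ) : ((N ^ d) ^ ((1 : ℝ) / 3)) ^ 3 = N ^ d := by
  rw [← Real.rpow_natCast, ← Real.rpow_mul (by positivity)]
  norm_num

/-- The critical value of the torus is within `K V^(-1/3)` of `p_c`. -/
theorem pT_nearV (d : ℕ) (hd : 11 ≤ d) (C pc q : ℝ) (h0 : 0 < pc) (h1 : pc < 1) (hq : 0 < q)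
    (hX : ∀ (n : ℕ) [NeZero n] (p : ℝ), 0 < p → p < pc → chi (torG d n) p 0 ≤ C / (pc - p))
    (hG : GLimV d pc q) (lam : ℝ) (hlam : 0 < lam) :
    ∃ (K : ℝ) (N0 : ℕ), 0 < K ∧ ∀ n : ℕ, N0 ≤ n → ∀ pT : ℝ, 0 ≤ pT → pT ≤ 1 →
      chi (torG d (n + 3)) pT 0 = lam * (((n : ℝ) + 3) ^ d) ^ ((1 : ℝ) / 3) →
      |pT - pc| ≤ K / (((n : ℝ) + 3) ^ d) ^ ((1 : ℝ) / 3) := by
  classical
  obtain ⟨η, hη⟩ : ∃ η, η = min (1 / 4) (q / 2) := ⟨_, rfl⟩
  have hη0 : 0 < η := by rw [hη]; exact lt_min (by norm_num) (by positivity)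
  have hη4 : η ≤ 1 / 4 := by rw [hη]; exact min_le_left _ _
  have hηq : η ≤ q / 2 := by rw [hη]; exact min_le_right _ _
  obtain ⟨A0, ε0, hA0, hε0, hg⟩ := hG η hη0
  obtain ⟨A, hAdef⟩ : ∃ A, A = max (max A0 1) (2 * lam / (3 / 4 * (q / 2) ^ 2)) := ⟨_, rfl⟩
  have hAA0 : A0 ≤ A := by rw [hAdef]; exact (le_max_left _ _).trans (le_max_left _ _)
  have hA1 : 1 ≤ A := by rw [hAdef]; exact (le_max_right _ _).trans (le_max_left _ _)
  have hAlam : 2 * lam / (3 / 4 * (q / 2) ^ 2) ≤ A := by rw [hAdef]; exact le_max_right _ _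
  have hA : 0 < A := by linarith
  rw [div_le_iff₀ (by positivity)] at hAlam
  obtain ⟨C', hC'⟩ : ∃ C', C' = max C 1 := ⟨_, rfl⟩
  have hC'1 : 1 ≤ C' := by rw [hC']; exact le_max_right _ _
  have hCC : C ≤ C' := by rw [hC']; exact le_max_left _ _
  obtain ⟨N1, hN1⟩ := exists_nat_ge (max (max (A / ε0) (A / (1 - pc))) (3 * C' / (lam * pc)))
  refine ⟨A + C' / lam, N1, by positivity, ?_⟩
  intro n hn pT hpT0 hpT1 hchi
  obtain ⟨N, hN⟩ : ∃ N : ℝ, N = (n : ℝ) + 3 := ⟨_, rfl⟩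
  rw [← hN] at hchi ⊢
  have hNn : (N1 : ℝ) ≤ N := by
    have : (N1 : ℝ) ≤ n := by exact_mod_cast hn
    rw [hN]; linarith
  have hN1' : 1 ≤ N := by
    rw [hN]
    have : (0 : ℝ) ≤ n := Nat.cast_nonneg _
    linarith
  have hN0 : 0 < N := by linarith
  have b1 : A / ε0 ≤ N := ((le_max_left _ _).trans (le_max_left _ _)).trans (hN1.trans hNn)
  have b2 : A / (1 - pc) ≤ N := ((le_max_right _ _).trans (le_max_left _ _)).trans (hN1.trans hNn)
  have b4 : 3 * C' / (lam * pc) ≤ N := (le_max_right _ _).trans (hN1.trans hNn)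
  have h1p : 0 < 1 - pc := by linarith
  rw [div_le_iff₀ hε0] at b1
  rw [div_le_iff₀ h1p] at b2
  rw [div_le_iff₀ (by positivity)] at b4
  have hN3 : N ≤ N ^ 3 := le_self_pow₀ hN1' (by norm_num)
  obtain ⟨W, hW⟩ : ∃ W, W = (N ^ d) ^ ((1 : ℝ) / 3) := ⟨_, rfl⟩
  obtain ⟨w1, -⟩ := cube_root hN1' d hd
  have w3 := cube_eq hN0 d
  rw [← hW] at hchi w1 w3 ⊢
  have hW0 : 0 < W := lt_of_lt_of_le (by positivity) w1
  have hNW : N ≤ W := hN3.trans w1
  rw [abs_le]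
  have h3 : (A + C' / lam) / W = A / W + C' / (lam * W) := by
    rw [add_div, div_div]
  constructor
  · -- lower bound
    have hlow : pc - pT ≤ C' / (lam * W) := by
      by_cases hlt : pT < pc
      · obtain ⟨p', hp'⟩ : ∃ p', p' = max pT (pc / 2) := ⟨_, rfl⟩
        have k1 : pT ≤ p' := by rw [hp']; exact le_max_left _ _
        have k2 : pc / 2 ≤ p' := by rw [hp']; exact le_max_right _ _
        have k3 : p' < pc := by rw [hp']; exact max_lt hlt (by linarith)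
        have k4 : lam * W ≤ C' / (pc - p') := by
          rw [← hchi]
          refine (chi_mono hpT0 k1 (by linarith)).trans ((hX (n + 3) p' (by linarith) k3).trans ?_)
          exact div_le_div_of_nonneg_right hCC (by linarith)
        have k5 : pc - p' ≤ C' / (lam * W) := by
          rw [le_div_iff₀ (by linarith : (0:ℝ) < pc - p')] at k4
          rw [le_div_iff₀ (by positivity)]
          linarith
        have k6 : C' / (lam * W) < pc / 2 := by
          rw [div_lt_iff₀ (by positivity)]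
          have : lam * N ≤ lam * W := mul_le_mul_of_nonneg_left hNW hlam.le
          have h8 := mul_le_mul_of_nonneg_left this h0.le
          linarith
        have k7 : p' = pT := by
          rw [hp']
          apply max_eq_left
          by_contra hcon
          push Not at hcon
          rw [max_eq_right hcon.le] at hp'
          linarith
        rw [k7] at k5
        exact k5
      · have : 0 ≤ C' / (lam * W) := by positivity
        linarith
    have h4 : 0 ≤ A / W := by positivity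
    rw [h3]
    linarith
  · -- upper bound
    obtain ⟨ε, hε⟩ : ∃ ε, ε = A / W := ⟨_, rfl⟩
    have hε' : 0 < ε := by rw [hε]; positivity
    have c1 : ε ≤ ε0 := by
      rw [hε, div_le_iff₀ (by positivity)]
      have : N * ε0 ≤ W * ε0 := mul_le_mul_of_nonneg_right hNW hε0.le
      linarith
    have c2 : pc + ε ≤ 1 := by
      have : ε ≤ 1 - pc := by
        rw [hε, div_le_iff₀ (by positivity)]
        have : N * (1 - pc) ≤ W * (1 - pc) := mul_le_mul_of_nonneg_right hNW h1p.le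
        linarith
      linarith
    have hNcast : (((n + 3 : ℕ) : ℝ)) = N := by rw [hN]; push_cast; ring
    have hεV : ε ^ 3 * N ^ d = A ^ 3 := by
      rw [← w3, hε, div_pow]
      field_simp
    have hAA : A0 ≤ A ^ 3 := by
      have : A ≤ A ^ 3 := le_self_pow₀ hA1 (by norm_num)
      linarith
    have c3 := (hg (n + 3) ε hε' c1 (by rw [hNcast, hεV]; exact hAA)).1
    rw [hNcast] at c3
    have hq0 : 0 ≤ pc + ε := by linarith
    have c4 : (3 : ℝ) / 4 ≤ Ex (pc + ε) (fun ω => if q / 2 * ε * N ^ d ≤ mxc (gends (torG d (n + 3))) ω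
        then (1 : ℝ) else 0) := by
      have hall : ∀ ω : (torG d (n + 3)).edgeSet → Bool, (1 : ℝ) ≤
          (if q / 2 * ε * N ^ d ≤ mxc (gends (torG d (n + 3))) ω then (1 : ℝ) else 0) +
          (if η * ε * N ^ d < |mxc (gends (torG d (n + 3))) ω - q * ε * N ^ d| then (1 : ℝ) else 0) := by
        intro ω
        by_cases u1 : q / 2 * ε * N ^ d ≤ mxc (gends (torG d (n + 3))) ω
        · rw [if_pos u1]
          split_ifs <;> norm_num
        · rw [if_neg u1, if_pos]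
          · norm_num
          · push Not at u1
            rw [abs_sub_comm]
            refine lt_of_lt_of_le ?_ (le_abs_self _)
            have u4 : η * ε * N ^ d ≤ q / 2 * ε * N ^ d := by
              have : 0 ≤ ε * N ^ d := by positivity
              calc η * ε * N ^ d = η * (ε * N ^ d) := by ring
                _ ≤ q / 2 * (ε * N ^ d) := mul_le_mul_of_nonneg_right hηq this
                _ = _ := by ring
            have u6 : q * ε * N ^ d = q / 2 * ε * N ^ d + q / 2 * ε * N ^ d := by ring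
            linarith
      have k4 := Ex_mono hq0 c2 hall
      rw [Ex_const, Ex_add] at k4
      linarith
    have c5 := chi_ge (d := d) (n := n + 3) (p := pc + ε) (t := q / 2 * ε * N ^ d) hq0 c2 (by positivity)
    rw [hNcast] at c5
    have c6 : (q / 2 * ε * N ^ d) ^ 2 * (3 / 4) ≤ N ^ d * chi (torG d (n + 3)) (pc + ε) 0 := by
      rw [chi_eq]
      exact (mul_le_mul_of_nonneg_left c4 (by positivity)).trans c5
    have c7 : 3 / 4 * (q / 2) ^ 2 * A ^ 2 * W ≤ chi (torG d (n + 3)) (pc + ε) 0 := by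
      have hNd : 0 < N ^ d := by positivity
      refine le_of_mul_le_mul_left ?_ hNd
      refine le_trans (le_of_eq ?_) c6
      rw [hε, ← w3]
      field_simp
    have c8 : lam * W < chi (torG d (n + 3)) (pc + ε) 0 := by
      refine lt_of_lt_of_le ?_ c7
      have d1 : 2 * lam ≤ 3 / 4 * (q / 2) ^ 2 * A ^ 2 := by
        have : A ≤ A ^ 2 := le_self_pow₀ hA1 (by norm_num)
        have h5 : 0 < 3 / 4 * (q / 2) ^ 2 := by positivity
        have h6 := mul_le_mul_of_nonneg_left this h5.le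
        linarith
      have h7 := mul_le_mul_of_nonneg_right d1 hW0.le
      have h8 := mul_pos hlam hW0
      linarith
    have c9 : pT < pc + ε := by
      by_contra hcon
      push Not at hcon
      have := chi_mono (d := d) (n := n + 3) hq0 hcon hpT1
      rw [hchi] at this
      linarith
    have h4 : 0 ≤ C' / (lam * W) := by positivity
    rw [h3, ← hε]
    linarith

open scoped Classical in
/-- Sequences. -/
theorem seq_limV (d : ℕ) (hd : 11 ≤ d) (C pc q : ℝ) (h0 : 0 < pc) (h1 : pc < 1) (hq : 0 < q)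
    (hX : ∀ (n : ℕ) [NeZero n] (p : ℝ), 0 < p → p < pc → chi (torG d n) p 0 ≤ C / (pc - p))
    (hG : GLimV d pc q) (lam : ℝ) (hlam : 0 < lam) (pT : ℕ → ℝ)
    (hpT : ∀ᶠ n : ℕ in atTop, 0 ≤ pT n ∧ pT n ≤ 1 ∧
      chi (torG d (n + 3)) (pT n) 0 = lam * (((n : ℝ) + 3) ^ d) ^ ((1 : ℝ) / 3))
    (ε : ℕ → ℝ) (hε0 : Tendsto ε atTop (𝓝 0))
    (hεn : Tendsto (fun n : ℕ => ε n * (((n : ℝ) + 3) ^ d) ^ ((1 : ℝ) / 3)) atTop atTop) (δ : ℝ) (hδ : 0 < δ)
    (η : ℝ) (hη : 0 < η) :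
    ∀ᶠ n : ℕ in atTop, (0 ≤ pT n * (1 + ε n) ∧ pT n * (1 + ε n) ≤ 1) ∧
      prob (torG d (n + 3)) (pT n * (1 + ε n)) (fun ω => δ * ε n * ((n : ℝ) + 3) ^ d <
        |(maxCluster (torG d (n + 3)) ω : ℝ) - q * pc * ε n * ((n : ℝ) + 3) ^ d|) ≤ η ∧
      prob (torG d (n + 3)) (pT n * (1 + ε n)) (fun ω => ∃ x y,
        ¬ (openGraph (torG d (n + 3)) ω).Reachable x y ∧
        δ * ε n * ((n : ℝ) + 3) ^ d < (clusterSize (torG d (n + 3)) ω x : ℝ) ∧
        δ * ε n * ((n : ℝ) + 3) ^ d < (clusterSize (torG d (n + 3)) ω y : ℝ)) ≤ η := by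
  obtain ⟨K, N0, hK, hnear⟩ := pT_nearV d hd C pc q h0 h1 hq hX hG lam hlam
  obtain ⟨η', hη'⟩ : ∃ η', η' = min η (δ / 4) := ⟨_, rfl⟩
  have hη'0 : 0 < η' := by rw [hη']; exact lt_min hη (by positivity)
  have hη'1 : η' ≤ η := by rw [hη']; exact min_le_left _ _
  have hη'2 : η' ≤ δ / 4 := by rw [hη']; exact min_le_right _ _
  obtain ⟨τ, hτ⟩ : ∃ τ, τ = min (pc / 2) (δ / (2 * q)) := ⟨_, rfl⟩
  have hτ0 : 0 < τ := by rw [hτ]; exact lt_min (by positivity) (by positivity)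
  have hτ1 : τ ≤ pc / 2 := by rw [hτ]; exact min_le_left _ _
  have hτ2 : q * τ ≤ δ / 2 := by
    have : τ ≤ δ / (2 * q) := by rw [hτ]; exact min_le_right _ _
    rw [le_div_iff₀ (by positivity)] at this
    linarith
  obtain ⟨A0, e0, hA0, he0, hg⟩ := hG η' hη'0
  obtain ⟨A, hAdef⟩ : ∃ A, A = max A0 1 := ⟨_, rfl⟩
  have hAA0 : A0 ≤ A := by rw [hAdef]; exact le_max_left _ _
  have hA1 : 1 ≤ A := by rw [hAdef]; exact le_max_right _ _
  have hA : 0 < A := by linarith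
  have ev1 : ∀ᶠ n : ℕ in atTop, ε n < min (min 1 (e0 / 2)) ((1 - pc) / 2) :=
    hε0.eventually (Iio_mem_nhds (lt_min (lt_min one_pos (by positivity)) (by linarith)))
  have ev2 : ∀ᶠ n : ℕ in atTop, max (2 * K / τ) (2 * A / pc) ≤ ε n * (((n : ℝ) + 3) ^ d) ^ ((1 : ℝ) / 3) :=
    hεn.eventually (eventually_ge_atTop _)
  filter_upwards [ev1, ev2, hpT, eventually_ge_atTop N0] with n b1 b2 b3 b4
  obtain ⟨p0, p1, pchi⟩ := b3
  have hnr := hnear n b4 (pT n) p0 p1 pchi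
  obtain ⟨N, hN⟩ : ∃ N : ℝ, N = (n : ℝ) + 3 := ⟨_, rfl⟩
  have hNcast : (((n + 3 : ℕ) : ℝ)) = N := by rw [hN]; push_cast; ring
  rw [← hN] at b2 hnr ⊢
  have hN0 : 0 < N := by
    rw [hN]
    have : (0 : ℝ) ≤ n := Nat.cast_nonneg _
    linarith
  obtain ⟨W, hW⟩ : ∃ W, W = (N ^ d) ^ ((1 : ℝ) / 3) := ⟨_, rfl⟩
  have w3 := cube_eq hN0 d
  rw [← hW] at b2 hnr w3
  have hW0 : 0 < W := by rw [hW]; positivity
  have c1 : 2 * K / τ ≤ ε n * W := (le_max_left _ _).trans b2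
  have c2 : 2 * A / pc ≤ ε n * W := (le_max_right _ _).trans b2
  have c3 : ε n ≤ 1 := (b1.trans_le ((min_le_left _ _).trans (min_le_left _ _))).le
  have c4 : ε n ≤ e0 / 2 := (b1.trans_le ((min_le_left _ _).trans (min_le_right _ _))).le
  have c5 : ε n ≤ (1 - pc) / 2 := (b1.trans_le (min_le_right _ _)).le
  have hεpos : 0 < ε n := by
    have h2 : 0 < 2 * K / τ := by positivity
    have h3 : 0 < ε n * W := lt_of_lt_of_le h2 c1
    exact pos_of_mul_pos_left h3 (by positivity)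
  rw [div_le_iff₀ hτ0] at c1
  rw [div_le_iff₀ h0] at c2
  obtain ⟨ε', hε'⟩ : ∃ ε', ε' = pT n * (1 + ε n) - pc := ⟨_, rfl⟩
  have hp : pT n * (1 + ε n) = pc + ε' := by rw [hε']; ring
  have d1 : |ε' - pc * ε n| ≤ τ * ε n := by
    have e1 : ε' - pc * ε n = (pT n - pc) * (1 + ε n) := by rw [hε']; ring
    rw [e1, abs_mul, abs_of_pos (by linarith : (0 : ℝ) < 1 + ε n)]
    have e2 : |pT n - pc| * (1 + ε n) ≤ K / W * 2 :=
      mul_le_mul hnr (by linarith) (by linarith) (by positivity)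
    refine e2.trans ?_
    rw [div_mul_eq_mul_div, div_le_iff₀ (by positivity)]
    linarith
  obtain ⟨d2, d3⟩ := abs_le.1 d1
  have f1 : τ * ε n ≤ pc / 2 * ε n := mul_le_mul_of_nonneg_right hτ1 hεpos.le
  have hε'low : pc / 2 * ε n ≤ ε' := by linarith
  have hε'pos : 0 < ε' := lt_of_lt_of_le (by positivity) hε'low
  have hε'up : ε' ≤ 2 * ε n := by
    have : pc * ε n ≤ 1 * ε n := mul_le_mul_of_nonneg_right h1.le hεpos.le
    linarith
  have hε'e0 : ε' ≤ e0 := by linarith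
  have hq1 : pc + ε' ≤ 1 := by linarith
  have hq0 : 0 ≤ pc + ε' := by linarith
  have hAn : A0 ≤ ε' ^ 3 * (((n + 3 : ℕ) : ℝ)) ^ d := by
    rw [hNcast, ← w3, ← mul_pow]
    have h5 : A ≤ ε' * W := by
      have : pc / 2 * ε n * W ≤ ε' * W := mul_le_mul_of_nonneg_right hε'low (by positivity)
      linarith
    have h6 : A ^ 3 ≤ (ε' * W) ^ 3 := pow_le_pow_left₀ hA.le h5 3
    have h7 : A ≤ A ^ 3 := le_self_pow₀ hA1 (by norm_num)
    linarith
  obtain ⟨g1, g2⟩ := hg (n + 3) ε' hε'pos hε'e0 hAn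
  rw [hNcast] at g1 g2
  rw [hp]
  have hNd : 0 < N ^ d := by positivity
  have hη'ε : η' * ε' ≤ δ / 2 * ε n := by
    calc η' * ε' ≤ δ / 4 * (2 * ε n) := mul_le_mul hη'2 hε'up hε'pos.le (by positivity)
      _ = _ := by ring
  refine ⟨⟨hq0, hq1⟩, ?_, ?_⟩
  · unfold prob
    rw [expect_eq]
    refine (Ex_mono hq0 hq1 fun ω => ?_).trans (g1.trans hη'1)
    by_cases hx : δ * ε n * N ^ d < |(maxCluster (torG d (n + 3)) ω : ℝ) - q * pc * ε n * N ^ d|
    · rw [if_pos hx, if_pos]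
      rw [maxCluster_eq] at hx
      have t1 : |mxc (gends (torG d (n + 3))) ω - q * pc * ε n * N ^ d| ≤
          |mxc (gends (torG d (n + 3))) ω - q * ε' * N ^ d| + |q * ε' * N ^ d - q * pc * ε n * N ^ d| :=
        abs_sub_le _ _ _
      have t2 : |q * ε' * N ^ d - q * pc * ε n * N ^ d| ≤ q * τ * ε n * N ^ d := by
        have : q * ε' * N ^ d - q * pc * ε n * N ^ d = (q * N ^ d) * (ε' - pc * ε n) := by ring
        rw [this, abs_mul, abs_of_pos (by positivity : (0 : ℝ) < q * N ^ d)]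
        calc q * N ^ d * |ε' - pc * ε n| ≤ q * N ^ d * (τ * ε n) :=
              mul_le_mul_of_nonneg_left d1 (by positivity)
          _ = _ := by ring
      have t3 : q * τ * ε n * N ^ d ≤ δ / 2 * ε n * N ^ d :=
        mul_le_mul_of_nonneg_right (mul_le_mul_of_nonneg_right hτ2 hεpos.le) hNd.le
      have t4 : η' * ε' * N ^ d ≤ δ / 2 * ε n * N ^ d := mul_le_mul_of_nonneg_right hη'ε hNd.le
      have t5 : δ * ε n * N ^ d = δ / 2 * ε n * N ^ d + δ / 2 * ε n * N ^ d := by ring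
      linarith
    · rw [if_neg hx]
      split_ifs <;> norm_num
  · unfold prob
    rw [expect_eq]
    refine (Ex_mono hq0 hq1 fun ω => ?_).trans (g2.trans hη'1)
    have t4 : η' * ε' * N ^ d ≤ δ * ε n * N ^ d := by
      have : δ / 2 * ε n ≤ δ * ε n := mul_le_mul_of_nonneg_right (by linarith) hεpos.le
      exact mul_le_mul_of_nonneg_right (hη'ε.trans this) hNd.le
    by_cases hx : ∃ x y, ¬ (openGraph (torG d (n + 3)) ω).Reachable x y ∧
        δ * ε n * N ^ d < (clusterSize (torG d (n + 3)) ω x : ℝ) ∧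
        δ * ε n * N ^ d < (clusterSize (torG d (n + 3)) ω y : ℝ)
    · rw [if_pos hx, if_pos]
      obtain ⟨x, y, r1, r2, r3⟩ := hx
      rw [cz_eq] at r2 r3
      refine ⟨x, y, t4.trans r2.le, t4.trans r3.le, fun h => r1 ?_⟩
      rw [mem_cu, rch_iff] at h
      exact h
    · rw [if_neg hx]
      split_ifs <;> norm_num

/-- The conclusion of Q1 for the whole range. -/
theorem final_of (d : ℕ) (hd : 11 ≤ d) (C pc q : ℝ) (h0 : 0 < pc) (h1 : pc < 1) (hq : 0 < q)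
    (hX : ∀ (n : ℕ) [NeZero n] (p : ℝ), 0 < p → p < pc → chi (torG d n) p 0 ≤ C / (pc - p))
    (hB : ∀ N : ℕ, 1 ≤ N → armProb d N pc ≤ C / (N : ℝ) ^ 2)
    (hlim : ∀ η : ℝ, 0 < η → ∃ ε0 : ℝ, 0 < ε0 ∧ ∀ ε : ℝ, 0 < ε → ε ≤ ε0 →
      |th d (pc + ε) - q * ε| ≤ η * ε)
    (hG : GLimV d pc q) :
    ∃ c : ℝ, 0 < c ∧ HasDerivWithinAt (fun e : ℝ => theta d (pc * (1 + e))) c (Set.Ici 0) 0 ∧
      ∀ lam : ℝ, 0 < lam → ∀ pT : ℕ → ℝ,
        (∀ᶠ n : ℕ in atTop, 0 ≤ pT n ∧ pT n ≤ 1 ∧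
          chi (torG d (n + 3)) (pT n) 0 = lam * (((n : ℝ) + 3) ^ d) ^ ((1 : ℝ) / 3)) →
        ∀ ε : ℕ → ℝ, Tendsto ε atTop (𝓝 0) →
          Tendsto (fun n : ℕ => ε n * (((n : ℝ) + 3) ^ d) ^ ((1 : ℝ) / 3)) atTop atTop → ∀ δ : ℝ, 0 < δ →
          Tendsto (fun n : ℕ => prob (torG d (n + 3)) (pT n * (1 + ε n)) (fun ω =>
            δ * ε n * ((n : ℝ) + 3) ^ d <
              |(maxCluster (torG d (n + 3)) ω : ℝ) - c * ε n * ((n : ℝ) + 3) ^ d|)) atTop (𝓝 0) ∧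
          Tendsto (fun n : ℕ => prob (torG d (n + 3)) (pT n * (1 + ε n)) (fun ω => ∃ x y,
            ¬ (openGraph (torG d (n + 3)) ω).Reachable x y ∧
            δ * ε n * ((n : ℝ) + 3) ^ d < (clusterSize (torG d (n + 3)) ω x : ℝ) ∧
            δ * ε n * ((n : ℝ) + 3) ^ d < (clusterSize (torG d (n + 3)) ω y : ℝ))) atTop (𝓝 0) := by
  refine ⟨q * pc, by positivity, theta_der d C pc q h0 h1 hB hlim, ?_⟩
  intro lam hlam pT hpT ε hε0 hεn δ hδ
  have key := seq_limV d hd C pc q h0 h1 hq hX hG lam hlam pT hpT ε hε0 hεn δ hδ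
  constructor
  · rw [Metric.tendsto_nhds]
    intro r hr
    filter_upwards [key (r / 2) (by positivity)] with n hn
    obtain ⟨⟨a1, a2⟩, a3, -⟩ := hn
    rw [Real.dist_eq, sub_zero, abs_of_nonneg (prob_nonneg _ a1 a2 _)]
    linarith
  · rw [Metric.tendsto_nhds]
    intro r hr
    filter_upwards [key (r / 2) (by positivity)] with n hn
    obtain ⟨⟨a1, a2⟩, -, a4⟩ := hn
    rw [Real.dist_eq, sub_zero, abs_of_nonneg (prob_nonneg _ a1 a2 _)]
    linarith

end Pool.Agent.PERC29.DZ
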