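import Pool.Agent.Lib.MP_29e17e_pr.Z.Cs

set_option autoImplicit false
set_option linter.unusedSectionVars false

/-! Rows 29d-D1 .. 29d-D9: general finite graph, change of measure, the error terms of Section 3. -/

open Finset

namespace Pool.Agent.PERC29.DZ

open Pool.Agent.PERC29 Pool.Agent.PERC29.AE

variable {V : Type*} [Fintype V] [DecidableEq V] {E : Type*} [Fintype E] [DecidableEq E]
  {ends : E → Sym2 V}

/-! ### Change of measure -/

/-- Row D1a, one set. -/
lemma D1a_one {p q : ℝ} (hq0 : 0 < q) (hq1 : q < 1) (S : Finset E) (g : (E → Bool) → ℝ)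
    (hg : ∀ ω ω' : E → Bool, (∀ e ∈ S, ω e = ω' e) → g ω' = g ω) :
    Ex p g = Ex q (fun ω => g ω * ∏ e ∈ S, ((if ω e = true then p else 1 - p) / (if ω e = true then q else 1 - q))) := by
  set ext : ({e // e ∈ S} → Bool) → (E → Bool) := fun σ e => if h : e ∈ S then σ ⟨e, h⟩ else false
    with hext
  have hG : ∀ ω : E → Bool, g ω = g (ext (fun i : {e // e ∈ S} => ω i.1)) := by
    intro ω
    apply hg
    intro e he
    simp [hext, he]
  have hq : ∀ b : Bool, (if b = true then q else 1 - q) ≠ 0 := by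
    intro b
    split_ifs
    · exact hq0.ne'
    · exact (sub_pos.2 hq1).ne'
  calc Ex p g = Ex p (fun ω : E → Bool => (fun σ : {e // e ∈ S} → Bool => g (ext σ)) (fun i => ω i.1)) :=
        Ex_congr hG
    _ = Ex p (fun σ : {e // e ∈ S} → Bool => g (ext σ)) :=
        Ex_pull p (fun i : {e // e ∈ S} => i.1) Subtype.val_injective (fun σ : {e // e ∈ S} → Bool => g (ext σ))
    _ = Ex q (fun σ : {e // e ∈ S} → Bool => g (ext σ) *
          ∏ i, ((if σ i = true then p else 1 - p) / (if σ i = true then q else 1 - q))) := by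
        unfold Ex
        apply Finset.sum_congr rfl
        intro σ _
        have h1 : wt p σ = wt q σ * ∏ i, ((if σ i = true then p else 1 - p) /
            (if σ i = true then q else 1 - q)) := by
          unfold wt
          rw [← Finset.prod_mul_distrib]
          apply Finset.prod_congr rfl
          intro i _
          rw [mul_div_cancel₀ _ (hq (σ i))]
        rw [h1]
        ring
    _ = Ex q (fun ω : E → Bool => (fun σ : {e // e ∈ S} → Bool => g (ext σ) *
          ∏ i, ((if σ i = true then p else 1 - p) / (if σ i = true then q else 1 - q)))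
            (fun i => ω i.1)) :=
        (Ex_pull q (fun i : {e // e ∈ S} => i.1) Subtype.val_injective
          (fun σ : {e // e ∈ S} → Bool => g (ext σ) *
          ∏ i, ((if σ i = true then p else 1 - p) / (if σ i = true then q else 1 - q)))).symm
    _ = _ := by
        apply Ex_congr
        intro ω
        show g (ext fun i => ω i.1) * ∏ i : {e // e ∈ S}, ((if ω i.1 = true then p else 1 - p) /
          (if ω i.1 = true then q else 1 - q)) = _
        rw [← hG ω, Finset.prod_coe_sort S (fun e => (if ω e = true then p else 1 - p) /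
          (if ω e = true then q else 1 - q))]

/-- Row D1. `K ω` is a stopping set: it is determined by the values of `ω` on it, and so is `X ω`. Group by the value `S` of `K ω`: the function `1(K ω = S) X ω` depends only on the coordinates in `S` (if `ω = ω'` on `S` and `K ω = S` then `K ω' = S`; by symmetry). For a function which depends
only on the coordinates in `S`: `Ex p f = Ex q (f ∏_{e ∈ S} w_p/w_q)` (`Ex_pull` for the inclusion of `S`, or induction over the complement). -/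
lemma rn {p q : ℝ} (hq0 : 0 < q) (hq1 : q < 1) (K : (E → Bool) → Finset E) (hK : ∀ ω ω' : E → Bool, (∀ e ∈ K ω, ω e = ω' e) → K ω' = K ω)
    (X : (E → Bool) → ℝ) (hX : ∀ ω ω' : E → Bool, (∀ e ∈ K ω, ω e = ω' e) → X ω' = X ω) :
    Ex p X = Ex q (fun ω => X ω * ∏ e ∈ K ω, ((if ω e = true then p else 1 - p) / (if ω e = true then q else 1 - q))) := by
  have hx : ∀ (ω : E → Bool), X ω = ∑ S : Finset E, (if K ω = S then X ω else 0) := by
    intro ω
    rw [Finset.sum_ite_eq]
    simp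
  have hloc : ∀ (S : Finset E) (ω ω' : E → Bool), (∀ e ∈ S, ω e = ω' e) →
      (if K ω' = S then X ω' else 0) = (if K ω = S then X ω else 0) := by
    intro S ω ω' h
    by_cases h1 : K ω = S
    · have h2 : K ω' = K ω := hK ω ω' (fun e he => h e (h1 ▸ he))
      rw [h2, hX ω ω' (fun e he => h e (h1 ▸ he))]
    · have h2 : K ω' ≠ S := by
        intro h3
        apply h1
        rw [hK ω' ω (fun e he => (h e (h3 ▸ he)).symm), h3]
      rw [if_neg h1, if_neg h2]
  calc Ex p X = Ex p (fun ω => ∑ S : Finset E, (if K ω = S then X ω else 0)) := Ex_congr hx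
    _ = ∑ S : Finset E, Ex p (fun ω => if K ω = S then X ω else 0) := Ex_sum _ _ _
    _ = ∑ S : Finset E, Ex q (fun ω => (if K ω = S then X ω else 0) * ∏ e ∈ S,
          ((if ω e = true then p else 1 - p) / (if ω e = true then q else 1 - q))) := by
        apply Finset.sum_congr rfl
        intro S _
        exact D1a_one hq0 hq1 S _ (hloc S)
    _ = Ex q (fun ω => ∑ S : Finset E, (if K ω = S then X ω else 0) * ∏ e ∈ S,
          ((if ω e = true then p else 1 - p) / (if ω e = true then q else 1 - q))) :=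
        (Ex_sum _ _ _).symm
    _ = _ := by
        apply Ex_congr
        intro ω
        rw [Finset.sum_eq_single (K ω)]
        · rw [if_pos rfl]
        · intro S _ hS
          rw [if_neg (fun h => hS h.symm), zero_mul]
        · intro h
          exact absurd (Finset.mem_univ _) h

private lemma D1b_Zeq {p q Z : ℝ} (hq0 : 0 < q) (hq1 : q < 1)
    (hZ : Z = p ^ 2 / q + (1 - p) ^ 2 / (1 - q)) : Z = 1 + (p - q) ^ 2 / (q * (1 - q)) := by
  have hq1' : (1 - q) ≠ 0 := by linarith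
  have hq0' : q ≠ 0 := hq0.ne'
  rw [hZ]
  field_simp
  ring

private lemma D1b_Z {p q Z : ℝ} (hq0 : 0 < q) (hq1 : q < 1)
    (hZ : Z = p ^ 2 / q + (1 - p) ^ 2 / (1 - q)) : 1 ≤ Z := by
  have hq1' : 0 < 1 - q := by linarith
  rw [D1b_Zeq hq0 hq1 hZ]
  have : 0 ≤ (p - q) ^ 2 / (q * (1 - q)) := by positivity
  linarith

/-- Row D1. Cauchy-Schwarz: `Ex p X = Ex q (X ρ)` (`rn`), `(Ex q (X ρ))^2 ≤ Ex q (X ρ^2) Ex q X` (`Ex_csq` for `√X ρ` and `√X`), `ρ^2 = ∏ Z w_{p2}/w_q` with `Z = p^2/q + (1-p)^2/(1-q) = 1 + (p-q)^2/(q(1-q))` and `p2 = (p^2/q)/Z`; `Z ≥ 1`, at most `n` factors on the support of `X`; `rn` again. -/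
lemma csm {p q p2 Z : ℝ} (hq0 : 0 < q) (hq1 : q < 1) (h0 : 0 ≤ p) (h1 : p ≤ 1) (hZ : Z = p ^ 2 / q + (1 - p) ^ 2 / (1 - q)) (hp2 : p2 = p ^ 2 / q / Z)
    (K : (E → Bool) → Finset E) (hK : ∀ ω ω' : E → Bool, (∀ e ∈ K ω, ω e = ω' e) → K ω' = K ω)
    (X : (E → Bool) → ℝ) (hX : ∀ ω ω' : E → Bool, (∀ e ∈ K ω, ω e = ω' e) → X ω' = X ω) (hX0 : ∀ ω, 0 ≤ X ω) (n : ℕ) (hn : ∀ ω, X ω ≠ 0 → (K ω).card ≤ n) :
    (Ex p X) ^ 2 ≤ Z ^ n * Ex p2 X * Ex q X := by
  have hq1' : 0 < 1 - q := by linarith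
  have hZ1 := D1b_Z hq0 hq1 hZ
  have hZ0 : 0 < Z := by linarith
  -- the factors
  have ht : (p / q) ^ 2 = Z * (p2 / q) := by
    rw [hp2]
    field_simp
  have hf : ((1 - p) / (1 - q)) ^ 2 = Z * ((1 - p2) / (1 - q)) := by
    have h : Z * (1 - p2) = (1 - p) ^ 2 / (1 - q) := by
      have h' : Z * p2 = p ^ 2 / q := by
        rw [hp2]
        field_simp
      rw [mul_sub, mul_one, h']
      rw [hZ]
      ring
    rw [mul_div_assoc', h, div_pow, sq (1 - q), div_div]
  have h20 : 0 ≤ p2 := by rw [hp2]; positivity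
  have h21 : p2 ≤ 1 := by
    rw [hp2, div_le_one hZ0, hZ]
    have : 0 ≤ (1 - p) ^ 2 / (1 - q) := by positivity
    linarith
  -- the density
  let ρ : (E → Bool) → ℝ := fun ω =>
    ∏ e ∈ K ω, ((if ω e = true then p else 1 - p) / (if ω e = true then q else 1 - q))
  let ρ2 : (E → Bool) → ℝ := fun ω =>
    ∏ e ∈ K ω, ((if ω e = true then p2 else 1 - p2) / (if ω e = true then q else 1 - q))
  have hρ : ∀ ω, ρ ω ^ 2 = Z ^ (K ω).card * ρ2 ω := by
    intro ω
    simp only [ρ, ρ2]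
    rw [← Finset.prod_pow, ← Finset.prod_const, ← Finset.prod_mul_distrib]
    apply Finset.prod_congr rfl
    intro e _
    split_ifs
    · exact ht
    · exact hf
  have hρ20 : ∀ ω, 0 ≤ ρ2 ω := by
    intro ω
    apply Finset.prod_nonneg
    intro e _
    split_ifs
    · positivity
    · exact div_nonneg (by linarith) hq1'.le
  have e1 : Ex p X = Ex q (fun ω => X ω * ρ ω) := rn hq0 hq1 K hK X hX
  have e2 : Ex p2 X = Ex q (fun ω => X ω * ρ2 ω) := rn hq0 hq1 K hK X hX
  have e3 : Ex q (fun ω => X ω * ρ ω) = Ex q (fun ω => (√(X ω) * ρ ω) * √(X ω)) := by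
    apply Ex_congr
    intro ω
    rw [mul_right_comm, Real.mul_self_sqrt (hX0 ω)]
  have e4 := Ex_csq hq0.le hq1.le (fun ω => √(X ω) * ρ ω) (fun ω => √(X ω))
  have e5 : Ex q (fun ω => √(X ω) ^ 2) = Ex q X := Ex_congr fun ω => Real.sq_sqrt (hX0 ω)
  have e6 : Ex q (fun ω => (√(X ω) * ρ ω) ^ 2) ≤ Z ^ n * Ex q (fun ω => X ω * ρ2 ω) := by
    rw [← Ex_mul_left]
    apply Ex_mono hq0.le hq1.le
    intro ω
    rw [mul_pow, Real.sq_sqrt (hX0 ω), hρ ω]
    by_cases hx : X ω = 0
    · rw [hx]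
      simp
    · have hc : Z ^ (K ω).card ≤ Z ^ n := pow_le_pow_right₀ hZ1 (hn ω hx)
      calc X ω * (Z ^ (K ω).card * ρ2 ω) = Z ^ (K ω).card * (X ω * ρ2 ω) := by ring
        _ ≤ Z ^ n * (X ω * ρ2 ω) :=
            mul_le_mul_of_nonneg_right hc (mul_nonneg (hX0 ω) (hρ20 ω))
  have hqX : 0 ≤ Ex q X := Ex_nonneg hq0.le hq1.le hX0
  calc (Ex p X) ^ 2 = Ex q (fun ω => (√(X ω) * ρ ω) * √(X ω)) ^ 2 := by rw [e1, e3]
    _ ≤ Ex q (fun ω => (√(X ω) * ρ ω) ^ 2) * Ex q (fun ω => √(X ω) ^ 2) := e4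
    _ ≤ (Z ^ n * Ex q (fun ω => X ω * ρ2 ω)) * Ex q X := by
        rw [e5]
        exact mul_le_mul_of_nonneg_right e6 hqX
    _ = Z ^ n * Ex p2 X * Ex q X := by rw [e2]

/-- Row D1. Numbers: `q ≤ p2 ≤ q + 3 (p - q)` for `q ≤ p ≤ q + q(1-q)/4`.. (`p2 - q = (p^2/q - q Z)/Z`, `p^2/q - q Z = p^2/q - q - (p-q)^2/(1-q) ≤ (p-q)(p+q)/q ..`; the constant `3` needs `p - q ≤ q/2`), `Z ≤ exp((p-q)^2/(q(1-q)))`, `1 ≤ Z`. -/
lemma csm_num {p q p2 Z : ℝ} (hq0 : 0 < q) (hq1 : q < 1) (hqp : q ≤ p) (h1 : p < 1) (hpq : p - q ≤ q / 2) (hZ : Z = p ^ 2 / q + (1 - p) ^ 2 / (1 - q)) (hp2 : p2 = p ^ 2 / q / Z) :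
    q ≤ p2 ∧ p2 ≤ q + 3 * (p - q) ∧ p2 ≤ 1 ∧ 1 ≤ Z ∧ Z ≤ Real.exp ((p - q) ^ 2 / (q * (1 - q))) := by
  have hq1' : 0 < 1 - q := by linarith
  have hZ1 := D1b_Z hq0 hq1 hZ
  have hZ0 : 0 < Z := by linarith
  have hZe := D1b_Zeq hq0 hq1 hZ
  have hd : 0 ≤ p - q := by linarith
  have hp2' : p2 = p ^ 2 / (q * Z) := by rw [hp2, div_div]
  refine ⟨?_, ?_, ?_, hZ1, ?_⟩
  · rw [hp2', le_div_iff₀ (by positivity)]
    have h1' : q * (q * Z) = q ^ 2 + q * (p - q) ^ 2 / (1 - q) := by
      rw [hZe]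
      have : (1 - q) ≠ 0 := hq1'.ne'
      field_simp
    rw [h1']
    have h2 : q * (p - q) ^ 2 / (1 - q) ≤ (p - q) * (p + q) := by
      rw [div_le_iff₀ hq1']
      have h3 : q * (p - q) ≤ (p + q) * (1 - q) := by nlinarith
      nlinarith
    nlinarith
  · rw [hp2', div_le_iff₀ (by positivity)]
    have h2 : q ≤ q * Z := le_mul_of_one_le_right hq0.le hZ1
    have h3 : 0 ≤ q + 3 * (p - q) := by linarith
    have h4 : p ^ 2 ≤ (q + 3 * (p - q)) * q := by nlinarith
    exact h4.trans (mul_le_mul_of_nonneg_left h2 h3)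
  · rw [hp2, div_le_one hZ0, hZ]
    have : 0 ≤ (1 - p) ^ 2 / (1 - q) := by positivity
    linarith
  · rw [hZe, add_comm]
    exact Real.add_one_le_exp _

/-! ### Locality, second form -/

private lemma D2_gh_zero (h : ℝ) : gh h 0 = 0 := by
  unfold gh
  rw [pow_zero, sub_self]

private lemma D2_gh_sum {ι : Type*} {h : ℝ} (hh0 : 0 ≤ h) (hh1 : h ≤ 1) (S : Finset ι) (k : ι → ℕ) :
    gh h (∑ i ∈ S, k i) ≤ ∑ i ∈ S, gh h (k i) := by
  classical
  induction S using Finset.induction_on with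
  | empty => rw [Finset.sum_empty, Finset.sum_empty, D2_gh_zero]
  | insert a s ha ih =>
    rw [Finset.sum_insert ha, Finset.sum_insert ha]
    exact (gh_add hh0 hh1 _ _).trans (add_le_add le_rfl ih)

private lemma D2_self {ω : E → Bool} {D : Set V} {s : V} (h : s ∉ D) : s ∈ cS ends ω D {s} :=
  mem_cS.2 ⟨s, rfl, h, Rch.refl s⟩

private lemma D2_cover {ω : E → Bool} {D A : Set V} {D' : Finset V} {y : V} (hy : y ∈ cS ends ω D A) :
    y ∈ cS ends ω (D ∪ (D' : Set V)) A ∨
      ∃ s ∈ D', (s ∈ A ∨ ∃ s' ∈ cS ends ω (D ∪ (D' : Set V)) A, ∃ e, ends e = s(s, s')) ∧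
        y ∈ cS ends ω (D ∪ ((cS ends ω (D ∪ (D' : Set V)) A : Finset V) : Set V)) {s} := by
  obtain ⟨a, haA, haD, hr⟩ := mem_cS.1 hy
  clear hy
  have hoff : ∀ s ∈ D', s ∉ cS ends ω (D ∪ (D' : Set V)) A := fun s hs h =>
    cS_off h (Or.inr (Finset.mem_coe.2 hs))
  have hst : ∀ s ∈ D', s ∉ D → s ∉ (D ∪ ((cS ends ω (D ∪ (D' : Set V)) A : Finset V) : Set V)) := by
    intro s hs hsD h
    rcases h with h | h
    · exact hsD h
    · exact hoff s hs (Finset.mem_coe.1 h)
  induction hr with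
  | refl =>
    by_cases had : a ∈ D'
    · exact Or.inr ⟨a, had, Or.inl haA, D2_self (hst a had haD)⟩
    · refine Or.inl (mem_cS.2 ⟨a, haA, ?_, Rch.refl a⟩)
      intro h
      rcases h with h | h
      · exact haD h
      · exact had (Finset.mem_coe.1 h)
  | @tail y z _ hyz ih =>
    obtain ⟨h1, h2, e, h3, h4⟩ := hyz
    by_cases hzC : z ∈ cS ends ω (D ∪ (D' : Set V)) A
    · exact Or.inl hzC
    · right
      rcases ih with hyC | ⟨s, hs, hc, hys⟩
      · have hzD' : z ∈ D' := by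
          by_contra hz
          refine hzC (cS_step hyC e h4 h3 ?_)
          intro h
          rcases h with h | h
          · exact h2 h
          · exact hz (Finset.mem_coe.1 h)
        refine ⟨z, hzD', Or.inr ⟨y, hyC, e, ?_⟩, D2_self (hst z hzD' h2)⟩
        rw [h4, Sym2.eq_swap]
      · refine ⟨s, hs, hc, cS_step hys e h4 h3 ?_⟩
        intro h
        rcases h with h | h
        · exact h2 h
        · exact hzC (Finset.mem_coe.1 h)

open scoped Classical in
private lemma D2_point {h : ℝ} (hh0 : 0 ≤ h) (hh1 : h ≤ 1) (ω : E → Bool) (D A : Set V) (D' : Finset V) :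
    gh h (cS ends ω D A \ cS ends ω (D ∪ (D' : Set V)) A).card ≤
      ∑ s ∈ D', (if s ∈ A ∨ ∃ s' ∈ cS ends ω (D ∪ (D' : Set V)) A, ∃ e, ends e = s(s, s') then (1 : ℝ) else 0) *
        gh h (cS ends ω (D ∪ ((cS ends ω (D ∪ (D' : Set V)) A : Finset V) : Set V)) {s}).card := by
  set C := cS ends ω (D ∪ (D' : Set V)) A with hC
  have hsub : cS ends ω D A \ C ⊆ (D'.filter (fun s => s ∈ A ∨ ∃ s' ∈ C, ∃ e, ends e = s(s, s'))).biUnion
      (fun s => cS ends ω (D ∪ (C : Set V)) {s}) := by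
    intro y hy
    rw [Finset.mem_sdiff] at hy
    rcases D2_cover (D' := D') hy.1 with h1 | ⟨s, hs, hc, hys⟩
    · exact absurd h1 hy.2
    · rw [Finset.mem_biUnion]
      exact ⟨s, Finset.mem_filter.2 ⟨hs, hc⟩, hys⟩
  calc gh h (cS ends ω D A \ C).card
      ≤ gh h (∑ s ∈ D'.filter (fun s => s ∈ A ∨ ∃ s' ∈ C, ∃ e, ends e = s(s, s')), (cS ends ω (D ∪ (C : Set V)) {s}).card) :=
        gh_mono hh0 hh1 ((Finset.card_le_card hsub).trans Finset.card_biUnion_le)
    _ ≤ ∑ s ∈ D'.filter (fun s => s ∈ A ∨ ∃ s' ∈ C, ∃ e, ends e = s(s, s')), gh h (cS ends ω (D ∪ (C : Set V)) {s}).card :=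
        D2_gh_sum hh0 hh1 _ _
    _ = _ := by
        rw [Finset.sum_filter]
        refine Finset.sum_congr rfl fun s _ => ?_
        split_ifs <;> ring

open scoped Classical in
/-- Row D2. As `off_gen`, with the indicator replaced by: `s ∈ A` or `s` has a neighbour (edge of the graph) in `C' = cS ω (D ∪ D') A`. This is a function of `C'` only, so `expl_le` (with `A2 = {s}`, `D2 = D`) for every `s ∈ D'` is enough. Every vertex of `cS ω D A \ C'` is in `cS ω (D ∪ C') {s}` for such an `s ∈ D'`. -/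
lemma off2 {p h M : ℝ} (h0 : 0 ≤ p) (h1 : p ≤ 1) (hh0 : 0 ≤ h) (hh1 : h ≤ 1) (hM : Mb ends p h M) (D A : Set V) (D' : Finset V)
    (X : Finset V → ℝ) (hX : ∀ S, 0 ≤ X S) :
    Ex p (fun ω => X (cS ends ω (D ∪ (D' : Set V)) A) * gh h (cS ends ω D A \ cS ends ω (D ∪ (D' : Set V)) A).card) ≤
      M * ∑ s ∈ D', Ex p (fun ω => X (cS ends ω (D ∪ (D' : Set V)) A) *
        (if s ∈ A ∨ ∃ s' ∈ cS ends ω (D ∪ (D' : Set V)) A, ∃ e, ends e = s(s, s') then (1 : ℝ) else 0)) := by
  have e1 : Ex p (fun ω => X (cS ends ω (D ∪ (D' : Set V)) A) * gh h (cS ends ω D A \ cS ends ω (D ∪ (D' : Set V)) A).card) ≤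
      Ex p (fun ω => ∑ s ∈ D', (X (cS ends ω (D ∪ (D' : Set V)) A) *
        (if s ∈ A ∨ ∃ s' ∈ cS ends ω (D ∪ (D' : Set V)) A, ∃ e, ends e = s(s, s') then (1 : ℝ) else 0)) *
        gh h (cS ends ω (D ∪ ((cS ends ω (D ∪ (D' : Set V)) A : Finset V) : Set V)) {s}).card) := by
    refine Ex_mono h0 h1 fun ω => ?_
    refine (mul_le_mul_of_nonneg_left (D2_point hh0 hh1 ω D A D') (hX _)).trans_eq ?_
    rw [Finset.mul_sum]
    exact Finset.sum_congr rfl fun s _ => by ring
  refine e1.trans ?_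
  rw [Ex_sum, Finset.mul_sum]
  refine Finset.sum_le_sum fun s _ => ?_
  have e2 := expl_le (ends := ends) (p := p) (h := h) (M := M) h0 h1 (D ∪ (D' : Set V)) A D {s}
    (fun C => X C * (if s ∈ A ∨ ∃ s' ∈ C, ∃ e, ends e = s(s, s') then (1 : ℝ) else 0))
    (fun C => mul_nonneg (hX C) (by split_ifs <;> norm_num)) (fun S => hM _ s)
  rw [mul_comm M]
  exact e2

/-! ### Paths which leave `Q` -/

open scoped Classical in
/-- the open edges off `D` -/
private noncomputable def D3_off (ends : E → Sym2 V) (ω : E → Bool) (D : Set V) : E → Bool :=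
  fun e => decide (ω e = true ∧ ∀ v, v ∈ ends e → v ∉ D)

private lemma D3_off_iff {ω : E → Bool} {D : Set V} {e : E} :
    D3_off ends ω D e = true ↔ ω e = true ∧ ∀ v, v ∈ ends e → v ∉ D := by
  classical
  unfold D3_off
  exact decide_eq_true_iff

private lemma D3_rch {ω : E → Bool} {D : Set V} {a y : V} (h : Rch ends ω Dᶜ a y) :
    Rch ends (D3_off ends ω D) Set.univ a y := by
  induction h with
  | refl => exact Rch.refl _
  | tail _ hbc ih =>
    obtain ⟨h1, h2, e, h3, h4⟩ := hbc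
    refine Relation.ReflTransGen.tail ih ⟨trivial, trivial, e, D3_off_iff.2 ⟨h3, ?_⟩, h4⟩
    intro v hv
    rw [h4, Sym2.mem_iff] at hv
    rcases hv with rfl | rfl
    · exact h1
    · exact h2

/-- a walk off `D` which starts in `Q` visits `P` or stays in `Q` -/
private lemma D3_walk {ω : E → Bool} {D Q : Set V} {P : Finset V}
    (hP : ∀ e a b, ends e = s(a, b) → a ∈ Q → b ∉ Q → a ∈ P) {a b : V}
    (p : (openG ends (D3_off ends ω D)).Walk a b) (ha : a ∈ Q) :
    (∃ z ∈ P, z ∈ p.support) ∨ Rch ends ω (D ∪ Qᶜ)ᶜ a b := by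
  induction p with
  | nil => exact Or.inr (Rch.refl _)
  | @cons a c b hadj p ih =>
    have hadj' := hadj
    obtain ⟨-, e, h3, h4⟩ := hadj'
    have h5 := D3_off_iff.1 h3
    by_cases hc : c ∈ Q
    · rcases ih hc with ⟨z, hz, hz2⟩ | h
      · refine Or.inl ⟨z, hz, ?_⟩
        rw [SimpleGraph.Walk.support_cons]
        exact List.mem_cons_of_mem _ hz2
      · refine Or.inr (Relation.ReflTransGen.head ⟨?_, ?_, e, h5.1, h4⟩ h)
        · rintro (h6 | h6)
          · exact h5.2 a (by rw [h4]; exact Sym2.mem_mk_left _ _) h6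
          · exact h6 ha
        · rintro (h6 | h6)
          · exact h5.2 c (by rw [h4]; exact Sym2.mem_mk_right _ _) h6
          · exact h6 hc
    · refine Or.inl ⟨a, hP e a c h4 ha hc, ?_⟩
      rw [SimpleGraph.Walk.support_cons]
      exact List.mem_cons_self

/-- the two disjoint paths -/
private lemma D3_two {ω : E → Bool} {D Q : Set V} {P : Finset V} {x y : V} (hx : x ∈ Q)
    (hP : ∀ e a b, ends e = s(a, b) → a ∈ Q → b ∉ Q → a ∈ P)
    (h1 : y ∈ cS ends ω D {x}) (h2 : y ∉ cS ends ω (D ∪ Qᶜ) {x}) :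
    ∃ z ∈ P, ∃ F ∈ Pth ends x z, ∃ G ∈ Pth ends z y, Disjoint F G ∧ ∀ e ∈ F ∪ G, ω e = true := by
  classical
  obtain ⟨a, ha, haD, hay⟩ := mem_cS.1 h1
  have hax : a = x := ha
  subst hax
  obtain ⟨p0⟩ := exists_walk (D3_rch hay)
  obtain ⟨p, hp⟩ : ∃ p : (openG ends (D3_off ends ω D)).Walk a y, p.IsPath :=
    ⟨_, p0.bypass_isPath⟩
  have hop : ∀ (L : List (Sym2 V)), ∀ e ∈ opL ends (D3_off ends ω D) L, ω e = true := by
    intro L e he
    exact (D3_off_iff.1 (Finset.mem_filter.1 he).2.1).1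
  rcases D3_walk hP p hx with ⟨z, hzP, hz⟩ | h
  · have hnd : (p.takeUntil z hz).edges.Disjoint (p.dropUntil z hz).edges := by
      have h3 : p.edges.Nodup := hp.isTrail.edges_nodup
      rw [← p.take_spec hz, SimpleGraph.Walk.edges_append] at h3
      exact (List.nodup_append'.1 h3).2.2
    refine ⟨z, hzP, opL ends (D3_off ends ω D) (p.takeUntil z hz).edges,
      walk_mem_Pth _ _ (fun s hs => hs), opL ends (D3_off ends ω D) (p.dropUntil z hz).edges,
      walk_mem_Pth _ _ (fun s hs => hs), opL_disjoint (fun s hs hs' => hnd hs hs'), ?_⟩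
    intro e he
    rw [Finset.mem_union] at he
    rcases he with he | he
    · exact hop _ e he
    · exact hop _ e he
  · exfalso
    apply h2
    rw [mem_cS]
    refine ⟨a, rfl, ?_, h⟩
    rintro (h6 | h6)
    · exact haD h6
    · exact h6 hx

/-- Row D3. `y` is joined to `x` off `D` but not inside `Q`: the cluster of `x` inside `Q` off `D` does not contain `y`; take a path off `D` from `x` to `y`; it leaves `Q` (otherwise `y` would be in the cluster), so it visits `P`, at `z`; make the path simple: edge-disjoint open sets joining `x` to `z` and `z` to `y`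
(a simple path from `x` to `y` off `D` also leaves `Q`: `bypass` of the walk is off `D`). `bk` with `Pth x z`, `Pth z y`, `opn_Pth`. -/
lemma outp {p : ℝ} (h0 : 0 ≤ p) (h1 : p ≤ 1) (D Q : Set V) (P : Finset V) (x y : V) (hx : x ∈ Q)
    (hP : ∀ e a b, ends e = s(a, b) → a ∈ Q → b ∉ Q → a ∈ P) :
    Ex p (fun ω => if y ∈ cS ends ω D {x} ∧ y ∉ cS ends ω (D ∪ Qᶜ) {x} then (1 : ℝ) else 0) ≤ ∑ z ∈ P, ta ends p x z * ta ends p z y := by
  classical
  have hnn : ∀ (𝒜 : Set (Finset E)) (ω : E → Bool), 0 ≤ opn 𝒜 ω := by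
    intro 𝒜 ω
    unfold opn
    split_ifs <;> norm_num
  have hpt : ∀ ω : E → Bool,
      (if y ∈ cS ends ω D {x} ∧ y ∉ cS ends ω (D ∪ Qᶜ) {x} then (1 : ℝ) else 0) ≤
      ∑ z ∈ P, opn (dsj (Pth ends x z) (Pth ends z y)) ω := by
    intro ω
    have hn1 : 0 ≤ ∑ z ∈ P, opn (dsj (Pth ends x z) (Pth ends z y)) ω :=
      Finset.sum_nonneg fun z _ => hnn _ _
    by_cases hu : y ∈ cS ends ω D {x} ∧ y ∉ cS ends ω (D ∪ Qᶜ) {x}
    · rw [if_pos hu]
      obtain ⟨z, hz, F, hF, G, hG, h3, h4⟩ := D3_two hx hP hu.1 hu.2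
      have h6 : opn (dsj (Pth ends x z) (Pth ends z y)) ω = 1 := by
        unfold opn
        rw [if_pos]
        exact ⟨F ∪ G, ⟨F, hF, G, hG, h3, rfl⟩, h4⟩
      have h7 := Finset.single_le_sum (f := fun z => opn (dsj (Pth ends x z) (Pth ends z y)) ω)
        (fun z _ => hnn _ _) hz
      linarith
    · rw [if_neg hu]
      exact hn1
  have e1 : ∀ a b : V, Ex p (opn (Pth ends a b)) = ta ends p a b := by
    intro a b
    unfold ta
    exact Ex_congr fun ω => opn_Pth a b ω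
  refine (Ex_mono h0 h1 hpt).trans ?_
  rw [Ex_sum]
  refine Finset.sum_le_sum fun z _ => ?_
  have h2 := bk h0 h1 (Pth ends x z) (Pth ends z y)
  rw [e1, e1] at h2
  exact h2

open scoped Classical in
/-- the open edges off `D` -/
private noncomputable def D4_off (ends : E → Sym2 V) (ω : E → Bool) (D : Set V) : E → Bool :=
  fun e => decide (ω e = true ∧ ∀ v, v ∈ ends e → v ∉ D)

private lemma D4_off_iff {ω : E → Bool} {D : Set V} {e : E} :
    D4_off ends ω D e = true ↔ ω e = true ∧ ∀ v, v ∈ ends e → v ∉ D := by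
  classical
  unfold D4_off
  exact decide_eq_true_iff

private lemma D4_rch {ω : E → Bool} {D : Set V} {a y : V} (h : Rch ends ω Dᶜ a y) :
    Rch ends (D4_off ends ω D) Set.univ a y := by
  induction h with
  | refl => exact Rch.refl _
  | tail _ hbc ih =>
    obtain ⟨h1, h2, e, h3, h4⟩ := hbc
    refine Relation.ReflTransGen.tail ih ⟨trivial, trivial, e, D4_off_iff.2 ⟨h3, ?_⟩, h4⟩
    intro v hv
    rw [h4, Sym2.mem_iff] at hv
    rcases hv with rfl | rfl
    · exact h1
    · exact h2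

/-- a walk off `D` which avoids `P` stays inside of `Q` -/
private lemma D4_in {ω : E → Bool} {D Q : Set V} {P : Finset V}
    (hP : ∀ e x y, ends e = s(x, y) → x ∈ Q → y ∉ Q → x ∈ P) {a b : V}
    (p : (openG ends (D4_off ends ω D)).Walk a b) (ha : a ∈ Q) (hp : ∀ v ∈ p.support, v ∉ P) :
    Rch ends ω (D ∪ Qᶜ)ᶜ a b := by
  induction p with
  | nil => exact Rch.refl _
  | @cons a c b hadj p ih =>
    obtain ⟨-, e, h3, h4⟩ := id hadj
    have h5 := D4_off_iff.1 h3
    have haP : a ∉ P := hp a (by simp)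
    have hc : c ∈ Q := by
      by_contra hc
      exact haP (hP e a c h4 ha hc)
    have haD : a ∉ D := h5.2 a (by rw [h4]; exact Sym2.mem_mk_left _ _)
    have hcD : c ∉ D := h5.2 c (by rw [h4]; exact Sym2.mem_mk_right _ _)
    refine Relation.ReflTransGen.head ⟨?_, ?_, e, h5.1, h4⟩ (ih hc (fun v hv => hp v ?_))
    · rintro (h | h)
      · exact haD h
      · exact h ha
    · rintro (h | h)
      · exact hcD h
      · exact h hc
    · rw [SimpleGraph.Walk.support_cons]
      exact List.mem_cons_of_mem _ hv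

/-- the edge sets which join `z` to `B` -/
private def D4_gfam (ends : E → Sym2 V) (z : V) (B : Finset V) : Set (Finset E) :=
  {F | ∃ g ∈ B, Rch ends (fun e => decide (e ∈ F)) Set.univ z g}

open scoped Classical in
private lemma D4_gopn (z : V) (B : Finset V) (ω : E → Bool) :
    opn (D4_gfam ends z B) ω = if ∃ b ∈ B, b ∈ cS ends ω ∅ {z} then 1 else 0 := by
  unfold opn
  apply if_congr _ rfl rfl
  constructor
  · rintro ⟨F, ⟨g, hg, hF⟩, hop⟩
    refine ⟨g, hg, mem_cS.2 ⟨z, rfl, Set.notMem_empty z, ?_⟩⟩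
    exact hF.mono (fun e he => hop e (of_decide_eq_true he)) (by simp)
  · rintro ⟨g, hg, hgz⟩
    obtain ⟨z1, hz1, -, h⟩ := mem_cS.1 hgz
    obtain rfl : z1 = z := hz1
    refine ⟨Finset.univ.filter (fun e => ω e = true), ⟨g, hg, ?_⟩, ?_⟩
    · exact h.mono (fun e he => by simp [he]) (Set.subset_univ _)
    · intro e he
      exact (Finset.mem_filter.1 he).2

open scoped Classical in
private lemma D4_gh (h : ℝ) (C : Finset V) :
    ∑ B : Finset V, gw h B * (if ∃ b ∈ B, b ∈ C then (1 : ℝ) else 0) = gh h C.card := by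
  have e : ∑ B : Finset V, gw h B * (if ∃ b ∈ B, b ∈ C then (1 : ℝ) else 0) +
      ∑ B : Finset V, gw h B * (if ∃ b ∈ B, b ∈ C then (0 : ℝ) else 1) = ∑ B : Finset V, gw h B := by
    rw [← Finset.sum_add_distrib]
    refine Finset.sum_congr rfl fun B _ => ?_
    by_cases hc : ∃ b ∈ B, b ∈ C
    · rw [if_pos hc, if_pos hc]; ring
    · rw [if_neg hc, if_neg hc]; ring
  rw [ghost, gw_sum] at e
  unfold gh
  linarith

/-- three parts of a path and a green path -/
private lemma D4_parts {ω : E → Bool} {D : Set V} {B : Finset V} {x0 x1 x2 x3 : V}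
    (p1 : (openG ends (D4_off ends ω D)).Walk x0 x1) (p2 : (openG ends (D4_off ends ω D)).Walk x1 x2)
    (p3 : (openG ends (D4_off ends ω D)).Walk x2 x3) (hn : (p1.edges ++ (p2.edges ++ p3.edges)).Nodup)
    {g w : V} (hg : g ∈ B) (q : (openG ends ω).Walk g w)
    (hq : ∀ s ∈ q.edges, s ∉ p1.edges ++ (p2.edges ++ p3.edges)) :
    ∃ F1 ∈ Pth ends x0 x1, ∃ F2 ∈ Pth ends x1 x2, ∃ F3 ∈ Pth ends x2 x3, ∃ H ∈ D4_gfam ends w B,
      Disjoint F1 F2 ∧ Disjoint (F1 ∪ F2) F3 ∧ Disjoint (F1 ∪ F2 ∪ F3) H ∧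
      ∀ e ∈ F1 ∪ F2 ∪ F3 ∪ H, ω e = true := by
  have hop : ∀ (L : List (Sym2 V)), ∀ e ∈ opL ends (D4_off ends ω D) L, ω e = true := by
    intro L e he
    exact (D4_off_iff.1 (Finset.mem_filter.1 he).2.1).1
  have hop2 : ∀ (L : List (Sym2 V)), ∀ e ∈ opL ends ω L, ω e = true := by
    intro L e he
    exact (Finset.mem_filter.1 he).2.1
  have hdis : ∀ L L' : List (Sym2 V), (∀ s ∈ L', s ∉ L) →
      Disjoint (opL ends (D4_off ends ω D) L) (opL ends ω L') := by
    intro L L' h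
    rw [Finset.disjoint_left]
    intro e he he'
    exact h _ (Finset.mem_filter.1 he').2.2 (Finset.mem_filter.1 he).2.2
  rw [List.nodup_append'] at hn
  obtain ⟨-, hn2, hn1⟩ := hn
  rw [List.nodup_append'] at hn2
  obtain ⟨-, -, hn3⟩ := hn2
  refine ⟨opL ends (D4_off ends ω D) p1.edges, walk_mem_Pth _ _ (fun s hs => hs),
    opL ends (D4_off ends ω D) p2.edges, walk_mem_Pth _ _ (fun s hs => hs),
    opL ends (D4_off ends ω D) p3.edges, walk_mem_Pth _ _ (fun s hs => hs),
    opL ends ω q.edges, ⟨g, hg, walk_mem_Pth q.reverse _ (fun s hs => by simpa using hs)⟩,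
    ?_, ?_, ?_, ?_⟩
  · exact opL_disjoint (fun s hs hs' => hn1 hs (List.mem_append_left _ hs'))
  · rw [Finset.disjoint_union_left]
    exact ⟨opL_disjoint (fun s hs hs' => hn1 hs (List.mem_append_right _ hs')),
      opL_disjoint (fun s hs hs' => hn3 hs hs')⟩
  · rw [Finset.disjoint_union_left, Finset.disjoint_union_left]
    exact ⟨⟨hdis _ _ (fun s hs hs' => hq s hs (List.mem_append_left _ hs')),
      hdis _ _ (fun s hs hs' => hq s hs (List.mem_append_right _ (List.mem_append_left _ hs')))⟩,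
      hdis _ _ (fun s hs hs' => hq s hs (List.mem_append_right _ (List.mem_append_right _ hs')))⟩
  · intro e he
    rw [Finset.mem_union, Finset.mem_union, Finset.mem_union] at he
    rcases he with ((he | he) | he) | he
    · exact hop _ e he
    · exact hop _ e he
    · exact hop _ e he
    · exact hop2 _ e he

/-- the fork on a path which leaves `Q` -/
private lemma D4_tri {ω : E → Bool} {D Q : Set V} {P B : Finset V} {a a' : V} (ha : a ∈ Q)
    (hP : ∀ e x y, ends e = s(x, y) → x ∈ Q → y ∉ Q → x ∈ P)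
    (hu : a' ∈ cS ends ω D {a}) (hn : a' ∉ cS ends ω (D ∪ Qᶜ) {a}) (hw : ∃ b ∈ B, b ∈ cS ends ω D {a}) :
    ∃ z ∈ P, ∃ w,
      (∃ F1 ∈ Pth ends a z, ∃ F2 ∈ Pth ends z w, ∃ F3 ∈ Pth ends w a', ∃ H ∈ D4_gfam ends w B,
        Disjoint F1 F2 ∧ Disjoint (F1 ∪ F2) F3 ∧ Disjoint (F1 ∪ F2 ∪ F3) H ∧
        ∀ e ∈ F1 ∪ F2 ∪ F3 ∪ H, ω e = true) ∨
      (∃ F1 ∈ Pth ends a w, ∃ F2 ∈ Pth ends w z, ∃ F3 ∈ Pth ends z a', ∃ H ∈ D4_gfam ends w B,
        Disjoint F1 F2 ∧ Disjoint (F1 ∪ F2) F3 ∧ Disjoint (F1 ∪ F2 ∪ F3) H ∧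
        ∀ e ∈ F1 ∪ F2 ∪ F3 ∪ H, ω e = true) := by
  classical
  obtain ⟨a1, ha1, haD, hau⟩ := mem_cS.1 hu
  obtain rfl : a1 = a := ha1
  obtain ⟨g, hg, hga⟩ := hw
  obtain ⟨a2, ha2, haD2, hag⟩ := mem_cS.1 hga
  obtain rfl : a2 = a1 := ha2
  obtain ⟨p0⟩ := exists_walk (D4_rch hau)
  have hag' : Rch ends ω Set.univ a2 g := hag.mono (fun _ h => h) (Set.subset_univ _)
  obtain ⟨q⟩ := exists_walk hag'.symm
  obtain ⟨p, hp⟩ : ∃ p : (openG ends (D4_off ends ω D)).Walk a2 a', p.IsPath :=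
    ⟨_, p0.bypass_isPath⟩
  have hz : ∃ z ∈ P, z ∈ p.support := by
    by_contra hcon
    push Not at hcon
    apply hn
    refine mem_cS.2 ⟨a2, rfl, ?_, D4_in hP p ha (fun v hv hvP => hcon v hvP hv)⟩
    rintro (h | h)
    · exact haD h
    · exact h ha
  obtain ⟨z, hzP, hz⟩ := hz
  obtain ⟨w, hw, q', hq'⟩ := first_hit {w | w ∈ p.support} q (p.start_mem_support)
  have hw' : w ∈ p.support := hw
  have hqp : ∀ s ∈ q'.edges, s ∉ p.edges := by
    intro s hs hs'
    induction s using Sym2.ind with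
    | _ x y =>
      have hx : x = w := hq' x (q'.fst_mem_support_of_mem_edges hs)
        (p.fst_mem_support_of_mem_edges hs')
      have hy : y = w := hq' y (q'.snd_mem_support_of_mem_edges hs)
        (p.snd_mem_support_of_mem_edges hs')
      have hadj := q'.adj_of_mem_edges hs
      exact hadj.ne (hx.trans hy.symm)
  have hnd : p.edges.Nodup := hp.isTrail.edges_nodup
  refine ⟨z, hzP, w, ?_⟩
  have hsplit : w ∈ (p.takeUntil z hz).support ∨ w ∈ (p.dropUntil z hz).support := by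
    have h := hw'
    rw [← p.take_spec hz, SimpleGraph.Walk.mem_support_append_iff] at h
    exact h
  rcases hsplit with h | h
  · right
    have he : p.edges = ((p.takeUntil z hz).takeUntil w h).edges ++
        (((p.takeUntil z hz).dropUntil w h).edges ++ (p.dropUntil z hz).edges) := by
      rw [← List.append_assoc, ← SimpleGraph.Walk.edges_append, SimpleGraph.Walk.take_spec,
        ← SimpleGraph.Walk.edges_append, SimpleGraph.Walk.take_spec]
    exact D4_parts _ _ _ (by rw [← he]; exact hnd) hg q' (by rw [← he]; exact hqp)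
  · left
    have he : p.edges = (p.takeUntil z hz).edges ++
        (((p.dropUntil z hz).takeUntil w h).edges ++ ((p.dropUntil z hz).dropUntil w h).edges) := by
      rw [← SimpleGraph.Walk.edges_append, SimpleGraph.Walk.take_spec,
        ← SimpleGraph.Walk.edges_append, SimpleGraph.Walk.take_spec]
    exact D4_parts _ _ _ (by rw [← he]; exact hnd) hg q' (by rw [← he]; exact hqp)

/-- `bk` three times -/
private lemma D4_bk {p : ℝ} (h0 : 0 ≤ p) (h1 : p ≤ 1) (x0 x1 x2 x3 : V) (𝒢 : Set (Finset E)) :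
    Ex p (opn (dsj (dsj (dsj (Pth ends x0 x1) (Pth ends x1 x2)) (Pth ends x2 x3)) 𝒢)) ≤
      (ta ends p x0 x1 * ta ends p x1 x2 * ta ends p x2 x3) * Ex p (opn 𝒢) := by
  have hnn : ∀ (𝒜 : Set (Finset E)) (ω : E → Bool), 0 ≤ opn 𝒜 ω := by
    intro 𝒜 ω
    unfold opn
    split_ifs <;> norm_num
  have e1 : ∀ x y : V, Ex p (opn (Pth ends x y)) = ta ends p x y := by
    intro x y
    unfold ta
    exact Ex_congr fun ω => opn_Pth x y ω
  have hg0 : 0 ≤ Ex p (opn 𝒢) := Ex_nonneg h0 h1 fun ω => hnn _ _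
  refine (bk h0 h1 _ _).trans (mul_le_mul_of_nonneg_right ?_ hg0)
  refine (bk h0 h1 _ _).trans ?_
  rw [e1]
  refine mul_le_mul_of_nonneg_right ?_ (ta_nonneg h0 h1 _ _)
  refine (bk h0 h1 _ _).trans ?_
  rw [e1, e1]

/-- Row D4. The fork on a path which leaves `Q`. As `fork`: for fixed green set `G`; simple path from `a` to `a'` off `D` which visits `z ∈ P` (as in `outp`), a path from a green vertex stopped at its first vertex `w` on it. If `w` is after `z`: edge-disjoint `a - z`, `z - w`, `w - a'`, `w - g`;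
if before: `a - w`, `w - z`, `z - a'`, `w - g`. `bk` three times, sum over `G`. -/
lemma fork_out {p h M : ℝ} (h0 : 0 ≤ p) (h1 : p ≤ 1) (hh0 : 0 ≤ h) (hh1 : h ≤ 1) (hM : Mb ends p h M) (D Q : Set V) (P : Finset V) (a a' : V) (ha : a ∈ Q)
    (hP : ∀ e x y, ends e = s(x, y) → x ∈ Q → y ∉ Q → x ∈ P) :
    Ex p (fun ω => if a' ∈ cS ends ω D {a} ∧ a' ∉ cS ends ω (D ∪ Qᶜ) {a} then gh h (cS ends ω D {a}).card else (0 : ℝ)) ≤
      M * ∑ z ∈ P, ∑ w, (ta ends p a z * ta ends p z w * ta ends p w a' + ta ends p a w * ta ends p w z * ta ends p z a') := by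
  classical
  have hnn : ∀ (𝒜 : Set (Finset E)) (ω : E → Bool), 0 ≤ opn 𝒜 ω := by
    intro 𝒜 ω
    unfold opn
    split_ifs <;> norm_num
  have hpt : ∀ ω : E → Bool, (if a' ∈ cS ends ω D {a} ∧ a' ∉ cS ends ω (D ∪ Qᶜ) {a} then gh h (cS ends ω D {a}).card else (0 : ℝ)) ≤
      ∑ B : Finset V, gw h B * ∑ z ∈ P, ∑ w,
        (opn (dsj (dsj (dsj (Pth ends a z) (Pth ends z w)) (Pth ends w a')) (D4_gfam ends w B)) ω +
        opn (dsj (dsj (dsj (Pth ends a w) (Pth ends w z)) (Pth ends z a')) (D4_gfam ends w B)) ω) := by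
    intro ω
    have hnn2 : ∀ B z w, 0 ≤ (opn (dsj (dsj (dsj (Pth ends a z) (Pth ends z w)) (Pth ends w a')) (D4_gfam ends w B)) ω +
        opn (dsj (dsj (dsj (Pth ends a w) (Pth ends w z)) (Pth ends z a')) (D4_gfam ends w B)) ω) :=
      fun B z w => add_nonneg (hnn _ _) (hnn _ _)
    by_cases hu : a' ∈ cS ends ω D {a} ∧ a' ∉ cS ends ω (D ∪ Qᶜ) {a}
    · rw [if_pos hu, ← D4_gh]
      refine Finset.sum_le_sum fun B _ => mul_le_mul_of_nonneg_left ?_ (gw_nonneg hh0 hh1 B)
      by_cases hw : ∃ b ∈ B, b ∈ cS ends ω D {a}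
      · rw [if_pos hw]
        obtain ⟨z, hz, w, hzw⟩ := D4_tri ha hP hu.1 hu.2 hw
        have h6 : 1 ≤ (opn (dsj (dsj (dsj (Pth ends a z) (Pth ends z w)) (Pth ends w a')) (D4_gfam ends w B)) ω +
            opn (dsj (dsj (dsj (Pth ends a w) (Pth ends w z)) (Pth ends z a')) (D4_gfam ends w B)) ω) := by
          rcases hzw with ⟨F1, hF1, F2, hF2, F3, hF3, H, hH, g1, g2, g3, g4⟩ |
            ⟨F1, hF1, F2, hF2, F3, hF3, H, hH, g1, g2, g3, g4⟩
          · have h7 : opn (dsj (dsj (dsj (Pth ends a z) (Pth ends z w)) (Pth ends w a')) (D4_gfam ends w B)) ω = 1 := by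
              unfold opn
              rw [if_pos]
              exact ⟨F1 ∪ F2 ∪ F3 ∪ H, ⟨F1 ∪ F2 ∪ F3, ⟨F1 ∪ F2, ⟨F1, hF1, F2, hF2, g1, rfl⟩, F3, hF3, g2, rfl⟩,
                H, hH, g3, rfl⟩, g4⟩
            rw [h7]
            linarith [hnn (dsj (dsj (dsj (Pth ends a w) (Pth ends w z)) (Pth ends z a')) (D4_gfam ends w B)) ω]
          · have h7 : opn (dsj (dsj (dsj (Pth ends a w) (Pth ends w z)) (Pth ends z a')) (D4_gfam ends w B)) ω = 1 := by
              unfold opn
              rw [if_pos]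
              exact ⟨F1 ∪ F2 ∪ F3 ∪ H, ⟨F1 ∪ F2 ∪ F3, ⟨F1 ∪ F2, ⟨F1, hF1, F2, hF2, g1, rfl⟩, F3, hF3, g2, rfl⟩,
                H, hH, g3, rfl⟩, g4⟩
            rw [h7]
            linarith [hnn (dsj (dsj (dsj (Pth ends a z) (Pth ends z w)) (Pth ends w a')) (D4_gfam ends w B)) ω]
        refine h6.trans ((Finset.single_le_sum (f := fun w =>
          (opn (dsj (dsj (dsj (Pth ends a z) (Pth ends z w)) (Pth ends w a')) (D4_gfam ends w B)) ω +
          opn (dsj (dsj (dsj (Pth ends a w) (Pth ends w z)) (Pth ends z a')) (D4_gfam ends w B)) ω))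
          (fun w _ => hnn2 B z w) (Finset.mem_univ w)).trans ?_)
        exact Finset.single_le_sum (f := fun z => ∑ w,
          (opn (dsj (dsj (dsj (Pth ends a z) (Pth ends z w)) (Pth ends w a')) (D4_gfam ends w B)) ω +
          opn (dsj (dsj (dsj (Pth ends a w) (Pth ends w z)) (Pth ends z a')) (D4_gfam ends w B)) ω))
          (fun z _ => Finset.sum_nonneg fun w _ => hnn2 B z w) hz
      · rw [if_neg hw]
        exact Finset.sum_nonneg fun z _ => Finset.sum_nonneg fun w _ => hnn2 B z w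
    · rw [if_neg hu]
      exact Finset.sum_nonneg fun B _ => mul_nonneg (gw_nonneg hh0 hh1 B)
        (Finset.sum_nonneg fun z _ => Finset.sum_nonneg fun w _ => hnn2 B z w)
  have hM' : ∀ w : V, ∑ B : Finset V, gw h B * Ex p (opn (D4_gfam ends w B)) ≤ M := by
    intro w
    refine le_trans (le_of_eq ?_) (hM ∅ w)
    have e2 : ∀ B : Finset V, gw h B * Ex p (opn (D4_gfam ends w B)) =
        Ex p (fun ω => gw h B * opn (D4_gfam ends w B) ω) := fun B => (Ex_mul_left _ _ _).symm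
    rw [Finset.sum_congr rfl fun B _ => e2 B, ← Ex_sum]
    refine Ex_congr fun ω => ?_
    rw [← D4_gh]
    exact Finset.sum_congr rfl fun B _ => by rw [D4_gopn]
  refine (Ex_mono h0 h1 hpt).trans ?_
  rw [Ex_sum]
  have hstep : ∀ B : Finset V, Ex p (fun ω => gw h B * ∑ z ∈ P, ∑ w,
      (opn (dsj (dsj (dsj (Pth ends a z) (Pth ends z w)) (Pth ends w a')) (D4_gfam ends w B)) ω +
      opn (dsj (dsj (dsj (Pth ends a w) (Pth ends w z)) (Pth ends z a')) (D4_gfam ends w B)) ω)) ≤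
      ∑ z ∈ P, ∑ w, (ta ends p a z * ta ends p z w * ta ends p w a' + ta ends p a w * ta ends p w z * ta ends p z a') *
        (gw h B * Ex p (opn (D4_gfam ends w B))) := by
    intro B
    rw [Ex_mul_left, Ex_sum, Finset.mul_sum]
    refine Finset.sum_le_sum fun z _ => ?_
    rw [Ex_sum, Finset.mul_sum]
    refine Finset.sum_le_sum fun w _ => ?_
    rw [Ex_add]
    have k1 := D4_bk (ends := ends) h0 h1 a z w a' (D4_gfam ends w B)
    have k2 := D4_bk (ends := ends) h0 h1 a w z a' (D4_gfam ends w B)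
    have k3 := mul_le_mul_of_nonneg_left (add_le_add k1 k2) (gw_nonneg hh0 hh1 B)
    refine k3.trans (le_of_eq ?_)
    ring
  refine (Finset.sum_le_sum fun B _ => hstep B).trans ?_
  rw [Finset.sum_comm, Finset.mul_sum]
  refine Finset.sum_le_sum fun z _ => ?_
  rw [Finset.sum_comm, Finset.mul_sum]
  refine Finset.sum_le_sum fun w _ => ?_
  rw [← Finset.mul_sum, mul_comm M]
  refine mul_le_mul_of_nonneg_left (hM' w) ?_
  have t := ta_nonneg (ends := ends) h0 h1
  exact add_nonneg (mul_nonneg (mul_nonneg (t _ _) (t _ _)) (t _ _))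
    (mul_nonneg (mul_nonneg (t _ _) (t _ _)) (t _ _))

/-! ### The quantity of Section 3 and its error terms. Base vertex `u`, `v` another vertex, `Q` the big ball, `T` the small ball. -/

/-- The true quantity. -/
noncomputable def q0 (ends : E → Sym2 V) (p h : ℝ) (u v : V) : ℝ :=
  Ex p (fun ω => if v ∈ cu ends ω u then (0 : ℝ) else fh h (cu ends ω u).card * piS ends p h (cu ends ω u : Set V) {v})

/-- The local quantity. -/
noncomputable def q1 (ends : E → Sym2 V) (p h : ℝ) (Q : Set V) (T : Finset V) (u v : V) : ℝ :=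
  Ex p (fun ω => if v ∈ cS ends ω Qᶜ {u} then (0 : ℝ) else fh h (cu ends ω u).card * piS ends p h ((cS ends ω Qᶜ {u} ∩ T : Finset V) : Set V) {v})

open scoped Classical in
/-- The number of the contacts outside of `T`, with cut-offs. -/
noncomputable def om (ends : E → Sym2 V) (p h : ℝ) (T : Finset V) (K : ℕ) (u v : V) : ℝ :=
  Ex p (fun ω => if v ∉ cu ends ω u ∧ (cu ends ω u).card ≤ K ∧ (cu ends ω v).card ≤ K then
    fh h (cu ends ω u).card * ∑ s ∈ cu ends ω u \ T, ∑ s' ∈ cu ends ω v, (if ∃ e, ends e = s(s, s') then (1 : ℝ) else 0) else 0)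

/-- Row D5. -/
private lemma D5_cu (ω : E → Bool) (u : V) : cS ends ω (∅ : Set V) {u} = cu ends ω u := by
  ext y
  rw [mem_cS, mem_cu, Set.compl_empty]
  simp only [Set.mem_singleton_iff, exists_eq_left, Set.mem_empty_iff_false, not_false_eq_true, true_and]

/-- Row D5. -/
private lemma D5_sub (ω : E → Bool) (D : Set V) (u : V) : cS ends ω D {u} ⊆ cu ends ω u := by
  rw [← D5_cu ω u]
  exact cS_mono (fun _ h => h) (Set.empty_subset _) (Set.Subset.refl _)

/-- Row D5. -/
private lemma D5_pi {p h : ℝ} (h0 : 0 ≤ p) (h1 : p ≤ 1) (hh0 : 0 ≤ h) (hh1 : h ≤ 1) {D D' A : Set V} (hD : D' ⊆ D) :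
    piS ends p h D A ≤ piS ends p h D' A := by
  unfold piS
  apply Ex_mono h0 h1
  intro ω
  exact gh_mono hh0 hh1 (Finset.card_le_card (cS_mono (fun _ h => h) hD (Set.Subset.refl _)))

/-- Row D5. -/
private lemma D5_pi0 {p h : ℝ} (h0 : 0 ≤ p) (h1 : p ≤ 1) (hh0 : 0 ≤ h) (hh1 : h ≤ 1) (D A : Set V) :
    0 ≤ piS ends p h D A := by
  unfold piS
  exact Ex_nonneg h0 h1 fun ω => gh_nonneg hh0 hh1 _

/-- Row D5. -/
private lemma D5_avoid (ω : E → Bool) (u v : V) (hv : v ∉ cu ends ω u) :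
    cS ends ω ((cu ends ω u : Finset V) : Set V) {v} = cu ends ω v := by
  have h := cS_avoid (ends := ends) (ω := ω) (D := (∅ : Set V)) (D' := ((cu ends ω u : Finset V) : Set V)) (A := {v}) (by
    intro y hy hyu
    rw [D5_cu] at hy
    have hyu' : y ∈ cu ends ω u := hyu
    have h2 := cu_eq hyu'
    have h3 := cu_eq hy
    apply hv
    rw [← h2, h3]
    exact self_mem_cu ω v)
  rw [Set.empty_union] at h
  rw [h, D5_cu]

open scoped Classical in
/-- Row D5. -/
private lemma D5_term (p h : ℝ) (u v : V) :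
    Ex p (fun ω => if v ∉ cu ends ω u then fh h (cu ends ω u).card * gh h (cu ends ω v).card else (0 : ℝ)) = q0 ends p h u v := by
  have hf := fresh (ends := ends) p (∅ : Set V) {u}
    (fun S ω => if v ∈ S then (0 : ℝ) else fh h S.card * gh h (cS ends ω (∅ ∪ (S : Set V)) {v}).card) (by
      intro S ω ω' hS
      have := off_dep (ends := ends) (ω := ω) (ω' := ω') (D := (∅ : Set V)) (A := {v}) S hS
      simp only [this])
  simp only [D5_cu, Set.empty_union] at hf
  have hl : Ex p (fun ω => if v ∉ cu ends ω u then fh h (cu ends ω u).card * gh h (cu ends ω v).card else (0 : ℝ)) =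
      Ex p (fun ω => if v ∈ cu ends ω u then (0 : ℝ) else fh h (cu ends ω u).card * gh h (cS ends ω ((cu ends ω u : Finset V) : Set V) {v}).card) := by
    apply Ex_congr
    intro ω
    by_cases hv : v ∈ cu ends ω u
    · simp only [hv, not_true, if_false, if_true]
    · simp only [hv, not_false_iff, if_true, if_false, D5_avoid ω u v hv]
  rw [hl, hf]
  unfold q0 piS
  apply Ex_congr
  intro ω
  by_cases hv : v ∈ cu ends ω u
  · simp only [hv, if_true]
    exact Ex_const p 0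
  · simp only [hv, if_false]
    exact Ex_mul_left p _ _

open scoped Classical in
/-- Row D5. `fresh` with `D = ∅`, `A = {u}`: given `cu ω u` not containing `v`, the cluster `cu ω v` is `cS ω (cu ω u) {v}` (`cS_avoid`) and fresh. -/
lemma AA_q0 (p h : ℝ) (u : V) : AA ends p h u = ∑ v, (if ∃ e, ends e = s(u, v) then q0 ends p h u v else 0) := by
  unfold AA
  rw [Ex_sum]
  apply Finset.sum_congr rfl
  intro v _
  by_cases he : ∃ e, ends e = s(u, v)
  · rw [if_pos he, ← D5_term]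
    apply Ex_congr
    intro ω
    by_cases hv : v ∈ cu ends ω u
    · simp only [hv, not_true, and_false, if_false]
    · simp only [he, hv, not_false_iff, and_self, if_true]
  · rw [if_neg he]
    apply Ex_zero_of
    intro ω
    rw [if_neg (fun hc => he hc.1)]

/-- Row D5. `cS ω Qᶜ {u} ⊆ cu ω u`, `piS` is decreasing in the deleted set. -/
lemma q0_q1 {p h : ℝ} (h0 : 0 ≤ p) (h1 : p ≤ 1) (hh0 : 0 ≤ h) (hh1 : h ≤ 1) (Q : Set V) (T : Finset V) (u v : V) :
    q0 ends p h u v ≤ q1 ends p h Q T u v := by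
  unfold q0 q1
  apply Ex_mono h0 h1
  intro ω
  have hsub := D5_sub (ends := ends) ω Qᶜ u
  have hfh := fh_nonneg hh0 hh1 (cu ends ω u).card
  by_cases c1 : v ∈ cS ends ω Qᶜ {u}
  · simp only [c1, hsub c1, if_true, le_refl]
  · by_cases c2 : v ∈ cu ends ω u
    · simp only [c1, c2, if_true, if_false]
      exact mul_nonneg hfh (D5_pi0 h0 h1 hh0 hh1 _ _)
    · simp only [c1, c2, if_false]
      refine mul_le_mul_of_nonneg_left (D5_pi h0 h1 hh0 hh1 ?_) hfh
      intro x hx
      exact hsub (Finset.mem_of_mem_inter_left (Finset.mem_coe.1 hx))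

private lemma D6_cu (ω : E → Bool) (x : V) : cS ends ω ∅ {x} = cu ends ω x := by
  ext y
  rw [mem_cS, mem_cu]
  simp

private lemma D6_av (ω : E → Bool) (u v : V) (hv : v ∉ cu ends ω u) :
    cS ends ω (cu ends ω u : Set V) {v} = cu ends ω v := by
  have h1 : ∀ y ∈ cS ends ω ∅ {v}, y ∉ (cu ends ω u : Set V) := by
    intro y hy hy2
    rw [D6_cu] at hy
    rw [Finset.mem_coe] at hy2
    apply hv
    have h2 := cu_eq hy
    have h3 := cu_eq hy2
    rw [← h3, h2]
    exact self_mem_cu ω v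
  have h2 := cS_avoid (D := ∅) (D' := (cu ends ω u : Set V)) (A := {v}) (ω := ω) (ends := ends) h1
  rw [Set.empty_union, D6_cu] at h2
  exact h2

private lemma D6_sub (ω : E → Bool) (u : V) (Q : Set V) : cS ends ω Qᶜ {u} ⊆ cu ends ω u := by
  rw [← D6_cu]
  exact cS_mono (fun _ h => h) (Set.empty_subset _) (subset_refl _)

open scoped Classical in
private lemma D6_key {p h M tl : ℝ} (h0 : 0 ≤ p) (h1 : p ≤ 1) (hh0 : 0 ≤ h) (hh1 : h ≤ 1) (hM : Mb ends p h M) (T : Finset V) (K : ℕ) (v : V)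
    (htl : ∀ S : Set V, Ex p (fun ω => if K < (cS ends ω S {v}).card then (1 : ℝ) else 0) ≤ tl) (C W : Finset V) (hv : v ∉ C) (hW : W = C ∩ T) :
    piS ends p h (W : Set V) {v} ≤ piS ends p h (C : Set V) {v} +
      (M * Ex p (fun ω => if (cS ends ω (C : Set V) {v}).card ≤ K then
        ∑ s ∈ C \ T, ∑ s' ∈ cS ends ω (C : Set V) {v}, (if ∃ e, ends e = s(s, s') then (1 : ℝ) else 0) else 0) + (1 - h) ^ K * tl) := by
  have hM0 : 0 ≤ M := (Ex_nonneg h0 h1 (fun ω => gh_nonneg hh0 hh1 _)).trans (hM ∅ v)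
  have hcup : (W : Set V) ∪ ((C \ T : Finset V) : Set V) = (C : Set V) := by
    rw [← Finset.coe_union, hW]
    congr 1
    ext x
    simp only [Finset.mem_union, Finset.mem_inter, Finset.mem_sdiff]
    tauto
  have hWC : (W : Set V) ⊆ (C : Set V) := by
    rw [hW]
    exact Finset.coe_subset.2 Finset.inter_subset_left
  have hq : 0 ≤ 1 - h := by linarith
  have hq1 : 1 - h ≤ 1 := by linarith
  have e1 := off2 (ends := ends) h0 h1 hh0 hh1 hM (W : Set V) {v} (C \ T) (fun S => if S.card ≤ K then (1 : ℝ) else 0)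
    (fun S => by split_ifs <;> norm_num)
  rw [hcup] at e1
  have e2 : ∀ ω : E → Bool, gh h (cS ends ω (W : Set V) {v}).card ≤ gh h (cS ends ω (C : Set V) {v}).card +
      ((if (cS ends ω (C : Set V) {v}).card ≤ K then (1 : ℝ) else 0) * gh h (cS ends ω (W : Set V) {v} \ cS ends ω (C : Set V) {v}).card +
        (1 - h) ^ K * (if K < (cS ends ω (C : Set V) {v}).card then (1 : ℝ) else 0)) := by
    intro ω
    have hsub : cS ends ω (C : Set V) {v} ⊆ cS ends ω (W : Set V) {v} := cS_mono (fun _ h => h) hWC (subset_refl _)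
    have hcard : (cS ends ω (W : Set V) {v}).card = (cS ends ω (C : Set V) {v}).card +
        (cS ends ω (W : Set V) {v} \ cS ends ω (C : Set V) {v}).card := by
      have := Finset.card_sdiff_add_card_eq_card hsub
      omega
    by_cases hK : (cS ends ω (C : Set V) {v}).card ≤ K
    · rw [if_pos hK, if_neg (by omega)]
      rw [hcard]
      have := gh_add hh0 hh1 (cS ends ω (C : Set V) {v}).card (cS ends ω (W : Set V) {v} \ cS ends ω (C : Set V) {v}).card
      linarith
    · rw [if_neg hK, if_pos (by omega)]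
      have g1 := gh_le_one hh0 hh1 (cS ends ω (W : Set V) {v}).card
      have g2 : (1 - h) ^ (cS ends ω (C : Set V) {v}).card ≤ (1 - h) ^ K := pow_le_pow_of_le_one hq hq1 (by omega)
      have g3 : gh h (cS ends ω (C : Set V) {v}).card = 1 - (1 - h) ^ (cS ends ω (C : Set V) {v}).card := rfl
      rw [g3]
      linarith
  have e3 := Ex_mono h0 h1 e2
  rw [Ex_add, Ex_add, Ex_mul_left] at e3
  have e4 := htl (C : Set V)
  have e5 : (1 - h) ^ K * Ex p (fun ω => if K < (cS ends ω (C : Set V) {v}).card then (1 : ℝ) else 0) ≤ (1 - h) ^ K * tl :=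
    mul_le_mul_of_nonneg_left e4 (pow_nonneg hq K)
  have e6 : ∑ s ∈ C \ T, Ex p (fun ω => (if (cS ends ω (C : Set V) {v}).card ≤ K then (1 : ℝ) else 0) *
      (if s ∈ ({v} : Set V) ∨ ∃ s' ∈ cS ends ω (C : Set V) {v}, ∃ e, ends e = s(s, s') then (1 : ℝ) else 0)) ≤
      Ex p (fun ω => if (cS ends ω (C : Set V) {v}).card ≤ K then
        ∑ s ∈ C \ T, ∑ s' ∈ cS ends ω (C : Set V) {v}, (if ∃ e, ends e = s(s, s') then (1 : ℝ) else 0) else 0) := by
    rw [← Ex_sum]
    refine Ex_mono h0 h1 (fun ω => ?_)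
    by_cases hK : (cS ends ω (C : Set V) {v}).card ≤ K
    · rw [if_pos hK]
      simp only [one_mul, if_pos hK]
      refine Finset.sum_le_sum (fun s hs => ?_)
      have hnn : ∀ s' ∈ cS ends ω (C : Set V) {v}, (0 : ℝ) ≤ (if ∃ e, ends e = s(s, s') then (1 : ℝ) else 0) := by
        intro s' _
        split_ifs <;> norm_num
      by_cases hc : s ∈ ({v} : Set V) ∨ ∃ s' ∈ cS ends ω (C : Set V) {v}, ∃ e, ends e = s(s, s')
      · rw [if_pos hc]
        rcases hc with hc | ⟨s', hs', he⟩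
        · exfalso
          rw [Set.mem_singleton_iff] at hc
          subst hc
          exact hv (Finset.mem_sdiff.1 hs).1
        · have := Finset.single_le_sum hnn hs'
          rw [if_pos he] at this
          exact this
      · rw [if_neg hc]
        exact Finset.sum_nonneg hnn
    · rw [if_neg hK]
      simp only [if_neg hK, zero_mul, Finset.sum_const_zero]
      exact le_refl _
  have e7 := mul_le_mul_of_nonneg_left e6 hM0
  have e8 : Ex p (fun ω => (if (cS ends ω (C : Set V) {v}).card ≤ K then (1 : ℝ) else 0) * gh h (cS ends ω (W : Set V) {v} \ cS ends ω (C : Set V) {v}).card) ≤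
      M * Ex p (fun ω => if (cS ends ω (C : Set V) {v}).card ≤ K then
        ∑ s ∈ C \ T, ∑ s' ∈ cS ends ω (C : Set V) {v}, (if ∃ e, ends e = s(s, s') then (1 : ℝ) else 0) else 0) := by
    refine le_trans ?_ e7
    convert e1 using 10
    rfl
  unfold piS
  linarith

/-- Row D6. The difference. `C = cu ω u`, `B = cS ω Qᶜ {u}`, `W = B ∩ T`. Pointwise in `ω`, `fh |C| (1(v ∉ B) π(W,v) - 1(v ∉ C) π(C,v))` is at most `fh |C| M` if `v ∈ C \ B`, at most `fh |C| M` if some `s ∈ T` is in `C \ B`, at most `fh |C| M` if `|C| > K`. Otherwise `C ∩ T = W`, `v ∉ C`, `|C| ≤ K`: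
for a fresh configuration `ω'`, `Y = cS ω' C {v}`: `gh |cS ω' W {v}| - gh |Y| ≤ gh |cS ω' W {v} \ Y|` and `≤ 1 - gh |Y| = (1-h)^|Y|`. On `|Y| > K`: `≤ (1-h)^K`, expectation at most `(1-h)^K tl`. On `|Y| ≤ K`: `off2` with `D = W`, `D' = C \ T`, `A = {v}`, `X S = 1(|S| ≤ K)` (`v ∉ D'`):
at most `M ∑_{s ∈ C \ T} P'(|Y| ≤ K, s has a neighbour in Y) ≤ M E' ∑_{s ∈ C \ T} ∑_{s' ∈ Y} 1(s ~ s')`. `fresh` backwards: `Y` becomes `cS ω C {v} = cu ω v`: this is `M om`. -/
lemma q_diff {p h M tl : ℝ} (h0 : 0 ≤ p) (h1 : p ≤ 1) (hh0 : 0 ≤ h) (hh1 : h ≤ 1) (hM : Mb ends p h M) (Q : Set V) (T : Finset V) (K : ℕ) (u v : V) (huv : u ≠ v)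
    (htl : ∀ S : Set V, Ex p (fun ω => if K < (cS ends ω S {v}).card then (1 : ℝ) else 0) ≤ tl) :
    q1 ends p h Q T u v - q0 ends p h u v ≤
      M * Ex p (fun ω => if v ∈ cu ends ω u ∧ v ∉ cS ends ω Qᶜ {u} then fh h (cu ends ω u).card else (0 : ℝ)) +
      M * ∑ s ∈ T, Ex p (fun ω => if s ∈ cu ends ω u ∧ s ∉ cS ends ω Qᶜ {u} then fh h (cu ends ω u).card else (0 : ℝ)) +
      M * Ex p (fun ω => if K < (cu ends ω u).card then fh h (cu ends ω u).card else (0 : ℝ)) +
      Ex p (fun ω => fh h (cu ends ω u).card) * ((1 - h) ^ K * tl) + M * om ends p h T K u v := by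
  classical
  have hM0 : 0 ≤ M := (Ex_nonneg h0 h1 (fun ω => gh_nonneg hh0 hh1 _)).trans (hM ∅ v)
  have htl0 : 0 ≤ tl := (Ex_nonneg h0 h1 (fun ω => by split_ifs <;> norm_num)).trans (htl ∅)
  have hq : 0 ≤ 1 - h := by linarith
  have hKt : 0 ≤ (1 - h) ^ K * tl := mul_nonneg (pow_nonneg hq K) htl0
  -- the fresh configuration
  let G : Finset V → (E → Bool) → ℝ := fun S ω => if v ∉ S ∧ S.card ≤ K ∧ (cS ends ω (S : Set V) {v}).card ≤ K then
    fh h S.card * ∑ s ∈ S \ T, ∑ s' ∈ cS ends ω (S : Set V) {v}, (if ∃ e, ends e = s(s, s') then (1 : ℝ) else 0) else 0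
  have hom : om ends p h T K u v = Ex p (fun ω => G (cS ends ω ∅ {u}) ω) := by
    unfold om
    refine Ex_congr (fun ω => ?_)
    show _ = G (cS ends ω ∅ {u}) ω
    rw [D6_cu]
    simp only [G]
    by_cases hv : v ∈ cu ends ω u
    · rw [if_neg (by tauto), if_neg (by tauto)]
    · rw [D6_av ω u v hv]
  have hfr : Ex p (fun ω => G (cS ends ω ∅ {u}) ω) = Ex p (fun ω => Ex p (fun ω' => G (cS ends ω ∅ {u}) ω')) := by
    refine fresh p ∅ {u} G ?_
    intro S ω ω' hS
    have h3 := off_dep (ends := ends) (D := ∅) (A := {v}) S hS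
    rw [Set.empty_union] at h3
    simp only [G, h3]
  have key : ∀ ω : E → Bool, (if v ∈ cS ends ω Qᶜ {u} then (0 : ℝ) else fh h (cu ends ω u).card * piS ends p h ((cS ends ω Qᶜ {u} ∩ T : Finset V) : Set V) {v}) ≤
      (if v ∈ cu ends ω u then (0 : ℝ) else fh h (cu ends ω u).card * piS ends p h (cu ends ω u : Set V) {v}) +
      (M * (if v ∈ cu ends ω u ∧ v ∉ cS ends ω Qᶜ {u} then fh h (cu ends ω u).card else (0 : ℝ)) +
      (M * ∑ s ∈ T, (if s ∈ cu ends ω u ∧ s ∉ cS ends ω Qᶜ {u} then fh h (cu ends ω u).card else (0 : ℝ)) +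
      (M * (if K < (cu ends ω u).card then fh h (cu ends ω u).card else (0 : ℝ)) +
      (((1 - h) ^ K * tl) * fh h (cu ends ω u).card + M * Ex p (fun ω' => G (cu ends ω u) ω'))))) := by
    intro ω
    have hf : 0 ≤ fh h (cu ends ω u).card := fh_nonneg hh0 hh1 _
    have hG0 : 0 ≤ Ex p (fun ω' => G (cu ends ω u) ω') := by
      refine Ex_nonneg h0 h1 (fun ω' => ?_)
      simp only [G]
      split_ifs
      · exact mul_nonneg hf (Finset.sum_nonneg (fun s _ => Finset.sum_nonneg (fun s' _ => by split_ifs <;> norm_num)))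
      · exact le_refl _
    have ht1 : 0 ≤ (if v ∈ cu ends ω u ∧ v ∉ cS ends ω Qᶜ {u} then fh h (cu ends ω u).card else (0 : ℝ)) := by
      split_ifs
      · exact hf
      · exact le_refl _
    have ht2' : ∀ s ∈ T, 0 ≤ (if s ∈ cu ends ω u ∧ s ∉ cS ends ω Qᶜ {u} then fh h (cu ends ω u).card else (0 : ℝ)) := by
      intro s _
      split_ifs
      · exact hf
      · exact le_refl _
    have ht2 := Finset.sum_nonneg ht2'
    have ht3 : 0 ≤ (if K < (cu ends ω u).card then fh h (cu ends ω u).card else (0 : ℝ)) := by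
      split_ifs
      · exact hf
      · exact le_refl _
    have m1 := mul_nonneg hM0 ht1
    have m2 := mul_nonneg hM0 ht2
    have m3 := mul_nonneg hM0 ht3
    have m4 := mul_nonneg hKt hf
    have m5 := mul_nonneg hM0 hG0
    have hpC : 0 ≤ piS ends p h (cu ends ω u : Set V) {v} := Ex_nonneg h0 h1 (fun ω => gh_nonneg hh0 hh1 _)
    have hpW : piS ends p h ((cS ends ω Qᶜ {u} ∩ T : Finset V) : Set V) {v} ≤ M := hM _ v
    have hfM : fh h (cu ends ω u).card * piS ends p h ((cS ends ω Qᶜ {u} ∩ T : Finset V) : Set V) {v} ≤ M * fh h (cu ends ω u).card := by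
      rw [mul_comm M]
      exact mul_le_mul_of_nonneg_left hpW hf
    have hF0 : 0 ≤ (if v ∈ cu ends ω u then (0 : ℝ) else fh h (cu ends ω u).card * piS ends p h (cu ends ω u : Set V) {v}) := by
      split_ifs
      · exact le_refl _
      · exact mul_nonneg hf hpC
    by_cases hvB : v ∈ cS ends ω Qᶜ {u}
    · rw [if_pos hvB]
      linarith
    rw [if_neg hvB]
    by_cases hvC : v ∈ cu ends ω u
    · have e1 : (if v ∈ cu ends ω u ∧ v ∉ cS ends ω Qᶜ {u} then fh h (cu ends ω u).card else (0 : ℝ)) = fh h (cu ends ω u).card := if_pos ⟨hvC, hvB⟩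
      rw [e1]
      linarith
    by_cases hs : ∃ s ∈ T, s ∈ cu ends ω u ∧ s ∉ cS ends ω Qᶜ {u}
    · obtain ⟨s, hsT, hs2⟩ := hs
      have e2 := Finset.single_le_sum ht2' hsT
      rw [if_pos hs2] at e2
      have e3 := mul_le_mul_of_nonneg_left e2 hM0
      linarith
    by_cases hK : K < (cu ends ω u).card
    · have e1 : (if K < (cu ends ω u).card then fh h (cu ends ω u).card else (0 : ℝ)) = fh h (cu ends ω u).card := if_pos hK
      rw [e1]
      linarith
    rw [if_neg hvC]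
    have hW : (cS ends ω Qᶜ {u} ∩ T : Finset V) = cu ends ω u ∩ T := by
      ext x
      rw [Finset.mem_inter, Finset.mem_inter]
      constructor
      · rintro ⟨a, b⟩
        exact ⟨D6_sub ω u Q a, b⟩
      · rintro ⟨a, b⟩
        refine ⟨?_, b⟩
        by_contra hx
        exact hs ⟨x, b, a, hx⟩
    have k1 := D6_key h0 h1 hh0 hh1 hM T K v htl (cu ends ω u) (cS ends ω Qᶜ {u} ∩ T) hvC hW
    have k2 := mul_le_mul_of_nonneg_left k1 hf
    have k3 : Ex p (fun ω' => G (cu ends ω u) ω') = fh h (cu ends ω u).card * Ex p (fun ω' => if (cS ends ω' (cu ends ω u : Set V) {v}).card ≤ K then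
        ∑ s ∈ cu ends ω u \ T, ∑ s' ∈ cS ends ω' (cu ends ω u : Set V) {v}, (if ∃ e, ends e = s(s, s') then (1 : ℝ) else 0) else 0) := by
      rw [← Ex_mul_left]
      refine Ex_congr (fun ω' => ?_)
      simp only [G]
      by_cases hY : (cS ends ω' (cu ends ω u : Set V) {v}).card ≤ K
      · rw [if_pos ⟨hvC, by omega, hY⟩, if_pos hY]
      · rw [if_neg (by tauto), if_neg hY, mul_zero]
    rw [k3]
    nlinarith
  have e1 := Ex_mono h0 h1 key
  rw [Ex_add, Ex_add, Ex_add, Ex_add, Ex_add, Ex_mul_left, Ex_mul_left, Ex_mul_left, Ex_mul_left, Ex_mul_left, Ex_sum] at e1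
  have e2 : Ex p (fun ω => Ex p (fun ω' => G (cu ends ω u) ω')) = om ends p h T K u v := by
    rw [hom, hfr]
    refine Ex_congr (fun ω => ?_)
    rw [D6_cu]
  rw [e2] at e1
  unfold q1 q0
  linarith

open scoped Classical in
/-- The near contacts: both inside of `Q'`. -/
noncomputable def xN (ends : E → Sym2 V) (h : ℝ) (Q' : Set V) (T : Finset V) (u v : V) (ω : E → Bool) : ℝ :=
  if v ∉ cu ends ω u then
    fh h (cu ends ω u).card * ∑ s ∈ cS ends ω Q'ᶜ {u} \ T, ∑ s' ∈ cS ends ω Q'ᶜ {v}, (if ∃ e, ends e = s(s, s') then (1 : ℝ) else 0) else 0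

open scoped Classical in
/-- The far contacts. -/
noncomputable def xF (ends : E → Sym2 V) (h : ℝ) (Q' : Set V) (K : ℕ) (u v : V) (ω : E → Bool) : ℝ :=
  if v ∉ cu ends ω u ∧ (cu ends ω u).card ≤ K ∧ (cu ends ω v).card ≤ K then
    fh h (cu ends ω u).card * ∑ s ∈ cu ends ω u, ∑ s' ∈ cu ends ω v,
      (if (∃ e, ends e = s(s, s')) ∧ ¬ (s ∈ cS ends ω Q'ᶜ {u} ∧ s' ∈ cS ends ω Q'ᶜ {v}) then (1 : ℝ) else 0) else 0

open scoped Classical in
/-- Row D7a, the double sums. -/
private lemma D7a_sum (A A' B B' T : Finset V) :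
    ∑ s ∈ A \ T, ∑ s' ∈ A', (if ∃ e, ends e = s(s, s') then (1 : ℝ) else 0) ≤
      ∑ s ∈ B \ T, ∑ s' ∈ B', (if ∃ e, ends e = s(s, s') then (1 : ℝ) else 0) +
      ∑ s ∈ A, ∑ s' ∈ A', (if (∃ e, ends e = s(s, s')) ∧ ¬ (s ∈ B ∧ s' ∈ B') then (1 : ℝ) else 0) := by
  have h1 : ∀ s s' : V, (if ∃ e, ends e = s(s, s') then (1 : ℝ) else 0) =
      (if s ∈ B then (if s' ∈ B' then (if ∃ e, ends e = s(s, s') then (1 : ℝ) else 0) else 0) else 0) +
      (if (∃ e, ends e = s(s, s')) ∧ ¬ (s ∈ B ∧ s' ∈ B') then (1 : ℝ) else 0) := by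
    intro s s'
    by_cases a1 : ∃ e, ends e = s(s, s') <;> by_cases a2 : s ∈ B <;> by_cases a3 : s' ∈ B' <;>
      simp [a1, a2, a3]
  have h2 : ∑ s ∈ A \ T, ∑ s' ∈ A', (if ∃ e, ends e = s(s, s') then (1 : ℝ) else 0) =
      ∑ s ∈ A \ T, ∑ s' ∈ A', (if s ∈ B then (if s' ∈ B' then (if ∃ e, ends e = s(s, s') then (1 : ℝ) else 0) else 0) else 0) +
      ∑ s ∈ A \ T, ∑ s' ∈ A', (if (∃ e, ends e = s(s, s')) ∧ ¬ (s ∈ B ∧ s' ∈ B') then (1 : ℝ) else 0) := by
    rw [← Finset.sum_add_distrib]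
    apply Finset.sum_congr rfl
    intro s _
    rw [← Finset.sum_add_distrib]
    exact Finset.sum_congr rfl fun s' _ => h1 s s'
  rw [h2]
  have n1 : ∀ s s' : V, (0 : ℝ) ≤ (if ∃ e, ends e = s(s, s') then (1 : ℝ) else 0) := by
    intro s s'; split_ifs <;> norm_num
  have n2 : ∀ s s' : V, (0 : ℝ) ≤ (if (∃ e, ends e = s(s, s')) ∧ ¬ (s ∈ B ∧ s' ∈ B') then (1 : ℝ) else 0) := by
    intro s s'; split_ifs <;> norm_num
  apply add_le_add
  · have h3 : ∑ s ∈ A \ T, ∑ s' ∈ A', (if s ∈ B then (if s' ∈ B' then (if ∃ e, ends e = s(s, s') then (1 : ℝ) else 0) else 0) else 0) =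
        ∑ s ∈ (A \ T).filter (fun s => s ∈ B), ∑ s' ∈ A'.filter (fun s' => s' ∈ B'), (if ∃ e, ends e = s(s, s') then (1 : ℝ) else 0) := by
      rw [Finset.sum_filter]
      apply Finset.sum_congr rfl
      intro s _
      by_cases a : s ∈ B
      · simp only [if_pos a]
        rw [Finset.sum_filter]
      · simp only [if_neg a]
        exact Finset.sum_const_zero
    rw [h3]
    have hs1 : (A \ T).filter (fun s => s ∈ B) ⊆ B \ T := by
      intro s hs
      rw [Finset.mem_filter, Finset.mem_sdiff] at hs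
      exact Finset.mem_sdiff.2 ⟨hs.2, hs.1.2⟩
    have hs2 : A'.filter (fun s' => s' ∈ B') ⊆ B' := by
      intro s hs
      exact (Finset.mem_filter.1 hs).2
    calc _ ≤ ∑ s ∈ B \ T, ∑ s' ∈ A'.filter (fun s' => s' ∈ B'), (if ∃ e, ends e = s(s, s') then (1 : ℝ) else 0) :=
          Finset.sum_le_sum_of_subset_of_nonneg hs1 fun s _ _ => Finset.sum_nonneg fun s' _ => n1 s s'
      _ ≤ _ := Finset.sum_le_sum fun s _ =>
          Finset.sum_le_sum_of_subset_of_nonneg hs2 fun s' _ _ => n1 s s'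
  · exact Finset.sum_le_sum_of_subset_of_nonneg Finset.sdiff_subset
      fun s _ _ => Finset.sum_nonneg fun s' _ => n2 s s'

/-- Row D7. Pointwise. -/
lemma om_split {p h : ℝ} (h0 : 0 ≤ p) (h1 : p ≤ 1) (hh0 : 0 ≤ h) (hh1 : h ≤ 1) (Q' : Set V) (T : Finset V) (K : ℕ) (u v : V) :
    om ends p h T K u v ≤ Ex p (xN ends h Q' T u v) + Ex p (xF ends h Q' K u v) := by
  classical
  rw [← Ex_add]
  unfold om
  apply Ex_mono h0 h1
  intro ω
  have hf : 0 ≤ fh h (cu ends ω u).card := fh_nonneg hh0 hh1 _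
  have hN : 0 ≤ xN ends h Q' T u v ω := by
    unfold xN
    by_cases hv : v ∉ cu ends ω u
    · rw [if_pos hv]
      exact mul_nonneg hf (Finset.sum_nonneg fun s _ => Finset.sum_nonneg fun s' _ => by
        split_ifs <;> norm_num)
    · rw [if_neg hv]
  have hF : 0 ≤ xF ends h Q' K u v ω := by
    unfold xF
    by_cases hv : v ∉ cu ends ω u ∧ (cu ends ω u).card ≤ K ∧ (cu ends ω v).card ≤ K
    · rw [if_pos hv]
      exact mul_nonneg hf (Finset.sum_nonneg fun s _ => Finset.sum_nonneg fun s' _ => by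
        split_ifs <;> norm_num)
    · rw [if_neg hv]
  by_cases hc : v ∉ cu ends ω u ∧ (cu ends ω u).card ≤ K ∧ (cu ends ω v).card ≤ K
  · rw [if_pos hc]
    unfold xN xF
    rw [if_pos hc, if_pos hc.1, ← mul_add]
    exact mul_le_mul_of_nonneg_left (D7a_sum _ _ _ _ _) hf
  · rw [if_neg hc]
    exact add_nonneg hN hF

/-- Row D7b. The cluster is the cluster off the empty set. -/
private lemma D7b_cu (ω : E → Bool) (u : V) : cu ends ω u = cS ends ω ∅ {u} := by
  ext z
  rw [mem_cu, mem_cS]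
  simp

/-- Row D7b. Exploration of both clusters of `u`. -/
private lemma D7b_joint {p h : ℝ} (h0 : 0 ≤ p) (h1 : p ≤ 1) (hh0 : 0 ≤ h) (hh1 : h ≤ 1) (Q' : Set V) (u v s s' : V) :
    Ex p (fun ω => gh h (cS ends ω ∅ {u}).card * (if s ∈ cS ends ω Q'ᶜ {u} then (1 : ℝ) else 0) *
      (if s' ∈ cS ends ω (Q'ᶜ ∪ ((cS ends ω ∅ {u} : Finset V) : Set V)) {v} then (1 : ℝ) else 0)) ≤
    Ex p (fun ω => if s ∈ cS ends ω Q'ᶜ {u} then gh h (cS ends ω ∅ {u}).card else (0 : ℝ)) * tS ends Q' p v s' := by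
  classical
  have key := explore_gen (α := Finset V × Finset V) p
    (fun ω => (cS ends ω ∅ {u}, cS ends ω Q'ᶜ {u}))
    (fun S => {e | ¬ ∀ a b, ends e = s(a, b) → a ∉ S.1 ∧ b ∉ S.1}) (by
      intro ω ω' hω
      have hω' : ∀ e a b, ends e = s(a, b) → a ∈ cS ends ω ∅ {u} → ω e = ω' e := by
        intro e a b he ha
        apply hω e
        intro hcon
        exact (hcon a b he).1 ha
      refine Prod.ext ?_ ?_
      · exact cS_dep fun e a b he ha _ => hω' e a b he ha
      · refine cS_dep fun e a b he ha _ => hω' e a b he ?_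
        exact cS_mono (fun _ h => h) (Set.empty_subset _) (le_refl _) ha)
    (fun S ω => gh h S.1.card * (if s ∈ S.2 then (1 : ℝ) else 0) *
      (if s' ∈ cS ends ω (Q'ᶜ ∪ (S.1 : Set V)) {v} then (1 : ℝ) else 0)) (by
      intro S ω ω' hω
      have : cS ends ω (Q'ᶜ ∪ (S.1 : Set V)) {v} = cS ends ω' (Q'ᶜ ∪ (S.1 : Set V)) {v} := by
        refine off_dep S.1 fun e he => hω e ?_
        intro hcon
        exact hcon he
      simp only [this])
  simp only at key
  rw [key]
  rw [mul_comm (Ex p _) (tS ends Q' p v s'), ← Ex_mul_left]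
  refine Ex_mono h0 h1 fun ω => ?_
  rw [Ex_mul_left]
  have hle : Ex p (fun ω' => if s' ∈ cS ends ω' (Q'ᶜ ∪ ((cS ends ω ∅ {u} : Finset V) : Set V)) {v} then (1 : ℝ) else 0)
      ≤ tS ends Q' p v s' := by
    refine Ex_mono h0 h1 fun ω' => ?_
    by_cases hs : s' ∈ cS ends ω' (Q'ᶜ ∪ ((cS ends ω ∅ {u} : Finset V) : Set V)) {v}
    · have hs2 : s' ∈ cS ends ω' Q'ᶜ {v} :=
        cS_mono (fun _ h => h) Set.subset_union_left (le_refl _) hs
      rw [if_pos hs, if_pos hs2]
    · rw [if_neg hs]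
      split_ifs <;> norm_num
  have hg := gh_nonneg hh0 hh1 (cS ends ω ∅ {u}).card
  by_cases hs : s ∈ cS ends ω Q'ᶜ {u}
  · rw [if_pos hs, if_pos hs, mul_one, mul_comm]
    gcongr
  · rw [if_neg hs, if_neg hs]
    simp

/-- Row D7b. Pointwise. -/
private lemma D7b_pt {h : ℝ} (hh0 : 0 < h) (hh1 : h ≤ 1) (Q' : Set V) (T : Finset V) (u v : V) (ω : E → Bool) :
    xN ends h Q' T u v ω ≤ ∑ s ∈ Tᶜ, ∑ s', (if ∃ e, ends e = s(s, s') then
      (1 / h) * (gh h (cS ends ω ∅ {u}).card * (if s ∈ cS ends ω Q'ᶜ {u} then (1 : ℝ) else 0) *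
        (if s' ∈ cS ends ω (Q'ᶜ ∪ ((cS ends ω ∅ {u} : Finset V) : Set V)) {v} then (1 : ℝ) else 0)) else 0) := by
  classical
  have hg := gh_nonneg hh0.le hh1 (cS ends ω ∅ {u}).card
  unfold xN
  by_cases hv : v ∈ cu ends ω u
  · rw [if_neg (not_not.2 hv)]
    refine Finset.sum_nonneg fun s _ => Finset.sum_nonneg fun s' _ => ?_
    by_cases he : ∃ e, ends e = s(s, s')
    · rw [if_pos he]
      have e1 : (0 : ℝ) ≤ if s ∈ cS ends ω Q'ᶜ {u} then (1 : ℝ) else 0 := by split_ifs <;> norm_num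
      have e2 : (0 : ℝ) ≤ if s' ∈ cS ends ω (Q'ᶜ ∪ ((cS ends ω ∅ {u} : Finset V) : Set V)) {v} then (1 : ℝ) else 0 := by
        split_ifs <;> norm_num
      positivity
    · rw [if_neg he]
  · rw [if_pos hv]
    have hav : cS ends ω (Q'ᶜ ∪ ((cS ends ω ∅ {u} : Finset V) : Set V)) {v} = cS ends ω Q'ᶜ {v} := by
      refine cS_avoid fun y hy hy2 => hv ?_
      have hy3 : y ∈ cu ends ω v := by
        rw [D7b_cu]
        exact cS_mono (fun _ h => h) (Set.empty_subset _) (le_refl _) hy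
      have hy4 : y ∈ cu ends ω u := by
        rw [D7b_cu]
        exact_mod_cast hy2
      rw [← cu_eq hy4]
      exact cu_symm.1 hy3
    rw [hav, D7b_cu]
    have hf : fh h (cS ends ω ∅ {u}).card ≤ (1 / h) * gh h (cS ends ω ∅ {u}).card := by
      have := fh_le hh0.le hh1 (cS ends ω ∅ {u}).card
      rw [one_div, inv_mul_eq_div, le_div_iff₀ hh0, mul_comm]
      exact this
    have hset : cS ends ω Q'ᶜ {u} \ T = Tᶜ.filter (fun s => s ∈ cS ends ω Q'ᶜ {u}) := by
      ext z
      simp [and_comm]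
    rw [hset, Finset.sum_filter, Finset.mul_sum]
    refine Finset.sum_le_sum fun s _ => ?_
    by_cases hs : s ∈ cS ends ω Q'ᶜ {u}
    · simp only [if_pos hs, mul_one]
      have hset2 : cS ends ω Q'ᶜ {v} = Finset.univ.filter (fun s' => s' ∈ cS ends ω Q'ᶜ {v}) := by
        ext z
        simp
      rw [hset2, Finset.sum_filter, Finset.mul_sum]
      simp only [Finset.mem_filter, Finset.mem_univ, true_and]
      refine Finset.sum_le_sum fun s' _ => ?_
      by_cases hs' : s' ∈ cS ends ω Q'ᶜ {v}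
      · simp only [if_pos hs', mul_one]
        by_cases he : ∃ e, ends e = s(s, s')
        · simp only [if_pos he, mul_one]
          exact hf
        · simp only [if_neg he, mul_zero, le_refl]
      · simp only [if_neg hs', mul_zero, ite_self, le_refl]
    · simp only [if_neg hs, mul_zero, zero_mul, ite_self, Finset.sum_const_zero, le_refl]

open scoped Classical in
/-- Row D7. Near: `v ∉ cu ω u`: `cS ω Q'ᶜ {v} = cS ω (C ∪ Q'ᶜ) {v}` with `C = cu ω u`: `fresh`: given `C` the probability of `s' ∈` it is at most `tS Q' p v s'`. Then `fh ≤ gh / h` and `fork` with `D = ∅`, `Q = Q'`. -/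
lemma xN_le {p h M : ℝ} (h0 : 0 ≤ p) (h1 : p ≤ 1) (hh0 : 0 < h) (hh1 : h ≤ 1) (hM : Mb ends p h M) (Q' : Set V) (T : Finset V) (u v : V) :
    Ex p (xN ends h Q' T u v) ≤ M / h * ∑ s ∈ Tᶜ, ∑ s', (if ∃ e, ends e = s(s, s') then (∑ z, tS ends Q' p u z * tS ends Q' p z s) * tS ends Q' p v s' else (0 : ℝ)) := by
  have step1 : Ex p (xN ends h Q' T u v) ≤ Ex p (fun ω => ∑ s ∈ Tᶜ, ∑ s', (if ∃ e, ends e = s(s, s') then
      (1 / h) * (gh h (cS ends ω ∅ {u}).card * (if s ∈ cS ends ω Q'ᶜ {u} then (1 : ℝ) else 0) *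
        (if s' ∈ cS ends ω (Q'ᶜ ∪ ((cS ends ω ∅ {u} : Finset V) : Set V)) {v} then (1 : ℝ) else 0)) else 0)) :=
    Ex_mono h0 h1 (D7b_pt hh0 hh1 Q' T u v)
  refine step1.trans ?_
  rw [Ex_sum, Finset.mul_sum]
  refine Finset.sum_le_sum fun s _ => ?_
  rw [Ex_sum, Finset.mul_sum]
  refine Finset.sum_le_sum fun s' _ => ?_
  by_cases he : ∃ e, ends e = s(s, s')
  · simp only [if_pos he]
    rw [Ex_mul_left]
    have k1 := D7b_joint (ends := ends) h0 h1 hh0.le hh1 Q' u v s s'
    have k2 := fork h0 h1 hh0.le hh1 hM ∅ Q' u s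
    rw [Set.empty_union] at k2
    have k3 : 0 ≤ tS ends Q' p v s' := Ex_nonneg h0 h1 fun ω => by split_ifs <;> norm_num
    calc (1 / h) * Ex p (fun ω => gh h (cS ends ω ∅ {u}).card * (if s ∈ cS ends ω Q'ᶜ {u} then (1 : ℝ) else 0) *
          (if s' ∈ cS ends ω (Q'ᶜ ∪ ((cS ends ω ∅ {u} : Finset V) : Set V)) {v} then (1 : ℝ) else 0))
        ≤ (1 / h) * (Ex p (fun ω => if s ∈ cS ends ω Q'ᶜ {u} then gh h (cS ends ω ∅ {u}).card else (0 : ℝ)) *
          tS ends Q' p v s') := by gcongr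
      _ ≤ (1 / h) * ((M * ∑ z, tS ends Q' p u z * tS ends Q' p z s) * tS ends Q' p v s') := by gcongr
      _ = M / h * ((∑ z, tS ends Q' p u z * tS ends Q' p z s) * tS ends Q' p v s') := by ring
  · simp only [if_neg he]
    rw [Ex_const, mul_zero]

private lemma D8a_cS (ω : E → Bool) (x : V) : cS ends ω ∅ {x} = cu ends ω x := by
  ext y
  rw [mem_cS, mem_cu]
  simp

private lemma D8a_off {ω : E → Bool} {x y z : V} (h : y ∉ cu ends ω x) (hz : z ∈ cu ends ω y) :
    z ∉ cu ends ω x := by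
  intro hz'
  apply h
  rw [← cu_eq hz', cu_eq hz]
  exact self_mem_cu ω y

private lemma D8a_c1 {ω : E → Bool} {x y : V} (h : y ∉ cu ends ω x) :
    cS ends ω (cu ends ω x : Set V) {y} = cu ends ω y := by
  have h1 : cS ends ω (∅ ∪ (cu ends ω x : Set V)) {y} = cS ends ω ∅ {y} := by
    apply cS_avoid
    intro z hz
    rw [D8a_cS] at hz
    exact fun hz' => D8a_off h hz (by simpa using hz')
  rw [Set.empty_union] at h1
  rw [h1, D8a_cS]

private lemma D8a_c2 {ω : E → Bool} {x y : V} (h : y ∉ cu ends ω x) (Q : Set V) :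
    cS ends ω ((cu ends ω x : Set V) ∪ Qᶜ) {y} = cS ends ω Qᶜ {y} := by
  rw [Set.union_comm]
  apply cS_avoid
  intro z hz
  have hz1 : z ∈ cS ends ω ∅ {y} :=
    cS_mono (fun _ h => h) (Set.empty_subset _) (le_refl _) hz
  rw [D8a_cS] at hz1
  exact fun hz' => D8a_off h hz1 (by simpa using hz')

open scoped Classical in
private lemma D8a_fr {p : ℝ} (h0 : 0 ≤ p) (h1 : p ≤ 1) (x y : V) (X : Finset V → ℝ)
    (hX : ∀ S, 0 ≤ X S) (Y : Finset V → Finset V → ℝ) (B : ℝ) (hB0 : 0 ≤ B) (Q : Set V)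
    (hB : ∀ S : Finset V, Ex p (fun ω => Y (cS ends ω (S : Set V) {y})
      (cS ends ω ((S : Set V) ∪ Qᶜ) {y})) ≤ B) :
    Ex p (fun ω => if y ∉ cu ends ω x then X (cu ends ω x) * Y (cu ends ω y) (cS ends ω Qᶜ {y})
      else 0) ≤ Ex p (fun ω => X (cu ends ω x)) * B := by
  have e1 : Ex p (fun ω => if y ∉ cu ends ω x then X (cu ends ω x) *
      Y (cu ends ω y) (cS ends ω Qᶜ {y}) else 0) =
      Ex p (fun ω => (fun (S : Finset V) (ω : E → Bool) => (if y ∉ S then X S else 0) *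
        Y (cS ends ω (S : Set V) {y}) (cS ends ω ((S : Set V) ∪ Qᶜ) {y}))
        (cS ends ω ∅ {x}) ω) := by
    apply Ex_congr
    intro ω
    simp only [D8a_cS]
    by_cases h : y ∉ cu ends ω x
    · rw [if_pos h, if_pos h, D8a_c1 h, D8a_c2 h]
    · rw [if_neg h, if_neg h, zero_mul]
  have e3 := fresh (ends := ends) p ∅ {x}
    (fun (S : Finset V) (ω : E → Bool) => (if y ∉ S then X S else 0) *
        Y (cS ends ω (S : Set V) {y}) (cS ends ω ((S : Set V) ∪ Qᶜ) {y}))
    (by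
      intro S ω ω' h
      have a1 : cS ends ω (∅ ∪ (S : Set V)) {y} = cS ends ω' (∅ ∪ (S : Set V)) {y} := off_dep S h
      have a2 : cS ends ω (Qᶜ ∪ (S : Set V)) {y} = cS ends ω' (Qᶜ ∪ (S : Set V)) {y} :=
        off_dep S h
      rw [Set.empty_union] at a1
      rw [Set.union_comm] at a2
      simp only [a1, a2])
  rw [e1]
  refine (le_of_eq e3).trans ?_
  have e2 : Ex p (fun ω => X (cu ends ω x)) * B = Ex p (fun ω => B * X (cu ends ω x)) := by
    rw [Ex_mul_left, mul_comm]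
  rw [e2]
  apply Ex_mono h0 h1
  intro ω
  simp only [D8a_cS]
  rw [Ex_mul_left]
  have hS := hB (cu ends ω x)
  have hX' := hX (cu ends ω x)
  by_cases h : y ∉ cu ends ω x
  · rw [if_pos h, mul_comm]
    exact mul_le_mul_of_nonneg_right hS hX'
  · rw [if_neg h, zero_mul]
    exact mul_nonneg hB0 hX'

open scoped Classical in
/-- Row D8. Far, at `q` (later `q = pc`). `k 1(k ≤ K) ≤ (1 + K h) gh h k / h` (`gh h k ≥ hk/(1+hk)`). `1(¬(a ∧ b)) ≤ 1(¬ a) + 1(¬ b)`. Given `C = cu ω u`: `P'(s' ∈ cS C {v}) ≤ ta v s'`; `P'(s' ∈ cS C {v}, s' ∉ cS (C ∪ Q'ᶜ) {v}) ≤ ∑_{z ∈ P} ta v z ta z s'` (`outp`; `v ∈ Q'`).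
`E[gh |C|; s ∈ C] ≤ M ∑_z ta u z ta z s` (`fork` with `D = ∅`, `Q = univ`, `tS univ = ta`), `E[gh |C|; s ∈ C, s ∉ cS Q'ᶜ {u}]`: `fork_out`. -/
lemma xF_q {q h M : ℝ} (h0 : 0 ≤ q) (h1 : q ≤ 1) (hh0 : 0 < h) (hh1 : h ≤ 1) (hM : Mb ends q h M) (Q' : Set V) (P : Finset V) (K : ℕ) (u v : V) (hu : u ∈ Q') (hv : v ∈ Q')
    (hP : ∀ e x y, ends e = s(x, y) → x ∈ Q' → y ∉ Q' → x ∈ P) :
    Ex q (xF ends h Q' K u v) ≤ (1 + K * h) * (M / h) * ∑ s, ∑ s', (if ∃ e, ends e = s(s, s') then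
      (∑ z, ta ends q u z * ta ends q z s) * (∑ z ∈ P, ta ends q v z * ta ends q z s') +
      (∑ z ∈ P, ∑ w, (ta ends q u z * ta ends q z w * ta ends q w s + ta ends q u w * ta ends q w z * ta ends q z s)) * ta ends q v s' else (0 : ℝ)) := by
  have hM0 : 0 ≤ M :=
    (Ex_nonneg h0 h1 fun ω => gh_nonneg hh0.le hh1 _).trans (hM ∅ u)
  have hta : ∀ x y : V, 0 ≤ ta ends q x y := fun x y => ta_nonneg h0 h1 x y
  -- first term
  have T1 : ∀ s s' : V, Ex q (fun ω => if v ∉ cu ends ω u then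
      (if s ∈ cu ends ω u then gh h (cu ends ω u).card else 0) *
        (if s' ∈ cu ends ω v ∧ s' ∉ cS ends ω Q'ᶜ {v} then (1 : ℝ) else 0) else 0) ≤
      (M * ∑ z, ta ends q u z * ta ends q z s) * (∑ z ∈ P, ta ends q v z * ta ends q z s') := by
    intro s s'
    have hB0 : 0 ≤ ∑ z ∈ P, ta ends q v z * ta ends q z s' :=
      Finset.sum_nonneg fun z _ => mul_nonneg (hta _ _) (hta _ _)
    have a1 := D8a_fr (ends := ends) h0 h1 u v
      (fun S => if s ∈ S then gh h S.card else 0)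
      (fun S => by
        by_cases hs : s ∈ S
        · simp only [hs, if_true]; exact gh_nonneg hh0.le hh1 _
        · simp only [hs, if_false]; exact le_refl _)
      (fun A B => if s' ∈ A ∧ s' ∉ B then (1 : ℝ) else 0) _ hB0 Q'
      (fun S => outp h0 h1 (S : Set V) Q' P v s' hv hP)
    refine a1.trans (mul_le_mul_of_nonneg_right ?_ hB0)
    have a2 := fork (ends := ends) h0 h1 hh0.le hh1 hM ∅ Set.univ u s
    simp only [Set.compl_univ, Set.union_empty, D8a_cS] at a2
    refine a2.trans (le_of_eq ?_)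
    congr 1
    apply Finset.sum_congr rfl
    intro z _
    simp only [tS, ta, Set.compl_univ, D8a_cS]
  -- second term
  have T2 : ∀ s s' : V, Ex q (fun ω => if u ∉ cu ends ω v then
      (if s' ∈ cu ends ω v then (1 : ℝ) else 0) *
        (if s ∈ cu ends ω u ∧ s ∉ cS ends ω Q'ᶜ {u} then gh h (cu ends ω u).card else 0) else 0) ≤
      ta ends q v s' * (M * ∑ z ∈ P, ∑ w, (ta ends q u z * ta ends q z w * ta ends q w s +
        ta ends q u w * ta ends q w z * ta ends q z s)) := by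
    intro s s'
    have hB0 : 0 ≤ M * ∑ z ∈ P, ∑ w, (ta ends q u z * ta ends q z w * ta ends q w s +
        ta ends q u w * ta ends q w z * ta ends q z s) :=
      mul_nonneg hM0 (Finset.sum_nonneg fun z _ => Finset.sum_nonneg fun w _ =>
        add_nonneg (mul_nonneg (mul_nonneg (hta _ _) (hta _ _)) (hta _ _))
          (mul_nonneg (mul_nonneg (hta _ _) (hta _ _)) (hta _ _)))
    exact D8a_fr (ends := ends) h0 h1 v u
      (fun S => if s' ∈ S then (1 : ℝ) else 0)
      (fun S => by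
        by_cases hs : s' ∈ S
        · simp only [hs, if_true]; exact zero_le_one
        · simp only [hs, if_false]; exact le_refl _)
      (fun A B => if s ∈ A ∧ s ∉ B then gh h A.card else 0) _ hB0 Q'
      (fun S => fork_out h0 h1 hh0.le hh1 hM (S : Set V) Q' P u s hu hP)
  -- pointwise
  have hpt : ∀ ω, xF ends h Q' K u v ω ≤ (1 / h) * ∑ s, ∑ s', (if ∃ e, ends e = s(s, s') then
      ((if v ∉ cu ends ω u then (if s ∈ cu ends ω u then gh h (cu ends ω u).card else 0) *
        (if s' ∈ cu ends ω v ∧ s' ∉ cS ends ω Q'ᶜ {v} then (1 : ℝ) else 0) else 0) +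
      (if u ∉ cu ends ω v then (if s' ∈ cu ends ω v then (1 : ℝ) else 0) *
        (if s ∈ cu ends ω u ∧ s ∉ cS ends ω Q'ᶜ {u} then gh h (cu ends ω u).card else 0) else 0))
      else (0 : ℝ)) := by
    intro ω
    have hg0 : 0 ≤ gh h (cu ends ω u).card := gh_nonneg hh0.le hh1 _
    have hterm : ∀ s s' : V, 0 ≤ (if ∃ e, ends e = s(s, s') then
      ((if v ∉ cu ends ω u then (if s ∈ cu ends ω u then gh h (cu ends ω u).card else 0) *
        (if s' ∈ cu ends ω v ∧ s' ∉ cS ends ω Q'ᶜ {v} then (1 : ℝ) else 0) else 0) +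
      (if u ∉ cu ends ω v then (if s' ∈ cu ends ω v then (1 : ℝ) else 0) *
        (if s ∈ cu ends ω u ∧ s ∉ cS ends ω Q'ᶜ {u} then gh h (cu ends ω u).card else 0) else 0))
      else (0 : ℝ)) := by
      intro s s'
      split_ifs <;> simp <;> positivity
    have hinv : 0 < 1 / h := by positivity
    unfold xF
    by_cases hc : v ∉ cu ends ω u ∧ (cu ends ω u).card ≤ K ∧ (cu ends ω v).card ≤ K
    · rw [if_pos hc]
      have hv' : v ∉ cu ends ω u := hc.1
      have hu' : u ∉ cu ends ω v := fun hh => hv' (cu_symm.1 hh)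
      have hf : fh h (cu ends ω u).card ≤ (1 / h) * gh h (cu ends ω u).card := by
        have := fh_le hh0.le hh1 (cu ends ω u).card
        rw [one_div, inv_mul_eq_div, le_div_iff₀ hh0]
        linarith
      have hsum0 : 0 ≤ ∑ s ∈ cu ends ω u, ∑ s' ∈ cu ends ω v,
          (if (∃ e, ends e = s(s, s')) ∧ ¬ (s ∈ cS ends ω Q'ᶜ {u} ∧ s' ∈ cS ends ω Q'ᶜ {v})
            then (1 : ℝ) else 0) :=
        Finset.sum_nonneg fun s _ => Finset.sum_nonneg fun s' _ => by split_ifs <;> norm_num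
      refine (mul_le_mul_of_nonneg_right hf hsum0).trans ?_
      rw [mul_assoc]
      refine mul_le_mul_of_nonneg_left ?_ hinv.le
      rw [Finset.mul_sum]
      have e1 : ∀ s ∈ cu ends ω u, gh h (cu ends ω u).card * ∑ s' ∈ cu ends ω v,
          (if (∃ e, ends e = s(s, s')) ∧ ¬ (s ∈ cS ends ω Q'ᶜ {u} ∧ s' ∈ cS ends ω Q'ᶜ {v})
            then (1 : ℝ) else 0) ≤ ∑ s', (if ∃ e, ends e = s(s, s') then
      ((if v ∉ cu ends ω u then (if s ∈ cu ends ω u then gh h (cu ends ω u).card else 0) *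
        (if s' ∈ cu ends ω v ∧ s' ∉ cS ends ω Q'ᶜ {v} then (1 : ℝ) else 0) else 0) +
      (if u ∉ cu ends ω v then (if s' ∈ cu ends ω v then (1 : ℝ) else 0) *
        (if s ∈ cu ends ω u ∧ s ∉ cS ends ω Q'ᶜ {u} then gh h (cu ends ω u).card else 0) else 0))
      else (0 : ℝ)) := by
        intro s hs
        rw [Finset.mul_sum]
        refine le_trans ?_ (Finset.sum_le_sum_of_subset_of_nonneg
          (Finset.subset_univ (cu ends ω v)) (fun s' _ _ => hterm s s'))
        apply Finset.sum_le_sum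
        intro s' hs'
        by_cases he : ∃ e, ends e = s(s, s')
        · by_cases hin1 : s ∈ cS ends ω Q'ᶜ {u}
          · by_cases hin2 : s' ∈ cS ends ω Q'ᶜ {v}
            · simp [he, hv', hu', hs, hs', hin1, hin2]
            · simp [he, hv', hu', hs, hs', hin1, hin2]
          · by_cases hin2 : s' ∈ cS ends ω Q'ᶜ {v}
            · simp [he, hv', hu', hs, hs', hin1, hin2]
            · simp [he, hv', hu', hs, hs', hin1, hin2, hg0]
        · simp [he]
      refine (Finset.sum_le_sum e1).trans ?_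
      exact Finset.sum_le_sum_of_subset_of_nonneg (Finset.subset_univ (cu ends ω u))
        (fun s _ _ => Finset.sum_nonneg fun s' _ => hterm s s')
    · rw [if_neg hc]
      exact mul_nonneg hinv.le (Finset.sum_nonneg fun s _ => Finset.sum_nonneg fun s' _ => hterm s s')
  refine (Ex_mono h0 h1 hpt).trans ?_
  rw [Ex_mul_left]
  have hE : Ex q (fun ω => ∑ s, ∑ s', (if ∃ e, ends e = s(s, s') then
      ((if v ∉ cu ends ω u then (if s ∈ cu ends ω u then gh h (cu ends ω u).card else 0) *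
        (if s' ∈ cu ends ω v ∧ s' ∉ cS ends ω Q'ᶜ {v} then (1 : ℝ) else 0) else 0) +
      (if u ∉ cu ends ω v then (if s' ∈ cu ends ω v then (1 : ℝ) else 0) *
        (if s ∈ cu ends ω u ∧ s ∉ cS ends ω Q'ᶜ {u} then gh h (cu ends ω u).card else 0) else 0))
      else (0 : ℝ))) ≤ M * ∑ s, ∑ s', (if ∃ e, ends e = s(s, s') then
      (∑ z, ta ends q u z * ta ends q z s) * (∑ z ∈ P, ta ends q v z * ta ends q z s') +
      (∑ z ∈ P, ∑ w, (ta ends q u z * ta ends q z w * ta ends q w s + ta ends q u w * ta ends q w z * ta ends q z s)) * ta ends q v s' else (0 : ℝ)) := by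
    rw [Ex_sum, Finset.mul_sum]
    apply Finset.sum_le_sum
    intro s _
    rw [Ex_sum, Finset.mul_sum]
    apply Finset.sum_le_sum
    intro s' _
    by_cases he : ∃ e, ends e = s(s, s')
    · simp only [he, if_true]
      rw [Ex_add]
      have b1 := T1 s s'
      have b2 := T2 s s'
      calc _ ≤ _ := add_le_add b1 b2
        _ = _ := by ring
    · simp only [he, if_false, mul_zero]
      exact le_of_eq (Ex_zero_of fun _ => rfl)
  have hX0 : 0 ≤ ∑ s, ∑ s', (if ∃ e, ends e = s(s, s') then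
      (∑ z, ta ends q u z * ta ends q z s) * (∑ z ∈ P, ta ends q v z * ta ends q z s') +
      (∑ z ∈ P, ∑ w, (ta ends q u z * ta ends q z w * ta ends q w s + ta ends q u w * ta ends q w z * ta ends q z s)) * ta ends q v s' else (0 : ℝ)) := by
    refine Finset.sum_nonneg fun s _ => Finset.sum_nonneg fun s' _ => ?_
    split_ifs
    · refine add_nonneg (mul_nonneg ?_ ?_) (mul_nonneg ?_ (hta _ _))
      · exact Finset.sum_nonneg fun z _ => mul_nonneg (hta _ _) (hta _ _)
      · exact Finset.sum_nonneg fun z _ => mul_nonneg (hta _ _) (hta _ _)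
      · exact Finset.sum_nonneg fun z _ => Finset.sum_nonneg fun w _ =>
          add_nonneg (mul_nonneg (mul_nonneg (hta _ _) (hta _ _)) (hta _ _))
            (mul_nonneg (mul_nonneg (hta _ _) (hta _ _)) (hta _ _))
    · exact le_refl _
  have hinv : 0 < 1 / h := by positivity
  refine (mul_le_mul_of_nonneg_left hE hinv.le).trans ?_
  generalize (∑ s, ∑ s', (if ∃ e, ends e = s(s, s') then
      (∑ z, ta ends q u z * ta ends q z s) * (∑ z ∈ P, ta ends q v z * ta ends q z s') +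
      (∑ z ∈ P, ∑ w, (ta ends q u z * ta ends q z w * ta ends q w s + ta ends q u w * ta ends q w z * ta ends q z s)) * ta ends q v s' else (0 : ℝ))) = X at *
  have h5 : 0 ≤ (M / h) * X := mul_nonneg (div_nonneg hM0 hh0.le) hX0
  have h6 : 0 ≤ (K : ℝ) * h * ((M / h) * X) := mul_nonneg (by positivity) h5
  calc 1 / h * (M * X) = (M / h) * X := by ring
    _ ≤ (M / h) * X + (K : ℝ) * h * ((M / h) * X) := by linarith
    _ = (1 + K * h) * (M / h) * X := by ring

/-- The cluster off the empty set is the cluster. -/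
lemma D8b_cu {ω : E → Bool} {x : V} : cS ends ω ∅ {x} = cu ends ω x := by
  ext y
  rw [mem_cS, mem_cu]
  constructor
  · rintro ⟨a, ha, -, hr⟩
    rw [Set.mem_singleton_iff] at ha
    subst ha
    rwa [Set.compl_empty] at hr
  · intro hr
    exact ⟨x, rfl, fun hx => hx, by rwa [Set.compl_empty]⟩

/-- A cluster which does not contain `v` can be deleted. -/
lemma D8b_cuv {ω : E → Bool} {u v : V} (h : v ∉ cu ends ω u) :
    cS ends ω ((cu ends ω u : Finset V) : Set V) {v} = cu ends ω v := by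
  have h1 := cS_avoid (ends := ends) (ω := ω) (D := ∅) (D' := ((cu ends ω u : Finset V) : Set V)) (A := {v}) (by
    intro y hy hy'
    rw [D8b_cu] at hy
    rw [Finset.mem_coe] at hy'
    apply h
    have e1 := cu_eq hy
    have e2 := cu_eq hy'
    rw [← e2, e1]
    exact self_mem_cu ω v)
  rw [Set.empty_union, D8b_cu] at h1
  exact h1

open scoped Classical in
/-- Row D8. Far, at `p2`: `fh ≤ |C| 1(|C| ≤ K)`, the number of pairs is at most `Δ |cu ω v|` (`Δ` bounds the number of neighbours), given `C` the cluster of `v` is fresh. -/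
lemma xF_p {p h m : ℝ} (h0 : 0 ≤ p) (h1 : p ≤ 1) (hh0 : 0 ≤ h) (hh1 : h ≤ 1) (Δ : ℝ) (hΔ : ∀ s' : V, ((Finset.univ.filter (fun s : V => ∃ e, ends e = s(s, s'))).card : ℝ) ≤ Δ) (Q' : Set V) (K : ℕ) (u v : V)
    (hm : ∀ (S : Set V) (x : V), Ex p (fun ω => if (cS ends ω S {x}).card ≤ K then ((cS ends ω S {x}).card : ℝ) else 0) ≤ m) :
    Ex p (xF ends h Q' K u v) ≤ Δ * m ^ 2 := by
  have hΔ0 : 0 ≤ Δ := le_trans (Nat.cast_nonneg _) (hΔ u)
  obtain ⟨g, hg⟩ : ∃ g : Finset V → ℝ, ∀ S, g S = if S.card ≤ K then (S.card : ℝ) else 0 := ⟨_, fun _ => rfl⟩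
  have hg0 : ∀ S, 0 ≤ g S := by
    intro S
    rw [hg]
    split_ifs
    · exact Nat.cast_nonneg _
    · exact le_rfl
  have hm' : ∀ (S : Set V) (x : V), Ex p (fun ω => g (cS ends ω S {x})) ≤ m := by
    intro S x
    have := hm S x
    simp only [hg]
    exact this
  have hm0 : 0 ≤ m := le_trans (Ex_nonneg h0 h1 (fun ω => hg0 _)) (hm' ∅ u)
  have hpt : ∀ ω : E → Bool, xF ends h Q' K u v ω ≤
      g (cS ends ω ∅ {u}) * (Δ * g (cS ends ω ((cS ends ω ∅ {u} : Finset V) : Set V) {v})) := by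
    intro ω
    unfold xF
    split_ifs with hc
    · obtain ⟨hv, hku, hkv⟩ := hc
      rw [D8b_cu, D8b_cuv hv, hg, hg, if_pos hku, if_pos hkv]
      have hfh : fh h (cu ends ω u).card ≤ ((cu ends ω u).card : ℝ) := by
        unfold fh
        exact mul_le_of_le_one_right (Nat.cast_nonneg _) (pow_le_one₀ (by linarith) (by linarith))
      refine mul_le_mul hfh ?_ (Finset.sum_nonneg fun s _ => Finset.sum_nonneg fun s' _ => ?_) (Nat.cast_nonneg _)
      · rw [Finset.sum_comm]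
        calc _ ≤ ∑ s' ∈ cu ends ω v, Δ := by
              refine Finset.sum_le_sum fun s' _ => ?_
              refine le_trans ?_ (hΔ s')
              rw [Finset.card_filter, Nat.cast_sum]
              calc _ ≤ ∑ s ∈ cu ends ω u, (if ∃ e, ends e = s(s, s') then (1 : ℝ) else 0) := by
                    refine Finset.sum_le_sum fun s _ => ?_
                    by_cases h3 : ∃ e, ends e = s(s, s')
                    · rw [if_pos h3]
                      split_ifs
                      · exact le_rfl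
                      · exact zero_le_one
                    · rw [if_neg h3, if_neg (fun h4 => h3 h4.1)]
                _ ≤ ∑ s : V, (if ∃ e, ends e = s(s, s') then (1 : ℝ) else 0) := by
                    refine Finset.sum_le_sum_of_subset_of_nonneg (Finset.subset_univ _) fun s _ _ => ?_
                    split_ifs
                    · exact zero_le_one
                    · exact le_rfl
                _ = _ := by
                    refine Finset.sum_congr rfl fun s _ => ?_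
                    split_ifs
                    · exact Nat.cast_one.symm
                    · exact Nat.cast_zero.symm
          _ = Δ * ((cu ends ω v).card : ℝ) := by
              rw [Finset.sum_const, nsmul_eq_mul, mul_comm]
      · split_ifs
        · exact zero_le_one
        · exact le_rfl
    · exact mul_nonneg (hg0 _) (mul_nonneg hΔ0 (hg0 _))
  calc Ex p (xF ends h Q' K u v)
      ≤ Ex p (fun ω => g (cS ends ω ∅ {u}) * (Δ * g (cS ends ω ((cS ends ω ∅ {u} : Finset V) : Set V) {v}))) :=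
        Ex_mono h0 h1 hpt
    _ = Ex p (fun ω => Ex p (fun ω' => g (cS ends ω ∅ {u}) * (Δ * g (cS ends ω' ((cS ends ω ∅ {u} : Finset V) : Set V) {v})))) :=
        fresh (ends := ends) p ∅ {u} (fun S ω => g S * (Δ * g (cS ends ω ((S : Finset V) : Set V) {v}))) (by
          intro S ω ω' hh
          have h5 := off_dep (ends := ends) (ω := ω) (ω' := ω') (D := ∅) (A := {v}) S hh
          rw [Set.empty_union] at h5
          simp only [h5])
    _ ≤ Ex p (fun ω => (Δ * m) * g (cS ends ω ∅ {u})) := by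
        refine Ex_mono h0 h1 fun ω => ?_
        rw [Ex_mul_left, Ex_mul_left]
        have h6 := hm' ((cS ends ω ∅ {u} : Finset V) : Set V) v
        calc _ ≤ g (cS ends ω ∅ {u}) * (Δ * m) :=
              mul_le_mul_of_nonneg_left (mul_le_mul_of_nonneg_left h6 hΔ0) (hg0 _)
          _ = _ := mul_comm _ _
    _ = (Δ * m) * Ex p (fun ω => g (cS ends ω ∅ {u})) := Ex_mul_left p _ _
    _ ≤ (Δ * m) * m := mul_le_mul_of_nonneg_left (hm' ∅ u) (mul_nonneg hΔ0 hm0)
    _ = Δ * m ^ 2 := by ring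

private lemma D9_sub {ω : E → Bool} {D : Set V} {x y : V} (h : y ∈ cS ends ω D {x}) : y ∈ cu ends ω x := by
  rw [mem_cS] at h
  obtain ⟨a, ha, -, h2⟩ := h
  rw [Set.mem_singleton_iff] at ha
  subst ha
  rw [mem_cu]
  exact h2.mono (fun _ h => h) (Set.subset_univ _)

open scoped Classical in
/-- The edges with an end in `S`. -/
private noncomputable def D9_K (ends : E → Sym2 V) (u v : V) (ω : E → Bool) : Finset E :=
  Finset.univ.filter (fun e => ∃ x ∈ cu ends ω u ∪ cu ends ω v, x ∈ ends e)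

private lemma D9_cu {u v w : V} {ω ω' : E → Bool} (hw : w = u ∨ w = v) (h : ∀ e ∈ D9_K ends u v ω, ω e = ω' e) :
    cu ends ω' w = cu ends ω w := by
  classical
  have hin : ∀ a, a ∈ cu ends ω w → a ∈ cu ends ω u ∪ cu ends ω v := by
    intro a ha
    rw [Finset.mem_union]
    rcases hw with rfl | rfl
    · exact Or.inl ha
    · exact Or.inr ha
  refine cl_eq_dep (A := cu ends ω w) ?_ rfl
  intro e a b h1 _ _ h4
  apply h
  unfold D9_K
  rw [Finset.mem_filter]
  refine ⟨Finset.mem_univ _, a, hin a h4, ?_⟩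
  rw [h1]
  exact Sym2.mem_mk_left a b

private lemma D9_cS {u v w : V} {ω ω' : E → Bool} (D : Set V) (hw : w = u ∨ w = v) (h : ∀ e ∈ D9_K ends u v ω, ω e = ω' e) :
    cS ends ω' D {w} = cS ends ω D {w} := by
  classical
  apply cS_dep
  intro e a b h1 h2 _
  apply h
  unfold D9_K
  rw [Finset.mem_filter]
  refine ⟨Finset.mem_univ _, a, ?_, ?_⟩
  · have h3 := D9_sub h2
    rw [Finset.mem_union]
    rcases hw with rfl | rfl
    · exact Or.inl h3
    · exact Or.inr h3
  · rw [h1]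
    exact Sym2.mem_mk_left a b

open scoped Classical in
private lemma D9_card (hinj : Function.Injective ends) (Δ : ℕ) (hΔ : ∀ s' : V, (Finset.univ.filter (fun s : V => ∃ e, ends e = s(s, s'))).card ≤ Δ)
    (u v : V) (ω : E → Bool) : (D9_K ends u v ω).card ≤ ((cu ends ω u ∪ cu ends ω v).card) * Δ := by
  have h1 : D9_K ends u v ω ⊆ (cu ends ω u ∪ cu ends ω v).biUnion (fun x => Finset.univ.filter (fun e => x ∈ ends e)) := by
    intro e he
    unfold D9_K at he
    rw [Finset.mem_filter] at he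
    obtain ⟨-, x, hx, hxe⟩ := he
    rw [Finset.mem_biUnion]
    exact ⟨x, hx, by rw [Finset.mem_filter]; exact ⟨Finset.mem_univ _, hxe⟩⟩
  refine (Finset.card_le_card h1).trans ?_
  refine Finset.card_biUnion_le_card_mul _ _ _ ?_
  intro x _
  have h2 : ((Finset.univ.filter (fun e : E => x ∈ ends e)).image ends) ⊆ (Finset.univ.filter (fun s : V => ∃ e, ends e = s(s, x))).image (fun s => s(s, x)) := by
    intro z hz
    rw [Finset.mem_image] at hz ⊢
    obtain ⟨e, he, rfl⟩ := hz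
    rw [Finset.mem_filter] at he
    obtain ⟨y, hy⟩ := he.2
    refine ⟨y, ?_, ?_⟩
    · rw [Finset.mem_filter]
      exact ⟨Finset.mem_univ _, e, by rw [hy, Sym2.eq_swap]⟩
    · show s(y, x) = ends e
      rw [hy, Sym2.eq_swap]
  have h3 := Finset.card_le_card h2
  rw [Finset.card_image_of_injective _ hinj] at h3
  exact (h3.trans Finset.card_image_le).trans (hΔ x)

open scoped Classical in
/-- Row D9. Change of measure for `xF`: the stopping set is the set of the edges with an end in `cu ω u ∪ cu ω v`, at most `2 Δ K` edges if both clusters have at most `K` vertices; `xF ω` depends only on these edges. `csm`. -/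
lemma xF_csm (hinj : Function.Injective ends) {p q p2 Z h : ℝ} (hq0 : 0 < q) (hq1 : q < 1) (h0 : 0 ≤ p) (h1 : p ≤ 1) (hh0 : 0 ≤ h) (hh1 : h ≤ 1) (hZ : Z = p ^ 2 / q + (1 - p) ^ 2 / (1 - q)) (hp2 : p2 = p ^ 2 / q / Z)
    (Δ : ℕ) (hΔ : ∀ s' : V, (Finset.univ.filter (fun s : V => ∃ e, ends e = s(s, s'))).card ≤ Δ) (Q' : Set V) (K : ℕ) (u v : V) :
    (Ex p (xF ends h Q' K u v)) ^ 2 ≤ Z ^ (2 * Δ * K) * Ex p2 (xF ends h Q' K u v) * Ex q (xF ends h Q' K u v) := by
  classical
  have hK : ∀ ω ω' : E → Bool, (∀ e ∈ D9_K ends u v ω, ω e = ω' e) → D9_K ends u v ω' = D9_K ends u v ω := by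
    intro ω ω' h
    unfold D9_K
    rw [D9_cu (Or.inl rfl) h, D9_cu (Or.inr rfl) h]
  have hX : ∀ ω ω' : E → Bool, (∀ e ∈ D9_K ends u v ω, ω e = ω' e) → xF ends h Q' K u v ω' = xF ends h Q' K u v ω := by
    intro ω ω' h
    unfold xF
    rw [D9_cu (Or.inl rfl) h, D9_cu (Or.inr rfl) h, D9_cS _ (Or.inl rfl) h, D9_cS _ (Or.inr rfl) h]
  have hX0 : ∀ ω, 0 ≤ xF ends h Q' K u v ω := by
    intro ω
    unfold xF
    split_ifs
    · refine mul_nonneg ?_ ?_
      · unfold fh
        exact mul_nonneg (Nat.cast_nonneg _) (pow_nonneg (by linarith) _)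
      · refine Finset.sum_nonneg fun s _ => Finset.sum_nonneg fun s' _ => ?_
        split_ifs
        · exact zero_le_one
        · exact le_rfl
    · exact le_rfl
  refine csm hq0 hq1 h0 h1 hZ hp2 (D9_K ends u v) hK _ hX hX0 (2 * Δ * K) ?_
  intro ω hω
  have hc : v ∉ cu ends ω u ∧ (cu ends ω u).card ≤ K ∧ (cu ends ω v).card ≤ K := by
    by_contra hcon
    apply hω
    unfold xF
    rw [if_neg hcon]
  refine (D9_card hinj Δ hΔ u v ω).trans ?_
  have h5 : (cu ends ω u ∪ cu ends ω v).card ≤ 2 * K := (Finset.card_union_le _ _).trans (by omega)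
  calc (cu ends ω u ∪ cu ends ω v).card * Δ ≤ (2 * K) * Δ := Nat.mul_le_mul_right _ h5
    _ = 2 * Δ * K := by ring

end Pool.Agent.PERC29.DZ
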