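import Pool.Agent.Lib.MP_29e17e_pr.Z.Ap
import Pool.Agent.Lib.MP_29e17e_pr.Z.Ga

namespace Pool.Agent.PERC29
end Pool.Agent.PERC29
namespace Pool.Agent.PERC29.AE
end Pool.Agent.PERC29.AE

set_option autoImplicit false
set_option linter.unusedSectionVars false

/-! Rows 29d-E1 .. 29d-E9: Section 3 in boxes. -/

open Finset Filter Topology

namespace Pool.Agent.PERC29.DZ

open Pool.Agent.PERC29 Pool.Agent.PERC29.AE

variable {d : ℕ}

/-- The sphere as a finite set. -/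
noncomputable def Pf {l : ℕ} (u : Fin d → Fin l) (R : ℕ) : Finset (Fin d → Fin l) := Finset.univ.filter (fun x => nz (rel u x) = R)

section E1gen

variable {V : Type*} [Fintype V] [DecidableEq V] {E : Type*} [Fintype E] [DecidableEq E]
  {ends : E → Sym2 V}

open scoped Classical in
/-- The next vertices in a general graph. -/
private noncomputable def E1_N (ends : E → Sym2 V) (D O : Set V) (B : Finset V) (ω : E → Bool) : Finset V :=
  Finset.univ.filter (fun v => v ∉ D ∧ v ∉ B ∧ ∃ a ∈ B, ∃ e,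
    ends e = s(a, v) ∧ (if v ∉ O then (false : Bool) = true else (ω e = true ∨ (false : Bool) = true)))

open scoped Classical in
private lemma E1_memN (D O : Set V) (B : Finset V) (ω : E → Bool) (v : V) :
    v ∈ E1_N ends D O B ω ↔ (v ∉ D ∧ v ∉ B ∧ ∃ a ∈ B, ∃ e,
    ends e = s(a, v) ∧ (if v ∉ O then (false : Bool) = true else (ω e = true ∨ (false : Bool) = true))) := by
  unfold E1_N
  simp only [Finset.mem_filter, Finset.mem_univ, true_and]

private lemma E1_split (D O A : Set V) (hA : ∀ a ∈ A, a ∉ O) (ω : E → Bool) :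
    (cS ends ω D A).card = (cS ends ω (D ∪ O) A).card +
      (cS ends ω (D ∪ (cS ends ω (D ∪ O) A : Set V))
        (E1_N ends D O (cS ends ω (D ∪ O) A) ω : Set V)).card := by
  classical
  have hB : cS ends ω (D ∪ O) A ⊆ cS ends ω D A :=
    cS_mono (fun e he => he) Set.subset_union_left (Set.Subset.refl _)
  have h := cS_split (ends := ends) (ω := ω) (D := D) (A := A)
    (N := (E1_N ends D O (cS ends ω (D ∪ O) A) ω : Set V)) (B := cS ends ω (D ∪ O) A)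
    (by
      intro a ha haD
      rw [mem_cS]
      refine ⟨a, ha, ?_, Rch.refl a⟩
      rintro (h | h)
      · exact haD h
      · exact hA a ha h)
    hB
    (by
      intro a ha v e he ho hvD hvB
      rw [Finset.mem_coe, E1_memN]
      refine ⟨hvD, hvB, a, ha, e, he, ?_⟩
      by_cases hvO : v ∈ O
      · rw [if_neg (not_not.2 hvO)]
        exact Or.inl ho
      · exfalso
        apply hvB
        refine cS_step ha e he ho ?_
        rintro (h | h)
        · exact hvD h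
        · exact hvO h)
    (by
      intro v hv
      rw [Finset.mem_coe, E1_memN] at hv
      obtain ⟨hvD, hvB, a, ha, e, he, ho⟩ := hv
      refine cS_step (hB ha) e he ?_ hvD
      by_cases hvO : v ∈ O
      · rw [if_neg (not_not.2 hvO)] at ho
        rcases ho with ho | ho
        · exact ho
        · exact absurd ho (by decide)
      · rw [if_pos hvO] at ho
        exact absurd ho (by decide))
    (by
      intro v hv
      rw [Finset.mem_coe, E1_memN] at hv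
      exact ⟨hv.1, hv.2.1⟩)
  obtain ⟨h1, h2⟩ := h
  conv_lhs => rw [h1]
  exact Finset.card_union_of_disjoint h2

private lemma E1_expl (D O A : Set V) (hA : ∀ a ∈ A, a ∉ O) (p : ℝ) (Ψ : Finset V → ℝ) (F : ℕ → ℝ) :
    Ex p (fun ω => F (cS ends ω D A).card * Ψ (cS ends ω (D ∪ O) A)) =
      Ex p (fun ω => Ex p (fun ζ =>
        F ((cS ends ω (D ∪ O) A).card + (cS ends ζ (D ∪ (cS ends ω (D ∪ O) A : Set V))
          (E1_N ends D O (cS ends ω (D ∪ O) A) ω : Set V)).card)) * Ψ (cS ends ω (D ∪ O) A)) := by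
  classical
  have h := explore_gen (E := E) p
    (fun ω => ((cS ends ω (D ∪ O) A, E1_N ends D O (cS ends ω (D ∪ O) A) ω) : Finset V × Finset V))
    (fun a => {e | ∃ v ∈ a.1, v ∈ ends e})
    (by
      intro ω ω' h1
      have hb : cS ends ω' (D ∪ O) A = cS ends ω (D ∪ O) A := by
        apply cS_dep
        intro e a b he ha _
        exact h1 e ⟨a, ha, by rw [he]; exact Sym2.mem_mk_left a b⟩
      have hn : E1_N ends D O (cS ends ω (D ∪ O) A) ω' = E1_N ends D O (cS ends ω (D ∪ O) A) ω := by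
        unfold E1_N
        apply Finset.filter_congr
        intro v _
        apply and_congr_right
        intro _
        apply and_congr_right
        intro _
        apply exists_congr
        intro a
        apply and_congr_right
        intro ha
        apply exists_congr
        intro e
        apply and_congr_right
        intro he
        have hK : ∃ v ∈ cS ends ω (D ∪ O) A, v ∈ ends e := ⟨a, ha, by rw [he]; exact Sym2.mem_mk_left a v⟩
        rw [h1 e hK]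
      change (cS ends ω' (D ∪ O) A, E1_N ends D O (cS ends ω' (D ∪ O) A) ω') = _
      rw [hb, hn])
    (fun a ζ => F (a.1.card + (cS ends ζ (D ∪ (a.1 : Set V)) (a.2 : Set V)).card) * Ψ a.1)
    (by
      intro a ω ω' h1
      have hc : cS ends ω' (D ∪ (a.1 : Set V)) (a.2 : Set V) = cS ends ω (D ∪ (a.1 : Set V)) (a.2 : Set V) := by
        apply cS_dep
        intro e x y he hx hy
        apply h1
        rintro ⟨v, hv, hve⟩
        rw [he, Sym2.mem_iff] at hve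
        rcases hve with rfl | rfl
        · exact cS_off hx (Or.inr hv)
        · exact hy (Or.inr hv)
      change F (a.1.card + (cS ends ω (D ∪ (a.1 : Set V)) (a.2 : Set V)).card) * Ψ a.1 =
        F (a.1.card + (cS ends ω' (D ∪ (a.1 : Set V)) (a.2 : Set V)).card) * Ψ a.1
      rw [hc])
  refine Eq.trans ?_ (h.trans ?_)
  · apply Ex_congr
    intro ω
    rw [E1_split D O A hA ω]
  · apply Ex_congr
    intro ω
    rw [mul_comm, ← Ex_mul_left]
    apply Ex_congr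
    intro ζ
    rw [mul_comm]

end E1gen

private lemma E1_memNB {l : ℕ} (u : Fin d → Fin l) (R : ℕ) (D A : Finset (Zd d))
    (ω η : (boxG d l).edgeSet → Bool) (v : Fin d → Fin l) :
    v ∈ NB u R D A ω η ↔ (v ∉ pre u D ∧ v ∉ BB u R D A ω ∧ ∃ a ∈ BB u R D A ω, ∃ e,
    gends (boxG d l) e = s(a, v) ∧ (if rel u v ∈ (bz R : Finset (Zd d)) then η e = true
      else (ω e = true ∨ η e = true))) := by
  unfold NB
  simp only [Finset.mem_filter, Finset.mem_univ, true_and]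

private lemma E1_hN {l : ℕ} (u : Fin d → Fin l) (R : ℕ) (D A : Finset (Zd d))
    (ω : (boxG d l).edgeSet → Bool) :
    E1_N (gends (boxG d l)) (pre u D) {x : Fin d → Fin l | rel u x ∉ (bz R : Finset (Zd d))}
      (BB u R D A ω) ω = NB u R D A ω (fun _ => false) := by
  ext v
  rw [E1_memN, E1_memNB]
  apply and_congr_right
  intro _
  apply and_congr_right
  intro _
  apply exists_congr
  intro a
  apply and_congr_right
  intro _
  apply exists_congr
  intro e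
  apply and_congr_right
  intro _
  by_cases hv : rel u v ∈ (bz R : Finset (Zd d))
  · have hv' : v ∉ {x : Fin d → Fin l | rel u x ∉ (bz R : Finset (Zd d))} := fun h => h hv
    rw [if_pos hv, if_pos hv']
  · have hv' : ¬ (v ∉ {x : Fin d → Fin l | rel u x ∉ (bz R : Finset (Zd d))}) := fun h => h hv
    rw [if_neg hv, if_neg hv']

private lemma E1_hB {l : ℕ} (u : Fin d → Fin l) (R : ℕ) (D A : Finset (Zd d))
    (ω : (boxG d l).edgeSet → Bool) :
    pre u D ∪ (BB u R D A ω : Set (Fin d → Fin l)) = pre u (D ∪ Bz u R D A ω) := by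
  ext x
  constructor
  · rintro (h | h)
    · exact Finset.mem_union_left _ h
    · exact Finset.mem_union_right _ (Finset.mem_image_of_mem _ h)
  · intro h
    rcases Finset.mem_union.1 (show rel u x ∈ D ∪ Bz u R D A ω from h) with h | h
    · exact Or.inl h
    · obtain ⟨y, hy, hyx⟩ := Finset.mem_image.1 h
      rw [rel_inj u hyx] at hy
      exact Or.inr hy

private lemma E1_hS {l : ℕ} (u : Fin d → Fin l) (N : Finset (Fin d → Fin l)) :
    (N : Set (Fin d → Fin l)) = pre u (N.image (rel u)) := by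
  ext x
  constructor
  · intro h
    exact Finset.mem_image_of_mem (rel u) h
  · intro h
    obtain ⟨y, hy, hyx⟩ := Finset.mem_image.1 (show rel u x ∈ N.image (rel u) from h)
    rw [rel_inj u hyx] at hy
    exact hy

/-- Row E1. Exploration of the ball without sprinkling, with a function of the explored cluster: as `expl` with `p1 = p`, `s = 0` (the second configuration all closed): `cS_split` with `B = BB u R D A ω`, `N = NB u R D A ω (fun _ => false)` (= the ends outside of the ball of open edges from `B`, off `D`),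
`explore_gen` with `X ω = (BB, NB)`. -/
lemma expl0 {l : ℕ} (u : Fin d → Fin l) (R : ℕ) (D A : Finset (Zd d)) (hA : A ⊆ bz R) (p : ℝ) (Ψ : Finset (Zd d) → ℝ) (F : ℕ → ℝ) :
    Ex p (fun ω => F (cS (gends (boxG d l)) ω (pre u D) (pre u A)).card * Ψ (Bz u R D A ω)) =
      Ex p (fun ω => Ex p (fun ω' => F ((Bz u R D A ω).card +
        (cS (gends (boxG d l)) ω' (pre u (D ∪ Bz u R D A ω)) (pre u (Nz u R D A ω (fun _ => false)))).card)) * Ψ (Bz u R D A ω)) := by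
  classical
  have hA' : ∀ a ∈ pre u A, a ∉ {x : Fin d → Fin l | rel u x ∉ (bz R : Finset (Zd d))} := by
    intro a ha h
    exact h (hA ha)
  refine (E1_expl (ends := gends (boxG d l)) (pre u D) {x : Fin d → Fin l | rel u x ∉ (bz R : Finset (Zd d))} (pre u A) hA' p
    (fun B => Ψ (B.image (rel u))) F).trans ?_
  apply Ex_congr
  intro ω
  have hcard : (Bz u R D A ω).card = (BB u R D A ω).card := by
    unfold Bz
    exact Finset.card_image_of_injective _ (rel_inj u)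
  have hS : pre u (Nz u R D A ω (fun _ => false)) = (NB u R D A ω (fun _ => false) : Set (Fin d → Fin l)) := (E1_hS u _).symm
  rw [hcard, ← E1_hB, hS, ← E1_hN]
  rfl

/-- Row E2: comparison of two expectations. -/
private lemma E2_abs {E : Type*} [Fintype E] [DecidableEq E] {p : ℝ} (h0 : 0 ≤ p) (h1 : p ≤ 1)
    {f g : (E → Bool) → ℝ} {c : ℝ} (h : ∀ ω, |f ω - g ω| ≤ c) : |Ex p f - Ex p g| ≤ c := by
  have h2 : Ex p f ≤ Ex p (fun ω => g ω + c) :=
    Ex_mono h0 h1 (fun ω => by have := (abs_le.1 (h ω)).2; linarith)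
  have h3 : Ex p g ≤ Ex p (fun ω => f ω + c) :=
    Ex_mono h0 h1 (fun ω => by have := (abs_le.1 (h ω)).1; linarith)
  rw [Ex_add, Ex_const] at h2 h3
  rw [abs_le]
  constructor <;> linarith

/-- Row E2: the cluster of the base point. -/
private lemma E2_cu {l : ℕ} (u : Fin d → Fin l) (ω : (boxG d l).edgeSet → Bool) :
    cS (gends (boxG d l)) ω (pre u ∅) (pre u {0}) = cu (gends (boxG d l)) ω u := by
  have h1 : pre u ∅ = ∅ := by
    ext x
    simp [pre]
  have h2 : pre u {0} = {u} := by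
    ext x
    simp only [pre, Set.mem_setOf_eq, Finset.mem_singleton, Set.mem_singleton_iff]
    constructor
    · intro h
      funext i
      have h3 := congrFun h i
      simp only [rel, Pi.zero_apply] at h3
      apply Fin.ext
      omega
    · rintro rfl
      funext i
      simp [rel]
  rw [h1, h2]
  ext y
  rw [mem_cS, mem_cu]
  simp

/-- Row E2: transfer to the window. -/
private lemma E2_win {l : ℕ} (u : Fin d → Fin l) (R : ℕ) (hu : Dp u (R + 1)) (p : ℝ)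
    (G : Finset (Zd d) → Finset (Zd d) → ℝ) :
    Ex p (fun ω : (boxG d l).edgeSet → Bool => G (Bz u R ∅ {0} ω) (Nz u R ∅ {0} ω (fun _ => false))) =
      Ex p (fun ω : Om d R => G (Wb R ∅ {0} ω) (Wn R ∅ {0} ω (fun _ => false))) := by
  have h := win_ex u R hu p 0 ∅ {0} G
  simp only [Ex_zero'] at h
  exact h

/-- Row E2: the inner expectation. -/
private lemma E2_inner {l : ℕ} (u : Fin d → Fin l) (p h : ℝ) (hp0 : 0 ≤ p) (hp1 : p ≤ 1)
    (h0 : 0 < h) (h1 : h ≤ 1) (b : ℕ) (B N : Finset (Zd d)) :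
    |Ex p (fun ω' => fh h (b + (cS (gends (boxG d l)) ω' (pre u B) (pre u N)).card)) - sgF l u p h B N| ≤
      2 * (b : ℝ) := by
  unfold sgF sgS
  exact E2_abs hp0 hp1 (fun ω => fh_split h0 h1 b _)

/-- Row E2: uniformity over a finite set. -/
private lemma E2_fin {Ω : Type*} [Finite Ω] [Nonempty Ω] (P : Ω → ℝ → Prop)
    (hP : ∀ ω a b, a ≤ b → P ω b → P ω a) (h : ∀ ω, ∃ h0 : ℝ, 0 < h0 ∧ P ω h0) :
    ∃ h0 : ℝ, 0 < h0 ∧ ∀ ω, P ω h0 := by
  choose f hf hg using h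
  obtain ⟨w, hw⟩ := Finite.exists_min f
  exact ⟨f w, hf w, fun ω => hP ω _ _ (hw ω) (hg ω)⟩

/-- Row E2: exploration in the box and transfer to the window. -/
private lemma E2_box {l : ℕ} (u : Fin d → Fin l) (R : ℕ) (hu : Dp u (R + 1)) (p h : ℝ) (hp0 : 0 ≤ p)
    (hp1 : p ≤ 1) (h0 : 0 < h) (h1 : h ≤ 1) (Ψ : Finset (Zd d) → ℝ) (K : ℝ) (hK : ∀ B, |Ψ B| ≤ K) :
    |Ex p (fun ω => fh h (cu (gends (boxG d l)) ω u).card * Ψ (Bz u R ∅ {0} ω)) -
      Ex p (fun ω : Om d R => sgF l u p h (Wb R ∅ {0} ω) (Wn R ∅ {0} ω (fun _ => false)) * Ψ (Wb R ∅ {0} ω))| ≤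
      2 * ((bz R : Finset (Zd d)).card : ℝ) * K := by
  have hA : ({0} : Finset (Zd d)) ⊆ bz R := by
    intro x hx
    rw [Finset.mem_singleton] at hx
    rw [mem_bz, hx]
    simp [nz]
  have e1 := expl0 u R ∅ {0} hA p Ψ (fh h)
  simp only [E2_cu, Finset.empty_union] at e1
  rw [e1, ← E2_win u R hu p (fun B N => sgF l u p h B N * Ψ B)]
  refine E2_abs hp0 hp1 (fun ω => ?_)
  rw [← sub_mul, abs_mul]
  have h2 := E2_inner u p h hp0 hp1 h0 h1 (Bz u R ∅ {0} ω).card (Bz u R ∅ {0} ω)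
    (Nz u R ∅ {0} ω (fun _ => false))
  have h3 : (((Bz u R ∅ {0} ω).card : ℕ) : ℝ) ≤ ((bz R : Finset (Zd d)).card : ℝ) := by
    exact_mod_cast Finset.card_le_card (Bz_ball u R ∅ {0} ω)
  have hK0 : 0 ≤ K := (abs_nonneg _).trans (hK ∅)
  exact mul_le_mul (h2.trans (by linarith)) (hK _) (abs_nonneg _) (by positivity)

/-- Row E2. The main term. `expl0` with `F = fh h`, `D = ∅`, `A = {0}` (`cS ω ∅ {u} = cu ω u`), `fh_split` (`|B| ≤ (2R+1)^d`), transfer to the window (`win_ex` with `s = 0`, `Ex_zero'`); divide by `m1 = sgF ∅ {0}` (`m1 → ∞`, `rg_num`); finitely many values `(B, N)`; `sgF (B,N)/m1 → φ(B,N)` (`CTh.sg`), `Ψ → ψ`, the weights at `p` tend to the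
weights at `pc` (`Ex_cont`). All bounded: `|Ψ| ≤ K`. -/
lemma main_lim {C c e pc : ℝ} (ht : HT d C c e pc) {φ : Finset (Zd d) → Finset (Zd d) → ℝ} (hφ : CTh d C pc φ) (δ : ℝ) (hδ : 0 < δ) (hδ1 : δ ≤ 1) (R : ℕ)
    (Ψ : (l : ℕ) → (Fin d → Fin l) → ℝ → ℝ → Finset (Zd d) → ℝ) (ψ : Finset (Zd d) → ℝ) (K : ℝ)
    (hK : ∃ h0 : ℝ, 0 < h0 ∧ ∀ (l : ℕ) (u : Fin d → Fin l) (p h : ℝ), Rg d pc δ l u p h → h ≤ h0 → ∀ B, |Ψ l u p h B| ≤ K)
    (hΨ : ∀ B, B ⊆ bz R → (0 : Zd d) ∈ B → ∀ η : ℝ, 0 < η → ∃ h0 : ℝ, 0 < h0 ∧ ∀ (l : ℕ) (u : Fin d → Fin l) (p h : ℝ), Rg d pc δ l u p h → h ≤ h0 → |Ψ l u p h B - ψ B| ≤ η)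
    (η : ℝ) (hη : 0 < η) : ∃ h0 : ℝ, 0 < h0 ∧ ∀ (l : ℕ) (u : Fin d → Fin l) (p h : ℝ), Rg d pc δ l u p h → h ≤ h0 →
    |Ex p (fun ω => fh h (cu (gends (boxG d l)) ω u).card * Ψ l u p h (Bz u R ∅ {0} ω)) / sgF l u p h ∅ {0} -
      Ex pc (fun ω : Om d R => φ (Wb R ∅ {0} ω) (Wn R ∅ {0} ω (fun _ => false)) * ψ (Wb R ∅ {0} ω))| ≤ η := by
  classical
  obtain ⟨hK0, hKp, hKb⟩ := hK
  obtain ⟨Kp, hKp'⟩ : ∃ Kp : ℝ, Kp = |K| + 1 := ⟨_, rfl⟩
  have hKpos : 0 < Kp := by rw [hKp']; positivity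
  have hKle : K ≤ Kp := by rw [hKp']; linarith [le_abs_self K]
  obtain ⟨Nb, hNb⟩ : ∃ Nb : ℝ, Nb = ((bz R : Finset (Zd d)).card : ℝ) := ⟨_, rfl⟩
  have hNb0 : 0 ≤ Nb := by rw [hNb]; positivity
  -- the limit for every configuration of the window
  have hω : ∀ ω : Om d R, ∃ h0 : ℝ, 0 < h0 ∧ ∀ (l : ℕ) (u : Fin d → Fin l) (p h : ℝ), Rg d pc δ l u p h → h ≤ h0 →
      |sgF l u p h (Wb R ∅ {0} ω) (Wn R ∅ {0} ω (fun _ => false)) / sgF l u p h ∅ {0} * Ψ l u p h (Wb R ∅ {0} ω) -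
        φ (Wb R ∅ {0} ω) (Wn R ∅ {0} ω (fun _ => false)) * ψ (Wb R ∅ {0} ω)| ≤ η / 3 := by
    intro ω
    generalize hB : Wb R ∅ {0} ω = B
    generalize Wn R ∅ {0} ω (fun _ => false) = N
    have hBs : B ⊆ bz R := by
      rw [← hB]
      exact Bz_ball (cR d R) R ∅ {0} ω
    have hB0 : (0 : Zd d) ∈ B := by
      rw [← hB]
      refine Wb_start R ∅ {0} ω 0 (Finset.mem_singleton_self _) (Finset.notMem_empty _) ?_
      simp [nz]
    obtain ⟨h1, h1p, h1b⟩ := hφ.sg δ hδ hδ1 B N (η / (6 * Kp)) (by positivity)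
    obtain ⟨h2, h2p, h2b⟩ := hΨ B hBs hB0 (η / (6 * (|φ B N| + 1))) (by positivity)
    refine ⟨min hK0 (min h1 h2), lt_min hKp (lt_min h1p h2p), ?_⟩
    intro l u p h hR hh
    have a1 := h1b l u p h hR (hh.trans ((min_le_right _ _).trans (min_le_left _ _)))
    have a2 := h2b l u p h hR (hh.trans ((min_le_right _ _).trans (min_le_right _ _)))
    have a3 := (hKb l u p h hR (hh.trans (min_le_left _ _)) B).trans hKle
    generalize sgF l u p h B N / sgF l u p h ∅ {0} = S at a1 ⊢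
    generalize Ψ l u p h B = P at a2 a3 ⊢
    generalize φ B N = f at a1 a2 ⊢
    generalize ψ B = g at a2 ⊢
    have e1 : S * P - f * g = (S - f) * P + f * (P - g) := by ring
    rw [e1]
    refine (abs_add_le _ _).trans ?_
    rw [abs_mul, abs_mul]
    have b1 : |S - f| * |P| ≤ η / (6 * Kp) * Kp := mul_le_mul a1 a3 (abs_nonneg _) (by positivity)
    have b2 : |f| * |P - g| ≤ (|f| + 1) * (η / (6 * (|f| + 1))) :=
      mul_le_mul (by linarith) a2 (abs_nonneg _) (by positivity)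
    have b3 : η / (6 * Kp) * Kp = η / 6 := by field_simp
    have b4 : (|f| + 1) * (η / (6 * (|f| + 1))) = η / 6 := by
      have : |f| + 1 ≠ 0 := by positivity
      field_simp
    linarith
  obtain ⟨hA, hAp, hAb⟩ := E2_fin (Ω := Om d R) (fun ω h0 => ∀ (l : ℕ) (u : Fin d → Fin l) (p h : ℝ), Rg d pc δ l u p h → h ≤ h0 →
      |sgF l u p h (Wb R ∅ {0} ω) (Wn R ∅ {0} ω (fun _ => false)) / sgF l u p h ∅ {0} * Ψ l u p h (Wb R ∅ {0} ω) -
        φ (Wb R ∅ {0} ω) (Wn R ∅ {0} ω (fun _ => false)) * ψ (Wb R ∅ {0} ω)| ≤ η / 3)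
    (fun ω a b hab hb l u p h hR hh => hb l u p h hR (hh.trans hab)) hω
  -- continuity at `pc`
  have hcont := (Ex_cont (fun ω : Om d R => φ (Wb R ∅ {0} ω) (Wn R ∅ {0} ω (fun _ => false)) * ψ (Wb R ∅ {0} ω))).continuousAt
    (x := pc)
  rw [Metric.continuousAt_iff] at hcont
  obtain ⟨ε, hε, hεb⟩ := hcont (η / 3) (by positivity)
  obtain ⟨L, hL, hrg⟩ := rg_num ht δ hδ hδ1
  obtain ⟨hC, hCp, hCb⟩ := hrg (min (ε / 2) (η / 3 / (2 * Nb * Kp + 1))) (lt_min (by positivity) (by positivity)) (R + 1)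
  refine ⟨min hK0 (min hA hC), lt_min hKp (lt_min hAp hCp), ?_⟩
  intro l u p h hR hh
  have hh1 := hh.trans (min_le_left _ _)
  have hh2 := hh.trans ((min_le_right _ _).trans (min_le_left _ _))
  have hh3 := hh.trans ((min_le_right _ _).trans (min_le_right _ _))
  obtain ⟨⟨r1, r2, r3⟩, r4, r5, r6, r7, r8, r9, r10, r11, r12⟩ := hCb l u p h hR hh3
  have hpc0 := ht.hp.p0
  have hpc1 := ht.hp.p1
  have hpa := hR.pa
  have hp0 : 0 ≤ p := by linarith
  have hp1 : p ≤ 1 := by linarith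
  have f1 := E2_box u R r12 p h hp0 hp1 hR.h0 hR.h1.le (Ψ l u p h) Kp
    (fun B => (hKb l u p h hR hh1 B).trans hKle)
  rw [← hNb] at f1
  have f2 : |Ex p (fun ω : Om d R => sgF l u p h (Wb R ∅ {0} ω) (Wn R ∅ {0} ω (fun _ => false)) / sgF l u p h ∅ {0} *
        Ψ l u p h (Wb R ∅ {0} ω)) -
      Ex p (fun ω : Om d R => φ (Wb R ∅ {0} ω) (Wn R ∅ {0} ω (fun _ => false)) * ψ (Wb R ∅ {0} ω))| ≤ η / 3 :=
    E2_abs hp0 hp1 (fun ω => hAb ω l u p h hR hh2)
  have f3 : |Ex p (fun ω : Om d R => φ (Wb R ∅ {0} ω) (Wn R ∅ {0} ω (fun _ => false)) * ψ (Wb R ∅ {0} ω)) -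
      Ex pc (fun ω : Om d R => φ (Wb R ∅ {0} ω) (Wn R ∅ {0} ω (fun _ => false)) * ψ (Wb R ∅ {0} ω))| ≤ η / 3 := by
    have h4 := hεb (x := p) (by
      rw [Real.dist_eq, abs_of_nonneg (by linarith)]
      have := r3.trans (min_le_left _ _)
      linarith)
    rw [Real.dist_eq] at h4
    exact h4.le
  have f4 : Ex p (fun ω : Om d R => sgF l u p h (Wb R ∅ {0} ω) (Wn R ∅ {0} ω (fun _ => false)) / sgF l u p h ∅ {0} *
        Ψ l u p h (Wb R ∅ {0} ω)) =
      Ex p (fun ω : Om d R => sgF l u p h (Wb R ∅ {0} ω) (Wn R ∅ {0} ω (fun _ => false)) * Ψ l u p h (Wb R ∅ {0} ω)) /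
        sgF l u p h ∅ {0} := by
    rw [div_eq_inv_mul, ← Ex_mul_left]
    refine Ex_congr (fun ω => ?_)
    ring
  rw [f4] at f2
  generalize Ex p (fun ω => fh h (cu (gends (boxG d l)) ω u).card * Ψ l u p h (Bz u R ∅ {0} ω)) = X at f1 ⊢
  generalize Ex p (fun ω : Om d R => sgF l u p h (Wb R ∅ {0} ω) (Wn R ∅ {0} ω (fun _ => false)) * Ψ l u p h (Wb R ∅ {0} ω)) = Y at f1 f2
  generalize Ex p (fun ω : Om d R => φ (Wb R ∅ {0} ω) (Wn R ∅ {0} ω (fun _ => false)) * ψ (Wb R ∅ {0} ω)) = Z at f2 f3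
  generalize Ex pc (fun ω : Om d R => φ (Wb R ∅ {0} ω) (Wn R ∅ {0} ω (fun _ => false)) * ψ (Wb R ∅ {0} ω)) = W at f3 ⊢
  generalize sgF l u p h ∅ {0} = m at r9 r10 f2 ⊢
  have f5 : |X / m - Y / m| ≤ η / 3 := by
    rw [← sub_div, abs_div, abs_of_pos r9, div_le_iff₀ r9]
    have g1 : 2 * Nb * Kp ≤ η / 3 * m := by
      have g2 : (min (ε / 2) (η / 3 / (2 * Nb * Kp + 1))) * m ≤ η / 3 / (2 * Nb * Kp + 1) * m :=
        mul_le_mul_of_nonneg_right (min_le_right _ _) r9.le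
      have g3 : 1 ≤ η / 3 / (2 * Nb * Kp + 1) * m := r10.trans g2
      have g4 : 0 < 2 * Nb * Kp + 1 := by positivity
      have g5 : η / 3 / (2 * Nb * Kp + 1) * m = (η / 3 * m) / (2 * Nb * Kp + 1) := by ring
      rw [g5, le_div_iff₀ g4] at g3
      linarith
    linarith
  have e1 : X / m - W = (X / m - Y / m) + (Y / m - Z) + (Z - W) := by ring
  rw [e1]
  refine (abs_add_le _ _).trans ?_
  have := abs_add_le (X / m - Y / m) (Y / m - Z)
  linarith

/-- The local approximation of the constant. -/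
noncomputable def aloc (φ : Finset (Zd d) → Finset (Zd d) → ℝ) (pc : ℝ) (r R : ℕ) (v : Zd d) : ℝ :=
  Ex pc (fun ω : Om d R => φ (Wb R ∅ {0} ω) (Wn R ∅ {0} ω (fun _ => false)) *
    (if v ∈ Wb R ∅ {0} ω then 0 else φ ((Wb R ∅ {0} ω).filter (fun x => nz x ≤ r)) {v}))

/-- Row E3. `main_lim` with `Ψ = (1/Mh) 1(v ∉ B) piF (B ∩ bz r) {v}` (`≤ 1` by `piF_single`), and `q1 (Qb u R) (prf u (bz r)) u v' = E[fh |cu| Mh Ψ(Bz)]` for `rel u v' = v` (`BB u R ∅ {0} ω = cS ω (Qb u R)ᶜ {u}`, `pre u ((Bz ω).filter ..) = cS .. ∩ prf u (bz r)`). -/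
lemma q1_lim {C c e pc : ℝ} (ht : HT d C c e pc) {φ : Finset (Zd d) → Finset (Zd d) → ℝ} (hφ : CTh d C pc φ) (δ : ℝ) (hδ : 0 < δ) (hδ1 : δ ≤ 1) (r R : ℕ) (v : Zd d)
    (η : ℝ) (hη : 0 < η) : ∃ h0 : ℝ, 0 < h0 ∧ ∀ (l : ℕ) (u v' : Fin d → Fin l) (p h : ℝ), Rg d pc δ l u p h → h ≤ h0 → rel u v' = v →
    |q1 (gends (boxG d l)) p h (Qb u R) (prf u (bz r)) u v' - aloc φ pc r R v * (Mh d p h * sgF l u p h ∅ {0})| ≤ η * (Mh d p h * sgF l u p h ∅ {0}) := by
  classical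
  let Ψ : (l : ℕ) → (Fin d → Fin l) → ℝ → ℝ → Finset (Zd d) → ℝ := fun l u p h B =>
    if v ∈ B then 0 else piF l u p h (B.filter (fun x => nz x ≤ r)) {v} / Mh d p h
  let ψ : Finset (Zd d) → ℝ := fun B => if v ∈ B then 0 else φ (B.filter (fun x => nz x ≤ r)) {v}
  obtain ⟨L, hL, hrg⟩ := rg_num ht δ hδ hδ1
  obtain ⟨h1, h1pos, H1⟩ := hrg 1 one_pos 0
  have hp0 : 0 < pc := ht.hp.p0
  have hpc1 : pc < 1 := ht.hp.p1
  have hbd : ∀ (l : ℕ) (u : Fin d → Fin l) (p h : ℝ), Rg d pc δ l u p h → h ≤ h1 →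
      0 ≤ p ∧ p ≤ 1 ∧ 0 ≤ h ∧ h ≤ 1 ∧ 0 < Mh d p h ∧ 0 < sgF l u p h ∅ {0} := by
    intro l u p h hR hh
    obtain ⟨⟨_, a2, _⟩, _, a4, _, _, _, a8, _, _, _⟩ := H1 l u p h hR hh
    exact ⟨hp0.le.trans hR.pa, by linarith, hR.h0.le, hR.h1.le, a4, a8⟩
  have hK : ∃ h0 : ℝ, 0 < h0 ∧ ∀ (l : ℕ) (u : Fin d → Fin l) (p h : ℝ), Rg d pc δ l u p h →
      h ≤ h0 → ∀ B, |Ψ l u p h B| ≤ 1 := by
    refine ⟨h1, h1pos, fun l u p h hR hh B => ?_⟩
    obtain ⟨b1, b2, b3, b4, b5, b6⟩ := hbd l u p h hR hh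
    show |(if v ∈ B then (0 : ℝ) else
      piF l u p h (B.filter (fun x => nz x ≤ r)) {v} / Mh d p h)| ≤ 1
    split_ifs with hv
    · rw [abs_zero]
      exact zero_le_one
    · rw [abs_of_nonneg (div_nonneg (piF_nonneg u p h b1 b2 b3 b4 _ _) b5.le)]
      exact div_le_one_of_le₀ (piF_single u p h b1 b2 b3 b4 _ _) b5.le
  have hΨ : ∀ B, B ⊆ bz R → (0 : Zd d) ∈ B → ∀ η : ℝ, 0 < η → ∃ h0 : ℝ, 0 < h0 ∧
      ∀ (l : ℕ) (u : Fin d → Fin l) (p h : ℝ), Rg d pc δ l u p h → h ≤ h0 →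
        |Ψ l u p h B - ψ B| ≤ η := by
    intro B _ _ η hη
    by_cases hv : v ∈ B
    · refine ⟨1, one_pos, fun l u p h _ _ => ?_⟩
      show |(if v ∈ B then (0 : ℝ) else _) - (if v ∈ B then (0 : ℝ) else _)| ≤ η
      rw [if_pos hv, if_pos hv, sub_zero, abs_zero]
      exact hη.le
    · obtain ⟨h0, h0pos, H⟩ := hφ.pi δ hδ hδ1 (B.filter (fun x => nz x ≤ r)) {v} η hη
      refine ⟨h0, h0pos, fun l u p h hR hh => ?_⟩
      show |(if v ∈ B then (0 : ℝ) else _) - (if v ∈ B then (0 : ℝ) else _)| ≤ η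
      rw [if_neg hv, if_neg hv]
      exact H l u p h hR hh
  obtain ⟨h2, h2pos, H2⟩ := main_lim ht hφ δ hδ hδ1 R Ψ ψ 1 hK hΨ η hη
  refine ⟨min h1 h2, lt_min h1pos h2pos, fun l u v' p h hR hh hv' => ?_⟩
  obtain ⟨b1, b2, b3, b4, b5, b6⟩ := hbd l u p h hR (hh.trans (min_le_left _ _))
  have hm := H2 l u p h hR (hh.trans (min_le_right _ _))
  -- the sets
  have hru : rel u u = 0 := by
    funext i
    simp [rel]
  have hpre0 : pre u (∅ : Finset (Zd d)) ∪ {x | rel u x ∉ (bz R : Finset (Zd d))} =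
      (Qb u R)ᶜ := by
    ext x
    simp only [pre, Finset.notMem_empty, Set.setOf_false, Set.empty_union, Set.mem_setOf_eq,
      Set.mem_compl_iff, Qb, mem_bz]
  have hpreu : pre u ({0} : Finset (Zd d)) = {u} := by
    ext x
    simp only [pre, Finset.mem_singleton, Set.mem_setOf_eq, Set.mem_singleton_iff]
    constructor
    · intro hx
      exact rel_inj u (hx.trans hru.symm)
    · intro hx
      rw [hx, hru]
  have hprev : pre u ({v} : Finset (Zd d)) = {v'} := by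
    ext x
    simp only [pre, Finset.mem_singleton, Set.mem_setOf_eq, Set.mem_singleton_iff]
    constructor
    · intro hx
      exact rel_inj u (hx.trans hv'.symm)
    · intro hx
      rw [hx, hv']
  have hBB : ∀ ω, BB u R ∅ {0} ω = cS (gends (boxG d l)) ω (Qb u R)ᶜ {u} := by
    intro ω
    unfold BB
    rw [hpre0, hpreu]
  have hmem : ∀ ω x, rel u x ∈ Bz u R ∅ {0} ω ↔ x ∈ cS (gends (boxG d l)) ω (Qb u R)ᶜ {u} := by
    intro ω x
    unfold Bz
    rw [hBB, Finset.mem_image]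
    constructor
    · rintro ⟨y, hy, hxy⟩
      rwa [← rel_inj u hxy]
    · intro hx
      exact ⟨x, hx, rfl⟩
  have hpf : ∀ ω, pre u ((Bz u R ∅ {0} ω).filter (fun x => nz x ≤ r)) =
      ((cS (gends (boxG d l)) ω (Qb u R)ᶜ {u} ∩ prf u (bz r) : Finset (Fin d → Fin l)) :
        Set (Fin d → Fin l)) := by
    intro ω
    ext x
    rw [Finset.mem_coe, Finset.mem_inter]
    simp only [pre, Set.mem_setOf_eq, Finset.mem_filter, hmem, prf, Finset.mem_univ, true_and,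
      mem_bz]
  have hq : q1 (gends (boxG d l)) p h (Qb u R) (prf u (bz r)) u v' =
      Mh d p h * Ex p (fun ω => fh h (cu (gends (boxG d l)) ω u).card *
        Ψ l u p h (Bz u R ∅ {0} ω)) := by
    rw [← Ex_mul_left]
    unfold q1
    refine Ex_congr fun ω => ?_
    show _ = Mh d p h * (_ * (if v ∈ Bz u R ∅ {0} ω then (0 : ℝ) else
      piF l u p h ((Bz u R ∅ {0} ω).filter (fun x => nz x ≤ r)) {v} / Mh d p h))
    have hvB : v ∈ Bz u R ∅ {0} ω ↔ v' ∈ cS (gends (boxG d l)) ω (Qb u R)ᶜ {u} := by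
      rw [← hv']
      exact hmem ω v'
    by_cases hv : v' ∈ cS (gends (boxG d l)) ω (Qb u R)ᶜ {u}
    · rw [if_pos hv, if_pos (hvB.2 hv)]
      ring
    · rw [if_neg hv, if_neg (fun hc => hv (hvB.1 hc))]
      unfold piF
      rw [hpf, hprev]
      field_simp
  rw [hq]
  have hal : aloc φ pc r R v = Ex pc (fun ω : Om d R =>
      φ (Wb R ∅ {0} ω) (Wn R ∅ {0} ω (fun _ => false)) * ψ (Wb R ∅ {0} ω)) := rfl
  rw [← hal] at hm
  set X := Ex p (fun ω => fh h (cu (gends (boxG d l)) ω u).card * Ψ l u p h (Bz u R ∅ {0} ω))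
  have e1 : Mh d p h * X - aloc φ pc r R v * (Mh d p h * sgF l u p h ∅ {0}) =
      (X / sgF l u p h ∅ {0} - aloc φ pc r R v) * (Mh d p h * sgF l u p h ∅ {0}) := by
    field_simp
  rw [e1, abs_mul, abs_of_pos (mul_pos b5 b6)]
  exact mul_le_mul_of_nonneg_right hm (mul_pos b5 b6).le

/-! ### Error terms -/

private lemma E4_cu {l : ℕ} (ω : (boxG d l).edgeSet → Bool) (u : Fin d → Fin l) :
    cS (gends (boxG d l)) ω ∅ {u} = cu (gends (boxG d l)) ω u := by
  ext y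
  rw [mem_cS, mem_cu, Set.compl_empty]
  constructor
  · rintro ⟨a, ha, _, h⟩
    rw [Set.mem_singleton_iff] at ha
    subst ha
    exact h
  · intro h
    exact ⟨u, rfl, fun h => h, h⟩

private lemma E4_nn (d l : ℕ) (p h : ℝ) (hp0 : 0 ≤ p) (hp1 : p ≤ 1) (h0 : 0 ≤ h) (h1 : h ≤ 1) (v : Fin d → Fin l) : 0 ≤ Mh d p h := by
  have h2 := Mh_Mb l p h hp0 hp1 h0 h1 ∅ v
  exact (Ex_nonneg hp0 hp1 (fun ω => gh_nonneg h0 h1 _)).trans h2

private lemma E4_rel {l : ℕ} (u : Fin d → Fin l) : nz (rel u u) = 0 := by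
  have : rel u u = 0 := by
    funext i
    simp [rel]
  rw [this, nz_zero]

private lemma E4_pow {h : ℝ} (h1 : h ≤ 1) (k : ℕ) : (1 - h) ^ k ≤ Real.exp (-(h * k)) := by
  have h2 : (1 - h) ≤ Real.exp (-h) := by
    have := Real.add_one_le_exp (-h)
    linarith
  calc (1 - h) ^ k ≤ (Real.exp (-h)) ^ k := pow_le_pow_left₀ (by linarith) h2 k
    _ = Real.exp (-(h * k)) := by
        rw [← Real.exp_nat_mul]
        congr 1; ring

private lemma E4_x (x : ℝ) : x ≤ Real.exp (x / 2) := by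
  by_cases hx : x ≤ 0
  · exact hx.trans (Real.exp_pos _).le
  · push Not at hx
    have h1 := Real.add_one_le_exp (x / 4)
    have h2 : Real.exp (x / 2) = Real.exp (x / 4) * Real.exp (x / 4) := by
      rw [← Real.exp_add]; congr 1; ring
    rw [h2]
    nlinarith [sq_nonneg (1 - x / 4), mul_self_nonneg (Real.exp (x / 4) - (x / 4 + 1))]

private lemma E4_half : Real.exp (-1) ≤ 1 / 2 := by
  have h1 := Real.add_one_le_exp (1 : ℝ)
  rw [Real.exp_neg, one_div]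
  exact inv_anti₀ (by norm_num) (by linarith)

/-- Row E4. `fh_le`, `arm3` with `D = ∅`, `Q = Qb u R`, `P = Pb u R`, `arm_le`, `Qb_out`. -/
lemma e_arm {C c e pc : ℝ} (ht : HT d C c e pc) {l : ℕ} (u s : Fin d → Fin l) (R r : ℕ) (hr : r < R) (hs : nz (rel u s) ≤ r) (p h : ℝ) (hp : pc ≤ p) (hpe : p ≤ pc + e) (h0 : 0 < h) (h1 : h ≤ 1) :
    Ex p (fun ω => if s ∈ cu (gends (boxG d l)) ω u ∧ s ∉ cS (gends (boxG d l)) ω (Qb u R)ᶜ {u} then fh h (cu (gends (boxG d l)) ω u).card else (0 : ℝ)) ≤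
      Mh d p h / h * (2 * (C * (1 / Real.sqrt ((R : ℝ) - r) + (p - pc)))) := by
  classical
  have hp0 : (0 : ℝ) ≤ p := ht.hp.p0.le.trans hp
  have hp1 : p ≤ 1 := hpe.trans ht.e1.le
  have hMn : 0 ≤ Mh d p h := E4_nn d l p h hp0 hp1 h0.le h1 u
  have ha := arm3 hp0 hp1 h0.le h1 (Mh_Mb l p h hp0 hp1 h0.le h1) ∅ (Qb u R) (Pb u R) u s
    (by show nz (rel u u) ≤ R; rw [E4_rel]; exact Nat.zero_le _)
    (by show nz (rel u s) ≤ R; omega)
    (fun e x y he hx hy => Qb_out u R e x y he hx hy)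
  rw [Set.empty_union] at ha
  have hb1 := arm_le ht u R r hr (Qb u R)ᶜ u (by rw [E4_rel]; exact Nat.zero_le _) p hp hpe
  have hb2 := arm_le ht u R r hr (Qb u R)ᶜ s hs p hp hpe
  have hc : Ex p (fun ω => if s ∈ cS (gends (boxG d l)) ω ∅ {u} ∧ s ∉ cS (gends (boxG d l)) ω (Qb u R)ᶜ {u} then
      gh h (cS (gends (boxG d l)) ω ∅ {u}).card else (0 : ℝ)) ≤
      Mh d p h * (2 * (C * (1 / Real.sqrt ((R : ℝ) - r) + (p - pc)))) := by
    refine ha.trans (mul_le_mul_of_nonneg_left ?_ hMn)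
    have := add_le_add hb1 hb2
    linarith
  have hd : Ex p (fun ω => if s ∈ cu (gends (boxG d l)) ω u ∧ s ∉ cS (gends (boxG d l)) ω (Qb u R)ᶜ {u} then fh h (cu (gends (boxG d l)) ω u).card else (0 : ℝ)) ≤
      (1 / h) * Ex p (fun ω => if s ∈ cS (gends (boxG d l)) ω ∅ {u} ∧ s ∉ cS (gends (boxG d l)) ω (Qb u R)ᶜ {u} then
      gh h (cS (gends (boxG d l)) ω ∅ {u}).card else (0 : ℝ)) := by
    rw [← Ex_mul_left]
    refine Ex_mono hp0 hp1 (fun ω => ?_)
    rw [E4_cu]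
    split_ifs with hif
    · rw [one_div, ← div_eq_inv_mul, le_div_iff₀ h0, mul_comm]
      exact fh_le h0.le h1 _
    · simp
  refine hd.trans ?_
  calc (1 / h) * _ ≤ (1 / h) * (Mh d p h * (2 * (C * (1 / Real.sqrt ((R : ℝ) - r) + (p - pc))))) :=
        mul_le_mul_of_nonneg_left hc (by positivity)
    _ = Mh d p h / h * (2 * (C * (1 / Real.sqrt ((R : ℝ) - r) + (p - pc)))) := by ring

/-- Row E4. Tails: `gh h k ≥ 1/2` for `k ≥ 1/h` (`(1-h)^k ≤ e^(-1)`). -/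
lemma e_tl {l : ℕ} (p h : ℝ) (hp0 : 0 ≤ p) (hp1 : p ≤ 1) (h0 : 0 < h) (h1 : h ≤ 1) (K : ℕ) (hK : 1 / h ≤ (K : ℝ)) (S : Set (Fin d → Fin l)) (v : Fin d → Fin l) :
    Ex p (fun ω => if K < (cS (gends (boxG d l)) ω S {v}).card then (1 : ℝ) else 0) ≤ 2 * Mh d p h := by
  have hM := Mh_Mb l p h hp0 hp1 h0.le h1 S v
  have h2 : Ex p (fun ω => if K < (cS (gends (boxG d l)) ω S {v}).card then (1 : ℝ) else 0) ≤
      2 * Ex p (fun ω => gh h (cS (gends (boxG d l)) ω S {v}).card) := by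
    rw [← Ex_mul_left]
    refine Ex_mono hp0 hp1 (fun ω => ?_)
    split_ifs with hif
    · have h3 : (1 - h) ^ (cS (gends (boxG d l)) ω S {v}).card ≤ 1 / 2 := by
        refine (E4_pow h1 _).trans (le_trans ?_ E4_half)
        apply Real.exp_le_exp.2
        have h4 : (K : ℝ) ≤ ((cS (gends (boxG d l)) ω S {v}).card : ℝ) := by exact_mod_cast hif.le
        have h5 : 1 / h ≤ ((cS (gends (boxG d l)) ω S {v}).card : ℝ) := hK.trans h4
        rw [div_le_iff₀ h0] at h5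
        linarith
      unfold gh
      linarith
    · have := gh_nonneg h0.le h1 (cS (gends (boxG d l)) ω S {v}).card
      linarith
  linarith

/-- Row E4. `fh h k ≤ e^(-A/2)/h` for `k ≥ K ≥ A/h`: `k (1-h)^k ≤ (k e^(-hk/2)) e^(-hk/2)`, `x e^(-x/2) ≤ 1`; and `e_tl`. -/
lemma e_tail {l : ℕ} (p h A : ℝ) (hp0 : 0 ≤ p) (hp1 : p ≤ 1) (h0 : 0 < h) (h1 : h ≤ 1) (hA : 1 ≤ A) (K : ℕ) (hK : A / h ≤ (K : ℝ)) (u : Fin d → Fin l) :
    Ex p (fun ω => if K < (cu (gends (boxG d l)) ω u).card then fh h (cu (gends (boxG d l)) ω u).card else (0 : ℝ)) ≤ Real.exp (-(A / 2)) / h * (2 * Mh d p h) := by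
  have hK' : 1 / h ≤ (K : ℝ) := (div_le_div_of_nonneg_right hA h0.le).trans hK
  have ht := e_tl p h hp0 hp1 h0 h1 K hK' ∅ u
  have h2 : Ex p (fun ω => if K < (cu (gends (boxG d l)) ω u).card then fh h (cu (gends (boxG d l)) ω u).card else (0 : ℝ)) ≤
      Real.exp (-(A / 2)) / h * Ex p (fun ω => if K < (cS (gends (boxG d l)) ω ∅ {u}).card then (1 : ℝ) else 0) := by
    rw [← Ex_mul_left]
    refine Ex_mono hp0 hp1 (fun ω => ?_)
    rw [E4_cu]
    split_ifs with hif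
    · set k := (cu (gends (boxG d l)) ω u).card with hk
      have h4 : (K : ℝ) ≤ (k : ℝ) := by exact_mod_cast hif.le
      have h5 : A / h ≤ (k : ℝ) := hK.trans h4
      rw [div_le_iff₀ h0] at h5
      have h6 : (1 - h) ^ k ≤ Real.exp (-(h * k / 2)) * Real.exp (-(h * k / 2)) := by
        refine (E4_pow h1 k).trans (le_of_eq ?_)
        rw [← Real.exp_add]; congr 1; ring
      have h7 : (h * k) * Real.exp (-(h * k / 2)) ≤ 1 := by
        have h8 := E4_x (h * k)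
        have h9 : Real.exp (-(h * k / 2)) * Real.exp (h * k / 2) = 1 := by
          rw [← Real.exp_add]; simp
        have h10 : 0 < Real.exp (-(h * k / 2)) := Real.exp_pos _
        nlinarith
      have h11 : Real.exp (-(h * k / 2)) ≤ Real.exp (-(A / 2)) := by
        apply Real.exp_le_exp.2
        linarith
      unfold fh
      rw [mul_one, le_div_iff₀ h0]
      have h12 : 0 < Real.exp (-(h * k / 2)) := Real.exp_pos _
      have hk0 : (0 : ℝ) ≤ (k : ℝ) := Nat.cast_nonneg _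
      calc (k : ℝ) * (1 - h) ^ k * h = (h * k) * (1 - h) ^ k := by ring
        _ ≤ (h * k) * (Real.exp (-(h * k / 2)) * Real.exp (-(h * k / 2))) :=
            mul_le_mul_of_nonneg_left h6 (by positivity)
        _ = ((h * k) * Real.exp (-(h * k / 2))) * Real.exp (-(h * k / 2)) := by ring
        _ ≤ 1 * Real.exp (-(h * k / 2)) := mul_le_mul_of_nonneg_right h7 h12.le
        _ ≤ Real.exp (-(A / 2)) := by rw [one_mul]; exact h11
    · simp
  refine h2.trans ?_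
  exact mul_le_mul_of_nonneg_left ht (by positivity)

/-- Row E5a. Adjacent vertices have distance one. -/
lemma E5a_adj {l : ℕ} (z z' : Fin d → Fin l) (h : ∃ e, gends (boxG d l) e = s(z, z')) : nd z z' = 1 := by
  obtain ⟨e, he⟩ := h
  have hadj : (boxG d l).Adj z z' := by
    have h3 : s(z, z') ∈ (boxG d l).edgeSet := by
      rw [← he]
      exact e.2
    exact (SimpleGraph.mem_edgeSet _).1 h3
  rw [← nz_rel z z z']
  exact adj_nz z z z' hadj

/-- Row E5a. At most `3^d` neighbours. -/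
lemma E5a_deg {l : ℕ} (z : Fin d → Fin l) :
    ∑ z' : Fin d → Fin l, (open scoped Classical in (if ∃ e, gends (boxG d l) e = s(z, z') then (1 : ℝ) else 0)) ≤ 3 ^ d := by
  classical
  rw [Finset.sum_ite, Finset.sum_const_zero, add_zero, Finset.sum_const, nsmul_eq_mul, mul_one]
  have h1 : (Finset.univ.filter (fun z' : Fin d → Fin l => ∃ e, gends (boxG d l) e = s(z, z'))).card ≤
      (bv (rel z z) 1).card := by
    apply Finset.card_le_card_of_injOn (fun z' => rel z z')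
    · intro z' hz'
      have h2 := (Finset.mem_filter.1 (Finset.mem_coe.1 hz')).2
      rw [Finset.mem_coe, mem_bv, nz_sub, nz_rel]
      exact le_of_eq (E5a_adj z z' h2)
    · intro a _ b _ hab
      exact rel_inj z hab
  rw [card_bv] at h1
  have h2 : ((Finset.univ.filter (fun z' : Fin d → Fin l => ∃ e, gends (boxG d l) e = s(z, z'))).card : ℝ) ≤
      ((2 * 1 + 1 : ℕ) ^ d : ℕ) := by exact_mod_cast h1
  refine h2.trans (le_of_eq ?_)
  norm_num

/-- Row E5a. Both end points move by at most one. -/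
lemma E5a_near {l : ℕ} (k : ℕ) (u v s s' : Fin d → Fin l) (huv : nd u v ≤ 1) (hs : nd s s' ≤ 1) :
    fk k v s' ≤ 3 ^ k * fk k u s := by
  have h1 : nd u s ≤ nd u v + nd v s := nd_tri u v s
  have h2 : nd v s ≤ nd v s' + nd s' s := nd_tri v s' s
  have h2' : nd s' s ≤ 1 := by rw [nd_symm]; exact hs
  have h3 : (nd u s : ℝ) ≤ nd v s' + 2 := by
    have : nd u s ≤ nd v s' + 2 := by omega
    exact_mod_cast this
  have h4 : (0 : ℝ) ≤ nd u s := Nat.cast_nonneg _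
  have h5 : (0 : ℝ) ≤ nd v s' := Nat.cast_nonneg _
  have h6 : (1 + (nd u s : ℝ)) ^ k ≤ (3 * (1 + (nd v s' : ℝ))) ^ k :=
    pow_le_pow_left₀ (by linarith) (by linarith) k
  rw [mul_pow] at h6
  unfold fk
  rw [mul_one_div, div_le_div_iff₀ (by positivity) (by positivity)]
  linarith

/-- Row E5a. The tail of the kernel in the box. -/
lemma E5a_tail (hd : 11 ≤ d) {l : ℕ} (u : Fin d → Fin l) (r : ℕ) :
    ∑ s ∈ Finset.univ.filter (fun s => r < nd u s), fk (2 * d - 6) u s ≤ (d * 2 ^ d : ℝ) * 2 / ((r : ℝ) + 1) := by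
  classical
  have h1 := far_z (d := d) (k := 2 * d - 6) (by omega) (by omega) (rel u u)
    ((Finset.univ : Finset (Fin d → Fin l)).image (rel u)) r
  have h2 : ∑ s ∈ Finset.univ.filter (fun s => r < nd u s), fk (2 * d - 6) u s ≤
      ∑ z ∈ ((Finset.univ : Finset (Fin d → Fin l)).image (rel u)).filter (fun z => r ≤ nz (z - rel u u)),
        fz (2 * d - 6) (z - rel u u) := by
    rw [← Finset.sum_filter_add_sum_filter_not (((Finset.univ : Finset (Fin d → Fin l)).image (rel u)).filter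
      (fun z => r ≤ nz (z - rel u u))) (fun z => z ∈ (Finset.univ.filter (fun s => r < nd u s)).image (rel u))]
    have h3 : (((Finset.univ : Finset (Fin d → Fin l)).image (rel u)).filter
        (fun z => r ≤ nz (z - rel u u))).filter (fun z => z ∈ (Finset.univ.filter (fun s => r < nd u s)).image (rel u)) =
        (Finset.univ.filter (fun s => r < nd u s)).image (rel u) := by
      ext z
      rw [Finset.mem_filter]
      refine ⟨fun h => h.2, fun h => ⟨?_, h⟩⟩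
      obtain ⟨s, hs, rfl⟩ := Finset.mem_image.1 h
      have h4 := (Finset.mem_filter.1 hs).2
      rw [Finset.mem_filter, nz_rel, nd_symm]
      exact ⟨Finset.mem_image_of_mem _ (Finset.mem_univ s), h4.le⟩
    rw [h3, Finset.sum_image (fun a _ b _ hab => rel_inj u hab)]
    have h5 : ∑ s ∈ Finset.univ.filter (fun s => r < nd u s), fz (2 * d - 6) (rel u s - rel u u) =
        ∑ s ∈ Finset.univ.filter (fun s => r < nd u s), fk (2 * d - 6) u s := by
      refine Finset.sum_congr rfl fun s _ => ?_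
      rw [fz_rel]
      unfold fk
      rw [nd_symm]
    rw [h5]
    have h6 : 0 ≤ ∑ z ∈ (((Finset.univ : Finset (Fin d → Fin l)).image (rel u)).filter
        (fun z => r ≤ nz (z - rel u u))).filter (fun z => ¬ z ∈ (Finset.univ.filter (fun s => r < nd u s)).image (rel u)),
        fz (2 * d - 6) (z - rel u u) := Finset.sum_nonneg fun z _ => (fz_pos _ _).le
    linarith
  refine (h2.trans h1).trans ?_
  have hr : (1 : ℝ) ≤ (r : ℝ) + 1 := by
    have : (0 : ℝ) ≤ (r : ℝ) := Nat.cast_nonneg r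
    linarith
  have h7 : (r : ℝ) + 1 ≤ ((r : ℝ) + 1) ^ (2 * d - 6 - d) := by
    calc (r : ℝ) + 1 = ((r : ℝ) + 1) ^ 1 := (pow_one _).symm
      _ ≤ _ := pow_le_pow_right₀ hr (by omega)
  rw [mul_div_assoc]
  apply mul_le_mul_of_nonneg_left _ (by positivity)
  exact div_le_div_of_nonneg_left (by norm_num) (by linarith) h7

open scoped Classical in
/-- Row E5. Kernel sum (near). At most `2d` neighbours `s'` of `s`, `fk (d-2) v s' ≤ 4^(d-2) fk (d-2) u s`, `far_z` with the exponent `2d - 6 > d`: `(r+1)^(6-d) ≤ 1/(r+1)`. (Sums over the box are sums over the image of `rel u`.) -/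
lemma k_near (hd : 11 ≤ d) : ∃ K0 : ℝ, 1 ≤ K0 ∧ ∀ (l : ℕ) (u v : Fin d → Fin l) (r : ℕ), nd u v ≤ 1 →
    ∑ s ∈ Finset.univ.filter (fun s => r < nd u s), ∑ s', (if ∃ e, gends (boxG d l) e = s(s, s') then fk (d - 4) u s * fk (d - 2) v s' else (0 : ℝ)) ≤ K0 / ((r : ℝ) + 1) := by
  have hd1 : (1 : ℝ) ≤ (d : ℝ) := by exact_mod_cast (by omega : 1 ≤ d)
  refine ⟨3 ^ d * 3 ^ (d - 2) * ((d * 2 ^ d : ℝ) * 2), ?_, ?_⟩
  · have h1 : (1 : ℝ) ≤ 3 ^ d := one_le_pow₀ (by norm_num)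
    have h2 : (1 : ℝ) ≤ 3 ^ (d - 2) := one_le_pow₀ (by norm_num)
    have h3 : (1 : ℝ) ≤ 2 ^ d := one_le_pow₀ (by norm_num)
    exact one_le_mul_of_one_le_of_one_le (one_le_mul_of_one_le_of_one_le h1 h2)
      (one_le_mul_of_one_le_of_one_le (one_le_mul_of_one_le_of_one_le hd1 h3) (by norm_num))
  intro l u v r huv
  have hpos : ∀ (k : ℕ) (x y : Fin d → Fin l), 0 < fk k x y := by
    intro k x y
    unfold fk
    positivity
  have key : ∀ s : Fin d → Fin l, ∑ s', (if ∃ e, gends (boxG d l) e = s(s, s') then fk (d - 4) u s * fk (d - 2) v s' else (0 : ℝ)) ≤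
      3 ^ d * 3 ^ (d - 2) * fk (2 * d - 6) u s := by
    intro s
    have h1 : ∀ s', (if ∃ e, gends (boxG d l) e = s(s, s') then fk (d - 4) u s * fk (d - 2) v s' else (0 : ℝ)) ≤
        (3 ^ (d - 2) * fk (2 * d - 6) u s) * (if ∃ e, gends (boxG d l) e = s(s, s') then (1 : ℝ) else 0) := by
      intro s'
      by_cases h : ∃ e, gends (boxG d l) e = s(s, s')
      · rw [if_pos h, if_pos h, mul_one]
        have h2 := E5a_near (d - 2) u v s s' huv (E5a_adj s s' h).le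
        have h3 : fk (2 * d - 6) u s = fk (d - 4) u s * fk (d - 2) u s := by
          unfold fk
          rw [one_div_mul_one_div, ← pow_add]
          congr 2
          omega
        rw [h3]
        calc fk (d - 4) u s * fk (d - 2) v s' ≤ fk (d - 4) u s * (3 ^ (d - 2) * fk (d - 2) u s) :=
              mul_le_mul_of_nonneg_left h2 (hpos _ _ _).le
          _ = 3 ^ (d - 2) * (fk (d - 4) u s * fk (d - 2) u s) := by ring
      · rw [if_neg h, if_neg h, mul_zero]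
    calc _ ≤ ∑ s', (3 ^ (d - 2) * fk (2 * d - 6) u s) * (if ∃ e, gends (boxG d l) e = s(s, s') then (1 : ℝ) else 0) :=
          Finset.sum_le_sum fun s' _ => h1 s'
      _ = (3 ^ (d - 2) * fk (2 * d - 6) u s) * ∑ s', (if ∃ e, gends (boxG d l) e = s(s, s') then (1 : ℝ) else 0) := by
          rw [Finset.mul_sum]
      _ ≤ (3 ^ (d - 2) * fk (2 * d - 6) u s) * 3 ^ d :=
          mul_le_mul_of_nonneg_left (E5a_deg s) (mul_nonneg (by positivity) (hpos _ _ _).le)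
      _ = 3 ^ d * 3 ^ (d - 2) * fk (2 * d - 6) u s := by ring
  calc _ ≤ ∑ s ∈ Finset.univ.filter (fun s => r < nd u s), 3 ^ d * 3 ^ (d - 2) * fk (2 * d - 6) u s :=
        Finset.sum_le_sum fun s _ => key s
    _ = 3 ^ d * 3 ^ (d - 2) * ∑ s ∈ Finset.univ.filter (fun s => r < nd u s), fk (2 * d - 6) u s := by
        rw [Finset.mul_sum]
    _ ≤ 3 ^ d * 3 ^ (d - 2) * ((d * 2 ^ d : ℝ) * 2 / ((r : ℝ) + 1)) :=
        mul_le_mul_of_nonneg_left (E5a_tail hd u r) (by positivity)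
    _ = 3 ^ d * 3 ^ (d - 2) * ((d * 2 ^ d : ℝ) * 2) / ((r : ℝ) + 1) := by ring

lemma E5b_pos {l : ℕ} (k : ℕ) (x y : Fin d → Fin l) : 0 < fk k x y := by
  unfold fk
  positivity

lemma E5b_symm {l : ℕ} (k : ℕ) (x y : Fin d → Fin l) : fk k x y = fk k y x := by
  unfold fk
  rw [nd_symm]

/-- Replacing an argument by one at distance at most one. -/
lemma E5b_near {l : ℕ} (k : ℕ) (x y y' : Fin d → Fin l) (h : nd y y' ≤ 1) :
    fk k x y' ≤ 2 ^ k * fk k x y := by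
  have h1 : nd x y ≤ nd x y' + nd y' y := nd_tri x y' y
  have h2 : nd y' y ≤ 1 := by rw [nd_symm]; exact h
  have h3 : (nd x y : ℝ) ≤ nd x y' + 1 := by
    have : nd x y ≤ nd x y' + 1 := by omega
    exact_mod_cast this
  have h4 : (0 : ℝ) ≤ nd x y := Nat.cast_nonneg _
  have h5 : (0 : ℝ) ≤ nd x y' := Nat.cast_nonneg _
  have h6 : (1 + (nd x y : ℝ)) ^ k ≤ (2 * (1 + (nd x y' : ℝ))) ^ k :=
    pow_le_pow_left₀ (by linarith) (by linarith) k
  rw [mul_pow] at h6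
  unfold fk
  rw [mul_one_div, div_le_div_iff₀ (by positivity) (by positivity)]
  linarith

/-- At most `3^d` neighbours. -/
lemma E5b_deg {l : ℕ} (z : Fin d → Fin l) :
    ∑ z' : Fin d → Fin l, (open scoped Classical in (if ∃ e, gends (boxG d l) e = s(z, z') then (1 : ℝ) else 0)) ≤ 3 ^ d := by
  classical
  rw [Finset.sum_ite, Finset.sum_const_zero, add_zero, Finset.sum_const, nsmul_eq_mul, mul_one]
  have h1 : (Finset.univ.filter (fun z' : Fin d → Fin l => ∃ e, gends (boxG d l) e = s(z, z'))).card ≤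
      (bv (rel z z) 1).card := by
    apply Finset.card_le_card_of_injOn (fun z' => rel z z')
    · intro z' hz'
      have h2 := (Finset.mem_filter.1 (Finset.mem_coe.1 hz')).2
      obtain ⟨e, he⟩ := h2
      have hadj : (boxG d l).Adj z z' := by
        have h3 : s(z, z') ∈ (boxG d l).edgeSet := by
          rw [← he]
          exact e.2
        exact (SimpleGraph.mem_edgeSet _).1 h3
      rw [Finset.mem_coe, mem_bv, nz_sub]
      exact le_of_eq (adj_nz z z z' hadj)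
    · intro a _ b _ hab
      exact rel_inj z hab
  rw [card_bv] at h1
  have h2 : ((Finset.univ.filter (fun z' : Fin d → Fin l => ∃ e, gends (boxG d l) e = s(z, z'))).card : ℝ) ≤
      ((2 * 1 + 1 : ℕ) ^ d : ℕ) := by exact_mod_cast h1
  refine h2.trans (le_of_eq ?_)
  norm_num

/-- The convolution estimate in the box. -/
lemma E5b_conv {Kc : ℝ} (hKc : ∀ (a b : ℕ), a < d → b < d → d < a + b → ∀ (x y : Zd d) (S : Finset (Zd d)),
    ∑ z ∈ S, fz a (x - z) * fz b (z - y) ≤ Kc * fz (a + b - d) (x - y))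
    {l : ℕ} (a b : ℕ) (ha : a < d) (hb : b < d) (hab : d < a + b) (x y : Fin d → Fin l) :
    ∑ s, fk a x s * fk b y s ≤ Kc * fk (a + b - d) x y := by
  have h3 := hKc a b ha hb hab (rel x x) (rel x y) ((Finset.univ : Finset (Fin d → Fin l)).image (rel x))
  rw [Finset.sum_image (fun a _ b _ hab => rel_inj x hab), fz_rel] at h3
  refine le_trans (le_of_eq ?_) h3
  refine Finset.sum_congr rfl fun z _ => ?_
  rw [fz_rel, fz_rel, E5b_symm b y z]

/-- The sum over the sphere. -/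
lemma E5b_sph (hd : 11 ≤ d) {l : ℕ} (u : Fin d → Fin l) (R : ℕ) :
    ∑ z ∈ Pf u R, fk (2 * d - 8) u z ≤ (d * 2 ^ d : ℝ) / ((R : ℝ) + 1) ^ 4 := by
  classical
  have hnd : ∀ z ∈ Pf u R, nd u z = R := by
    intro z hz
    have h1 := (Finset.mem_filter.1 hz).2
    have h2 := nz_rel u u z
    have h3 : rel u u = (0 : Zd d) := by
      funext i
      show ((u i : ℕ) : ℤ) - ((u i : ℕ) : ℤ) = 0
      ring
    rw [h3, nz_sub, sub_zero] at h2
    rw [← h2]
    exact h1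
  have hcard : ((Pf u R).card : ℝ) ≤ (d * 2 ^ d : ℝ) * ((R : ℝ) + 1) ^ (d - 1) := by
    have h1 := shz (d := d) (by omega) 0 ((Pf u R).image (rel u)) R (by
      intro z hz
      obtain ⟨x, hx, rfl⟩ := Finset.mem_image.1 hz
      have h1 := (Finset.mem_filter.1 hx).2
      rw [sub_zero]
      exact le_of_eq h1) (fun k => if k = R then (1 : ℝ) else 0) (fun k => by split_ifs <;> norm_num)
    rw [Finset.sum_image (fun a _ b _ hab => rel_inj u hab)] at h1
    have h2 : ∑ x ∈ Pf u R, (if nz (rel u x - 0) = R then (1 : ℝ) else 0) = ((Pf u R).card : ℝ) := by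
      rw [Finset.card_eq_sum_ones]
      push_cast
      refine Finset.sum_congr rfl fun x hx => ?_
      have h1 := (Finset.mem_filter.1 hx).2
      rw [sub_zero, if_pos h1]
    have h3 : ∑ k ∈ Finset.range (R + 1), ((k : ℝ) + 1) ^ (d - 1) * (if k = R then (1 : ℝ) else 0) =
        ((R : ℝ) + 1) ^ (d - 1) := by
      rw [Finset.sum_eq_single R]
      · rw [if_pos rfl, mul_one]
      · intro k _ hk
        rw [if_neg hk, mul_zero]
      · intro h
        exact absurd (Finset.mem_range.2 (Nat.lt_succ_self R)) h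
    rw [h3] at h1
    calc ((Pf u R).card : ℝ) = _ := h2.symm
      _ ≤ _ := h1
  have h1 : ∑ z ∈ Pf u R, fk (2 * d - 8) u z = ((Pf u R).card : ℝ) * (1 / (1 + (R : ℝ)) ^ (2 * d - 8)) := by
    rw [← nsmul_eq_mul, ← Finset.sum_const]
    refine Finset.sum_congr rfl fun z hz => ?_
    unfold fk
    rw [hnd z hz]
  rw [h1]
  have hR : (1 : ℝ) ≤ 1 + (R : ℝ) := by
    have : (0 : ℝ) ≤ (R : ℝ) := Nat.cast_nonneg R
    linarith
  have hR0 : (0 : ℝ) < 1 + (R : ℝ) := by linarith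
  have h2 : (1 + (R : ℝ)) ^ (2 * d - 8) = (1 + (R : ℝ)) ^ (d - 1) * ((1 + (R : ℝ)) ^ (d - 11) * (1 + (R : ℝ)) ^ 4) := by
    rw [← pow_add, ← pow_add]
    congr 1
    omega
  have h3 : (1 : ℝ) ≤ (1 + (R : ℝ)) ^ (d - 11) := one_le_pow₀ hR
  rw [add_comm (R : ℝ) 1] at hcard ⊢
  calc ((Pf u R).card : ℝ) * (1 / (1 + (R : ℝ)) ^ (2 * d - 8)) ≤
      ((d * 2 ^ d : ℝ) * (1 + (R : ℝ)) ^ (d - 1)) * (1 / (1 + (R : ℝ)) ^ (2 * d - 8)) :=
        mul_le_mul_of_nonneg_right hcard (by positivity)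
    _ = (d * 2 ^ d : ℝ) * (1 / ((1 + (R : ℝ)) ^ (d - 11) * (1 + (R : ℝ)) ^ 4)) := by
        rw [h2]
        field_simp
    _ ≤ (d * 2 ^ d : ℝ) * (1 / (1 + (R : ℝ)) ^ 4) := by
        refine mul_le_mul_of_nonneg_left ?_ (by positivity)
        refine one_div_le_one_div_of_le (by positivity) ?_
        exact le_mul_of_one_le_left (by positivity) h3
    _ = (d * 2 ^ d : ℝ) / (1 + (R : ℝ)) ^ 4 := by ring

open scoped Classical in
/-- Row E5. Kernel sums (far). `conv_z`: `∑_s fk (d-4) u s fk (d-2) s z ≤ Kc fk (d-6) u z`, `∑_s fk (d-2) z s fk (d-2) s u ≤ Kc fk (d-4) z u`; replace `s'` by `s` and `v` by `u` (adjacent, factor `2^(..)` each, `2d` neighbours). Then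
`∑_{z ∈ Pf u R} fk (d-2) u z fk (d-6) u z` and `∑_{z ∈ Pf u R} fk (d-4) u z fk (d-4) u z` are at most `d 2^d (R+1)^(d-1) (R+1)^(8-2d) = K (R+1)^(7-d) ≤ K (R+1)^(-4)` (`shz`). -/
lemma k_far (hd : 11 ≤ d) : ∃ K0 : ℝ, 1 ≤ K0 ∧ ∀ (l : ℕ) (u v : Fin d → Fin l) (R : ℕ), nd u v ≤ 1 →
    ∑ s, ∑ s', (if ∃ e, gends (boxG d l) e = s(s, s') then
      fk (d - 4) u s * (∑ z ∈ Pf u R, fk (d - 2) v z * fk (d - 2) z s') +
      (∑ z ∈ Pf u R, (fk (d - 2) u z * fk (d - 4) z s + fk (d - 4) u z * fk (d - 2) z s)) * fk (d - 2) v s' else (0 : ℝ)) ≤ K0 / ((R : ℝ) + 1) ^ 4 := by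
  obtain ⟨Kc, hKc1, hKc⟩ := conv_z (d := d) (by omega)
  have hc1 : (1 : ℝ) ≤ 2 ^ (d - 2) * 2 ^ (d - 2) := by
    have h1 : (1 : ℝ) ≤ 2 ^ (d - 2) := one_le_pow₀ (by norm_num)
    nlinarith
  have hd1 : (1 : ℝ) ≤ (d : ℝ) := by exact_mod_cast (by omega : 1 ≤ d)
  refine ⟨3 ^ d * (2 ^ (d - 2) * 2 ^ (d - 2)) * (3 * Kc * (d * 2 ^ d)), ?_, ?_⟩
  · have h1 : (1 : ℝ) ≤ 3 ^ d := one_le_pow₀ (by norm_num)
    have h2 : (1 : ℝ) ≤ 2 ^ d := one_le_pow₀ (by norm_num)
    have h3 : (1 : ℝ) ≤ 3 * Kc := by linarith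
    exact one_le_mul_of_one_le_of_one_le (one_le_mul_of_one_le_of_one_le h1 hc1)
      (one_le_mul_of_one_le_of_one_le h3 (one_le_mul_of_one_le_of_one_le hd1 h2))
  intro l u v R huv
  set T : (Fin d → Fin l) → ℝ := fun s =>
    ∑ z ∈ Pf u R, (fk (d - 2) u z * (fk (d - 4) u s * fk (d - 2) z s) + fk (d - 2) u z * (fk (d - 2) u s * fk (d - 4) z s) +
      fk (d - 4) u z * (fk (d - 2) u s * fk (d - 2) z s)) with hT
  have hT0 : ∀ s, 0 ≤ T s := by
    intro s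
    refine Finset.sum_nonneg fun z _ => ?_
    have h1 := E5b_pos (d - 2) u z
    have h2 := E5b_pos (d - 4) u z
    have h3 := E5b_pos (d - 4) u s
    have h4 := E5b_pos (d - 2) u s
    have h5 := E5b_pos (d - 2) z s
    have h6 := E5b_pos (d - 4) z s
    positivity
  -- one pair
  have hpair : ∀ s s' : Fin d → Fin l, (if ∃ e, gends (boxG d l) e = s(s, s') then
      fk (d - 4) u s * (∑ z ∈ Pf u R, fk (d - 2) v z * fk (d - 2) z s') +
      (∑ z ∈ Pf u R, (fk (d - 2) u z * fk (d - 4) z s + fk (d - 4) u z * fk (d - 2) z s)) * fk (d - 2) v s' else (0 : ℝ)) ≤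
      (if ∃ e, gends (boxG d l) e = s(s, s') then (1 : ℝ) else 0) * (2 ^ (d - 2) * 2 ^ (d - 2) * T s) := by
    intro s s'
    by_cases he : ∃ e, gends (boxG d l) e = s(s, s')
    · rw [if_pos he, if_pos he, one_mul]
      obtain ⟨e, he⟩ := he
      have hadj : (boxG d l).Adj s s' := by
        have h3 : s(s, s') ∈ (boxG d l).edgeSet := by
          rw [← he]
          exact e.2
        exact (SimpleGraph.mem_edgeSet _).1 h3
      have hss : nd s s' ≤ 1 := by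
        rw [← nz_rel u s s']
        exact le_of_eq (adj_nz u s s' hadj)
      have hvs : fk (d - 2) v s' ≤ 2 ^ (d - 2) * (2 ^ (d - 2) * fk (d - 2) u s) := by
        refine (E5b_near (d - 2) v s s' hss).trans ?_
        refine mul_le_mul_of_nonneg_left ?_ (by positivity)
        rw [E5b_symm (d - 2) v s, E5b_symm (d - 2) u s]
        exact E5b_near (d - 2) s u v huv
      have hvz : ∀ z, fk (d - 2) v z ≤ 2 ^ (d - 2) * fk (d - 2) u z := by
        intro z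
        rw [E5b_symm (d - 2) v z, E5b_symm (d - 2) u z]
        exact E5b_near (d - 2) z u v huv
      have h1 : fk (d - 4) u s * (∑ z ∈ Pf u R, fk (d - 2) v z * fk (d - 2) z s') ≤
          fk (d - 4) u s * (∑ z ∈ Pf u R, (2 ^ (d - 2) * fk (d - 2) u z) * (2 ^ (d - 2) * fk (d - 2) z s)) := by
        refine mul_le_mul_of_nonneg_left (Finset.sum_le_sum fun z _ => ?_) (E5b_pos _ u s).le
        have h5 := E5b_pos (d - 2) u z
        exact mul_le_mul (hvz z) (E5b_near (d - 2) z s s' hss) (E5b_pos _ z s').le (by positivity)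
      have h2 : (∑ z ∈ Pf u R, (fk (d - 2) u z * fk (d - 4) z s + fk (d - 4) u z * fk (d - 2) z s)) * fk (d - 2) v s' ≤
          (∑ z ∈ Pf u R, (fk (d - 2) u z * fk (d - 4) z s + fk (d - 4) u z * fk (d - 2) z s)) * (2 ^ (d - 2) * (2 ^ (d - 2) * fk (d - 2) u s)) := by
        refine mul_le_mul_of_nonneg_left hvs (Finset.sum_nonneg fun z _ => ?_)
        have h3 := E5b_pos (d - 2) u z
        have h4 := E5b_pos (d - 4) u z
        have h5 := E5b_pos (d - 2) z s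
        have h6 := E5b_pos (d - 4) z s
        positivity
      refine (add_le_add h1 h2).trans (le_of_eq ?_)
      simp only [hT, Finset.mul_sum, Finset.sum_mul]
      rw [← Finset.sum_add_distrib]
      refine Finset.sum_congr rfl fun z _ => ?_
      ring
    · rw [if_neg he, if_neg he, zero_mul]
  have hsum1 : ∀ s : Fin d → Fin l, ∑ s', (if ∃ e, gends (boxG d l) e = s(s, s') then (1 : ℝ) else 0) *
      (2 ^ (d - 2) * 2 ^ (d - 2) * T s) ≤ 3 ^ d * (2 ^ (d - 2) * 2 ^ (d - 2) * T s) := by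
    intro s
    rw [← Finset.sum_mul]
    refine mul_le_mul_of_nonneg_right ?_ ?_
    · have h7 := E5b_deg s
      convert h7 using 1
    · have := hT0 s
      positivity
  have hsumT : ∑ s, T s ≤ 3 * Kc * ((d * 2 ^ d : ℝ) / ((R : ℝ) + 1) ^ 4) := by
    rw [hT, Finset.sum_comm]
    have h1 : ∀ z ∈ Pf u R, ∑ s, (fk (d - 2) u z * (fk (d - 4) u s * fk (d - 2) z s) + fk (d - 2) u z * (fk (d - 2) u s * fk (d - 4) z s) +
        fk (d - 4) u z * (fk (d - 2) u s * fk (d - 2) z s)) ≤ 3 * Kc * fk (2 * d - 8) u z := by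
      intro z _
      rw [Finset.sum_add_distrib, Finset.sum_add_distrib, ← Finset.mul_sum, ← Finset.mul_sum, ← Finset.mul_sum]
      have a1 := E5b_conv hKc (d - 4) (d - 2) (by omega) (by omega) (by omega) u z
      have a2 := E5b_conv hKc (d - 2) (d - 4) (by omega) (by omega) (by omega) u z
      have a3 := E5b_conv hKc (d - 2) (d - 2) (by omega) (by omega) (by omega) u z
      have e1 : d - 4 + (d - 2) - d = d - 6 := by omega
      have e2 : d - 2 + (d - 4) - d = d - 6 := by omega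
      have e3 : d - 2 + (d - 2) - d = d - 4 := by omega
      rw [e1] at a1
      rw [e2] at a2
      rw [e3] at a3
      have b1 : fk (d - 2) u z * fk (d - 6) u z = fk (2 * d - 8) u z := by
        unfold fk
        rw [div_mul_div_comm, one_mul, ← pow_add]
        congr 2
        omega
      have b2 : fk (d - 4) u z * fk (d - 4) u z = fk (2 * d - 8) u z := by
        unfold fk
        rw [div_mul_div_comm, one_mul, ← pow_add]
        congr 2
        omega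
      have c1 := mul_le_mul_of_nonneg_left a1 (E5b_pos (d - 2) u z).le
      have c2 := mul_le_mul_of_nonneg_left a2 (E5b_pos (d - 2) u z).le
      have c3 := mul_le_mul_of_nonneg_left a3 (E5b_pos (d - 4) u z).le
      have d1 : fk (d - 2) u z * (Kc * fk (d - 6) u z) = Kc * fk (2 * d - 8) u z := by
        rw [← b1]; ring
      have d2 : fk (d - 4) u z * (Kc * fk (d - 4) u z) = Kc * fk (2 * d - 8) u z := by
        rw [← b2]; ring
      rw [d1] at c1 c2
      rw [d2] at c3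
      linarith
    refine (Finset.sum_le_sum h1).trans ?_
    rw [← Finset.mul_sum]
    exact mul_le_mul_of_nonneg_left (E5b_sph hd u R) (by linarith)
  calc _ ≤ ∑ s : Fin d → Fin l, ∑ s', (if ∃ e, gends (boxG d l) e = s(s, s') then (1 : ℝ) else 0) *
      (2 ^ (d - 2) * 2 ^ (d - 2) * T s) := Finset.sum_le_sum fun s _ => Finset.sum_le_sum fun s' _ => hpair s s'
    _ ≤ ∑ s, 3 ^ d * (2 ^ (d - 2) * 2 ^ (d - 2) * T s) := Finset.sum_le_sum fun s _ => hsum1 s
    _ = 3 ^ d * (2 ^ (d - 2) * 2 ^ (d - 2)) * ∑ s, T s := by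
        rw [Finset.mul_sum]
        refine Finset.sum_congr rfl fun s _ => ?_
        ring
    _ ≤ 3 ^ d * (2 ^ (d - 2) * 2 ^ (d - 2)) * (3 * Kc * ((d * 2 ^ d : ℝ) / ((R : ℝ) + 1) ^ 4)) :=
        mul_le_mul_of_nonneg_left hsumT (by positivity)
    _ = _ := by ring

/-- Row E6. `xN_le`, the two-point functions inside of `Qb u R'` are at most `2 C fk` (hypothesis), `tt_conv`, `k_near`. -/
lemma e_near {C : ℝ} (hd : 11 ≤ d) (hC : 1 ≤ C) : ∃ K0 : ℝ, 1 ≤ K0 ∧ ∀ (l : ℕ) (u v : Fin d → Fin l) (r R' : ℕ) (p h : ℝ), nd u v ≤ 1 → 0 ≤ p → p ≤ 1 → 0 < h → h ≤ 1 →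
    (∀ x y, tS (gends (boxG d l)) (Qb u R') p x y ≤ 2 * (C * fk (d - 2) x y)) →
    Ex p (xN (gends (boxG d l)) h (Qb u R') (prf u (bz r)) u v) ≤ K0 * (Mh d p h / h) / ((r : ℝ) + 1) := by
  classical
  obtain ⟨Kc, hKc1, hKc⟩ := tt_conv (d := d) hd
  obtain ⟨K1, hK11, hK1⟩ := k_near (d := d) hd
  refine ⟨8 * C ^ 3 * Kc * K1, ?_, ?_⟩
  · have h1 : (1 : ℝ) ≤ C ^ 3 := one_le_pow₀ hC
    have h2 : 1 ≤ C ^ 3 * Kc := one_le_mul_of_one_le_of_one_le h1 hKc1
    have h3 : 1 ≤ C ^ 3 * Kc * K1 := one_le_mul_of_one_le_of_one_le h2 hK11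
    calc (1 : ℝ) ≤ C ^ 3 * Kc * K1 := h3
      _ ≤ 8 * (C ^ 3 * Kc * K1) := by linarith
      _ = 8 * C ^ 3 * Kc * K1 := by ring
  intro l u v r R' p h huv hp0 hp1 hh0 hh1 hT
  have hC0 : 0 ≤ C := by linarith
  have hnn : ∀ x y, 0 ≤ tS (gends (boxG d l)) (Qb u R') p x y := by
    intro x y
    exact Ex_nonneg hp0 hp1 (fun ω => by split_ifs <;> norm_num)
  have hM := Mh_Mb (d := d) l p h hp0 hp1 hh0.le hh1
  have hM0 : 0 ≤ Mh d p h :=
    (Ex_nonneg hp0 hp1 (fun ω => gh_nonneg hh0.le hh1 _)).trans (hM ∅ u)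
  have h1 := xN_le (ends := gends (boxG d l)) hp0 hp1 hh0 hh1 hM (Qb u R') (prf u (bz r)) u v
  refine h1.trans ?_
  have hset : (prf u (bz r))ᶜ ⊆ Finset.univ.filter (fun s => r < nd u s) := by
    intro s hs
    rw [Finset.mem_compl, prf, Finset.mem_filter] at hs
    rw [Finset.mem_filter]
    refine ⟨Finset.mem_univ _, ?_⟩
    by_contra hcon
    apply hs
    refine ⟨Finset.mem_univ _, ?_⟩
    rw [mem_bz]
    have h0 : rel u u = 0 := by
      funext i
      simp [rel]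
    have h2 := nz_rel u u s
    rw [h0, zero_sub, nz_neg] at h2
    rw [h2]
    exact not_lt.1 hcon
  have hterm : ∀ s s' : Fin d → Fin l,
      (if ∃ e, gends (boxG d l) e = s(s, s') then
        (∑ z, tS (gends (boxG d l)) (Qb u R') p u z * tS (gends (boxG d l)) (Qb u R') p z s) *
          tS (gends (boxG d l)) (Qb u R') p v s' else (0 : ℝ)) ≤
      8 * C ^ 3 * Kc * (if ∃ e, gends (boxG d l) e = s(s, s') then
        fk (d - 4) u s * fk (d - 2) v s' else (0 : ℝ)) := by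
    intro s s'
    by_cases hadj : ∃ e, gends (boxG d l) e = s(s, s')
    · rw [if_pos hadj, if_pos hadj]
      have ha := hKc C hC0 l (Qb u R') p hp0 hp1 hT u s
      have hb := hT v s'
      have hs0 : 0 ≤ ∑ z, tS (gends (boxG d l)) (Qb u R') p u z *
          tS (gends (boxG d l)) (Qb u R') p z s :=
        Finset.sum_nonneg (fun z _ => mul_nonneg (hnn u z) (hnn z s))
      have hm := mul_le_mul ha hb (hnn v s') (hs0.trans ha)
      refine hm.trans (le_of_eq ?_)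
      ring
    · rw [if_neg hadj, if_neg hadj, mul_zero]
  have hnn2 : ∀ s s' : Fin d → Fin l, 0 ≤ (if ∃ e, gends (boxG d l) e = s(s, s') then
        fk (d - 4) u s * fk (d - 2) v s' else (0 : ℝ)) := by
    intro s s'
    split_ifs
    · unfold fk
      positivity
    · exact le_rfl
  have h2 : ∑ s ∈ (prf u (bz r))ᶜ, ∑ s', (if ∃ e, gends (boxG d l) e = s(s, s') then
        (∑ z, tS (gends (boxG d l)) (Qb u R') p u z * tS (gends (boxG d l)) (Qb u R') p z s) *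
          tS (gends (boxG d l)) (Qb u R') p v s' else (0 : ℝ)) ≤
      8 * C ^ 3 * Kc * (K1 / ((r : ℝ) + 1)) := by
    calc ∑ s ∈ (prf u (bz r))ᶜ, ∑ s', (if ∃ e, gends (boxG d l) e = s(s, s') then
        (∑ z, tS (gends (boxG d l)) (Qb u R') p u z * tS (gends (boxG d l)) (Qb u R') p z s) *
          tS (gends (boxG d l)) (Qb u R') p v s' else (0 : ℝ))
        ≤ ∑ s ∈ (prf u (bz r))ᶜ, ∑ s', 8 * C ^ 3 * Kc * (if ∃ e, gends (boxG d l) e = s(s, s') then
            fk (d - 4) u s * fk (d - 2) v s' else (0 : ℝ)) :=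
          Finset.sum_le_sum (fun s _ => Finset.sum_le_sum (fun s' _ => hterm s s'))
      _ = 8 * C ^ 3 * Kc * ∑ s ∈ (prf u (bz r))ᶜ, ∑ s',
            (if ∃ e, gends (boxG d l) e = s(s, s') then
            fk (d - 4) u s * fk (d - 2) v s' else (0 : ℝ)) := by
          rw [Finset.mul_sum]
          refine Finset.sum_congr rfl (fun s _ => ?_)
          rw [Finset.mul_sum]
      _ ≤ 8 * C ^ 3 * Kc * ∑ s ∈ Finset.univ.filter (fun s => r < nd u s), ∑ s',
            (if ∃ e, gends (boxG d l) e = s(s, s') then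
            fk (d - 4) u s * fk (d - 2) v s' else (0 : ℝ)) := by
          refine mul_le_mul_of_nonneg_left ?_ (by positivity)
          exact Finset.sum_le_sum_of_subset_of_nonneg hset
            (fun s _ _ => Finset.sum_nonneg (fun s' _ => hnn2 s s'))
      _ ≤ 8 * C ^ 3 * Kc * (K1 / ((r : ℝ) + 1)) :=
          mul_le_mul_of_nonneg_left (hK1 l u v r huv) (by positivity)
  have h3 : 0 ≤ Mh d p h / h := div_nonneg hM0 hh0.le
  refine (mul_le_mul_of_nonneg_left h2 h3).trans (le_of_eq ?_)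
  ring

private lemma E6b_fk0 {l : ℕ} (k : ℕ) (x y : Fin d → Fin l) : 0 ≤ fk k x y := by
  unfold fk
  positivity

private lemma E6b_conv (hd : 11 ≤ d) : ∃ Kc : ℝ, 1 ≤ Kc ∧ ∀ (l : ℕ) (x y : Fin d → Fin l),
    ∑ z, fk (d - 2) x z * fk (d - 2) z y ≤ Kc * fk (d - 4) x y := by
  classical
  obtain ⟨Kc, h1, h2⟩ := conv_z (d := d) (by omega)
  refine ⟨Kc, h1, fun l x y => ?_⟩
  have h3 := h2 (d - 2) (d - 2) (by omega) (by omega) (by omega) (rel x x) (rel x y)
    (Finset.univ.image (rel x))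
  have h4 : d - 2 + (d - 2) - d = d - 4 := by omega
  rw [h4, fz_rel, Finset.sum_image (fun a _ b _ hab => rel_inj x hab)] at h3
  refine le_trans (le_of_eq ?_) h3
  exact Finset.sum_congr rfl fun z _ => by rw [fz_rel, fz_rel]

private lemma E6b_Mh0 (l : ℕ) (u : Fin d → Fin l) (p h : ℝ) (hp0 : 0 ≤ p) (hp1 : p ≤ 1) (h0 : 0 ≤ h)
    (h1 : h ≤ 1) : 0 ≤ Mh d p h :=
  (piF_nonneg u p h hp0 hp1 h0 h1 ∅ {0}).trans (Mh_ub u p h hp0 hp1 h0 h1)

/-- The algebra of the kernels. -/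
private lemma E6b_alg {l : ℕ} {C Kc : ℝ} (hC : 0 ≤ C)
    (T F G : (Fin d → Fin l) → (Fin d → Fin l) → ℝ)
    (hT0 : ∀ x y, 0 ≤ T x y) (hTF : ∀ x y, T x y ≤ C * F x y) (hF0 : ∀ x y, 0 ≤ F x y)
    (hconv : ∀ x y, ∑ z, F x z * F z y ≤ Kc * G x y)
    (P : Finset (Fin d → Fin l)) (u v s s' : Fin d → Fin l) :
    (∑ z, T u z * T z s) * (∑ z ∈ P, T v z * T z s') +
      (∑ z ∈ P, ∑ w, (T u z * T z w * T w s + T u w * T w z * T z s)) * T v s' ≤
    C ^ 4 * Kc * (G u s * (∑ z ∈ P, F v z * F z s') +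
      (∑ z ∈ P, (F u z * G z s + G u z * F z s)) * F v s') := by
  have hCF : ∀ x y, 0 ≤ C * F x y := fun x y => mul_nonneg hC (hF0 x y)
  have hTT : ∀ x y z w, T x y * T z w ≤ C ^ 2 * (F x y * F z w) := by
    intro x y z w
    calc T x y * T z w ≤ (C * F x y) * (C * F z w) :=
          mul_le_mul (hTF x y) (hTF z w) (hT0 z w) (hCF x y)
      _ = C ^ 2 * (F x y * F z w) := by ring
  have hc : ∀ x y, ∑ z, T x z * T z y ≤ C ^ 2 * (Kc * G x y) := by
    intro x y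
    calc ∑ z, T x z * T z y ≤ ∑ z, C ^ 2 * (F x z * F z y) :=
          Finset.sum_le_sum fun z _ => hTT x z z y
      _ = C ^ 2 * ∑ z, F x z * F z y := by rw [Finset.mul_sum]
      _ ≤ C ^ 2 * (Kc * G x y) := mul_le_mul_of_nonneg_left (hconv x y) (by positivity)
  have hc0 : ∀ x y, 0 ≤ ∑ z, T x z * T z y := fun x y =>
    Finset.sum_nonneg fun z _ => mul_nonneg (hT0 _ _) (hT0 _ _)
  have hKG : ∀ x y, 0 ≤ C ^ 2 * (Kc * G x y) := fun x y => (hc0 x y).trans (hc x y)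
  have a1 : ∑ z ∈ P, T v z * T z s' ≤ C ^ 2 * ∑ z ∈ P, F v z * F z s' := by
    rw [Finset.mul_sum]
    exact Finset.sum_le_sum fun z _ => hTT v z z s'
  have a10 : 0 ≤ ∑ z ∈ P, T v z * T z s' :=
    Finset.sum_nonneg fun z _ => mul_nonneg (hT0 _ _) (hT0 _ _)
  have a2 : ∑ z ∈ P, ∑ w, (T u z * T z w * T w s + T u w * T w z * T z s) ≤
      C ^ 3 * Kc * ∑ z ∈ P, (F u z * G z s + G u z * F z s) := by
    rw [Finset.mul_sum]
    refine Finset.sum_le_sum fun z _ => ?_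
    rw [Finset.sum_add_distrib]
    have b1 : ∑ w, T u z * T z w * T w s = T u z * ∑ w, T z w * T w s := by
      rw [Finset.mul_sum]
      exact Finset.sum_congr rfl fun w _ => by ring
    have b2 : ∑ w, T u w * T w z * T z s = (∑ w, T u w * T w z) * T z s := by
      rw [Finset.sum_mul]
    rw [b1, b2]
    have b3 : T u z * ∑ w, T z w * T w s ≤ (C * F u z) * (C ^ 2 * (Kc * G z s)) :=
      mul_le_mul (hTF u z) (hc z s) (hc0 z s) (hCF u z)
    have b4 : (∑ w, T u w * T w z) * T z s ≤ (C ^ 2 * (Kc * G u z)) * (C * F z s) :=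
      mul_le_mul (hc u z) (hTF z s) (hT0 z s) (hKG u z)
    have b5 : C ^ 3 * Kc * (F u z * G z s + G u z * F z s) =
        (C * F u z) * (C ^ 2 * (Kc * G z s)) + (C ^ 2 * (Kc * G u z)) * (C * F z s) := by ring
    rw [b5]
    linarith
  have a20 : 0 ≤ ∑ z ∈ P, ∑ w, (T u z * T z w * T w s + T u w * T w z * T z s) :=
    Finset.sum_nonneg fun z _ => Finset.sum_nonneg fun w _ =>
      add_nonneg (mul_nonneg (mul_nonneg (hT0 _ _) (hT0 _ _)) (hT0 _ _))
        (mul_nonneg (mul_nonneg (hT0 _ _) (hT0 _ _)) (hT0 _ _))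
  have c1 : (∑ z, T u z * T z s) * (∑ z ∈ P, T v z * T z s') ≤
      (C ^ 2 * (Kc * G u s)) * (C ^ 2 * ∑ z ∈ P, F v z * F z s') :=
    mul_le_mul (hc u s) a1 a10 (hKG u s)
  have c2 : (∑ z ∈ P, ∑ w, (T u z * T z w * T w s + T u w * T w z * T z s)) * T v s' ≤
      (C ^ 3 * Kc * ∑ z ∈ P, (F u z * G z s + G u z * F z s)) * (C * F v s') :=
    mul_le_mul a2 (hTF v s') (hT0 v s') (a20.trans a2)
  have c3 : C ^ 4 * Kc * (G u s * (∑ z ∈ P, F v z * F z s') +
      (∑ z ∈ P, (F u z * G z s + G u z * F z s)) * F v s') =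
      (C ^ 2 * (Kc * G u s)) * (C ^ 2 * ∑ z ∈ P, F v z * F z s') +
      (C ^ 3 * Kc * ∑ z ∈ P, (F u z * G z s + G u z * F z s)) * (C * F v s') := by ring
  rw [c3]
  linarith

/-- Row E6. `xF_q` at `q = pc`: `ta ≤ C fk` (`HP.U`), convolutions (`conv_z`), `k_far`. -/
lemma e_far_q {C pc : ℝ} (hp : HP d C pc) : ∃ K0 : ℝ, 1 ≤ K0 ∧ ∀ (l : ℕ) (u v : Fin d → Fin l) (R' K : ℕ) (h : ℝ), nd u v ≤ 1 → 1 ≤ R' → 0 < h → h ≤ 1 →
    Ex pc (xF (gends (boxG d l)) h (Qb u R') K u v) ≤ K0 * (1 + K * h) * (Mh d pc h / h) / ((R' : ℝ) + 1) ^ 4 := by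
  classical
  have hd := hp.d11
  have hC1 := hp.C1
  have hp0 := hp.p0
  have hp1 := hp.p1
  obtain ⟨Kc, hKc, hconv⟩ := E6b_conv hd
  obtain ⟨K1, hK1, hfar⟩ := k_far hd
  refine ⟨C ^ 4 * Kc * K1, ?_, fun l u v R' K h huv hR h0 h1 => ?_⟩
  · have e1 : 1 ≤ C ^ 4 := one_le_pow₀ hC1
    have e2 : 1 ≤ C ^ 4 * Kc := by nlinarith
    nlinarith
  have hu0 : rel u u = 0 := by
    funext i
    simp [rel]
  have hnz : ∀ x : Fin d → Fin l, nz (rel u x) = nd x u := by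
    intro x
    have h2 := nz_rel u x u
    rw [hu0, sub_zero] at h2
    exact h2
  have hQu : u ∈ Qb u R' := by
    show nz (rel u u) ≤ R'
    rw [hu0, nz_zero]
    exact Nat.zero_le _
  have hQv : v ∈ Qb u R' := by
    show nz (rel u v) ≤ R'
    rw [hnz, nd_symm]
    exact huv.trans hR
  have hPP : ∀ e x y, gends (boxG d l) e = s(x, y) → x ∈ Qb u R' → y ∉ Qb u R' → x ∈ Pf u R' := by
    intro e x y he hx hy
    have h2 := Qb_out u R' e x y he hx hy
    unfold Pf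
    exact Finset.mem_filter.2 ⟨Finset.mem_univ _, h2⟩
  have hM := Mh_Mb (d := d) l pc h hp0.le hp1.le h0.le h1
  have hMh0 := E6b_Mh0 l u pc h hp0.le hp1.le h0.le h1
  have hmain := xF_q (ends := gends (boxG d l)) hp0.le hp1.le h0 h1 hM (Qb u R') (Pf u R') K u v
    hQu hQv hPP
  refine hmain.trans ?_
  have hsum : ∑ s, ∑ s', (if ∃ e, gends (boxG d l) e = s(s, s') then
      (∑ z, ta (gends (boxG d l)) pc u z * ta (gends (boxG d l)) pc z s) *
        (∑ z ∈ Pf u R', ta (gends (boxG d l)) pc v z * ta (gends (boxG d l)) pc z s') +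
      (∑ z ∈ Pf u R', ∑ w, (ta (gends (boxG d l)) pc u z * ta (gends (boxG d l)) pc z w *
        ta (gends (boxG d l)) pc w s + ta (gends (boxG d l)) pc u w *
        ta (gends (boxG d l)) pc w z * ta (gends (boxG d l)) pc z s)) *
        ta (gends (boxG d l)) pc v s' else (0 : ℝ)) ≤
      C ^ 4 * Kc * (K1 / ((R' : ℝ) + 1) ^ 4) := by
    refine le_trans ?_ (mul_le_mul_of_nonneg_left (hfar l u v R' huv)
      (show (0 : ℝ) ≤ C ^ 4 * Kc by positivity))
    rw [Finset.mul_sum]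
    refine Finset.sum_le_sum fun s _ => ?_
    rw [Finset.mul_sum]
    refine Finset.sum_le_sum fun s' _ => ?_
    by_cases hss : ∃ e, gends (boxG d l) e = s(s, s')
    · rw [if_pos hss, if_pos hss]
      exact E6b_alg (C := C) (Kc := Kc) (by linarith) (ta (gends (boxG d l)) pc)
        (fk (d - 2)) (fk (d - 4)) (fun x y => ta_nonneg hp0.le hp1.le x y)
        (fun x y => hp.U l x y) (fun x y => E6b_fk0 _ x y) (hconv l) (Pf u R') u v s s'
    · rw [if_neg hss, if_neg hss, mul_zero]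
  have hpos : (0 : ℝ) ≤ (1 + K * h) * (Mh d pc h / h) := by positivity
  refine (mul_le_mul_of_nonneg_left hsum hpos).trans (le_of_eq ?_)
  ring

private lemma E7a_sq (K : ℕ) : ∑ k ∈ Finset.Icc 1 K, 1 / Real.sqrt (k : ℝ) ≤ 2 * Real.sqrt (K : ℝ) := by
  induction K with
  | zero => simp
  | succ K ih =>
    rw [Finset.sum_Icc_succ_top (by omega)]
    have h1 : (0 : ℝ) < Real.sqrt ((K + 1 : ℕ) : ℝ) := Real.sqrt_pos.2 (by positivity)
    have h2 : 1 / Real.sqrt ((K + 1 : ℕ) : ℝ) ≤ 2 * (Real.sqrt ((K + 1 : ℕ) : ℝ) - Real.sqrt (K : ℝ)) := by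
      rw [div_le_iff₀ h1]
      have h3 : Real.sqrt ((K + 1 : ℕ) : ℝ) ^ 2 = (K : ℝ) + 1 := by
        rw [Real.sq_sqrt (by positivity)]
        push_cast
        ring
      have h4 : Real.sqrt (K : ℝ) ^ 2 = (K : ℝ) := Real.sq_sqrt (by positivity)
      linarith [sq_nonneg (Real.sqrt ((K + 1 : ℕ) : ℝ) - Real.sqrt (K : ℝ))]
    linarith

private lemma E7a_pt (K m : ℕ) (z : ℝ) (hz : (m : ℝ) ≤ z) :
    (if m ≤ K then (m : ℝ) else 0) ≤ ∑ k ∈ Finset.Icc 1 K, (if (k : ℝ) ≤ z then (1 : ℝ) else 0) := by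
  split_ifs with h
  · have h1 : (m : ℝ) = ∑ k ∈ Finset.Icc 1 m, (1 : ℝ) := by simp
    rw [h1]
    have h2 : ∑ k ∈ Finset.Icc 1 m, (1 : ℝ) = ∑ k ∈ Finset.Icc 1 m, (if (k : ℝ) ≤ z then (1 : ℝ) else 0) := by
      refine Finset.sum_congr rfl fun k hk => ?_
      rw [if_pos]
      have h3 : (k : ℝ) ≤ (m : ℝ) := by exact_mod_cast (Finset.mem_Icc.1 hk).2
      linarith
    rw [h2]
    refine Finset.sum_le_sum_of_subset_of_nonneg (Finset.Icc_subset_Icc_right h) fun k _ _ => ?_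
    split_ifs <;> norm_num
  · refine Finset.sum_nonneg fun k _ => ?_
    split_ifs <;> norm_num

/-- Row E7. Truncated mean: `E[|C|; |C| ≤ K] ≤ ∑_{k=1}^K P(|C| ≥ k) ≤ C (2 √K + K (p - pc))` (`HT.T`). -/
lemma trunc {C c e pc : ℝ} (ht : HT d C c e pc) {l : ℕ} (p : ℝ) (hp : pc ≤ p) (hpe : p ≤ pc + e) (K : ℕ) (S : Set (Fin d → Fin l)) (x : Fin d → Fin l) :
    Ex p (fun ω => if (cS (gends (boxG d l)) ω S {x}).card ≤ K then ((cS (gends (boxG d l)) ω S {x}).card : ℝ) else 0) ≤ C * (2 * Real.sqrt K + K * (p - pc)) := by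
  have hp0 : 0 ≤ p := le_trans ht.hp.p0.le hp
  have hp1 : p ≤ 1 := le_trans hpe ht.e1.le
  have hC : 0 ≤ C := le_trans zero_le_one ht.hp.C1
  have h1 : ∀ ω : (boxG d l).edgeSet → Bool, (if (cS (gends (boxG d l)) ω S {x}).card ≤ K then ((cS (gends (boxG d l)) ω S {x}).card : ℝ) else 0) ≤
      ∑ k ∈ Finset.Icc 1 K, (if (k : ℝ) ≤ cz (gends (boxG d l)) ω x then (1 : ℝ) else 0) := by
    intro ω
    apply E7a_pt
    unfold cz
    have h2 : cS (gends (boxG d l)) ω S {x} ⊆ cu (gends (boxG d l)) ω x := by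
      intro y hy
      obtain ⟨a, ha, haS, hr⟩ := mem_cS.1 hy
      rw [Set.mem_singleton_iff] at ha
      subst ha
      exact mem_cu.2 (hr.mono (fun _ h => h) (Set.subset_univ _))
    exact_mod_cast Finset.card_le_card h2
  refine le_trans (Ex_mono hp0 hp1 h1) ?_
  rw [Ex_sum]
  have h3 : ∀ k ∈ Finset.Icc 1 K, Ex p (fun ω : (boxG d l).edgeSet → Bool => if (k : ℝ) ≤ cz (gends (boxG d l)) ω x then (1 : ℝ) else 0) ≤ C * (1 / Real.sqrt k + (p - pc)) :=
    fun k hk => ht.T l x p k hp hpe (Finset.mem_Icc.1 hk).1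
  refine le_trans (Finset.sum_le_sum h3) ?_
  rw [← Finset.mul_sum, Finset.sum_add_distrib]
  refine mul_le_mul_of_nonneg_left ?_ hC
  have h4 := E7a_sq K
  have h5 : ∑ k ∈ Finset.Icc 1 K, (p - pc) = K * (p - pc) := by
    rw [Finset.sum_const, Nat.card_Icc, nsmul_eq_mul, Nat.add_sub_cancel]
  rw [h5]
  linarith

open scoped Classical in
private lemma E7b_deg {l : ℕ} (s' : Fin d → Fin l) :
    (Finset.univ.filter (fun s : Fin d → Fin l => ∃ e, gends (boxG d l) e = s(s, s'))).card ≤ 2 * d := by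
  have hdeg := box_deg (d := d) (l := l) s'
  refine le_trans ?_ hdeg
  have hex : ∀ s : Fin d → Fin l, ∃ e : Option (boxG d l).edgeSet,
      (∃ e', gends (boxG d l) e' = s(s, s')) → ∃ e', e = some e' ∧ gends (boxG d l) e' = s(s, s') := by
    intro s
    by_cases h : ∃ e', gends (boxG d l) e' = s(s, s')
    · obtain ⟨e', he'⟩ := h
      exact ⟨some e', fun _ => ⟨e', rfl, he'⟩⟩
    · exact ⟨none, fun h' => absurd h' h⟩
  choose g hg using hex
  have h1 : (Finset.univ.filter (fun s : Fin d → Fin l => ∃ e, gends (boxG d l) e = s(s, s'))).card ≤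
      ((Finset.univ.filter (fun e : (boxG d l).edgeSet => s' ∈ gends (boxG d l) e)).image (fun e => some e)).card := by
    refine Finset.card_le_card_of_injOn g ?_ ?_
    · intro s hs
      obtain ⟨e', h1, h2⟩ := hg s (Finset.mem_filter.1 hs).2
      rw [h1]
      refine Finset.mem_coe.2 (Finset.mem_image.2 ⟨e', Finset.mem_filter.2 ⟨Finset.mem_univ _, ?_⟩, rfl⟩)
      rw [h2]
      exact Sym2.mem_mk_right _ _
    · intro s hs t ht hst
      obtain ⟨e1, h1, h2⟩ := hg s (Finset.mem_filter.1 hs).2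
      obtain ⟨e2, h3, h4⟩ := hg t (Finset.mem_filter.1 ht).2
      have h5 : e1 = e2 := by
        have : some e1 = some e2 := by rw [← h1, ← h3]; exact hst
        exact Option.some.inj this
      subst h5
      have h6 : s(s, s') = s(t, s') := by rw [← h2, ← h4]
      rw [Sym2.eq_iff] at h6
      rcases h6 with ⟨h, -⟩ | ⟨h, h'⟩
      · exact h
      · rw [h, ← h']
  exact h1.trans (Finset.card_image_le)

private lemma E7b_xF0 {V : Type*} [Fintype V] [DecidableEq V] {E : Type*} [Fintype E] [DecidableEq E]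
    {ends : E → Sym2 V} {h : ℝ} (h0 : 0 ≤ h) (h1 : h ≤ 1) (Q' : Set V) (K : ℕ) (u v : V) (ω : E → Bool) :
    0 ≤ xF ends h Q' K u v ω := by
  classical
  unfold xF
  split_ifs
  · refine mul_nonneg (fh_nonneg h0 h1 _) (Finset.sum_nonneg fun s _ => Finset.sum_nonneg fun s' _ => ?_)
    split_ifs <;> norm_num
  · exact le_rfl

private lemma E7b_num {E s C g : ℝ} (hs : 0 < s) (hg : 0 < g) (h1 : E ^ 2 ≤ C / s)
    (h2 : C * s ≤ g ^ 2) : E ≤ g / s := by
  have h3 : E ^ 2 ≤ (g / s) ^ 2 := by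
    refine h1.trans ?_
    rw [div_pow, div_le_div_iff₀ hs (by positivity)]
    nlinarith
  exact abs_le_of_sq_le_sq' h3 (by positivity) |>.2

/-- Row E7. Far, final form. `R'` with `b0` from `near_two` is given by the next statement; here: for `A ≥ 1`, `b > 0`: if `K ≤ (A+1)/h`, `(R'+1)^4 ≥ b/h`, then `E_p xF ≤ η sgF` for `h` small. `xF_csm` with `q = pc`, `csm_num` (`p2 ≤ pc + 3(p-pc) ≤ pc + e`, `Z^(2ΔK) ≤ exp(2 Δ (A+1)/(δ pc(1-pc)))`, `Δ = 2d`),
`xF_p` with `trunc` (`m ≤ C_(A,δ) h^(-1/2)`), `e_far_q` (`≤ K0 (A+2) Mh/b ≤ C h^(1/2)`): `(E_p xF)^2 ≤ C h^(-1/2)`, `E_p xF ≤ C h^(-1/4) ≤ η c' h^(-1/2)` (`sg_low`). -/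
lemma e_far {C c e pc : ℝ} (ht : HT d C c e pc) (δ : ℝ) (hδ : 0 < δ) (hδ1 : δ ≤ 1) (A b η : ℝ) (hA : 1 ≤ A) (hb : 0 < b) (hη : 0 < η) : ∃ h0 : ℝ, 0 < h0 ∧
    ∀ (l : ℕ) (u v : Fin d → Fin l) (p h : ℝ) (R' K : ℕ), Rg d pc δ l u p h → h ≤ h0 → nd u v ≤ 1 → 1 ≤ R' → (K : ℝ) ≤ (A + 1) / h → b / h ≤ ((R' : ℝ) + 1) ^ 4 →
    Ex p (xF (gends (boxG d l)) h (Qb u R') K u v) ≤ η * sgF l u p h ∅ {0} := by
  classical
  have hp := ht.hp
  have hpc0 := hp.p0
  have hpc1 := hp.p1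
  have he0 := ht.e0
  have he1 := ht.e1
  have hCC := hp.C1
  obtain ⟨c', h1, hc', hh1, hsg⟩ := sg_low ht δ hδ hδ1
  obtain ⟨CM, hCM, hMup⟩ := Mh_up ht
  obtain ⟨K0, hK0, hfar⟩ := e_far_q hp
  -- constants
  obtain ⟨Ce, hCe⟩ : ∃ Ce : ℝ, Ce = Real.exp (2 * (2 * d : ℕ) * (A + 1) / (δ * (pc * (1 - pc)))) := ⟨_, rfl⟩
  have hCe0 : 0 < Ce := by rw [hCe]; exact Real.exp_pos _
  obtain ⟨m0, hm0⟩ : ∃ m0 : ℝ, m0 = C * (2 * Real.sqrt (A + 1) + 3 * (A + 1) / Real.sqrt δ) := ⟨_, rfl⟩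
  have hm00 : 0 ≤ m0 := by rw [hm0]; positivity
  obtain ⟨Ct, hCt⟩ : ∃ Ct : ℝ, Ct = Ce * ((2 * d : ℕ) * m0 ^ 2) * (K0 * (A + 2) * CM / b) := ⟨_, rfl⟩
  have hCt0 : 0 ≤ Ct := by rw [hCt]; positivity
  obtain ⟨e0, he00, hee, hepc⟩ : ∃ e0 : ℝ, 0 < e0 ∧ 3 * e0 ≤ e ∧ e0 ≤ pc / 2 :=
    ⟨min (e / 3) (pc / 2), lt_min (by positivity) (by positivity), by
      have := min_le_left (e / 3) (pc / 2)
      linarith, min_le_right _ _⟩
  have hg0 : 0 < η * c' := mul_pos hη hc'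
  refine ⟨min (min h1 (δ * e0 ^ 2)) (min (1 / 2) (((η * c') ^ 2 / (Ct + 1)) ^ 2)), ?_, ?_⟩
  · refine lt_min (lt_min hh1 (by positivity)) (lt_min (by norm_num) (by positivity))
  intro l u v p h R' K hR hle hnd hR'1 hK hR'b
  have hle1 : h ≤ h1 := hle.trans ((min_le_left _ _).trans (min_le_left _ _))
  have hle2 : h ≤ δ * e0 ^ 2 := hle.trans ((min_le_left _ _).trans (min_le_right _ _))
  have hle4 : h ≤ ((η * c') ^ 2 / (Ct + 1)) ^ 2 := hle.trans ((min_le_right _ _).trans (min_le_right _ _))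
  have hh0 := hR.h0
  have hh1' := hR.h1
  obtain ⟨s, hs⟩ : ∃ s : ℝ, s = Real.sqrt h := ⟨_, rfl⟩
  have hs0 : 0 < s := by rw [hs]; exact Real.sqrt_pos.2 hh0
  have hss : s ^ 2 = h := by rw [hs]; exact Real.sq_sqrt hh0.le
  have hs1 : s ≤ (η * c') ^ 2 / (Ct + 1) := by
    rw [hs]
    exact Real.sqrt_le_iff.2 ⟨by positivity, hle4⟩
  have hx : Real.sqrt (h / δ) ≤ e0 := by
    rw [Real.sqrt_le_iff]
    refine ⟨he00.le, ?_⟩
    rw [div_le_iff₀ hδ]
    linarith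
  have hxs : Real.sqrt (h / δ) = s / Real.sqrt δ := by rw [Real.sqrt_div hh0.le, hs]
  have hpa := hR.pa
  have hpb := hR.pb
  have hp1 : p < 1 := by linarith
  have hp0 : 0 < p := by linarith
  obtain ⟨Z, hZ⟩ : ∃ Z : ℝ, Z = p ^ 2 / pc + (1 - p) ^ 2 / (1 - pc) := ⟨_, rfl⟩
  obtain ⟨p2, hp2⟩ : ∃ p2 : ℝ, p2 = p ^ 2 / pc / Z := ⟨_, rfl⟩
  obtain ⟨n1, n2, n3, n4, n5⟩ := csm_num hpc0 hpc1 hpa hp1 (by linarith) hZ hp2
  have hcs := xF_csm (ends := gends (boxG d l)) Subtype.val_injective hpc0 hpc1 hp0.le hp1.le hh0.le hh1'.le hZ hp2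
    (2 * d) (fun s' => E7b_deg s') (Qb u R') K u v
  -- first factor
  have hKh : (K : ℝ) * h ≤ A + 1 := by
    have := mul_le_mul_of_nonneg_right hK hh0.le
    rwa [div_mul_cancel₀ _ hh0.ne'] at this
  have f1 : Z ^ (2 * (2 * d) * K) ≤ Ce := by
    have e1 : Z ^ (2 * (2 * d) * K) ≤ (Real.exp ((p - pc) ^ 2 / (pc * (1 - pc)))) ^ (2 * (2 * d) * K) :=
      pow_le_pow_left₀ (by linarith) n5 _
    refine e1.trans ?_
    rw [hCe, ← Real.exp_nat_mul]
    refine Real.exp_le_exp.2 ?_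
    have e2 : (p - pc) ^ 2 ≤ h / δ := by
      have e3 : p - pc ≤ Real.sqrt (h / δ) := by linarith
      have e4 := pow_le_pow_left₀ (by linarith) e3 2
      rwa [Real.sq_sqrt (by positivity)] at e4
    have hq : 0 < pc * (1 - pc) := mul_pos hpc0 (by linarith)
    have e5 : (p - pc) ^ 2 / (pc * (1 - pc)) ≤ h / δ / (pc * (1 - pc)) :=
      div_le_div_of_nonneg_right e2 hq.le
    have e6 : ((2 * (2 * d) * K : ℕ) : ℝ) * ((p - pc) ^ 2 / (pc * (1 - pc))) ≤
        ((2 * (2 * d) * K : ℕ) : ℝ) * (h / δ / (pc * (1 - pc))) :=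
      mul_le_mul_of_nonneg_left e5 (Nat.cast_nonneg _)
    refine e6.trans ?_
    have e7 : ((2 * (2 * d) * K : ℕ) : ℝ) * (h / δ / (pc * (1 - pc))) =
        2 * (2 * d : ℕ) * ((K : ℝ) * h) / (δ * (pc * (1 - pc))) := by
      push_cast
      field_simp
    rw [e7]
    refine div_le_div_of_nonneg_right ?_ (by positivity)
    exact mul_le_mul_of_nonneg_left hKh (by positivity)
  -- second factor
  have hp2e : p2 ≤ pc + e := by linarith
  have hx3 : p2 - pc ≤ 3 * (s / Real.sqrt δ) := by rw [← hxs]; linarith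
  have hsK : Real.sqrt K ≤ Real.sqrt (A + 1) / s := by
    rw [hs, ← Real.sqrt_div (by linarith)]
    exact Real.sqrt_le_sqrt hK
  have hm : ∀ (S : Set (Fin d → Fin l)) (x : Fin d → Fin l),
      Ex p2 (fun ω => if (cS (gends (boxG d l)) ω S {x}).card ≤ K then ((cS (gends (boxG d l)) ω S {x}).card : ℝ) else 0) ≤ m0 / s := by
    intro S x
    refine (trunc ht p2 n1 hp2e K S x).trans ?_
    have e1 : (K : ℝ) * (p2 - pc) ≤ (A + 1) / h * (3 * (s / Real.sqrt δ)) :=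
      mul_le_mul hK hx3 (by linarith) (by positivity)
    have e2 : (A + 1) / h * (3 * (s / Real.sqrt δ)) = 3 * (A + 1) / Real.sqrt δ / s := by
      rw [← hss]
      field_simp
    rw [e2] at e1
    have e3 : m0 / s = C * (2 * (Real.sqrt (A + 1) / s) + 3 * (A + 1) / Real.sqrt δ / s) := by
      rw [hm0]
      field_simp
    rw [e3]
    exact mul_le_mul_of_nonneg_left (by linarith) (by linarith)
  have f2 := xF_p (ends := gends (boxG d l)) (p := p2) (h := h) (m := m0 / s) (by linarith) n3 hh0.le hh1'.le ((2 * d : ℕ) : ℝ)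
    (fun s' => by exact_mod_cast E7b_deg s') (Qb u R') K u v hm
  -- third factor
  have hMpc := hMup pc h le_rfl (by linarith) hh0 hh1'
  rw [sub_self, add_zero, ← hs] at hMpc
  have f3 : Ex pc (xF (gends (boxG d l)) h (Qb u R') K u v) ≤ K0 * (A + 2) * CM / b * s := by
    refine (hfar l u v R' K h hnd hR'1 hh0 hh1'.le).trans ?_
    have hR4 : 0 < ((R' : ℝ) + 1) ^ 4 := by positivity
    rw [div_le_iff₀ hR4]
    have e1 : K0 * (1 + K * h) * (Mh d pc h / h) ≤ K0 * (A + 2) * (CM * s / h) := by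
      refine mul_le_mul (mul_le_mul_of_nonneg_left (by linarith) (by linarith))
        (div_le_div_of_nonneg_right hMpc hh0.le) ?_ (by positivity)
      have := Mh_low ht
      obtain ⟨c2, hc2, hl⟩ := this
      have h3 := hl pc h le_rfl hpc1.le hh0 hh1'
      have h4 : 0 ≤ c2 * Real.sqrt h := by positivity
      exact div_nonneg (h4.trans h3) hh0.le
    refine e1.trans ?_
    have e2 : K0 * (A + 2) * (CM * s / h) = K0 * (A + 2) * CM / b * s * (b / h) := by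
      field_simp
    rw [e2]
    exact mul_le_mul_of_nonneg_left hR'b (by positivity)
  have g2 : 0 ≤ Ex p2 (xF (gends (boxG d l)) h (Qb u R') K u v) :=
    Ex_nonneg (by linarith) n3 (fun ω => E7b_xF0 hh0.le hh1'.le _ _ _ _ _)
  have g3 : 0 ≤ Ex pc (xF (gends (boxG d l)) h (Qb u R') K u v) :=
    Ex_nonneg hpc0.le hpc1.le (fun ω => E7b_xF0 hh0.le hh1'.le _ _ _ _ _)
  have hfin : (Ex p (xF (gends (boxG d l)) h (Qb u R') K u v)) ^ 2 ≤ Ct / s := by
    refine hcs.trans ?_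
    have hZ0 : 0 ≤ Z ^ (2 * (2 * d) * K) := pow_nonneg (by linarith) _
    have e1 : Z ^ (2 * (2 * d) * K) * Ex p2 (xF (gends (boxG d l)) h (Qb u R') K u v) *
        Ex pc (xF (gends (boxG d l)) h (Qb u R') K u v) ≤
        Ce * (((2 * d : ℕ) : ℝ) * (m0 / s) ^ 2) * (K0 * (A + 2) * CM / b * s) :=
      mul_le_mul (mul_le_mul f1 f2 g2 hCe0.le) f3 g3 (by positivity)
    refine e1.trans (le_of_eq ?_)
    rw [hCt]
    field_simp
  have hsg' := hsg l u p h hR hle1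
  rw [← hs] at hsg'
  have hE := E7b_num hs0 hg0 hfin (by
    have h5 : s * (Ct + 1) ≤ (η * c') ^ 2 := by
      rwa [le_div_iff₀ (by positivity)] at hs1
    linarith)
  refine hE.trans ?_
  have h6 : η * c' / s = η * (c' / s) := by ring
  rw [h6]
  exact mul_le_mul_of_nonneg_left hsg' hη.le

/-- Row E7. The radius: `R' = ⌊b1 h^(-1/4)⌋`: `(p - pc)(R'+1)^2 ≤ sqrt(h/δ) 4 b1^2 h^(-1/2) ≤ b0`, `(R'+1)^4 ≥ b1^4/h`. -/
lemma radius (δ b0 : ℝ) (hδ : 0 < δ) (hb0 : 0 < b0) : ∃ b : ℝ, 0 < b ∧ ∃ h0 : ℝ, 0 < h0 ∧ ∀ h x : ℝ, 0 < h → h ≤ h0 → 0 ≤ x → x ≤ Real.sqrt (h / δ) → ∃ R' : ℕ, 1 ≤ R' ∧ x * ((R' : ℝ) + 1) ^ 2 ≤ b0 ∧ b / h ≤ ((R' : ℝ) + 1) ^ 4 := by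
  have hs : 0 < Real.sqrt δ := Real.sqrt_pos.2 hδ
  obtain ⟨t, ht⟩ : ∃ t : ℝ, t = b0 * Real.sqrt δ / 4 := ⟨_, rfl⟩
  have ht0 : 0 < t := by rw [ht]; positivity
  refine ⟨t ^ 2, by positivity, t ^ 2, by positivity, ?_⟩
  intro h x hh hh0 hx0 hx
  have hq : 0 < Real.sqrt h := Real.sqrt_pos.2 hh
  have hq2 : Real.sqrt h ^ 2 = h := Real.sq_sqrt hh.le
  have hqt : Real.sqrt h ≤ t := by
    rw [← Real.sqrt_sq ht0.le]
    exact Real.sqrt_le_sqrt hh0
  have hr1 : 1 ≤ t / Real.sqrt h := by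
    rw [le_div_iff₀ hq]
    linarith
  obtain ⟨y, hy⟩ : ∃ y : ℝ, y = Real.sqrt (t / Real.sqrt h) := ⟨_, rfl⟩
  have hy1 : 1 ≤ y := by
    rw [hy]
    exact Real.one_le_sqrt.2 hr1
  have hy2 : y ^ 2 = t / Real.sqrt h := by
    rw [hy]
    exact Real.sq_sqrt (by positivity)
  have hf1 : (⌊y⌋₊ : ℝ) ≤ y := Nat.floor_le (by linarith)
  have hf2 : y < (⌊y⌋₊ : ℝ) + 1 := Nat.lt_floor_add_one y
  refine ⟨⌊y⌋₊, ?_, ?_, ?_⟩
  · exact Nat.le_floor (by simpa using hy1)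
  · have h1 : ((⌊y⌋₊ : ℝ) + 1) ^ 2 ≤ 4 * y ^ 2 := by nlinarith
    have h2 : x * ((⌊y⌋₊ : ℝ) + 1) ^ 2 ≤ Real.sqrt (h / δ) * (4 * y ^ 2) :=
      mul_le_mul hx h1 (by positivity) (Real.sqrt_nonneg _)
    refine le_trans h2 (le_of_eq ?_)
    rw [hy2, Real.sqrt_div hh.le, ht]
    field_simp
  · have h1 : y ^ 4 = t ^ 2 / h := by
      have h2 : y ^ 4 = (y ^ 2) ^ 2 := by ring
      rw [h2, hy2, div_pow, hq2]
    rw [← h1]
    exact pow_le_pow_left₀ (by linarith) hf2.le 4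

private lemma E8_rel0 {l : ℕ} (u : Fin d → Fin l) : rel u u = 0 := by
  funext i
  simp [rel]

private lemma E8_nzr {l : ℕ} (u v : Fin d → Fin l) : nz (rel u v) = nd u v := by
  have h := nz_rel u u v
  rw [E8_rel0, zero_sub, nz_neg] at h
  exact h

private lemma E8_ne {l : ℕ} (u v : Fin d → Fin l) (h : nd u v = 1) : u ≠ v := by
  intro huv
  rw [← E8_nzr, ← huv, E8_rel0, nz_zero] at h
  omega

private lemma E8_card {l : ℕ} (u : Fin d → Fin l) (r : ℕ) : ((prf u (bz r)).card : ℝ) ≤ (2 * (r : ℝ) + 1) ^ d := by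
  have h1 : (prf u (bz r)).card ≤ (bz r : Finset (Zd d)).card := prf_card u (bz r)
  have h2 : (bz r : Finset (Zd d)) = bv 0 r := by
    simp [bz, bv]
  rw [h2, card_bv] at h1
  have h3 : ((prf u (bz r)).card : ℝ) ≤ (((2 * r + 1) ^ d : ℕ) : ℝ) := Nat.cast_le.2 (h2 ▸ h1)
  refine le_trans h3 (le_of_eq ?_)
  push_cast
  rfl

private lemma E8_pow {h A : ℝ} (h0 : 0 < h) (h1 : h ≤ 1) (K : ℕ) (hK : A / h ≤ (K : ℝ)) : (1 - h) ^ K ≤ Real.exp (-A) := by
  have h2 : 1 - h ≤ Real.exp (-h) := by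
    have := Real.add_one_le_exp (-h)
    linarith
  have h3 : (1 - h) ^ K ≤ (Real.exp (-h)) ^ K := pow_le_pow_left₀ (by linarith) h2 K
  have h4 : (Real.exp (-h)) ^ K = Real.exp (K * (-h)) := (Real.exp_nat_mul (-h) K).symm
  have h5 : A ≤ K * h := by
    rwa [div_le_iff₀ h0] at hK
  have h6 : Real.exp (K * (-h)) ≤ Real.exp (-A) := by
    apply Real.exp_le_exp.2
    linarith
  linarith [h3, h4.le, h6]

private lemma E8_A (L η : ℝ) (hL : 1 ≤ L) (hη : 0 < η) : ∃ A : ℝ, 1 ≤ A ∧ 2 * L * Real.exp (-(A / 2)) ≤ η / 6 := by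
  have hL0 : 0 < L := by linarith
  refine ⟨24 * L / η + 1, ?_, ?_⟩
  · have : 0 ≤ 24 * L / η := by positivity
    linarith
  · set x : ℝ := (24 * L / η + 1) / 2 with hx
    have hx0 : 12 * L / η ≤ x := by
      have : 12 * L / η = (24 * L / η) / 2 := by ring
      rw [this, hx]
      linarith
    have hp : 0 < 12 * L / η := by positivity
    have hx1 : 0 < x := by linarith
    have h1 : x ≤ Real.exp x := by
      have := Real.add_one_le_exp x
      linarith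
    have h2 : 12 * L / η ≤ Real.exp x := le_trans hx0 h1
    rw [Real.exp_neg]
    have h3 : (Real.exp x)⁻¹ ≤ (12 * L / η)⁻¹ := inv_anti₀ hp h2
    have h4 : 2 * L * (12 * L / η)⁻¹ = η / 6 := by
      field_simp
      ring
    calc 2 * L * (Real.exp x)⁻¹ ≤ 2 * L * (12 * L / η)⁻¹ := by
          apply mul_le_mul_of_nonneg_left h3
          linarith
      _ = η / 6 := h4

private lemma E8_r (K L η : ℝ) (hη : 0 < η) : ∃ r : ℕ, 1 ≤ r ∧ K * L / ((r : ℝ) + 1) ≤ η / 6 := by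
  obtain ⟨n, hn⟩ := exists_nat_ge (6 * (K * L) / η)
  refine ⟨n + 1, by omega, ?_⟩
  have h0 : (0 : ℝ) < ((n + 1 : ℕ) : ℝ) + 1 := by positivity
  rw [div_le_iff₀ h0]
  rw [div_le_iff₀ hη] at hn
  push_cast
  linarith

private lemma E8_R (B η : ℝ) (hB : 0 < B) (hη : 0 < η) (r : ℕ) : ∃ R : ℕ, r < R ∧ B * (1 / Real.sqrt ((R : ℝ) - r)) ≤ η / 6 := by
  obtain ⟨n, hn⟩ := exists_nat_ge ((6 * B / η) ^ 2)
  refine ⟨r + (n + 1), by omega, ?_⟩
  have h0 : ((r + (n + 1) : ℕ) : ℝ) - r = (n : ℝ) + 1 := by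
    push_cast
    ring
  rw [h0]
  have h1 : 6 * B / η ≤ Real.sqrt ((n : ℝ) + 1) := by
    apply Real.le_sqrt_of_sq_le
    linarith
  have h2 : 0 < 6 * B / η := by positivity
  have h3 : 1 / Real.sqrt ((n : ℝ) + 1) ≤ 1 / (6 * B / η) := one_div_le_one_div_of_le h2 h1
  have h4 : B * (1 / (6 * B / η)) = η / 6 := by
    field_simp
  calc B * (1 / Real.sqrt ((n : ℝ) + 1)) ≤ B * (1 / (6 * B / η)) := mul_le_mul_of_nonneg_left h3 hB.le
    _ = η / 6 := h4

/-- The final inequality. -/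
private lemma E8_fin {M m h L C η B D E q K0 r s x T1 T2 T3 om o1 o2 X Y : ℝ} (hM : 0 < M) (hm : 0 < m) (hK0 : 1 ≤ K0) (hr : 0 ≤ r) (hL : 1 ≤ L) (hE0 : 0 ≤ E)
    (hX : X ≤ M * T1 + M * T2 + M * T3 + m * (q * (2 * M)) + M * om) (hom : om ≤ o1 + o2)
    (hT1 : T1 ≤ Y) (hT2 : T2 ≤ D * Y) (hD : 0 ≤ D) (hY : Y ≤ m * (2 * L * C * (s + x))) (hB : B = (1 + D) * (2 * L * C))
    (hs : B * s ≤ η / 6) (hx : B * x ≤ η / 6) (hT3 : T3 ≤ E / h * (2 * M)) (hE : 2 * L * E ≤ η / 6) (hML : M / h ≤ L * m)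
    (hq : q ≤ E) (hN : o1 ≤ K0 * (M / h) / (r + 1)) (hr2 : K0 * L / (r + 1) ≤ η / 6) (hF : o2 ≤ η / 6 * m) : X ≤ η * (M * m) := by
  have h12 : T1 + T2 ≤ m * (η / 3) := by
    have e1 : T1 + T2 ≤ (1 + D) * Y := by linarith
    have e2 : (1 + D) * Y ≤ (1 + D) * (m * (2 * L * C * (s + x))) := mul_le_mul_of_nonneg_left hY (by linarith)
    have e3 : (1 + D) * (m * (2 * L * C * (s + x))) = m * (B * s + B * x) := by
      rw [hB]
      ring
    have e4 : m * (B * s + B * x) ≤ m * (η / 3) := mul_le_mul_of_nonneg_left (by linarith) hm.le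
    linarith
  have h3 : T3 ≤ m * (η / 6) := by
    have e1 : E / h * (2 * M) = 2 * E * (M / h) := by ring
    have e2 : 2 * E * (M / h) ≤ 2 * E * (L * m) := mul_le_mul_of_nonneg_left hML (by linarith)
    have e3 : 2 * E * (L * m) = m * (2 * L * E) := by ring
    have e4 : m * (2 * L * E) ≤ m * (η / 6) := mul_le_mul_of_nonneg_left hE hm.le
    linarith
  have h4 : q * 2 ≤ η / 6 := by
    have e1 : E ≤ L * E := by nlinarith
    linarith
  have h5 : o1 ≤ m * (η / 6) := by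
    have hr1 : 0 < r + 1 := by linarith
    have e1 : K0 * (M / h) / (r + 1) ≤ K0 * (L * m) / (r + 1) := by
      apply div_le_div_of_nonneg_right _ hr1.le
      exact mul_le_mul_of_nonneg_left hML (by linarith)
    have e2 : K0 * (L * m) / (r + 1) = m * (K0 * L / (r + 1)) := by ring
    have e3 : m * (K0 * L / (r + 1)) ≤ m * (η / 6) := mul_le_mul_of_nonneg_left hr2 hm.le
    linarith
  have f1 : M * (T1 + T2) ≤ M * (m * (η / 3)) := mul_le_mul_of_nonneg_left h12 hM.le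
  have f3 : M * T3 ≤ M * (m * (η / 6)) := mul_le_mul_of_nonneg_left h3 hM.le
  have f4 : (m * M) * (q * 2) ≤ (m * M) * (η / 6) := mul_le_mul_of_nonneg_left h4 (by positivity)
  have f5 : M * om ≤ M * (m * (η / 3)) := by
    apply mul_le_mul_of_nonneg_left _ hM.le
    linarith
  linarith

/-- Row E8. The error is small. Given `δ`, `η`: `L` from `rg_num` (`Mh/h ≤ L sgF`, `Mh^2/h ≤ L`..); `A` with `2 L e^(-A/2)`, `2 e^(-A)` small (`K = ⌈A/h⌉`: `(1-h)^K ≤ e^(-A)`), `r` with `L K0/(r+1)` small (`e_near`), then `R > r` with `(1 + (2r+1)^d) 2 L C/√(R-r)` small (`e_arm` for the points of `prf u (bz r)` and for `v`), then `h0`. `q_diff`, `om_split`, `radius`, `near_two`, `e_far`, `e_tail`, `e_tl`. -/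
lemma q_close {C c e pc : ℝ} (ht : HT d C c e pc) (δ : ℝ) (hδ : 0 < δ) (hδ1 : δ ≤ 1) (η : ℝ) (hη : 0 < η) : ∃ r R : ℕ, ∃ h0 : ℝ, 0 < h0 ∧ ∀ (l : ℕ) (u v : Fin d → Fin l) (p h : ℝ),
    Rg d pc δ l u p h → h ≤ h0 → nd u v = 1 →
    q1 (gends (boxG d l)) p h (Qb u R) (prf u (bz r)) u v - q0 (gends (boxG d l)) p h u v ≤ η * (Mh d p h * sgF l u p h ∅ {0}) := by
  have hC1 : 1 ≤ C := ht.hp.C1
  have hC0 : 0 < C := by linarith
  obtain ⟨L, hL1, hrg⟩ := rg_num ht δ hδ hδ1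
  have hL0 : 0 < L := by linarith
  obtain ⟨K0, hK01, hnear⟩ := e_near ht.hp.d11 hC1
  obtain ⟨b0, hb0, htwo⟩ := near_two ht.hp
  obtain ⟨A, hA1, hA2⟩ := E8_A L η hL1 hη
  obtain ⟨r, hr1, hr2⟩ := E8_r K0 L η hη
  set B : ℝ := (1 + (2 * (r : ℝ) + 1) ^ d) * (2 * L * C) with hBdef
  have hB0 : 0 < B := by positivity
  obtain ⟨R, hR1, hR2⟩ := E8_R B η hB0 hη r
  obtain ⟨b, hb, h2, hh2, hrad⟩ := radius δ b0 hδ hb0
  obtain ⟨h3, hh3, hfar⟩ := e_far ht δ hδ hδ1 A b (η / 6) hA1 hb (by positivity)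
  obtain ⟨h1, hh1, hnum⟩ := hrg (η / (6 * B)) (by positivity) 0
  refine ⟨r, R, min h1 (min h2 h3), lt_min hh1 (lt_min hh2 hh3), ?_⟩
  intro l u v p h hR hle huv
  have hle1 : h ≤ h1 := le_trans hle (min_le_left _ _)
  have hle2 : h ≤ h2 := le_trans hle (le_trans (min_le_right _ _) (min_le_left _ _))
  have hle3 : h ≤ h3 := le_trans hle (le_trans (min_le_right _ _) (min_le_right _ _))
  obtain ⟨⟨hpe, hp2, hpη⟩, -, hM0, -, -, -, hm0, -, hML, -⟩ := hnum l u p h hR hle1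
  have hpc0 : 0 < pc := ht.hp.p0
  have hpc1 : pc < 1 := ht.hp.p1
  have hpp : pc ≤ p := hR.pa
  have hp0 : 0 ≤ p := by linarith
  have hp1 : p ≤ 1 := by linarith
  have hh0 : 0 < h := hR.h0
  have hh1' : h ≤ 1 := hR.h1.le
  obtain ⟨R', hR'1, hR'2, hR'3⟩ := hrad h (p - pc) hh0 hle2 (by linarith) (by linarith [hR.pb])
  have htS : ∀ x y, tS (gends (boxG d l)) (Qb u R') p x y ≤ 2 * (C * fk (d - 2) x y) :=
    htwo l u R' p hpp hp2 hR'2
  set K : ℕ := ⌈A / h⌉₊ with hKdef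
  have hK1 : A / h ≤ (K : ℝ) := Nat.le_ceil _
  have hAh : 0 ≤ A / h := by positivity
  have hK2 : (K : ℝ) ≤ (A + 1) / h := by
    have e1 : (K : ℝ) < A / h + 1 := Nat.ceil_lt_add_one hAh
    have e2 : (1 : ℝ) ≤ 1 / h := by
      rw [le_div_iff₀ hh0]
      linarith
    have e3 : (A + 1) / h = A / h + 1 / h := by ring
    linarith
  have hK3 : 1 / h ≤ (K : ℝ) := by
    refine le_trans ?_ hK1
    exact div_le_div_of_nonneg_right hA1 hh0.le
  have hMb : Mb (gends (boxG d l)) p h (Mh d p h) := Mh_Mb l p h hp0 hp1 hh0.le hh1'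
  have hne : u ≠ v := E8_ne u v huv
  have hdiff := q_diff hp0 hp1 hh0.le hh1' hMb (Qb u R) (prf u (bz r)) K u v hne
    (fun S => e_tl p h hp0 hp1 hh0 hh1' K hK3 S v)
  have hsplit := om_split hp0 hp1 hh0.le hh1' (ends := gends (boxG d l)) (Qb u R') (prf u (bz r)) K u v
  have hN := hnear l u v r R' p h huv.le hp0 hp1 hh0 hh1' htS
  have hF := hfar l u v p h R' K hR hle3 huv.le hR'1 hK2 hR'3
  have hT := e_tail p h A hp0 hp1 hh0 hh1' hA1 K hK1 u
  -- the arms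
  set Y : ℝ := Mh d p h / h * (2 * (C * (1 / Real.sqrt ((R : ℝ) - r) + (p - pc)))) with hY
  have hsx : 0 ≤ 1 / Real.sqrt ((R : ℝ) - r) + (p - pc) := by
    have : 0 ≤ 1 / Real.sqrt ((R : ℝ) - r) := by positivity
    linarith
  have hY0 : 0 ≤ Y := by
    have : 0 ≤ Mh d p h / h := by positivity
    positivity
  have hT1 := e_arm ht u v R r hR1 (by rw [E8_nzr, huv]; exact hr1) p h hpp hpe hh0 hh1'
  have hT2 : ∑ s ∈ prf u (bz r), Ex p (fun ω => if s ∈ cu (gends (boxG d l)) ω u ∧ s ∉ cS (gends (boxG d l)) ω (Qb u R)ᶜ {u} then fh h (cu (gends (boxG d l)) ω u).card else (0 : ℝ)) ≤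
      (2 * (r : ℝ) + 1) ^ d * Y := by
    have e1 : ∑ s ∈ prf u (bz r), Ex p (fun ω => if s ∈ cu (gends (boxG d l)) ω u ∧ s ∉ cS (gends (boxG d l)) ω (Qb u R)ᶜ {u} then fh h (cu (gends (boxG d l)) ω u).card else (0 : ℝ)) ≤
        ∑ _s ∈ prf u (bz r), Y := by
      apply Finset.sum_le_sum
      intro s hs
      have hs' : nz (rel u s) ≤ r := by
        have := (Finset.mem_filter.1 hs).2
        exact (mem_bz r _).1 this
      exact e_arm ht u s R r hR1 hs' p h hpp hpe hh0 hh1'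
    rw [Finset.sum_const, nsmul_eq_mul] at e1
    exact le_trans e1 (mul_le_mul_of_nonneg_right (E8_card u r) hY0)
  have hYm : Y ≤ sgF l u p h ∅ {0} * (2 * L * C * (1 / Real.sqrt ((R : ℝ) - r) + (p - pc))) := by
    have e1 : 0 ≤ 2 * (C * (1 / Real.sqrt ((R : ℝ) - r) + (p - pc))) := by positivity
    have e2 := mul_le_mul_of_nonneg_right hML e1
    refine le_trans e2 (le_of_eq ?_)
    ring
  have hx : B * (p - pc) ≤ η / 6 := by
    have e1 : B * (p - pc) ≤ B * (η / (6 * B)) := mul_le_mul_of_nonneg_left hpη hB0.le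
    have e2 : B * (η / (6 * B)) = η / 6 := by
      field_simp
    linarith
  have hq : (1 - h) ^ K ≤ Real.exp (-(A / 2)) := by
    refine le_trans (E8_pow hh0 hh1' K hK1) ?_
    apply Real.exp_le_exp.2
    linarith
  rw [← sgF_one u p h] at hdiff
  exact E8_fin hM0 hm0 hK01 (Nat.cast_nonneg r) hL1 (Real.exp_nonneg _) hdiff hsplit hT1 hT2 (by positivity) hYm hBdef hR2 hx hT hA2 hML hq hN hr2 hF

/-- The centre of a large box is a point of the region. -/
private lemma E9a_pt (d : ℕ) (pc : ℝ) (m : ℕ) : ∃ (l : ℕ) (u : Fin d → Fin l), ∀ δ : ℝ, 0 < δ →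
    Rg d pc δ l u pc (1 / ((m : ℝ) + 2)) := by
  refine ⟨2 * (m + 2) ^ 2 + 1, fun _ => ⟨(m + 2) ^ 2, by omega⟩, fun δ _ => ?_⟩
  have hm : (0 : ℝ) < (m : ℝ) + 2 := by positivity
  refine ⟨by positivity, ?_, le_rfl, ?_, ?_⟩
  · rw [div_lt_one hm]
    have : (0 : ℝ) ≤ (m : ℝ) := Nat.cast_nonneg m
    linarith
  · have := Real.sqrt_nonneg (1 / ((m : ℝ) + 2) / δ)
    linarith
  · intro n hn i
    have h1 : (1 : ℝ) / (1 / ((m : ℝ) + 2)) ^ 2 = (((m + 2) ^ 2 : ℕ) : ℝ) := by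
      push_cast
      field_simp
    rw [h1] at hn
    have h2 : n ≤ (m + 2) ^ 2 := by exact_mod_cast hn
    show n ≤ (m + 2) ^ 2 ∧ (m + 2) ^ 2 + n < 2 * (m + 2) ^ 2 + 1
    omega

private lemma E9a_small (h0 : ℝ) (hh : 0 < h0) : ∃ M : ℕ, ∀ m : ℕ, M ≤ m → 1 / ((m : ℝ) + 2) ≤ h0 := by
  obtain ⟨M, hM⟩ := exists_nat_gt (1 / h0)
  refine ⟨M, fun m hm => ?_⟩
  have h1 : (M : ℝ) ≤ m := by exact_mod_cast hm
  have h2 : (0 : ℝ) < (m : ℝ) + 2 := by positivity
  rw [div_le_iff₀ h2]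
  rw [div_lt_iff₀ hh] at hM
  nlinarith

/-- Row E9. An abstract Cauchy argument. For every `η` there is a number `α` with `|f - α| ≤ η` in the region for `h` small; so there is one limit. (The region contains points with arbitrarily small `h`: `p = pc`, large box, centre.) The region for `δ` contains the region for `δ' ≥ δ`: so the limit is the same for all `δ`. -/
lemma cau (pc : ℝ) (f : (l : ℕ) → (Fin d → Fin l) → ℝ → ℝ → ℝ)
    (hf : ∀ δ : ℝ, 0 < δ → δ ≤ 1 → ∀ η : ℝ, 0 < η → ∃ α h0 : ℝ, 0 < h0 ∧ ∀ (l : ℕ) (u : Fin d → Fin l) (p h : ℝ), Rg d pc δ l u p h → h ≤ h0 → |f l u p h - α| ≤ η) :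
    ∃ a : ℝ, ∀ δ : ℝ, 0 < δ → δ ≤ 1 → ∀ η : ℝ, 0 < η → ∃ h0 : ℝ, 0 < h0 ∧ ∀ (l : ℕ) (u : Fin d → Fin l) (p h : ℝ), Rg d pc δ l u p h → h ≤ h0 → |f l u p h - a| ≤ η := by
  choose L U hLU using E9a_pt d pc
  have hev : ∀ δ : ℝ, 0 < δ → δ ≤ 1 → ∀ η : ℝ, 0 < η → ∃ α h0 : ℝ, 0 < h0 ∧
      (∀ (l : ℕ) (u : Fin d → Fin l) (p h : ℝ), Rg d pc δ l u p h → h ≤ h0 → |f l u p h - α| ≤ η) ∧
      ∃ M : ℕ, ∀ m : ℕ, M ≤ m → |f (L m) (U m) pc (1 / ((m : ℝ) + 2)) - α| ≤ η := by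
    intro δ hδ hδ1 η hη
    obtain ⟨α, h0, hh, H⟩ := hf δ hδ hδ1 η hη
    obtain ⟨M, hM⟩ := E9a_small h0 hh
    exact ⟨α, h0, hh, H, M, fun m hm => H _ _ _ _ (hLU m δ hδ) (hM m hm)⟩
  have hc : CauchySeq (fun m : ℕ => f (L m) (U m) pc (1 / ((m : ℝ) + 2))) := by
    rw [Metric.cauchySeq_iff']
    intro ε hε
    obtain ⟨α, -, -, -, M, hM⟩ := hev 1 one_pos le_rfl (ε / 3) (by positivity)
    refine ⟨M, fun m hm => ?_⟩
    rw [Real.dist_eq]
    have h1 := abs_le.1 (hM m hm)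
    have h2 := abs_le.1 (hM M le_rfl)
    rw [abs_lt]
    constructor
    · linarith [h1.1, h2.2]
    · linarith [h1.2, h2.1]
  obtain ⟨a, ha⟩ := cauchySeq_tendsto_of_complete hc
  refine ⟨a, fun δ hδ hδ1 η hη => ?_⟩
  obtain ⟨α, h0, hh, H, M, hM⟩ := hev δ hδ hδ1 (η / 2) (by positivity)
  have h3 : |a - α| ≤ η / 2 := by
    refine le_of_tendsto ((ha.sub_const α).abs) ?_
    filter_upwards [eventually_ge_atTop M] with m hm
    exact hM m hm
  refine ⟨h0, hh, fun l u p h hR hle => ?_⟩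
  have h1 := abs_le.1 (H l u p h hR hle)
  have h2 := abs_le.1 h3
  rw [abs_le]
  constructor
  · linarith [h1.1, h2.2]
  · linarith [h1.2, h2.1]

/-- Row E9b. The unit vectors. -/
private noncomputable def E9b_U (d : ℕ) : Finset (Zd d) :=
  (Finset.univ.image (fun i : Fin d => (Pi.single i (1 : ℤ) : Zd d))) ∪
    (Finset.univ.image (fun i : Fin d => (-Pi.single i (1 : ℤ) : Zd d)))

private lemma E9b_U_card (d : ℕ) : (E9b_U d).card ≤ 2 * d := by
  unfold E9b_U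
  refine (Finset.card_union_le _ _).trans ?_
  have h1 : (Finset.univ.image (fun i : Fin d => (Pi.single i (1 : ℤ) : Zd d))).card ≤ d := by
    refine Finset.card_image_le.trans ?_
    simp
  have h2 : (Finset.univ.image (fun i : Fin d => (-Pi.single i (1 : ℤ) : Zd d))).card ≤ d := by
    refine Finset.card_image_le.trans ?_
    simp
  omega

private lemma E9b_adj {l : ℕ} (u v : Fin d → Fin l) :
    (∃ e, gends (boxG d l) e = s(u, v)) ↔ (boxG d l).Adj u v := by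
  constructor
  · rintro ⟨e, he⟩
    have h1 : (e : Sym2 (Fin d → Fin l)) = s(u, v) := he
    have h2 := e.2
    rw [h1] at h2
    exact (SimpleGraph.mem_edgeSet _).1 h2
  · intro h
    exact ⟨⟨s(u, v), (SimpleGraph.mem_edgeSet _).2 h⟩, rfl⟩

private lemma E9b_rel_self {l : ℕ} (u : Fin d → Fin l) : rel u u = 0 := by
  funext i
  simp [rel]

private lemma E9b_mem {l : ℕ} (u v : Fin d → Fin l) (h : (boxG d l).Adj u v) : rel u v ∈ E9b_U d := by
  rw [adj_rel u u v, E9b_rel_self] at h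
  obtain ⟨i, h | h⟩ := h
  · unfold E9b_U
    refine Finset.mem_union_left _ (Finset.mem_image.2 ⟨i, Finset.mem_univ _, ?_⟩)
    rw [h, zero_add]
  · unfold E9b_U
    refine Finset.mem_union_right _ (Finset.mem_image.2 ⟨i, Finset.mem_univ _, ?_⟩)
    exact (eq_neg_of_add_eq_zero_left h.symm).symm

private lemma E9b_ex {l : ℕ} (u : Fin d → Fin l) (hu : Dp u 1) (w : Zd d) (hw : w ∈ E9b_U d) :
    ∃ v, (boxG d l).Adj u v ∧ rel u v = w := by
  unfold E9b_U at hw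
  rcases Finset.mem_union.1 hw with h | h
  · obtain ⟨i, -, rfl⟩ := Finset.mem_image.1 h
    refine ⟨Function.update u i ⟨(u i : ℕ) + 1, (hu i).2⟩, ?_, ?_⟩
    · refine ⟨i, Or.inl ?_, ?_⟩
      · simp
      · intro j hj
        simp [hj]
    · funext j
      by_cases hj : j = i
      · subst hj
        simp [rel]
      · simp [rel, hj]
  · obtain ⟨i, -, rfl⟩ := Finset.mem_image.1 h
    have h1 := (hu i).1
    have h2 := (hu i).2
    refine ⟨Function.update u i ⟨(u i : ℕ) - 1, by omega⟩, ?_, ?_⟩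
    · refine ⟨i, Or.inr ?_, ?_⟩
      · simp only [Function.update_self]
        omega
      · intro j hj
        simp [hj]
    · funext j
      by_cases hj : j = i
      · subst hj
        simp only [rel, Function.update_self, Pi.neg_apply, Pi.single_eq_same]
        push_cast [Nat.cast_sub h1]
        ring
      · simp [rel, hj]

open scoped Classical in
/-- Row E9b. The sum over the neighbours of a deep vertex is a sum over the unit vectors. -/
private lemma E9b_sum {l : ℕ} (u : Fin d → Fin l) (hu : Dp u 1) (F : (Fin d → Fin l) → ℝ) (g : Zd d → ℝ) (m : ℝ)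
    (h : ∀ v, (boxG d l).Adj u v → |F v - g (rel u v)| ≤ m) (hm : 0 ≤ m) :
    |(∑ v, (if ∃ e, gends (boxG d l) e = s(u, v) then F v else 0)) - ∑ w ∈ E9b_U d, g w| ≤ 2 * d * m := by
  have h1 : (∑ v, (if ∃ e, gends (boxG d l) e = s(u, v) then F v else 0)) =
      ∑ v ∈ Finset.univ.filter (fun v => (boxG d l).Adj u v), F v := by
    rw [Finset.sum_filter]
    refine Finset.sum_congr rfl fun v _ => ?_
    by_cases hv : (boxG d l).Adj u v
    · rw [if_pos hv, if_pos ((E9b_adj u v).2 hv)]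
    · rw [if_neg hv, if_neg (fun hh => hv ((E9b_adj u v).1 hh))]
  have h2 : E9b_U d = (Finset.univ.filter (fun v => (boxG d l).Adj u v)).image (rel u) := by
    ext w
    rw [Finset.mem_image]
    constructor
    · intro hw
      obtain ⟨v, hv, hvw⟩ := E9b_ex u hu w hw
      exact ⟨v, Finset.mem_filter.2 ⟨Finset.mem_univ _, hv⟩, hvw⟩
    · rintro ⟨v, hv, rfl⟩
      exact E9b_mem u v (Finset.mem_filter.1 hv).2
  have h3 : ∑ w ∈ E9b_U d, g w = ∑ v ∈ Finset.univ.filter (fun v => (boxG d l).Adj u v), g (rel u v) := by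
    rw [h2, Finset.sum_image]
    intro a _ b _ hab
    exact rel_inj u hab
  have h4 : (Finset.univ.filter (fun v => (boxG d l).Adj u v)).card ≤ 2 * d := by
    have h5 : (Finset.univ.filter (fun v => (boxG d l).Adj u v)).card = (E9b_U d).card := by
      rw [h2, Finset.card_image_of_injective _ (rel_inj u)]
    rw [h5]
    exact E9b_U_card d
  rw [h1, h3, ← Finset.sum_sub_distrib]
  refine (Finset.abs_sum_le_sum_abs _ _).trans ?_
  calc ∑ v ∈ Finset.univ.filter (fun v => (boxG d l).Adj u v), |F v - g (rel u v)|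
      ≤ ∑ _v ∈ Finset.univ.filter (fun v => (boxG d l).Adj u v), m :=
        Finset.sum_le_sum fun v hv => h v (Finset.mem_filter.1 hv).2
    _ = ((Finset.univ.filter (fun v => (boxG d l).Adj u v)).card : ℝ) * m := by
        rw [Finset.sum_const, nsmul_eq_mul]
    _ ≤ 2 * d * m := by
        refine mul_le_mul_of_nonneg_right ?_ hm
        exact_mod_cast h4

/-- Row E9b. -/
private lemma E9b_AA_nonneg {l : ℕ} (u : Fin d → Fin l) (p h : ℝ) (hp0 : 0 ≤ p) (hp1 : p ≤ 1) (h0 : 0 ≤ h) (h1 : h ≤ 1) :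
    0 ≤ AA (gends (boxG d l)) p h u := by
  unfold AA
  refine Ex_nonneg hp0 hp1 fun ω => ?_
  refine Finset.sum_nonneg fun v _ => ?_
  split_ifs
  · exact mul_nonneg (fh_nonneg h0 h1 _) (gh_nonneg h0 h1 _)
  · exact le_refl _

/-- Row E9. Proposition A. `AA_q0`: sum over the `2d` neighbours `v` of `u` (all in the box, `u` is deep); `q1_lim`, `q_close`, `q0_q1`: `|q0/(Mh sgF) - aloc| ≤ 2 η`; `cau`. `a ≥ 0` since `AA ≥ 0`. -/
theorem prop_A {C c e pc : ℝ} (ht : HT d C c e pc) : ∃ a : ℝ, 0 ≤ a ∧ ∀ δ : ℝ, 0 < δ → δ ≤ 1 → ∀ η : ℝ, 0 < η → ∃ h0 : ℝ, 0 < h0 ∧ ∀ (l : ℕ) (u : Fin d → Fin l) (p h : ℝ),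
    Rg d pc δ l u p h → h ≤ h0 → |AA (gends (boxG d l)) p h u - a * (Mh d p h * sgF l u p h ∅ {0})| ≤ η * (Mh d p h * sgF l u p h ∅ {0}) := by
  classical
  obtain ⟨φ, hφ⟩ := CT ht
  have hd : (0 : ℝ) < d := by
    have := ht.hp.d11
    exact_mod_cast (by omega : 0 < d)
  obtain ⟨a, ha⟩ := cau pc (fun l u p h => AA (gends (boxG d l)) p h u / (Mh d p h * sgF l u p h ∅ {0})) (by
    intro δ hδ hδ1 η hη
    have hη' : 0 < η / (4 * d) := by positivity
    obtain ⟨r, R, h1, hh1, H1⟩ := q_close ht δ hδ hδ1 (η / (4 * d)) hη'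
    have H2 : ∀ w : Zd d, ∃ h0 : ℝ, 0 < h0 ∧ ∀ (l : ℕ) (u v' : Fin d → Fin l) (p h : ℝ), Rg d pc δ l u p h → h ≤ h0 → rel u v' = w →
        |q1 (gends (boxG d l)) p h (Qb u R) (prf u (bz r)) u v' - aloc φ pc r R w * (Mh d p h * sgF l u p h ∅ {0})| ≤
          η / (4 * d) * (Mh d p h * sgF l u p h ∅ {0}) :=
      fun w => q1_lim ht hφ δ hδ hδ1 r R w (η / (4 * d)) hη'
    choose hw hw0 Hw using H2
    obtain ⟨L, -, H3⟩ := rg_num ht δ hδ hδ1
    obtain ⟨h2, hh2, H3⟩ := H3 1 one_pos 1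
    obtain ⟨h3, hh3, H4⟩ : ∃ h3 : ℝ, 0 < h3 ∧ ∀ w ∈ E9b_U d, h3 ≤ hw w := by
      rcases (E9b_U d).eq_empty_or_nonempty with hE | hE
      · exact ⟨1, one_pos, fun w hw' => by rw [hE] at hw'; exact absurd hw' (Finset.notMem_empty w)⟩
      · obtain ⟨w0, hw0', hmin⟩ := Finset.exists_min_image (E9b_U d) hw hE
        exact ⟨hw w0, hw0 w0, fun w hw' => hmin w hw'⟩
    refine ⟨∑ w ∈ E9b_U d, aloc φ pc r R w, min h1 (min h2 h3), lt_min hh1 (lt_min hh2 hh3), ?_⟩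
    intro l u p h hR hh
    have hA := H3 l u p h hR (hh.trans ((min_le_right _ _).trans (min_le_left _ _)))
    obtain ⟨⟨hpe, hp1, -⟩, -, hM, -, -, -, hS, -, -, -⟩ := hA
    have hp0 : 0 ≤ p := ht.hp.p0.le.trans hR.pa
    have hp1' : p ≤ 1 := by
      have := ht.hp.p1
      linarith
    have hm : 0 < Mh d p h * sgF l u p h ∅ {0} := mul_pos hM hS
    have hD : Dp u 1 := by
      refine hR.dp 1 ?_
      rw [Nat.cast_one, le_div_iff₀ (pow_pos hR.h0 2)]
      nlinarith [hR.h0, hR.h1]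
    have hkey : |AA (gends (boxG d l)) p h u -
        ∑ w ∈ E9b_U d, aloc φ pc r R w * (Mh d p h * sgF l u p h ∅ {0})| ≤
          2 * d * (2 * (η / (4 * d)) * (Mh d p h * sgF l u p h ∅ {0})) := by
      rw [AA_q0]
      refine E9b_sum u hD (fun v => q0 (gends (boxG d l)) p h u v)
        (fun w => aloc φ pc r R w * (Mh d p h * sgF l u p h ∅ {0})) _ ?_ (by positivity)
      intro v hv
      have hnd : nd u v = 1 := by
        rw [← nz_rel u u v]
        exact adj_nz u u v hv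
      have k1 := H1 l u v p h hR (hh.trans (min_le_left _ _)) hnd
      have k2 := Hw (rel u v) l u v p h hR
        (hh.trans ((min_le_right _ _).trans ((min_le_right _ _).trans (H4 _ (E9b_mem u v hv))))) rfl
      have k3 := q0_q1 (ends := gends (boxG d l)) hp0 hp1' hR.h0.le hR.h1.le (Qb u R) (prf u (bz r)) u v
      rw [abs_le] at k2 ⊢
      have k4 : 0 ≤ η / (4 * d) * (Mh d p h * sgF l u p h ∅ {0}) := by positivity
      constructor
      · linarith [k2.1, k1]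
      · linarith [k2.2, k3]
    have hval : 2 * (d : ℝ) * (2 * (η / (4 * d)) * (Mh d p h * sgF l u p h ∅ {0})) =
        η * (Mh d p h * sgF l u p h ∅ {0}) := by
      field_simp
      ring
    rw [hval, ← Finset.sum_mul] at hkey
    have heq : AA (gends (boxG d l)) p h u / (Mh d p h * sgF l u p h ∅ {0}) - ∑ w ∈ E9b_U d, aloc φ pc r R w =
        (AA (gends (boxG d l)) p h u - (∑ w ∈ E9b_U d, aloc φ pc r R w) * (Mh d p h * sgF l u p h ∅ {0})) /
          (Mh d p h * sgF l u p h ∅ {0}) := by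
      rw [sub_div, mul_div_assoc, div_self hm.ne', mul_one]
    rw [heq, abs_div, abs_of_pos hm, div_le_iff₀ hm]
    exact hkey)
  refine ⟨max a 0, le_max_right _ _, ?_⟩
  intro δ hδ hδ1 η hη
  obtain ⟨h1, hh1, H1⟩ := ha δ hδ hδ1 η hη
  obtain ⟨L, -, H3⟩ := rg_num ht δ hδ hδ1
  obtain ⟨h2, hh2, H3⟩ := H3 1 one_pos 1
  refine ⟨min h1 h2, lt_min hh1 hh2, ?_⟩
  intro l u p h hR hh
  have hA := H3 l u p h hR (hh.trans (min_le_right _ _))
  obtain ⟨⟨hpe, hp1, -⟩, -, hM, -, -, -, hS, -, -, -⟩ := hA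
  have hp0 : 0 ≤ p := ht.hp.p0.le.trans hR.pa
  have hp1' : p ≤ 1 := by
    have := ht.hp.p1
    linarith
  have hm : 0 < Mh d p h * sgF l u p h ∅ {0} := mul_pos hM hS
  have hAA := E9b_AA_nonneg u p h hp0 hp1' hR.h0.le hR.h1.le
  have hk := H1 l u p h hR (hh.trans (min_le_left _ _))
  have hf : 0 ≤ AA (gends (boxG d l)) p h u / (Mh d p h * sgF l u p h ∅ {0}) := div_nonneg hAA hm.le
  have hk2 : |AA (gends (boxG d l)) p h u / (Mh d p h * sgF l u p h ∅ {0}) - max a 0| ≤ η := by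
    rcases le_total a 0 with h0 | h0
    · rw [max_eq_right h0]
      rw [abs_le] at hk ⊢
      constructor
      · linarith
      · linarith [hk.2]
    · rw [max_eq_left h0]
      exact hk
  have heq : AA (gends (boxG d l)) p h u - max a 0 * (Mh d p h * sgF l u p h ∅ {0}) =
      (AA (gends (boxG d l)) p h u / (Mh d p h * sgF l u p h ∅ {0}) - max a 0) * (Mh d p h * sgF l u p h ∅ {0}) := by
    rw [sub_mul, div_mul_cancel₀ _ hm.ne']
  rw [heq, abs_mul, abs_of_pos hm]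
  exact mul_le_mul_of_nonneg_right hk2 hm.le

/-- A vertex of the box has at most `2 d` neighbours. -/
private lemma E9c_nb {l : ℕ} (u : Fin d → Fin l) [DecidablePred (fun v : Fin d → Fin l => ∃ e, gends (boxG d l) e = s(u, v))] :
    (Finset.univ.filter (fun v : Fin d → Fin l => ∃ e, gends (boxG d l) e = s(u, v))).card ≤ 2 * d := by
  classical
  refine le_trans ?_ (box_deg (d := d) (l := l) u)
  refine Finset.card_le_card_of_forall_subsingleton (fun v e => gends (boxG d l) e = s(u, v)) ?_ ?_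
  · intro v hv
    obtain ⟨e, he⟩ := (Finset.mem_filter.1 hv).2
    refine ⟨e, ?_, he⟩
    simp only [Finset.mem_filter, Finset.mem_univ, true_and, he]
    exact Sym2.mem_mk_left u v
  · intro e _ v hv v' hv'
    have h1 : s(u, v) = s(u, v') := by rw [← hv.2, ← hv'.2]
    exact Sym2.congr_right.1 h1

private lemma E9c_f {h : ℝ} (h0 : 0 < h) (h1 : h ≤ 1) (k : ℕ) : fh h k ≤ 1 / h := by
  have := fh_le h0.le h1 k
  have h2 := gh_le_one h0.le h1 k
  rw [le_div_iff₀ h0]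
  linarith

private lemma E9c_AA0 {l : ℕ} (u : Fin d → Fin l) {p h : ℝ} (hp0 : 0 ≤ p) (hp1 : p ≤ 1) (h0 : 0 < h) (h1 : h ≤ 1) :
    0 ≤ AA (gends (boxG d l)) p h u := by
  unfold AA
  refine Ex_nonneg hp0 hp1 fun ω => Finset.sum_nonneg fun v _ => ?_
  split_ifs
  · exact mul_nonneg (fh_nonneg h0.le h1 _) (gh_nonneg h0.le h1 _)
  · exact le_refl _

private lemma E9c_AA {l : ℕ} (u : Fin d → Fin l) {p h : ℝ} (hp0 : 0 ≤ p) (hp1 : p ≤ 1) (h0 : 0 < h) (h1 : h ≤ 1) :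
    AA (gends (boxG d l)) p h u ≤ 2 * d / h := by
  classical
  unfold AA
  calc Ex p _ ≤ Ex p (fun _ : (boxG d l).edgeSet → Bool => (2 * d / h : ℝ)) := by
        refine Ex_mono hp0 hp1 fun ω => ?_
        calc _ ≤ ∑ v : Fin d → Fin l, (if (∃ e, gends (boxG d l) e = s(u, v)) then (1 / h : ℝ) else 0) := by
              refine Finset.sum_le_sum fun v _ => ?_
              by_cases hv : ∃ e, gends (boxG d l) e = s(u, v)
              · rw [if_pos hv]
                split_ifs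
                · calc _ ≤ fh h _ * 1 := mul_le_mul_of_nonneg_left (gh_le_one h0.le h1 _) (fh_nonneg h0.le h1 _)
                    _ ≤ 1 / h := by rw [mul_one]; exact E9c_f h0 h1 _
                · positivity
              · rw [if_neg hv, if_neg (fun hh => hv hh.1)]
          _ = ((Finset.univ.filter (fun v : Fin d → Fin l => ∃ e, gends (boxG d l) e = s(u, v))).card : ℝ) * (1 / h) := by
              rw [← Finset.sum_filter, Finset.sum_const, nsmul_eq_mul]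
          _ ≤ (2 * d : ℝ) * (1 / h) := by
              refine mul_le_mul_of_nonneg_right ?_ (by positivity)
              exact_mod_cast E9c_nb u
          _ = 2 * d / h := by ring
    _ = 2 * d / h := Ex_const _ _

private lemma E9c_num {P q q0 h M B H a0 η η0 η1 η2 η3 η4 D1 D2 : ℝ} (hq : 0 < q) (hq0 : 0 < q0) (hh0 : 0 ≤ h) (hM : 0 ≤ M) (hB : 0 ≤ B) (hH : 0 ≤ H) (ha : 0 ≤ a0)
    (he0 : 0 ≤ η0) (he3 : 0 ≤ η3)
    (h1 : |P - q⁻¹ * (a0 * M * ((1 - h) * H))| ≤ q⁻¹ * (η0 * M * ((1 - h) * H) + (a0 * M * D1 + D2)))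
    (h2 : q⁻¹ ≤ 2 / q0) (h3 : M ≤ 2 * B) (h3' : M - B ≤ 2 * η1 * B) (h3'' : B ≤ M)
    (h4 : |q⁻¹ * (1 - h) - q0⁻¹| ≤ η2) (h5 : D1 ≤ η3 * H) (h6 : D2 ≤ η4 * (B * H))
    (h7 : 2 / q0 * (2 * η0 + 2 * a0 * η3 + η4) + a0 * (2 * η2 + q0⁻¹ * (2 * η1)) ≤ η) (he4 : 0 ≤ η4) :
    |P - a0 * q0⁻¹ * (B * H)| ≤ η * (B * H) := by
  have hBH : 0 ≤ B * H := mul_nonneg hB hH
  have hq' : 0 ≤ q⁻¹ := (inv_pos.2 hq).le
  have hq0' : 0 ≤ q0⁻¹ := (inv_pos.2 hq0).le
  have hd1 : M * D1 ≤ 2 * η3 * (B * H) := by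
    calc M * D1 ≤ M * (η3 * H) := mul_le_mul_of_nonneg_left h5 hM
      _ ≤ (2 * B) * (η3 * H) := mul_le_mul_of_nonneg_right h3 (mul_nonneg he3 hH)
      _ = _ := by ring
  have hd2 : M * ((1 - h) * H) ≤ 2 * (B * H) := by
    calc M * ((1 - h) * H) ≤ M * (1 * H) := by
          refine mul_le_mul_of_nonneg_left (mul_le_mul_of_nonneg_right (by linarith) hH) hM
      _ ≤ (2 * B) * (1 * H) := mul_le_mul_of_nonneg_right h3 (by linarith)
      _ = _ := by ring
  have hf : |P - q⁻¹ * (a0 * M * ((1 - h) * H))| ≤ 2 / q0 * (2 * η0 + 2 * a0 * η3 + η4) * (B * H) := by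
    have hin : η0 * M * ((1 - h) * H) + (a0 * M * D1 + D2) ≤ (2 * η0 + 2 * a0 * η3 + η4) * (B * H) := by
      have e1 := mul_le_mul_of_nonneg_left hd2 he0
      have e2 := mul_le_mul_of_nonneg_left hd1 ha
      linarith [e1, e2, h6]
    calc _ ≤ q⁻¹ * (η0 * M * ((1 - h) * H) + (a0 * M * D1 + D2)) := h1
      _ ≤ q⁻¹ * ((2 * η0 + 2 * a0 * η3 + η4) * (B * H)) := mul_le_mul_of_nonneg_left hin hq'
      _ ≤ 2 / q0 * ((2 * η0 + 2 * a0 * η3 + η4) * (B * H)) := mul_le_mul_of_nonneg_right h2 (by positivity)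
      _ = _ := by ring
  have hs : |q⁻¹ * (1 - h) * M - q0⁻¹ * B| ≤ (2 * η2 + q0⁻¹ * (2 * η1)) * B := by
    have e : q⁻¹ * (1 - h) * M - q0⁻¹ * B = (q⁻¹ * (1 - h) - q0⁻¹) * M + q0⁻¹ * (M - B) := by ring
    have he2 : 0 ≤ η2 := le_trans (abs_nonneg _) h4
    rw [e]
    calc _ ≤ |(q⁻¹ * (1 - h) - q0⁻¹) * M| + |q0⁻¹ * (M - B)| := abs_add_le _ _
      _ = |q⁻¹ * (1 - h) - q0⁻¹| * M + q0⁻¹ * (M - B) := by
          rw [abs_mul, abs_mul, abs_of_nonneg hM, abs_of_nonneg hq0', abs_of_nonneg (by linarith : 0 ≤ M - B)]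
      _ ≤ η2 * (2 * B) + q0⁻¹ * (2 * η1 * B) := by
          refine add_le_add ?_ (mul_le_mul_of_nonneg_left h3' hq0')
          exact mul_le_mul h4 h3 hM he2
      _ = _ := by ring
  have e : P - a0 * q0⁻¹ * (B * H) = (P - q⁻¹ * (a0 * M * ((1 - h) * H))) + a0 * H * (q⁻¹ * (1 - h) * M - q0⁻¹ * B) := by ring
  rw [e]
  calc _ ≤ |P - q⁻¹ * (a0 * M * ((1 - h) * H))| + |a0 * H * (q⁻¹ * (1 - h) * M - q0⁻¹ * B)| := abs_add_le _ _
    _ ≤ 2 / q0 * (2 * η0 + 2 * a0 * η3 + η4) * (B * H) + a0 * H * ((2 * η2 + q0⁻¹ * (2 * η1)) * B) := by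
        refine add_le_add hf ?_
        rw [abs_mul, abs_of_nonneg (mul_nonneg ha hH)]
        exact mul_le_mul_of_nonneg_left hs (mul_nonneg ha hH)
    _ = (2 / q0 * (2 * η0 + 2 * a0 * η3 + η4) + a0 * (2 * η2 + q0⁻¹ * (2 * η1))) * (B * H) := by ring
    _ ≤ η * (B * H) := mul_le_mul_of_nonneg_right h7 hBH

/-- The sums over the deep and the other vertices. -/
private lemma E9c_sum {U : Type*} [Fintype U] [DecidableEq U] (G : Finset U) (A f : U → ℝ) {m a0 η0 h n D : ℝ}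
    (hη : 0 ≤ η0) (hm : 0 ≤ m) (ha : 0 ≤ a0) (h0 : 0 < h) (hD : 0 ≤ D)
    (hf0 : ∀ u, 0 ≤ f u) (hf1 : ∀ u, f u ≤ 1 / h) (hA0 : ∀ u, 0 ≤ A u) (hA1 : ∀ u, A u ≤ 2 * D / h)
    (hG : ∀ u ∈ G, |A u - a0 * (m * f u)| ≤ η0 * (m * f u)) (hc : ((Gᶜ).card : ℝ) ≤ 2 * D * h ^ 3 * n) :
    |∑ u, A u - a0 * m * ∑ u, f u| ≤ η0 * m * ∑ u, f u + (a0 * m * (2 * D * h ^ 2) + 4 * D ^ 2 * h ^ 2) * n := by
  have s1 : ∑ u, A u = ∑ u ∈ G, A u + ∑ u ∈ Gᶜ, A u := (Finset.sum_add_sum_compl G A).symm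
  have s2 : ∑ u, f u = ∑ u ∈ G, f u + ∑ u ∈ Gᶜ, f u := (Finset.sum_add_sum_compl G f).symm
  have s3 : |∑ u ∈ G, A u - a0 * m * ∑ u ∈ G, f u| ≤ η0 * m * ∑ u ∈ G, f u := by
    have e : ∑ u ∈ G, A u - a0 * m * ∑ u ∈ G, f u = ∑ u ∈ G, (A u - a0 * (m * f u)) := by
      rw [Finset.sum_sub_distrib, Finset.mul_sum]
      congr 1
      exact Finset.sum_congr rfl fun u _ => by ring
    rw [e, Finset.mul_sum]
    refine (Finset.abs_sum_le_sum_abs _ _).trans (Finset.sum_le_sum fun u hu => ?_)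
    calc _ ≤ η0 * (m * f u) := hG u hu
      _ = _ := by ring
  have s4 : ∑ u ∈ Gᶜ, A u ≤ 4 * D ^ 2 * h ^ 2 * n := by
    calc _ ≤ ∑ u ∈ Gᶜ, 2 * D / h := Finset.sum_le_sum fun u _ => hA1 u
      _ = ((Gᶜ).card : ℝ) * (2 * D / h) := by rw [Finset.sum_const, nsmul_eq_mul]
      _ ≤ (2 * D * h ^ 3 * n) * (2 * D / h) := mul_le_mul_of_nonneg_right hc (by positivity)
      _ = _ := by field_simp; ring
  have s5 : ∑ u ∈ Gᶜ, f u ≤ 2 * D * h ^ 2 * n := by
    calc _ ≤ ∑ u ∈ Gᶜ, 1 / h := Finset.sum_le_sum fun u _ => hf1 u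
      _ = ((Gᶜ).card : ℝ) * (1 / h) := by rw [Finset.sum_const, nsmul_eq_mul]
      _ ≤ (2 * D * h ^ 3 * n) * (1 / h) := mul_le_mul_of_nonneg_right hc (by positivity)
      _ = _ := by field_simp
  have s6 : 0 ≤ ∑ u ∈ Gᶜ, A u := Finset.sum_nonneg fun u _ => hA0 u
  have s7 : 0 ≤ ∑ u ∈ Gᶜ, f u := Finset.sum_nonneg fun u _ => hf0 u
  have s8 : 0 ≤ η0 * m * ∑ u ∈ Gᶜ, f u := by positivity
  have s9 : a0 * m * ∑ u ∈ Gᶜ, f u ≤ a0 * m * (2 * D * h ^ 2 * n) := mul_le_mul_of_nonneg_left s5 (by positivity)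
  have s10 : 0 ≤ a0 * m * ∑ u ∈ Gᶜ, f u := by positivity
  rw [s1, s2, abs_le]
  rw [abs_le] at s3
  constructor
  · linarith [s3.1, s3.2]
  · linarith [s3.1, s3.2]


/-- Row E9. MAIN RELATION A. `a' = a/(1-pc)`. Average over the box: the vertices with `Dp u n`, `n = ⌊1/h^2⌋ ` satisfy `Rg` (`prop_A`); `sgF l u p h ∅ {0} = E fh |cu ω u|` (`sgF_one`); the other ones are at most `2 n d l^(d-1) ≤ 2 d h^3 l^d` (`deep_count`) and have `AA ≤ 2d/h` (`fh ≤ 1/h`, `gh ≤ 1`), `E fh ≤ 1/h`: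
their contribution to the averages is at most `4 d^2 h^2`; `Mh`, `mB` (`mB_Mh`, `mB_ub`), `mH ≥ c'/√h`. `(1-p)⁻¹ → (1-pc)⁻¹`, `(1-h)⁻¹ → 1`. -/
theorem rel_A' {C c e pc : ℝ} (ht : HT d C c e pc) : ∃ a : ℝ, 0 ≤ a ∧ ∀ δ : ℝ, 0 < δ → δ ≤ 1 → ∀ η : ℝ, 0 < η → ∃ h0 : ℝ, 0 < h0 ∧ ∀ (p h : ℝ) (l : ℕ),
    pc ≤ p → p ≤ pc + Real.sqrt (h / δ) → 0 < h → h ≤ h0 → 1 / h ^ 5 ≤ (l : ℝ) →
    |mP d l p h - a * (mB d l p h * mH d l p h)| ≤ η * (mB d l p h * mH d l p h) := by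
  obtain ⟨a0, ha0, hA⟩ := prop_A ht
  have hq0 : 0 < 1 - pc := by have := ht.hp.p1; linarith
  have hq1 : 1 - pc < 1 := by have := ht.hp.p0; linarith
  refine ⟨a0 * (1 - pc)⁻¹, by positivity, fun δ hδ hδ1 η hη => ?_⟩
  obtain ⟨c1, hS, hc1, hS0, hSz⟩ := mH_size ht δ hδ hδ1
  obtain ⟨c2, hc2, hML⟩ := Mh_low ht
  set η0 : ℝ := η * (1 - pc) / 40 with hη0
  set η1 : ℝ := min (1 / 2) (η * (1 - pc) / (20 * (a0 + 1))) with hη1
  set η2 : ℝ := η / (20 * (a0 + 1)) with hη2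
  set η3 : ℝ := η * (1 - pc) / (40 * (a0 + 1)) with hη3
  set η4 : ℝ := η * (1 - pc) / 20 with hη4
  have p0 : 0 < η0 := by positivity
  have p1 : 0 < η1 := lt_min (by norm_num) (by positivity)
  have p2 : 0 < η2 := by positivity
  have p3 : 0 < η3 := by positivity
  have p4 : 0 < η4 := by positivity
  obtain ⟨hAh, hAh0, hAA⟩ := hA δ hδ hδ1 η0 p0
  obtain ⟨hBh, hBh0, hBB⟩ := mB_Mh ht η1 p1
  set y : ℝ := min (min e ((1 - pc) / 2)) (η2 * (1 - pc) ^ 2 / 4) with hy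
  have y0 : 0 < y := lt_min (lt_min ht.e0 (by linarith)) (by positivity)
  have ye : y ≤ e := (min_le_left _ _).trans (min_le_left _ _)
  have yq : y ≤ (1 - pc) / 2 := (min_le_left _ _).trans (min_le_right _ _)
  have y2 : y ≤ η2 * (1 - pc) ^ 2 / 4 := min_le_right _ _
  set z : ℝ := min (min (min hAh hBh) (min hS (1 / 2))) (min (min (δ * y ^ 2) y) (min (η3 * c1 / (2 * d + 1)) (η4 * (c1 * c2 / 2) / (4 * (d : ℝ) ^ 2 + 1)))) with hz
  have z0 : 0 < z := by
    refine lt_min (lt_min (lt_min hAh0 hBh0) (lt_min hS0 (by norm_num))) (lt_min (lt_min (by positivity) y0) (lt_min (by positivity) (by positivity)))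
  have z1 : z ≤ hAh := (min_le_left _ _).trans ((min_le_left _ _).trans (min_le_left _ _))
  have z2 : z ≤ hBh := (min_le_left _ _).trans ((min_le_left _ _).trans (min_le_right _ _))
  have z3 : z ≤ hS := (min_le_left _ _).trans ((min_le_right _ _).trans (min_le_left _ _))
  have z4 : z ≤ 1 / 2 := (min_le_left _ _).trans ((min_le_right _ _).trans (min_le_right _ _))
  have z5 : z ≤ δ * y ^ 2 := (min_le_right _ _).trans ((min_le_left _ _).trans (min_le_left _ _))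
  have z6 : z ≤ y := (min_le_right _ _).trans ((min_le_left _ _).trans (min_le_right _ _))
  have z7 : z ≤ η3 * c1 / (2 * d + 1) := (min_le_right _ _).trans ((min_le_right _ _).trans (min_le_left _ _))
  have z8 : z ≤ η4 * (c1 * c2 / 2) / (4 * (d : ℝ) ^ 2 + 1) := (min_le_right _ _).trans ((min_le_right _ _).trans (min_le_right _ _))
  refine ⟨z, z0, fun p h l hp hpp h0 hz' hl => ?_⟩
  have h12 : h ≤ 1 / 2 := hz'.trans z4
  have hlt : h < 1 := by linarith
  have hxy : Real.sqrt (h / δ) ≤ y := by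
    rw [Real.sqrt_le_left y0.le, div_le_iff₀ hδ]
    linarith [hz'.trans z5]
  have hx0 : 0 ≤ p - pc := by linarith
  have hxy' : p - pc ≤ y := by linarith
  have hpe : p ≤ pc + e := by linarith
  have hp0 : 0 ≤ p := by have := ht.hp.p0; linarith
  have hq : (1 - pc) / 2 ≤ 1 - p := by linarith
  have hqpos : 0 < 1 - p := by linarith
  have hp1 : p ≤ 1 := by linarith
  have hM1 : mB d l p h ≤ Mh d p h := mB_ub d l p h hp0 hp1 h0.le hlt.le
  have hM2 : (1 - η1) * Mh d p h ≤ mB d l p h := hBB p h l hp hpe h0 (hz'.trans z2) hl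
  have hM0 : 0 < Mh d p h := lt_of_lt_of_le (by positivity) (hML p h hp hp1 h0 hlt)
  have hB0 : 0 ≤ mB d l p h := mB_nonneg d l p h hp0 hp1 h0.le hlt.le
  have hH0 : 0 ≤ mH d l p h := mH_nonneg d l p h hp0 hp1 h0.le hlt.le
  have hHs : c1 / Real.sqrt h ≤ mH d l p h := (hSz p h l hp hpp h0 (hz'.trans z3) hl).1
  have hsh : 0 < Real.sqrt h := Real.sqrt_pos.2 h0
  have hsh1 : Real.sqrt h ≤ 1 := by rw [Real.sqrt_le_left (by norm_num)]; linarith
  have e12 : η1 ≤ 1 / 2 := min_le_left _ _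
  have hM3 : Mh d p h ≤ 2 * mB d l p h := by
    have := mul_le_mul_of_nonneg_right e12 hM0.le
    linarith
  have hM4 : Mh d p h - mB d l p h ≤ 2 * η1 * mB d l p h := by
    have := mul_le_mul_of_nonneg_left hM3 p1.le
    linarith
  have hlpos : (0 : ℝ) < l := lt_of_lt_of_le (by positivity) hl
  have hl1 : 1 ≤ l := by
    have : 0 < l := by exact_mod_cast hlpos
    omega
  have hnpos : (0 : ℝ) < (l : ℝ) ^ d := by positivity
  -- the sums
  have key : |∑ u : Fin d → Fin l, AA (gends (boxG d l)) p h u - a0 * Mh d p h * ∑ u : Fin d → Fin l, Ex p (fun ω => fh h (cu (gends (boxG d l)) ω u).card)| ≤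
      η0 * Mh d p h * ∑ u : Fin d → Fin l, Ex p (fun ω => fh h (cu (gends (boxG d l)) ω u).card) +
        (a0 * Mh d p h * (2 * (d : ℝ) * h ^ 2) + 4 * (d : ℝ) ^ 2 * h ^ 2) * (l : ℝ) ^ d := by
    classical
    set N : ℕ := ⌊1 / h ^ 2⌋₊ with hN
    have hNle : (N : ℝ) ≤ 1 / h ^ 2 := Nat.floor_le (by positivity)
    set G : Finset (Fin d → Fin l) := Finset.univ.filter (fun x : Fin d → Fin l => ∀ i, N ≤ (x i : ℕ) ∧ (x i : ℕ) + N < l) with hG
    refine E9c_sum G _ _ p0.le hM0.le ha0 h0 (by positivity) ?_ ?_ ?_ ?_ ?_ ?_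
    · intro u
      exact Ex_nonneg hp0 hp1 fun ω => fh_nonneg h0.le hlt.le _
    · intro u
      calc _ ≤ Ex p (fun _ : (boxG d l).edgeSet → Bool => (1 / h : ℝ)) := Ex_mono hp0 hp1 fun ω => E9c_f h0 hlt.le _
        _ = 1 / h := Ex_const _ _
    · intro u
      exact E9c_AA0 u hp0 hp1 h0 hlt.le
    · intro u
      exact E9c_AA u hp0 hp1 h0 hlt.le
    · intro u hu
      have hu' := (Finset.mem_filter.1 hu).2
      have hR : Rg d pc δ l u p h := by
        refine ⟨h0, hlt, hp, hpp, fun n hn i => ?_⟩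
        have hnN : n ≤ N := Nat.le_floor hn
        have := hu' i
        constructor <;> omega
      have := hAA l u p h hR (hz'.trans z1)
      rw [sgF_one] at this
      exact this
    · have hdc := deep_count d l N (by have := ht.hp.d11; omega) hl1
      have hcard : ((Gᶜ).card : ℝ) = (l : ℝ) ^ d - (G.card : ℝ) := by
        rw [Finset.card_compl, Nat.cast_sub (Finset.card_le_univ _)]
        simp [Fintype.card_fin]
      have hd1 : 1 ≤ d := by have := ht.hp.d11; omega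
      have hle : (l : ℝ) ^ (d - 1) ≤ h ^ 5 * (l : ℝ) ^ d := by
        have e : (l : ℝ) ^ d = (l : ℝ) ^ (d - 1) * l := by
          rw [← pow_succ]; congr 1; omega
        have h5 : 1 ≤ h ^ 5 * (l : ℝ) := by
          rw [div_le_iff₀ (by positivity)] at hl
          linarith
        calc (l : ℝ) ^ (d - 1) = (l : ℝ) ^ (d - 1) * 1 := (mul_one _).symm
          _ ≤ (l : ℝ) ^ (d - 1) * (h ^ 5 * (l : ℝ)) := mul_le_mul_of_nonneg_left h5 (by positivity)
          _ = h ^ 5 * (l : ℝ) ^ d := by rw [e]; ring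
      rw [hcard]
      calc (l : ℝ) ^ d - (G.card : ℝ) ≤ 2 * N * d * (l : ℝ) ^ (d - 1) := by linarith
        _ ≤ 2 * (1 / h ^ 2) * d * (h ^ 5 * (l : ℝ) ^ d) := by gcongr
        _ = 2 * (d : ℝ) * h ^ 3 * (l : ℝ) ^ d := by field_simp
  have hmH : (1 - h) * mH d l p h = (∑ u : Fin d → Fin l, Ex p (fun ω => fh h (cu (gends (boxG d l)) ω u).card)) / (l : ℝ) ^ d := by
    unfold mH
    have : (1 - h : ℝ) ≠ 0 := by linarith
    field_simp
  have hmP : mP d l p h = (1 - p)⁻¹ * ((∑ u : Fin d → Fin l, AA (gends (boxG d l)) p h u) / (l : ℝ) ^ d) := by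
    unfold mP
    rw [mul_div_assoc]
  refine E9c_num (q := 1 - p) (q0 := 1 - pc) (h := h) (M := Mh d p h) (η0 := η0) (η1 := η1) (η2 := η2) (η3 := η3) (η4 := η4) (D1 := 2 * (d : ℝ) * h ^ 2) (D2 := 4 * (d : ℝ) ^ 2 * h ^ 2)
    hqpos hq0 h0.le hM0.le hB0 hH0 ha0 p0.le p3.le ?_ ?_ hM3 hM4 hM1 ?_ ?_ ?_ ?_ p4.le
  · rw [hmP, hmH, ← mul_sub, abs_mul, abs_of_nonneg (inv_pos.2 hqpos).le]
    refine mul_le_mul_of_nonneg_left ?_ (inv_pos.2 hqpos).le
    have e1 : (∑ u : Fin d → Fin l, AA (gends (boxG d l)) p h u) / (l : ℝ) ^ d - a0 * Mh d p h * ((∑ u : Fin d → Fin l, Ex p (fun ω => fh h (cu (gends (boxG d l)) ω u).card)) / (l : ℝ) ^ d) =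
        (∑ u : Fin d → Fin l, AA (gends (boxG d l)) p h u - a0 * Mh d p h * ∑ u : Fin d → Fin l, Ex p (fun ω => fh h (cu (gends (boxG d l)) ω u).card)) / (l : ℝ) ^ d := by
      ring
    rw [e1, abs_div, abs_of_pos hnpos, div_le_iff₀ hnpos]
    refine key.trans (le_of_eq ?_)
    field_simp
  · rw [inv_le_comm₀ hqpos (by positivity), inv_div]
    exact hq
  · have e1 : (1 - p)⁻¹ * (1 - h) - (1 - pc)⁻¹ = ((p - pc) - h * (1 - pc)) / ((1 - p) * (1 - pc)) := by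
      field_simp
      ring
    rw [e1, abs_div, abs_of_pos (mul_pos hqpos hq0), div_le_iff₀ (mul_pos hqpos hq0)]
    have a1 : |(p - pc) - h * (1 - pc)| ≤ 2 * y := by
      have hhy : h ≤ y := hz'.trans z6
      have e2 : h * (1 - pc) ≤ h * 1 := mul_le_mul_of_nonneg_left hq1.le h0.le
      have e3 : 0 ≤ h * (1 - pc) := mul_nonneg h0.le hq0.le
      rw [abs_le]
      constructor <;> linarith
    have a2 : (1 - pc) / 2 * (1 - pc) ≤ (1 - p) * (1 - pc) := mul_le_mul_of_nonneg_right hq hq0.le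
    calc _ ≤ 2 * y := a1
      _ ≤ 2 * (η2 * (1 - pc) ^ 2 / 4) := by linarith
      _ = η2 * ((1 - pc) / 2 * (1 - pc)) := by ring
      _ ≤ _ := mul_le_mul_of_nonneg_left a2 p2.le
  · have b1 : c1 ≤ mH d l p h := by
      refine le_trans ?_ hHs
      rw [le_div_iff₀ hsh]
      exact mul_le_of_le_one_right hc1.le hsh1
    have b2 : h ≤ η3 * c1 / (2 * d + 1) := hz'.trans z7
    rw [le_div_iff₀ (by positivity)] at b2
    have b3 : h ^ 2 ≤ h := by rw [sq]; exact mul_le_of_le_one_right h0.le hlt.le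
    calc 2 * (d : ℝ) * h ^ 2 ≤ 2 * (d : ℝ) * h := mul_le_mul_of_nonneg_left b3 (by positivity)
      _ ≤ h * (2 * d + 1) := by linarith
      _ ≤ η3 * c1 := b2
      _ ≤ _ := mul_le_mul_of_nonneg_left b1 p3.le
  · have b1 : c1 * c2 / 2 ≤ mB d l p h * mH d l p h := by
      have t1 : c2 * Real.sqrt h / 2 ≤ mB d l p h := by
        have := hML p h hp hp1 h0 hlt
        linarith
      calc c1 * c2 / 2 = (c2 * Real.sqrt h / 2) * (c1 / Real.sqrt h) := by field_simp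
        _ ≤ _ := mul_le_mul t1 hHs (by positivity) hB0
    have b2 : h ≤ η4 * (c1 * c2 / 2) / (4 * (d : ℝ) ^ 2 + 1) := hz'.trans z8
    rw [le_div_iff₀ (by positivity)] at b2
    have b3 : h ^ 2 ≤ h := by rw [sq]; exact mul_le_of_le_one_right h0.le hlt.le
    calc 4 * (d : ℝ) ^ 2 * h ^ 2 ≤ 4 * (d : ℝ) ^ 2 * h := mul_le_mul_of_nonneg_left b3 (by positivity)
      _ ≤ h * (4 * (d : ℝ) ^ 2 + 1) := by linarith
      _ ≤ η4 * (c1 * c2 / 2) := b2
      _ ≤ _ := mul_le_mul_of_nonneg_left b1 p4.le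
  · have t0 : a0 / (a0 + 1) ≤ 1 := by rw [div_le_one (by linarith)]; linarith
    have k1 : 2 / (1 - pc) * (2 * η0) = η / 10 := by rw [hη0]; field_simp; ring
    have k2 : 2 / (1 - pc) * (2 * a0 * η3) = η / 10 * (a0 / (a0 + 1)) := by rw [hη3]; field_simp; ring
    have k3 : 2 / (1 - pc) * η4 = η / 10 := by rw [hη4]; field_simp; ring
    have k4 : a0 * (2 * η2) = η / 10 * (a0 / (a0 + 1)) := by rw [hη2]; field_simp; ring
    have k5 : a0 * ((1 - pc)⁻¹ * (2 * η1)) ≤ η / 10 * (a0 / (a0 + 1)) := by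
      have : η1 ≤ η * (1 - pc) / (20 * (a0 + 1)) := min_le_right _ _
      calc a0 * ((1 - pc)⁻¹ * (2 * η1)) ≤ a0 * ((1 - pc)⁻¹ * (2 * (η * (1 - pc) / (20 * (a0 + 1))))) := by gcongr
        _ = _ := by field_simp; ring
    have k6 : η / 10 * (a0 / (a0 + 1)) ≤ η / 10 * 1 := mul_le_mul_of_nonneg_left t0 (by positivity)
    have k7 : 2 / (1 - pc) * (2 * η0 + 2 * a0 * η3 + η4) = 2 / (1 - pc) * (2 * η0) + 2 / (1 - pc) * (2 * a0 * η3) + 2 / (1 - pc) * η4 := by ring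
    have k8 : a0 * (2 * η2 + (1 - pc)⁻¹ * (2 * η1)) = a0 * (2 * η2) + a0 * ((1 - pc)⁻¹ * (2 * η1)) := by ring
    rw [k7, k8, k1, k2, k3, k4]
    linarith


end Pool.Agent.PERC29.DZ
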