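import Pool.Agent.Lib.MP_29e17e_pr.Z.La
import Pool.Agent.Lib.MP_29e17e_pr.Z.Un

set_option autoImplicit false
set_option linter.unusedSectionVars false

/-! Rows 29d-P1 .. 29d-P9: the normalized functionals are nearly in the class, and their limits. -/

open Finset Filter Topology

namespace Pool.Agent.PERC29.DZ

open Pool.Agent.PERC29 Pool.Agent.PERC29.AE

variable {d : ℕ}

/-- Nearly in the class. -/
structure AP (d : ℕ) (C L η : ℝ) (N : ℕ) (p : ℝ) (Φ : Finset (Zd d) → Finset (Zd d) → ℝ) : Prop where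
  nn : ∀ D A, 0 ≤ Φ D A
  em : ∀ D, Φ D ∅ = 0
  on : ∀ v, nz v ≤ N → |Φ ∅ {v} - 1| ≤ η
  ex : ∀ (R : ℕ) (p1 s : ℝ) (D A : Finset (Zd d)), R ≤ N → 0 ≤ p1 → p1 ≤ 1 → 0 ≤ s → s ≤ 1 → 1 - p = (1 - p1) * (1 - s) → A ⊆ bz R →
    |Φ D A - Ex p1 (fun ω => Ex s (fun η' => Φ (D ∪ Wb R D A ω) (Wn R D A ω η')))| ≤ η
  lo0 : ∀ D D' A, A.card ≤ N → D'.card ≤ N → Φ (D ∪ D') A ≤ Φ D A + η
  lo : ∀ D D' A, A ⊆ bz N → D' ⊆ bz N → Φ D A - Φ (D ∪ D') A ≤ L * ∑ a ∈ A, ∑ s ∈ D', (C * fz (d - 2) (a - s) + η)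
  mo : ∀ D A A', A.card ≤ N → A'.card ≤ N → Φ D A ≤ Φ D (A ∪ A') + η
  sb : ∀ D A A', Φ D (A ∪ A') ≤ Φ D A + ∑ a ∈ A', Φ D {a}
  su : ∀ D A, A ⊆ bz N → ∑ a ∈ A, Φ D {a} - Φ D A ≤ L * ∑ a ∈ A, ∑ a' ∈ A.erase a, (C * fz (d - 4) (a - a') + η)

/-! ### The functional `piF / Mh` -/

/-- numbers for `P_on` -/
private lemma P1_num (N : ℕ) (h : ℝ) (h0 : 0 < h) (h1 : h < 1) (hN : h ≤ 1 / (2 * ((N : ℝ) + 1))) :
    ∃ n m : ℕ, (n : ℝ) ≤ 1 / h ^ 2 ∧ N + m ≤ n ∧ (1 - h) ^ m ≤ 2 * h := by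
  have hh : h * (2 * ((N : ℝ) + 1)) ≤ 1 := by
    rwa [le_div_iff₀ (by positivity)] at hN
  have hN0 : (0 : ℝ) ≤ N := Nat.cast_nonneg N
  have h2 : ((N : ℝ) + 1) * h ^ 2 ≤ 1 / 2 := by nlinarith
  have h3 : (0 : ℝ) < 1 / h ^ 2 := by positivity
  have hfl : (1 / h ^ 2) - 1 < (⌊1 / h ^ 2⌋₊ : ℝ) := by
    have := Nat.lt_floor_add_one (1 / h ^ 2)
    linarith
  have h4 : (N : ℝ) + 1 ≤ 1 / h ^ 2 := by
    rw [le_div_iff₀ (by positivity)]
    linarith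
  have h5 : N ≤ ⌊1 / h ^ 2⌋₊ := by
    apply Nat.le_floor
    linarith
  obtain ⟨m, hm⟩ := Nat.exists_eq_add_of_le h5
  refine ⟨⌊1 / h ^ 2⌋₊, m, Nat.floor_le h3.le, hm.ge, ?_⟩
  have hm' : ((⌊1 / h ^ 2⌋₊ : ℕ) : ℝ) = (N : ℝ) + m := by
    rw [hm]
    push_cast
    ring
  have h6 : 1 / h ^ 2 - ((N : ℝ) + 1) < m := by linarith
  have h7 : 1 / 2 ≤ (m : ℝ) * h ^ 2 := by
    have e1 : (1 / h ^ 2 - ((N : ℝ) + 1)) * h ^ 2 ≤ (m : ℝ) * h ^ 2 :=
      mul_le_mul_of_nonneg_right h6.le (by positivity)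
    have e2 : (1 / h ^ 2 - ((N : ℝ) + 1)) * h ^ 2 = 1 - ((N : ℝ) + 1) * h ^ 2 := by
      field_simp
    rw [e2] at e1
    linarith
  have h8 : 1 + (m : ℝ) * h ≤ (1 + h) ^ m := one_add_mul_le_pow (by linarith) m
  have h9 : (1 - h) ^ m * (1 + h) ^ m ≤ 1 := by
    rw [← mul_pow]
    apply pow_le_one₀
    · nlinarith
    · nlinarith
  have h10 : 0 ≤ (1 - h) ^ m := pow_nonneg (by linarith) m
  have h11 : (1 - h) ^ m * ((m : ℝ) * h) ≤ 1 := by
    calc (1 - h) ^ m * ((m : ℝ) * h) ≤ (1 - h) ^ m * (1 + h) ^ m := by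
          apply mul_le_mul_of_nonneg_left _ h10
          linarith
      _ ≤ 1 := h9
  have h12 : (1 - h) ^ m * (1 / 2) ≤ (1 - h) ^ m * ((m : ℝ) * h ^ 2) :=
    mul_le_mul_of_nonneg_left h7 h10
  have h13 : (1 - h) ^ m * ((m : ℝ) * h ^ 2) = ((1 - h) ^ m * ((m : ℝ) * h)) * h := by ring
  have h14 : ((1 - h) ^ m * ((m : ℝ) * h)) * h ≤ 1 * h := mul_le_mul_of_nonneg_right h11 h0.le
  linarith

/-- Row P1. `shift` with `n = ⌊1/h^2⌋`, `deep_pi`, `Mh_ub`: `|piF - Mh| ≤ (1-h)^(n-N) ≤ e^(-1/(2h)) ≤ η c' √h ≤ η Mh` for `h` small (`Mh_low`). -/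
lemma P_on {C c e pc : ℝ} (ht : HT d C c e pc) (δ : ℝ) (hδ : 0 < δ) (hδ1 : δ ≤ 1) (η : ℝ) (hη : 0 < η) (N : ℕ) : ∃ h0 : ℝ, 0 < h0 ∧ ∀ (l : ℕ) (u : Fin d → Fin l) (p h : ℝ),
    Rg d pc δ l u p h → h ≤ h0 → ∀ v, nz v ≤ N → |piF l u p h ∅ {v} / Mh d p h - 1| ≤ η := by
  obtain ⟨L, -, hL⟩ := rg_num ht δ hδ hδ1
  obtain ⟨h0, hh0, H⟩ := hL (η / 2) (by positivity) N
  refine ⟨min h0 (1 / (2 * ((N : ℝ) + 1))), lt_min hh0 (by positivity), ?_⟩
  intro l u p h hr hh v hv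
  obtain ⟨⟨hpe, -, -⟩, -, hM, -, hhM, -, -, -, -, -⟩ := H l u p h hr (hh.trans (min_le_left _ _))
  have hp0 : 0 ≤ p := ht.hp.p0.le.trans hr.pa
  have hp1 : p ≤ 1 := hpe.trans ht.e1.le
  have h1 := hr.h0
  have h2 := hr.h1
  have hsm : h ≤ 1 / (2 * ((N : ℝ) + 1)) := hh.trans (min_le_right _ _)
  obtain ⟨n, m, hn, hnm, hm⟩ := P1_num N h h1 h2 hsm
  have hu : Dp u n := hr.dp n hn
  obtain ⟨u', -, hu', hs⟩ := shift u n v (by omega) hu
  have e1 := deep_pi u' (n - nz v) hu' p h hp0 hp1 h1.le h2.le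
  have e2 := Mh_ub u' p h hp0 hp1 h1.le h2.le
  have e3 : (1 - h) ^ (n - nz v) ≤ (1 - h) ^ m := by
    apply pow_le_pow_of_le_one (by linarith) (by linarith)
    omega
  rw [(hs p h).1]
  have e4 : Mh d p h - piF l u' p h ∅ {0} ≤ η * Mh d p h := by
    nlinarith
  rw [abs_sub_comm, abs_of_nonneg]
  · rw [sub_le_iff_le_add, ← sub_le_iff_le_add', le_div_iff₀ hM]
    linarith
  · rw [sub_nonneg, div_le_one hM]
    exact e2

/-- Row P1. `ex_pi`, `Dp u (N+1)` and `(2N+1)^d h ≤ η Mh` (`rg_num` for `η / (2N+1)^d`). -/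
lemma P_ex {C c e pc : ℝ} (ht : HT d C c e pc) (δ : ℝ) (hδ : 0 < δ) (hδ1 : δ ≤ 1) (η : ℝ) (hη : 0 < η) (N : ℕ) : ∃ h0 : ℝ, 0 < h0 ∧ ∀ (l : ℕ) (u : Fin d → Fin l) (p h : ℝ),
    Rg d pc δ l u p h → h ≤ h0 → ∀ (R : ℕ) (p1 s : ℝ) (D A : Finset (Zd d)), R ≤ N → 0 ≤ p1 → p1 ≤ 1 → 0 ≤ s → s ≤ 1 → 1 - p = (1 - p1) * (1 - s) → A ⊆ bz R →
    |piF l u p h D A / Mh d p h - Ex p1 (fun ω => Ex s (fun η' => piF l u p h (D ∪ Wb R D A ω) (Wn R D A ω η') / Mh d p h))| ≤ η := by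
  obtain ⟨L, -, hL⟩ := rg_num ht δ hδ hδ1
  obtain ⟨h0, hh0, H⟩ := hL (η / (2 * (N : ℝ) + 1) ^ d) (by positivity) (N + 1)
  refine ⟨h0, hh0, ?_⟩
  intro l u p h hr hh R p1 s D A hR hp10 hp11 hs0 hs1 hps hA
  obtain ⟨⟨hpe, -, -⟩, -, hM, -, hhM, -, -, -, -, hD⟩ := H l u p h hr hh
  have hp0 : 0 ≤ p := ht.hp.p0.le.trans hr.pa
  have hp1 : p ≤ 1 := hpe.trans ht.e1.le
  have h1 := hr.h0
  have h2 := hr.h1
  have hDR : Dp u (R + 1) := by
    intro i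
    have := hD i
    omega
  have e1 := ex_pi u R hDR D A hA p p1 s h hps hp0 hp1 hp10 hp11 hs0 hs1 h1 h2.le
  have e2 : (2 * (R : ℝ) + 1) ^ d * h ≤ η * Mh d p h := by
    have hR' : (R : ℝ) ≤ N := by exact_mod_cast hR
    have e3 : (2 * (R : ℝ) + 1) ^ d ≤ (2 * (N : ℝ) + 1) ^ d := by
      apply pow_le_pow_left₀ (by positivity)
      linarith
    have e4 : (0 : ℝ) < (2 * (N : ℝ) + 1) ^ d := by positivity
    calc (2 * (R : ℝ) + 1) ^ d * h ≤ (2 * (N : ℝ) + 1) ^ d * (η / (2 * (N : ℝ) + 1) ^ d * Mh d p h) :=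
          mul_le_mul e3 hhM h1.le e4.le
      _ = η * Mh d p h := by field_simp
  have e5 : Ex p1 (fun ω : Om d R => Ex s (fun η' : Om d R => piF l u p h (D ∪ Wb R D A ω) (Wn R D A ω η') / Mh d p h)) =
      (Mh d p h)⁻¹ * Ex p1 (fun ω : Om d R => Ex s (fun η' : Om d R => piF l u p h (D ∪ Wb R D A ω) (Wn R D A ω η'))) := by
    rw [← Ex_mul_left]
    apply Ex_congr
    intro ω
    rw [← Ex_mul_left]
    apply Ex_congr
    intro η'
    rw [div_eq_inv_mul]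
  rw [e5, div_eq_inv_mul, ← mul_sub, abs_mul, abs_of_pos (inv_pos.2 hM), inv_mul_le_iff₀ hM]
  exact (e1.trans e2).trans (mul_comm _ _).le

/-- Row P2. `lo_p` for `prf`, `ta_near`, `fz_rel`, `prf_sum`: `ta ≤ 2 C fz + η`. -/
lemma P_lo {C c e pc : ℝ} (ht : HT d C c e pc) (δ : ℝ) (hδ : 0 < δ) (hδ1 : δ ≤ 1) (η : ℝ) (hη : 0 < η) (N : ℕ) : ∃ h0 : ℝ, 0 < h0 ∧ ∀ (l : ℕ) (u : Fin d → Fin l) (p h : ℝ),
    Rg d pc δ l u p h → h ≤ h0 → ∀ D D' A, A ⊆ bz N → D' ⊆ bz N →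
    piF l u p h D A / Mh d p h - piF l u p h (D ∪ D') A / Mh d p h ≤ 2 * ∑ a ∈ A, ∑ s ∈ D', (C * fz (d - 2) (a - s) + η) := by
  obtain ⟨L, -, HL⟩ := rg_num ht δ hδ hδ1
  obtain ⟨h1, hh1, H1⟩ := HL 1 one_pos 0
  obtain ⟨h2, hh2, H2⟩ := ta_near ht δ hδ hδ1 η hη N
  refine ⟨min h1 h2, lt_min hh1 hh2, ?_⟩
  intro l u p h hR hh D D' A hA hD'
  have hC : 0 ≤ C := le_trans zero_le_one ht.hp.C1
  obtain ⟨⟨-, hp2, -⟩, -, hM, -⟩ := H1 l u p h hR (hh.trans (min_le_left _ _))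
  have hta := H2 l u p h hR (hh.trans (min_le_right _ _))
  have hp0 : 0 ≤ p := le_trans ht.hp.p0.le hR.pa
  have hp1 : p ≤ 1 := by
    have := ht.hp.p1
    linarith
  have hlo := lo_p hp0 hp1 hR.h0.le hR.h1.le (Mh_Mb l p h hp0 hp1 hR.h0.le hR.h1.le) (pre u D) (prf u A) (prf u D')
  have e1 : pre u (D ∪ D') = pre u D ∪ pre u D' := by
    ext x
    show rel u x ∈ D ∪ D' ↔ rel u x ∈ D ∨ rel u x ∈ D'
    exact Finset.mem_union
  have e2 : piF l u p h D A = piS (gends (boxG d l)) p h (pre u D) ((prf u A : Finset (Fin d → Fin l)) : Set (Fin d → Fin l)) := by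
    rw [prf_coe]
    rfl
  have e3 : piF l u p h (D ∪ D') A = piS (gends (boxG d l)) p h (pre u D ∪ ((prf u D' : Finset (Fin d → Fin l)) : Set (Fin d → Fin l)))
      ((prf u A : Finset (Fin d → Fin l)) : Set (Fin d → Fin l)) := by
    rw [prf_coe, prf_coe, ← e1]
    rfl
  rw [← e2, ← e3] at hlo
  have hmem : ∀ (B : Finset (Zd d)), B ⊆ bz N → ∀ x ∈ prf u B, nz (rel u x) ≤ N := by
    intro B hB x hx
    exact (mem_bz N _).1 (hB (Finset.mem_filter.1 hx).2)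
  have hF : ∀ v s : Zd d, 0 ≤ 2 * (C * fz (d - 2) (v - s)) + η := by
    intro v s
    have := (fz_pos (d - 2) (v - s)).le
    positivity
  have hsum : ∑ a ∈ prf u A, ∑ s ∈ prf u D', ta (gends (boxG d l)) p a s ≤
      2 * ∑ a ∈ A, ∑ s ∈ D', (C * fz (d - 2) (a - s) + η) := by
    calc ∑ a ∈ prf u A, ∑ s ∈ prf u D', ta (gends (boxG d l)) p a s
        ≤ ∑ a ∈ prf u A, ∑ s ∈ prf u D', (2 * (C * fz (d - 2) (rel u a - rel u s)) + η) := by
          refine Finset.sum_le_sum fun a ha => Finset.sum_le_sum fun s hs => ?_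
          rw [fz_rel]
          exact hta a s (hmem A hA a ha) (hmem D' hD' s hs)
      _ ≤ ∑ a ∈ prf u A, ∑ s ∈ D', (2 * (C * fz (d - 2) (rel u a - s)) + η) := by
          refine Finset.sum_le_sum fun a _ => ?_
          exact prf_sum u D' (fun s => 2 * (C * fz (d - 2) (rel u a - s)) + η) (fun s => hF _ _)
      _ ≤ ∑ a ∈ A, ∑ s ∈ D', (2 * (C * fz (d - 2) (a - s)) + η) :=
          prf_sum u A (fun v => ∑ s ∈ D', (2 * (C * fz (d - 2) (v - s)) + η))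
            (fun v => Finset.sum_nonneg fun s _ => hF _ _)
      _ ≤ 2 * ∑ a ∈ A, ∑ s ∈ D', (C * fz (d - 2) (a - s) + η) := by
          rw [Finset.mul_sum]
          refine Finset.sum_le_sum fun a _ => ?_
          rw [Finset.mul_sum]
          refine Finset.sum_le_sum fun s _ => ?_
          linarith
  rw [← sub_div, div_le_iff₀ hM]
  refine hlo.trans ?_
  rw [mul_comm]
  exact mul_le_mul_of_nonneg_right hsum hM.le

private lemma P2b_empty {l : ℕ} (p h : ℝ) (S : Set (Fin d → Fin l)) :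
    piS (gends (boxG d l)) p h S (∅ : Set (Fin d → Fin l)) = 0 := by
  unfold piS
  apply Ex_zero_of
  intro ω
  have h1 : cS (gends (boxG d l)) ω S (∅ : Set (Fin d → Fin l)) = ∅ := by
    apply Finset.eq_empty_of_forall_notMem
    intro y hy
    rw [mem_cS] at hy
    obtain ⟨a, ha, -⟩ := hy
    exact ha
  rw [h1]
  simp [gh]

private lemma P2b_pre {l : ℕ} (u x : Fin d → Fin l) : pre u {rel u x} = {x} := by
  ext y
  constructor
  · intro hy
    have hy' : rel u y ∈ ({rel u x} : Finset (Zd d)) := hy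
    rw [Finset.mem_singleton] at hy'
    exact rel_inj u hy'
  · intro hy
    have hy' : y = x := hy
    show rel u y ∈ ({rel u x} : Finset (Zd d))
    rw [hy', Finset.mem_singleton]

private lemma P2b_pre' {l : ℕ} (u : Fin d → Fin l) (a : Zd d) (ha : ∀ x, rel u x ≠ a) :
    pre u {a} = ∅ := by
  ext y
  constructor
  · intro hy
    have hy' : rel u y ∈ ({a} : Finset (Zd d)) := hy
    rw [Finset.mem_singleton] at hy'
    exact (ha y hy').elim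
  · intro hy
    exact hy.elim

private lemma P2b_sum {l : ℕ} (u : Fin d → Fin l) (p h : ℝ) (D A : Finset (Zd d)) :
    ∑ a ∈ A, piF l u p h D {a} =
      ∑ x ∈ prf u A, piS (gends (boxG d l)) p h (pre u D) {x} := by
  classical
  have h1 : ∑ x ∈ prf u A, piS (gends (boxG d l)) p h (pre u D) {x} =
      ∑ x ∈ prf u A, piF l u p h D {rel u x} := by
    apply Finset.sum_congr rfl
    intro x _
    unfold piF
    rw [P2b_pre]
  rw [h1, ← Finset.sum_image (s := prf u A) (g := rel u) (f := fun a => piF l u p h D {a})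
    (fun x _ y _ hxy => rel_inj u hxy)]
  symm
  apply Finset.sum_subset
  · intro a ha
    obtain ⟨x, hx, rfl⟩ := Finset.mem_image.1 ha
    exact (Finset.mem_filter.1 hx).2
  · intro a ha hna
    unfold piF
    rw [P2b_pre' u a, P2b_empty]
    intro x hx
    apply hna
    refine Finset.mem_image.2 ⟨x, Finset.mem_filter.2 ⟨Finset.mem_univ _, ?_⟩, hx⟩
    rw [hx]
    exact ha

private lemma P2b_double {l : ℕ} (u : Fin d → Fin l) (A : Finset (Zd d)) (G : Zd d → Zd d → ℝ)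
    (hG : ∀ a b, 0 ≤ G a b) :
    ∑ x ∈ prf u A, ∑ x' ∈ (prf u A).erase x, G (rel u x) (rel u x') ≤
      ∑ a ∈ A, ∑ a' ∈ A.erase a, G a a' := by
  classical
  have h1 : ∑ x ∈ prf u A, ∑ x' ∈ (prf u A).erase x, G (rel u x) (rel u x') ≤
      ∑ x ∈ prf u A, (fun v => ∑ a' ∈ A.erase v, G v a') (rel u x) := by
    apply Finset.sum_le_sum
    intro x hx
    show ∑ x' ∈ (prf u A).erase x, G (rel u x) (rel u x') ≤ ∑ a' ∈ A.erase (rel u x), G (rel u x) a'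
    rw [← Finset.sum_image (s := (prf u A).erase x) (g := rel u) (f := fun a => G (rel u x) a)
      (fun x _ y _ hxy => rel_inj u hxy)]
    apply Finset.sum_le_sum_of_subset_of_nonneg
    · intro a ha
      obtain ⟨y, hy, rfl⟩ := Finset.mem_image.1 ha
      obtain ⟨hyx, hy⟩ := Finset.mem_erase.1 hy
      refine Finset.mem_erase.2 ⟨fun hc => hyx (rel_inj u hc), (Finset.mem_filter.1 hy).2⟩
    · intro a _ _
      exact hG _ _
  exact h1.trans (prf_sum u A (fun v => ∑ a' ∈ A.erase v, G v a')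
    (fun v => Finset.sum_nonneg (fun a _ => hG _ _)))

/-- Row P2. `su_pt`, `su_near`; `K fk (d-4) a a' + η ≤ L (C fz (d-4) + η)` for `L = K` (`C ≥ 1`). (`∑_{a ∈ A} piF D {a}` = `∑_{x ∈ prf u A} piS (pre u D) {x}`: the points `a ∈ A` which are not the relative position of a vertex give zero.) -/
lemma P_su {C c e pc : ℝ} (ht : HT d C c e pc) : ∃ L : ℝ, 1 ≤ L ∧ ∀ δ : ℝ, 0 < δ → δ ≤ 1 → ∀ η : ℝ, 0 < η → ∀ N : ℕ, ∃ h0 : ℝ, 0 < h0 ∧ ∀ (l : ℕ) (u : Fin d → Fin l) (p h : ℝ),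
    Rg d pc δ l u p h → h ≤ h0 → ∀ D A, A ⊆ bz N →
    ∑ a ∈ A, piF l u p h D {a} / Mh d p h - piF l u p h D A / Mh d p h ≤ L * ∑ a ∈ A, ∑ a' ∈ A.erase a, (C * fz (d - 4) (a - a') + η) := by
  obtain ⟨K, hK, hsu⟩ := su_near ht
  refine ⟨K, hK, fun δ hδ hδ1 η hη N => ?_⟩
  obtain ⟨h1, hh1, H1⟩ := hsu δ hδ hδ1 η hη N
  obtain ⟨L', -, hrg⟩ := rg_num ht δ hδ hδ1
  obtain ⟨h2, hh2, H2⟩ := hrg η hη N
  refine ⟨min h1 h2, lt_min hh1 hh2, fun l u p h hR hh D A hA => ?_⟩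
  obtain ⟨⟨hpe, -, -⟩, -, hM, -⟩ := H2 l u p h hR (hh.trans (min_le_right _ _))
  have hp0 : 0 ≤ p := ht.hp.p0.le.trans hR.pa
  have hp1 : p ≤ 1 := hpe.trans ht.e1.le
  have hC1 : 1 ≤ C := ht.hp.C1
  have hB : ∀ a ∈ prf u A, nz (rel u a) ≤ N := by
    intro a ha
    have := hA (Finset.mem_filter.1 ha).2
    rwa [mem_bz] at this
  have key := H1 l u p h hR (hh.trans (min_le_left _ _)) (pre u D) (prf u A) hB
  -- the difference of the functionals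
  have e1 : ∑ a ∈ A, piF l u p h D {a} / Mh d p h - piF l u p h D A / Mh d p h =
      (∑ x ∈ prf u A, piS (gends (boxG d l)) p h (pre u D) {x} -
        piS (gends (boxG d l)) p h (pre u D) ((prf u A : Finset (Fin d → Fin l)) : Set (Fin d → Fin l))) /
        Mh d p h := by
    rw [← Finset.sum_div, P2b_sum, prf_coe, ← sub_div]
    rfl
  have e2 : ∑ x ∈ prf u A, piS (gends (boxG d l)) p h (pre u D) {x} ≤
      piS (gends (boxG d l)) p h (pre u D) ((prf u A : Finset (Fin d → Fin l)) : Set (Fin d → Fin l)) +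
      Ex p (fun ω => ∑ a ∈ prf u A, ∑ a' ∈ (prf u A).erase a, (if a' ∈ cS (gends (boxG d l)) ω (pre u D) {a} then gh h (cS (gends (boxG d l)) ω (pre u D) {a}).card
      else gh h (cS (gends (boxG d l)) ω (pre u D) {a}).card * gh h (cS (gends (boxG d l)) ω (pre u D) {a'}).card)) := by
    unfold piS
    rw [← Ex_sum, ← Ex_add]
    apply Ex_mono hp0 hp1
    intro ω
    have := su_pt (ends := gends (boxG d l)) hR.h0.le hR.h1.le ω (pre u D) (prf u A)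
    linarith
  have e3 : ∑ x ∈ prf u A, ∑ x' ∈ (prf u A).erase x, (K * fk (d - 4) x x' + η) ≤
      K * ∑ a ∈ A, ∑ a' ∈ A.erase a, (C * fz (d - 4) (a - a') + η) := by
    have e4 : ∑ x ∈ prf u A, ∑ x' ∈ (prf u A).erase x, (K * fk (d - 4) x x' + η) =
        ∑ x ∈ prf u A, ∑ x' ∈ (prf u A).erase x,
          (fun a a' => K * fz (d - 4) (a - a') + η) (rel u x) (rel u x') := by
      apply Finset.sum_congr rfl
      intro x _
      apply Finset.sum_congr rfl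
      intro x' _
      show K * fk (d - 4) x x' + η = K * fz (d - 4) (rel u x - rel u x') + η
      rw [fz_rel]
    rw [e4]
    refine (P2b_double u A (fun a a' => K * fz (d - 4) (a - a') + η) ?_).trans ?_
    · intro a b
      have := (fz_pos (d - 4) (a - b)).le
      have hK0 : 0 ≤ K := by linarith
      show 0 ≤ K * fz (d - 4) (a - b) + η
      positivity
    · rw [Finset.mul_sum]
      apply Finset.sum_le_sum
      intro a _
      rw [Finset.mul_sum]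
      apply Finset.sum_le_sum
      intro a' _
      show K * fz (d - 4) (a - a') + η ≤ K * (C * fz (d - 4) (a - a') + η)
      have h5 := (fz_pos (d - 4) (a - a')).le
      have h6 : fz (d - 4) (a - a') ≤ C * fz (d - 4) (a - a') := by nlinarith
      have h7 : η ≤ K * η := by nlinarith
      have h8 : K * fz (d - 4) (a - a') ≤ K * (C * fz (d - 4) (a - a')) :=
        mul_le_mul_of_nonneg_left h6 (by linarith)
      linarith
  rw [e1, div_le_iff₀ hM]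
  have e5 := mul_le_mul_of_nonneg_left e3 hM.le
  linarith [mul_comm (Mh d p h) (K * ∑ a ∈ A, ∑ a' ∈ A.erase a, (C * fz (d - 4) (a - a') + η))]

/-- Row P3. Assembly: `P_on`, `P_ex`, `P_lo`, `P_su`, `piF_lo0`, `piF_mo`, `piF_sb`. -/
theorem AP_pi {C c e pc : ℝ} (ht : HT d C c e pc) (δ : ℝ) (hδ : 0 < δ) (hδ1 : δ ≤ 1) : ∃ L : ℝ, 1 ≤ L ∧ ∀ η : ℝ, 0 < η → ∀ N : ℕ, ∃ h0 : ℝ, 0 < h0 ∧
    ∀ (l : ℕ) (u : Fin d → Fin l) (p h : ℝ), Rg d pc δ l u p h → h ≤ h0 → AP d C L η N p (fun D A => piF l u p h D A / Mh d p h) := by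
  obtain ⟨L0, hL0, hnum⟩ := rg_num ht δ hδ hδ1
  obtain ⟨L1, hL1, hsu⟩ := P_su ht
  have hC0 : 0 ≤ C := by linarith [ht.hp.C1]
  refine ⟨max 2 L1, le_trans (by norm_num) (le_max_left _ _), ?_⟩
  intro η hη N
  obtain ⟨a1, ha1, g1⟩ := P_on ht δ hδ hδ1 η hη N
  obtain ⟨a2, ha2, g2⟩ := P_ex ht δ hδ hδ1 η hη N
  obtain ⟨a3, ha3, g3⟩ := P_lo ht δ hδ hδ1 η hη N
  obtain ⟨a4, ha4, g4⟩ := hsu δ hδ hδ1 η hη N
  obtain ⟨a5, ha5, g5⟩ := hnum η hη N
  refine ⟨min (min a1 a2) (min (min a3 a4) a5), lt_min (lt_min ha1 ha2) (lt_min (lt_min ha3 ha4) ha5), ?_⟩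
  intro l u p h hR hh
  have e1 : h ≤ a1 := hh.trans ((min_le_left _ _).trans (min_le_left _ _))
  have e2 : h ≤ a2 := hh.trans ((min_le_left _ _).trans (min_le_right _ _))
  have e3 : h ≤ a3 := hh.trans ((min_le_right _ _).trans ((min_le_left _ _).trans (min_le_left _ _)))
  have e4 : h ≤ a4 := hh.trans ((min_le_right _ _).trans ((min_le_left _ _).trans (min_le_right _ _)))
  have e5 : h ≤ a5 := hh.trans ((min_le_right _ _).trans (min_le_right _ _))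
  obtain ⟨⟨_, hp2, _⟩, _, hM, _, _, _, _, _, _, _⟩ := g5 l u p h hR e5
  have hp0 : 0 ≤ p := le_trans ht.hp.p0.le hR.pa
  have hp1 : p ≤ 1 := by linarith [ht.hp.p1]
  have h0 : 0 ≤ h := hR.h0.le
  have h1 : h ≤ 1 := hR.h1.le
  have hs : ∀ (k : ℕ) (x : Zd d), 0 ≤ C * fz k x + η := fun k x => add_nonneg (mul_nonneg hC0 (fz_pos k x).le) hη.le
  constructor
  · intro D A
    exact div_nonneg (piF_nonneg u p h hp0 hp1 h0 h1 D A) hM.le
  · intro D
    show piF l u p h D ∅ / Mh d p h = 0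
    rw [piF_empty, zero_div]
  · exact g1 l u p h hR e1
  · exact g2 l u p h hR e2
  · intro D D' A _ _
    have k : piF l u p h (D ∪ D') A / Mh d p h ≤ piF l u p h D A / Mh d p h :=
      div_le_div_of_nonneg_right (piF_lo0 u p h hp0 hp1 h0 h1 D D' A) hM.le
    show piF l u p h (D ∪ D') A / Mh d p h ≤ piF l u p h D A / Mh d p h + η
    linarith
  · intro D D' A hA hD'
    refine (g3 l u p h hR e3 D D' A hA hD').trans ?_
    exact mul_le_mul_of_nonneg_right (le_max_left _ _) (Finset.sum_nonneg fun a _ => Finset.sum_nonneg fun s _ => hs _ _)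
  · intro D A A' _ _
    have k : piF l u p h D A / Mh d p h ≤ piF l u p h D (A ∪ A') / Mh d p h :=
      div_le_div_of_nonneg_right (piF_mo u p h hp0 hp1 h0 h1 D A A') hM.le
    show piF l u p h D A / Mh d p h ≤ piF l u p h D (A ∪ A') / Mh d p h + η
    linarith
  · intro D A A'
    show piF l u p h D (A ∪ A') / Mh d p h ≤ piF l u p h D A / Mh d p h + ∑ a ∈ A', piF l u p h D {a} / Mh d p h
    rw [← Finset.sum_div, ← add_div]
    exact div_le_div_of_nonneg_right (piF_sb u p h hp0 hp1 h0 h1 D A A') hM.le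
  · intro D A hA
    refine (g4 l u p h hR e4 D A hA).trans ?_
    exact mul_le_mul_of_nonneg_right (le_max_right _ _) (Finset.sum_nonneg fun a _ => Finset.sum_nonneg fun s _ => hs _ _)

/-! ### The functional `sgF / m1`, `m1 = sgF ∅ {0}` -/

lemma P4_dp {l : ℕ} (u : Fin d → Fin l) {n m : ℕ} (h : n ≤ m) (hu : Dp u m) : Dp u n := by
  intro i
  obtain ⟨h1, h2⟩ := hu i
  exact ⟨by omega, by omega⟩

lemma P4_num {h : ℝ} (h0 : 0 < h) (h1 : h < 1) (n : ℕ) (hn : 1 / 2 ≤ h ^ 2 * (n : ℝ)) : 2 * ((n : ℝ) * (1 - h) ^ n) ≤ 8 := by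
  have hx : 0 < h * (n : ℝ) := by
    by_contra hc
    push Not at hc
    have : h ^ 2 * (n : ℝ) = h * (h * (n : ℝ)) := by ring
    rw [this] at hn
    nlinarith
  have hn0 : 0 < (n : ℝ) := by
    rcases Nat.eq_zero_or_pos n with h | h
    · simp [h] at hx
    · exact_mod_cast h
  have e1 : (1 - h) ^ n ≤ Real.exp (-(h * (n : ℝ))) := by
    have e2 : 1 - h ≤ Real.exp (-h) := by
      have := Real.add_one_le_exp (-h)
      linarith
    calc (1 - h) ^ n ≤ (Real.exp (-h)) ^ n := pow_le_pow_left₀ (by linarith) e2 n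
      _ = Real.exp (-(h * (n : ℝ))) := by
        rw [← Real.exp_nat_mul]
        congr 1
        ring
  have e3 : (h * (n : ℝ)) ^ 2 / 2 ≤ Real.exp (h * (n : ℝ)) := by
    have := Real.quadratic_le_exp_of_nonneg hx.le
    linarith
  have e4 : Real.exp (-(h * (n : ℝ))) * Real.exp (h * (n : ℝ)) = 1 := by
    rw [← Real.exp_add]
    simp
  have e5 : 0 ≤ Real.exp (-(h * (n : ℝ))) := (Real.exp_pos _).le
  have e6 : (n : ℝ) * (1 / 4) ≤ (h * (n : ℝ)) ^ 2 / 2 := by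
    have : (h * (n : ℝ)) ^ 2 / 2 = (n : ℝ) * (h ^ 2 * (n : ℝ)) / 2 := by ring
    rw [this]
    nlinarith
  have e7 : (n : ℝ) * (1 / 4) * Real.exp (-(h * (n : ℝ))) ≤ 1 := by
    calc (n : ℝ) * (1 / 4) * Real.exp (-(h * (n : ℝ))) ≤ Real.exp (h * (n : ℝ)) * Real.exp (-(h * (n : ℝ))) :=
          mul_le_mul_of_nonneg_right (e6.trans e3) e5
      _ = 1 := by rw [mul_comm]; exact e4
  have e8 : (n : ℝ) * (1 - h) ^ n ≤ (n : ℝ) * Real.exp (-(h * (n : ℝ))) := mul_le_mul_of_nonneg_left e1 hn0.le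
  nlinarith

/-- Row P4. `shift`, `deep_sg` with `n = ⌊1/h^2⌋ - N`, `1 ≤ η' sgF` (`rg_num`): `2 n (1-h)^n ≤ η`. -/
lemma S_on {C c e pc : ℝ} (ht : HT d C c e pc) (δ : ℝ) (hδ : 0 < δ) (hδ1 : δ ≤ 1) (η : ℝ) (hη : 0 < η) (N : ℕ) : ∃ h0 : ℝ, 0 < h0 ∧ ∀ (l : ℕ) (u : Fin d → Fin l) (p h : ℝ),
    Rg d pc δ l u p h → h ≤ h0 → ∀ v, nz v ≤ N → |sgF l u p h ∅ {v} / sgF l u p h ∅ {0} - 1| ≤ η := by
  obtain ⟨L, -, hL⟩ := rg_num ht δ hδ hδ1
  obtain ⟨h0, hh0, H⟩ := hL (η / 8) (by positivity) N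
  have hN1 : (0 : ℝ) < 2 * ((N : ℝ) + 1) := by positivity
  refine ⟨min h0 (1 / (2 * ((N : ℝ) + 1))), lt_min hh0 (by positivity), ?_⟩
  intro l u p h hr hh v hv
  obtain ⟨⟨-, hp2, -⟩, -, -, -, -, -, hm0, hm1, -, -⟩ := H l u p h hr (hh.trans (min_le_left _ _))
  have hpc0 := ht.hp.p0
  have hpc1 := ht.hp.p1
  have hp0 : 0 ≤ p := by have := hr.pa; linarith
  have hp1 : p ≤ 1 := by linarith
  have hh1 : h ≤ 1 / (2 * ((N : ℝ) + 1)) := hh.trans (min_le_right _ _)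
  have hh2 : h * (2 * ((N : ℝ) + 1)) ≤ 1 := by
    rwa [le_div_iff₀ hN1] at hh1
  have hpos := hr.h0
  have hlt := hr.h1
  have hNr : (0 : ℝ) ≤ (N : ℝ) := Nat.cast_nonneg N
  have hhalf : h ≤ 1 / 2 := by nlinarith
  have hsq : 0 < h ^ 2 := by positivity
  set n0 : ℕ := ⌊1 / h ^ 2⌋₊ with hn0
  have a1 : (n0 : ℝ) ≤ 1 / h ^ 2 := Nat.floor_le (by positivity)
  have a2 : 1 / h ^ 2 < (n0 : ℝ) + 1 := Nat.lt_floor_add_one _
  have a3 : 1 < h ^ 2 * ((n0 : ℝ) + 1) := by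
    rwa [div_lt_iff₀ hsq, mul_comm] at a2
  have a4 : h ^ 2 * ((N : ℝ) + 1) ≤ 1 / 4 := by
    have : h ^ 2 * ((N : ℝ) + 1) = h * (h * (2 * ((N : ℝ) + 1))) / 2 := by ring
    rw [this]
    nlinarith
  have a5 : N ≤ n0 := by
    by_contra hc
    push Not at hc
    have : (n0 : ℝ) + 1 ≤ (N : ℝ) + 1 := by
      have : (n0 : ℝ) ≤ (N : ℝ) := by exact_mod_cast hc.le
      linarith
    nlinarith
  have a6 : ((n0 - N : ℕ) : ℝ) = (n0 : ℝ) - (N : ℝ) := by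
    rw [Nat.cast_sub a5]
  have a7 : 1 / 2 ≤ h ^ 2 * ((n0 - N : ℕ) : ℝ) := by
    rw [a6]
    nlinarith
  have a8 : 1 / h ≤ ((n0 - N : ℕ) : ℝ) := by
    rw [div_le_iff₀ hpos]
    have : h ^ 2 * ((n0 - N : ℕ) : ℝ) = h * (((n0 - N : ℕ) : ℝ) * h) := by ring
    rw [this] at a7
    by_contra hc
    push Not at hc
    nlinarith
  have hu0 : Dp u n0 := hr.dp n0 a1
  obtain ⟨u', -, hu', hs⟩ := shift u n0 v (hv.trans a5) hu0
  have hu1 : Dp u (n0 - N) := P4_dp u (Nat.sub_le _ _) hu0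
  have hu2 : Dp u' (n0 - N) := P4_dp u' (by omega) hu'
  have hd := deep_sg u' u (n0 - N) hu2 hu1 p h hp0 hp1 hpos hlt.le a8
  have hd2 := hd.trans (P4_num hpos hlt (n0 - N) a7)
  rw [(hs p h).2]
  have e1 : sgF l u' p h ∅ {0} / sgF l u p h ∅ {0} - 1 = (sgF l u' p h ∅ {0} - sgF l u p h ∅ {0}) / sgF l u p h ∅ {0} := by
    field_simp
  rw [e1, abs_div, abs_of_pos hm0, div_le_iff₀ hm0]
  refine hd2.trans ?_
  nlinarith

/-- Row P4. `ex_sg`, `2 (2N+1)^d ≤ η sgF`. -/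
lemma S_ex {C c e pc : ℝ} (ht : HT d C c e pc) (δ : ℝ) (hδ : 0 < δ) (hδ1 : δ ≤ 1) (η : ℝ) (hη : 0 < η) (N : ℕ) : ∃ h0 : ℝ, 0 < h0 ∧ ∀ (l : ℕ) (u : Fin d → Fin l) (p h : ℝ),
    Rg d pc δ l u p h → h ≤ h0 → ∀ (R : ℕ) (p1 s : ℝ) (D A : Finset (Zd d)), R ≤ N → 0 ≤ p1 → p1 ≤ 1 → 0 ≤ s → s ≤ 1 → 1 - p = (1 - p1) * (1 - s) → A ⊆ bz R →
    |sgF l u p h D A / sgF l u p h ∅ {0} - Ex p1 (fun ω => Ex s (fun η' => sgF l u p h (D ∪ Wb R D A ω) (Wn R D A ω η') / sgF l u p h ∅ {0}))| ≤ η := by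
  obtain ⟨L, -, hL⟩ := rg_num ht δ hδ hδ1
  have hK : (0 : ℝ) < 2 * (2 * (N : ℝ) + 1) ^ d := by positivity
  obtain ⟨h0, hh0, H⟩ := hL (η / (2 * (2 * (N : ℝ) + 1) ^ d)) (by positivity) (N + 1)
  refine ⟨h0, hh0, ?_⟩
  intro l u p h hr hh R p1 s D A hRN ha0 ha1 hs0 hs1 hps hA
  obtain ⟨⟨-, hp2, -⟩, -, -, -, -, -, hm0, hm1, -, hDp⟩ := H l u p h hr hh
  have hpc0 := ht.hp.p0
  have hpc1 := ht.hp.p1
  have hp0 : 0 ≤ p := by have := hr.pa; linarith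
  have hp1 : p ≤ 1 := by linarith
  have hu : Dp u (R + 1) := P4_dp u (by omega) hDp
  have hd := ex_sg u R hu D A hA p p1 s h hps hp0 hp1 ha0 ha1 hs0 hs1 hr.h0 hr.h1.le
  have hRr : (R : ℝ) ≤ (N : ℝ) := by exact_mod_cast hRN
  have hR0 : (0 : ℝ) ≤ (R : ℝ) := Nat.cast_nonneg R
  have e2 : (2 * (R : ℝ) + 1) ^ d ≤ (2 * (N : ℝ) + 1) ^ d := pow_le_pow_left₀ (by positivity) (by linarith) d
  set m : ℝ := sgF l u p h ∅ {0} with hm
  have e1 : Ex p1 (fun ω : Om d R => Ex s (fun η' : Om d R => sgF l u p h (D ∪ Wb R D A ω) (Wn R D A ω η') / m)) =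
      Ex p1 (fun ω : Om d R => Ex s (fun η' : Om d R => sgF l u p h (D ∪ Wb R D A ω) (Wn R D A ω η'))) / m := by
    have i1 : ∀ ω : Om d R, Ex s (fun η' : Om d R => sgF l u p h (D ∪ Wb R D A ω) (Wn R D A ω η') / m) =
        m⁻¹ * Ex s (fun η' : Om d R => sgF l u p h (D ∪ Wb R D A ω) (Wn R D A ω η')) := by
      intro ω
      rw [← Ex_mul_left]
      apply Ex_congr
      intro η'
      rw [div_eq_mul_inv, mul_comm]
    rw [Ex_congr i1, Ex_mul_left, div_eq_mul_inv, mul_comm]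
  rw [e1, ← sub_div, abs_div, abs_of_pos hm0, div_le_iff₀ hm0]
  refine hd.trans ?_
  have e3 : 2 * (2 * (N : ℝ) + 1) ^ d ≤ η * m := by
    have i2 : η / (2 * (2 * (N : ℝ) + 1) ^ d) * m = η * m / (2 * (2 * (N : ℝ) + 1) ^ d) := by ring
    rw [i2, le_div_iff₀ hK] at hm1
    linarith
  linarith

/-- Row P5. `lo_s`, `ta_near`, `Mh / h ≤ L sgF`. -/
lemma S_lo {C c e pc : ℝ} (ht : HT d C c e pc) (δ : ℝ) (hδ : 0 < δ) (hδ1 : δ ≤ 1) : ∃ L : ℝ, 1 ≤ L ∧ ∀ η : ℝ, 0 < η → ∀ N : ℕ, ∃ h0 : ℝ, 0 < h0 ∧ ∀ (l : ℕ) (u : Fin d → Fin l) (p h : ℝ),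
    Rg d pc δ l u p h → h ≤ h0 → ∀ D D' A, A ⊆ bz N → D' ⊆ bz N →
    sgF l u p h D A / sgF l u p h ∅ {0} - sgF l u p h (D ∪ D') A / sgF l u p h ∅ {0} ≤ L * ∑ a ∈ A, ∑ s ∈ D', (C * fz (d - 2) (a - s) + η) := by
  obtain ⟨L1, hL1, hrg⟩ := rg_num ht δ hδ hδ1
  refine ⟨L1 * 2, by linarith, ?_⟩
  intro η hη N
  obtain ⟨h1, hh1, hr⟩ := hrg 1 one_pos N
  obtain ⟨h2, hh2, hn⟩ := ta_near ht δ hδ hδ1 η hη N
  refine ⟨min h1 h2, lt_min hh1 hh2, ?_⟩
  intro l u p h hR hle D D' A hA hD'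
  obtain ⟨⟨hpe, -, -⟩, -, -, -, -, -, hs0, -, hML, -⟩ := hr l u p h hR (le_trans hle (min_le_left _ _))
  have hta := hn l u p h hR (le_trans hle (min_le_right _ _))
  have hp0 : 0 ≤ p := le_trans ht.hp.p0.le hR.pa
  have hp1 : p ≤ 1 := le_trans hpe ht.e1.le
  have hC : 0 ≤ C := le_trans zero_le_one ht.hp.C1
  have hfz : ∀ (k : ℕ) (x : Zd d), 0 ≤ fz k x := fun k x => (fz_pos k x).le
  have hpre : pre u (D ∪ D') = pre u D ∪ ((prf u D' : Finset (Fin d → Fin l)) : Set (Fin d → Fin l)) := by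
    rw [prf_coe]
    ext x
    simp [pre]
  have hlo := lo_s (ends := gends (boxG d l)) (p := p) (h := h) (M := Mh d p h) hp0 hp1 hR.h0 hR.h1.le
    (Mh_Mb l p h hp0 hp1 hR.h0.le hR.h1.le) (pre u D) (prf u A) (prf u D')
  rw [← hpre, prf_coe] at hlo
  have hM0 : 0 ≤ Mh d p h / h := by
    have h3 := Mh_ub u p h hp0 hp1 hR.h0.le hR.h1.le
    have h4 := piF_nonneg u p h hp0 hp1 hR.h0.le hR.h1.le ∅ {0}
    exact div_nonneg (le_trans h4 h3) hR.h0.le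
  have hsum : ∑ a ∈ prf u A, ∑ s ∈ prf u D', ta (gends (boxG d l)) p a s ≤
      2 * ∑ a ∈ A, ∑ s ∈ D', (C * fz (d - 2) (a - s) + η) := by
    have hmem : ∀ (B : Finset (Zd d)), B ⊆ bz N → ∀ x ∈ prf u B, nz (rel u x) ≤ N := by
      intro B hB x hx
      have hx' : rel u x ∈ B := by
        simpa [prf] using hx
      exact (mem_bz N _).1 (hB hx')
    calc ∑ a ∈ prf u A, ∑ s ∈ prf u D', ta (gends (boxG d l)) p a s
        ≤ ∑ a ∈ prf u A, 2 * ∑ s ∈ prf u D', (C * fz (d - 2) (rel u a - rel u s) + η) := by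
          apply Finset.sum_le_sum
          intro a ha
          rw [Finset.mul_sum]
          apply Finset.sum_le_sum
          intro s hs
          have h5 := hta a s (hmem A hA a ha) (hmem D' hD' s hs)
          rw [← fz_rel (d - 2) u a s] at h5
          linarith
      _ ≤ ∑ a ∈ prf u A, 2 * ∑ s ∈ D', (C * fz (d - 2) (rel u a - s) + η) := by
          apply Finset.sum_le_sum
          intro a ha
          apply mul_le_mul_of_nonneg_left _ (by norm_num)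
          exact prf_sum u D' (fun v => C * fz (d - 2) (rel u a - v) + η)
            (fun v => add_nonneg (mul_nonneg hC (hfz _ _)) hη.le)
      _ ≤ ∑ a ∈ A, 2 * ∑ s ∈ D', (C * fz (d - 2) (a - s) + η) :=
          prf_sum u A (fun v => 2 * ∑ s ∈ D', (C * fz (d - 2) (v - s) + η))
            (fun v => mul_nonneg (by norm_num) (Finset.sum_nonneg (fun s _ => add_nonneg (mul_nonneg hC (hfz _ _)) hη.le)))
      _ = 2 * ∑ a ∈ A, ∑ s ∈ D', (C * fz (d - 2) (a - s) + η) := by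
          rw [Finset.mul_sum]
  have hS0 : 0 ≤ 2 * ∑ a ∈ A, ∑ s ∈ D', (C * fz (d - 2) (a - s) + η) :=
    mul_nonneg (by norm_num) (Finset.sum_nonneg (fun a _ => Finset.sum_nonneg (fun s _ => add_nonneg (mul_nonneg hC (hfz _ _)) hη.le)))
  rw [← sub_div, div_le_iff₀ hs0]
  have h6 : sgF l u p h D A - sgF l u p h (D ∪ D') A ≤ Mh d p h / h * (2 * ∑ a ∈ A, ∑ s ∈ D', (C * fz (d - 2) (a - s) + η)) :=
    le_trans hlo (mul_le_mul_of_nonneg_left hsum hM0)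
  have h7 : Mh d p h / h * (2 * ∑ a ∈ A, ∑ s ∈ D', (C * fz (d - 2) (a - s) + η)) ≤
      L1 * sgF l u p h ∅ {0} * (2 * ∑ a ∈ A, ∑ s ∈ D', (C * fz (d - 2) (a - s) + η)) :=
    mul_le_mul_of_nonneg_right hML hS0
  refine le_trans h6 (le_trans h7 (le_of_eq ?_))
  ring

private lemma P5b_pre_single {l : ℕ} (u x : Fin d → Fin l) : pre u {rel u x} = {x} := by
  ext y
  simp only [pre, Finset.mem_singleton, Set.mem_singleton_iff]
  constructor
  · intro h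
    exact rel_inj u h
  · rintro rfl
    exact rfl

private lemma P5b_sum {l : ℕ} (u : Fin d → Fin l) (p h : ℝ) (D A : Finset (Zd d)) :
    ∑ a ∈ A, sgF l u p h D {a} = ∑ x ∈ prf u A, sgS (gends (boxG d l)) p h (pre u D) {x} := by
  classical
  have h1 : ∑ a ∈ (prf u A).image (rel u), sgF l u p h D {a} = ∑ a ∈ A, sgF l u p h D {a} := by
    apply Finset.sum_subset
    · intro a ha
      rw [Finset.mem_image] at ha
      obtain ⟨x, hx, rfl⟩ := ha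
      simpa only [prf, Finset.mem_filter, Finset.mem_univ, true_and] using hx
    · intro a ha hna
      have h2 : pre (l := l) u {a} = pre u ∅ := by
        ext x
        simp only [pre, Finset.mem_singleton]
        constructor
        · intro hx
          exfalso
          apply hna
          rw [Finset.mem_image]
          refine ⟨x, ?_, hx⟩
          simp only [prf, Finset.mem_filter, Finset.mem_univ, true_and]
          change rel u x = a at hx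
          rw [hx]; exact ha
        · intro hx
          exact absurd hx (Finset.notMem_empty _)
      have h3 := sgF_empty u p h D
      unfold sgF at h3 ⊢
      rw [h2]
      exact h3
  rw [← h1, Finset.sum_image (fun x _ y _ hxy => rel_inj u hxy)]
  apply Finset.sum_congr rfl
  intro x _
  unfold sgF
  rw [P5b_pre_single]

private lemma P5b_dbl {l : ℕ} (u : Fin d → Fin l) (A : Finset (Zd d)) (F : Zd d → Zd d → ℝ) (hF : ∀ v w, 0 ≤ F v w) :
    ∑ x ∈ prf u A, ∑ y ∈ (prf u A).erase x, F (rel u x) (rel u y) ≤ ∑ a ∈ A, ∑ a' ∈ A.erase a, F a a' := by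
  classical
  refine le_trans ?_ (prf_sum u A (fun a => ∑ a' ∈ A.erase a, F a a') (fun v => Finset.sum_nonneg fun w _ => hF v w))
  apply Finset.sum_le_sum
  intro x _
  have h1 : (prf u A).erase x = prf u (A.erase (rel u x)) := by
    ext y
    simp only [prf, Finset.mem_erase, Finset.mem_filter, Finset.mem_univ, true_and, ne_eq]
    constructor
    · rintro ⟨h1, h2⟩
      exact ⟨fun h => h1 (rel_inj u h), h2⟩
    · rintro ⟨h1, h2⟩
      exact ⟨fun h => h1 (by rw [h]), h2⟩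
  rw [h1]
  exact prf_sum u (A.erase (rel u x)) (fun w => F (rel u x) w) (fun w => hF _ w)

/-- Row P5. `su_ptf`, `su_near`, `Mh / h ≤ L sgF`. -/
lemma S_su {C c e pc : ℝ} (ht : HT d C c e pc) (δ : ℝ) (hδ : 0 < δ) (hδ1 : δ ≤ 1) : ∃ L : ℝ, 1 ≤ L ∧ ∀ η : ℝ, 0 < η → ∀ N : ℕ, ∃ h0 : ℝ, 0 < h0 ∧ ∀ (l : ℕ) (u : Fin d → Fin l) (p h : ℝ),
    Rg d pc δ l u p h → h ≤ h0 → ∀ D A, A ⊆ bz N →
    ∑ a ∈ A, sgF l u p h D {a} / sgF l u p h ∅ {0} - sgF l u p h D A / sgF l u p h ∅ {0} ≤ L * ∑ a ∈ A, ∑ a' ∈ A.erase a, (C * fz (d - 4) (a - a') + η) := by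
  obtain ⟨L0, hL0, hrg⟩ := rg_num ht δ hδ hδ1
  obtain ⟨K, hK, hsu⟩ := su_near ht
  refine ⟨L0 * K, by nlinarith, ?_⟩
  intro η hη N
  obtain ⟨h01, hh01, hrg⟩ := hrg η hη N
  obtain ⟨h02, hh02, hsu⟩ := hsu δ hδ hδ1 η hη N
  refine ⟨min h01 h02, lt_min hh01 hh02, ?_⟩
  intro l u p h hR hh D A hA
  obtain ⟨⟨-, hp2, -⟩, -, -, -, -, -, hm, -, hML, -⟩ := hrg l u p h hR (le_trans hh (min_le_left _ _))
  have hsu := hsu l u p h hR (le_trans hh (min_le_right _ _)) (pre u D) (prf u A) (by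
    intro a ha
    have h1 : rel u a ∈ A := by
      simpa only [prf, Finset.mem_filter, Finset.mem_univ, true_and] using ha
    exact (mem_bz N _).1 (hA h1))
  have hp0 : 0 ≤ p := le_trans ht.hp.p0.le hR.pa
  have hp1 : p ≤ 1 := by
    have := ht.hp.p1
    linarith
  have hh0 : 0 < h := hR.h0
  obtain ⟨m, hmd⟩ : ∃ m, sgF l u p h ∅ {0} = m := ⟨_, rfl⟩
  rw [hmd] at hm hML ⊢
  -- the expectation of the pointwise inequality
  have e1 : ∑ x ∈ prf u A, sgS (gends (boxG d l)) p h (pre u D) {x} - sgF l u p h D A ≤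
      (Ex p (fun ω => ∑ a ∈ prf u A, ∑ a' ∈ (prf u A).erase a, (if a' ∈ cS (gends (boxG d l)) ω (pre u D) {a} then
        gh h (cS (gends (boxG d l)) ω (pre u D) {a}).card
        else gh h (cS (gends (boxG d l)) ω (pre u D) {a}).card * gh h (cS (gends (boxG d l)) ω (pre u D) {a'}).card))) / h := by
    have h1 := Ex_mono hp0 hp1 (fun ω => su_ptf hh0 hR.h1.le ω (ends := gends (boxG d l)) (pre u D) (prf u A))
    have h2 : Ex p (fun ω => ∑ a ∈ prf u A, fh h (cS (gends (boxG d l)) ω (pre u D) {a}).card -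
        fh h (cS (gends (boxG d l)) ω (pre u D) ((prf u A : Finset (Fin d → Fin l)) : Set (Fin d → Fin l))).card) =
        ∑ x ∈ prf u A, sgS (gends (boxG d l)) p h (pre u D) {x} - sgF l u p h D A := by
      have h3 : ∀ ω : (boxG d l).edgeSet → Bool, ∑ a ∈ prf u A, fh h (cS (gends (boxG d l)) ω (pre u D) {a}).card -
          fh h (cS (gends (boxG d l)) ω (pre u D) ((prf u A : Finset (Fin d → Fin l)) : Set (Fin d → Fin l))).card =
          ∑ a ∈ prf u A, fh h (cS (gends (boxG d l)) ω (pre u D) {a}).card +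
          (-1) * fh h (cS (gends (boxG d l)) ω (pre u D) (pre u A)).card := by
        intro ω
        rw [prf_coe]
        ring
      rw [Ex_congr h3, Ex_add, Ex_mul_left, Ex_sum]
      unfold sgF sgS
      ring
    rw [h2] at h1
    refine le_trans h1 (le_of_eq ?_)
    rw [div_eq_inv_mul, ← Ex_mul_left]
    apply Ex_congr
    intro ω
    rw [div_eq_inv_mul]
  have hF : ∀ v w : Zd d, 0 ≤ K * fz (d - 4) (v - w) + η := by
    intro v w
    have := fz_pos (d - 4) (v - w)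
    positivity
  have e2 := P5b_dbl (l := l) u A (fun v w => K * fz (d - 4) (v - w) + η) hF
  have e3 : ∑ x ∈ prf u A, ∑ y ∈ (prf u A).erase x, (K * fk (d - 4) x y + η) =
      ∑ x ∈ prf u A, ∑ y ∈ (prf u A).erase x, (K * fz (d - 4) (rel u x - rel u y) + η) := by
    apply Finset.sum_congr rfl
    intro x _
    apply Finset.sum_congr rfl
    intro y _
    rw [fz_rel]
  rw [e3] at hsu
  obtain ⟨X, hX⟩ : ∃ X, ∑ x ∈ prf u A, ∑ y ∈ (prf u A).erase x, (K * fz (d - 4) (rel u x - rel u y) + η) = X := ⟨_, rfl⟩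
  obtain ⟨Y, hY⟩ : ∃ Y, ∑ a ∈ A, ∑ a' ∈ A.erase a, (K * fz (d - 4) (a - a') + η) = Y := ⟨_, rfl⟩
  rw [hX] at hsu
  simp only [hX, hY] at e2
  have hX0 : 0 ≤ X := by
    rw [← hX]
    exact Finset.sum_nonneg fun x _ => Finset.sum_nonneg fun y _ => hF _ _
  have e4 : ∑ a ∈ A, sgF l u p h D {a} - sgF l u p h D A ≤ L0 * m * Y := by
    rw [P5b_sum]
    calc _ ≤ _ := e1
      _ ≤ Mh d p h * X / h := by
        exact div_le_div_of_nonneg_right hsu hh0.le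
      _ = Mh d p h / h * X := by ring
      _ ≤ L0 * m * X := mul_le_mul_of_nonneg_right hML hX0
      _ ≤ L0 * m * Y := mul_le_mul_of_nonneg_left e2 (by positivity)
  have e5 : L0 * Y ≤ L0 * K * ∑ a ∈ A, ∑ a' ∈ A.erase a, (C * fz (d - 4) (a - a') + η) := by
    rw [mul_assoc]
    apply mul_le_mul_of_nonneg_left _ (by linarith)
    rw [← hY, Finset.mul_sum]
    apply Finset.sum_le_sum
    intro a _
    rw [Finset.mul_sum]
    apply Finset.sum_le_sum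
    intro a' _
    have h1 := fz_pos (d - 4) (a - a')
    have h2 := ht.hp.C1
    have h3 : K * fz (d - 4) (a - a') ≤ K * (C * fz (d - 4) (a - a')) :=
      mul_le_mul_of_nonneg_left (by nlinarith) (by linarith)
    nlinarith
  rw [← Finset.sum_div, ← sub_div, div_le_iff₀ hm]
  calc _ ≤ L0 * m * Y := e4
    _ = L0 * Y * m := by ring
    _ ≤ _ := mul_le_mul_of_nonneg_right e5 hm.le

private lemma P6a_un {l : ℕ} (u : Fin d → Fin l) (D D' : Finset (Zd d)) : pre u (D ∪ D') = pre u D ∪ pre u D' := by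
  ext x
  simp [pre]

private lemma P6a_sing {l : ℕ} (u x : Fin d → Fin l) : pre u {rel u x} = {x} := by
  ext y
  simp only [pre, Finset.mem_singleton, Set.mem_ofPred_eq, Set.mem_singleton_iff]
  constructor
  · intro h
    exact rel_inj u h
  · intro h
    rw [h]

/-- Row P6. `lo0_s`, `mo_s`: `N^2 (Mh^2/h) / sgF ≤ N^2 L / sgF ≤ η` (`rg_num`); `sb_s`. -/
lemma S_mo {C c e pc : ℝ} (ht : HT d C c e pc) (δ : ℝ) (hδ : 0 < δ) (hδ1 : δ ≤ 1) (η : ℝ) (hη : 0 < η) (N : ℕ) : ∃ h0 : ℝ, 0 < h0 ∧ ∀ (l : ℕ) (u : Fin d → Fin l) (p h : ℝ),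
    Rg d pc δ l u p h → h ≤ h0 → (∀ D D' A, A.card ≤ N → D'.card ≤ N → sgF l u p h (D ∪ D') A / sgF l u p h ∅ {0} ≤ sgF l u p h D A / sgF l u p h ∅ {0} + η) ∧
    (∀ D A A', A.card ≤ N → A'.card ≤ N → sgF l u p h D A / sgF l u p h ∅ {0} ≤ sgF l u p h D (A ∪ A') / sgF l u p h ∅ {0} + η) ∧
    (∀ D A A', sgF l u p h D (A ∪ A') / sgF l u p h ∅ {0} ≤ sgF l u p h D A / sgF l u p h ∅ {0} + ∑ a ∈ A', sgF l u p h D {a} / sgF l u p h ∅ {0}) := by
  obtain ⟨L, hL, H⟩ := rg_num ht δ hδ hδ1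
  have hNL : 0 ≤ (N : ℝ) ^ 2 * L := mul_nonneg (by positivity) (by linarith)
  obtain ⟨h0, hh0, H0⟩ := H (η / ((N : ℝ) ^ 2 * L + 1)) (by positivity) N
  refine ⟨h0, hh0, ?_⟩
  intro l u p h hR hh
  obtain ⟨⟨-, hp2, -⟩, -, -, -, -, hM2, hm0, hm1, -, -⟩ := H0 l u p h hR hh
  have hp0 : 0 ≤ p := ht.hp.p0.le.trans hR.pa
  have hpc1 := ht.hp.p1
  have hp1 : p ≤ 1 := by linarith
  have hMb := Mh_Mb (d := d) l p h hp0 hp1 hR.h0.le hR.h1.le
  set m := sgF l u p h ∅ {0} with hm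
  have hbound : ∀ a b : ℕ, a ≤ N → b ≤ N → (a : ℝ) * (b : ℝ) * (Mh d p h ^ 2 / h) ≤ η * m := by
    intro a b ha hb
    have ha' : (a : ℝ) ≤ N := by exact_mod_cast ha
    have hb' : (b : ℝ) ≤ N := by exact_mod_cast hb
    have h1 : (a : ℝ) * (b : ℝ) * (Mh d p h ^ 2 / h) ≤ (N : ℝ) ^ 2 * L := by
      have h2 : (a : ℝ) * b ≤ (N : ℝ) ^ 2 := by
        rw [sq]
        exact mul_le_mul ha' hb' (Nat.cast_nonneg _) (Nat.cast_nonneg _)
      have h3 : 0 ≤ Mh d p h ^ 2 / h := div_nonneg (sq_nonneg _) hR.h0.le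
      exact mul_le_mul h2 hM2 h3 (by positivity)
    have h4 : (N : ℝ) ^ 2 * L ≤ ((N : ℝ) ^ 2 * L) * (η / ((N : ℝ) ^ 2 * L + 1) * m) := by
      nlinarith
    have h5 : ((N : ℝ) ^ 2 * L) * (η / ((N : ℝ) ^ 2 * L + 1) * m) ≤ η * m := by
      have h6 : ((N : ℝ) ^ 2 * L) * (η / ((N : ℝ) ^ 2 * L + 1)) ≤ η := by
        rw [mul_div_assoc', div_le_iff₀ (by positivity)]
        nlinarith
      calc ((N : ℝ) ^ 2 * L) * (η / ((N : ℝ) ^ 2 * L + 1) * m) = (((N : ℝ) ^ 2 * L) * (η / ((N : ℝ) ^ 2 * L + 1))) * m := by ring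
        _ ≤ η * m := mul_le_mul_of_nonneg_right h6 hm0.le
    linarith
  refine ⟨?_, ?_, ?_⟩
  · intro D D' A hA hD'
    rw [div_le_iff₀ hm0, add_mul, div_mul_cancel₀ _ hm0.ne']
    have h1 := lo0_s (ends := gends (boxG d l)) hp0 hp1 hR.h0 hR.h1.le hMb (pre u D) (prf u A) (prf u D')
    rw [prf_coe, prf_coe] at h1
    unfold sgF
    rw [P6a_un]
    refine h1.trans ?_
    have h2 := hbound _ _ ((prf_card u A).trans hA) ((prf_card u D').trans hD')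
    linarith
  · intro D A A' hA hA'
    rw [div_le_iff₀ hm0, add_mul, div_mul_cancel₀ _ hm0.ne']
    have h1 := mo_s (ends := gends (boxG d l)) hp0 hp1 hR.h0 hR.h1.le hMb (pre u D) (prf u A) (prf u A')
    rw [Finset.coe_union, prf_coe, prf_coe] at h1
    unfold sgF
    rw [P6a_un]
    refine h1.trans ?_
    have h2 := hbound _ _ ((prf_card u A).trans hA) ((prf_card u A').trans hA')
    linarith
  · intro D A A'
    rw [← Finset.sum_div, ← add_div]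
    refine div_le_div_of_nonneg_right ?_ hm0.le
    have h1 := sb_s (ends := gends (boxG d l)) hp0 hp1 hR.h0.le hR.h1.le (pre u D) (prf u A) (prf u A')
    rw [Finset.coe_union, prf_coe, prf_coe] at h1
    have h2 := prf_sum u A' (fun v => sgF l u p h D {v}) (fun v => sgF_nonneg u p h hp0 hp1 hR.h0.le hR.h1.le _ _)
    have h3 : ∀ x : Fin d → Fin l, sgF l u p h D {rel u x} = sgS (gends (boxG d l)) p h (pre u D) {x} := by
      intro x
      unfold sgF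
      rw [P6a_sing]
    simp only [h3] at h2
    show sgS (gends (boxG d l)) p h (pre u D) (pre u (A ∪ A')) ≤ sgS (gends (boxG d l)) p h (pre u D) (pre u A) + _
    rw [P6a_un]
    exact h1.trans (by linarith)

/-- Row P6. Assembly (maximum of the constants `L`). -/
theorem AP_sg {C c e pc : ℝ} (ht : HT d C c e pc) (δ : ℝ) (hδ : 0 < δ) (hδ1 : δ ≤ 1) : ∃ L : ℝ, 1 ≤ L ∧ ∀ η : ℝ, 0 < η → ∀ N : ℕ, ∃ h0 : ℝ, 0 < h0 ∧
    ∀ (l : ℕ) (u : Fin d → Fin l) (p h : ℝ), Rg d pc δ l u p h → h ≤ h0 → AP d C L η N p (fun D A => sgF l u p h D A / sgF l u p h ∅ {0}) := by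
  obtain ⟨L1, hL1, H1⟩ := S_lo ht δ hδ hδ1
  obtain ⟨L2, _, H2⟩ := S_su ht δ hδ hδ1
  obtain ⟨_, _, H3⟩ := rg_num ht δ hδ hδ1
  refine ⟨max L1 L2, le_trans hL1 (le_max_left _ _), fun η hη N => ?_⟩
  obtain ⟨a1, ha1, A1⟩ := S_on ht δ hδ hδ1 η hη N
  obtain ⟨a2, ha2, A2⟩ := S_ex ht δ hδ hδ1 η hη N
  obtain ⟨a3, ha3, A3⟩ := H1 η hη N
  obtain ⟨a4, ha4, A4⟩ := H2 η hη N
  obtain ⟨a5, ha5, A5⟩ := S_mo ht δ hδ hδ1 η hη N
  obtain ⟨a6, ha6, A6⟩ := H3 η hη N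
  refine ⟨min a1 (min a2 (min a3 (min a4 (min a5 a6)))),
    lt_min ha1 (lt_min ha2 (lt_min ha3 (lt_min ha4 (lt_min ha5 ha6)))), fun l u p h hR hh => ?_⟩
  have b1 : h ≤ a1 := hh.trans (min_le_left _ _)
  have hh2 := hh.trans (min_le_right _ _)
  have b2 : h ≤ a2 := hh2.trans (min_le_left _ _)
  have hh3 := hh2.trans (min_le_right _ _)
  have b3 : h ≤ a3 := hh3.trans (min_le_left _ _)
  have hh4 := hh3.trans (min_le_right _ _)
  have b4 : h ≤ a4 := hh4.trans (min_le_left _ _)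
  have hh5 := hh4.trans (min_le_right _ _)
  have b5 : h ≤ a5 := hh5.trans (min_le_left _ _)
  have b6 : h ≤ a6 := hh5.trans (min_le_right _ _)
  obtain ⟨⟨_, hp2, _⟩, _, _, _, _, _, hs0, _, _, _⟩ := A6 l u p h hR b6
  have hp0 : 0 ≤ p := le_trans ht.hp.p0.le hR.pa
  have hp1 : p ≤ 1 := by
    have := ht.hp.p1
    linarith
  have hC : 0 ≤ C := le_trans zero_le_one ht.hp.C1
  obtain ⟨m1, m2, m3⟩ := A5 l u p h hR b5
  have hpos : ∀ (k : ℕ) (x : Zd d), 0 ≤ C * fz k x + η := fun k x =>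
    add_nonneg (mul_nonneg hC (fz_pos k x).le) hη.le
  refine ⟨fun D A => ?_, fun D => ?_, A1 l u p h hR b1, ?_, m1, ?_, m2, m3, ?_⟩
  · exact div_nonneg (sgF_nonneg u p h hp0 hp1 hR.h0.le hR.h1.le D A) hs0.le
  · simp only [sgF_empty, zero_div]
  · exact A2 l u p h hR b2
  · intro D D' A hA hD'
    refine (A3 l u p h hR b3 D D' A hA hD').trans ?_
    exact mul_le_mul_of_nonneg_right (le_max_left _ _)
      (Finset.sum_nonneg fun a _ => Finset.sum_nonneg fun s _ => hpos _ _)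
  · intro D A hA
    refine (A4 l u p h hR b4 D A hA).trans ?_
    exact mul_le_mul_of_nonneg_right (le_max_right _ _)
      (Finset.sum_nonneg fun a _ => Finset.sum_nonneg fun s _ => hpos _ _)

/-! ### Limits along ultrafilters -/

/-- Row P7. Boundedness: `Φ D A ≤ ∑_{a ∈ A} Φ D {a}` (`sb` with the empty set), `Φ D {a} ≤ Φ ∅ {a} + η ≤ 1 + 2 η` (`lo0`, `on`) for `N` large. So along an ultrafilter the limit exists (compact intervals). -/
lemma lim_ex {C L : ℝ} {ι : Type*} (U : Ultrafilter ι) (p : ι → ℝ) (Φ : ι → Finset (Zd d) → Finset (Zd d) → ℝ)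
    (hΦ : ∀ η : ℝ, 0 < η → ∀ N : ℕ, ∀ᶠ i in (U : Filter ι), AP d C L η N (p i) (Φ i)) :
    ∃ φ : Finset (Zd d) → Finset (Zd d) → ℝ, ∀ D A, Tendsto (fun i => Φ i D A) U (𝓝 (φ D A)) := by
  have key : ∀ D A : Finset (Zd d), ∃ x : ℝ, Tendsto (fun i => Φ i D A) U (𝓝 x) := by
    intro D A
    set N : ℕ := A.sup nz + D.card + 1 with hN
    have hev : ∀ᶠ i in (U : Filter ι), Φ i D A ∈ Set.Icc (0 : ℝ) (3 * (A.card : ℝ)) := by
      filter_upwards [hΦ 1 one_pos N] with i hi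
      refine ⟨hi.nn D A, ?_⟩
      have h1 := hi.sb D ∅ A
      rw [Finset.empty_union, hi.em D, zero_add] at h1
      refine le_trans h1 ?_
      have h2 : ∀ a ∈ A, Φ i D {a} ≤ 3 := by
        intro a ha
        have h3 := hi.lo0 ∅ D {a} (by rw [Finset.card_singleton]; omega) (by omega)
        rw [Finset.empty_union] at h3
        have h4 : nz a ≤ N := by
          have : nz a ≤ A.sup nz := Finset.le_sup (f := nz) ha
          omega
        have h5 := (abs_le.mp (hi.on a h4)).2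
        linarith
      calc ∑ a ∈ A, Φ i D {a} ≤ ∑ _a ∈ A, (3 : ℝ) := Finset.sum_le_sum h2
        _ = 3 * (A.card : ℝ) := by rw [Finset.sum_const, nsmul_eq_mul]; ring
    have hle : ((U.map (fun i => Φ i D A) : Ultrafilter ℝ) : Filter ℝ) ≤
        𝓟 (Set.Icc (0 : ℝ) (3 * (A.card : ℝ))) := by
      rw [Filter.le_principal_iff]
      exact hev
    obtain ⟨x, _, hx⟩ := isCompact_Icc.ultrafilter_le_nhds _ hle
    exact ⟨x, hx⟩
  choose φ hφ using key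
  exact ⟨φ, hφ⟩

/-- Row P8. The exploration equation in the limit: `s_i = 1 - (1 - p_i)/(1 - p1) → s` (`p1 < 1`), `0 ≤ s ≤ s_i ≤ 1` since `pc ≤ p_i ≤ 1`; finite sums with the continuous weights `wt s_i η`. -/
lemma lim_eq {C L pc : ℝ} (hpc : 0 < pc) (hpc1 : pc < 1) {ι : Type*} (U : Ultrafilter ι) (p : ι → ℝ) (hp : ∀ i, pc ≤ p i) (hp1 : ∀ i, p i ≤ 1) (hpl : Tendsto p U (𝓝 pc)) (Φ : ι → Finset (Zd d) → Finset (Zd d) → ℝ)
    (hΦ : ∀ η : ℝ, 0 < η → ∀ N : ℕ, ∀ᶠ i in (U : Filter ι), AP d C L η N (p i) (Φ i)) (φ : Finset (Zd d) → Finset (Zd d) → ℝ)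
    (hφ : ∀ D A, Tendsto (fun i => Φ i D A) U (𝓝 (φ D A))) (R : ℕ) (p1 s : ℝ) (D A : Finset (Zd d)) (h0 : 0 < p1) (h1 : p1 ≤ pc) (hs0 : 0 ≤ s) (hs1 : s < 1)
    (hps : 1 - pc = (1 - p1) * (1 - s)) (hA : A ⊆ bz R) : φ D A = Ex p1 (fun ω => Ex s (fun η => φ (D ∪ Wb R D A ω) (Wn R D A ω η))) := by
  have h1p : 0 < 1 - p1 := by linarith
  have hsi : ∀ i, 0 ≤ 1 - (1 - p i) / (1 - p1) ∧ 1 - (1 - p i) / (1 - p1) ≤ 1 ∧
      1 - p i = (1 - p1) * (1 - (1 - (1 - p i) / (1 - p1))) := by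
    intro i
    have e1 : (1 - p i) / (1 - p1) ≤ 1 := by
      rw [div_le_one h1p]
      linarith [hp i]
    have e2 : 0 ≤ (1 - p i) / (1 - p1) := div_nonneg (by linarith [hp1 i]) h1p.le
    refine ⟨by linarith, by linarith, ?_⟩
    have h1p' := h1p.ne'
    field_simp
    ring
  have hsl : Tendsto (fun i => 1 - (1 - p i) / (1 - p1)) U (𝓝 s) := by
    have e : s = 1 - (1 - pc) / (1 - p1) := by
      rw [hps]
      have h1p' := h1p.ne'
      field_simp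
      ring
    rw [e]
    exact tendsto_const_nhds.sub ((tendsto_const_nhds.sub hpl).div_const _)
  have hT : Tendsto (fun i => Ex p1 (fun ω => Ex (1 - (1 - p i) / (1 - p1))
      (fun η => Φ i (D ∪ Wb R D A ω) (Wn R D A ω η)))) U
      (𝓝 (Ex p1 (fun ω => Ex s (fun η => φ (D ∪ Wb R D A ω) (Wn R D A ω η))))) := by
    unfold Ex
    refine tendsto_finsetSum _ (fun ω _ => ?_)
    refine Tendsto.const_mul _ ?_
    refine tendsto_finsetSum _ (fun η _ => ?_)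
    refine Tendsto.mul ?_ (hφ _ _)
    unfold wt
    refine tendsto_finsetProd _ (fun e _ => ?_)
    split_ifs
    · exact hsl
    · exact tendsto_const_nhds.sub hsl
  have hd := ((hφ D A).sub hT).abs
  have hle : ∀ η : ℝ, 0 < η →
      |φ D A - Ex p1 (fun ω => Ex s (fun η => φ (D ∪ Wb R D A ω) (Wn R D A ω η)))| ≤ η := by
    intro η hη
    refine le_of_tendsto hd ?_
    filter_upwards [hΦ η hη R] with i hi
    exact hi.ex R p1 _ D A le_rfl h0.le (by linarith) (hsi i).1 (hsi i).2.1 (hsi i).2.2 hA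
  have hz : |φ D A - Ex p1 (fun ω => Ex s (fun η => φ (D ∪ Wb R D A ω) (Wn R D A ω η)))| ≤ 0 := by
    refine le_of_forall_pos_le_add (fun η hη => ?_)
    rw [zero_add]
    exact hle η hη
  exact sub_eq_zero.1 (abs_nonpos_iff.1 hz)

private lemma P8b_sub (A : Finset (Zd d)) : ∃ N : ℕ, ∀ M : ℕ, N ≤ M → A ⊆ bz M := by
  refine ⟨A.sup nz, fun M hM x hx => ?_⟩
  have h1 : nz x ≤ M := (Finset.le_sup (f := nz) hx).trans hM
  rw [bz, Finset.mem_Icc]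
  have h2 : ∀ i, (x i).natAbs ≤ M := fun i =>
    (Finset.le_sup (f := fun i => (x i).natAbs) (Finset.mem_univ i)).trans h1
  constructor
  · intro i
    have := h2 i
    show -(M : ℤ) ≤ x i
    omega
  · intro i
    have := h2 i
    show x i ≤ (M : ℤ)
    omega

private lemma P8b_lim {x : ℝ} {f : ℝ → ℝ} (hf : Continuous f) (h : ∀ η : ℝ, 0 < η → x ≤ f η) : x ≤ f 0 := by
  have h1 : Tendsto f (𝓝[>] 0) (𝓝 (f 0)) := (hf.tendsto 0).mono_left nhdsWithin_le_nhds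
  exact ge_of_tendsto h1 (eventually_nhdsWithin_of_forall fun η hη => h η hη)

/-- Row P8. The other properties pass to the limit (`le_of_tendsto_of_tendsto` and `η → 0`: for every `η` the inequality with `η` holds in the limit; every finite set is contained in a ball and has at most `N` elements for `N` large). -/
lemma lim_SL {C L pc : ℝ} (hpc : 0 < pc) (hpc1 : pc < 1) {ι : Type*} (U : Ultrafilter ι) (p : ι → ℝ) (hp : ∀ i, pc ≤ p i) (hp1 : ∀ i, p i ≤ 1) (hpl : Tendsto p U (𝓝 pc)) (Φ : ι → Finset (Zd d) → Finset (Zd d) → ℝ)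
    (hΦ : ∀ η : ℝ, 0 < η → ∀ N : ℕ, ∀ᶠ i in (U : Filter ι), AP d C L η N (p i) (Φ i)) :
    ∃ φ : Finset (Zd d) → Finset (Zd d) → ℝ, SL d C L pc φ ∧ ∀ D A, Tendsto (fun i => Φ i D A) U (𝓝 (φ D A)) := by
  obtain ⟨φ, hφ⟩ := lim_ex U p Φ hΦ
  refine ⟨φ, ?_, hφ⟩
  refine ⟨?_, ?_, ?_, ?_, ?_, ?_, ?_, ?_, ?_⟩
  · intro D A
    exact ge_of_tendsto (hφ D A) ((hΦ 1 one_pos 0).mono fun i hi => hi.nn D A)
  · intro D
    exact tendsto_nhds_unique (hφ D ∅)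
      (tendsto_const_nhds.congr' ((hΦ 1 one_pos 0).mono fun i hi => (hi.em D).symm))
  · intro v
    have h1 : |φ ∅ {v} - 1| ≤ 0 := by
      refine P8b_lim (f := fun η => η) continuous_id fun η hη => ?_
      exact le_of_tendsto ((hφ ∅ {v}).sub_const 1).abs
        ((hΦ η hη (nz v)).mono fun i hi => hi.on v le_rfl)
    have h2 : φ ∅ {v} - 1 = 0 := abs_eq_zero.1 (le_antisymm h1 (abs_nonneg _))
    linarith
  · intro R p1 s D A h0 h1 hs0 hs1 hps hA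
    exact lim_eq hpc hpc1 U p hp hp1 hpl Φ hΦ φ hφ R p1 s D A h0 h1 hs0 hs1 hps hA
  · intro D D' A
    have h1 : φ (D ∪ D') A ≤ φ D A + 0 := by
      refine P8b_lim (f := fun η => φ D A + η) (continuous_const.add continuous_id) fun η hη => ?_
      exact le_of_tendsto_of_tendsto (hφ (D ∪ D') A) ((hφ D A).add_const η)
        ((hΦ η hη (max A.card D'.card)).mono fun i hi =>
          hi.lo0 D D' A (le_max_left _ _) (le_max_right _ _))
    linarith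
  · intro D D' A
    obtain ⟨N1, hN1⟩ := P8b_sub A
    obtain ⟨N2, hN2⟩ := P8b_sub D'
    have h1 := P8b_lim (x := φ D A - φ (D ∪ D') A)
      (f := fun η => L * ∑ a ∈ A, ∑ s ∈ D', (C * fz (d - 2) (a - s) + η)) (by fun_prop) (fun η hη => by
        exact le_of_tendsto ((hφ D A).sub (hφ (D ∪ D') A))
          ((hΦ η hη (max N1 N2)).mono fun i hi =>
            hi.lo D D' A (hN1 _ (le_max_left _ _)) (hN2 _ (le_max_right _ _))))
    simpa only [add_zero] using h1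
  · intro D A A'
    have h1 : φ D A ≤ φ D (A ∪ A') + 0 := by
      refine P8b_lim (f := fun η => φ D (A ∪ A') + η) (continuous_const.add continuous_id) fun η hη => ?_
      exact le_of_tendsto_of_tendsto (hφ D A) ((hφ D (A ∪ A')).add_const η)
        ((hΦ η hη (max A.card A'.card)).mono fun i hi =>
          hi.mo D A A' (le_max_left _ _) (le_max_right _ _))
    linarith
  · intro D A A'
    exact le_of_tendsto_of_tendsto (hφ D (A ∪ A'))
      ((hφ D A).add (tendsto_finsetSum A' fun a _ => hφ D {a}))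
      ((hΦ 1 one_pos 0).mono fun i hi => hi.sb D A A')
  · intro D A
    obtain ⟨N1, hN1⟩ := P8b_sub A
    have h1 := P8b_lim (x := ∑ a ∈ A, φ D {a} - φ D A)
      (f := fun η => L * ∑ a ∈ A, ∑ a' ∈ A.erase a, (C * fz (d - 4) (a - a') + η)) (by fun_prop) (fun η hη => by
        exact le_of_tendsto ((tendsto_finsetSum A fun a _ => hφ D {a}).sub (hφ D A))
          ((hΦ η hη N1).mono fun i hi => hi.su D A (hN1 _ le_rfl)))
    simpa only [add_zero] using h1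

/-- A family of functionals of the points of the region. -/
abbrev FF (d : ℕ) := (l : ℕ) → (Fin d → Fin l) → ℝ → ℝ → Finset (Zd d) → Finset (Zd d) → ℝ

/-- Row P9a. The index set: the points of the region with `p ≤ 1`. -/
def P9a_I (d : ℕ) (pc δ : ℝ) : Type :=
  {x : (l : ℕ) × ((Fin d → Fin l) × ℝ × ℝ) // Rg d pc δ x.1 x.2.1 x.2.2.1 x.2.2.2 ∧ x.2.2.1 ≤ 1}

/-- Row P9a. The filter `h → 0`. -/
def P9a_F (d : ℕ) (pc δ : ℝ) : Filter (P9a_I d pc δ) := Filter.comap (fun i => i.1.2.2.2) (𝓝 (0 : ℝ))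

lemma P9a_ev (pc δ h0 : ℝ) (hh : 0 < h0) : ∀ᶠ i in P9a_F d pc δ, i.1.2.2.2 ≤ h0 := by
  have h : Tendsto (fun i : P9a_I d pc δ => i.1.2.2.2) (P9a_F d pc δ) (𝓝 0) := tendsto_comap
  exact h.eventually (eventually_le_nhds hh)

lemma P9a_p (pc δ : ℝ) : Tendsto (fun i : P9a_I d pc δ => i.1.2.2.1) (P9a_F d pc δ) (𝓝 pc) := by
  have h1 : Tendsto (fun i : P9a_I d pc δ => i.1.2.2.2) (P9a_F d pc δ) (𝓝 0) := tendsto_comap
  have h2 : Tendsto (fun i : P9a_I d pc δ => pc + Real.sqrt (i.1.2.2.2 / δ)) (P9a_F d pc δ) (𝓝 pc) := by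
    have hc : Continuous (fun h : ℝ => pc + Real.sqrt (h / δ)) :=
      continuous_const.add (Real.continuous_sqrt.comp (continuous_id.div_const δ))
    have h3 := (hc.tendsto 0).comp h1
    have h4 : pc + Real.sqrt (0 / δ) = pc := by rw [zero_div, Real.sqrt_zero, add_zero]
    rw [h4] at h3
    exact h3
  exact tendsto_of_tendsto_of_tendsto_of_le_of_le tendsto_const_nhds h2 (fun i => i.2.1.pa) (fun i => i.2.1.pb)

lemma P9a_ne (pc δ : ℝ) (hpc : pc < 1) : (P9a_F d pc δ).NeBot := by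
  apply Filter.comap_neBot
  intro t ht
  obtain ⟨ε, hε, hball⟩ := Metric.mem_nhds_iff.mp ht
  obtain ⟨h, hh⟩ : ∃ h : ℝ, h = min (ε / 2) (1 / 2) := ⟨_, rfl⟩
  have h0 : 0 < h := by rw [hh]; exact lt_min (by linarith) (by norm_num)
  have h1 : h < 1 := by
    rw [hh]
    exact (min_le_right _ _).trans_lt (by norm_num)
  have h2 : h < ε := by
    rw [hh]
    exact (min_le_left _ _).trans_lt (by linarith)
  obtain ⟨n0, hn0⟩ := exists_nat_ge (1 / h ^ 2)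
  refine ⟨⟨⟨2 * n0 + 1, fun _ => ⟨n0, by omega⟩, pc, h⟩, ⟨h0, h1, le_refl _, ?_, ?_⟩, hpc.le⟩, ?_⟩
  · exact le_add_of_nonneg_right (Real.sqrt_nonneg _)
  · intro n hn i
    have hnn : n ≤ n0 := by exact_mod_cast hn.trans hn0
    exact ⟨hnn, by change n0 + n < 2 * n0 + 1; omega⟩
  · apply hball
    rw [Metric.mem_ball, Real.dist_eq, sub_zero]
    change |h| < ε
    rwa [abs_of_pos h0]

/-- Row P9a. The limit along an ultrafilter. -/
lemma P9a_lim {C pc : ℝ} (hp : HP d C pc) (δ L : ℝ) (Φ : FF d)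
    (hΦ : ∀ η : ℝ, 0 < η → ∀ N : ℕ, ∃ h0 : ℝ, 0 < h0 ∧ ∀ (l : ℕ) (u : Fin d → Fin l) (p h : ℝ), Rg d pc δ l u p h → h ≤ h0 → AP d C L η N p (Φ l u p h))
    (U : Ultrafilter (P9a_I d pc δ)) (hU : (U : Filter (P9a_I d pc δ)) ≤ P9a_F d pc δ) :
    ∃ φ : Finset (Zd d) → Finset (Zd d) → ℝ, SL d C L pc φ ∧
      ∀ D A, Tendsto (fun i : P9a_I d pc δ => Φ i.1.1 i.1.2.1 i.1.2.2.1 i.1.2.2.2 D A) U (𝓝 (φ D A)) := by
  apply lim_SL hp.p0 hp.p1 U (fun i => i.1.2.2.1) (fun i => i.2.1.pa) (fun i => i.2.2)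
    ((P9a_p pc δ).mono_left hU) (fun i => Φ i.1.1 i.1.2.1 i.1.2.2.1 i.1.2.2.2)
  intro η hη N
  obtain ⟨h0, hh0, h⟩ := hΦ η hη N
  have hev := hU (P9a_ev (d := d) pc δ h0 hh0)
  filter_upwards [hev] with i hi
  exact h _ _ _ _ i.2.1 hi

/-- Row P9a. Convergence of a family to a given function of the class. -/
lemma P9a_conv {C pc : ℝ} (hp : HP d C pc) (δ L L0 : ℝ) (hδ : 0 < δ) (hL : 1 ≤ L) (Φ : FF d)
    (hΦ : ∀ η : ℝ, 0 < η → ∀ N : ℕ, ∃ h0 : ℝ, 0 < h0 ∧ ∀ (l : ℕ) (u : Fin d → Fin l) (p h : ℝ), Rg d pc δ l u p h → h ≤ h0 → AP d C L η N p (Φ l u p h))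
    (φ : Finset (Zd d) → Finset (Zd d) → ℝ) (hφ : SL d C L0 pc φ) (D A : Finset (Zd d)) (η : ℝ) (hη : 0 < η) :
    ∃ h0 : ℝ, 0 < h0 ∧ ∀ (l : ℕ) (u : Fin d → Fin l) (p h : ℝ), Rg d pc δ l u p h → h ≤ h0 → |Φ l u p h D A - φ D A| ≤ η := by
  have hC : (0 : ℝ) ≤ C := zero_le_one.trans hp.C1
  have ht : Tendsto (fun i : P9a_I d pc δ => Φ i.1.1 i.1.2.1 i.1.2.2.1 i.1.2.2.2 D A) (P9a_F d pc δ) (𝓝 (φ D A)) := by
    rw [Filter.tendsto_iff_ultrafilter]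
    intro U hU
    obtain ⟨ψ, hψ, hlim⟩ := P9a_lim hp δ L Φ hΦ U hU
    have he : ψ = φ := uniq hp (hL.trans (le_max_left L L0)) (SL_mono hC (le_max_left L L0) hψ)
      (SL_mono hC (le_max_right L L0) hφ)
    rw [← he]
    exact hlim D A
  have hev := Metric.tendsto_nhds.mp ht η hη
  obtain ⟨t, ht0, hts⟩ := Filter.mem_comap.mp hev
  obtain ⟨ε, hε, hball⟩ := Metric.mem_nhds_iff.mp ht0
  have hpc : 0 < 1 - pc := by linarith [hp.p1]
  refine ⟨min (ε / 2) (δ * (1 - pc) ^ 2), lt_min (by linarith) (by positivity), ?_⟩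
  intro l u p h hR hh
  have h1 : h < ε := (hh.trans (min_le_left _ _)).trans_lt (by linarith)
  have h2 : h ≤ δ * (1 - pc) ^ 2 := hh.trans (min_le_right _ _)
  have hp1 : p ≤ 1 := by
    have h3 : Real.sqrt (h / δ) ≤ 1 - pc := by
      rw [Real.sqrt_le_left hpc.le, div_le_iff₀ hδ]
      linarith
    linarith [hR.pb]
  have hmem : (⟨⟨l, u, p, h⟩, hR, hp1⟩ : P9a_I d pc δ) ∈ (fun i : P9a_I d pc δ => i.1.2.2.2) ⁻¹' t := by
    apply hball
    rw [Metric.mem_ball, Real.dist_eq, sub_zero]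
    change |h| < ε
    rwa [abs_of_pos hR.h0]
  have h4 : dist (Φ l u p h D A) (φ D A) < η := hts hmem
  rw [Real.dist_eq] at h4
  exact h4.le

/-- Row P9. One family for one `δ`, and two families (`δ`, `δ'`): if both are nearly in the class then both converge, to the same limit. Index set: the points of the region `Rg` with `p ≤ 1`; filter: `comap h (𝓝[>] 0)` (it is not trivial: for every `h` there is a point: `p = pc`, a large box, its centre, `d ≥ 1` arbitrary).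
For every ultrafilter below the filter `lim_SL` gives a limit in the class; by `uniq` and `SL_mono` (`L = max`) all of these are equal, also for the two families; `Filter.tendsto_iff_ultrafilter`. -/
lemma two_fam {C pc : ℝ} (hp : HP d C pc) (δ δ' L L' : ℝ) (hδ : 0 < δ) (hδ' : 0 < δ') (hL : 1 ≤ L) (hL' : 1 ≤ L') (Φ Φ' : FF d)
    (hΦ : ∀ η : ℝ, 0 < η → ∀ N : ℕ, ∃ h0 : ℝ, 0 < h0 ∧ ∀ (l : ℕ) (u : Fin d → Fin l) (p h : ℝ), Rg d pc δ l u p h → h ≤ h0 → AP d C L η N p (Φ l u p h))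
    (hΦ' : ∀ η : ℝ, 0 < η → ∀ N : ℕ, ∃ h0 : ℝ, 0 < h0 ∧ ∀ (l : ℕ) (u : Fin d → Fin l) (p h : ℝ), Rg d pc δ' l u p h → h ≤ h0 → AP d C L' η N p (Φ' l u p h)) :
    ∃ φ : Finset (Zd d) → Finset (Zd d) → ℝ, SL d C L pc φ ∧
      (∀ D A, ∀ η : ℝ, 0 < η → ∃ h0 : ℝ, 0 < h0 ∧ ∀ (l : ℕ) (u : Fin d → Fin l) (p h : ℝ), Rg d pc δ l u p h → h ≤ h0 → |Φ l u p h D A - φ D A| ≤ η) ∧
      (∀ D A, ∀ η : ℝ, 0 < η → ∃ h0 : ℝ, 0 < h0 ∧ ∀ (l : ℕ) (u : Fin d → Fin l) (p h : ℝ), Rg d pc δ' l u p h → h ≤ h0 → |Φ' l u p h D A - φ D A| ≤ η) := by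
  have := P9a_ne (d := d) pc δ hp.p1
  obtain ⟨φ, hφ, -⟩ := P9a_lim hp δ L Φ hΦ (Ultrafilter.of (P9a_F d pc δ)) (Ultrafilter.of_le _)
  exact ⟨φ, hφ, fun D A η hη => P9a_conv hp δ L L hδ hL Φ hΦ φ hφ D A η hη,
    fun D A η hη => P9a_conv hp δ' L' L hδ' hL' Φ' hΦ' φ hφ D A η hη⟩

/-- The convergence theorem for one functional `φ` and all regions. -/
structure CTh (d : ℕ) (C pc : ℝ) (φ : Finset (Zd d) → Finset (Zd d) → ℝ) : Prop where
  sl : ∃ L : ℝ, 1 ≤ L ∧ SL d C L pc φ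
  pi : ∀ δ : ℝ, 0 < δ → δ ≤ 1 → ∀ D A, ∀ η : ℝ, 0 < η → ∃ h0 : ℝ, 0 < h0 ∧ ∀ (l : ℕ) (u : Fin d → Fin l) (p h : ℝ), Rg d pc δ l u p h → h ≤ h0 →
    |piF l u p h D A / Mh d p h - φ D A| ≤ η
  sg : ∀ δ : ℝ, 0 < δ → δ ≤ 1 → ∀ D A, ∀ η : ℝ, 0 < η → ∃ h0 : ℝ, 0 < h0 ∧ ∀ (l : ℕ) (u : Fin d → Fin l) (p h : ℝ), Rg d pc δ l u p h → h ≤ h0 →
    |sgF l u p h D A / sgF l u p h ∅ {0} - φ D A| ≤ η

/-- Row P9. `AP_pi`, `AP_sg`, `two_fam` (first `δ = δ' = 1` with `piF`, then every other family against `piF` for `δ = 1`; `uniq`). -/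
theorem CT {C c e pc : ℝ} (ht : HT d C c e pc) : ∃ φ, CTh d C pc φ := by
  have hp := ht.hp
  have hC0 : (0 : ℝ) ≤ C := le_trans zero_le_one hp.C1
  obtain ⟨L, hL, hΦ⟩ := AP_pi ht 1 one_pos le_rfl
  obtain ⟨φ, hSL, -, -⟩ := two_fam hp 1 1 L L one_pos one_pos hL hL (fun l u p h D A => piF l u p h D A / Mh d p h)
    (fun l u p h D A => piF l u p h D A / Mh d p h) hΦ hΦ
  refine ⟨φ, ⟨⟨L, hL, hSL⟩, ?_, ?_⟩⟩
  · intro δ hδ hδ1
    obtain ⟨L', hL', hΦ'⟩ := AP_pi ht δ hδ hδ1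
    obtain ⟨ψ, hψ, -, h2⟩ := two_fam hp 1 δ L L' one_pos hδ hL hL' (fun l u p h D A => piF l u p h D A / Mh d p h)
      (fun l u p h D A => piF l u p h D A / Mh d p h) hΦ hΦ'
    have hE : ψ = φ := uniq hp hL hψ hSL
    subst hE
    exact h2
  · intro δ hδ hδ1
    obtain ⟨L', hL', hΦ'⟩ := AP_sg ht δ hδ hδ1
    obtain ⟨ψ, hψ, -, h2⟩ := two_fam hp 1 δ L L' one_pos hδ hL hL' (fun l u p h D A => piF l u p h D A / Mh d p h)
      (fun l u p h D A => sgF l u p h D A / sgF l u p h ∅ {0}) hΦ hΦ'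
    have hE : ψ = φ := uniq hp hL hψ hSL
    subst hE
    exact h2

end Pool.Agent.PERC29.DZ
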