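import Pool.Agent.Lib.MP_29e17e_pr.Z.Gn

namespace Pool.Agent.PERC29
end Pool.Agent.PERC29
namespace Pool.Agent.PERC29.AE
end Pool.Agent.PERC29.AE

set_option autoImplicit false
set_option linter.unusedSectionVars false

/-! Rows 29d-M1 .. 29d-M7: two edge-disjoint paths (Menger for k = 2) and the H-shape. -/

open Finset

namespace Pool.Agent.PERC29.DZ

open Pool.Agent.PERC29 Pool.Agent.PERC29.AE

private lemma M1_hit {W : Type*} {H : SimpleGraph W} (U : Set W) {a b : W} (q : H.Walk a b)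
    (hb : b ∈ U) : ∃ x ∈ U, ∃ q' : H.Walk a x, (∀ e ∈ q'.edges, e ∈ q.edges) ∧
      ∀ e ∈ q'.edges, ∃ y ∈ e, y ∉ U := by
  induction q with
  | nil => exact ⟨_, hb, SimpleGraph.Walk.nil, by simp, by simp⟩
  | @cons a c b h r ih =>
    obtain ⟨x, hx, r', h1, h2⟩ := ih hb
    by_cases ha : a ∈ U
    · exact ⟨a, ha, SimpleGraph.Walk.nil, by simp, by simp⟩
    · refine ⟨x, hx, SimpleGraph.Walk.cons h r', ?_, ?_⟩
      · intro e he
        rw [SimpleGraph.Walk.edges_cons, List.mem_cons] at he ⊢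
        rcases he with he | he
        · exact Or.inl he
        · exact Or.inr (h1 e he)
      · intro e he
        rw [SimpleGraph.Walk.edges_cons, List.mem_cons] at he
        rcases he with he | he
        · exact ⟨a, by rw [he]; exact Sym2.mem_mk_left a c, ha⟩
        · exact h2 e he

private lemma M1_byp {W : Type*} [DecidableEq W] {H : SimpleGraph W} {a b : W}
    (p q : H.Walk a b) (h : ∀ e ∈ p.edges, e ∉ q.edges) :
    ∃ (p q : H.Walk a b), p.IsPath ∧ q.IsPath ∧ List.Disjoint p.edges q.edges :=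
  ⟨p.bypass, q.bypass, p.bypass_isPath, q.bypass_isPath, fun _ h1 h2 =>
    h _ (p.edges_bypass_subset_edges h1) (q.edges_bypass_subset_edges h2)⟩

/-- the step, one half -/
private lemma M1_step {W : Type*} [DecidableEq W] {H : SimpleGraph W} {t w z : W}
    (h : H.Adj t w) (hwz : w ≠ z) (A1 A2 : H.Walk w z) (hp1 : A1.IsPath)
    (hd : ∀ e ∈ A1.edges, e ∉ A2.edges) (x : W) (q' : H.Walk t x)
    (hq1 : s(t, w) ∉ q'.edges) (hq2 : ∀ e ∈ q'.edges, e ∉ A2.edges)
    (hx : x ∈ A1.support) (hcase : t ∈ A1.support ∨ t ∉ A1.support) :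
    ∃ p q : H.Walk t z, ∀ e ∈ p.edges, e ∉ q.edges := by
  rcases hcase with ht | ht
  · cases A1 with
    | nil => exact absurd rfl hwz
    | @cons _ c _ h1 A1' =>
      have hw : w ∉ A1'.support := by
        rw [SimpleGraph.Walk.cons_isPath_iff] at hp1
        exact hp1.2
      have ht' : t ∈ A1'.support := by
        rw [SimpleGraph.Walk.support_cons, List.mem_cons] at ht
        rcases ht with ht | ht
        · exact absurd ht h.ne
        · exact ht
      refine ⟨A1'.dropUntil t ht', SimpleGraph.Walk.cons h A2, ?_⟩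
      intro e he he2
      have he' : e ∈ A1'.edges := A1'.edges_dropUntil_subset_edges ht' he
      rw [SimpleGraph.Walk.edges_cons, List.mem_cons] at he2
      rcases he2 with he2 | he2
      · rw [he2] at he'
        exact hw (A1'.snd_mem_support_of_mem_edges he')
      · exact hd e (by rw [SimpleGraph.Walk.edges_cons]; exact List.mem_cons_of_mem _ he') he2
  · refine ⟨q'.append (A1.dropUntil x hx), SimpleGraph.Walk.cons h A2, ?_⟩
    intro e he he2
    rw [SimpleGraph.Walk.edges_append, List.mem_append] at he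
    rw [SimpleGraph.Walk.edges_cons, List.mem_cons] at he2
    rcases he with he | he
    · rcases he2 with he2 | he2
      · exact hq1 (he2 ▸ he)
      · exact hq2 e he he2
    · have he' : e ∈ A1.edges := A1.edges_dropUntil_subset_edges hx he
      rcases he2 with he2 | he2
      · rw [he2] at he'
        exact ht (A1.fst_mem_support_of_mem_edges he')
      · exact hd e he' he2

private lemma M1_main {W : Type*} [DecidableEq W] (H : SimpleGraph W) {u t : W}
    (p : H.Walk u t) : p.IsPath → u ≠ t →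
    (∀ e : Sym2 W, e ∈ H.edgeSet → (H.deleteEdges {e}).Reachable u t) →
    ∃ (p q : H.Walk u t), p.IsPath ∧ q.IsPath ∧ List.Disjoint p.edges q.edges := by
  induction p with
  | nil => intro _ h; exact absurd rfl h
  | @cons a w z h r ih =>
    intro hp haz hb
    rw [SimpleGraph.Walk.cons_isPath_iff] at hp
    -- the walk which avoids the edge
    obtain ⟨q0⟩ := hb s(a, w) h
    obtain ⟨q, hq⟩ : ∃ q : H.Walk a z, s(a, w) ∉ q.edges := by
      refine ⟨q0.mapLe (SimpleGraph.deleteEdges_le _), ?_⟩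
      rw [SimpleGraph.Walk.edges_mapLe_eq_edges]
      intro he
      have := q0.edges_subset_edgeSet he
      rw [SimpleGraph.edgeSet_deleteEdges] at this
      exact this.2 rfl
    by_cases hwz : w = z
    · subst hwz
      refine M1_byp (SimpleGraph.Walk.cons h SimpleGraph.Walk.nil) q ?_
      intro e he
      rw [SimpleGraph.Walk.edges_cons, SimpleGraph.Walk.edges_nil, List.mem_singleton] at he
      rw [he]
      exact hq
    · obtain ⟨A1, A2, hp1, hp2, hd⟩ := ih hp.1 hwz (by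
        intro e he
        by_cases her : e ∈ r.edges
        · have hne : e ≠ s(a, w) := by
            rintro rfl
            exact hp.2 (r.fst_mem_support_of_mem_edges her)
          have hadj : (H.deleteEdges {e}).Adj a w := by
            rw [SimpleGraph.deleteEdges_adj]
            exact ⟨h, fun hh => hne (Set.mem_singleton_iff.1 hh).symm⟩
          exact hadj.reachable.symm.trans (hb e he)
        · exact ⟨r.toDeleteEdge e her⟩)
      obtain ⟨x, hx, q', h1, h2⟩ := M1_hit {y | y ∈ A1.support ∨ y ∈ A2.support} q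
        (Or.inl A1.end_mem_support)
      have hq1 : s(a, w) ∉ q'.edges := fun he => hq (h1 _ he)
      have hqA1 : ∀ e ∈ q'.edges, e ∉ A1.edges := by
        intro e he he2
        obtain ⟨y, hy, hyU⟩ := h2 e he
        exact hyU (Or.inl (SimpleGraph.Walk.mem_support_of_mem_edges he2 hy))
      have hqA2 : ∀ e ∈ q'.edges, e ∉ A2.edges := by
        intro e he he2
        obtain ⟨y, hy, hyU⟩ := h2 e he
        exact hyU (Or.inr (SimpleGraph.Walk.mem_support_of_mem_edges he2 hy))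
      have hd1 : ∀ e ∈ A1.edges, e ∉ A2.edges := fun e h1 h2 => hd h1 h2
      have hd2 : ∀ e ∈ A2.edges, e ∉ A1.edges := fun e h1 h2 => hd h2 h1
      rcases hx with hx | hx
      · obtain ⟨p, q, hpq⟩ := M1_step h hwz A1 A2 hp1 hd1 x q' hq1 hqA2 hx (em _)
        exact M1_byp p q hpq
      · obtain ⟨p, q, hpq⟩ := M1_step h hwz A2 A1 hp2 hd2 x q' hq1 hqA1 hx (em _)
        exact M1_byp p q hpq

/-- Row M1. Menger's theorem for two edge-disjoint paths. Induction on the distance `n` of `u` and `t` (`H.dist u t`). `n = 1`: the edge and a path which avoids it (made simple by `bypass`/`toPath`). `n > 1`: `w` the vertex before `t` on a shortest path, `dist u w = n - 1`, `u ≠ w`.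
For every edge `e` the graph without `e` joins `u` to `w`: if `e ≠ s(w,t)` it joins `u` to `t`, then the edge `(t,w)`; if `e = s(w,t)` the shortest path from `u` to `w` does not use `t` (every vertex on it has distance at most `n - 1`). So there are edge-disjoint simple paths `P1, P2` from `u` to `w`. Let `Q` be a simple path from `u` to `t`
without the edge `s(w,t)`, `x` its last vertex on `P1 ∪ P2` (`first_hit` for the reversed path), `Q'` the part from `x` to `t`: it meets `P1 ∪ P2` only in `x`, so it has no edge of `P1`, `P2` (if it is not trivial, each of its edges has an end which is not on them).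
Case `t` is on `P1` or `P2`: if `s(w,t)` is an edge of `P1` take `P1[u,t]` and `P2` + edge; if it is an edge of `P2` the same with the names exchanged; if it is an edge of none and `t` is on `P1` (or `P2`): `P1[u,t]` (a simple path to `w` cut at `t` does not contain `w`) and `P2` + edge.
Case `t` is on none of them: `x ≠ t`, say `x` on `P1`: `P1[u,x] + Q'` and `P2 + s(w,t)`. Walks are enough, then `bypass` makes them simple (its edges are a subset). -/
lemma menger2 {W : Type*} [DecidableEq W] (H : SimpleGraph W) (u t : W) (hut : u ≠ t) (hr : H.Reachable u t)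
    (hb : ∀ e : Sym2 W, e ∈ H.edgeSet → (H.deleteEdges {e}).Reachable u t) :
    ∃ (p q : H.Walk u t), p.IsPath ∧ q.IsPath ∧ List.Disjoint p.edges q.edges := by
  obtain ⟨p⟩ := hr
  exact M1_main H p.bypass p.bypass_isPath hut hb

variable {V : Type*} [Fintype V] [DecidableEq V] {E : Type*} [Fintype E] [DecidableEq E]
  {ends : E → Sym2 V}

private def M2_H (ends : E → Sym2 V) (ω : E → Bool) (Z T : Set V) : SimpleGraph (Option V) where
  Adj x y := (∃ a b, x = some a ∧ y = some b ∧ a ≠ b ∧ a ∉ Z ∧ b ∉ Z ∧ ∃ e, ω e = true ∧ ends e = s(a, b)) ∨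
    (∃ a, x = some a ∧ y = none ∧ a ∈ T ∧ a ∉ Z) ∨ (∃ a, x = none ∧ y = some a ∧ a ∈ T ∧ a ∉ Z)
  symm := ⟨by
    rintro x y (⟨a, b, h1, h2, h3, h4, h5, e, h6, h7⟩ | ⟨a, h1, h2, h3, h4⟩ | ⟨a, h1, h2, h3, h4⟩)
    · exact Or.inl ⟨b, a, h2, h1, h3.symm, h5, h4, e, h6, by rw [h7, Sym2.eq_swap]⟩
    · exact Or.inr (Or.inr ⟨a, h2, h1, h3, h4⟩)
    · exact Or.inr (Or.inl ⟨a, h2, h1, h3, h4⟩)⟩
  loopless := ⟨by
    rintro x (⟨a, b, h1, h2, h3, -⟩ | ⟨a, h1, h2, -⟩ | ⟨a, h1, h2, -⟩)
    · exact h3 (Option.some.inj (h1.symm.trans h2))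
    · rw [h1] at h2; exact absurd h2 (by simp)
    · rw [h1] at h2; exact absurd h2 (by simp)⟩

private lemma M2_reach {ω ω' : E → Bool} {Z T : Set V} {u y : V} (e0 : Sym2 (Option V))
    (hω : ∀ e, ω' e = true → ω e = true ∧ (ends e).map some ≠ e0) (hy : y ∈ cS ends ω' Z {u}) :
    ((M2_H ends ω Z T).deleteEdges {e0}).Reachable (some u) (some y) := by
  obtain ⟨a, ha, haZ, hr⟩ := mem_cS.1 hy
  rw [Set.mem_singleton_iff] at ha
  subst ha
  clear hy
  induction hr with
  | refl => exact SimpleGraph.Reachable.refl _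
  | @tail c d _ hcd ih =>
    obtain ⟨h1, h2, e, h3, h4⟩ := hcd
    by_cases hne : c = d
    · rw [← hne]; exact ih
    · refine ih.trans (SimpleGraph.Adj.reachable ?_)
      rw [SimpleGraph.deleteEdges_adj]
      refine ⟨Or.inl ⟨c, d, rfl, rfl, hne, h1, h2, e, (hω e h3).1, h4⟩, ?_⟩
      intro h5
      rw [Set.mem_singleton_iff] at h5
      refine (hω e h3).2 ?_
      rw [h4, Sym2.map_mk]
      exact h5

private lemma M2_end {ω : E → Bool} {Z T : Set V} {x y : Option V} (F : Finset E) (p : (M2_H ends ω Z T).Walk x y)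
    (hy : y = none) : ∀ a, x = some a → a ∉ Z → (∀ e, ω e = true → (ends e).map some ∈ p.edges → e ∈ F) →
      ∃ t ∈ T, s(some t, none) ∈ p.edges ∧ t ∈ cS ends (fun e => decide (e ∈ F)) Z {a} := by
  induction p with
  | nil =>
    intro a ha
    rw [hy] at ha
    exact absurd ha (by simp)
  | @cons x z y hadj p ih =>
    intro a ha haZ hF
    subst ha
    have hE : (SimpleGraph.Walk.cons hadj p).edges = s(some a, z) :: p.edges := SimpleGraph.Walk.edges_cons ..
    rw [hE] at hF ⊢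
    clear hE
    rcases hadj with ⟨a', b, h1, h2, h3, h4, h5, e, h6, h7⟩ | ⟨a', h1, h2, h3, h4⟩ | ⟨a', h1, h2, h3, h4⟩
    · have haa : a = a' := Option.some.inj h1
      subst haa
      subst h2
      have heF : e ∈ F := by
        refine hF e h6 ?_
        rw [h7, Sym2.map_mk]
        exact List.mem_cons_self
      obtain ⟨t, ht, h8, h9⟩ := ih hy b rfl h5 (fun e' he' hm => hF e' he' (List.mem_cons_of_mem _ hm))
      refine ⟨t, ht, List.mem_cons_of_mem _ h8, ?_⟩
      obtain ⟨b', hb', hbZ, hr⟩ := mem_cS.1 h9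
      rw [Set.mem_singleton_iff] at hb'
      subst hb'
      refine mem_cS.2 ⟨a, rfl, haZ, Relation.ReflTransGen.head ⟨haZ, hbZ, e, ?_, h7⟩ hr⟩
      simpa using heF
    · have haa : a = a' := Option.some.inj h1
      subst haa
      subst h2
      exact ⟨a, h3, List.mem_cons_self, mem_cS.2 ⟨a, rfl, haZ, Rch.refl a⟩⟩
    · exact absurd h1 (by simp)

/-- Row M2. Two edge-disjoint paths to different points of `T`. `menger2` for the graph on `Option V` with the edges `(some a, some b)` for an open edge `(a,b)` with `a, b ∉ Z` and `(some a, none)` for `a ∈ T` (`a ∉ Z`), from `some u` to `none`: removing an edge of the second kind leaves `g` or `g'` and the edge to `none`.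
The last vertices before `none` of the two paths are different points of `T` (the edges are different), the initial parts are paths in `V` (a simple path visits `none` only at its end). -/
lemma menger_set (hinj : Function.Injective ends) {ω : E → Bool} (Z : Set V) (u : V) (hu : u ∉ Z) (T : Set V) (g g' : V) (hg : g ∈ T) (hg' : g' ∈ T) (hne : g ≠ g')
    (h1 : g ∈ cS ends ω Z {u}) (h2 : g' ∈ cS ends ω Z {u})
    (hs : ∀ e, ω e = true → ∃ t ∈ T, t ∈ cS ends (Function.update ω e false) Z {u}) :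
    ∃ t ∈ T, ∃ t' ∈ T, t ≠ t' ∧ ∃ F F' : Finset E, Disjoint F F' ∧ (∀ e ∈ F ∪ F', ω e = true) ∧
      t ∈ cS ends (fun e => decide (e ∈ F)) Z {u} ∧ t' ∈ cS ends (fun e => decide (e ∈ F')) Z {u} := by
  have hgZ : g ∉ Z := cS_off h1
  have hgZ' : g' ∉ Z := cS_off h2
  have hb : ∀ e0 : Sym2 (Option V), e0 ∈ (M2_H ends ω Z T).edgeSet →
      ((M2_H ends ω Z T).deleteEdges {e0}).Reachable (some u) none := by
    intro e0 he0
    induction e0 using Sym2.ind with
    | _ x y =>
      rw [SimpleGraph.mem_edgeSet] at he0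
      have key : ∀ a, s(x, y) = s(some a, none) → ((M2_H ends ω Z T).deleteEdges {s(x, y)}).Reachable (some u) none := by
        intro a ha
        obtain ⟨k, hk, hkZ, hkc, hka⟩ : ∃ k ∈ T, k ∉ Z ∧ k ∈ cS ends ω Z {u} ∧ k ≠ a := by
          by_cases hga : g = a
          · exact ⟨g', hg', hgZ', h2, fun h => hne (hga.trans h.symm)⟩
          · exact ⟨g, hg, hgZ, h1, hga⟩
        refine (M2_reach (ω' := ω) s(x, y) (fun e he => ⟨he, ?_⟩) hkc).trans (SimpleGraph.Adj.reachable ?_)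
        · rw [ha]
          intro h
          have hm : none ∈ (ends e).map some := by
            rw [h]; simp
          rw [Sym2.mem_map] at hm
          obtain ⟨b, -, hb⟩ := hm
          exact absurd hb (by simp)
        · rw [SimpleGraph.deleteEdges_adj]
          refine ⟨Or.inr (Or.inl ⟨k, rfl, rfl, hk, hkZ⟩), ?_⟩
          rw [Set.mem_singleton_iff, ha]
          intro h
          rw [Sym2.eq_iff] at h
          rcases h with ⟨h, -⟩ | ⟨h, -⟩
          · exact hka (Option.some.inj h)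
          · exact absurd h (by simp)
      rcases he0 with ⟨a, b, h3, h4, h5, h6, h7, e, h8, h9⟩ | ⟨a, h3, h4, h5, h6⟩ | ⟨a, h3, h4, h5, h6⟩
      · subst h3
        subst h4
        obtain ⟨t, ht, htc⟩ := hs e h8
        refine (M2_reach (ω := ω) (T := T) s(some a, some b) (fun e' he' => ?_) htc).trans (SimpleGraph.Adj.reachable ?_)
        · have hne' : e' ≠ e := by
            rintro rfl
            rw [Function.update_self] at he'
            exact absurd he' (by simp)
          rw [Function.update_of_ne hne'] at he'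
          refine ⟨he', fun h => hne' (hinj ?_)⟩
          rw [h9]
          have h10 : (ends e').map some = (s(a, b) : Sym2 V).map some := by
            rw [h, Sym2.map_mk]
          exact Sym2.map.injective (Option.some_injective V) h10
        · rw [SimpleGraph.deleteEdges_adj]
          refine ⟨Or.inr (Or.inl ⟨t, rfl, rfl, ht, cS_off htc⟩), ?_⟩
          rw [Set.mem_singleton_iff]
          intro h
          rw [Sym2.eq_iff] at h
          rcases h with ⟨-, h⟩ | ⟨-, h⟩ <;> exact absurd h (by simp)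
      · exact key a (by rw [h3, h4])
      · exact key a (by rw [h3, h4, Sym2.eq_swap])
  have hr : (M2_H ends ω Z T).Reachable (some u) none := by
    refine SimpleGraph.Reachable.mono (SimpleGraph.deleteEdges_le {s(some g, none)}) (hb s(some g, none) ?_)
    rw [SimpleGraph.mem_edgeSet]
    exact Or.inr (Or.inl ⟨g, rfl, rfl, hg, hgZ⟩)
  obtain ⟨p, q, -, -, hpq⟩ := menger2 (M2_H ends ω Z T) (some u) none (by simp) hr hb
  classical
  let FF : List (Sym2 (Option V)) → Finset E := fun L => Finset.univ.filter (fun e => ω e = true ∧ (ends e).map some ∈ L)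
  have hFF : ∀ L e, e ∈ FF L ↔ ω e = true ∧ (ends e).map some ∈ L := by
    intro L e
    simp [FF]
  obtain ⟨t, ht, h3, h4⟩ := M2_end (FF p.edges) p rfl u rfl hu (fun e he hm => (hFF _ _).2 ⟨he, hm⟩)
  obtain ⟨t', ht', h5, h6⟩ := M2_end (FF q.edges) q rfl u rfl hu (fun e he hm => (hFF _ _).2 ⟨he, hm⟩)
  refine ⟨t, ht, t', ht', ?_, FF p.edges, FF q.edges, ?_, ?_, ?_, ?_⟩
  · rintro rfl
    exact hpq h3 h5
  · rw [Finset.disjoint_left]
    intro e he he'
    exact hpq ((hFF _ _).1 he).2 ((hFF _ _).1 he').2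
  · intro e he
    rcases Finset.mem_union.1 he with h | h
    · exact ((hFF _ _).1 h).1
    · exact ((hFF _ _).1 h).1
  · convert h4
  · convert h6

lemma M3_base {ω : E → Bool} {Z : Set V} {u : V} (hu : u ∉ Z) : u ∈ cS ends ω Z {u} :=
  mem_cS.2 ⟨u, rfl, hu, Relation.ReflTransGen.refl⟩

/-- Induction for clusters of one vertex. -/
lemma M3_ind {ω : E → Bool} {Z : Set V} {u : V} {P : V → Prop} (h0 : P u)
    (h1 : ∀ y z e, y ∈ cS ends ω Z {u} → z ∈ cS ends ω Z {u} → ω e = true → ends e = s(y, z) → z ∉ Z → P y → P z) :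
    ∀ y ∈ cS ends ω Z {u}, P y := by
  intro y hy
  obtain ⟨a, ha, haZ, hr⟩ := mem_cS.1 hy
  have hau : a = u := ha
  subst hau
  clear hy
  have key : y ∈ cS ends ω Z {a} ∧ P y := by
    induction hr with
    | refl => exact ⟨M3_base haZ, h0⟩
    | tail h1' h2' ih =>
      obtain ⟨hb, hc, e, he, hee⟩ := h2'
      have hz := cS_step ih.1 e hee he hc
      exact ⟨hz, h1 _ _ e ih.1 hz he hee hc ih.2⟩
  exact key.2

/-- Trimmed edge set: same cluster. -/
lemma M3_trim (Z : Set V) (u : V) (hu : u ∉ Z) (F : Finset E) :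
    ∃ F' ⊆ F, (∀ e ∈ F', ∀ a b, ends e = s(a, b) → a ∈ cS ends (fun e => decide (e ∈ F)) Z {u} ∧
      b ∈ cS ends (fun e => decide (e ∈ F)) Z {u}) ∧
      ∀ y ∈ cS ends (fun e => decide (e ∈ F)) Z {u}, y ∈ cS ends (fun e => decide (e ∈ F')) Z {u} := by
  classical
  refine ⟨F.filter (fun e => ∀ a b, ends e = s(a, b) → a ∈ cS ends (fun e => decide (e ∈ F)) Z {u} ∧
      b ∈ cS ends (fun e => decide (e ∈ F)) Z {u}), Finset.filter_subset _ _, ?_, ?_⟩
  · intro e he
    exact (Finset.mem_filter.1 he).2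
  · apply M3_ind
    · exact M3_base hu
    · intro y z e hy hz he hee hzZ ih
      have he' : e ∈ F := by simpa using he
      apply cS_step ih e hee _ hzZ
      simp only [decide_eq_true_eq, Finset.mem_filter]
      refine ⟨he', ?_⟩
      intro a b hab
      rw [hee] at hab
      rcases Sym2.eq_iff.1 hab with ⟨h1, h2⟩ | ⟨h1, h2⟩
      · subst h1; subst h2; exact ⟨hy, hz⟩
      · subst h1; subst h2; exact ⟨hz, hy⟩

lemma M3_case {ω : E → Bool} (Z : Set V) (u : V) (hu : u ∉ Z) (t1 t2 t' : V) (F1 F2 : Finset E)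
    (hd : Disjoint F1 F2) (ho : ∀ e ∈ F1 ∪ F2, ω e = true)
    (h1 : t1 ∈ cS ends (fun e => decide (e ∈ F1)) Z {u})
    (h2 : t2 ∈ cS ends (fun e => decide (e ∈ F2)) Z {u})
    (h3 : t' ∈ cS ends ω Z {u}) :
    ∃ t, (t = t1 ∨ t = t2) ∧ ∃ F F' : Finset E, Disjoint F F' ∧ (∀ e ∈ F ∪ F', ω e = true) ∧
      t ∈ cS ends (fun e => decide (e ∈ F)) Z {u} ∧ t' ∈ cS ends (fun e => decide (e ∈ F')) Z {u} := by
  classical
  obtain ⟨G1, hG1, hG1e, hG1c⟩ := M3_trim (ends := ends) Z u hu F1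
  obtain ⟨G2, hG2, hG2e, hG2c⟩ := M3_trim (ends := ends) Z u hu F2
  let W : V → Prop := fun y => y ∈ cS ends (fun e => decide (e ∈ F1)) Z {u} ∨
    y ∈ cS ends (fun e => decide (e ∈ F2)) Z {u}
  let F3 : Finset E := Finset.univ.filter (fun e => ω e = true ∧ ∃ a b, ends e = s(a, b) ∧ ¬ W b)
  have hF3o : ∀ e ∈ F3, ω e = true := fun e he => ((Finset.mem_filter.1 he).2).1
  have hd13 : Disjoint G1 F3 := by
    rw [Finset.disjoint_left]
    intro e he1 he3
    obtain ⟨-, -, a, b, hab, hW⟩ := Finset.mem_filter.1 he3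
    exact hW (Or.inl (hG1e e he1 a b hab).2)
  have hd23 : Disjoint G2 F3 := by
    rw [Finset.disjoint_left]
    intro e he1 he3
    obtain ⟨-, -, a, b, hab, hW⟩ := Finset.mem_filter.1 he3
    exact hW (Or.inr (hG2e e he1 a b hab).2)
  have hd12 : Disjoint G1 G2 := Finset.disjoint_of_subset_left hG1 (Finset.disjoint_of_subset_right hG2 hd)
  have hm1 : ∀ y, y ∈ cS ends (fun e => decide (e ∈ G1)) Z {u} → y ∈ cS ends (fun e => decide (e ∈ G1 ∪ F3)) Z {u} := by
    intro y hy
    refine cS_mono ?_ (Set.Subset.refl _) (Set.Subset.refl _) hy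
    intro e he
    simp only [decide_eq_true_eq, Finset.mem_union] at he ⊢
    exact Or.inl he
  have hm2 : ∀ y, y ∈ cS ends (fun e => decide (e ∈ G2)) Z {u} → y ∈ cS ends (fun e => decide (e ∈ G2 ∪ F3)) Z {u} := by
    intro y hy
    refine cS_mono ?_ (Set.Subset.refl _) (Set.Subset.refl _) hy
    intro e he
    simp only [decide_eq_true_eq, Finset.mem_union] at he ⊢
    exact Or.inl he
  have key : ∀ y ∈ cS ends ω Z {u}, y ∈ cS ends (fun e => decide (e ∈ G1 ∪ F3)) Z {u} ∨
      y ∈ cS ends (fun e => decide (e ∈ G2 ∪ F3)) Z {u} := by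
    apply M3_ind
    · exact Or.inl (M3_base hu)
    · intro y z e hy hz he hee hzZ ih
      by_cases hW : W z
      · rcases hW with hW | hW
        · exact Or.inl (hm1 z (hG1c z hW))
        · exact Or.inr (hm2 z (hG2c z hW))
      · have hmem : e ∈ F3 := by
          simp only [F3, Finset.mem_filter, Finset.mem_univ, true_and]
          exact ⟨he, y, z, hee, hW⟩
        rcases ih with ih | ih
        · left
          apply cS_step ih e hee _ hzZ
          simp only [decide_eq_true_eq, Finset.mem_union]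
          exact Or.inr hmem
        · right
          apply cS_step ih e hee _ hzZ
          simp only [decide_eq_true_eq, Finset.mem_union]
          exact Or.inr hmem
  rcases key t' h3 with h | h
  · refine ⟨t2, Or.inr rfl, G2, G1 ∪ F3, ?_, ?_, hG2c _ h2, h⟩
    · rw [Finset.disjoint_union_right]
      exact ⟨hd12.symm, hd23⟩
    · intro e he
      rcases Finset.mem_union.1 he with he | he
      · exact ho e (Finset.mem_union_right _ (hG2 he))
      · rcases Finset.mem_union.1 he with he | he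
        · exact ho e (Finset.mem_union_left _ (hG1 he))
        · exact hF3o e he
  · refine ⟨t1, Or.inl rfl, G1, G2 ∪ F3, ?_, ?_, hG1c _ h1, h⟩
    · rw [Finset.disjoint_union_right]
      exact ⟨hd12, hd13⟩
    · intro e he
      rcases Finset.mem_union.1 he with he | he
      · exact ho e (Finset.mem_union_left _ (hG1 he))
      · rcases Finset.mem_union.1 he with he | he
        · exact ho e (Finset.mem_union_right _ (hG2 he))
        · exact hF3o e he

/-- Row M3. Two disjoint target sets. `menger_set` with `T ∪ T'`; if one end is in `T` and the other one in `T'` done. If both are in `T` (both paths stopped at the first point of `T ∪ T'` — or not, it does not matter): take an open path off `Z` from a point of `T'` to `u`, stopped at its first vertex `x` on the two paths, say on the first one; replace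
the first one by its part from `u` to `x` and the new piece: it ends in `T'`, and is edge-disjoint from the second one, which ends in `T`. (Walks in the graph of the open edges off `Z`, as in `Tripod.lean`: `exists_walk`, `first_hit`, `opL`.) -/
lemma menger_two (hinj : Function.Injective ends) {ω : E → Bool} (Z : Set V) (u : V) (hu : u ∉ Z) (T T' : Set V) (hdis : ∀ x ∈ T, x ∉ T')
    (h1 : ∃ t ∈ T, t ∈ cS ends ω Z {u}) (h2 : ∃ t ∈ T', t ∈ cS ends ω Z {u})
    (hs : ∀ e, ω e = true → ∃ t, (t ∈ T ∨ t ∈ T') ∧ t ∈ cS ends (Function.update ω e false) Z {u}) :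
    ∃ t ∈ T, ∃ t' ∈ T', ∃ F F' : Finset E, Disjoint F F' ∧ (∀ e ∈ F ∪ F', ω e = true) ∧
      t ∈ cS ends (fun e => decide (e ∈ F)) Z {u} ∧ t' ∈ cS ends (fun e => decide (e ∈ F')) Z {u} := by
  classical
  obtain ⟨g, hg, hgc⟩ := h1
  obtain ⟨g', hg', hgc'⟩ := h2
  have hne : g ≠ g' := by
    rintro rfl
    exact hdis g hg hg'
  obtain ⟨t1, ht1, t2, ht2, h12, F1, F2, hd, ho, hc1, hc2⟩ :=
    menger_set hinj Z u hu (T ∪ T') g g' (Or.inl hg) (Or.inr hg') hne hgc hgc'
      (fun e he => by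
        obtain ⟨t, ht, htc⟩ := hs e he
        exact ⟨t, ht, htc⟩)
  have ho' : ∀ e ∈ F2 ∪ F1, ω e = true := fun e he => ho e (by
    rw [Finset.union_comm]; exact he)
  rcases ht1 with ht1 | ht1
  · rcases ht2 with ht2 | ht2
    · obtain ⟨t, ht, F, F', h3, h4, h5, h6⟩ := M3_case (ends := ends) Z u hu t1 t2 g' F1 F2 hd ho hc1 hc2 hgc'
      refine ⟨t, ?_, g', hg', F, F', h3, h4, h5, h6⟩
      rcases ht with rfl | rfl
      · exact ht1
      · exact ht2
    · exact ⟨t1, ht1, t2, ht2, F1, F2, hd, ho, hc1, hc2⟩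
  · rcases ht2 with ht2 | ht2
    · exact ⟨t2, ht2, t1, ht1, F2, F1, hd.symm, ho', hc2, hc1⟩
    · obtain ⟨t, ht, F, F', h3, h4, h5, h6⟩ := M3_case (ends := ends) Z u hu t1 t2 g F1 F2 hd ho hc1 hc2 hgc
      refine ⟨g, hg, t, ?_, F', F, h3.symm, ?_, h6, h5⟩
      · rcases ht with rfl | rfl
        · exact ht1
        · exact ht2
      · intro e he
        rw [Finset.union_comm] at he
        exact h4 e he

/-- At least two green vertices and no open edge separates `u` from all of them, off `Z`. -/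
def D2e (ends : E → Sym2 V) (ω : E → Bool) (Z : Set V) (G : Finset V) (u : V) : Prop :=
  2 ≤ (cS ends ω Z {u} ∩ G).card ∧ ∀ e, ω e = true → (cS ends (Function.update ω e false) Z {u} ∩ G).Nonempty

/-- Edge-disjoint paths to two different green vertices. -/
def PPe (ends : E → Sym2 V) (ω : E → Bool) (Z : Set V) (G : Finset V) (u : V) : Prop :=
  ∃ g ∈ G, ∃ g' ∈ G, g ≠ g' ∧ ∃ F F' : Finset E, Disjoint F F' ∧ (∀ e ∈ F ∪ F', ω e = true) ∧
    g ∈ cS ends (fun e => decide (e ∈ F)) Z {u} ∧ g' ∈ cS ends (fun e => decide (e ∈ F')) Z {u}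

/-- Row M4. `menger_set` (`T = G`); conversely an edge `e` is in at most one of the two sets. (If `u ∈ Z` both sides are false.) -/
lemma D2e_iff (hinj : Function.Injective ends) (ω : E → Bool) (Z : Set V) (G : Finset V) (u : V) : D2e ends ω Z G u ↔ PPe ends ω Z G u := by
  constructor
  · rintro ⟨h2, hs⟩
    obtain ⟨g, hg, g', hg', hne⟩ := Finset.one_lt_card.1 (show 1 < (cS ends ω Z {u} ∩ G).card from h2)
    rw [Finset.mem_inter] at hg hg'
    have hu : u ∉ Z := by
      obtain ⟨a, ha, haZ, -⟩ := mem_cS.1 hg.1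
      rw [Set.mem_singleton_iff] at ha
      rwa [ha] at haZ
    obtain ⟨t, ht, t', ht', htt, F, F', hd, ho, h1, h2⟩ := menger_set hinj Z u hu (G : Set V) g g'
      (Finset.mem_coe.2 hg.2) (Finset.mem_coe.2 hg'.2) hne hg.1 hg'.1 (fun e he => by
        obtain ⟨t, ht⟩ := hs e he
        rw [Finset.mem_inter] at ht
        exact ⟨t, Finset.mem_coe.2 ht.2, ht.1⟩)
    exact ⟨t, Finset.mem_coe.1 ht, t', Finset.mem_coe.1 ht', htt, F, F', hd, ho, h1, h2⟩
  · rintro ⟨g, hg, g', hg', hne, F, F', hd, ho, h1, h2⟩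
    have hF : ∀ e ∈ F, ω e = true := fun e he => ho e (Finset.mem_union_left _ he)
    have hF' : ∀ e ∈ F', ω e = true := fun e he => ho e (Finset.mem_union_right _ he)
    refine ⟨?_, ?_⟩
    · refine Finset.one_lt_card.2 ⟨g, Finset.mem_inter.2 ⟨?_, hg⟩, g', Finset.mem_inter.2 ⟨?_, hg'⟩, hne⟩
      · exact cS_mono (fun e he => hF e (of_decide_eq_true he)) (Set.Subset.refl _) (Set.Subset.refl _) h1
      · exact cS_mono (fun e he => hF' e (of_decide_eq_true he)) (Set.Subset.refl _) (Set.Subset.refl _) h2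
    · intro e he
      by_cases heF : e ∈ F
      · have heF' : e ∉ F' := Finset.disjoint_left.1 hd heF
        refine ⟨g', Finset.mem_inter.2 ⟨?_, hg'⟩⟩
        refine cS_mono (fun e' he' => ?_) (Set.Subset.refl _) (Set.Subset.refl _) h2
        have he2 : e' ∈ F' := of_decide_eq_true he'
        have hne' : e' ≠ e := fun h => heF' (h ▸ he2)
        rw [Function.update_of_ne hne']
        exact hF' e' he2
      · refine ⟨g, Finset.mem_inter.2 ⟨?_, hg⟩⟩
        refine cS_mono (fun e' he' => ?_) (Set.Subset.refl _) (Set.Subset.refl _) h1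
        have he2 : e' ∈ F := of_decide_eq_true he'
        have hne' : e' ≠ e := fun h => heF (h ▸ he2)
        rw [Function.update_of_ne hne']
        exact hF e' he2

/-- Row M4. `cS_mono`. -/
lemma PPe_anti {ω : E → Bool} {Z Z' : Set V} (h : Z ⊆ Z') (G : Finset V) (u : V) (hP : PPe ends ω Z' G u) : PPe ends ω Z G u := by
  obtain ⟨g, hg, g', hg', hne, F, F', hd, ho, h1, h2⟩ := hP
  exact ⟨g, hg, g', hg', hne, F, F', hd, ho, cS_mono (fun _ he => he) h (Set.Subset.refl _) h1,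
    cS_mono (fun _ he => he) h (Set.Subset.refl _) h2⟩

private lemma M5_a {W : Type*} {H : SimpleGraph W} (S : Set W) : ∀ {a b : W} (q : H.Walk a b), b ∈ S →
    ∃ x ∈ S, x ∈ q.support ∧ ∃ q1 : H.Walk a x, q1.support ⊆ q.support ∧ ∀ s ∈ q1.edges, ∃ v ∈ s, v ∉ S := by
  classical
  intro a b q
  induction q with
  | nil =>
    intro hb
    exact ⟨_, hb, by simp, SimpleGraph.Walk.nil, by simp, by simp⟩
  | @cons a v b h q ih =>
    intro hb
    by_cases ha : a ∈ S
    · exact ⟨a, ha, by simp, SimpleGraph.Walk.nil, by simp, by simp⟩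
    · obtain ⟨x, hx, hxq, q1, h1, h2⟩ := ih hb
      refine ⟨x, hx, ?_, SimpleGraph.Walk.cons h q1, ?_, ?_⟩
      · rw [SimpleGraph.Walk.support_cons]
        exact List.mem_cons_of_mem _ hxq
      · rw [SimpleGraph.Walk.support_cons, SimpleGraph.Walk.support_cons]
        exact List.cons_subset_cons _ h1
      · intro s hs
        rw [SimpleGraph.Walk.edges_cons, List.mem_cons] at hs
        rcases hs with rfl | hs
        · exact ⟨a, Sym2.mem_mk_left _ _, ha⟩
        · exact h2 s hs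

private lemma M5_b {W : Type*} {H : SimpleGraph W} (S : Set W) : ∀ {a b : W} (q : H.Walk a b), (∃ y ∈ q.support, y ∈ S) →
    ∃ x ∈ S, x ∈ q.support ∧ ∃ q1 : H.Walk x b, q1.edges ⊆ q.edges ∧ ∀ s ∈ q1.edges, ∃ v ∈ s, v ∉ S := by
  classical
  intro a b q
  induction q with
  | nil =>
    rintro ⟨y, hy, hyS⟩
    rw [SimpleGraph.Walk.support_nil, List.mem_singleton] at hy
    subst hy
    exact ⟨y, hyS, by simp, SimpleGraph.Walk.nil, by simp, by simp⟩
  | @cons a v b h q ih =>
    rintro ⟨y, hy, hyS⟩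
    by_cases hc : ∃ y ∈ q.support, y ∈ S
    · obtain ⟨x, hx, hxq, q1, h1, h2⟩ := ih hc
      refine ⟨x, hx, ?_, q1, ?_, h2⟩
      · rw [SimpleGraph.Walk.support_cons]
        exact List.mem_cons_of_mem _ hxq
      · rw [SimpleGraph.Walk.edges_cons]
        exact fun s hs => List.mem_cons_of_mem _ (h1 hs)
    · rw [SimpleGraph.Walk.support_cons, List.mem_cons] at hy
      have hya : y = a := by
        rcases hy with h' | h'
        · exact h'
        · exact absurd ⟨y, h', hyS⟩ hc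
      subst hya
      refine ⟨y, hyS, by simp, SimpleGraph.Walk.cons h q, fun s hs => hs, ?_⟩
      intro s hs
      rw [SimpleGraph.Walk.edges_cons, List.mem_cons] at hs
      rcases hs with rfl | hs
      · exact ⟨v, Sym2.mem_mk_right _ _, fun hv => hc ⟨v, SimpleGraph.Walk.start_mem_support _, hv⟩⟩
      · induction s using Sym2.ind with
        | _ c d =>
          exact ⟨c, Sym2.mem_mk_left _ _, fun hv => hc ⟨c, SimpleGraph.Walk.fst_mem_support_of_mem_edges _ hs, hv⟩⟩

private lemma M5_c {W : Type*} {H : SimpleGraph W} {a b : W} (p : H.Walk a b) (s : Sym2 W)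
    (h : ∃ v ∈ s, v ∉ {y | y ∈ p.support}) : s ∉ p.edges := by
  intro hs
  obtain ⟨v, hv, hvn⟩ := h
  apply hvn
  induction s using Sym2.ind with
  | _ c d =>
    rw [Sym2.mem_iff] at hv
    rcases hv with rfl | rfl
    · exact SimpleGraph.Walk.fst_mem_support_of_mem_edges _ hs
    · exact SimpleGraph.Walk.snd_mem_support_of_mem_edges _ hs

/-- Row M5. The H. `x'` = the last vertex of `q` on `p2`, `x` = the first vertex of `q` at or after `x'` on `p1`; the part of `q` between has no edge of `p1`, `p2`: all its vertices except `x'` are not on `p2`, all except `x` are not on `p1`. (`takeUntil`, `dropUntil`, `first_hit` twice: for the reversed walk with `P = p2.support`, then for the rest with `P = p1.support`.) -/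
lemma hshape {W : Type*} [DecidableEq W] {H : SimpleGraph W} {v g1 g2 a b : W} (p1 : H.Walk v g1) (p2 : H.Walk v g2) (q : H.Walk a b)
    (ha : a ∈ p2.support) (hb : b ∈ p1.support) :
    ∃ x x' : W, x ∈ p1.support ∧ x' ∈ p2.support ∧ x ∈ q.support ∧ x' ∈ q.support ∧ ∃ q' : H.Walk x' x, (∀ s ∈ q'.edges, s ∉ p1.edges) ∧ (∀ s ∈ q'.edges, s ∉ p2.edges) := by
  obtain ⟨x, hx, hxq, q1, h1, h2⟩ := M5_a {y | y ∈ p1.support} q hb
  obtain ⟨x', hx', hxq', q2, h3, h4⟩ := M5_b {y | y ∈ p2.support} q1 ⟨a, SimpleGraph.Walk.start_mem_support _, ha⟩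
  exact ⟨x, x', hx, hx', hxq, h1 hxq', q2, fun s hs => M5_c p1 s (h2 s (h3 hs)), fun s hs => M5_c p2 s (h4 s hs)⟩

/-- The end `n` is reached by a path inside of `Q` off `D` and one more edge, with edges in `F`. -/
def Xr (ends : E → Sym2 V) (F : Finset E) (D Q : Set V) (v n : V) : Prop :=
  n ∉ D ∧ n ∉ Q ∧ ∃ m ∈ cS ends (fun e => decide (e ∈ F)) (D ∪ Qᶜ) {v}, ∃ e ∈ F, ends e = s(m, n)

/-- Related exits. -/
def Rl (ends : E → Sym2 V) (ω : E → Bool) (D Q : Set V) (v n n' : V) : Prop :=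
  n ≠ n' ∧ ∃ F F' : Finset E, Disjoint F F' ∧ (∀ e ∈ F ∪ F', ω e = true) ∧ Xr ends F D Q v n ∧ Xr ends F' D Q v n'

/-- Two related exits with different green clusters outside. -/
def Oe (ends : E → Sym2 V) (ω : E → Bool) (D Q : Set V) (G : Finset V) (v : V) : Prop :=
  ∃ n n', Rl ends ω D Q v n n' ∧
    n' ∉ cS ends ω (D ∪ ((cS ends ω (D ∪ Qᶜ) {v} : Finset V) : Set V)) {n} ∧
    (cS ends ω (D ∪ ((cS ends ω (D ∪ Qᶜ) {v} : Finset V) : Set V)) {n} ∩ G).Nonempty ∧
    (cS ends ω (D ∪ ((cS ends ω (D ∪ Qᶜ) {v} : Finset V) : Set V)) {n'} ∩ G).Nonempty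

private lemma M6_mem {ω : E → Bool} {D : Set V} {k y : V} : y ∈ cS ends ω D {k} ↔ k ∉ D ∧ Rch ends ω Dᶜ k y := by
  simp only [cS, Finset.mem_filter, Finset.mem_univ, true_and, Set.mem_singleton_iff, exists_eq_left]

private lemma M6_half {ω : E → Bool} {D Q : Set V} {v n g : V} {F F1 : Finset E} (hF : ∀ e ∈ F, ω e = true) (hX : Xr ends F D Q v n)
    (hg : g ∈ cS ends ω (D ∪ ((cS ends ω (D ∪ Qᶜ) {v} : Finset V) : Set V)) {n})
    (h1 : ∀ e ∈ F, (∃ x ∈ ends e, x ∈ cS ends ω (D ∪ Qᶜ) {v}) → e ∈ F1)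
    (h2 : ∀ e, ω e = true → (∀ x ∈ ends e, x ∈ cS ends ω (D ∪ ((cS ends ω (D ∪ Qᶜ) {v} : Finset V) : Set V)) {n}) → e ∈ F1) :
    g ∈ cS ends (fun e => decide (e ∈ F1)) D {v} := by
  obtain ⟨hnD, hnQ, m, hm, e, heF, he⟩ := hX
  rw [M6_mem] at hm hg ⊢
  obtain ⟨hv, hm⟩ := hm
  obtain ⟨hn, hg⟩ := hg
  have hvD : v ∉ D := fun h => hv (Or.inl h)
  -- the path to `m`
  have key1 : ∀ y, Rch ends (fun e => decide (e ∈ F)) (D ∪ Qᶜ)ᶜ v y → y ∈ cS ends ω (D ∪ Qᶜ) {v} ∧ Rch ends (fun e => decide (e ∈ F1)) Dᶜ v y := by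
    intro y hy
    induction hy with
    | refl => exact ⟨M6_mem.2 ⟨hv, Rch.refl v⟩, Rch.refl v⟩
    | @tail c d _ hcd ih =>
      obtain ⟨hc, hd, e', h3, h4⟩ := hcd
      have h3' : e' ∈ F := by simpa using h3
      obtain ⟨ih1, ih2⟩ := ih
      refine ⟨M6_mem.2 ⟨hv, Relation.ReflTransGen.tail (M6_mem.1 ih1).2 ⟨hc, hd, e', hF e' h3', h4⟩⟩, ?_⟩
      refine Relation.ReflTransGen.tail ih2 ⟨fun h => hc (Or.inl h), fun h => hd (Or.inl h), e', ?_, h4⟩
      exact decide_eq_true (h1 e' h3' ⟨c, by rw [h4]; exact Sym2.mem_mk_left c d, ih1⟩)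
  have key2 : ∀ y, Rch ends ω (D ∪ ((cS ends ω (D ∪ Qᶜ) {v} : Finset V) : Set V))ᶜ n y →
      y ∈ cS ends ω (D ∪ ((cS ends ω (D ∪ Qᶜ) {v} : Finset V) : Set V)) {n} ∧ Rch ends (fun e => decide (e ∈ F1)) Dᶜ n y := by
    intro y hy
    induction hy with
    | refl => exact ⟨M6_mem.2 ⟨hn, Rch.refl n⟩, Rch.refl n⟩
    | @tail c d hcy hcd ih =>
      obtain ⟨hc, hd, e', h3, h4⟩ := hcd
      obtain ⟨ih1, ih2⟩ := ih
      have hd2 : d ∈ cS ends ω (D ∪ ((cS ends ω (D ∪ Qᶜ) {v} : Finset V) : Set V)) {n} :=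
        M6_mem.2 ⟨hn, Relation.ReflTransGen.tail hcy ⟨hc, hd, e', h3, h4⟩⟩
      refine ⟨hd2, ?_⟩
      refine Relation.ReflTransGen.tail ih2 ⟨fun h => hc (Or.inl h), fun h => hd (Or.inl h), e', ?_, h4⟩
      refine decide_eq_true (h2 e' h3 ?_)
      intro x hx
      rw [h4, Sym2.mem_iff] at hx
      rcases hx with rfl | rfl
      · exact ih1
      · exact hd2
  obtain ⟨hmB, hm2⟩ := key1 m hm
  have hmD : m ∉ D := by
    intro hmD
    rcases hm.mem with h | h
    · exact hvD (h ▸ hmD)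
    · exact h (Or.inl hmD)
  have hstep : Rch ends (fun e => decide (e ∈ F1)) Dᶜ m n :=
    Relation.ReflTransGen.single ⟨hmD, hnD, e, decide_eq_true (h1 e heF ⟨m, by rw [he]; exact Sym2.mem_mk_left m n, hmB⟩), he⟩
  exact ⟨hvD, (hm2.trans hstep).trans (key2 g hg).2⟩

/-- Row M6. `F` + the edges of the path in the cluster of `n` (edges with both ends off `Bx`), `F'` + the path in the cluster of `n'`: the clusters are disjoint. -/
lemma Oe_PPe {ω : E → Bool} {D Q : Set V} {G : Finset V} {v : V} (h : Oe ends ω D Q G v) : PPe ends ω D G v := by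
  classical
  obtain ⟨n, n', ⟨_, F, F', hFF, hω, hX, hX'⟩, hn', ⟨g, hg⟩, ⟨g', hg'⟩⟩ := h
  rw [Finset.mem_inter] at hg hg'
  set Bx : Finset V := cS ends ω (D ∪ Qᶜ) {v} with hBx
  set C : Finset V := cS ends ω (D ∪ (Bx : Set V)) {n} with hC
  set C' : Finset V := cS ends ω (D ∪ (Bx : Set V)) {n'} with hC'
  have hmem : ∀ k y, y ∈ cS ends ω (D ∪ (Bx : Set V)) {k} ↔ k ∉ D ∪ (Bx : Set V) ∧ Rch ends ω (D ∪ (Bx : Set V))ᶜ k y := by
    intro k y
    exact M6_mem
  have hoff : ∀ k y, y ∈ cS ends ω (D ∪ (Bx : Set V)) {k} → y ∉ Bx := by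
    intro k y hy hyB
    obtain ⟨h1, h2⟩ := (hmem k y).1 hy
    rcases h2.mem with h | h
    · exact h1 (Or.inr (by rw [h]; exact hyB))
    · exact h (Or.inr hyB)
  have hdis : ∀ y, y ∈ C → y ∈ C' → False := by
    intro y h1 h2
    apply hn'
    rw [hC] at h1
    rw [hC'] at h2
    have h3 := (hmem n y).1 h1
    have h4 := (hmem n' y).1 h2
    rw [hC]
    exact (hmem n n').2 ⟨h3.1, h3.2.trans h4.2.symm⟩
  have hend : ∀ e : E, ∃ x, x ∈ ends e := by
    intro e
    induction ends e with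
    | _ a b => exact ⟨a, Sym2.mem_mk_left a b⟩
  refine ⟨g, hg.2, g', hg'.2, ?_, F.filter (fun e => ∃ x ∈ ends e, x ∈ Bx) ∪ Finset.univ.filter (fun e => ω e = true ∧ ∀ x ∈ ends e, x ∈ C),
    F'.filter (fun e => ∃ x ∈ ends e, x ∈ Bx) ∪ Finset.univ.filter (fun e => ω e = true ∧ ∀ x ∈ ends e, x ∈ C'), ?_, ?_, ?_, ?_⟩
  · rintro rfl
    exact hdis g hg.1 hg'.1
  · rw [Finset.disjoint_left]
    intro e h1 h2
    simp only [Finset.mem_union, Finset.mem_filter, Finset.mem_univ, true_and] at h1 h2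
    rcases h1 with ⟨h1, x, hx, hxB⟩ | ⟨_, h1⟩
    · rcases h2 with ⟨h2, -⟩ | ⟨_, h2⟩
      · exact Finset.disjoint_left.1 hFF h1 h2
      · exact hoff n' x (h2 x hx) hxB
    · rcases h2 with ⟨_, x, hx, hxB⟩ | ⟨_, h2⟩
      · exact hoff n x (h1 x hx) hxB
      · obtain ⟨x, hx⟩ := hend e
        exact hdis x (h1 x hx) (h2 x hx)
  · intro e he
    simp only [Finset.mem_union, Finset.mem_filter, Finset.mem_univ, true_and] at he
    rcases he with (⟨h1, -⟩ | ⟨h1, -⟩) | (⟨h1, -⟩ | ⟨h1, -⟩)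
    · exact hω e (Finset.mem_union_left _ h1)
    · exact h1
    · exact hω e (Finset.mem_union_right _ h1)
    · exact h1
  · refine M6_half (F := F) (fun e he => hω e (Finset.mem_union_left _ he)) hX hg.1 ?_ ?_
    · intro e he hx
      exact Finset.mem_union_left _ (Finset.mem_filter.2 ⟨he, hx⟩)
    · intro e he hx
      exact Finset.mem_union_right _ (Finset.mem_filter.2 ⟨Finset.mem_univ _, he, hx⟩)
  · refine M6_half (F := F') (fun e he => hω e (Finset.mem_union_right _ he)) hX' hg'.1 ?_ ?_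
    · intro e he hx
      exact Finset.mem_union_left _ (Finset.mem_filter.2 ⟨he, hx⟩)
    · intro e he hx
      exact Finset.mem_union_right _ (Finset.mem_filter.2 ⟨Finset.mem_univ _, he, hx⟩)

/-- The H-shape: six pairwise disjoint open sets. -/
def Hsh (ends : E → Sym2 V) (ω : E → Bool) (P : Finset V) (G : Finset V) (v x x' z : V) : Prop :=
  z ∈ P ∧ ∃ F1 ∈ Pth ends v z, ∃ F2 ∈ Pth ends z x, ∃ F3 ∈ Pth ends v x', ∃ F4 ∈ Pth ends x' x, ∃ g ∈ G, ∃ F5 ∈ Pth ends x g, ∃ g' ∈ G, ∃ F6 ∈ Pth ends x' g',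
    Disjoint F1 F2 ∧ Disjoint (F1 ∪ F2) F3 ∧ Disjoint (F1 ∪ F2 ∪ F3) F4 ∧ Disjoint (F1 ∪ F2 ∪ F3 ∪ F4) F5 ∧ Disjoint (F1 ∪ F2 ∪ F3 ∪ F4 ∪ F5) F6 ∧
    ∀ e ∈ F1 ∪ F2 ∪ F3 ∪ F4 ∪ F5 ∪ F6, ω e = true

/-- Row M7a. Step of the next lemma. Let `p1`, `p2` be simple edge-disjoint walks of open edges off `D` from `v` to the green vertices `g1`, `g2`, `q` an open walk from a vertex of `p2` to a vertex of `p1`, such that for every `x` in `q` and on `p1`, the part of `p1` from `v` to `x` visits `P`. Then there is an H-shape (`hshape`; `F1, F2` = the part of `p1` from `v` to `x`, cut at `z`;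
`F5` the rest of `p1`, `F3, F6` = `p2` cut at `x'`, `F4 = q'`; `opL`, `walk_mem_Pth`, `opL_disjoint`, `takeUntil`/`dropUntil` of a simple path are edge-disjoint). -/
lemma h_of {ω : E → Bool} {P G : Finset V} {v g1 g2 a b : V} (p1 : (openG ends ω).Walk v g1) (p2 : (openG ends ω).Walk v g2) (hp1 : p1.IsPath) (hp2 : p2.IsPath)
    (hd : List.Disjoint p1.edges p2.edges) (hg1 : g1 ∈ G) (hg2 : g2 ∈ G) (q : (openG ends ω).Walk a b) (ha : a ∈ p2.support) (hb : b ∈ p1.support)
    (hq : ∀ x, ∀ (hx : x ∈ p1.support), x ∈ q.support → ∃ z ∈ P, z ∈ (p1.takeUntil x hx).support) :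
    ∃ x x' z, Hsh ends ω P G v x x' z := by
  obtain ⟨x, x', hx, hx', hxq, -, q', hq1, hq2⟩ := hshape p1 p2 q ha hb
  obtain ⟨z, hzP, hz⟩ := hq x hx hxq
  have hnd1 : (p1.takeUntil x hx).edges.Disjoint (p1.dropUntil x hx).edges := by
    have h1 : p1.edges.Nodup := hp1.isTrail.edges_nodup
    rw [← p1.take_spec hx, SimpleGraph.Walk.edges_append] at h1
    exact (List.nodup_append'.1 h1).2.2
  have hndT : (p1.takeUntil x hx).edges.Nodup := by
    have h1 : p1.edges.Nodup := hp1.isTrail.edges_nodup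
    rw [← p1.take_spec hx, SimpleGraph.Walk.edges_append] at h1
    exact (List.nodup_append'.1 h1).1
  have hnd2 : ((p1.takeUntil x hx).takeUntil z hz).edges.Disjoint
      ((p1.takeUntil x hx).dropUntil z hz).edges := by
    have h1 := hndT
    rw [← (p1.takeUntil x hx).take_spec hz, SimpleGraph.Walk.edges_append] at h1
    exact (List.nodup_append'.1 h1).2.2
  have hnd3 : (p2.takeUntil x' hx').edges.Disjoint (p2.dropUntil x' hx').edges := by
    have h1 : p2.edges.Nodup := hp2.isTrail.edges_nodup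
    rw [← p2.take_spec hx', SimpleGraph.Walk.edges_append] at h1
    exact (List.nodup_append'.1 h1).2.2
  have sT : ∀ s ∈ (p1.takeUntil x hx).edges, s ∈ p1.edges :=
    fun s hs => p1.edges_takeUntil_subset_edges hx hs
  have s1T : ∀ s ∈ ((p1.takeUntil x hx).takeUntil z hz).edges, s ∈ (p1.takeUntil x hx).edges :=
    fun s hs => (p1.takeUntil x hx).edges_takeUntil_subset_edges hz hs
  have s2T : ∀ s ∈ ((p1.takeUntil x hx).dropUntil z hz).edges, s ∈ (p1.takeUntil x hx).edges :=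
    fun s hs => (p1.takeUntil x hx).edges_dropUntil_subset_edges hz hs
  have s1 : ∀ s ∈ ((p1.takeUntil x hx).takeUntil z hz).edges, s ∈ p1.edges :=
    fun s hs => sT s (s1T s hs)
  have s2 : ∀ s ∈ ((p1.takeUntil x hx).dropUntil z hz).edges, s ∈ p1.edges :=
    fun s hs => sT s (s2T s hs)
  have s5 : ∀ s ∈ (p1.dropUntil x hx).edges, s ∈ p1.edges :=
    fun s hs => p1.edges_dropUntil_subset_edges hx hs
  have s3 : ∀ s ∈ (p2.takeUntil x' hx').edges, s ∈ p2.edges :=
    fun s hs => p2.edges_takeUntil_subset_edges hx' hs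
  have s6 : ∀ s ∈ (p2.dropUntil x' hx').edges, s ∈ p2.edges :=
    fun s hs => p2.edges_dropUntil_subset_edges hx' hs
  have d12 := opL_disjoint (ends := ends) (ω := ω)
    (L := ((p1.takeUntil x hx).takeUntil z hz).edges)
    (L' := ((p1.takeUntil x hx).dropUntil z hz).edges) (fun s hs hs' => hnd2 hs hs')
  have d13 := opL_disjoint (ends := ends) (ω := ω)
    (L := ((p1.takeUntil x hx).takeUntil z hz).edges)
    (L' := (p2.takeUntil x' hx').edges) (fun s hs hs' => hd (s1 s hs) (s3 s hs'))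
  have d23 := opL_disjoint (ends := ends) (ω := ω)
    (L := ((p1.takeUntil x hx).dropUntil z hz).edges)
    (L' := (p2.takeUntil x' hx').edges) (fun s hs hs' => hd (s2 s hs) (s3 s hs'))
  have d14 := opL_disjoint (ends := ends) (ω := ω)
    (L := ((p1.takeUntil x hx).takeUntil z hz).edges)
    (L' := q'.edges) (fun s hs hs' => hq1 s hs' (s1 s hs))
  have d24 := opL_disjoint (ends := ends) (ω := ω)
    (L := ((p1.takeUntil x hx).dropUntil z hz).edges)
    (L' := q'.edges) (fun s hs hs' => hq1 s hs' (s2 s hs))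
  have d34 := opL_disjoint (ends := ends) (ω := ω)
    (L := (p2.takeUntil x' hx').edges)
    (L' := q'.edges) (fun s hs hs' => hq2 s hs' (s3 s hs))
  have d15 := opL_disjoint (ends := ends) (ω := ω)
    (L := ((p1.takeUntil x hx).takeUntil z hz).edges)
    (L' := (p1.dropUntil x hx).edges) (fun s hs hs' => hnd1 (s1T s hs) hs')
  have d25 := opL_disjoint (ends := ends) (ω := ω)
    (L := ((p1.takeUntil x hx).dropUntil z hz).edges)
    (L' := (p1.dropUntil x hx).edges) (fun s hs hs' => hnd1 (s2T s hs) hs')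
  have d35 := opL_disjoint (ends := ends) (ω := ω)
    (L := (p2.takeUntil x' hx').edges)
    (L' := (p1.dropUntil x hx).edges) (fun s hs hs' => hd (s5 s hs') (s3 s hs))
  have d45 := opL_disjoint (ends := ends) (ω := ω)
    (L := q'.edges)
    (L' := (p1.dropUntil x hx).edges) (fun s hs hs' => hq1 s hs (s5 s hs'))
  have d16 := opL_disjoint (ends := ends) (ω := ω)
    (L := ((p1.takeUntil x hx).takeUntil z hz).edges)
    (L' := (p2.dropUntil x' hx').edges) (fun s hs hs' => hd (s1 s hs) (s6 s hs'))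
  have d26 := opL_disjoint (ends := ends) (ω := ω)
    (L := ((p1.takeUntil x hx).dropUntil z hz).edges)
    (L' := (p2.dropUntil x' hx').edges) (fun s hs hs' => hd (s2 s hs) (s6 s hs'))
  have d36 := opL_disjoint (ends := ends) (ω := ω)
    (L := (p2.takeUntil x' hx').edges)
    (L' := (p2.dropUntil x' hx').edges) (fun s hs hs' => hnd3 hs hs')
  have d46 := opL_disjoint (ends := ends) (ω := ω)
    (L := q'.edges)
    (L' := (p2.dropUntil x' hx').edges) (fun s hs hs' => hq2 s hs (s6 s hs'))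
  have d56 := opL_disjoint (ends := ends) (ω := ω)
    (L := (p1.dropUntil x hx).edges)
    (L' := (p2.dropUntil x' hx').edges) (fun s hs hs' => hd (s5 s hs) (s6 s hs'))
  refine ⟨x, x', z, hzP,
    _, walk_mem_Pth ((p1.takeUntil x hx).takeUntil z hz) _ (fun s hs => hs),
    _, walk_mem_Pth ((p1.takeUntil x hx).dropUntil z hz) _ (fun s hs => hs),
    _, walk_mem_Pth (p2.takeUntil x' hx') _ (fun s hs => hs),
    _, walk_mem_Pth q' _ (fun s hs => hs), g1, hg1,
    _, walk_mem_Pth (p1.dropUntil x hx) _ (fun s hs => hs), g2, hg2,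
    _, walk_mem_Pth (p2.dropUntil x' hx') _ (fun s hs => hs), d12, ?_, ?_, ?_, ?_, ?_⟩
  · exact Finset.disjoint_union_left.2 ⟨d13, d23⟩
  · exact Finset.disjoint_union_left.2 ⟨Finset.disjoint_union_left.2 ⟨d14, d24⟩, d34⟩
  · exact Finset.disjoint_union_left.2 ⟨Finset.disjoint_union_left.2
      ⟨Finset.disjoint_union_left.2 ⟨d15, d25⟩, d35⟩, d45⟩
  · exact Finset.disjoint_union_left.2 ⟨Finset.disjoint_union_left.2 ⟨Finset.disjoint_union_left.2
      ⟨Finset.disjoint_union_left.2 ⟨d16, d26⟩, d36⟩, d46⟩, d56⟩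
  · intro e he
    simp only [Finset.mem_union, opL, Finset.mem_filter] at he
    tauto

private lemma M7b_adj {ω : E → Bool} {a b : V} (p : (openG ends ω).Walk a b) (s : Sym2 V) (hs : s ∈ p.edges) :
    ∃ e, ω e = true ∧ ends e = s := by
  induction s using Sym2.ind with
  | _ x y =>
    obtain ⟨_, e, h1, h2⟩ := p.adj_of_mem_edges hs
    exact ⟨e, h1, h2⟩

private lemma M7b_w1 {ω ω' : E → Bool} {S : Set V} {a b : V} (hω : ∀ e, ω' e = true → ω e = true)
    (h : Rch ends ω' S a b) (ha : a ∈ S) :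
    ∃ p : (openG ends ω).Walk a b, p.IsPath ∧ (∀ w ∈ p.support, w ∈ S) ∧ ∀ s ∈ p.edges, ∃ e, ω' e = true ∧ ends e = s := by
  have key : ∃ p : (openG ends ω).Walk a b, (∀ w ∈ p.support, w ∈ S) ∧ ∀ s ∈ p.edges, ∃ e, ω' e = true ∧ ends e = s := by
    induction h with
    | refl => exact ⟨SimpleGraph.Walk.nil, by simpa using ha, by simp⟩
    | @tail c d _ hcd ih =>
      obtain ⟨p, hp1, hp2⟩ := ih
      obtain ⟨_, hd, e, h3, h4⟩ := hcd
      by_cases hne : c = d
      · subst hne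
        exact ⟨p, hp1, hp2⟩
      · have hadj : (openG ends ω).Adj c d := ⟨hne, e, hω e h3, h4⟩
        refine ⟨p.concat hadj, ?_, ?_⟩
        · intro w hw
          rw [SimpleGraph.Walk.support_concat, List.mem_append, List.mem_singleton] at hw
          rcases hw with hw | rfl
          · exact hp1 w hw
          · exact hd
        · intro s hs
          rw [SimpleGraph.Walk.edges_concat, List.concat_eq_append, List.mem_append, List.mem_singleton] at hs
          rcases hs with hs | rfl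
          · exact hp2 s hs
          · exact ⟨e, h3, h4⟩
  obtain ⟨p, hp1, hp2⟩ := key
  exact ⟨p.bypass, p.bypass_isPath, fun w hw => hp1 w (p.support_bypass_subset_support hw),
    fun s hs => hp2 s (p.edges_bypass_subset_edges hs)⟩

private lemma M7b_w2 {ω ω' : E → Bool} {S : Set V} {a b : V} (p : (openG ends ω).Walk a b)
    (hS : ∀ w ∈ p.support, w ∈ S) (he : ∀ s ∈ p.edges, ∃ e, ω' e = true ∧ ends e = s) : Rch ends ω' S a b := by
  induction p with
  | nil => exact Rch.refl _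
  | @cons a c b hadj p ih =>
    obtain ⟨e, h3, h4⟩ := he s(a, c) (by simp)
    refine Relation.ReflTransGen.head ⟨hS a (by simp), hS c (by simp), e, h3, h4⟩ (ih (fun w hw => hS w ?_) (fun s hs => he s ?_))
    · rw [SimpleGraph.Walk.support_cons]
      exact List.mem_cons_of_mem _ hw
    · rw [SimpleGraph.Walk.edges_cons]
      exact List.mem_cons_of_mem _ hs

private lemma M7b_w3 {ω : E → Bool} {Q : Set V} {P : Finset V}
    (hP : ∀ e x y, ends e = s(x, y) → x ∈ Q → y ∉ Q → x ∈ P) {a b : V} (p : (openG ends ω).Walk a b)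
    (ha : a ∈ Q) (hb : ¬ ∀ w ∈ p.support, w ∈ Q) : ∃ z ∈ P, z ∈ p.support := by
  induction p with
  | nil =>
    exfalso
    apply hb
    intro w hw
    rw [SimpleGraph.Walk.support_nil, List.mem_singleton] at hw
    rw [hw]
    exact ha
  | @cons a c b hadj p ih =>
    by_cases hc : c ∈ Q
    · obtain ⟨z, hz, hz2⟩ := ih hc (fun h => hb (by
        intro w hw
        rw [SimpleGraph.Walk.support_cons, List.mem_cons] at hw
        rcases hw with rfl | hw
        · exact ha
        · exact h w hw))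
      refine ⟨z, hz, ?_⟩
      rw [SimpleGraph.Walk.support_cons]
      exact List.mem_cons_of_mem _ hz2
    · obtain ⟨_, e, _, h4⟩ := hadj
      exact ⟨a, hP e a c h4 ha hc, by simp⟩

private lemma M7b_w4 {ω : E → Bool} {D : Set V} {B : Finset V} {a b : V} (p : (openG ends ω).Walk a b)
    (hD : ∀ w ∈ p.support, w ∉ D) (hb : b ∉ B) :
    (a ∉ B ∧ Rch ends ω (D ∪ (B : Set V))ᶜ a b) ∨
      ∃ m n, m ∈ B ∧ n ∉ B ∧ n ∉ D ∧ m ∈ p.support ∧ s(m, n) ∈ p.edges ∧ Rch ends ω (D ∪ (B : Set V))ᶜ n b := by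
  induction p with
  | nil => exact Or.inl ⟨hb, Rch.refl _⟩
  | @cons a c b hadj p ih =>
    have hD' : ∀ w ∈ p.support, w ∉ D := fun w hw => hD w (by
      rw [SimpleGraph.Walk.support_cons]
      exact List.mem_cons_of_mem _ hw)
    rcases ih hD' hb with ⟨hc, hr⟩ | ⟨m, n, h1, h2, h3, h4, h5, h6⟩
    · have hcD : c ∉ D := hD' c p.start_mem_support
      by_cases ha : a ∈ B
      · exact Or.inr ⟨a, c, ha, hc, hcD, by simp, by simp, hr⟩
      · left
        refine ⟨ha, ?_⟩
        obtain ⟨_, e, h3, h4⟩ := hadj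
        refine Relation.ReflTransGen.head ⟨?_, ?_, e, h3, h4⟩ hr
        · rintro (h | h)
          · exact hD a (by simp) h
          · exact ha h
        · rintro (h | h)
          · exact hcD h
          · exact hc h
    · refine Or.inr ⟨m, n, h1, h2, h3, ?_, ?_, h6⟩
      · rw [SimpleGraph.Walk.support_cons]
        exact List.mem_cons_of_mem _ h4
      · rw [SimpleGraph.Walk.edges_cons]
        exact List.mem_cons_of_mem _ h5

private lemma M7b_memB {ω : E → Bool} {D Q : Set V} {v y : V} (hvQ : v ∈ Q) (hvD : v ∉ D) :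
    y ∈ cS ends ω (D ∪ Qᶜ) {v} ↔ Rch ends ω (D ∪ Qᶜ)ᶜ v y := by
  rw [mem_cS]
  constructor
  · rintro ⟨a, ha, _, h⟩
    rw [Set.mem_singleton_iff] at ha
    subst ha
    exact h
  · intro h
    refine ⟨v, rfl, ?_, h⟩
    rintro (h1 | h1)
    · exact hvD h1
    · exact h1 hvQ

private lemma M7b_upd {ω : E → Bool} {e0 e : E} (h : Function.update ω e0 false e = true) : ω e = true ∧ e ≠ e0 := by
  by_cases he : e = e0
  · subst he
    rw [Function.update_self] at h
    exact absurd h (by simp)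
  · rw [Function.update_of_ne he] at h
    exact ⟨h, he⟩

private lemma M7b_fin {ω : E → Bool} {D Q : Set V} {P G : Finset V} {v g1 g2 : V} (hinj : Function.Injective ends) (hvQ : v ∈ Q) (hvD : v ∉ D)
    (hP : ∀ e x y, ends e = s(x, y) → x ∈ Q → y ∉ Q → x ∈ P) (e0 : E)
    (p1 : (openG ends ω).Walk v g1) (p2 : (openG ends ω).Walk v g2) (hp1 : p1.IsPath) (hp2 : p2.IsPath)
    (hd : List.Disjoint p1.edges p2.edges) (hg1 : g1 ∈ G) (hg2 : g2 ∈ G)
    (hD1 : ∀ w ∈ p1.support, w ∉ D) (hD2 : ∀ w ∈ p2.support, w ∉ D) (he0 : ends e0 ∉ p1.edges)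
    (hB1 : g1 ∉ cS ends ω (D ∪ Qᶜ) {v}) (hB2 : g2 ∉ cS ends ω (D ∪ Qᶜ) {v})
    (hsep : ∀ m n e, Rch ends (Function.update ω e0 false) (D ∪ Qᶜ)ᶜ v m → n ∉ cS ends ω (D ∪ Qᶜ) {v} → n ∉ D →
      (Rch ends ω (D ∪ ((cS ends ω (D ∪ Qᶜ) {v} : Finset V) : Set V))ᶜ n g1 ∨
        Rch ends ω (D ∪ ((cS ends ω (D ∪ Qᶜ) {v} : Finset V) : Set V))ᶜ n g2) → ω e = true → ends e = s(m, n) → e = e0) :
    ∃ x x' z, Hsh ends ω P G v x x' z := by
  have hvS : v ∈ (D ∪ Qᶜ)ᶜ := by
    rintro (h1 | h1)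
    · exact hvD h1
    · exact h1 hvQ
  have hvB : v ∈ cS ends ω (D ∪ Qᶜ) {v} := (M7b_memB hvQ hvD).2 (Rch.refl v)
  have hle : ∀ e, Function.update ω e0 false e = true → ω e = true := fun e he => (M7b_upd he).1
  -- exit of p1
  rcases M7b_w4 p1 hD1 hB1 with ⟨h, _⟩ | ⟨m, n, hm, hn, hnD, hmp, hmn, hr⟩
  · exact absurd hvB h
  obtain ⟨e, heo, hee⟩ := M7b_adj p1 _ hmn
  have hm0 : ¬ Rch ends (Function.update ω e0 false) (D ∪ Qᶜ)ᶜ v m := by
    intro h
    have h1 := hsep m n e h hn hnD (Or.inl hr) heo hee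
    apply he0
    rw [← h1, hee]
    exact hmn
  -- exit of p2
  rcases M7b_w4 p2 hD2 hB2 with ⟨h, _⟩ | ⟨m', n', hm', hn', hnD', hmp', hmn', hr'⟩
  · exact absurd hvB h
  obtain ⟨e', heo', hee'⟩ := M7b_adj p2 _ hmn'
  have hm0' : ¬ Rch ends (Function.update ω e0 false) (D ∪ Qᶜ)ᶜ v m' := by
    intro h
    have h1 := hsep m' n' e' h hn' hnD' (Or.inr hr') heo' hee'
    have hn'Q : n' ∉ Q := by
      intro hQ
      apply hn'
      rw [M7b_memB hvQ hvD]
      have h2 := (M7b_memB hvQ hvD).1 hm'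
      refine Relation.ReflTransGen.tail h2 ⟨h2.mem' hvS, ?_, e', heo', hee'⟩
      rintro (h3 | h3)
      · exact hnD' h3
      · exact h3 hQ
    apply hm0
    have h2 := (M7b_memB hvQ hvD).1 hm
    clear hm0 hmn hee hr hmp
    induction h2 with
    | refl => exact Rch.refl v
    | @tail c d hcd0 hcd ih =>
      have hc : c ∈ cS ends ω (D ∪ Qᶜ) {v} := (M7b_memB hvQ hvD).2 hcd0
      refine Relation.ReflTransGen.tail (ih hc) ?_
      obtain ⟨h3, h4, e2, h5, h6⟩ := hcd
      refine ⟨h3, h4, e2, ?_, h6⟩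
      rw [Function.update_of_ne]
      · exact h5
      · intro h7
        rw [h7, ← h1, hee', Sym2.eq_iff] at h6
        rcases h6 with ⟨_, h6⟩ | ⟨_, h6⟩
        · rw [← h6] at h4
          exact h4 (Or.inr hn'Q)
        · rw [← h6] at h3
          exact h3 (Or.inr hn'Q)
  have hpc : ∀ y, Rch ends ω (D ∪ Qᶜ)ᶜ v y → Rch ends (Function.update ω e0 false) (D ∪ Qᶜ)ᶜ v y ∨
      ∃ c0 c1, ends e0 = s(c0, c1) ∧ Rch ends (Function.update ω e0 false) (D ∪ Qᶜ)ᶜ v c0 ∧
        Rch ends (Function.update ω e0 false) (D ∪ Qᶜ)ᶜ c1 y := by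
    intro y h
    induction h with
    | refl => exact Or.inl (Rch.refl v)
    | @tail c d _ hcd ih =>
      obtain ⟨h3, h4, e2, h5, h6⟩ := hcd
      by_cases h7 : e2 = e0
      · rw [h7] at h6
        rcases ih with ih | ⟨c0, c1, k1, k2, k3⟩
        · exact Or.inr ⟨c, d, h6, ih, Rch.refl d⟩
        · rw [h6, Sym2.eq_iff] at k1
          rcases k1 with ⟨k4, k5⟩ | ⟨k4, k5⟩
          · exact Or.inr ⟨c, d, h6, k4 ▸ k2, Rch.refl d⟩
          · exact Or.inl (k5 ▸ k2)
      · have h8 : Step ends (Function.update ω e0 false) (D ∪ Qᶜ)ᶜ c d := ⟨h3, h4, e2, by rw [Function.update_of_ne h7]; exact h5, h6⟩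
        rcases ih with ih | ⟨c0, c1, k1, k2, k3⟩
        · exact Or.inl (Relation.ReflTransGen.tail ih h8)
        · exact Or.inr ⟨c0, c1, k1, k2, Relation.ReflTransGen.tail k3 h8⟩
  have hmm : Rch ends (Function.update ω e0 false) (D ∪ Qᶜ)ᶜ m' m := by
    rcases hpc m ((M7b_memB hvQ hvD).1 hm) with h | ⟨c0, c1, k1, k2, k3⟩
    · exact absurd h hm0
    rcases hpc m' ((M7b_memB hvQ hvD).1 hm') with h | ⟨c0', c1', k1', k2', k3'⟩
    · exact absurd h hm0'
    rw [k1, Sym2.eq_iff] at k1'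
    rcases k1' with ⟨_, k5⟩ | ⟨k4, k5⟩
    · rw [← k5] at k3'
      exact k3'.symm.trans k3
    · exfalso
      rw [← k5] at k2'
      exact hm0 (k2'.trans k3)
  have hmT : Rch ends (Function.update ω e0 false) {w | w ∈ (D ∪ Qᶜ)ᶜ ∧ ¬ Rch ends (Function.update ω e0 false) (D ∪ Qᶜ)ᶜ v w} m' m := by
    have hb : ∀ y, Rch ends (Function.update ω e0 false) (D ∪ Qᶜ)ᶜ m' y → ¬ Rch ends (Function.update ω e0 false) (D ∪ Qᶜ)ᶜ v y :=
      fun y h1 h2 => hm0' (h2.trans h1.symm)
    clear hm0 hmn hee hr hmp hm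
    induction hmm with
    | refl => exact Rch.refl m'
    | @tail c d h1 hcd ih =>
      refine Relation.ReflTransGen.tail ih ?_
      have h2 := Relation.ReflTransGen.tail h1 hcd
      obtain ⟨h3, h4, e2, h5, h6⟩ := hcd
      exact ⟨⟨h3, hb c h1⟩, ⟨h4, hb d h2⟩, e2, h5, h6⟩
  have hm'T : m' ∈ {w | w ∈ (D ∪ Qᶜ)ᶜ ∧ ¬ Rch ends (Function.update ω e0 false) (D ∪ Qᶜ)ᶜ v w} :=
    ⟨((M7b_memB hvQ hvD).1 hm').mem' hvS, hm0'⟩
  obtain ⟨q, _, hqS, _⟩ := M7b_w1 (ω := ω) hle hmT hm'T
  refine h_of p1 p2 hp1 hp2 hd hg1 hg2 q hmp' hmp ?_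
  intro x hx hxq
  refine M7b_w3 hP (p1.takeUntil x hx) hvQ ?_
  intro hall
  apply (hqS x hxq).2
  refine M7b_w2 (p1.takeUntil x hx) (fun w hw => ?_) (fun s hs => ?_)
  · rintro (h1 | h1)
    · exact hD1 w (p1.support_takeUntil_subset_support hx hw) h1
    · exact h1 (hall w hw)
  · have h1 := p1.edges_takeUntil_subset_edges hx hs
    obtain ⟨e2, h2, h3⟩ := M7b_adj p1 s h1
    refine ⟨e2, ?_, h3⟩
    rw [Function.update_of_ne]
    · exact h2
    · intro h4
      apply he0
      rw [← h4, h3]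
      exact h1

/-- Row M7b. (HL). `Bx = cS ω (D ∪ Qᶜ) {v}` contains no green vertex, the event `PPe` holds but not `Oe`. Then there is an H-shape.
`PPe` gives simple edge-disjoint open paths `p1`, `p2` off `D` from `v` to `g1 ≠ g2`. `Ca = cS ω (D ∪ Bx) {g1}`, `Cb` the same for `g2`. CASE `g2 ∈ Ca`: `q` a path in `Ca` from `g2` to `g1`. A vertex `x ∈ Ca` on `p1`: `x ∉ Bx`, so the part of `p1` from `v` to `x` (off `D`) leaves `Q`, so it visits `P`: `h_of`.
CASE `g2 ∉ Ca`: `Ca`, `Cb` are disjoint. `Na` = the vertices of `Ca` outside of `Q`.. joined by an open edge to `Bx` (every vertex off `D ∪ Bx` joined by an open edge to `Bx` is outside of `Q`), `Nb` the same for `Cb`; both not empty (`p1` after its last vertex in `Bx`). Let `ω1` = the open edges with one end in `Bx` (and the other one off `D`). In `ω1`, off `D`, vertices outside of `Q`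
have at most one edge (`hone`). If no edge of `ω1` separates `v` from `Na ∪ Nb`: `menger_two` gives edge-disjoint paths to `n ∈ Na`, `n' ∈ Nb`, of the form `Xr` (a simple path in `ω1` cannot pass through a vertex outside of `Q`): `Rl n n'`, and `Oe` holds. Contradiction. So some `e0` open separates `v` from `Na ∪ Nb` in `ω1`; it is not an edge with an end outside of `Q` (it would be of
no use for `Na` or for `Nb`), so `Bx` without `e0` has two pieces `B0 ∋ v` and `B1`, joined inside of `Bx` only by `e0`, and `Na`, `Nb` are joined only to `B1`. One of `p1`, `p2` does not use `e0`; say `p1` (otherwise exchange the names: the conclusion is symmetric). Both visit `B1` (the last vertex in `Bx`). `q` = a path inside of `B1` (without `e0`) from a vertex of `p2` to a vertex of `p1`.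
For `x ∈ B1` on `p1` the part of `p1` from `v ∈ B0` to `x` does not use `e0`, so it is not contained in `Q` (a path inside of `Q` off `D` from `v` stays in `Bx`), so it visits `P`: `h_of`. -/
lemma HLem (hinj : Function.Injective ends) {ω : E → Bool} {D Q : Set V} {P G : Finset V} {v : V} (hvQ : v ∈ Q) (hvD : v ∉ D)
    (hP : ∀ e x y, ends e = s(x, y) → x ∈ Q → y ∉ Q → x ∈ P)
    (hone : ∀ n, n ∉ Q → ∀ e e' a a', ends e = s(a, n) → ends e' = s(a', n) → a ∈ Q → a' ∈ Q → e = e')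
    (hPP : PPe ends ω D G v) (hB : ∀ y ∈ cS ends ω (D ∪ Qᶜ) {v}, y ∉ G) (hO : ¬ Oe ends ω D Q G v) :
    ∃ x x' z, Hsh ends ω P G v x x' z := by
  classical
  have hvS : v ∈ (D ∪ Qᶜ)ᶜ := by
    rintro (h1 | h1)
    · exact hvD h1
    · exact h1 hvQ
  have hvB : v ∈ cS ends ω (D ∪ Qᶜ) {v} := (M7b_memB hvQ hvD).2 (Rch.refl v)
  obtain ⟨g1, hg1, g2, hg2, hne, F, F', hdis, hop, hr1, hr2⟩ := hPP
  obtain ⟨a1, ha1, _, hr1⟩ := mem_cS.1 hr1
  rw [Set.mem_singleton_iff] at ha1
  rw [ha1] at hr1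
  obtain ⟨a2, ha2, _, hr2⟩ := mem_cS.1 hr2
  rw [Set.mem_singleton_iff] at ha2
  rw [ha2] at hr2
  obtain ⟨p1, hp1, hD1, hE1⟩ := M7b_w1 (ω := ω) (fun e he => hop e (Finset.mem_union_left _ (by simpa using he))) hr1 hvD
  obtain ⟨p2, hp2, hD2, hE2⟩ := M7b_w1 (ω := ω) (fun e he => hop e (Finset.mem_union_right _ (by simpa using he))) hr2 hvD
  have hd : List.Disjoint p1.edges p2.edges := by
    intro s h1 h2
    obtain ⟨e, h3, h4⟩ := hE1 s h1
    obtain ⟨e', h5, h6⟩ := hE2 s h2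
    have h7 : e = e' := hinj (h4.trans h6.symm)
    subst h7
    exact Finset.disjoint_left.1 hdis (by simpa using h3) (by simpa using h5)
  have hB1 : g1 ∉ cS ends ω (D ∪ Qᶜ) {v} := fun h => hB g1 h hg1
  have hB2 : g2 ∉ cS ends ω (D ∪ Qᶜ) {v} := fun h => hB g2 h hg2
  have hBS : ∀ y ∈ cS ends ω (D ∪ Qᶜ) {v}, y ∈ (D ∪ Qᶜ)ᶜ := fun y hy => ((M7b_memB hvQ hvD).1 hy).mem' hvS
  by_cases hc : Rch ends ω (D ∪ ((cS ends ω (D ∪ Qᶜ) {v} : Finset V) : Set V))ᶜ g1 g2
  · have hg2S : g2 ∈ (D ∪ ((cS ends ω (D ∪ Qᶜ) {v} : Finset V) : Set V))ᶜ := by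
      rintro (h | h)
      · exact hD2 g2 p2.end_mem_support h
      · exact hB2 h
    obtain ⟨q, _, hqS, _⟩ := M7b_w1 (ω := ω) (fun _ h => h) hc.symm hg2S
    refine h_of p1 p2 hp1 hp2 hd hg1 hg2 q p2.end_mem_support p1.end_mem_support ?_
    intro x hx hxq
    refine M7b_w3 hP (p1.takeUntil x hx) hvQ ?_
    intro hall
    apply hqS x hxq
    right
    rw [Finset.mem_coe, M7b_memB hvQ hvD]
    refine M7b_w2 (p1.takeUntil x hx) (fun w hw => ?_) (fun s hs => M7b_adj _ s hs)
    rintro (h1 | h1)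
    · exact hD1 w (p1.support_takeUntil_subset_support hx hw) h1
    · exact h1 (hall w hw)
  -- the second case
  let ω1 : E → Bool := fun e => decide (ω e = true ∧ ∃ a b, a ∈ cS ends ω (D ∪ Qᶜ) {v} ∧ b ∉ D ∧ ends e = s(a, b))
  have hω1 : ∀ e, ω1 e = true ↔ (ω e = true ∧ ∃ a b, a ∈ cS ends ω (D ∪ Qᶜ) {v} ∧ b ∉ D ∧ ends e = s(a, b)) := by
    intro e
    simp only [ω1, decide_eq_true_eq]
  let N : V → Set V := fun g => {n | n ∉ cS ends ω (D ∪ Qᶜ) {v} ∧ n ∉ D ∧
    Rch ends ω (D ∪ ((cS ends ω (D ∪ Qᶜ) {v} : Finset V) : Set V))ᶜ n g ∧ ∃ m ∈ cS ends ω (D ∪ Qᶜ) {v}, ∃ e, ω e = true ∧ ends e = s(m, n)}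
  have hNQ : ∀ g n, n ∈ N g → n ∉ Q := by
    rintro g n ⟨h1, h2, _, m, h4, e, h5, h6⟩ hQ
    apply h1
    rw [M7b_memB hvQ hvD]
    refine Relation.ReflTransGen.tail ((M7b_memB hvQ hvD).1 h4) ⟨hBS m h4, ?_, e, h5, h6⟩
    rintro (h7 | h7)
    · exact h2 h7
    · exact h7 hQ
  have hNdis : ∀ x ∈ N g1, x ∉ N g2 := by
    rintro x ⟨_, _, h3, _⟩ ⟨_, _, h4, _⟩
    exact hc (h3.symm.trans h4)
  have hBω1 : ∀ (ω' : E → Bool) y, (∀ e, ω' e = true → ω e = true) → Rch ends ω' (D ∪ Qᶜ)ᶜ v y →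
      y ∈ cS ends ω (D ∪ Qᶜ) {v} := fun ω' y h1 h2 => (M7b_memB hvQ hvD).2 (h2.mono h1 (subset_refl _))
  have hin : ∀ g, g ∉ cS ends ω (D ∪ Qᶜ) {v} → (∃ p : (openG ends ω).Walk v g, ∀ w ∈ p.support, w ∉ D) →
      ∃ t ∈ N g, t ∈ cS ends ω1 D {v} := by
    rintro g hgB ⟨p, hpD⟩
    rcases M7b_w4 p hpD hgB with ⟨h, _⟩ | ⟨m, n, hm, hn, hnD, hmp, hmn, hr⟩
    · exact absurd hvB h
    obtain ⟨e, heo, hee⟩ := M7b_adj p _ hmn
    clear hmp
    refine ⟨n, ⟨hn, hnD, hr, m, hm, e, heo, hee⟩, ?_⟩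
    rw [mem_cS]
    refine ⟨v, rfl, hvD, ?_⟩
    have hvm : Rch ends ω1 Dᶜ v m := by
      have h2 := (M7b_memB hvQ hvD).1 hm
      clear hm hmn hee
      induction h2 with
      | refl => exact Rch.refl v
      | @tail c d h1 hcd ih =>
        obtain ⟨h3, h4, e2, h5, h6⟩ := hcd
        have hcB : c ∈ cS ends ω (D ∪ Qᶜ) {v} := (M7b_memB hvQ hvD).2 h1
        have hcD : c ∉ D := fun h => h3 (Or.inl h)
        have hdD : d ∉ D := fun h => h4 (Or.inl h)
        exact Relation.ReflTransGen.tail ih ⟨hcD, hdD, e2, (hω1 e2).2 ⟨h5, c, d, hcB, hdD, h6⟩, h6⟩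
    exact Relation.ReflTransGen.tail hvm ⟨fun h => hBS m hm (Or.inl h), hnD, e, (hω1 e).2 ⟨heo, m, n, hm, hnD, hee⟩, hee⟩
  by_cases hs : ∀ e, ω1 e = true → ∃ t, (t ∈ N g1 ∨ t ∈ N g2) ∧ t ∈ cS ends (Function.update ω1 e false) D {v}
  · exfalso
    obtain ⟨t, ht, t', ht', K, K', hKd, hKo, hKt, hKt'⟩ := menger_two hinj D v hvD (N g1) (N g2) hNdis
      (hin g1 hB1 ⟨p1, hD1⟩) (hin g2 hB2 ⟨p2, hD2⟩) hs
    have hXr : ∀ (K : Finset E), (∀ e ∈ K, ω1 e = true) → ∀ y, Rch ends (fun e => decide (e ∈ K)) Dᶜ v y →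
        (y ∈ Q ∧ Rch ends (fun e => decide (e ∈ K)) (D ∪ Qᶜ)ᶜ v y) ∨
        (y ∉ Q ∧ ∃ m, Rch ends (fun e => decide (e ∈ K)) (D ∪ Qᶜ)ᶜ v m ∧ m ∈ Q ∧ ∃ e ∈ K, ends e = s(m, y)) := by
      intro K hK y h
      induction h with
      | refl => exact Or.inl ⟨hvQ, Rch.refl v⟩
      | @tail c d _ hcd ih =>
        obtain ⟨h3, h4, e2, h5, h6⟩ := hcd
        have h5' : e2 ∈ K := by simpa using h5
        rcases ih with ⟨k1, k2⟩ | ⟨k1, m, k2, k3, e3, k4, k5⟩
        · by_cases hdQ : d ∈ Q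
          · left
            refine ⟨hdQ, Relation.ReflTransGen.tail k2 ⟨?_, ?_, e2, h5, h6⟩⟩
            · rintro (h | h)
              · exact h3 h
              · exact h k1
            · rintro (h | h)
              · exact h4 h
              · exact h hdQ
          · exact Or.inr ⟨hdQ, c, k2, k1, e2, h5', h6⟩
        · -- c is outside of Q
          obtain ⟨_, a, b, l1, l2, l3⟩ := (hω1 e2).1 (hK e2 h5')
          have haQ : a ∈ Q := by
            by_contra h
            exact hBS a l1 (Or.inr h)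
          have hac : a = d := by
            rw [h6, Sym2.eq_iff] at l3
            rcases l3 with ⟨l4, _⟩ | ⟨_, l5⟩
            · exact absurd haQ (l4 ▸ k1)
            · exact l5.symm
          have hdQ : d ∈ Q := hac ▸ haQ
          have he : e2 = e3 := hone c k1 e2 e3 d m (by rw [h6, Sym2.eq_swap]) k5 hdQ k3
          rw [← he, h6, Sym2.eq_iff] at k5
          rcases k5 with ⟨l4, _⟩ | ⟨_, l5⟩
          · exact absurd k3 (l4 ▸ k1)
          · left
            rw [l5]
            exact ⟨k3, k2⟩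
    have hXr2 : ∀ (K : Finset E) g t, (∀ e ∈ K, ω1 e = true) → t ∈ N g → t ∈ cS ends (fun e => decide (e ∈ K)) D {v} → Xr ends K D Q v t := by
      intro K g t hK hN hcl
      obtain ⟨a, ha, _, hr⟩ := mem_cS.1 hcl
      rw [Set.mem_singleton_iff] at ha
      rw [ha] at hr
      rcases hXr K hK t hr with ⟨k1, _⟩ | ⟨k1, m, k2, _, e3, k4, k5⟩
      · exact absurd k1 (hNQ g t hN)
      · exact ⟨hN.2.1, k1, m, (M7b_memB hvQ hvD).2 k2, e3, k4, k5⟩
    apply hO
    refine ⟨t, t', ⟨?_, K, K', hKd, ?_, ?_, ?_⟩, ?_, ?_, ?_⟩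
    · intro h
      exact hNdis t ht (h ▸ ht')
    · intro e he
      exact ((hω1 e).1 (hKo e he)).1
    · exact hXr2 K g1 t (fun e he => hKo e (Finset.mem_union_left _ he)) ht hKt
    · exact hXr2 K' g2 t' (fun e he => hKo e (Finset.mem_union_right _ he)) ht' hKt'
    · intro h
      obtain ⟨a, ha, _, hr⟩ := mem_cS.1 h
      rw [Set.mem_singleton_iff] at ha
      rw [ha] at hr
      exact hc (ht.2.2.1.symm.trans (hr.trans ht'.2.2.1))
    · refine ⟨g1, Finset.mem_inter.2 ⟨mem_cS.2 ⟨t, rfl, ?_, ht.2.2.1⟩, hg1⟩⟩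
      rintro (h | h)
      · exact ht.2.1 h
      · exact ht.1 h
    · refine ⟨g2, Finset.mem_inter.2 ⟨mem_cS.2 ⟨t', rfl, ?_, ht'.2.2.1⟩, hg2⟩⟩
      rintro (h | h)
      · exact ht'.2.1 h
      · exact ht'.1 h
  push Not at hs
  obtain ⟨e0, he01, he02⟩ := hs
  have hsep : ∀ m n e, Rch ends (Function.update ω e0 false) (D ∪ Qᶜ)ᶜ v m → n ∉ cS ends ω (D ∪ Qᶜ) {v} → n ∉ D →
      (Rch ends ω (D ∪ ((cS ends ω (D ∪ Qᶜ) {v} : Finset V) : Set V))ᶜ n g1 ∨
        Rch ends ω (D ∪ ((cS ends ω (D ∪ Qᶜ) {v} : Finset V) : Set V))ᶜ n g2) → ω e = true → ends e = s(m, n) → e = e0 := by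
    intro m n e hm hn hnD hor heo hee
    by_contra hne0
    have hmB : m ∈ cS ends ω (D ∪ Qᶜ) {v} := hBω1 _ m (fun e he => (M7b_upd he).1) hm
    have hnN : n ∈ N g1 ∨ n ∈ N g2 := by
      rcases hor with h | h
      · exact Or.inl ⟨hn, hnD, h, m, hmB, e, heo, hee⟩
      · exact Or.inr ⟨hn, hnD, h, m, hmB, e, heo, hee⟩
    apply he02 n hnN
    rw [mem_cS]
    refine ⟨v, rfl, hvD, ?_⟩
    have hvm : Rch ends (Function.update ω1 e0 false) Dᶜ v m := by
      clear hmB hnN hee
      induction hm with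
      | refl => exact Rch.refl v
      | @tail c d h1 hcd ih =>
        obtain ⟨h3, h4, e2, h5, h6⟩ := hcd
        have hcB : c ∈ cS ends ω (D ∪ Qᶜ) {v} := hBω1 _ c (fun e he => (M7b_upd he).1) h1
        have hcD : c ∉ D := fun h => h3 (Or.inl h)
        have hdD : d ∉ D := fun h => h4 (Or.inl h)
        obtain ⟨h7, h8⟩ := M7b_upd h5
        refine Relation.ReflTransGen.tail ih ⟨hcD, hdD, e2, ?_, h6⟩
        rw [Function.update_of_ne h8]
        exact (hω1 e2).2 ⟨h7, c, d, hcB, hdD, h6⟩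
    refine Relation.ReflTransGen.tail hvm ⟨fun h => hBS m hmB (Or.inl h), hnD, e, ?_, hee⟩
    rw [Function.update_of_ne hne0]
    exact (hω1 e).2 ⟨heo, m, n, hmB, hnD, hee⟩
  by_cases hu : ends e0 ∈ p1.edges
  · refine M7b_fin hinj hvQ hvD hP e0 p2 p1 hp2 hp1 hd.symm hg2 hg1 hD2 hD1 (fun h => hd hu h) hB2 hB1 ?_
    intro m n e h1 h2 h3 h4 h5 h6
    exact hsep m n e h1 h2 h3 h4.symm h5 h6
  · exact M7b_fin hinj hvQ hvD hP e0 p1 p2 hp1 hp2 hd hg1 hg2 hD1 hD2 hu hB1 hB2 hsep

end Pool.Agent.PERC29.DZ
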