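import Pool.Agent.Lib.MP_29e17e_pr.Z.Gb
import Pool.Agent.Lib.MP_29e17e_pr.Z.Mg

namespace Pool.Agent.PERC29
end Pool.Agent.PERC29
namespace Pool.Agent.PERC29.AE
end Pool.Agent.PERC29.AE

set_option autoImplicit false
set_option linter.unusedSectionVars false

/-! Rows 29d-H1 .. 29d-H9, J1, J2: at least two green vertices, general finite graph. -/

open Finset

namespace Pool.Agent.PERC29.DZ

open Pool.Agent.PERC29 Pool.Agent.PERC29.AE

variable {V : Type*} [Fintype V] [DecidableEq V] {E : Type*} [Fintype E] [DecidableEq E]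
  {ends : E → Sym2 V}

/-- The probability of at least two green vertices among `k`. -/
noncomputable def g2 (h : ℝ) (k : ℕ) : ℝ := gh h k - h * (1 - h)⁻¹ * fh h k

private lemma H1_split (h : ℝ) (S : Finset V) (a f : Finset V → ℝ) :
    ∑ G : Finset V, gw h G * (a (G ∩ S) * f (G \ S)) =
      (∑ A ∈ S.powerset, h ^ A.card * (1 - h) ^ (S.card - A.card) * a A) *
        ∑ B ∈ Sᶜ.powerset, h ^ B.card * (1 - h) ^ (Sᶜ.card - B.card) * f B := by
  rw [Finset.sum_mul_sum, ← Finset.sum_product']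
  refine Finset.sum_nbij' (fun G => (G ∩ S, G \ S)) (fun q => q.1 ∪ q.2) ?_ ?_ ?_ ?_ ?_
  · intro G _
    rw [Finset.mem_product, Finset.mem_powerset, Finset.mem_powerset]
    refine ⟨Finset.inter_subset_right, fun x hx => ?_⟩
    rw [Finset.mem_compl]
    exact (Finset.mem_sdiff.1 hx).2
  · intro q _
    exact Finset.mem_univ _
  · intro G _
    exact (Finset.union_comm _ _).trans (Finset.sdiff_union_inter G S)
  · rintro ⟨A, B⟩ hq
    rw [Finset.mem_product, Finset.mem_powerset, Finset.mem_powerset] at hq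
    have h1 : A ⊆ S := hq.1
    have h2 : B ⊆ Sᶜ := hq.2
    refine Prod.ext ?_ ?_
    · ext x
      simp only [Finset.mem_inter, Finset.mem_union]
      refine ⟨?_, fun hx => ⟨Or.inl hx, h1 hx⟩⟩
      rintro ⟨hx | hx, hS⟩
      · exact hx
      · exact absurd hS (Finset.mem_compl.1 (h2 hx))
    · ext x
      simp only [Finset.mem_sdiff, Finset.mem_union]
      refine ⟨?_, fun hx => ⟨Or.inr hx, Finset.mem_compl.1 (h2 hx)⟩⟩
      rintro ⟨hx | hx, hS⟩
      · exact absurd (h1 hx) hS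
      · exact hx
  · intro G _
    have h1 : (G ∩ S).card + (G \ S).card = G.card := Finset.card_inter_add_card_sdiff G S
    have h2 : (G ∩ S).card ≤ S.card := Finset.card_le_card Finset.inter_subset_right
    have h3 : (G \ S).card ≤ Sᶜ.card := Finset.card_le_card fun x hx => by
      rw [Finset.mem_compl]
      exact (Finset.mem_sdiff.1 hx).2
    have h4 : S.card + Sᶜ.card = Fintype.card V := Finset.card_add_card_compl S
    have h5 : Fintype.card V - G.card = (S.card - (G ∩ S).card) + (Sᶜ.card - (G \ S).card) := by omega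
    show gw h G * (a (G ∩ S) * f (G \ S)) = h ^ (G ∩ S).card * (1 - h) ^ (S.card - (G ∩ S).card) * a (G ∩ S) *
      (h ^ (G \ S).card * (1 - h) ^ (Sᶜ.card - (G \ S).card) * f (G \ S))
    unfold gw
    rw [h5, pow_add, ← h1, pow_add]
    ring

private lemma H1_one (h : ℝ) (S : Finset V) : ∑ A ∈ S.powerset, h ^ A.card * (1 - h) ^ (S.card - A.card) = 1 := by
  rw [Finset.sum_pow_mul_eq_add_pow]
  simp

private lemma H1_card (h : ℝ) (S : Finset V) (j : ℕ) :
    ∑ A ∈ S.powerset, h ^ A.card * (1 - h) ^ (S.card - A.card) * (if A.card = j then (1 : ℝ) else 0) =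
      (S.card.choose j : ℝ) * (h ^ j * (1 - h) ^ (S.card - j)) := by
  have h1 : ∀ A ∈ S.powerset, h ^ A.card * (1 - h) ^ (S.card - A.card) * (if A.card = j then (1 : ℝ) else 0) =
      if A.card = j then h ^ j * (1 - h) ^ (S.card - j) else 0 := by
    intro A _
    by_cases hA : A.card = j
    · rw [if_pos hA, if_pos hA, hA, mul_one]
    · rw [if_neg hA, if_neg hA, mul_zero]
  rw [Finset.sum_congr rfl h1, ← Finset.sum_filter, ← Finset.powersetCard_eq_filter, Finset.sum_const,
    Finset.card_powersetCard, nsmul_eq_mul]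

open scoped Classical in
/-- Row H1. As `ghost` in `Ave.lean`: `∑_G gw h G 1(G ∩ C = ∅) = (1-h)^|C|`, `∑_G gw h G 1(|G ∩ C| = 1) = |C| h (1-h)^(|C|-1)` (sum over the element `c ∈ C` of `G ∩ C`: `∑_G gw h G 1(c ∈ G, G ∩ C \ {c} = ∅)`). -/
lemma ghost2 {h : ℝ} (hh : h ≠ 1) (C : Finset V) : ∑ G : Finset V, gw h G * (if 2 ≤ (C ∩ G).card then (1 : ℝ) else 0) = g2 h C.card := by
  have h1 := H1_split h C (fun A => if 2 ≤ A.card then (1 : ℝ) else 0) (fun _ => 1)
  simp only [mul_one] at h1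
  rw [H1_one, mul_one] at h1
  have h2 : ∑ G : Finset V, gw h G * (if 2 ≤ (C ∩ G).card then (1 : ℝ) else 0) =
      ∑ G : Finset V, gw h G * (if 2 ≤ (G ∩ C).card then (1 : ℝ) else 0) :=
    Finset.sum_congr rfl fun G _ => by rw [Finset.inter_comm]
  rw [h2, h1]
  have h3 : ∀ A ∈ C.powerset, h ^ A.card * (1 - h) ^ (C.card - A.card) * (if 2 ≤ A.card then (1 : ℝ) else 0) =
      h ^ A.card * (1 - h) ^ (C.card - A.card) - h ^ A.card * (1 - h) ^ (C.card - A.card) * (if A.card = 0 then (1 : ℝ) else 0) -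
        h ^ A.card * (1 - h) ^ (C.card - A.card) * (if A.card = 1 then (1 : ℝ) else 0) := by
    intro A _
    by_cases h0 : A.card = 0
    · rw [if_neg (by omega), if_pos h0, if_neg (by omega)]
      ring
    · by_cases h1 : A.card = 1
      · rw [if_neg (by omega), if_neg h0, if_pos h1]
        ring
      · rw [if_pos (by omega), if_neg h0, if_neg h1]
        ring
  rw [Finset.sum_congr rfl h3, Finset.sum_sub_distrib, Finset.sum_sub_distrib, H1_one, H1_card, H1_card]
  unfold g2 gh fh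
  have h4 : (1 - h) ≠ 0 := sub_ne_zero.2 (Ne.symm hh)
  rcases Nat.eq_zero_or_pos C.card with hC | hC
  · rw [hC]
    simp
  · have h5 : (1 - h) ^ C.card = (1 - h) ^ (C.card - 1) * (1 - h) := by
      rw [← pow_succ]
      congr 1
      omega
    rw [Nat.choose_zero_right, Nat.choose_one_right, Nat.sub_zero, h5]
    field_simp
    push_cast
    ring

open scoped Classical in
/-- Row H1. `gh h |C|` as a sum over the green sets (`ghost`, `gw_sum`). -/
lemma ghost1 (h : ℝ) (C : Finset V) : ∑ G : Finset V, gw h G * (if (C ∩ G).Nonempty then (1 : ℝ) else 0) = gh h C.card := by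
  have e : gh h C.card = ∑ B : Finset V, gw h B - ∑ B : Finset V, gw h B * (if ∃ b ∈ B, b ∈ C then 0 else 1) := by
    rw [ghost h C, gw_sum, gh]
  rw [e, ← Finset.sum_sub_distrib]
  refine Finset.sum_congr rfl fun G _ => ?_
  by_cases hG : ∃ b ∈ G, b ∈ C
  · rw [if_pos hG, if_pos]
    · ring
    · obtain ⟨b, hb, hbC⟩ := hG
      exact ⟨b, Finset.mem_inter.2 ⟨hbC, hb⟩⟩
  · rw [if_neg hG, if_neg]
    · ring
    · rintro ⟨b, hb⟩
      exact hG ⟨b, (Finset.mem_inter.1 hb).2, (Finset.mem_inter.1 hb).1⟩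

open scoped Classical in
/-- Row H1. Independence: if `f G` depends only on `G \ S`: `∑_G gw h G 1(S ∩ G = ∅) f G = (1-h)^|S| ∑_G gw h G f G`. (Write `G = G1 ∪ G2` with `G1 ⊆ S`, `G2 ⊆ Sᶜ`.) -/
lemma ghost_ind (h : ℝ) (S : Finset V) (f : Finset V → ℝ) (hf : ∀ G G' : Finset V, G \ S = G' \ S → f G = f G') :
    ∑ G : Finset V, gw h G * ((if Disjoint S G then (1 : ℝ) else 0) * f G) = (1 - h) ^ S.card * ∑ G : Finset V, gw h G * f G := by
  have hf' : ∀ G : Finset V, f G = f (G \ S) := fun G => hf _ _ (by rw [Finset.sdiff_idem])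
  have h1 := H1_split h S (fun A => if A.card = 0 then (1 : ℝ) else 0) f
  have h2 := H1_split h S (fun _ => 1) f
  simp only [mul_one, one_mul] at h2
  rw [H1_one, one_mul] at h2
  have h3 := H1_card h S 0
  rw [h3, ← h2] at h1
  have h4 : ∑ G : Finset V, gw h G * f G = ∑ G : Finset V, gw h G * f (G \ S) :=
    Finset.sum_congr rfl fun G _ => by rw [← hf' G]
  rw [h4, Nat.choose_zero_right, Nat.sub_zero, pow_zero, Nat.cast_one, one_mul, one_mul] at *
  rw [← h1]
  refine Finset.sum_congr rfl fun G _ => ?_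
  rw [← hf' G]
  congr 2
  by_cases hG : Disjoint S G
  · rw [if_pos hG, if_pos]
    rw [Finset.card_eq_zero, Finset.inter_comm]
    exact Finset.disjoint_iff_inter_eq_empty.1 hG
  · rw [if_neg hG, if_neg]
    intro h5
    rw [Finset.card_eq_zero, Finset.inter_comm] at h5
    exact hG (Finset.disjoint_iff_inter_eq_empty.2 h5)

open scoped Classical in
/-- The probability of `D2e`, over the configuration and the green vertices. -/
noncomputable def D2 (ends : E → Sym2 V) (p h : ℝ) (Z : Set V) (u : V) : ℝ :=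
  ∑ G : Finset V, gw h G * Ex p (fun ω => if D2e ends ω Z G u then (1 : ℝ) else 0)

open scoped Classical in
/-- The local term. -/
noncomputable def BT (ends : E → Sym2 V) (p h : ℝ) (u : V) : ℝ :=
  Ex p (fun ω => ∑ v, (if (∃ e, ends e = s(u, v)) ∧ v ∉ cu ends ω u then fh h (cu ends ω u).card * D2 ends p h (cu ends ω u : Set V) v else (0 : ℝ)))

private lemma H2_upd {ω : E → Bool} {e f : E} (h : Function.update ω e false f = true) : f ≠ e ∧ ω f = true := by
  by_cases hfe : f = e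
  · subst hfe
    rw [Function.update_self] at h
    exact absurd h (by simp)
  · rw [Function.update_of_ne hfe] at h
    exact ⟨hfe, h⟩

private lemma H2_upd' {ω : E → Bool} {e f : E} (h1 : f ≠ e) (h2 : ω f = true) : Function.update ω e false f = true := by
  rw [Function.update_of_ne h1]
  exact h2

private lemma H2_step {ω : E → Bool} {x y z : V} {f : E} (h : y ∈ cu ends ω x) (hf : ω f = true) (he : ends f = s(y, z)) :
    z ∈ cu ends ω x :=
  mem_cu.2 (Relation.ReflTransGen.tail (mem_cu.1 h) ⟨Set.mem_univ _, Set.mem_univ _, f, hf, he⟩)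

private lemma H2_ind {ω : E → Bool} {x : V} (P : V → Prop) (h0 : P x)
    (hs : ∀ y z f, y ∈ cu ends ω x → P y → ω f = true → ends f = s(y, z) → P z) : ∀ y ∈ cu ends ω x, P y := by
  intro y hy
  have hr := mem_cu.1 hy
  clear hy
  induction hr with
  | refl => exact h0
  | tail hab hbc ih =>
    obtain ⟨_, _, f, hf, he⟩ := hbc
    exact hs _ _ f (mem_cu.2 hab) ih hf he

private lemma H2_sub {ω : E → Bool} {Z : Set V} {u y : V} (h : y ∈ cS ends ω Z {u}) : y ∈ cu ends ω u := by
  obtain ⟨a, ha, _, hr⟩ := mem_cS.1 h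
  rw [Set.mem_singleton_iff] at ha
  subst ha
  exact mem_cu.2 (Rch.mono (fun _ h => h) (Set.subset_univ _) hr)

private lemma H2_cu (ω : E → Bool) (x : V) : cS ends ω ∅ {x} = cu ends ω x := by
  ext y
  constructor
  · exact H2_sub
  · intro h
    refine mem_cS.2 ⟨x, Set.mem_singleton x, Set.notMem_empty x, ?_⟩
    exact Rch.mono (fun _ h => h) (fun _ _ => Set.notMem_empty _) (mem_cu.1 h)

private lemma H2_split {ω : E → Bool} {S : Finset V} {e : E} {u' u x : V} (he : ends e = s(u', u)) (hu : u ∉ S)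
    (hb : ∀ f a b, f ≠ e → ω f = true → ends f = s(a, b) → a ∈ S → b ∈ S) (hx : x ∈ S) :
    ∀ y ∈ cu ends ω x, y ∈ S ∨ y ∈ cS ends ω (S : Set V) {u} := by
  refine H2_ind _ (Or.inl hx) ?_
  intro y z f _ hP hf hef
  by_cases hz : z ∈ S
  · exact Or.inl hz
  · rcases hP with hy | hy
    · by_cases hfe : f = e
      · subst hfe
        rw [he, Sym2.eq_iff] at hef
        rcases hef with ⟨_, h2⟩ | ⟨_, h2⟩
        · right
          rw [← h2]
          exact mem_cS.2 ⟨u, Set.mem_singleton u, by simpa using hu, Rch.refl u⟩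
        · exact absurd (h2 ▸ hy) hu
      · exact Or.inl (hb f y z hfe hf hef hy)
    · exact Or.inr (cS_step hy f hef hf (by simpa using hz))

private lemma H2_ne {ω : E → Bool} {G : Finset V} {x u' u u1' u1 : V} {e e1 : E}
    (he : ends e = s(u', u)) (ho : ω e = true) (hx : x ∈ cu ends (Function.update ω e false) u')
    (hd : Disjoint (cu ends (Function.update ω e false) u') G) (hD : D2e ends ω (cu ends (Function.update ω e false) u' : Set V) G u)
    (he1 : ends e1 = s(u1', u1)) (ho1 : ω e1 = true) (hx1 : x ∈ cu ends (Function.update ω e1 false) u1')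
    (hd1 : Disjoint (cu ends (Function.update ω e1 false) u1') G)
    (hD1 : D2e ends ω (cu ends (Function.update ω e1 false) u1' : Set V) G u1) (hne : e ≠ e1) : False := by
  have hA : u ∉ cu ends (Function.update ω e1 false) u1' := by
    intro hu
    obtain ⟨g, hg⟩ := hD.2 e1 ho1
    rw [Finset.mem_inter] at hg
    have h1 := H2_sub hg.1
    rw [cu_eq hu] at h1
    exact Finset.disjoint_left.mp hd1 h1 hg.2
  have hB : u1 ∉ cu ends (Function.update ω e false) u' := by
    intro hu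
    obtain ⟨g, hg⟩ := hD1.2 e ho
    rw [Finset.mem_inter] at hg
    have h1 := H2_sub hg.1
    rw [cu_eq hu] at h1
    exact Finset.disjoint_left.mp hd h1 hg.2
  have hC : ∀ y ∈ cu ends (Function.update ω e false) x, y ∈ cu ends (Function.update ω e1 false) u1' := by
    refine H2_ind _ hx1 ?_
    intro y z f hy hP hf hef
    obtain ⟨_, hf2⟩ := H2_upd hf
    by_cases hfe : f = e1
    · subst hfe
      have hef' := hef
      rw [he1, Sym2.eq_iff] at hef
      rcases hef with ⟨_, h2⟩ | ⟨h1, _⟩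
      · exfalso
        have h3 := H2_step hy hf hef'
        rw [cu_eq hx, ← h2] at h3
        exact hB h3
      · rw [← h1]
        exact self_mem_cu _ _
    · exact H2_step hP (H2_upd' hfe hf2) hef
  exact hA (H2_step (hC u' (cu_symm.1 hx)) (H2_upd' hne ho) he)

private lemma H2_ex {ω : E → Bool} {G : Finset V} {x : V} (h2 : 2 ≤ (cu ends ω x ∩ G).card) (hn : ¬ D2e ends ω ∅ G x) :
    ∃ u' u e, ends e = s(u', u) ∧ ω e = true ∧ x ∈ cu ends (Function.update ω e false) u' ∧ u ∉ cu ends (Function.update ω e false) u' ∧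
        Disjoint (cu ends (Function.update ω e false) u') G ∧ D2e ends ω (cu ends (Function.update ω e false) u' : Set V) G u := by
  classical
  have h0 : ∃ e0, ω e0 = true ∧ Disjoint (cu ends (Function.update ω e0 false) x) G := by
    by_contra hcon
    refine hn ⟨by rw [H2_cu]; exact h2, fun e he => ?_⟩
    rw [H2_cu]
    by_contra hne
    exact hcon ⟨e, he, Finset.disjoint_iff_inter_eq_empty.mpr (Finset.not_nonempty_iff_eq_empty.mp hne)⟩
  obtain ⟨e0, he0, hd0⟩ := h0
  obtain ⟨e, heT, hmax⟩ := Finset.exists_max_image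
    (Finset.univ.filter (fun e => ω e = true ∧ Disjoint (cu ends (Function.update ω e false) x) G))
    (fun e => (cu ends (Function.update ω e false) x).card) ⟨e0, by simp [he0, hd0]⟩
  rw [Finset.mem_filter] at heT
  obtain ⟨_, ho, hd⟩ := heT
  set S := cu ends (Function.update ω e false) x with hS
  have hxS : x ∈ S := self_mem_cu _ _
  have hb : ∀ f a b, f ≠ e → ω f = true → ends f = s(a, b) → a ∈ S → b ∈ S :=
    fun f a b hfe hf hef ha => H2_step ha (H2_upd' hfe hf) hef
  have hkey : ∃ u' u, ends e = s(u', u) ∧ u' ∈ S ∧ u ∉ S := by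
    by_contra hcon
    have hcl : ∀ y ∈ cu ends ω x, y ∈ S := by
      refine H2_ind _ hxS ?_
      intro y z f _ hP hf hef
      by_cases hfe : f = e
      · subst hfe
        by_contra hz
        exact hcon ⟨y, z, hef, hP, hz⟩
      · exact hb f y z hfe hf hef hP
    have h3 : cu ends ω x ∩ G = ∅ := by
      rw [← Finset.disjoint_iff_inter_eq_empty]
      exact Finset.disjoint_of_subset_left (fun y hy => hcl y hy) hd
    rw [h3] at h2
    simp at h2
  obtain ⟨u', u, he, hu', hu⟩ := hkey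
  have hSu : cu ends (Function.update ω e false) u' = S := cu_eq hu'
  refine ⟨u', u, e, he, ho, by rw [hSu]; exact hxS, by rw [hSu]; exact hu, by rw [hSu]; exact hd, ?_⟩
  rw [hSu]
  have hfirst : 2 ≤ (cS ends ω (S : Set V) {u} ∩ G).card := by
    refine h2.trans (Finset.card_le_card ?_)
    intro y hy
    rw [Finset.mem_inter] at hy ⊢
    rcases H2_split he hu hb hxS y hy.1 with h | h
    · exact absurd hy.2 (Finset.disjoint_left.mp hd h)
    · exact ⟨h, hy.2⟩
  refine ⟨hfirst, fun e' ho' => ?_⟩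
  by_contra hne
  by_cases hend : ∃ a b, ends e' = s(a, b) ∧ a ∈ S
  · obtain ⟨a, b, hab, haS⟩ := hend
    have hdep : cS ends (Function.update ω e' false) (S : Set V) {u} = cS ends ω (S : Set V) {u} := by
      refine cS_dep ?_
      intro f y z hef hy hz
      by_cases hfe : f = e'
      · subst hfe
        exfalso
        have hyS := cS_off hy
        rw [hab, Sym2.eq_iff] at hef
        rcases hef with ⟨h1, _⟩ | ⟨h1, _⟩
        · exact hyS (by rw [← h1]; exact haS)
        · exact hz (by rw [← h1]; exact haS)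
      · rw [Function.update_of_ne hfe]
    rw [hdep] at hne
    refine hne (Finset.card_pos.mp ?_)
    omega
  · have hnend : ∀ a b, ends e' = s(a, b) → a ∉ S := fun a b hab ha => hend ⟨a, b, hab, ha⟩
    have hSsub : ∀ y ∈ cu ends (Function.update ω e false) x, y ∈ cu ends (Function.update ω e' false) x := by
      refine H2_ind _ (self_mem_cu _ _) ?_
      intro y z f hy hP hf hef
      have hfe' : f ≠ e' := by
        rintro rfl
        exact hnend y z hef hy
      exact H2_step hP (H2_upd' hfe' (H2_upd hf).2) hef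
    have hee : e ≠ e' := by
      rintro rfl
      exact hnend u' u he hu'
    have huc : u ∈ cu ends (Function.update ω e' false) x := H2_step (hSsub u' hu') (H2_upd' hee ho) he
    have hspl := H2_split (ω := Function.update ω e' false) he hu
      (fun f a b hfe hf hef ha => hb f a b hfe (H2_upd hf).2 hef ha) hxS
    have hdis : Disjoint (cu ends (Function.update ω e' false) x) G := by
      rw [Finset.disjoint_left]
      intro y hy hyG
      rcases hspl y hy with h | h
      · exact Finset.disjoint_left.mp hd h hyG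
      · exact hne ⟨y, Finset.mem_inter.mpr ⟨h, hyG⟩⟩
    have hle := hmax e' (by rw [Finset.mem_filter]; exact ⟨Finset.mem_univ _, ho', hdis⟩)
    have hlt : S.card < (cu ends (Function.update ω e' false) x).card := by
      refine Finset.card_lt_card ⟨fun y hy => hSsub y hy, fun hsub => hu (hsub huc)⟩
    omega

open scoped Classical in
/-- Row H2. The last separating edge, deterministic. `S e u' = cu (update ω e false) u'`. UNIQUENESS: if `e = (u',u)` and `e1 = (u1',u1)` both satisfy the conditions. Same edge, other orientation: `x` in the cluster of `u'` and in the one of `u` in `ω - e`: then `u ∈ S`, contradiction. Different edges: if `e1` has no end in `S` then `x` is joined inside `S` to `u'`, by `e`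
to `u`, and from `u` off `S` without `e1` to a green vertex (`D2e ω S G u`): so in `ω - e1` the cluster of `x` contains a green vertex, but it is `S1`. So `e1` has an end in `S`, and both (an open edge other than `e` with an end in `S` has both ends in `S`). By symmetry `e` has both ends in `S1`. Then `u ∈ S1`, and from `u` off `S` there is a path to a green vertex, it does not use `e1`: green vertex in `S1`, contradiction.
`D2e ω ∅ G x` excludes all of them (`S ∩ G = ∅` for `e`: in `ω - e` no green vertex is joined to `x`). EXISTENCE: if `|cu ω x ∩ G| ≥ 2` but not `D2e`: among the open edges `e` such that `cu (ω - e) x` contains no green vertex take one with `cu (ω - e) x` of maximal size, `S` this set. `e = (u',u)` with `u' ∈ S`, `u ∉ S`. `cu ω x = S ∪ cS ω S {u}`, so `|cS ω S {u} ∩ G| ≥ 2`; an open edge `e'`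
(not touching `S`) which separates `u` from the green vertices off `S` would give the larger set `cu (ω - e') x ⊇ S ∪ {u}` without green vertices. CONVERSELY each alternative implies `|cu ω x ∩ G| ≥ 2`. -/
lemma last_edge (hinj : Function.Injective ends) (ω : E → Bool) (G : Finset V) (x : V) :
    (if 2 ≤ (cu ends ω x ∩ G).card then (1 : ℝ) else 0) = (if D2e ends ω ∅ G x then (1 : ℝ) else 0) +
      ∑ u', ∑ u, ∑ e, (if ends e = s(u', u) ∧ ω e = true ∧ x ∈ cu ends (Function.update ω e false) u' ∧ u ∉ cu ends (Function.update ω e false) u' ∧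
        Disjoint (cu ends (Function.update ω e false) u') G ∧ D2e ends ω (cu ends (Function.update ω e false) u' : Set V) G u then (1 : ℝ) else 0) := by
  by_cases h2 : 2 ≤ (cu ends ω x ∩ G).card
  · rw [if_pos h2]
    by_cases hD : D2e ends ω ∅ G x
    · rw [if_pos hD]
      have hz : ∀ u' u e, ¬ (ends e = s(u', u) ∧ ω e = true ∧ x ∈ cu ends (Function.update ω e false) u' ∧ u ∉ cu ends (Function.update ω e false) u' ∧
          Disjoint (cu ends (Function.update ω e false) u') G ∧ D2e ends ω (cu ends (Function.update ω e false) u' : Set V) G u) := by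
        rintro u' u e ⟨_, ho, hx, _, hd, _⟩
        have h3 := hD.2 e ho
        rw [H2_cu, cu_eq hx] at h3
        obtain ⟨g, hg⟩ := h3
        rw [Finset.mem_inter] at hg
        exact Finset.disjoint_left.mp hd hg.1 hg.2
      rw [Finset.sum_eq_zero fun u' _ => Finset.sum_eq_zero fun u _ => Finset.sum_eq_zero fun e _ => if_neg (hz u' u e), add_zero]
    · rw [if_neg hD, zero_add]
      obtain ⟨u', u, e, he, ho, hx, hu, hd, hDD⟩ := H2_ex h2 hD
      have huniq : ∀ v' v f, (ends f = s(v', v) ∧ ω f = true ∧ x ∈ cu ends (Function.update ω f false) v' ∧ v ∉ cu ends (Function.update ω f false) v' ∧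
          Disjoint (cu ends (Function.update ω f false) v') G ∧ D2e ends ω (cu ends (Function.update ω f false) v' : Set V) G v) → v' = u' ∧ v = u ∧ f = e := by
        rintro v' v f ⟨hf, hof, hxf, hvf, hdf, hDf⟩
        by_cases hfe : f = e
        · subst hfe
          have hf' := hf
          rw [he, Sym2.eq_iff] at hf
          rcases hf with ⟨h1, h3⟩ | ⟨h1, h3⟩
          · exact ⟨h1.symm, h3.symm, rfl⟩
          · exfalso
            subst h1
            subst h3
            exact hu (by rw [← cu_eq hx]; exact cu_symm.1 hxf)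
        · exact (H2_ne he ho hx hd hDD hf hof hxf hdf hDf (fun h => hfe h.symm)).elim
      rw [Finset.sum_eq_single u', Finset.sum_eq_single u, Finset.sum_eq_single e, if_pos ⟨he, ho, hx, hu, hd, hDD⟩]
      · intro f _ hfe
        exact if_neg fun hc => hfe (huniq u' u f hc).2.2
      · intro hh
        exact absurd (Finset.mem_univ _) hh
      · intro v _ hv
        exact Finset.sum_eq_zero fun f _ => if_neg fun hc => hv (huniq u' v f hc).2.1
      · intro hh
        exact absurd (Finset.mem_univ _) hh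
      · intro v' _ hv'
        exact Finset.sum_eq_zero fun v _ => Finset.sum_eq_zero fun f _ => if_neg fun hc => hv' (huniq v' v f hc).1
      · intro hh
        exact absurd (Finset.mem_univ _) hh
  · rw [if_neg h2]
    have hD : ¬ D2e ends ω ∅ G x := by
      intro hD
      have := hD.1
      rw [H2_cu] at this
      exact h2 this
    have hz : ∀ u' u e, ¬ (ends e = s(u', u) ∧ ω e = true ∧ x ∈ cu ends (Function.update ω e false) u' ∧ u ∉ cu ends (Function.update ω e false) u' ∧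
        Disjoint (cu ends (Function.update ω e false) u') G ∧ D2e ends ω (cu ends (Function.update ω e false) u' : Set V) G u) := by
      rintro u' u e ⟨he, ho, hx, _, _, hDD⟩
      refine h2 (hDD.1.trans (Finset.card_le_card ?_))
      have hle : ∀ f, Function.update ω e false f = true → ω f = true := fun f hf => (H2_upd hf).2
      have hx' : u' ∈ cu ends ω x := mem_cu.2 (Rch.mono hle (fun _ h => h) (mem_cu.1 (cu_symm.1 hx)))
      have hux : u ∈ cu ends ω x := H2_step hx' ho he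
      intro y hy
      rw [Finset.mem_inter] at hy ⊢
      refine ⟨?_, hy.2⟩
      rw [← cu_eq hux]
      exact H2_sub hy.1
    rw [if_neg hD, Finset.sum_eq_zero fun u' _ => Finset.sum_eq_zero fun u _ => Finset.sum_eq_zero fun e _ => if_neg (hz u' u e), add_zero]

private lemma H3a_cS {ω ω' : E → Bool} {A : Set V} (u : V) (h : ∀ e, (∀ v ∈ ends e, v ∉ A) → ω e = ω' e) :
    cS ends ω' A {u} = cS ends ω A {u} := by
  apply cS_dep
  intro e a b he ha hb
  apply h
  intro v hv
  rw [he, Sym2.mem_iff] at hv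
  rcases hv with rfl | rfl
  · exact cS_off ha
  · exact hb

private lemma H3a_D2e {ω ω' : E → Bool} {A : Set V} (G : Finset V) (u : V) (h : ∀ e, (∀ v ∈ ends e, v ∉ A) → ω e = ω' e)
    (hD : D2e ends ω A G u) : D2e ends ω' A G u := by
  obtain ⟨h2, h3⟩ := hD
  have h4 : 2 ≤ (cS ends ω' A {u} ∩ G).card := by
    rw [H3a_cS u h]
    exact h2
  refine ⟨h4, ?_⟩
  intro e' he'
  by_cases hA : ∀ v ∈ ends e', v ∉ A
  · have h5 := h3 e' (by rw [h e' hA]; exact he')
    rw [H3a_cS (ω := Function.update ω e' false) (ω' := Function.update ω' e' false) u]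
    · exact h5
    · intro e'' he''
      by_cases hee : e'' = e'
      · subst hee
        rw [Function.update_self, Function.update_self]
      · rw [Function.update_of_ne hee, Function.update_of_ne hee]
        exact h e'' he''
  · rw [H3a_cS (ω := ω') (ω' := Function.update ω' e' false) u]
    · exact Finset.card_pos.1 (by omega)
    · intro e'' he''
      have hee : e'' ≠ e' := by
        rintro rfl
        exact hA he''
      rw [Function.update_of_ne hee]

private lemma H3a_G {ω : E → Bool} {A : Finset V} {G G' : Finset V} (u : V) (h : G \ A = G' \ A) :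
    D2e ends ω (A : Set V) G u ↔ D2e ends ω (A : Set V) G' u := by
  have hint : ∀ (ω'' : E → Bool) (G'' : Finset V), cS ends ω'' (A : Set V) {u} ∩ G'' = cS ends ω'' (A : Set V) {u} ∩ (G'' \ A) := by
    intro ω'' G''
    ext y
    rw [Finset.mem_inter, Finset.mem_inter, Finset.mem_sdiff]
    constructor
    · rintro ⟨h1, h2⟩
      exact ⟨h1, h2, fun h3 => cS_off h1 (Finset.mem_coe.2 h3)⟩
    · rintro ⟨h1, h2, -⟩
      exact ⟨h1, h2⟩
  have heq : ∀ ω'' : E → Bool, cS ends ω'' (A : Set V) {u} ∩ G = cS ends ω'' (A : Set V) {u} ∩ G' := by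
    intro ω''
    rw [hint ω'' G, hint ω'' G', h]
  unfold D2e
  rw [heq ω]
  constructor
  · rintro ⟨h1, h2⟩
    exact ⟨h1, fun e he => by rw [← heq]; exact h2 e he⟩
  · rintro ⟨h1, h2⟩
    exact ⟨h1, fun e he => by rw [heq]; exact h2 e he⟩

open scoped Classical in
private noncomputable def H3a_K (ends : E → Sym2 V) (h : ℝ) (u : V) (A : Finset V) (ω : E → Bool) : ℝ :=
  ∑ G : Finset V, gw h G * (if D2e ends ω (A : Set V) G u then (1 : ℝ) else 0)

private lemma H3a_KD (p h : ℝ) (u : V) (A : Finset V) : Ex p (fun ω => H3a_K ends h u A ω) = D2 ends p h (A : Set V) u := by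
  unfold H3a_K D2
  rw [Ex_sum]
  exact Finset.sum_congr rfl fun G _ => Ex_mul_left p _ _

open scoped Classical in
private lemma H3a_Kdep (h : ℝ) (u : V) (A : Finset V) {ω ω' : E → Bool} (hω : ∀ e, (∀ v ∈ ends e, v ∉ A) → ω e = ω' e) :
    H3a_K ends h u A ω = H3a_K ends h u A ω' := by
  unfold H3a_K
  refine Finset.sum_congr rfl fun G _ => ?_
  congr 1
  apply if_congr _ rfl rfl
  constructor
  · exact H3a_D2e G u (fun e he => hω e (fun v hv => by simpa using he v hv))
  · exact H3a_D2e G u (fun e he => (hω e (fun v hv => by simpa using he v hv)).symm)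

open scoped Classical in
private noncomputable def H3a_f (ends : E → Sym2 V) (h : ℝ) (u : V) (A : Finset V) : ℝ :=
  if u ∉ A then fh h A.card else 0

private lemma H3a_Sdep (e : E) (u' : V) {ω ω' : E → Bool} (h : ∀ e' ≠ e, ω e' = ω' e') :
    cu ends (Function.update ω e false) u' = cu ends (Function.update ω' e false) u' := by
  congr 1
  funext e'
  by_cases he : e' = e
  · subst he
    rw [Function.update_self, Function.update_self]
  · rw [Function.update_of_ne he, Function.update_of_ne he]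
    exact h e' he

open scoped Classical in
private lemma H3a_pt {h : ℝ} (e : E) (u' u : V) (ω : E → Bool) :
    ∑ G : Finset V, gw h G * ∑ x, (if ω e = true ∧ x ∈ cu ends (Function.update ω e false) u' ∧ u ∉ cu ends (Function.update ω e false) u' ∧
        Disjoint (cu ends (Function.update ω e false) u') G ∧ D2e ends ω (cu ends (Function.update ω e false) u' : Set V) G u then (1 : ℝ) else 0) =
      (if ω e = true then (1 : ℝ) else 0) * (H3a_f ends h u (cu ends (Function.update ω e false) u') *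
        H3a_K ends h u (cu ends (Function.update ω e false) u') ω) := by
  generalize cu ends (Function.update ω e false) u' = S
  by_cases h1 : ω e = true
  · by_cases h2 : u ∉ S
    · have h3 := ghost_ind h S (fun G => if D2e ends ω (S : Set V) G u then (1 : ℝ) else 0)
        (fun G G' hG => if_congr (H3a_G u hG) rfl rfl)
      have h4 : ∀ G : Finset V, ∑ x, (if ω e = true ∧ x ∈ S ∧ u ∉ S ∧ Disjoint S G ∧ D2e ends ω (S : Set V) G u then (1 : ℝ) else 0) =
          (S.card : ℝ) * ((if Disjoint S G then (1 : ℝ) else 0) * (if D2e ends ω (S : Set V) G u then (1 : ℝ) else 0)) := by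
        intro G
        by_cases h5 : Disjoint S G
        · by_cases h6 : D2e ends ω (S : Set V) G u
          · rw [if_pos h5, if_pos h6, mul_one, mul_one]
            have h7 : ∀ x, (if ω e = true ∧ x ∈ S ∧ u ∉ S ∧ Disjoint S G ∧ D2e ends ω (S : Set V) G u then (1 : ℝ) else 0) =
                if x ∈ S then (1 : ℝ) else 0 := by
              intro x
              by_cases hx : x ∈ S
              · rw [if_pos ⟨h1, hx, h2, h5, h6⟩, if_pos hx]
              · rw [if_neg (fun hh => hx hh.2.1), if_neg hx]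
            rw [Finset.sum_congr rfl (fun x _ => h7 x), Finset.sum_ite_mem, Finset.univ_inter, Finset.sum_const, nsmul_eq_mul, mul_one]
          · rw [if_neg h6, mul_zero, mul_zero]
            exact Finset.sum_eq_zero fun x _ => if_neg (fun hh => h6 hh.2.2.2.2)
        · rw [if_neg h5, zero_mul, mul_zero]
          exact Finset.sum_eq_zero fun x _ => if_neg (fun hh => h5 hh.2.2.2.1)
      have h8 : ∀ G : Finset V, gw h G * ∑ x, (if ω e = true ∧ x ∈ S ∧ u ∉ S ∧ Disjoint S G ∧ D2e ends ω (S : Set V) G u then (1 : ℝ) else 0) =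
          (S.card : ℝ) * (gw h G * ((if Disjoint S G then (1 : ℝ) else 0) * (if D2e ends ω (S : Set V) G u then (1 : ℝ) else 0))) := by
        intro G
        rw [h4]
        ring
      rw [Finset.sum_congr rfl (fun G _ => h8 G), ← Finset.mul_sum, h3, if_pos h1, one_mul]
      unfold H3a_f H3a_K
      rw [if_pos h2]
      unfold fh
      ring
    · have hz : H3a_f ends h u S = 0 := by
        unfold H3a_f
        rw [if_neg h2]
      rw [hz, zero_mul, mul_zero]
      refine Finset.sum_eq_zero fun G _ => ?_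
      rw [Finset.sum_eq_zero fun x _ => if_neg (fun hh => h2 hh.2.2.1), mul_zero]
  · rw [if_neg h1, zero_mul]
    refine Finset.sum_eq_zero fun G _ => ?_
    rw [Finset.sum_eq_zero fun x _ => if_neg (fun hh => h1 hh.1), mul_zero]

open scoped Classical in
/-- Row H3. One term summed over `x` and averaged: for `e` with ends `u', u`: `E_G E [ ω e = true, |S| 1(u ∉ S, S ∩ G = ∅) D2e ω S G u ] = (p/(1-p)) E[ 1(u ∉ cu ω u') fh |cu ω u'| D2 (cu ω u') u ]`. `ghost_ind` (`D2e ω S G u` depends only on `G \ S`); the coordinate `e` is independent of the rest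
(`Ex_coord`: `D2e ω S G u` does not depend on `ω e`, since `u' ∈ S`); `explore_gen` for the cluster of `u'` in `ω - e` (`D2e ω' S G u` depends only on the edges without an end in `S`): `p E[ |S| (1-h)^|S| 1(u ∉ S) D2(S,u) ]`; and `E[F(S)1(u ∉ S)] (1-p) = E[1(ω e = false) F(S) 1(u ∉ S)] = E[F(cu ω u') 1(u ∉ cu ω u')]`. -/
lemma term_e (hinj : Function.Injective ends) {p h : ℝ} (hp : p ≠ 1) (e : E) (u' u : V) (he : ends e = s(u', u)) :
    ∑ G : Finset V, gw h G * Ex p (fun ω => ∑ x, (if ω e = true ∧ x ∈ cu ends (Function.update ω e false) u' ∧ u ∉ cu ends (Function.update ω e false) u' ∧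
        Disjoint (cu ends (Function.update ω e false) u') G ∧ D2e ends ω (cu ends (Function.update ω e false) u' : Set V) G u then (1 : ℝ) else 0)) =
      p / (1 - p) * Ex p (fun ω => if u ∉ cu ends ω u' then fh h (cu ends ω u').card * D2 ends p h (cu ends ω u' : Set V) u else (0 : ℝ)) := by
  have hswap : ∀ F : Finset V → (E → Bool) → ℝ, ∑ G : Finset V, gw h G * Ex p (F G) = Ex p (fun ω => ∑ G : Finset V, gw h G * F G ω) := by
    intro F
    rw [Ex_sum]
    exact Finset.sum_congr rfl fun G _ => (Ex_mul_left p _ _).symm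
  rw [hswap]
  rw [Ex_congr (fun ω => H3a_pt (ends := ends) (h := h) e u' u ω)]
  have hu' : ∀ ω : E → Bool, u' ∈ cu ends (Function.update ω e false) u' := fun ω => self_mem_cu _ u'
  have hdep : ∀ ω ω' : E → Bool, (∀ e' ≠ e, ω e' = ω' e') →
      H3a_f ends h u (cu ends (Function.update ω e false) u') * H3a_K ends h u (cu ends (Function.update ω e false) u') ω =
      H3a_f ends h u (cu ends (Function.update ω' e false) u') * H3a_K ends h u (cu ends (Function.update ω' e false) u') ω' := by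
    intro ω ω' hω
    rw [H3a_Sdep e u' hω]
    congr 1
    apply H3a_Kdep
    intro e' he'
    apply hω
    rintro rfl
    exact he' u' (by rw [he]; exact Sym2.mem_mk_left u' u) (hu' ω')
  rw [Ex_coord p e _ hdep]
  have hex := explore_gen (E := E) p (fun ω => cu ends (Function.update ω e false) u') (fun A => {e' | ∃ v ∈ ends e', v ∈ A})
    (by
      intro ω ω' hω
      refine cl_eq_dep (ω := Function.update ω e false) (ω' := Function.update ω' e false) (S := Set.univ) ?_ rfl
      intro e' a b he' _ _ ha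
      by_cases hee : e' = e
      · subst hee
        rw [Function.update_self, Function.update_self]
      · rw [Function.update_of_ne hee, Function.update_of_ne hee]
        exact hω e' ⟨a, by rw [he']; exact Sym2.mem_mk_left a b, ha⟩)
    (fun A ω => H3a_f ends h u A * H3a_K ends h u A ω)
    (by
      intro A ω ω' hω
      show H3a_f ends h u A * H3a_K ends h u A ω = H3a_f ends h u A * H3a_K ends h u A ω'
      congr 1
      apply H3a_Kdep
      intro e' he'
      apply hω
      rintro ⟨v, hv, hvA⟩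
      exact he' v hv hvA)
  rw [hex]
  have h1 : Ex p (fun ω => Ex p (fun ω' => H3a_f ends h u (cu ends (Function.update ω e false) u') *
      H3a_K ends h u (cu ends (Function.update ω e false) u') ω')) =
      Ex p (fun ω => H3a_f ends h u (cu ends (Function.update ω e false) u') *
        D2 ends p h (cu ends (Function.update ω e false) u' : Set V) u) := by
    apply Ex_congr
    intro ω
    rw [Ex_mul_left, H3a_KD]
  rw [h1]
  set f2 : (E → Bool) → ℝ := fun ω => H3a_f ends h u (cu ends (Function.update ω e false) u') *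
        D2 ends p h (cu ends (Function.update ω e false) u' : Set V) u with hf2
  have h2 : ∀ ω ω' : E → Bool, (∀ e' ≠ e, ω e' = ω' e') → f2 ω = f2 ω' := by
    intro ω ω' hω
    rw [hf2]
    show H3a_f ends h u (cu ends (Function.update ω e false) u') * D2 ends p h (cu ends (Function.update ω e false) u' : Set V) u =
      H3a_f ends h u (cu ends (Function.update ω' e false) u') * D2 ends p h (cu ends (Function.update ω' e false) u' : Set V) u
    rw [H3a_Sdep e u' hω]
  have h3 := Ex_coord p e f2 h2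
  have h4 : Ex p (fun ω => if u ∉ cu ends ω u' then fh h (cu ends ω u').card * D2 ends p h (cu ends ω u' : Set V) u else (0 : ℝ)) =
      Ex p f2 - Ex p (fun ω => (if ω e = true then 1 else 0) * f2 ω) := by
    have h5 : Ex p f2 = Ex p (fun ω => (if u ∉ cu ends ω u' then fh h (cu ends ω u').card * D2 ends p h (cu ends ω u' : Set V) u else (0 : ℝ)) +
        (if ω e = true then 1 else 0) * f2 ω) := by
      apply Ex_congr
      intro ω
      by_cases hoe : ω e = true
      · have hmem : u ∈ cu ends ω u' := by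
          rw [mem_cu]
          exact Relation.ReflTransGen.single ⟨Set.mem_univ _, Set.mem_univ _, e, hoe, he⟩
        rw [if_neg (fun hh => hh hmem), if_pos hoe, one_mul, zero_add]
      · have hfe : ω e = false := by
          cases hb : ω e
          · rfl
          · exact absurd hb hoe
        have hup : Function.update ω e false = ω := by
          rw [← hfe]
          exact Function.update_eq_self e ω
        rw [if_neg hoe, zero_mul, add_zero, hf2]
        show H3a_f ends h u (cu ends (Function.update ω e false) u') * D2 ends p h (cu ends (Function.update ω e false) u' : Set V) u = _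
        rw [hup]
        unfold H3a_f
        by_cases hu : u ∉ cu ends ω u'
        · rw [if_pos hu, if_pos hu]
        · rw [if_neg hu, if_neg hu, zero_mul]
    rw [h5, Ex_add]
    ring
  rw [h4, h3]
  have h6 : (1 : ℝ) - p ≠ 0 := sub_ne_zero.2 (Ne.symm hp)
  field_simp

/-- Row H3b, exchange of sums. -/
lemma H3b_comm {α : Type*} [Fintype α] (f : α → V → V → E → ℝ) :
    ∑ a, ∑ u', ∑ u, ∑ e, f a u' u e = ∑ u', ∑ u, ∑ e, ∑ a, f a u' u e := by
  rw [Finset.sum_comm]
  apply Finset.sum_congr rfl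
  intro u' _
  rw [Finset.sum_comm]
  apply Finset.sum_congr rfl
  intro u _
  rw [Finset.sum_comm]

/-- Row H3. The identity: `ghost2`, `last_edge`, `term_e`. -/
lemma bridge_id (hinj : Function.Injective ends) {p h : ℝ} (hp : p ≠ 1) (hh : h ≠ 1) :
    ∑ x, Ex p (fun ω => g2 h (cu ends ω x).card) = ∑ x, D2 ends p h ∅ x + p / (1 - p) * ∑ u, BT ends p h u := by
  classical
  set A : V → Finset V → (E → Bool) → ℝ := fun x G ω => if D2e ends ω ∅ G x then (1 : ℝ) else 0
    with hA
  set c : V → Finset V → V → V → E → (E → Bool) → ℝ := fun x G u' u e ω =>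
    (if ends e = s(u', u) ∧ ω e = true ∧ x ∈ cu ends (Function.update ω e false) u' ∧ u ∉ cu ends (Function.update ω e false) u' ∧
        Disjoint (cu ends (Function.update ω e false) u') G ∧ D2e ends ω (cu ends (Function.update ω e false) u' : Set V) G u then (1 : ℝ) else 0)
    with hc
  set X : V → V → ℝ := fun u' u => Ex p (fun ω => if u ∉ cu ends ω u' then
    fh h (cu ends ω u').card * D2 ends p h (cu ends ω u' : Set V) u else (0 : ℝ)) with hX
  have e1 : ∀ x, Ex p (fun ω => g2 h (cu ends ω x).card) =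
      ∑ G : Finset V, gw h G * Ex p (fun ω => A x G ω) +
        ∑ G : Finset V, ∑ u', ∑ u, ∑ e, gw h G * Ex p (fun ω => c x G u' u e ω) := by
    intro x
    calc Ex p (fun ω => g2 h (cu ends ω x).card)
        = Ex p (fun ω => ∑ G : Finset V, gw h G * (if 2 ≤ (cu ends ω x ∩ G).card then (1 : ℝ) else 0)) :=
          Ex_congr (fun ω => (ghost2 hh _).symm)
      _ = ∑ G : Finset V, Ex p (fun ω => gw h G * (if 2 ≤ (cu ends ω x ∩ G).card then (1 : ℝ) else 0)) :=
          Ex_sum _ _ _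
      _ = ∑ G : Finset V, (gw h G * Ex p (fun ω => A x G ω) +
            ∑ u', ∑ u, ∑ e, gw h G * Ex p (fun ω => c x G u' u e ω)) := by
          apply Finset.sum_congr rfl
          intro G _
          rw [Ex_mul_left, Ex_congr (fun ω => last_edge hinj ω G x), Ex_add, mul_add]
          congr 1
          rw [Ex_sum, Finset.mul_sum]
          apply Finset.sum_congr rfl
          intro u' _
          rw [Ex_sum, Finset.mul_sum]
          apply Finset.sum_congr rfl
          intro u _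
          rw [Ex_sum, Finset.mul_sum]
      _ = _ := Finset.sum_add_distrib
  have e2 : ∀ u' u e, ∑ x, ∑ G : Finset V, gw h G * Ex p (fun ω => c x G u' u e ω) =
      (if ends e = s(u', u) then p / (1 - p) * X u' u else 0) := by
    intro u' u e
    rw [Finset.sum_comm]
    have h1 : ∀ G : Finset V, ∑ x, gw h G * Ex p (fun ω => c x G u' u e ω) =
        gw h G * Ex p (fun ω => ∑ x, c x G u' u e ω) := by
      intro G
      rw [← Finset.mul_sum, Ex_sum]
    rw [Finset.sum_congr rfl (fun G _ => h1 G)]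
    by_cases he : ends e = s(u', u)
    · rw [if_pos he]
      have h2 := term_e hinj (h := h) hp e u' u he
      rw [hX]
      refine Eq.trans ?_ h2
      apply Finset.sum_congr rfl
      intro G _
      congr 1
      apply Ex_congr
      intro ω
      apply Finset.sum_congr rfl
      intro x _
      rw [hc]
      simp only [he, true_and]
    · rw [if_neg he]
      apply Finset.sum_eq_zero
      intro G _
      have h2 : Ex p (fun ω => ∑ x, c x G u' u e ω) = 0 := by
        apply Ex_zero_of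
        intro ω
        apply Finset.sum_eq_zero
        intro x _
        rw [hc]
        simp only [he, false_and, if_false]
      rw [h2, mul_zero]
  have e3 : ∀ u' u, ∑ e, (if ends e = s(u', u) then p / (1 - p) * X u' u else 0) =
      (if ∃ e, ends e = s(u', u) then p / (1 - p) * X u' u else 0) := by
    intro u' u
    by_cases he : ∃ e, ends e = s(u', u)
    · rw [if_pos he]
      obtain ⟨e0, he0⟩ := he
      rw [Finset.sum_eq_single e0]
      · rw [if_pos he0]
      · intro e _ hne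
        rw [if_neg]
        intro h1
        exact hne (hinj (h1.trans he0.symm))
      · intro h1
        exact absurd (Finset.mem_univ _) h1
    · rw [if_neg he]
      apply Finset.sum_eq_zero
      intro e _
      rw [if_neg (fun h1 => he ⟨e, h1⟩)]
  have e4 : ∀ u', p / (1 - p) * BT ends p h u' =
      ∑ u, (if ∃ e, ends e = s(u', u) then p / (1 - p) * X u' u else 0) := by
    intro u'
    unfold BT
    rw [Ex_sum, Finset.mul_sum]
    apply Finset.sum_congr rfl
    intro u _
    by_cases he : ∃ e, ends e = s(u', u)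
    · rw [if_pos he, hX]
      congr 1
      apply Ex_congr
      intro ω
      simp only [he, true_and]
    · rw [if_neg he, Ex_zero_of, mul_zero]
      intro ω
      simp only [he, false_and, if_false]
  calc ∑ x, Ex p (fun ω => g2 h (cu ends ω x).card)
      = ∑ x, (∑ G : Finset V, gw h G * Ex p (fun ω => A x G ω) +
        ∑ G : Finset V, ∑ u', ∑ u, ∑ e, gw h G * Ex p (fun ω => c x G u' u e ω)) :=
        Finset.sum_congr rfl (fun x _ => e1 x)
    _ = ∑ x, ∑ G : Finset V, gw h G * Ex p (fun ω => A x G ω) +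
        ∑ x, ∑ G : Finset V, ∑ u', ∑ u, ∑ e, gw h G * Ex p (fun ω => c x G u' u e ω) :=
        Finset.sum_add_distrib
    _ = ∑ x, D2 ends p h ∅ x +
        ∑ u', ∑ u, ∑ e, ∑ x, ∑ G : Finset V, gw h G * Ex p (fun ω => c x G u' u e ω) := by
        congr 1
        rw [← H3b_comm]
        apply Finset.sum_congr rfl
        intro x _
        rw [H3b_comm]
    _ = ∑ x, D2 ends p h ∅ x + p / (1 - p) * ∑ u, BT ends p h u := by
        congr 1
        rw [Finset.mul_sum]
        apply Finset.sum_congr rfl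
        intro u' _
        rw [e4]
        apply Finset.sum_congr rfl
        intro u _
        rw [← e3]
        apply Finset.sum_congr rfl
        intro e _
        exact e2 u' u e

open scoped Classical in
/-- The probability that `x` is joined to `G`. -/
noncomputable def cg (ends : E → Sym2 V) (p : ℝ) (x : V) (G : Finset V) : ℝ := Ex p (fun ω => if (cu ends ω x ∩ G).Nonempty then (1 : ℝ) else 0)

/-- The bound for two independent connections to the same green set. -/
def M2b (ends : E → Sym2 V) (p h M2 : ℝ) : Prop := ∀ x y : V, ∑ G : Finset V, gw h G * (cg ends p x G * cg ends p y G) ≤ M2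

/-- Row H4. `cg x G * cg y G = E E' 1(cu ω x ∩ G ≠ ∅) 1(cu ω' y ∩ G ≠ ∅)`; for two sets `C`, `C'`: `P_G(both meet G) = 1 - (1-h)^|C| - (1-h)^|C'| + (1-h)^|C ∪ C'| = gh |C| gh |C'| + (1-h)^|C ∪ C'| (1 - (1-h)^|C ∩ C'|) ≤ gh |C| gh |C'| + h |C ∩ C'|`, `E E' |C ∩ C'| = ∑_z ta x z ta y z`. -/
lemma two_green {p h M : ℝ} (h0 : 0 ≤ p) (h1 : p ≤ 1) (hh0 : 0 ≤ h) (hh1 : h ≤ 1) (hM : Mb ends p h M) (x y : V) :
    ∑ G : Finset V, gw h G * (cg ends p x G * cg ends p y G) ≤ M ^ 2 + h * ∑ z, ta ends p x z * ta ends p y z := by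
  classical
  -- two fixed sets
  have h1h0 : 0 ≤ 1 - h := by linarith
  have h1h1 : 1 - h ≤ 1 := by linarith
  have hfix : ∀ C C' : Finset V, ∑ G : Finset V, gw h G *
      ((if (C ∩ G).Nonempty then (1 : ℝ) else 0) * (if (C' ∩ G).Nonempty then (1 : ℝ) else 0)) ≤
      gh h C.card * gh h C'.card + h * ((C ∩ C').card : ℝ) := by
    intro C C'
    have hg : ∀ D : Finset V, ∑ G : Finset V, gw h G * (if (D ∩ G).Nonempty then (0 : ℝ) else 1) =
        (1 - h) ^ D.card := by
      intro D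
      rw [← ghost h D]
      apply Finset.sum_congr rfl
      intro G _
      congr 1
      have h1 : (D ∩ G).Nonempty ↔ ∃ b ∈ G, b ∈ D := by
        constructor
        · rintro ⟨b, hb⟩
          rw [Finset.mem_inter] at hb
          exact ⟨b, hb.2, hb.1⟩
        · rintro ⟨b, hb1, hb2⟩
          exact ⟨b, Finset.mem_inter.2 ⟨hb2, hb1⟩⟩
      by_cases h2 : (D ∩ G).Nonempty
      · rw [if_pos h2, if_pos (h1.1 h2)]
      · rw [if_neg h2, if_neg (fun h3 => h2 (h1.2 h3))]
    have hun : ∀ G : Finset V, ((C ∪ C') ∩ G).Nonempty ↔ ((C ∩ G).Nonempty ∨ (C' ∩ G).Nonempty) := by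
      intro G
      rw [Finset.union_inter_distrib_right, Finset.union_nonempty]
    have hpt : ∀ G : Finset V, gw h G *
        ((if (C ∩ G).Nonempty then (1 : ℝ) else 0) * (if (C' ∩ G).Nonempty then (1 : ℝ) else 0)) =
        gw h G - gw h G * (if (C ∩ G).Nonempty then (0 : ℝ) else 1)
          - gw h G * (if (C' ∩ G).Nonempty then (0 : ℝ) else 1)
          + gw h G * (if ((C ∪ C') ∩ G).Nonempty then (0 : ℝ) else 1) := by
      intro G
      by_cases a : (C ∩ G).Nonempty <;> by_cases b : (C' ∩ G).Nonempty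
      · rw [if_pos a, if_pos b, if_pos a, if_pos b, if_pos ((hun G).2 (Or.inl a))]; ring
      · rw [if_pos a, if_neg b, if_pos a, if_neg b, if_pos ((hun G).2 (Or.inl a))]; ring
      · rw [if_neg a, if_pos b, if_neg a, if_pos b, if_pos ((hun G).2 (Or.inr b))]; ring
      · rw [if_neg a, if_neg b, if_neg a, if_neg b,
          if_neg (fun h3 => ((hun G).1 h3).elim a b)]; ring
    rw [Finset.sum_congr rfl (fun G _ => hpt G), Finset.sum_add_distrib, Finset.sum_sub_distrib,
      Finset.sum_sub_distrib, hg, hg, hg, gw_sum]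
    have hcard : (C ∪ C').card + (C ∩ C').card = C.card + C'.card := Finset.card_union_add_card_inter C C'
    have hpow : (1 - h) ^ (C ∪ C').card * (1 - h) ^ (C ∩ C').card = (1 - h) ^ C.card * (1 - h) ^ C'.card := by
      rw [← pow_add, ← pow_add, hcard]
    have hk : gh h (C ∩ C').card ≤ ((C ∩ C').card : ℝ) * h := gh_le hh0 hh1 _
    have hp0 : 0 ≤ (1 - h) ^ (C ∪ C').card := pow_nonneg h1h0 _
    have hp1 : (1 - h) ^ (C ∪ C').card ≤ 1 := pow_le_one₀ h1h0 h1h1
    have hg0 : 0 ≤ gh h (C ∩ C').card := gh_nonneg hh0 hh1 _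
    have key : (1 - h) ^ (C ∪ C').card * gh h (C ∩ C').card ≤ ((C ∩ C').card : ℝ) * h :=
      (mul_le_of_le_one_left hg0 hp1).trans hk
    unfold gh at key ⊢
    nlinarith [key, hpow]
  have hcu : ∀ ω x, cu ends ω x = cS ends ω ∅ {x} := by
    intro ω x
    ext y
    simp [cu, cl, cS]
  have hEx : ∀ x, Ex p (fun ω => gh h (cu ends ω x).card) ≤ M := by
    intro x
    have := hM ∅ x
    rw [Ex_congr (fun ω => by rw [hcu ω x])]
    exact this
  have hE0 : ∀ x, 0 ≤ Ex p (fun ω => gh h (cu ends ω x).card) := fun x =>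
    Ex_nonneg h0 h1 (fun ω => gh_nonneg hh0 hh1 _)
  have hM0 : 0 ≤ M := (hE0 x).trans (hEx x)
  -- the product as a double expectation
  have hmul : ∀ f g : (E → Bool) → ℝ, Ex p f * Ex p g = Ex p (fun ω => Ex p (fun ω' => f ω * g ω')) := by
    intro f g
    rw [mul_comm, ← Ex_mul_left]
    apply Ex_congr
    intro ω
    rw [Ex_mul_left, mul_comm]
  have hprod : ∀ G : Finset V, gw h G * (cg ends p x G * cg ends p y G) =
      Ex p (fun ω => Ex p (fun ω' => gw h G * ((if (cu ends ω x ∩ G).Nonempty then (1 : ℝ) else 0) *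
        (if (cu ends ω' y ∩ G).Nonempty then (1 : ℝ) else 0)))) := by
    intro G
    unfold cg
    rw [hmul, ← Ex_mul_left]
    apply Ex_congr
    intro ω
    rw [← Ex_mul_left]
  have hcardz : ∀ C C' : Finset V, ((C ∩ C').card : ℝ) =
      ∑ z, (if z ∈ C then (1 : ℝ) else 0) * (if z ∈ C' then (1 : ℝ) else 0) := by
    intro C C'
    have h2 : ∀ z, (if z ∈ C then (1 : ℝ) else 0) * (if z ∈ C' then (1 : ℝ) else 0) =
        (if z ∈ C ∩ C' then (1 : ℝ) else 0) := by
      intro z
      by_cases a : z ∈ C <;> by_cases b : z ∈ C' <;> simp [a, b]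
    rw [Finset.sum_congr rfl (fun z _ => h2 z), Finset.sum_ite_mem, Finset.univ_inter]
    simp
  calc ∑ G : Finset V, gw h G * (cg ends p x G * cg ends p y G)
      = ∑ G : Finset V, Ex p (fun ω => Ex p (fun ω' => gw h G *
          ((if (cu ends ω x ∩ G).Nonempty then (1 : ℝ) else 0) *
          (if (cu ends ω' y ∩ G).Nonempty then (1 : ℝ) else 0)))) :=
        Finset.sum_congr rfl (fun G _ => hprod G)
    _ = Ex p (fun ω => Ex p (fun ω' => ∑ G : Finset V, gw h G *
          ((if (cu ends ω x ∩ G).Nonempty then (1 : ℝ) else 0) *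
          (if (cu ends ω' y ∩ G).Nonempty then (1 : ℝ) else 0)))) := by
        rw [← Ex_sum]
        apply Ex_congr
        intro ω
        rw [← Ex_sum]
    _ ≤ Ex p (fun ω => Ex p (fun ω' => gh h (cu ends ω x).card * gh h (cu ends ω' y).card +
          h * ((cu ends ω x ∩ cu ends ω' y).card : ℝ))) :=
        Ex_mono h0 h1 (fun ω => Ex_mono h0 h1 (fun ω' => hfix _ _))
    _ = Ex p (fun ω => gh h (cu ends ω x).card) * Ex p (fun ω => gh h (cu ends ω y).card) +
          h * ∑ z, ta ends p x z * ta ends p y z := by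
        rw [Ex_congr (fun ω => Ex_add p _ _), Ex_add]
        congr 1
        · exact (hmul _ _).symm
        · rw [Ex_congr (fun ω => Ex_mul_left p h _), Ex_mul_left]
          congr 1
          rw [Ex_congr (fun ω => (Ex_congr (fun ω' => hcardz _ _)).trans (Ex_sum _ _ _)), Ex_sum]
          apply Finset.sum_congr rfl
          intro z _
          unfold ta
          exact (hmul _ _).symm
    _ ≤ M ^ 2 + h * ∑ z, ta ends p x z * ta ends p y z := by
        have := mul_le_mul (hEx x) (hEx y) (hE0 y) hM0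
        nlinarith [this]

/-- Row H5. `D2e_iff`; the families `{F | some g ∈ G is in cu (1_F) u}`: `bk` for fixed `G`. -/
lemma D2_le (hinj : Function.Injective ends) {p h M2 : ℝ} (h0 : 0 ≤ p) (h1 : p ≤ 1) (hh0 : 0 ≤ h) (hh1 : h ≤ 1) (hM2 : M2b ends p h M2) (Z : Set V) (u : V) : D2 ends p h Z u ≤ M2 := by
  classical
  have key : ∀ G : Finset V, Ex p (fun ω => if D2e ends ω Z G u then (1 : ℝ) else 0) ≤
      cg ends p u G * cg ends p u G := by
    intro G
    let A : Set (Finset E) := {F | (cu ends (fun e => decide (e ∈ F)) u ∩ G).Nonempty}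
    have hA : Ex p (opn A) ≤ cg ends p u G := by
      unfold cg
      apply Ex_mono h0 h1
      intro ω
      unfold opn
      by_cases hF : ∃ F ∈ A, ∀ e ∈ F, ω e = true
      · obtain ⟨F, hFA, hFo⟩ := hF
        obtain ⟨g, hg⟩ := hFA
        have hgc := (Finset.mem_inter.1 hg).1
        have hgG := (Finset.mem_inter.1 hg).2
        have hne : (cu ends ω u ∩ G).Nonempty := by
          refine ⟨g, Finset.mem_inter.2 ⟨?_, hgG⟩⟩
          rw [mem_cu] at hgc ⊢
          exact hgc.mono (fun e he => hFo e (by simpa using he)) (Set.Subset.refl _)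
        rw [if_pos hne]
        split_ifs <;> norm_num
      · rw [if_neg hF]
        split_ifs <;> norm_num
    have hA0 : 0 ≤ Ex p (opn A) := by
      apply Ex_nonneg h0 h1
      intro ω
      unfold opn
      split_ifs <;> norm_num
    have hD : Ex p (fun ω => if D2e ends ω Z G u then (1 : ℝ) else 0) ≤ Ex p (opn (dsj A A)) := by
      apply Ex_mono h0 h1
      intro ω
      unfold opn
      by_cases hd : D2e ends ω Z G u
      · rw [if_pos hd]
        rw [D2e_iff hinj] at hd
        obtain ⟨g, hg, g', hg', _, F, F', hdis, ho, hc, hc'⟩ := hd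
        have sub : ∀ (F : Finset E) (x : V), x ∈ G → x ∈ cS ends (fun e => decide (e ∈ F)) Z {u} → F ∈ A := by
          intro F x hxG hx
          rw [mem_cS] at hx
          obtain ⟨a, ha, _, hr⟩ := hx
          rw [Set.mem_singleton_iff] at ha
          subst ha
          refine ⟨x, Finset.mem_inter.2 ⟨?_, hxG⟩⟩
          rw [mem_cu]
          exact hr.mono (fun e he => he) (Set.subset_univ _)
        have hex : ∃ H ∈ dsj A A, ∀ e ∈ H, ω e = true :=
          ⟨F ∪ F', ⟨F, sub F g hg hc, F', sub F' g' hg' hc', hdis, rfl⟩, ho⟩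
        rw [if_pos hex]
      · rw [if_neg hd]
        split_ifs <;> norm_num
    calc Ex p (fun ω => if D2e ends ω Z G u then (1 : ℝ) else 0) ≤ Ex p (opn (dsj A A)) := hD
      _ ≤ Ex p (opn A) * Ex p (opn A) := bk h0 h1 A A
      _ ≤ cg ends p u G * cg ends p u G := mul_le_mul hA hA hA0 (hA0.trans hA)
  unfold D2
  refine le_trans (Finset.sum_le_sum fun G _ => ?_) (hM2 u u)
  exact mul_le_mul_of_nonneg_left (key G) (gw_nonneg hh0 hh1 G)

lemma D2_nonneg {p h : ℝ} (h0 : 0 ≤ p) (h1 : p ≤ 1) (hh0 : 0 ≤ h) (hh1 : h ≤ 1) (Z : Set V) (u : V) : 0 ≤ D2 ends p h Z u := by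
  classical
  unfold D2
  apply Finset.sum_nonneg
  intro G _
  apply mul_nonneg (gw_nonneg hh0 hh1 G)
  apply Ex_nonneg h0 h1
  intro ω
  split_ifs <;> norm_num

/-- Row H5. `D2e_iff`, `PPe_anti`. -/
lemma D2_anti (hinj : Function.Injective ends) {p h : ℝ} (h0 : 0 ≤ p) (h1 : p ≤ 1) (hh0 : 0 ≤ h) (hh1 : h ≤ 1) (Z Z' : Set V) (hZ : Z ⊆ Z') (u : V) :
    D2 ends p h Z' u ≤ D2 ends p h Z u := by
  classical
  unfold D2
  apply Finset.sum_le_sum
  intro G _
  apply mul_le_mul_of_nonneg_left _ (gw_nonneg hh0 hh1 G)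
  apply Ex_mono h0 h1
  intro ω
  by_cases hd : D2e ends ω Z' G u
  · have hd2 : D2e ends ω Z G u := by
      rw [D2e_iff hinj] at hd ⊢
      exact PPe_anti hZ G u hd
    rw [if_pos hd, if_pos hd2]
  · rw [if_neg hd]
    split_ifs <;> norm_num

/-- The sets of edges which join `x` to a green vertex. -/
private def H6_fam (ends : E → Sym2 V) (G : Finset V) (x : V) : Set (Finset E) :=
  {F | (cu ends (fun e => decide (e ∈ F)) x ∩ G).Nonempty}

open scoped Classical in
private lemma H6_opn (G : Finset V) (x : V) (ω : E → Bool) :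
    opn (H6_fam ends G x) ω = if (cu ends ω x ∩ G).Nonempty then (1 : ℝ) else 0 := by
  unfold opn
  refine if_congr ?_ rfl rfl
  constructor
  · rintro ⟨F, ⟨y, hy⟩, hop⟩
    rw [Finset.mem_inter, mem_cu] at hy
    refine ⟨y, ?_⟩
    rw [Finset.mem_inter, mem_cu]
    exact ⟨hy.1.mono (fun e he => hop e (of_decide_eq_true he)) le_rfl, hy.2⟩
  · rintro ⟨y, hy⟩
    rw [Finset.mem_inter, mem_cu] at hy
    refine ⟨Finset.univ.filter (fun e => ω e = true), ?_, ?_⟩
    · refine ⟨y, ?_⟩
      rw [Finset.mem_inter, mem_cu]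
      exact ⟨hy.1.mono (fun e he => by simp [he]) le_rfl, hy.2⟩
    · intro e he
      exact (Finset.mem_filter.1 he).2

private lemma H6_walk {F F' : Finset E} {W D' : Set V} (hF : ∀ e ∈ F', e ∈ F ∧ ∀ x ∈ ends e, x ∉ W)
    {a b : V} (p : (openG ends (fun e => decide (e ∈ F'))).Walk a b) : a ∉ W →
    (∀ w ∈ p.support, w ∉ D') → Rch ends (fun e => decide (e ∈ F)) (W ∪ D')ᶜ a b := by
  classical
  induction p with
  | nil => exact fun _ _ => Rch.refl _
  | @cons a c b hadj p ih =>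
    intro ha hD
    have hadj' := hadj
    obtain ⟨-, e, h3, h4⟩ := hadj'
    have h5 := hF e (of_decide_eq_true h3)
    have hc : c ∉ W := h5.2 c (by rw [h4]; exact Sym2.mem_mk_right a c)
    have haD : a ∉ D' := hD a (by simp)
    have hcD : c ∉ D' := hD c (by
      rw [SimpleGraph.Walk.support_cons]
      exact List.mem_cons_of_mem _ p.start_mem_support)
    refine Relation.ReflTransGen.head ⟨?_, ?_, e, by simp [h5.1], h4⟩ (ih hc fun w hw => hD w ?_)
    · rintro (h | h)
      · exact ha h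
      · exact haD h
    · rintro (h | h)
      · exact hc h
      · exact hcD h
    · rw [SimpleGraph.Walk.support_cons]
      exact List.mem_cons_of_mem _ hw

private lemma H6_split {F : Finset E} {W : Set V} {D' : Finset V} {v g : V}
    (h1 : g ∈ cS ends (fun e => decide (e ∈ F)) W {v})
    (h2 : g ∉ cS ends (fun e => decide (e ∈ F)) (W ∪ (D' : Set V)) {v}) :
    ∃ s ∈ D', ∃ F1 ∈ Pth ends v s, ∃ F2 ∈ Pth ends s g, Disjoint F1 F2 ∧ F1 ⊆ F ∧ F2 ⊆ F := by
  classical
  obtain ⟨a, ha, haW, hr⟩ := mem_cS.1 h1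
  rw [Set.mem_singleton_iff] at ha
  subst ha
  let F' : Finset E := F.filter (fun e => ∀ x ∈ ends e, x ∉ W)
  have hF' : ∀ e ∈ F', e ∈ F ∧ ∀ x ∈ ends e, x ∉ W := fun e he => Finset.mem_filter.1 he
  have hr' : Rch ends (fun e => decide (e ∈ F')) Set.univ a g := by
    clear h1 h2
    induction hr with
    | refl => exact Rch.refl _
    | @tail c d _ hcd ih =>
      obtain ⟨hc, hd, e, h3, h4⟩ := hcd
      refine Relation.ReflTransGen.tail ih ⟨trivial, trivial, e, ?_, h4⟩
      have h6 : e ∈ F' := by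
        refine Finset.mem_filter.2 ⟨of_decide_eq_true h3, ?_⟩
        intro x hx
        rw [h4, Sym2.mem_iff] at hx
        rcases hx with rfl | rfl
        · exact hc
        · exact hd
      exact decide_eq_true h6
  obtain ⟨p0⟩ := exists_walk hr'
  obtain ⟨p, hp⟩ : ∃ p : (openG ends (fun e => decide (e ∈ F'))).Walk a g, p.IsPath :=
    ⟨_, p0.bypass_isPath⟩
  obtain ⟨s, hs, hsD⟩ : ∃ s ∈ p.support, s ∈ D' := by
    by_contra hcon
    push Not at hcon
    apply h2
    refine mem_cS.2 ⟨a, rfl, ?_, H6_walk (D' := (D' : Set V)) hF' p haW fun w hw h => hcon w hw h⟩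
    rintro (h | h)
    · exact haW h
    · exact hcon a p.start_mem_support h
  have hnd : (p.takeUntil s hs).edges.Disjoint (p.dropUntil s hs).edges := by
    have h3 : p.edges.Nodup := hp.isTrail.edges_nodup
    rw [← p.take_spec hs, SimpleGraph.Walk.edges_append] at h3
    exact (List.nodup_append'.1 h3).2.2
  have hsub : ∀ L : List (Sym2 V), opL ends (fun e => decide (e ∈ F')) L ⊆ F := fun L e he =>
    (hF' e (of_decide_eq_true (Finset.mem_filter.1 he).2.1)).1
  exact ⟨s, hsD, opL ends _ (p.takeUntil s hs).edges, walk_mem_Pth _ _ (fun s hs => hs),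
    opL ends _ (p.dropUntil s hs).edges, walk_mem_Pth _ _ (fun s hs => hs),
    opL_disjoint (fun s hs hs' => hnd hs hs'), hsub _, hsub _⟩

open scoped Classical in
private lemma H6_pt (hinj : Function.Injective ends) (ω : E → Bool) (W : Set V) (D' : Finset V)
    (G : Finset V) (v : V) :
    (if D2e ends ω W G v then (1 : ℝ) else 0) ≤
      (if D2e ends ω (W ∪ (D' : Set V)) G v then (1 : ℝ) else 0) +
      ∑ s ∈ D', opn (dsj (dsj (Pth ends v s) (H6_fam ends G s)) (H6_fam ends G v)) ω := by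
  have hnn : ∀ s, 0 ≤ opn (dsj (dsj (Pth ends v s) (H6_fam ends G s)) (H6_fam ends G v)) ω := by
    intro s
    unfold opn
    split_ifs <;> norm_num
  have hsum : 0 ≤ ∑ s ∈ D', opn (dsj (dsj (Pth ends v s) (H6_fam ends G s))
      (H6_fam ends G v)) ω := Finset.sum_nonneg fun s _ => hnn s
  by_cases h1 : D2e ends ω W G v
  · rw [if_pos h1]
    by_cases h2 : D2e ends ω (W ∪ (D' : Set V)) G v
    · rw [if_pos h2]
      linarith
    · rw [if_neg h2, zero_add]
      rw [D2e_iff hinj] at h1 h2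
      obtain ⟨g, hg, g', hg', hne, F, F', hdis, hop, h3, h4⟩ := h1
      -- a path which visits `D'`
      have key : ∀ (g1 g2 : V) (F1 F2 : Finset E), g1 ∈ G → g2 ∈ G → Disjoint F1 F2 →
          (∀ e ∈ F1 ∪ F2, ω e = true) → g1 ∈ cS ends (fun e => decide (e ∈ F1)) W {v} →
          g2 ∈ cS ends (fun e => decide (e ∈ F2)) W {v} →
          g1 ∉ cS ends (fun e => decide (e ∈ F1)) (W ∪ (D' : Set V)) {v} →
          1 ≤ ∑ s ∈ D', opn (dsj (dsj (Pth ends v s) (H6_fam ends G s)) (H6_fam ends G v)) ω := by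
        intro g1 g2 F1 F2 hg1 hg2 hd hop h5 h6 h7
        obtain ⟨s, hs, A, hA, B, hB, hAB, hAF, hBF⟩ := H6_split h5 h7
        have h8 : opn (dsj (dsj (Pth ends v s) (H6_fam ends G s)) (H6_fam ends G v)) ω = 1 := by
          unfold opn
          rw [if_pos]
          refine ⟨(A ∪ B) ∪ F2, ⟨A ∪ B, ⟨A, hA, B, ?_, hAB, rfl⟩, F2, ?_, ?_, rfl⟩, ?_⟩
          · refine ⟨g1, ?_⟩
            rw [Finset.mem_inter, mem_cu]
            exact ⟨hB, hg1⟩
          · refine ⟨g2, ?_⟩
            rw [Finset.mem_inter, mem_cu]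
            obtain ⟨a, ha, -, hr⟩ := mem_cS.1 h6
            rw [Set.mem_singleton_iff] at ha
            subst ha
            exact ⟨hr.mono (fun e he => he) (Set.subset_univ _), hg2⟩
          · exact Finset.disjoint_of_subset_left (Finset.union_subset hAF hBF) hd
          · intro e he
            apply hop
            rcases Finset.mem_union.1 he with he | he
            · exact Finset.mem_union_left _ (Finset.union_subset hAF hBF he)
            · exact Finset.mem_union_right _ he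
        rw [← h8]
        exact Finset.single_le_sum (f := fun s => opn (dsj (dsj (Pth ends v s) (H6_fam ends G s))
          (H6_fam ends G v)) ω) (fun s _ => hnn s) hs
      by_cases h5 : g ∈ cS ends (fun e => decide (e ∈ F)) (W ∪ (D' : Set V)) {v}
      · by_cases h6 : g' ∈ cS ends (fun e => decide (e ∈ F')) (W ∪ (D' : Set V)) {v}
        · exact absurd ⟨g, hg, g', hg', hne, F, F', hdis, hop, h5, h6⟩ h2
        · exact key g' g F' F hg' hg hdis.symm (by rwa [Finset.union_comm]) h4 h3 h6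
      · exact key g g' F F' hg hg' hdis hop h3 h4 h5
  · rw [if_neg h1]
    split_ifs <;> linarith

/-- Row H6. If `PPe` holds off `W` but not off `W ∪ D'`: one of the two edge-disjoint (simple) paths visits some `s ∈ D'`: edge-disjoint `v - s`, `s - g`, `v - g'`. `bk` twice for fixed `G`: `ta v s * cg s G * cg v G`, sum over `G`: `hM2`. -/
lemma D2_lo (hinj : Function.Injective ends) {p h M2 : ℝ} (h0 : 0 ≤ p) (h1 : p ≤ 1) (hh0 : 0 ≤ h) (hh1 : h ≤ 1) (hM2 : M2b ends p h M2) (W : Set V) (D' : Finset V) (v : V) :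
    D2 ends p h W v - D2 ends p h (W ∪ (D' : Set V)) v ≤ M2 * ∑ s ∈ D', ta ends p v s := by
  classical
  have hopP : ∀ s, Ex p (opn (Pth ends v s)) = ta ends p v s := by
    intro s
    unfold ta
    exact Ex_congr fun ω => opn_Pth v s ω
  have hopF : ∀ (G : Finset V) (x : V), Ex p (opn (H6_fam ends G x)) = cg ends p x G := by
    intro G x
    unfold cg
    exact Ex_congr fun ω => H6_opn G x ω
  have hta : ∀ s, 0 ≤ ta ends p v s := fun s => ta_nonneg h0 h1 v s
  have hcg : ∀ (G : Finset V) (x : V), 0 ≤ cg ends p x G := fun G x =>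
    Ex_nonneg h0 h1 fun ω => by split_ifs <;> norm_num
  have hG : ∀ G : Finset V, Ex p (fun ω => if D2e ends ω W G v then (1 : ℝ) else 0) ≤
      Ex p (fun ω => if D2e ends ω (W ∪ (D' : Set V)) G v then (1 : ℝ) else 0) +
      ∑ s ∈ D', ta ends p v s * (cg ends p s G * cg ends p v G) := by
    intro G
    refine (Ex_mono h0 h1 fun ω => H6_pt hinj ω W D' G v).trans ?_
    rw [Ex_add, Ex_sum]
    refine add_le_add le_rfl (Finset.sum_le_sum fun s _ => ?_)
    calc Ex p (fun ω => opn (dsj (dsj (Pth ends v s) (H6_fam ends G s)) (H6_fam ends G v)) ω)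
        ≤ Ex p (opn (dsj (Pth ends v s) (H6_fam ends G s))) * Ex p (opn (H6_fam ends G v)) :=
          bk h0 h1 _ _
      _ ≤ (Ex p (opn (Pth ends v s)) * Ex p (opn (H6_fam ends G s))) *
            Ex p (opn (H6_fam ends G v)) := by
          refine mul_le_mul_of_nonneg_right (bk h0 h1 _ _) ?_
          rw [hopF]
          exact hcg _ _
      _ = ta ends p v s * (cg ends p s G * cg ends p v G) := by
          rw [hopP, hopF, hopF]
          ring
  have hsum : D2 ends p h W v ≤ D2 ends p h (W ∪ (D' : Set V)) v +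
      ∑ s ∈ D', ta ends p v s * ∑ G : Finset V, gw h G * (cg ends p s G * cg ends p v G) := by
    unfold D2
    calc ∑ G : Finset V, gw h G * Ex p (fun ω => if D2e ends ω W G v then (1 : ℝ) else 0)
        ≤ ∑ G : Finset V, gw h G *
            (Ex p (fun ω => if D2e ends ω (W ∪ (D' : Set V)) G v then (1 : ℝ) else 0) +
            ∑ s ∈ D', ta ends p v s * (cg ends p s G * cg ends p v G)) :=
          Finset.sum_le_sum fun G _ => mul_le_mul_of_nonneg_left (hG G) (gw_nonneg hh0 hh1 G)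
      _ = _ := by
          simp only [mul_add, Finset.sum_add_distrib]
          congr 1
          simp only [Finset.mul_sum]
          rw [Finset.sum_comm]
          refine Finset.sum_congr rfl fun s _ => Finset.sum_congr rfl fun G _ => ?_
          ring
  have hfin : ∑ s ∈ D', ta ends p v s *
      ∑ G : Finset V, gw h G * (cg ends p s G * cg ends p v G) ≤
      M2 * ∑ s ∈ D', ta ends p v s := by
    rw [Finset.mul_sum]
    refine Finset.sum_le_sum fun s _ => ?_
    rw [mul_comm M2]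
    exact mul_le_mul_of_nonneg_left (hM2 s v) (hta s)
  linarith

/-- The true and the local quantity of Section 4. -/
noncomputable def b0q (ends : E → Sym2 V) (p h : ℝ) (u v : V) : ℝ :=
  Ex p (fun ω => if v ∈ cu ends ω u then (0 : ℝ) else fh h (cu ends ω u).card * D2 ends p h (cu ends ω u : Set V) v)

noncomputable def b1q (ends : E → Sym2 V) (p h : ℝ) (Q : Set V) (T : Finset V) (u v : V) : ℝ :=
  Ex p (fun ω => if v ∈ cS ends ω Qᶜ {u} then (0 : ℝ) else fh h (cu ends ω u).card * D2 ends p h ((cS ends ω Qᶜ {u} ∩ T : Finset V) : Set V) v)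

lemma H7_sub (Q : Set V) (ω : E → Bool) (u : V) : cS ends ω Qᶜ {u} ⊆ cu ends ω u := by
  intro y hy
  rw [mem_cS] at hy
  obtain ⟨a, ha, _, hr⟩ := hy
  rw [Set.mem_singleton_iff] at ha
  subst ha
  exact mem_cu.2 (hr.mono (fun _ h => h) (Set.subset_univ _))

lemma H7_cu (ω : E → Bool) (u : V) : cS ends ω (∅ : Set V) {u} = cu ends ω u := by
  ext y
  rw [mem_cS, mem_cu]
  constructor
  · rintro ⟨a, ha, _, hr⟩
    rw [Set.mem_singleton_iff] at ha
    subst ha
    rwa [Set.compl_empty] at hr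
  · intro hr
    exact ⟨u, rfl, fun h => h, by rwa [Set.compl_empty]⟩

lemma H7_tS (p : ℝ) (x y : V) : tS ends Set.univ p x y = ta ends p x y := by
  unfold tS ta
  apply Ex_congr
  intro ω
  rw [Set.compl_univ, H7_cu]

lemma H7_fork {p h M : ℝ} (h0 : 0 ≤ p) (h1 : p ≤ 1) (hh0 : 0 ≤ h) (hh1 : h ≤ 1) (hM : Mb ends p h M) (u s : V) :
    Ex p (fun ω => if s ∈ cu ends ω u then gh h (cu ends ω u).card else (0 : ℝ)) ≤
      M * ∑ z, ta ends p u z * ta ends p z s := by
  have h2 := fork (ends := ends) h0 h1 hh0 hh1 hM ∅ Set.univ u s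
  rw [Set.compl_univ, Set.union_empty] at h2
  simp only [H7_cu, H7_tS] at h2
  exact h2

lemma H7_M2 {p h M2 : ℝ} (hinj : Function.Injective ends) (h0 : 0 ≤ p) (h1 : p ≤ 1) (hh0 : 0 ≤ h) (hh1 : h ≤ 1)
    (hM2 : M2b ends p h M2) (u : V) : 0 ≤ M2 :=
  le_trans (D2_nonneg (ends := ends) h0 h1 hh0 hh1 ∅ u) (D2_le hinj h0 h1 hh0 hh1 hM2 ∅ u)

/-- The difference, pointwise. -/
lemma H7_pt (hinj : Function.Injective ends) {p h M2 : ℝ} (h0 : 0 ≤ p) (h1 : p ≤ 1) (hh0 : 0 < h) (hh1 : h ≤ 1)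
    (hM2 : M2b ends p h M2) (Q : Set V) (T : Finset V) (u v : V) (ω : E → Bool) :
    (if v ∈ cS ends ω Qᶜ {u} then (0 : ℝ) else fh h (cu ends ω u).card * D2 ends p h ((cS ends ω Qᶜ {u} ∩ T : Finset V) : Set V) v) ≤
      (if v ∈ cu ends ω u then (0 : ℝ) else fh h (cu ends ω u).card * D2 ends p h (cu ends ω u : Set V) v) +
      (M2 * (if v ∈ cu ends ω u ∧ v ∉ cS ends ω Qᶜ {u} then fh h (cu ends ω u).card else (0 : ℝ)) +
      (∑ s ∈ T, M2 * (if s ∈ cu ends ω u ∧ s ∉ cS ends ω Qᶜ {u} then fh h (cu ends ω u).card else (0 : ℝ)) +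
      ∑ s ∈ Tᶜ, (M2 / h * ta ends p v s) * (if s ∈ cu ends ω u then gh h (cu ends ω u).card else (0 : ℝ)))) := by
  have hM : 0 ≤ M2 := H7_M2 hinj h0 h1 hh0.le hh1 hM2 u
  have hF : 0 ≤ fh h (cu ends ω u).card := fh_nonneg hh0.le hh1 _
  have hG : 0 ≤ gh h (cu ends ω u).card := gh_nonneg hh0.le hh1 _
  have hFG : fh h (cu ends ω u).card ≤ gh h (cu ends ω u).card / h := by
    rw [le_div_iff₀ hh0, mul_comm]
    exact fh_le hh0.le hh1 _
  have hsub := H7_sub (ends := ends) Q ω u
  have hA : 0 ≤ M2 * (if v ∈ cu ends ω u ∧ v ∉ cS ends ω Qᶜ {u} then fh h (cu ends ω u).card else (0 : ℝ)) :=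
    mul_nonneg hM (by split_ifs <;> first | exact hF | exact le_refl _)
  have hBt : ∀ s ∈ T, 0 ≤ M2 * (if s ∈ cu ends ω u ∧ s ∉ cS ends ω Qᶜ {u} then fh h (cu ends ω u).card else (0 : ℝ)) :=
    fun s _ => mul_nonneg hM (by split_ifs <;> first | exact hF | exact le_refl _)
  have hB := Finset.sum_nonneg hBt
  have hCt : ∀ s ∈ Tᶜ, 0 ≤ (M2 / h * ta ends p v s) * (if s ∈ cu ends ω u then gh h (cu ends ω u).card else (0 : ℝ)) :=
    fun s _ => mul_nonneg (mul_nonneg (div_nonneg hM hh0.le) (ta_nonneg h0 h1 _ _))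
      (by split_ifs <;> first | exact hG | exact le_refl _)
  have hC := Finset.sum_nonneg hCt
  by_cases hvB : v ∈ cS ends ω Qᶜ {u}
  · rw [if_pos hvB, if_pos (hsub hvB)]
    linarith
  · rw [if_neg hvB]
    by_cases hvC : v ∈ cu ends ω u
    · rw [if_pos hvC, if_pos ⟨hvC, hvB⟩]
      have h3 := mul_le_mul_of_nonneg_left (D2_le (ends := ends) hinj h0 h1 hh0.le hh1 hM2 ((cS ends ω Qᶜ {u} ∩ T : Finset V) : Set V) v) hF
      rw [mul_comm (fh h (cu ends ω u).card) M2] at h3
      linarith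
    · rw [if_neg hvC]
      by_cases hs : ∃ s ∈ T, s ∈ cu ends ω u ∧ s ∉ cS ends ω Qᶜ {u}
      · obtain ⟨s, hsT, hs1⟩ := hs
        have h3 := mul_le_mul_of_nonneg_left (D2_le (ends := ends) hinj h0 h1 hh0.le hh1 hM2 ((cS ends ω Qᶜ {u} ∩ T : Finset V) : Set V) v) hF
        have h4 := Finset.single_le_sum hBt hsT
        rw [if_pos hs1] at h4
        have h5 : 0 ≤ fh h (cu ends ω u).card * D2 ends p h (cu ends ω u : Set V) v :=
          mul_nonneg hF (D2_nonneg h0 h1 hh0.le hh1 _ _)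
        rw [mul_comm (fh h (cu ends ω u).card) M2] at h3
        linarith
      · push Not at hs
        have hset : (cu ends ω u : Set V) = ((cS ends ω Qᶜ {u} ∩ T : Finset V) : Set V) ∪ ((cu ends ω u \ T : Finset V) : Set V) := by
          rw [← Finset.coe_union, Finset.coe_inj]
          ext s
          rw [Finset.mem_union, Finset.mem_inter, Finset.mem_sdiff]
          constructor
          · intro h6
            by_cases h7 : s ∈ T
            · exact Or.inl ⟨hs s h7 h6, h7⟩
            · exact Or.inr ⟨h6, h7⟩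
          · rintro (⟨h6, _⟩ | ⟨h6, _⟩)
            · exact hsub h6
            · exact h6
        have h3 := D2_lo (ends := ends) hinj h0 h1 hh0.le hh1 hM2 ((cS ends ω Qᶜ {u} ∩ T : Finset V) : Set V) (cu ends ω u \ T) v
        rw [← hset] at h3
        have h4 := mul_le_mul_of_nonneg_left h3 hF
        have h5 : fh h (cu ends ω u).card * (M2 * ∑ s ∈ cu ends ω u \ T, ta ends p v s) ≤
            ∑ s ∈ Tᶜ, (M2 / h * ta ends p v s) * (if s ∈ cu ends ω u then gh h (cu ends ω u).card else (0 : ℝ)) := by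
          have h6 : ∑ s ∈ cu ends ω u \ T, (M2 / h * ta ends p v s) * (if s ∈ cu ends ω u then gh h (cu ends ω u).card else (0 : ℝ)) ≤
              ∑ s ∈ Tᶜ, (M2 / h * ta ends p v s) * (if s ∈ cu ends ω u then gh h (cu ends ω u).card else (0 : ℝ)) := by
            apply Finset.sum_le_sum_of_subset_of_nonneg
            · intro s h7
              rw [Finset.mem_sdiff] at h7
              exact Finset.mem_compl.2 h7.2
            · intro s h7 _
              exact hCt s h7
          refine le_trans ?_ h6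
          rw [Finset.mul_sum, Finset.mul_sum]
          apply Finset.sum_le_sum
          intro s h7
          rw [Finset.mem_sdiff] at h7
          rw [if_pos h7.1]
          have h8 : 0 ≤ M2 * ta ends p v s := mul_nonneg hM (ta_nonneg h0 h1 _ _)
          have h9 := mul_le_mul_of_nonneg_left hFG h8
          calc fh h (cu ends ω u).card * (M2 * ta ends p v s) = M2 * ta ends p v s * fh h (cu ends ω u).card := by ring
            _ ≤ M2 * ta ends p v s * (gh h (cu ends ω u).card / h) := h9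
            _ = M2 / h * ta ends p v s * gh h (cu ends ω u).card := by ring
        rw [mul_sub] at h4
        linarith

/-- Row H7. As `q_diff`, simpler: `C = cu ω u`, `B = cS ω Qᶜ {u}`, `W = B ∩ T`. If `v ∈ C \ B` or some `s ∈ T` is in `C \ B`: `≤ fh |C| M2` (`D2_le`). Otherwise `C = W ∪ (C \ T)`: `D2_lo`: `≤ fh |C| M2 ∑_{s ∈ C \ T} ta v s`, `fh ≤ gh / h`, `E[gh |C|; s ∈ C] ≤ M ∑_z ta u z ta z s` (`fork` with `D = ∅`, `Q = univ`). -/
lemma b_diff (hinj : Function.Injective ends) {p h M M2 : ℝ} (h0 : 0 ≤ p) (h1 : p ≤ 1) (hh0 : 0 < h) (hh1 : h ≤ 1) (hM : Mb ends p h M) (hM2 : M2b ends p h M2) (Q : Set V) (T : Finset V) (u v : V) :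
    b1q ends p h Q T u v - b0q ends p h u v ≤
      M2 * Ex p (fun ω => if v ∈ cu ends ω u ∧ v ∉ cS ends ω Qᶜ {u} then fh h (cu ends ω u).card else (0 : ℝ)) +
      M2 * ∑ s ∈ T, Ex p (fun ω => if s ∈ cu ends ω u ∧ s ∉ cS ends ω Qᶜ {u} then fh h (cu ends ω u).card else (0 : ℝ)) +
      M2 * (M / h) * ∑ s ∈ Tᶜ, (∑ z, ta ends p u z * ta ends p z s) * ta ends p v s := by
  have hM0 : 0 ≤ M2 := H7_M2 hinj h0 h1 hh0.le hh1 hM2 u
  have h3 := Ex_mono h0 h1 (fun ω => H7_pt hinj h0 h1 hh0 hh1 hM2 Q T u v ω)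
  rw [Ex_add, Ex_add, Ex_add, Ex_sum, Ex_sum, Ex_mul_left] at h3
  simp only [Ex_mul_left] at h3
  rw [← Finset.mul_sum] at h3
  have h4 : ∑ s ∈ Tᶜ, (M2 / h * ta ends p v s) * Ex p (fun ω => if s ∈ cu ends ω u then gh h (cu ends ω u).card else (0 : ℝ)) ≤
      M2 * (M / h) * ∑ s ∈ Tᶜ, (∑ z, ta ends p u z * ta ends p z s) * ta ends p v s := by
    rw [Finset.mul_sum]
    apply Finset.sum_le_sum
    intro s _
    have h5 : 0 ≤ M2 / h * ta ends p v s := mul_nonneg (div_nonneg hM0 hh0.le) (ta_nonneg h0 h1 _ _)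
    have h6 := mul_le_mul_of_nonneg_left (H7_fork (ends := ends) h0 h1 hh0.le hh1 hM u s) h5
    refine le_trans h6 (le_of_eq ?_)
    ring
  unfold b1q b0q
  linarith

/-- Row H7. -/
lemma b0_b1 (hinj : Function.Injective ends) {p h : ℝ} (h0 : 0 ≤ p) (h1 : p ≤ 1) (hh0 : 0 ≤ h) (hh1 : h ≤ 1) (Q : Set V) (T : Finset V) (u v : V) :
    b0q ends p h u v ≤ b1q ends p h Q T u v := by
  unfold b0q b1q
  apply Ex_mono h0 h1
  intro ω
  have hF : 0 ≤ fh h (cu ends ω u).card := fh_nonneg hh0 hh1 _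
  have hsub := H7_sub (ends := ends) Q ω u
  by_cases hvC : v ∈ cu ends ω u
  · rw [if_pos hvC]
    by_cases hvB : v ∈ cS ends ω Qᶜ {u}
    · rw [if_pos hvB]
    · rw [if_neg hvB]
      exact mul_nonneg hF (D2_nonneg h0 h1 hh0 hh1 _ _)
  · rw [if_neg hvC, if_neg (fun h2 => hvC (hsub h2))]
    apply mul_le_mul_of_nonneg_left _ hF
    apply D2_anti hinj h0 h1 hh0 hh1
    intro s hs
    rw [Finset.mem_coe, Finset.mem_inter] at hs
    exact Finset.mem_coe.2 (hsub hs.1)

/-- The edge sets which join `x` to `G`. -/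
def H8a_fam (ends : E → Sym2 V) (x : V) (G : Finset V) : Set (Finset E) := {F | ∃ g ∈ G, F ∈ Pth ends x g}

open scoped Classical in
lemma H8a_opn (x : V) (G : Finset V) (ω : E → Bool) :
    opn (H8a_fam ends x G) ω = if (cu ends ω x ∩ G).Nonempty then (1 : ℝ) else 0 := by
  unfold opn
  have hiff : (∃ F ∈ H8a_fam ends x G, ∀ e ∈ F, ω e = true) ↔ (cu ends ω x ∩ G).Nonempty := by
    constructor
    · rintro ⟨F, ⟨g, hg, hF⟩, hop⟩
      have hF' : Rch ends (fun e => decide (e ∈ F)) Set.univ x g := hF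
      exact ⟨g, Finset.mem_inter.2 ⟨mem_cu.2 (hF'.mono (fun e he => hop e (of_decide_eq_true he)) le_rfl), hg⟩⟩
    · rintro ⟨g, hg⟩
      obtain ⟨k1, k2⟩ := Finset.mem_inter.1 hg
      refine ⟨Finset.univ.filter (fun e => ω e = true), ⟨g, k2, ?_⟩, fun e he => (Finset.mem_filter.1 he).2⟩
      change Rch ends (fun e => decide (e ∈ Finset.univ.filter (fun e => ω e = true))) Set.univ x g
      exact (mem_cu.1 k1).mono (fun e he => by simp [he]) le_rfl
  by_cases hc : (cu ends ω x ∩ G).Nonempty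
  · rw [if_pos hc, if_pos (hiff.2 hc)]
  · rw [if_neg hc, if_neg (fun h => hc (hiff.1 h))]

lemma H8a_opn_nonneg (A : Set (Finset E)) (ω : E → Bool) : 0 ≤ opn A ω := by
  unfold opn
  split_ifs <;> norm_num

lemma H8a_six {p : ℝ} (h0 : 0 ≤ p) (h1 : p ≤ 1) (A1 A2 A3 A4 A5 A6 : Set (Finset E)) :
    Ex p (opn (dsj (dsj (dsj (dsj (dsj A1 A2) A3) A4) A5) A6)) ≤
      Ex p (opn A1) * Ex p (opn A2) * Ex p (opn A3) * Ex p (opn A4) * Ex p (opn A5) * Ex p (opn A6) := by
  have hn : ∀ A : Set (Finset E), 0 ≤ Ex p (opn A) := fun A => Ex_nonneg h0 h1 fun ω => H8a_opn_nonneg A ω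
  refine (bk h0 h1 _ _).trans (mul_le_mul_of_nonneg_right ?_ (hn A6))
  refine (bk h0 h1 _ _).trans (mul_le_mul_of_nonneg_right ?_ (hn A5))
  refine (bk h0 h1 _ _).trans (mul_le_mul_of_nonneg_right ?_ (hn A4))
  refine (bk h0 h1 _ _).trans (mul_le_mul_of_nonneg_right ?_ (hn A3))
  exact bk h0 h1 A1 A2

open scoped Classical in
/-- Row H8. `bk` five times for fixed `G` (families `Pth v z`, `Pth z x`, `Pth v x'`, `Pth x' x`, `{F | some g ∈ G in cu (1_F) x}`, the same for `x'`), `hM2`. -/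
lemma H_bound {p h M2 : ℝ} (h0 : 0 ≤ p) (h1 : p ≤ 1) (hh0 : 0 ≤ h) (hh1 : h ≤ 1) (hM2 : M2b ends p h M2) (P : Finset V) (v : V) :
    ∑ G : Finset V, gw h G * Ex p (fun ω => if ∃ x x' z, Hsh ends ω P G v x x' z then (1 : ℝ) else 0) ≤
      M2 * ∑ x, ∑ x', ∑ z ∈ P, ta ends p v z * ta ends p z x * (ta ends p v x' * ta ends p x' x) := by
  have hta : ∀ a b : V, Ex p (opn (Pth ends a b)) = ta ends p a b := by
    intro a b
    unfold ta
    exact Ex_congr fun ω => opn_Pth a b ω
  have hcg : ∀ (a : V) (G : Finset V), Ex p (opn (H8a_fam ends a G)) = cg ends p a G := by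
    intro a G
    unfold cg
    exact Ex_congr fun ω => H8a_opn a G ω
  have hT0 : ∀ x x' z : V, 0 ≤ ta ends p v z * ta ends p z x * (ta ends p v x' * ta ends p x' x) := fun x x' z =>
    mul_nonneg (mul_nonneg (ta_nonneg h0 h1 _ _) (ta_nonneg h0 h1 _ _)) (mul_nonneg (ta_nonneg h0 h1 _ _) (ta_nonneg h0 h1 _ _))
  have hG : ∀ G : Finset V, Ex p (fun ω => if ∃ x x' z, Hsh ends ω P G v x x' z then (1 : ℝ) else 0) ≤
      ∑ x, ∑ x', ∑ z ∈ P, ta ends p v z * ta ends p z x * (ta ends p v x' * ta ends p x' x) * (cg ends p x G * cg ends p x' G) := by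
    intro G
    have hpt : ∀ ω : E → Bool, (if ∃ x x' z, Hsh ends ω P G v x x' z then (1 : ℝ) else 0) ≤
        ∑ x, ∑ x', ∑ z ∈ P, opn (dsj (dsj (dsj (dsj (dsj (Pth ends v z) (Pth ends z x)) (Pth ends v x')) (Pth ends x' x)) (H8a_fam ends x G)) (H8a_fam ends x' G)) ω := by
      intro ω
      by_cases hc : ∃ x x' z, Hsh ends ω P G v x x' z
      · rw [if_pos hc]
        obtain ⟨x, x', z, hz, F1, hF1, F2, hF2, F3, hF3, F4, hF4, g, hg, F5, hF5, g', hg', F6, hF6, d1, d2, d3, d4, d5, hop⟩ := hc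
        have h6 : opn (dsj (dsj (dsj (dsj (dsj (Pth ends v z) (Pth ends z x)) (Pth ends v x')) (Pth ends x' x)) (H8a_fam ends x G)) (H8a_fam ends x' G)) ω = 1 := by
          unfold opn
          rw [if_pos]
          exact ⟨F1 ∪ F2 ∪ F3 ∪ F4 ∪ F5 ∪ F6, ⟨F1 ∪ F2 ∪ F3 ∪ F4 ∪ F5, ⟨F1 ∪ F2 ∪ F3 ∪ F4, ⟨F1 ∪ F2 ∪ F3, ⟨F1 ∪ F2, ⟨F1, hF1, F2, hF2, d1, rfl⟩, F3, hF3, d2, rfl⟩, F4, hF4, d3, rfl⟩,
            F5, ⟨g, hg, hF5⟩, d4, rfl⟩, F6, ⟨g', hg', hF6⟩, d5, rfl⟩, hop⟩
        rw [← h6]
        calc opn (dsj (dsj (dsj (dsj (dsj (Pth ends v z) (Pth ends z x)) (Pth ends v x')) (Pth ends x' x)) (H8a_fam ends x G)) (H8a_fam ends x' G)) ω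
            ≤ ∑ z ∈ P, opn (dsj (dsj (dsj (dsj (dsj (Pth ends v z) (Pth ends z x)) (Pth ends v x')) (Pth ends x' x)) (H8a_fam ends x G)) (H8a_fam ends x' G)) ω :=
              Finset.single_le_sum (f := fun z => opn (dsj (dsj (dsj (dsj (dsj (Pth ends v z) (Pth ends z x)) (Pth ends v x')) (Pth ends x' x)) (H8a_fam ends x G)) (H8a_fam ends x' G)) ω)
                (fun z _ => H8a_opn_nonneg _ ω) hz
          _ ≤ ∑ x', ∑ z ∈ P, opn (dsj (dsj (dsj (dsj (dsj (Pth ends v z) (Pth ends z x)) (Pth ends v x')) (Pth ends x' x)) (H8a_fam ends x G)) (H8a_fam ends x' G)) ω :=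
              Finset.single_le_sum (f := fun x' => ∑ z ∈ P, opn (dsj (dsj (dsj (dsj (dsj (Pth ends v z) (Pth ends z x)) (Pth ends v x')) (Pth ends x' x)) (H8a_fam ends x G)) (H8a_fam ends x' G)) ω)
                (fun x' _ => Finset.sum_nonneg fun z _ => H8a_opn_nonneg _ ω) (Finset.mem_univ x')
          _ ≤ _ :=
              Finset.single_le_sum (f := fun x => ∑ x', ∑ z ∈ P, opn (dsj (dsj (dsj (dsj (dsj (Pth ends v z) (Pth ends z x)) (Pth ends v x')) (Pth ends x' x)) (H8a_fam ends x G)) (H8a_fam ends x' G)) ω)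
                (fun x _ => Finset.sum_nonneg fun x' _ => Finset.sum_nonneg fun z _ => H8a_opn_nonneg _ ω) (Finset.mem_univ x)
      · rw [if_neg hc]
        exact Finset.sum_nonneg fun x _ => Finset.sum_nonneg fun x' _ => Finset.sum_nonneg fun z _ => H8a_opn_nonneg _ ω
    refine (Ex_mono h0 h1 hpt).trans ?_
    rw [Ex_sum]
    refine Finset.sum_le_sum fun x _ => ?_
    rw [Ex_sum]
    refine Finset.sum_le_sum fun x' _ => ?_
    rw [Ex_sum]
    refine Finset.sum_le_sum fun z _ => ?_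
    have h2 := H8a_six h0 h1 (Pth ends v z) (Pth ends z x) (Pth ends v x') (Pth ends x' x) (H8a_fam ends x G) (H8a_fam ends x' G)
    rw [hta, hta, hta, hta, hcg, hcg] at h2
    refine h2.trans (le_of_eq ?_)
    ring
  calc ∑ G : Finset V, gw h G * Ex p (fun ω => if ∃ x x' z, Hsh ends ω P G v x x' z then (1 : ℝ) else 0)
      ≤ ∑ G : Finset V, gw h G * ∑ x, ∑ x', ∑ z ∈ P, ta ends p v z * ta ends p z x * (ta ends p v x' * ta ends p x' x) * (cg ends p x G * cg ends p x' G) :=
        Finset.sum_le_sum fun G _ => mul_le_mul_of_nonneg_left (hG G) (gw_nonneg hh0 hh1 G)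
    _ = ∑ x, ∑ x', ∑ z ∈ P, ta ends p v z * ta ends p z x * (ta ends p v x' * ta ends p x' x) * ∑ G : Finset V, gw h G * (cg ends p x G * cg ends p x' G) := by
        simp_rw [Finset.mul_sum]
        rw [Finset.sum_comm]
        refine Finset.sum_congr rfl fun x _ => ?_
        rw [Finset.sum_comm]
        refine Finset.sum_congr rfl fun x' _ => ?_
        rw [Finset.sum_comm]
        refine Finset.sum_congr rfl fun z _ => Finset.sum_congr rfl fun G _ => ?_
        ring
    _ ≤ ∑ x, ∑ x', ∑ z ∈ P, ta ends p v z * ta ends p z x * (ta ends p v x' * ta ends p x' x) * M2 :=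
        Finset.sum_le_sum fun x _ => Finset.sum_le_sum fun x' _ => Finset.sum_le_sum fun z _ =>
          mul_le_mul_of_nonneg_left (hM2 x x') (hT0 x x' z)
    _ = M2 * ∑ x, ∑ x', ∑ z ∈ P, ta ends p v z * ta ends p z x * (ta ends p v x' * ta ends p x' x) := by
        simp_rw [Finset.mul_sum]
        exact Finset.sum_congr rfl fun x _ => Finset.sum_congr rfl fun x' _ => Finset.sum_congr rfl fun z _ => mul_comm _ _

open scoped Classical in
private lemma H8b_one {h : ℝ} (hh0 : 0 ≤ h) (hh1 : h ≤ 1) (C : Finset V) (y : V) :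
    ∑ G : Finset V, gw h G * ((if y ∈ G then (1 : ℝ) else 0) * (if ((C \ {y}) ∩ G).Nonempty then (1 : ℝ) else 0)) ≤ h * gh h C.card := by
  have hf : ∀ G G' : Finset V, G \ {y} = G' \ {y} →
      (if ((C \ {y}) ∩ G).Nonempty then (1 : ℝ) else 0) = (if ((C \ {y}) ∩ G').Nonempty then (1 : ℝ) else 0) := by
    intro G G' hG
    have key : ∀ G : Finset V, (C \ {y}) ∩ G = C ∩ (G \ {y}) := by
      intro G
      ext z
      simp only [Finset.mem_inter, Finset.mem_sdiff, Finset.mem_singleton]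
      tauto
    rw [key G, key G', hG]
  have h1 := ghost_ind h {y} (fun G : Finset V => (if ((C \ {y}) ∩ G).Nonempty then (1 : ℝ) else 0)) hf
  have h2 := ghost1 h (C \ {y})
  have h3 : ∀ G : Finset V, gw h G * ((if y ∈ G then (1 : ℝ) else 0) * (if ((C \ {y}) ∩ G).Nonempty then (1 : ℝ) else 0)) =
      gw h G * (if ((C \ {y}) ∩ G).Nonempty then (1 : ℝ) else 0) -
      gw h G * ((if Disjoint ({y} : Finset V) G then (1 : ℝ) else 0) * (if ((C \ {y}) ∩ G).Nonempty then (1 : ℝ) else 0)) := by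
    intro G
    by_cases hy : y ∈ G
    · have : ¬ Disjoint ({y} : Finset V) G := by simpa using hy
      simp only [hy, this, if_true, if_false]
      ring
    · have : Disjoint ({y} : Finset V) G := by simpa using hy
      simp only [hy, this, if_true, if_false]
      ring
  rw [Finset.sum_congr rfl fun G _ => h3 G, Finset.sum_sub_distrib, h1, h2]
  have h4 : gh h (C \ {y}).card ≤ gh h C.card := gh_mono hh0 hh1 (Finset.card_le_card Finset.sdiff_subset)
  simp only [Finset.card_singleton, pow_one]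
  nlinarith

open scoped Classical in
/-- Row H8. A green vertex `y` in `Bx ⊆ Q` and another green vertex joined to `v`: for `y` fixed `P_G(y ∈ G, some g ∈ G \ {y} in C) ≤ h gh |C|` (independence of `y ∈ G` and `G \ {y}`). -/
lemma green_in {p h M : ℝ} (h0 : 0 ≤ p) (h1 : p ≤ 1) (hh0 : 0 ≤ h) (hh1 : h ≤ 1) (hM : Mb ends p h M) (D : Set V) (Q : Finset V) (v : V) :
    ∑ G : Finset V, gw h G * Ex p (fun ω => if D2e ends ω D G v ∧ ∃ y ∈ cS ends ω (D ∪ (Q : Set V)ᶜ) {v}, y ∈ G then (1 : ℝ) else 0) ≤ (Q.card : ℝ) * (h * M) := by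
  have hpt : ∀ (G : Finset V) (ω : E → Bool),
      (if D2e ends ω D G v ∧ ∃ y ∈ cS ends ω (D ∪ (Q : Set V)ᶜ) {v}, y ∈ G then (1 : ℝ) else 0) ≤
        ∑ y ∈ Q, (if y ∈ G then (1 : ℝ) else 0) * (if ((cS ends ω D {v} \ {y}) ∩ G).Nonempty then (1 : ℝ) else 0) := by
    intro G ω
    have hnn : ∀ y ∈ Q, (0 : ℝ) ≤ (if y ∈ G then (1 : ℝ) else 0) * (if ((cS ends ω D {v} \ {y}) ∩ G).Nonempty then (1 : ℝ) else 0) := by
      intro y _
      split_ifs <;> norm_num
    split_ifs with hc
    · obtain ⟨⟨h2, -⟩, y, hy, hyG⟩ := hc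
      have hyQ : y ∈ Q := by
        have := cS_off hy
        by_contra hq
        exact this (Or.inr (by simpa using hq))
      have hyC : y ∈ cS ends ω D {v} :=
        cS_mono (fun _ h => h) Set.subset_union_left (Set.Subset.refl _) hy
      obtain ⟨a, ha, hay⟩ := Finset.exists_mem_ne (show 1 < (cS ends ω D {v} ∩ G).card by omega) y
      have hne : ((cS ends ω D {v} \ {y}) ∩ G).Nonempty := by
        refine ⟨a, ?_⟩
        simp only [Finset.mem_inter, Finset.mem_sdiff, Finset.mem_singleton] at ha ⊢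
        exact ⟨⟨ha.1, hay⟩, ha.2⟩
      have h5 := Finset.single_le_sum hnn hyQ
      simp only [hyG, hne, if_true, mul_one] at h5
      exact h5
    · exact Finset.sum_nonneg hnn
  calc ∑ G : Finset V, gw h G * Ex p (fun ω => if D2e ends ω D G v ∧ ∃ y ∈ cS ends ω (D ∪ (Q : Set V)ᶜ) {v}, y ∈ G then (1 : ℝ) else 0)
      ≤ ∑ G : Finset V, gw h G * Ex p (fun ω => ∑ y ∈ Q, (if y ∈ G then (1 : ℝ) else 0) * (if ((cS ends ω D {v} \ {y}) ∩ G).Nonempty then (1 : ℝ) else 0)) :=
        Finset.sum_le_sum fun G _ => mul_le_mul_of_nonneg_left (Ex_mono h0 h1 (hpt G)) (gw_nonneg hh0 hh1 G)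
    _ = Ex p (fun ω => ∑ G : Finset V, gw h G * ∑ y ∈ Q, (if y ∈ G then (1 : ℝ) else 0) * (if ((cS ends ω D {v} \ {y}) ∩ G).Nonempty then (1 : ℝ) else 0)) := by
        rw [Ex_sum]
        exact Finset.sum_congr rfl fun G _ => (Ex_mul_left _ _ _).symm
    _ ≤ Ex p (fun ω => ((Q.card : ℝ) * h) * gh h (cS ends ω D {v}).card) := by
        apply Ex_mono h0 h1
        intro ω
        have h6 : ∑ G : Finset V, gw h G * ∑ y ∈ Q, (if y ∈ G then (1 : ℝ) else 0) * (if ((cS ends ω D {v} \ {y}) ∩ G).Nonempty then (1 : ℝ) else 0) =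
            ∑ y ∈ Q, ∑ G : Finset V, gw h G * ((if y ∈ G then (1 : ℝ) else 0) * (if ((cS ends ω D {v} \ {y}) ∩ G).Nonempty then (1 : ℝ) else 0)) := by
          rw [Finset.sum_comm]
          exact Finset.sum_congr rfl fun G _ => by rw [Finset.mul_sum]
        rw [h6]
        calc ∑ y ∈ Q, ∑ G : Finset V, gw h G * ((if y ∈ G then (1 : ℝ) else 0) * (if ((cS ends ω D {v} \ {y}) ∩ G).Nonempty then (1 : ℝ) else 0))
            ≤ ∑ y ∈ Q, h * gh h (cS ends ω D {v}).card := Finset.sum_le_sum fun y _ => H8b_one hh0 hh1 _ y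
          _ = (Q.card : ℝ) * h * gh h (cS ends ω D {v}).card := by
            rw [Finset.sum_const, nsmul_eq_mul]
            ring
    _ = ((Q.card : ℝ) * h) * Ex p (fun ω => gh h (cS ends ω D {v}).card) := Ex_mul_left _ _ _
    _ ≤ ((Q.card : ℝ) * h) * M := mul_le_mul_of_nonneg_left (hM D v) (by positivity)
    _ = (Q.card : ℝ) * (h * M) := by ring

open scoped Classical in
/-- The probability of `Oe`. -/
noncomputable def Og (ends : E → Sym2 V) (p h : ℝ) (D Q : Set V) (v : V) : ℝ :=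
  ∑ G : Finset V, gw h G * Ex p (fun ω => if Oe ends ω D Q G v then (1 : ℝ) else 0)

/-- Row H9. `Oe_PPe`, `D2e_iff`, `HLem`, `H_bound`, `green_in`. -/
lemma D2_Og (hinj : Function.Injective ends) {p h M M2 : ℝ} (h0 : 0 ≤ p) (h1 : p ≤ 1) (hh0 : 0 ≤ h) (hh1 : h ≤ 1) (hM : Mb ends p h M) (hM2 : M2b ends p h M2) (D : Set V) (Q P : Finset V) (v : V) (hvQ : v ∈ Q) (hvD : v ∉ D)
    (hP : ∀ e x y, ends e = s(x, y) → x ∈ Q → y ∉ Q → x ∈ P)
    (hone : ∀ n, n ∉ Q → ∀ e e' a a', ends e = s(a, n) → ends e' = s(a', n) → a ∈ Q → a' ∈ Q → e = e') :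
    Og ends p h D (Q : Set V) v ≤ D2 ends p h D v ∧ D2 ends p h D v - Og ends p h D (Q : Set V) v ≤
      (Q.card : ℝ) * (h * M) + M2 * ∑ x, ∑ x', ∑ z ∈ P, ta ends p v z * ta ends p z x * (ta ends p v x' * ta ends p x' x) := by
  classical
  have hOD : ∀ (ω : E → Bool) (G : Finset V), Oe ends ω D (Q : Set V) G v → D2e ends ω D G v :=
    fun ω G hO => (D2e_iff hinj ω D G v).2 (Oe_PPe hO)
  refine ⟨?_, ?_⟩
  · unfold Og D2
    refine Finset.sum_le_sum fun G _ => mul_le_mul_of_nonneg_left ?_ (gw_nonneg hh0 hh1 G)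
    refine Ex_mono h0 h1 fun ω => ?_
    by_cases hO : Oe ends ω D (Q : Set V) G v
    · rw [if_pos hO, if_pos (hOD ω G hO)]
    · rw [if_neg hO]
      split_ifs
      · exact zero_le_one
      · exact le_rfl
  · have e1 := green_in (ends := ends) (p := p) (h := h) (M := M) h0 h1 hh0 hh1 hM D Q v
    have e2 := H_bound (ends := ends) (p := p) (h := h) (M2 := M2) h0 h1 hh0 hh1 hM2 P v
    have key : D2 ends p h D v ≤ Og ends p h D (Q : Set V) v +
        (∑ G : Finset V, gw h G * Ex p (fun ω => if D2e ends ω D G v ∧ ∃ y ∈ cS ends ω (D ∪ (Q : Set V)ᶜ) {v}, y ∈ G then (1 : ℝ) else 0) +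
         ∑ G : Finset V, gw h G * Ex p (fun ω => if ∃ x x' z, Hsh ends ω P G v x x' z then (1 : ℝ) else 0)) := by
      unfold Og D2
      rw [← Finset.sum_add_distrib, ← Finset.sum_add_distrib]
      refine Finset.sum_le_sum fun G _ => ?_
      rw [← mul_add, ← mul_add]
      refine mul_le_mul_of_nonneg_left ?_ (gw_nonneg hh0 hh1 G)
      rw [← Ex_add, ← Ex_add]
      refine Ex_mono h0 h1 fun ω => ?_
      have n1 : (0 : ℝ) ≤ (if Oe ends ω D (Q : Set V) G v then (1 : ℝ) else 0) := by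
        split_ifs
        · exact zero_le_one
        · exact le_rfl
      have n2 : (0 : ℝ) ≤ (if D2e ends ω D G v ∧ ∃ y ∈ cS ends ω (D ∪ (Q : Set V)ᶜ) {v}, y ∈ G then (1 : ℝ) else 0) := by
        split_ifs
        · exact zero_le_one
        · exact le_rfl
      have n3 : (0 : ℝ) ≤ (if ∃ x x' z, Hsh ends ω P G v x x' z then (1 : ℝ) else 0) := by
        split_ifs
        · exact zero_le_one
        · exact le_rfl
      by_cases hD : D2e ends ω D G v
      · rw [if_pos hD]
        by_cases hO : Oe ends ω D (Q : Set V) G v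
        · rw [if_pos hO]
          linarith
        · by_cases hy : ∃ y ∈ cS ends ω (D ∪ (Q : Set V)ᶜ) {v}, y ∈ G
          · rw [if_pos (show D2e ends ω D G v ∧ ∃ y ∈ cS ends ω (D ∪ (Q : Set V)ᶜ) {v}, y ∈ G from ⟨hD, hy⟩)]
            linarith
          · have hH : ∃ x x' z, Hsh ends ω P G v x x' z := by
              refine HLem hinj (Q := (Q : Set V)) (D := D) (Finset.mem_coe.2 hvQ) hvD ?_ ?_ ((D2e_iff hinj ω D G v).1 hD) ?_ hO
              · intro e x y hexy hx hy'
                exact hP e x y hexy (Finset.mem_coe.1 hx) (fun hq => hy' (Finset.mem_coe.2 hq))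
              · intro n hn e e' a a' he he' ha ha'
                exact hone n (fun hq => hn (Finset.mem_coe.2 hq)) e e' a a' he he' (Finset.mem_coe.1 ha) (Finset.mem_coe.1 ha')
              · intro y hy1 hy2
                exact hy ⟨y, hy1, hy2⟩
            rw [if_pos hH]
            linarith
      · rw [if_neg hD]
        linarith
    linarith

open scoped Classical in
/-- The functional of a set of pairs. -/
noncomputable def Of (ends : E → Sym2 V) (p h : ℝ) (D : Set V) (ρ : Finset (V × V)) : ℝ :=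
  ∑ G : Finset V, gw h G * Ex p (fun ω => if ∃ q ∈ ρ, q.2 ∉ cS ends ω D {q.1} ∧ (cS ends ω D {q.1} ∩ G).Nonempty ∧ (cS ends ω D {q.2} ∩ G).Nonempty then (1 : ℝ) else 0)

open scoped Classical in
/-- The related pairs. -/
noncomputable def Rs (ends : E → Sym2 V) (ω : E → Bool) (D Q : Set V) (v : V) : Finset (V × V) := Finset.univ.filter (fun q => Rl ends ω D Q v q.1 q.2)

open scoped Classical in
/-- Row J1 helper: the functional of the explored part `a` and of the rest of the configuration. -/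
noncomputable def J1_F (ends : E → Sym2 V) (D : Set V) (G : Finset V) (a : Finset V × Finset (V × V)) (ω : E → Bool) : ℝ :=
  if ∃ q ∈ a.2, q.2 ∉ cS ends ω (D ∪ ((a.1 : Finset V) : Set V)) {q.1} ∧
    (cS ends ω (D ∪ ((a.1 : Finset V) : Set V)) {q.1} ∩ G).Nonempty ∧
    (cS ends ω (D ∪ ((a.1 : Finset V) : Set V)) {q.2} ∩ G).Nonempty then (1 : ℝ) else 0

/-- Row J1 helper: the local cluster is determined by the edges with an end in it. -/
lemma J1_Bx {ω ω' : E → Bool} {D Q : Set V} {v : V}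
    (h : ∀ e : E, (∃ y ∈ cS ends ω (D ∪ Qᶜ) {v}, y ∈ ends e) → ω e = ω' e) :
    cS ends ω' (D ∪ Qᶜ) {v} = cS ends ω (D ∪ Qᶜ) {v} := by
  apply cS_dep
  intro e a b he ha _
  exact h e ⟨a, ha, by rw [he]; exact Sym2.mem_mk_left a b⟩

/-- Row J1 helper: the relation is determined by the edges with an end in the local cluster. -/
lemma J1_Rl {ω ω' : E → Bool} {D Q : Set V} {v n n' : V}
    (h : ∀ e : E, (∃ y ∈ cS ends ω (D ∪ Qᶜ) {v}, y ∈ ends e) → ω e = ω' e)
    (hR : Rl ends ω D Q v n n') : Rl ends ω' D Q v n n' := by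
  classical
  obtain ⟨hnn, F, F', hFF, hop, hX, hX'⟩ := hR
  have key : ∀ (F0 : Finset E) (m0 : V), (∀ e ∈ F0, ω e = true) → Xr ends F0 D Q v m0 →
      Xr ends (F0.filter (fun e => ∃ y ∈ cS ends ω (D ∪ Qᶜ) {v}, y ∈ ends e)) D Q v m0 := by
    intro F0 m0 hF0 hx
    obtain ⟨h1, h2, m, hm, e, he, hem⟩ := hx
    have hsub : cS ends (fun e => decide (e ∈ F0)) (D ∪ Qᶜ) {v} ⊆ cS ends ω (D ∪ Qᶜ) {v} := by
      apply cS_mono _ (Set.Subset.refl _) (Set.Subset.refl _)
      intro e he
      exact hF0 e (of_decide_eq_true he)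
    have heq : cS ends (fun e => decide (e ∈ F0.filter (fun e => ∃ y ∈ cS ends ω (D ∪ Qᶜ) {v}, y ∈ ends e)))
        (D ∪ Qᶜ) {v} = cS ends (fun e => decide (e ∈ F0)) (D ∪ Qᶜ) {v} := by
      apply cS_dep
      intro e a b heab ha _
      have hin : ∃ y ∈ cS ends ω (D ∪ Qᶜ) {v}, y ∈ ends e :=
        ⟨a, hsub ha, by rw [heab]; exact Sym2.mem_mk_left a b⟩
      have : (e ∈ F0) ↔ (e ∈ F0.filter (fun e => ∃ y ∈ cS ends ω (D ∪ Qᶜ) {v}, y ∈ ends e)) := by
        rw [Finset.mem_filter]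
        exact ⟨fun h => ⟨h, hin⟩, fun h => h.1⟩
      simp only [this]
    refine ⟨h1, h2, m, ?_, e, ?_, hem⟩
    · rw [heq]; exact hm
    · rw [Finset.mem_filter]
      exact ⟨he, m, hsub hm, by rw [hem]; exact Sym2.mem_mk_left m m0⟩
  refine ⟨hnn, F.filter (fun e => ∃ y ∈ cS ends ω (D ∪ Qᶜ) {v}, y ∈ ends e),
    F'.filter (fun e => ∃ y ∈ cS ends ω (D ∪ Qᶜ) {v}, y ∈ ends e), ?_, ?_, ?_, ?_⟩
  · exact Finset.disjoint_of_subset_left (Finset.filter_subset _ _)
      (Finset.disjoint_of_subset_right (Finset.filter_subset _ _) hFF)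
  · intro e he
    rw [Finset.mem_union, Finset.mem_filter, Finset.mem_filter] at he
    rcases he with he | he
    · rw [← h e he.2]
      exact hop e (Finset.mem_union_left _ he.1)
    · rw [← h e he.2]
      exact hop e (Finset.mem_union_right _ he.1)
  · exact key F n (fun e he => hop e (Finset.mem_union_left _ he)) hX
  · exact key F' n' (fun e he => hop e (Finset.mem_union_right _ he)) hX'

/-- Row J1. `explore_gen` with `X ω = (Bx, Rs)`: both depend only on the edges with an end in `Bx = cS ω (D ∪ Qᶜ) {v}` (in `Rl` one may restrict `F`, `F'` to the edges with an end in `Bx`). -/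
lemma Og_Of (p h : ℝ) (D Q : Set V) (v : V) :
    Og ends p h D Q v = Ex p (fun ω => Of ends p h (D ∪ ((cS ends ω (D ∪ Qᶜ) {v} : Finset V) : Set V)) (Rs ends ω D Q v)) := by
  classical
  have hR : ∀ ω : E → Bool, Of ends p h (D ∪ ((cS ends ω (D ∪ Qᶜ) {v} : Finset V) : Set V)) (Rs ends ω D Q v)
      = ∑ G : Finset V, gw h G * Ex p (fun ω' => J1_F ends D G (cS ends ω (D ∪ Qᶜ) {v}, Rs ends ω D Q v) ω') := by
    intro ω
    unfold Of J1_F
    exact Finset.sum_congr rfl fun G _ => rfl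
  rw [Ex_congr hR, Ex_sum]
  unfold Og
  refine Finset.sum_congr rfl fun G _ => ?_
  rw [Ex_mul_left]
  congr 1
  have hO : ∀ ω : E → Bool, (if Oe ends ω D Q G v then (1 : ℝ) else 0) =
      J1_F ends D G (cS ends ω (D ∪ Qᶜ) {v}, Rs ends ω D Q v) ω := by
    intro ω
    have : Oe ends ω D Q G v ↔ ∃ q ∈ Rs ends ω D Q v,
        q.2 ∉ cS ends ω (D ∪ ((cS ends ω (D ∪ Qᶜ) {v} : Finset V) : Set V)) {q.1} ∧
        (cS ends ω (D ∪ ((cS ends ω (D ∪ Qᶜ) {v} : Finset V) : Set V)) {q.1} ∩ G).Nonempty ∧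
        (cS ends ω (D ∪ ((cS ends ω (D ∪ Qᶜ) {v} : Finset V) : Set V)) {q.2} ∩ G).Nonempty := by
      unfold Oe Rs
      constructor
      · rintro ⟨n, n', h1, h2, h3, h4⟩
        exact ⟨(n, n'), by simpa using h1, h2, h3, h4⟩
      · rintro ⟨⟨n, n'⟩, h1, h2, h3, h4⟩
        exact ⟨n, n', by simpa using h1, h2, h3, h4⟩
    unfold J1_F
    simp only [this]
  rw [Ex_congr hO]
  refine explore_gen p (fun ω : E → Bool => (cS ends ω (D ∪ Qᶜ) {v}, Rs ends ω D Q v))
    (fun a => {e | ∃ y ∈ a.1, y ∈ ends e}) ?_ (J1_F ends D G) ?_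
  · intro ω ω' hω
    have h1 : ∀ e : E, (∃ y ∈ cS ends ω (D ∪ Qᶜ) {v}, y ∈ ends e) → ω e = ω' e := fun e he => hω e he
    have h2 := J1_Bx h1
    have h3 : ∀ e : E, (∃ y ∈ cS ends ω' (D ∪ Qᶜ) {v}, y ∈ ends e) → ω' e = ω e := by
      intro e he
      rw [h2] at he
      exact (h1 e he).symm
    refine Prod.ext h2 ?_
    show Rs ends ω' D Q v = Rs ends ω D Q v
    unfold Rs
    ext q
    simp only [Finset.mem_filter, Finset.mem_univ, true_and]
    exact ⟨fun hq => J1_Rl h3 hq, fun hq => J1_Rl h1 hq⟩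
  · intro a ω ω' hω
    have hc : ∀ A : Set V, cS ends ω' (D ∪ ((a.1 : Finset V) : Set V)) A = cS ends ω (D ∪ ((a.1 : Finset V) : Set V)) A := by
      intro A
      apply cS_dep
      intro e x y he hx hy
      apply hω
      rintro ⟨z, hz, hze⟩
      rw [he, Sym2.mem_iff] at hze
      rcases hze with rfl | rfl
      · exact cS_off hx (Or.inr (by exact_mod_cast hz))
      · exact hy (Or.inr (by exact_mod_cast hz))
    unfold J1_F
    simp only [hc]

/-- The related vertices of the trace `Y`. -/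
noncomputable def Ra (ρ : Finset (V × V)) (Y : Finset V) : Finset V := (ρ.filter (fun q => q.1 ∈ Y ∧ q.2 ∉ Y)).image Prod.snd

open scoped Classical in
/-- The summand: `n` has minimal rank in its cluster among the first components. -/
noncomputable def Tg (ends : E → Sym2 V) (p h : ℝ) (rk : V → ℕ) (D : Set V) (ρ : Finset (V × V)) (n : V) : ℝ :=
  Ex p (fun ω => if ∀ m ∈ ρ.image Prod.fst, m ∈ cS ends ω D {n} → rk n ≤ rk m then
    gh h (cS ends ω D {n}).card * piS ends p h (D ∪ (cS ends ω D {n} : Set V)) (Ra ρ (cS ends ω D {n}) : Set V) else (0 : ℝ))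

lemma J2_rel {ω : E → Bool} {D : Set V} {a y : V} :
    y ∈ cS ends ω D {a} ↔ a ∉ D ∧ Rch ends ω Dᶜ a y := by
  rw [mem_cS]
  constructor
  · rintro ⟨b, hb, h1, h2⟩
    rw [Set.mem_singleton_iff] at hb
    subst hb
    exact ⟨h1, h2⟩
  · rintro ⟨h1, h2⟩
    exact ⟨a, rfl, h1, h2⟩

lemma J2_self {ω : E → Bool} {D : Set V} {n : V} (h : n ∉ D) : n ∈ cS ends ω D {n} := by
  rw [J2_rel]
  exact ⟨h, Rch.refl n⟩

lemma J2_sym {ω : E → Bool} {D : Set V} {a b : V} (h : b ∈ cS ends ω D {a}) : a ∈ cS ends ω D {b} := by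
  have hb := cS_off h
  rw [J2_rel] at h ⊢
  exact ⟨hb, h.2.symm⟩

lemma J2_tr {ω : E → Bool} {D : Set V} {a b c : V} (h : b ∈ cS ends ω D {a}) (h' : c ∈ cS ends ω D {b}) : c ∈ cS ends ω D {a} := by
  rw [J2_rel] at h h' ⊢
  exact ⟨h.1, h.2.trans h'.2⟩

lemma J2_eq {ω : E → Bool} {D : Set V} {a b : V} (h : b ∈ cS ends ω D {a}) : cS ends ω D {b} = cS ends ω D {a} := by
  ext y
  exact ⟨fun hy => J2_tr h hy, fun hy => J2_tr (J2_sym h) hy⟩

lemma J2_disj {ω : E → Bool} {D : Set V} {a b : V} (h : b ∉ cS ends ω D {a}) : Disjoint (cS ends ω D {a}) (cS ends ω D {b}) := by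
  rw [Finset.disjoint_left]
  intro y hy hy'
  exact h (J2_tr hy (J2_sym hy'))

lemma J2_fresh {ω : E → Bool} {D : Set V} {n : V} {A : Set V} (hA : ∀ a ∈ A, a ∉ cS ends ω D {n}) :
    cS ends ω (D ∪ (cS ends ω D {n} : Set V)) A = cS ends ω D A := by
  apply cS_avoid
  intro y hy hy'
  rw [mem_cS] at hy
  obtain ⟨a, ha, haD, hay⟩ := hy
  apply hA a ha
  have hy2 : y ∈ cS ends ω D {n} := hy'
  rw [J2_rel] at hy2 ⊢
  exact ⟨hy2.1, hy2.2.trans hay.symm⟩

lemma J2_g0 (h : ℝ) (a b : ℕ) : gh h a + gh h b - gh h (a + b) = gh h a * gh h b := by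
  unfold gh
  rw [pow_add]
  ring

open scoped Classical in
lemma J2_two (h : ℝ) (A B : Finset V) (hAB : Disjoint A B) :
    ∑ G : Finset V, gw h G * (if (A ∩ G).Nonempty ∧ (B ∩ G).Nonempty then (1 : ℝ) else 0) = gh h A.card * gh h B.card := by
  rw [← J2_g0, ← Finset.card_union_of_disjoint hAB, ← ghost1 h A, ← ghost1 h B, ← ghost1 h (A ∪ B), ← Finset.sum_add_distrib, ← Finset.sum_sub_distrib]
  refine Finset.sum_congr rfl fun G _ => ?_
  have hu : ((A ∪ B) ∩ G).Nonempty ↔ (A ∩ G).Nonempty ∨ (B ∩ G).Nonempty := by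
    rw [Finset.union_inter_distrib_right, Finset.union_nonempty]
  by_cases h1 : (A ∩ G).Nonempty <;> by_cases h2 : (B ∩ G).Nonempty <;> simp only [hu, h1, h2] <;> simp

open scoped Classical in
lemma J2_three (h : ℝ) (A B C : Finset V) (hAB : Disjoint A B) (hAC : Disjoint A C) (hBC : Disjoint B C) :
    ∑ G : Finset V, gw h G * (if (A ∩ G).Nonempty ∧ (B ∩ G).Nonempty ∧ (C ∩ G).Nonempty then (1 : ℝ) else 0) =
      gh h A.card * gh h B.card * gh h C.card := by
  have hABC : Disjoint (A ∪ B) C := by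
    rw [Finset.disjoint_union_left]
    exact ⟨hAC, hBC⟩
  have e1 : gh h A.card * gh h B.card * gh h C.card =
      gh h A.card * gh h C.card + gh h B.card * gh h C.card - gh h (A ∪ B).card * gh h C.card := by
    rw [← J2_g0 h A.card B.card, Finset.card_union_of_disjoint hAB]
    ring
  rw [e1, ← J2_two h A C hAC, ← J2_two h B C hBC, ← J2_two h (A ∪ B) C hABC, ← Finset.sum_add_distrib, ← Finset.sum_sub_distrib]
  refine Finset.sum_congr rfl fun G _ => ?_
  have hu : ((A ∪ B) ∩ G).Nonempty ↔ (A ∩ G).Nonempty ∨ (B ∩ G).Nonempty := by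
    rw [Finset.union_inter_distrib_right, Finset.union_nonempty]
  by_cases h1 : (A ∩ G).Nonempty <;> by_cases h2 : (B ∩ G).Nonempty <;> by_cases h3 : (C ∩ G).Nonempty <;>
    simp only [hu, h1, h2, h3] <;> simp

/-- The minimality condition of row J2. -/
def J2_m (rk : V → ℕ) (N : Finset V) (S : Finset V) (n : V) : Prop := ∀ m ∈ N, m ∈ S → rk n ≤ rk m

/-- The indicator event of row J2. -/
def J2_X (ends : E → Sym2 V) (rk : V → ℕ) (D : Set V) (ρ : Finset (V × V)) (G : Finset V) (ω : E → Bool) (n : V) : Prop :=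
  J2_m rk (ρ.image Prod.fst) (cS ends ω D {n}) n ∧ (cS ends ω D {n} ∩ G).Nonempty ∧
    (cS ends ω (D ∪ (cS ends ω D {n} : Set V)) (Ra ρ (cS ends ω D {n}) : Set V) ∩ G).Nonempty

/-- Three different green clusters. -/
def J2_T (ends : E → Sym2 V) (D : Set V) (G : Finset V) (ω : E → Bool) (a b c : V) : Prop :=
  (b ∉ cS ends ω D {a} ∧ c ∉ cS ends ω D {a} ∧ c ∉ cS ends ω D {b}) ∧
    (cS ends ω D {a} ∩ G).Nonempty ∧ (cS ends ω D {b} ∩ G).Nonempty ∧ (cS ends ω D {c} ∩ G).Nonempty

/-- Two different green clusters which are related. -/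
def J2_O (ends : E → Sym2 V) (D : Set V) (ρ : Finset (V × V)) (G : Finset V) (ω : E → Bool) : Prop :=
  ∃ q ∈ ρ, q.2 ∉ cS ends ω D {q.1} ∧ (cS ends ω D {q.1} ∩ G).Nonempty ∧ (cS ends ω D {q.2} ∩ G).Nonempty

lemma J2_X_iff (rk : V → ℕ) (D : Set V) (ρ : Finset (V × V)) (G : Finset V) (ω : E → Bool) (n : V) :
    J2_X ends rk D ρ G ω n ↔ J2_m rk (ρ.image Prod.fst) (cS ends ω D {n}) n ∧ (cS ends ω D {n} ∩ G).Nonempty ∧
      ∃ q ∈ ρ, q.1 ∈ cS ends ω D {n} ∧ q.2 ∉ cS ends ω D {n} ∧ (cS ends ω D {q.2} ∩ G).Nonempty := by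
  unfold J2_X
  have hRa : ∀ a ∈ (Ra ρ (cS ends ω D {n}) : Set V), a ∉ cS ends ω D {n} := by
    intro a ha
    simp only [Ra, Finset.coe_image, Set.mem_image, Finset.mem_coe, Finset.mem_filter] at ha
    obtain ⟨q, ⟨_, _, h2⟩, rfl⟩ := ha
    exact h2
  rw [J2_fresh hRa]
  refine and_congr Iff.rfl (and_congr Iff.rfl ?_)
  constructor
  · rintro ⟨y, hy⟩
    rw [Finset.mem_inter, mem_cS] at hy
    obtain ⟨⟨a, ha, haD, hay⟩, hyG⟩ := hy
    have ha2 := ha
    simp only [Ra, Finset.coe_image, Set.mem_image, Finset.mem_coe, Finset.mem_filter] at ha2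
    obtain ⟨q, ⟨hq, h1, h2⟩, rfl⟩ := ha2
    refine ⟨q, hq, h1, h2, y, ?_⟩
    rw [Finset.mem_inter, J2_rel]
    exact ⟨⟨haD, hay⟩, hyG⟩
  · rintro ⟨q, hq, h1, h2, y, hy⟩
    rw [Finset.mem_inter, J2_rel] at hy
    refine ⟨y, ?_⟩
    rw [Finset.mem_inter, mem_cS]
    refine ⟨⟨q.2, ?_, hy.1.1, hy.1.2⟩, hy.2⟩
    simp only [Ra, Finset.coe_image, Set.mem_image, Finset.mem_coe, Finset.mem_filter]
    exact ⟨q, ⟨hq, h1, h2⟩, rfl⟩

/-- A point of minimal rank. -/
lemma J2_min (rk : V → ℕ) (D : Set V) (ρ : Finset (V × V)) (ω : E → Bool) (x : V) (hx : x ∈ ρ.image Prod.fst) (hxD : x ∉ D) :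
    ∃ n ∈ ρ.image Prod.fst, n ∈ cS ends ω D {x} ∧ J2_m rk (ρ.image Prod.fst) (cS ends ω D {n}) n := by
  classical
  obtain ⟨n, hn, hmin⟩ := Finset.exists_min_image ((ρ.image Prod.fst).filter (fun m => m ∈ cS ends ω D {x})) rk
    ⟨x, Finset.mem_filter.2 ⟨hx, J2_self hxD⟩⟩
  rw [Finset.mem_filter] at hn
  refine ⟨n, hn.1, hn.2, ?_⟩
  intro m hm hmn
  rw [J2_eq hn.2] at hmn
  exact hmin m (Finset.mem_filter.2 ⟨hm, hmn⟩)

open scoped Classical in
/-- Without three different green clusters. -/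
lemma J2_exact (rk : V → ℕ) (hrk : Function.Injective rk) (D : Set V) (ρ : Finset (V × V))
    (hρ : ∀ q ∈ ρ, (q.2, q.1) ∈ ρ) (hρD : ∀ q ∈ ρ, q.1 ∉ D) (G : Finset V) (ω : E → Bool)
    (hT : ∀ a ∈ ρ.image Prod.fst, ∀ b ∈ ρ.image Prod.fst, ∀ c ∈ ρ.image Prod.fst, ¬ J2_T ends D G ω a b c) :
    ∑ n ∈ ρ.image Prod.fst, (if J2_X ends rk D ρ G ω n then (1 : ℝ) else 0) = 2 * (if J2_O ends D ρ G ω then (1 : ℝ) else 0) := by
  have hfst : ∀ q ∈ ρ, q.1 ∈ ρ.image Prod.fst := fun q hq => Finset.mem_image_of_mem _ hq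
  have hsnd : ∀ q ∈ ρ, q.2 ∈ ρ.image Prod.fst := fun q hq => Finset.mem_image_of_mem Prod.fst (hρ q hq)
  have hsD : ∀ q ∈ ρ, q.2 ∉ D := fun q hq => hρD _ (hρ q hq)
  by_cases hO : J2_O ends D ρ G ω
  · obtain ⟨q, hq, h1, h2, h3⟩ := id hO
    obtain ⟨n1, hn1, hc1, hm1⟩ := J2_min (ends := ends) rk D ρ ω q.1 (hfst q hq) (hρD q hq)
    obtain ⟨n2, hn2, hc2, hm2⟩ := J2_min (ends := ends) rk D ρ ω q.2 (hsnd q hq) (hsD q hq)
    have e1 := J2_eq hc1
    have e2 := J2_eq hc2
    have hne : n1 ≠ n2 := by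
      rintro rfl
      exact h1 (J2_tr hc1 (J2_sym hc2))
    have hX1 : J2_X ends rk D ρ G ω n1 := by
      rw [J2_X_iff]
      refine ⟨hm1, by rw [e1]; exact h2, q, hq, J2_sym hc1, ?_, h3⟩
      rw [e1]
      exact h1
    have hX2 : J2_X ends rk D ρ G ω n2 := by
      rw [J2_X_iff]
      refine ⟨hm2, by rw [e2]; exact h3, (q.2, q.1), hρ q hq, J2_sym hc2, ?_, h2⟩
      rw [e2]
      exact fun h => h1 (J2_sym h)
    have hoth : ∀ n ∈ ρ.image Prod.fst, J2_X ends rk D ρ G ω n → n = n1 ∨ n = n2 := by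
      intro n hn hX
      rw [J2_X_iff] at hX
      obtain ⟨hm, hg, -⟩ := hX
      by_cases ha : n ∈ cS ends ω D {q.1}
      · left
        have e := J2_eq ha
        apply hrk
        apply le_antisymm
        · exact hm n1 hn1 (by rw [e]; exact hc1)
        · exact hm1 n hn (by rw [e1]; exact ha)
      · by_cases hb : n ∈ cS ends ω D {q.2}
        · right
          have e := J2_eq hb
          apply hrk
          apply le_antisymm
          · exact hm n2 hn2 (by rw [e]; exact hc2)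
          · exact hm2 n hn (by rw [e2]; exact hb)
        · exfalso
          exact hT q.1 (hfst q hq) q.2 (hsnd q hq) n hn ⟨⟨h1, ha, hb⟩, h2, h3, hg⟩
    have hsum : ∑ n ∈ ρ.image Prod.fst, (if J2_X ends rk D ρ G ω n then (1 : ℝ) else 0) =
        ∑ n ∈ ({n1, n2} : Finset V), (if J2_X ends rk D ρ G ω n then (1 : ℝ) else 0) := by
      symm
      apply Finset.sum_subset
      · intro n hn
        rw [Finset.mem_insert, Finset.mem_singleton] at hn
        rcases hn with rfl | rfl
        · exact hn1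
        · exact hn2
      · intro n hn hn'
        rw [if_neg]
        intro hX
        apply hn'
        rw [Finset.mem_insert, Finset.mem_singleton]
        exact hoth n hn hX
    rw [hsum, Finset.sum_pair hne, if_pos hX1, if_pos hX2, if_pos hO]
    norm_num
  · rw [if_neg hO, mul_zero]
    apply Finset.sum_eq_zero
    intro n hn
    rw [if_neg]
    intro hX
    rw [J2_X_iff] at hX
    obtain ⟨_, hg, q, hq, h1, h2, h3⟩ := hX
    apply hO
    refine ⟨q, hq, ?_, ?_, h3⟩
    · rw [J2_eq h1]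
      exact h2
    · rw [J2_eq h1]
      exact hg

open scoped Classical in
/-- The pointwise inequality. -/
lemma J2_point (rk : V → ℕ) (hrk : Function.Injective rk) (D : Set V) (ρ : Finset (V × V))
    (hρ : ∀ q ∈ ρ, (q.2, q.1) ∈ ρ) (hρD : ∀ q ∈ ρ, q.1 ∉ D) (G : Finset V) (ω : E → Bool) :
    |2 * (if J2_O ends D ρ G ω then (1 : ℝ) else 0) - ∑ n ∈ ρ.image Prod.fst, (if J2_X ends rk D ρ G ω n then (1 : ℝ) else 0)| ≤
      2 * ((ρ.image Prod.fst).card : ℝ) * ∑ a ∈ ρ.image Prod.fst, ∑ b ∈ ρ.image Prod.fst, ∑ c ∈ ρ.image Prod.fst,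
        (if J2_T ends D G ω a b c then (1 : ℝ) else 0) := by
  set N := ρ.image Prod.fst with hN
  have hnn : ∀ a b c : V, (0 : ℝ) ≤ (if J2_T ends D G ω a b c then (1 : ℝ) else 0) := by
    intro a b c
    split_ifs <;> norm_num
  by_cases hT : ∀ a ∈ N, ∀ b ∈ N, ∀ c ∈ N, ¬ J2_T ends D G ω a b c
  · rw [hN, J2_exact rk hrk D ρ hρ hρD G ω hT, sub_self, abs_zero]
    apply mul_nonneg (by positivity)
    exact Finset.sum_nonneg fun a _ => Finset.sum_nonneg fun b _ => Finset.sum_nonneg fun c _ => hnn a b c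
  · push Not at hT
    obtain ⟨a, ha, b, hb, c, hc, hT⟩ := hT
    have h1 : (1 : ℝ) ≤ ∑ a ∈ N, ∑ b ∈ N, ∑ c ∈ N, (if J2_T ends D G ω a b c then (1 : ℝ) else 0) := by
      calc (1 : ℝ) = (if J2_T ends D G ω a b c then (1 : ℝ) else 0) := by rw [if_pos hT]
        _ ≤ ∑ c ∈ N, (if J2_T ends D G ω a b c then (1 : ℝ) else 0) :=
          Finset.single_le_sum (f := fun c => (if J2_T ends D G ω a b c then (1 : ℝ) else 0)) (fun c _ => hnn a b c) hc
        _ ≤ ∑ b ∈ N, ∑ c ∈ N, (if J2_T ends D G ω a b c then (1 : ℝ) else 0) :=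
          Finset.single_le_sum (f := fun b => ∑ c ∈ N, (if J2_T ends D G ω a b c then (1 : ℝ) else 0))
            (fun b _ => Finset.sum_nonneg fun c _ => hnn a b c) hb
        _ ≤ _ := Finset.single_le_sum (f := fun a => ∑ b ∈ N, ∑ c ∈ N, (if J2_T ends D G ω a b c then (1 : ℝ) else 0))
            (fun a _ => Finset.sum_nonneg fun b _ => Finset.sum_nonneg fun c _ => hnn a b c) ha
    have hcard : (1 : ℝ) ≤ (N.card : ℝ) := by
      exact_mod_cast Finset.card_pos.2 ⟨a, ha⟩
    have h2 : (0 : ℝ) ≤ ∑ n ∈ N, (if J2_X ends rk D ρ G ω n then (1 : ℝ) else 0) := by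
      apply Finset.sum_nonneg
      intro n _
      split_ifs <;> norm_num
    have h3 : ∑ n ∈ N, (if J2_X ends rk D ρ G ω n then (1 : ℝ) else 0) ≤ (N.card : ℝ) := by
      calc ∑ n ∈ N, (if J2_X ends rk D ρ G ω n then (1 : ℝ) else 0) ≤ ∑ n ∈ N, (1 : ℝ) := by
            apply Finset.sum_le_sum
            intro n _
            split_ifs <;> norm_num
        _ = (N.card : ℝ) := by simp
    have h4 : (0 : ℝ) ≤ (if J2_O ends D ρ G ω then (1 : ℝ) else 0) ∧ (if J2_O ends D ρ G ω then (1 : ℝ) else 0) ≤ 1 := by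
      split_ifs <;> norm_num
    have h5 : 2 * (N.card : ℝ) ≤ 2 * (N.card : ℝ) * ∑ a ∈ N, ∑ b ∈ N, ∑ c ∈ N, (if J2_T ends D G ω a b c then (1 : ℝ) else 0) := by
      nlinarith
    refine le_trans ?_ h5
    rw [abs_le]
    constructor <;> linarith [h4.1, h4.2]

/-- Average over the green sets and the configurations. -/
noncomputable def J2_L (p h : ℝ) (F : Finset V → (E → Bool) → ℝ) : ℝ := ∑ G : Finset V, gw h G * Ex p (F G)

lemma J2_L_swap (p h : ℝ) (F : Finset V → (E → Bool) → ℝ) :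
    J2_L p h F = Ex p (fun ω => ∑ G : Finset V, gw h G * F G ω) := by
  unfold J2_L
  rw [Ex_sum]
  refine Finset.sum_congr rfl fun G _ => ?_
  rw [← Ex_mul_left]

lemma J2_L_mul (p h c : ℝ) (F : Finset V → (E → Bool) → ℝ) : J2_L p h (fun G ω => c * F G ω) = c * J2_L p h F := by
  unfold J2_L
  rw [Finset.mul_sum]
  refine Finset.sum_congr rfl fun G _ => ?_
  rw [Ex_mul_left]
  ring

lemma J2_L_sum {ι : Type*} (s : Finset ι) (p h : ℝ) (F : ι → Finset V → (E → Bool) → ℝ) :
    J2_L p h (fun G ω => ∑ i ∈ s, F i G ω) = ∑ i ∈ s, J2_L p h (F i) := by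
  unfold J2_L
  rw [Finset.sum_comm]
  refine Finset.sum_congr rfl fun G _ => ?_
  rw [Ex_sum, Finset.mul_sum]

lemma J2_L_mono {p h : ℝ} (h0 : 0 ≤ p) (h1 : p ≤ 1) (hh0 : 0 ≤ h) (hh1 : h ≤ 1) {F F' : Finset V → (E → Bool) → ℝ}
    (hF : ∀ G ω, F G ω ≤ F' G ω) : J2_L p h F ≤ J2_L p h F' :=
  Finset.sum_le_sum fun G _ => mul_le_mul_of_nonneg_left (Ex_mono h0 h1 (hF G)) (gw_nonneg hh0 hh1 G)

lemma J2_L_sub (p h : ℝ) (F F' : Finset V → (E → Bool) → ℝ) :
    J2_L p h (fun G ω => F G ω - F' G ω) = J2_L p h F - J2_L p h F' := by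
  unfold J2_L
  rw [← Finset.sum_sub_distrib]
  refine Finset.sum_congr rfl fun G _ => ?_
  have : Ex p (fun ω => F G ω - F' G ω) = Ex p (F G) - Ex p (F' G) := by
    have h1 := Ex_add p (fun ω => F G ω - F' G ω) (F' G)
    have h2 : Ex p (fun ω => (F G ω - F' G ω) + F' G ω) = Ex p (F G) := Ex_congr fun ω => by ring
    linarith
  rw [this]
  ring

lemma J2_L_abs {p h : ℝ} (h0 : 0 ≤ p) (h1 : p ≤ 1) (hh0 : 0 ≤ h) (hh1 : h ≤ 1) {F F' : Finset V → (E → Bool) → ℝ}
    (hF : ∀ G ω, |F G ω| ≤ F' G ω) : |J2_L p h F| ≤ J2_L p h F' := by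
  rw [abs_le]
  constructor
  · have h2 : J2_L p h (fun G ω => (-1) * F' G ω) ≤ J2_L p h F := by
      apply J2_L_mono h0 h1 hh0 hh1
      intro G ω
      have := (abs_le.1 (hF G ω)).1
      linarith
    rw [J2_L_mul] at h2
    linarith
  · apply J2_L_mono h0 h1 hh0 hh1
    intro G ω
    exact (abs_le.1 (hF G ω)).2

open scoped Classical in
/-- The average of the indicator. -/
lemma J2_Tg (p h : ℝ) (rk : V → ℕ) (D : Set V) (ρ : Finset (V × V)) (n : V) :
    J2_L p h (fun G ω => if J2_X ends rk D ρ G ω n then (1 : ℝ) else 0) = Tg ends p h rk D ρ n := by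
  rw [J2_L_swap]
  have e1 : ∀ ω : E → Bool, ∑ G : Finset V, gw h G * (if J2_X ends rk D ρ G ω n then (1 : ℝ) else 0) =
      (if J2_m rk (ρ.image Prod.fst) (cS ends ω D {n}) n then (1 : ℝ) else 0) * (gh h (cS ends ω D {n}).card *
        gh h (cS ends ω (D ∪ (cS ends ω D {n} : Set V)) (Ra ρ (cS ends ω D {n}) : Set V)).card) := by
    intro ω
    have hd : Disjoint (cS ends ω D {n}) (cS ends ω (D ∪ (cS ends ω D {n} : Set V)) (Ra ρ (cS ends ω D {n}) : Set V)) := by
      rw [Finset.disjoint_left]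
      intro y hy hy'
      exact cS_off hy' (Or.inr hy)
    rw [← J2_two h _ _ hd, Finset.mul_sum]
    refine Finset.sum_congr rfl fun G _ => ?_
    unfold J2_X
    by_cases hm : J2_m rk (ρ.image Prod.fst) (cS ends ω D {n}) n
    · simp only [hm, true_and, if_true, one_mul]
    · simp only [hm, false_and, if_false, mul_zero, zero_mul]
  rw [Ex_congr e1]
  have e2 := fresh (ends := ends) p D {n} (fun S ω => (if J2_m rk (ρ.image Prod.fst) S n then (1 : ℝ) else 0) * (gh h S.card *
        gh h (cS ends ω (D ∪ (S : Set V)) (Ra ρ S : Set V)).card)) (by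
      intro S ω ω' hω
      rw [off_dep S hω])
  rw [e2]
  unfold Tg piS
  refine Ex_congr fun ω => ?_
  rw [Ex_mul_left, Ex_mul_left]
  unfold J2_m
  by_cases hm : ∀ m ∈ ρ.image Prod.fst, m ∈ cS ends ω D {n} → rk n ≤ rk m
  · rw [if_pos hm, if_pos hm, one_mul]
  · rw [if_neg hm, if_neg hm, zero_mul]

open scoped Classical in
/-- Three different green clusters. -/
lemma J2_P3 {p h M : ℝ} (h0 : 0 ≤ p) (h1 : p ≤ 1) (hh0 : 0 ≤ h) (hh1 : h ≤ 1) (hM : Mb ends p h M) (D : Set V) (a b c : V) :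
    J2_L p h (fun G ω => if J2_T ends D G ω a b c then (1 : ℝ) else 0) ≤ M ^ 3 := by
  have hM0 : 0 ≤ M := le_trans (Ex_nonneg h0 h1 fun ω => gh_nonneg hh0 hh1 _) (hM ∅ a)
  rw [J2_L_swap]
  have e1 : ∀ ω : E → Bool, ∑ G : Finset V, gw h G * (if J2_T ends D G ω a b c then (1 : ℝ) else 0) ≤
      gh h (cS ends ω D {a}).card * (gh h (cS ends ω (D ∪ (cS ends ω D {a} : Set V)) {b}).card *
        gh h (cS ends ω ((D ∪ (cS ends ω D {a} : Set V)) ∪ (cS ends ω (D ∪ (cS ends ω D {a} : Set V)) {b} : Set V)) {c}).card) := by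
    intro ω
    have hpos : 0 ≤ gh h (cS ends ω D {a}).card * (gh h (cS ends ω (D ∪ (cS ends ω D {a} : Set V)) {b}).card *
        gh h (cS ends ω ((D ∪ (cS ends ω D {a} : Set V)) ∪ (cS ends ω (D ∪ (cS ends ω D {a} : Set V)) {b} : Set V)) {c}).card) :=
      mul_nonneg (gh_nonneg hh0 hh1 _) (mul_nonneg (gh_nonneg hh0 hh1 _) (gh_nonneg hh0 hh1 _))
    by_cases hd : b ∉ cS ends ω D {a} ∧ c ∉ cS ends ω D {a} ∧ c ∉ cS ends ω D {b}
    · obtain ⟨hd1, hd2, hd3⟩ := hd
      have f1 : cS ends ω (D ∪ (cS ends ω D {a} : Set V)) {b} = cS ends ω D {b} := by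
        apply J2_fresh
        intro x hx
        rw [Set.mem_singleton_iff] at hx
        rw [hx]
        exact hd1
      have f2 : cS ends ω (D ∪ (cS ends ω D {a} : Set V)) {c} = cS ends ω D {c} := by
        apply J2_fresh
        intro x hx
        rw [Set.mem_singleton_iff] at hx
        rw [hx]
        exact hd2
      have f3 : cS ends ω ((D ∪ (cS ends ω D {a} : Set V)) ∪ (cS ends ω (D ∪ (cS ends ω D {a} : Set V)) {b} : Set V)) {c} = cS ends ω D {c} := by
        rw [← f2]
        apply J2_fresh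
        intro x hx
        rw [Set.mem_singleton_iff] at hx
        rw [hx, f1]
        exact hd3
      rw [f3, f1, ← mul_assoc, ← J2_three h _ _ _ (J2_disj hd1) (J2_disj hd2) (J2_disj hd3)]
      apply le_of_eq
      refine Finset.sum_congr rfl fun G _ => ?_
      unfold J2_T
      simp only [hd1, hd2, hd3, not_false_eq_true, and_self, true_and]
    · refine le_trans (le_of_eq ?_) hpos
      apply Finset.sum_eq_zero
      intro G _
      rw [if_neg, mul_zero]
      intro h
      exact hd h.1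
  refine le_trans (Ex_mono h0 h1 e1) ?_
  have e2 := fresh (ends := ends) p D {a} (fun S ω => gh h S.card * (gh h (cS ends ω (D ∪ (S : Set V)) {b}).card *
        gh h (cS ends ω ((D ∪ (S : Set V)) ∪ (cS ends ω (D ∪ (S : Set V)) {b} : Set V)) {c}).card)) (by
      intro S ω ω' hω
      rw [off_dep (A := {b}) (D := D) S hω, Set.union_right_comm D, off_dep (A := {c}) S hω])
  rw [e2]
  have e3 : ∀ ω : E → Bool, Ex p (fun ω' => gh h (cS ends ω D {a}).card * (gh h (cS ends ω' (D ∪ (cS ends ω D {a} : Set V)) {b}).card *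
        gh h (cS ends ω' ((D ∪ (cS ends ω D {a} : Set V)) ∪ (cS ends ω' (D ∪ (cS ends ω D {a} : Set V)) {b} : Set V)) {c}).card)) ≤
      M ^ 2 * gh h (cS ends ω D {a}).card := by
    intro ω
    rw [Ex_mul_left]
    have e4 := expl_le (ends := ends) (M := M) (h := h) h0 h1 (D ∪ (cS ends ω D {a} : Set V)) {b} (D ∪ (cS ends ω D {a} : Set V)) {c}
      (fun S => gh h S.card) (fun S => gh_nonneg hh0 hh1 _) (fun S => hM _ c)
    have e5 := hM (D ∪ (cS ends ω D {a} : Set V)) b
    have e6 : Ex p (fun ω' => gh h (cS ends ω' (D ∪ (cS ends ω D {a} : Set V)) {b}).card) * M ≤ M * M :=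
      mul_le_mul_of_nonneg_right e5 hM0
    have e7 := mul_le_mul_of_nonneg_left (le_trans e4 e6) (gh_nonneg hh0 hh1 (cS ends ω D {a}).card)
    calc _ ≤ gh h (cS ends ω D {a}).card * (M * M) := e7
      _ = M ^ 2 * gh h (cS ends ω D {a}).card := by ring
  refine le_trans (Ex_mono h0 h1 e3) ?_
  rw [Ex_mul_left]
  have := mul_le_mul_of_nonneg_left (hM D a) (sq_nonneg M)
  calc _ ≤ M ^ 2 * M := this
    _ = M ^ 3 := by ring

/-- Row J2. `ρ` symmetric, `rk` injective. For a green set `G` let `X_n` be the indicator: `n` has minimal rank in its cluster `C(n)` (off `D`) among `N = ρ.image fst`, `C(n)` is green, `Ra ρ C(n)` is joined to `G` off `D ∪ C(n)`. `∑_n X_n` = the number of green clusters which are related to another green cluster. If the event of `Of` does not hold it is `0`; if it holds and there are exactly two green clusters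
(of points of `N`) it is `2`. So `|∑ X_n - 2 1(event)| ≤ |N| 1(three different green clusters)`, whose probability is at most `|N|^3 M^3` (`expl_le` twice). `Ex ∑_G X_n = Tg`: `fresh` (`Ra ρ C` is off `C`; its cluster off `D` does not meet `C`) and the green vertices in `C(n)` and outside are independent. -/
lemma Of_Tg {p h M : ℝ} (h0 : 0 ≤ p) (h1 : p ≤ 1) (hh0 : 0 ≤ h) (hh1 : h ≤ 1) (hM : Mb ends p h M) (rk : V → ℕ) (hrk : Function.Injective rk) (D : Set V) (ρ : Finset (V × V))
    (hρ : ∀ q ∈ ρ, (q.2, q.1) ∈ ρ) (hρD : ∀ q ∈ ρ, q.1 ∉ D) :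
    |2 * Of ends p h D ρ - ∑ n ∈ ρ.image Prod.fst, Tg ends p h rk D ρ n| ≤ 2 * ((ρ.image Prod.fst).card : ℝ) ^ 4 * M ^ 3 := by
  classical
  have eO : Of ends p h D ρ = J2_L p h (fun G ω => if J2_O ends D ρ G ω then (1 : ℝ) else 0) := by
    unfold Of J2_L J2_O
    refine Finset.sum_congr rfl fun G _ => ?_
    congr 1
    refine Ex_congr fun ω => ?_
    beta_reduce
    congr
  have eT : ∑ n ∈ ρ.image Prod.fst, Tg ends p h rk D ρ n =
      J2_L p h (fun G ω => ∑ n ∈ ρ.image Prod.fst, if J2_X ends rk D ρ G ω n then (1 : ℝ) else 0) := by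
    rw [J2_L_sum]
    exact Finset.sum_congr rfl fun n _ => (J2_Tg p h rk D ρ n).symm
  rw [eO, eT, ← J2_L_mul, ← J2_L_sub]
  refine le_trans (J2_L_abs h0 h1 hh0 hh1 (fun G ω => J2_point rk hrk D ρ hρ hρD G ω)) ?_
  rw [J2_L_mul, J2_L_sum]
  have e2 : ∀ a ∈ ρ.image Prod.fst, J2_L p h (fun G ω => ∑ b ∈ ρ.image Prod.fst, ∑ c ∈ ρ.image Prod.fst, if J2_T ends D G ω a b c then (1 : ℝ) else 0) ≤
      ((ρ.image Prod.fst).card : ℝ) ^ 2 * M ^ 3 := by
    intro a _
    rw [J2_L_sum]
    have e3 : ∀ b ∈ ρ.image Prod.fst, J2_L p h (fun G ω => ∑ c ∈ ρ.image Prod.fst, if J2_T ends D G ω a b c then (1 : ℝ) else 0) ≤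
        ((ρ.image Prod.fst).card : ℝ) * M ^ 3 := by
      intro b _
      rw [J2_L_sum]
      calc _ ≤ ∑ c ∈ ρ.image Prod.fst, M ^ 3 := Finset.sum_le_sum fun c _ => J2_P3 h0 h1 hh0 hh1 hM D a b c
        _ = ((ρ.image Prod.fst).card : ℝ) * M ^ 3 := by rw [Finset.sum_const, nsmul_eq_mul]
    calc _ ≤ ∑ b ∈ ρ.image Prod.fst, ((ρ.image Prod.fst).card : ℝ) * M ^ 3 := Finset.sum_le_sum e3
      _ = ((ρ.image Prod.fst).card : ℝ) ^ 2 * M ^ 3 := by rw [Finset.sum_const, nsmul_eq_mul]; ring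
  have e4 := Finset.sum_le_sum e2
  have e5 : ∑ a ∈ ρ.image Prod.fst, ((ρ.image Prod.fst).card : ℝ) ^ 2 * M ^ 3 = ((ρ.image Prod.fst).card : ℝ) ^ 3 * M ^ 3 := by
    rw [Finset.sum_const, nsmul_eq_mul]; ring
  rw [e5] at e4
  calc _ ≤ 2 * ((ρ.image Prod.fst).card : ℝ) * (((ρ.image Prod.fst).card : ℝ) ^ 3 * M ^ 3) := mul_le_mul_of_nonneg_left e4 (by positivity)
    _ = _ := by ring

/-- Row J2. The general functional with a weight `κ` and a set `A'` which depend on the cluster. -/
noncomputable def T0 (ends : E → Sym2 V) (p h : ℝ) (D : Set V) (n : V) (κ : Finset V → ℝ) (A' : Finset V → Finset V) : ℝ :=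
  Ex p (fun ω => κ (cS ends ω D {n}) * (gh h (cS ends ω D {n}).card * piS ends p h (D ∪ (cS ends ω D {n} : Set V)) (A' (cS ends ω D {n}) : Set V)))

noncomputable def T1 (ends : E → Sym2 V) (p h : ℝ) (D Q : Set V) (T : Finset V) (n : V) (κ : Finset V → ℝ) (A' : Finset V → Finset V) : ℝ :=
  Ex p (fun ω => κ (cS ends ω (D ∪ Qᶜ) {n} ∩ T) * (gh h (cS ends ω D {n}).card * piS ends p h (D ∪ ((cS ends ω (D ∪ Qᶜ) {n} ∩ T : Finset V) : Set V)) (A' (cS ends ω (D ∪ Qᶜ) {n} ∩ T) : Set V)))

private lemma J3_M {p h M : ℝ} (h0 : 0 ≤ p) (h1 : p ≤ 1) (hh0 : 0 ≤ h) (hh1 : h ≤ 1) (hM : Mb ends p h M) (n : V) : 0 ≤ M :=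
  (Ex_nonneg h0 h1 fun _ => gh_nonneg hh0 hh1 _).trans (hM ∅ n)

private lemma J3_anti {p h : ℝ} (h0 : 0 ≤ p) (h1 : p ≤ 1) (hh0 : 0 ≤ h) (hh1 : h ≤ 1) {D D' : Set V} (hD : D ⊆ D') (A : Set V) :
    piS ends p h D' A ≤ piS ends p h D A := by
  unfold piS
  refine Ex_mono h0 h1 fun ω => gh_mono hh0 hh1 (Finset.card_le_card ?_)
  exact cS_mono (fun _ h => h) hD (le_refl A)

private lemma J3_pi0 {p h : ℝ} (h0 : 0 ≤ p) (h1 : p ≤ 1) (hh0 : 0 ≤ h) (hh1 : h ≤ 1) (D A : Set V) : 0 ≤ piS ends p h D A :=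
  Ex_nonneg h0 h1 fun _ => gh_nonneg hh0 hh1 _

private lemma J3_pi {p h M : ℝ} (h0 : 0 ≤ p) (h1 : p ≤ 1) (hh0 : 0 ≤ h) (hh1 : h ≤ 1) (hM : Mb ends p h M) (hM0 : 0 ≤ M) (D : Set V) {A As : Finset V} (hA : A ⊆ As) :
    piS ends p h D (A : Set V) ≤ (As.card : ℝ) * M := by
  refine (green_le h0 h1 hh0 hh1 hM D A).trans (mul_le_mul_of_nonneg_right ?_ hM0)
  exact_mod_cast Finset.card_le_card hA

private lemma J3_tS {p : ℝ} (h0 : 0 ≤ p) (h1 : p ≤ 1) (x y : V) : tS ends Set.univ p x y ≤ ta ends p x y := by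
  have h := two_cS (ends := ends) h0 h1 (Set.univᶜ : Set V) {x} y
  rw [Finset.sum_singleton, Finset.coe_singleton] at h
  exact h

private lemma J3_fork {p h M : ℝ} (h0 : 0 ≤ p) (h1 : p ≤ 1) (hh0 : 0 ≤ h) (hh1 : h ≤ 1) (hM : Mb ends p h M) (hM0 : 0 ≤ M) (D : Set V) (n s : V) :
    Ex p (fun ω => if s ∈ cS ends ω D {n} then gh h (cS ends ω D {n}).card else (0 : ℝ)) ≤ M * ∑ z, ta ends p n z * ta ends p z s := by
  have h2 := fork h0 h1 hh0 hh1 hM D Set.univ n s
  rw [Set.compl_univ, Set.union_empty] at h2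
  refine h2.trans (mul_le_mul_of_nonneg_left (Finset.sum_le_sum fun z _ => ?_) hM0)
  have h3 : 0 ≤ tS ends Set.univ p z s := Ex_nonneg h0 h1 fun ω => by split_ifs <;> norm_num
  exact mul_le_mul (J3_tS h0 h1 n z) (J3_tS h0 h1 z s) h3 (ta_nonneg h0 h1 n z)

/-- The pointwise estimate. -/
private lemma J3_pt {p h M : ℝ} (h0 : 0 ≤ p) (h1 : p ≤ 1) (hh0 : 0 ≤ h) (hh1 : h ≤ 1) (hM : Mb ends p h M) (hM0 : 0 ≤ M) (D : Set V) (T As B C : Finset V) (κ : Finset V → ℝ) (A' : Finset V → Finset V)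
    (hκ : ∀ Y, 0 ≤ κ Y ∧ κ Y ≤ 1) (hκT : ∀ Y, κ Y = κ (Y ∩ T)) (hA : ∀ Y, A' Y ⊆ As) (hAT : ∀ Y, A' Y = A' (Y ∩ T)) (hBC : B ⊆ C) :
    |κ C * (gh h C.card * piS ends p h (D ∪ (C : Set V)) (A' C : Set V)) -
      κ (B ∩ T) * (gh h C.card * piS ends p h (D ∪ ((B ∩ T : Finset V) : Set V)) (A' (B ∩ T) : Set V))| ≤
      (As.card : ℝ) * M * ∑ s ∈ T, (if s ∈ C ∧ s ∉ B then gh h C.card else (0 : ℝ)) +
      M * ∑ s ∈ Tᶜ, (if s ∈ C then gh h C.card else (0 : ℝ)) * ∑ a ∈ As, ta ends p a s := by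
  have hg : 0 ≤ gh h C.card := gh_nonneg hh0 hh1 _
  have hpos1 : ∀ s ∈ T, 0 ≤ (if s ∈ C ∧ s ∉ B then gh h C.card else (0 : ℝ)) := fun s _ => by
    split_ifs
    · exact hg
    · exact le_refl 0
  have hpos2 : 0 ≤ M * ∑ s ∈ Tᶜ, (if s ∈ C then gh h C.card else (0 : ℝ)) * ∑ a ∈ As, ta ends p a s := by
    refine mul_nonneg hM0 (Finset.sum_nonneg fun s _ => mul_nonneg ?_ (Finset.sum_nonneg fun a _ => ta_nonneg h0 h1 a s))
    split_ifs
    · exact hg
    · exact le_refl 0
  by_cases hcase : ∃ s ∈ T, s ∈ C ∧ s ∉ B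
  · obtain ⟨s, hsT, hs⟩ := hcase
    have e1 : gh h C.card ≤ ∑ s ∈ T, (if s ∈ C ∧ s ∉ B then gh h C.card else (0 : ℝ)) := by
      refine le_trans ?_ (Finset.single_le_sum hpos1 hsT)
      rw [if_pos hs]
    have e2 : ∀ (Y : Finset V) (S : Set V) (A : Finset V), A ⊆ As →
        0 ≤ κ Y * (gh h C.card * piS ends p h S (A : Set V)) ∧
          κ Y * (gh h C.card * piS ends p h S (A : Set V)) ≤ (As.card : ℝ) * M * gh h C.card := by
      intro Y S A hAA
      have h2 := J3_pi h0 h1 hh0 hh1 hM hM0 S hAA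
      have h3 := J3_pi0 (ends := ends) h0 h1 hh0 hh1 S (A : Set V)
      have h4 : 0 ≤ gh h C.card * piS ends p h S (A : Set V) := mul_nonneg hg h3
      refine ⟨mul_nonneg (hκ Y).1 h4, (mul_le_of_le_one_left h4 (hκ Y).2).trans ?_⟩
      rw [mul_comm ((As.card : ℝ) * M)]
      exact mul_le_mul_of_nonneg_left h2 hg
    have e3 := e2 C (D ∪ (C : Set V)) (A' C) (hA C)
    have e4 := e2 (B ∩ T) (D ∪ ((B ∩ T : Finset V) : Set V)) (A' (B ∩ T)) (hA _)
    have e5 : (As.card : ℝ) * M * gh h C.card ≤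
        (As.card : ℝ) * M * ∑ s ∈ T, (if s ∈ C ∧ s ∉ B then gh h C.card else (0 : ℝ)) :=
      mul_le_mul_of_nonneg_left e1 (mul_nonneg (Nat.cast_nonneg _) hM0)
    rw [abs_le]
    constructor <;> linarith [e3.1, e3.2, e4.1, e4.2]
  · push Not at hcase
    have hCT : C ∩ T = B ∩ T := by
      ext s
      rw [Finset.mem_inter, Finset.mem_inter]
      exact ⟨fun hs => ⟨hcase s hs.2 hs.1, hs.2⟩, fun hs => ⟨hBC hs.1, hs.2⟩⟩
    have hk : κ C = κ (B ∩ T) := by rw [hκT C, hCT]
    have ha : A' C = A' (B ∩ T) := by rw [hAT C, hCT]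
    have hset : D ∪ (C : Set V) = (D ∪ ((B ∩ T : Finset V) : Set V)) ∪ ((C \ T : Finset V) : Set V) := by
      rw [Set.union_assoc, ← Finset.coe_union]
      congr 2
      rw [← hCT]
      ext s
      simp only [Finset.mem_union, Finset.mem_inter, Finset.mem_sdiff]
      tauto
    rw [hk, ha, hset, ← mul_sub, ← mul_sub, abs_mul, abs_mul, abs_of_nonneg (hκ _).1, abs_of_nonneg hg]
    set S0 : Set V := D ∪ ((B ∩ T : Finset V) : Set V) with hS0
    set A1 := A' (B ∩ T) with hA1
    have f1 := lo_p h0 h1 hh0 hh1 hM S0 A1 (C \ T)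
    have f2 : piS ends p h (S0 ∪ ((C \ T : Finset V) : Set V)) (A1 : Set V) ≤ piS ends p h S0 (A1 : Set V) :=
      J3_anti h0 h1 hh0 hh1 Set.subset_union_left _
    have f3 : |piS ends p h (S0 ∪ ((C \ T : Finset V) : Set V)) (A1 : Set V) - piS ends p h S0 (A1 : Set V)| ≤
        M * ∑ a ∈ A1, ∑ s ∈ C \ T, ta ends p a s := by
      rw [abs_le]
      constructor <;> linarith [mul_nonneg hM0 (Finset.sum_nonneg fun a (_ : a ∈ A1) => Finset.sum_nonneg fun s (_ : s ∈ C \ T) => ta_nonneg (ends := ends) h0 h1 a s)]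
    have f4 : ∑ a ∈ A1, ∑ s ∈ C \ T, ta ends p a s ≤ ∑ a ∈ As, ∑ s ∈ C \ T, ta ends p a s :=
      Finset.sum_le_sum_of_subset_of_nonneg (hA _) fun a _ _ => Finset.sum_nonneg fun s _ => ta_nonneg h0 h1 a s
    have f5 : gh h C.card * (M * ∑ a ∈ As, ∑ s ∈ C \ T, ta ends p a s) =
        M * ∑ s ∈ Tᶜ, (if s ∈ C then gh h C.card else (0 : ℝ)) * ∑ a ∈ As, ta ends p a s := by
      have g1 : ∀ s ∈ Tᶜ, (if s ∈ C then gh h C.card else (0 : ℝ)) * ∑ a ∈ As, ta ends p a s =
          if s ∈ C then gh h C.card * ∑ a ∈ As, ta ends p a s else 0 := by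
        intro s _
        split_ifs
        · rfl
        · rw [zero_mul]
      have g2 : Tᶜ.filter (fun s => s ∈ C) = C \ T := by
        ext s
        simp only [Finset.mem_filter, Finset.mem_compl, Finset.mem_sdiff]
        tauto
      rw [Finset.sum_congr rfl g1, ← Finset.sum_filter, g2, ← Finset.mul_sum, Finset.sum_comm]
      ring
    have f6 : 0 ≤ gh h C.card * |piS ends p h (S0 ∪ ((C \ T : Finset V) : Set V)) (A1 : Set V) - piS ends p h S0 (A1 : Set V)| :=
      mul_nonneg hg (abs_nonneg _)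
    refine (mul_le_of_le_one_left f6 (hκ _).2).trans ?_
    refine (mul_le_mul_of_nonneg_left (f3.trans (mul_le_mul_of_nonneg_left f4 hM0)) hg).trans ?_
    rw [f5]
    have g3 : 0 ≤ (As.card : ℝ) * M * ∑ s ∈ T, (if s ∈ C ∧ s ∉ B then gh h C.card else (0 : ℝ)) :=
      mul_nonneg (mul_nonneg (Nat.cast_nonneg _) hM0) (Finset.sum_nonneg hpos1)
    linarith

/-- Row J3. `C = cS ω D {n}`, `B = cS ω (D ∪ Qᶜ) {n}`. If some `s ∈ T` is in `C \ B`: the difference is at most `gh |C| |A*| M` (`green_le`). Otherwise `C ∩ T = B ∩ T`, so `κ`, `A'` agree, and `0 ≤ π(D ∪ (B ∩ T), A') - π(D ∪ C, A') ≤ M ∑_{a ∈ A*} ∑_{s ∈ C \ T} ta a s` (`lo_p`), `E[gh |C|; s ∈ C] ≤ M ∑_z ta n z ta z s` (`fork`). -/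
lemma T_diff {p h M : ℝ} (h0 : 0 ≤ p) (h1 : p ≤ 1) (hh0 : 0 ≤ h) (hh1 : h ≤ 1) (hM : Mb ends p h M) (D Q : Set V) (T As : Finset V) (n : V) (κ : Finset V → ℝ) (A' : Finset V → Finset V)
    (hκ : ∀ Y, 0 ≤ κ Y ∧ κ Y ≤ 1) (hκT : ∀ Y, κ Y = κ (Y ∩ T)) (hA : ∀ Y, A' Y ⊆ As) (hAT : ∀ Y, A' Y = A' (Y ∩ T)) :
    |T0 ends p h D n κ A' - T1 ends p h D Q T n κ A'| ≤
      (As.card : ℝ) * M * ∑ s ∈ T, Ex p (fun ω => if s ∈ cS ends ω D {n} ∧ s ∉ cS ends ω (D ∪ Qᶜ) {n} then gh h (cS ends ω D {n}).card else (0 : ℝ)) +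
      M ^ 2 * ∑ s ∈ Tᶜ, (∑ z, ta ends p n z * ta ends p z s) * ∑ a ∈ As, ta ends p a s := by
  have hM0 : 0 ≤ M := J3_M h0 h1 hh0 hh1 hM n
  have hsub : ∀ f g : (E → Bool) → ℝ, Ex p f - Ex p g = Ex p (fun ω => f ω - g ω) := by
    intro f g
    have e1 : (fun ω => f ω - g ω) = fun ω => f ω + (-1) * g ω := by
      funext ω
      ring
    rw [e1, Ex_add, Ex_mul_left]
    ring
  have hpt := fun ω => J3_pt h0 h1 hh0 hh1 hM hM0 D T As (cS ends ω (D ∪ Qᶜ) {n}) (cS ends ω D {n}) κ A' hκ hκT hA hAT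
    (cS_mono (fun _ h => h) Set.subset_union_left (le_refl _))
  have hE : Ex p (fun ω => (As.card : ℝ) * M * ∑ s ∈ T, (if s ∈ cS ends ω D {n} ∧ s ∉ cS ends ω (D ∪ Qᶜ) {n} then gh h (cS ends ω D {n}).card else (0 : ℝ)) +
      M * ∑ s ∈ Tᶜ, (if s ∈ cS ends ω D {n} then gh h (cS ends ω D {n}).card else (0 : ℝ)) * ∑ a ∈ As, ta ends p a s) =
      (As.card : ℝ) * M * ∑ s ∈ T, Ex p (fun ω => if s ∈ cS ends ω D {n} ∧ s ∉ cS ends ω (D ∪ Qᶜ) {n} then gh h (cS ends ω D {n}).card else (0 : ℝ)) +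
      M * ∑ s ∈ Tᶜ, Ex p (fun ω => if s ∈ cS ends ω D {n} then gh h (cS ends ω D {n}).card else (0 : ℝ)) * ∑ a ∈ As, ta ends p a s := by
    rw [Ex_add, Ex_mul_left, Ex_sum, Ex_mul_left, Ex_sum]
    congr 2
    refine Finset.sum_congr rfl fun s _ => ?_
    rw [mul_comm, ← Ex_mul_left]
    exact Ex_congr fun ω => mul_comm _ _
  have hbd : M * ∑ s ∈ Tᶜ, Ex p (fun ω => if s ∈ cS ends ω D {n} then gh h (cS ends ω D {n}).card else (0 : ℝ)) * ∑ a ∈ As, ta ends p a s ≤
      M ^ 2 * ∑ s ∈ Tᶜ, (∑ z, ta ends p n z * ta ends p z s) * ∑ a ∈ As, ta ends p a s := by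
    have e1 : M ^ 2 * ∑ s ∈ Tᶜ, (∑ z, ta ends p n z * ta ends p z s) * ∑ a ∈ As, ta ends p a s =
        M * ∑ s ∈ Tᶜ, (M * ∑ z, ta ends p n z * ta ends p z s) * ∑ a ∈ As, ta ends p a s := by
      rw [pow_two, mul_assoc]
      congr 1
      rw [Finset.mul_sum]
      exact Finset.sum_congr rfl fun s _ => by rw [mul_assoc]
    rw [e1]
    refine mul_le_mul_of_nonneg_left (Finset.sum_le_sum fun s _ => ?_) hM0
    exact mul_le_mul_of_nonneg_right (J3_fork h0 h1 hh0 hh1 hM hM0 D n s) (Finset.sum_nonneg fun a _ => ta_nonneg h0 h1 a s)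
  unfold T0 T1
  rw [hsub]
  rw [abs_le]
  constructor
  · rw [neg_le]
    have e1 : -Ex p (fun ω => κ (cS ends ω D {n}) * (gh h (cS ends ω D {n}).card * piS ends p h (D ∪ (cS ends ω D {n} : Set V)) (A' (cS ends ω D {n}) : Set V)) -
        κ (cS ends ω (D ∪ Qᶜ) {n} ∩ T) * (gh h (cS ends ω D {n}).card * piS ends p h (D ∪ ((cS ends ω (D ∪ Qᶜ) {n} ∩ T : Finset V) : Set V)) (A' (cS ends ω (D ∪ Qᶜ) {n} ∩ T) : Set V))) =
        Ex p (fun ω => (-1) * (κ (cS ends ω D {n}) * (gh h (cS ends ω D {n}).card * piS ends p h (D ∪ (cS ends ω D {n} : Set V)) (A' (cS ends ω D {n}) : Set V)) -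
        κ (cS ends ω (D ∪ Qᶜ) {n} ∩ T) * (gh h (cS ends ω D {n}).card * piS ends p h (D ∪ ((cS ends ω (D ∪ Qᶜ) {n} ∩ T : Finset V) : Set V)) (A' (cS ends ω (D ∪ Qᶜ) {n} ∩ T) : Set V)))) := by
      rw [Ex_mul_left]
      ring
    rw [e1]
    refine ((Ex_mono h0 h1 fun ω => ?_).trans hE.le).trans (add_le_add (le_refl _) hbd)
    have := (abs_le.1 (hpt ω)).1
    linarith
  · refine ((Ex_mono h0 h1 fun ω => ?_).trans hE.le).trans (add_le_add (le_refl _) hbd)
    exact (abs_le.1 (hpt ω)).2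

end Pool.Agent.PERC29.DZ
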