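import Pool.Agent.Lib.MP_29e17e_pr.Z.Ac
import Pool.Agent.Lib.MP_29e17e_pr.Z.Gd

set_option autoImplicit false
set_option linter.unusedSectionVars false

/-! Rows 29d-N1 .. 29d-N9: Section 4 in boxes, at `p = pc`. -/

open Finset Filter Topology

namespace Pool.Agent.PERC29.DZ

open Pool.Agent.PERC29 Pool.Agent.PERC29.AE

variable {d : ℕ}

/-- The ball as a finite set of vertices. -/
noncomputable def Qf {l : ℕ} (u : Fin d → Fin l) (R : ℕ) : Finset (Fin d → Fin l) := Finset.univ.filter (fun x => nz (rel u x) ≤ R)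

private lemma N1a_coord {l : ℕ} (u x : Fin d → Fin l) (i : Fin d) : (rel u x i).natAbs ≤ nz (rel u x) :=
  Finset.le_sup (f := fun i => (rel u x i).natAbs) (Finset.mem_univ i)

private lemma N1a_far {l : ℕ} (u n : Fin d → Fin l) (R : ℕ) (hn : ¬ nz (rel u n) ≤ R) :
    ∃ j, R < (rel u n j).natAbs := by
  by_contra h
  push Not at h
  exact hn (Finset.sup_le fun i _ => h i)

/-- a neighbour in the cube of a vertex outside: it differs in the coordinate `j` -/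
private lemma N1a_nb {l : ℕ} (u a n : Fin d → Fin l) (R : ℕ) (j : Fin d) (hj : R < (rel u n j).natAbs)
    (ha : nz (rel u a) ≤ R) (h : (boxG d l).Adj a n) :
    (∀ i, i ≠ j → a i = n i) ∧ ((a j : ℕ) : ℤ) = (if 0 < rel u n j then ((n j : ℕ) : ℤ) - 1 else ((n j : ℕ) : ℤ) + 1) := by
  obtain ⟨i, h1, h2⟩ := h
  have hc := (N1a_coord u a j).trans ha
  have hij : i = j := by
    by_contra hne
    have h3 := h2 j (fun h => hne h.symm)
    unfold rel at hj hc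
    rw [h3] at hc
    omega
  subst hij
  refine ⟨h2, ?_⟩
  unfold rel at hj hc ⊢
  split_ifs with h4 <;> omega

private lemma N1a_kernel {Kc : ℝ} (hd : 11 ≤ d) (hK : ∀ (a b : ℕ), a < d → b < d → d < a + b → ∀ (x y : Zd d) (S : Finset (Zd d)),
    ∑ z ∈ S, fz a (x - z) * fz b (z - y) ≤ Kc * fz (a + b - d) (x - y)) (hK1 : 1 ≤ Kc) {C pc : ℝ} (hC : 0 ≤ C) (h0 : 0 ≤ pc) (h1 : pc ≤ 1) (l : ℕ)
    (hU : ∀ (x y : Fin d → Fin l), ta (gends (boxG d l)) pc x y ≤ C * fk (d - 2) x y) (x y : Fin d → Fin l) :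
    ∑ z, ta (gends (boxG d l)) pc x z * ta (gends (boxG d l)) pc y z ≤ C ^ 2 * Kc := by
  have e1 : ∀ z, ta (gends (boxG d l)) pc x z * ta (gends (boxG d l)) pc y z ≤
      C ^ 2 * (fz (d - 2) (rel x x - rel x z) * fz (d - 2) (rel x z - rel x y)) := by
    intro z
    have a1 := hU x z
    have a2 := hU y z
    rw [← fz_rel (d - 2) x x z] at a1
    rw [← fz_rel (d - 2) x y z, fz_sub] at a2
    have a3 := mul_le_mul a1 a2 (ta_nonneg h0 h1 y z) (mul_nonneg hC (fz_pos _ _).le)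
    calc _ ≤ _ := a3
      _ = _ := by ring
  calc ∑ z, ta (gends (boxG d l)) pc x z * ta (gends (boxG d l)) pc y z
      ≤ ∑ z, C ^ 2 * (fz (d - 2) (rel x x - rel x z) * fz (d - 2) (rel x z - rel x y)) :=
        Finset.sum_le_sum fun z _ => e1 z
    _ = C ^ 2 * ∑ z ∈ Finset.univ.image (rel x), fz (d - 2) (rel x x - z) * fz (d - 2) (z - rel x y) := by
        rw [← Finset.mul_sum, Finset.sum_image (fun a _ b _ hab => rel_inj x hab)]
    _ ≤ C ^ 2 * (Kc * fz (d - 2 + (d - 2) - d) (rel x x - rel x y)) :=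
        mul_le_mul_of_nonneg_left (hK (d - 2) (d - 2) (by omega) (by omega) (by omega) _ _ _) (by positivity)
    _ ≤ C ^ 2 * (Kc * 1) :=
        mul_le_mul_of_nonneg_left (mul_le_mul_of_nonneg_left (fz_le_one _ _) (by linarith)) (by positivity)
    _ = C ^ 2 * Kc := by ring

/-- Row N1. A vertex outside of the cube has at most one neighbour in the cube: some coordinate of `rel u n` has absolute value `> R`; a neighbour in the cube differs in one coordinate, by one: it is that coordinate, and the neighbour is determined; the edge too (`gends` is injective). -/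
lemma Qb_one {l : ℕ} (u : Fin d → Fin l) (R : ℕ) (n : Fin d → Fin l) (hn : n ∉ Qf u R) (e e' : (boxG d l).edgeSet) (a a' : Fin d → Fin l) (he : gends (boxG d l) e = s(a, n))
    (he' : gends (boxG d l) e' = s(a', n)) (ha : a ∈ Qf u R) (ha' : a' ∈ Qf u R) : e = e' := by
  unfold Qf at hn ha ha'
  simp only [Finset.mem_filter, Finset.mem_univ, true_and] at hn ha ha'
  obtain ⟨j, hj⟩ := N1a_far u n R hn
  have hA : (boxG d l).Adj a n := by
    rw [← SimpleGraph.mem_edgeSet, ← he]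
    exact e.2
  have hA' : (boxG d l).Adj a' n := by
    rw [← SimpleGraph.mem_edgeSet, ← he']
    exact e'.2
  obtain ⟨h1, h2⟩ := N1a_nb u a n R j hj ha hA
  obtain ⟨h3, h4⟩ := N1a_nb u a' n R j hj ha' hA'
  have haa : a = a' := by
    funext i
    by_cases hi : i = j
    · subst hi
      apply Fin.ext
      have h5 := h2.trans h4.symm
      exact_mod_cast h5
    · rw [h1 i hi, h3 i hi]
  apply Subtype.ext
  show gends (boxG d l) e = gends (boxG d l) e'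
  rw [he, he', haa]

/-- Row N1. `two_green`, `HP.U`, `conv_z`: `∑_z ta x z ta y z ≤ C^2 Kc`; `h ≤ Mh^2/c'^2` (`Mh_low`). -/
lemma M2_box {C c e pc : ℝ} (ht : HT d C c e pc) : ∃ K2 : ℝ, 1 ≤ K2 ∧ ∀ (l : ℕ) (h : ℝ), 0 < h → h < 1 → M2b (gends (boxG d l)) pc h (K2 * Mh d pc h ^ 2) := by
  obtain ⟨c', hc', hlow⟩ := Mh_low ht
  have hd : 11 ≤ d := ht.hp.d11
  obtain ⟨Kc, hK1, hK⟩ := conv_z (d := d) (by omega)
  have hC : 1 ≤ C := ht.hp.C1
  have hp0 : 0 ≤ pc := ht.hp.p0.le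
  have hp1 : pc ≤ 1 := ht.hp.p1.le
  refine ⟨1 + C ^ 2 * Kc / c' ^ 2, ?_, ?_⟩
  · have : 0 ≤ C ^ 2 * Kc / c' ^ 2 := by positivity
    linarith
  intro l h h0 h1 x y
  have g1 := two_green hp0 hp1 h0.le h1.le (Mh_Mb l pc h hp0 hp1 h0.le h1.le) x y
  have g2 := N1a_kernel hd hK hK1 (by linarith) hp0 hp1 l (ht.hp.U l) x y
  have g3 := hlow pc h le_rfl hp1 h0 h1
  have g4 : c' ^ 2 * h ≤ Mh d pc h ^ 2 := by
    have g5 : 0 ≤ c' * Real.sqrt h := mul_nonneg hc'.le (Real.sqrt_nonneg h)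
    have g6 := pow_le_pow_left₀ g5 g3 2
    rw [mul_pow, Real.sq_sqrt h0.le] at g6
    exact g6
  have g7 : h * (C ^ 2 * Kc) ≤ C ^ 2 * Kc / c' ^ 2 * Mh d pc h ^ 2 := by
    have g8 : 0 ≤ C ^ 2 * Kc / c' ^ 2 := by positivity
    have g9 := mul_le_mul_of_nonneg_left g4 g8
    calc h * (C ^ 2 * Kc) = C ^ 2 * Kc / c' ^ 2 * (c' ^ 2 * h) := by field_simp
      _ ≤ _ := g9
  have g10 := mul_le_mul_of_nonneg_left g2 h0.le
  calc _ ≤ _ := g1
    _ ≤ Mh d pc h ^ 2 + C ^ 2 * Kc / c' ^ 2 * Mh d pc h ^ 2 := by linarith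
    _ = (1 + C ^ 2 * Kc / c' ^ 2) * Mh d pc h ^ 2 := by ring

/-- The centre of a large box is a point of the region. -/
private lemma N1b_pt (d : ℕ) (pc : ℝ) (m : ℕ) : ∃ (l : ℕ) (u : Fin d → Fin l),
    Rg d pc 1 l u pc (1 / ((m : ℝ) + 2)) := by
  refine ⟨2 * (m + 2) ^ 2 + 1, fun _ => ⟨(m + 2) ^ 2, by omega⟩, ?_⟩
  have hm : (0 : ℝ) < (m : ℝ) + 2 := by positivity
  refine ⟨by positivity, ?_, le_rfl, ?_, ?_⟩
  · rw [div_lt_one hm]
    have : (0 : ℝ) ≤ (m : ℝ) := Nat.cast_nonneg m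
    linarith
  · have := Real.sqrt_nonneg (1 / ((m : ℝ) + 2) / 1)
    linarith
  · intro n hn i
    have h1 : (1 : ℝ) / (1 / ((m : ℝ) + 2)) ^ 2 = (((m + 2) ^ 2 : ℕ) : ℝ) := by
      push_cast
      field_simp
    rw [h1] at hn
    have h2 : n ≤ (m + 2) ^ 2 := by exact_mod_cast hn
    show n ≤ (m + 2) ^ 2 ∧ (m + 2) ^ 2 + n < 2 * (m + 2) ^ 2 + 1
    omega

private lemma N1b_small (h0 : ℝ) (hh : 0 < h0) : ∃ M : ℕ, ∀ m : ℕ, M ≤ m → 1 / ((m : ℝ) + 2) ≤ h0 := by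
  obtain ⟨M, hM⟩ := exists_nat_gt (1 / h0)
  refine ⟨M, fun m hm => ?_⟩
  have h1 : (M : ℝ) ≤ m := by exact_mod_cast hm
  have h2 : (0 : ℝ) < (m : ℝ) + 2 := by positivity
  rw [div_le_iff₀ h2]
  rw [div_lt_iff₀ hh] at hM
  nlinarith

/-- Row N1. Cauchy argument at `p = pc` (as `cau`). -/
lemma cau_c (pc : ℝ) (f : (l : ℕ) → (Fin d → Fin l) → ℝ → ℝ)
    (hf : ∀ η : ℝ, 0 < η → ∃ α h0 : ℝ, 0 < h0 ∧ ∀ (l : ℕ) (u : Fin d → Fin l) (h : ℝ), Rg d pc 1 l u pc h → h ≤ h0 → |f l u h - α| ≤ η) :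
    ∃ a : ℝ, ∀ η : ℝ, 0 < η → ∃ h0 : ℝ, 0 < h0 ∧ ∀ (l : ℕ) (u : Fin d → Fin l) (h : ℝ), Rg d pc 1 l u pc h → h ≤ h0 → |f l u h - a| ≤ η := by
  choose L U hLU using N1b_pt d pc
  have hev : ∀ η : ℝ, 0 < η → ∃ α h0 : ℝ, 0 < h0 ∧
      (∀ (l : ℕ) (u : Fin d → Fin l) (h : ℝ), Rg d pc 1 l u pc h → h ≤ h0 → |f l u h - α| ≤ η) ∧
      ∃ M : ℕ, ∀ m : ℕ, M ≤ m → |f (L m) (U m) (1 / ((m : ℝ) + 2)) - α| ≤ η := by
    intro η hη
    obtain ⟨α, h0, hh, H⟩ := hf η hη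
    obtain ⟨M, hM⟩ := N1b_small h0 hh
    exact ⟨α, h0, hh, H, M, fun m hm => H _ _ _ (hLU m) (hM m hm)⟩
  have hc : CauchySeq (fun m : ℕ => f (L m) (U m) (1 / ((m : ℝ) + 2))) := by
    rw [Metric.cauchySeq_iff']
    intro ε hε
    obtain ⟨α, -, -, -, M, hM⟩ := hev (ε / 3) (by positivity)
    refine ⟨M, fun m hm => ?_⟩
    rw [Real.dist_eq]
    have h1 := abs_le.1 (hM m hm)
    have h2 := abs_le.1 (hM M le_rfl)
    rw [abs_lt]
    constructor
    · linarith [h1.1, h2.2]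
    · linarith [h1.2, h2.1]
  obtain ⟨a, ha⟩ := cauchySeq_tendsto_of_complete hc
  refine ⟨a, fun η hη => ?_⟩
  obtain ⟨α, h0, hh, H, M, hM⟩ := hev (η / 2) (by positivity)
  have h3 : |a - α| ≤ η / 2 := by
    refine le_of_tendsto ((ha.sub_const α).abs) ?_
    filter_upwards [eventually_ge_atTop M] with m hm
    exact hM m hm
  refine ⟨h0, hh, fun l u h hR hle => ?_⟩
  have h1 := abs_le.1 (H l u h hR hle)
  have h2 := abs_le.1 h3
  rw [abs_le]
  constructor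
  · linarith [h1.1, h2.2]
  · linarith [h1.2, h2.1]

/-- Row N2: comparison of two expectations. -/
private lemma N2_abs {E : Type*} [Fintype E] [DecidableEq E] {p : ℝ} (h0 : 0 ≤ p) (h1 : p ≤ 1)
    {f g : (E → Bool) → ℝ} {c : ℝ} (h : ∀ ω, |f ω - g ω| ≤ c) : |Ex p f - Ex p g| ≤ c := by
  have h2 : Ex p f ≤ Ex p (fun ω => g ω + c) :=
    Ex_mono h0 h1 (fun ω => by have := (abs_le.1 (h ω)).2; linarith)
  have h3 : Ex p g ≤ Ex p (fun ω => f ω + c) :=
    Ex_mono h0 h1 (fun ω => by have := (abs_le.1 (h ω)).1; linarith)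
  rw [Ex_add, Ex_const] at h2 h3
  rw [abs_le]
  constructor <;> linarith

/-- Row N2: transfer to the window. -/
private lemma N2_win {l : ℕ} (u : Fin d → Fin l) (R : ℕ) (hu : Dp u (R + 1)) (p : ℝ) (D A : Finset (Zd d))
    (G : Finset (Zd d) → Finset (Zd d) → ℝ) :
    Ex p (fun ω : (boxG d l).edgeSet → Bool => G (Bz u R D A ω) (Nz u R D A ω (fun _ => false))) =
      Ex p (fun ω : Om d R => G (Wb R D A ω) (Wn R D A ω (fun _ => false))) := by
  have h := win_ex u R hu p 0 D A G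
  simp only [Ex_zero'] at h
  exact h

/-- Row N2: the inner expectation. -/
private lemma N2_inner {l : ℕ} (u : Fin d → Fin l) (p h : ℝ) (hp0 : 0 ≤ p) (hp1 : p ≤ 1)
    (h0 : 0 < h) (h1 : h ≤ 1) (b : ℕ) (B N : Finset (Zd d)) :
    |Ex p (fun ω' => gh h (b + (cS (gends (boxG d l)) ω' (pre u B) (pre u N)).card)) - piF l u p h B N| ≤
      (b : ℝ) * h := by
  unfold piF piS
  exact N2_abs hp0 hp1 (fun ω => gh_split h0.le h1 b _)

/-- Row N2: uniformity over a finite set. -/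
private lemma N2_fin {Ω : Type*} [Finite Ω] [Nonempty Ω] (P : Ω → ℝ → Prop)
    (hP : ∀ ω a b, a ≤ b → P ω b → P ω a) (h : ∀ ω, ∃ h0 : ℝ, 0 < h0 ∧ P ω h0) :
    ∃ h0 : ℝ, 0 < h0 ∧ ∀ ω, P ω h0 := by
  choose f hf hg using h
  obtain ⟨w, hw⟩ := Finite.exists_min f
  exact ⟨f w, hf w, fun ω => hP ω _ _ (hw ω) (hg ω)⟩

/-- Row N2: exploration in the box and transfer to the window. -/
private lemma N2_box {l : ℕ} (u : Fin d → Fin l) (R : ℕ) (hu : Dp u (R + 1)) (D A : Finset (Zd d))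
    (hA : A ⊆ bz R) (p h : ℝ) (hp0 : 0 ≤ p)
    (hp1 : p ≤ 1) (h0 : 0 < h) (h1 : h ≤ 1) (Ψ : Finset (Zd d) → ℝ) (K : ℝ) (hK : ∀ B, |Ψ B| ≤ K) :
    |Ex p (fun ω => gh h (cS (gends (boxG d l)) ω (pre u D) (pre u A)).card * Ψ (Bz u R D A ω)) -
      Ex p (fun ω : Om d R => piF l u p h (D ∪ Wb R D A ω) (Wn R D A ω (fun _ => false)) * Ψ (Wb R D A ω))| ≤
      ((bz R : Finset (Zd d)).card : ℝ) * h * K := by
  have e1 := expl0 u R D A hA p Ψ (gh h)
  rw [e1, ← N2_win u R hu p D A (fun B N => piF l u p h (D ∪ B) N * Ψ B)]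
  refine N2_abs hp0 hp1 (fun ω => ?_)
  rw [← sub_mul, abs_mul]
  have h2 := N2_inner u p h hp0 hp1 h0 h1 (Bz u R D A ω).card (D ∪ Bz u R D A ω)
    (Nz u R D A ω (fun _ => false))
  have h3 : (((Bz u R D A ω).card : ℕ) : ℝ) ≤ ((bz R : Finset (Zd d)).card : ℝ) := by
    exact_mod_cast Finset.card_le_card (Bz_ball u R D A ω)
  have h4 : (((Bz u R D A ω).card : ℕ) : ℝ) * h ≤ ((bz R : Finset (Zd d)).card : ℝ) * h :=
    mul_le_mul_of_nonneg_right h3 h0.le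
  exact mul_le_mul (h2.trans h4) (hK _) (abs_nonneg _) (by positivity)

/-- Row N2. The main term for `gh`, with deleted set `D` and start `n`: as `main_lim` (`expl0` with `F = gh h`, `gh_split`, `CTh.pi`, division by `Mh`). -/
lemma main_lim2 {C c e pc : ℝ} (ht : HT d C c e pc) {φ : Finset (Zd d) → Finset (Zd d) → ℝ} (hφ : CTh d C pc φ) (R : ℕ) (D : Finset (Zd d)) (n : Zd d) (hn : nz n ≤ R)
    (Ψ : (l : ℕ) → (Fin d → Fin l) → ℝ → Finset (Zd d) → ℝ) (ψ : Finset (Zd d) → ℝ) (K : ℝ)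
    (hK : ∃ h0 : ℝ, 0 < h0 ∧ ∀ (l : ℕ) (u : Fin d → Fin l) (h : ℝ), Rg d pc 1 l u pc h → h ≤ h0 → ∀ B, |Ψ l u h B| ≤ K)
    (hΨ : ∀ B, B ⊆ bz R → ∀ η : ℝ, 0 < η → ∃ h0 : ℝ, 0 < h0 ∧ ∀ (l : ℕ) (u : Fin d → Fin l) (h : ℝ), Rg d pc 1 l u pc h → h ≤ h0 → |Ψ l u h B - ψ B| ≤ η)
    (η : ℝ) (hη : 0 < η) : ∃ h0 : ℝ, 0 < h0 ∧ ∀ (l : ℕ) (u : Fin d → Fin l) (h : ℝ), Rg d pc 1 l u pc h → h ≤ h0 →
    |Ex pc (fun ω => gh h (cS (gends (boxG d l)) ω (pre u D) (pre u {n})).card * Ψ l u h (Bz u R D {n} ω)) / Mh d pc h -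
      Ex pc (fun ω : Om d R => φ (D ∪ Wb R D {n} ω) (Wn R D {n} ω (fun _ => false)) * ψ (Wb R D {n} ω))| ≤ η := by
  classical
  obtain ⟨hK0, hKp, hKb⟩ := hK
  obtain ⟨Kp, hKp'⟩ : ∃ Kp : ℝ, Kp = |K| + 1 := ⟨_, rfl⟩
  have hKpos : 0 < Kp := by rw [hKp']; positivity
  have hKle : K ≤ Kp := by rw [hKp']; linarith [le_abs_self K]
  obtain ⟨Nb, hNb⟩ : ∃ Nb : ℝ, Nb = ((bz R : Finset (Zd d)).card : ℝ) := ⟨_, rfl⟩
  have hNb0 : 0 ≤ Nb := by rw [hNb]; positivity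
  have hA : ({n} : Finset (Zd d)) ⊆ bz R := by
    intro x hx
    rw [Finset.mem_singleton] at hx
    rw [mem_bz, hx]
    exact hn
  -- the limit for every configuration of the window
  have hω : ∀ ω : Om d R, ∃ h0 : ℝ, 0 < h0 ∧ ∀ (l : ℕ) (u : Fin d → Fin l) (h : ℝ), Rg d pc 1 l u pc h → h ≤ h0 →
      |piF l u pc h (D ∪ Wb R D {n} ω) (Wn R D {n} ω (fun _ => false)) / Mh d pc h * Ψ l u h (Wb R D {n} ω) -
        φ (D ∪ Wb R D {n} ω) (Wn R D {n} ω (fun _ => false)) * ψ (Wb R D {n} ω)| ≤ η / 3 := by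
    intro ω
    generalize hB : Wb R D {n} ω = B
    generalize Wn R D {n} ω (fun _ => false) = N
    have hBs : B ⊆ bz R := by
      rw [← hB]
      exact Bz_ball (cR d R) R D {n} ω
    obtain ⟨h1, h1p, h1b⟩ := hφ.pi 1 one_pos le_rfl (D ∪ B) N (η / (6 * Kp)) (by positivity)
    obtain ⟨h2, h2p, h2b⟩ := hΨ B hBs (η / (6 * (|φ (D ∪ B) N| + 1))) (by positivity)
    refine ⟨min hK0 (min h1 h2), lt_min hKp (lt_min h1p h2p), ?_⟩
    intro l u h hR hh
    have a1 := h1b l u pc h hR (hh.trans ((min_le_right _ _).trans (min_le_left _ _)))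
    have a2 := h2b l u h hR (hh.trans ((min_le_right _ _).trans (min_le_right _ _)))
    have a3 := (hKb l u h hR (hh.trans (min_le_left _ _)) B).trans hKle
    generalize piF l u pc h (D ∪ B) N / Mh d pc h = S at a1 ⊢
    generalize Ψ l u h B = P at a2 a3 ⊢
    generalize φ (D ∪ B) N = f at a1 a2 ⊢
    generalize ψ B = g at a2 ⊢
    have e1 : S * P - f * g = (S - f) * P + f * (P - g) := by ring
    rw [e1]
    refine (abs_add_le _ _).trans ?_
    rw [abs_mul, abs_mul]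
    have b1 : |S - f| * |P| ≤ η / (6 * Kp) * Kp := mul_le_mul a1 a3 (abs_nonneg _) (by positivity)
    have b2 : |f| * |P - g| ≤ (|f| + 1) * (η / (6 * (|f| + 1))) :=
      mul_le_mul (by linarith) a2 (abs_nonneg _) (by positivity)
    have b3 : η / (6 * Kp) * Kp = η / 6 := by field_simp
    have b4 : (|f| + 1) * (η / (6 * (|f| + 1))) = η / 6 := by
      have : |f| + 1 ≠ 0 := by positivity
      field_simp
    linarith
  obtain ⟨hA0, hAp, hAb⟩ := N2_fin (Ω := Om d R) (fun ω h0 => ∀ (l : ℕ) (u : Fin d → Fin l) (h : ℝ), Rg d pc 1 l u pc h → h ≤ h0 →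
      |piF l u pc h (D ∪ Wb R D {n} ω) (Wn R D {n} ω (fun _ => false)) / Mh d pc h * Ψ l u h (Wb R D {n} ω) -
        φ (D ∪ Wb R D {n} ω) (Wn R D {n} ω (fun _ => false)) * ψ (Wb R D {n} ω)| ≤ η / 3)
    (fun ω a b hab hb l u h hR hh => hb l u h hR (hh.trans hab)) hω
  obtain ⟨L, hL, hrg⟩ := rg_num ht 1 one_pos le_rfl
  obtain ⟨hC, hCp, hCb⟩ := hrg (η / 3 / (Nb * Kp + 1)) (by positivity) (R + 1)
  refine ⟨min hK0 (min hA0 hC), lt_min hKp (lt_min hAp hCp), ?_⟩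
  intro l u h hR hh
  have hh1 := hh.trans (min_le_left _ _)
  have hh2 := hh.trans ((min_le_right _ _).trans (min_le_left _ _))
  have hh3 := hh.trans ((min_le_right _ _).trans (min_le_right _ _))
  obtain ⟨-, -, r5, -, r7, -, -, -, -, r12⟩ := hCb l u pc h hR hh3
  have hpc0 := ht.hp.p0
  have hpc1 := ht.hp.p1
  have f1 := N2_box u R r12 D {n} hA pc h hpc0.le hpc1.le hR.h0 hR.h1.le (Ψ l u h) Kp
    (fun B => (hKb l u h hR hh1 B).trans hKle)
  rw [← hNb] at f1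
  have f2 : |Ex pc (fun ω : Om d R => piF l u pc h (D ∪ Wb R D {n} ω) (Wn R D {n} ω (fun _ => false)) / Mh d pc h *
        Ψ l u h (Wb R D {n} ω)) -
      Ex pc (fun ω : Om d R => φ (D ∪ Wb R D {n} ω) (Wn R D {n} ω (fun _ => false)) * ψ (Wb R D {n} ω))| ≤ η / 3 :=
    N2_abs hpc0.le hpc1.le (fun ω => hAb ω l u h hR hh2)
  have f4 : Ex pc (fun ω : Om d R => piF l u pc h (D ∪ Wb R D {n} ω) (Wn R D {n} ω (fun _ => false)) / Mh d pc h *
        Ψ l u h (Wb R D {n} ω)) =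
      Ex pc (fun ω : Om d R => piF l u pc h (D ∪ Wb R D {n} ω) (Wn R D {n} ω (fun _ => false)) * Ψ l u h (Wb R D {n} ω)) /
        Mh d pc h := by
    rw [div_eq_inv_mul, ← Ex_mul_left]
    refine Ex_congr (fun ω => ?_)
    ring
  rw [f4] at f2
  generalize Ex pc (fun ω => gh h (cS (gends (boxG d l)) ω (pre u D) (pre u {n})).card * Ψ l u h (Bz u R D {n} ω)) = X at f1 ⊢
  generalize Ex pc (fun ω : Om d R => piF l u pc h (D ∪ Wb R D {n} ω) (Wn R D {n} ω (fun _ => false)) * Ψ l u h (Wb R D {n} ω)) = Y at f1 f2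
  generalize Ex pc (fun ω : Om d R => φ (D ∪ Wb R D {n} ω) (Wn R D {n} ω (fun _ => false)) * ψ (Wb R D {n} ω)) = Z at f2 ⊢
  generalize Mh d pc h = m at r5 r7 f2 ⊢
  have f5 : |X / m - Y / m| ≤ η / 3 := by
    rw [← sub_div, abs_div, abs_of_pos r5, div_le_iff₀ r5]
    have g4 : 0 < Nb * Kp + 1 := by positivity
    have g1 : Nb * h * Kp ≤ η / 3 * m := by
      have g2 : h * (Nb * Kp + 1) ≤ η / 3 * m := by
        have g5 : η / 3 / (Nb * Kp + 1) * m = (η / 3 * m) / (Nb * Kp + 1) := by ring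
        rw [g5, le_div_iff₀ g4] at r7
        exact r7
      have g3 : 0 ≤ h := hR.h0.le
      linarith
    linarith
  have e1 : X / m - Z = (X / m - Y / m) + (Y / m - Z) := by ring
  rw [e1]
  refine (abs_add_le _ _).trans ?_
  linarith

/-- The local value. -/
noncomputable def tloc (φ : Finset (Zd d) → Finset (Zd d) → ℝ) (pc : ℝ) (r R : ℕ) (D : Finset (Zd d)) (n : Zd d) (κ : Finset (Zd d) → ℝ) (A' : Finset (Zd d) → Finset (Zd d)) : ℝ :=
  Ex pc (fun ω : Om d R => φ (D ∪ Wb R D {n} ω) (Wn R D {n} ω (fun _ => false)) *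
    (κ ((Wb R D {n} ω).filter (fun x => nz x ≤ r)) * φ (D ∪ (Wb R D {n} ω).filter (fun x => nz x ≤ r)) (A' ((Wb R D {n} ω).filter (fun x => nz x ≤ r)))))

/-- Row N3. `T1` with `Q = Qb u R`, `T = prf u (bz r)`, the weight `κ` and `A'` of the relative positions: `main_lim2` with `Ψ = κ(B ∩ bz r) piF (D ∪ (B ∩ bz r)) (A' (B ∩ bz r)) / Mh` (bounded: `piF D A ≤ |A| Mh`, the sets `A'` are contained in the finite set `As`), `CTh.pi`. -/
lemma T1_lim {C c e pc : ℝ} (ht : HT d C c e pc) {φ : Finset (Zd d) → Finset (Zd d) → ℝ} (hφ : CTh d C pc φ) (r R : ℕ) (D : Finset (Zd d)) (n : Zd d) (hn : nz n ≤ R)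
    (κ : Finset (Zd d) → ℝ) (A' : Finset (Zd d) → Finset (Zd d)) (hκ : ∀ Y, 0 ≤ κ Y ∧ κ Y ≤ 1) (As : Finset (Zd d)) (hA : ∀ Y, A' Y ⊆ As)
    (η : ℝ) (hη : 0 < η) : ∃ h0 : ℝ, 0 < h0 ∧ ∀ (l : ℕ) (u n' : Fin d → Fin l) (h : ℝ), Rg d pc 1 l u pc h → h ≤ h0 → rel u n' = n →
    |T1 (gends (boxG d l)) pc h (pre u D) (Qb u R) (prf u (bz r)) n' (fun Y => κ (Y.image (rel u))) (fun Y => prf u (A' (Y.image (rel u)))) -
      tloc φ pc r R D n κ A' * Mh d pc h ^ 2| ≤ η * Mh d pc h ^ 2 := by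
  classical
  obtain ⟨c2, hc2, hML⟩ := Mh_low ht
  have hpc0 : 0 ≤ pc := ht.hp.p0.le
  have hpc1 : pc ≤ 1 := ht.hp.p1.le
  have hM0 : ∀ (l : ℕ) (u : Fin d → Fin l) (h : ℝ), Rg d pc 1 l u pc h → 0 < Mh d pc h := by
    intro l u h hR
    have := hR.h0
    exact lt_of_lt_of_le (by positivity) (hML pc h (le_refl _) hpc1 hR.h0 hR.h1)
  let Ψ : (l : ℕ) → (Fin d → Fin l) → ℝ → Finset (Zd d) → ℝ := fun l u h B =>
    κ (B.filter (fun x => nz x ≤ r)) * (piF l u pc h (D ∪ B.filter (fun x => nz x ≤ r)) (A' (B.filter (fun x => nz x ≤ r))) / Mh d pc h)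
  let ψ : Finset (Zd d) → ℝ := fun B =>
    κ (B.filter (fun x => nz x ≤ r)) * φ (D ∪ B.filter (fun x => nz x ≤ r)) (A' (B.filter (fun x => nz x ≤ r)))
  have hK : ∃ h0 : ℝ, 0 < h0 ∧ ∀ (l : ℕ) (u : Fin d → Fin l) (h : ℝ), Rg d pc 1 l u pc h → h ≤ h0 → ∀ B, |Ψ l u h B| ≤ (As.card : ℝ) := by
    refine ⟨1, one_pos, fun l u h hR _ B => ?_⟩
    have hM := hM0 l u h hR
    show |κ (B.filter (fun x => nz x ≤ r)) * (piF l u pc h (D ∪ B.filter (fun x => nz x ≤ r)) (A' (B.filter (fun x => nz x ≤ r))) / Mh d pc h)| ≤ (As.card : ℝ)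
    set F := B.filter (fun x => nz x ≤ r)
    have a1 : piF l u pc h (D ∪ F) (A' F) ≤ (As.card : ℝ) * Mh d pc h := by
      have b1 := piF_sb u pc h hpc0 hpc1 hR.h0.le hR.h1.le (D ∪ F) ∅ (A' F)
      rw [Finset.empty_union, piF_empty, zero_add] at b1
      calc _ ≤ ∑ a ∈ A' F, piF l u pc h (D ∪ F) {a} := b1
        _ ≤ ∑ a ∈ A' F, Mh d pc h := Finset.sum_le_sum fun a _ => piF_single u pc h hpc0 hpc1 hR.h0.le hR.h1.le _ _
        _ = ((A' F).card : ℝ) * Mh d pc h := by rw [Finset.sum_const, nsmul_eq_mul]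
        _ ≤ (As.card : ℝ) * Mh d pc h := by
            refine mul_le_mul_of_nonneg_right ?_ hM.le
            exact_mod_cast Finset.card_le_card (hA F)
    have a2 : 0 ≤ piF l u pc h (D ∪ F) (A' F) := piF_nonneg u pc h hpc0 hpc1 hR.h0.le hR.h1.le _ _
    have a3 : piF l u pc h (D ∪ F) (A' F) / Mh d pc h ≤ (As.card : ℝ) := by
      rw [div_le_iff₀ hM]
      exact a1
    have a4 : 0 ≤ piF l u pc h (D ∪ F) (A' F) / Mh d pc h := div_nonneg a2 hM.le
    rw [abs_of_nonneg (mul_nonneg (hκ F).1 a4)]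
    calc κ F * (piF l u pc h (D ∪ F) (A' F) / Mh d pc h) ≤ 1 * (piF l u pc h (D ∪ F) (A' F) / Mh d pc h) :=
          mul_le_mul_of_nonneg_right (hκ F).2 a4
      _ ≤ (As.card : ℝ) := by rw [one_mul]; exact a3
  have hΨ : ∀ B, B ⊆ bz R → ∀ η : ℝ, 0 < η → ∃ h0 : ℝ, 0 < h0 ∧ ∀ (l : ℕ) (u : Fin d → Fin l) (h : ℝ), Rg d pc 1 l u pc h → h ≤ h0 → |Ψ l u h B - ψ B| ≤ η := by
    intro B _ η hη
    obtain ⟨h0, h0pos, H⟩ := hφ.pi 1 one_pos (le_refl _) (D ∪ B.filter (fun x => nz x ≤ r)) (A' (B.filter (fun x => nz x ≤ r))) η hη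
    refine ⟨h0, h0pos, fun l u h hR hh => ?_⟩
    show |κ (B.filter (fun x => nz x ≤ r)) * (piF l u pc h (D ∪ B.filter (fun x => nz x ≤ r)) (A' (B.filter (fun x => nz x ≤ r))) / Mh d pc h) -
      κ (B.filter (fun x => nz x ≤ r)) * φ (D ∪ B.filter (fun x => nz x ≤ r)) (A' (B.filter (fun x => nz x ≤ r)))| ≤ η
    rw [← mul_sub, abs_mul, abs_of_nonneg (hκ _).1]
    calc _ ≤ 1 * |piF l u pc h (D ∪ B.filter (fun x => nz x ≤ r)) (A' (B.filter (fun x => nz x ≤ r))) / Mh d pc h -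
          φ (D ∪ B.filter (fun x => nz x ≤ r)) (A' (B.filter (fun x => nz x ≤ r)))| :=
          mul_le_mul_of_nonneg_right (hκ _).2 (abs_nonneg _)
      _ ≤ η := by rw [one_mul]; exact H l u pc h hR hh
  obtain ⟨h2, h2pos, H2⟩ := main_lim2 ht hφ R D n hn Ψ ψ (As.card : ℝ) hK hΨ η hη
  refine ⟨h2, h2pos, fun l u n' h hR hh hn' => ?_⟩
  have hM := hM0 l u h hR
  have hm := H2 l u h hR hh
  -- the sets
  have hQ : {x | rel u x ∉ (bz R : Finset (Zd d))} = (Qb u R)ᶜ := by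
    ext x
    simp only [Set.mem_setOf_eq, Set.mem_compl_iff, Qb, mem_bz]
  have hpren : pre u ({n} : Finset (Zd d)) = {n'} := by
    ext x
    simp only [pre, Finset.mem_singleton, Set.mem_setOf_eq, Set.mem_singleton_iff]
    constructor
    · intro hx
      exact rel_inj u (hx.trans hn'.symm)
    · intro hx
      rw [hx, hn']
  have hBB : ∀ ω, BB u R D {n} ω = cS (gends (boxG d l)) ω (pre u D ∪ (Qb u R)ᶜ) {n'} := by
    intro ω
    unfold BB
    rw [hQ, hpren]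
  have hmem : ∀ ω x, rel u x ∈ Bz u R D {n} ω ↔ x ∈ cS (gends (boxG d l)) ω (pre u D ∪ (Qb u R)ᶜ) {n'} := by
    intro ω x
    unfold Bz
    rw [hBB, Finset.mem_image]
    constructor
    · rintro ⟨y, hy, hxy⟩
      rwa [← rel_inj u hxy]
    · intro hx
      exact ⟨x, hx, rfl⟩
  have him : ∀ ω, (cS (gends (boxG d l)) ω (pre u D ∪ (Qb u R)ᶜ) {n'} ∩ prf u (bz r)).image (rel u) =
      (Bz u R D {n} ω).filter (fun x => nz x ≤ r) := by
    intro ω
    ext y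
    simp only [Finset.mem_image, Finset.mem_inter, Finset.mem_filter, prf, Finset.mem_univ, true_and, mem_bz]
    constructor
    · rintro ⟨x, ⟨hx1, hx2⟩, rfl⟩
      exact ⟨(hmem ω x).2 hx1, hx2⟩
    · rintro ⟨hy1, hy2⟩
      have hy3 := hy1
      unfold Bz at hy3
      obtain ⟨x, _, rfl⟩ := Finset.mem_image.1 hy3
      exact ⟨x, ⟨(hmem ω x).1 hy1, hy2⟩, rfl⟩
  have hpf : ∀ ω, pre u (D ∪ (Bz u R D {n} ω).filter (fun x => nz x ≤ r)) =
      pre u D ∪ ((cS (gends (boxG d l)) ω (pre u D ∪ (Qb u R)ᶜ) {n'} ∩ prf u (bz r) : Finset (Fin d → Fin l)) :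
        Set (Fin d → Fin l)) := by
    intro ω
    ext x
    rw [Set.mem_union, Finset.mem_coe, Finset.mem_inter]
    simp only [pre, Set.mem_setOf_eq, Finset.mem_union, Finset.mem_filter, hmem, prf, Finset.mem_univ, true_and, mem_bz]
  have hq : T1 (gends (boxG d l)) pc h (pre u D) (Qb u R) (prf u (bz r)) n' (fun Y => κ (Y.image (rel u))) (fun Y => prf u (A' (Y.image (rel u)))) =
      Mh d pc h * Ex pc (fun ω => gh h (cS (gends (boxG d l)) ω (pre u D) (pre u {n})).card * Ψ l u h (Bz u R D {n} ω)) := by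
    rw [← Ex_mul_left]
    unfold T1
    refine Ex_congr fun ω => ?_
    show _ = Mh d pc h * (_ * (κ ((Bz u R D {n} ω).filter (fun x => nz x ≤ r)) *
      (piF l u pc h (D ∪ (Bz u R D {n} ω).filter (fun x => nz x ≤ r)) (A' ((Bz u R D {n} ω).filter (fun x => nz x ≤ r))) / Mh d pc h)))
    unfold piF
    simp only [him, hpf, prf_coe, hpren]
    field_simp
  rw [hq]
  have hal : tloc φ pc r R D n κ A' = Ex pc (fun ω : Om d R =>
      φ (D ∪ Wb R D {n} ω) (Wn R D {n} ω (fun _ => false)) * ψ (Wb R D {n} ω)) := rfl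
  rw [← hal] at hm
  set X := Ex pc (fun ω => gh h (cS (gends (boxG d l)) ω (pre u D) (pre u {n})).card * Ψ l u h (Bz u R D {n} ω))
  have e1 : Mh d pc h * X - tloc φ pc r R D n κ A' * Mh d pc h ^ 2 =
      (X / Mh d pc h - tloc φ pc r R D n κ A') * Mh d pc h ^ 2 := by
    field_simp
  rw [e1, abs_mul, abs_of_nonneg (sq_nonneg (Mh d pc h))]
  exact mul_le_mul_of_nonneg_right hm (sq_nonneg _)

private lemma N4_prod (j k : ℕ) (x y : Zd d) (m : ℕ) (hm : j + k = m) :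
    fz j x * fz k y ≤ fz m x + fz m y := by
  have key : ∀ (i : ℕ) (a b : Zd d), nz a ≤ nz b → fz i b ≤ fz i a := by
    intro i a b hab
    unfold fz
    have h1 : (0 : ℝ) < 1 + (nz a : ℝ) := by positivity
    apply one_div_le_one_div_of_le (by positivity)
    apply pow_le_pow_left₀ h1.le
    have : (nz a : ℝ) ≤ (nz b : ℝ) := by exact_mod_cast hab
    linarith
  have hpow : ∀ a : Zd d, fz j a * fz k a = fz m a := by
    intro a
    unfold fz
    rw [← hm, pow_add]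
    have h1 : (0 : ℝ) < 1 + (nz a : ℝ) := by positivity
    field_simp
  rcases le_total (nz x) (nz y) with h | h
  · have h1 : fz j x * fz k y ≤ fz j x * fz k x :=
      mul_le_mul_of_nonneg_left (key k x y h) (fz_pos j x).le
    have h2 := fz_pos (d := d) m y
    rw [hpow] at h1
    linarith
  · have h1 : fz j x * fz k y ≤ fz j y * fz k y :=
      mul_le_mul_of_nonneg_right (key j y x h) (fz_pos k y).le
    have h2 := fz_pos (d := d) m x
    rw [hpow] at h1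
    linarith

private lemma N4_conv {C pc : ℝ} (hp : HP d C pc) {Kc : ℝ}
    (hKc : ∀ (a b : ℕ), a < d → b < d → d < a + b → ∀ (x y : Zd d) (S : Finset (Zd d)),
      ∑ z ∈ S, fz a (x - z) * fz b (z - y) ≤ Kc * fz (a + b - d) (x - y))
    (l : ℕ) (u n s : Fin d → Fin l) :
    ∑ z, ta (gends (boxG d l)) pc n z * ta (gends (boxG d l)) pc z s ≤
      C ^ 2 * (Kc * fz (d - 4) (rel u s - rel u n)) := by
  have hd := hp.d11
  have hC := hp.C1
  have h0 : ∀ x y : Fin d → Fin l, 0 ≤ ta (gends (boxG d l)) pc x y := fun x y =>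
    ta_nonneg hp.p0.le hp.p1.le x y
  have h1 : ∀ z : Fin d → Fin l, ta (gends (boxG d l)) pc n z * ta (gends (boxG d l)) pc z s ≤
      C ^ 2 * (fz (d - 2) (rel u n - rel u z) * fz (d - 2) (rel u z - rel u s)) := by
    intro z
    rw [fz_rel, fz_rel]
    calc ta (gends (boxG d l)) pc n z * ta (gends (boxG d l)) pc z s
        ≤ (C * fk (d - 2) n z) * (C * fk (d - 2) z s) :=
          mul_le_mul (hp.U l n z) (hp.U l z s) (h0 z s) (le_trans (h0 n z) (hp.U l n z))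
      _ = C ^ 2 * (fk (d - 2) n z * fk (d - 2) z s) := by ring
  calc ∑ z, ta (gends (boxG d l)) pc n z * ta (gends (boxG d l)) pc z s
      ≤ ∑ z : Fin d → Fin l, C ^ 2 * (fz (d - 2) (rel u n - rel u z) * fz (d - 2) (rel u z - rel u s)) :=
        Finset.sum_le_sum fun z _ => h1 z
    _ = C ^ 2 * ∑ z ∈ (Finset.univ : Finset (Fin d → Fin l)).image (rel u),
          fz (d - 2) (rel u n - z) * fz (d - 2) (z - rel u s) := by
        rw [← Finset.mul_sum, Finset.sum_image]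
        intro a _ b _ hab
        exact rel_inj u hab
    _ ≤ C ^ 2 * (Kc * fz (d - 4) (rel u s - rel u n)) := by
        apply mul_le_mul_of_nonneg_left _ (by positivity)
        have h2 := hKc (d - 2) (d - 2) (by omega) (by omega) (by omega) (rel u n) (rel u s)
          ((Finset.univ : Finset (Fin d → Fin l)).image (rel u))
        rw [fz_sub (d - 4) (rel u s) (rel u n)]
        have h3 : d - 2 + (d - 2) - d = d - 4 := by omega
        rw [h3] at h2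
        exact h2

private lemma N4_far {C pc : ℝ} (hp : HP d C pc) (l : ℕ) (u n : Fin d → Fin l) (R1 r : ℕ)
    (hR : R1 ≤ r) (hn : nz (rel u n) ≤ R1) :
    ∑ s ∈ (prf u (bz r))ᶜ, fz (2 * d - 6) (rel u s - rel u n) ≤
      (d * 2 ^ d : ℝ) * 2 / ((r : ℝ) - R1 + 1) := by
  have hd := hp.d11
  have h1 : ∀ s ∈ (prf u (bz r))ᶜ, r - R1 ≤ nz (rel u s - rel u n) := by
    intro s hs
    have h2 : rel u s ∉ (bz r : Finset (Zd d)) := by
      intro h
      rw [Finset.mem_compl] at hs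
      exact hs (by unfold prf; exact Finset.mem_filter.2 ⟨Finset.mem_univ _, h⟩)
    rw [mem_bz] at h2
    have h3 := nz_tri (rel u s) (rel u n) 0
    simp only [sub_zero] at h3
    omega
  have h4 : ∑ s ∈ (prf u (bz r))ᶜ, fz (2 * d - 6) (rel u s - rel u n) =
      ∑ z ∈ ((prf u (bz r))ᶜ.image (rel u)).filter (fun z => r - R1 ≤ nz (z - rel u n)),
        fz (2 * d - 6) (z - rel u n) := by
    rw [Finset.filter_true_of_mem, Finset.sum_image]
    · intro a _ b _ hab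
      exact rel_inj u hab
    · intro z hz
      obtain ⟨s, hs, rfl⟩ := Finset.mem_image.1 hz
      exact h1 s hs
  rw [h4]
  refine le_trans (far_z (by omega) (by omega) (rel u n) _ (r - R1)) ?_
  have h5 : ((r - R1 : ℕ) : ℝ) = (r : ℝ) - R1 := by push_cast [hR]; ring
  rw [h5]
  have h6 : (1 : ℝ) ≤ (r : ℝ) - R1 + 1 := by
    have : (R1 : ℝ) ≤ r := by exact_mod_cast hR
    linarith
  have h7 : (r : ℝ) - R1 + 1 ≤ ((r : ℝ) - R1 + 1) ^ (2 * d - 6 - d) := by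
    calc (r : ℝ) - R1 + 1 = ((r : ℝ) - R1 + 1) ^ 1 := (pow_one _).symm
      _ ≤ ((r : ℝ) - R1 + 1) ^ (2 * d - 6 - d) := pow_le_pow_right₀ h6 (by omega)
  have h8 : (0 : ℝ) < (r : ℝ) - R1 + 1 := by linarith
  calc (d * 2 ^ d : ℝ) * (2 / ((r : ℝ) - R1 + 1) ^ (2 * d - 6 - d))
      ≤ (d * 2 ^ d : ℝ) * (2 / ((r : ℝ) - R1 + 1)) := by
        apply mul_le_mul_of_nonneg_left _ (by positivity)
        exact div_le_div_of_nonneg_left (by norm_num) h8 h7
    _ = (d * 2 ^ d : ℝ) * 2 / ((r : ℝ) - R1 + 1) := by ring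

/-- Row N4. Kernel sum: `ta ≤ C fk (d-2)`, `∑_z ta n z ta z s ≤ C^2 Kc fk (d-4) n s`; `fz (d-4) (n-s) fz (d-2) (a-s) ≤ fz (2d-6) (n-s) + fz (2d-6) (a-s)`; `|s| > r`, so the distances are at least `r - R1`: `far_z`. -/
lemma k_T {C pc : ℝ} (hp : HP d C pc) : ∃ K0 : ℝ, 1 ≤ K0 ∧ ∀ (l : ℕ) (u n a : Fin d → Fin l) (R1 r : ℕ), R1 ≤ r → nz (rel u n) ≤ R1 → nz (rel u a) ≤ R1 →
    ∑ s ∈ (prf u (bz r))ᶜ, (∑ z, ta (gends (boxG d l)) pc n z * ta (gends (boxG d l)) pc z s) * ta (gends (boxG d l)) pc a s ≤ K0 / ((r : ℝ) - R1 + 1) := by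
  obtain ⟨Kc, hKc1, hKc⟩ := conv_z (d := d) (by have := hp.d11; omega)
  have hd := hp.d11
  have hC := hp.C1
  have hdd : (1 : ℝ) ≤ (d * 2 ^ d : ℝ) := by
    have h1 : (1 : ℝ) ≤ (d : ℝ) := by exact_mod_cast (by omega : 1 ≤ d)
    have h2 : (1 : ℝ) ≤ (2 : ℝ) ^ d := one_le_pow₀ (by norm_num)
    nlinarith
  refine ⟨C ^ 3 * Kc * ((d * 2 ^ d : ℝ) * 2 + (d * 2 ^ d : ℝ) * 2), ?_, ?_⟩
  · have h1 : (1 : ℝ) ≤ C ^ 3 := one_le_pow₀ hC
    have h2 : (1 : ℝ) ≤ C ^ 3 * Kc := by nlinarith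
    nlinarith
  · intro l u n a R1 r hR hn ha
    have h0 : ∀ x y : Fin d → Fin l, 0 ≤ ta (gends (boxG d l)) pc x y := fun x y =>
      ta_nonneg hp.p0.le hp.p1.le x y
    have h1 : ∀ s ∈ (prf u (bz r))ᶜ, (∑ z, ta (gends (boxG d l)) pc n z * ta (gends (boxG d l)) pc z s) *
        ta (gends (boxG d l)) pc a s ≤ C ^ 3 * Kc * (fz (2 * d - 6) (rel u s - rel u n) + fz (2 * d - 6) (rel u s - rel u a)) := by
      intro s _
      have h2 := N4_conv hp hKc l u n s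
      have h3 : ta (gends (boxG d l)) pc a s ≤ C * fz (d - 2) (rel u s - rel u a) := by
        rw [fz_sub, fz_rel]
        exact hp.U l a s
      have h4 := N4_prod (d := d) (d - 4) (d - 2) (rel u s - rel u n) (rel u s - rel u a) (2 * d - 6)
        (by omega)
      have h5 : 0 ≤ C ^ 2 * (Kc * fz (d - 4) (rel u s - rel u n)) := by
        have := fz_pos (d := d) (d - 4) (rel u s - rel u n)
        positivity
      calc (∑ z, ta (gends (boxG d l)) pc n z * ta (gends (boxG d l)) pc z s) *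
            ta (gends (boxG d l)) pc a s
          ≤ (C ^ 2 * (Kc * fz (d - 4) (rel u s - rel u n))) * (C * fz (d - 2) (rel u s - rel u a)) :=
            mul_le_mul h2 h3 (h0 a s) h5
        _ = C ^ 3 * Kc * (fz (d - 4) (rel u s - rel u n) * fz (d - 2) (rel u s - rel u a)) := by ring
        _ ≤ C ^ 3 * Kc * (fz (2 * d - 6) (rel u s - rel u n) + fz (2 * d - 6) (rel u s - rel u a)) :=
            mul_le_mul_of_nonneg_left h4 (by positivity)
    have h6 := N4_far hp l u n R1 r hR hn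
    have h7 := N4_far hp l u a R1 r hR ha
    calc ∑ s ∈ (prf u (bz r))ᶜ, (∑ z, ta (gends (boxG d l)) pc n z * ta (gends (boxG d l)) pc z s) *
          ta (gends (boxG d l)) pc a s
        ≤ ∑ s ∈ (prf u (bz r))ᶜ, C ^ 3 * Kc * (fz (2 * d - 6) (rel u s - rel u n) + fz (2 * d - 6) (rel u s - rel u a)) :=
          Finset.sum_le_sum h1
      _ = C ^ 3 * Kc * (∑ s ∈ (prf u (bz r))ᶜ, fz (2 * d - 6) (rel u s - rel u n) +
            ∑ s ∈ (prf u (bz r))ᶜ, fz (2 * d - 6) (rel u s - rel u a)) := by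
          rw [← Finset.mul_sum, Finset.sum_add_distrib]
      _ ≤ C ^ 3 * Kc * ((d * 2 ^ d : ℝ) * 2 / ((r : ℝ) - R1 + 1) + (d * 2 ^ d : ℝ) * 2 / ((r : ℝ) - R1 + 1)) :=
          mul_le_mul_of_nonneg_left (by linarith) (by positivity)
      _ = C ^ 3 * Kc * ((d * 2 ^ d : ℝ) * 2 + (d * 2 ^ d : ℝ) * 2) / ((r : ℝ) - R1 + 1) := by ring

private lemma N5_set {l R1 r : ℕ} (u : Fin d → Fin l) (hr : R1 ≤ r) (Y : Finset (Fin d → Fin l)) :
    (Y ∩ prf u (bz r)).image (rel u) ∩ bz R1 = Y.image (rel u) ∩ bz R1 := by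
  ext v
  simp only [Finset.mem_inter, Finset.mem_image, prf, Finset.mem_filter, Finset.mem_univ, true_and, mem_bz]
  constructor
  · rintro ⟨⟨y, ⟨hy, _⟩, rfl⟩, hv⟩
    exact ⟨⟨y, hy, rfl⟩, hv⟩
  · rintro ⟨⟨y, hy, rfl⟩, hv⟩
    exact ⟨⟨y, ⟨hy, le_trans hv hr⟩, rfl⟩, hv⟩

private lemma N5_prf {l : ℕ} (u n' : Fin d → Fin l) (n : Zd d) (hn' : rel u n' = n) : prf u {n} = {n'} := by
  ext x
  simp only [prf, Finset.mem_filter, Finset.mem_univ, true_and, Finset.mem_singleton]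
  constructor
  · intro h
    exact rel_inj u (h.trans hn'.symm)
  · rintro rfl
    exact hn'

private lemma N5_err {C c e pc : ℝ} (ht : HT d C c e pc) (K0 : ℝ)
    (hk : ∀ (l : ℕ) (u n a : Fin d → Fin l) (R1 r : ℕ), R1 ≤ r → nz (rel u n) ≤ R1 → nz (rel u a) ≤ R1 →
      ∑ s ∈ (prf u (bz r))ᶜ, (∑ z, ta (gends (boxG d l)) pc n z * ta (gends (boxG d l)) pc z s) * ta (gends (boxG d l)) pc a s ≤ K0 / ((r : ℝ) - R1 + 1))
    (R1 r R : ℕ) (hr : R1 ≤ r) (hR : r < R) (D : Finset (Zd d)) (n : Zd d) (hn : nz n ≤ R1)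
    (κ : Finset (Zd d) → ℝ) (A' : Finset (Zd d) → Finset (Zd d)) (hκ : ∀ Y, 0 ≤ κ Y ∧ κ Y ≤ 1) (hκT : ∀ Y, κ Y = κ (Y ∩ bz R1)) (As : Finset (Zd d)) (hAs : As ⊆ bz R1) (hA : ∀ Y, A' Y ⊆ As) (hAT : ∀ Y, A' Y = A' (Y ∩ bz R1))
    (l : ℕ) (u n' : Fin d → Fin l) (h : ℝ) (h0 : 0 < h) (h1 : h < 1) (hn' : rel u n' = n) :
    |T0 (gends (boxG d l)) pc h (pre u D) n' (fun Y => κ (Y.image (rel u))) (fun Y => prf u (A' (Y.image (rel u)))) -
      T1 (gends (boxG d l)) pc h (pre u D) (Qb u R) (prf u (bz r)) n' (fun Y => κ (Y.image (rel u))) (fun Y => prf u (A' (Y.image (rel u))))| ≤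
      ((As.card : ℝ) * (((bz r : Finset (Zd d)).card : ℝ) * (2 * (C * (1 / Real.sqrt ((R : ℝ) - r))))) + (As.card : ℝ) * (K0 / ((r : ℝ) - R1 + 1))) * Mh d pc h ^ 2 := by
  classical
  have hp0 : 0 ≤ pc := ht.hp.p0.le
  have hp1 : pc ≤ 1 := ht.hp.p1.le
  have hC0 : 0 ≤ C := le_trans zero_le_one ht.hp.C1
  have hM := Mh_Mb (d := d) l pc h hp0 hp1 h0.le h1.le
  have hM0 : 0 ≤ Mh d pc h := le_trans (piF_nonneg (l := l) u pc h hp0 hp1 h0.le h1.le ∅ {0}) (Mh_ub u pc h hp0 hp1 h0.le h1.le)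
  set M := Mh d pc h with hMdef
  have hRr : (0 : ℝ) < (R : ℝ) - r := by
    have : (r : ℝ) < R := by exact_mod_cast hR
    linarith
  have hd := T_diff (ends := gends (boxG d l)) (p := pc) (h := h) (M := M) hp0 hp1 h0.le h1.le hM (pre u D) (Qb u R) (prf u (bz r)) (prf u As) n'
    (fun Y => κ (Y.image (rel u))) (fun Y => prf u (A' (Y.image (rel u))))
    (fun Y => hκ _)
    (fun Y => by
      show κ (Y.image (rel u)) = κ ((Y ∩ prf u (bz r)).image (rel u))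
      rw [hκT (Y.image (rel u)), hκT ((Y ∩ prf u (bz r)).image (rel u)), N5_set u hr])
    (fun Y => by
      intro x hx
      simp only [prf, Finset.mem_filter, Finset.mem_univ, true_and] at hx ⊢
      exact hA _ hx)
    (fun Y => by
      show prf u (A' (Y.image (rel u))) = prf u (A' ((Y ∩ prf u (bz r)).image (rel u)))
      rw [hAT (Y.image (rel u)), hAT ((Y ∩ prf u (bz r)).image (rel u)), N5_set u hr])
  have hcA : ((prf u As).card : ℝ) ≤ (As.card : ℝ) := by exact_mod_cast prf_card u As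
  have hcB : ((prf u (bz r)).card : ℝ) ≤ ((bz r : Finset (Zd d)).card : ℝ) := by exact_mod_cast prf_card u (bz r)
  have hq0 : 0 ≤ C * (1 / Real.sqrt ((R : ℝ) - r)) := by positivity
  have harm : ∀ s ∈ prf u (bz r), Ex pc (fun ω => if s ∈ cS (gends (boxG d l)) ω (pre u D) {n'} ∧ s ∉ cS (gends (boxG d l)) ω (pre u D ∪ (Qb u R)ᶜ) {n'} then gh h (cS (gends (boxG d l)) ω (pre u D) {n'}).card else (0 : ℝ)) ≤
      M * (2 * (C * (1 / Real.sqrt ((R : ℝ) - r)))) := by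
    intro s hs
    have hs' : nz (rel u s) ≤ r := by
      simp only [prf, Finset.mem_filter, Finset.mem_univ, true_and, mem_bz] at hs
      exact hs
    have hnr : nz (rel u n') ≤ r := by rw [hn']; exact le_trans hn hr
    have h3 := arm3 (ends := gends (boxG d l)) (p := pc) (h := h) (M := M) hp0 hp1 h0.le h1.le hM (pre u D) (Qb u R) (Pb u R) n' s
      (by show nz (rel u n') ≤ R; exact le_trans hnr hR.le) (by show nz (rel u s) ≤ R; exact le_trans hs' hR.le)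
      (fun e x y he hx hy => Qb_out u R e x y he hx hy)
    have ha1 := arm_le ht u R r hR (pre u D ∪ (Qb u R)ᶜ) n' hnr pc le_rfl (by linarith [ht.e0])
    have ha2 := arm_le ht u R r hR (pre u D ∪ (Qb u R)ᶜ) s hs' pc le_rfl (by linarith [ht.e0])
    rw [sub_self, add_zero] at ha1 ha2
    refine le_trans (le_trans (le_of_eq ?_) h3) ?_
    · congr!
    · apply mul_le_mul_of_nonneg_left _ hM0
      have e1 : Ex pc (fun ω => if ∃ y ∈ cS (gends (boxG d l)) ω (pre u D ∪ (Qb u R)ᶜ) {n'}, y ∈ Pb u R then (1 : ℝ) else 0) ≤ C * (1 / Real.sqrt ((R : ℝ) - r)) := by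
        refine le_trans (le_of_eq ?_) ha1
        congr!
      have e2 : Ex pc (fun ω => if ∃ y ∈ cS (gends (boxG d l)) ω (pre u D ∪ (Qb u R)ᶜ) {s}, y ∈ Pb u R then (1 : ℝ) else 0) ≤ C * (1 / Real.sqrt ((R : ℝ) - r)) := by
        refine le_trans (le_of_eq ?_) ha2
        congr!
      have e3 : ∀ a b q : ℝ, a ≤ q → b ≤ q → a + b ≤ 2 * q := by intro a b q h1 h2; linarith
      refine e3 _ _ _ (le_trans (le_of_eq ?_) e1) (le_trans (le_of_eq ?_) e2)
      · congr!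
      · congr!
  have hsum1 : ∑ s ∈ prf u (bz r), Ex pc (fun ω => if s ∈ cS (gends (boxG d l)) ω (pre u D) {n'} ∧ s ∉ cS (gends (boxG d l)) ω (pre u D ∪ (Qb u R)ᶜ) {n'} then gh h (cS (gends (boxG d l)) ω (pre u D) {n'}).card else (0 : ℝ)) ≤
      ((bz r : Finset (Zd d)).card : ℝ) * (M * (2 * (C * (1 / Real.sqrt ((R : ℝ) - r))))) := by
    refine le_trans (Finset.sum_le_card_nsmul _ _ _ harm) ?_
    rw [nsmul_eq_mul]
    apply mul_le_mul_of_nonneg_right hcB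
    positivity
  have hsum2 : ∑ s ∈ (prf u (bz r))ᶜ, (∑ z, ta (gends (boxG d l)) pc n' z * ta (gends (boxG d l)) pc z s) * ∑ a ∈ prf u As, ta (gends (boxG d l)) pc a s ≤
      (As.card : ℝ) * (K0 / ((r : ℝ) - R1 + 1)) := by
    have e1 : ∑ s ∈ (prf u (bz r))ᶜ, (∑ z, ta (gends (boxG d l)) pc n' z * ta (gends (boxG d l)) pc z s) * ∑ a ∈ prf u As, ta (gends (boxG d l)) pc a s =
        ∑ a ∈ prf u As, ∑ s ∈ (prf u (bz r))ᶜ, (∑ z, ta (gends (boxG d l)) pc n' z * ta (gends (boxG d l)) pc z s) * ta (gends (boxG d l)) pc a s := by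
      rw [Finset.sum_comm]
      apply Finset.sum_congr rfl
      intro s _
      rw [Finset.mul_sum]
    rw [e1]
    have hb : ∀ a ∈ prf u As, ∑ s ∈ (prf u (bz r))ᶜ, (∑ z, ta (gends (boxG d l)) pc n' z * ta (gends (boxG d l)) pc z s) * ta (gends (boxG d l)) pc a s ≤ K0 / ((r : ℝ) - R1 + 1) := by
      intro a ha
      apply hk l u n' a R1 r hr (by rw [hn']; exact hn)
      have : rel u a ∈ (bz R1 : Finset (Zd d)) := by
        apply hAs
        simp only [prf, Finset.mem_filter, Finset.mem_univ, true_and] at ha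
        exact ha
      exact (mem_bz R1 _).1 this
    rcases Finset.eq_empty_or_nonempty (prf u As) with he | ⟨a0, ha0⟩
    · rw [he, Finset.sum_empty]
      have hcz : 0 ≤ K0 / ((r : ℝ) - R1 + 1) := by
        have h2 := hk l u n' n' R1 r hr (by rw [hn']; exact hn) (by rw [hn']; exact hn)
        refine le_trans ?_ h2
        apply Finset.sum_nonneg
        intro s _
        have ht0 : ∀ x y : Fin d → Fin l, 0 ≤ ta (gends (boxG d l)) pc x y := fun x y => ta_nonneg hp0 hp1 x y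
        exact mul_nonneg (Finset.sum_nonneg fun z _ => mul_nonneg (ht0 _ _) (ht0 _ _)) (ht0 _ _)
      exact mul_nonneg (Nat.cast_nonneg _) hcz
    · have hcz : 0 ≤ K0 / ((r : ℝ) - R1 + 1) := by
        refine le_trans ?_ (hb a0 ha0)
        apply Finset.sum_nonneg
        intro s _
        have ht0 : ∀ x y : Fin d → Fin l, 0 ≤ ta (gends (boxG d l)) pc x y := fun x y => ta_nonneg hp0 hp1 x y
        exact mul_nonneg (Finset.sum_nonneg fun z _ => mul_nonneg (ht0 _ _) (ht0 _ _)) (ht0 _ _)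
      refine le_trans (Finset.sum_le_card_nsmul _ _ _ hb) ?_
      rw [nsmul_eq_mul]
      exact mul_le_mul_of_nonneg_right hcA hcz
  refine le_trans hd ?_
  have f1 := mul_le_mul_of_nonneg_left hsum1 (mul_nonneg (Nat.cast_nonneg (prf u As).card : (0 : ℝ) ≤ _) hM0)
  have f2 := mul_le_mul_of_nonneg_left hsum2 (sq_nonneg M)
  have f3 : ((prf u As).card : ℝ) * M * (((bz r : Finset (Zd d)).card : ℝ) * (M * (2 * (C * (1 / Real.sqrt ((R : ℝ) - r)))))) ≤
      (As.card : ℝ) * M * (((bz r : Finset (Zd d)).card : ℝ) * (M * (2 * (C * (1 / Real.sqrt ((R : ℝ) - r)))))) := by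
    apply mul_le_mul_of_nonneg_right _ (mul_nonneg (Nat.cast_nonneg _) (mul_nonneg hM0 (by linarith)))
    exact mul_le_mul_of_nonneg_right hcA hM0
  have f4 : ((As.card : ℝ) * (((bz r : Finset (Zd d)).card : ℝ) * (2 * (C * (1 / Real.sqrt ((R : ℝ) - r))))) + (As.card : ℝ) * (K0 / ((r : ℝ) - R1 + 1))) * M ^ 2 =
      (As.card : ℝ) * M * (((bz r : Finset (Zd d)).card : ℝ) * (M * (2 * (C * (1 / Real.sqrt ((R : ℝ) - r)))))) + M ^ 2 * ((As.card : ℝ) * (K0 / ((r : ℝ) - R1 + 1))) := by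
    ring
  rw [f4]
  refine add_le_add (le_trans (le_trans (le_of_eq ?_) f1) f3) f2
  congr!

/-- Row N5. `T_diff` with `T = prf u (bz r)`, `Q = Qb u R`; `arm3` (with `D`), `arm_le`, `k_T`; first `r`, then `R`; `T1_lim`; `cau_c`. `κ Y = κ (Y ∩ bz R1)`, `A' Y = A' (Y ∩ bz R1)`. -/
lemma T0_lim {C c e pc : ℝ} (ht : HT d C c e pc) {φ : Finset (Zd d) → Finset (Zd d) → ℝ} (hφ : CTh d C pc φ) (R1 : ℕ) (D : Finset (Zd d)) (n : Zd d) (hn : nz n ≤ R1)
    (κ : Finset (Zd d) → ℝ) (A' : Finset (Zd d) → Finset (Zd d)) (hκ : ∀ Y, 0 ≤ κ Y ∧ κ Y ≤ 1) (hκT : ∀ Y, κ Y = κ (Y ∩ bz R1)) (As : Finset (Zd d)) (hAs : As ⊆ bz R1) (hA : ∀ Y, A' Y ⊆ As) (hAT : ∀ Y, A' Y = A' (Y ∩ bz R1)) :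
    ∃ τ : ℝ, ∀ η : ℝ, 0 < η → ∃ h0 : ℝ, 0 < h0 ∧ ∀ (l : ℕ) (u n' : Fin d → Fin l) (h : ℝ), Rg d pc 1 l u pc h → h ≤ h0 → rel u n' = n →
    |T0 (gends (boxG d l)) pc h (pre u D) n' (fun Y => κ (Y.image (rel u))) (fun Y => prf u (A' (Y.image (rel u)))) - τ * Mh d pc h ^ 2| ≤ η * Mh d pc h ^ 2 := by
  classical
  obtain ⟨K0, hK01, hk⟩ := k_T ht.hp
  have hp0 : 0 ≤ pc := ht.hp.p0.le
  have hp1 : pc ≤ 1 := ht.hp.p1.le
  have hC1 : 1 ≤ C := ht.hp.C1
  have key : ∀ η : ℝ, 0 < η → ∃ α h0 : ℝ, 0 < h0 ∧ ∀ (l : ℕ) (u : Fin d → Fin l) (h : ℝ), Rg d pc 1 l u pc h → h ≤ h0 →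
      |(∑ n' ∈ prf u {n}, T0 (gends (boxG d l)) pc h (pre u D) n' (fun Y => κ (Y.image (rel u))) (fun Y => prf u (A' (Y.image (rel u))))) / Mh d pc h ^ 2 - α| ≤ η := by
    intro η hη
    -- choose r
    obtain ⟨r0, hr0⟩ := exists_nat_gt ((As.card : ℝ) * K0 / (η / 3))
    set r : ℕ := R1 + r0 with hrdef
    have hrR : R1 ≤ r := Nat.le_add_right _ _
    have hrsub : (r : ℝ) - R1 + 1 = (r0 : ℝ) + 1 := by
      rw [hrdef]; push_cast; ring
    have hE2 : (As.card : ℝ) * (K0 / ((r : ℝ) - R1 + 1)) ≤ η / 3 := by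
      rw [hrsub, ← mul_div_assoc, div_le_iff₀ (by positivity)]
      rw [div_lt_iff₀ (by positivity)] at hr0
      linarith
    -- choose R
    set W : ℝ := (As.card : ℝ) * (((bz r : Finset (Zd d)).card : ℝ) * (2 * C)) with hW
    have hW0 : 0 ≤ W := mul_nonneg (Nat.cast_nonneg _) (mul_nonneg (Nat.cast_nonneg _) (by linarith))
    obtain ⟨q0, hq0⟩ := exists_nat_gt ((W / (η / 3)) ^ 2)
    set R : ℕ := r + (q0 + 1) with hRdef
    have hRr : r < R := by omega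
    have hRsub : (R : ℝ) - r = (q0 : ℝ) + 1 := by
      rw [hRdef]; push_cast; ring
    have hE1 : (As.card : ℝ) * (((bz r : Finset (Zd d)).card : ℝ) * (2 * (C * (1 / Real.sqrt ((R : ℝ) - r))))) ≤ η / 3 := by
      have e1 : (As.card : ℝ) * (((bz r : Finset (Zd d)).card : ℝ) * (2 * (C * (1 / Real.sqrt ((R : ℝ) - r))))) = W / Real.sqrt ((q0 : ℝ) + 1) := by
        rw [hRsub, hW]; ring
      rw [e1]
      have hs : W / (η / 3) ≤ Real.sqrt ((q0 : ℝ) + 1) := by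
        apply Real.le_sqrt_of_sq_le
        linarith
      have hsp : 0 < Real.sqrt ((q0 : ℝ) + 1) := Real.sqrt_pos.2 (by positivity)
      rw [div_le_iff₀ hsp]
      rw [div_le_iff₀ (by positivity)] at hs
      linarith
    have hnR : nz n ≤ R := by omega
    obtain ⟨h1, hh1, hT1⟩ := T1_lim ht hφ r R D n hnR κ A' hκ As hA (η / 3) (by positivity)
    obtain ⟨L, hL1, hrg⟩ := rg_num ht 1 one_pos le_rfl
    obtain ⟨h2, hh2, hrg2⟩ := hrg 1 one_pos (nz n)
    refine ⟨tloc φ pc r R D n κ A', min h1 h2, lt_min hh1 hh2, ?_⟩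
    intro l u h hR' hh
    obtain ⟨-, -, hMpos, -, -, -, -, -, -, hDp⟩ := hrg2 l u pc h hR' (le_trans hh (min_le_right _ _))
    obtain ⟨n', hn', -, -⟩ := shift u (nz n) n le_rfl hDp
    rw [N5_prf u n' n hn', Finset.sum_singleton]
    have hM2 : 0 < Mh d pc h ^ 2 := by positivity
    have hlim := hT1 l u n' h hR' (le_trans hh (min_le_left _ _)) hn'
    have herr := N5_err ht K0 hk R1 r R hrR hRr D n hn κ A' hκ hκT As hAs hA hAT l u n' h hR'.h0 hR'.h1 hn'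
    set X0 := T0 (gends (boxG d l)) pc h (pre u D) n' (fun Y => κ (Y.image (rel u))) (fun Y => prf u (A' (Y.image (rel u)))) with hX0
    set X1 := T1 (gends (boxG d l)) pc h (pre u D) (Qb u R) (prf u (bz r)) n' (fun Y => κ (Y.image (rel u))) (fun Y => prf u (A' (Y.image (rel u)))) with hX1
    set t := tloc φ pc r R D n κ A' with htdef
    have h3 : |X0 - X1| ≤ (2 * η / 3) * Mh d pc h ^ 2 := by
      refine le_trans herr ?_
      apply mul_le_mul_of_nonneg_right _ hM2.le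
      linarith
    have h4 : |X0 - t * Mh d pc h ^ 2| ≤ η * Mh d pc h ^ 2 := by
      calc |X0 - t * Mh d pc h ^ 2| = |(X0 - X1) + (X1 - t * Mh d pc h ^ 2)| := by ring_nf
        _ ≤ |X0 - X1| + |X1 - t * Mh d pc h ^ 2| := abs_add_le _ _
        _ ≤ (2 * η / 3) * Mh d pc h ^ 2 + η / 3 * Mh d pc h ^ 2 := add_le_add h3 hlim
        _ = η * Mh d pc h ^ 2 := by ring
    have h5 : X0 / Mh d pc h ^ 2 - t = (X0 - t * Mh d pc h ^ 2) / Mh d pc h ^ 2 := by
      field_simp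
    rw [h5, abs_div, abs_of_pos hM2, div_le_iff₀ hM2]
    exact h4
  obtain ⟨τ, hτ⟩ := cau_c (d := d) pc (fun l u h => (∑ n' ∈ prf u {n}, T0 (gends (boxG d l)) pc h (pre u D) n' (fun Y => κ (Y.image (rel u))) (fun Y => prf u (A' (Y.image (rel u))))) / Mh d pc h ^ 2) key
  refine ⟨τ, fun η hη => ?_⟩
  obtain ⟨h1, hh1, hf⟩ := hτ η hη
  obtain ⟨L, hL1, hrg⟩ := rg_num ht 1 one_pos le_rfl
  obtain ⟨h2, hh2, hrg2⟩ := hrg 1 one_pos 0
  refine ⟨min h1 h2, lt_min hh1 hh2, ?_⟩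
  intro l u n' h hR' hh hn'
  obtain ⟨-, -, hMpos, -⟩ := hrg2 l u pc h hR' (le_trans hh (min_le_right _ _))
  have hM2 : 0 < Mh d pc h ^ 2 := by positivity
  have h6 := hf l u h hR' (le_trans hh (min_le_left _ _))
  simp only [N5_prf u n' n hn', Finset.sum_singleton] at h6
  set X0 := T0 (gends (boxG d l)) pc h (pre u D) n' (fun Y => κ (Y.image (rel u))) (fun Y => prf u (A' (Y.image (rel u)))) with hX0
  have h5 : X0 - τ * Mh d pc h ^ 2 = (X0 / Mh d pc h ^ 2 - τ) * Mh d pc h ^ 2 := by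
    field_simp
  rw [h5, abs_mul, abs_of_pos hM2]
  exact mul_le_mul_of_nonneg_right h6 hM2.le

/-- The pairs of vertices with relative positions in `ρ`. -/
noncomputable def prp {l : ℕ} (u : Fin d → Fin l) (ρ : Finset (Zd d × Zd d)) : Finset ((Fin d → Fin l) × (Fin d → Fin l)) :=
  Finset.univ.filter (fun q => (rel u q.1, rel u q.2) ∈ ρ)

private lemma N6_min {α : Type*} (S : Finset α) (f : α → ℝ) (hf : ∀ a ∈ S, 0 < f a) :
    ∃ h : ℝ, 0 < h ∧ ∀ a ∈ S, h ≤ f a := by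
  classical
  induction S using Finset.induction_on with
  | empty => exact ⟨1, one_pos, by simp⟩
  | insert a S ha ih =>
    obtain ⟨h, h1, h2⟩ := ih (fun b hb => hf b (Finset.mem_insert_of_mem hb))
    refine ⟨min h (f a), lt_min h1 (hf a (Finset.mem_insert_self _ _)), ?_⟩
    intro b hb
    rcases Finset.mem_insert.1 hb with rfl | hb
    · exact min_le_right _ _
    · exact (min_le_left _ _).trans (h2 b hb)

/-- the related positions of a trace -/
private noncomputable def N6A (ρ : Finset (Zd d × Zd d)) (Y : Finset (Zd d)) : Finset (Zd d) :=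
  (ρ.filter (fun q => q.1 ∈ Y ∧ q.2 ∉ Y)).image Prod.snd

open scoped Classical in
/-- the weight -/
private noncomputable def N6k (ρ : Finset (Zd d × Zd d)) (rk : Zd d → ℕ) (n : Zd d) (Y : Finset (Zd d)) : ℝ :=
  if ∀ m ∈ ρ.image Prod.fst, m ∈ Y → rk n ≤ rk m then 1 else 0

private lemma N6_Ra {l : ℕ} (u : Fin d → Fin l) (ρ : Finset (Zd d × Zd d)) (Y : Finset (Fin d → Fin l)) :
    Ra (prp u ρ) Y = prf u (N6A ρ (Y.image (rel u))) := by
  ext x
  simp only [Ra, prp, prf, N6A, Finset.mem_image, Finset.mem_filter, Finset.mem_univ, true_and]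
  constructor
  · rintro ⟨q, ⟨hq, h1, h2⟩, rfl⟩
    refine ⟨(rel u q.1, rel u q.2), ⟨hq, ⟨q.1, h1, rfl⟩, ?_⟩, rfl⟩
    rintro ⟨y, hy, hyq⟩
    exact h2 (rel_inj u hyq ▸ hy)
  · rintro ⟨q, ⟨hq, ⟨a, ha, haq⟩, h2⟩, hx⟩
    refine ⟨(a, x), ⟨?_, ha, ?_⟩, rfl⟩
    · have : (rel u a, rel u x) = q := Prod.ext haq hx.symm
      rw [this]; exact hq
    · intro hxY
      exact h2 ⟨x, hxY, hx.symm⟩

private lemma N6_fst {l : ℕ} (u : Fin d → Fin l) (ρ : Finset (Zd d × Zd d)) (R1 : ℕ) (hu : Dp u R1)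
    (hR : ∀ q ∈ ρ, nz q.1 ≤ R1 ∧ nz q.2 ≤ R1) :
    (prp u ρ).image Prod.fst = prf u (ρ.image Prod.fst) := by
  ext x
  simp only [prp, prf, Finset.mem_image, Finset.mem_filter, Finset.mem_univ, true_and]
  constructor
  · rintro ⟨q, hq, rfl⟩
    exact ⟨_, hq, rfl⟩
  · rintro ⟨q, hq, hx⟩
    obtain ⟨y, hy, -⟩ := shift u R1 q.2 (hR q hq).2 hu
    refine ⟨(x, y), ?_, rfl⟩
    have : (rel u x, rel u y) = q := Prod.ext hx.symm hy
    rw [this]; exact hq

private lemma N6_Tg {l : ℕ} (u : Fin d → Fin l) (ρ : Finset (Zd d × Zd d)) (R1 : ℕ) (hu : Dp u R1)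
    (hR : ∀ q ∈ ρ, nz q.1 ≤ R1 ∧ nz q.2 ≤ R1) (rk : Zd d → ℕ) (p h : ℝ) (D : Set (Fin d → Fin l))
    (n' : Fin d → Fin l) (n : Zd d) (hn : rel u n' = n) :
    Tg (gends (boxG d l)) p h (fun x => rk (rel u x)) D (prp u ρ) n' =
      T0 (gends (boxG d l)) p h D n' (fun Y => N6k ρ rk n (Y.image (rel u)))
        (fun Y => prf u (N6A ρ (Y.image (rel u)))) := by
  classical
  unfold Tg T0
  congr 1
  funext ω
  rw [N6_Ra, N6_fst u ρ R1 hu hR]
  have hiff : (∀ m ∈ prf u (ρ.image Prod.fst), m ∈ cS (gends (boxG d l)) ω D {n'} →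
      rk (rel u n') ≤ rk (rel u m)) ↔
      (∀ m ∈ ρ.image Prod.fst, m ∈ (cS (gends (boxG d l)) ω D {n'}).image (rel u) → rk n ≤ rk m) := by
    constructor
    · intro hh m hm hm2
      obtain ⟨x, hx, rfl⟩ := Finset.mem_image.1 hm2
      rw [← hn]
      exact hh x (Finset.mem_filter.2 ⟨Finset.mem_univ _, hm⟩) hx
    · intro hh m hm hm2
      rw [hn]
      exact hh (rel u m) (Finset.mem_filter.1 hm).2 (Finset.mem_image_of_mem _ hm2)
  by_cases hc : ∀ m ∈ ρ.image Prod.fst, m ∈ (cS (gends (boxG d l)) ω D {n'}).image (rel u) → rk n ≤ rk m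
  · rw [if_pos (hiff.2 hc)]
    beta_reduce
    unfold N6k
    rw [if_pos hc, one_mul]
  · rw [if_neg (fun h => hc (hiff.1 h))]
    beta_reduce
    unfold N6k
    rw [if_neg hc, zero_mul]

/-- Row N6. `Of_Tg` with an injective rank of the relative positions (`Zd d` is countable: `Encodable` of `Fin d → ℤ`, or `Nonempty (Zd d ↪ ℕ)`), `Tg = T0` with `κ Y = 1(∀ m ∈ ρ.image fst, m ∈ Y → rk n ≤ rk m)`, `A' Y` = the second components of the pairs of `ρ` with the first one in `Y` and the second one not in `Y`; `T0_lim`, `Mh^3 ≤ η Mh^2`; all positions in `ρ` are the relative positions of vertices (deep). -/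
lemma Of_lim {C c e pc : ℝ} (ht : HT d C c e pc) {φ : Finset (Zd d) → Finset (Zd d) → ℝ} (hφ : CTh d C pc φ) (D : Finset (Zd d)) (ρ : Finset (Zd d × Zd d)) (hρ : ∀ q ∈ ρ, (q.2, q.1) ∈ ρ) (hρD : ∀ q ∈ ρ, q.1 ∉ D) :
    ∃ o : ℝ, ∀ η : ℝ, 0 < η → ∃ h0 : ℝ, 0 < h0 ∧ ∀ (l : ℕ) (u : Fin d → Fin l) (h : ℝ), Rg d pc 1 l u pc h → h ≤ h0 →
    |Of (gends (boxG d l)) pc h (pre u D) (prp u ρ) - o * Mh d pc h ^ 2| ≤ η * Mh d pc h ^ 2 := by
  classical
  obtain ⟨rk, hrk⟩ := exists_injective_nat (Zd d)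
  set S := ρ.image Prod.fst with hS
  set R1 := S.sup nz with hR1
  have hS1 : ∀ n ∈ S, nz n ≤ R1 := fun n hn => Finset.le_sup (f := nz) hn
  have hR : ∀ q ∈ ρ, nz q.1 ≤ R1 ∧ nz q.2 ≤ R1 := fun q hq =>
    ⟨hS1 _ (Finset.mem_image_of_mem _ hq), hS1 _ (Finset.mem_image.2 ⟨(q.2, q.1), hρ q hq, rfl⟩)⟩
  have hSb : S ⊆ bz R1 := by
    intro n hn
    have h1 := hS1 n hn
    unfold bz
    rw [Finset.mem_Icc]
    have h2 : ∀ i, (n i).natAbs ≤ R1 := fun i =>
      (Finset.le_sup (f := fun i => (n i).natAbs) (Finset.mem_univ i)).trans h1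
    constructor
    · intro i
      have := h2 i
      show -(R1 : ℤ) ≤ n i
      omega
    · intro i
      have := h2 i
      show n i ≤ (R1 : ℤ)
      omega
  have hA : ∀ Y, N6A ρ Y ⊆ S := by
    intro Y x hx
    obtain ⟨q, hq, rfl⟩ := Finset.mem_image.1 hx
    exact Finset.mem_image.2 ⟨(q.2, q.1), hρ q (Finset.mem_filter.1 hq).1, rfl⟩
  have hmem : ∀ (Y : Finset (Zd d)) (m : Zd d), m ∈ S → (m ∈ Y ↔ m ∈ Y ∩ bz R1) := by
    intro Y m hm
    rw [Finset.mem_inter]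
    exact ⟨fun h => ⟨h, hSb hm⟩, fun h => h.1⟩
  have hAT : ∀ Y, N6A ρ Y = N6A ρ (Y ∩ bz R1) := by
    intro Y
    unfold N6A
    congr 1
    refine Finset.filter_congr fun q hq => ?_
    rw [← hmem Y q.1 (Finset.mem_image_of_mem _ hq),
      ← hmem Y q.2 (Finset.mem_image.2 ⟨(q.2, q.1), hρ q hq, rfl⟩)]
  have hκ : ∀ n Y, 0 ≤ N6k ρ rk n Y ∧ N6k ρ rk n Y ≤ 1 := by
    intro n Y
    unfold N6k
    split_ifs <;> norm_num
  have hκT : ∀ n Y, N6k ρ rk n Y = N6k ρ rk n (Y ∩ bz R1) := by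
    intro n Y
    unfold N6k
    have : (∀ m ∈ ρ.image Prod.fst, m ∈ Y → rk n ≤ rk m) ↔
        (∀ m ∈ ρ.image Prod.fst, m ∈ Y ∩ bz R1 → rk n ≤ rk m) :=
      forall₂_congr fun m hm => by rw [← hmem Y m hm]
    simp only [this]
  have hT : ∀ n : Zd d, ∃ τ : ℝ, n ∈ S → ∀ η : ℝ, 0 < η → ∃ h0 : ℝ, 0 < h0 ∧
      ∀ (l : ℕ) (u n' : Fin d → Fin l) (h : ℝ), Rg d pc 1 l u pc h → h ≤ h0 → rel u n' = n →
      |T0 (gends (boxG d l)) pc h (pre u D) n' (fun Y => N6k ρ rk n (Y.image (rel u)))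
        (fun Y => prf u (N6A ρ (Y.image (rel u)))) - τ * Mh d pc h ^ 2| ≤ η * Mh d pc h ^ 2 := by
    intro n
    by_cases hn : n ∈ S
    · obtain ⟨τ, hτ⟩ := T0_lim ht hφ R1 D n (hS1 n hn) (N6k ρ rk n) (N6A ρ) (hκ n) (hκT n) S hSb hA hAT
      exact ⟨τ, fun _ => hτ⟩
    · exact ⟨0, fun h => absurd h hn⟩
  choose τ hτ using hT
  refine ⟨(∑ n ∈ S, τ n) / 2, ?_⟩
  intro η hη
  obtain ⟨k, hk⟩ : ∃ k : ℝ, k = (S.card : ℝ) := ⟨_, rfl⟩
  have hk0 : 0 ≤ k := by rw [hk]; exact Nat.cast_nonneg _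
  have hη1 : 0 < η / (k + 1) := by positivity
  have hη2 : 0 < η / (2 * (k ^ 4 + 1)) := by positivity
  have hc : ∀ n : Zd d, ∃ h0 : ℝ, 0 < h0 ∧ (n ∈ S → ∀ (l : ℕ) (u n' : Fin d → Fin l) (h : ℝ),
      Rg d pc 1 l u pc h → h ≤ h0 → rel u n' = n →
      |T0 (gends (boxG d l)) pc h (pre u D) n' (fun Y => N6k ρ rk n (Y.image (rel u)))
        (fun Y => prf u (N6A ρ (Y.image (rel u)))) - τ n * Mh d pc h ^ 2| ≤
        η / (k + 1) * Mh d pc h ^ 2) := by
    intro n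
    by_cases hn : n ∈ S
    · obtain ⟨h0, h1, h2⟩ := hτ n hn _ hη1
      exact ⟨h0, h1, fun _ => h2⟩
    · exact ⟨1, one_pos, fun h => absurd h hn⟩
  choose f hf1 hf2 using hc
  obtain ⟨ha, ha1, ha2⟩ := N6_min S f (fun n _ => hf1 n)
  obtain ⟨L, hL1, hL⟩ := rg_num ht 1 one_pos le_rfl
  obtain ⟨hb, hb1, hb2⟩ := hL _ hη2 R1
  refine ⟨min ha hb, lt_min ha1 hb1, ?_⟩
  intro l u h hRg hh
  obtain ⟨-, -, hM0, hMη, -, -, -, -, -, hDp⟩ := hb2 l u pc h hRg (hh.trans (min_le_right _ _))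
  have hpc0 : 0 ≤ pc := ht.hp.p0.le
  have hpc1 : pc ≤ 1 := ht.hp.p1.le
  have hOf := Of_Tg hpc0 hpc1 hRg.h0.le hRg.h1.le
    (Mh_Mb l pc h hpc0 hpc1 hRg.h0.le hRg.h1.le) (fun x => rk (rel u x))
    (fun x y hxy => rel_inj u (hrk hxy)) (pre u D) (prp u ρ)
    (by
      intro q hq
      exact Finset.mem_filter.2 ⟨Finset.mem_univ _, hρ _ (Finset.mem_filter.1 hq).2⟩)
    (by
      intro q hq
      exact hρD _ (Finset.mem_filter.1 hq).2)
  rw [N6_fst u ρ R1 hDp hR] at hOf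
  -- the sum as a sum over the positions
  have hex : ∀ n : Zd d, ∃ n' : Fin d → Fin l, n ∈ S → rel u n' = n := by
    intro n
    by_cases hn : n ∈ S
    · obtain ⟨y, hy, -⟩ := shift u R1 n (hS1 n hn) hDp
      exact ⟨y, fun _ => hy⟩
    · exact ⟨u, fun h => absurd h hn⟩
  choose vt hvt using hex
  have hsum : ∑ n' ∈ prf u (ρ.image Prod.fst), Tg (gends (boxG d l)) pc h (fun x => rk (rel u x)) (pre u D)
      (prp u ρ) n' = ∑ n ∈ S, T0 (gends (boxG d l)) pc h (pre u D) (vt n)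
        (fun Y => N6k ρ rk n (Y.image (rel u))) (fun Y => prf u (N6A ρ (Y.image (rel u)))) := by
    refine Finset.sum_bij (fun n' _ => rel u n') ?_ ?_ ?_ ?_
    · intro a ha
      exact (Finset.mem_filter.1 ha).2
    · intro a _ b _ hab
      exact rel_inj u hab
    · intro n hn
      exact ⟨vt n, Finset.mem_filter.2 ⟨Finset.mem_univ _, by rw [hvt n hn]; exact hn⟩, hvt n hn⟩
    · intro a ha
      have h1 : rel u a ∈ S := (Finset.mem_filter.1 ha).2
      have h2 : vt (rel u a) = a := rel_inj u (hvt _ h1)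
      rw [h2]
      exact N6_Tg u ρ R1 hDp hR rk pc h (pre u D) a _ rfl
  rw [hsum] at hOf
  have hcard : ((prf u (ρ.image Prod.fst)).card : ℝ) ≤ k := by
    rw [hk]
    exact_mod_cast prf_card u _
  obtain ⟨k', hk'⟩ : ∃ k' : ℝ, k' = ((prf u (ρ.image Prod.fst)).card : ℝ) := ⟨_, rfl⟩
  have hk'0 : 0 ≤ k' := by rw [hk']; exact Nat.cast_nonneg _
  rw [← hk'] at hOf hcard
  set Mv := Mh d pc h with hMv
  have h1 : 2 * k' ^ 4 * Mv ^ 3 ≤ η * Mv ^ 2 := by
    have h2 : k' ^ 4 ≤ k ^ 4 + 1 := by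
      have := pow_le_pow_left₀ hk'0 hcard 4
      linarith
    have h3 : (2 * (k ^ 4 + 1)) * Mv ≤ η := by
      have h5 := mul_le_mul_of_nonneg_left hMη (by positivity : (0 : ℝ) ≤ 2 * (k ^ 4 + 1))
      have h6 : (2 * (k ^ 4 + 1)) * (η / (2 * (k ^ 4 + 1))) = η := by field_simp
      linarith
    have h4 : 0 ≤ Mv ^ 2 := sq_nonneg _
    calc 2 * k' ^ 4 * Mv ^ 3 = (2 * k' ^ 4 * Mv) * Mv ^ 2 := by ring
      _ ≤ (2 * (k ^ 4 + 1) * Mv) * Mv ^ 2 := by
          refine mul_le_mul_of_nonneg_right (mul_le_mul_of_nonneg_right ?_ hM0.le) h4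
          linarith
      _ ≤ η * Mv ^ 2 := mul_le_mul_of_nonneg_right h3 h4
  have h2 : |∑ n ∈ S, T0 (gends (boxG d l)) pc h (pre u D) (vt n)
        (fun Y => N6k ρ rk n (Y.image (rel u))) (fun Y => prf u (N6A ρ (Y.image (rel u)))) -
        (∑ n ∈ S, τ n) * Mv ^ 2| ≤ η * Mv ^ 2 := by
    rw [Finset.sum_mul, ← Finset.sum_sub_distrib]
    refine (Finset.abs_sum_le_sum_abs _ _).trans ?_
    have h3 : ∀ n ∈ S, |T0 (gends (boxG d l)) pc h (pre u D) (vt n)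
        (fun Y => N6k ρ rk n (Y.image (rel u))) (fun Y => prf u (N6A ρ (Y.image (rel u)))) -
        τ n * Mv ^ 2| ≤ η / (k + 1) * Mv ^ 2 := fun n hn =>
      hf2 n hn l u (vt n) h hRg ((hh.trans (min_le_left _ _)).trans (ha2 n hn)) (hvt n hn)
    refine (Finset.sum_le_sum h3).trans ?_
    rw [Finset.sum_const, nsmul_eq_mul, ← hk, ← mul_assoc]
    refine mul_le_mul_of_nonneg_right ?_ (sq_nonneg _)
    rw [mul_div_assoc', div_le_iff₀ (by positivity)]
    linarith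
  rw [abs_le] at hOf h2 ⊢
  constructor <;> linarith [hOf.1, hOf.2, h2.1, h2.2]

/-- The related exits as relative positions. -/
noncomputable def Rz {l : ℕ} (u : Fin d → Fin l) (R : ℕ) (W : Finset (Zd d)) (v : Fin d → Fin l) (ω : (boxG d l).edgeSet → Bool) : Finset (Zd d × Zd d) :=
  (Rs (gends (boxG d l)) ω (pre u W) (Qb u R) v).image (fun q => (rel u q.1, rel u q.2))

section N7a

variable {V V' : Type} {G : SimpleGraph V} {G' : SimpleGraph V'}

private lemma N7a_step (φ : G ↪g G') (ω : G'.edgeSet → Bool) (S : Set V) (a b : V) :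
    Step (gends G') ω (φ '' S) (φ a) (φ b) ↔ Step (gends G) (pul φ ω) S a b := by
  constructor
  · rintro ⟨ha, hb, e, he, hend⟩
    obtain ⟨a', ha', haa⟩ := ha
    obtain ⟨b', hb', hbb⟩ := hb
    have h1 : a' = a := φ.injective haa
    have h2 : b' = b := φ.injective hbb
    subst h1 h2
    have h3 : s(φ a', φ b') ∈ G'.edgeSet := hend ▸ e.2
    have h4 : G.Adj a' b' := φ.map_rel_iff.1 (show G'.Adj (φ a') (φ b') from h3)
    refine ⟨ha', hb', ⟨s(a', b'), h4⟩, ?_, rfl⟩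
    have h5 : φ.mapEdgeSet ⟨s(a', b'), h4⟩ = e := by
      apply Subtype.ext
      exact hend.symm
    unfold pul
    rw [h5]
    exact he
  · rintro ⟨ha, hb, e, he, hend⟩
    refine ⟨⟨a, ha, rfl⟩, ⟨b, hb, rfl⟩, φ.mapEdgeSet e, he, ?_⟩
    change Sym2.map φ (e : Sym2 V) = s(φ a, φ b)
    rw [show (e : Sym2 V) = s(a, b) from hend]
    rfl

private lemma N7a_rch (φ : G ↪g G') (ω : G'.edgeSet → Bool) (S : Set V) (x : V) {y' : V'} :
    Rch (gends G') ω (φ '' S) (φ x) y' ↔ ∃ y, φ y = y' ∧ Rch (gends G) (pul φ ω) S x y := by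
  constructor
  · intro h
    induction h with
    | refl => exact ⟨x, rfl, Rch.refl x⟩
    | tail _ hbc ih =>
      obtain ⟨y, hy, hr⟩ := ih
      obtain ⟨z, hz, hzz⟩ := hbc.2.1
      subst hy
      subst hzz
      exact ⟨z, rfl, hr.tail ((N7a_step φ ω S y z).1 hbc)⟩
  · rintro ⟨y, rfl, h⟩
    induction h with
    | refl => exact Rch.refl _
    | tail _ hbc ih => exact Relation.ReflTransGen.tail ih ((N7a_step φ ω S _ _).2 hbc)

private lemma N7a_edge (φ : G ↪g G') (e : G'.edgeSet) (a b : V) (he : gends G' e = s(φ a, φ b)) :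
    ∃ e0 : G.edgeSet, φ.mapEdgeSet e0 = e ∧ gends G e0 = s(a, b) := by
  have h3 : s(φ a, φ b) ∈ G'.edgeSet := he ▸ e.2
  have h4 : G.Adj a b := φ.map_rel_iff.1 (show G'.Adj (φ a) (φ b) from h3)
  refine ⟨⟨s(a, b), h4⟩, ?_, rfl⟩
  apply Subtype.ext
  exact he.symm

end N7a

private lemma N7a_cS {l : ℕ} (u : Fin d → Fin l) (R : ℕ) (φ : boxG d (2 * R + 3) ↪g boxG d l)
    (h1 : ∀ x, rel u (φ x) = rel (cR d R) x) (h2 : ∀ y : Fin d → Fin l, nz (rel u y) ≤ R + 1 → ∃ x, φ x = y)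
    (W : Finset (Zd d)) (v : Fin d → Fin (2 * R + 3)) (ω : (boxG d l).edgeSet → Bool) (y : Fin d → Fin l) :
    y ∈ cS (gends (boxG d l)) ω (pre u W ∪ (Qb u R)ᶜ) {φ v} ↔
      ∃ x, φ x = y ∧ x ∈ cS (gends (boxG d (2 * R + 3))) (pul φ ω) (pre (cR d R) W ∪ (Qb (cR d R) R)ᶜ) {v} := by
  have hS : (pre u W ∪ (Qb u R)ᶜ)ᶜ = φ '' ((pre (cR d R) W ∪ (Qb (cR d R) R)ᶜ)ᶜ) := by
    ext z
    simp only [Set.mem_compl_iff, Set.mem_union, pre, Qb, Set.mem_ofPred_eq, Set.mem_image, not_or, not_not]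
    constructor
    · rintro ⟨ha, hb⟩
      obtain ⟨x, rfl⟩ := h2 z (hb.trans (Nat.le_succ R))
      rw [h1] at ha hb
      exact ⟨x, ⟨ha, hb⟩, rfl⟩
    · rintro ⟨x, ⟨ha, hb⟩, rfl⟩
      rw [h1]
      exact ⟨ha, hb⟩
  rw [mem_cS, hS]
  constructor
  · rintro ⟨a, ha, haD, hr⟩
    obtain rfl : a = φ v := ha
    have haS : φ v ∈ (pre u W ∪ (Qb u R)ᶜ)ᶜ := haD
    rw [hS] at haS
    obtain ⟨a0, ha0, ha0v⟩ := haS
    obtain rfl : a0 = v := φ.injective ha0v
    obtain ⟨x, hx, hr'⟩ := (N7a_rch φ ω _ a0).1 hr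
    exact ⟨x, hx, mem_cS.2 ⟨a0, rfl, ha0, hr'⟩⟩
  · rintro ⟨x, rfl, hx⟩
    obtain ⟨a0, ha0, ha0D, hr⟩ := mem_cS.1 hx
    obtain rfl : a0 = v := ha0
    refine ⟨φ a0, rfl, ?_, (N7a_rch φ ω _ a0).2 ⟨x, rfl, hr⟩⟩
    have h3 : φ a0 ∈ φ '' ((pre (cR d R) W ∪ (Qb (cR d R) R)ᶜ)ᶜ) := ⟨a0, ha0D, rfl⟩
    rw [← hS] at h3
    exact h3

private lemma N7a_Xr {l : ℕ} (u : Fin d → Fin l) (R : ℕ) (φ : boxG d (2 * R + 3) ↪g boxG d l)
    (h1 : ∀ x, rel u (φ x) = rel (cR d R) x) (h2 : ∀ y : Fin d → Fin l, nz (rel u y) ≤ R + 1 → ∃ x, φ x = y)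
    (W : Finset (Zd d)) (v : Fin d → Fin (2 * R + 3)) (F : Finset (boxG d l).edgeSet)
    (F0 : Finset (boxG d (2 * R + 3)).edgeSet) (hF : ∀ e0, e0 ∈ F0 ↔ φ.mapEdgeSet e0 ∈ F) (n : Fin d → Fin l) :
    Xr (gends (boxG d l)) F (pre u W) (Qb u R) (φ v) n ↔
      ∃ x, φ x = n ∧ Xr (gends (boxG d (2 * R + 3))) F0 (pre (cR d R) W) (Qb (cR d R) R) v x := by
  have hpul : pul φ (fun e => decide (e ∈ F)) = fun e => decide (e ∈ F0) := by
    funext e
    unfold pul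
    rw [Bool.eq_iff_iff, decide_eq_true_iff, decide_eq_true_iff]
    exact (hF e).symm
  have hC := N7a_cS u R φ h1 h2 W v (fun e => decide (e ∈ F))
  rw [hpul] at hC
  have hC' : ∀ x, φ x ∈ cS (gends (boxG d l)) (fun e => decide (e ∈ F)) (pre u W ∪ (Qb u R)ᶜ) {φ v} ↔
      x ∈ cS (gends (boxG d (2 * R + 3))) (fun e => decide (e ∈ F0)) (pre (cR d R) W ∪ (Qb (cR d R) R)ᶜ) {v} := by
    intro x
    rw [hC]
    constructor
    · rintro ⟨x', hx', h⟩
      rw [← φ.injective hx']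
      exact h
    · intro h
      exact ⟨x, rfl, h⟩
  have hD' : ∀ x, φ x ∈ pre u W ↔ x ∈ pre (cR d R) W := by
    intro x
    change rel u (φ x) ∈ W ↔ rel (cR d R) x ∈ W
    rw [h1]
  have hQ' : ∀ x, φ x ∈ Qb u R ↔ x ∈ Qb (cR d R) R := by
    intro x
    change nz (rel u (φ x)) ≤ R ↔ nz (rel (cR d R) x) ≤ R
    rw [h1]
  constructor
  · rintro ⟨hnD, hnQ, m, hm, e, heF, hend⟩
    have hmQ : m ∈ Qb u R := by
      have h3 := cS_off hm
      by_contra h4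
      exact h3 (Or.inr h4)
    obtain ⟨m0, rfl, hm0⟩ := (hC m).1 hm
    have hadj : (boxG d l).Adj (φ m0) n := by
      have h3 : s(φ m0, n) ∈ (boxG d l).edgeSet := hend ▸ e.2
      exact h3
    have hy : nz (rel u n) ≤ R + 1 := by
      have h4 := adj_nz u _ _ hadj
      have h5 := nz_tri (rel u n) (rel u (φ m0)) 0
      rw [sub_zero, sub_zero, nz_sub (rel u n), h4] at h5
      have h6 : nz (rel u (φ m0)) ≤ R := hmQ
      omega
    obtain ⟨x, rfl⟩ := h2 n hy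
    obtain ⟨e0, he0, he0'⟩ := N7a_edge φ e m0 x hend
    refine ⟨x, rfl, fun h => hnD ((hD' x).2 h), fun h => hnQ ((hQ' x).2 h), m0, hm0, e0, ?_, he0'⟩
    rw [hF, he0]
    exact heF
  · rintro ⟨x, rfl, hxD, hxQ, m0, hm0, e0, he0, hend⟩
    refine ⟨fun h => hxD ((hD' x).1 h), fun h => hxQ ((hQ' x).1 h), φ m0, (hC' m0).2 hm0,
      φ.mapEdgeSet e0, (hF e0).1 he0, ?_⟩
    change Sym2.map φ (e0 : Sym2 _) = s(φ m0, φ x)
    rw [show (e0 : Sym2 _) = s(m0, x) from hend]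
    rfl

private lemma N7a_Rl {l : ℕ} (u : Fin d → Fin l) (R : ℕ) (φ : boxG d (2 * R + 3) ↪g boxG d l)
    (h1 : ∀ x, rel u (φ x) = rel (cR d R) x) (h2 : ∀ y : Fin d → Fin l, nz (rel u y) ≤ R + 1 → ∃ x, φ x = y)
    (W : Finset (Zd d)) (v : Fin d → Fin (2 * R + 3)) (ω : (boxG d l).edgeSet → Bool) (n n' : Fin d → Fin l) :
    Rl (gends (boxG d l)) ω (pre u W) (Qb u R) (φ v) n n' ↔
      ∃ x x', φ x = n ∧ φ x' = n' ∧
        Rl (gends (boxG d (2 * R + 3))) (pul φ ω) (pre (cR d R) W) (Qb (cR d R) R) v x x' := by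
  classical
  have hinjE : Function.Injective (φ.mapEdgeSet : (boxG d (2 * R + 3)).edgeSet → (boxG d l).edgeSet) :=
    φ.mapEdgeSet.injective
  constructor
  · rintro ⟨hne, F, F', hd, ho, hX, hX'⟩
    let T : Finset (boxG d l).edgeSet → Finset (boxG d (2 * R + 3)).edgeSet :=
      fun F => Finset.univ.filter (fun e0 => φ.mapEdgeSet e0 ∈ F)
    have hT : ∀ F e0, e0 ∈ T F ↔ φ.mapEdgeSet e0 ∈ F := by
      intro F e0
      simp only [T, Finset.mem_filter, Finset.mem_univ, true_and]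
    obtain ⟨x, rfl, hx⟩ := (N7a_Xr u R φ h1 h2 W v F (T F) (hT F) n).1 hX
    obtain ⟨x', rfl, hx'⟩ := (N7a_Xr u R φ h1 h2 W v F' (T F') (hT F') n').1 hX'
    refine ⟨x, x', rfl, rfl, fun h => hne (by rw [h]), T F, T F', ?_, ?_, hx, hx'⟩
    · rw [Finset.disjoint_left]
      intro e he he'
      exact (Finset.disjoint_left.1 hd) ((hT F e).1 he) ((hT F' e).1 he')
    · intro e he
      rw [Finset.mem_union, hT, hT] at he
      exact ho (φ.mapEdgeSet e) (Finset.mem_union.2 he)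
  · rintro ⟨x, x', rfl, rfl, hne, F, F', hd, ho, hX, hX'⟩
    have hT : ∀ (F : Finset (boxG d (2 * R + 3)).edgeSet) e0, e0 ∈ F ↔
        φ.mapEdgeSet e0 ∈ F.image φ.mapEdgeSet := by
      intro F e0
      rw [Finset.mem_image]
      constructor
      · intro h
        exact ⟨e0, h, rfl⟩
      · rintro ⟨e1, h, h'⟩
        rw [← hinjE h']
        exact h
    refine ⟨fun h => hne (φ.injective h), F.image φ.mapEdgeSet, F'.image φ.mapEdgeSet, ?_, ?_,
      (N7a_Xr u R φ h1 h2 W v _ F (hT F) _).2 ⟨x, rfl, hX⟩, (N7a_Xr u R φ h1 h2 W v _ F' (hT F') _).2 ⟨x', rfl, hX'⟩⟩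
    · rw [Finset.disjoint_left]
      intro e he he'
      obtain ⟨e1, h, rfl⟩ := Finset.mem_image.1 he
      exact (Finset.disjoint_left.1 hd) h ((hT F' e1).2 he')
    · intro e he
      rw [Finset.mem_union] at he
      rcases he with he | he
      · obtain ⟨e1, h, rfl⟩ := Finset.mem_image.1 he
        exact ho e1 (Finset.mem_union_left _ h)
      · obtain ⟨e1, h, rfl⟩ := Finset.mem_image.1 he
        exact ho e1 (Finset.mem_union_right _ h)

/-- Row N7. Transfer to the window, as `Bz_emb`, `Nz_emb`: `Rl` only uses edges with an end in the ball, they are images of edges of the window (the ends outside have norm `R+1`). For two embeddings of the window (the box itself and the window) the same. -/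
lemma Rz_emb {l : ℕ} (u : Fin d → Fin l) (R : ℕ) (φ : boxG d (2 * R + 3) ↪g boxG d l)
    (h1 : ∀ x, rel u (φ x) = rel (cR d R) x) (h2 : ∀ y : Fin d → Fin l, nz (rel u y) ≤ R + 1 → ∃ x, φ x = y)
    (W : Finset (Zd d)) (v : Fin d → Fin (2 * R + 3)) (ω : (boxG d l).edgeSet → Bool) :
    Rz u R W (φ v) ω = Rz (cR d R) R W v (pul φ ω) := by
  ext q
  unfold Rz Rs
  simp only [Finset.mem_image, Finset.mem_filter, Finset.mem_univ, true_and]
  constructor
  · rintro ⟨⟨n, n'⟩, h, rfl⟩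
    obtain ⟨x, x', rfl, rfl, hx⟩ := (N7a_Rl u R φ h1 h2 W v ω n n').1 h
    refine ⟨(x, x'), hx, ?_⟩
    show (rel (cR d R) x, rel (cR d R) x') = (rel u (φ x), rel u (φ x'))
    rw [h1, h1]
  · rintro ⟨⟨x, x'⟩, h, rfl⟩
    refine ⟨(φ x, φ x'), (N7a_Rl u R φ h1 h2 W v ω _ _).2 ⟨x, x', rfl, rfl, h⟩, ?_⟩
    show (rel u (φ x), rel u (φ x')) = (rel (cR d R) x, rel (cR d R) x')
    rw [h1, h1]

open scoped Classical in
private lemma N7b_cS {l : ℕ} (u v' : Fin d → Fin l) (v : Zd d) (hv' : rel u v' = v) (R : ℕ) (W : Finset (Zd d)) (ω : (boxG d l).edgeSet → Bool) :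
    cS (gends (boxG d l)) ω (pre u W ∪ (Qb u R)ᶜ) {v'} = BB u R W {v} ω := by
  unfold BB
  have e1 : (Qb u R)ᶜ = {x | rel u x ∉ (bz R : Finset (Zd d))} := by
    ext x
    simp only [Qb, Set.mem_compl_iff, Set.mem_ofPred_eq, mem_bz]
  have e2 : ({v'} : Set (Fin d → Fin l)) = pre u {v} := by
    ext x
    simp only [pre, Set.mem_singleton_iff, Set.mem_ofPred_eq, Finset.mem_singleton]
    constructor
    · rintro rfl
      exact hv'
    · intro h
      exact rel_inj u (h.trans hv'.symm)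
  rw [e1, e2]

private lemma N7b_D {l : ℕ} (u v' : Fin d → Fin l) (v : Zd d) (hv' : rel u v' = v) (R : ℕ) (W : Finset (Zd d)) (ω : (boxG d l).edgeSet → Bool) :
    pre u W ∪ ((cS (gends (boxG d l)) ω (pre u W ∪ (Qb u R)ᶜ) {v'} : Finset (Fin d → Fin l)) : Set (Fin d → Fin l)) = pre u (W ∪ Bz u R W {v} ω) := by
  rw [N7b_cS u v' v hv']
  ext x
  simp only [pre, Set.mem_union, Set.mem_ofPred_eq, Finset.mem_coe, Finset.mem_union, Bz, Finset.mem_image]
  constructor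
  · rintro (h | h)
    · exact Or.inl h
    · exact Or.inr ⟨x, h, rfl⟩
  · rintro (h | ⟨y, hy, hyx⟩)
    · exact Or.inl h
    · rw [← rel_inj u hyx]
      exact Or.inr hy

private lemma N7b_rho {l : ℕ} (u v' : Fin d → Fin l) (R : ℕ) (W : Finset (Zd d)) (ω : (boxG d l).edgeSet → Bool) :
    Rs (gends (boxG d l)) ω (pre u W) (Qb u R) v' = prp u (Rz u R W v' ω) := by
  ext q
  rw [prp, Finset.mem_filter, Rz, Finset.mem_image]
  constructor
  · intro h
    exact ⟨Finset.mem_univ _, q, h, rfl⟩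
  · rintro ⟨-, q', h, e⟩
    have e1 := rel_inj u (congrArg Prod.fst e)
    have e2 := rel_inj u (congrArg Prod.snd e)
    have e3 : q' = q := Prod.ext e1 e2
    rwa [← e3]

private lemma N7b_mem {l : ℕ} (u v' : Fin d → Fin l) (R : ℕ) (W : Finset (Zd d)) (ω : (boxG d l).edgeSet → Bool) (q : (Fin d → Fin l) × (Fin d → Fin l)) :
    q ∈ Rs (gends (boxG d l)) ω (pre u W) (Qb u R) v' ↔ Rl (gends (boxG d l)) ω (pre u W) (Qb u R) v' q.1 q.2 := by
  classical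
  unfold Rs
  simp only [Finset.mem_filter, Finset.mem_univ, true_and]

private lemma N7b_sym {l : ℕ} (u v' : Fin d → Fin l) (R : ℕ) (W : Finset (Zd d)) (ω : (boxG d l).edgeSet → Bool) (q : Zd d × Zd d) (hq : q ∈ Rz u R W v' ω) :
    (q.2, q.1) ∈ Rz u R W v' ω := by
  rw [Rz, Finset.mem_image] at hq ⊢
  obtain ⟨a, ha, rfl⟩ := hq
  refine ⟨(a.2, a.1), ?_, rfl⟩
  rw [N7b_mem] at ha ⊢
  obtain ⟨hne, F, F', hd, ho, h1, h2⟩ := ha
  refine ⟨hne.symm, F', F, hd.symm, ?_, h2, h1⟩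
  intro e he
  exact ho e (by rwa [Finset.union_comm])

private lemma N7b_off {l : ℕ} (u v' : Fin d → Fin l) (v : Zd d) (R : ℕ) (W : Finset (Zd d)) (ω : (boxG d l).edgeSet → Bool) (q : Zd d × Zd d) (hq : q ∈ Rz u R W v' ω) :
    q.1 ∉ W ∪ Bz u R W {v} ω := by
  rw [Rz, Finset.mem_image] at hq
  obtain ⟨a, ha, rfl⟩ := hq
  rw [N7b_mem] at ha
  obtain ⟨hne, F, F', hd, ho, h1, h2⟩ := ha
  obtain ⟨hW, hQ, -⟩ := h1
  rw [Finset.mem_union]
  rintro (h | h)
  · exact hW h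
  · rw [Bz, Finset.mem_image] at h
    obtain ⟨y, hy, hyx⟩ := h
    have e1 : y = a.1 := rel_inj u hyx
    subst e1
    have h3 := cS_off hy
    apply h3
    right
    show rel u a.1 ∉ (bz R : Finset (Zd d))
    rw [mem_bz]
    exact hQ

private lemma N7b_win (v : Zd d) (R : ℕ) (hv : nz v ≤ R) : ∃ v0 : Fin d → Fin (2 * R + 3), rel (cR d R) v0 = v := by
  have hi : ∀ i, (v i).natAbs ≤ R := fun i =>
    (Finset.le_sup (f := fun i => (v i).natAbs) (Finset.mem_univ i)).trans hv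
  refine ⟨fun i => ⟨((R : ℤ) + 1 + v i).toNat, ?_⟩, ?_⟩
  · have := hi i
    omega
  · funext i
    have := hi i
    simp only [rel, cR]
    omega

/-- Row N7. `Og_Of`; `Of (..) (Rs ..)` = `Of (pre u (W ∪ Bz)) (prp u (Rz))`, a function of the window configuration (`Bz_emb`, `Rz_emb`, `Ex_pul`); finitely many values; for each one `Of_lim` (`Rl` is symmetric, exits are off `W ∪ Bz`). -/
lemma Og_lim {C c e pc : ℝ} (ht : HT d C c e pc) {φ : Finset (Zd d) → Finset (Zd d) → ℝ} (hφ : CTh d C pc φ) (W : Finset (Zd d)) (v : Zd d) (R : ℕ) (hv : nz v ≤ R) (hvW : v ∉ W) :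
    ∃ o : ℝ, ∀ η : ℝ, 0 < η → ∃ h0 : ℝ, 0 < h0 ∧ ∀ (l : ℕ) (u v' : Fin d → Fin l) (h : ℝ), Rg d pc 1 l u pc h → h ≤ h0 → rel u v' = v →
    |Og (gends (boxG d l)) pc h (pre u W) (Qb u R) v' - o * Mh d pc h ^ 2| ≤ η * Mh d pc h ^ 2 := by
  classical
  obtain ⟨v0, hv0⟩ := N7b_win v R hv
  choose o ho using fun ω : Om d R => Of_lim ht hφ (W ∪ Wb R W {v} ω) (Rz (cR d R) R W v0 ω)
    (fun q hq => N7b_sym (cR d R) v0 R W ω q hq) (fun q hq => N7b_off (cR d R) v0 v R W ω q hq)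
  refine ⟨Ex pc o, fun η hη => ?_⟩
  choose h0 h0pos hh0 using fun ω : Om d R => ho ω η hη
  obtain ⟨L, -, hL⟩ := rg_num ht 1 one_pos le_rfl
  obtain ⟨h1, h1pos, hh1⟩ := hL 1 one_pos (R + 1)
  have hne : (Finset.univ : Finset (Om d R)).Nonempty := ⟨fun _ => false, Finset.mem_univ _⟩
  refine ⟨min h1 (Finset.univ.inf' hne h0), lt_min h1pos ((Finset.lt_inf'_iff hne).2 fun ω _ => h0pos ω), ?_⟩
  intro l u v' h hRg hh hrel
  have hDp : Dp u (R + 1) := (hh1 l u pc h hRg (hh.trans (min_le_left _ _))).2.2.2.2.2.2.2.2.2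
  have hω : ∀ ω : Om d R, h ≤ h0 ω := fun ω =>
    hh.trans ((min_le_right _ _).trans (Finset.inf'_le _ (Finset.mem_univ ω)))
  have key : Og (gends (boxG d l)) pc h (pre u W) (Qb u R) v' =
      Ex pc (fun ω : Om d R => Of (gends (boxG d l)) pc h (pre u (W ∪ Wb R W {v} ω)) (prp u (Rz (cR d R) R W v0 ω))) := by
    obtain ⟨φ', hφ1, hφ2⟩ := win_emb u R hDp
    obtain ⟨v2, hv2⟩ := hφ2 v' (by rw [hrel]; omega)
    have e0 : v2 = v0 := rel_inj (cR d R) (by rw [← hφ1, hv2, hrel, hv0])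
    subst e0
    rw [Og_Of, ← Ex_pul φ' pc (fun ω : Om d R => Of (gends (boxG d l)) pc h (pre u (W ∪ Wb R W {v} ω)) (prp u (Rz (cR d R) R W v2 ω)))]
    refine Ex_congr fun ω => ?_
    rw [N7b_D u v' v hrel, N7b_rho, Bz_emb u R φ' hφ1 hφ2, ← Rz_emb u R φ' hφ1 hφ2 W v2 ω, hv2]
  rw [key]
  have hp0 : 0 ≤ pc := ht.hp.p0.le
  have hp1 : pc ≤ 1 := ht.hp.p1.le
  have hb : ∀ ω : Om d R, |Of (gends (boxG d l)) pc h (pre u (W ∪ Wb R W {v} ω)) (prp u (Rz (cR d R) R W v0 ω)) - o ω * Mh d pc h ^ 2| ≤ η * Mh d pc h ^ 2 :=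
    fun ω => hh0 ω l u h hRg (hω ω)
  have eo : Ex pc o * Mh d pc h ^ 2 = Ex pc (fun ω => Mh d pc h ^ 2 * o ω) := by
    rw [Ex_mul_left, mul_comm]
  rw [eo, abs_le]
  constructor
  · have : Ex pc (fun ω => Mh d pc h ^ 2 * o ω) ≤ Ex pc (fun ω : Om d R => Of (gends (boxG d l)) pc h (pre u (W ∪ Wb R W {v} ω)) (prp u (Rz (cR d R) R W v0 ω)) + η * Mh d pc h ^ 2) :=
      Ex_mono hp0 hp1 fun ω => by
        have := (abs_le.1 (hb ω)).1
        linarith
    rw [Ex_add, Ex_const] at this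
    linarith
  · have : Ex pc (fun ω : Om d R => Of (gends (boxG d l)) pc h (pre u (W ∪ Wb R W {v} ω)) (prp u (Rz (cR d R) R W v0 ω))) ≤ Ex pc (fun ω => Mh d pc h ^ 2 * o ω + η * Mh d pc h ^ 2) :=
      Ex_mono hp0 hp1 fun ω => by
        have := (abs_le.1 (hb ω)).2
        linarith
    rw [Ex_add, Ex_const] at this
    linarith

private lemma N8a_symm {l : ℕ} (k : ℕ) (x y : Fin d → Fin l) : fk k x y = fk k y x := by
  rw [← fz_rel k x x y, fz_sub, fz_rel]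

private lemma N8a_pos {l : ℕ} (k : ℕ) (x y : Fin d → Fin l) : 0 ≤ fk k x y := by
  rw [← fz_rel k x x y]
  exact (fz_pos _ _).le

/-- The convolution estimate in the box. -/
private lemma N8a_conv (hd : 1 ≤ d) : ∃ Kc : ℝ, 1 ≤ Kc ∧ ∀ (a b : ℕ), a < d → b < d → d < a + b → ∀ (l : ℕ) (x y : Fin d → Fin l),
    ∑ z, fk a x z * fk b z y ≤ Kc * fk (a + b - d) x y := by
  classical
  obtain ⟨Kc, h1, h2⟩ := conv_z hd
  refine ⟨Kc, h1, fun a b ha hb hab l x y => ?_⟩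
  have h3 := h2 a b ha hb hab (rel x x) (rel x y) (Finset.univ.image (rel x))
  rw [Finset.sum_image (fun p _ q _ hpq => rel_inj x hpq), fz_rel] at h3
  refine le_trans (le_of_eq ?_) h3
  refine Finset.sum_congr rfl fun z _ => ?_
  rw [fz_rel, fz_rel]

/-- The number of the vertices of the sphere. -/
private lemma N8a_card (hd : 1 ≤ d) {l : ℕ} (u : Fin d → Fin l) (R : ℕ) : ((Pf u R).card : ℝ) ≤ (d * 2 ^ d : ℝ) * ((R : ℝ) + 1) ^ (d - 1) := by
  classical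
  have h1 := shz hd (0 : Zd d) ((Pf u R).image (rel u)) R (fun z hz => by
    obtain ⟨x, hx, rfl⟩ := Finset.mem_image.1 hz
    have hx' := (Finset.mem_filter.1 hx).2
    rw [sub_zero, hx']) (fun k => if k = R then (1 : ℝ) else 0) (fun k => by split_ifs <;> norm_num)
  have h2 : ∑ z ∈ (Pf u R).image (rel u), (if nz (z - 0) = R then (1 : ℝ) else 0) = ((Pf u R).card : ℝ) := by
    rw [Finset.sum_congr rfl (g := fun _ => (1 : ℝ)) (fun z hz => by
      obtain ⟨x, hx, rfl⟩ := Finset.mem_image.1 hz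
      have hx' := (Finset.mem_filter.1 hx).2
      rw [sub_zero, hx', if_pos rfl])]
    rw [Finset.sum_const, nsmul_eq_mul, mul_one, Finset.card_image_of_injective _ (rel_inj u)]
  have h3 : ∑ k ∈ Finset.range (R + 1), ((k : ℝ) + 1) ^ (d - 1) * (if k = R then (1 : ℝ) else 0) = ((R : ℝ) + 1) ^ (d - 1) := by
    rw [Finset.sum_eq_single R]
    · rw [if_pos rfl, mul_one]
    · intro b _ hb
      rw [if_neg hb, mul_zero]
    · intro hR
      exact absurd (Finset.mem_range.2 (Nat.lt_succ_self R)) hR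
  rw [h2, h3] at h1
  exact h1

private lemma N8a_far (hd : 11 ≤ d) {l : ℕ} (u v z : Fin d → Fin l) (r R : ℕ) (hv : nz (rel u v) ≤ r) (hR : 2 * r ≤ R) (hz : z ∈ Pf u R) :
    fk (d - 2) v z * fk (d - 6) z v ≤ 2 ^ (2 * d - 8) / ((R : ℝ) + 1) ^ (2 * d - 8) := by
  have hz' := (Finset.mem_filter.1 hz).2
  have h1 : R ≤ nd z v + r := by
    have h2 := nz_tri (rel u z) (rel u v) 0
    rw [sub_zero, sub_zero, hz', nz_rel] at h2
    omega
  have h2 : ((R : ℝ) + 1) / 2 ≤ 1 + (nd z v : ℝ) := by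
    have : (R : ℝ) ≤ 2 * (nd z v : ℝ) := by
      have h3 : R ≤ 2 * nd z v := by omega
      exact_mod_cast h3
    linarith
  rw [N8a_symm (d - 2) v z]
  have h3 : fk (d - 2) z v * fk (d - 6) z v = 1 / (1 + (nd z v : ℝ)) ^ (2 * d - 8) := by
    unfold fk
    rw [div_mul_div_comm, one_mul, ← pow_add]
    congr 2
    omega
  rw [h3, ← div_pow]
  have h4 : (1 : ℝ) / (1 + (nd z v : ℝ)) ^ (2 * d - 8) = (1 / (1 + (nd z v : ℝ))) ^ (2 * d - 8) := by
    rw [div_pow, one_pow]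
  rw [h4]
  refine pow_le_pow_left₀ (by positivity) ?_ _
  rw [div_le_div_iff₀ (by positivity) (by positivity)]
  linarith


/-- Row N8. Kernel sum: sum over `x'` (`conv_z`: `fk (d-4) v x`), over `x` (`fk (d-2) z x fk (d-4) x v ≤ Kc fk (d-6) z v`), then over the sphere: `|z - v| ≥ R - r ≥ R/2`: `K R^(d-1) R^(8-2d)` (`shz`). -/
lemma k_H {C pc : ℝ} (hp : HP d C pc) : ∃ K0 : ℝ, 1 ≤ K0 ∧ ∀ (l : ℕ) (u v : Fin d → Fin l) (r R : ℕ), nz (rel u v) ≤ r → 2 * r ≤ R →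
    ∑ x, ∑ x', ∑ z ∈ Pf u R, ta (gends (boxG d l)) pc v z * ta (gends (boxG d l)) pc z x * (ta (gends (boxG d l)) pc v x' * ta (gends (boxG d l)) pc x' x) ≤ K0 / ((R : ℝ) + 1) ^ 4 := by
  classical
  have hd := hp.d11
  have hC := hp.C1
  have hC0 : (0 : ℝ) ≤ C := by linarith
  obtain ⟨Kc, hKc, hconv⟩ := N8a_conv (d := d) (by omega)
  have hK0 : (0 : ℝ) ≤ Kc := by linarith
  set K1 : ℝ := C ^ 4 * Kc ^ 2 * (2 ^ (2 * d - 8) * (d * 2 ^ d)) with hK1
  have hK1' : 0 ≤ K1 := by positivity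
  refine ⟨1 + K1, by linarith, fun l u v r R hv hR => ?_⟩
  have hta : ∀ x y : Fin d → Fin l, 0 ≤ ta (gends (boxG d l)) pc x y := fun x y => ta_nonneg hp.p0.le hp.p1.le x y
  have hU : ∀ x y : Fin d → Fin l, ta (gends (boxG d l)) pc x y ≤ C * fk (d - 2) x y := fun x y => hp.U l x y
  have hf : ∀ (k : ℕ) (x y : Fin d → Fin l), 0 ≤ fk k x y := fun k x y => N8a_pos k x y
  -- the sum over x'
  have s1 : ∀ x : Fin d → Fin l, ∑ x', ta (gends (boxG d l)) pc v x' * ta (gends (boxG d l)) pc x' x ≤ C ^ 2 * Kc * fk (d - 4) v x := by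
    intro x
    calc _ ≤ ∑ x', C ^ 2 * (fk (d - 2) v x' * fk (d - 2) x' x) := by
          refine Finset.sum_le_sum fun x' _ => ?_
          calc _ ≤ (C * fk (d - 2) v x') * (C * fk (d - 2) x' x) :=
                mul_le_mul (hU _ _) (hU _ _) (hta _ _) (mul_nonneg hC0 (hf _ _ _))
            _ = _ := by ring
      _ = C ^ 2 * ∑ x', fk (d - 2) v x' * fk (d - 2) x' x := by rw [Finset.mul_sum]
      _ ≤ C ^ 2 * (Kc * fk (d - 2 + (d - 2) - d) v x) :=
          mul_le_mul_of_nonneg_left (hconv (d - 2) (d - 2) (by omega) (by omega) (by omega) l v x) (by positivity)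
      _ = _ := by
          have : d - 2 + (d - 2) - d = d - 4 := by omega
          rw [this]
          ring
  -- the sum over x
  have s2 : ∀ z : Fin d → Fin l, ∑ x, ta (gends (boxG d l)) pc z x * (C ^ 2 * Kc * fk (d - 4) v x) ≤ C ^ 3 * Kc ^ 2 * fk (d - 6) z v := by
    intro z
    calc _ ≤ ∑ x, C ^ 3 * Kc * (fk (d - 2) z x * fk (d - 4) x v) := by
          refine Finset.sum_le_sum fun x _ => ?_
          rw [N8a_symm (d - 4) v x]
          calc _ ≤ (C * fk (d - 2) z x) * (C ^ 2 * Kc * fk (d - 4) x v) :=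
                mul_le_mul_of_nonneg_right (hU _ _) (mul_nonneg (by positivity) (hf _ _ _))
            _ = _ := by ring
      _ = C ^ 3 * Kc * ∑ x, fk (d - 2) z x * fk (d - 4) x v := by rw [Finset.mul_sum]
      _ ≤ C ^ 3 * Kc * (Kc * fk (d - 2 + (d - 4) - d) z v) :=
          mul_le_mul_of_nonneg_left (hconv (d - 2) (d - 4) (by omega) (by omega) (by omega) l z v) (by positivity)
      _ = _ := by
          have : d - 2 + (d - 4) - d = d - 6 := by omega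
          rw [this]
          ring
  calc _ ≤ ∑ x, ∑ z ∈ Pf u R, ta (gends (boxG d l)) pc v z * (ta (gends (boxG d l)) pc z x * (C ^ 2 * Kc * fk (d - 4) v x)) := by
        refine Finset.sum_le_sum fun x _ => ?_
        rw [Finset.sum_comm]
        refine Finset.sum_le_sum fun z _ => ?_
        rw [← Finset.mul_sum]
        calc _ ≤ ta (gends (boxG d l)) pc v z * ta (gends (boxG d l)) pc z x * (C ^ 2 * Kc * fk (d - 4) v x) :=
              mul_le_mul_of_nonneg_left (s1 x) (mul_nonneg (hta _ _) (hta _ _))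
          _ = _ := by ring
    _ = ∑ z ∈ Pf u R, ta (gends (boxG d l)) pc v z * ∑ x, ta (gends (boxG d l)) pc z x * (C ^ 2 * Kc * fk (d - 4) v x) := by
        rw [Finset.sum_comm]
        exact Finset.sum_congr rfl fun z _ => by rw [Finset.mul_sum]
    _ ≤ ∑ z ∈ Pf u R, C ^ 4 * Kc ^ 2 * (2 ^ (2 * d - 8) / ((R : ℝ) + 1) ^ (2 * d - 8)) := by
        refine Finset.sum_le_sum fun z hz => ?_
        calc _ ≤ (C * fk (d - 2) v z) * (C ^ 3 * Kc ^ 2 * fk (d - 6) z v) := by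
              refine mul_le_mul (hU _ _) (s2 z) ?_ (mul_nonneg hC0 (hf _ _ _))
              exact Finset.sum_nonneg fun x _ => mul_nonneg (hta _ _) (mul_nonneg (by positivity) (hf _ _ _))
          _ = C ^ 4 * Kc ^ 2 * (fk (d - 2) v z * fk (d - 6) z v) := by ring
          _ ≤ _ := mul_le_mul_of_nonneg_left (N8a_far hd u v z r R hv hR hz) (by positivity)
    _ = ((Pf u R).card : ℝ) * (C ^ 4 * Kc ^ 2 * (2 ^ (2 * d - 8) / ((R : ℝ) + 1) ^ (2 * d - 8))) := by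
        rw [Finset.sum_const, nsmul_eq_mul]
    _ ≤ ((d * 2 ^ d : ℝ) * ((R : ℝ) + 1) ^ (d - 1)) * (C ^ 4 * Kc ^ 2 * (2 ^ (2 * d - 8) / ((R : ℝ) + 1) ^ (2 * d - 8))) :=
        mul_le_mul_of_nonneg_right (N8a_card (by omega) u R) (by positivity)
    _ = K1 * (((R : ℝ) + 1) ^ (d - 1) / ((R : ℝ) + 1) ^ (2 * d - 8)) := by
        rw [hK1]
        ring
    _ ≤ K1 * (1 / ((R : ℝ) + 1) ^ 4) := by
        refine mul_le_mul_of_nonneg_left ?_ hK1'
        have hR1 : (0 : ℝ) < (R : ℝ) + 1 := by positivity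
        rw [div_le_div_iff₀ (by positivity) (by positivity), one_mul, ← pow_add]
        refine pow_le_pow_right₀ (by linarith [(Nat.cast_nonneg R : (0 : ℝ) ≤ R)]) ?_
        omega
    _ ≤ (1 + K1) / ((R : ℝ) + 1) ^ 4 := by
        rw [mul_one_div]
        refine div_le_div_of_nonneg_right (by linarith) (by positivity)

private lemma N8b_ex {l : ℕ} (u : Fin d → Fin l) (v : Zd d) (hu : Dp u (nz v)) : ∃ v' : Fin d → Fin l, rel u v' = v := by
  have h1 : ∀ i, (v i).natAbs ≤ nz v := fun i =>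
    Finset.le_sup (f := fun i => (v i).natAbs) (Finset.mem_univ i)
  refine ⟨fun i => ⟨(((u i : ℕ) : ℤ) + v i).toNat, ?_⟩, ?_⟩
  · have h2 := h1 i
    have h3 := hu i
    omega
  · funext i
    have h2 := h1 i
    have h3 := hu i
    show ((((((u i : ℕ) : ℤ) + v i).toNat : ℕ) : ℤ) - ((u i : ℕ) : ℤ)) = v i
    omega

private lemma N8b_prf {l : ℕ} (u v' : Fin d → Fin l) (v : Zd d) (h : rel u v' = v) : prf u {v} = {v'} := by
  ext x
  simp only [prf, Finset.mem_filter, Finset.mem_univ, true_and, Finset.mem_singleton]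
  constructor
  · intro hx
    exact rel_inj u (hx.trans h.symm)
  · rintro rfl
    exact h

private lemma N8b_coe {l : ℕ} (u : Fin d → Fin l) (R : ℕ) : ((Qf u R : Finset (Fin d → Fin l)) : Set (Fin d → Fin l)) = Qb u R := by
  ext x
  simp only [Qf, Qb, Finset.coe_filter, Finset.mem_univ, true_and, Set.mem_setOf_eq]

private lemma N8b_card {l : ℕ} (u : Fin d → Fin l) (R : ℕ) : ((Qf u R).card : ℝ) ≤ ((bz R : Finset (Zd d)).card : ℝ) := by
  have h1 : Qf u R = prf u (bz R) := by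
    ext x
    simp only [Qf, prf, Finset.mem_filter, Finset.mem_univ, true_and, mem_bz]
  rw [h1]
  exact_mod_cast prf_card u (bz R)

/-- Row N8. Convergence of `D2 / Mh^2`: `D2_Og` (`Q = Qf u R`, `P = Pf u R`), `M2_box`, `k_H`, `|Q| h Mh ≤ η Mh^2`, `Og_lim`; `cau_c` for the function `∑ v' ∈ prf u {v}, D2 .. v'`. -/
lemma D2_lim {C c e pc : ℝ} (ht : HT d C c e pc) {φ : Finset (Zd d) → Finset (Zd d) → ℝ} (hφ : CTh d C pc φ) (W : Finset (Zd d)) (v : Zd d) (hvW : v ∉ W) :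
    ∃ o : ℝ, ∀ η : ℝ, 0 < η → ∃ h0 : ℝ, 0 < h0 ∧ ∀ (l : ℕ) (u v' : Fin d → Fin l) (h : ℝ), Rg d pc 1 l u pc h → h ≤ h0 → rel u v' = v →
    |D2 (gends (boxG d l)) pc h (pre u W) v' - o * Mh d pc h ^ 2| ≤ η * Mh d pc h ^ 2 := by
  obtain ⟨K2, hK2, hM2⟩ := M2_box ht
  obtain ⟨K0, hK0, hkH⟩ := k_H ht.hp
  obtain ⟨c', hc', hlow⟩ := Mh_low ht
  have hpc0 : 0 ≤ pc := ht.hp.p0.le
  have hpc1 : pc ≤ 1 := ht.hp.p1.le
  have hMpos : ∀ h : ℝ, 0 < h → h < 1 → 0 < Mh d pc h := fun h h0 h1 =>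
    lt_of_lt_of_le (mul_pos hc' (Real.sqrt_pos.2 h0)) (hlow pc h le_rfl hpc1 h0 h1)
  -- the main estimate
  have key : ∀ η : ℝ, 0 < η → ∃ o h0 : ℝ, 0 < h0 ∧ ∀ (l : ℕ) (u v' : Fin d → Fin l) (h : ℝ),
      Rg d pc 1 l u pc h → h ≤ h0 → rel u v' = v →
      |D2 (gends (boxG d l)) pc h (pre u W) v' - o * Mh d pc h ^ 2| ≤ η * Mh d pc h ^ 2 := by
    intro η hη
    obtain ⟨N, hN⟩ := exists_nat_gt (4 * (K2 * K0) / η)
    set R : ℕ := N + 2 * nz v with hR
    obtain ⟨o, ho⟩ := Og_lim ht hφ W v R (by omega) hvW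
    obtain ⟨h1, hh1, ho1⟩ := ho (η / 4) (by positivity)
    set B : ℝ := ((bz R : Finset (Zd d)).card : ℝ) + 1 with hB
    have hBpos : 0 < B := by positivity
    set s : ℝ := η * c' / (4 * B) with hs
    have hspos : 0 < s := by positivity
    refine ⟨o, min h1 (s ^ 2), lt_min hh1 (by positivity), ?_⟩
    intro l u v' h hr hh hv'
    have hh0 : 0 < h := hr.h0
    have hh1' : h < 1 := hr.h1
    have hM := hMpos h hh0 hh1'
    have e1 := ho1 l u v' h hr (hh.trans (min_le_left _ _)) hv'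
    have hvQ : v' ∈ Qf u R := by
      simp only [Qf, Finset.mem_filter, Finset.mem_univ, true_and]
      rw [hv']; omega
    have hvD : v' ∉ pre u W := by
      intro hc
      apply hvW
      have : rel u v' ∈ W := hc
      rwa [hv'] at this
    have e2 := D2_Og (ends := gends (boxG d l)) Subtype.val_injective hpc0 hpc1 hh0.le hh1'.le
      (Mh_Mb l pc h hpc0 hpc1 hh0.le hh1'.le) (hM2 l h hh0 hh1') (pre u W) (Qf u R) (Pf u R) v' hvQ hvD
      (by
        intro e x y he hx hy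
        have hx' : x ∈ Qb u R := by rw [← N8b_coe]; exact hx
        have hy' : y ∉ Qb u R := by rw [← N8b_coe]; exact hy
        have := Qb_out u R e x y he hx' hy'
        simp only [Pf, Finset.mem_filter, Finset.mem_univ, true_and]
        exact this)
      (by
        intro n hn e e' a a' he he' ha ha'
        exact Qb_one u R n hn e e' a a' he he' ha ha')
    rw [N8b_coe] at e2
    have e3 := hkH l u v' (nz v) R (by rw [hv']) (by omega)
    -- the two error terms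
    have e4 : K2 * Mh d pc h ^ 2 * ∑ x, ∑ x', ∑ z ∈ Pf u R, ta (gends (boxG d l)) pc v' z * ta (gends (boxG d l)) pc z x * (ta (gends (boxG d l)) pc v' x' * ta (gends (boxG d l)) pc x' x) ≤ η / 4 * Mh d pc h ^ 2 := by
      have h2 : K0 / ((R : ℝ) + 1) ^ 4 ≤ K0 / ((R : ℝ) + 1) := by
        apply div_le_div_of_nonneg_left (by linarith) (by positivity)
        exact le_self_pow₀ (by linarith [Nat.cast_nonneg (α := ℝ) R]) (by norm_num)
      have h3 : (N : ℝ) ≤ R := by rw [hR]; push_cast; linarith [Nat.cast_nonneg (α := ℝ) (nz v)]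
      have h4 : K2 * (K0 / ((R : ℝ) + 1)) ≤ η / 4 := by
        rw [← mul_div_assoc, div_le_iff₀ (by positivity)]
        rw [div_lt_iff₀ hη] at hN
        nlinarith [Nat.cast_nonneg (α := ℝ) R]
      calc K2 * Mh d pc h ^ 2 * ∑ x, ∑ x', ∑ z ∈ Pf u R, ta (gends (boxG d l)) pc v' z * ta (gends (boxG d l)) pc z x * (ta (gends (boxG d l)) pc v' x' * ta (gends (boxG d l)) pc x' x)
          ≤ K2 * Mh d pc h ^ 2 * (K0 / ((R : ℝ) + 1)) := by
            apply mul_le_mul_of_nonneg_left (e3.trans h2)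
            have : 0 ≤ K2 := by linarith
            positivity
        _ = K2 * (K0 / ((R : ℝ) + 1)) * Mh d pc h ^ 2 := by ring
        _ ≤ η / 4 * Mh d pc h ^ 2 := mul_le_mul_of_nonneg_right h4 (by positivity)
    have e5 : ((Qf u R).card : ℝ) * (h * Mh d pc h) ≤ η / 4 * Mh d pc h ^ 2 := by
      have h2 : ((Qf u R).card : ℝ) ≤ B := (N8b_card u R).trans (by rw [hB]; linarith)
      have h3 : Real.sqrt h ≤ s := by
        rw [← Real.sqrt_sq hspos.le]
        exact Real.sqrt_le_sqrt (hh.trans (min_le_right _ _))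
      have h4 : h = Real.sqrt h * Real.sqrt h := (Real.mul_self_sqrt hh0.le).symm
      have h5 := hlow pc h le_rfl hpc1 hh0 hh1'
      have h6 : 0 < Real.sqrt h := Real.sqrt_pos.2 hh0
      have h7 : B * h ≤ η / 4 * Mh d pc h := by
        calc B * h = B * Real.sqrt h * Real.sqrt h := by rw [mul_assoc, ← h4]
          _ ≤ B * s * Real.sqrt h := by
            apply mul_le_mul_of_nonneg_right _ h6.le
            exact mul_le_mul_of_nonneg_left h3 hBpos.le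
          _ = η / 4 * (c' * Real.sqrt h) := by rw [hs]; field_simp
          _ ≤ η / 4 * Mh d pc h := mul_le_mul_of_nonneg_left h5 (by positivity)
      calc ((Qf u R).card : ℝ) * (h * Mh d pc h) ≤ B * (h * Mh d pc h) :=
            mul_le_mul_of_nonneg_right h2 (by positivity)
        _ = (B * h) * Mh d pc h := by ring
        _ ≤ (η / 4 * Mh d pc h) * Mh d pc h := mul_le_mul_of_nonneg_right h7 hM.le
        _ = η / 4 * Mh d pc h ^ 2 := by ring
    have e6 : 0 ≤ Mh d pc h ^ 2 := by positivity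
    rw [abs_le] at e1 ⊢
    obtain ⟨f1, f2⟩ := e2
    constructor
    · linarith [e1.1]
    · linarith [e1.2]
  -- the Cauchy argument
  obtain ⟨a, ha⟩ := cau_c (d := d) pc (fun l u h => (∑ v' ∈ prf u {v}, D2 (gends (boxG d l)) pc h (pre u W) v') / Mh d pc h ^ 2) (by
    intro η hη
    obtain ⟨o, h0, hh0, ho⟩ := key η hη
    refine ⟨o, min h0 (1 / ((nz v : ℝ) + 1)), lt_min hh0 (by positivity), ?_⟩
    intro l u h hr hh
    have hM := hMpos h hr.h0 hr.h1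
    have hdp : Dp u (nz v) := by
      apply hr.dp
      have h1 : h ≤ 1 / ((nz v : ℝ) + 1) := hh.trans (min_le_right _ _)
      have h2 : (nz v : ℝ) + 1 ≤ 1 / h := by
        rw [le_div_iff₀ hr.h0]
        rw [le_div_iff₀ (by positivity)] at h1
        linarith
      have h3 : (1 / h) ≤ 1 / h ^ 2 := by
        apply one_div_le_one_div_of_le (pow_pos hr.h0 2)
        nlinarith [hr.h0, hr.h1]
      linarith
    obtain ⟨v', hv'⟩ := N8b_ex u v hdp
    have h4 := ho l u v' h hr (hh.trans (min_le_left _ _)) hv'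
    show |(∑ v' ∈ prf u {v}, D2 (gends (boxG d l)) pc h (pre u W) v') / Mh d pc h ^ 2 - o| ≤ η
    rw [N8b_prf u v' v hv', Finset.sum_singleton]
    have h5 : D2 (gends (boxG d l)) pc h (pre u W) v' / Mh d pc h ^ 2 - o =
        (D2 (gends (boxG d l)) pc h (pre u W) v' - o * Mh d pc h ^ 2) / Mh d pc h ^ 2 := by
      field_simp
    rw [h5, abs_div, abs_of_pos (pow_pos hM 2), div_le_iff₀ (pow_pos hM 2)]
    exact h4)
  refine ⟨a, ?_⟩
  intro η hη
  obtain ⟨h0, hh0, ha1⟩ := ha η hη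
  refine ⟨h0, hh0, ?_⟩
  intro l u v' h hr hh hv'
  have hM := hMpos h hr.h0 hr.h1
  have h4 := ha1 l u h hr hh
  have h4' : |(∑ v' ∈ prf u {v}, D2 (gends (boxG d l)) pc h (pre u W) v') / Mh d pc h ^ 2 - a| ≤ η := h4
  rw [N8b_prf u v' v hv', Finset.sum_singleton] at h4'
  have h5 : D2 (gends (boxG d l)) pc h (pre u W) v' / Mh d pc h ^ 2 - a =
      (D2 (gends (boxG d l)) pc h (pre u W) v' - a * Mh d pc h ^ 2) / Mh d pc h ^ 2 := by
    field_simp
  rw [h5, abs_div, abs_of_pos (pow_pos hM 2), div_le_iff₀ (pow_pos hM 2)] at h4'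
  exact h4'

/-- Row N9. `main_lim` (with `δ = 1`) for `Ψ = 1(v ∉ B) (∑ v' ∈ prf u {v}, D2 (pre u (B ∩ bz r)) v')/Mh^2` if `p = pc` (`= ψ B` otherwise), `D2_lim`, bounded by `D2_le`, `M2_box`. The limit `α` depends on `r, R, v`. -/
lemma b1_lim {C c e pc : ℝ} (ht : HT d C c e pc) {φ : Finset (Zd d) → Finset (Zd d) → ℝ} (hφ : CTh d C pc φ) (r R : ℕ) (v : Zd d) :
    ∃ α : ℝ, ∀ η : ℝ, 0 < η → ∃ h0 : ℝ, 0 < h0 ∧ ∀ (l : ℕ) (u v' : Fin d → Fin l) (h : ℝ), Rg d pc 1 l u pc h → h ≤ h0 → rel u v' = v →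
    |b1q (gends (boxG d l)) pc h (Qb u R) (prf u (bz r)) u v' - α * (Mh d pc h ^ 2 * sgF l u pc h ∅ {0})| ≤ η * (Mh d pc h ^ 2 * sgF l u pc h ∅ {0}) := by
  classical
  have hp0 : 0 < pc := ht.hp.p0
  have hpc1 : pc < 1 := ht.hp.p1
  obtain ⟨K2, hK2, hM2⟩ := M2_box ht
  let o : Finset (Zd d) → ℝ := fun W =>
    if hw : v ∉ W then Classical.choose (D2_lim ht hφ W v hw) else 0
  have ho : ∀ W : Finset (Zd d), v ∉ W → ∀ η : ℝ, 0 < η → ∃ h0 : ℝ, 0 < h0 ∧
      ∀ (l : ℕ) (u v' : Fin d → Fin l) (h : ℝ), Rg d pc 1 l u pc h → h ≤ h0 → rel u v' = v →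
      |D2 (gends (boxG d l)) pc h (pre u W) v' - o W * Mh d pc h ^ 2| ≤ η * Mh d pc h ^ 2 := by
    intro W hw
    have h1 : o W = Classical.choose (D2_lim ht hφ W v hw) := dif_pos hw
    rw [h1]
    exact Classical.choose_spec (D2_lim ht hφ W v hw)
  let Ψ : (l : ℕ) → (Fin d → Fin l) → ℝ → ℝ → Finset (Zd d) → ℝ := fun l u p h B =>
    if v ∈ B then 0 else if p = pc then
      (∑ v' ∈ prf u {v}, D2 (gends (boxG d l)) pc h (pre u (B.filter (fun x => nz x ≤ r))) v') / Mh d pc h ^ 2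
    else if B ⊆ bz R then o (B.filter (fun x => nz x ≤ r)) else 0
  let ψ : Finset (Zd d) → ℝ := fun B => if v ∈ B then 0 else
    if B ⊆ bz R then o (B.filter (fun x => nz x ≤ r)) else 0
  let K : ℝ := K2 + ∑ B ∈ (bz R : Finset (Zd d)).powerset, |o (B.filter (fun x => nz x ≤ r))|
  have hS0 : 0 ≤ ∑ B ∈ (bz R : Finset (Zd d)).powerset, |o (B.filter (fun x => nz x ≤ r))| :=
    Finset.sum_nonneg fun B _ => abs_nonneg _
  have hKK2 : K2 ≤ K := le_add_of_nonneg_right hS0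
  have hK0 : 0 ≤ K := by linarith
  obtain ⟨L, hL, hrg⟩ := rg_num ht 1 one_pos le_rfl
  obtain ⟨h1, h1pos, H1⟩ := hrg 1 one_pos (nz v)
  have hbd : ∀ (l : ℕ) (u : Fin d → Fin l) (p h : ℝ), Rg d pc 1 l u p h → h ≤ h1 →
      0 < Mh d p h ∧ 0 < sgF l u p h ∅ {0} ∧ Dp u (nz v) := by
    intro l u p h hR hh
    obtain ⟨_, _, a4, _, _, _, a8, _, _, a11⟩ := H1 l u p h hR hh
    exact ⟨a4, a8, a11⟩
  have hinj : ∀ l : ℕ, Function.Injective (gends (boxG d l)) := fun l => Subtype.val_injective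
  have hK : ∃ h0 : ℝ, 0 < h0 ∧ ∀ (l : ℕ) (u : Fin d → Fin l) (p h : ℝ), Rg d pc 1 l u p h →
      h ≤ h0 → ∀ B, |Ψ l u p h B| ≤ K := by
    refine ⟨h1, h1pos, fun l u p h hR hh B => ?_⟩
    show |(if v ∈ B then (0 : ℝ) else if p = pc then
      (∑ v' ∈ prf u {v}, D2 (gends (boxG d l)) pc h (pre u (B.filter (fun x => nz x ≤ r))) v') / Mh d pc h ^ 2
      else if B ⊆ bz R then o (B.filter (fun x => nz x ≤ r)) else 0)| ≤ K
    split_ifs with hv hp hB
    · rw [abs_zero]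
      exact hK0
    · subst hp
      obtain ⟨b5, -, -⟩ := hbd l u p h hR hh
      have hMp : 0 < Mh d p h ^ 2 := pow_pos b5 2
      have hn : 0 ≤ ∑ v' ∈ prf u {v}, D2 (gends (boxG d l)) p h (pre u (B.filter (fun x => nz x ≤ r))) v' :=
        Finset.sum_nonneg fun v' _ => D2_nonneg hp0.le hpc1.le hR.h0.le hR.h1.le _ _
      rw [abs_of_nonneg (div_nonneg hn hMp.le), div_le_iff₀ hMp]
      have hc : ∑ v' ∈ prf u {v}, D2 (gends (boxG d l)) p h (pre u (B.filter (fun x => nz x ≤ r))) v' ≤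
          ∑ v' ∈ prf u {v}, K2 * Mh d p h ^ 2 :=
        Finset.sum_le_sum fun v' _ => D2_le (hinj l) hp0.le hpc1.le hR.h0.le hR.h1.le
          (hM2 l h hR.h0 hR.h1) _ _
      rw [Finset.sum_const, nsmul_eq_mul] at hc
      have hcard : ((prf u ({v} : Finset (Zd d))).card : ℝ) ≤ 1 := by
        have := prf_card u ({v} : Finset (Zd d))
        rw [Finset.card_singleton] at this
        exact_mod_cast this
      have hpos : 0 ≤ K2 * Mh d p h ^ 2 := mul_nonneg (by linarith) hMp.le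
      calc _ ≤ ((prf u ({v} : Finset (Zd d))).card : ℝ) * (K2 * Mh d p h ^ 2) := hc
        _ ≤ 1 * (K2 * Mh d p h ^ 2) := mul_le_mul_of_nonneg_right hcard hpos
        _ = K2 * Mh d p h ^ 2 := one_mul _
        _ ≤ K * Mh d p h ^ 2 := mul_le_mul_of_nonneg_right hKK2 hMp.le
    · have h3 : |o (B.filter (fun x => nz x ≤ r))| ≤
          ∑ B ∈ (bz R : Finset (Zd d)).powerset, |o (B.filter (fun x => nz x ≤ r))| :=
        Finset.single_le_sum (f := fun B : Finset (Zd d) => |o (B.filter (fun x => nz x ≤ r))|)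
          (fun B _ => abs_nonneg _) (Finset.mem_powerset.2 hB)
      exact h3.trans (le_add_of_nonneg_left (by linarith))
    · rw [abs_zero]
      exact hK0
  have hΨ : ∀ B, B ⊆ bz R → (0 : Zd d) ∈ B → ∀ η : ℝ, 0 < η → ∃ h0 : ℝ, 0 < h0 ∧
      ∀ (l : ℕ) (u : Fin d → Fin l) (p h : ℝ), Rg d pc 1 l u p h → h ≤ h0 →
        |Ψ l u p h B - ψ B| ≤ η := by
    intro B hB _ η hη
    by_cases hv : v ∈ B
    · refine ⟨1, one_pos, fun l u p h _ _ => ?_⟩
      show |(if v ∈ B then (0 : ℝ) else _) - (if v ∈ B then (0 : ℝ) else _)| ≤ η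
      rw [if_pos hv, if_pos hv, sub_zero, abs_zero]
      exact hη.le
    · obtain ⟨h0, h0pos, H⟩ := ho (B.filter (fun x => nz x ≤ r))
        (fun hc => hv (Finset.mem_filter.1 hc).1) η hη
      refine ⟨min h0 h1, lt_min h0pos h1pos, fun l u p h hR hh => ?_⟩
      show |(if v ∈ B then (0 : ℝ) else if p = pc then
        (∑ v' ∈ prf u {v}, D2 (gends (boxG d l)) pc h (pre u (B.filter (fun x => nz x ≤ r))) v') / Mh d pc h ^ 2
        else if B ⊆ bz R then o (B.filter (fun x => nz x ≤ r)) else 0) - (if v ∈ B then (0 : ℝ) else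
          if B ⊆ bz R then o (B.filter (fun x => nz x ≤ r)) else 0)| ≤ η
      rw [if_neg hv, if_neg hv]
      by_cases hp : p = pc
      · rw [if_pos hp, if_pos hB]
        rw [hp] at hR
        obtain ⟨b5, -, b7⟩ := hbd l u pc h hR (hh.trans (min_le_right _ _))
        obtain ⟨v', hv', -, -⟩ := shift u (nz v) v le_rfl b7
        have hpr : prf u ({v} : Finset (Zd d)) = {v'} := by
          ext x
          simp only [prf, Finset.mem_filter, Finset.mem_univ, true_and, Finset.mem_singleton]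
          constructor
          · intro hx
            exact rel_inj u (hx.trans hv'.symm)
          · intro hx
            rw [hx, hv']
        rw [hpr, Finset.sum_singleton]
        have h3 := H l u v' h hR (hh.trans (min_le_left _ _)) hv'
        have hMp : 0 < Mh d pc h ^ 2 := pow_pos b5 2
        have e1 : D2 (gends (boxG d l)) pc h (pre u (B.filter (fun x => nz x ≤ r))) v' / Mh d pc h ^ 2 -
            o (B.filter (fun x => nz x ≤ r)) =
            (D2 (gends (boxG d l)) pc h (pre u (B.filter (fun x => nz x ≤ r))) v' -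
              o (B.filter (fun x => nz x ≤ r)) * Mh d pc h ^ 2) / Mh d pc h ^ 2 := by
          rw [sub_div, mul_div_assoc, div_self hMp.ne', mul_one]
        rw [e1, abs_div, abs_of_pos hMp, div_le_iff₀ hMp]
        exact h3
      · rw [if_neg hp, sub_self, abs_zero]
        exact hη.le
  refine ⟨Ex pc (fun ω : Om d R => φ (Wb R ∅ {0} ω) (Wn R ∅ {0} ω (fun _ => false)) *
    ψ (Wb R ∅ {0} ω)), fun η hη => ?_⟩
  obtain ⟨h2, h2pos, H2⟩ := main_lim ht hφ 1 one_pos le_rfl R Ψ ψ K hK hΨ η hη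
  refine ⟨min h1 h2, lt_min h1pos h2pos, fun l u v' h hR hh hv' => ?_⟩
  obtain ⟨b5, b6, -⟩ := hbd l u pc h hR (hh.trans (min_le_left _ _))
  have hm := H2 l u pc h hR (hh.trans (min_le_right _ _))
  -- the sets
  have hru : rel u u = 0 := by
    funext i
    simp [rel]
  have hpre0 : pre u (∅ : Finset (Zd d)) ∪ {x | rel u x ∉ (bz R : Finset (Zd d))} =
      (Qb u R)ᶜ := by
    ext x
    simp only [pre, Finset.notMem_empty, Set.setOf_false, Set.empty_union, Set.mem_setOf_eq,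
      Set.mem_compl_iff, Qb, mem_bz]
  have hpreu : pre u ({0} : Finset (Zd d)) = {u} := by
    ext x
    simp only [pre, Finset.mem_singleton, Set.mem_setOf_eq, Set.mem_singleton_iff]
    constructor
    · intro hx
      exact rel_inj u (hx.trans hru.symm)
    · intro hx
      rw [hx, hru]
  have hprv : prf u ({v} : Finset (Zd d)) = {v'} := by
    ext x
    simp only [prf, Finset.mem_filter, Finset.mem_univ, true_and, Finset.mem_singleton]
    constructor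
    · intro hx
      exact rel_inj u (hx.trans hv'.symm)
    · intro hx
      rw [hx, hv']
  have hBB : ∀ ω, BB u R ∅ {0} ω = cS (gends (boxG d l)) ω (Qb u R)ᶜ {u} := by
    intro ω
    unfold BB
    rw [hpre0, hpreu]
  have hmem : ∀ ω x, rel u x ∈ Bz u R ∅ {0} ω ↔ x ∈ cS (gends (boxG d l)) ω (Qb u R)ᶜ {u} := by
    intro ω x
    unfold Bz
    rw [hBB, Finset.mem_image]
    constructor
    · rintro ⟨y, hy, hxy⟩
      rwa [← rel_inj u hxy]
    · intro hx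
      exact ⟨x, hx, rfl⟩
  have hpf : ∀ ω, pre u ((Bz u R ∅ {0} ω).filter (fun x => nz x ≤ r)) =
      ((cS (gends (boxG d l)) ω (Qb u R)ᶜ {u} ∩ prf u (bz r) : Finset (Fin d → Fin l)) :
        Set (Fin d → Fin l)) := by
    intro ω
    ext x
    rw [Finset.mem_coe, Finset.mem_inter]
    simp only [pre, Set.mem_setOf_eq, Finset.mem_filter, hmem, prf, Finset.mem_univ, true_and,
      mem_bz]
  have hq : b1q (gends (boxG d l)) pc h (Qb u R) (prf u (bz r)) u v' =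
      Mh d pc h ^ 2 * Ex pc (fun ω => fh h (cu (gends (boxG d l)) ω u).card *
        Ψ l u pc h (Bz u R ∅ {0} ω)) := by
    rw [← Ex_mul_left]
    unfold b1q
    refine Ex_congr fun ω => ?_
    show _ = Mh d pc h ^ 2 * (_ * (if v ∈ Bz u R ∅ {0} ω then (0 : ℝ) else if pc = pc then
      (∑ v' ∈ prf u {v}, D2 (gends (boxG d l)) pc h
        (pre u ((Bz u R ∅ {0} ω).filter (fun x => nz x ≤ r))) v') / Mh d pc h ^ 2
      else _))
    have hvB : v ∈ Bz u R ∅ {0} ω ↔ v' ∈ cS (gends (boxG d l)) ω (Qb u R)ᶜ {u} := by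
      rw [← hv']
      exact hmem ω v'
    by_cases hv : v' ∈ cS (gends (boxG d l)) ω (Qb u R)ᶜ {u}
    · rw [if_pos hv, if_pos (hvB.2 hv)]
      ring
    · rw [if_neg hv, if_neg (fun hc => hv (hvB.1 hc)), if_pos rfl, hprv, Finset.sum_singleton, hpf]
      field_simp
  rw [hq]
  set X := Ex pc (fun ω => fh h (cu (gends (boxG d l)) ω u).card * Ψ l u pc h (Bz u R ∅ {0} ω))
  set α := Ex pc (fun ω : Om d R => φ (Wb R ∅ {0} ω) (Wn R ∅ {0} ω (fun _ => false)) *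
    ψ (Wb R ∅ {0} ω))
  have hMp : 0 < Mh d pc h ^ 2 := pow_pos b5 2
  have e1 : Mh d pc h ^ 2 * X - α * (Mh d pc h ^ 2 * sgF l u pc h ∅ {0}) =
      (X / sgF l u pc h ∅ {0} - α) * (Mh d pc h ^ 2 * sgF l u pc h ∅ {0}) := by
    field_simp
  rw [e1, abs_mul, abs_of_pos (mul_pos hMp b6)]
  exact mul_le_mul_of_nonneg_right hm (mul_pos hMp b6).le

private lemma N9b_inj (l : ℕ) : Function.Injective (gends (boxG d l)) := by
  intro e e' h
  exact Subtype.ext h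

/-- Row N9. `b_diff`, `M2_box`, `e_arm`, `k_T` (with `n = u`, `a = v`, `R1 = 1`), `Mh/h ≤ L sgF`: first `r`, then `R`, then `h0`. -/
lemma b_close {C c e pc : ℝ} (ht : HT d C c e pc) (η : ℝ) (hη : 0 < η) : ∃ r R : ℕ, ∃ h0 : ℝ, 0 < h0 ∧ ∀ (l : ℕ) (u v : Fin d → Fin l) (h : ℝ),
    Rg d pc 1 l u pc h → h ≤ h0 → nd u v = 1 →
    b1q (gends (boxG d l)) pc h (Qb u R) (prf u (bz r)) u v - b0q (gends (boxG d l)) pc h u v ≤ η * (Mh d pc h ^ 2 * sgF l u pc h ∅ {0}) := by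
  obtain ⟨K2, hK2, hM2⟩ := M2_box (d := d) ht
  obtain ⟨K0, hK0, hkT⟩ := k_T (d := d) ht.hp
  obtain ⟨L, hL, H⟩ := rg_num ht 1 one_pos le_rfl
  have hC : 1 ≤ C := ht.hp.C1
  -- the radius r
  obtain ⟨r, hr⟩ := exists_nat_gt (2 * (K2 * L * K0) / η + 1)
  have hq : 0 < 2 * (K2 * L * K0) / η := by positivity
  have hr1 : (1 : ℝ) < r := by linarith
  have hr0 : (0 : ℝ) < r := by linarith
  have hr1' : 1 ≤ r := by exact_mod_cast hr1.le
  have hA : K2 * L * (K0 / r) ≤ η / 2 := by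
    rw [mul_div_assoc', div_le_iff₀ hr0]
    have h1 : 2 * (K2 * L * K0) / η ≤ r := by linarith
    rw [div_le_iff₀ hη] at h1
    linarith
  -- the radius R
  set c1 : ℝ := 1 + ((bz r : Finset (Zd d)).card : ℝ) with hc1
  have hc1' : 1 ≤ c1 := by
    have : (0 : ℝ) ≤ ((bz r : Finset (Zd d)).card : ℝ) := Nat.cast_nonneg _
    linarith
  set T : ℝ := 2 * (K2 * L * (2 * C * c1)) / η with hT
  have hT0 : 0 < T := by positivity
  obtain ⟨k, hk⟩ := exists_nat_gt (T ^ 2 + 1)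
  have hk0 : (0 : ℝ) < k := by linarith [sq_nonneg T]
  have hk1 : 0 < k := by exact_mod_cast hk0
  have hTk : T ≤ Real.sqrt k := by
    apply Real.le_sqrt_of_sq_le
    linarith
  have hsk : 0 < Real.sqrt k := Real.sqrt_pos.2 hk0
  have hB : K2 * L * (2 * C * c1 * (1 / Real.sqrt k)) ≤ η / 2 := by
    have h1 : K2 * L * (2 * C * c1 * (1 / Real.sqrt k)) = (K2 * L * (2 * C * c1)) / Real.sqrt k := by
      rw [mul_one_div, mul_div_assoc']
    rw [h1, div_le_iff₀ hsk]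
    have h2 : 2 * (K2 * L * (2 * C * c1)) / η ≤ Real.sqrt k := hTk
    rw [div_le_iff₀ hη] at h2
    linarith
  obtain ⟨h0, hh0, H0⟩ := H 1 one_pos 1
  refine ⟨r, r + k, h0, hh0, ?_⟩
  intro l u v h hR hh huv
  obtain ⟨⟨hp1, hp2, -⟩, -, hM0, -, -, -, hm0, -, hML, -⟩ := H0 l u pc h hR hh
  have hp0 : 0 ≤ pc := ht.hp.p0.le
  have hpc1 : pc ≤ 1 := ht.hp.p1.le
  have hh : 0 < h := hR.h0
  have hMb := Mh_Mb (d := d) l pc h hp0 hpc1 hR.h0.le hR.h1.le
  have hdiff := b_diff (N9b_inj l) hp0 hpc1 hR.h0 hR.h1.le hMb (hM2 l h hR.h0 hR.h1) (Qb u (r + k)) (prf u (bz r)) u v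
  set M := Mh d pc h with hM
  set m := sgF l u pc h ∅ {0} with hm
  have hu0 : rel u u = 0 := by
    ext i
    simp [rel]
  have hnu : nz (rel u u) ≤ 1 := by rw [hu0, nz_zero]; omega
  have hnv : nz (rel u v) ≤ 1 := by
    have h1 := nz_rel u u v
    rw [hu0, zero_sub, nz_neg, huv] at h1
    exact h1.le
  have hRk : ((r + k : ℕ) : ℝ) - r = k := by push_cast; ring
  have harm : ∀ s : Fin d → Fin l, nz (rel u s) ≤ r →
      Ex pc (fun ω => if s ∈ cu (gends (boxG d l)) ω u ∧ s ∉ cS (gends (boxG d l)) ω (Qb u (r + k))ᶜ {u} then fh h (cu (gends (boxG d l)) ω u).card else (0 : ℝ)) ≤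
        M / h * (2 * C * (1 / Real.sqrt k)) := by
    intro s hs
    have h1 := e_arm ht u s (r + k) r (by omega) hs pc h le_rfl (by linarith [ht.e0]) hR.h0 hR.h1.le
    rw [hRk, sub_self, add_zero] at h1
    refine h1.trans (le_of_eq ?_)
    ring
  have hK2M : 0 ≤ K2 * M ^ 2 := by positivity
  have hMh : 0 ≤ M / h := by positivity
  have t1 := mul_le_mul_of_nonneg_left (harm v (hnv.trans hr1')) hK2M
  have t2 : (K2 * M ^ 2) * ∑ s ∈ prf u (bz r), Ex pc (fun ω => if s ∈ cu (gends (boxG d l)) ω u ∧ s ∉ cS (gends (boxG d l)) ω (Qb u (r + k))ᶜ {u} then fh h (cu (gends (boxG d l)) ω u).card else (0 : ℝ)) ≤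
      (K2 * M ^ 2) * (((bz r : Finset (Zd d)).card : ℝ) * (M / h * (2 * C * (1 / Real.sqrt k)))) := by
    refine mul_le_mul_of_nonneg_left ?_ hK2M
    have hx : 0 ≤ M / h * (2 * C * (1 / Real.sqrt k)) := by positivity
    refine (Finset.sum_le_card_nsmul _ _ _ (fun s hs => harm s ?_)).trans ?_
    · unfold prf at hs
      rw [Finset.mem_filter, mem_bz] at hs
      exact hs.2
    · rw [nsmul_eq_mul]
      refine mul_le_mul_of_nonneg_right ?_ hx
      exact_mod_cast prf_card u (bz r)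
  have t3 : (K2 * M ^ 2) * (M / h) * ∑ s ∈ (prf u (bz r))ᶜ, (∑ z, ta (gends (boxG d l)) pc u z * ta (gends (boxG d l)) pc z s) * ta (gends (boxG d l)) pc v s ≤
      (K2 * M ^ 2) * (M / h) * (K0 / r) := by
    refine mul_le_mul_of_nonneg_left ?_ (mul_nonneg hK2M hMh)
    have h1 := hkT l u u v 1 r hr1' hnu hnv
    have h2 : ((r : ℝ) - ((1 : ℕ) : ℝ) + 1) = r := by push_cast; ring
    rw [h2] at h1
    exact h1
  have hfin : (K2 * M ^ 2) * (M / h * (2 * C * (1 / Real.sqrt k))) +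
      (K2 * M ^ 2) * (((bz r : Finset (Zd d)).card : ℝ) * (M / h * (2 * C * (1 / Real.sqrt k)))) +
      (K2 * M ^ 2) * (M / h) * (K0 / r) ≤ η * (M ^ 2 * m) := by
    have e1 : (K2 * M ^ 2) * (M / h * (2 * C * (1 / Real.sqrt k))) +
      (K2 * M ^ 2) * (((bz r : Finset (Zd d)).card : ℝ) * (M / h * (2 * C * (1 / Real.sqrt k)))) +
      (K2 * M ^ 2) * (M / h) * (K0 / r) = (K2 * M ^ 2) * (M / h) * (2 * C * c1 * (1 / Real.sqrt k) + K0 / r) := by
      rw [hc1]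
      ring
    rw [e1]
    have h3 : 0 ≤ 2 * C * c1 * (1 / Real.sqrt k) + K0 / r := by positivity
    have h4 : (K2 * M ^ 2) * (M / h) ≤ (K2 * M ^ 2) * (L * m) := mul_le_mul_of_nonneg_left hML hK2M
    have h5 : K2 * L * (2 * C * c1 * (1 / Real.sqrt k) + K0 / r) ≤ η := by
      rw [mul_add]
      linarith
    calc (K2 * M ^ 2) * (M / h) * (2 * C * c1 * (1 / Real.sqrt k) + K0 / r)
        ≤ (K2 * M ^ 2) * (L * m) * (2 * C * c1 * (1 / Real.sqrt k) + K0 / r) := mul_le_mul_of_nonneg_right h4 h3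
      _ = (K2 * L * (2 * C * c1 * (1 / Real.sqrt k) + K0 / r)) * (M ^ 2 * m) := by ring
      _ ≤ η * (M ^ 2 * m) := mul_le_mul_of_nonneg_right h5 (by positivity)
  linarith

private lemma N9c_fin {ι : Type*} (s : Finset ι) (Q : ι → ℝ → Prop)
    (h : ∀ i ∈ s, ∃ h0 : ℝ, 0 < h0 ∧ ∀ x, x ≤ h0 → Q i x) :
    ∃ h0 : ℝ, 0 < h0 ∧ ∀ i ∈ s, ∀ x, x ≤ h0 → Q i x := by
  classical
  induction s using Finset.induction_on with
  | empty => exact ⟨1, one_pos, fun i hi => absurd hi (Finset.notMem_empty i)⟩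
  | insert a s ha ih =>
    obtain ⟨h1, hh1, hs⟩ := ih (fun i hi => h i (Finset.mem_insert_of_mem hi))
    obtain ⟨h2, hh2, h3⟩ := h a (Finset.mem_insert_self a s)
    refine ⟨min h1 h2, lt_min hh1 hh2, ?_⟩
    intro i hi x hx
    rcases Finset.mem_insert.1 hi with rfl | hi
    · exact h3 x (le_trans hx (min_le_right _ _))
    · exact hs i hi x (le_trans hx (min_le_left _ _))

/-- A point of the region. -/
private lemma N9c_pt (d : ℕ) (pc h0 : ℝ) (hh0 : 0 < h0) :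
    ∃ (l : ℕ) (u : Fin d → Fin l) (h : ℝ), Rg d pc 1 l u pc h ∧ h ≤ h0 := by
  have hm0 : 0 < min h0 (1 / 2) := lt_min hh0 (by norm_num)
  have hm1 : min h0 (1 / 2) < 1 := lt_of_le_of_lt (min_le_right _ _) (by norm_num)
  obtain ⟨n, hn⟩ := exists_nat_ge (1 / (min h0 (1 / 2)) ^ 2)
  refine ⟨2 * n + 1, fun _ => ⟨n, by omega⟩, min h0 (1 / 2), ?_, min_le_left _ _⟩
  refine ⟨hm0, hm1, le_rfl, ?_, ?_⟩
  · exact le_add_of_nonneg_right (Real.sqrt_nonneg _)
  · intro k hk i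
    have hkn : k ≤ n := by exact_mod_cast le_trans hk hn
    constructor
    · exact hkn
    · show n + k < 2 * n + 1
      omega

/-- The relative positions of the neighbours. -/
private noncomputable def N9c_nb (d : ℕ) : Finset (Zd d) := by
  classical
  exact (bz 1 : Finset (Zd d)).filter (fun v => ∃ i, v = Pi.single i 1 ∨ 0 = v + Pi.single i 1)

private lemma N9c_rel0 {l : ℕ} (u : Fin d → Fin l) : rel u u = 0 := by
  funext i
  simp [rel]

open scoped Classical in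
private lemma N9c_BT {l : ℕ} (u : Fin d → Fin l) (pc h : ℝ) :
    BT (gends (boxG d l)) pc h u =
      ∑ v ∈ Finset.univ.filter (fun v => ∃ e, gends (boxG d l) e = s(u, v)), b0q (gends (boxG d l)) pc h u v := by
  unfold BT
  rw [Ex_sum, Finset.sum_filter]
  apply Finset.sum_congr rfl
  intro v _
  by_cases he : ∃ e, gends (boxG d l) e = s(u, v)
  · rw [if_pos he]
    unfold b0q
    apply Ex_congr
    intro ω
    by_cases hv : v ∈ cu (gends (boxG d l)) ω u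
    · rw [if_neg (fun hh => hh.2 hv), if_pos hv]
    · rw [if_pos ⟨he, hv⟩, if_neg hv]
  · rw [if_neg he]
    apply Ex_zero_of
    intro ω
    rw [if_neg (fun hh => he hh.1)]

private lemma N9c_adj {l : ℕ} (u v : Fin d → Fin l) :
    (∃ e, gends (boxG d l) e = s(u, v)) ↔ (boxG d l).Adj u v := by
  constructor
  · rintro ⟨e, he⟩
    have h1 : (e : Sym2 (Fin d → Fin l)) = s(u, v) := he
    have h2 := e.2
    rw [h1] at h2
    exact (SimpleGraph.mem_edgeSet _).1 h2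
  · intro h
    exact ⟨⟨s(u, v), (SimpleGraph.mem_edgeSet _).2 h⟩, rfl⟩

private lemma N9c_main {C c e pc : ℝ} (ht : HT d C c e pc) (η : ℝ) (hη : 0 < η) :
    ∃ α h0 : ℝ, 0 < h0 ∧ ∀ (l : ℕ) (u : Fin d → Fin l) (h : ℝ), Rg d pc 1 l u pc h → h ≤ h0 →
      |BT (gends (boxG d l)) pc h u / (Mh d pc h ^ 2 * sgF l u pc h ∅ {0}) - α| ≤ η := by
  classical
  obtain ⟨φ, hφ⟩ := CT ht
  obtain ⟨L, hL, hrg⟩ := rg_num ht 1 one_pos le_rfl
  obtain ⟨h1, hh1, hr⟩ := hrg 1 one_pos 0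
  have hN0 : (0 : ℝ) ≤ (N9c_nb d).card := Nat.cast_nonneg _
  have hη' : 0 < η / (2 * ((N9c_nb d).card + 1)) := by positivity
  obtain ⟨r, R, h2, hh2, hcl⟩ := b_close ht (η / (2 * ((N9c_nb d).card + 1))) hη'
  choose α hα using fun v : Zd d => b1_lim ht hφ r R v
  obtain ⟨h3, hh3, hα'⟩ := N9c_fin (N9c_nb d) (fun v h => ∀ (l : ℕ) (u v' : Fin d → Fin l),
    Rg d pc 1 l u pc h → rel u v' = v →
    |b1q (gends (boxG d l)) pc h (Qb u R) (prf u (bz r)) u v' - α v * (Mh d pc h ^ 2 * sgF l u pc h ∅ {0})| ≤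
      η / (2 * ((N9c_nb d).card + 1)) * (Mh d pc h ^ 2 * sgF l u pc h ∅ {0})) (by
    intro v _
    obtain ⟨h4, hh4, h5⟩ := hα v _ hη'
    exact ⟨h4, hh4, fun x hx l u v' hR hv => h5 l u v' x hR hx hv⟩)
  refine ⟨∑ v ∈ N9c_nb d, α v, min h1 (min h2 h3), lt_min hh1 (lt_min hh2 hh3), ?_⟩
  intro l u h hR hle
  obtain ⟨-, -, hM0, -, -, -, hs0, -, -, -⟩ := hr l u pc h hR (le_trans hle (min_le_left _ _))
  have hle2 : h ≤ h2 := le_trans hle (le_trans (min_le_right _ _) (min_le_left _ _))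
  have hle3 : h ≤ h3 := le_trans hle (le_trans (min_le_right _ _) (min_le_right _ _))
  have hT : 0 < Mh d pc h ^ 2 * sgF l u pc h ∅ {0} := mul_pos (pow_pos hM0 2) hs0
  have hp0 : 0 ≤ pc := ht.hp.p0.le
  have hp1 : pc ≤ 1 := ht.hp.p1.le
  have hinj : Function.Injective (gends (boxG d l)) := Subtype.val_injective
  have hdp : Dp u 1 := by
    apply hR.dp 1
    rw [Nat.cast_one, le_div_iff₀ (pow_pos hR.h0 2), one_mul]
    have := hR.h0
    have := hR.h1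
    nlinarith
  -- the neighbours
  have hmaps : ∀ v' ∈ Finset.univ.filter (fun v => ∃ e, gends (boxG d l) e = s(u, v)), rel u v' ∈ N9c_nb d := by
    intro v' hv'
    have hadj := (N9c_adj u v').1 (Finset.mem_filter.1 hv').2
    have h6 := (adj_rel u u v').1 hadj
    have h7 := adj_nz u u v' hadj
    rw [N9c_rel0] at h6 h7
    unfold N9c_nb
    refine Finset.mem_filter.2 ⟨?_, ?_⟩
    · rw [mem_bz]
      rw [zero_sub, nz_neg] at h7
      exact h7.le
    · obtain ⟨i, hi⟩ := h6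
      refine ⟨i, ?_⟩
      rcases hi with hi | hi
      · left
        rw [hi, zero_add]
      · right
        exact hi
  rw [N9c_BT, ← Finset.sum_fiberwise_of_maps_to hmaps]
  have hfib : ∀ v ∈ N9c_nb d, ∃ w : Fin d → Fin l, rel u w = v ∧ nd u w = 1 ∧
      (Finset.univ.filter (fun v => ∃ e, gends (boxG d l) e = s(u, v))).filter (fun v' => rel u v' = v) = {w} := by
    intro v hv
    have hv1 := Finset.mem_filter.1 (show v ∈ (bz 1 : Finset (Zd d)).filter (fun v => ∃ i, v = Pi.single i 1 ∨ 0 = v + Pi.single i 1) from hv)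
    obtain ⟨w, hw, -⟩ := shift u 1 v ((mem_bz 1 v).1 hv1.1) hdp
    have hadj : (boxG d l).Adj u w := by
      rw [adj_rel u u w, N9c_rel0, hw]
      obtain ⟨i, hi⟩ := hv1.2
      refine ⟨i, ?_⟩
      rcases hi with hi | hi
      · left
        rw [zero_add]
        exact hi
      · right
        exact hi
    refine ⟨w, hw, ?_, ?_⟩
    · have h8 := adj_nz u u w hadj
      rw [nz_rel] at h8
      exact h8
    · ext x
      rw [Finset.mem_singleton, Finset.mem_filter, Finset.mem_filter]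
      constructor
      · rintro ⟨-, hx⟩
        exact rel_inj u (hx.trans hw.symm)
      · rintro rfl
        exact ⟨⟨Finset.mem_univ _, (N9c_adj u x).2 hadj⟩, hw⟩
  have hterm : ∀ v ∈ N9c_nb d,
      |∑ v' ∈ (Finset.univ.filter (fun v => ∃ e, gends (boxG d l) e = s(u, v))).filter (fun v' => rel u v' = v),
          b0q (gends (boxG d l)) pc h u v' - α v * (Mh d pc h ^ 2 * sgF l u pc h ∅ {0})| ≤
        2 * (η / (2 * ((N9c_nb d).card + 1))) * (Mh d pc h ^ 2 * sgF l u pc h ∅ {0}) := by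
    intro v hv
    obtain ⟨w, hw, hnd, hset⟩ := hfib v hv
    rw [hset, Finset.sum_singleton]
    have h9 := hα' v hv h hle3 l u w hR hw
    have h10 := hcl l u w h hR hle2 hnd
    have h11 := b0_b1 hinj hp0 hp1 hR.h0.le hR.h1.le (h := h) (Qb u R) (prf u (bz r)) u w
    rw [abs_le] at h9 ⊢
    constructor <;> linarith [h9.1, h9.2]
  have hsum : |∑ v ∈ N9c_nb d, ∑ v' ∈ (Finset.univ.filter (fun v => ∃ e, gends (boxG d l) e = s(u, v))).filter (fun v' => rel u v' = v),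
          b0q (gends (boxG d l)) pc h u v' - (∑ v ∈ N9c_nb d, α v) * (Mh d pc h ^ 2 * sgF l u pc h ∅ {0})| ≤
        η * (Mh d pc h ^ 2 * sgF l u pc h ∅ {0}) := by
    rw [Finset.sum_mul, ← Finset.sum_sub_distrib]
    refine le_trans (Finset.abs_sum_le_sum_abs _ _) (le_trans (Finset.sum_le_sum hterm) ?_)
    rw [Finset.sum_const, nsmul_eq_mul]
    have h12 : ((N9c_nb d).card : ℝ) * (2 * (η / (2 * ((N9c_nb d).card + 1)))) ≤ η := by
      have h13 : (0 : ℝ) < (N9c_nb d).card + 1 := by positivity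
      have h14 : ((N9c_nb d).card : ℝ) * (2 * (η / (2 * ((N9c_nb d).card + 1)))) =
          η * (((N9c_nb d).card : ℝ) / ((N9c_nb d).card + 1)) := by
        field_simp
      rw [h14]
      have h15 : ((N9c_nb d).card : ℝ) / ((N9c_nb d).card + 1) ≤ 1 := by
        rw [div_le_one h13]
        linarith
      nlinarith
    calc ((N9c_nb d).card : ℝ) * (2 * (η / (2 * ((N9c_nb d).card + 1))) * (Mh d pc h ^ 2 * sgF l u pc h ∅ {0}))
        = ((N9c_nb d).card : ℝ) * (2 * (η / (2 * ((N9c_nb d).card + 1)))) * (Mh d pc h ^ 2 * sgF l u pc h ∅ {0}) := by ring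
      _ ≤ η * (Mh d pc h ^ 2 * sgF l u pc h ∅ {0}) := mul_le_mul_of_nonneg_right h12 hT.le
  rw [div_sub' hT.ne', abs_div, abs_of_pos hT, div_le_iff₀ hT]
  rw [mul_comm (Mh d pc h ^ 2 * sgF l u pc h ∅ {0}) (∑ v ∈ N9c_nb d, α v)]
  exact hsum

/-- Row N9. Proposition B: `BT u = ∑_v [edge] b0q u v` (the `2d` neighbours), `b1_lim`, `b_close`, `b0_b1`, `cau_c`. -/
theorem prop_B {C c e pc : ℝ} (ht : HT d C c e pc) : ∃ b : ℝ, 0 ≤ b ∧ ∀ η : ℝ, 0 < η → ∃ h0 : ℝ, 0 < h0 ∧ ∀ (l : ℕ) (u : Fin d → Fin l) (h : ℝ),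
    Rg d pc 1 l u pc h → h ≤ h0 → |BT (gends (boxG d l)) pc h u - b * (Mh d pc h ^ 2 * sgF l u pc h ∅ {0})| ≤ η * (Mh d pc h ^ 2 * sgF l u pc h ∅ {0}) := by
  classical
  obtain ⟨L, hL, hrg⟩ := rg_num ht 1 one_pos le_rfl
  obtain ⟨h1, hh1, hr⟩ := hrg 1 one_pos 0
  obtain ⟨b, hb⟩ := cau_c pc (fun l u h => BT (gends (boxG d l)) pc h u / (Mh d pc h ^ 2 * sgF l u pc h ∅ {0}))
    (fun η hη => N9c_main ht η hη)
  refine ⟨b, ?_, ?_⟩
  · by_contra hneg
    have hneg' : b < 0 := not_le.1 hneg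
    obtain ⟨h2, hh2, h3⟩ := hb (-b / 2) (by linarith)
    obtain ⟨l, u, h, hR, hle⟩ := N9c_pt d pc (min h1 h2) (lt_min hh1 hh2)
    obtain ⟨-, -, hM0, -, -, -, hs0, -, -, -⟩ := hr l u pc h hR (le_trans hle (min_le_left _ _))
    have hT : 0 < Mh d pc h ^ 2 * sgF l u pc h ∅ {0} := mul_pos (pow_pos hM0 2) hs0
    have hp0 : 0 ≤ pc := ht.hp.p0.le
    have hp1 : pc ≤ 1 := ht.hp.p1.le
    have hB : 0 ≤ BT (gends (boxG d l)) pc h u := by
      unfold BT
      apply Ex_nonneg hp0 hp1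
      intro ω
      apply Finset.sum_nonneg
      intro v _
      split_ifs
      · exact mul_nonneg (fh_nonneg hR.h0.le hR.h1.le _) (D2_nonneg hp0 hp1 hR.h0.le hR.h1.le _ _)
      · exact le_rfl
    have h4 := h3 l u h hR (le_trans hle (min_le_right _ _))
    have h5 : 0 ≤ BT (gends (boxG d l)) pc h u / (Mh d pc h ^ 2 * sgF l u pc h ∅ {0}) := div_nonneg hB hT.le
    rw [abs_le] at h4
    linarith [h4.2]
  · intro η hη
    obtain ⟨h2, hh2, h3⟩ := hb η hη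
    refine ⟨min h1 h2, lt_min hh1 hh2, ?_⟩
    intro l u h hR hle
    obtain ⟨-, -, hM0, -, -, -, hs0, -, -, -⟩ := hr l u pc h hR (le_trans hle (min_le_left _ _))
    have hT : 0 < Mh d pc h ^ 2 * sgF l u pc h ∅ {0} := mul_pos (pow_pos hM0 2) hs0
    have h4 := h3 l u h hR (le_trans hle (min_le_right _ _))
    have h5 : BT (gends (boxG d l)) pc h u - b * (Mh d pc h ^ 2 * sgF l u pc h ∅ {0}) =
        (BT (gends (boxG d l)) pc h u / (Mh d pc h ^ 2 * sgF l u pc h ∅ {0}) - b) * (Mh d pc h ^ 2 * sgF l u pc h ∅ {0}) := by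
      rw [sub_mul, div_mul_cancel₀ _ hT.ne']
    rw [h5, abs_mul, abs_of_pos hT]
    exact mul_le_mul_of_nonneg_right h4 hT.le

/-- A vertex of the box has at most `2 d` neighbours. -/
private lemma N9d_nb {l : ℕ} (u : Fin d → Fin l) [DecidablePred (fun v : Fin d → Fin l => ∃ e, gends (boxG d l) e = s(u, v))] :
    (Finset.univ.filter (fun v : Fin d → Fin l => ∃ e, gends (boxG d l) e = s(u, v))).card ≤ 2 * d := by
  classical
  refine le_trans ?_ (box_deg (d := d) (l := l) u)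
  refine Finset.card_le_card_of_forall_subsingleton (fun v e => gends (boxG d l) e = s(u, v)) ?_ ?_
  · intro v hv
    obtain ⟨e, he⟩ := (Finset.mem_filter.1 hv).2
    refine ⟨e, ?_, he⟩
    simp only [Finset.mem_filter, Finset.mem_univ, true_and, he]
    exact Sym2.mem_mk_left u v
  · intro e _ v hv v' hv'
    have h1 : s(u, v) = s(u, v') := by rw [← hv.2, ← hv'.2]
    exact Sym2.congr_right.1 h1

private lemma N9d_f {h : ℝ} (h0 : 0 < h) (h1 : h ≤ 1) (k : ℕ) : fh h k ≤ 1 / h := by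
  have := fh_le h0.le h1 k
  have h2 := gh_le_one h0.le h1 k
  rw [le_div_iff₀ h0]
  linarith

private lemma N9d_inj {l : ℕ} : Function.Injective (gends (boxG d l)) := Subtype.val_injective

private lemma N9d_D2 {l : ℕ} {p h : ℝ} (hp0 : 0 ≤ p) (hp1 : p ≤ 1) (h0 : 0 ≤ h) (h1 : h ≤ 1) (Z : Set (Fin d → Fin l)) (u : Fin d → Fin l) :
    D2 (gends (boxG d l)) p h Z u ≤ 1 := by
  classical
  unfold D2
  calc _ ≤ ∑ G : Finset (Fin d → Fin l), gw h G * 1 := by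
        refine Finset.sum_le_sum fun G _ => mul_le_mul_of_nonneg_left ?_ (gw_nonneg h0 h1 G)
        calc _ ≤ Ex p (fun _ : (boxG d l).edgeSet → Bool => (1 : ℝ)) := by
              refine Ex_mono hp0 hp1 fun ω => ?_
              split_ifs
              · exact le_refl _
              · exact zero_le_one
          _ = 1 := Ex_const _ _
    _ = 1 := by simp only [mul_one]; exact gw_sum h

private lemma N9d_BT0 {l : ℕ} (u : Fin d → Fin l) {p h : ℝ} (hp0 : 0 ≤ p) (hp1 : p ≤ 1) (h0 : 0 < h) (h1 : h ≤ 1) :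
    0 ≤ BT (gends (boxG d l)) p h u := by
  unfold BT
  refine Ex_nonneg hp0 hp1 fun ω => Finset.sum_nonneg fun v _ => ?_
  split_ifs
  · exact mul_nonneg (fh_nonneg h0.le h1 _) (D2_nonneg hp0 hp1 h0.le h1 _ _)
  · exact le_refl _

private lemma N9d_BT {l : ℕ} (u : Fin d → Fin l) {p h : ℝ} (hp0 : 0 ≤ p) (hp1 : p ≤ 1) (h0 : 0 < h) (h1 : h ≤ 1) :
    BT (gends (boxG d l)) p h u ≤ 2 * d / h := by
  classical
  unfold BT
  calc Ex p _ ≤ Ex p (fun _ : (boxG d l).edgeSet → Bool => (2 * d / h : ℝ)) := by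
        refine Ex_mono hp0 hp1 fun ω => ?_
        calc _ ≤ ∑ v : Fin d → Fin l, (if (∃ e, gends (boxG d l) e = s(u, v)) then (1 / h : ℝ) else 0) := by
              refine Finset.sum_le_sum fun v _ => ?_
              by_cases hv : ∃ e, gends (boxG d l) e = s(u, v)
              · rw [if_pos hv]
                split_ifs
                · calc _ ≤ fh h _ * 1 := mul_le_mul_of_nonneg_left (N9d_D2 hp0 hp1 h0.le h1 _ _) (fh_nonneg h0.le h1 _)
                    _ ≤ 1 / h := by rw [mul_one]; exact N9d_f h0 h1 _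
                · positivity
              · rw [if_neg hv, if_neg (fun hh => hv hh.1)]
          _ = ((Finset.univ.filter (fun v : Fin d → Fin l => ∃ e, gends (boxG d l) e = s(u, v))).card : ℝ) * (1 / h) := by
              rw [← Finset.sum_filter, Finset.sum_const, nsmul_eq_mul]
          _ ≤ (2 * d : ℝ) * (1 / h) := by
              refine mul_le_mul_of_nonneg_right ?_ (by positivity)
              exact_mod_cast N9d_nb u
          _ = 2 * d / h := by ring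
    _ = 2 * d / h := Ex_const _ _

private lemma N9d_num {P q T E1 h M B H b0 η η0 η1 η3 η4 η5 D1 D2 : ℝ} (hq : 0 < q) (hh0 : 0 ≤ h) (hM : 0 ≤ M) (hB : 0 ≤ B) (hH : 0 ≤ H) (hb : 0 ≤ b0)
    (he0 : 0 ≤ η0) (he3 : 0 ≤ η3) (he1 : 0 ≤ η1)
    (hP : P = E1 + q * T) (hE0 : 0 ≤ E1) (hE1 : E1 ≤ η5 * (B ^ 2 * H))
    (h1 : |T - b0 * M ^ 2 * ((1 - h) * H)| ≤ η0 * M ^ 2 * ((1 - h) * H) + (b0 * M ^ 2 * D1 + D2))
    (h3 : M ≤ 2 * B) (h3' : M - B ≤ 2 * η1 * B) (h3'' : B ≤ M)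
    (h5 : D1 ≤ η3 * H) (h6 : D2 ≤ η4 * (B ^ 2 * H))
    (h7 : η5 + q * (4 * η0 + 4 * b0 * η3 + η4) + b0 * q * (6 * η1 + 4 * h) ≤ η) :
    |P - b0 * q * (B ^ 2 * H)| ≤ η * (B ^ 2 * H) := by
  have hBH : 0 ≤ B ^ 2 * H := mul_nonneg (sq_nonneg _) hH
  have hM2 : M ^ 2 ≤ 4 * B ^ 2 := by nlinarith
  have hMB : M ^ 2 - B ^ 2 ≤ 6 * η1 * B ^ 2 := by
    have e : M ^ 2 - B ^ 2 = (M - B) * (M + B) := by ring
    rw [e]
    calc (M - B) * (M + B) ≤ (2 * η1 * B) * (M + B) := mul_le_mul_of_nonneg_right h3' (by linarith)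
      _ ≤ (2 * η1 * B) * (3 * B) := mul_le_mul_of_nonneg_left (by linarith) (by positivity)
      _ = _ := by ring
  have hMB0 : 0 ≤ M ^ 2 - B ^ 2 := by nlinarith
  have hT : |T - b0 * M ^ 2 * ((1 - h) * H)| ≤ (4 * η0 + 4 * b0 * η3 + η4) * (B ^ 2 * H) := by
    refine h1.trans ?_
    have a1 : M ^ 2 * ((1 - h) * H) ≤ 4 * (B ^ 2 * H) := by
      calc M ^ 2 * ((1 - h) * H) ≤ M ^ 2 * (1 * H) := by
            refine mul_le_mul_of_nonneg_left (mul_le_mul_of_nonneg_right (by linarith) hH) (sq_nonneg _)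
        _ ≤ (4 * B ^ 2) * (1 * H) := mul_le_mul_of_nonneg_right hM2 (by linarith)
        _ = _ := by ring
    have a2 : M ^ 2 * D1 ≤ 4 * η3 * (B ^ 2 * H) := by
      calc M ^ 2 * D1 ≤ M ^ 2 * (η3 * H) := mul_le_mul_of_nonneg_left h5 (sq_nonneg _)
        _ ≤ (4 * B ^ 2) * (η3 * H) := mul_le_mul_of_nonneg_right hM2 (mul_nonneg he3 hH)
        _ = _ := by ring
    have e1 := mul_le_mul_of_nonneg_left a1 he0
    have e2 := mul_le_mul_of_nonneg_left a2 hb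
    linarith [e1, e2, h6]
  have hS : |M ^ 2 * (1 - h) - B ^ 2| ≤ (6 * η1 + 4 * h) * B ^ 2 := by
    have e : M ^ 2 * (1 - h) - B ^ 2 = (M ^ 2 - B ^ 2) - h * M ^ 2 := by ring
    have a3 : h * M ^ 2 ≤ h * (4 * B ^ 2) := mul_le_mul_of_nonneg_left hM2 hh0
    have a4 : 0 ≤ h * M ^ 2 := mul_nonneg hh0 (sq_nonneg _)
    have a5 : 0 ≤ η1 * B ^ 2 := mul_nonneg he1 (sq_nonneg _)
    have a6 : 0 ≤ h * B ^ 2 := mul_nonneg hh0 (sq_nonneg _)
    rw [e, abs_le]
    constructor <;> linarith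
  have e : P - b0 * q * (B ^ 2 * H) = E1 + q * (T - b0 * M ^ 2 * ((1 - h) * H)) + b0 * q * H * (M ^ 2 * (1 - h) - B ^ 2) := by
    rw [hP]; ring
  rw [e]
  calc _ ≤ |E1 + q * (T - b0 * M ^ 2 * ((1 - h) * H))| + |b0 * q * H * (M ^ 2 * (1 - h) - B ^ 2)| := abs_add_le _ _
    _ ≤ (|E1| + |q * (T - b0 * M ^ 2 * ((1 - h) * H))|) + |b0 * q * H * (M ^ 2 * (1 - h) - B ^ 2)| := add_le_add (abs_add_le _ _) (le_refl _)
    _ = (E1 + q * |T - b0 * M ^ 2 * ((1 - h) * H)|) + b0 * q * H * |M ^ 2 * (1 - h) - B ^ 2| := by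
        rw [abs_of_nonneg hE0, abs_mul, abs_of_pos hq, abs_mul (b0 * q * H), abs_of_nonneg (by positivity : 0 ≤ b0 * q * H)]
    _ ≤ (η5 * (B ^ 2 * H) + q * ((4 * η0 + 4 * b0 * η3 + η4) * (B ^ 2 * H))) + b0 * q * H * ((6 * η1 + 4 * h) * B ^ 2) := by
        refine add_le_add (add_le_add hE1 (mul_le_mul_of_nonneg_left hT hq.le)) (mul_le_mul_of_nonneg_left hS (by positivity))
    _ = (η5 + q * (4 * η0 + 4 * b0 * η3 + η4) + b0 * q * (6 * η1 + 4 * h)) * (B ^ 2 * H) := by ring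
    _ ≤ η * (B ^ 2 * H) := mul_le_mul_of_nonneg_right h7 hBH

/-- The sums over the deep and the other vertices. -/
private lemma N9d_sum {U : Type*} [Fintype U] [DecidableEq U] (G : Finset U) (A f : U → ℝ) {m a0 η0 h n D : ℝ}
    (hη : 0 ≤ η0) (hm : 0 ≤ m) (ha : 0 ≤ a0) (h0 : 0 < h) (hD : 0 ≤ D)
    (hf0 : ∀ u, 0 ≤ f u) (hf1 : ∀ u, f u ≤ 1 / h) (hA0 : ∀ u, 0 ≤ A u) (hA1 : ∀ u, A u ≤ 2 * D / h)
    (hG : ∀ u ∈ G, |A u - a0 * (m * f u)| ≤ η0 * (m * f u)) (hc : ((Gᶜ).card : ℝ) ≤ 2 * D * h ^ 3 * n) :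
    |∑ u, A u - a0 * m * ∑ u, f u| ≤ η0 * m * ∑ u, f u + (a0 * m * (2 * D * h ^ 2) + 4 * D ^ 2 * h ^ 2) * n := by
  have s1 : ∑ u, A u = ∑ u ∈ G, A u + ∑ u ∈ Gᶜ, A u := (Finset.sum_add_sum_compl G A).symm
  have s2 : ∑ u, f u = ∑ u ∈ G, f u + ∑ u ∈ Gᶜ, f u := (Finset.sum_add_sum_compl G f).symm
  have s3 : |∑ u ∈ G, A u - a0 * m * ∑ u ∈ G, f u| ≤ η0 * m * ∑ u ∈ G, f u := by
    have e : ∑ u ∈ G, A u - a0 * m * ∑ u ∈ G, f u = ∑ u ∈ G, (A u - a0 * (m * f u)) := by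
      rw [Finset.sum_sub_distrib, Finset.mul_sum]
      congr 1
      exact Finset.sum_congr rfl fun u _ => by ring
    rw [e, Finset.mul_sum]
    refine (Finset.abs_sum_le_sum_abs _ _).trans (Finset.sum_le_sum fun u hu => ?_)
    calc _ ≤ η0 * (m * f u) := hG u hu
      _ = _ := by ring
  have s4 : ∑ u ∈ Gᶜ, A u ≤ 4 * D ^ 2 * h ^ 2 * n := by
    calc _ ≤ ∑ u ∈ Gᶜ, 2 * D / h := Finset.sum_le_sum fun u _ => hA1 u
      _ = ((Gᶜ).card : ℝ) * (2 * D / h) := by rw [Finset.sum_const, nsmul_eq_mul]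
      _ ≤ (2 * D * h ^ 3 * n) * (2 * D / h) := mul_le_mul_of_nonneg_right hc (by positivity)
      _ = _ := by field_simp; ring
  have s5 : ∑ u ∈ Gᶜ, f u ≤ 2 * D * h ^ 2 * n := by
    calc _ ≤ ∑ u ∈ Gᶜ, 1 / h := Finset.sum_le_sum fun u _ => hf1 u
      _ = ((Gᶜ).card : ℝ) * (1 / h) := by rw [Finset.sum_const, nsmul_eq_mul]
      _ ≤ (2 * D * h ^ 3 * n) * (1 / h) := mul_le_mul_of_nonneg_right hc (by positivity)
      _ = _ := by field_simp
  have s6 : 0 ≤ ∑ u ∈ Gᶜ, A u := Finset.sum_nonneg fun u _ => hA0 u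
  have s7 : 0 ≤ ∑ u ∈ Gᶜ, f u := Finset.sum_nonneg fun u _ => hf0 u
  have s8 : 0 ≤ η0 * m * ∑ u ∈ Gᶜ, f u := by positivity
  have s9 : a0 * m * ∑ u ∈ Gᶜ, f u ≤ a0 * m * (2 * D * h ^ 2 * n) := mul_le_mul_of_nonneg_left s5 (by positivity)
  have s10 : 0 ≤ a0 * m * ∑ u ∈ Gᶜ, f u := by positivity
  rw [s1, s2, abs_le]
  rw [abs_le] at s3
  constructor
  · linarith [s3.1, s3.2]
  · linarith [s3.1, s3.2]


/-- Row N9. MAIN RELATION B. `bridge_id` divided by `l^d`: `mB - h mH = l^(-d) ∑ E g2`; `0 ≤ D2 ∅ x ≤ K2 Mh^2 ≤ η Mh^2 mH`; average of `prop_B` over the deep vertices, boundary as in `rel_A'` (`BT ≤ 2d/h`). `b' = b pc/(1-pc)`. -/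
theorem rel_B' {C c e pc : ℝ} (ht : HT d C c e pc) : ∃ b : ℝ, 0 ≤ b ∧ ∀ η : ℝ, 0 < η → ∃ h0 : ℝ, 0 < h0 ∧ ∀ (h : ℝ) (l : ℕ),
    0 < h → h ≤ h0 → 1 / h ^ 5 ≤ (l : ℝ) →
    |mB d l pc h - h * mH d l pc h - b * (mB d l pc h ^ 2 * mH d l pc h)| ≤ η * (mB d l pc h ^ 2 * mH d l pc h) := by
  obtain ⟨b0, hb0, hA⟩ := prop_B ht
  obtain ⟨K2, hK2, hM2b⟩ := M2_box ht
  have hq1 : 0 < 1 - pc := by have := ht.hp.p1; linarith
  have hpc0 : 0 < pc := ht.hp.p0
  set q : ℝ := pc / (1 - pc) with hqd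
  have hq : 0 < q := div_pos hpc0 hq1
  refine ⟨b0 * q, by positivity, fun η hη => ?_⟩
  obtain ⟨c1, hS, hc1, hS0, hSz⟩ := mH_size ht 1 one_pos (le_refl _)
  obtain ⟨c2, hc2, hML⟩ := Mh_low ht
  set η0 : ℝ := η / (24 * q) with hη0
  set η1 : ℝ := min (1 / 2) (η / (36 * q * (b0 + 1))) with hη1
  set η3 : ℝ := η / (24 * q * (b0 + 1)) with hη3
  set η4 : ℝ := η / (6 * q) with hη4
  set η5 : ℝ := η / 6 with hη5
  have p0 : 0 < η0 := by positivity
  have p1 : 0 < η1 := lt_min (by norm_num) (by positivity)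
  have p3 : 0 < η3 := by positivity
  have p4 : 0 < η4 := by positivity
  have p5 : 0 < η5 := by positivity
  obtain ⟨hAh, hAh0, hAA⟩ := hA η0 p0
  obtain ⟨hBh, hBh0, hBB⟩ := mB_Mh ht η1 p1
  set z : ℝ := min (min (min hAh hBh) (min hS (1 / 2))) (min (min (η / (24 * q * (b0 + 1))) ((η5 * c1 / (4 * K2)) ^ 2)) (min (η3 * c1 / (2 * d + 1)) (η4 * (c1 * c2 ^ 2 / 4) / (4 * (d : ℝ) ^ 2 + 1)))) with hz
  have z0 : 0 < z := by
    refine lt_min (lt_min (lt_min hAh0 hBh0) (lt_min hS0 (by norm_num))) (lt_min (lt_min (by positivity) (by positivity)) (lt_min (by positivity) (by positivity)))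
  have z1 : z ≤ hAh := (min_le_left _ _).trans ((min_le_left _ _).trans (min_le_left _ _))
  have z2 : z ≤ hBh := (min_le_left _ _).trans ((min_le_left _ _).trans (min_le_right _ _))
  have z3 : z ≤ hS := (min_le_left _ _).trans ((min_le_right _ _).trans (min_le_left _ _))
  have z4 : z ≤ 1 / 2 := (min_le_left _ _).trans ((min_le_right _ _).trans (min_le_right _ _))
  have z5 : z ≤ η / (24 * q * (b0 + 1)) := (min_le_right _ _).trans ((min_le_left _ _).trans (min_le_left _ _))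
  have z6 : z ≤ (η5 * c1 / (4 * K2)) ^ 2 := (min_le_right _ _).trans ((min_le_left _ _).trans (min_le_right _ _))
  have z7 : z ≤ η3 * c1 / (2 * d + 1) := (min_le_right _ _).trans ((min_le_right _ _).trans (min_le_left _ _))
  have z8 : z ≤ η4 * (c1 * c2 ^ 2 / 4) / (4 * (d : ℝ) ^ 2 + 1) := (min_le_right _ _).trans ((min_le_right _ _).trans (min_le_right _ _))
  refine ⟨z, z0, fun h l h0 hz' hl => ?_⟩
  have h12 : h ≤ 1 / 2 := hz'.trans z4
  have hlt : h < 1 := by linarith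
  have hp0 : 0 ≤ pc := hpc0.le
  have hp1 : pc ≤ 1 := ht.hp.p1.le
  have hpe : pc ≤ pc + e := by have := ht.e0; linarith
  have hpp : pc ≤ pc + Real.sqrt (h / 1) := by have := Real.sqrt_nonneg (h / 1); linarith
  have hM1 : mB d l pc h ≤ Mh d pc h := mB_ub d l pc h hp0 hp1 h0.le hlt.le
  have hM2 : (1 - η1) * Mh d pc h ≤ mB d l pc h := hBB pc h l (le_refl _) hpe h0 (hz'.trans z2) hl
  have hM0 : 0 < Mh d pc h := lt_of_lt_of_le (by positivity) (hML pc h (le_refl _) hp1 h0 hlt)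
  have hB0 : 0 ≤ mB d l pc h := mB_nonneg d l pc h hp0 hp1 h0.le hlt.le
  have hH0 : 0 ≤ mH d l pc h := mH_nonneg d l pc h hp0 hp1 h0.le hlt.le
  have hHs : c1 / Real.sqrt h ≤ mH d l pc h := (hSz pc h l (le_refl _) hpp h0 (hz'.trans z3) hl).1
  have hsh : 0 < Real.sqrt h := Real.sqrt_pos.2 h0
  have hsh1 : Real.sqrt h ≤ 1 := by rw [Real.sqrt_le_left (by norm_num)]; linarith
  have hss : Real.sqrt h ^ 2 = h := Real.sq_sqrt h0.le
  have e12 : η1 ≤ 1 / 2 := min_le_left _ _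
  have hM3 : Mh d pc h ≤ 2 * mB d l pc h := by
    have := mul_le_mul_of_nonneg_right e12 hM0.le
    linarith
  have hM4 : Mh d pc h - mB d l pc h ≤ 2 * η1 * mB d l pc h := by
    have := mul_le_mul_of_nonneg_left hM3 p1.le
    linarith
  have hlpos : (0 : ℝ) < l := lt_of_lt_of_le (by positivity) hl
  have hl1 : 1 ≤ l := by
    have : 0 < l := by exact_mod_cast hlpos
    omega
  have hnpos : (0 : ℝ) < (l : ℝ) ^ d := by positivity
  -- the sums
  have key : |∑ u : Fin d → Fin l, BT (gends (boxG d l)) pc h u - b0 * Mh d pc h ^ 2 * ∑ u : Fin d → Fin l, Ex pc (fun ω => fh h (cu (gends (boxG d l)) ω u).card)| ≤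
      η0 * Mh d pc h ^ 2 * ∑ u : Fin d → Fin l, Ex pc (fun ω => fh h (cu (gends (boxG d l)) ω u).card) +
        (b0 * Mh d pc h ^ 2 * (2 * (d : ℝ) * h ^ 2) + 4 * (d : ℝ) ^ 2 * h ^ 2) * (l : ℝ) ^ d := by
    classical
    set N : ℕ := ⌊1 / h ^ 2⌋₊ with hN
    have hNle : (N : ℝ) ≤ 1 / h ^ 2 := Nat.floor_le (by positivity)
    set G : Finset (Fin d → Fin l) := Finset.univ.filter (fun x : Fin d → Fin l => ∀ i, N ≤ (x i : ℕ) ∧ (x i : ℕ) + N < l) with hG
    refine N9d_sum G _ _ p0.le (sq_nonneg (Mh d pc h)) hb0 h0 (by positivity) ?_ ?_ ?_ ?_ ?_ ?_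
    · intro u
      exact Ex_nonneg hp0 hp1 fun ω => fh_nonneg h0.le hlt.le _
    · intro u
      calc _ ≤ Ex pc (fun _ : (boxG d l).edgeSet → Bool => (1 / h : ℝ)) := Ex_mono hp0 hp1 fun ω => N9d_f h0 hlt.le _
        _ = 1 / h := Ex_const _ _
    · intro u
      exact N9d_BT0 u hp0 hp1 h0 hlt.le
    · intro u
      exact N9d_BT u hp0 hp1 h0 hlt.le
    · intro u hu
      have hu' := (Finset.mem_filter.1 hu).2
      have hR : Rg d pc 1 l u pc h := by
        refine ⟨h0, hlt, le_refl _, hpp, fun n hn i => ?_⟩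
        have hnN : n ≤ N := Nat.le_floor hn
        have := hu' i
        constructor <;> omega
      have := hAA l u h hR (hz'.trans z1)
      rw [sgF_one] at this
      exact this
    · have hdc := deep_count d l N (by have := ht.hp.d11; omega) hl1
      have hcard : ((Gᶜ).card : ℝ) = (l : ℝ) ^ d - (G.card : ℝ) := by
        rw [Finset.card_compl, Nat.cast_sub (Finset.card_le_univ _)]
        simp [Fintype.card_fin]
      have hd1 : 1 ≤ d := by have := ht.hp.d11; omega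
      have hle : (l : ℝ) ^ (d - 1) ≤ h ^ 5 * (l : ℝ) ^ d := by
        have e : (l : ℝ) ^ d = (l : ℝ) ^ (d - 1) * l := by
          rw [← pow_succ]; congr 1; omega
        have h5 : 1 ≤ h ^ 5 * (l : ℝ) := by
          rw [div_le_iff₀ (by positivity)] at hl
          linarith
        calc (l : ℝ) ^ (d - 1) = (l : ℝ) ^ (d - 1) * 1 := (mul_one _).symm
          _ ≤ (l : ℝ) ^ (d - 1) * (h ^ 5 * (l : ℝ)) := mul_le_mul_of_nonneg_left h5 (by positivity)
          _ = h ^ 5 * (l : ℝ) ^ d := by rw [e]; ring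
      rw [hcard]
      calc (l : ℝ) ^ d - (G.card : ℝ) ≤ 2 * N * d * (l : ℝ) ^ (d - 1) := by linarith
        _ ≤ 2 * (1 / h ^ 2) * d * (h ^ 5 * (l : ℝ) ^ d) := by gcongr
        _ = 2 * (d : ℝ) * h ^ 3 * (l : ℝ) ^ d := by field_simp
  have hmH : (1 - h) * mH d l pc h = (∑ u : Fin d → Fin l, Ex pc (fun ω => fh h (cu (gends (boxG d l)) ω u).card)) / (l : ℝ) ^ d := by
    unfold mH
    have : (1 - h : ℝ) ≠ 0 := by linarith
    field_simp
  have hbr := bridge_id (ends := gends (boxG d l)) N9d_inj (p := pc) (h := h) (by linarith [ht.hp.p1]) hlt.ne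
  have hmm : mB d l pc h - h * mH d l pc h = (∑ x : Fin d → Fin l, D2 (gends (boxG d l)) pc h ∅ x) / (l : ℝ) ^ d +
      q * ((∑ u : Fin d → Fin l, BT (gends (boxG d l)) pc h u) / (l : ℝ) ^ d) := by
    have e1 : ∑ x : Fin d → Fin l, Ex pc (fun ω => g2 h (cu (gends (boxG d l)) ω x).card) =
        ∑ x : Fin d → Fin l, Ex pc (fun ω => gh h (cu (gends (boxG d l)) ω x).card) -
          h * ((1 - h)⁻¹ * ∑ x : Fin d → Fin l, Ex pc (fun ω => fh h (cu (gends (boxG d l)) ω x).card)) := by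
      rw [← mul_assoc, Finset.mul_sum, ← Finset.sum_sub_distrib]
      refine Finset.sum_congr rfl fun x _ => ?_
      rw [← Ex_mul_left]
      unfold g2 Ex
      rw [← Finset.sum_sub_distrib]
      refine Finset.sum_congr rfl fun ω _ => ?_
      ring
    unfold mB mH
    rw [mul_div_assoc' h, ← sub_div, ← e1, hbr]
    ring
  refine N9d_num (q := q) (h := h) (M := Mh d pc h) (η0 := η0) (η1 := η1) (η3 := η3) (η4 := η4) (η5 := η5) (D1 := 2 * (d : ℝ) * h ^ 2) (D2 := 4 * (d : ℝ) ^ 2 * h ^ 2)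
    hq h0.le hM0.le hB0 hH0 hb0 p0.le p3.le p1.le hmm ?_ ?_ ?_ hM3 hM4 hM1 ?_ ?_ ?_
  · refine div_nonneg (Finset.sum_nonneg fun x _ => D2_nonneg hp0 hp1 h0.le hlt.le _ _) hnpos.le
  · have a1 : (∑ x : Fin d → Fin l, D2 (gends (boxG d l)) pc h ∅ x) / (l : ℝ) ^ d ≤ K2 * Mh d pc h ^ 2 := by
      rw [div_le_iff₀ hnpos]
      calc _ ≤ ∑ x : Fin d → Fin l, K2 * Mh d pc h ^ 2 :=
            Finset.sum_le_sum fun x _ => D2_le N9d_inj hp0 hp1 h0.le hlt.le (hM2b l h h0 hlt) _ _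
        _ = _ := by
            rw [Finset.sum_const, nsmul_eq_mul]
            simp [Fintype.card_fin]
            ring
    have a2 : Real.sqrt h ≤ η5 * c1 / (4 * K2) := by
      rw [Real.sqrt_le_left (by positivity)]
      exact hz'.trans z6
    have a3 : 4 * K2 ≤ η5 * mH d l pc h := by
      have a4 : 4 * K2 * Real.sqrt h ≤ η5 * c1 := by
        rw [le_div_iff₀ (by positivity)] at a2
        linarith
      calc 4 * K2 = (4 * K2 * Real.sqrt h) / Real.sqrt h := by field_simp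
        _ ≤ (η5 * c1) / Real.sqrt h := div_le_div_of_nonneg_right a4 hsh.le
        _ = η5 * (c1 / Real.sqrt h) := by ring
        _ ≤ _ := mul_le_mul_of_nonneg_left hHs p5.le
    refine a1.trans ?_
    have a5 : Mh d pc h ^ 2 ≤ 4 * mB d l pc h ^ 2 := by
      have := pow_le_pow_left₀ hM0.le hM3 2
      linarith
    calc K2 * Mh d pc h ^ 2 ≤ K2 * (4 * mB d l pc h ^ 2) := mul_le_mul_of_nonneg_left a5 (by linarith)
      _ = (4 * K2) * mB d l pc h ^ 2 := by ring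
      _ ≤ (η5 * mH d l pc h) * mB d l pc h ^ 2 := mul_le_mul_of_nonneg_right a3 (sq_nonneg _)
      _ = _ := by ring
  · rw [hmH]
    have e1 : (∑ u : Fin d → Fin l, BT (gends (boxG d l)) pc h u) / (l : ℝ) ^ d - b0 * Mh d pc h ^ 2 * ((∑ u : Fin d → Fin l, Ex pc (fun ω => fh h (cu (gends (boxG d l)) ω u).card)) / (l : ℝ) ^ d) =
        (∑ u : Fin d → Fin l, BT (gends (boxG d l)) pc h u - b0 * Mh d pc h ^ 2 * ∑ u : Fin d → Fin l, Ex pc (fun ω => fh h (cu (gends (boxG d l)) ω u).card)) / (l : ℝ) ^ d := by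
      ring
    rw [e1, abs_div, abs_of_pos hnpos, div_le_iff₀ hnpos]
    refine key.trans (le_of_eq ?_)
    field_simp
  · have b1 : c1 ≤ mH d l pc h := by
      refine le_trans ?_ hHs
      rw [le_div_iff₀ hsh]
      exact mul_le_of_le_one_right hc1.le hsh1
    have b2 : h ≤ η3 * c1 / (2 * d + 1) := hz'.trans z7
    rw [le_div_iff₀ (by positivity)] at b2
    have b3 : h ^ 2 ≤ h := by rw [sq]; exact mul_le_of_le_one_right h0.le hlt.le
    calc 2 * (d : ℝ) * h ^ 2 ≤ 2 * (d : ℝ) * h := mul_le_mul_of_nonneg_left b3 (by positivity)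
      _ ≤ h * (2 * d + 1) := by linarith
      _ ≤ η3 * c1 := b2
      _ ≤ _ := mul_le_mul_of_nonneg_left b1 p3.le
  · have b1 : c1 * c2 ^ 2 / 4 * Real.sqrt h ≤ mB d l pc h ^ 2 * mH d l pc h := by
      have t1 : c2 * Real.sqrt h / 2 ≤ mB d l pc h := by
        have := hML pc h (le_refl _) hp1 h0 hlt
        linarith
      have t2 : (c2 * Real.sqrt h / 2) ^ 2 ≤ mB d l pc h ^ 2 := pow_le_pow_left₀ (by positivity) t1 2
      calc c1 * c2 ^ 2 / 4 * Real.sqrt h = (c2 * Real.sqrt h / 2) ^ 2 * (c1 / Real.sqrt h) := by field_simp; norm_num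
        _ ≤ _ := mul_le_mul t2 hHs (by positivity) (sq_nonneg _)
    have b2 : h ≤ η4 * (c1 * c2 ^ 2 / 4) / (4 * (d : ℝ) ^ 2 + 1) := hz'.trans z8
    rw [le_div_iff₀ (by positivity)] at b2
    have b3 : h ^ 2 ≤ h * Real.sqrt h := by
      rw [sq]
      refine mul_le_mul_of_nonneg_left ?_ h0.le
      calc h = Real.sqrt h ^ 2 := hss.symm
        _ = Real.sqrt h * Real.sqrt h := sq _
        _ ≤ Real.sqrt h * 1 := mul_le_mul_of_nonneg_left hsh1 hsh.le
        _ = _ := mul_one _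
    calc 4 * (d : ℝ) ^ 2 * h ^ 2 ≤ 4 * (d : ℝ) ^ 2 * (h * Real.sqrt h) := mul_le_mul_of_nonneg_left b3 (by positivity)
      _ ≤ (h * (4 * (d : ℝ) ^ 2 + 1)) * Real.sqrt h := by linarith [mul_pos h0 hsh]
      _ ≤ (η4 * (c1 * c2 ^ 2 / 4)) * Real.sqrt h := mul_le_mul_of_nonneg_right b2 hsh.le
      _ = η4 * (c1 * c2 ^ 2 / 4 * Real.sqrt h) := by ring
      _ ≤ _ := mul_le_mul_of_nonneg_left b1 p4.le
  · have t0 : b0 / (b0 + 1) ≤ 1 := by rw [div_le_one (by linarith)]; linarith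
    have k1 : q * (4 * η0) = η / 6 := by rw [hη0]; field_simp; ring
    have k2 : q * (4 * b0 * η3) = η / 6 * (b0 / (b0 + 1)) := by rw [hη3]; field_simp; ring
    have k3 : q * η4 = η / 6 := by rw [hη4]; field_simp
    have k4 : b0 * q * (6 * η1) ≤ η / 6 * (b0 / (b0 + 1)) := by
      have : η1 ≤ η / (36 * q * (b0 + 1)) := min_le_right _ _
      calc b0 * q * (6 * η1) ≤ b0 * q * (6 * (η / (36 * q * (b0 + 1)))) := by gcongr
        _ = _ := by field_simp; ring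
    have k5 : b0 * q * (4 * h) ≤ η / 6 * (b0 / (b0 + 1)) := by
      have : h ≤ η / (24 * q * (b0 + 1)) := hz'.trans z5
      calc b0 * q * (4 * h) ≤ b0 * q * (4 * (η / (24 * q * (b0 + 1)))) := by gcongr
        _ = _ := by field_simp; ring
    have k6 : η / 6 * (b0 / (b0 + 1)) ≤ η / 6 * 1 := mul_le_mul_of_nonneg_left t0 (by positivity)
    have k7 : η5 + q * (4 * η0 + 4 * b0 * η3 + η4) + b0 * q * (6 * η1 + 4 * h) = η / 6 + q * (4 * η0) + q * (4 * b0 * η3) + q * η4 + b0 * q * (6 * η1) + b0 * q * (4 * h) := by rw [hη5]; ring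
    rw [k7, k1, k2, k3]
    linarith

end Pool.Agent.PERC29.DZ
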