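import Pool.Agent.Lib.MP_29e17e_pr.Z.La

namespace Pool.Agent.PERC29
end Pool.Agent.PERC29
namespace Pool.Agent.PERC29.AE
end Pool.Agent.PERC29.AE

set_option autoImplicit false
set_option linter.unusedSectionVars false

/-! Rows 29d-C*: box averages and the two differential relations (interface to Section 5). -/

open Finset Filter Topology

namespace Pool.Agent.PERC29.DZ

open Pool.Agent.PERC29 Pool.Agent.PERC29.AE

section gen

variable {V : Type*} [Fintype V] [DecidableEq V] {E : Type*} [Fintype E] [DecidableEq E]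

open scoped Classical in
/-- The local term in the derivative with respect to `p`. -/
noncomputable def AA (ends : E → Sym2 V) (p h : ℝ) (u : V) : ℝ :=
  Ex p (fun ω => ∑ v, (if (∃ e, ends e = s(u, v)) ∧ v ∉ cu ends ω u then fh h (cu ends ω u).card * gh h (cu ends ω v).card else (0 : ℝ)))

private lemma C1_ex {ends : E → Sym2 V} {ω : E → Bool} {e : E} {a b : V} (he : ends e = s(a, b)) : b ∈ cu ends (Function.update ω e true) a := by
  rw [mem_cu]
  exact Relation.ReflTransGen.single ⟨trivial, trivial, e, by simp, he⟩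

private lemma C1_up {ends : E → Sym2 V} {ω : E → Bool} {e : E} (x : V) : cu ends ω x ⊆ cu ends (Function.update ω e true) x := by
  apply cu_mono
  intro e' h'
  by_cases hee : e' = e
  · subst hee; simp
  · rw [Function.update_of_ne hee]; exact h'

private lemma C1_mem {ends : E → Sym2 V} {ω : E → Bool} {e : E} {a b x : V} (he : ends e = s(a, b)) (hx : x ∈ cu ends ω a) :
    cu ends (Function.update ω e true) x = cu ends ω a ∪ cu ends ω b := by
  apply Finset.Subset.antisymm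
  · have h := upd_cl_one (ω := ω) he (cu_symm.1 hx)
    rw [cu_eq hx] at h
    exact h
  · apply Finset.union_subset
    · rw [← cu_eq hx]
      exact C1_up x
    · have h1 : a ∈ cu ends (Function.update ω e true) x := C1_up x (cu_symm.1 hx)
      have h2 : cu ends (Function.update ω e true) a = cu ends (Function.update ω e true) x := cu_eq h1
      have h3 : cu ends (Function.update ω e true) b = cu ends (Function.update ω e true) a := cu_eq (C1_ex he)
      rw [← h2, ← h3]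
      exact C1_up b

private lemma C1_not {ends : E → Sym2 V} {ω : E → Bool} {e : E} {a b x : V} (he : ends e = s(a, b)) (ha : x ∉ cu ends ω a) (hb : x ∉ cu ends ω b) :
    cu ends (Function.update ω e true) x = cu ends ω x := by
  apply Finset.Subset.antisymm
  · apply upd_cl_two
    rintro ⟨x', y, h1, h2, h3⟩
    rw [he] at h1
    rcases Sym2.eq_iff.1 h1 with ⟨h4, h5⟩ | ⟨h4, h5⟩
    · rw [← h4] at h2; exact ha (cu_symm.1 h2)
    · rw [← h5] at h2; exact hb (cu_symm.1 h2)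
  · exact C1_up x

private lemma C1_same {ends : E → Sym2 V} {ω : E → Bool} {e : E} {a b : V} (he : ends e = s(a, b)) (hb : b ∈ cu ends ω a) (x : V) :
    cu ends (Function.update ω e true) x = cu ends ω x := by
  apply Finset.Subset.antisymm
  · apply upd_cl_two
    rintro ⟨x', y, h1, h2, h3⟩
    rw [he] at h1
    apply h3
    rw [← cu_eq h2]
    rcases Sym2.eq_iff.1 h1 with ⟨h4, h5⟩ | ⟨h4, h5⟩
    · rw [← h4, ← h5]; exact hb
    · rw [← h4, ← h5]; exact cu_symm.1 hb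
  · exact C1_up x

private lemma C1_gh (h : ℝ) (j k : ℕ) : gh h (j + k) - gh h j = (1 - h) ^ j * gh h k := by
  unfold gh
  rw [pow_add]
  ring

open scoped Classical in
private lemma C1_edge {ends : E → Sym2 V} (h : ℝ) (ω : E → Bool) (e : E) :
    ∑ x, (if ω e = true then 0 else gh h (cu ends (Function.update ω e true) x).card - gh h (cu ends ω x).card) =
      ∑ u, ∑ v, (if ends e = s(u, v) ∧ v ∉ cu ends ω u then fh h (cu ends ω u).card * gh h (cu ends ω v).card else (0 : ℝ)) := by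
  obtain ⟨a, b, he⟩ : ∃ a b, ends e = s(a, b) := by
    induction ends e with
    | _ a b => exact ⟨a, b, rfl⟩
  by_cases hb : b ∈ cu ends ω a
  · rw [Finset.sum_eq_zero, Finset.sum_eq_zero]
    · intro u _
      apply Finset.sum_eq_zero
      intro v _
      rw [if_neg]
      rintro ⟨h1, h2⟩
      rw [he] at h1
      rcases Sym2.eq_iff.1 h1 with ⟨h4, h5⟩ | ⟨h4, h5⟩
      · rw [← h4, ← h5] at h2; exact h2 hb
      · rw [← h4, ← h5] at h2; exact h2 (cu_symm.1 hb)
    · intro x _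
      rw [C1_same he hb x]
      simp
  · have hω : ¬ ω e = true := by
      intro h1
      apply hb
      rw [mem_cu]
      exact Relation.ReflTransGen.single ⟨trivial, trivial, e, h1, he⟩
    have ha : a ∉ cu ends ω b := fun h1 => hb (cu_symm.1 h1)
    have hab : a ≠ b := by
      rintro rfl
      exact hb (self_mem_cu ω a)
    have hdis : Disjoint (cu ends ω a) (cu ends ω b) := by
      rw [Finset.disjoint_left]
      intro z hz hz2
      apply hb
      rw [← cu_eq hz, cu_eq hz2]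
      exact self_mem_cu ω b
    have hR : ∑ u, ∑ v, (if ends e = s(u, v) ∧ v ∉ cu ends ω u then fh h (cu ends ω u).card * gh h (cu ends ω v).card else (0 : ℝ)) =
        fh h (cu ends ω a).card * gh h (cu ends ω b).card + fh h (cu ends ω b).card * gh h (cu ends ω a).card := by
      have h1 : ∀ u v : V, (if ends e = s(u, v) ∧ v ∉ cu ends ω u then fh h (cu ends ω u).card * gh h (cu ends ω v).card else (0 : ℝ)) =
          (if u = a then (if v = b then fh h (cu ends ω a).card * gh h (cu ends ω b).card else 0) else 0) +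
          (if u = b then (if v = a then fh h (cu ends ω b).card * gh h (cu ends ω a).card else 0) else 0) := by
        intro u v
        by_cases hu : u = a
        · subst hu
          rw [if_pos rfl, if_neg hab, add_zero]
          by_cases hv : v = b
          · subst hv
            rw [if_pos ⟨he, hb⟩, if_pos rfl]
          · rw [if_neg hv, if_neg]
            rintro ⟨h1, -⟩
            rw [he] at h1
            rcases Sym2.eq_iff.1 h1 with ⟨h4, h5⟩ | ⟨h4, h5⟩
            · exact hv h5.symm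
            · exact hab h5.symm
        · rw [if_neg hu, zero_add]
          by_cases hu2 : u = b
          · subst hu2
            rw [if_pos rfl]
            by_cases hv : v = a
            · subst hv
              rw [if_pos ⟨by rw [he, Sym2.eq_swap], ha⟩, if_pos rfl]
            · rw [if_neg hv, if_neg]
              rintro ⟨h1, -⟩
              rw [he] at h1
              rcases Sym2.eq_iff.1 h1 with ⟨h4, h5⟩ | ⟨h4, h5⟩
              · exact hab h4
              · exact hv h4.symm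
          · rw [if_neg hu2, if_neg]
            rintro ⟨h1, -⟩
            rw [he] at h1
            rcases Sym2.eq_iff.1 h1 with ⟨h4, h5⟩ | ⟨h4, h5⟩
            · exact hu h4.symm
            · exact hu2 h5.symm
      simp only [h1, Finset.sum_add_distrib]
      rw [Finset.sum_comm]
      simp
    have hL : ∀ x, (if ω e = true then 0 else gh h (cu ends (Function.update ω e true) x).card - gh h (cu ends ω x).card) =
        (if x ∈ cu ends ω a then (1 - h) ^ (cu ends ω a).card * gh h (cu ends ω b).card else 0) +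
        (if x ∈ cu ends ω b then (1 - h) ^ (cu ends ω b).card * gh h (cu ends ω a).card else 0) := by
      intro x
      rw [if_neg hω]
      by_cases hxa : x ∈ cu ends ω a
      · rw [if_pos hxa, if_neg (Finset.disjoint_left.1 hdis hxa), add_zero, C1_mem he hxa, cu_eq hxa, Finset.card_union_of_disjoint hdis, C1_gh]
      · by_cases hxb : x ∈ cu ends ω b
        · rw [if_neg hxa, if_pos hxb, zero_add, C1_mem (he.trans Sym2.eq_swap) hxb, cu_eq hxb, Finset.card_union_of_disjoint hdis.symm, C1_gh]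
        · rw [if_neg hxa, if_neg hxb, C1_not he hxa hxb]
          simp
    rw [Finset.sum_congr rfl fun x _ => hL x, hR, Finset.sum_add_distrib, ← Finset.sum_filter, ← Finset.sum_filter]
    simp only [Finset.filter_mem_eq_inter, Finset.univ_inter, Finset.sum_const, nsmul_eq_mul]
    unfold fh
    ring

open scoped Classical in
private lemma C1_point {ends : E → Sym2 V} (hinj : Function.Injective ends) (h : ℝ) (ω : E → Bool) :
    ∑ x, ∑ e, (if ω e = true then 0 else gh h (cu ends (Function.update ω e true) x).card - gh h (cu ends ω x).card) =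
      ∑ u, ∑ v, (if (∃ e, ends e = s(u, v)) ∧ v ∉ cu ends ω u then fh h (cu ends ω u).card * gh h (cu ends ω v).card else (0 : ℝ)) := by
  rw [Finset.sum_comm, Finset.sum_congr rfl fun e _ => C1_edge h ω e, Finset.sum_comm]
  refine Finset.sum_congr rfl fun u _ => ?_
  rw [Finset.sum_comm]
  refine Finset.sum_congr rfl fun v _ => ?_
  by_cases hv : (∃ e, ends e = s(u, v)) ∧ v ∉ cu ends ω u
  · rw [if_pos hv]
    obtain ⟨⟨e, he⟩, h2⟩ := hv
    rw [Finset.sum_eq_single e]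
    · rw [if_pos ⟨he, h2⟩]
    · intro e' _ hne
      rw [if_neg]
      rintro ⟨h3, -⟩
      exact hne (hinj (h3.trans he.symm))
    · intro hh
      exact absurd (Finset.mem_univ _) hh
  · rw [if_neg hv]
    apply Finset.sum_eq_zero
    intro e _
    rw [if_neg]
    rintro ⟨h3, h4⟩
    exact hv ⟨⟨e, h3⟩, h4⟩

/-- Row C1. Russo's formula. `Ex_hasDerivAt` for `f ω = ∑_x gh h |cu ω x|`: closing the edge `e = (u,v)`: if `ω e = false` and `v ∉ cu ω u`: for `x ∈ cu ω u` the cluster becomes `cu ω u ∪ cu ω v`, and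
`gh (j+k) - gh j = (1-h)^j gh k`; sum over `x ∈ cu ω u`: `fh |cu ω u| gh |cu ω v|`; the same for `x ∈ cu ω v`. If `v ∈ cu ω u` nothing changes. An edge between `u` and `v ∉ cu ω u` is closed. So the sum over the closed edges is the sum over the ordered
pairs `(u, v)` with an edge between them and `v ∉ cu ω u` (`ends` is injective). -/
lemma russo {ends : E → Sym2 V} (hinj : Function.Injective ends) (p h : ℝ) (hp : p ≠ 1) :
    HasDerivAt (fun p : ℝ => ∑ x, Ex p (fun ω => gh h (cu ends ω x).card)) ((1 - p)⁻¹ * ∑ u, AA ends p h u) p := by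
  have h1 := HasDerivAt.fun_sum (u := (Finset.univ : Finset V)) (A := fun x (p : ℝ) => Ex p (fun ω => gh h (cu ends ω x).card)) (x := p)
    (fun x _ => Ex_hasDerivAt p (fun ω => gh h (cu ends ω x).card) hp)
  have h2 : (∑ x, (1 - p)⁻¹ * Ex p (fun ω => ∑ e, (if ω e = true then 0 else
      gh h (cu ends (Function.update ω e true) x).card - gh h (cu ends ω x).card))) = (1 - p)⁻¹ * ∑ u, AA ends p h u := by
    rw [← Finset.mul_sum]
    congr 1
    unfold AA
    rw [← Ex_sum, ← Ex_sum]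
    exact Ex_congr fun ω => C1_point hinj h ω
  rw [← h2]
  exact h1

/-- Row C1. Derivative of `1 - (1-h)^k` is `k (1-h)^(k-1)`, and `(1-h)⁻¹ fh h k` equals it for `h ≠ 1`. -/
lemma dgh {ends : E → Sym2 V} (p h : ℝ) (hh : h ≠ 1) :
    HasDerivAt (fun h : ℝ => ∑ x, Ex p (fun ω => gh h (cu ends ω x).card)) ((1 - h)⁻¹ * ∑ u, Ex p (fun ω => fh h (cu ends ω u).card)) h := by
  have hk : ∀ k : ℕ, HasDerivAt (fun h : ℝ => gh h k) ((1 - h)⁻¹ * fh h k) h := by
    intro k
    have h0 : (1 - h) ≠ 0 := sub_ne_zero.mpr (Ne.symm hh)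
    have h1 : HasDerivAt (fun h : ℝ => 1 - (1 - h) ^ k) (-((k : ℝ) * (1 - h) ^ (k - 1) * (-1))) h :=
      (((hasDerivAt_id h).const_sub 1).pow k).const_sub 1
    have h2 : -((k : ℝ) * (1 - h) ^ (k - 1) * (-1)) = (1 - h)⁻¹ * fh h k := by
      unfold fh
      cases k with
      | zero => simp
      | succ n =>
        rw [Nat.add_sub_cancel, pow_succ]
        field_simp
    rw [← h2]
    exact h1
  have h1 := HasDerivAt.fun_sum (u := (Finset.univ : Finset V)) (A := fun x (h : ℝ) => Ex p (fun ω => gh h (cu ends ω x).card))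
    (A' := fun x => Ex p (fun ω => (1 - h)⁻¹ * fh h (cu ends ω x).card)) (x := h) (fun x _ => by
      unfold Ex
      exact HasDerivAt.fun_sum fun ω _ => (hk _).const_mul _)
  have h2 : (∑ x, Ex p (fun ω => (1 - h)⁻¹ * fh h (cu ends ω x).card)) = (1 - h)⁻¹ * ∑ u, Ex p (fun ω => fh h (cu ends ω u).card) := by
    rw [Finset.mul_sum]
    exact Finset.sum_congr rfl fun x _ => Ex_mul_left _ _ _
  rw [← h2]
  exact h1

end gen

/-- The box average of the magnetisation and its derivatives. -/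
noncomputable def mB (d l : ℕ) (p h : ℝ) : ℝ := (∑ x : Fin d → Fin l, Ex p (fun ω => gh h (cu (gends (boxG d l)) ω x).card)) / (l : ℝ) ^ d

noncomputable def mP (d l : ℕ) (p h : ℝ) : ℝ := ((1 - p)⁻¹ * ∑ u : Fin d → Fin l, AA (gends (boxG d l)) p h u) / (l : ℝ) ^ d

noncomputable def mH (d l : ℕ) (p h : ℝ) : ℝ := ((1 - h)⁻¹ * ∑ u : Fin d → Fin l, Ex p (fun ω => fh h (cu (gends (boxG d l)) ω u).card)) / (l : ℝ) ^ d

private lemma C2_inj (d l : ℕ) : Function.Injective (gends (boxG d l)) := by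
  intro a b hab
  exact Subtype.ext hab

private lemma C2_Mh (d : ℕ) {p h : ℝ} (hp0 : 0 ≤ p) (hp1 : p ≤ 1) (h0 : 0 ≤ h) (h1 : h ≤ 1) : 0 ≤ Mh d p h :=
  (piF_nonneg (fun _ => (0 : Fin 1)) p h hp0 hp1 h0 h1 ∅ {0}).trans (Mh_ub (fun _ => (0 : Fin 1)) p h hp0 hp1 h0 h1)

/-- Row C2. `russo`. -/
lemma mB_p (d l : ℕ) (p h : ℝ) (hp : p ≠ 1) : HasDerivAt (fun p : ℝ => mB d l p h) (mP d l p h) p := by
  unfold mB mP
  exact (russo (C2_inj d l) p h hp).div_const _

lemma mB_h (d l : ℕ) (p h : ℝ) (hh : h ≠ 1) : HasDerivAt (fun h : ℝ => mB d l p h) (mH d l p h) h := by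
  unfold mB mH
  exact (dgh p h hh).div_const _

/-- Row C2. Every term is at most `Mh` (`Mh_ub`, `piF_one`). -/
lemma mB_ub (d l : ℕ) (p h : ℝ) (hp0 : 0 ≤ p) (hp1 : p ≤ 1) (h0 : 0 ≤ h) (h1 : h ≤ 1) : mB d l p h ≤ Mh d p h := by
  unfold mB
  have hM := C2_Mh d hp0 hp1 h0 h1
  refine div_le_of_le_mul₀ (by positivity) hM ?_
  have h2 : ∀ x ∈ (Finset.univ : Finset (Fin d → Fin l)), Ex p (fun ω => gh h (cu (gends (boxG d l)) ω x).card) ≤ Mh d p h := by
    intro x _
    rw [← piF_one]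
    exact Mh_ub x p h hp0 hp1 h0 h1
  refine (Finset.sum_le_card_nsmul _ _ _ h2).trans (le_of_eq ?_)
  rw [nsmul_eq_mul, Finset.card_univ, Fintype.card_fun, Fintype.card_fin, Fintype.card_fin, Nat.cast_pow, mul_comm]

lemma mB_nonneg (d l : ℕ) (p h : ℝ) (hp0 : 0 ≤ p) (hp1 : p ≤ 1) (h0 : 0 ≤ h) (h1 : h ≤ 1) : 0 ≤ mB d l p h := by
  unfold mB
  refine div_nonneg (Finset.sum_nonneg fun x _ => Ex_nonneg hp0 hp1 fun ω => gh_nonneg h0 h1 _) (by positivity)

lemma mH_nonneg (d l : ℕ) (p h : ℝ) (hp0 : 0 ≤ p) (hp1 : p ≤ 1) (h0 : 0 ≤ h) (h1 : h ≤ 1) : 0 ≤ mH d l p h := by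
  unfold mH
  refine div_nonneg (mul_nonneg (inv_nonneg.2 (by linarith)) (Finset.sum_nonneg fun x _ => Ex_nonneg hp0 hp1 fun ω => fh_nonneg h0 h1 _)) (by positivity)

/-- Row C3. Counting: the vertices of the box with `Dp x n` fail for at most `2 n d l^(d-1)` vertices. -/
lemma deep_count (d l n : ℕ) (hd : 1 ≤ d) (hl : 1 ≤ l) : (l : ℝ) ^ d - 2 * n * d * (l : ℝ) ^ (d - 1) ≤ ((Finset.univ.filter (fun x : Fin d → Fin l => ∀ i, n ≤ (x i : ℕ) ∧ (x i : ℕ) + n < l)).card : ℝ) := by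
  classical
  have hlR : (1 : ℝ) ≤ l := by exact_mod_cast hl
  have hl0 : (0 : ℝ) < l := by linarith
  obtain ⟨m, rfl⟩ : ∃ m, d = m + 1 := ⟨d - 1, by omega⟩
  have hset : (Finset.univ.filter (fun x : Fin (m + 1) → Fin l => ∀ i, n ≤ (x i : ℕ) ∧ (x i : ℕ) + n < l)) =
      Fintype.piFinset (fun _ : Fin (m + 1) => Finset.univ.filter (fun y : Fin l => n ≤ (y : ℕ) ∧ (y : ℕ) + n < l)) := by
    ext x
    simp [Fintype.mem_piFinset]
  have hcard : (Finset.univ.filter (fun x : Fin (m + 1) → Fin l => ∀ i, n ≤ (x i : ℕ) ∧ (x i : ℕ) + n < l)).card =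
      (Finset.univ.filter (fun y : Fin l => n ≤ (y : ℕ) ∧ (y : ℕ) + n < l)).card ^ (m + 1) := by
    rw [hset, Fintype.card_piFinset]
    simp
  have hone : l - 2 * n ≤ (Finset.univ.filter (fun y : Fin l => n ≤ (y : ℕ) ∧ (y : ℕ) + n < l)).card := by
    have h1 : (Finset.univ : Finset (Fin (l - 2 * n))).card ≤
        (Finset.univ.filter (fun y : Fin l => n ≤ (y : ℕ) ∧ (y : ℕ) + n < l)).card := by
      refine Finset.card_le_card_of_injOn (fun i => (⟨(i : ℕ) + n, by have := i.2; omega⟩ : Fin l)) ?_ ?_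
      · intro i _
        have := i.2
        simp only [Finset.coe_filter, Finset.mem_univ, true_and, Set.mem_ofPred_eq]
        constructor <;> omega
      · intro i _ j _ hij
        have h2 := congrArg Fin.val hij
        simp only at h2
        exact Fin.ext (by omega)
    simpa using h1
  rw [hcard]
  push_cast
  by_cases h2n : 2 * n ≤ l
  · have hR : (2 * (n : ℝ)) ≤ l := by exact_mod_cast h2n
    have h3 : (l : ℝ) - 2 * n ≤ ((Finset.univ.filter (fun y : Fin l => n ≤ (y : ℕ) ∧ (y : ℕ) + n < l)).card : ℝ) := by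
      have h4 : ((l - 2 * n : ℕ) : ℝ) ≤ ((Finset.univ.filter (fun y : Fin l => n ≤ (y : ℕ) ∧ (y : ℕ) + n < l)).card : ℝ) := by
        exact_mod_cast hone
      rw [Nat.cast_sub h2n] at h4
      push_cast at h4
      exact h4
    have h5 : ((l : ℝ) - 2 * n) ^ (m + 1) ≤ ((Finset.univ.filter (fun y : Fin l => n ≤ (y : ℕ) ∧ (y : ℕ) + n < l)).card : ℝ) ^ (m + 1) :=
      pow_le_pow_left₀ (by linarith) h3 _
    refine le_trans ?_ h5
    have ha : (-2 : ℝ) ≤ -(2 * n / l) := by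
      have : 2 * (n : ℝ) / l ≤ 1 := by
        rw [div_le_one hl0]
        exact hR
      linarith
    have h6 := one_add_mul_le_pow ha (m + 1)
    have h7 : ((l : ℝ) - 2 * n) = l * (1 + -(2 * n / l)) := by
      field_simp
      ring
    rw [h7, mul_pow]
    have h8 : (l : ℝ) ^ (m + 1) - 2 * n * ((m : ℝ) + 1) * (l : ℝ) ^ m = (l : ℝ) ^ (m + 1) * (1 + ((m + 1 : ℕ) : ℝ) * -(2 * n / l)) := by
      rw [pow_succ]
      push_cast
      field_simp
      ring
    rw [h8]
    exact mul_le_mul_of_nonneg_left h6 (by positivity)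
  · rw [not_le] at h2n
    have hR : (l : ℝ) < 2 * n := by exact_mod_cast h2n
    have h9 : (l : ℝ) ^ (m + 1) - 2 * n * ((m : ℝ) + 1) * (l : ℝ) ^ m ≤ 0 := by
      rw [pow_succ]
      have h10 : 0 < (l : ℝ) ^ m := by positivity
      have h11 : (0 : ℝ) ≤ m := Nat.cast_nonneg m
      have h12 : (0 : ℝ) ≤ n := Nat.cast_nonneg n
      linarith [mul_nonneg (mul_nonneg h12 h11) h10.le, mul_lt_mul_of_pos_left hR h10]
    exact le_trans h9 (by positivity)

private lemma C3_exp {h c' η' M : ℝ} (n : ℕ) (hh : 0 < h) (hh2 : h ≤ 1 / 2) (_hc' : 0 < c') (hη'0 : 0 < η') (hha : h ≤ η' * c' / 12)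
    (hn2 : 1 / h ^ 2 < (n : ℝ) + 1) (hM : c' * Real.sqrt h ≤ M) : (1 - h) ^ n ≤ η' / 2 * M := by
  have hsq : 0 < Real.sqrt h := Real.sqrt_pos.mpr hh
  have hhs : h ≤ Real.sqrt h := by
    rw [Real.le_sqrt hh.le hh.le]
    nlinarith
  have h1 : (1 - h) ^ n ≤ Real.exp (-h) ^ n := pow_le_pow_left₀ (by linarith) (Real.one_sub_le_exp_neg h) n
  rw [← Real.exp_nat_mul] at h1
  have h2 : (n : ℝ) * -h ≤ 1 - 1 / h := by
    have h3 : (1 / h ^ 2 - 1) * h ≤ (n : ℝ) * h := mul_le_mul_of_nonneg_right (by linarith) hh.le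
    have h4 : (1 / h ^ 2 - 1) * h = 1 / h - h := by
      field_simp
    rw [h4] at h3
    linarith
  have h5 : (1 - h) ^ n ≤ Real.exp (1 - 1 / h) := h1.trans (Real.exp_le_exp.mpr h2)
  have h6 : Real.exp (1 - 1 / h) = Real.exp 1 / Real.exp (1 / h) := by rw [Real.exp_sub]
  have h7 : (1 / h) ^ 2 / 2 ≤ Real.exp (1 / h) := by
    have := Real.quadratic_le_exp_of_nonneg (show 0 ≤ 1 / h by positivity)
    have h8 : 0 ≤ 1 / h := by positivity
    linarith
  have h9 : Real.exp 1 ≤ 3 := by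
    have := Real.exp_one_lt_d9
    linarith
  have h10 : Real.exp (1 - 1 / h) ≤ 6 * h ^ 2 := by
    rw [h6, div_le_iff₀ (Real.exp_pos _)]
    have h11 : 6 * h ^ 2 * ((1 / h) ^ 2 / 2) ≤ 6 * h ^ 2 * Real.exp (1 / h) :=
      mul_le_mul_of_nonneg_left h7 (by positivity)
    have h12 : 6 * h ^ 2 * ((1 / h) ^ 2 / 2) = 3 := by
      field_simp
      norm_num
    linarith
  have h13 : 6 * h ^ 2 ≤ η' / 2 * (c' * Real.sqrt h) := by
    have h14 : 6 * h ^ 2 ≤ 6 * (h * Real.sqrt h) := by nlinarith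
    have h15 : 6 * (h * Real.sqrt h) ≤ 6 * (η' * c' / 12 * Real.sqrt h) := by
      have := mul_le_mul_of_nonneg_right hha hsq.le
      linarith
    have h16 : 6 * (η' * c' / 12 * Real.sqrt h) = η' / 2 * (c' * Real.sqrt h) := by ring
    linarith
  have h17 : η' / 2 * (c' * Real.sqrt h) ≤ η' / 2 * M := mul_le_mul_of_nonneg_left hM (by positivity)
  linarith

private lemma C3_x {h η' : ℝ} (n d l : ℕ) (hd : 1 ≤ d) (hh : 0 < h) (hh2 : h ≤ 1 / 2) (hη'0 : 0 < η') (hhb : h ≤ η' / (4 * d))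
    (hn1 : (n : ℝ) ≤ 1 / h ^ 2) (hl : 1 / h ^ 5 ≤ (l : ℝ)) (hl0 : (0 : ℝ) < l) : 2 * n * d / l ≤ η' / 2 := by
  have hdR : (1 : ℝ) ≤ d := by exact_mod_cast hd
  rw [div_le_iff₀ hl0]
  have h1 : 2 * (n : ℝ) * d ≤ 2 * (1 / h ^ 2) * d := by
    have := mul_le_mul_of_nonneg_right hn1 (show (0 : ℝ) ≤ d by positivity)
    linarith
  have h2 : η' / 2 * (1 / h ^ 5) ≤ η' / 2 * (l : ℝ) := mul_le_mul_of_nonneg_left hl (by positivity)
  have h3 : 2 * (1 / h ^ 2) * (d : ℝ) ≤ η' / 2 * (1 / h ^ 5) := by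
    have h4 : h * (4 * d) ≤ η' := by
      rwa [le_div_iff₀ (by positivity)] at hhb
    have h5 : 2 * (1 / h ^ 2) * (d : ℝ) = (2 * d * h ^ 3) * (1 / h ^ 5) := by
      field_simp
    rw [h5]
    refine mul_le_mul_of_nonneg_right ?_ (by positivity)
    have h6 : h ^ 3 ≤ h := by
      have h8 : h ^ 3 = h * h ^ 2 := by ring
      rw [h8]
      have h7 : h ^ 2 ≤ 1 := by nlinarith
      nlinarith
    have h9 : 2 * (d : ℝ) * h ^ 3 ≤ 2 * d * h := mul_le_mul_of_nonneg_left h6 (by positivity)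
    linarith
  linarith

/-- Row C3. For `l ≥ h^(-5)` the average is nearly `Mh`: the vertices with `Dp x n`, `n = ⌊1/h^2⌋`, have `piF ≥ Mh - (1-h)^n ≥ Mh - e^(1 - 1/h)`, the others are at most `2 n d / l ≤ 2 d h^3` of all; `Mh ≥ c' √h`. -/
lemma mB_Mh {d : ℕ} {C c e pc : ℝ} (ht : HT d C c e pc) (η : ℝ) (hη : 0 < η) : ∃ h0 : ℝ, 0 < h0 ∧ ∀ (p h : ℝ) (l : ℕ), pc ≤ p → p ≤ pc + e → 0 < h → h ≤ h0 → 1 / h ^ 5 ≤ (l : ℝ) →
    (1 - η) * Mh d p h ≤ mB d l p h := by
  classical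
  obtain ⟨c', hc', hlow⟩ := Mh_low ht
  have hd : 1 ≤ d := by have := ht.hp.d11; omega
  have hdR : (1 : ℝ) ≤ d := by exact_mod_cast hd
  set η' : ℝ := min η 1 with hη'
  have hη'0 : 0 < η' := lt_min hη one_pos
  have hη'1 : η' ≤ 1 := min_le_right _ _
  have hη'η : η' ≤ η := min_le_left _ _
  refine ⟨min (1 / 2) (min (η' * c' / 12) (η' / (4 * d))), by positivity, fun p h l hpc hpe hh hh0 hl => ?_⟩
  have hh2 : h ≤ 1 / 2 := hh0.trans (min_le_left _ _)
  have hha : h ≤ η' * c' / 12 := hh0.trans ((min_le_right _ _).trans (min_le_left _ _))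
  have hhb : h ≤ η' / (4 * d) := hh0.trans ((min_le_right _ _).trans (min_le_right _ _))
  have hh1 : h ≤ 1 := by linarith
  have hp0 : 0 ≤ p := le_trans ht.hp.p0.le hpc
  have hp1 : p ≤ 1 := by have := ht.e1; linarith
  have hM : c' * Real.sqrt h ≤ Mh d p h := hlow p h hpc hp1 hh (by linarith)
  have hsq : 0 < Real.sqrt h := Real.sqrt_pos.mpr hh
  have hM0 : 0 < Mh d p h := lt_of_lt_of_le (by positivity) hM
  have hl0 : (0 : ℝ) < l := lt_of_lt_of_le (by positivity) hl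
  have hln : 1 ≤ l := by exact_mod_cast hl0
  set n : ℕ := ⌊1 / h ^ 2⌋₊ with hn
  have hn1 : (n : ℝ) ≤ 1 / h ^ 2 := Nat.floor_le (by positivity)
  have hn2 : 1 / h ^ 2 < (n : ℝ) + 1 := Nat.lt_floor_add_one _
  set q : ℝ := (1 - h) ^ n with hq
  have hq0 : 0 ≤ q := by
    rw [hq]
    exact pow_nonneg (by linarith) _
  have hqM : q ≤ η' / 2 * Mh d p h := C3_exp n hh hh2 hc' hη'0 hha hn2 hM
  set x : ℝ := 2 * n * d / l with hx
  have hx0 : 0 ≤ x := by positivity
  have hxη : x ≤ η' / 2 := C3_x n d l hd hh hh2 hη'0 hhb hn1 hl hl0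
  have hcount := deep_count d l n hd hln
  set S := (Finset.univ.filter (fun x : Fin d → Fin l => ∀ i, n ≤ (x i : ℕ) ∧ (x i : ℕ) + n < l)) with hS
  have hterm : ∀ y ∈ S, Mh d p h - q ≤ Ex p (fun ω => gh h (cu (gends (boxG d l)) ω y).card) := by
    intro y hy
    have hDp : Dp y n := (Finset.mem_filter.mp hy).2
    have := deep_pi y n hDp p h hp0 hp1 hh.le hh1
    rw [piF_one] at this
    exact this
  have hsum : (S.card : ℝ) * (Mh d p h - q) ≤ ∑ y : Fin d → Fin l, Ex p (fun ω => gh h (cu (gends (boxG d l)) ω y).card) := by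
    calc (S.card : ℝ) * (Mh d p h - q) = ∑ y ∈ S, (Mh d p h - q) := by rw [Finset.sum_const, nsmul_eq_mul]
      _ ≤ ∑ y ∈ S, Ex p (fun ω => gh h (cu (gends (boxG d l)) ω y).card) := Finset.sum_le_sum hterm
      _ ≤ _ := Finset.sum_le_sum_of_subset_of_nonneg (Finset.subset_univ _)
          (fun y _ _ => Ex_nonneg hp0 hp1 fun ω => gh_nonneg hh.le hh1 _)
  have hMq : 0 ≤ Mh d p h - q := by nlinarith
  have hld : (0 : ℝ) < (l : ℝ) ^ d := by positivity
  have hx' : (l : ℝ) ^ d - 2 * n * d * (l : ℝ) ^ (d - 1) = (l : ℝ) ^ d * (1 - x) := by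
    obtain ⟨m, hm⟩ : ∃ m, d = m + 1 := ⟨d - 1, by omega⟩
    have h1 : (l : ℝ) ^ d = (l : ℝ) ^ (d - 1) * l := by
      rw [← pow_succ]
      congr 1
      omega
    rw [h1, hx]
    field_simp
  rw [hx'] at hcount
  have hfin : (1 - x) * (Mh d p h - q) ≤ mB d l p h := by
    unfold mB
    rw [le_div_iff₀ hld]
    calc (1 - x) * (Mh d p h - q) * (l : ℝ) ^ d = (l : ℝ) ^ d * (1 - x) * (Mh d p h - q) := by ring
      _ ≤ (S.card : ℝ) * (Mh d p h - q) := mul_le_mul_of_nonneg_right hcount hMq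
      _ ≤ _ := hsum
  have h1 : (1 - η') * Mh d p h ≤ (1 - x) * (Mh d p h - q) := by
    have h2 : x * Mh d p h ≤ η' / 2 * Mh d p h := mul_le_mul_of_nonneg_right hxη hM0.le
    have h3 : 0 ≤ x * q := mul_nonneg hx0 hq0
    linarith
  have h4 : (1 - η) * Mh d p h ≤ (1 - η') * Mh d p h := mul_le_mul_of_nonneg_right (by linarith) hM0.le
  linarith

/-- Row C4, numbers. -/
private lemma C4_num {h : ℝ} {d n l : ℝ} (hh : 0 < h) (h1 : h ≤ 1) (hd : 0 < d) (hC : h ≤ 1 / (4 * d)) (hn : n ≤ 1 / h ^ 2) (hl : 1 / h ^ 5 ≤ l) :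
    2 * n * d ≤ l / 2 := by
  have e2 : 2 * n * d ≤ 2 * (1 / h ^ 2) * d := by
    have : n * d ≤ (1 / h ^ 2) * d := mul_le_mul_of_nonneg_right hn hd.le
    linarith
  have e4 : 4 * d * h ≤ 1 := by
    rw [le_div_iff₀ (by positivity)] at hC
    linarith [mul_comm h (4 * d)]
  have h3 : h ^ 3 ≤ h := by
    calc h ^ 3 = h ^ 2 * h := by ring
      _ ≤ 1 * h := mul_le_mul_of_nonneg_right (pow_le_one₀ hh.le h1) hh.le
      _ = h := one_mul h
  have e5 : 4 * d * h ^ 3 ≤ 1 := by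
    have : 4 * d * h ^ 3 ≤ 4 * d * h := mul_le_mul_of_nonneg_left h3 (by positivity)
    linarith
  have e7 : (0 : ℝ) ≤ 1 / h ^ 5 / 2 := by positivity
  have e3 : 2 * (1 / h ^ 2) * d ≤ 1 / h ^ 5 / 2 := by
    have e6 : 2 * (1 / h ^ 2) * d = (4 * d * h ^ 3) * (1 / h ^ 5 / 2) := by
      field_simp
      ring
    rw [e6]
    calc (4 * d * h ^ 3) * (1 / h ^ 5 / 2) ≤ 1 * (1 / h ^ 5 / 2) := mul_le_mul_of_nonneg_right e5 e7
      _ = 1 / h ^ 5 / 2 := one_mul _
  linarith

/-- Row C4, counting. -/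
private lemma C4_half {d n l : ℕ} {c : ℝ} (hd : 1 ≤ d) (hk : 2 * (n : ℝ) * d ≤ (l : ℝ) / 2) (hc : (l : ℝ) ^ d - 2 * n * d * (l : ℝ) ^ (d - 1) ≤ c) :
    (l : ℝ) ^ d / 2 ≤ c := by
  have hld : (l : ℝ) ^ d = (l : ℝ) ^ (d - 1) * (l : ℝ) := by
    rw [← pow_succ]
    congr 1
    omega
  have hpw : (0 : ℝ) ≤ (l : ℝ) ^ (d - 1) := by positivity
  have h1 : 2 * (n : ℝ) * d * (l : ℝ) ^ (d - 1) ≤ (l : ℝ) / 2 * (l : ℝ) ^ (d - 1) := mul_le_mul_of_nonneg_right hk hpw
  have h2 : (l : ℝ) / 2 * (l : ℝ) ^ (d - 1) = (l : ℝ) ^ d / 2 := by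
    rw [hld]
    ring
  linarith

/-- Row C4, the lower bound. -/
private lemma C4_low {d : ℕ} {c' δ pc p h : ℝ} {l : ℕ} (hd1 : 1 ≤ d) (hc' : 0 < c') (hh : 0 < h) (h1 : h ≤ 1 / 2) (hC : h ≤ 1 / (4 * (d : ℝ))) (hp0 : 0 ≤ p) (hp1 : p ≤ 1) (hp : pc ≤ p)
    (hpb : p ≤ pc + Real.sqrt (h / δ)) (hl : 1 / h ^ 5 ≤ (l : ℝ)) (hl1 : 1 ≤ l)
    (hlow : ∀ u : Fin d → Fin l, Rg d pc δ l u p h → c' / Real.sqrt h ≤ sgF l u p h ∅ {0}) :
    c' / 2 / Real.sqrt h ≤ mH d l p h := by
  have hlpos : (0 : ℝ) < (l : ℝ) := by exact_mod_cast hl1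
  have hdpos : (0 : ℝ) < (d : ℝ) := by exact_mod_cast hd1
  have hldpos : (0 : ℝ) < (l : ℝ) ^ d := pow_pos hlpos d
  have h11 : h ≤ 1 := by linarith
  have h1h : 0 < 1 - h := by linarith
  have hinv1 : 1 ≤ (1 - h)⁻¹ := by
    rw [one_le_inv₀ h1h]
    linarith
  set n : ℕ := ⌊1 / h ^ 2⌋₊ with hn
  have hnle : (n : ℝ) ≤ 1 / h ^ 2 := Nat.floor_le (by positivity)
  have hsq : 0 < Real.sqrt h := Real.sqrt_pos.mpr hh
  have hcs : 0 < c' / Real.sqrt h := div_pos hc' hsq
  have hhalf := C4_half hd1 (C4_num hh h11 hdpos hC hnle hl) (deep_count d l n hd1 hl1)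
  have hterm : ∀ u ∈ Finset.univ.filter (fun x : Fin d → Fin l => ∀ i, n ≤ (x i : ℕ) ∧ (x i : ℕ) + n < l),
      c' / Real.sqrt h ≤ Ex p (fun ω => fh h (cu (gends (boxG d l)) ω u).card) := by
    intro u hu
    rw [Finset.mem_filter] at hu
    have hR : Rg d pc δ l u p h := by
      refine ⟨hh, by linarith, hp, hpb, ?_⟩
      intro m hm i
      have hmn : m ≤ n := Nat.le_floor hm
      have := hu.2 i
      omega
    have := hlow u hR
    rwa [sgF_one] at this
  have hnn : ∀ u : Fin d → Fin l, 0 ≤ Ex p (fun ω => fh h (cu (gends (boxG d l)) ω u).card) := by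
    intro u
    have := sgF_nonneg (d := d) (l := l) u p h hp0 hp1 hh.le h11 ∅ {0}
    rwa [sgF_one] at this
  have hs0 : 0 ≤ ∑ u : Fin d → Fin l, Ex p (fun ω => fh h (cu (gends (boxG d l)) ω u).card) :=
    Finset.sum_nonneg (fun u _ => hnn u)
  have hsum1 : ((Finset.univ.filter (fun x : Fin d → Fin l => ∀ i, n ≤ (x i : ℕ) ∧ (x i : ℕ) + n < l)).card : ℝ) * (c' / Real.sqrt h) ≤
      ∑ u : Fin d → Fin l, Ex p (fun ω => fh h (cu (gends (boxG d l)) ω u).card) := by
    rw [← nsmul_eq_mul, ← Finset.sum_const]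
    exact (Finset.sum_le_sum hterm).trans (Finset.sum_le_sum_of_subset_of_nonneg (Finset.subset_univ _) (fun u _ _ => hnn u))
  have hfin : (l : ℝ) ^ d / 2 * (c' / Real.sqrt h) ≤ (1 - h)⁻¹ * ∑ u : Fin d → Fin l, Ex p (fun ω => fh h (cu (gends (boxG d l)) ω u).card) := by
    refine (mul_le_mul_of_nonneg_right hhalf hcs.le).trans (hsum1.trans ?_)
    exact le_mul_of_one_le_left hs0 hinv1
  show c' / 2 / Real.sqrt h ≤ ((1 - h)⁻¹ * ∑ u : Fin d → Fin l, Ex p (fun ω => fh h (cu (gends (boxG d l)) ω u).card)) / (l : ℝ) ^ d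
  generalize (1 - h)⁻¹ * ∑ u : Fin d → Fin l, Ex p (fun ω => fh h (cu (gends (boxG d l)) ω u).card) = X at hfin ⊢
  rw [le_div_iff₀ hldpos]
  calc c' / 2 / Real.sqrt h * (l : ℝ) ^ d = (l : ℝ) ^ d / 2 * (c' / Real.sqrt h) := by ring
    _ ≤ X := hfin

/-- Row C4, the upper bound. -/
private lemma C4_up {d : ℕ} {p h : ℝ} {l : ℕ} (hh : 0 < h) (h1 : h ≤ 1 / 2) (hp0 : 0 ≤ p) (hp1 : p ≤ 1) : h * mH d l p h ≤ 2 * mB d l p h := by
  have h11 : h ≤ 1 := by linarith
  have h1h : 0 < 1 - h := by linarith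
  have hinv2 : (1 - h)⁻¹ ≤ 2 := by
    rw [inv_le_comm₀ h1h (by norm_num)]
    linarith
  have hinvpos : 0 < (1 - h)⁻¹ := inv_pos.mpr h1h
  have hle : ∀ u : Fin d → Fin l, h * Ex p (fun ω => fh h (cu (gends (boxG d l)) ω u).card) ≤ Ex p (fun ω => gh h (cu (gends (boxG d l)) ω u).card) := by
    intro u
    have := sg_pi (d := d) (l := l) u p h hp0 hp1 hh h11 ∅ {0}
    rw [sgF_one, piF_one, le_div_iff₀ hh, mul_comm] at this
    exact this
  have hsum : h * ∑ u : Fin d → Fin l, Ex p (fun ω => fh h (cu (gends (boxG d l)) ω u).card) ≤ ∑ u : Fin d → Fin l, Ex p (fun ω => gh h (cu (gends (boxG d l)) ω u).card) := by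
    rw [Finset.mul_sum]
    exact Finset.sum_le_sum (fun u _ => hle u)
  have hgnn : 0 ≤ ∑ u : Fin d → Fin l, Ex p (fun ω => gh h (cu (gends (boxG d l)) ω u).card) := by
    refine Finset.sum_nonneg (fun u _ => ?_)
    have := piF_nonneg (d := d) (l := l) u p h hp0 hp1 hh.le h11 ∅ {0}
    rwa [piF_one] at this
  have hlnn : (0 : ℝ) ≤ (l : ℝ) ^ d := by positivity
  show h * (((1 - h)⁻¹ * ∑ u : Fin d → Fin l, Ex p (fun ω => fh h (cu (gends (boxG d l)) ω u).card)) / (l : ℝ) ^ d) ≤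
    2 * ((∑ x : Fin d → Fin l, Ex p (fun ω => gh h (cu (gends (boxG d l)) ω x).card)) / (l : ℝ) ^ d)
  generalize (∑ u : Fin d → Fin l, Ex p (fun ω => fh h (cu (gends (boxG d l)) ω u).card)) = X at hsum ⊢
  generalize (∑ u : Fin d → Fin l, Ex p (fun ω => gh h (cu (gends (boxG d l)) ω u).card)) = Y at hsum hgnn ⊢
  rw [← mul_div_assoc, ← mul_div_assoc]
  apply div_le_div_of_nonneg_right _ hlnn
  calc h * ((1 - h)⁻¹ * X) = (1 - h)⁻¹ * (h * X) := by ring
    _ ≤ (1 - h)⁻¹ * Y := mul_le_mul_of_nonneg_left hsum hinvpos.le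
    _ ≤ 2 * Y := mul_le_mul_of_nonneg_right hinv2 hgnn

/-- Row C4. Sizes in the region: `mH` is at least `c'/√h` (`sg_low` for the deep vertices, at least half of all), at most `1/h` times `mB`-like: `h mH ≤ 2 mB` (`fh_le`). -/
lemma mH_size {d : ℕ} {C c e pc : ℝ} (ht : HT d C c e pc) (δ : ℝ) (hδ : 0 < δ) (hδ1 : δ ≤ 1) : ∃ c' h0 : ℝ, 0 < c' ∧ 0 < h0 ∧ ∀ (p h : ℝ) (l : ℕ), pc ≤ p → p ≤ pc + Real.sqrt (h / δ) → 0 < h → h ≤ h0 → 1 / h ^ 5 ≤ (l : ℝ) →
    c' / Real.sqrt h ≤ mH d l p h ∧ h * mH d l p h ≤ 2 * mB d l p h := by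
  obtain ⟨c', h0, hc', hh0, hlow⟩ := sg_low ht δ hδ hδ1
  have hd11 : 11 ≤ d := ht.hp.d11
  have hd1 : 1 ≤ d := by omega
  have hdpos : (0 : ℝ) < (d : ℝ) := by exact_mod_cast hd1
  have hpc1 : pc < 1 := ht.hp.p1
  have hpc0 : 0 < pc := ht.hp.p0
  have hq : 0 < δ * (1 - pc) ^ 2 := mul_pos hδ (pow_pos (by linarith) 2)
  refine ⟨c' / 2, min (min h0 (1 / 2)) (min (1 / (4 * (d : ℝ))) (δ * (1 - pc) ^ 2)), by positivity, ?_, ?_⟩
  · exact lt_min (lt_min hh0 (by norm_num)) (lt_min (by positivity) hq)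
  intro p h l hp hpb hh hhle hl
  have hA : h ≤ h0 := hhle.trans ((min_le_left _ _).trans (min_le_left _ _))
  have hB : h ≤ 1 / 2 := hhle.trans ((min_le_left _ _).trans (min_le_right _ _))
  have hC : h ≤ 1 / (4 * (d : ℝ)) := hhle.trans ((min_le_right _ _).trans (min_le_left _ _))
  have hD : h ≤ δ * (1 - pc) ^ 2 := hhle.trans ((min_le_right _ _).trans (min_le_right _ _))
  have hp0 : 0 ≤ p := by linarith
  have hp1 : p ≤ 1 := by
    have : Real.sqrt (h / δ) ≤ 1 - pc := by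
      rw [show (1 - pc) = Real.sqrt ((1 - pc) ^ 2) from (Real.sqrt_sq (by linarith)).symm]
      apply Real.sqrt_le_sqrt
      rw [div_le_iff₀ hδ]
      linarith [mul_comm δ ((1 - pc) ^ 2)]
    linarith
  have h5 : (0 : ℝ) < 1 / h ^ 5 := by positivity
  have hlpos : (0 : ℝ) < (l : ℝ) := lt_of_lt_of_le h5 hl
  have hl1 : 1 ≤ l := by
    have : 0 < l := by exact_mod_cast hlpos
    omega
  exact ⟨C4_low hd1 hc' hh hB hC hp0 hp1 hp hpb hl hl1 (fun u hR => hlow l u p h hR hA), C4_up hh hB hp0 hp1⟩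

end Pool.Agent.PERC29.DZ
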