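import Pool.Agent.Lib.MP_29e17e_pr.V.Bg
import Pool.Agent.Lib.MP_29e17e_pr.Y.Ar
import Pool.Agent.Lib.MP_29e17e_pr.Z.Cs

namespace Pool.Agent.PERC29
end Pool.Agent.PERC29
namespace Pool.Agent.PERC29.AE
end Pool.Agent.PERC29.AE

set_option autoImplicit false
set_option linter.unusedSectionVars false

/-! Rows 29s-S9, S10a, S10b, S11: the hypotheses above `p_c` from those at `p_c`. -/

open Finset Filter Topology

namespace Pool.Agent.PERC29.DZ

open Pool.Agent.PERC29 Pool.Agent.PERC29.AE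

/-- The second moment of a cluster from the tree graph inequality. -/
private lemma S9_second {V : Type*} [Fintype V] [DecidableEq V] {E : Type*} [Fintype E] [DecidableEq E]
    {ends : E → Sym2 V} {p M : ℝ} (h0 : 0 ≤ p) (h1 : p ≤ 1)
    (hM : ∀ x, Ex p (fun ω => cz ends ω x) ≤ M) (x : V) :
    Ex p (fun ω => cz ends ω x ^ 2) ≤ M ^ 3 := by
  have hM0 : 0 ≤ M := (Ex_nonneg h0 h1 fun ω => by unfold cz; positivity).trans (hM x)
  have e1 : Ex p (fun ω => cz ends ω x ^ 2) = ∑ u, ∑ v, Ex p (fun ω =>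
      (if u ∈ cu ends ω x then (1 : ℝ) else 0) * (if v ∈ cu ends ω x then 1 else 0)) := by
    rw [← Finset.sum_congr rfl fun u _ => Ex_sum Finset.univ p (fun v ω =>
      (if u ∈ cu ends ω x then (1 : ℝ) else 0) * (if v ∈ cu ends ω x then 1 else 0))]
    rw [← Ex_sum]
    apply Ex_congr
    intro ω
    have e2 : cz ends ω x = ∑ u, (if u ∈ cu ends ω x then (1 : ℝ) else 0) := by
      unfold cz
      simp
    rw [e2, sq, Finset.sum_mul_sum]
  have e3 : ∑ u, ∑ v, Ex p (fun ω =>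
      (if u ∈ cu ends ω x then (1 : ℝ) else 0) * (if v ∈ cu ends ω x then 1 else 0)) ≤
      ∑ u, ∑ v, ∑ z, ta ends p x z * (ta ends p z u * ta ends p z v) :=
    Finset.sum_le_sum fun u _ => Finset.sum_le_sum fun v _ => tree_graph h0 h1 x u v
  have e4 : ∑ u, ∑ v, ∑ z, ta ends p x z * (ta ends p z u * ta ends p z v) =
      ∑ z, ta ends p x z * ((∑ u, ta ends p z u) * ∑ v, ta ends p z v) := by
    calc ∑ u, ∑ v, ∑ z, ta ends p x z * (ta ends p z u * ta ends p z v) =
        ∑ u, ∑ z, ∑ v, ta ends p x z * (ta ends p z u * ta ends p z v) :=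
          Finset.sum_congr rfl fun u _ => Finset.sum_comm
      _ = ∑ z, ∑ u, ∑ v, ta ends p x z * (ta ends p z u * ta ends p z v) := Finset.sum_comm
      _ = _ := by
          refine Finset.sum_congr rfl fun z _ => ?_
          rw [Finset.sum_mul_sum, Finset.mul_sum]
          exact Finset.sum_congr rfl fun u _ => by rw [Finset.mul_sum]
  have e5 : ∀ z, ∑ u, ta ends p z u ≤ M := fun z => by rw [ta_sum]; exact hM z
  have e6 : ∀ z, 0 ≤ ∑ u, ta ends p z u := fun z => Finset.sum_nonneg fun u _ => ta_nonneg h0 h1 z u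
  rw [e1]
  refine e3.trans ?_
  rw [e4]
  calc ∑ z, ta ends p x z * ((∑ u, ta ends p z u) * ∑ v, ta ends p z v) ≤
      ∑ z, ta ends p x z * (M * M) := by
        refine Finset.sum_le_sum fun z _ => mul_le_mul_of_nonneg_left ?_ (ta_nonneg h0 h1 x z)
        exact mul_le_mul (e5 z) (e5 z) (e6 z) hM0
    _ = (∑ z, ta ends p x z) * (M * M) := by rw [Finset.sum_mul]
    _ ≤ M * (M * M) := mul_le_mul_of_nonneg_right (e5 x) (by positivity)
    _ = M ^ 3 := by ring

/-- The second moment argument. -/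
private lemma S9_gen {V : Type*} [Fintype V] [DecidableEq V] {E : Type*} [Fintype E] [DecidableEq E]
    {ends : E → Sym2 V} {p M C a b X : ℝ} (h0 : 0 ≤ p) (h1 : p ≤ 1) (hC : 0 ≤ C) (ha : 1 ≤ a) (hb : 0 < b)
    (hM : ∀ x, Ex p (fun ω => cz ends ω x) ≤ M) (x : V)
    (hX : X ≤ Ex p (fun ω => cz ends ω x))
    (hT : ∀ k : ℕ, 1 ≤ k → Ex p (fun ω => open scoped Classical in if (k : ℝ) ≤ cz ends ω x then (1 : ℝ) else 0) ≤
      C / Real.sqrt k) :
    X - 3 * C * Real.sqrt a - M ^ 3 / b ≤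
      b * Ex p (fun ω => open scoped Classical in if a ≤ cz ends ω x then (1 : ℝ) else 0) := by
  classical
  have hmin := min_tail (ends := ends) h0 h1 hC x (by
    intro k hk
    refine le_trans (le_of_eq ?_) (hT k hk)
    apply Ex_congr
    intro ω
    split_ifs <;> rfl) ha
  have hsec := S9_second (ends := ends) h0 h1 hM x
  have hpt : ∀ ω : E → Bool, cz ends ω x ≤ (min (cz ends ω x) a +
      b * (if a ≤ cz ends ω x then (1 : ℝ) else 0)) + 1 / b * cz ends ω x ^ 2 := by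
    intro ω
    have hc : 0 ≤ cz ends ω x := by unfold cz; positivity
    have hs : 0 ≤ 1 / b * cz ends ω x ^ 2 := by positivity
    by_cases h : a ≤ cz ends ω x
    · rw [if_pos h, min_eq_right h]
      by_cases h' : cz ends ω x ≤ b
      · linarith
      · have h3 : cz ends ω x ≤ 1 / b * cz ends ω x ^ 2 := by
          rw [one_div, inv_mul_eq_div, le_div_iff₀ hb]
          nlinarith
        linarith
    · rw [if_neg h, min_eq_left (le_of_lt (not_le.1 h))]
      linarith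
  have hE := Ex_mono h0 h1 hpt
  rw [Ex_add, Ex_add, Ex_mul_left, Ex_mul_left] at hE
  have h4 : 1 / b * Ex p (fun ω => cz ends ω x ^ 2) ≤ M ^ 3 / b := by
    rw [one_div, inv_mul_eq_div]
    exact div_le_div_of_nonneg_right hsec hb.le
  have h5 : Ex p (fun ω => open scoped Classical in if a ≤ cz ends ω x then (1 : ℝ) else 0) =
      Ex p (fun ω => if a ≤ cz ends ω x then (1 : ℝ) else 0) := by
    apply Ex_congr
    intro ω
    split_ifs <;> rfl
  rw [h5]
  linarith

open scoped Classical in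
/-- Row S9. The lower bound for the tail. Let `l = 4 m`, `x i = 2 m` (`bul`). `Ex |C(x)| = ∑ y, ta x y ≥ ∑ y bul, c0 / l^(d-2) ≥ (2m)^d c0/(4m)^(d-2) ≥ c1 m²`. `tree_graph` (Tree.lean) and `hyp_X`
(`∑ y, ta x y = Ex cz ≤ C D1 l²`, `D1 = d 2^d`): `Ex |C|² ≤ ∑ z, ta x z (∑ u, ta z u)² ≤ (C D1 l²)³ ≤ C1 m^6`. For `κ = (c1/(8 C))²`: `Ex [|C|; |C| ≤ κ m⁴] ≤ ∑_{k ≤ κ m⁴} P(|C| ≥ k) ≤ 2 C √κ m² = c1 m²/4` (tail in `Hyp`);
`λ = 4 C1/c1`: `Ex [|C|; |C| > λ m⁴] ≤ Ex |C|²/(λ m⁴) ≤ c1 m²/4`. So `(c1/2) m² ≤ λ m⁴ P(|C| > κ m⁴)`. For given `k` take the least `m ≥ 1` with `k ≤ κ m⁴`; then `m² ≤ C2 √k` and `P(|C| ≥ k) ≥ (c1/(2 λ)) m^(-2)`. -/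
lemma Tm_of (d : ℕ) (hd : 9 ≤ d) (C c0 : ℝ) (hC : 1 ≤ C) (hc0 : 0 < c0) : ∃ c : ℝ, 0 < c ∧ ∀ pc : ℝ, 0 < pc → pc < 1 →
    (∀ l : ℕ, Hyp d C c0 pc l) → ∀ k : ℕ, 1 ≤ k → ∃ (l : ℕ) (x : Fin d → Fin l),
      c / Real.sqrt k ≤ Ex pc (fun ω => if (k : ℝ) ≤ cz (gends (boxG d l)) ω x then (1 : ℝ) else 0) := by
  classical
  set D1 : ℝ := d * 2 ^ d with hD1
  have hdpos : (0 : ℝ) < d := by exact_mod_cast (by omega : 0 < d)
  have hD1p : 0 < D1 := by positivity
  set c1 : ℝ := c0 / 4 ^ d with hc1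
  have hc1p : 0 < c1 := by positivity
  set C1 : ℝ := (C * D1) ^ 3 with hC1
  have hC1p : 0 < C1 := by positivity
  set q : ℝ := Real.sqrt (c1 / (12 * C)) with hq
  have hqp : 0 < q := Real.sqrt_pos.2 (by positivity)
  have hq2 : q ^ 2 = c1 / (12 * C) := Real.sq_sqrt (by positivity)
  set lam : ℝ := 4 * C1 / c1 with hlam
  have hlamp : 0 < lam := by positivity
  refine ⟨c1 / (2 * lam) / (1 / q + 4) ^ 2, by positivity, ?_⟩
  intro pc hpc0 hpc1 hH k hk
  have hk1 : (1 : ℝ) ≤ k := by exact_mod_cast hk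
  -- the fourth root of `k`
  set s : ℝ := Real.sqrt (Real.sqrt k) with hs
  have hs2 : s ^ 2 = Real.sqrt k := Real.sq_sqrt (Real.sqrt_nonneg _)
  have hsk1 : 1 ≤ Real.sqrt k := Real.one_le_sqrt.2 hk1
  have hs1 : 1 ≤ s := Real.one_le_sqrt.2 hsk1
  have hs4 : s ^ 4 = (k : ℝ) := by
    have e0 : s ^ 4 = (s ^ 2) ^ 2 := by ring
    rw [e0, hs2, Real.sq_sqrt (by positivity)]
  set m : ℕ := ⌈s / q / 4⌉₊ with hm
  have hm1 : s / q / 4 ≤ m := Nat.le_ceil _
  have hm2 : (m : ℝ) < s / q / 4 + 1 := Nat.ceil_lt_add_one (by positivity)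
  have hm0 : 0 < m := Nat.ceil_pos.2 (by positivity)
  set l : ℕ := 4 * m with hl
  have hlr : (l : ℝ) = 4 * m := by rw [hl]; push_cast; ring
  have hlpos : (0 : ℝ) < l := by rw [hlr]; have : (0 : ℝ) < m := by exact_mod_cast hm0
                                 linarith
  have hl1 : s / q ≤ l := by rw [hlr]; linarith
  have hl2 : (l : ℝ) ≤ (1 / q + 4) * s := by
    have : (l : ℝ) ≤ s / q + 4 := by rw [hlr]; linarith
    calc (l : ℝ) ≤ s / q + 4 := this
      _ ≤ s / q + 4 * s := by linarith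
      _ = _ := by ring
  have hqs : s ≤ q * l := by
    rw [div_le_iff₀ hqp] at hl1
    linarith [mul_comm (l : ℝ) q]
  -- the two levels
  set a : ℝ := (q * l) ^ 4 with haa
  have hka : (k : ℝ) ≤ a := by
    rw [← hs4, haa]
    exact pow_le_pow_left₀ (by linarith) hqs 4
  have ha1 : 1 ≤ a := hk1.trans hka
  have hsqa : Real.sqrt a = (q * l) ^ 2 := by
    rw [haa, show (q * (l : ℝ)) ^ 4 = ((q * l) ^ 2) ^ 2 by ring, Real.sqrt_sq (by positivity)]
  set b : ℝ := lam * (l : ℝ) ^ 4 with hbb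
  have hbp : 0 < b := by positivity
  set x : Fin d → Fin l := fun _ => ⟨2 * m, by omega⟩ with hx
  have hbx : bul x := by
    intro i
    constructor
    · show l ≤ 4 * (2 * m)
      omega
    · show 4 * (2 * m) ≤ 3 * l
      omega
  have hHl := hH l
  obtain ⟨hU, hT, hL⟩ := hHl
  have hMx : ∀ y : Fin d → Fin l, Ex pc (fun ω => cz (gends (boxG d l)) ω y) ≤ C * D1 * (l : ℝ) ^ 2 :=
    fun y => hyp_X (by omega) (by linarith) hU y
  have hX : c1 * (l : ℝ) ^ 2 ≤ Ex pc (fun ω => cz (gends (boxG d l)) ω x) := by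
    rw [← ta_sum]
    have hbc := bul_card (d := d) (l := l) (by omega)
    calc c1 * (l : ℝ) ^ 2 = ((l : ℝ) / 4) ^ d * (c0 / (l : ℝ) ^ (d - 2)) := by
          have : (l : ℝ) ^ d = (l : ℝ) ^ (d - 2) * (l : ℝ) ^ 2 := by
            rw [← pow_add]
            congr 1
            omega
          rw [hc1, div_pow, this]
          field_simp
      _ ≤ ((Finset.univ.filter (fun y : Fin d → Fin l => bul y)).card : ℝ) * (c0 / (l : ℝ) ^ (d - 2)) := by
          apply mul_le_mul_of_nonneg_right _ (by positivity)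
          refine hbc.trans (le_of_eq ?_)
          congr!
      _ = ∑ y ∈ Finset.univ.filter (fun y : Fin d → Fin l => bul y), (c0 / (l : ℝ) ^ (d - 2)) := by
          rw [Finset.sum_const, nsmul_eq_mul]
      _ ≤ ∑ y ∈ Finset.univ.filter (fun y : Fin d → Fin l => bul y), ta (gends (boxG d l)) pc x y :=
          Finset.sum_le_sum fun y hy => hL x y hbx (Finset.mem_filter.1 hy).2
      _ ≤ ∑ y, ta (gends (boxG d l)) pc x y :=
          Finset.sum_le_sum_of_subset_of_nonneg (Finset.filter_subset _ _)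
            fun y _ _ => ta_nonneg hpc0.le hpc1.le x y
  have hmain := S9_gen (ends := gends (boxG d l)) hpc0.le hpc1.le (by linarith : 0 ≤ C) ha1 hbp hMx x hX
    (by
      intro j hj
      refine le_trans (le_of_eq ?_) (hT x j hj)
      apply Ex_congr
      intro ω
      split_ifs <;> rfl)
  refine ⟨l, x, ?_⟩
  have e1 : 3 * C * Real.sqrt a = c1 * (l : ℝ) ^ 2 / 4 := by
    rw [hsqa, mul_pow, hq2]
    field_simp
    ring
  have e2 : (C * D1 * (l : ℝ) ^ 2) ^ 3 / b = c1 * (l : ℝ) ^ 2 / 4 := by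
    rw [hbb, hlam, show (C * D1 * (l : ℝ) ^ 2) ^ 3 = C1 * (l : ℝ) ^ 6 by rw [hC1]; ring]
    field_simp
  rw [e1, e2] at hmain
  have e3 : Ex pc (fun ω => open scoped Classical in if a ≤ cz (gends (boxG d l)) ω x then (1 : ℝ) else 0) ≤
      Ex pc (fun ω => if (k : ℝ) ≤ cz (gends (boxG d l)) ω x then (1 : ℝ) else 0) := by
    apply Ex_mono hpc0.le hpc1.le
    intro ω
    by_cases h : a ≤ cz (gends (boxG d l)) ω x
    · rw [if_pos h, if_pos (hka.trans h)]
    · rw [if_neg h]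
      split_ifs <;> norm_num
  have e4 : c1 * (l : ℝ) ^ 2 / 2 ≤
      b * Ex pc (fun ω => if (k : ℝ) ≤ cz (gends (boxG d l)) ω x then (1 : ℝ) else 0) := by
    have := mul_le_mul_of_nonneg_left e3 hbp.le
    linarith
  have e5 : c1 / (2 * lam) / (l : ℝ) ^ 2 ≤
      Ex pc (fun ω => if (k : ℝ) ≤ cz (gends (boxG d l)) ω x then (1 : ℝ) else 0) := by
    have h6 : c1 / (2 * lam) / (l : ℝ) ^ 2 * b = c1 * (l : ℝ) ^ 2 / 2 := by
      rw [hbb]
      field_simp
    refine le_of_mul_le_mul_right ?_ hbp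
    rw [h6, mul_comm _ b]
    exact e4
  refine le_trans ?_ e5
  have h7 : (l : ℝ) ^ 2 ≤ (1 / q + 4) ^ 2 * Real.sqrt k := by
    calc (l : ℝ) ^ 2 ≤ ((1 / q + 4) * s) ^ 2 := pow_le_pow_left₀ hlpos.le hl2 2
      _ = _ := by rw [mul_pow, hs2]
  rw [div_div]
  apply div_le_div_of_nonneg_left (by positivity) (by positivity)
  exact h7

section gen

variable {V : Type*} [Fintype V] [DecidableEq V] {E : Type*} [Fintype E] [DecidableEq E]

open scoped Classical in
/-- Row S10a. For every neighbour `v` of `u`: explore the cluster `S` of `u`; if `v ∉ S` then `cu ω v = cl ω Sᶜ v`, which depends on the edges off `S` only, and `Ex gh |cl ω Sᶜ v| ≤ Ex gh |cu ω v| ≤ M` (compare `two` (Two.lean),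
`explore_gen` (V/Ea), `fresh` (Z/Gb)). So `Ex (fh |cu u| 1[v ∉ cu u] gh |cu v|) ≤ M Ex fh |cu u|`; at most `W` neighbours. -/
lemma AA_le {ends : E → Sym2 V} {p h M : ℝ} (hp0 : 0 ≤ p) (hp1 : p ≤ 1) (h0 : 0 ≤ h) (h1 : h ≤ 1) (hM0 : 0 ≤ M)
    (hM : ∀ x, Ex p (fun ω => gh h (cu ends ω x).card) ≤ M) (W : ℕ) (u : V)
    (hdeg : (Finset.univ.filter (fun v => ∃ e, ends e = s(u, v))).card ≤ W) :
    AA ends p h u ≤ W * M * Ex p (fun ω => fh h (cu ends ω u).card) := by
  unfold AA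
  have hFn : 0 ≤ Ex p (fun ω => fh h (cu ends ω u).card) :=
    Ex_nonneg hp0 hp1 fun ω => fh_nonneg h0 h1 _
  have e1 : ∀ ω : E → Bool, (∑ v, (if (∃ e, ends e = s(u, v)) ∧ v ∉ cu ends ω u then
      fh h (cu ends ω u).card * gh h (cu ends ω v).card else (0 : ℝ))) =
      ∑ v ∈ Finset.univ.filter (fun v => ∃ e, ends e = s(u, v)), (if v ∈ cu ends ω u then (0 : ℝ) else 1) *
        (fh h (cu ends ω u).card * gh h (cu ends ω v).card) := by
    intro ω
    rw [Finset.sum_filter]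
    refine Finset.sum_congr rfl fun v _ => ?_
    by_cases ha : ∃ e, ends e = s(u, v)
    · by_cases hv : v ∈ cu ends ω u
      · rw [if_neg (fun hc => hc.2 hv), if_pos ha, if_pos hv, zero_mul]
      · rw [if_pos ⟨ha, hv⟩, if_pos ha, if_neg hv, one_mul]
    · rw [if_neg (fun hc => ha hc.1), if_neg ha]
  rw [Ex_congr e1, Ex_sum]
  have e2 : ∀ v ∈ Finset.univ.filter (fun v => ∃ e, ends e = s(u, v)),
      Ex p (fun ω => (if v ∈ cu ends ω u then (0 : ℝ) else 1) *
        (fh h (cu ends ω u).card * gh h (cu ends ω v).card)) ≤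
      Ex p (fun ω => fh h (cu ends ω u).card) * M := by
    intro v _
    refine le_trans (two hp0 hp1 u v (fun A => fh h A.card) (fun A => fh_nonneg h0 h1 _) (fun A => gh h A.card)
      (fun A => gh_nonneg h0 h1 _) (fun A B hAB => gh_mono h0 h1 (Finset.card_le_card hAB))) ?_
    exact mul_le_mul_of_nonneg_left (hM v) hFn
  refine le_trans (Finset.sum_le_sum e2) ?_
  rw [Finset.sum_const, nsmul_eq_mul]
  have hc : (((Finset.univ.filter (fun v => ∃ e, ends e = s(u, v))).card : ℕ) : ℝ) ≤ (W : ℝ) := by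
    exact_mod_cast hdeg
  have h3 : (((Finset.univ.filter (fun v => ∃ e, ends e = s(u, v))).card : ℕ) : ℝ) * (Ex p (fun ω => fh h (cu ends ω u).card) * M) ≤
      (W : ℝ) * (Ex p (fun ω => fh h (cu ends ω u).card) * M) :=
    mul_le_mul_of_nonneg_right hc (mul_nonneg hFn hM0)
  calc _ ≤ (W : ℝ) * (Ex p (fun ω => fh h (cu ends ω u).card) * M) := h3
    _ = W * M * Ex p (fun ω => fh h (cu ends ω u).card) := by ring

end gen

/-- Chain rule for a sum of products along a line. -/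
private lemma S10b_chain {ι : Type*} (T : Finset ι) (a b : ι → ℝ → ℝ) (P H κ p0 h0 t : ℝ)
    (ha : ∀ i, DifferentiableAt ℝ (a i) (p0 + t)) (hb : ∀ i, DifferentiableAt ℝ (b i) (h0 - κ * t))
    (hP : HasDerivAt (fun p => ∑ i ∈ T, a i p * b i (h0 - κ * t)) P (p0 + t))
    (hH : HasDerivAt (fun h => ∑ i ∈ T, a i (p0 + t) * b i h) H (h0 - κ * t)) :
    HasDerivAt (fun t => ∑ i ∈ T, a i (p0 + t) * b i (h0 - κ * t)) (P - κ * H) t := by
  have hP' : P = ∑ i ∈ T, deriv (a i) (p0 + t) * b i (h0 - κ * t) :=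
    hP.unique (HasDerivAt.fun_sum fun i _ => (ha i).hasDerivAt.mul_const _)
  have hH' : H = ∑ i ∈ T, a i (p0 + t) * deriv (b i) (h0 - κ * t) :=
    hH.unique (HasDerivAt.fun_sum fun i _ => (hb i).hasDerivAt.const_mul _)
  have hg : HasDerivAt (fun t => h0 - κ * t) (-κ) t := by
    simpa using ((hasDerivAt_id t).const_mul κ).const_sub h0
  have hf : HasDerivAt (fun t => p0 + t) 1 t := by
    simpa using (hasDerivAt_id t).const_add p0
  have hterm : ∀ i ∈ T, HasDerivAt (fun t => a i (p0 + t) * b i (h0 - κ * t))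
      (deriv (a i) (p0 + t) * 1 * b i (h0 - κ * t) +
        a i (p0 + t) * (deriv (b i) (h0 - κ * t) * (-κ))) t := by
    intro i _
    have h1 : HasDerivAt (fun t => a i (p0 + t)) (deriv (a i) (p0 + t) * 1) t :=
      HasDerivAt.comp (h₂ := a i) t (ha i).hasDerivAt hf
    have h2 : HasDerivAt (fun t => b i (h0 - κ * t)) (deriv (b i) (h0 - κ * t) * (-κ)) t :=
      HasDerivAt.comp (h₂ := b i) t (hb i).hasDerivAt hg
    exact h1.mul h2
  have h3 := HasDerivAt.fun_sum hterm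
  have h4 : P - κ * H = ∑ i ∈ T, (deriv (a i) (p0 + t) * 1 * b i (h0 - κ * t) +
        a i (p0 + t) * (deriv (b i) (h0 - κ * t) * (-κ))) := by
    rw [hP', hH', Finset.mul_sum, ← Finset.sum_sub_distrib]
    refine Finset.sum_congr rfl fun i _ => ?_
    ring
  rw [h4]
  exact h3

section gen2

variable {V : Type*} [Fintype V] [DecidableEq V] {E : Type*} [Fintype E] [DecidableEq E]

/-- The weight of a configuration is a differentiable function of `p`. -/
private lemma S10b_wt (ω : E → Bool) (p : ℝ) : DifferentiableAt ℝ (fun p => wt p ω) p := by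
  unfold wt
  apply DifferentiableAt.fun_finsetProd
  intro e _
  split_ifs
  · exact differentiableAt_id
  · exact (differentiableAt_const _).sub differentiableAt_id

/-- Chain rule for the magnetisation. -/
private lemma S10b_path {ends : E → Sym2 V} (hinj : Function.Injective ends) (p0 h0 κ t : ℝ)
    (hp : p0 + t ≠ 1) (hh : h0 - κ * t ≠ 1) :
    HasDerivAt (fun t : ℝ => ∑ x, Ex (p0 + t) (fun ω => gh (h0 - κ * t) (cu ends ω x).card))
      ((1 - (p0 + t))⁻¹ * ∑ u, AA ends (p0 + t) (h0 - κ * t) u -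
        κ * ((1 - (h0 - κ * t))⁻¹ * ∑ u, Ex (p0 + t) (fun ω => fh (h0 - κ * t) (cu ends ω u).card))) t := by
  have e1 : ∀ p h : ℝ, ∑ x, Ex p (fun ω => gh h (cu ends ω x).card) =
      ∑ i : V × (E → Bool), wt p i.2 * gh h (cu ends i.2 i.1).card := by
    intro p h
    rw [Fintype.sum_prod_type]
    rfl
  have h1 := russo hinj (p0 + t) (h0 - κ * t) hp
  have h2 := dgh (ends := ends) (p0 + t) (h0 - κ * t) hh
  simp only [e1] at h1 h2 ⊢
  refine S10b_chain Finset.univ (fun (i : V × (E → Bool)) (p : ℝ) => wt p i.2) (fun (i : V × (E → Bool)) (h : ℝ) => gh h (cu ends i.2 i.1).card)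
    _ _ κ p0 h0 t ?_ ?_ h1 h2
  · intro i
    exact S10b_wt i.2 _
  · intro i
    unfold gh
    fun_prop

open scoped Classical in
/-- The barrier. -/
private lemma S10b_bar {ends : E → Sym2 V} (hinj : Function.Injective ends) {pc s h κ1 B : ℝ} (W : ℕ)
    (hdeg : ∀ u : V, (Finset.univ.filter (fun v => ∃ e, ends e = s(u, v))).card ≤ W) (x : V)
    (htr : ∀ (p h : ℝ) (y : V), Ex p (fun ω => gh h (cu ends ω y).card) = Ex p (fun ω => gh h (cu ends ω x).card))
    (h0 : 0 < pc) (hs : 0 ≤ s) (h1 : pc + s < 1) (hκ0 : 0 < κ1) (hκ1 : W * (1 - (pc + s))⁻¹ ≤ κ1)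
    (hh1 : h < 1) (hB : 0 < B) (hκ : 2 * κ1 * B * s < h)
    (hm : Ex pc (fun ω => gh h (cu ends ω x).card) ≤ B) :
    Ex (pc + s) (fun ω => gh (h - 2 * κ1 * B * s) (cu ends ω x).card) ≤ B := by
  obtain ⟨κ, hκd⟩ : ∃ κ, κ = 2 * κ1 * B := ⟨_, rfl⟩
  rw [← hκd] at hκ ⊢
  have hκp : 0 < κ := by rw [hκd]; positivity
  have hN : (0 : ℝ) < Fintype.card V := by
    have : 0 < Fintype.card V := Fintype.card_pos_iff.2 ⟨x⟩
    exact_mod_cast this
  have hsum : ∀ p h : ℝ, ∑ y, Ex p (fun ω => gh h (cu ends ω y).card) =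
      (Fintype.card V : ℝ) * Ex p (fun ω => gh h (cu ends ω x).card) := by
    intro p h
    rw [Finset.sum_congr rfl fun y _ => htr p h y, Finset.sum_const, nsmul_eq_mul]
    rfl
  have hrange : ∀ t, 0 ≤ t → t ≤ s → 0 < h - κ * t ∧ h - κ * t < 1 := by
    intro t ht hts
    have e1 : κ * t ≤ κ * s := mul_le_mul_of_nonneg_left hts hκp.le
    have e2 : 0 ≤ κ * t := mul_nonneg hκp.le ht
    constructor <;> linarith
  have hder : ∀ t, 0 ≤ t → t ≤ s → HasDerivAt
      (fun t : ℝ => ∑ y, Ex (pc + t) (fun ω => gh (h - κ * t) (cu ends ω y).card))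
      ((1 - (pc + t))⁻¹ * ∑ u, AA ends (pc + t) (h - κ * t) u -
        κ * ((1 - (h - κ * t))⁻¹ * ∑ u, Ex (pc + t) (fun ω => fh (h - κ * t) (cu ends ω u).card))) t := by
    intro t ht hts
    obtain ⟨r1, r2⟩ := hrange t ht hts
    exact S10b_path hinj pc h κ t (by linarith) (by linarith)
  have key := image_le_of_deriv_right_lt_deriv_boundary
    (f := fun t : ℝ => ∑ y, Ex (pc + t) (fun ω => gh (h - κ * t) (cu ends ω y).card))
    (f' := fun t : ℝ => ((1 - (pc + t))⁻¹ * ∑ u, AA ends (pc + t) (h - κ * t) u -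
        κ * ((1 - (h - κ * t))⁻¹ * ∑ u, Ex (pc + t) (fun ω => fh (h - κ * t) (cu ends ω u).card))))
    (a := 0) (b := s) (B := fun _ => (Fintype.card V : ℝ) * B) (B' := fun _ => 0)
    (fun t ht => (hder t ht.1 ht.2).continuousAt.continuousWithinAt)
    (fun t ht => (hder t ht.1 ht.2.le).hasDerivWithinAt)
    (by
      simp only [add_zero, mul_zero, sub_zero]
      rw [hsum]
      exact mul_le_mul_of_nonneg_left hm hN.le)
    (fun t => hasDerivAt_const t _)
    (by
      intro t ht hft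
      obtain ⟨ht0, hts⟩ := ht
      obtain ⟨r1, r2⟩ := hrange t ht0 hts.le
      rw [hsum] at hft
      have hmB : Ex (pc + t) (fun ω => gh (h - κ * t) (cu ends ω x).card) = B :=
        mul_left_cancel₀ hN.ne' hft
      have hp0 : 0 ≤ pc + t := by linarith
      have hp1 : pc + t ≤ 1 := by linarith
      have hfh : ∀ u : V, 0 < Ex (pc + t) (fun ω => fh (h - κ * t) (cu ends ω u).card) := by
        intro u
        have hc : 0 < (1 - (h - κ * t)) ^ (Fintype.card V) := pow_pos (by linarith) _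
        have hpt : ∀ ω : E → Bool, (1 - (h - κ * t)) ^ (Fintype.card V) ≤
            fh (h - κ * t) (cu ends ω u).card := by
          intro ω
          unfold fh
          have h5 : (1 : ℝ) ≤ ((cu ends ω u).card : ℝ) := one_le_cz ω u
          have h6 : (1 - (h - κ * t)) ^ (Fintype.card V) ≤ (1 - (h - κ * t)) ^ (cu ends ω u).card :=
            pow_le_pow_of_le_one (by linarith) (by linarith) (Finset.card_le_univ _)
          have h7 : 0 ≤ (1 - (h - κ * t)) ^ (cu ends ω u).card := pow_nonneg (by linarith) _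
          calc _ ≤ 1 * (1 - (h - κ * t)) ^ (cu ends ω u).card := by rw [one_mul]; exact h6
            _ ≤ _ := mul_le_mul_of_nonneg_right h5 h7
        have h8 := Ex_mono hp0 hp1 hpt
        rw [Ex_const] at h8
        exact lt_of_lt_of_le hc h8
      obtain ⟨Sf, hSf⟩ : ∃ Sf, Sf = ∑ u, Ex (pc + t) (fun ω => fh (h - κ * t) (cu ends ω u).card) := ⟨_, rfl⟩
      have hSf0 : 0 < Sf := by
        rw [hSf]
        exact Finset.sum_pos (fun u _ => hfh u) ⟨x, Finset.mem_univ _⟩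
      have hAA : ∑ u, AA ends (pc + t) (h - κ * t) u ≤ W * B * Sf := by
        rw [hSf, Finset.mul_sum]
        refine Finset.sum_le_sum fun u _ => ?_
        exact AA_le hp0 hp1 r1.le r2.le hB.le (fun y => by rw [htr]; exact hmB.le) W u (hdeg u)
      rw [← hSf]
      have hi1 : 0 < (1 - (pc + t))⁻¹ := inv_pos.2 (by linarith)
      have hi2 : (1 - (pc + t))⁻¹ ≤ (1 - (pc + s))⁻¹ := inv_anti₀ (by linarith) (by linarith)
      have hi3 : 1 ≤ (1 - (h - κ * t))⁻¹ := (one_le_inv₀ (by linarith)).2 (by linarith)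
      have hW : (0 : ℝ) ≤ W := Nat.cast_nonneg _
      have g1 : (1 - (pc + t))⁻¹ * ∑ u, AA ends (pc + t) (h - κ * t) u ≤ κ1 * B * Sf := by
        calc _ ≤ (1 - (pc + t))⁻¹ * (W * B * Sf) := mul_le_mul_of_nonneg_left hAA hi1.le
          _ = (W * (1 - (pc + t))⁻¹) * (B * Sf) := by ring
          _ ≤ κ1 * (B * Sf) := by
              apply mul_le_mul_of_nonneg_right _ (by positivity)
              exact (mul_le_mul_of_nonneg_left hi2 hW).trans hκ1
          _ = _ := by ring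
      have g2 : κ * Sf ≤ κ * ((1 - (h - κ * t))⁻¹ * Sf) := by
        apply mul_le_mul_of_nonneg_left _ hκp.le
        calc Sf = 1 * Sf := (one_mul _).symm
          _ ≤ _ := mul_le_mul_of_nonneg_right hi3 hSf0.le
      have g3 : κ * Sf = κ1 * B * Sf + κ1 * B * Sf := by rw [hκd]; ring
      have g4 : 0 < κ1 * B * Sf := by positivity
      linarith)
  have h9 := key (x := s) ⟨hs, le_rfl⟩
  rw [hsum] at h9
  exact le_of_mul_le_mul_left h9 hN

open scoped Classical in
/-- The magnetisation from the tail. -/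
private lemma S10b_up {ends : E → Sym2 V} {p C h : ℝ} (h0 : 0 ≤ p) (h1 : p ≤ 1) (hC : 0 ≤ C) (x : V)
    (hT : ∀ k : ℕ, 1 ≤ k → Ex p (fun ω => if (k : ℝ) ≤ cz ends ω x then (1 : ℝ) else 0) ≤
      C / Real.sqrt k) (hh0 : 0 < h) (hh1 : h ≤ 1) :
    Ex p (fun ω => gh h (cu ends ω x).card) ≤ 3 * C * Real.sqrt h := by
  have ha : 1 ≤ 1 / h := by rw [le_div_iff₀ hh0]; linarith
  have h2 := min_tail h0 h1 hC x hT ha
  have h3 : ∀ ω : E → Bool, gh h (cu ends ω x).card ≤ h * min (cz ends ω x) (1 / h) := by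
    intro ω
    have e1 : h * (1 / h) = 1 := by field_simp
    rcases le_total (cz ends ω x) (1 / h) with h4 | h4
    · rw [min_eq_left h4]
      have := gh_le hh0.le hh1 (cu ends ω x).card
      rw [mul_comm]
      exact this
    · rw [min_eq_right h4, e1]
      exact gh_le_one hh0.le hh1 _
  have h4 := Ex_mono h0 h1 h3
  rw [Ex_mul_left] at h4
  refine h4.trans ((mul_le_mul_of_nonneg_left h2 hh0.le).trans (le_of_eq ?_))
  have hs : 0 < Real.sqrt h := Real.sqrt_pos.2 hh0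
  have e2 : Real.sqrt (1 / h) = 1 / Real.sqrt h := by rw [Real.sqrt_div zero_le_one, Real.sqrt_one]
  have e3 : Real.sqrt h * Real.sqrt h = h := Real.mul_self_sqrt hh0.le
  rw [e2]
  field_simp
  nlinarith

open scoped Classical in
/-- The tail from the magnetisation. -/
private lemma S10b_dn {ends : E → Sym2 V} {p : ℝ} (h0 : 0 ≤ p) (h1 : p ≤ 1) (x : V) (k : ℕ) (hk : 1 ≤ k) :
    Ex p (fun ω => if (k : ℝ) ≤ cz ends ω x then (1 : ℝ) else 0) ≤
      2 * Ex p (fun ω => gh (1 / (k : ℝ)) (cu ends ω x).card) := by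
  have hk0 : (0 : ℝ) < k := by exact_mod_cast hk
  have hk1 : (1 : ℝ) ≤ k := by exact_mod_cast hk
  have hi0 : 0 ≤ 1 / (k : ℝ) := by positivity
  have hi1 : 1 / (k : ℝ) ≤ 1 := by rw [div_le_one hk0]; exact hk1
  rw [← Ex_mul_left]
  refine Ex_mono h0 h1 fun ω => ?_
  split_ifs with hc
  · have hck : k ≤ (cu ends ω x).card := by
      unfold cz at hc
      exact_mod_cast hc
    have h2 := gh_mono hi0 hi1 hck
    have h3 : (1 - 1 / (k : ℝ)) ^ k ≤ 1 / 2 := by
      have e1 : 1 - 1 / (k : ℝ) ≤ Real.exp (-(1 / (k : ℝ))) := Real.one_sub_le_exp_neg _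
      have e2 : (1 - 1 / (k : ℝ)) ^ k ≤ (Real.exp (-(1 / (k : ℝ)))) ^ k :=
        pow_le_pow_left₀ (by linarith) e1 k
      have e3 : (Real.exp (-(1 / (k : ℝ)))) ^ k = Real.exp (-1) := by
        rw [← Real.exp_nat_mul]
        congr 1
        field_simp
      have e4 : Real.exp (-1) ≤ 1 / 2 := by
        rw [Real.exp_neg, inv_eq_one_div]
        have : (2 : ℝ) ≤ Real.exp 1 := by
          have := Real.add_one_le_exp (1 : ℝ)
          linarith
        exact one_div_le_one_div_of_le (by norm_num) this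
      rw [e3] at e2
      exact e2.trans e4
    have h4 : (1 : ℝ) / 2 ≤ gh (1 / (k : ℝ)) k := by
      unfold gh
      linarith
    linarith
  · have := gh_nonneg hi0 hi1 (cu ends ω x).card
    linarith

/-- `gh` is monotone in `h`. -/
private lemma S10b_mono {ends : E → Sym2 V} {p h h' : ℝ} (h0 : 0 ≤ p) (h1 : p ≤ 1) (x : V)
    (hh : h ≤ h') (hh1 : h' ≤ 1) :
    Ex p (fun ω => gh h (cu ends ω x).card) ≤ Ex p (fun ω => gh h' (cu ends ω x).card) := by
  refine Ex_mono h0 h1 fun ω => ?_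
  unfold gh
  have := pow_le_pow_left₀ (show (0 : ℝ) ≤ 1 - h' by linarith) (show 1 - h' ≤ 1 - h by linarith)
    (cu ends ω x).card
  linarith

end gen2

/-- Translation invariance. -/
private lemma S10b_tr {d n : ℕ} [NeZero n] [Fintype (torG d n).edgeSet] (p h : ℝ) (x : Fin d → ZMod n) :
    Ex p (fun ω => gh h (cu (gends (torG d n)) ω x).card) =
      Ex p (fun ω => gh h (cu (gends (torG d n)) ω 0).card) := by
  have h1 := tor_trans (d := d) (n := n) p (fun t => gh h ⌊t⌋₊) x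
  simpa only [cz, Nat.floor_natCast] using h1

open scoped Classical in
/-- The number of the neighbours in the torus. -/
private lemma S10b_deg {d n : ℕ} [NeZero n] [Fintype (torG d n).edgeSet] (u : Fin d → ZMod n) :
    (Finset.univ.filter (fun v => ∃ e, gends (torG d n) e = s(u, v))).card ≤ 2 * d := by
  have h2 : Finset.univ.filter (fun v => ∃ e, gends (torG d n) e = s(u, v)) ⊆
      (Finset.univ : Finset (Fin d × Bool)).image
        (fun q => if q.2 = true then u + Pi.single q.1 1 else u - Pi.single q.1 1) := by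
    intro y hy
    obtain ⟨e, he⟩ := (Finset.mem_filter.1 hy).2
    have hadj : (torG d n).Adj u y := by
      have h3 := e.2
      have h4 : (e : Sym2 (Fin d → ZMod n)) = s(u, y) := he
      rw [h4] at h3
      exact h3
    obtain ⟨-, i, hi⟩ := hadj
    rw [Finset.mem_image]
    rcases hi with hi | hi
    · exact ⟨(i, true), Finset.mem_univ _, by simp [hi]⟩
    · refine ⟨(i, false), Finset.mem_univ _, ?_⟩
      simp only [Bool.false_eq_true, if_false]
      rw [hi]
      simp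
  refine (Finset.card_le_card h2).trans (Finset.card_image_le.trans ?_)
  rw [Finset.card_univ, Fintype.card_prod, Fintype.card_fin, Fintype.card_bool]
  omega

open scoped Classical in
/-- Row S10b. The tail on the torus above `p_c` from the tail at `p_c`. Let `m p h = Ex p (gh h |cu 0|)`, the same for every vertex (`tor_trans` with `F t = gh h ⌊t⌋₊`, or directly), `κ1 = 4 d/(1 - pc)`, `s0 ≤ (1 - pc)/2`.
(1) `russo`, `dgh`, `AA_le` (`W = 2 d`): `∂_p m ≤ (1-p)⁻¹ 2 d m Ex fh ≤ κ1 m ∂_h m` for `pc ≤ p ≤ pc + s0`. (2) `m pc h ≤ h Ex min(cz, 1/h) ≤ 3 C √h` (`gh_le`, `min_tail` of Prb.lean). (3) Barrier: let `B = 3 C √h`, `κ = 6 C κ1 √h`,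
`G t = m (pc + t) (h - κ t)` (chain rule as in `mB_path`, row S1: prove it for a general graph first, or copy), `image_le_of_deriv_right_lt_deriv_boundary`: if `G t = B` then `G' ≤ (κ1 B - κ) ∂_h m < 0` (`∂_h m ≥ Ex fh > 0`). So `m (pc+t) (h - κ t) ≤ 3 C √h` as long as
`κ t < h`, `t ≤ s0`. (4) For `h'` and `t` take `h = (√h' + 6 C κ1 t)²`: `h - κ t = √h √h' ≥ h'`, so `m (pc+t) h' ≤ 3 C (√h' + 6 C κ1 t)` (`m` is monotone in `h`; `h < 1` for `k ≥ 4` and `s0` small). (5) `h' = 1/k`: `gh h' j ≥ 1 - e^(-1) ≥ 1/2` for `j ≥ k`. For `k < 4` the bound is trivial if `C' ≥ 2`. -/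
lemma TT_of (d : ℕ) (C pc : ℝ) (hC : 1 ≤ C) (h0 : 0 < pc) (h1 : pc < 1) : ∃ C' s0 : ℝ, 1 ≤ C' ∧ 0 < s0 ∧ pc + s0 < 1 ∧ ∀ (n : ℕ) [NeZero n] [Fintype (torG d n).edgeSet],
    (∀ x, ∀ k : ℕ, 1 ≤ k → Ex pc (fun ω => if (k : ℝ) ≤ cz (gends (torG d n)) ω x then (1 : ℝ) else 0) ≤ C / Real.sqrt k) →
    ∀ x, ∀ r, pc ≤ r → r ≤ pc + s0 → ∀ k : ℕ, 1 ≤ k →
      Ex r (fun ω => if (k : ℝ) ≤ cz (gends (torG d n)) ω x then (1 : ℝ) else 0) ≤ C' * (1 / Real.sqrt k + (r - pc)) := by
  obtain ⟨κ1, hκ1⟩ : ∃ κ1, κ1 = 4 * ((d : ℝ) + 1) / (1 - pc) := ⟨_, rfl⟩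
  have hq : 0 < 1 - pc := by linarith
  have hκ0 : 0 < κ1 := by rw [hκ1]; positivity
  have hC0 : 0 < C := by linarith
  obtain ⟨s0, hs0d⟩ : ∃ s0, s0 = min ((1 - pc) / 2) (1 / (24 * C * κ1)) := ⟨_, rfl⟩
  have hs0 : 0 < s0 := by rw [hs0d]; exact lt_min (by linarith) (by positivity)
  have hs1 : s0 ≤ (1 - pc) / 2 := by rw [hs0d]; exact min_le_left _ _
  have hs2 : 6 * C * κ1 * s0 ≤ 1 / 4 := by
    have h3 : s0 ≤ 1 / (24 * C * κ1) := by rw [hs0d]; exact min_le_right _ _
    rw [le_div_iff₀ (by positivity)] at h3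
    linarith
  obtain ⟨C', hC'⟩ : ∃ C', C' = 2 + 6 * C * (1 + 6 * C * κ1) := ⟨_, rfl⟩
  have hC'2 : 2 ≤ C' := by
    rw [hC']
    have : 0 ≤ 6 * C * (1 + 6 * C * κ1) := by positivity
    linarith
  refine ⟨C', s0, by linarith, hs0, by linarith, ?_⟩
  intro n _ _ hT x r hr0 hr1 k hk
  have hp0 : 0 ≤ r := by linarith
  have hp1 : r ≤ 1 := by linarith
  obtain ⟨t, ht⟩ : ∃ t, t = r - pc := ⟨_, rfl⟩
  have hrt : r = pc + t := by rw [ht]; ring
  have ht0 : 0 ≤ t := by linarith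
  have hts : t ≤ s0 := by linarith
  rw [← ht]
  have hk0 : (0 : ℝ) < k := by exact_mod_cast hk
  have hsk : 0 < Real.sqrt k := Real.sqrt_pos.2 hk0
  by_cases hk4 : k < 4
  · have h3 : Ex r (fun ω => if (k : ℝ) ≤ cz (gends (torG d n)) ω x then (1 : ℝ) else 0) ≤ 1 := by
      have h4 := Ex_mono hp0 hp1 (f := fun ω => if (k : ℝ) ≤ cz (gends (torG d n)) ω x then (1 : ℝ) else 0)
        (g := fun _ => (1 : ℝ)) (fun ω => by
          split_ifs
          · exact le_rfl
          · exact zero_le_one)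
      rwa [Ex_const] at h4
    refine h3.trans ?_
    have h5 : Real.sqrt k ≤ 2 := by
      apply Real.sqrt_le_iff.2
      refine ⟨by norm_num, ?_⟩
      have : (k : ℝ) ≤ 4 := by exact_mod_cast hk4.le
      linarith
    have h6 : 1 / 2 ≤ 1 / Real.sqrt k := one_div_le_one_div_of_le hsk h5
    calc (1 : ℝ) = 2 * (1 / 2 + 0) := by norm_num
      _ ≤ C' * (1 / Real.sqrt k + t) := mul_le_mul hC'2 (by linarith) (by norm_num) (by linarith)
  · have hk4' : (4 : ℝ) ≤ k := by exact_mod_cast not_lt.1 hk4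
    obtain ⟨w, hw⟩ : ∃ w, w = 1 / Real.sqrt k := ⟨_, rfl⟩
    have hw0 : 0 < w := by rw [hw]; positivity
    have hw2 : w ^ 2 = 1 / (k : ℝ) := by
      rw [hw, div_pow, one_pow, Real.sq_sqrt hk0.le]
    have hw1 : w ≤ 1 / 2 := by
      rw [hw]
      apply one_div_le_one_div_of_le (by norm_num)
      apply Real.le_sqrt_of_sq_le
      linarith
    obtain ⟨y, hy⟩ : ∃ y, y = w + 6 * C * κ1 * t := ⟨_, rfl⟩
    have hct : 0 ≤ 6 * C * κ1 * t := by positivity
    have hct2 : 6 * C * κ1 * t ≤ 1 / 4 :=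
      (mul_le_mul_of_nonneg_left hts (by positivity)).trans hs2
    have hy0 : 0 < y := by linarith
    have hy1 : y ≤ 3 / 4 := by linarith
    have hyw : w ≤ y := by linarith
    have hsy : Real.sqrt (y ^ 2) = y := Real.sqrt_sq hy0.le
    have hy2 : y ^ 2 < 1 := by nlinarith
    have hm := S10b_up (ends := gends (torG d n)) (p := pc) (C := C) (h := y ^ 2) h0.le h1.le hC0.le x
      (fun k hk => hT x k hk) (by positivity) hy2.le
    rw [hsy] at hm
    have e1 : 2 * κ1 * (3 * C * y) * t = y ^ 2 - y * w := by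
      have : y ^ 2 - y * w = y * (y - w) := by ring
      rw [this, hy]
      ring
    have hbar := S10b_bar (ends := gends (torG d n)) (pc := pc) (s := t) (h := y ^ 2) (κ1 := κ1)
      (B := 3 * C * y) Subtype.val_injective (2 * d) S10b_deg x
      (fun p h z => by rw [S10b_tr p h z, S10b_tr p h x]) h0 ht0 (by linarith) hκ0
      (by
        have e2 : (1 - (pc + t))⁻¹ ≤ ((1 - pc) / 2)⁻¹ := inv_anti₀ (by linarith) (by linarith)
        have e3 : (((2 * d : ℕ) : ℝ)) * (1 - (pc + t))⁻¹ ≤ ((2 * d : ℕ) : ℝ) * ((1 - pc) / 2)⁻¹ :=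
          mul_le_mul_of_nonneg_left e2 (Nat.cast_nonneg _)
        refine e3.trans ?_
        rw [hκ1]
        push_cast
        rw [inv_div, ← mul_div_assoc]
        apply div_le_div_of_nonneg_right _ hq.le
        linarith)
      hy2 (by positivity) (by rw [e1]; nlinarith) hm
    rw [e1, ← hrt] at hbar
    have e4 : y ^ 2 - (y ^ 2 - y * w) = y * w := by ring
    rw [e4] at hbar
    have e5 : 1 / (k : ℝ) ≤ y * w := by
      rw [← hw2, pow_two]
      exact mul_le_mul_of_nonneg_right hyw hw0.le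
    have hmono := S10b_mono (ends := gends (torG d n)) hp0 hp1 x e5 (by nlinarith)
    have hdn := S10b_dn (ends := gends (torG d n)) hp0 hp1 x k hk
    rw [← hw]
    have e6 : Ex r (fun ω => if (k : ℝ) ≤ cz (gends (torG d n)) ω x then (1 : ℝ) else 0) ≤
        6 * C * (w + 6 * C * κ1 * t) := by
      rw [← hy]
      linarith
    refine e6.trans ?_
    rw [hC']
    have e7 : 0 ≤ 2 * (w + t) := by positivity
    have e8 : (2 + 6 * C * (1 + 6 * C * κ1)) * (w + t) =
        2 * (w + t) + 6 * C * (w + 6 * C * κ1 * t) + 6 * C * t + 6 * C * (6 * C * κ1) * w := by ring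
    rw [e8]
    have e9 : 0 ≤ 6 * C * t := by positivity
    have e10 : 0 ≤ 6 * C * (6 * C * κ1) * w := by positivity
    linarith

/-- Row S11. Box in a torus: `box_tor` (z = 0), `Ex_pul`, `cu_map` (see `box_fT` in Y/Lx.lean), `tor_trans`. -/
lemma box_cz {d l n : ℕ} [NeZero n] [Fintype (torG d n).edgeSet] (hl : l < n) {p : ℝ} (h0 : 0 ≤ p) (h1 : p ≤ 1) (x : Fin d → Fin l) :
    Ex p (fun ω => cz (gends (boxG d l)) ω x) ≤ Ex p (fun ω => cz (gends (torG d n)) ω 0) := by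
  classical
  obtain ⟨φ, -⟩ := box_tor (d := d) (l := l) (n := n) (fun _ => 0) (fun i => by omega) hl
  have e2 : Ex p (fun ω : (torG d n).edgeSet → Bool => cz (gends (torG d n)) ω 0) =
      Ex p (fun ω : (torG d n).edgeSet → Bool => cz (gends (torG d n)) ω (φ x)) :=
    (tor_trans p (fun t => t) (φ x)).symm
  rw [e2, ← Ex_pul φ p (fun ω => cz (gends (boxG d l)) ω x)]
  refine Ex_mono h0 h1 fun ω => ?_
  unfold cz
  have h3 : (cu (gends (boxG d l)) (pul φ ω) x).card ≤ (cu (gends (torG d n)) ω (φ x)).card := by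
    apply Finset.card_le_card_of_injOn φ
    · intro y hy
      exact AE.cu_map (emb_of φ) hy
    · exact φ.injective.injOn
  exact_mod_cast h3

end Pool.Agent.PERC29.DZ
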