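import Pool.Agent.Lib.MP_29e17e_pr.Y.Fw
import Pool.Agent.Lib.MP_29e17e_pr.Z.Sc

namespace Pool.Agent.PERC29
end Pool.Agent.PERC29
namespace Pool.Agent.PERC29.AE
end Pool.Agent.PERC29.AE

set_option autoImplicit false
set_option linter.unusedSectionVars false

/-! Assembly: the hypotheses at `p_c`. -/

open Finset Filter Topology

namespace Pool.Agent.PERC29.DZ

open Pool.Agent.PERC29 Pool.Agent.PERC29.AE

/-- All the hypotheses from the bounds at `p_c`. -/
theorem hyps_of (d : ℕ) (C c₀ pc : ℝ) (hd : 11 ≤ d) (hc₀ : 0 < c₀) (h0 : 0 < pc) (h1 : pc < 1)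
    (hU : ∀ (l : ℕ) (x y : Fin d → Fin l), tau (boxG d l) pc x y ≤ C / (1 + (nd x y : ℝ)) ^ (d - 2))
    (hL : ∀ (l : ℕ) (x y : Fin d → Fin l), bul x → bul y → c₀ / (l : ℝ) ^ (d - 2) ≤ tau (boxG d l) pc x y)
    (hB : ∀ N : ℕ, 1 ≤ N → armProb d N pc ≤ C / (N : ℝ) ^ 2)
    (hT : ∀ (n : ℕ) [NeZero n] (x : Fin d → ZMod n) (k : ℕ), 1 ≤ k →
      prob (torG d n) pc (fun ω => k ≤ clusterSize (torG d n) ω x) ≤ C / Real.sqrt k)
    (hX : ∀ (n : ℕ) [NeZero n] (p : ℝ), 0 < p → p < pc → chi (torG d n) p 0 ≤ C / (pc - p)) :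
    ∃ C' s0 c : ℝ, 1 ≤ C' ∧ 0 < s0 ∧ HT d C' c s0 pc ∧ (∀ l : ℕ, Hyp d C' c₀ pc l) ∧ HypT d C' pc s0 := by
  classical
  have hCC : C ≤ max C 1 := le_max_left _ _
  have hC1 : 1 ≤ max C 1 := le_max_right _ _
  obtain ⟨C', s0, hC', hs0, hs1, hTT⟩ := TT_of d (max C 1) pc hC1 h0 h1
  -- the torus tail
  have hT0 : ∀ (n : ℕ) [NeZero n] [Fintype (torG d n).edgeSet] (x : Fin d → ZMod n) (k : ℕ), 1 ≤ k →
      Ex pc (fun ω => if (k : ℝ) ≤ cz (gends (torG d n)) ω x then (1 : ℝ) else 0) ≤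
        max C 1 / Real.sqrt k := by
    intro n _ _ x k hk
    have h := hT n x k hk
    rw [tail_eq] at h
    refine le_trans (le_of_eq ?_) (h.trans (div_le_div_of_nonneg_right hCC (Real.sqrt_nonneg _)))
    congr 1
  have hT1 : ∀ (n : ℕ) [NeZero n] [Fintype (torG d n).edgeSet] (x : Fin d → ZMod n) (r : ℝ), pc ≤ r →
      r ≤ pc + s0 → ∀ k : ℕ, 1 ≤ k →
      Ex r (fun ω => if (k : ℝ) ≤ cz (gends (torG d n)) ω x then (1 : ℝ) else 0) ≤
        C' * (1 / Real.sqrt k + (r - pc)) := by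
    intro n _ _ x r hr hr2 k hk
    exact hTT n (fun x k hk => hT0 n x k hk) x r hr hr2 k hk
  obtain ⟨K, hK⟩ : ∃ K, K = max (max C 1) C' := ⟨_, rfl⟩
  have hK1 : max C 1 ≤ K := by rw [hK]; exact le_max_left _ _
  have hK2 : C' ≤ K := by rw [hK]; exact le_max_right _ _
  have hKC : C ≤ K := hCC.trans hK1
  have hK0 : 1 ≤ K := hC1.trans hK1
  -- boxes
  have hbx : ∀ (l : ℕ) (x : Fin d → Fin l) (r : ℝ) (k : ℕ), pc ≤ r → r ≤ pc + s0 → 1 ≤ k →
      Ex r (fun ω => if (k : ℝ) ≤ cz (gends (boxG d l)) ω x then (1 : ℝ) else 0) ≤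
        K * (1 / Real.sqrt k + (r - pc)) := by
    intro l x r k hr hr2 hk
    have : NeZero (l + 1) := ⟨by omega⟩
    have : Fintype (torG d (l + 1)).edgeSet := Fintype.ofFinite _
    refine (box_fT (n := l + 1) (by omega) (by linarith) (by linarith) x).trans ?_
    refine (hT1 (l + 1) 0 r hr hr2 k hk).trans ?_
    apply mul_le_mul_of_nonneg_right hK2
    have : 0 ≤ 1 / Real.sqrt (k : ℝ) := by positivity
    linarith
  have hHyp : ∀ l : ℕ, Hyp d K c₀ pc l := by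
    intro l
    refine ⟨?_, ?_, ?_⟩
    · intro x y
      have h := hU l x y
      rw [tau_eq] at h
      refine h.trans ?_
      unfold fk
      rw [mul_one_div]
      exact div_le_div_of_nonneg_right hKC (by positivity)
    · intro x k hk
      have h := hbx l x pc k le_rfl (by linarith) hk
      have e : K * (1 / Real.sqrt k + (pc - pc)) = K / Real.sqrt k := by ring
      rw [e] at h
      exact h
    · intro x y hx hy
      have h := hL l x y hx hy
      rw [tau_eq] at h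
      exact h
  obtain ⟨c, hc, hTm⟩ := Tm_of d (by omega) K c₀ hK0 hc₀
  refine ⟨K, s0, c, hK0, hs0, ⟨⟨hd, hK0, h0, h1, fun l => (hHyp l).1, ?_⟩, hc, hs0, hs1, ?_, ?_⟩, hHyp, ?_, ?_⟩
  · intro l x p hp hp2
    have : NeZero (l + 1) := ⟨by omega⟩
    have : Fintype (torG d (l + 1)).edgeSet := Fintype.ofFinite _
    refine (box_cz (n := l + 1) (by omega) hp.le (by linarith) x).trans ?_
    have h := hX (l + 1) p hp hp2
    rw [chi_eq] at h
    exact h.trans (div_le_div_of_nonneg_right hKC (by linarith))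
  · exact fun l x p k hp hp2 hk => hbx l x p k hp hp2 hk
  · exact hTm pc h0 h1 hHyp
  · intro M hM
    have h := hB M hM
    rw [arm_eq] at h
    exact h.trans (div_le_div_of_nonneg_right hKC (by positivity))
  · intro n _ _ x r hr hr2 k hk
    refine (hT1 n x r hr hr2 k hk).trans ?_
    apply mul_le_mul_of_nonneg_right hK2
    have : 0 ≤ 1 / Real.sqrt (k : ℝ) := by positivity
    linarith

end Pool.Agent.PERC29.DZ
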