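import Pool.Agent.Lib.MP_29e17e_pr.Y.Ar
import Pool.Agent.Lib.MP_29e17e_pr.Z.Gn

namespace Pool.Agent.PERC29
end Pool.Agent.PERC29
namespace Pool.Agent.PERC29.AE
end Pool.Agent.PERC29.AE

set_option autoImplicit false
set_option linter.unusedSectionVars false

/-! Assembly: the critical value of the torus, sequences. -/

open Finset Filter Topology

namespace Pool.Agent.PERC29.DZ

open Pool.Agent.PERC29 Pool.Agent.PERC29.AE

open scoped Classical in
/-- The mean cluster size is at least the contribution of the largest cluster. -/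
lemma chi_ge {d n : ℕ} [NeZero n] [Fintype (torG d n).edgeSet] {p t : ℝ} (h0 : 0 ≤ p) (h1 : p ≤ 1) (ht : 0 ≤ t) :
    t ^ 2 * Ex p (fun ω => if t ≤ mxc (gends (torG d n)) ω then (1 : ℝ) else 0) ≤
      (n : ℝ) ^ d * Ex p (fun ω => cz (gends (torG d n)) ω 0) := by
  have hcard : ((Fintype.card (Fin d → ZMod n) : ℕ) : ℝ) = (n : ℝ) ^ d := by
    rw [Fintype.card_fun, ZMod.card, Fintype.card_fin]; push_cast; ring
  have e1 : (n : ℝ) ^ d * Ex p (fun ω => cz (gends (torG d n)) ω 0) =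
      Ex p (fun ω => ∑ x, cz (gends (torG d n)) ω x) := by
    rw [Ex_sum, Finset.sum_congr rfl (fun x _ => tor_trans (d := d) (n := n) p (fun c => c) x),
      Finset.sum_const, nsmul_eq_mul, Finset.card_univ, hcard]
  rw [e1, ← Ex_mul_left]
  refine Ex_mono h0 h1 fun ω => ?_
  obtain ⟨x0, -, hx0⟩ := Finset.exists_mem_eq_sup (Finset.univ : Finset (Fin d → ZMod n))
    Finset.univ_nonempty (fun x => (cu (gends (torG d n)) ω x).card)
  have hm : mxc (gends (torG d n)) ω = cz (gends (torG d n)) ω x0 := by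
    unfold mxc
    rw [hx0]
    rfl
  have hcz : ∀ x, 0 ≤ cz (gends (torG d n)) ω x := fun x => Nat.cast_nonneg _
  have e2 : cz (gends (torG d n)) ω x0 ^ 2 ≤ ∑ x, cz (gends (torG d n)) ω x := by
    have h2 : ∑ x ∈ cu (gends (torG d n)) ω x0, cz (gends (torG d n)) ω x ≤
        ∑ x, cz (gends (torG d n)) ω x :=
      Finset.sum_le_sum_of_subset_of_nonneg (Finset.subset_univ _) (fun x _ _ => hcz x)
    have h3 : ∑ x ∈ cu (gends (torG d n)) ω x0, cz (gends (torG d n)) ω x =
        cz (gends (torG d n)) ω x0 ^ 2 := by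
      rw [Finset.sum_congr rfl (g := fun _ => cz (gends (torG d n)) ω x0)]
      · rw [Finset.sum_const, nsmul_eq_mul, sq]
        rfl
      · intro x hx
        unfold cz
        have h4 : cu (gends (torG d n)) ω x = cu (gends (torG d n)) ω x0 := cu_eq hx
        rw [h4]
    linarith
  by_cases hc : t ≤ mxc (gends (torG d n)) ω
  · rw [if_pos hc, mul_one]
    rw [hm] at hc
    exact (pow_le_pow_left₀ ht hc 2).trans e2
  · rw [if_neg hc, mul_zero]
    exact Finset.sum_nonneg fun x _ => hcz x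

/-- Monotonicity of the susceptibility. -/
lemma chi_mono {d n : ℕ} [NeZero n] {p p' : ℝ} (h0 : 0 ≤ p) (hpp : p ≤ p') (h1 : p' ≤ 1) :
    chi (torG d n) p 0 ≤ chi (torG d n) p' 0 := by
  classical
  rw [chi_eq, chi_eq]
  exact Ex_mono_p h0 hpp h1 _ fun ω ω' h => cz_mono h

lemma cube_root {N : ℝ} (hN : 1 ≤ N) (d : ℕ) (hd : 11 ≤ d) :
    N ^ 3 ≤ (N ^ d) ^ ((1 : ℝ) / 3) ∧ (N ^ d) ^ ((1 : ℝ) / 3) ≤ N ^ (d - 7) := by
  have hN0 : 0 < N := by linarith
  have hW : ((N ^ d) ^ ((1 : ℝ) / 3)) ^ 3 = N ^ d := by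
    rw [← Real.rpow_natCast, ← Real.rpow_mul (by positivity)]
    norm_num
  have hW0 : 0 ≤ (N ^ d) ^ ((1 : ℝ) / 3) := by positivity
  constructor
  · have h : (N ^ 3) ^ 3 ≤ ((N ^ d) ^ ((1 : ℝ) / 3)) ^ 3 := by
      rw [hW, ← pow_mul]
      exact pow_le_pow_right₀ hN (by omega)
    exact (pow_le_pow_iff_left₀ (by positivity) hW0 (by norm_num)).1 h
  · have h : ((N ^ d) ^ ((1 : ℝ) / 3)) ^ 3 ≤ (N ^ (d - 7)) ^ 3 := by
      rw [hW, ← pow_mul]
      exact pow_le_pow_right₀ hN (by omega)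
    exact (pow_le_pow_iff_left₀ hW0 (by positivity) (by norm_num)).1 h

/-- The conclusion of `giant_lim` on the torus. -/
def GLim (d : ℕ) (pc q : ℝ) : Prop :=
  ∀ η : ℝ, 0 < η → ∃ A ε0 : ℝ, 0 < A ∧ 0 < ε0 ∧ ∀ (n : ℕ) [NeZero n] [Fintype (torG d n).edgeSet] (ε : ℝ),
    0 < ε → ε ≤ ε0 → A ≤ ε * (n : ℝ) ^ 2 →
    Ex (pc + ε) (fun ω => open scoped Classical in
      if η * ε * (n : ℝ) ^ d < |mxc (gends (torG d n)) ω - q * ε * (n : ℝ) ^ d|
      then (1 : ℝ) else 0) ≤ η ∧
    Ex (pc + ε) (fun ω => open scoped Classical in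
      if ∃ x x', η * ε * (n : ℝ) ^ d ≤ cz (gends (torG d n)) ω x ∧
      η * ε * (n : ℝ) ^ d ≤ cz (gends (torG d n)) ω x' ∧ x' ∉ cu (gends (torG d n)) ω x
      then (1 : ℝ) else 0) ≤ η

/-- The critical value of the torus is within `K / n²` of `p_c`. -/
theorem pT_near (d : ℕ) (hd : 11 ≤ d) (C pc q : ℝ) (h0 : 0 < pc) (h1 : pc < 1) (hq : 0 < q)
    (hX : ∀ (n : ℕ) [NeZero n] (p : ℝ), 0 < p → p < pc → chi (torG d n) p 0 ≤ C / (pc - p))
    (hG : GLim d pc q) (lam : ℝ) (hlam : 0 < lam) :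
    ∃ (K : ℝ) (N0 : ℕ), 0 < K ∧ ∀ n : ℕ, N0 ≤ n → ∀ pT : ℝ, 0 ≤ pT → pT ≤ 1 →
      chi (torG d (n + 3)) pT 0 = lam * (((n : ℝ) + 3) ^ d) ^ ((1 : ℝ) / 3) →
      |pT - pc| ≤ K / ((n : ℝ) + 3) ^ 2 := by
  classical
  obtain ⟨η, hη⟩ : ∃ η, η = min (1 / 4) (q / 2) := ⟨_, rfl⟩
  have hη0 : 0 < η := by rw [hη]; exact lt_min (by norm_num) (by positivity)
  have hη4 : η ≤ 1 / 4 := by rw [hη]; exact min_le_left _ _
  have hηq : η ≤ q / 2 := by rw [hη]; exact min_le_right _ _
  obtain ⟨A, ε0, hA, hε0, hg⟩ := hG η hη0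
  obtain ⟨C', hC'⟩ : ∃ C', C' = max C 1 := ⟨_, rfl⟩
  have hC'1 : 1 ≤ C' := by rw [hC']; exact le_max_right _ _
  have hCC : C ≤ C' := by rw [hC']; exact le_max_left _ _
  obtain ⟨N1, hN1⟩ := exists_nat_ge (max (max (A / ε0) (A / (1 - pc))) (max (4 * lam / (3 / 4 * (q / 2) ^ 2 * A ^ 2)) (3 * C' / (lam * pc))))
  refine ⟨A + C' / lam, N1, by positivity, ?_⟩
  intro n hn pT hpT0 hpT1 hchi
  obtain ⟨N, hN⟩ : ∃ N : ℝ, N = (n : ℝ) + 3 := ⟨_, rfl⟩
  rw [← hN] at hchi ⊢
  have hNn : (N1 : ℝ) ≤ N := by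
    have : (N1 : ℝ) ≤ n := by exact_mod_cast hn
    rw [hN]; linarith
  have hN1' : 1 ≤ N := by
    rw [hN]
    have : (0 : ℝ) ≤ n := Nat.cast_nonneg _
    linarith
  have hN0 : 0 < N := by linarith
  have b1 : A / ε0 ≤ N := ((le_max_left _ _).trans (le_max_left _ _)).trans (hN1.trans hNn)
  have b2 : A / (1 - pc) ≤ N := ((le_max_right _ _).trans (le_max_left _ _)).trans (hN1.trans hNn)
  have b3 : 4 * lam / (3 / 4 * (q / 2) ^ 2 * A ^ 2) ≤ N :=
    ((le_max_left _ _).trans (le_max_right _ _)).trans (hN1.trans hNn)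
  have b4 : 3 * C' / (lam * pc) ≤ N := ((le_max_right _ _).trans (le_max_right _ _)).trans (hN1.trans hNn)
  have h1p : 0 < 1 - pc := by linarith
  rw [div_le_iff₀ hε0] at b1
  rw [div_le_iff₀ h1p] at b2
  rw [div_le_iff₀ (by positivity)] at b3 b4
  have hNsq : N ≤ N ^ 2 := by nlinarith
  have hN3 : N ≤ N ^ 3 := by nlinarith [pow_pos hN0 2]
  obtain ⟨W, hW⟩ : ∃ W, W = (N ^ d) ^ ((1 : ℝ) / 3) := ⟨_, rfl⟩
  obtain ⟨w1, w2⟩ := cube_root hN1' d hd
  rw [← hW] at hchi w1 w2
  have hW0 : 0 < W := lt_of_lt_of_le (by positivity) w1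
  rw [abs_le]
  constructor
  · -- lower bound
    have hlow : pc - pT ≤ C' / (lam * W) := by
      by_cases hlt : pT < pc
      · obtain ⟨p', hp'⟩ : ∃ p', p' = max pT (pc / 2) := ⟨_, rfl⟩
        have k1 : pT ≤ p' := by rw [hp']; exact le_max_left _ _
        have k2 : pc / 2 ≤ p' := by rw [hp']; exact le_max_right _ _
        have k3 : p' < pc := by rw [hp']; exact max_lt hlt (by linarith)
        have k4 : lam * W ≤ C' / (pc - p') := by
          rw [← hchi]
          refine (chi_mono hpT0 k1 (by linarith)).trans ((hX (n + 3) p' (by linarith) k3).trans ?_)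
          exact div_le_div_of_nonneg_right hCC (by linarith)
        have k5 : pc - p' ≤ C' / (lam * W) := by
          rw [le_div_iff₀ (by linarith : (0:ℝ) < pc - p')] at k4
          rw [le_div_iff₀ (by positivity)]
          linarith
        have k6 : C' / (lam * W) < pc / 2 := by
          rw [div_lt_iff₀ (by positivity)]
          have : lam * N ≤ lam * W := mul_le_mul_of_nonneg_left (hN3.trans w1) hlam.le
          nlinarith
        have k7 : p' = pT := by
          rw [hp']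
          apply max_eq_left
          by_contra hcon
          push Not at hcon
          rw [max_eq_right hcon.le] at hp'
          linarith
        rw [k7] at k5
        exact k5
      · have : 0 ≤ C' / (lam * W) := by positivity
        linarith
    have h2 : C' / (lam * W) ≤ C' / lam / N ^ 2 := by
      rw [div_div]
      apply div_le_div_of_nonneg_left (by linarith) (by positivity)
      apply mul_le_mul_of_nonneg_left _ hlam.le
      refine le_trans ?_ w1
      exact pow_le_pow_right₀ hN1' (by norm_num)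
    have h3 : (A + C' / lam) / N ^ 2 = A / N ^ 2 + C' / lam / N ^ 2 := add_div _ _ _
    have h4 : 0 ≤ A / N ^ 2 := by positivity
    rw [h3]
    linarith
  · -- upper bound
    obtain ⟨ε, hε⟩ : ∃ ε, ε = A / N ^ 2 := ⟨_, rfl⟩
    have hε' : 0 < ε := by rw [hε]; positivity
    have c1 : ε ≤ ε0 := by
      rw [hε, div_le_iff₀ (by positivity)]
      have : N * ε0 ≤ N ^ 2 * ε0 := mul_le_mul_of_nonneg_right hNsq hε0.le
      linarith
    have c2 : pc + ε ≤ 1 := by
      have : ε ≤ 1 - pc := by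
        rw [hε, div_le_iff₀ (by positivity)]
        have : N * (1 - pc) ≤ N ^ 2 * (1 - pc) := mul_le_mul_of_nonneg_right hNsq h1p.le
        linarith
      linarith
    have hNcast : (((n + 3 : ℕ) : ℝ)) = N := by rw [hN]; push_cast; ring
    have c3 := (hg (n + 3) ε hε' c1 (by rw [hNcast, hε]; field_simp; exact le_rfl)).1
    rw [hNcast] at c3
    have hq0 : 0 ≤ pc + ε := by linarith
    have c4 : (3 : ℝ) / 4 ≤ Ex (pc + ε) (fun ω => if q / 2 * ε * N ^ d ≤ mxc (gends (torG d (n + 3))) ω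
        then (1 : ℝ) else 0) := by
      have hall : ∀ ω : (torG d (n + 3)).edgeSet → Bool, (1 : ℝ) ≤
          (if q / 2 * ε * N ^ d ≤ mxc (gends (torG d (n + 3))) ω then (1 : ℝ) else 0) +
          (if η * ε * N ^ d < |mxc (gends (torG d (n + 3))) ω - q * ε * N ^ d| then (1 : ℝ) else 0) := by
        intro ω
        by_cases u1 : q / 2 * ε * N ^ d ≤ mxc (gends (torG d (n + 3))) ω
        · rw [if_pos u1]
          split_ifs <;> norm_num
        · rw [if_neg u1, if_pos]
          · norm_num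
          · push Not at u1
            rw [abs_sub_comm]
            refine lt_of_lt_of_le ?_ (le_abs_self _)
            have u4 : η * ε * N ^ d ≤ q / 2 * ε * N ^ d := by
              have : 0 ≤ ε * N ^ d := by positivity
              calc η * ε * N ^ d = η * (ε * N ^ d) := by ring
                _ ≤ q / 2 * (ε * N ^ d) := mul_le_mul_of_nonneg_right hηq this
                _ = _ := by ring
            have u6 : q * ε * N ^ d = q / 2 * ε * N ^ d + q / 2 * ε * N ^ d := by ring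
            linarith
      have k4 := Ex_mono hq0 c2 hall
      rw [Ex_const, Ex_add] at k4
      linarith
    have c5 := chi_ge (d := d) (n := n + 3) (p := pc + ε) (t := q / 2 * ε * N ^ d) hq0 c2 (by positivity)
    rw [hNcast] at c5
    have c6 : (q / 2 * ε * N ^ d) ^ 2 * (3 / 4) ≤ N ^ d * chi (torG d (n + 3)) (pc + ε) 0 := by
      rw [chi_eq]
      exact (mul_le_mul_of_nonneg_left c4 (by positivity)).trans c5
    have c7 : 3 / 4 * (q / 2) ^ 2 * A ^ 2 * N ^ 3 * N ^ (d - 7) ≤ chi (torG d (n + 3)) (pc + ε) 0 := by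
      have hNd : 0 < N ^ d := by positivity
      refine le_of_mul_le_mul_left ?_ hNd
      refine le_trans (le_of_eq ?_) c6
      have e1 : N ^ d = N ^ 4 * N ^ 3 * N ^ (d - 7) := by
        rw [← pow_add, ← pow_add]; congr 1; omega
      rw [hε]
      calc N ^ d * (3 / 4 * (q / 2) ^ 2 * A ^ 2 * N ^ 3 * N ^ (d - 7)) =
          3 / 4 * (q / 2) ^ 2 * A ^ 2 * N ^ d * (N ^ 3 * N ^ (d - 7)) := by ring
        _ = (q / 2 * (A / N ^ 2) * N ^ d) ^ 2 * (3 / 4) := by
          rw [e1]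
          field_simp
    have c8 : lam * W < chi (torG d (n + 3)) (pc + ε) 0 := by
      refine lt_of_lt_of_le ?_ c7
      have d1 : lam * W ≤ lam * N ^ (d - 7) := mul_le_mul_of_nonneg_left w2 hlam.le
      have d2 : lam < 3 / 4 * (q / 2) ^ 2 * A ^ 2 * N ^ 3 := by
        have d3 : N * (3 / 4 * (q / 2) ^ 2 * A ^ 2) ≤ N ^ 3 * (3 / 4 * (q / 2) ^ 2 * A ^ 2) :=
          mul_le_mul_of_nonneg_right hN3 (by positivity)
        linarith
      have d4 : 0 < N ^ (d - 7) := by positivity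
      nlinarith
    have c9 : pT < pc + ε := by
      by_contra hcon
      push Not at hcon
      have := chi_mono (d := d) (n := n + 3) hq0 hcon hpT1
      rw [hchi] at this
      linarith
    have h3 : (A + C' / lam) / N ^ 2 = A / N ^ 2 + C' / lam / N ^ 2 := add_div _ _ _
    have h4 : 0 ≤ C' / lam / N ^ 2 := by positivity
    rw [h3, ← hε]
    linarith

end Pool.Agent.PERC29.DZ
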