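import Pool.Agent.Lib.MP_29e17e_pr.Z.Fx
import Pool.Agent.Lib.MP_29e17e_pr.Z.Fy
import Pool.Agent.Lib.MP_29e17e_pr.Z.Fz

namespace Pool.Agent.PERC29
end Pool.Agent.PERC29
namespace Pool.Agent.PERC29.AE
end Pool.Agent.PERC29.AE

set_option autoImplicit false
set_option linter.unusedSectionVars false

/-! Assembly: the derivative of `θ` and the sequences. -/

open Finset Filter Topology

namespace Pool.Agent.PERC29.DZ

open Pool.Agent.PERC29 Pool.Agent.PERC29.AE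

/-- The right derivative of `θ` at `p_c`. -/
theorem theta_der (d : ℕ) (C pc q : ℝ) (h0 : 0 < pc) (h1 : pc < 1)
    (hB : ∀ N : ℕ, 1 ≤ N → armProb d N pc ≤ C / (N : ℝ) ^ 2)
    (hlim : ∀ η : ℝ, 0 < η → ∃ ε0 : ℝ, 0 < ε0 ∧ ∀ ε : ℝ, 0 < ε → ε ≤ ε0 →
      |th d (pc + ε) - q * ε| ≤ η * ε) :
    HasDerivWithinAt (fun e : ℝ => theta d (pc * (1 + e))) (q * pc) (Set.Ici 0) 0 := by
  have hth0 : theta d pc = 0 := by
    rw [theta_eq]
    apply le_antisymm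
    · refine le_of_forall_pos_le_add fun η hη => ?_
      obtain ⟨M, hM⟩ := exists_nat_ge (|C| / η)
      have hM1 : (1 : ℝ) ≤ ((M + 1 : ℕ) : ℝ) := by exact_mod_cast (by omega : 1 ≤ M + 1)
      have k1 := hB (M + 1) (by omega)
      rw [arm_eq] at k1
      have k2 := th_le (d := d) h0.le h1.le (M + 1)
      have k3 : C / (((M + 1 : ℕ) : ℝ)) ^ 2 ≤ η := by
        rw [div_le_iff₀ (by positivity)]
        rw [div_le_iff₀ hη] at hM
        have k4 : (M : ℝ) ≤ ((M + 1 : ℕ) : ℝ) ^ 2 := by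
          push_cast
          have : (0 : ℝ) ≤ M := Nat.cast_nonneg _
          nlinarith
        have k5 : C ≤ |C| := le_abs_self C
        nlinarith
      linarith
    · exact le_th fun M => by
        unfold aM
        exact Ex_nonneg h0.le h1.le fun ω => by split_ifs <;> norm_num
  rw [hasDerivWithinAt_iff_isLittleO, Asymptotics.isLittleO_iff]
  intro c hc
  obtain ⟨ε0, hε0, hl⟩ := hlim (c / pc) (by positivity)
  have hev : ∀ᶠ x : ℝ in 𝓝[Set.Ici 0] 0, x < ε0 / pc :=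
    mem_nhdsWithin_of_mem_nhds (Iio_mem_nhds (by positivity))
  filter_upwards [hev, self_mem_nhdsWithin] with x hx hx0
  simp only [sub_zero, add_zero, mul_one, smul_eq_mul]
  rw [hth0, sub_zero]
  rcases eq_or_lt_of_le (show (0 : ℝ) ≤ x from hx0) with hz | hpos
  · rw [← hz]
    simp [hth0]
  · have hε : 0 < pc * x := by positivity
    have hεle : pc * x ≤ ε0 := by
      rw [lt_div_iff₀ h0] at hx
      linarith
    have k := hl (pc * x) hε hεle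
    have e1 : pc * (1 + x) = pc + pc * x := by ring
    rw [e1, theta_eq]
    have e2 : q * (pc * x) = x * (q * pc) := by ring
    rw [e2] at k
    rw [Real.norm_eq_abs, Real.norm_eq_abs, abs_of_pos hpos]
    refine k.trans (le_of_eq ?_)
    field_simp

open scoped Classical in
/-- Sequences. -/
theorem seq_lim (d : ℕ) (hd : 11 ≤ d) (C pc q : ℝ) (h0 : 0 < pc) (h1 : pc < 1) (hq : 0 < q)
    (hX : ∀ (n : ℕ) [NeZero n] (p : ℝ), 0 < p → p < pc → chi (torG d n) p 0 ≤ C / (pc - p))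
    (hG : GLim d pc q) (lam : ℝ) (hlam : 0 < lam) (pT : ℕ → ℝ)
    (hpT : ∀ᶠ n : ℕ in atTop, 0 ≤ pT n ∧ pT n ≤ 1 ∧
      chi (torG d (n + 3)) (pT n) 0 = lam * (((n : ℝ) + 3) ^ d) ^ ((1 : ℝ) / 3))
    (ε : ℕ → ℝ) (hε0 : Tendsto ε atTop (𝓝 0))
    (hεn : Tendsto (fun n : ℕ => ε n * ((n : ℝ) + 3) ^ 2) atTop atTop) (δ : ℝ) (hδ : 0 < δ)
    (η : ℝ) (hη : 0 < η) :
    ∀ᶠ n : ℕ in atTop, (0 ≤ pT n * (1 + ε n) ∧ pT n * (1 + ε n) ≤ 1) ∧
      prob (torG d (n + 3)) (pT n * (1 + ε n)) (fun ω => δ * ε n * ((n : ℝ) + 3) ^ d <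
        |(maxCluster (torG d (n + 3)) ω : ℝ) - q * pc * ε n * ((n : ℝ) + 3) ^ d|) ≤ η ∧
      prob (torG d (n + 3)) (pT n * (1 + ε n)) (fun ω => ∃ x y,
        ¬ (openGraph (torG d (n + 3)) ω).Reachable x y ∧
        δ * ε n * ((n : ℝ) + 3) ^ d < (clusterSize (torG d (n + 3)) ω x : ℝ) ∧
        δ * ε n * ((n : ℝ) + 3) ^ d < (clusterSize (torG d (n + 3)) ω y : ℝ)) ≤ η := by
  obtain ⟨K, N0, hK, hnear⟩ := pT_near d hd C pc q h0 h1 hq hX hG lam hlam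
  obtain ⟨η', hη'⟩ : ∃ η', η' = min η (δ / 4) := ⟨_, rfl⟩
  have hη'0 : 0 < η' := by rw [hη']; exact lt_min hη (by positivity)
  have hη'1 : η' ≤ η := by rw [hη']; exact min_le_left _ _
  have hη'2 : η' ≤ δ / 4 := by rw [hη']; exact min_le_right _ _
  obtain ⟨τ, hτ⟩ : ∃ τ, τ = min (pc / 2) (δ / (2 * q)) := ⟨_, rfl⟩
  have hτ0 : 0 < τ := by rw [hτ]; exact lt_min (by positivity) (by positivity)
  have hτ1 : τ ≤ pc / 2 := by rw [hτ]; exact min_le_left _ _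
  have hτ2 : q * τ ≤ δ / 2 := by
    have : τ ≤ δ / (2 * q) := by rw [hτ]; exact min_le_right _ _
    rw [le_div_iff₀ (by positivity)] at this
    linarith
  obtain ⟨A, e0, hA, he0, hg⟩ := hG η' hη'0
  have ev1 : ∀ᶠ n : ℕ in atTop, ε n < min (min 1 (e0 / 2)) ((1 - pc) / 2) :=
    hε0.eventually (Iio_mem_nhds (lt_min (lt_min one_pos (by positivity)) (by linarith)))
  have ev2 : ∀ᶠ n : ℕ in atTop, max (2 * K / τ) (2 * A / pc) ≤ ε n * ((n : ℝ) + 3) ^ 2 :=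
    hεn.eventually (eventually_ge_atTop _)
  filter_upwards [ev1, ev2, hpT, eventually_ge_atTop N0] with n b1 b2 b3 b4
  obtain ⟨p0, p1, pchi⟩ := b3
  have hnr := hnear n b4 (pT n) p0 p1 pchi
  obtain ⟨N, hN⟩ : ∃ N : ℝ, N = (n : ℝ) + 3 := ⟨_, rfl⟩
  have hNcast : (((n + 3 : ℕ) : ℝ)) = N := by rw [hN]; push_cast; ring
  rw [← hN] at b2 hnr ⊢
  have hN0 : 0 < N := by
    rw [hN]
    have : (0 : ℝ) ≤ n := Nat.cast_nonneg _
    linarith
  have c1 : 2 * K / τ ≤ ε n * N ^ 2 := (le_max_left _ _).trans b2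
  have c2 : 2 * A / pc ≤ ε n * N ^ 2 := (le_max_right _ _).trans b2
  have c3 : ε n ≤ 1 := (b1.trans_le ((min_le_left _ _).trans (min_le_left _ _))).le
  have c4 : ε n ≤ e0 / 2 := (b1.trans_le ((min_le_left _ _).trans (min_le_right _ _))).le
  have c5 : ε n ≤ (1 - pc) / 2 := (b1.trans_le (min_le_right _ _)).le
  have hεpos : 0 < ε n := by
    have h2 : 0 < 2 * K / τ := by positivity
    have h3 : 0 < ε n * N ^ 2 := lt_of_lt_of_le h2 c1
    exact pos_of_mul_pos_left h3 (by positivity)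
  rw [div_le_iff₀ hτ0] at c1
  rw [div_le_iff₀ h0] at c2
  obtain ⟨ε', hε'⟩ : ∃ ε', ε' = pT n * (1 + ε n) - pc := ⟨_, rfl⟩
  have hp : pT n * (1 + ε n) = pc + ε' := by rw [hε']; ring
  have d1 : |ε' - pc * ε n| ≤ τ * ε n := by
    have e1 : ε' - pc * ε n = (pT n - pc) * (1 + ε n) := by rw [hε']; ring
    rw [e1, abs_mul, abs_of_pos (by linarith : (0 : ℝ) < 1 + ε n)]
    have e2 : |pT n - pc| * (1 + ε n) ≤ K / N ^ 2 * 2 :=
      mul_le_mul hnr (by linarith) (by linarith) (by positivity)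
    refine e2.trans ?_
    rw [div_mul_eq_mul_div, div_le_iff₀ (by positivity)]
    linarith
  obtain ⟨d2, d3⟩ := abs_le.1 d1
  have f1 : τ * ε n ≤ pc / 2 * ε n := mul_le_mul_of_nonneg_right hτ1 hεpos.le
  have hε'low : pc / 2 * ε n ≤ ε' := by linarith
  have hε'pos : 0 < ε' := lt_of_lt_of_le (by positivity) hε'low
  have hε'up : ε' ≤ 2 * ε n := by
    have : pc * ε n ≤ 1 * ε n := mul_le_mul_of_nonneg_right h1.le hεpos.le
    linarith
  have hε'e0 : ε' ≤ e0 := by linarith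
  have hq1 : pc + ε' ≤ 1 := by linarith
  have hq0 : 0 ≤ pc + ε' := by linarith
  have hAn : A ≤ ε' * (((n + 3 : ℕ) : ℝ)) ^ 2 := by
    rw [hNcast]
    have : pc / 2 * ε n * N ^ 2 ≤ ε' * N ^ 2 := mul_le_mul_of_nonneg_right hε'low (by positivity)
    linarith
  obtain ⟨g1, g2⟩ := hg (n + 3) ε' hε'pos hε'e0 hAn
  rw [hNcast] at g1 g2
  rw [hp]
  have hNd : 0 < N ^ d := by positivity
  have hη'ε : η' * ε' ≤ δ / 2 * ε n := by
    calc η' * ε' ≤ δ / 4 * (2 * ε n) := mul_le_mul hη'2 hε'up hε'pos.le (by positivity)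
      _ = _ := by ring
  refine ⟨⟨hq0, hq1⟩, ?_, ?_⟩
  · unfold prob
    rw [expect_eq]
    refine (Ex_mono hq0 hq1 fun ω => ?_).trans (g1.trans hη'1)
    by_cases hx : δ * ε n * N ^ d < |(maxCluster (torG d (n + 3)) ω : ℝ) - q * pc * ε n * N ^ d|
    · rw [if_pos hx, if_pos]
      rw [maxCluster_eq] at hx
      have t1 : |mxc (gends (torG d (n + 3))) ω - q * pc * ε n * N ^ d| ≤
          |mxc (gends (torG d (n + 3))) ω - q * ε' * N ^ d| + |q * ε' * N ^ d - q * pc * ε n * N ^ d| :=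
        abs_sub_le _ _ _
      have t2 : |q * ε' * N ^ d - q * pc * ε n * N ^ d| ≤ q * τ * ε n * N ^ d := by
        have : q * ε' * N ^ d - q * pc * ε n * N ^ d = (q * N ^ d) * (ε' - pc * ε n) := by ring
        rw [this, abs_mul, abs_of_pos (by positivity : (0 : ℝ) < q * N ^ d)]
        calc q * N ^ d * |ε' - pc * ε n| ≤ q * N ^ d * (τ * ε n) :=
              mul_le_mul_of_nonneg_left d1 (by positivity)
          _ = _ := by ring
      have t3 : q * τ * ε n * N ^ d ≤ δ / 2 * ε n * N ^ d :=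
        mul_le_mul_of_nonneg_right (mul_le_mul_of_nonneg_right hτ2 hεpos.le) hNd.le
      have t4 : η' * ε' * N ^ d ≤ δ / 2 * ε n * N ^ d := mul_le_mul_of_nonneg_right hη'ε hNd.le
      have t5 : δ * ε n * N ^ d = δ / 2 * ε n * N ^ d + δ / 2 * ε n * N ^ d := by ring
      linarith
    · rw [if_neg hx]
      split_ifs <;> norm_num
  · unfold prob
    rw [expect_eq]
    refine (Ex_mono hq0 hq1 fun ω => ?_).trans (g2.trans hη'1)
    have t4 : η' * ε' * N ^ d ≤ δ * ε n * N ^ d := by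
      have : δ / 2 * ε n ≤ δ * ε n := mul_le_mul_of_nonneg_right (by linarith) hεpos.le
      exact mul_le_mul_of_nonneg_right (hη'ε.trans this) hNd.le
    by_cases hx : ∃ x y, ¬ (openGraph (torG d (n + 3)) ω).Reachable x y ∧
        δ * ε n * N ^ d < (clusterSize (torG d (n + 3)) ω x : ℝ) ∧
        δ * ε n * N ^ d < (clusterSize (torG d (n + 3)) ω y : ℝ)
    · rw [if_pos hx, if_pos]
      obtain ⟨x, y, r1, r2, r3⟩ := hx
      rw [cz_eq] at r2 r3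
      refine ⟨x, y, t4.trans r2.le, t4.trans r3.le, fun h => r1 ?_⟩
      rw [mem_cu, rch_iff] at h
      exact h
    · rw [if_neg hx]
      split_ifs <;> norm_num

lemma prob_nonneg {V : Type} [Fintype V] [DecidableEq V] (G : SimpleGraph V) {p : ℝ} (h0 : 0 ≤ p) (h1 : p ≤ 1)
    (A : (G.edgeSet → Bool) → Prop) : 0 ≤ prob G p A := by
  classical
  unfold prob
  rw [expect_eq]
  exact Ex_nonneg h0 h1 fun ω => by split_ifs <;> norm_num

/-- The final theorem. -/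
theorem final (d : ℕ) (C c₀ pc : ℝ) (hd : 11 ≤ d) (hc₀ : 0 < c₀) (h0 : 0 < pc) (h1 : pc < 1)
    (hU : ∀ (l : ℕ) (x y : Fin d → Fin l), tau (boxG d l) pc x y ≤ C / (1 + (nd x y : ℝ)) ^ (d - 2))
    (hL : ∀ (l : ℕ) (x y : Fin d → Fin l), bul x → bul y → c₀ / (l : ℝ) ^ (d - 2) ≤ tau (boxG d l) pc x y)
    (hB : ∀ N : ℕ, 1 ≤ N → armProb d N pc ≤ C / (N : ℝ) ^ 2)
    (hT : ∀ (n : ℕ) [NeZero n] (x : Fin d → ZMod n) (k : ℕ), 1 ≤ k →
      prob (torG d n) pc (fun ω => k ≤ clusterSize (torG d n) ω x) ≤ C / Real.sqrt k)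
    (hX : ∀ (n : ℕ) [NeZero n] (p : ℝ), 0 < p → p < pc → chi (torG d n) p 0 ≤ C / (pc - p)) :
    ∃ c : ℝ, 0 < c ∧ HasDerivWithinAt (fun e : ℝ => theta d (pc * (1 + e))) c (Set.Ici 0) 0 ∧
      ∀ lam : ℝ, 0 < lam → ∀ pT : ℕ → ℝ,
        (∀ᶠ n : ℕ in atTop, 0 ≤ pT n ∧ pT n ≤ 1 ∧
          chi (torG d (n + 3)) (pT n) 0 = lam * (((n : ℝ) + 3) ^ d) ^ ((1 : ℝ) / 3)) →
        ∀ ε : ℕ → ℝ, Tendsto ε atTop (𝓝 0) →
          Tendsto (fun n : ℕ => ε n * ((n : ℝ) + 3) ^ 2) atTop atTop → ∀ δ : ℝ, 0 < δ →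
          Tendsto (fun n : ℕ => prob (torG d (n + 3)) (pT n * (1 + ε n)) (fun ω =>
            δ * ε n * ((n : ℝ) + 3) ^ d <
              |(maxCluster (torG d (n + 3)) ω : ℝ) - c * ε n * ((n : ℝ) + 3) ^ d|)) atTop (𝓝 0) ∧
          Tendsto (fun n : ℕ => prob (torG d (n + 3)) (pT n * (1 + ε n)) (fun ω => ∃ x y,
            ¬ (openGraph (torG d (n + 3)) ω).Reachable x y ∧
            δ * ε n * ((n : ℝ) + 3) ^ d < (clusterSize (torG d (n + 3)) ω x : ℝ) ∧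
            δ * ε n * ((n : ℝ) + 3) ^ d < (clusterSize (torG d (n + 3)) ω y : ℝ))) atTop (𝓝 0) := by
  obtain ⟨C', s0, c, hC', hs0, ht, hHyp, hHT⟩ := hyps_of d C c₀ pc hd hc₀ h0 h1 hU hL hB hT hX
  obtain ⟨q, hq, hlim, hG⟩ := giant_lim d C' c₀ s0 c s0 pc hC' hc₀ hs0 ht hHyp hHT
  refine ⟨q * pc, by positivity, theta_der d C pc q h0 h1 hB hlim, ?_⟩
  intro lam hlam pT hpT ε hε0 hεn δ hδ
  have key := seq_lim d hd C pc q h0 h1 hq hX hG lam hlam pT hpT ε hε0 hεn δ hδ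
  constructor
  · rw [Metric.tendsto_nhds]
    intro r hr
    filter_upwards [key (r / 2) (by positivity)] with n hn
    obtain ⟨⟨a1, a2⟩, a3, -⟩ := hn
    rw [Real.dist_eq, sub_zero, abs_of_nonneg (prob_nonneg _ a1 a2 _)]
    linarith
  · rw [Metric.tendsto_nhds]
    intro r hr
    filter_upwards [key (r / 2) (by positivity)] with n hn
    obtain ⟨⟨a1, a2⟩, -, a4⟩ := hn
    rw [Real.dist_eq, sub_zero, abs_of_nonneg (prob_nonneg _ a1 a2 _)]
    linarith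

end Pool.Agent.PERC29.DZ
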