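import Pool.Agent.Lib.MP_29e17e_pr.Z.Sa
import Pool.Agent.Lib.MP_29e17e_pr.Z.Bc

set_option autoImplicit false
set_option linter.unusedSectionVars false

/-! Assembly: the right derivative of `θ` at `p_c`. -/

open Finset Filter Topology

namespace Pool.Agent.PERC29.DZ

open Pool.Agent.PERC29 Pool.Agent.PERC29.AE

/-- Large finite clusters are rare. -/
def UI (d : ℕ) (pc : ℝ) : Prop := ∀ η : ℝ, 0 < η → ∃ A1 ε0 : ℝ, 1 ≤ A1 ∧ 0 < ε0 ∧ ∀ ε : ℝ, 0 < ε → ε ≤ ε0 →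
  ∀ (l : ℕ) (x : Fin d → Fin l), Ex (pc + ε) (fun ω => open scoped Classical in
    if A1 / ε ^ 2 ≤ cz (gends (boxG d l)) ω x then (1 : ℝ) else 0) ≤ th d (pc + ε) + η * ε

lemma crit_mB {d : ℕ} {C c e pc : ℝ} (ht : HT d C c e pc) {b : ℝ} (hb : 0 < b) (hB : RB d pc b) (μ ζ : ℝ)
    (hμ : 0 < μ) (hζ : 0 < ζ) (hζ1 : ζ ≤ 1 / 2) :
    ∃ ε0 : ℝ, 0 < ε0 ∧ ∀ (ε : ℝ) (l : ℕ), 0 < ε → ε ≤ ε0 → 1 / (b * μ ^ 2 * ε ^ 2) ^ 5 ≤ (l : ℝ) →
      (1 - 2 * ζ) * (μ * ε) ≤ mB d l pc (b * μ ^ 2 * ε ^ 2) ∧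
      mB d l pc (b * μ ^ 2 * ε ^ 2) ≤ (1 + ζ) * (μ * ε) := by
  obtain ⟨h0, hh0, hcr⟩ := crit_h ht hb.le hB (ζ * b) (by positivity)
  obtain ⟨h1, hh1, hmB⟩ := mB_Mh ht ζ hζ
  obtain ⟨c', hc', hlow⟩ := Mh_low ht
  have hp0 : 0 < pc := ht.hp.p0
  have hp1 : pc < 1 := ht.hp.p1
  have hbμ : 0 < b * μ ^ 2 := by positivity
  refine ⟨min 1 (min (min h0 h1) (1 / 2) / (b * μ ^ 2)), lt_min one_pos (by positivity), ?_⟩
  intro ε l hε hεle hl
  have he1 : ε ≤ 1 := hεle.trans (min_le_left _ _)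
  have he2 : b * μ ^ 2 * ε ≤ min (min h0 h1) (1 / 2) := by
    have := hεle.trans (min_le_right _ _)
    rw [le_div_iff₀ hbμ] at this
    linarith
  obtain ⟨h, hh⟩ : ∃ h, h = b * μ ^ 2 * ε ^ 2 := ⟨_, rfl⟩
  have hhε : h ≤ b * μ ^ 2 * ε := by
    rw [hh]
    have : ε ^ 2 ≤ ε := pow_le_of_le_one hε.le he1 two_ne_zero
    exact mul_le_mul_of_nonneg_left this hbμ.le
  have hh' := hhε.trans he2
  have hha : h ≤ h0 := hh'.trans ((min_le_left _ _).trans (min_le_left _ _))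
  have hhb : h ≤ h1 := hh'.trans ((min_le_left _ _).trans (min_le_right _ _))
  have hhc : h ≤ 1 / 2 := hh'.trans (min_le_right _ _)
  have hpos : 0 < h := by rw [hh]; positivity
  rw [← hh] at hl ⊢
  have k1 := hcr h hpos hha
  have k2 := hmB pc h l le_rfl (by linarith [ht.e0]) hpos hhb hl
  have k3 := hlow pc h le_rfl hp1.le hpos (by linarith)
  have k4 := mB_ub d l pc h hp0.le hp1.le hpos.le (by linarith)
  have hM0 : 0 < Mh d pc h := lt_of_lt_of_le (by positivity) k3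
  obtain ⟨M, hM⟩ : ∃ M, M = Mh d pc h := ⟨_, rfl⟩
  rw [← hM] at k1 k2 k4 hM0
  obtain ⟨X, hX⟩ : ∃ X, X = μ * ε := ⟨_, rfl⟩
  have hX0 : 0 < X := by rw [hX]; positivity
  have hhX : h = b * X ^ 2 := by rw [hh, hX]; ring
  rw [← hX]
  rw [abs_le] at k1
  obtain ⟨k5, k6⟩ := k1
  have u1 : (1 - ζ) * M ^ 2 ≤ X ^ 2 := by
    have : b * ((1 - ζ) * M ^ 2) ≤ b * X ^ 2 := by rw [← hhX]; linarith
    exact le_of_mul_le_mul_left this hb
  have u2 : X ^ 2 ≤ (1 + ζ) * M ^ 2 := by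
    have : b * X ^ 2 ≤ b * ((1 + ζ) * M ^ 2) := by rw [← hhX]; linarith
    exact le_of_mul_le_mul_left this hb
  have v1 : M ≤ (1 + ζ) * X := by
    by_contra hcon
    push Not at hcon
    have w1 : ((1 + ζ) * X) ^ 2 ≤ M ^ 2 := pow_le_pow_left₀ (by positivity) hcon.le 2
    have w2 : (1 - ζ) * ((1 + ζ) * X) ^ 2 ≤ X ^ 2 := (mul_le_mul_of_nonneg_left w1 (by linarith)).trans u1
    have w3 : X ^ 2 < (1 - ζ) * ((1 + ζ) * X) ^ 2 := by
      have e1 : (1 - ζ) * ((1 + ζ) * X) ^ 2 = X ^ 2 + X ^ 2 * (ζ * (1 - ζ - ζ ^ 2)) := by ring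
      have e2 : 0 < X ^ 2 * (ζ * (1 - ζ - ζ ^ 2)) := by
        have : 0 < 1 - ζ - ζ ^ 2 := by
          have := mul_le_mul_of_nonneg_left hζ1 hζ.le
          linarith
        positivity
      linarith
    linarith
  have v2 : (1 - ζ) * X ≤ M := by
    by_contra hcon
    push Not at hcon
    have w1 : M ^ 2 ≤ ((1 - ζ) * X) ^ 2 := pow_le_pow_left₀ hM0.le hcon.le 2
    have w2 : X ^ 2 ≤ (1 + ζ) * ((1 - ζ) * X) ^ 2 := u2.trans (mul_le_mul_of_nonneg_left w1 (by linarith))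
    have e1 : (1 + ζ) * ((1 - ζ) * X) ^ 2 = X ^ 2 - X ^ 2 * (ζ * (1 + ζ - ζ ^ 2)) := by ring
    have e2 : 0 < X ^ 2 * (ζ * (1 + ζ - ζ ^ 2)) := by
      have : 0 < 1 + ζ - ζ ^ 2 := by
        have := mul_le_mul_of_nonneg_left hζ1 hζ.le
        linarith
      positivity
    linarith
  constructor
  · have w1 : (1 - ζ) * ((1 - ζ) * X) ≤ (1 - ζ) * M := mul_le_mul_of_nonneg_left v2 (by linarith)
    have w2 : (1 - 2 * ζ) * X ≤ (1 - ζ) * ((1 - ζ) * X) := by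
      have : 0 ≤ ζ ^ 2 * X := by positivity
      linarith
    linarith
  · linarith

lemma inv5 {x y : ℝ} (hx : 0 < x) (hxy : x ≤ y) : 1 / y ^ 5 ≤ 1 / x ^ 5 :=
  one_div_le_one_div_of_le (by positivity) (pow_le_pow_left₀ hx.le hxy 5)

lemma theta_up {d : ℕ} {C c e pc : ℝ} (ht : HT d C c e pc) {a b : ℝ} (ha : 0 ≤ a) (hb : 0 < b)
    (hA : RA d pc a) (hB : RB d pc b) (s : ℝ) (hs : 0 < s) (hs1 : s ≤ 1 / 2) :
    ∃ ε0 : ℝ, 0 < ε0 ∧ ∀ ε : ℝ, 0 < ε → ε ≤ ε0 →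
      th d (pc + ε) ≤ (1 + 4 * s) * ((a + 2 * s) / b) * ε := by
  obtain ⟨μ, hμd⟩ : ∃ μ, μ = (a + 2 * s) / b := ⟨_, rfl⟩
  have hμ : 0 < μ := by rw [hμd]; positivity
  have hbμ : b * μ = a + 2 * s := by rw [hμd]; field_simp
  obtain ⟨ζ, hζd⟩ : ∃ ζ, ζ = s / (2 * (a + 1)) := ⟨_, rfl⟩
  have hζ : 0 < ζ := by rw [hζd]; positivity
  have hζa : ζ * (2 * (a + 1)) = s := by rw [hζd]; field_simp
  have hζs : ζ ≤ s / 2 := by
    have := mul_nonneg hζ.le ha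
    linarith
  have hζ1 : ζ ≤ 1 / 2 := by linarith
  have hζ2 : ζ * (a + s) ≤ s / 2 := by
    have := mul_le_mul_of_nonneg_left hs1 hζ.le
    linarith
  obtain ⟨δ, hδd⟩ : ∃ δ, δ = min 1 (μ * s / 2) := ⟨_, rfl⟩
  have hδ : 0 < δ := by rw [hδd]; exact lt_min one_pos (by positivity)
  have hδ1 : δ ≤ 1 := by rw [hδd]; exact min_le_left _ _
  have hδ2 : δ ≤ μ * s / 2 := by rw [hδd]; exact min_le_right _ _
  obtain ⟨ε1, hε1, hbar⟩ := bar_up ht ha hA (a + s) δ (by linarith) hδ hδ1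
  obtain ⟨ε2, hε2, hcm⟩ := crit_mB ht hb hB μ ζ hμ hζ hζ1
  obtain ⟨h3, hh3, hmB⟩ := mB_Mh ht ζ hζ
  have he0 : 0 < e := ht.e0
  have hp0 : 0 < pc := ht.hp.p0
  have hpe := ht.e1
  have hbμ2 : 0 < b * μ ^ 2 := by positivity
  refine ⟨min (min ε1 ε2) (min (min e 1) (min (min ε1 h3) 1 / (b * μ ^ 2))), lt_min (lt_min hε1 hε2)
    (lt_min (lt_min he0 one_pos) (by positivity)), ?_⟩
  intro ε hε hεle
  have g1 : ε ≤ ε1 := hεle.trans ((min_le_left _ _).trans (min_le_left _ _))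
  have g2 : ε ≤ ε2 := hεle.trans ((min_le_left _ _).trans (min_le_right _ _))
  have g3 : ε ≤ e := hεle.trans ((min_le_right _ _).trans ((min_le_left _ _).trans (min_le_left _ _)))
  have g4 : ε ≤ 1 := hεle.trans ((min_le_right _ _).trans ((min_le_left _ _).trans (min_le_right _ _)))
  have g5 : b * μ ^ 2 * ε ≤ min (min ε1 h3) 1 := by
    have := hεle.trans ((min_le_right _ _).trans (min_le_right _ _))
    rw [le_div_iff₀ hbμ2] at this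
    linarith
  obtain ⟨h, hh⟩ : ∃ h, h = b * μ ^ 2 * ε ^ 2 := ⟨_, rfl⟩
  have hhε : h ≤ b * μ ^ 2 * ε := by
    rw [hh]
    have : ε ^ 2 ≤ ε := pow_le_of_le_one hε.le g4 two_ne_zero
    exact mul_le_mul_of_nonneg_left this hbμ2.le
  have hh' := hhε.trans g5
  have hha : h ≤ ε1 := hh'.trans ((min_le_left _ _).trans (min_le_left _ _))
  have hhb : h ≤ h3 := hh'.trans ((min_le_left _ _).trans (min_le_right _ _))
  have hhc : h ≤ 1 := hh'.trans (min_le_right _ _)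
  have hpos : 0 < h := by rw [hh]; positivity
  obtain ⟨l, hl⟩ := exists_nat_ge (max (1 / (δ * ε ^ 2) ^ 5) (1 / h ^ 5))
  have hl1 : 1 / (δ * ε ^ 2) ^ 5 ≤ (l : ℝ) := (le_max_left _ _).trans hl
  have hl2 : 1 / h ^ 5 ≤ (l : ℝ) := (le_max_right _ _).trans hl
  obtain ⟨m1, m2⟩ := hcm ε l hε g2 (by rw [← hh]; exact hl2)
  rw [← hh] at m1 m2
  obtain ⟨M0, hM0⟩ : ∃ M0, M0 = mB d l pc h := ⟨_, rfl⟩
  rw [← hM0] at m1 m2
  have hM00 : 0 ≤ M0 := by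
    rw [hM0]; exact mB_nonneg d l pc h hp0.le (by linarith) hpos.le hhc
  have hεμ : 0 < μ * ε ^ 2 := by positivity
  have q1 : δ * ε ^ 2 ≤ h - (a + s) * M0 * ε := by
    have w1 : (a + s) * M0 * ε ≤ (a + s) * ((1 + ζ) * (μ * ε)) * ε :=
      mul_le_mul_of_nonneg_right (mul_le_mul_of_nonneg_left m2 (by linarith)) hε.le
    have w2 : h - (a + s) * ((1 + ζ) * (μ * ε)) * ε = (μ * ε ^ 2) * (s - ζ * (a + s)) := by
      have : h = (b * μ) * (μ * ε ^ 2) := by rw [hh]; ring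
      rw [this, hbμ]; ring
    have w3 : (μ * ε ^ 2) * (s / 2) ≤ (μ * ε ^ 2) * (s - ζ * (a + s)) :=
      mul_le_mul_of_nonneg_left (by linarith) hεμ.le
    have w4 : δ * ε ^ 2 ≤ μ * s / 2 * ε ^ 2 := mul_le_mul_of_nonneg_right hδ2 (by positivity)
    linarith
  have hb1 := hbar ε h l hε g1 hpos hha (by rw [← hM0]; exact q1) hl1
  rw [← hM0] at hb1
  obtain ⟨h1, hh1⟩ : ∃ h1, h1 = h - (a + s) * M0 * ε := ⟨_, rfl⟩
  rw [← hh1] at hb1 q1
  have hδε : 0 < δ * ε ^ 2 := by positivity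
  have hh1p : 0 < h1 := lt_of_lt_of_le hδε q1
  have hh1h : h1 ≤ h := by
    rw [hh1]
    have : 0 ≤ (a + s) * M0 * ε := by positivity
    linarith
  have r1 := hmB (pc + ε) h1 l (by linarith) (by linarith) hh1p (hh1h.trans hhb)
    ((inv5 hδε q1).trans hl1)
  have r2 := th_le_Mh d (p := pc + ε) (h := h1) (by linarith) (by linarith) hh1p (hh1h.trans hhc)
  have r3 : (1 - ζ) * th d (pc + ε) ≤ (1 + ζ) * (μ * ε) :=
    (mul_le_mul_of_nonneg_left r2 (by linarith)).trans (r1.trans (hb1.trans m2))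
  have hX : 0 < μ * ε := by positivity
  have r4 : th d (pc + ε) ≤ (1 + 4 * ζ) * (μ * ε) := by
    have w1 : (1 + ζ) * (μ * ε) ≤ (1 - ζ) * ((1 + 4 * ζ) * (μ * ε)) := by
      have : 0 ≤ (μ * ε) * (ζ * (2 - 4 * ζ)) := by
        have : 0 ≤ 2 - 4 * ζ := by linarith
        positivity
      linarith
    exact le_of_mul_le_mul_left (r3.trans w1) (by linarith)
  rw [← hμd]
  refine r4.trans ?_
  calc (1 + 4 * ζ) * (μ * ε) ≤ (1 + 4 * s) * (μ * ε) := by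
        apply mul_le_mul_of_nonneg_right _ hX.le
        linarith
    _ = (1 + 4 * s) * μ * ε := by ring

lemma theta_low {d : ℕ} {C c e pc : ℝ} (ht : HT d C c e pc) {a b : ℝ} (ha : 0 < a) (hb : 0 < b)
    (hA : RA d pc a) (hB : RB d pc b) (hUI : UI d pc) (η : ℝ) (hη : 0 < η) :
    ∃ ε0 : ℝ, 0 < ε0 ∧ ∀ ε : ℝ, 0 < ε → ε ≤ ε0 → (a / b) * ε - η * ε ≤ th d (pc + ε) := by
  obtain ⟨A1, e1, hA1, he1, hui⟩ := hUI (η / 4) (by positivity)
  have hA10 : 0 < A1 := by linarith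
  have hC1 : 1 ≤ C := ht.hp.C1
  have hC0 : 0 < C := by linarith
  obtain ⟨μ, hμd⟩ : ∃ μ, μ = a / b := ⟨_, rfl⟩
  have hμ : 0 < μ := by rw [hμd]; positivity
  have hbμ : b * μ = a := by rw [hμd]; field_simp
  obtain ⟨D, hD⟩ : ∃ D, D = 4 * (10 * μ * a * C * A1 + μ) := ⟨_, rfl⟩
  have hD0 : 0 < D := by rw [hD]; positivity
  obtain ⟨s, hsd⟩ : ∃ s, s = min (1 / 2) (η / D) := ⟨_, rfl⟩
  have hs : 0 < s := by rw [hsd]; exact lt_min (by norm_num) (by positivity)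
  have hs1 : s ≤ 1 / 2 := by rw [hsd]; exact min_le_left _ _
  have hs2 : s * D ≤ η := by
    have : s ≤ η / D := by rw [hsd]; exact min_le_right _ _
    rwa [le_div_iff₀ hD0] at this
  have hs3 : 10 * μ * a * C * A1 * s ≤ η / 4 := by
    have : 0 ≤ μ * s := by positivity
    rw [hD] at hs2
    linarith
  have hs4 : μ * s ≤ η / 4 := by
    have : 0 ≤ 10 * μ * a * C * A1 * s := by positivity
    rw [hD] at hs2
    linarith
  obtain ⟨ζ, hζd⟩ : ∃ ζ, ζ = s / 2 := ⟨_, rfl⟩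
  have hζ : 0 < ζ := by rw [hζd]; positivity
  have hζ1 : ζ ≤ 1 / 2 := by linarith
  obtain ⟨δ, hδd⟩ : ∃ δ, δ = min 1 (μ * a * s / 2) := ⟨_, rfl⟩
  have hδ : 0 < δ := by rw [hδd]; exact lt_min one_pos (by positivity)
  have hδ1 : δ ≤ 1 := by rw [hδd]; exact min_le_left _ _
  have hδ2 : δ ≤ μ * a * s / 2 := by rw [hδd]; exact min_le_right _ _
  obtain ⟨ε1, hε1, hbar⟩ := bar_low ht hA (a * (1 - s)) δ (mul_nonneg ha.le (by linarith))
    (by have := mul_pos ha hs; linarith)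
    hδ hδ1
  obtain ⟨ε2, hε2, hcm⟩ := crit_mB ht hb hB μ ζ hμ hζ hζ1
  have he0 : 0 < e := ht.e0
  have hp0 : 0 < pc := ht.hp.p0
  have hpe := ht.e1
  have hbμ2 : 0 < b * μ ^ 2 := by positivity
  refine ⟨min (min ε1 ε2) (min (min (min e e1) 1) (min ε1 1 / (b * μ ^ 2))), lt_min (lt_min hε1 hε2)
    (lt_min (lt_min (lt_min he0 he1) one_pos) (by positivity)), ?_⟩
  intro ε hε hεle
  have g1 : ε ≤ ε1 := hεle.trans ((min_le_left _ _).trans (min_le_left _ _))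
  have g2 : ε ≤ ε2 := hεle.trans ((min_le_left _ _).trans (min_le_right _ _))
  have g34 : ε ≤ min (min e e1) 1 := hεle.trans ((min_le_right _ _).trans (min_le_left _ _))
  have g3 : ε ≤ e := g34.trans ((min_le_left _ _).trans (min_le_left _ _))
  have g3' : ε ≤ e1 := g34.trans ((min_le_left _ _).trans (min_le_right _ _))
  have g4 : ε ≤ 1 := g34.trans (min_le_right _ _)
  have g5 : b * μ ^ 2 * ε ≤ min ε1 1 := by
    have := hεle.trans ((min_le_right _ _).trans (min_le_right _ _))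
    rw [le_div_iff₀ hbμ2] at this
    linarith
  obtain ⟨h, hh⟩ : ∃ h, h = b * μ ^ 2 * ε ^ 2 := ⟨_, rfl⟩
  have hhε : h ≤ b * μ ^ 2 * ε := by
    rw [hh]
    have : ε ^ 2 ≤ ε := pow_le_of_le_one hε.le g4 two_ne_zero
    exact mul_le_mul_of_nonneg_left this hbμ2.le
  have hh' := hhε.trans g5
  have hha : h ≤ ε1 := hh'.trans (min_le_left _ _)
  have hhc : h ≤ 1 := hh'.trans (min_le_right _ _)
  have hpos : 0 < h := by rw [hh]; positivity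
  obtain ⟨l, hl⟩ := exists_nat_ge (max (1 / (δ * ε ^ 2) ^ 5) (1 / h ^ 5))
  have hl1 : 1 / (δ * ε ^ 2) ^ 5 ≤ (l : ℝ) := (le_max_left _ _).trans hl
  have hl2 : 1 / h ^ 5 ≤ (l : ℝ) := (le_max_right _ _).trans hl
  obtain ⟨m1, m2⟩ := hcm ε l hε g2 (by rw [← hh]; exact hl2)
  rw [← hh] at m1 m2
  obtain ⟨M0, hM0⟩ : ∃ M0, M0 = mB d l pc h := ⟨_, rfl⟩
  rw [← hM0] at m1 m2
  have hM00 : 0 ≤ M0 := by
    rw [hM0]; exact mB_nonneg d l pc h hp0.le (by linarith) hpos.le hhc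
  have hhe : h = a * (μ * ε ^ 2) := by
    have : h = (b * μ) * (μ * ε ^ 2) := by rw [hh]; ring
    rw [this, hbμ]
  have hεμ : 0 < a * (μ * ε ^ 2) := by positivity
  have has : 0 ≤ a * (1 - s) := mul_nonneg ha.le (by linarith)
  have q1 : δ * ε ^ 2 ≤ h - a * (1 - s) * M0 * ε := by
    have w1 : a * (1 - s) * M0 * ε ≤ a * (1 - s) * ((1 + ζ) * (μ * ε)) * ε :=
      mul_le_mul_of_nonneg_right (mul_le_mul_of_nonneg_left m2 has) hε.le
    have w2 : h - a * (1 - s) * ((1 + ζ) * (μ * ε)) * ε = (a * (μ * ε ^ 2)) * (s / 2 + s ^ 2 / 2) := by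
      rw [hhe, hζd]; ring
    have w3 : (a * (μ * ε ^ 2)) * (s / 2) ≤ (a * (μ * ε ^ 2)) * (s / 2 + s ^ 2 / 2) :=
      mul_le_mul_of_nonneg_left (by have := sq_nonneg s; linarith) hεμ.le
    have w4 : δ * ε ^ 2 ≤ μ * a * s / 2 * ε ^ 2 := mul_le_mul_of_nonneg_right hδ2 (by positivity)
    linarith
  have q2 : h - a * (1 - s) * M0 * ε ≤ 2 * (μ * a * s) * ε ^ 2 := by
    have w1 : a * (1 - s) * ((1 - 2 * ζ) * (μ * ε)) * ε ≤ a * (1 - s) * M0 * ε :=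
      mul_le_mul_of_nonneg_right (mul_le_mul_of_nonneg_left m1 has) hε.le
    have w2 : h - a * (1 - s) * ((1 - 2 * ζ) * (μ * ε)) * ε = (a * (μ * ε ^ 2)) * (2 * s - s ^ 2) := by
      rw [hhe, hζd]; ring
    have w3 : (a * (μ * ε ^ 2)) * (2 * s - s ^ 2) ≤ (a * (μ * ε ^ 2)) * (2 * s) :=
      mul_le_mul_of_nonneg_left (by have := sq_nonneg s; linarith) hεμ.le
    linarith
  have hb1 := hbar ε h l hε g1 hpos hha (by rw [← hM0]; exact q1) hl1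
  rw [← hM0] at hb1
  obtain ⟨h1, hh1⟩ : ∃ h1, h1 = h - a * (1 - s) * M0 * ε := ⟨_, rfl⟩
  rw [← hh1] at hb1 q1 q2
  have hδε : 0 < δ * ε ^ 2 := by positivity
  have hh1p : 0 < h1 := lt_of_lt_of_le hδε q1
  have hh1h : h1 ≤ h := by
    rw [hh1]
    have : 0 ≤ a * (1 - s) * M0 * ε := by positivity
    linarith
  have r1 := mB_ub d l (pc + ε) h1 (by linarith) (by linarith) hh1p.le (hh1h.trans hhc)
  have hK : 1 ≤ A1 / ε ^ 2 := by
    rw [le_div_iff₀ (by positivity)]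
    have : ε ^ 2 ≤ 1 := pow_le_one₀ hε.le g4
    linarith
  have r2 := Mh_le_th ht (p := pc + ε) (h := h1) (K := A1 / ε ^ 2) (by linarith) (by linarith) hh1p.le
    (hh1h.trans hhc) hK (hui ε hε g3')
  have hsq : Real.sqrt (A1 / ε ^ 2) ≤ A1 / ε := by
    apply Real.sqrt_le_iff.2
    refine ⟨by positivity, ?_⟩
    rw [div_pow]
    exact div_le_div_of_nonneg_right (le_self_pow₀ hA1 two_ne_zero) (by positivity)
  have r3 : h1 * (3 * C * Real.sqrt (A1 / ε ^ 2) + 2 * C * (pc + ε - pc) * (A1 / ε ^ 2)) ≤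
      10 * μ * a * C * A1 * s * ε := by
    have w1 : 3 * C * Real.sqrt (A1 / ε ^ 2) + 2 * C * (pc + ε - pc) * (A1 / ε ^ 2) ≤ 5 * C * A1 / ε := by
      have z1 : 3 * C * Real.sqrt (A1 / ε ^ 2) ≤ 3 * C * (A1 / ε) :=
        mul_le_mul_of_nonneg_left hsq (by positivity)
      have z2 : 2 * C * (pc + ε - pc) * (A1 / ε ^ 2) = 2 * C * (A1 / ε) := by
        have : pc + ε - pc = ε := by ring
        rw [this]
        field_simp
      have z3 : 5 * C * A1 / ε = 3 * C * (A1 / ε) + 2 * C * (A1 / ε) := by ring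
      linarith
    calc h1 * (3 * C * Real.sqrt (A1 / ε ^ 2) + 2 * C * (pc + ε - pc) * (A1 / ε ^ 2)) ≤
        h1 * (5 * C * A1 / ε) := mul_le_mul_of_nonneg_left w1 hh1p.le
      _ ≤ (2 * (μ * a * s) * ε ^ 2) * (5 * C * A1 / ε) := mul_le_mul_of_nonneg_right q2 (by positivity)
      _ = 10 * μ * a * C * A1 * s * ε := by field_simp; ring
  have r4 : 10 * μ * a * C * A1 * s * ε ≤ η / 4 * ε := mul_le_mul_of_nonneg_right hs3 hε.le
  have r5 : μ * s * ε ≤ η / 4 * ε := mul_le_mul_of_nonneg_right hs4 hε.le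
  have r6 : (1 - 2 * ζ) * (μ * ε) = μ * ε - μ * s * ε := by rw [hζd]; ring
  rw [← hμd]
  have hηε : 0 < η * ε := by positivity
  linarith

theorem theta_lim {d : ℕ} {C c e pc : ℝ} (ht : HT d C c e pc) (hUI : UI d pc)
    (hLB : ∃ c1 ε1 : ℝ, 0 < c1 ∧ 0 < ε1 ∧ ∀ ε : ℝ, 0 < ε → ε ≤ ε1 → c1 * ε ≤ th d (pc + ε)) :
    ∃ q : ℝ, 0 < q ∧ ∀ η : ℝ, 0 < η → ∃ ε0 : ℝ, 0 < ε0 ∧ ∀ ε : ℝ, 0 < ε → ε ≤ ε0 →
      |th d (pc + ε) - q * ε| ≤ η * ε := by
  obtain ⟨a, ha, hA⟩ := rel_A' ht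
  obtain ⟨b, hb0, hB⟩ := rel_B' ht
  have hb : 0 < b := b_pos ht hb0 hB
  obtain ⟨c1, ε1, hc1, hε1, hlb⟩ := hLB
  have hup : ∀ η : ℝ, 0 < η → ∃ ε0 : ℝ, 0 < ε0 ∧ ∀ ε : ℝ, 0 < ε → ε ≤ ε0 →
      th d (pc + ε) ≤ (a / b) * ε + η * ε := by
    intro η hη
    obtain ⟨s, hsd⟩ : ∃ s, s = min (1 / 2) (η * b / (10 + 4 * a)) := ⟨_, rfl⟩
    have hs : 0 < s := by rw [hsd]; exact lt_min (by norm_num) (by positivity)
    have hs1 : s ≤ 1 / 2 := by rw [hsd]; exact min_le_left _ _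
    have hs2 : s * (10 + 4 * a) ≤ η * b := by
      have : s ≤ η * b / (10 + 4 * a) := by rw [hsd]; exact min_le_right _ _
      rwa [le_div_iff₀ (by positivity)] at this
    obtain ⟨ε0, hε0, h⟩ := theta_up ht ha hb hA hB s hs hs1
    refine ⟨ε0, hε0, fun ε hε hεle => (h ε hε hεle).trans ?_⟩
    have e1 : (1 + 4 * s) * ((a + 2 * s) / b) ≤ a / b + η := by
      rw [mul_div_assoc', div_add' _ _ _ hb.ne', div_le_div_iff_of_pos_right hb]
      have := mul_le_mul_of_nonneg_left hs1 hs.le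
      linarith
    calc (1 + 4 * s) * ((a + 2 * s) / b) * ε ≤ (a / b + η) * ε := mul_le_mul_of_nonneg_right e1 hε.le
      _ = _ := by ring
  have ha0 : 0 < a := by
    by_contra hcon
    have ha' : a = 0 := le_antisymm (not_lt.1 hcon) ha
    obtain ⟨ε0, hε0, h⟩ := hup (c1 / 2) (by positivity)
    obtain ⟨ε, hεd⟩ : ∃ ε, ε = min ε0 ε1 := ⟨_, rfl⟩
    have hε : 0 < ε := by rw [hεd]; exact lt_min hε0 hε1
    have k1 := h ε hε (by rw [hεd]; exact min_le_left _ _)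
    have k2 := hlb ε hε (by rw [hεd]; exact min_le_right _ _)
    rw [ha'] at k1
    have : 0 < c1 * ε := by positivity
    have e0 : (0 : ℝ) / b * ε = 0 := by simp
    rw [e0] at k1
    linarith
  refine ⟨a / b, by positivity, fun η hη => ?_⟩
  obtain ⟨e1, he1, h1⟩ := hup η hη
  obtain ⟨e2, he2, h2⟩ := theta_low ht ha0 hb hA hB hUI η hη
  refine ⟨min e1 e2, lt_min he1 he2, fun ε hε hεle => ?_⟩
  have k1 := h1 ε hε (hεle.trans (min_le_left _ _))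
  have k2 := h2 ε hε (hεle.trans (min_le_right _ _))
  rw [abs_le]
  constructor <;> linarith

end Pool.Agent.PERC29.DZ
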