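import Pool.Agent.Lib.MP_29e17e_pr.Y.Lx
import Pool.Agent.Lib.MP_29e17e_pr.Z.Sb

namespace Pool.Agent.PERC29
end Pool.Agent.PERC29
namespace Pool.Agent.PERC29.AE
end Pool.Agent.PERC29.AE

set_option autoImplicit false
set_option linter.unusedSectionVars false

/-! Assembly: the giant component of the torus has `q ε n^d` vertices. -/

open Finset Filter Topology

namespace Pool.Agent.PERC29.DZ

open Pool.Agent.PERC29 Pool.Agent.PERC29.AE

open scoped Classical in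
/-- Uniqueness with the hypotheses `Hyp`, `HypT`. -/
theorem uniq_T (d : ℕ) (hd : 9 ≤ d) (C c0 cp s0 η : ℝ) (hC : 1 ≤ C) (hc0 : 0 < c0) (hcp : 0 < cp)
    (hcp1 : cp ≤ 1) (hs0 : 0 < s0) (hη : 0 < η) (hη1 : η ≤ 1) :
    ∃ A c ε0 : ℝ, 0 < A ∧ 0 < c ∧ 0 < ε0 ∧ ∀ (n : ℕ) [NeZero n] [Fintype (torG d n).edgeSet]
      [∀ l, Fintype (boxG d l).edgeSet] (p ε : ℝ), cp ≤ p → cp ≤ 1 - p → 0 < ε → ε ≤ ε0 →
      A ≤ ε * (n : ℝ) ^ 2 → (∀ l : ℕ, Hyp d C c0 p l) → HypT d C p s0 →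
      Ex (p + ε) (fun ω => if ∃ x x', η * ε * (n : ℝ) ^ d ≤ cz (gends (torG d n)) ω x ∧
        η * ε * (n : ℝ) ^ d ≤ cz (gends (torG d n)) ω x' ∧ x' ∉ cu (gends (torG d n)) ω x
        then (1 : ℝ) else 0) +
      Ex (p + ε) (fun ω => if ∀ x, cz (gends (torG d n)) ω x < c * ε * (n : ℝ) ^ d
        then (1 : ℝ) else 0) ≤ η := by
  obtain ⟨A, c, ε0, hA, hc, hε0, h⟩ := uniq_ex d hd C c0 cp η hC hc0 hcp hcp1 hη hη1
  refine ⟨A, c, min ε0 s0, hA, hc, lt_min hε0 hs0, ?_⟩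
  intro n _ _ _ p ε hp hp1 hε hεle hAn hH hHT
  have e3 : ε ≤ s0 := hεle.trans (min_le_right _ _)
  have hp0 : 0 ≤ p := hcp.le.trans hp
  refine h n p ε hp hp1 hε (hεle.trans (min_le_left _ _)) hAn hH ?_ ?_ ?_
  · intro m hm x hx
    refine (arm_box hm hp0 (by linarith) x hx).trans ((hHT.1 (3 * m) (by omega)).trans ?_)
    have hm0 : (0 : ℝ) < m := by exact_mod_cast hm
    push_cast
    refine div_le_div_of_nonneg_left (by linarith) (by positivity) ?_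
    have : (0 : ℝ) ≤ (m : ℝ) ^ 2 := by positivity
    nlinarith
  · intro x k hk
    have h := hHT.2 n x p le_rfl (by linarith) k hk
    have e : C * (1 / Real.sqrt k + (p - p)) = C / Real.sqrt k := by ring
    rw [e] at h
    exact h
  · intro x k hk
    have h := hHT.2 n x (p + ε) (by linarith) (by linarith) k hk
    have e : C * (1 / Real.sqrt k + (p + ε - p)) = C * (1 / Real.sqrt k + ε) := by ring
    rw [e] at h
    exact h

lemma nat_big {A ε : ℝ} (hε : 0 < ε) : ∃ n : ℕ, 1 ≤ n ∧ A ≤ ε * (n : ℝ) ^ 2 := by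
  obtain ⟨k, hk⟩ := exists_nat_ge (A / ε)
  refine ⟨k + 1, by omega, ?_⟩
  rw [div_le_iff₀ hε] at hk
  have h3 : (1 : ℝ) ≤ ((k + 1 : ℕ) : ℝ) := by exact_mod_cast (by omega : 1 ≤ k + 1)
  have h2 : (k : ℝ) ≤ ((k + 1 : ℕ) : ℝ) := by exact_mod_cast (by omega : k ≤ k + 1)
  have h4 : ((k + 1 : ℕ) : ℝ) ≤ ((k + 1 : ℕ) : ℝ) ^ 2 := by nlinarith
  nlinarith

/-- The lower bound for `θ`. -/
theorem LB_of (d : ℕ) (hd : 9 ≤ d) (C c0 cp s0 : ℝ) (hC : 1 ≤ C) (hc0 : 0 < c0) (hcp : 0 < cp)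
    (hcp1 : cp ≤ 1) (hs0 : 0 < s0) (pc : ℝ) (hp : cp ≤ pc) (hp1 : cp ≤ 1 - pc)
    (hH : ∀ l : ℕ, Hyp d C c0 pc l) (hHT : HypT d C pc s0) :
    ∃ c1 ε1 : ℝ, 0 < c1 ∧ 0 < ε1 ∧ ∀ ε : ℝ, 0 < ε → ε ≤ ε1 → c1 * ε ≤ th d (pc + ε) := by
  classical
  obtain ⟨A, c, e1, hA, hc, he1, h1⟩ := uniq_T d hd C c0 cp s0 (1 / 4) hC hc0 hcp hcp1 hs0 (by norm_num)
    (by norm_num)
  obtain ⟨η, hη⟩ : ∃ η, η = min (1 / 4) (c / 2) := ⟨_, rfl⟩
  have hη0 : 0 < η := by rw [hη]; exact lt_min (by norm_num) (by positivity)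
  have hη4 : η ≤ 1 / 4 := by rw [hη]; exact min_le_left _ _
  have hηc : η ≤ c / 2 := by rw [hη]; exact min_le_right _ _
  obtain ⟨A1, B, e2, -, hB, he2, h2⟩ := lln_th d hd C c0 cp s0 η hC hc0 hcp hcp1 hs0 hη0 (by linarith)
  refine ⟨c / 2, min (min e1 e2) cp, by positivity, lt_min (lt_min he1 he2) hcp, ?_⟩
  intro ε hε hεle
  have g1 : ε ≤ e1 := hεle.trans ((min_le_left _ _).trans (min_le_left _ _))
  have g2 : ε ≤ e2 := hεle.trans ((min_le_left _ _).trans (min_le_right _ _))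
  have g3 : ε ≤ cp := hεle.trans (min_le_right _ _)
  obtain ⟨n, hn, hAn⟩ := nat_big (A := max A B) hε
  have : NeZero n := ⟨by omega⟩
  have : Fintype (torG d n).edgeSet := Fintype.ofFinite _
  have k1 := h1 n pc ε hp hp1 hε g1 ((le_max_left _ _).trans hAn) hH hHT
  have k2 := (h2 n pc ε hp hp1 hε g2 ((le_max_right _ _).trans hAn) hH hHT).1
  have q0 : 0 ≤ pc + ε := by linarith
  have q1 : pc + ε ≤ 1 := by linarith
  have k3 : 0 ≤ Ex (pc + ε) (fun ω => if ∃ x x', 1 / 4 * ε * (n : ℝ) ^ d ≤ cz (gends (torG d n)) ω x ∧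
        1 / 4 * ε * (n : ℝ) ^ d ≤ cz (gends (torG d n)) ω x' ∧ x' ∉ cu (gends (torG d n)) ω x
        then (1 : ℝ) else 0) := Ex_nonneg q0 q1 fun ω => by split_ifs <;> norm_num
  have hnd : (0 : ℝ) < (n : ℝ) ^ d := by
    have : (0 : ℝ) < n := by exact_mod_cast hn
    positivity
  by_contra hcon
  push Not at hcon
  have hall : ∀ ω : (torG d n).edgeSet → Bool, (1 : ℝ) ≤
      (if ∀ x, cz (gends (torG d n)) ω x < c * ε * (n : ℝ) ^ d then (1 : ℝ) else 0) +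
      (if η * ε * (n : ℝ) ^ d < |mxc (gends (torG d n)) ω - (n : ℝ) ^ d * th d (pc + ε)|
        then (1 : ℝ) else 0) := by
    intro ω
    by_cases u1 : ∀ x, cz (gends (torG d n)) ω x < c * ε * (n : ℝ) ^ d
    · rw [if_pos u1]
      split_ifs <;> norm_num
    · rw [if_neg u1]
      push Not at u1
      obtain ⟨x, hx⟩ := u1
      have u2 : c * ε * (n : ℝ) ^ d ≤ mxc (gends (torG d n)) ω := hx.trans (cz_le_mxc ω x)
      rw [if_pos]
      · norm_num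
      · have u3 : (n : ℝ) ^ d * th d (pc + ε) < (n : ℝ) ^ d * (c / 2 * ε) :=
          mul_lt_mul_of_pos_left hcon hnd
        have u4 : η * ε * (n : ℝ) ^ d ≤ c / 2 * ε * (n : ℝ) ^ d := by
          have : 0 ≤ ε * (n : ℝ) ^ d := by positivity
          calc η * ε * (n : ℝ) ^ d = η * (ε * (n : ℝ) ^ d) := by ring
            _ ≤ c / 2 * (ε * (n : ℝ) ^ d) := mul_le_mul_of_nonneg_right hηc this
            _ = _ := by ring
        refine lt_of_lt_of_le ?_ (le_abs_self _)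
        have u5 : (n : ℝ) ^ d * (c / 2 * ε) = c / 2 * ε * (n : ℝ) ^ d := by ring
        have u6 : c * ε * (n : ℝ) ^ d = c / 2 * ε * (n : ℝ) ^ d + c / 2 * ε * (n : ℝ) ^ d := by ring
        linarith
  have k4 := Ex_mono q0 q1 hall
  rw [Ex_const, Ex_add] at k4
  linarith

open scoped Classical in
/-- The main theorem in terms of `Ex`. -/
theorem giant_lim (d : ℕ) (C c0 s0 c e pc : ℝ) (hC : 1 ≤ C) (hc0 : 0 < c0) (hs0 : 0 < s0)
    (ht : HT d C c e pc) (hH : ∀ l : ℕ, Hyp d C c0 pc l) (hHT : HypT d C pc s0) :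
    ∃ q : ℝ, 0 < q ∧ (∀ η : ℝ, 0 < η → ∃ ε0 : ℝ, 0 < ε0 ∧ ∀ ε : ℝ, 0 < ε → ε ≤ ε0 →
      |th d (pc + ε) - q * ε| ≤ η * ε) ∧
    ∀ η : ℝ, 0 < η → ∃ A ε0 : ℝ, 0 < A ∧ 0 < ε0 ∧ ∀ (n : ℕ) [NeZero n] [Fintype (torG d n).edgeSet] (ε : ℝ),
      0 < ε → ε ≤ ε0 → A ≤ ε * (n : ℝ) ^ 2 →
      Ex (pc + ε) (fun ω => if η * ε * (n : ℝ) ^ d < |mxc (gends (torG d n)) ω - q * ε * (n : ℝ) ^ d|
        then (1 : ℝ) else 0) ≤ η ∧
      Ex (pc + ε) (fun ω => if ∃ x x', η * ε * (n : ℝ) ^ d ≤ cz (gends (torG d n)) ω x ∧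
        η * ε * (n : ℝ) ^ d ≤ cz (gends (torG d n)) ω x' ∧ x' ∉ cu (gends (torG d n)) ω x
        then (1 : ℝ) else 0) ≤ η := by
  have hp0 := ht.hp.p0
  have hp1 := ht.hp.p1
  have hd : 9 ≤ d := by have := ht.hp.d11; omega
  obtain ⟨cp, hcp⟩ : ∃ cp, cp = min pc (1 - pc) := ⟨_, rfl⟩
  have hcp0 : 0 < cp := by rw [hcp]; exact lt_min hp0 (by linarith)
  have hcpa : cp ≤ pc := by rw [hcp]; exact min_le_left _ _
  have hcpb : cp ≤ 1 - pc := by rw [hcp]; exact min_le_right _ _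
  have hcp1 : cp ≤ 1 := by linarith
  have hUI : UI d pc := by
    intro η hη
    obtain ⟨A1, ε0, hA1, hε0, h⟩ := ui_ex d hd C c0 cp s0 (min η 1) hC hc0 hcp0 hcp1 hs0
      (lt_min hη one_pos) (min_le_right _ _)
    refine ⟨A1, ε0, hA1, hε0, fun ε hε hεle l x => ?_⟩
    refine (h pc ε hcpa hcpb hε hεle hH hHT l x).trans ?_
    have : min η 1 * ε ≤ η * ε := mul_le_mul_of_nonneg_right (min_le_left _ _) hε.le
    linarith
  obtain ⟨q, hq, hlim⟩ := theta_lim ht hUI (LB_of d hd C c0 cp s0 hC hc0 hcp0 hcp1 hs0 pc hcpa hcpb hH hHT)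
  refine ⟨q, hq, hlim, ?_⟩
  intro η hη
  obtain ⟨η', hη'⟩ : ∃ η', η' = min η 1 / 2 := ⟨_, rfl⟩
  have hm : 0 < min η 1 := lt_min hη one_pos
  have hη'0 : 0 < η' := by rw [hη']; positivity
  have hη'1 : η' ≤ 1 := by have := min_le_right η 1; rw [hη']; linarith
  have hη'2 : 2 * η' ≤ η := by have := min_le_left η 1; rw [hη']; linarith
  obtain ⟨e1, he1, hl⟩ := hlim η' hη'0
  obtain ⟨A1, A, e2, -, hA, he2, hL⟩ := lln_th d hd C c0 cp s0 η' hC hc0 hcp0 hcp1 hs0 hη'0 hη'1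
  obtain ⟨B, c', e3, hB, hc', he3, hU⟩ := uniq_T d hd C c0 cp s0 η' hC hc0 hcp0 hcp1 hs0 hη'0 hη'1
  refine ⟨max A B, min (min e1 e2) (min e3 cp), lt_of_lt_of_le hA (le_max_left _ _),
    lt_min (lt_min he1 he2) (lt_min he3 hcp0), ?_⟩
  intro n _ _ ε hε hεle hAn
  have g1 : ε ≤ e1 := hεle.trans ((min_le_left _ _).trans (min_le_left _ _))
  have g2 : ε ≤ e2 := hεle.trans ((min_le_left _ _).trans (min_le_right _ _))
  have g3 : ε ≤ e3 := hεle.trans ((min_le_right _ _).trans (min_le_left _ _))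
  have g4 : ε ≤ cp := hεle.trans ((min_le_right _ _).trans (min_le_right _ _))
  have q0 : 0 ≤ pc + ε := by linarith
  have q1 : pc + ε ≤ 1 := by linarith
  have hnd : 0 ≤ ε * (n : ℝ) ^ d := by positivity
  have k1 := (hL n pc ε hcpa hcpb hε g2 ((le_max_left _ _).trans hAn) hH hHT).1
  have k2 := hU n pc ε hcpa hcpb hε g3 ((le_max_right _ _).trans hAn) hH hHT
  have k3 : 0 ≤ Ex (pc + ε) (fun ω => if ∀ x, cz (gends (torG d n)) ω x < c' * ε * (n : ℝ) ^ d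
        then (1 : ℝ) else 0) := Ex_nonneg q0 q1 fun ω => by split_ifs <;> norm_num
  have k4 := hl ε hε g1
  constructor
  · refine (Ex_mono q0 q1 fun ω => ?_).trans (k1.trans (by linarith))
    by_cases hx : η * ε * (n : ℝ) ^ d < |mxc (gends (torG d n)) ω - q * ε * (n : ℝ) ^ d|
    · rw [if_pos hx, if_pos]
      have t1 : |mxc (gends (torG d n)) ω - q * ε * (n : ℝ) ^ d| ≤
          |mxc (gends (torG d n)) ω - (n : ℝ) ^ d * th d (pc + ε)| +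
          |(n : ℝ) ^ d * th d (pc + ε) - q * ε * (n : ℝ) ^ d| := abs_sub_le _ _ _
      have t2 : |(n : ℝ) ^ d * th d (pc + ε) - q * ε * (n : ℝ) ^ d| ≤ (n : ℝ) ^ d * (η' * ε) := by
        have : (n : ℝ) ^ d * th d (pc + ε) - q * ε * (n : ℝ) ^ d = (n : ℝ) ^ d * (th d (pc + ε) - q * ε) := by
          ring
        rw [this, abs_mul, abs_of_nonneg (by positivity : (0 : ℝ) ≤ (n : ℝ) ^ d)]
        exact mul_le_mul_of_nonneg_left k4 (by positivity)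
      have t3 : 2 * (η' * ε * (n : ℝ) ^ d) ≤ η * ε * (n : ℝ) ^ d := by
        have := mul_le_mul_of_nonneg_right hη'2 hnd
        nlinarith
      have t4 : (n : ℝ) ^ d * (η' * ε) = η' * ε * (n : ℝ) ^ d := by ring
      linarith
    · rw [if_neg hx]
      split_ifs <;> norm_num
  · refine (Ex_mono q0 q1 fun ω => ?_).trans ((by linarith : Ex (pc + ε) (fun ω => if ∃ x x',
        η' * ε * (n : ℝ) ^ d ≤ cz (gends (torG d n)) ω x ∧
        η' * ε * (n : ℝ) ^ d ≤ cz (gends (torG d n)) ω x' ∧ x' ∉ cu (gends (torG d n)) ω x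
        then (1 : ℝ) else 0) ≤ η').trans (by linarith))
    have t3 : η' * ε * (n : ℝ) ^ d ≤ η * ε * (n : ℝ) ^ d := by
      have := mul_le_mul_of_nonneg_right (by linarith : η' ≤ η) hnd
      nlinarith
    by_cases hx : ∃ x x', η * ε * (n : ℝ) ^ d ≤ cz (gends (torG d n)) ω x ∧
        η * ε * (n : ℝ) ^ d ≤ cz (gends (torG d n)) ω x' ∧ x' ∉ cu (gends (torG d n)) ω x
    · rw [if_pos hx, if_pos]
      obtain ⟨x, x', b1, b2, b3⟩ := hx
      exact ⟨x, x', t3.trans b1, t3.trans b2, b3⟩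
    · rw [if_neg hx]
      split_ifs <;> norm_num

end Pool.Agent.PERC29.DZ
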