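import Pool.Agent.Lib.MP_29e17e_pr.Z.Lm

set_option autoImplicit false
set_option linter.unusedSectionVars false

/-! Rows 29d-B1 .. 29d-B8: general finite graph, exploration and green vertices. -/

open Finset

namespace Pool.Agent.PERC29.DZ

open Pool.Agent.PERC29 Pool.Agent.PERC29.AE

variable {V : Type*} [Fintype V] [DecidableEq V] {E : Type*} [Fintype E] [DecidableEq E]
  {ends : E → Sym2 V}

/-- The two-point function inside of `Q`. -/
noncomputable def tS (ends : E → Sym2 V) (Q : Set V) (p : ℝ) (x y : V) : ℝ :=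
  Ex p (fun ω => if y ∈ cS ends ω Qᶜ {x} then (1 : ℝ) else 0)

/-- `M` bounds the probability that a vertex is joined to the green vertices off any set. -/
def Mb (ends : E → Sym2 V) (p h M : ℝ) : Prop :=
  ∀ (S : Set V) (s : V), Ex p (fun ω => gh h (cS ends ω S {s}).card) ≤ M

/-- Row B1. The cluster off a set which contains `S` depends only on the edges without an end in `S` (`Rch.mono`-like induction, both directions). -/
lemma off_dep {ω ω' : E → Bool} {D A : Set V} (S : Finset V)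
    (h : ∀ e, (∀ a b, ends e = s(a, b) → a ∉ S ∧ b ∉ S) → ω e = ω' e) :
    cS ends ω (D ∪ (S : Set V)) A = cS ends ω' (D ∪ (S : Set V)) A := by
  have key : ∀ ξ ξ' : E → Bool, (∀ e, (∀ a b, ends e = s(a, b) → a ∉ S ∧ b ∉ S) → ξ e = ξ' e) →
      ∀ a y, Rch ends ξ (D ∪ (S : Set V))ᶜ a y → Rch ends ξ' (D ∪ (S : Set V))ᶜ a y := by
    intro ξ ξ' hξ a y hr
    refine Relation.ReflTransGen.mono (r := Step ends ξ (D ∪ (S : Set V))ᶜ) ?_ _ _ hr
    rintro x z ⟨hx, hz, e, he, hend⟩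
    refine ⟨hx, hz, e, ?_, hend⟩
    rw [← hξ e]
    · exact he
    · intro a' b' hab
      have hxS : x ∉ S := fun hh => hx (Or.inr hh)
      have hzS : z ∉ S := fun hh => hz (Or.inr hh)
      rw [hend, Sym2.eq_iff] at hab
      rcases hab with ⟨h1, h2⟩ | ⟨h1, h2⟩
      · rw [← h1, ← h2]; exact ⟨hxS, hzS⟩
      · rw [← h1, ← h2]; exact ⟨hzS, hxS⟩
  ext y
  rw [mem_cS, mem_cS]
  constructor
  · rintro ⟨a, ha, haD, hr⟩
    exact ⟨a, ha, haD, key ω ω' h a y hr⟩
  · rintro ⟨a, ha, haD, hr⟩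
    exact ⟨a, ha, haD, key ω' ω (fun e he => (h e he).symm) a y hr⟩

/-- Row B1. Exploration: `explore_gen` with `α = Finset V`, `X ω = cS ω D A`, `D S` = the edges with an end in `S`, `cS_dep`. -/
lemma fresh (p : ℝ) (D A : Set V) (F : Finset V → (E → Bool) → ℝ)
    (hF : ∀ (S : Finset V) (ω ω' : E → Bool), (∀ e, (∀ a b, ends e = s(a, b) → a ∉ S ∧ b ∉ S) → ω e = ω' e) → F S ω = F S ω') :
    Ex p (fun ω => F (cS ends ω D A) ω) = Ex p (fun ω => Ex p (fun ω' => F (cS ends ω D A) ω')) := by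
  refine explore_gen p (fun ω => cS ends ω D A) (fun S => {e | ¬ ∀ a b, ends e = s(a, b) → a ∉ S ∧ b ∉ S}) ?_ F ?_
  · intro ω ω' hω
    refine cS_dep ?_
    intro e a b hab ha _
    refine hω e ?_
    intro hh
    exact (hh a b hab).1 ha
  · intro S ω ω' hω
    refine hF S ω ω' ?_
    intro e he
    exact hω e (fun hh => hh he)

/-- Row B1. `fresh` and `off_dep`. -/
lemma expl_le {p h M : ℝ} (h0 : 0 ≤ p) (h1 : p ≤ 1) (D1 A1 D2 A2 : Set V) (X : Finset V → ℝ) (hX : ∀ S, 0 ≤ X S)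
    (hM : ∀ S : Finset V, Ex p (fun ω => gh h (cS ends ω (D2 ∪ (S : Set V)) A2).card) ≤ M) :
    Ex p (fun ω => X (cS ends ω D1 A1) * gh h (cS ends ω (D2 ∪ ((cS ends ω D1 A1 : Finset V) : Set V)) A2).card) ≤
      Ex p (fun ω => X (cS ends ω D1 A1)) * M := by
  rw [fresh p D1 A1 (fun S ω => X S * gh h (cS ends ω (D2 ∪ (S : Set V)) A2).card) (by
    intro S ω ω' hω
    rw [off_dep S hω])]
  have h2 : Ex p (fun ω => X (cS ends ω D1 A1)) * M = Ex p (fun ω => M * X (cS ends ω D1 A1)) := by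
    rw [Ex_mul_left, mul_comm]
  rw [h2]
  apply Ex_mono h0 h1
  intro ω
  rw [Ex_mul_left, mul_comm M]
  exact mul_le_mul_of_nonneg_left (hM _) (hX _)

/-- Row B1. `gh_add`, `gh_mono`, `cS_union`: the cluster of a finite set is green with probability at most `|A| M`. -/
lemma green_le {p h M : ℝ} (h0 : 0 ≤ p) (h1 : p ≤ 1) (hh0 : 0 ≤ h) (hh1 : h ≤ 1) (hM : Mb ends p h M) (D : Set V) (A : Finset V) :
    Ex p (fun ω => gh h (cS ends ω D (A : Set V)).card) ≤ (A.card : ℝ) * M := by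
  induction A using Finset.induction_on with
  | empty =>
    have h3 : ∀ ω : E → Bool, gh h (cS ends ω D ((∅ : Finset V) : Set V)).card = 0 := by
      intro ω
      have h4 : cS ends ω D ((∅ : Finset V) : Set V) = ∅ := by
        rw [Finset.eq_empty_iff_forall_notMem]
        intro y hy
        obtain ⟨a, ha, -⟩ := mem_cS.1 hy
        simp at ha
      rw [h4, Finset.card_empty]
      simp [gh]
    rw [Ex_zero_of h3]
    simp
  | insert a A ha ih =>
    have h3 : ∀ ω : E → Bool, gh h (cS ends ω D ((insert a A : Finset V) : Set V)).card ≤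
        gh h (cS ends ω D {a}).card + gh h (cS ends ω D (A : Set V)).card := by
      intro ω
      have h4 : cS ends ω D ((insert a A : Finset V) : Set V) = cS ends ω D {a} ∪ cS ends ω D (A : Set V) := by
        rw [← cS_union, Finset.coe_insert, Set.insert_eq]
      rw [h4]
      exact (gh_mono hh0 hh1 (Finset.card_union_le _ _)).trans (gh_add hh0 hh1 _ _)
    calc _ ≤ Ex p (fun ω => gh h (cS ends ω D {a}).card + gh h (cS ends ω D (A : Set V)).card) :=
          Ex_mono h0 h1 h3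
      _ = Ex p (fun ω => gh h (cS ends ω D {a}).card) + Ex p (fun ω => gh h (cS ends ω D (A : Set V)).card) :=
          Ex_add _ _ _
      _ ≤ M + (A.card : ℝ) * M := add_le_add (hM D a) ih
      _ = _ := by rw [Finset.card_insert_of_notMem ha]; push_cast; ring

private lemma B2_gh_zero (h : ℝ) : gh h 0 = 0 := by
  unfold gh
  rw [pow_zero, sub_self]

private lemma B2_gh_sum {ι : Type*} {h : ℝ} (hh0 : 0 ≤ h) (hh1 : h ≤ 1) (S : Finset ι) (k : ι → ℕ) :
    gh h (∑ i ∈ S, k i) ≤ ∑ i ∈ S, gh h (k i) := by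
  classical
  induction S using Finset.induction_on with
  | empty => rw [Finset.sum_empty, Finset.sum_empty, B2_gh_zero]
  | insert a S ha ih =>
    rw [Finset.sum_insert ha, Finset.sum_insert ha]
    exact (gh_add hh0 hh1 _ _).trans (add_le_add le_rfl ih)

/-- the first vertex of `D'` outside of the small cluster -/
private def B2_J (ends : E → Sym2 V) (D A : Set V) (D' : Finset V) (C : Finset V) (ω : E → Bool) (s : V) : Prop :=
  s ∈ D' ∧ s ∉ D ∧ s ∉ C ∧ (s ∈ A ∨ ∃ z ∈ C, ∃ e, ends e = s(z, s) ∧ ω e = true)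

private lemma B2_mem {ω : E → Bool} {D A : Set V} {D' : Finset V} {s : V}
    (h : B2_J ends D A D' (cS ends ω (D ∪ (D' : Set V)) A) ω s) : s ∈ cS ends ω D A := by
  obtain ⟨-, h2, -, h3⟩ := h
  rcases h3 with h3 | ⟨z, hz, e, he, ho⟩
  · exact mem_cS.2 ⟨s, h3, h2, Rch.refl s⟩
  · exact cS_step (cS_mono (fun _ h => h) Set.subset_union_left (subset_refl A) hz) e he ho h2

private lemma B2_cover {ω : E → Bool} {D A : Set V} {D' : Finset V} {y : V} (hy : y ∈ cS ends ω D A) :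
    y ∈ cS ends ω (D ∪ (D' : Set V)) A ∨
      ∃ s, B2_J ends D A D' (cS ends ω (D ∪ (D' : Set V)) A) ω s ∧
        y ∈ cS ends ω (D ∪ ((cS ends ω (D ∪ (D' : Set V)) A : Finset V) : Set V)) {s} := by
  obtain ⟨a, haA, haD, hr⟩ := mem_cS.1 hy
  clear hy
  have self : ∀ s, s ∉ D → s ∉ cS ends ω (D ∪ (D' : Set V)) A →
      s ∈ cS ends ω (D ∪ ((cS ends ω (D ∪ (D' : Set V)) A : Finset V) : Set V)) {s} := by
    intro s h1 h2
    refine mem_cS.2 ⟨s, rfl, ?_, Rch.refl s⟩
    rintro (h | h)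
    · exact h1 h
    · exact h2 (Finset.mem_coe.1 h)
  induction hr with
  | refl =>
    by_cases h1 : a ∈ cS ends ω (D ∪ (D' : Set V)) A
    · exact Or.inl h1
    · right
      have h2 : a ∈ D' := by
        by_contra h3
        refine h1 (mem_cS.2 ⟨a, haA, ?_, Rch.refl a⟩)
        rintro (h | h)
        · exact haD h
        · exact h3 (Finset.mem_coe.1 h)
      exact ⟨a, ⟨h2, haD, h1, Or.inl haA⟩, self a haD h1⟩
  | @tail y z _ hyz ih =>
    obtain ⟨-, hz, e, ho, he⟩ := hyz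
    have hzD : z ∉ D := hz
    by_cases h1 : z ∈ cS ends ω (D ∪ (D' : Set V)) A
    · exact Or.inl h1
    · right
      rcases ih with ih | ⟨s, hs, hys⟩
      · have h2 : z ∈ D' := by
          by_contra h3
          refine h1 (cS_step ih e he ho ?_)
          rintro (h | h)
          · exact hzD h
          · exact h3 (Finset.mem_coe.1 h)
        exact ⟨z, ⟨h2, hzD, h1, Or.inr ⟨y, ih, e, he, ho⟩⟩, self z hzD h1⟩
      · refine ⟨s, hs, cS_step hys e he ho ?_⟩
        rintro (h | h)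
        · exact hzD h
        · exact h1 (Finset.mem_coe.1 h)

open scoped Classical in
private lemma B2_point {h : ℝ} (hh0 : 0 ≤ h) (hh1 : h ≤ 1) (ω : E → Bool) (D A : Set V) (D' : Finset V) :
    gh h (cS ends ω D A \ cS ends ω (D ∪ (D' : Set V)) A).card ≤
      ∑ s ∈ D', (if B2_J ends D A D' (cS ends ω (D ∪ (D' : Set V)) A) ω s then
        gh h (cS ends ω (D ∪ ((cS ends ω (D ∪ (D' : Set V)) A : Finset V) : Set V)) {s}).card else 0) := by
  set C := cS ends ω (D ∪ (D' : Set V)) A with hC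
  have hsub : cS ends ω D A \ C ⊆ (D'.filter (fun s => B2_J ends D A D' C ω s)).biUnion
      (fun s => cS ends ω (D ∪ (C : Set V)) {s}) := by
    intro y hy
    rw [Finset.mem_sdiff] at hy
    rcases B2_cover (D' := D') hy.1 with h1 | ⟨s, hs, hys⟩
    · exact absurd h1 hy.2
    · rw [Finset.mem_biUnion]
      exact ⟨s, Finset.mem_filter.2 ⟨hs.1, hs⟩, hys⟩
  rw [← Finset.sum_filter]
  calc gh h (cS ends ω D A \ C).card
      ≤ gh h (∑ s ∈ D'.filter (fun s => B2_J ends D A D' C ω s), (cS ends ω (D ∪ (C : Set V)) {s}).card) :=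
        gh_mono hh0 hh1 ((Finset.card_le_card hsub).trans Finset.card_biUnion_le)
    _ ≤ _ := B2_gh_sum hh0 hh1 _ _

private lemma B2_dep {ω ω' : E → Bool} {D A : Set V} {D' : Finset V}
    (h : ∀ e, ¬ (∀ a b, ends e = s(a, b) → a ∉ cS ends ω (D ∪ (D' : Set V)) A ∧
      b ∉ cS ends ω (D ∪ (D' : Set V)) A) → ω e = ω' e) :
    cS ends ω' (D ∪ (D' : Set V)) A = cS ends ω (D ∪ (D' : Set V)) A := by
  refine cS_dep fun e a b he ha _ => h e fun h1 => ?_
  exact (h1 a b he).1 ha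

private lemma B2_J_dep {ω ω' : E → Bool} {D A : Set V} {D' C : Finset V} {s : V}
    (h : ∀ e, ¬ (∀ a b, ends e = s(a, b) → a ∉ C ∧ b ∉ C) → ω e = ω' e) :
    B2_J ends D A D' C ω s ↔ B2_J ends D A D' C ω' s := by
  unfold B2_J
  refine and_congr_right fun _ => and_congr_right fun _ => and_congr_right fun _ =>
    or_congr_right ?_
  refine exists_congr fun z => and_congr_right fun hz => exists_congr fun e =>
    and_congr_right fun he => ?_
  rw [h e fun h1 => (h1 z s he).1 hz]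

open scoped Classical in
private lemma B2_one {p h M : ℝ} (h0 : 0 ≤ p) (h1 : p ≤ 1) (hh0 : 0 ≤ h) (hh1 : h ≤ 1) (hM : Mb ends p h M) (D A : Set V) (D' : Finset V)
    (X : Finset V → ℝ) (hX : ∀ S, 0 ≤ X S) (s : V) :
    Ex p (fun ω => X (cS ends ω (D ∪ (D' : Set V)) A) *
      (if B2_J ends D A D' (cS ends ω (D ∪ (D' : Set V)) A) ω s then
        gh h (cS ends ω (D ∪ ((cS ends ω (D ∪ (D' : Set V)) A : Finset V) : Set V)) {s}).card else 0)) ≤
      M * Ex p (fun ω => X (cS ends ω (D ∪ (D' : Set V)) A) * (if s ∈ cS ends ω D A then (1 : ℝ) else 0)) := by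
  have hM0 : 0 ≤ M := (Ex_nonneg h0 h1 (fun ω => gh_nonneg hh0 hh1 _)).trans (hM ∅ s)
  let Dh : Finset V × Bool → Set E := fun q =>
    {e | ¬ (∀ a b, ends e = s(a, b) → a ∉ q.1 ∧ b ∉ q.1)}
  let Xh : (E → Bool) → Finset V × Bool := fun ω =>
    (cS ends ω (D ∪ (D' : Set V)) A,
      decide (B2_J ends D A D' (cS ends ω (D ∪ (D' : Set V)) A) ω s))
  let Fn : Finset V × Bool → (E → Bool) → ℝ := fun q ω =>
    if q.2 = true then X q.1 * gh h (cS ends ω (D ∪ (q.1 : Set V)) {s}).card else 0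
  have hXh : ∀ ω ω' : E → Bool, (∀ e ∈ Dh (Xh ω), ω e = ω' e) → Xh ω' = Xh ω := by
    intro ω ω' hw
    have e1 : cS ends ω' (D ∪ (D' : Set V)) A = cS ends ω (D ∪ (D' : Set V)) A := B2_dep hw
    have e2 : B2_J ends D A D' (cS ends ω (D ∪ (D' : Set V)) A) ω s ↔
        B2_J ends D A D' (cS ends ω (D ∪ (D' : Set V)) A) ω' s := B2_J_dep hw
    show (cS ends ω' (D ∪ (D' : Set V)) A,
      decide (B2_J ends D A D' (cS ends ω' (D ∪ (D' : Set V)) A) ω' s)) =
      (cS ends ω (D ∪ (D' : Set V)) A,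
      decide (B2_J ends D A D' (cS ends ω (D ∪ (D' : Set V)) A) ω s))
    rw [e1]
    congr 1
    exact decide_eq_decide.2 e2.symm
  have hFn : ∀ a, ∀ ω ω' : E → Bool, (∀ e, e ∉ Dh a → ω e = ω' e) → Fn a ω = Fn a ω' := by
    intro a ω ω' hw
    have e1 : cS ends ω (D ∪ (a.1 : Set V)) {s} = cS ends ω' (D ∪ (a.1 : Set V)) {s} :=
      off_dep a.1 fun e he => hw e fun h2 => h2 he
    show (if a.2 = true then X a.1 * gh h (cS ends ω (D ∪ (a.1 : Set V)) {s}).card else 0) =
      (if a.2 = true then X a.1 * gh h (cS ends ω' (D ∪ (a.1 : Set V)) {s}).card else 0)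
    rw [e1]
  have key := explore_gen p Xh Dh hXh Fn hFn
  have hl : Ex p (fun ω => X (cS ends ω (D ∪ (D' : Set V)) A) *
      (if B2_J ends D A D' (cS ends ω (D ∪ (D' : Set V)) A) ω s then
        gh h (cS ends ω (D ∪ ((cS ends ω (D ∪ (D' : Set V)) A : Finset V) : Set V)) {s}).card else 0)) =
      Ex p (fun ω => Fn (Xh ω) ω) := by
    refine Ex_congr fun ω => ?_
    show _ = (if decide (B2_J ends D A D' (cS ends ω (D ∪ (D' : Set V)) A) ω s) = true then _ else _)
    by_cases hJ : B2_J ends D A D' (cS ends ω (D ∪ (D' : Set V)) A) ω s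
    · rw [if_pos hJ, if_pos (decide_eq_true hJ)]
    · rw [if_neg hJ, if_neg (by rw [decide_eq_true_eq]; exact hJ), mul_zero]
  rw [hl, key, ← Ex_mul_left]
  refine Ex_mono h0 h1 fun ω => ?_
  by_cases hJ : B2_J ends D A D' (cS ends ω (D ∪ (D' : Set V)) A) ω s
  · have e1 : ∀ ω', Fn (Xh ω) ω' = X (cS ends ω (D ∪ (D' : Set V)) A) *
        gh h (cS ends ω' (D ∪ ((cS ends ω (D ∪ (D' : Set V)) A : Finset V) : Set V)) {s}).card := by
      intro ω'
      show (if decide (B2_J ends D A D' (cS ends ω (D ∪ (D' : Set V)) A) ω s) = true then _ else _) = _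
      rw [if_pos (decide_eq_true hJ)]
    rw [Ex_congr e1, Ex_mul_left, if_pos (B2_mem hJ), mul_one, mul_comm M]
    exact mul_le_mul_of_nonneg_left (hM _ s) (hX _)
  · have e1 : ∀ ω', Fn (Xh ω) ω' = 0 := by
      intro ω'
      show (if decide (B2_J ends D A D' (cS ends ω (D ∪ (D' : Set V)) A) ω s) = true then _ else _) = _
      rw [if_neg (by rw [decide_eq_true_eq]; exact hJ)]
    rw [Ex_zero_of e1]
    refine mul_nonneg hM0 (mul_nonneg (hX _) ?_)
    split_ifs <;> norm_num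

/-- Row B2. Locality. `C' = cS ω (D ∪ D') A`. Every vertex of `cS ω D A` which is not in `C'` is in `cS ω (D ∪ C') {s}` for some `s ∈ D'`, `s ∉ D`, with `s ∈ A` or joined by an open edge to a vertex of `C'`
(take the path off `D` from `A`, its last vertex in `C'` if there is one: the next vertex `s` is not in `C'`, so it is in `D'`; the rest of the path is off `D ∪ C'`; if there is none: the path starts in `a ∈ A`, `a ∉ D`, `a ∉ C'`, so `a ∈ D'`).
Such an `s` is in `cS ω D A`. So `gh |cS ω D A \ C'| ≤ ∑_{s ∈ D'} 1(s as described) gh |cS ω (D ∪ C') {s}|` (`gh_add`, `gh_mono`), the indicator depends only on `C'` and the edges which touch `C'`: use `explore_gen` with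
`X ω = (cS ω (D ∪ D') A, set of the s described)` and `D (S, _)` = the edges with an end in `S`. -/
lemma off_gen {p h M : ℝ} (h0 : 0 ≤ p) (h1 : p ≤ 1) (hh0 : 0 ≤ h) (hh1 : h ≤ 1) (hM : Mb ends p h M) (D A : Set V) (D' : Finset V)
    (X : Finset V → ℝ) (hX : ∀ S, 0 ≤ X S) :
    Ex p (fun ω => X (cS ends ω (D ∪ (D' : Set V)) A) * gh h (cS ends ω D A \ cS ends ω (D ∪ (D' : Set V)) A).card) ≤
      M * ∑ s ∈ D', Ex p (fun ω => X (cS ends ω (D ∪ (D' : Set V)) A) * (if s ∈ cS ends ω D A then (1 : ℝ) else 0)) := by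
  classical
  have e1 : Ex p (fun ω => X (cS ends ω (D ∪ (D' : Set V)) A) * gh h (cS ends ω D A \ cS ends ω (D ∪ (D' : Set V)) A).card) ≤
      Ex p (fun ω => ∑ s ∈ D', X (cS ends ω (D ∪ (D' : Set V)) A) *
        (if B2_J ends D A D' (cS ends ω (D ∪ (D' : Set V)) A) ω s then
        gh h (cS ends ω (D ∪ ((cS ends ω (D ∪ (D' : Set V)) A : Finset V) : Set V)) {s}).card else 0)) := by
    refine Ex_mono h0 h1 fun ω => ?_
    rw [← Finset.mul_sum]
    refine mul_le_mul_of_nonneg_left ?_ (hX _)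
    exact B2_point hh0 hh1 ω D A D'
  refine e1.trans ?_
  rw [Ex_sum, Finset.mul_sum]
  exact Finset.sum_le_sum fun s _ => B2_one h0 h1 hh0 hh1 hM D A D' X hX s

private lemma B3_card {ω : E → Bool} {D A : Set V} {D' : Set V} :
    (cS ends ω D A).card = (cS ends ω (D ∪ D') A).card + (cS ends ω D A \ cS ends ω (D ∪ D') A).card := by
  have h1 : cS ends ω (D ∪ D') A ⊆ cS ends ω D A :=
    cS_mono (fun e he => he) Set.subset_union_left (le_refl A)
  have h2 := Finset.card_sdiff_add_card_eq_card h1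
  omega

private lemma B3_sum {p h M : ℝ} (h0 : 0 ≤ p) (h1 : p ≤ 1) (hh0 : 0 ≤ h) (hh1 : h ≤ 1) (hM : Mb ends p h M) (D : Set V) (A D' : Finset V) :
    M * ∑ s ∈ D', Ex p (fun ω => if s ∈ cS ends ω D (A : Set V) then (1 : ℝ) else 0) ≤ M * ∑ a ∈ A, ∑ s ∈ D', ta ends p a s := by
  rw [Finset.sum_comm, Finset.mul_sum, Finset.mul_sum]
  refine Finset.sum_le_sum fun s _ => ?_
  have hM0 : 0 ≤ M := (Ex_nonneg h0 h1 fun ω => gh_nonneg hh0 hh1 _).trans (hM ∅ s)
  exact mul_le_mul_of_nonneg_left (two_cS h0 h1 D A s) hM0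

private lemma B3_diff {p h M : ℝ} (h0 : 0 ≤ p) (h1 : p ≤ 1) (hh0 : 0 ≤ h) (hh1 : h ≤ 1) (hM : Mb ends p h M) (D : Set V) (A D' : Finset V) :
    Ex p (fun ω => gh h (cS ends ω D (A : Set V) \ cS ends ω (D ∪ (D' : Set V)) (A : Set V)).card) ≤
      M * ∑ a ∈ A, ∑ s ∈ D', ta ends p a s := by
  have h2 := off_gen h0 h1 hh0 hh1 hM D (A : Set V) D' (fun _ => 1) (fun _ => zero_le_one)
  simp only [one_mul] at h2
  exact h2.trans (B3_sum h0 h1 hh0 hh1 hM D A D')

/-- Row B3. `off_gen` with `X = 1`: `gh |C| - gh |C'| ≤ gh |C \ C'|` (`gh_add`, `C' ⊆ C`), `two_cS`. -/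
lemma lo_p {p h M : ℝ} (h0 : 0 ≤ p) (h1 : p ≤ 1) (hh0 : 0 ≤ h) (hh1 : h ≤ 1) (hM : Mb ends p h M) (D : Set V) (A D' : Finset V) :
    piS ends p h D (A : Set V) - piS ends p h (D ∪ (D' : Set V)) (A : Set V) ≤ M * ∑ a ∈ A, ∑ s ∈ D', ta ends p a s := by
  unfold piS
  have h2 : Ex p (fun ω => gh h (cS ends ω D (A : Set V)).card) ≤
      Ex p (fun ω => gh h (cS ends ω (D ∪ (D' : Set V)) (A : Set V)).card +
        gh h (cS ends ω D (A : Set V) \ cS ends ω (D ∪ (D' : Set V)) (A : Set V)).card) := by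
    refine Ex_mono h0 h1 fun ω => ?_
    rw [B3_card (ends := ends) (ω := ω) (D := D) (A := (A : Set V)) (D' := (D' : Set V))]
    exact gh_add hh0 hh1 _ _
  rw [Ex_add] at h2
  have h3 := B3_diff h0 h1 hh0 hh1 hM D A D'
  linarith

/-- Row B3. The same with `fh_up` (`x = |C'|`, `y = |C \ C'|`). -/
lemma lo_s {p h M : ℝ} (h0 : 0 ≤ p) (h1 : p ≤ 1) (hh0 : 0 < h) (hh1 : h ≤ 1) (hM : Mb ends p h M) (D : Set V) (A D' : Finset V) :
    sgS ends p h D (A : Set V) - sgS ends p h (D ∪ (D' : Set V)) (A : Set V) ≤ M / h * ∑ a ∈ A, ∑ s ∈ D', ta ends p a s := by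
  unfold sgS
  have h2 : Ex p (fun ω => fh h (cS ends ω D (A : Set V)).card) ≤
      Ex p (fun ω => fh h (cS ends ω (D ∪ (D' : Set V)) (A : Set V)).card +
        (1 / h) * gh h (cS ends ω D (A : Set V) \ cS ends ω (D ∪ (D' : Set V)) (A : Set V)).card) := by
    refine Ex_mono h0 h1 fun ω => ?_
    rw [B3_card (ends := ends) (ω := ω) (D := D) (A := (A : Set V)) (D' := (D' : Set V))]
    have h3 := fh_up hh0 hh1 (cS ends ω (D ∪ (D' : Set V)) (A : Set V)).card
      (cS ends ω D (A : Set V) \ cS ends ω (D ∪ (D' : Set V)) (A : Set V)).card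
    rw [one_div_mul_eq_div]
    linarith
  rw [Ex_add, Ex_mul_left] at h2
  have h3 := B3_diff h0 h1 hh0.le hh1 hM D A D'
  have h4 := mul_le_mul_of_nonneg_left h3 (one_div_pos.2 hh0).le
  have h5 : 1 / h * (M * ∑ a ∈ A, ∑ s ∈ D', ta ends p a s) = M / h * ∑ a ∈ A, ∑ s ∈ D', ta ends p a s := by ring
  linarith

/-- Row B3. `fh_dn`, `off_gen` with `X S = gh |S|`, indicators `≤ 1`, `green_le`. -/
lemma lo0_s {p h M : ℝ} (h0 : 0 ≤ p) (h1 : p ≤ 1) (hh0 : 0 < h) (hh1 : h ≤ 1) (hM : Mb ends p h M) (D : Set V) (A D' : Finset V) :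
    sgS ends p h (D ∪ (D' : Set V)) (A : Set V) ≤ sgS ends p h D (A : Set V) + (A.card : ℝ) * (D'.card : ℝ) * (M ^ 2 / h) := by
  unfold sgS
  have h2 : Ex p (fun ω => fh h (cS ends ω (D ∪ (D' : Set V)) (A : Set V)).card) ≤
      Ex p (fun ω => fh h (cS ends ω D (A : Set V)).card +
        (1 / h) * (gh h (cS ends ω (D ∪ (D' : Set V)) (A : Set V)).card *
          gh h (cS ends ω D (A : Set V) \ cS ends ω (D ∪ (D' : Set V)) (A : Set V)).card)) := by
    refine Ex_mono h0 h1 fun ω => ?_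
    rw [B3_card (ends := ends) (ω := ω) (D := D) (A := (A : Set V)) (D' := (D' : Set V))]
    have h3 := fh_dn hh0 hh1 (cS ends ω (D ∪ (D' : Set V)) (A : Set V)).card
      (cS ends ω D (A : Set V) \ cS ends ω (D ∪ (D' : Set V)) (A : Set V)).card
    rw [one_div_mul_eq_div]
    linarith
  rw [Ex_add, Ex_mul_left] at h2
  have h3 := off_gen h0 h1 hh0.le hh1 hM D (A : Set V) D' (fun S => gh h S.card) (fun S => gh_nonneg hh0.le hh1 _)
  have h4 : M * ∑ s ∈ D', Ex p (fun ω => gh h (cS ends ω (D ∪ (D' : Set V)) (A : Set V)).card *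
      (if s ∈ cS ends ω D (A : Set V) then (1 : ℝ) else 0)) ≤ (A.card : ℝ) * (D'.card : ℝ) * M ^ 2 := by
    rw [Finset.mul_sum]
    have h5 : ∀ s ∈ D', M * Ex p (fun ω => gh h (cS ends ω (D ∪ (D' : Set V)) (A : Set V)).card *
        (if s ∈ cS ends ω D (A : Set V) then (1 : ℝ) else 0)) ≤ (A.card : ℝ) * M ^ 2 := by
      intro s _
      have hM0 : 0 ≤ M := (Ex_nonneg h0 h1 fun ω => gh_nonneg hh0.le hh1 _).trans (hM ∅ s)
      have h6 : Ex p (fun ω => gh h (cS ends ω (D ∪ (D' : Set V)) (A : Set V)).card *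
          (if s ∈ cS ends ω D (A : Set V) then (1 : ℝ) else 0)) ≤
          Ex p (fun ω => gh h (cS ends ω (D ∪ (D' : Set V)) (A : Set V)).card) := by
        refine Ex_mono h0 h1 fun ω => ?_
        have h7 := gh_nonneg hh0.le hh1 (cS ends ω (D ∪ (D' : Set V)) (A : Set V)).card
        split_ifs
        · rw [mul_one]
        · rw [mul_zero]
          exact h7
      have h8 := h6.trans (green_le h0 h1 hh0.le hh1 hM (D ∪ (D' : Set V)) A)
      have h9 := mul_le_mul_of_nonneg_left h8 hM0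
      have h10 : M * ((A.card : ℝ) * M) = (A.card : ℝ) * M ^ 2 := by ring
      linarith
    refine (Finset.sum_le_sum h5).trans (le_of_eq ?_)
    rw [Finset.sum_const, nsmul_eq_mul]
    ring
  have h5 := mul_le_mul_of_nonneg_left (h3.trans h4) (one_div_pos.2 hh0).le
  have h6 : 1 / h * ((A.card : ℝ) * (D'.card : ℝ) * M ^ 2) = (A.card : ℝ) * (D'.card : ℝ) * (M ^ 2 / h) := by ring
  linarith

private lemma B4a_closed {ω : E → Bool} {D A : Set V} {z y : V} (hz : z ∈ cS ends ω D A)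
    (h : Rch ends ω Dᶜ z y) : y ∈ cS ends ω D A := by
  rw [mem_cS] at hz ⊢
  obtain ⟨a, ha, haD, h1⟩ := hz
  exact ⟨a, ha, haD, h1.trans h⟩

private lemma B4a_avoid {ω : E → Bool} {D A : Set V} {a : V}
    (h : a ∉ cS ends ω D A) : cS ends ω (D ∪ ((cS ends ω D A : Finset V) : Set V)) {a} =
      cS ends ω D {a} := by
  refine cS_avoid ?_
  intro y hy hyC
  rw [mem_cS] at hy
  obtain ⟨b, hb, hbD, h1⟩ := hy
  rw [Set.mem_singleton_iff] at hb
  rw [hb] at h1
  exact h (B4a_closed (Finset.mem_coe.1 hyC) h1.symm)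

private lemma B4a_sub {ω : E → Bool} {D A : Set V} {a : V} (h : a ∉ cS ends ω D A) :
    cS ends ω D {a} ⊆ cS ends ω (D ∪ ((cS ends ω D A : Finset V) : Set V)) {a} := by
  rw [B4a_avoid h]

private lemma B4a_new {ω : E → Bool} {D : Set V} {A A' : Finset V} :
    cS ends ω D ((A ∪ A' : Finset V) : Set V) \ cS ends ω D (A : Set V) ⊆
      cS ends ω (D ∪ ((cS ends ω D (A : Set V) : Finset V) : Set V)) (A' : Set V) := by
  intro y hy
  rw [Finset.mem_sdiff] at hy
  obtain ⟨hy1, hy2⟩ := hy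
  rw [mem_cS] at hy1
  obtain ⟨a, ha, haD, h1⟩ := hy1
  have hnA : a ∉ cS ends ω D (A : Set V) := fun h => hy2 (B4a_closed h h1)
  have haA : a ∉ A := by
    intro haA
    apply hnA
    rw [mem_cS]
    exact ⟨a, Finset.mem_coe.2 haA, haD, Rch.refl a⟩
  have haA' : a ∈ A' := by
    have h2 : a ∈ A ∪ A' := Finset.mem_coe.1 ha
    rw [Finset.mem_union] at h2
    exact h2.resolve_left haA
  have h3 : y ∈ cS ends ω D {a} := by
    rw [mem_cS]
    exact ⟨a, Set.mem_singleton a, haD, h1⟩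
  have h4 := B4a_sub hnA h3
  refine cS_mono (fun _ he => he) (subset_refl _) ?_ h4
  intro b hb
  rw [Set.mem_singleton_iff] at hb
  rw [hb]
  exact Finset.mem_coe.2 haA'

/-- Row B4. `a' ∉ C_a`: then `cS ω D {a'} = cS ω (D ∪ C_a) {a'}` (`cS_avoid`), `expl_le` with `X S = gh |S|`. -/
lemma two_diff {p h M : ℝ} (h0 : 0 ≤ p) (h1 : p ≤ 1) (hh0 : 0 ≤ h) (hh1 : h ≤ 1) (hM : Mb ends p h M) (D : Set V) (a a' : V) :
    Ex p (fun ω => if a' ∈ cS ends ω D {a} then (0 : ℝ) else gh h (cS ends ω D {a}).card * gh h (cS ends ω D {a'}).card) ≤ M ^ 2 := by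
  have hM0 : 0 ≤ M := le_trans (Ex_nonneg h0 h1 fun ω => gh_nonneg hh0 hh1 _) (hM D a)
  have e1 := expl_le (h := h) (M := M) h0 h1 D ({a} : Set V) D ({a'} : Set V)
    (fun S => gh h S.card) (fun S => gh_nonneg hh0 hh1 _) (fun S => hM (D ∪ (S : Set V)) a')
    (ends := ends)
  have e2 : Ex p (fun ω => gh h (cS ends ω D ({a} : Set V)).card) ≤ M := hM D a
  calc _ ≤ Ex p (fun ω => gh h (cS ends ω D {a}).card *
        gh h (cS ends ω (D ∪ ((cS ends ω D {a} : Finset V) : Set V)) {a'}).card) := by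
        refine Ex_mono h0 h1 fun ω => ?_
        split_ifs with hc
        · exact mul_nonneg (gh_nonneg hh0 hh1 _) (gh_nonneg hh0 hh1 _)
        · exact mul_le_mul_of_nonneg_left (gh_mono hh0 hh1 (Finset.card_le_card (B4a_sub hc)))
            (gh_nonneg hh0 hh1 _)
    _ ≤ Ex p (fun ω => gh h (cS ends ω D {a}).card) * M := e1
    _ ≤ M * M := mul_le_mul_of_nonneg_right e2 hM0
    _ = M ^ 2 := by ring

/-- Row B4. New clusters: `cS ω D (A ∪ A') \ cS ω D A` is contained in the union of the sets `cS ω (D ∪ cS ω D A) {a'}`, `a' ∈ A'`; `expl_le` with `X S = gh |S|`, `green_le`. -/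
lemma mo_gen {p h M : ℝ} (h0 : 0 ≤ p) (h1 : p ≤ 1) (hh0 : 0 ≤ h) (hh1 : h ≤ 1) (hM : Mb ends p h M) (D : Set V) (A A' : Finset V) :
    Ex p (fun ω => gh h (cS ends ω D (A : Set V)).card * gh h (cS ends ω D ((A ∪ A' : Finset V) : Set V) \ cS ends ω D (A : Set V)).card) ≤
      (A.card : ℝ) * (A'.card : ℝ) * M ^ 2 := by
  have hg : ∀ (D₁ : Set V) (B : Finset V),
      Ex p (fun ω => gh h (cS ends ω D₁ (B : Set V)).card) ≤ (B.card : ℝ) * M :=
    fun D₁ B => green_le h0 h1 hh0 hh1 hM D₁ B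
  have hM0 : 0 ≤ (A'.card : ℝ) * M :=
    le_trans (Ex_nonneg h0 h1 fun ω => gh_nonneg hh0 hh1 _) (hg D A')
  have e1 := expl_le (h := h) (M := (A'.card : ℝ) * M) h0 h1 D (A : Set V) D (A' : Set V)
    (fun S => gh h S.card) (fun S => gh_nonneg hh0 hh1 _) (fun S => hg (D ∪ (S : Set V)) A')
    (ends := ends)
  calc _ ≤ Ex p (fun ω => gh h (cS ends ω D (A : Set V)).card *
        gh h (cS ends ω (D ∪ ((cS ends ω D (A : Set V) : Finset V) : Set V)) (A' : Set V)).card) := by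
        refine Ex_mono h0 h1 fun ω => ?_
        exact mul_le_mul_of_nonneg_left (gh_mono hh0 hh1 (Finset.card_le_card B4a_new))
          (gh_nonneg hh0 hh1 _)
    _ ≤ Ex p (fun ω => gh h (cS ends ω D (A : Set V)).card) * ((A'.card : ℝ) * M) := e1
    _ ≤ ((A.card : ℝ) * M) * ((A'.card : ℝ) * M) := mul_le_mul_of_nonneg_right (hg D A) hM0
    _ = (A.card : ℝ) * (A'.card : ℝ) * M ^ 2 := by ring

/-- Row B4. `fh_dn`, `mo_gen`. -/
lemma mo_s {p h M : ℝ} (h0 : 0 ≤ p) (h1 : p ≤ 1) (hh0 : 0 < h) (hh1 : h ≤ 1) (hM : Mb ends p h M) (D : Set V) (A A' : Finset V) :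
    sgS ends p h D (A : Set V) ≤ sgS ends p h D ((A ∪ A' : Finset V) : Set V) + (A.card : ℝ) * (A'.card : ℝ) * (M ^ 2 / h) := by
  have e1 := mo_gen h0 h1 hh0.le hh1 hM D A A'
  have e2 : sgS ends p h D (A : Set V) ≤ sgS ends p h D ((A ∪ A' : Finset V) : Set V) +
      1 / h * Ex p (fun ω => gh h (cS ends ω D (A : Set V)).card *
        gh h (cS ends ω D ((A ∪ A' : Finset V) : Set V) \ cS ends ω D (A : Set V)).card) := by
    unfold sgS
    rw [← Ex_mul_left, ← Ex_add]
    refine Ex_mono h0 h1 fun ω => ?_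
    have hsub : cS ends ω D (A : Set V) ⊆ cS ends ω D ((A ∪ A' : Finset V) : Set V) := by
      refine cS_mono (fun _ he => he) (subset_refl _) ?_
      intro b hb
      exact Finset.mem_coe.2 (Finset.mem_union_left _ (Finset.mem_coe.1 hb))
    have hcard : (cS ends ω D ((A ∪ A' : Finset V) : Set V)).card =
        (cS ends ω D (A : Set V)).card +
          (cS ends ω D ((A ∪ A' : Finset V) : Set V) \ cS ends ω D (A : Set V)).card := by
      rw [add_comm, Finset.card_sdiff_add_card_eq_card hsub]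
    have e3 := fh_dn hh0 hh1 (cS ends ω D (A : Set V)).card
      (cS ends ω D ((A ∪ A' : Finset V) : Set V) \ cS ends ω D (A : Set V)).card
    rw [← hcard] at e3
    have e4 : gh h (cS ends ω D (A : Set V)).card *
        gh h (cS ends ω D ((A ∪ A' : Finset V) : Set V) \ cS ends ω D (A : Set V)).card / h =
        1 / h * (gh h (cS ends ω D (A : Set V)).card *
          gh h (cS ends ω D ((A ∪ A' : Finset V) : Set V) \ cS ends ω D (A : Set V)).card) := by
      ring
    linarith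
  have e5 : 1 / h * Ex p (fun ω => gh h (cS ends ω D (A : Set V)).card *
        gh h (cS ends ω D ((A ∪ A' : Finset V) : Set V) \ cS ends ω D (A : Set V)).card) ≤
      1 / h * ((A.card : ℝ) * (A'.card : ℝ) * M ^ 2) :=
    mul_le_mul_of_nonneg_left e1 (by positivity)
  have e6 : 1 / h * ((A.card : ℝ) * (A'.card : ℝ) * M ^ 2) =
      (A.card : ℝ) * (A'.card : ℝ) * (M ^ 2 / h) := by ring
  linarith

lemma B4b_fh_add {h : ℝ} (hh0 : 0 ≤ h) (hh1 : h ≤ 1) (x y : ℕ) : fh h (x + y) ≤ fh h x + fh h y := by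
  unfold fh
  have hq0 : 0 ≤ 1 - h := by linarith
  have hq1 : 1 - h ≤ 1 := by linarith
  have h1 : (1 - h) ^ (x + y) ≤ (1 - h) ^ x := pow_le_pow_of_le_one hq0 hq1 (Nat.le_add_right x y)
  have h2 : (1 - h) ^ (x + y) ≤ (1 - h) ^ y := pow_le_pow_of_le_one hq0 hq1 (Nat.le_add_left y x)
  have h3 : (0 : ℝ) ≤ (x : ℝ) := Nat.cast_nonneg x
  have h4 : (0 : ℝ) ≤ (y : ℝ) := Nat.cast_nonneg y
  push_cast
  nlinarith [mul_le_mul_of_nonneg_left h1 h3, mul_le_mul_of_nonneg_left h2 h4]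

lemma B4b_one {ω : E → Bool} {D B : Set V} {a y : V} (hy : y ∈ cS ends ω D B) (hy' : y ∈ cS ends ω D {a}) :
    cS ends ω D {a} ⊆ cS ends ω D B := by
  intro z hz
  rw [mem_cS] at hy hy' hz ⊢
  obtain ⟨b, hb, hbD, hby⟩ := hy
  obtain ⟨a', ha', haD, hay⟩ := hy'
  obtain ⟨a'', ha'', haD', haz⟩ := hz
  rw [Set.mem_singleton_iff] at ha' ha''
  subst ha'
  subst ha''
  exact ⟨b, hb, hbD, (hby.trans hay.symm).trans haz⟩

lemma B4b_pt {h : ℝ} (hh0 : 0 ≤ h) (hh1 : h ≤ 1) (ω : E → Bool) (D : Set V) (A A' : Finset V) :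
    fh h (cS ends ω D ((A ∪ A' : Finset V) : Set V)).card ≤
      fh h (cS ends ω D (A : Set V)).card + ∑ a ∈ A', fh h (cS ends ω D {a}).card := by
  induction A' using Finset.induction_on with
  | empty => simp
  | @insert a A'' ha ih =>
    rw [Finset.sum_insert ha]
    have e1 : ((A ∪ insert a A'' : Finset V) : Set V) = ((A ∪ A'' : Finset V) : Set V) ∪ {a} := by
      ext z
      simp only [Finset.coe_union, Finset.coe_insert, Set.mem_union, Set.mem_insert_iff, Set.mem_singleton_iff]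
      tauto
    rw [e1, cS_union]
    have h0 : 0 ≤ fh h (cS ends ω D {a}).card := fh_nonneg hh0 hh1 _
    by_cases hd : Disjoint (cS ends ω D ((A ∪ A'' : Finset V) : Set V)) (cS ends ω D {a})
    · rw [Finset.card_union_of_disjoint hd]
      have h1 := B4b_fh_add hh0 hh1 (cS ends ω D ((A ∪ A'' : Finset V) : Set V)).card (cS ends ω D {a}).card
      linarith
    · rw [Finset.not_disjoint_iff] at hd
      obtain ⟨y, hy, hy'⟩ := hd
      rw [Finset.union_eq_left.2 (B4b_one hy hy')]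
      linarith

/-- Row B4. `fh` is subadditive: `(x+y) q^(x+y) ≤ x q^x + y q^y`. The clusters of the points of `A'` which are not in `cS ω D A` are disjoint from it and pairwise equal or disjoint (induction on `A'`, one point at a time:
`cS ω D (A ∪ {a})` is `cS ω D A` or the disjoint union with `cS ω D {a}`). -/
lemma sb_s {p h : ℝ} (h0 : 0 ≤ p) (h1 : p ≤ 1) (hh0 : 0 ≤ h) (hh1 : h ≤ 1) (D : Set V) (A A' : Finset V) :
    sgS ends p h D ((A ∪ A' : Finset V) : Set V) ≤ sgS ends p h D (A : Set V) + ∑ a ∈ A', sgS ends p h D {a} := by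
  unfold sgS
  rw [← Ex_sum, ← Ex_add]
  exact Ex_mono h0 h1 fun ω => B4b_pt hh0 hh1 ω D A A'

/-- Leaving a set along a path. -/
private lemma B5_exit {ω : E → Bool} {S : Set V} {x y : V} (B : Finset V) (h : Rch ends ω S x y) (hx : x ∈ B)
    (hy : y ∉ B) : ∃ e u v, ω e = true ∧ ends e = s(u, v) ∧ u ∈ B ∧ v ∉ B ∧ v ∈ S := by
  induction h with
  | refl => exact absurd hx hy
  | @tail c d hc hcd ih =>
    obtain ⟨h1, h2, e, h3, h4⟩ := hcd
    by_cases hcB : c ∈ B
    · exact ⟨e, c, d, h3, h4, hcB, hy, h2⟩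
    · exact ih hcB

private lemma B5_meet {ω : E → Bool} {D Q P : Set V} {a a' : V} (ha : a ∈ Q)
    (hP : ∀ e x y, ends e = s(x, y) → x ∈ Q → y ∉ Q → x ∈ P) (had : a ∉ D) (hr : Rch ends ω Dᶜ a a')
    (hn : a' ∉ cS ends ω (D ∪ Qᶜ) {a}) : ∃ y ∈ cS ends ω (D ∪ Qᶜ) {a}, y ∈ P := by
  have ha0 : a ∈ cS ends ω (D ∪ Qᶜ) {a} := by
    rw [mem_cS]
    exact ⟨a, rfl, by simp [had, ha], Rch.refl a⟩
  obtain ⟨e, u, v, h3, h4, hu, hv, hvD⟩ := B5_exit (cS ends ω (D ∪ Qᶜ) {a}) hr ha0 hn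
  have hu' := cS_off hu
  have huQ : u ∈ Q := by
    by_contra hcon
    exact hu' (Or.inr hcon)
  have hvQ : v ∉ Q := by
    intro hvQ
    apply hv
    refine cS_step hu e h4 h3 ?_
    rintro (h5 | h5)
    · exact hvD h5
    · exact h5 hvQ
  exact ⟨u, hu, hP e u v h4 huQ hvQ⟩

private lemma B5_sub {ω : E → Bool} {D Q : Set V} {a a' : V} (had : a ∉ D ∪ Qᶜ)
    (hn : a' ∉ cS ends ω (D ∪ Qᶜ) {a}) :
    cS ends ω (D ∪ Qᶜ) {a} ⊆ cS ends ω (D ∪ ((cS ends ω (D ∪ Qᶜ) {a'} : Finset V) : Set V)) {a} := by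
  have h1 : cS ends ω ((D ∪ Qᶜ) ∪ ((cS ends ω (D ∪ Qᶜ) {a'} : Finset V) : Set V)) {a} =
      cS ends ω (D ∪ Qᶜ) {a} := by
    refine cS_avoid fun y hy hy' => hn ?_
    rw [Finset.mem_coe, mem_cS] at hy'
    rw [mem_cS] at hy ⊢
    obtain ⟨b, hb, hb1, hb2⟩ := hy
    obtain ⟨b', hb', hb1', hb2'⟩ := hy'
    rw [Set.mem_singleton_iff] at hb hb'
    subst hb
    subst hb'
    exact ⟨b, rfl, hb1, hb2.trans hb2'.symm⟩
  rw [← h1]
  refine cS_mono (fun e he => he) ?_ (subset_refl _)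
  intro y hy
  rcases hy with hy | hy
  · exact Or.inl (Or.inl hy)
  · exact Or.inr hy

private lemma B5_cover {ω : E → Bool} {D Q : Set V} {a a' y : V} (ha : a ∈ Q) (ha' : a' ∈ Q) (had : a ∉ D)
    (ha'd : a' ∉ D) (hn : a' ∉ cS ends ω (D ∪ Qᶜ) {a}) (hy : Rch ends ω Dᶜ a y) :
    y ∈ cS ends ω (D ∪ ((cS ends ω (D ∪ Qᶜ) {a} : Finset V) : Set V)) {a'} ∨
      y ∈ cS ends ω (D ∪ ((cS ends ω (D ∪ Qᶜ) {a'} : Finset V) : Set V)) {a} := by
  have hadQ : a ∉ D ∪ Qᶜ := by
    rintro (h | h)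
    · exact had h
    · exact h ha
  have ha'dQ : a' ∉ D ∪ Qᶜ := by
    rintro (h | h)
    · exact ha'd h
    · exact h ha'
  have hn' : a ∉ cS ends ω (D ∪ Qᶜ) {a'} := by
    intro h
    apply hn
    rw [mem_cS] at h ⊢
    obtain ⟨b', hb', hb1', hb2'⟩ := h
    rw [Set.mem_singleton_iff] at hb'
    subst hb'
    exact ⟨a, rfl, hadQ, hb2'.symm⟩
  have s1 := B5_sub (ends := ends) (ω := ω) hadQ hn
  have s2 := B5_sub (ends := ends) (ω := ω) ha'dQ hn'
  induction hy with
  | refl =>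
    right
    rw [mem_cS]
    refine ⟨a, rfl, ?_, Rch.refl a⟩
    rintro (h | h)
    · exact had h
    · exact hn' h
  | @tail c d hc hcd ih =>
    obtain ⟨h1, h2, e, h3, h4⟩ := hcd
    rcases ih with ih | ih
    · by_cases hd : d ∈ cS ends ω (D ∪ Qᶜ) {a}
      · exact Or.inr (s1 hd)
      · left
        refine cS_step ih e h4 h3 ?_
        rintro (h | h)
        · exact h2 h
        · exact hd h
    · by_cases hd : d ∈ cS ends ω (D ∪ Qᶜ) {a'}
      · exact Or.inl (s2 hd)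
      · right
        refine cS_step ih e h4 h3 ?_
        rintro (h | h)
        · exact h2 h
        · exact hd h

open scoped Classical in
/-- Row B5. Three arms. `Ba = cS ω (D ∪ Qᶜ) {a}`, `Ba'` the same for `a'`. If `a' ∈ cS ω D {a}` but not in `Ba`: the path from `a` to `a'` leaves `Q`, so `Ba` contains a vertex of `P`, the same for `Ba'`. Every vertex `y` of `cS ω D {a}` is in
`cS ω (D ∪ Ba) {a'}` or in `cS ω (D ∪ Ba') {a}`: take the last vertex in `Ba ∪ Ba'` of a path off `D` from `a` to `y`; if it is in `Ba'`, go from `a'` to it inside `Ba'` (disjoint from `Ba`, since `a' ∉ Ba`), then along the path. So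
`gh |cS ω D {a}| ≤ 1(Ba meets P) gh |cS ω (D ∪ Ba) {a'}| + 1(Ba' meets P) gh |cS ω (D ∪ Ba') {a}|`; `expl_le` twice. -/
lemma arm3 {p h M : ℝ} (h0 : 0 ≤ p) (h1 : p ≤ 1) (hh0 : 0 ≤ h) (hh1 : h ≤ 1) (hM : Mb ends p h M) (D Q P : Set V) (a a' : V) (ha : a ∈ Q) (ha' : a' ∈ Q)
    (hP : ∀ e x y, ends e = s(x, y) → x ∈ Q → y ∉ Q → x ∈ P) :
    Ex p (fun ω => if a' ∈ cS ends ω D {a} ∧ a' ∉ cS ends ω (D ∪ Qᶜ) {a} then gh h (cS ends ω D {a}).card else (0 : ℝ)) ≤
      M * (Ex p (fun ω => if ∃ y ∈ cS ends ω (D ∪ Qᶜ) {a}, y ∈ P then (1 : ℝ) else 0) +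
        Ex p (fun ω => if ∃ y ∈ cS ends ω (D ∪ Qᶜ) {a'}, y ∈ P then (1 : ℝ) else 0)) := by
  have e1 := expl_le (ends := ends) (p := p) (h := h) (M := M) h0 h1 (D ∪ Qᶜ) {a} D {a'}
    (fun S => if ∃ y ∈ S, y ∈ P then (1 : ℝ) else 0)
    (fun S => by split_ifs <;> norm_num) (fun S => hM (D ∪ (S : Set V)) a')
  have e2 := expl_le (ends := ends) (p := p) (h := h) (M := M) h0 h1 (D ∪ Qᶜ) {a'} D {a}
    (fun S => if ∃ y ∈ S, y ∈ P then (1 : ℝ) else 0)
    (fun S => by split_ifs <;> norm_num) (fun S => hM (D ∪ (S : Set V)) a)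
  have e3 : Ex p (fun ω => if a' ∈ cS ends ω D {a} ∧ a' ∉ cS ends ω (D ∪ Qᶜ) {a} then gh h (cS ends ω D {a}).card else (0 : ℝ)) ≤
      Ex p (fun ω => (if ∃ y ∈ cS ends ω (D ∪ Qᶜ) {a}, y ∈ P then (1 : ℝ) else 0) *
          gh h (cS ends ω (D ∪ ((cS ends ω (D ∪ Qᶜ) {a} : Finset V) : Set V)) {a'}).card +
        (if ∃ y ∈ cS ends ω (D ∪ Qᶜ) {a'}, y ∈ P then (1 : ℝ) else 0) *
          gh h (cS ends ω (D ∪ ((cS ends ω (D ∪ Qᶜ) {a'} : Finset V) : Set V)) {a}).card) := by
    refine Ex_mono h0 h1 fun ω => ?_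
    by_cases hc : a' ∈ cS ends ω D {a} ∧ a' ∉ cS ends ω (D ∪ Qᶜ) {a}
    · rw [if_pos hc]
      obtain ⟨hc1, hc2⟩ := hc
      have hc1' := mem_cS.1 hc1
      obtain ⟨b, hb, had, hr⟩ := hc1'
      rw [Set.mem_singleton_iff] at hb
      subst hb
      have ha'd : a' ∉ D := cS_off hc1
      have hn' : b ∉ cS ends ω (D ∪ Qᶜ) {a'} := by
        intro hcon
        apply hc2
        rw [mem_cS] at hcon ⊢
        obtain ⟨b', hb', hb1', hb2'⟩ := hcon
        rw [Set.mem_singleton_iff] at hb'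
        subst hb'
        refine ⟨b, rfl, ?_, hb2'.symm⟩
        rintro (h5 | h5)
        · exact had h5
        · exact h5 ha
      have m1 := B5_meet (ω := ω) ha hP had hr hc2
      have m2 := B5_meet (ω := ω) ha' hP ha'd hr.symm hn'
      rw [if_pos m1, if_pos m2, one_mul, one_mul]
      have hsub : cS ends ω D {b} ⊆
          cS ends ω (D ∪ ((cS ends ω (D ∪ Qᶜ) {b} : Finset V) : Set V)) {a'} ∪
            cS ends ω (D ∪ ((cS ends ω (D ∪ Qᶜ) {a'} : Finset V) : Set V)) {b} := by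
        intro y hy
        rw [mem_cS] at hy
        obtain ⟨b2, hb2, -, hr2⟩ := hy
        rw [Set.mem_singleton_iff] at hb2
        subst hb2
        rw [Finset.mem_union]
        exact B5_cover ha ha' had ha'd hc2 hr2
      have hcard := (Finset.card_le_card hsub).trans (Finset.card_union_le _ _)
      exact (gh_mono hh0 hh1 hcard).trans (gh_add hh0 hh1 _ _)
    · rw [if_neg hc]
      have g1 := gh_nonneg hh0 hh1 (cS ends ω (D ∪ ((cS ends ω (D ∪ Qᶜ) {a} : Finset V) : Set V)) {a'}).card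
      have g2 := gh_nonneg hh0 hh1 (cS ends ω (D ∪ ((cS ends ω (D ∪ Qᶜ) {a'} : Finset V) : Set V)) {a}).card
      refine add_nonneg (mul_nonneg ?_ g1) (mul_nonneg ?_ g2)
      · split_ifs <;> norm_num
      · split_ifs <;> norm_num
  refine e3.trans ?_
  rw [Ex_add, mul_add, mul_comm M, mul_comm M]
  exact add_le_add e1 e2

open scoped Classical in
/-- the open edges off `D` -/
private noncomputable def B6_off (ends : E → Sym2 V) (ω : E → Bool) (D : Set V) : E → Bool :=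
  fun e => decide (ω e = true ∧ ∀ v, v ∈ ends e → v ∉ D)

private lemma B6_off_iff {ω : E → Bool} {D : Set V} {e : E} :
    B6_off ends ω D e = true ↔ ω e = true ∧ ∀ v, v ∈ ends e → v ∉ D := by
  classical
  unfold B6_off
  exact decide_eq_true_iff

private lemma B6_rch {ω : E → Bool} {D : Set V} {a y : V} (h : Rch ends ω Dᶜ a y) :
    Rch ends (B6_off ends ω D) Set.univ a y := by
  induction h with
  | refl => exact Rch.refl _
  | tail _ hbc ih =>
    obtain ⟨h1, h2, e, h3, h4⟩ := hbc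
    refine Relation.ReflTransGen.tail ih ⟨trivial, trivial, e, B6_off_iff.2 ⟨h3, ?_⟩, h4⟩
    intro v hv
    rw [h4, Sym2.mem_iff] at hv
    rcases hv with rfl | rfl
    · exact h1
    · exact h2

/-- a walk of edges off `D` gives a connection off `D'` for `D' ⊆ D` -/
private lemma B6_walk {ω : E → Bool} {D D' : Set V} (hD : D' ⊆ D) {a b : V}
    (p : (openG ends (B6_off ends ω D)).Walk a b) (L : List (Sym2 V)) (hL : ∀ s ∈ p.edges, s ∈ L) :
    Rch ends (fun e => decide (e ∈ opL ends (B6_off ends ω D) L)) D'ᶜ a b := by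
  induction p with
  | nil => exact Rch.refl _
  | @cons a c b hadj p ih =>
    have hadj' := hadj
    obtain ⟨-, e, h3, h4⟩ := hadj'
    have h5 := B6_off_iff.1 h3
    refine Relation.ReflTransGen.head ⟨fun h => h5.2 a (by rw [h4]; exact Sym2.mem_mk_left _ _) (hD h),
      fun h => h5.2 c (by rw [h4]; exact Sym2.mem_mk_right _ _) (hD h), e, ?_, h4⟩ (ih (fun s hs => hL s ?_))
    · have : e ∈ opL ends (B6_off ends ω D) L := by
        refine Finset.mem_filter.2 ⟨Finset.mem_univ _, h3, ?_⟩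
        rw [h4]
        refine hL _ ?_
        simp
      simpa using this
    · rw [SimpleGraph.Walk.edges_cons]
      exact List.mem_cons_of_mem _ hs

/-- the edge sets which join `a` to `z` inside `Q` -/
private def B6_fam (ends : E → Sym2 V) (Q : Set V) (a z : V) : Set (Finset E) :=
  {F | a ∉ Qᶜ ∧ Rch ends (fun e => decide (e ∈ F)) (Qᶜ)ᶜ a z}

/-- the edge sets which join `z` to `B` -/
private def B6_gfam (ends : E → Sym2 V) (z : V) (B : Finset V) : Set (Finset E) :=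
  {F | ∃ g ∈ B, Rch ends (fun e => decide (e ∈ F)) Set.univ z g}

private lemma B6_opn (Q : Set V) (a z : V) (ω : E → Bool) :
    opn (B6_fam ends Q a z) ω = if z ∈ cS ends ω Qᶜ {a} then 1 else 0 := by
  classical
  unfold opn
  apply if_congr _ rfl rfl
  rw [mem_cS]
  constructor
  · rintro ⟨F, ⟨haD, hF⟩, hop⟩
    exact ⟨a, rfl, haD, hF.mono (fun e he => hop e (of_decide_eq_true he)) le_rfl⟩
  · rintro ⟨a1, ha1, haD, h⟩
    obtain rfl : a1 = a := ha1
    refine ⟨Finset.univ.filter (fun e => ω e = true), ⟨haD, ?_⟩, ?_⟩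
    · exact h.mono (fun e he => by simp [he]) le_rfl
    · intro e he
      exact (Finset.mem_filter.1 he).2

open scoped Classical in
private lemma B6_gopn (z : V) (B : Finset V) (ω : E → Bool) :
    opn (B6_gfam ends z B) ω = if ∃ b ∈ B, b ∈ cS ends ω ∅ {z} then 1 else 0 := by
  unfold opn
  apply if_congr _ rfl rfl
  constructor
  · rintro ⟨F, ⟨g, hg, hF⟩, hop⟩
    refine ⟨g, hg, mem_cS.2 ⟨z, rfl, Set.notMem_empty z, ?_⟩⟩
    exact hF.mono (fun e he => hop e (of_decide_eq_true he)) (by simp)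
  · rintro ⟨g, hg, hgz⟩
    obtain ⟨z1, hz1, -, h⟩ := mem_cS.1 hgz
    obtain rfl : z1 = z := hz1
    refine ⟨Finset.univ.filter (fun e => ω e = true), ⟨g, hg, ?_⟩, ?_⟩
    · exact h.mono (fun e he => by simp [he]) (Set.subset_univ _)
    · intro e he
      exact (Finset.mem_filter.1 he).2

open scoped Classical in
private lemma B6_gh (h : ℝ) (C : Finset V) :
    ∑ B : Finset V, gw h B * (if ∃ b ∈ B, b ∈ C then (1 : ℝ) else 0) = gh h C.card := by
  have e : ∑ B : Finset V, gw h B * (if ∃ b ∈ B, b ∈ C then (1 : ℝ) else 0) +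
      ∑ B : Finset V, gw h B * (if ∃ b ∈ B, b ∈ C then (0 : ℝ) else 1) = ∑ B : Finset V, gw h B := by
    rw [← Finset.sum_add_distrib]
    refine Finset.sum_congr rfl fun B _ => ?_
    by_cases hc : ∃ b ∈ B, b ∈ C
    · rw [if_pos hc, if_pos hc]; ring
    · rw [if_neg hc, if_neg hc]; ring
  rw [ghost, gw_sum] at e
  unfold gh
  linarith

/-- the fork -/
private lemma B6_tri {ω : E → Bool} {D Q : Set V} {B : Finset V} {a a' : V}
    (hu : a' ∈ cS ends ω (D ∪ Qᶜ) {a}) (hw : ∃ b ∈ B, b ∈ cS ends ω D {a}) :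
    ∃ z, ∃ F ∈ B6_fam ends Q a z, ∃ G ∈ B6_fam ends Q z a', ∃ H ∈ B6_gfam ends z B,
      Disjoint F G ∧ Disjoint (F ∪ G) H ∧ ∀ e ∈ F ∪ G ∪ H, ω e = true := by
  classical
  obtain ⟨a1, ha1, haD, hau⟩ := mem_cS.1 hu
  obtain rfl : a1 = a := ha1
  obtain ⟨g, hg, hga⟩ := hw
  obtain ⟨a2, ha2, haD2, hag⟩ := mem_cS.1 hga
  obtain rfl : a2 = a1 := ha2
  obtain ⟨p0⟩ := exists_walk (B6_rch hau)
  have hag' : Rch ends ω Set.univ a2 g := hag.mono (fun _ h => h) (Set.subset_univ _)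
  obtain ⟨q⟩ := exists_walk hag'.symm
  obtain ⟨p, hp⟩ : ∃ p : (openG ends (B6_off ends ω (D ∪ Qᶜ))).Walk a2 a', p.IsPath :=
    ⟨_, p0.bypass_isPath⟩
  obtain ⟨z, hz, q', hq'⟩ := first_hit {w | w ∈ p.support} q (p.start_mem_support)
  have hz' : z ∈ p.support := hz
  have hop : ∀ (L : List (Sym2 V)), ∀ e ∈ opL ends (B6_off ends ω (D ∪ Qᶜ)) L, ω e = true := by
    intro L e he
    exact (B6_off_iff.1 (Finset.mem_filter.1 he).2.1).1
  have hop2 : ∀ (L : List (Sym2 V)), ∀ e ∈ opL ends ω L, ω e = true := by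
    intro L e he
    exact (Finset.mem_filter.1 he).2.1
  have hqp : ∀ s ∈ q'.edges, s ∉ p.edges := by
    intro s hs hs'
    induction s using Sym2.ind with
    | _ x y =>
      have hx : x = z := hq' x (q'.fst_mem_support_of_mem_edges hs)
        (p.fst_mem_support_of_mem_edges hs')
      have hy : y = z := hq' y (q'.snd_mem_support_of_mem_edges hs)
        (p.snd_mem_support_of_mem_edges hs')
      have hadj := q'.adj_of_mem_edges hs
      exact hadj.ne (hx.trans hy.symm)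
  have hdis : ∀ L L' : List (Sym2 V), (∀ s ∈ L', s ∉ L) →
      Disjoint (opL ends (B6_off ends ω (D ∪ Qᶜ)) L) (opL ends ω L') := by
    intro L L' h
    rw [Finset.disjoint_left]
    intro e he he'
    exact h _ (Finset.mem_filter.1 he').2.2 (Finset.mem_filter.1 he).2.2
  have hnd : (p.takeUntil z hz').edges.Disjoint (p.dropUntil z hz').edges := by
    have h1 : p.edges.Nodup := hp.isTrail.edges_nodup
    rw [← p.take_spec hz', SimpleGraph.Walk.edges_append] at h1
    exact (List.nodup_append'.1 h1).2.2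
  have hsubT : ∀ s ∈ (p.takeUntil z hz').edges, s ∈ p.edges :=
    fun s hs => p.edges_takeUntil_subset_edges hz' hs
  have hsubD : ∀ s ∈ (p.dropUntil z hz').edges, s ∈ p.edges :=
    fun s hs => p.edges_dropUntil_subset_edges hz' hs
  have haQ : a2 ∉ Qᶜ := fun h => haD (Or.inr h)
  have hsub : (Qᶜ : Set V) ⊆ D ∪ Qᶜ := Set.subset_union_right
  have h1 := B6_walk hsub (p.takeUntil z hz') _ (fun s hs => hs)
  have hzQ : z ∉ Qᶜ := by
    have h2 : z ∈ ((Qᶜ)ᶜ : Set V) := h1.mem' haQ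
    exact h2
  refine ⟨z, opL ends (B6_off ends ω (D ∪ Qᶜ)) (p.takeUntil z hz').edges, ⟨haQ, h1⟩,
    opL ends (B6_off ends ω (D ∪ Qᶜ)) (p.dropUntil z hz').edges,
    ⟨hzQ, B6_walk hsub _ _ (fun s hs => hs)⟩,
    opL ends ω q'.edges, ⟨g, hg, walk_mem_Pth q'.reverse _ (fun s hs => by simpa using hs)⟩, ?_, ?_, ?_⟩
  · exact opL_disjoint (fun s hs hs' => hnd hs hs')
  · rw [Finset.disjoint_union_left]
    exact ⟨hdis _ _ (fun s hs hs' => hqp s hs (hsubT s hs')),
      hdis _ _ (fun s hs hs' => hqp s hs (hsubD s hs'))⟩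
  · intro e he
    rw [Finset.mem_union, Finset.mem_union] at he
    rcases he with (he | he) | he
    · exact hop _ e he
    · exact hop _ e he
    · exact hop2 _ e he

/-- Row B6. The fork. For a fixed set `G` of green vertices (`gw`, `ghost` in `Ave.lean`: `gh h C.card = ∑_G gw h G 1(G meets C)`): if `a' ∈ cS ω (D ∪ Qᶜ) {a}` and a green vertex `g` is joined to `a`, take a simple open path from `a` to `a'` inside `Q`, and a path from `g` to `a`
stopped at its first vertex `z` on the first path (as in `tripod`, but the first path is inside `Q`): edge-disjoint open sets joining `a` to `z` inside `Q`, `z` to `a'` inside `Q`, `z` to `g`. `bk` twice with the families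
`{F | z ∈ cS (1_F) Qᶜ {a}}`, `{F | a' ∈ cS (1_F) Qᶜ {z}}`, `{F | some g ∈ G is in cu (1_F) z}`; then sum over `G` with the weights. (The case `a = a'`: `z = a`.) -/
lemma fork {p h M : ℝ} (h0 : 0 ≤ p) (h1 : p ≤ 1) (hh0 : 0 ≤ h) (hh1 : h ≤ 1) (hM : Mb ends p h M) (D Q : Set V) (a a' : V) :
    Ex p (fun ω => if a' ∈ cS ends ω (D ∪ Qᶜ) {a} then gh h (cS ends ω D {a}).card else (0 : ℝ)) ≤
      M * ∑ z, tS ends Q p a z * tS ends Q p z a' := by
  classical
  have hnn : ∀ (𝒜 : Set (Finset E)) (ω : E → Bool), 0 ≤ opn 𝒜 ω := by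
    intro 𝒜 ω
    unfold opn
    split_ifs <;> norm_num
  have hpt : ∀ ω : E → Bool, (if a' ∈ cS ends ω (D ∪ Qᶜ) {a} then gh h (cS ends ω D {a}).card else (0 : ℝ)) ≤
      ∑ B : Finset V, gw h B * ∑ z, opn (dsj (dsj (B6_fam ends Q a z) (B6_fam ends Q z a')) (B6_gfam ends z B)) ω := by
    intro ω
    by_cases hu : a' ∈ cS ends ω (D ∪ Qᶜ) {a}
    · rw [if_pos hu, ← B6_gh]
      refine Finset.sum_le_sum fun B _ => mul_le_mul_of_nonneg_left ?_ (gw_nonneg hh0 hh1 B)
      by_cases hw : ∃ b ∈ B, b ∈ cS ends ω D {a}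
      · rw [if_pos hw]
        obtain ⟨z, F, hF, G, hG, H, hH, h3, h4, h5⟩ := B6_tri hu hw
        have h6 : opn (dsj (dsj (B6_fam ends Q a z) (B6_fam ends Q z a')) (B6_gfam ends z B)) ω = 1 := by
          unfold opn
          rw [if_pos]
          exact ⟨F ∪ G ∪ H, ⟨F ∪ G, ⟨F, hF, G, hG, h3, rfl⟩, H, hH, h4, rfl⟩, h5⟩
        rw [← h6]
        exact Finset.single_le_sum (f := fun z =>
            opn (dsj (dsj (B6_fam ends Q a z) (B6_fam ends Q z a')) (B6_gfam ends z B)) ω)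
            (fun z _ => hnn _ _) (Finset.mem_univ z)
      · rw [if_neg hw]
        exact Finset.sum_nonneg fun z _ => hnn _ _
    · rw [if_neg hu]
      exact Finset.sum_nonneg fun B _ => mul_nonneg (gw_nonneg hh0 hh1 B) (Finset.sum_nonneg fun z _ => hnn _ _)
  have e1 : ∀ x y : V, Ex p (opn (B6_fam ends Q x y)) = tS ends Q p x y := by
    intro x y
    unfold tS
    exact Ex_congr fun ω => B6_opn Q x y ω
  have htS : ∀ x y : V, 0 ≤ tS ends Q p x y := by
    intro x y
    rw [← e1]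
    exact Ex_nonneg h0 h1 fun ω => hnn _ _
  have hM' : ∀ z : V, ∑ B : Finset V, gw h B * Ex p (opn (B6_gfam ends z B)) ≤ M := by
    intro z
    refine le_trans (le_of_eq ?_) (hM ∅ z)
    have e2 : ∀ B : Finset V, gw h B * Ex p (opn (B6_gfam ends z B)) =
        Ex p (fun ω => gw h B * opn (B6_gfam ends z B) ω) := fun B => (Ex_mul_left _ _ _).symm
    rw [Finset.sum_congr rfl fun B _ => e2 B, ← Ex_sum]
    refine Ex_congr fun ω => ?_
    rw [← B6_gh]
    exact Finset.sum_congr rfl fun B _ => by rw [B6_gopn]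
  refine (Ex_mono h0 h1 hpt).trans ?_
  rw [Ex_sum]
  have hstep : ∀ B : Finset V, Ex p (fun ω => gw h B * ∑ z, opn (dsj (dsj (B6_fam ends Q a z) (B6_fam ends Q z a'))
      (B6_gfam ends z B)) ω) ≤ ∑ z, (tS ends Q p a z * tS ends Q p z a') * (gw h B * Ex p (opn (B6_gfam ends z B))) := by
    intro B
    rw [Ex_mul_left, Ex_sum, Finset.mul_sum]
    refine Finset.sum_le_sum fun z _ => ?_
    have h2 := bk h0 h1 (dsj (B6_fam ends Q a z) (B6_fam ends Q z a')) (B6_gfam ends z B)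
    have h3 := bk h0 h1 (B6_fam ends Q a z) (B6_fam ends Q z a')
    rw [e1, e1] at h3
    have hg0 : 0 ≤ Ex p (opn (B6_gfam ends z B)) := Ex_nonneg h0 h1 fun ω => hnn _ _
    have h4 : Ex p (opn (dsj (dsj (B6_fam ends Q a z) (B6_fam ends Q z a')) (B6_gfam ends z B))) ≤
        (tS ends Q p a z * tS ends Q p z a') * Ex p (opn (B6_gfam ends z B)) :=
      h2.trans (mul_le_mul_of_nonneg_right h3 hg0)
    calc gw h B * Ex p (fun ω => opn (dsj (dsj (B6_fam ends Q a z) (B6_fam ends Q z a')) (B6_gfam ends z B)) ω)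
        ≤ gw h B * ((tS ends Q p a z * tS ends Q p z a') * Ex p (opn (B6_gfam ends z B))) :=
          mul_le_mul_of_nonneg_left h4 (gw_nonneg hh0 hh1 B)
      _ = _ := by ring
  refine (Finset.sum_le_sum fun B _ => hstep B).trans ?_
  rw [Finset.sum_comm, Finset.mul_sum]
  refine Finset.sum_le_sum fun z _ => ?_
  rw [← Finset.mul_sum, mul_comm M]
  exact mul_le_mul_of_nonneg_left (hM' z) (mul_nonneg (htS _ _) (htS _ _))

/-- Row B7, deterministic part. -/
private lemma B7_pt {ω η : E → Bool} {Q : Set V} {x y : V} (hy : y ∈ cS ends (orc ω η) Qᶜ {x}) :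
    y ∈ cS ends ω Qᶜ {x} ∨ ∃ z z' e, z ∈ cS ends ω Qᶜ {x} ∧ ends e = s(z, z') ∧ η e = true ∧
      y ∈ cS ends (orc ω η) (Qᶜ ∪ ((cS ends ω Qᶜ {x} : Finset V) : Set V)) {z'} := by
  classical
  set C : Finset V := cS ends ω Qᶜ {x} with hC
  obtain ⟨a, ha, haQ, hr⟩ := mem_cS.1 hy
  rw [Set.mem_singleton_iff] at ha
  subst ha
  induction hr with
  | refl =>
    left
    rw [hC]
    exact mem_cS.2 ⟨a, rfl, haQ, Rch.refl a⟩
  | @tail w w' hw hst ih =>
    have hw2 : w ∈ cS ends (orc ω η) Qᶜ {a} := mem_cS.2 ⟨a, rfl, haQ, hw⟩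
    obtain ⟨h1, h2, e, h3, h4⟩ := hst
    by_cases hw'C : w' ∈ C
    · exact Or.inl hw'C
    right
    rcases ih hw2 with h5 | ⟨z, z', e', h5, h6, h7, h8⟩
    · refine ⟨w, w', e, h5, h4, ?_, ?_⟩
      · by_contra hne
        apply hw'C
        have h9 : ω e = true := by
          simp only [orc] at h3
          rcases Bool.or_eq_true_iff.1 h3 with h | h
          · exact h
          · exact absurd h hne
        exact cS_step h5 e h4 h9 h2
      · refine mem_cS.2 ⟨w', rfl, ?_, Rch.refl w'⟩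
        rintro (h | h)
        · exact h2 h
        · exact hw'C h
    · refine ⟨z, z', e', h5, h6, h7, ?_⟩
      refine cS_step h8 e h4 h3 ?_
      rintro (h | h)
      · exact h2 h
      · exact hw'C h

open scoped Classical in
/-- Row B7, the term of one pair. -/
private lemma B7_term (hinj : Function.Injective ends) {p p1 s : ℝ} (hps : 1 - p = (1 - p1) * (1 - s)) (h0 : 0 ≤ p1) (h1 : p1 ≤ 1) (hs0 : 0 ≤ s) (hs1 : s ≤ 1) (Q : Set V) (x y z z' : V) :
    Ex p1 (fun ω => Ex s (fun η => if z ∈ cS ends ω Qᶜ {x} ∧ (∃ e, ends e = s(z, z') ∧ η e = true) ∧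
      y ∈ cS ends (orc ω η) (Qᶜ ∪ ((cS ends ω Qᶜ {x} : Finset V) : Set V)) {z'} then (1 : ℝ) else 0)) ≤
      s * ((if ∃ e, ends e = s(z, z') then (1 : ℝ) else 0) * (tS ends Q p1 x z * tS ends Q p z' y)) := by
  have hp : p = 1 - (1 - p1) * (1 - s) := by linarith
  by_cases hex : ∃ e, ends e = s(z, z')
  swap
  · rw [if_neg hex]
    have : ∀ ω : E → Bool, Ex s (fun η => if z ∈ cS ends ω Qᶜ {x} ∧ (∃ e, ends e = s(z, z') ∧ η e = true) ∧
      y ∈ cS ends (orc ω η) (Qᶜ ∪ ((cS ends ω Qᶜ {x} : Finset V) : Set V)) {z'} then (1 : ℝ) else 0) = 0 := by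
      intro ω
      apply Ex_zero_of
      intro η
      rw [if_neg]
      rintro ⟨-, ⟨e, he, -⟩, -⟩
      exact hex ⟨e, he⟩
    rw [Ex_zero_of this]
    simp
  rw [if_pos hex, one_mul]
  obtain ⟨e, he⟩ := hex
  set F : Finset V → (E → Bool) → ℝ := fun S ω => (if z ∈ S then (1 : ℝ) else 0) *
    Ex s (fun η => if y ∈ cS ends (orc ω η) (Qᶜ ∪ (S : Set V)) {z'} then (1 : ℝ) else 0) with hF
  have hstep : ∀ ω : E → Bool, Ex s (fun η => if z ∈ cS ends ω Qᶜ {x} ∧ (∃ e, ends e = s(z, z') ∧ η e = true) ∧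
      y ∈ cS ends (orc ω η) (Qᶜ ∪ ((cS ends ω Qᶜ {x} : Finset V) : Set V)) {z'} then (1 : ℝ) else 0) =
      s * F (cS ends ω Qᶜ {x}) ω := by
    intro ω
    set C : Finset V := cS ends ω Qᶜ {x} with hC
    by_cases hz : z ∈ C
    · have h2 : ∀ η : E → Bool, (if z ∈ C ∧ (∃ e, ends e = s(z, z') ∧ η e = true) ∧
          y ∈ cS ends (orc ω η) (Qᶜ ∪ (C : Set V)) {z'} then (1 : ℝ) else 0) =
          (if η e = true then 1 else 0) * (if y ∈ cS ends (orc ω η) (Qᶜ ∪ (C : Set V)) {z'} then (1 : ℝ) else 0) := by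
        intro η
        have h3 : (∃ e, ends e = s(z, z') ∧ η e = true) ↔ η e = true := by
          constructor
          · rintro ⟨e', h4, h5⟩
            have : e' = e := hinj (h4.trans he.symm)
            rw [← this]
            exact h5
          · intro h
            exact ⟨e, he, h⟩
        by_cases h4 : η e = true
        · by_cases h5 : y ∈ cS ends (orc ω η) (Qᶜ ∪ (C : Set V)) {z'}
          · rw [if_pos ⟨hz, h3.2 h4, h5⟩, if_pos h4, if_pos h5, one_mul]
          · rw [if_neg (fun h => h5 h.2.2), if_neg h5, mul_zero]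
        · rw [if_neg (fun h => h4 (h3.1 h.2.1)), if_neg h4, zero_mul]
      rw [Ex_congr h2, Ex_coord s e (fun η => if y ∈ cS ends (orc ω η) (Qᶜ ∪ (C : Set V)) {z'} then (1 : ℝ) else 0)]
      · rw [hF]
        simp only
        rw [if_pos hz, one_mul]
      · intro η η' hη
        have h6 : cS ends (orc ω η) (Qᶜ ∪ (C : Set V)) {z'} = cS ends (orc ω η') (Qᶜ ∪ (C : Set V)) {z'} := by
          apply off_dep
          intro e' he'
          have hne : e' ≠ e := by
            rintro rfl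
            exact (he' z z' he).1 hz
          simp only [orc]
          rw [hη e' hne]
        simp only [h6]
    · have h2 : ∀ η : E → Bool, (if z ∈ C ∧ (∃ e, ends e = s(z, z') ∧ η e = true) ∧
          y ∈ cS ends (orc ω η) (Qᶜ ∪ (C : Set V)) {z'} then (1 : ℝ) else 0) = 0 := by
        intro η
        rw [if_neg]
        rintro ⟨h, -⟩
        exact hz h
      rw [Ex_zero_of h2, hF]
      simp only
      rw [if_neg hz]
      ring
  rw [Ex_congr hstep, Ex_mul_left]
  apply mul_le_mul_of_nonneg_left _ hs0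
  rw [fresh p1 Qᶜ {x} F]
  · have hb : ∀ ω : E → Bool, Ex p1 (fun ω' => F (cS ends ω Qᶜ {x}) ω') ≤
        tS ends Q p z' y * (if z ∈ cS ends ω Qᶜ {x} then (1 : ℝ) else 0) := by
      intro ω
      set C : Finset V := cS ends ω Qᶜ {x} with hC
      have h3 : Ex p1 (fun ω' => F C ω') = (if z ∈ C then (1 : ℝ) else 0) *
          Ex p1 (fun ω' => Ex s (fun η => if y ∈ cS ends (orc ω' η) (Qᶜ ∪ (C : Set V)) {z'} then (1 : ℝ) else 0)) := by
        rw [hF]
        simp only
        rw [Ex_mul_left]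
      rw [h3, mul_comm]
      apply mul_le_mul_of_nonneg_right _ (by split_ifs <;> norm_num)
      have h4 : tS ends Q p z' y = Ex p1 (fun ω' => Ex s (fun η => if y ∈ cS ends (orc ω' η) Qᶜ {z'} then (1 : ℝ) else 0)) := by
        unfold tS
        rw [hp, Ex_orc]
      rw [h4]
      apply Ex_mono h0 h1
      intro ω'
      apply Ex_mono hs0 hs1
      intro η
      by_cases h5 : y ∈ cS ends (orc ω' η) (Qᶜ ∪ (C : Set V)) {z'}
      · have h6 : y ∈ cS ends (orc ω' η) Qᶜ {z'} :=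
          cS_mono (fun _ h => h) Set.subset_union_left (subset_refl _) h5
        rw [if_pos h5, if_pos h6]
      · rw [if_neg h5]
        split_ifs <;> norm_num
    refine (Ex_mono h0 h1 hb).trans ?_
    rw [Ex_mul_left]
    apply le_of_eq
    unfold tS
    ring
  · intro S ω ω' hωω'
    rw [hF]
    simp only
    congr 1
    apply Ex_congr
    intro η
    have h6 : cS ends (orc ω η) (Qᶜ ∪ (S : Set V)) {z'} = cS ends (orc ω' η) (Qᶜ ∪ (S : Set V)) {z'} := by
      apply off_dep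
      intro e' he'
      simp only [orc]
      rw [hωω' e' he']
    simp only [h6]

open scoped Classical in
/-- Row B7. One step of sprinkling. `Ex_orc`: the configuration `ξ = orc ω η`. If `y ∈ cS ξ Qᶜ {x}` and `y ∉ C := cS ω Qᶜ {x}`: take a path in `Q` from `x` to `y` in `ξ`, `z` its last vertex in `C`, `z'` the next one: the edge `(z,z')` is closed in `ω` (`z' ∉ C`), so open in `η`, and
`y ∈ cS ξ (Qᶜ ∪ C) {z'}`. Given `C` these are independent of each other and fresh: probability `s` times at most `tS Q p z' y` (`explore_gen` for `ω` with the cluster `C`: the indicator `z ∈ C`, the edge in `η`, and the connection of `z'` to `y` off `C` in `orc ω η` depends on the edges which do not touch `C`). -/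
lemma near_step (hinj : Function.Injective ends) {p p1 s : ℝ} (hps : 1 - p = (1 - p1) * (1 - s)) (h0 : 0 ≤ p1) (h1 : p1 ≤ 1) (hs0 : 0 ≤ s) (hs1 : s ≤ 1) (Q : Set V) (x y : V) :
    tS ends Q p x y ≤ tS ends Q p1 x y + s * ∑ z, ∑ z', (if ∃ e, ends e = s(z, z') then (1 : ℝ) else 0) * (tS ends Q p1 x z * tS ends Q p z' y) := by
  have hp : p = 1 - (1 - p1) * (1 - s) := by linarith
  have h2 : tS ends Q p x y = Ex p1 (fun ω => Ex s (fun η => if y ∈ cS ends (orc ω η) Qᶜ {x} then (1 : ℝ) else 0)) := by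
    unfold tS
    rw [hp, Ex_orc]
  rw [h2]
  have hpt : ∀ ω η : E → Bool, (if y ∈ cS ends (orc ω η) Qᶜ {x} then (1 : ℝ) else 0) ≤
      (if y ∈ cS ends ω Qᶜ {x} then (1 : ℝ) else 0) + ∑ z, ∑ z', (if z ∈ cS ends ω Qᶜ {x} ∧ (∃ e, ends e = s(z, z') ∧ η e = true) ∧
      y ∈ cS ends (orc ω η) (Qᶜ ∪ ((cS ends ω Qᶜ {x} : Finset V) : Set V)) {z'} then (1 : ℝ) else 0) := by
    intro ω η
    have hn : ∀ z z' : V, (0 : ℝ) ≤ (if z ∈ cS ends ω Qᶜ {x} ∧ (∃ e, ends e = s(z, z') ∧ η e = true) ∧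
      y ∈ cS ends (orc ω η) (Qᶜ ∪ ((cS ends ω Qᶜ {x} : Finset V) : Set V)) {z'} then (1 : ℝ) else 0) := by
      intro z z'
      split_ifs <;> norm_num
    by_cases hy : y ∈ cS ends (orc ω η) Qᶜ {x}
    · rw [if_pos hy]
      rcases B7_pt hy with h | ⟨z, z', e, h3, h4, h5, h6⟩
      · rw [if_pos h]
        have : (0 : ℝ) ≤ ∑ z, ∑ z', (if z ∈ cS ends ω Qᶜ {x} ∧ (∃ e, ends e = s(z, z') ∧ η e = true) ∧
          y ∈ cS ends (orc ω η) (Qᶜ ∪ ((cS ends ω Qᶜ {x} : Finset V) : Set V)) {z'} then (1 : ℝ) else 0) :=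
          Finset.sum_nonneg fun z _ => Finset.sum_nonneg fun z' _ => hn z z'
        linarith
      · have h7 : (1 : ℝ) ≤ ∑ z, ∑ z', (if z ∈ cS ends ω Qᶜ {x} ∧ (∃ e, ends e = s(z, z') ∧ η e = true) ∧
          y ∈ cS ends (orc ω η) (Qᶜ ∪ ((cS ends ω Qᶜ {x} : Finset V) : Set V)) {z'} then (1 : ℝ) else 0) := by
          calc (1 : ℝ) = (if z ∈ cS ends ω Qᶜ {x} ∧ (∃ e, ends e = s(z, z') ∧ η e = true) ∧
                y ∈ cS ends (orc ω η) (Qᶜ ∪ ((cS ends ω Qᶜ {x} : Finset V) : Set V)) {z'} then (1 : ℝ) else 0) := by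
                rw [if_pos ⟨h3, ⟨e, h4, h5⟩, h6⟩]
            _ ≤ ∑ z', (if z ∈ cS ends ω Qᶜ {x} ∧ (∃ e, ends e = s(z, z') ∧ η e = true) ∧
                y ∈ cS ends (orc ω η) (Qᶜ ∪ ((cS ends ω Qᶜ {x} : Finset V) : Set V)) {z'} then (1 : ℝ) else 0) :=
                Finset.single_le_sum (f := fun z' => (if z ∈ cS ends ω Qᶜ {x} ∧ (∃ e, ends e = s(z, z') ∧ η e = true) ∧
                  y ∈ cS ends (orc ω η) (Qᶜ ∪ ((cS ends ω Qᶜ {x} : Finset V) : Set V)) {z'} then (1 : ℝ) else 0))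
                  (fun z' _ => hn z z') (Finset.mem_univ z')
            _ ≤ _ := Finset.single_le_sum (f := fun z => ∑ z', (if z ∈ cS ends ω Qᶜ {x} ∧ (∃ e, ends e = s(z, z') ∧ η e = true) ∧
                  y ∈ cS ends (orc ω η) (Qᶜ ∪ ((cS ends ω Qᶜ {x} : Finset V) : Set V)) {z'} then (1 : ℝ) else 0))
                  (fun z _ => Finset.sum_nonneg fun z' _ => hn z z') (Finset.mem_univ z)
        have h8 : (0 : ℝ) ≤ (if y ∈ cS ends ω Qᶜ {x} then (1 : ℝ) else 0) := by split_ifs <;> norm_num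
        linarith
    · rw [if_neg hy]
      have h8 : (0 : ℝ) ≤ (if y ∈ cS ends ω Qᶜ {x} then (1 : ℝ) else 0) := by split_ifs <;> norm_num
      have : (0 : ℝ) ≤ ∑ z, ∑ z', (if z ∈ cS ends ω Qᶜ {x} ∧ (∃ e, ends e = s(z, z') ∧ η e = true) ∧
          y ∈ cS ends (orc ω η) (Qᶜ ∪ ((cS ends ω Qᶜ {x} : Finset V) : Set V)) {z'} then (1 : ℝ) else 0) :=
          Finset.sum_nonneg fun z _ => Finset.sum_nonneg fun z' _ => hn z z'
      linarith
  refine (Ex_mono h0 h1 (fun ω => Ex_mono hs0 hs1 (fun η => hpt ω η))).trans ?_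
  have hsplit : Ex p1 (fun ω => Ex s (fun η => (if y ∈ cS ends ω Qᶜ {x} then (1 : ℝ) else 0) +
      ∑ z, ∑ z', (if z ∈ cS ends ω Qᶜ {x} ∧ (∃ e, ends e = s(z, z') ∧ η e = true) ∧
      y ∈ cS ends (orc ω η) (Qᶜ ∪ ((cS ends ω Qᶜ {x} : Finset V) : Set V)) {z'} then (1 : ℝ) else 0))) =
      tS ends Q p1 x y + ∑ z, ∑ z', Ex p1 (fun ω => Ex s (fun η => (if z ∈ cS ends ω Qᶜ {x} ∧ (∃ e, ends e = s(z, z') ∧ η e = true) ∧
      y ∈ cS ends (orc ω η) (Qᶜ ∪ ((cS ends ω Qᶜ {x} : Finset V) : Set V)) {z'} then (1 : ℝ) else 0))) := by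
    have e1 : ∀ ω : E → Bool, Ex s (fun η => (if y ∈ cS ends ω Qᶜ {x} then (1 : ℝ) else 0) +
      ∑ z, ∑ z', (if z ∈ cS ends ω Qᶜ {x} ∧ (∃ e, ends e = s(z, z') ∧ η e = true) ∧
      y ∈ cS ends (orc ω η) (Qᶜ ∪ ((cS ends ω Qᶜ {x} : Finset V) : Set V)) {z'} then (1 : ℝ) else 0)) =
      (if y ∈ cS ends ω Qᶜ {x} then (1 : ℝ) else 0) + ∑ z, ∑ z', Ex s (fun η => (if z ∈ cS ends ω Qᶜ {x} ∧ (∃ e, ends e = s(z, z') ∧ η e = true) ∧
      y ∈ cS ends (orc ω η) (Qᶜ ∪ ((cS ends ω Qᶜ {x} : Finset V) : Set V)) {z'} then (1 : ℝ) else 0)) := by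
      intro ω
      rw [Ex_add, Ex_const, Ex_sum]
      congr 1
      exact Finset.sum_congr rfl fun z _ => Ex_sum _ _ _
    rw [Ex_congr e1, Ex_add, Ex_sum]
    congr 1
    exact Finset.sum_congr rfl fun z _ => Ex_sum _ _ _
  rw [hsplit]
  have hsum : ∑ z, ∑ z', Ex p1 (fun ω => Ex s (fun η => (if z ∈ cS ends ω Qᶜ {x} ∧ (∃ e, ends e = s(z, z') ∧ η e = true) ∧
      y ∈ cS ends (orc ω η) (Qᶜ ∪ ((cS ends ω Qᶜ {x} : Finset V) : Set V)) {z'} then (1 : ℝ) else 0))) ≤
      s * ∑ z, ∑ z', (if ∃ e, ends e = s(z, z') then (1 : ℝ) else 0) * (tS ends Q p1 x z * tS ends Q p z' y) := by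
    rw [Finset.mul_sum]
    apply Finset.sum_le_sum
    intro z _
    rw [Finset.mul_sum]
    apply Finset.sum_le_sum
    intro z' _
    exact B7_term hinj hps h0 h1 hs0 hs1 Q x y z z'
  linarith

/-- Row B8a. The clusters of single vertices are equal or disjoint. -/
lemma B8a_eq {ω : E → Bool} {D : Set V} {a b : V} (h : b ∈ cS ends ω D {a}) :
    cS ends ω D {b} = cS ends ω D {a} := by
  have hb := cS_off h
  obtain ⟨a', ha', haD, har⟩ := mem_cS.1 h
  rw [Set.mem_singleton_iff] at ha'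
  subst ha'
  ext y
  rw [mem_cS, mem_cS]
  constructor
  · rintro ⟨c, hc, hcD, hcr⟩
    rw [Set.mem_singleton_iff] at hc
    subst hc
    exact ⟨a', rfl, haD, har.trans hcr⟩
  · rintro ⟨c, hc, hcD, hcr⟩
    rw [Set.mem_singleton_iff] at hc
    subst hc
    exact ⟨b, rfl, hb, har.symm.trans hcr⟩

lemma B8a_self {ω : E → Bool} {D : Set V} {a y : V} (h : y ∈ cS ends ω D {a}) :
    a ∈ cS ends ω D {a} := by
  obtain ⟨a', ha', haD, -⟩ := mem_cS.1 h
  rw [Set.mem_singleton_iff] at ha'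
  subst ha'
  exact mem_cS.2 ⟨a', rfl, haD, Rch.refl a'⟩

lemma B8a_mem {ω : E → Bool} {D : Set V} {A : Finset V} {y : V} :
    y ∈ cS ends ω D (A : Set V) ↔ ∃ a ∈ A, y ∈ cS ends ω D {a} := by
  constructor
  · intro h
    obtain ⟨a, ha, haD, har⟩ := mem_cS.1 h
    exact ⟨a, Finset.mem_coe.1 ha, mem_cS.2 ⟨a, rfl, haD, har⟩⟩
  · rintro ⟨a, ha, h⟩
    obtain ⟨a', ha', haD, har⟩ := mem_cS.1 h
    rw [Set.mem_singleton_iff] at ha'
    subst ha'
    exact mem_cS.2 ⟨a', Finset.mem_coe.2 ha, haD, har⟩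

lemma B8a_insert {ω : E → Bool} {D : Set V} {A : Finset V} {b : V} :
    cS ends ω D ((insert b A : Finset V) : Set V) = cS ends ω D {b} ∪ cS ends ω D (A : Set V) := by
  ext y
  rw [Finset.mem_union, B8a_mem, B8a_mem]
  constructor
  · rintro ⟨a, ha, h⟩
    rcases Finset.mem_insert.1 ha with rfl | ha
    · exact Or.inl h
    · exact Or.inr ⟨a, ha, h⟩
  · rintro (h | ⟨a, ha, h⟩)
    · exact ⟨b, Finset.mem_insert_self b A, h⟩
    · exact ⟨a, Finset.mem_insert_of_mem ha, h⟩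

lemma B8a_sub {h : ℝ} (hh0 : 0 ≤ h) (hh1 : h ≤ 1) (ω : E → Bool) (D : Set V) (A : Finset V) :
    gh h (cS ends ω D (A : Set V)).card ≤ ∑ a ∈ A, gh h (cS ends ω D {a}).card := by
  induction A using Finset.induction_on with
  | empty =>
    have h1 : cS ends ω D ((∅ : Finset V) : Set V) = ∅ := by
      ext y
      rw [B8a_mem]
      simp
    rw [h1, Finset.sum_empty, Finset.card_empty]
    simp [gh]
  | insert b A hb ih =>
    rw [B8a_insert, Finset.sum_insert hb]
    calc gh h (cS ends ω D {b} ∪ cS ends ω D (A : Set V)).card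
        ≤ gh h ((cS ends ω D {b}).card + (cS ends ω D (A : Set V)).card) :=
          gh_mono hh0 hh1 (Finset.card_union_le _ _)
      _ ≤ _ := (gh_add hh0 hh1 _ _).trans (by linarith)

/-- Row B8a. The two cases for a new point. -/
lemma B8a_case {ω : E → Bool} {D : Set V} {A : Finset V} {b : V} :
    (∃ a ∈ A, a ∈ cS ends ω D {b} ∧
      cS ends ω D ((insert b A : Finset V) : Set V) = cS ends ω D (A : Set V)) ∨
    ((∀ a ∈ A, a ∉ cS ends ω D {b} ∧ b ∉ cS ends ω D {a}) ∧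
      (cS ends ω D ((insert b A : Finset V) : Set V)).card =
        (cS ends ω D {b}).card + (cS ends ω D (A : Set V)).card) := by
  by_cases hc : ∃ a ∈ A, a ∈ cS ends ω D {b}
  · obtain ⟨a, ha, hab⟩ := hc
    refine Or.inl ⟨a, ha, hab, ?_⟩
    rw [B8a_insert]
    refine Finset.union_eq_right.2 ?_
    intro y hy
    rw [← B8a_eq hab] at hy
    exact B8a_mem.2 ⟨a, ha, hy⟩
  · have hc' : ∀ a ∈ A, a ∉ cS ends ω D {b} := fun a ha h => hc ⟨a, ha, h⟩
    refine Or.inr ⟨fun a ha => ⟨hc' a ha, fun h => ?_⟩, ?_⟩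
    · have h1 := B8a_eq h
      have h2 := B8a_self h
      rw [← h1] at h2
      exact hc' a ha h2
    · rw [B8a_insert, Finset.card_union_of_disjoint]
      rw [Finset.disjoint_left]
      intro y hy hy'
      obtain ⟨a, ha, hya⟩ := B8a_mem.1 hy'
      have h1 := B8a_eq hy
      have h2 := B8a_eq hya
      have h3 := B8a_self hya
      rw [← h2, h1] at h3
      exact hc' a ha h3

/-- Row B8a. The induction step for the double sum. -/
lemma B8a_step (T : V → V → ℝ) {A : Finset V} {b : V} (hb : b ∉ A) :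
    ∑ a ∈ insert b A, ∑ a' ∈ (insert b A).erase a, T a a' =
      ∑ a ∈ A, ∑ a' ∈ A.erase a, T a a' + (∑ a' ∈ A, T b a' + ∑ a ∈ A, T a b) := by
  rw [Finset.sum_insert hb, Finset.erase_insert hb]
  have h1 : ∀ a ∈ A, ∑ a' ∈ (insert b A).erase a, T a a' = T a b + ∑ a' ∈ A.erase a, T a a' := by
    intro a ha
    have hab : b ≠ a := fun h => hb (h ▸ ha)
    rw [Finset.erase_insert_of_ne hab, Finset.sum_insert]
    exact fun h => hb (Finset.mem_of_mem_erase h)
  rw [Finset.sum_congr rfl h1, Finset.sum_add_distrib]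
  ring

/-- Row B8. Deterministic: the sets `C_a = cS ω D {a}` (`a ∈ A`) are pairwise equal or disjoint and their union is `cS ω D A`. Let `A0 ⊆ A` contain one point for every cluster (for instance `A0` = the points `a` with `a` minimal in `A ∩ C_a` for some linear order, or induction on `A`).
`∑_{a ∈ A} gh |C_a| - gh |⋃ C_a| ≤ ∑_{a ∈ A \ A0} gh |C_a| + ∑_{a ≠ a' ∈ A0} gh |C_a| gh |C_a'|` (`1 - ∏(1 - x_i) ≥ ∑ x_i - ∑_{i<j} x_i x_j`). Easiest: induction on `A`. -/
lemma su_pt {h : ℝ} (hh0 : 0 ≤ h) (hh1 : h ≤ 1) (ω : E → Bool) (D : Set V) (A : Finset V) :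
    ∑ a ∈ A, gh h (cS ends ω D {a}).card - gh h (cS ends ω D (A : Set V)).card ≤
      ∑ a ∈ A, ∑ a' ∈ A.erase a, (if a' ∈ cS ends ω D {a} then gh h (cS ends ω D {a}).card else gh h (cS ends ω D {a}).card * gh h (cS ends ω D {a'}).card) := by
  induction A using Finset.induction_on with
  | empty =>
    have h1 : cS ends ω D ((∅ : Finset V) : Set V) = ∅ := by
      ext y
      rw [B8a_mem]
      simp
    rw [h1]
    simp [gh]
  | insert b A hb ih =>
    rw [B8a_step (fun a a' => if a' ∈ cS ends ω D {a} then gh h (cS ends ω D {a}).card else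
      gh h (cS ends ω D {a}).card * gh h (cS ends ω D {a'}).card) hb, Finset.sum_insert hb]
    have hnn : ∀ a a' : V, (0 : ℝ) ≤ (if a' ∈ cS ends ω D {a} then gh h (cS ends ω D {a}).card else
        gh h (cS ends ω D {a}).card * gh h (cS ends ω D {a'}).card) := by
      intro a a'
      split_ifs
      · exact gh_nonneg hh0 hh1 _
      · exact mul_nonneg (gh_nonneg hh0 hh1 _) (gh_nonneg hh0 hh1 _)
    have h2 : 0 ≤ ∑ a ∈ A, (if b ∈ cS ends ω D {a} then gh h (cS ends ω D {a}).card else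
        gh h (cS ends ω D {a}).card * gh h (cS ends ω D {b}).card) :=
      Finset.sum_nonneg fun a _ => hnn a b
    have h3 : gh h (cS ends ω D {b}).card + gh h (cS ends ω D (A : Set V)).card -
        gh h (cS ends ω D ((insert b A : Finset V) : Set V)).card ≤
        ∑ a' ∈ A, (if a' ∈ cS ends ω D {b} then gh h (cS ends ω D {b}).card else
          gh h (cS ends ω D {b}).card * gh h (cS ends ω D {a'}).card) := by
      rcases B8a_case (ends := ends) (ω := ω) (D := D) (A := A) (b := b) with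
        ⟨a, ha, hab, he⟩ | ⟨hn, hcard⟩
      · rw [he]
        have h4 := Finset.single_le_sum (f := fun a' => (if a' ∈ cS ends ω D {b} then
          gh h (cS ends ω D {b}).card else gh h (cS ends ω D {b}).card *
          gh h (cS ends ω D {a'}).card)) (fun a' _ => hnn b a') ha
        simp only [hab, if_true] at h4
        linarith
      · rw [hcard]
        have h4 : ∑ a' ∈ A, (if a' ∈ cS ends ω D {b} then gh h (cS ends ω D {b}).card else
            gh h (cS ends ω D {b}).card * gh h (cS ends ω D {a'}).card) =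
            gh h (cS ends ω D {b}).card * ∑ a' ∈ A, gh h (cS ends ω D {a'}).card := by
          rw [Finset.mul_sum]
          exact Finset.sum_congr rfl fun a ha => if_neg (hn a ha).1
        rw [h4]
        have h5 : gh h ((cS ends ω D {b}).card + (cS ends ω D (A : Set V)).card) =
            gh h (cS ends ω D {b}).card + gh h (cS ends ω D (A : Set V)).card -
              gh h (cS ends ω D {b}).card * gh h (cS ends ω D (A : Set V)).card := by
          unfold gh
          rw [pow_add]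
          ring
        rw [h5]
        have h6 := mul_le_mul_of_nonneg_left (B8a_sub (ends := ends) hh0 hh1 ω D A)
          (gh_nonneg hh0 hh1 (cS ends ω D {b}).card)
        linarith
    linarith

/-- Row B8. The same for `fh` (`fh_sum`, `fh ≤ gh / h`). -/
lemma su_ptf {h : ℝ} (hh0 : 0 < h) (hh1 : h ≤ 1) (ω : E → Bool) (D : Set V) (A : Finset V) :
    ∑ a ∈ A, fh h (cS ends ω D {a}).card - fh h (cS ends ω D (A : Set V)).card ≤
      (∑ a ∈ A, ∑ a' ∈ A.erase a, (if a' ∈ cS ends ω D {a} then gh h (cS ends ω D {a}).card else gh h (cS ends ω D {a}).card * gh h (cS ends ω D {a'}).card)) / h := by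
  have hh0' : 0 ≤ h := hh0.le
  rw [le_div_iff₀ hh0]
  induction A using Finset.induction_on with
  | empty =>
    have h1 : cS ends ω D ((∅ : Finset V) : Set V) = ∅ := by
      ext y
      rw [B8a_mem]
      simp
    rw [h1]
    simp [fh]
  | insert b A hb ih =>
    rw [B8a_step (fun a a' => if a' ∈ cS ends ω D {a} then gh h (cS ends ω D {a}).card else
      gh h (cS ends ω D {a}).card * gh h (cS ends ω D {a'}).card) hb, Finset.sum_insert hb]
    have hnn : ∀ a a' : V, (0 : ℝ) ≤ (if a' ∈ cS ends ω D {a} then gh h (cS ends ω D {a}).card else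
        gh h (cS ends ω D {a}).card * gh h (cS ends ω D {a'}).card) := by
      intro a a'
      split_ifs
      · exact gh_nonneg hh0' hh1 _
      · exact mul_nonneg (gh_nonneg hh0' hh1 _) (gh_nonneg hh0' hh1 _)
    have h3 : (fh h (cS ends ω D {b}).card + fh h (cS ends ω D (A : Set V)).card -
        fh h (cS ends ω D ((insert b A : Finset V) : Set V)).card) * h ≤
        ∑ a' ∈ A, (if a' ∈ cS ends ω D {b} then gh h (cS ends ω D {b}).card else
          gh h (cS ends ω D {b}).card * gh h (cS ends ω D {a'}).card) +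
        ∑ a ∈ A, (if b ∈ cS ends ω D {a} then gh h (cS ends ω D {a}).card else
          gh h (cS ends ω D {a}).card * gh h (cS ends ω D {b}).card) := by
      rcases B8a_case (ends := ends) (ω := ω) (D := D) (A := A) (b := b) with
        ⟨a, ha, hab, he⟩ | ⟨hn, hcard⟩
      · rw [he]
        have h2 : 0 ≤ ∑ a ∈ A, (if b ∈ cS ends ω D {a} then gh h (cS ends ω D {a}).card else
            gh h (cS ends ω D {a}).card * gh h (cS ends ω D {b}).card) :=
          Finset.sum_nonneg fun a _ => hnn a b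
        have h4 := Finset.single_le_sum (f := fun a' => (if a' ∈ cS ends ω D {b} then
          gh h (cS ends ω D {b}).card else gh h (cS ends ω D {b}).card *
          gh h (cS ends ω D {a'}).card)) (fun a' _ => hnn b a') ha
        simp only [hab, if_true] at h4
        have h5 := fh_le hh0' hh1 (cS ends ω D {b}).card
        nlinarith
      · rw [hcard]
        have h4 : ∑ a' ∈ A, (if a' ∈ cS ends ω D {b} then gh h (cS ends ω D {b}).card else
            gh h (cS ends ω D {b}).card * gh h (cS ends ω D {a'}).card) =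
            gh h (cS ends ω D {b}).card * ∑ a' ∈ A, gh h (cS ends ω D {a'}).card := by
          rw [Finset.mul_sum]
          exact Finset.sum_congr rfl fun a ha => if_neg (hn a ha).1
        have h4' : ∑ a ∈ A, (if b ∈ cS ends ω D {a} then gh h (cS ends ω D {a}).card else
            gh h (cS ends ω D {a}).card * gh h (cS ends ω D {b}).card) =
            gh h (cS ends ω D {b}).card * ∑ a' ∈ A, gh h (cS ends ω D {a'}).card := by
          rw [Finset.mul_sum]
          exact Finset.sum_congr rfl fun a ha => by rw [if_neg (hn a ha).2, mul_comm]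
        rw [h4, h4']
        have h6 := mul_le_mul_of_nonneg_left (B8a_sub (ends := ends) hh0' hh1 ω D A)
          (gh_nonneg hh0' hh1 (cS ends ω D {b}).card)
        obtain ⟨x, hx⟩ : ∃ x, x = (cS ends ω D {b}).card := ⟨_, rfl⟩
        obtain ⟨y, hy⟩ : ∃ y, y = (cS ends ω D (A : Set V)).card := ⟨_, rfl⟩
        rw [← hx, ← hy] at h6 ⊢
        have h7 : fh h x + fh h y - fh h (x + y) = fh h x * gh h y + fh h y * gh h x := by
          unfold gh fh
          push_cast
          rw [pow_add]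
          ring
        have h8 := fh_le hh0' hh1 x
        have h9 := fh_le hh0' hh1 y
        have h10 := mul_le_mul_of_nonneg_right h8 (gh_nonneg hh0' hh1 y)
        have h11 := mul_le_mul_of_nonneg_right h9 (gh_nonneg hh0' hh1 x)
        rw [h7]
        have h12 : (fh h x * gh h y + fh h y * gh h x) * h =
            h * fh h x * gh h y + h * fh h y * gh h x := by ring
        rw [h12]
        have h13 : gh h y * gh h x = gh h x * gh h y := mul_comm _ _
        linarith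
    have h14 : (fh h (cS ends ω D {b}).card + ∑ a ∈ A, fh h (cS ends ω D {a}).card -
        fh h (cS ends ω D ((insert b A : Finset V) : Set V)).card) * h =
        (∑ a ∈ A, fh h (cS ends ω D {a}).card - fh h (cS ends ω D (A : Set V)).card) * h +
        (fh h (cS ends ω D {b}).card + fh h (cS ends ω D (A : Set V)).card -
          fh h (cS ends ω D ((insert b A : Finset V) : Set V)).card) * h := by ring
    rw [h14]
    linarith

open scoped Classical in
/-- Row B8. Expectation of the right side: `two_diff`, and `if a' ∈ C_a` is split by `a' ∈ cS ω (D ∪ Qᶜ) {a}`: `fork`, `arm3`. -/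
lemma su_ex {p h M pi0 : ℝ} (h0 : 0 ≤ p) (h1 : p ≤ 1) (hh0 : 0 ≤ h) (hh1 : h ≤ 1) (hM : Mb ends p h M) (D Q P : Set V) (A : Finset V) (hA : ∀ a ∈ A, a ∈ Q)
    (hP : ∀ e x y, ends e = s(x, y) → x ∈ Q → y ∉ Q → x ∈ P)
    (hpi : ∀ a ∈ A, Ex p (fun ω => if ∃ y ∈ cS ends ω (D ∪ Qᶜ) {a}, y ∈ P then (1 : ℝ) else 0) ≤ pi0) :
    Ex p (fun ω => ∑ a ∈ A, ∑ a' ∈ A.erase a, (if a' ∈ cS ends ω D {a} then gh h (cS ends ω D {a}).card else gh h (cS ends ω D {a}).card * gh h (cS ends ω D {a'}).card)) ≤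
      M * ∑ a ∈ A, ∑ a' ∈ A.erase a, (∑ z, tS ends Q p a z * tS ends Q p z a' + 2 * pi0 + M) := by
  have hM0 : A.Nonempty → 0 ≤ M := by
    rintro ⟨a, _⟩
    exact (Ex_nonneg h0 h1 (fun ω => gh_nonneg hh0 hh1 _)).trans (hM ∅ a)
  rw [Ex_sum, Finset.mul_sum]
  apply Finset.sum_le_sum
  intro a ha
  rw [Ex_sum, Finset.mul_sum]
  apply Finset.sum_le_sum
  intro a' ha'
  have hM1 := hM0 ⟨a, ha⟩
  have haQ := hA a ha
  have ha'A := Finset.mem_of_mem_erase ha'
  have ha'Q := hA a' ha'A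
  have e1 := two_diff h0 h1 hh0 hh1 hM D a a'
  have e2 := fork h0 h1 hh0 hh1 hM D Q a a'
  have e3 := arm3 h0 h1 hh0 hh1 hM D Q P a a' haQ ha'Q hP
  have e4 := mul_le_mul_of_nonneg_left (add_le_add (hpi a ha) (hpi a' ha'A)) hM1
  have e5 : Ex p (fun ω => if a' ∈ cS ends ω D {a} then gh h (cS ends ω D {a}).card else gh h (cS ends ω D {a}).card * gh h (cS ends ω D {a'}).card) ≤
      Ex p (fun ω => (if a' ∈ cS ends ω D {a} then (0 : ℝ) else gh h (cS ends ω D {a}).card * gh h (cS ends ω D {a'}).card) +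
        ((if a' ∈ cS ends ω (D ∪ Qᶜ) {a} then gh h (cS ends ω D {a}).card else (0 : ℝ)) +
          (if a' ∈ cS ends ω D {a} ∧ a' ∉ cS ends ω (D ∪ Qᶜ) {a} then gh h (cS ends ω D {a}).card else (0 : ℝ)))) := by
    apply Ex_mono h0 h1
    intro ω
    have g1 := gh_nonneg hh0 hh1 (cS ends ω D {a}).card
    by_cases c1 : a' ∈ cS ends ω D {a}
    · by_cases c2 : a' ∈ cS ends ω (D ∪ Qᶜ) {a}
      · simp only [c1, c2, if_true, not_true, and_false, if_false]
        linarith
      · simp only [c1, c2, if_true, not_false_iff, and_true, if_false]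
        linarith
    · by_cases c2 : a' ∈ cS ends ω (D ∪ Qᶜ) {a}
      · simp only [c1, c2, if_true, if_false, false_and]
        linarith
      · simp only [c1, c2, if_false, false_and]
        linarith
  rw [Ex_add, Ex_add] at e5
  have e6 : M * (∑ z, tS ends Q p a z * tS ends Q p z a' + 2 * pi0 + M) =
      M ^ 2 + (M * (∑ z, tS ends Q p a z * tS ends Q p z a') + M * (pi0 + pi0)) := by ring
  rw [e6]
  linarith

end Pool.Agent.PERC29.DZ
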