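import Pool.Agent.Lib.MP_29e17e_pr.Z.Df

set_option autoImplicit false
set_option linter.unusedSectionVars false

/-! Rows 29d-K1 .. 29d-K5: kernels on the lattice. -/

open Finset

namespace Pool.Agent.PERC29.DZ

open Pool.Agent.PERC29 Pool.Agent.PERC29.AE

variable {d : ℕ}

/-- Row K1. `nz` is a norm with values in `ℕ` (each coordinate: `Int.natAbs_add_le`, `Finset.sup_le`, `Finset.le_sup`). -/
lemma nz_zero : nz (0 : Zd d) = 0 := by
  apply Nat.le_zero.1
  refine Finset.sup_le ?_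
  intro i _
  simp

lemma nz_neg (x : Zd d) : nz (-x) = nz x := by
  unfold nz
  refine Finset.sup_congr rfl ?_
  intro i _
  simp

lemma nz_add (x y : Zd d) : nz (x + y) ≤ nz x + nz y := by
  refine Finset.sup_le ?_
  intro i _
  have h1 : (x i).natAbs ≤ nz x :=
    Finset.le_sup (f := fun i => (x i).natAbs) (Finset.mem_univ i)
  have h2 : (y i).natAbs ≤ nz y :=
    Finset.le_sup (f := fun i => (y i).natAbs) (Finset.mem_univ i)
  have h3 : ((x + y) i).natAbs ≤ (x i).natAbs + (y i).natAbs := Int.natAbs_add_le (x i) (y i)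
  omega

lemma nz_sub (x y : Zd d) : nz (x - y) = nz (y - x) := by
  rw [← nz_neg (x - y), neg_sub]

lemma nz_tri (x y z : Zd d) : nz (x - z) ≤ nz (x - y) + nz (y - z) := by
  have h := nz_add (x - y) (y - z)
  rwa [sub_add_sub_cancel] at h

private lemma K1a_le (R : ℕ) (x : Zd d) : nz x ≤ R ↔ ∀ i, -(R : ℤ) ≤ x i ∧ x i ≤ (R : ℤ) := by
  unfold nz
  rw [Finset.sup_le_iff]
  constructor
  · intro h i
    have := h i (Finset.mem_univ i)
    omega
  · intro h i _
    have := h i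
    omega

lemma mem_bz (R : ℕ) (x : Zd d) : x ∈ (bz R : Finset (Zd d)) ↔ nz x ≤ R := by
  unfold bz
  rw [Finset.mem_Icc, K1a_le, Pi.le_def, Pi.le_def]
  exact ⟨fun h i => ⟨h.1 i, h.2 i⟩, fun h => ⟨fun i => (h i).1, fun i => (h i).2⟩⟩

lemma mem_bv (v : Zd d) (R : ℕ) (x : Zd d) : x ∈ bv v R ↔ nz (x - v) ≤ R := by
  unfold bv
  rw [Finset.mem_Icc, K1a_le, Pi.le_def, Pi.le_def]
  constructor
  · intro h i
    have h1 := h.1 i
    have h2 := h.2 i
    simp only [Pi.sub_apply]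
    constructor <;> linarith
  · intro h
    constructor
    · intro i
      have h1 := (h i).1
      simp only [Pi.sub_apply] at h1
      show v i - (R : ℤ) ≤ x i
      linarith
    · intro i
      have h1 := (h i).2
      simp only [Pi.sub_apply] at h1
      show x i ≤ v i + (R : ℤ)
      linarith

/-- Row K1. `Pi.card_Icc`, every factor is `2R+1`. -/
lemma card_bv (v : Zd d) (R : ℕ) : (bv v R).card = (2 * R + 1) ^ d := by
  unfold bv
  rw [Pi.card_Icc]
  have h : ∀ i : Fin d, (Finset.Icc (v i - (R : ℤ)) (v i + (R : ℤ))).card = 2 * R + 1 := by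
    intro i
    rw [Int.card_Icc]
    omega
  rw [Finset.prod_congr rfl (fun i _ => h i), Finset.prod_const, Finset.card_univ, Fintype.card_fin]

/-- Row K1. `rel` is injective, and the difference of two relative positions has norm `nd x y`. -/
lemma rel_inj {l : ℕ} (u : Fin d → Fin l) : Function.Injective (rel u) := by
  intro x y h
  funext i
  have h1 := congrFun h i
  simp only [rel] at h1
  apply Fin.ext
  omega

lemma nz_rel {l : ℕ} (u x y : Fin d → Fin l) : nz (rel u x - rel u y) = nd x y := by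
  unfold nz nd
  congr 1
  funext i
  simp only [Pi.sub_apply, rel]
  omega

lemma fz_rel {l : ℕ} (k : ℕ) (u x y : Fin d → Fin l) : fz k (rel u x - rel u y) = fk k x y := by
  unfold fz fk
  rw [nz_rel]

lemma fz_pos (k : ℕ) (x : Zd d) : 0 < fz k x := by
  unfold fz
  positivity

lemma fz_le_one (k : ℕ) (x : Zd d) : fz k x ≤ 1 := by
  unfold fz
  have h1 : (1 : ℝ) ≤ 1 + (nz x : ℝ) := by
    have : (0 : ℝ) ≤ (nz x : ℝ) := Nat.cast_nonneg _
    linarith
  have h2 : (1 : ℝ) ≤ (1 + (nz x : ℝ)) ^ k := one_le_pow₀ h1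
  rw [div_le_one (by positivity)]
  exact h2

lemma fz_zero (k : ℕ) : fz k (0 : Zd d) = 1 := by
  unfold fz
  rw [nz_zero]
  simp

lemma fz_sub (k : ℕ) (x y : Zd d) : fz k (x - y) = fz k (y - x) := by
  unfold fz
  rw [nz_sub]

/-- Row K1. A smaller exponent gives a larger kernel. -/
lemma fz_mono {j k : ℕ} (hjk : j ≤ k) (x : Zd d) : fz k x ≤ fz j x := by
  unfold fz
  have h1 : (1 : ℝ) ≤ 1 + (nz x : ℝ) := by
    have : (0 : ℝ) ≤ (nz x : ℝ) := Nat.cast_nonneg _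
    linarith
  exact one_div_le_one_div_of_le (by positivity) (pow_le_pow_right₀ h1 hjk)

/-- Row K1. The tail trick: `(1+|x|)^(-k) ≤ (1+ρ)^(-j) (1+|x|)^(-(k-j))` if `|x| ≥ ρ`. -/
lemma fz_tail {j k : ℕ} (hjk : j ≤ k) (ρ : ℕ) (x : Zd d) (hx : ρ ≤ nz x) :
    fz k x ≤ 1 / (1 + (ρ : ℝ)) ^ j * fz (k - j) x := by
  unfold fz
  have h0 : (0 : ℝ) ≤ (ρ : ℝ) := Nat.cast_nonneg _
  have h1 : (ρ : ℝ) ≤ (nz x : ℝ) := by exact_mod_cast hx
  have h2 : (1 + (nz x : ℝ)) ^ k = (1 + (nz x : ℝ)) ^ j * (1 + (nz x : ℝ)) ^ (k - j) := by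
    rw [← pow_add, Nat.add_sub_cancel' hjk]
  rw [h2, div_mul_div_comm, one_mul]
  refine one_div_le_one_div_of_le (by positivity) ?_
  refine mul_le_mul_of_nonneg_right ?_ (by positivity)
  exact pow_le_pow_left₀ (by positivity) (by linarith) j

/-- Row K1. Moving the argument by a vector of norm at most one costs a factor `2^k`: `1+|x| ≤ 2(1+|y|)`. -/
lemma fz_near (k : ℕ) (x y : Zd d) (hxy : nz (x - y) ≤ 1) : fz k y ≤ 2 ^ k * fz k x := by
  have h0 : nz x ≤ nz (x - y) + nz y := by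
    have h1 := nz_add (x - y) y
    rwa [sub_add_cancel] at h1
  have h2 : nz x ≤ 1 + nz y := by omega
  have h3 : (nz x : ℝ) ≤ 1 + (nz y : ℝ) := by exact_mod_cast h2
  have h4 : (0 : ℝ) ≤ (nz y : ℝ) := Nat.cast_nonneg _
  have h5 : (0 : ℝ) ≤ (nz x : ℝ) := Nat.cast_nonneg _
  unfold fz
  rw [mul_one_div, div_le_div_iff₀ (by positivity) (by positivity), one_mul, ← mul_pow]
  exact pow_le_pow_left₀ (by positivity) (by linarith) k

private lemma K2_le (x z : Zd d) (i : Fin d) : (z i - x i).natAbs ≤ nz (z - x) :=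
  Finset.le_sup (f := fun i => ((z - x) i).natAbs) (Finset.mem_univ i)

private lemma K2_shell (hd : 1 ≤ d) (x : Zd d) (S : Finset (Zd d)) (k : ℕ) :
    (S.filter (fun z => nz (z - x) = k)).card ≤ d * 2 ^ d * (k + 1) ^ (d - 1) := by
  classical
  have : Nonempty (Fin d) := ⟨⟨0, hd⟩⟩
  set T : Fin d → Finset (Zd d) := fun i => Fintype.piFinset (fun j =>
    if j = i then ({x j - (k : ℤ), x j + (k : ℤ)} : Finset ℤ)
    else Finset.Icc (x j - (k : ℤ)) (x j + (k : ℤ))) with hT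
  have hsub : S.filter (fun z => nz (z - x) = k) ⊆ Finset.univ.biUnion T := by
    intro y hy
    rw [Finset.mem_filter] at hy
    obtain ⟨i, -, hi⟩ := Finset.exists_mem_eq_sup (Finset.univ : Finset (Fin d))
      Finset.univ_nonempty (fun i => ((y - x) i).natAbs)
    have hi' : nz (y - x) = (y i - x i).natAbs := hi
    rw [Finset.mem_biUnion]
    refine ⟨i, Finset.mem_univ i, ?_⟩
    rw [hT, Fintype.mem_piFinset]
    intro j
    by_cases hji : j = i
    · rw [if_pos hji]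
      subst hji
      have h1 := hy.2
      rw [hi'] at h1
      rw [Finset.mem_insert, Finset.mem_singleton]
      omega
    · rw [if_neg hji, Finset.mem_Icc]
      have h1 := K2_le x y j
      rw [hy.2] at h1
      omega
  have hcard : ∀ i ∈ (Finset.univ : Finset (Fin d)), (T i).card ≤ 2 * (2 * k + 1) ^ (d - 1) := by
    intro i _
    rw [hT, Fintype.card_piFinset, ← Finset.mul_prod_erase _ _ (Finset.mem_univ i)]
    rw [if_pos rfl]
    refine Nat.mul_le_mul Finset.card_le_two ?_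
    have h1 : (Finset.univ.erase i : Finset (Fin d)).card = d - 1 := by
      rw [Finset.card_erase_of_mem (Finset.mem_univ i), Finset.card_univ, Fintype.card_fin]
    rw [← h1]
    refine Finset.prod_le_pow_card _ _ _ fun j hj => ?_
    rw [if_neg (Finset.ne_of_mem_erase hj), Int.card_Icc]
    omega
  calc (S.filter (fun z => nz (z - x) = k)).card ≤ (Finset.univ.biUnion T).card :=
        Finset.card_le_card hsub
    _ ≤ (Finset.univ : Finset (Fin d)).card * (2 * (2 * k + 1) ^ (d - 1)) :=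
        Finset.card_biUnion_le_card_mul _ _ _ hcard
    _ = d * (2 * (2 * k + 1) ^ (d - 1)) := by rw [Finset.card_univ, Fintype.card_fin]
    _ ≤ d * (2 * (2 * (k + 1)) ^ (d - 1)) := by
        refine Nat.mul_le_mul_left _ (Nat.mul_le_mul_left _ (Nat.pow_le_pow_left ?_ _))
        omega
    _ = d * 2 ^ d * (k + 1) ^ (d - 1) := by
        obtain ⟨e, rfl⟩ : ∃ e, d = e + 1 := ⟨d - 1, by omega⟩
        rw [Nat.add_sub_cancel, mul_pow, pow_succ]
        ring

/-- Row K2. The number of `z` in a finite set with `|z - x| = k` is at most `d 2^d (k+1)^(d-1)` (`d ≥ 1`): choose the coordinate with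
`|z i - x i| = k` (two values), at most `2k+1` values for the others (compare `shell` in `V/Lt.lean`). So
`∑_{z ∈ S} φ(|z-x|) ≤ d 2^d ∑_{k ≤ n} (k+1)^(d-1) φ k` if `|z - x| ≤ n` on `S` (`Finset.sum_fiberwise_of_maps_to`). -/
lemma shz (hd : 1 ≤ d) (x : Zd d) (S : Finset (Zd d)) (n : ℕ) (hS : ∀ z ∈ S, nz (z - x) ≤ n) (φ : ℕ → ℝ)
    (hφ : ∀ k, 0 ≤ φ k) :
    ∑ z ∈ S, φ (nz (z - x)) ≤ (d * 2 ^ d : ℝ) * ∑ k ∈ Finset.range (n + 1), ((k : ℝ) + 1) ^ (d - 1) * φ k := by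
  classical
  rw [← Finset.sum_fiberwise_of_maps_to (s := S) (t := Finset.range (n + 1))
    (g := fun z => nz (z - x)) (fun z hz => Finset.mem_range.2 (Nat.lt_succ_of_le (hS z hz))),
    Finset.mul_sum]
  refine Finset.sum_le_sum fun k _ => ?_
  have h1 : ∑ z ∈ S.filter (fun z => nz (z - x) = k), φ (nz (z - x)) =
      ((S.filter (fun z => nz (z - x) = k)).card : ℝ) * φ k := by
    rw [Finset.sum_congr rfl (fun z hz => by rw [(Finset.mem_filter.1 hz).2]), Finset.sum_const,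
      nsmul_eq_mul]
  rw [h1, ← mul_assoc]
  refine mul_le_mul_of_nonneg_right ?_ (hφ k)
  exact_mod_cast K2_shell hd x S k

/-- Row K2. For `k < d`: `∑_{|z-x| ≤ R} (1+|z-x|)^(-k) ≤ d 2^d ∑_{j ≤ R} (j+1)^(d-1-k) ≤ d 2^d (R+1)^(d-k)`. -/
lemma near_z {k : ℕ} (hk : k < d) (x : Zd d) (S : Finset (Zd d)) (R : ℕ) :
    ∑ z ∈ S.filter (fun z => nz (z - x) ≤ R), fz k (z - x) ≤ (d * 2 ^ d : ℝ) * ((R : ℝ) + 1) ^ (d - k) := by
  have h := shz (by omega : 1 ≤ d) x (S.filter (fun z => nz (z - x) ≤ R)) R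
    (fun z hz => (Finset.mem_filter.1 hz).2) (fun j => 1 / (1 + (j : ℝ)) ^ k) (fun j => by positivity)
  refine le_trans (le_of_eq rfl) (h.trans (mul_le_mul_of_nonneg_left ?_ (by positivity)))
  calc ∑ j ∈ Finset.range (R + 1), ((j : ℝ) + 1) ^ (d - 1) * (1 / (1 + (j : ℝ)) ^ k)
      ≤ ∑ _j ∈ Finset.range (R + 1), ((R : ℝ) + 1) ^ (d - 1 - k) := by
        refine Finset.sum_le_sum fun j hj => ?_
        have hj1 : (j : ℝ) ≤ R := by
          exact_mod_cast Nat.lt_succ_iff.1 (Finset.mem_range.1 hj)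
        have h2 : ((j : ℝ) + 1) ^ (d - 1) * (1 / (1 + (j : ℝ)) ^ k) = ((j : ℝ) + 1) ^ (d - 1 - k) := by
          have h3 : d - 1 = (d - 1 - k) + k := by omega
          have h4 : ((j : ℝ) + 1) ^ k ≠ 0 := by positivity
          rw [add_comm (1 : ℝ) (j : ℝ)]
          conv_lhs => rw [h3, pow_add]
          field_simp
        rw [h2]
        exact pow_le_pow_left₀ (by positivity) (by linarith) _
    _ = ((R : ℝ) + 1) ^ (d - k) := by
        have h3 : d - k = (d - 1 - k) + 1 := by omega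
        rw [Finset.sum_const, Finset.card_range, nsmul_eq_mul, h3, pow_succ]
        push_cast
        ring

/-- Row K2. For `k > d`: `∑_{|z-x| ≥ r} (1+|z-x|)^(-k) ≤ d 2^d ∑_{j ≥ r} (j+1)^(d-1-k) ≤ d 2^d 2/(r+1)^(k-d)`
(`∑_{j ≥ r} (j+1)^(-m-1) ≤ 2/(r+1)^m`, `m = k - d ≥ 1`: for `m = 1` this is `tail_two`; in general `(j+1)^(-m-1) ≤ (r+1)^(1-m) (j+1)^(-2)`). -/
lemma far_z {k : ℕ} (hd : 1 ≤ d) (hk : d < k) (x : Zd d) (S : Finset (Zd d)) (r : ℕ) :
    ∑ z ∈ S.filter (fun z => r ≤ nz (z - x)), fz k (z - x) ≤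
      (d * 2 ^ d : ℝ) * (2 / ((r : ℝ) + 1) ^ (k - d)) := by
  classical
  obtain ⟨m, rfl⟩ : ∃ m, k = d + (m + 1) := ⟨k - d - 1, by omega⟩
  obtain ⟨n, hn⟩ : ∃ n : ℕ, ∀ z ∈ S, nz (z - x) ≤ n :=
    ⟨S.sup (fun z => nz (z - x)), fun z hz => Finset.le_sup (f := fun z => nz (z - x)) hz⟩
  have h := shz hd x (S.filter (fun z => r ≤ nz (z - x))) n
    (fun z hz => hn z (Finset.mem_filter.1 hz).1)
    (fun j => if r ≤ j then 1 / (1 + (j : ℝ)) ^ (d + (m + 1)) else 0)
    (fun j => by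
      split_ifs
      · positivity
      · exact le_rfl)
  have h0 : ∑ z ∈ S.filter (fun z => r ≤ nz (z - x)), fz (d + (m + 1)) (z - x) =
      ∑ z ∈ S.filter (fun z => r ≤ nz (z - x)),
        (fun j : ℕ => if r ≤ j then 1 / (1 + (j : ℝ)) ^ (d + (m + 1)) else 0) (nz (z - x)) := by
    refine Finset.sum_congr rfl fun z hz => ?_
    have h1 := (Finset.mem_filter.1 hz).2
    simp only [if_pos h1, fz]
  rw [h0]
  refine h.trans (mul_le_mul_of_nonneg_left ?_ (by positivity))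
  have hkd : d + (m + 1) - d = m + 1 := by omega
  rw [hkd]
  calc ∑ j ∈ Finset.range (n + 1), ((j : ℝ) + 1) ^ (d - 1) *
        (if r ≤ j then 1 / (1 + (j : ℝ)) ^ (d + (m + 1)) else 0)
      ≤ ∑ j ∈ Finset.range (n + 1), (if r ≤ j then
          1 / ((r : ℝ) + 1) ^ m * (1 / ((j : ℝ) + 1) ^ 2) else 0) := by
        refine Finset.sum_le_sum fun j _ => ?_
        by_cases hj : r ≤ j
        · rw [if_pos hj, if_pos hj]
          have hjr : (r : ℝ) ≤ j := by exact_mod_cast hj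
          have hj0 : (0 : ℝ) < (j : ℝ) + 1 := by positivity
          have h2 : ((j : ℝ) + 1) ^ (d - 1) * (1 / (1 + (j : ℝ)) ^ (d + (m + 1))) =
              1 / ((j : ℝ) + 1) ^ m * (1 / ((j : ℝ) + 1) ^ 2) := by
            have h3 : d + (m + 1) = (d - 1) + (m + 2) := by omega
            have h4 : ((j : ℝ) + 1) ^ (d - 1) ≠ 0 := by positivity
            rw [add_comm (1 : ℝ) (j : ℝ), h3, pow_add, pow_add _ m 2]
            field_simp
          rw [h2]
          refine mul_le_mul_of_nonneg_right ?_ (by positivity)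
          exact one_div_le_one_div_of_le (by positivity)
            (pow_le_pow_left₀ (by positivity) (by linarith) _)
        · rw [if_neg hj, if_neg hj, mul_zero]
    _ = ∑ j ∈ Finset.Ico r (n + 1), 1 / ((r : ℝ) + 1) ^ m * (1 / ((j : ℝ) + 1) ^ 2) := by
        rw [← Finset.sum_filter]
        refine Finset.sum_congr ?_ fun _ _ => rfl
        ext j
        rw [Finset.mem_filter, Finset.mem_range, Finset.mem_Ico]
        exact and_comm
    _ = 1 / ((r : ℝ) + 1) ^ m * ∑ j ∈ Finset.Ico r (n + 1), 1 / ((j : ℝ) + 1) ^ 2 := by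
        rw [Finset.mul_sum]
    _ ≤ 1 / ((r : ℝ) + 1) ^ m * (2 / ((r : ℝ) + 1)) :=
        mul_le_mul_of_nonneg_left (tail_two r (n + 1)) (by positivity)
    _ = 2 / ((r : ℝ) + 1) ^ (m + 1) := by
        rw [pow_succ]
        field_simp

/-- Row K3. The convolution estimate. `a, b < d < a + b`:
`∑_z (1+|x-z|)^(-a) (1+|z-y|)^(-b) ≤ Kc (1+|x-y|)^(-(a+b-d))`, `Kc` depends on `d` only (maximum over the finitely many pairs `a, b < d`: take
the constant `16^d * (d * 2 ^ d) * 4`, or whatever comes out, independent of `a`, `b`). Put `r = 1 + |x-y|`.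
Points with `|z-x| ≤ 2r` and `|z-x| ≤ |z-y|`: `1 + |z-y| ≥ r/2`, the sum is at most `(2/r)^b ∑_{|z-x| ≤ 2r} (1+|z-x|)^(-a) ≤ 2^b r^(-b) d 2^d (3r)^(d-a)`
(`near_z`). Points with `|z-y| ≤ |z-x|`, `|z-y| ≤ 2r`: the same with `a`, `b` exchanged. The other points have `|z-x| > 2r` or `|z-y| > 2r`; then both
`|z-x|, |z-y|` are at least `r` and `1+|z-y| ≥ (1+|z-x|)/2` (`|x-y| < r`), so the sum is at most `2^b ∑_{|z-x| ≥ r} (1+|z-x|)^(-a-b) ≤ 2^b d 2^d 2 r^(-(a+b-d))` (`far_z`). -/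
lemma conv_z (hd : 1 ≤ d) : ∃ Kc : ℝ, 1 ≤ Kc ∧ ∀ (a b : ℕ), a < d → b < d → d < a + b → ∀ (x y : Zd d) (S : Finset (Zd d)),
    ∑ z ∈ S, fz a (x - z) * fz b (z - y) ≤ Kc * fz (a + b - d) (x - y) := by
  have hd1 : (1 : ℝ) ≤ (d : ℝ) := by exact_mod_cast hd
  have h2d : (1 : ℝ) ≤ 2 ^ d := one_le_pow₀ (by norm_num)
  have h6d : (1 : ℝ) ≤ 6 ^ d := one_le_pow₀ (by norm_num)
  have hA1 : (1 : ℝ) ≤ (d * 2 ^ d : ℝ) := one_le_mul_of_one_le_of_one_le hd1 h2d
  refine ⟨(d * 2 ^ d : ℝ) * (6 ^ d + 6 ^ d + 2 ^ d * 2),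
    one_le_mul_of_one_le_of_one_le hA1 (by linarith), ?_⟩
  intro a b ha hb hab x y S
  have hterm : ∀ z : Zd d, fz a (x - z) * fz b (z - y) ≤
      (if nz (z - x) ≤ 2 * (nz (x - y) + 1) then
        2 ^ b / ((nz (x - y) : ℝ) + 1) ^ b * fz a (z - x) else 0) +
      (if nz (z - y) ≤ 2 * (nz (x - y) + 1) then
        2 ^ a / ((nz (x - y) : ℝ) + 1) ^ a * fz b (z - y) else 0) +
      (if nz (x - y) + 1 ≤ nz (z - x) then 2 ^ b * fz (a + b) (z - x) else 0) := by
    intro z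
    rw [fz_sub a x z]
    have hr : (0 : ℝ) < (nz (x - y) : ℝ) + 1 := by positivity
    have hX : (0 : ℝ) < 1 + (nz (z - x) : ℝ) := by positivity
    have hY : (0 : ℝ) < 1 + (nz (z - y) : ℝ) := by positivity
    have hfa := fz_pos a (z - x)
    have hfb := fz_pos b (z - y)
    have hfab := fz_pos (a + b) (z - x)
    have t1 : nz (x - y) ≤ nz (z - x) + nz (z - y) := by
      have := nz_tri x z y
      rwa [nz_sub x z] at this
    have t2 : nz (z - x) ≤ nz (z - y) + nz (x - y) := by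
      have := nz_tri z y x
      rwa [nz_sub y x] at this
    -- the first and the second piece are nonnegative
    have n1 : (0 : ℝ) ≤ (if nz (z - x) ≤ 2 * (nz (x - y) + 1) then
        2 ^ b / ((nz (x - y) : ℝ) + 1) ^ b * fz a (z - x) else 0) := by
      split_ifs <;> positivity
    have n2 : (0 : ℝ) ≤ (if nz (z - y) ≤ 2 * (nz (x - y) + 1) then
        2 ^ a / ((nz (x - y) : ℝ) + 1) ^ a * fz b (z - y) else 0) := by
      split_ifs <;> positivity
    have n3 : (0 : ℝ) ≤ (if nz (x - y) + 1 ≤ nz (z - x) then 2 ^ b * fz (a + b) (z - x) else 0) := by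
      split_ifs <;> positivity
    -- comparison of kernels
    have cmp : ∀ (k : ℕ) (w : Zd d), ((nz (x - y) : ℝ) + 1) ≤ 2 * (1 + (nz w : ℝ)) →
        fz k w ≤ 2 ^ k / ((nz (x - y) : ℝ) + 1) ^ k := by
      intro k w h
      unfold fz
      rw [div_le_div_iff₀ (by positivity) (by positivity), one_mul, ← mul_pow]
      exact pow_le_pow_left₀ hr.le h k
    have far : nz (z - x) ≤ 2 * nz (z - y) + 1 → fz a (z - x) * fz b (z - y) ≤
        2 ^ b * fz (a + b) (z - x) := by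
      intro h
      have h' : 1 + (nz (z - x) : ℝ) ≤ 2 * (1 + (nz (z - y) : ℝ)) := by
        have : (nz (z - x) : ℝ) ≤ 2 * (nz (z - y) : ℝ) + 1 := by exact_mod_cast h
        linarith
      have h1 : fz b (z - y) ≤ 2 ^ b * fz b (z - x) := by
        unfold fz
        rw [mul_one_div, div_le_div_iff₀ (by positivity) (by positivity), one_mul, ← mul_pow]
        exact pow_le_pow_left₀ hX.le h' b
      have h2 : fz (a + b) (z - x) = fz a (z - x) * fz b (z - x) := by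
        unfold fz
        rw [pow_add, one_div_mul_one_div]
      calc fz a (z - x) * fz b (z - y) ≤ fz a (z - x) * (2 ^ b * fz b (z - x)) :=
            mul_le_mul_of_nonneg_left h1 hfa.le
        _ = 2 ^ b * fz (a + b) (z - x) := by rw [h2]; ring
    rcases le_total (nz (z - x)) (nz (z - y)) with hle | hle
    · by_cases hc : nz (z - x) ≤ 2 * (nz (x - y) + 1)
      · have h1 : ((nz (x - y) : ℝ) + 1) ≤ 2 * (1 + (nz (z - y) : ℝ)) := by
          have : nz (x - y) + 1 ≤ 2 * (1 + nz (z - y)) := by omega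
          exact_mod_cast this
        have h2 := cmp b (z - y) h1
        have h3 : fz a (z - x) * fz b (z - y) ≤
            2 ^ b / ((nz (x - y) : ℝ) + 1) ^ b * fz a (z - x) := by
          rw [mul_comm]
          exact mul_le_mul_of_nonneg_right h2 hfa.le
        rw [if_pos hc] at n1 ⊢
        linarith
      · have h1 := far (by omega)
        rw [if_pos (show nz (x - y) + 1 ≤ nz (z - x) by omega)] at n3 ⊢
        linarith
    · by_cases hc : nz (z - y) ≤ 2 * (nz (x - y) + 1)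
      · have h1 : ((nz (x - y) : ℝ) + 1) ≤ 2 * (1 + (nz (z - x) : ℝ)) := by
          have : nz (x - y) + 1 ≤ 2 * (1 + nz (z - x)) := by omega
          exact_mod_cast this
        have h2 := cmp a (z - x) h1
        have h3 : fz a (z - x) * fz b (z - y) ≤
            2 ^ a / ((nz (x - y) : ℝ) + 1) ^ a * fz b (z - y) :=
          mul_le_mul_of_nonneg_right h2 hfb.le
        rw [if_pos hc] at n2 ⊢
        linarith
      · have h1 := far (by omega)
        rw [if_pos (show nz (x - y) + 1 ≤ nz (z - x) by omega)] at n3 ⊢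
        linarith
  -- sum
  have hr0 : (0 : ℝ) < (nz (x - y) : ℝ) + 1 := by positivity
  have hr1 : (1 : ℝ) ≤ (nz (x - y) : ℝ) + 1 := by
    have : (0 : ℝ) ≤ (nz (x - y) : ℝ) := Nat.cast_nonneg _
    linarith
  have hA0 : (0 : ℝ) ≤ (d * 2 ^ d : ℝ) := by positivity
  have near : ∀ (k j : ℕ), k < d → j < d → d < k + j → ∀ (w : Zd d),
      ∑ z ∈ S, (if nz (z - w) ≤ 2 * (nz (x - y) + 1) then
        2 ^ j / ((nz (x - y) : ℝ) + 1) ^ j * fz k (z - w) else 0) ≤
      (d * 2 ^ d : ℝ) * 6 ^ d * (1 / ((nz (x - y) : ℝ) + 1) ^ (k + j - d)) := by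
    intro k j hk hj hkj w
    rw [← Finset.sum_filter, ← Finset.mul_sum]
    have h1 := near_z hk w S (2 * (nz (x - y) + 1))
    have h2 : ((2 * (nz (x - y) + 1) : ℕ) : ℝ) + 1 ≤ 3 * ((nz (x - y) : ℝ) + 1) := by
      push_cast
      linarith
    have h3 : (((2 * (nz (x - y) + 1) : ℕ) : ℝ) + 1) ^ (d - k) ≤
        (3 * ((nz (x - y) : ℝ) + 1)) ^ (d - k) := pow_le_pow_left₀ (by positivity) h2 _
    have h4 : (2 : ℝ) ^ j ≤ 2 ^ d := pow_le_pow_right₀ (by norm_num) hj.le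
    have h5 : (3 : ℝ) ^ (d - k) ≤ 3 ^ d := pow_le_pow_right₀ (by norm_num) (by omega)
    have h6 : (6 : ℝ) ^ d = 2 ^ d * 3 ^ d := by rw [← mul_pow]; norm_num
    have h7 : ((nz (x - y) : ℝ) + 1) ^ j =
        ((nz (x - y) : ℝ) + 1) ^ (d - k) * ((nz (x - y) : ℝ) + 1) ^ (k + j - d) := by
      rw [← pow_add]
      congr 1
      omega
    have h8 : (2 : ℝ) ^ j * 3 ^ (d - k) ≤ 6 ^ d := by
      rw [h6]
      exact mul_le_mul h4 h5 (by positivity) (by positivity)
    calc 2 ^ j / ((nz (x - y) : ℝ) + 1) ^ j *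
          ∑ z ∈ S.filter (fun z => nz (z - w) ≤ 2 * (nz (x - y) + 1)), fz k (z - w)
        ≤ 2 ^ j / ((nz (x - y) : ℝ) + 1) ^ j *
          ((d * 2 ^ d : ℝ) * (3 * ((nz (x - y) : ℝ) + 1)) ^ (d - k)) := by
          apply mul_le_mul_of_nonneg_left _ (by positivity)
          exact h1.trans (mul_le_mul_of_nonneg_left h3 hA0)
      _ = (d * 2 ^ d : ℝ) * (2 ^ j * 3 ^ (d - k)) *
          (1 / ((nz (x - y) : ℝ) + 1) ^ (k + j - d)) := by
          rw [h7, mul_pow]
          have e1 : ((nz (x - y) : ℝ) + 1) ^ (d - k) ≠ 0 := (pow_pos hr0 _).ne'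
          have e2 : ((nz (x - y) : ℝ) + 1) ^ (k + j - d) ≠ 0 := (pow_pos hr0 _).ne'
          field_simp
      _ ≤ (d * 2 ^ d : ℝ) * 6 ^ d * (1 / ((nz (x - y) : ℝ) + 1) ^ (k + j - d)) := by
          apply mul_le_mul_of_nonneg_right _ (by positivity)
          exact mul_le_mul_of_nonneg_left h8 hA0
  have far3 : ∑ z ∈ S, (if nz (x - y) + 1 ≤ nz (z - x) then 2 ^ b * fz (a + b) (z - x) else 0) ≤
      (d * 2 ^ d : ℝ) * (2 ^ d * 2) * (1 / ((nz (x - y) : ℝ) + 1) ^ (a + b - d)) := by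
    rw [← Finset.sum_filter, ← Finset.mul_sum]
    have h1 := far_z hd hab x S (nz (x - y) + 1)
    have h4 : (2 : ℝ) ^ b ≤ 2 ^ d := pow_le_pow_right₀ (by norm_num) hb.le
    have h2 : 2 / (((nz (x - y) + 1 : ℕ) : ℝ) + 1) ^ (a + b - d) ≤
        2 * (1 / ((nz (x - y) : ℝ) + 1) ^ (a + b - d)) := by
      rw [mul_one_div]
      apply div_le_div_of_nonneg_left (by norm_num) (pow_pos hr0 _)
      apply pow_le_pow_left₀ hr0.le
      push_cast
      linarith
    have h3 : (0 : ℝ) ≤ 1 / ((nz (x - y) : ℝ) + 1) ^ (a + b - d) := by positivity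
    calc 2 ^ b * ∑ z ∈ S.filter (fun z => nz (x - y) + 1 ≤ nz (z - x)), fz (a + b) (z - x)
        ≤ 2 ^ d * ((d * 2 ^ d : ℝ) * (2 * (1 / ((nz (x - y) : ℝ) + 1) ^ (a + b - d)))) := by
          apply mul_le_mul h4 (h1.trans (mul_le_mul_of_nonneg_left h2 hA0)) _ (by positivity)
          exact Finset.sum_nonneg fun z _ => (fz_pos _ _).le
      _ = (d * 2 ^ d : ℝ) * (2 ^ d * 2) * (1 / ((nz (x - y) : ℝ) + 1) ^ (a + b - d)) := by ring
  have hfin : fz (a + b - d) (x - y) = 1 / ((nz (x - y) : ℝ) + 1) ^ (a + b - d) := by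
    unfold fz
    rw [add_comm]
  have hs := Finset.sum_le_sum fun z (_ : z ∈ S) => hterm z
  rw [Finset.sum_add_distrib, Finset.sum_add_distrib] at hs
  have g1 := near a b ha hb hab x
  have g2 := near b a hb ha (by omega) y
  rw [show b + a - d = a + b - d by omega] at g2
  rw [hfin]
  have g3 : (d * 2 ^ d : ℝ) * (6 ^ d + 6 ^ d + 2 ^ d * 2) *
      (1 / ((nz (x - y) : ℝ) + 1) ^ (a + b - d)) =
      (d * 2 ^ d : ℝ) * 6 ^ d * (1 / ((nz (x - y) : ℝ) + 1) ^ (a + b - d)) +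
      (d * 2 ^ d : ℝ) * 6 ^ d * (1 / ((nz (x - y) : ℝ) + 1) ^ (a + b - d)) +
      (d * 2 ^ d : ℝ) * (2 ^ d * 2) * (1 / ((nz (x - y) : ℝ) + 1) ^ (a + b - d)) := by ring
  rw [g3]
  linarith

/-- Row K4. `∑_{u,w} (1+|x-u|)^(-(d-2)) (1+|y-w|)^(-(d-2)) (1+|u-w|)^(-(d-4)) ≤ Kc` (`d ≥ 9`): sum over `w` first (`conv_z` with exponents
`d-4`, `d-2`: kernel `fz (d-6) (u - y)`), then over `u` (exponents `d-2`, `d-6`: `fz (d-8) ≤ 1`). -/
lemma sq_z (hd : 9 ≤ d) : ∃ Kc : ℝ, 1 ≤ Kc ∧ ∀ (x y : Zd d) (S T : Finset (Zd d)),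
    ∑ u ∈ S, ∑ w ∈ T, fz (d - 2) (x - u) * fz (d - 2) (y - w) * fz (d - 4) (u - w) ≤ Kc := by
  obtain ⟨K, hK1, hK⟩ := conv_z (d := d) (by omega)
  have hK0 : (0 : ℝ) ≤ K := le_trans zero_le_one hK1
  refine ⟨K * K, one_le_mul_of_one_le_of_one_le hK1 hK1, fun x y S T => ?_⟩
  have h1 : ∀ u, ∑ w ∈ T, fz (d - 2) (x - u) * fz (d - 2) (y - w) * fz (d - 4) (u - w) ≤
      K * (fz (d - 2) (x - u) * fz (d - 6) (u - y)) := by
    intro u
    have h2 := hK (d - 4) (d - 2) (by omega) (by omega) (by omega) u y T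
    have e2 : d - 4 + (d - 2) - d = d - 6 := by omega
    rw [e2] at h2
    calc ∑ w ∈ T, fz (d - 2) (x - u) * fz (d - 2) (y - w) * fz (d - 4) (u - w)
        = fz (d - 2) (x - u) * ∑ w ∈ T, fz (d - 4) (u - w) * fz (d - 2) (w - y) := by
          rw [Finset.mul_sum]
          refine Finset.sum_congr rfl fun w _ => ?_
          rw [fz_sub (d - 2) y w]
          ring
      _ ≤ fz (d - 2) (x - u) * (K * fz (d - 6) (u - y)) :=
          mul_le_mul_of_nonneg_left h2 (fz_pos _ _).le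
      _ = K * (fz (d - 2) (x - u) * fz (d - 6) (u - y)) := by ring
  have h3 := hK (d - 2) (d - 6) (by omega) (by omega) (by omega) x y S
  have h4 : fz (d - 2 + (d - 6) - d) (x - y) ≤ 1 := fz_le_one _ _
  calc ∑ u ∈ S, ∑ w ∈ T, fz (d - 2) (x - u) * fz (d - 2) (y - w) * fz (d - 4) (u - w)
      ≤ ∑ u ∈ S, K * (fz (d - 2) (x - u) * fz (d - 6) (u - y)) :=
        Finset.sum_le_sum fun u _ => h1 u
    _ = K * ∑ u ∈ S, fz (d - 2) (x - u) * fz (d - 6) (u - y) := by rw [Finset.mul_sum]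
    _ ≤ K * (K * fz (d - 2 + (d - 6) - d) (x - y)) := mul_le_mul_of_nonneg_left h3 hK0
    _ ≤ K * (K * 1) :=
        mul_le_mul_of_nonneg_left (mul_le_mul_of_nonneg_left h4 hK0) hK0
    _ = K * K := by ring

/-- Row K4. The tail of the triangle: `fz_tail` with `j = 1` for `u - w` (`fz (d-3)`), then `conv_z` twice: exponents `(d-3, d-2)` give `d-5`,
`(d-2, d-5)` give `d-7 ≥ 0`... use `fz ≤ 1`. -/
lemma tri_z (hd : 9 ≤ d) : ∃ Kc : ℝ, 1 ≤ Kc ∧ ∀ (x y : Zd d) (S T : Finset (Zd d)) (ρ : ℕ),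
    ∑ u ∈ S, ∑ w ∈ T.filter (fun w => ρ ≤ nz (w - u)), fz (d - 2) (x - u) * fz (d - 2) (y - w) * fz (d - 2) (u - w) ≤
      Kc / (1 + (ρ : ℝ)) := by
  obtain ⟨K, hK1, hK⟩ := conv_z (d := d) (by omega)
  have hK0 : (0 : ℝ) ≤ K := le_trans zero_le_one hK1
  refine ⟨K * K, one_le_mul_of_one_le_of_one_le hK1 hK1, fun x y S T ρ => ?_⟩
  have hρ : (0 : ℝ) < 1 + (ρ : ℝ) := by positivity
  have hρ' : (0 : ℝ) ≤ 1 / (1 + (ρ : ℝ)) := by positivity
  have h1 : ∀ u, ∑ w ∈ T.filter (fun w => ρ ≤ nz (w - u)),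
      fz (d - 2) (x - u) * fz (d - 2) (y - w) * fz (d - 2) (u - w) ≤
      1 / (1 + (ρ : ℝ)) * K * (fz (d - 2) (x - u) * fz (d - 5) (u - y)) := by
    intro u
    have h2 := hK (d - 3) (d - 2) (by omega) (by omega) (by omega) u y
      (T.filter (fun w => ρ ≤ nz (w - u)))
    have e2 : d - 3 + (d - 2) - d = d - 5 := by omega
    rw [e2] at h2
    calc ∑ w ∈ T.filter (fun w => ρ ≤ nz (w - u)),
          fz (d - 2) (x - u) * fz (d - 2) (y - w) * fz (d - 2) (u - w)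
        ≤ ∑ w ∈ T.filter (fun w => ρ ≤ nz (w - u)),
          fz (d - 2) (x - u) * (1 / (1 + (ρ : ℝ))) * (fz (d - 3) (u - w) * fz (d - 2) (w - y)) := by
          refine Finset.sum_le_sum fun w hw => ?_
          rw [Finset.mem_filter] at hw
          have h5 := fz_tail (d := d) (j := 1) (k := d - 2) (by omega) ρ (u - w)
            (by rw [nz_sub]; exact hw.2)
          have e5 : d - 2 - 1 = d - 3 := by omega
          rw [e5, pow_one] at h5
          have h6 : 0 ≤ fz (d - 2) (x - u) * fz (d - 2) (y - w) :=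
            mul_nonneg (fz_pos _ _).le (fz_pos _ _).le
          calc fz (d - 2) (x - u) * fz (d - 2) (y - w) * fz (d - 2) (u - w)
              ≤ fz (d - 2) (x - u) * fz (d - 2) (y - w) * (1 / (1 + (ρ : ℝ)) * fz (d - 3) (u - w)) :=
                mul_le_mul_of_nonneg_left h5 h6
            _ = fz (d - 2) (x - u) * (1 / (1 + (ρ : ℝ))) * (fz (d - 3) (u - w) * fz (d - 2) (w - y)) := by
                rw [fz_sub (d - 2) y w]
                ring
      _ = fz (d - 2) (x - u) * (1 / (1 + (ρ : ℝ))) * ∑ w ∈ T.filter (fun w => ρ ≤ nz (w - u)),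
          fz (d - 3) (u - w) * fz (d - 2) (w - y) := by rw [Finset.mul_sum]
      _ ≤ fz (d - 2) (x - u) * (1 / (1 + (ρ : ℝ))) * (K * fz (d - 5) (u - y)) :=
          mul_le_mul_of_nonneg_left h2 (mul_nonneg (fz_pos _ _).le hρ')
      _ = 1 / (1 + (ρ : ℝ)) * K * (fz (d - 2) (x - u) * fz (d - 5) (u - y)) := by ring
  have h3 := hK (d - 2) (d - 5) (by omega) (by omega) (by omega) x y S
  have h4 : fz (d - 2 + (d - 5) - d) (x - y) ≤ 1 := fz_le_one _ _
  calc ∑ u ∈ S, ∑ w ∈ T.filter (fun w => ρ ≤ nz (w - u)),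
        fz (d - 2) (x - u) * fz (d - 2) (y - w) * fz (d - 2) (u - w)
      ≤ ∑ u ∈ S, 1 / (1 + (ρ : ℝ)) * K * (fz (d - 2) (x - u) * fz (d - 5) (u - y)) :=
        Finset.sum_le_sum fun u _ => h1 u
    _ = 1 / (1 + (ρ : ℝ)) * K * ∑ u ∈ S, fz (d - 2) (x - u) * fz (d - 5) (u - y) := by
        rw [Finset.mul_sum]
    _ ≤ 1 / (1 + (ρ : ℝ)) * K * (K * fz (d - 2 + (d - 5) - d) (x - y)) :=
        mul_le_mul_of_nonneg_left h3 (mul_nonneg hρ' hK0)
    _ ≤ 1 / (1 + (ρ : ℝ)) * K * (K * 1) :=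
        mul_le_mul_of_nonneg_left (mul_le_mul_of_nonneg_left h4 hK0) (mul_nonneg hρ' hK0)
    _ = K * K / (1 + (ρ : ℝ)) := by ring

private lemma K5_single (i : Fin d) (k : ℕ) : nz (Pi.single i (k : ℤ) : Zd d) = k := by
  unfold nz
  apply le_antisymm
  · apply Finset.sup_le
    intro j _
    by_cases h : j = i
    · subst h
      rw [Pi.single_eq_same, Int.natAbs_natCast]
    · rw [Pi.single_eq_of_ne h, Int.natAbs_zero]
      exact Nat.zero_le _
  · have := Finset.le_sup (f := fun j => ((Pi.single i (k : ℤ) : Zd d) j).natAbs) (Finset.mem_univ i)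
    simpa using this

private lemma K5_tel (ρ N : ℕ) (h : ρ ≤ N) :
    ∑ k ∈ Finset.Ioc ρ N, 1 / (1 + (k : ℝ)) ^ 2 ≤ 1 / (1 + (ρ : ℝ)) - 1 / (1 + (N : ℝ)) := by
  induction N, h using Nat.le_induction with
  | base => simp
  | succ n hn ih =>
    have e : Finset.Ioc ρ (n + 1) = insert (n + 1) (Finset.Ioc ρ n) := by
      ext x
      simp only [Finset.mem_Ioc, Finset.mem_insert]
      omega
    rw [e, Finset.sum_insert (by simp)]
    have h1 : (0 : ℝ) < 1 + (n : ℝ) := by positivity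
    have h2 : (0 : ℝ) < 1 + ((n + 1 : ℕ) : ℝ) := by positivity
    have h3 : 1 / (1 + ((n + 1 : ℕ) : ℝ)) ^ 2 ≤ 1 / (1 + (n : ℝ)) - 1 / (1 + ((n + 1 : ℕ) : ℝ)) := by
      rw [div_sub_div _ _ h1.ne' h2.ne', div_le_div_iff₀ (by positivity) (by positivity)]
      push_cast
      linarith
    linarith

/-- Row K5. A set of lattice points with at most `m` points at distance exactly `n` from `v` and otherwise contained in the axis `{v - k e_0}`:
`∑ (1+|s-v|)^(-(d-2))` over the points at distance `> ρ` is at most `∑_{k>ρ} (1+k)^(-(d-2)) + m (1+n)^(-(d-2))`; for `d ≥ 5` the first sum is at most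
`1/(1+ρ)` (`(1+k)^(-(d-2)) ≤ (1+ρ)^(-1) (1+k)^(-2)`... constants generous) and `m (1+n)^(2-d) ≤ m/((1+n)^2 (1+ρ))` for `ρ ≤ n`. -/
lemma axis_z (hd : 5 ≤ d) (v : Zd d) (γ : Finset (Zd d)) (n ρ m : ℕ) (hρ : ρ ≤ n)
    (hγ : ∀ s ∈ γ, (nz (s - v) = n ∨ ∃ k : ℕ, 1 ≤ k ∧ k ≤ n ∧ s = v - Pi.single (⟨0, by omega⟩ : Fin d) (k : ℤ)))
    (hm : (γ.filter (fun s => nz (s - v) = n)).card ≤ m * (n + 1)) :
    ∑ s ∈ γ.filter (fun s => ρ < nz (s - v)), fz (d - 2) (s - v) ≤ (2 + (m : ℝ)) / (1 + (ρ : ℝ)) := by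
  classical
  have hd2 : 2 ≤ d - 2 := by omega
  have hd3 : 3 ≤ d - 2 := by omega
  set F := γ.filter (fun s => ρ < nz (s - v)) with hF
  have hfz : ∀ (j : ℕ), j ≤ d - 2 → ∀ s : Zd d, fz (d - 2) (s - v) ≤ 1 / (1 + (nz (s - v) : ℝ)) ^ j := by
    intro j hj s
    unfold fz
    apply one_div_le_one_div_of_le (by positivity)
    exact pow_le_pow_right₀ (by have : (0 : ℝ) ≤ nz (s - v) := Nat.cast_nonneg _; linarith) hj
  rw [← Finset.sum_filter_add_sum_filter_not F (fun s => nz (s - v) = n)]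
  have hρ1 : (0 : ℝ) < 1 + (ρ : ℝ) := by positivity
  have hA : ∑ s ∈ F.filter (fun s => nz (s - v) = n), fz (d - 2) (s - v) ≤ (m : ℝ) / (1 + (ρ : ℝ)) := by
    have hc : (F.filter (fun s => nz (s - v) = n)).card ≤ m * (n + 1) := by
      refine (Finset.card_le_card ?_).trans hm
      intro s hs
      rw [Finset.mem_filter, hF, Finset.mem_filter] at hs
      rw [Finset.mem_filter]
      exact ⟨hs.1.1, hs.2⟩
    have h1 : ∀ s ∈ F.filter (fun s => nz (s - v) = n), fz (d - 2) (s - v) ≤ 1 / (1 + (n : ℝ)) ^ 3 := by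
      intro s hs
      rw [Finset.mem_filter] at hs
      have := hfz 3 hd3 s
      rwa [hs.2] at this
    refine (Finset.sum_le_card_nsmul _ _ _ h1).trans ?_
    rw [nsmul_eq_mul]
    have hn1 : (0 : ℝ) < 1 + (n : ℝ) := by positivity
    have hc' : ((F.filter (fun s => nz (s - v) = n)).card : ℝ) ≤ (m : ℝ) * (1 + (n : ℝ)) := by
      have : ((F.filter (fun s => nz (s - v) = n)).card : ℝ) ≤ ((m * (n + 1) : ℕ) : ℝ) := by
        exact_mod_cast hc
      refine this.trans (le_of_eq ?_)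
      push_cast
      ring
    refine (mul_le_mul_of_nonneg_right hc' (by positivity)).trans ?_
    have hρn : (ρ : ℝ) ≤ (n : ℝ) := by exact_mod_cast hρ
    have hm0 : (0 : ℝ) ≤ m := Nat.cast_nonneg _
    have hn0 : (0 : ℝ) ≤ n := Nat.cast_nonneg _
    rw [mul_one_div, div_le_div_iff₀ (by positivity) hρ1]
    have h5 : (1 + (n : ℝ)) * (1 + (ρ : ℝ)) ≤ (1 + (n : ℝ)) ^ 3 := by
      have : (1 + (n : ℝ)) * (1 + (ρ : ℝ)) ≤ (1 + (n : ℝ)) * (1 + (n : ℝ)) :=
        mul_le_mul_of_nonneg_left (by linarith) hn1.le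
      linarith [mul_nonneg hn0 (mul_nonneg hn1.le hn1.le)]
    calc (m : ℝ) * (1 + (n : ℝ)) * (1 + (ρ : ℝ)) = m * ((1 + (n : ℝ)) * (1 + (ρ : ℝ))) := by ring
      _ ≤ m * (1 + (n : ℝ)) ^ 3 := mul_le_mul_of_nonneg_left h5 hm0
  have hB : ∑ s ∈ F.filter (fun s => ¬ nz (s - v) = n), fz (d - 2) (s - v) ≤ 1 / (1 + (ρ : ℝ)) := by
    set B := F.filter (fun s => ¬ nz (s - v) = n) with hBd
    have hBm : ∀ s ∈ B, ρ < nz (s - v) ∧ nz (s - v) ≤ n ∧
        s = v - Pi.single (⟨0, by omega⟩ : Fin d) ((nz (s - v) : ℕ) : ℤ) := by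
      intro s hs
      rw [hBd, Finset.mem_filter, hF, Finset.mem_filter] at hs
      obtain ⟨⟨h1, h2⟩, h3⟩ := hs
      rcases hγ s h1 with h4 | ⟨k, hk1, hk2, hk3⟩
      · exact absurd h4 h3
      · have h5 : nz (s - v) = k := by
          have e : s - v = -(Pi.single (⟨0, by omega⟩ : Fin d) (k : ℤ)) := by
            rw [hk3]; abel
          rw [e, nz_neg, K5_single]
        refine ⟨h2, by omega, ?_⟩
        rw [h5]
        exact hk3
    have hinj : ∀ s ∈ B, ∀ s' ∈ B, nz (s - v) = nz (s' - v) → s = s' := by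
      intro s hs s' hs' h
      rw [(hBm s hs).2.2, (hBm s' hs').2.2, h]
    calc ∑ s ∈ B, fz (d - 2) (s - v) ≤ ∑ s ∈ B, 1 / (1 + (nz (s - v) : ℝ)) ^ 2 :=
          Finset.sum_le_sum fun s _ => hfz 2 hd2 s
      _ = ∑ k ∈ B.image (fun s => nz (s - v)), 1 / (1 + (k : ℝ)) ^ 2 := by
          rw [Finset.sum_image (fun s hs s' hs' h => hinj s hs s' hs' h)]
      _ ≤ ∑ k ∈ Finset.Ioc ρ n, 1 / (1 + (k : ℝ)) ^ 2 := by
          apply Finset.sum_le_sum_of_subset_of_nonneg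
          · intro k hk
            rw [Finset.mem_image] at hk
            obtain ⟨s, hs, rfl⟩ := hk
            rw [Finset.mem_Ioc]
            exact ⟨(hBm s hs).1, (hBm s hs).2.1⟩
          · intro k _ _
            positivity
      _ ≤ 1 / (1 + (ρ : ℝ)) - 1 / (1 + (n : ℝ)) := K5_tel ρ n hρ
      _ ≤ 1 / (1 + (ρ : ℝ)) := by
          have : (0 : ℝ) ≤ 1 / (1 + (n : ℝ)) := by positivity
          linarith
  have e : (2 + (m : ℝ)) / (1 + (ρ : ℝ)) = (m : ℝ) / (1 + (ρ : ℝ)) + 1 / (1 + (ρ : ℝ)) +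
      1 / (1 + (ρ : ℝ)) := by ring
  rw [e]
  have : (0 : ℝ) ≤ 1 / (1 + (ρ : ℝ)) := by positivity
  linarith

end Pool.Agent.PERC29.DZ
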