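import Pool.Agent.Lib.MP_29e17e_pr.Z.Gb

set_option autoImplicit false
set_option linter.unusedSectionVars false

/-! Rows 29d-A1 .. 29d-A6: a priori estimates in boxes. -/

open Finset

namespace Pool.Agent.PERC29.DZ

open Pool.Agent.PERC29 Pool.Agent.PERC29.AE

variable {d : ℕ}

/-- The ball and its inner boundary, as sets of vertices of the box. -/
def Qb {l : ℕ} (u : Fin d → Fin l) (R : ℕ) : Set (Fin d → Fin l) := {x | nz (rel u x) ≤ R}

def Pb {l : ℕ} (u : Fin d → Fin l) (R : ℕ) : Set (Fin d → Fin l) := {x | nz (rel u x) = R}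

/-- The finite set of the vertices with relative position in `D`. -/
noncomputable def prf {l : ℕ} (u : Fin d → Fin l) (D : Finset (Zd d)) : Finset (Fin d → Fin l) :=
  Finset.univ.filter (fun x => rel u x ∈ D)

/-- Row A1. `adj_nz`. -/
lemma Qb_out {l : ℕ} (u : Fin d → Fin l) (R : ℕ) (e : (boxG d l).edgeSet) (x y : Fin d → Fin l) (he : gends (boxG d l) e = s(x, y))
    (hx : x ∈ Qb u R) (hy : y ∉ Qb u R) : x ∈ Pb u R := by
  have hadj : (boxG d l).Adj x y := by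
    have h1 : (e : Sym2 (Fin d → Fin l)) = s(x, y) := he
    have h2 := e.2
    rw [h1] at h2
    exact h2
  have h1 := adj_nz u x y hadj
  have hx' : nz (rel u x) ≤ R := hx
  have hy' : ¬ nz (rel u y) ≤ R := hy
  have h2 : nz (rel u y) ≤ nz (rel u y - rel u x) + nz (rel u x) := by
    have := nz_add (rel u y - rel u x) (rel u x)
    rwa [sub_add_cancel] at this
  rw [nz_sub, h1] at h2
  show nz (rel u x) = R
  omega

lemma prf_coe {l : ℕ} (u : Fin d → Fin l) (D : Finset (Zd d)) : ((prf u D : Finset (Fin d → Fin l)) : Set (Fin d → Fin l)) = pre u D := by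
  ext x
  simp [prf, pre]

/-- Row A1. `rel` is injective. -/
lemma prf_sum {l : ℕ} (u : Fin d → Fin l) (D : Finset (Zd d)) (F : Zd d → ℝ) (hF : ∀ v, 0 ≤ F v) : ∑ x ∈ prf u D, F (rel u x) ≤ ∑ v ∈ D, F v := by
  classical
  have h1 : ∑ x ∈ prf u D, F (rel u x) = ∑ v ∈ (prf u D).image (rel u), F v :=
    (Finset.sum_image (fun a _ b _ h => rel_inj u h)).symm
  rw [h1]
  apply Finset.sum_le_sum_of_subset_of_nonneg
  · intro v hv
    obtain ⟨x, hx, rfl⟩ := Finset.mem_image.1 hv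
    exact (Finset.mem_filter.1 hx).2
  · intro v _ _
    exact hF v

lemma prf_card {l : ℕ} (u : Fin d → Fin l) (D : Finset (Zd d)) : (prf u D).card ≤ D.card :=
  Finset.card_le_card_of_injOn (rel u) (fun _ hx => (Finset.mem_filter.1 hx).2)
    (fun _ _ _ _ h => rel_inj u h)

/-- Row A1. `cS ω S {s} ⊆ cu ω s`, `Mh_ub`, `piF_one`. -/
lemma Mh_Mb (l : ℕ) (p h : ℝ) (hp0 : 0 ≤ p) (hp1 : p ≤ 1) (h0 : 0 ≤ h) (h1 : h ≤ 1) : Mb (gends (boxG d l)) p h (Mh d p h) := by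
  intro S s
  have hle : Ex p (fun ω => gh h (cS (gends (boxG d l)) ω S {s}).card) ≤
      Ex p (fun ω => gh h (cu (gends (boxG d l)) ω s).card) := by
    apply Ex_mono hp0 hp1
    intro ω
    apply gh_mono h0 h1
    apply Finset.card_le_card
    intro y hy
    obtain ⟨a, ha, _, hr⟩ := mem_cS.1 hy
    rw [Set.mem_singleton_iff] at ha
    subst ha
    exact mem_cu.2 (hr.mono (fun _ h => h) (Set.subset_univ _))
  rw [← piF_one] at hle
  exact hle.trans (Mh_ub s p h hp0 hp1 h0 h1)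

private lemma A1b_val {l : ℕ} (ω : (boxG d l).edgeSet → Bool) (x : Fin d → Fin l) (i : Fin d) :
    ∀ y, Rch (gends (boxG d l)) ω Set.univ x y → ∀ v : ℕ, min (x i : ℕ) (y i : ℕ) ≤ v → v ≤ max (x i : ℕ) (y i : ℕ) →
      ∃ z, Rch (gends (boxG d l)) ω Set.univ x z ∧ (z i : ℕ) = v := by
  intro y h
  induction h with
  | refl =>
    intro v h1 h2
    refine ⟨x, Rch.refl x, ?_⟩
    rw [min_self] at h1
    rw [max_self] at h2
    omega
  | @tail b c hb hc ih =>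
    intro v h1 h2
    by_cases hv : (c i : ℕ) = v
    · exact ⟨c, Rch.trans hb (Relation.ReflTransGen.single hc), hv⟩
    · have hadj : (boxG d l).Adj b c := by
        obtain ⟨-, -, e, -, he⟩ := hc
        have h3 : (e : Sym2 (Fin d → Fin l)) = s(b, c) := he
        have h4 := e.2
        rw [h3] at h4
        exact (SimpleGraph.mem_edgeSet _).1 h4
      have h5 : (b i : ℕ) = c i ∨ (b i : ℕ) + 1 = c i ∨ (c i : ℕ) + 1 = b i := by
        obtain ⟨j, hj, hk⟩ := hadj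
        by_cases hij : i = j
        · subst hij
          rcases hj with hj | hj
          · exact Or.inr (Or.inl hj)
          · exact Or.inr (Or.inr hj)
        · exact Or.inl (by rw [hk i hij])
      apply ih v
      · rw [min_le_iff] at h1 ⊢
        rw [le_max_iff] at h2
        omega
      · rw [min_le_iff] at h1
        rw [le_max_iff] at h2 ⊢
        omega

/-- Row A1. A cluster which contains `x` and `y` has at least `nd x y + 1` vertices: for the coordinate `i` with `|x i - y i| = nd x y` the path from `x` to `y` takes all the intermediate values (induction on the path: the image of the cluster under the coordinate `i` contains every value between). -/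
lemma cl_nd {l : ℕ} (ω : (boxG d l).edgeSet → Bool) (x y : Fin d → Fin l) (hy : y ∈ cu (gends (boxG d l)) ω x) :
    nd x y + 1 ≤ (cu (gends (boxG d l)) ω x).card := by
  classical
  rcases Nat.eq_zero_or_pos (nd x y) with h0 | h0
  · rw [h0, zero_add]
    exact Finset.card_pos.2 ⟨x, self_mem_cu ω x⟩
  · have hne : (Finset.univ : Finset (Fin d)).Nonempty := by
      by_contra hn
      rw [Finset.not_nonempty_iff_eq_empty] at hn
      unfold nd at h0
      rw [hn, Finset.sup_empty] at h0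
      exact absurd h0 (by simp)
    obtain ⟨i, -, hi⟩ := Finset.exists_mem_eq_sup Finset.univ hne
      (fun i => ((x i : ℕ) - (y i : ℕ)) + ((y i : ℕ) - (x i : ℕ)))
    have hnd : nd x y = ((x i : ℕ) - (y i : ℕ)) + ((y i : ℕ) - (x i : ℕ)) := hi
    have hsub : Finset.Icc (min (x i : ℕ) (y i : ℕ)) (max (x i : ℕ) (y i : ℕ)) ⊆
        (cu (gends (boxG d l)) ω x).image (fun z => (z i : ℕ)) := by
      intro v hv
      rw [Finset.mem_Icc] at hv
      obtain ⟨z, hz, hzv⟩ := A1b_val ω x i y (mem_cu.1 hy) v hv.1 hv.2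
      exact Finset.mem_image.2 ⟨z, mem_cu.2 hz, hzv⟩
    have hcard := (Finset.card_le_card hsub).trans Finset.card_image_le
    rw [Nat.card_Icc] at hcard
    rw [hnd]
    rcases le_total (x i : ℕ) (y i : ℕ) with h | h
    · rw [max_eq_right h, min_eq_left h] at hcard
      omega
    · rw [max_eq_left h, min_eq_right h] at hcard
      omega

open scoped Classical in
/-- Row A2. The arm: a vertex `y ∈ Pb u R` in the cluster of `a`, `|rel u a| ≤ r < R`: at least `R - r + 1` vertices (`cl_nd`, `nz_rel`), `HT.T`. -/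
lemma arm_le {C c e pc : ℝ} (ht : HT d C c e pc) {l : ℕ} (u : Fin d → Fin l) (R r : ℕ) (hr : r < R) (S : Set (Fin d → Fin l)) (a : Fin d → Fin l) (ha : nz (rel u a) ≤ r)
    (p : ℝ) (hp : pc ≤ p) (hpe : p ≤ pc + e) :
    Ex p (fun ω => if ∃ y ∈ cS (gends (boxG d l)) ω S {a}, y ∈ Pb u R then (1 : ℝ) else 0) ≤ C * (1 / Real.sqrt ((R : ℝ) - r) + (p - pc)) := by
  have hp0 : (0 : ℝ) ≤ p := ht.hp.p0.le.trans hp
  have hp1 : p ≤ 1 := hpe.trans ht.e1.le
  have hk : 1 ≤ R - r := by omega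
  have hT := ht.T l a p (R - r) hp hpe hk
  have hcast : ((R - r : ℕ) : ℝ) = (R : ℝ) - r := by
    rw [Nat.cast_sub hr.le]
  rw [hcast] at hT
  refine (Ex_mono hp0 hp1 (fun ω => ?_)).trans hT
  by_cases hex : ∃ y ∈ cS (gends (boxG d l)) ω S {a}, y ∈ Pb u R
  · have hle : (R : ℝ) - r ≤ cz (gends (boxG d l)) ω a := by
      obtain ⟨y, hy, hyP⟩ := hex
      obtain ⟨a', ha', _, hrch⟩ := mem_cS.1 hy
      rw [Set.mem_singleton_iff] at ha'
      subst ha'
      have hycu : y ∈ cu (gends (boxG d l)) ω a' :=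
        mem_cu.2 (Rch.mono (fun _ h => h) (Set.subset_univ _) hrch)
      have h1 := cl_nd ω a' y hycu
      rw [← nz_rel u a' y] at h1
      have h2 : nz (rel u y) = R := hyP
      have h3 : nz (rel u y) ≤ nz (rel u y - rel u a') + nz (rel u a') := by
        have := nz_add (rel u y - rel u a') (rel u a')
        simpa using this
      rw [nz_sub] at h3
      have h4 : R - r ≤ (cu (gends (boxG d l)) ω a').card := by omega
      have h5 : ((R - r : ℕ) : ℝ) ≤ ((cu (gends (boxG d l)) ω a').card : ℝ) := by exact_mod_cast h4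
      rw [hcast] at h5
      exact h5
    rw [if_pos hex, if_pos hle]
  · rw [if_neg hex]
    split_ifs <;> norm_num

/-- Row A2. Products of two-point functions inside of a ball at `p` with `tS ≤ 2 C fk`: `fz_rel`, `conv_z`. -/
lemma tt_conv (hd : 11 ≤ d) : ∃ Kc : ℝ, 1 ≤ Kc ∧ ∀ (C : ℝ), 0 ≤ C → ∀ (l : ℕ) (Q : Set (Fin d → Fin l)) (p : ℝ), 0 ≤ p → p ≤ 1 →
    (∀ x y, tS (gends (boxG d l)) Q p x y ≤ 2 * (C * fk (d - 2) x y)) → ∀ a a',
    ∑ z, tS (gends (boxG d l)) Q p a z * tS (gends (boxG d l)) Q p z a' ≤ 4 * C ^ 2 * Kc * fk (d - 4) a a' := by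
  obtain ⟨Kc, hK1, hK⟩ := conv_z (d := d) (by omega)
  refine ⟨Kc, hK1, ?_⟩
  intro C hC l Q p hp0 hp1 hT a a'
  have hnn : ∀ x y, 0 ≤ tS (gends (boxG d l)) Q p x y := by
    intro x y
    exact Ex_nonneg hp0 hp1 (fun ω => by split_ifs <;> norm_num)
  have h1 : ∑ z, tS (gends (boxG d l)) Q p a z * tS (gends (boxG d l)) Q p z a' ≤
      ∑ z, 4 * C ^ 2 * (fz (d - 2) (rel a a - rel a z) * fz (d - 2) (rel a z - rel a a')) := by
    refine Finset.sum_le_sum (fun z _ => ?_)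
    rw [fz_rel, fz_rel]
    have hm := mul_le_mul (hT a z) (hT z a') (hnn z a') ((hnn a z).trans (hT a z))
    refine hm.trans (le_of_eq ?_)
    ring
  have h2 : ∑ z, fz (d - 2) (rel a a - rel a z) * fz (d - 2) (rel a z - rel a a') ≤
      Kc * fk (d - 4) a a' := by
    have h3 := hK (d - 2) (d - 2) (by omega) (by omega) (by omega) (rel a a) (rel a a')
      (Finset.univ.image (rel a))
    rw [Finset.sum_image (fun x _ y _ hxy => rel_inj a hxy)] at h3
    have h4 : d - 2 + (d - 2) - d = d - 4 := by omega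
    rw [h4, fz_rel] at h3
    exact h3
  calc ∑ z, tS (gends (boxG d l)) Q p a z * tS (gends (boxG d l)) Q p z a'
      ≤ ∑ z, 4 * C ^ 2 * (fz (d - 2) (rel a a - rel a z) * fz (d - 2) (rel a z - rel a a')) := h1
    _ = 4 * C ^ 2 * ∑ z, fz (d - 2) (rel a a - rel a z) * fz (d - 2) (rel a z - rel a a') := by
        rw [Finset.mul_sum]
    _ ≤ 4 * C ^ 2 * (Kc * fk (d - 4) a a') := mul_le_mul_of_nonneg_left h2 (by positivity)
    _ = 4 * C ^ 2 * Kc * fk (d - 4) a a' := by ring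

lemma A3_fk_pos {l : ℕ} (k : ℕ) (x y : Fin d → Fin l) : 0 < fk k x y := by
  unfold fk
  positivity

/-- The two-point function inside of `Q` vanishes off `Q`. -/
lemma A3_tS_zero {l : ℕ} (Q : Set (Fin d → Fin l)) (p : ℝ) (x y : Fin d → Fin l) (h : x ∉ Q ∨ y ∉ Q) :
    tS (gends (boxG d l)) Q p x y = 0 := by
  unfold tS
  have h1 : ∀ ω : (boxG d l).edgeSet → Bool,
      (if y ∈ cS (gends (boxG d l)) ω Qᶜ {x} then (1 : ℝ) else 0) = 0 := by
    intro ω
    rw [if_neg]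
    intro hy
    rcases h with h | h
    · rw [mem_cS] at hy
      obtain ⟨a, ha, ha', -⟩ := hy
      rw [Set.mem_singleton_iff] at ha
      subst ha
      exact ha' h
    · exact cS_off hy h
  rw [Ex_congr h1]
  unfold Ex
  simp

/-- Comparison with the two-point function of the box. -/
lemma A3_tS_ta {l : ℕ} (Q : Set (Fin d → Fin l)) {p : ℝ} (h0 : 0 ≤ p) (h1 : p ≤ 1) (x y : Fin d → Fin l) :
    tS (gends (boxG d l)) Q p x y ≤ ta (gends (boxG d l)) p x y := by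
  unfold tS ta
  refine Ex_mono h0 h1 fun ω => ?_
  by_cases hy : y ∈ cS (gends (boxG d l)) ω Qᶜ {x}
  · have hy' : y ∈ cu (gends (boxG d l)) ω x := by
      rw [mem_cS] at hy
      obtain ⟨a, ha, -, hr⟩ := hy
      rw [Set.mem_singleton_iff] at ha
      subst ha
      unfold cu
      rw [mem_cl]
      exact hr.mono (fun _ h => h) (Set.subset_univ _)
    rw [if_pos hy, if_pos hy']
  · rw [if_neg hy]
    split_ifs <;> norm_num

/-- At most `3^d` neighbours. -/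
lemma A3_deg {l : ℕ} (z : Fin d → Fin l) :
    ∑ z' : Fin d → Fin l, (open scoped Classical in (if ∃ e, gends (boxG d l) e = s(z, z') then (1 : ℝ) else 0)) ≤ 3 ^ d := by
  classical
  rw [Finset.sum_ite, Finset.sum_const_zero, add_zero, Finset.sum_const, nsmul_eq_mul, mul_one]
  have h1 : (Finset.univ.filter (fun z' : Fin d → Fin l => ∃ e, gends (boxG d l) e = s(z, z'))).card ≤
      (bv (rel z z) 1).card := by
    apply Finset.card_le_card_of_injOn (fun z' => rel z z')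
    · intro z' hz'
      have h2 := (Finset.mem_filter.1 (Finset.mem_coe.1 hz')).2
      obtain ⟨e, he⟩ := h2
      have hadj : (boxG d l).Adj z z' := by
        have h3 : s(z, z') ∈ (boxG d l).edgeSet := by
          rw [← he]
          exact e.2
        exact (SimpleGraph.mem_edgeSet _).1 h3
      rw [Finset.mem_coe, mem_bv, nz_sub]
      exact le_of_eq (adj_nz z z z' hadj)
    · intro a _ b _ hab
      exact rel_inj z hab
  rw [card_bv] at h1
  have h2 : ((Finset.univ.filter (fun z' : Fin d → Fin l => ∃ e, gends (boxG d l) e = s(z, z'))).card : ℝ) ≤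
      ((2 * 1 + 1 : ℕ) ^ d : ℕ) := by exact_mod_cast h1
  refine h2.trans (le_of_eq ?_)
  norm_num

/-- Row A3. (0.5). `near_step` with `p1 = pc`, `s = (p-pc)/(1-pc) ≤ 2(p-pc)/(1-pc)`.. `Q = Qb u R`. `tS = 0` if one of the points is not in `Q`; `tS Q pc x z ≤ ta pc x z ≤ C fk` (`HP.U`). Let `K` be the maximum of `tS Q p x y / (C fk (d-2) x y)` over all `x, y`
(finite). For adjacent `z, z'`: `fk (z',y) ≤ 2^(d-2) fk (z,y)`, at most `2d` neighbours `z'`. So `tS Q p x y ≤ C fk x y + s K C^2 2d 2^(d-2) ∑_{z ∈ Q} fk x z fk z y`, and by `conv_z` (exponents `d-2`, `d-2`) the last sum is at most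
`Kc fz (d-4) = Kc (1+|x-y|)^2 fk (d-2) x y ≤ Kc (2R+1)^2 fk (d-2) x y` (`x, y ∈ Q`). So `K ≤ 1 + K/2` if `b0` is small. -/
lemma near_two {C pc : ℝ} (hp : HP d C pc) : ∃ b0 : ℝ, 0 < b0 ∧ ∀ (l : ℕ) (u : Fin d → Fin l) (R : ℕ) (p : ℝ), pc ≤ p → p ≤ (1 + pc) / 2 → (p - pc) * ((R : ℝ) + 1) ^ 2 ≤ b0 →
    ∀ x y, tS (gends (boxG d l)) (Qb u R) p x y ≤ 2 * (C * fk (d - 2) x y) := by
  have hd11 := hp.d11
  have hC1 := hp.C1
  have hpc0 := hp.p0
  have hpc1 := hp.p1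
  obtain ⟨Kc, hKc1, hKc⟩ := conv_z (d := d) (by omega)
  have hden : 0 < C * 3 ^ d * 2 ^ (d - 2) * Kc * 4 * 2 := by positivity
  refine ⟨(1 - pc) / (C * 3 ^ d * 2 ^ (d - 2) * Kc * 4 * 2), div_pos (by linarith) hden, ?_⟩
  intro l u R p hpp hp2 hb
  have hCp : 0 < C := by linarith
  have hf : ∀ x y : Fin d → Fin l, 0 < C * fk (d - 2) x y := fun x y => mul_pos hCp (A3_fk_pos _ x y)
  have hp0 : 0 ≤ p := by linarith
  have hp1 : p ≤ 1 := by linarith
  have htn : ∀ (q : ℝ), 0 ≤ q → q ≤ 1 → ∀ x y, 0 ≤ tS (gends (boxG d l)) (Qb u R) q x y := by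
    intro q hq0 hq1 x y
    unfold tS
    exact Ex_nonneg hq0 hq1 fun ω => by split_ifs <;> norm_num
  intro x y
  -- the maximal ratio
  obtain ⟨m, -, hm⟩ := Finset.exists_max_image (Finset.univ : Finset ((Fin d → Fin l) × (Fin d → Fin l)))
    (fun q => tS (gends (boxG d l)) (Qb u R) p q.1 q.2 / (C * fk (d - 2) q.1 q.2)) ⟨(x, y), Finset.mem_univ _⟩
  obtain ⟨x0, y0⟩ := m
  set K : ℝ := tS (gends (boxG d l)) (Qb u R) p x0 y0 / (C * fk (d - 2) x0 y0) with hK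
  have hKle : ∀ a b, tS (gends (boxG d l)) (Qb u R) p a b ≤ K * (C * fk (d - 2) a b) := by
    intro a b
    have h1 := hm (a, b) (Finset.mem_univ _)
    have h2 : tS (gends (boxG d l)) (Qb u R) p a b / (C * fk (d - 2) a b) ≤ K := h1
    rwa [div_le_iff₀ (hf a b)] at h2
  have hKeq : K * (C * fk (d - 2) x0 y0) = tS (gends (boxG d l)) (Qb u R) p x0 y0 := by
    rw [hK, div_mul_cancel₀ _ (hf x0 y0).ne']
  have hK0 : 0 ≤ K := div_nonneg (htn p hp0 hp1 x0 y0) (hf x0 y0).le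
  suffices hK2 : K ≤ 2 by
    refine (hKle x y).trans ?_
    exact mul_le_mul_of_nonneg_right hK2 (hf x y).le
  by_cases hin : x0 ∉ Qb u R ∨ y0 ∉ Qb u R
  · have h1 := A3_tS_zero (Qb u R) p x0 y0 hin
    rw [hK, h1, zero_div]
    norm_num
  push Not at hin
  obtain ⟨hx0, hy0⟩ := hin
  -- one step
  have h1pc : 0 < 1 - pc := by linarith
  set s : ℝ := (p - pc) / (1 - pc) with hs
  have hs0 : 0 ≤ s := div_nonneg (by linarith) h1pc.le
  have hs1 : s ≤ 1 := by
    rw [hs, div_le_one h1pc]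
    linarith
  have hps : 1 - p = (1 - pc) * (1 - s) := by
    rw [hs]
    field_simp
    ring
  have hstep := near_step (ends := gends (boxG d l)) Subtype.val_injective hps hpc0.le hpc1.le hs0 hs1 (Qb u R) x0 y0
  have hbase : ∀ a b, tS (gends (boxG d l)) (Qb u R) pc a b ≤ C * fk (d - 2) a b := fun a b =>
    (A3_tS_ta (Qb u R) hpc0.le hpc1.le a b).trans (hp.U l a b)
  have hinner : ∀ z : Fin d → Fin l, ∑ z', (open scoped Classical in (if ∃ e, gends (boxG d l) e = s(z, z') then (1 : ℝ) else 0)) *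
      (tS (gends (boxG d l)) (Qb u R) pc x0 z * tS (gends (boxG d l)) (Qb u R) p z' y0) ≤
      3 ^ d * ((C * fk (d - 2) x0 z) * (K * (C * (2 ^ (d - 2) * fk (d - 2) z y0)))) := by
    intro z
    classical
    have h1 : ∀ z' : Fin d → Fin l, (if ∃ e, gends (boxG d l) e = s(z, z') then (1 : ℝ) else 0) *
        (tS (gends (boxG d l)) (Qb u R) pc x0 z * tS (gends (boxG d l)) (Qb u R) p z' y0) ≤
        (if ∃ e, gends (boxG d l) e = s(z, z') then (1 : ℝ) else 0) *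
        ((C * fk (d - 2) x0 z) * (K * (C * (2 ^ (d - 2) * fk (d - 2) z y0)))) := by
      intro z'
      by_cases he : ∃ e, gends (boxG d l) e = s(z, z')
      · rw [if_pos he, one_mul, one_mul]
        refine mul_le_mul (hbase x0 z) ?_ (htn p hp0 hp1 _ _) (hf x0 z).le
        refine (hKle z' y0).trans ?_
        refine mul_le_mul_of_nonneg_left ?_ hK0
        refine mul_le_mul_of_nonneg_left ?_ hCp.le
        obtain ⟨e, he⟩ := he
        have hadj : (boxG d l).Adj z z' := by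
          have h3 : s(z, z') ∈ (boxG d l).edgeSet := by
            rw [← he]
            exact e.2
          exact (SimpleGraph.mem_edgeSet _).1 h3
        have h4 := adj_nz u z z' hadj
        have h5 := fz_near (d := d) (d - 2) (rel u z - rel u y0) (rel u z' - rel u y0) (by
          have h6 : rel u z - rel u y0 - (rel u z' - rel u y0) = rel u z - rel u z' := by abel
          rw [h6, h4])
        rwa [fz_rel, fz_rel] at h5
      · rw [if_neg he, zero_mul, zero_mul]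
    refine (Finset.sum_le_sum fun z' _ => h1 z').trans ?_
    rw [← Finset.sum_mul]
    refine mul_le_mul_of_nonneg_right ?_ ?_
    · have h7 := A3_deg z
      convert h7 using 1
    · have h8 := A3_fk_pos (d - 2) z y0
      have h9 := (hf x0 z).le
      positivity
  have hsum : ∑ z, ∑ z', (open scoped Classical in (if ∃ e, gends (boxG d l) e = s(z, z') then (1 : ℝ) else 0)) *
      (tS (gends (boxG d l)) (Qb u R) pc x0 z * tS (gends (boxG d l)) (Qb u R) p z' y0) ≤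
      3 ^ d * (C * (K * (C * (2 ^ (d - 2) * (Kc * fk (d - 4) x0 y0))))) := by
    refine (Finset.sum_le_sum fun z _ => hinner z).trans ?_
    have h1 : ∑ z : Fin d → Fin l, 3 ^ d * ((C * fk (d - 2) x0 z) * (K * (C * (2 ^ (d - 2) * fk (d - 2) z y0)))) =
        3 ^ d * (C * (K * (C * (2 ^ (d - 2) * ∑ z : Fin d → Fin l, fk (d - 2) x0 z * fk (d - 2) z y0)))) := by
      simp only [Finset.mul_sum]
      refine Finset.sum_congr rfl fun z _ => ?_
      ring
    rw [h1]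
    have h2 : ∑ z : Fin d → Fin l, fk (d - 2) x0 z * fk (d - 2) z y0 ≤ Kc * fk (d - 4) x0 y0 := by
      have h3 := hKc (d - 2) (d - 2) (by omega) (by omega) (by omega) (rel u x0) (rel u y0)
        ((Finset.univ : Finset (Fin d → Fin l)).image (rel u))
      rw [Finset.sum_image (fun a _ b _ hab => rel_inj u hab)] at h3
      have h4 : d - 2 + (d - 2) - d = d - 4 := by omega
      rw [h4, fz_rel] at h3
      refine le_trans (le_of_eq ?_) h3
      refine Finset.sum_congr rfl fun z _ => ?_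
      rw [fz_rel, fz_rel]
    have h5 : (0 : ℝ) ≤ 3 ^ d := by positivity
    gcongr
  have hnd : nd x0 y0 ≤ 2 * R := by
    have h1 := nz_rel u x0 y0
    have h2 : nz (rel u x0 - rel u y0) ≤ nz (rel u x0) + nz (rel u y0) := by
      have h3 := nz_add (rel u x0) (-(rel u y0))
      rw [nz_neg] at h3
      rwa [← sub_eq_add_neg] at h3
    have h3 : nz (rel u x0) ≤ R := hx0
    have h4 : nz (rel u y0) ≤ R := hy0
    omega
  have hfk : fk (d - 4) x0 y0 ≤ 4 * ((R : ℝ) + 1) ^ 2 * fk (d - 2) x0 y0 := by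
    unfold fk
    have h1 : (1 + (nd x0 y0 : ℝ)) ^ (d - 2) = (1 + (nd x0 y0 : ℝ)) ^ (d - 4) * (1 + (nd x0 y0 : ℝ)) ^ 2 := by
      rw [← pow_add]
      congr 1
      omega
    have h2 : (0 : ℝ) < 1 + (nd x0 y0 : ℝ) := by positivity
    have h3 : 1 + (nd x0 y0 : ℝ) ≤ 2 * ((R : ℝ) + 1) := by
      have : (nd x0 y0 : ℝ) ≤ 2 * (R : ℝ) := by exact_mod_cast hnd
      linarith
    rw [h1, mul_one_div, div_le_div_iff₀ (by positivity) (by positivity)]
    have h4 : (1 + (nd x0 y0 : ℝ)) ^ 2 ≤ (2 * ((R : ℝ) + 1)) ^ 2 := pow_le_pow_left₀ h2.le h3 2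
    have h5 : (0 : ℝ) < (1 + (nd x0 y0 : ℝ)) ^ (d - 4) := by positivity
    nlinarith
  -- conclusion
  have hfin : K * (C * fk (d - 2) x0 y0) ≤ C * fk (d - 2) x0 y0 +
      s * (3 ^ d * (C * (K * (C * (2 ^ (d - 2) * (Kc * (4 * ((R : ℝ) + 1) ^ 2 * fk (d - 2) x0 y0))))))) := by
    rw [hKeq]
    refine hstep.trans (add_le_add (hbase x0 y0) (mul_le_mul_of_nonneg_left ?_ hs0))
    refine le_trans (le_trans (le_of_eq ?_) hsum) ?_
    · refine Finset.sum_congr rfl fun z _ => Finset.sum_congr rfl fun z' _ => ?_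
      congr
    · gcongr
  have hsR : s * ((R : ℝ) + 1) ^ 2 * (C * 3 ^ d * 2 ^ (d - 2) * Kc * 4) ≤ 1 / 2 := by
    have h1 : s * ((R : ℝ) + 1) ^ 2 = (p - pc) * ((R : ℝ) + 1) ^ 2 / (1 - pc) := by
      rw [hs]
      ring
    have h2 : s * ((R : ℝ) + 1) ^ 2 ≤ 1 / (C * 3 ^ d * 2 ^ (d - 2) * Kc * 4 * 2) := by
      rw [h1, div_le_iff₀ h1pc]
      refine hb.trans (le_of_eq ?_)
      ring
    have h3 : 0 < C * 3 ^ d * 2 ^ (d - 2) * Kc * 4 := by positivity
    calc s * ((R : ℝ) + 1) ^ 2 * (C * 3 ^ d * 2 ^ (d - 2) * Kc * 4) ≤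
        1 / (C * 3 ^ d * 2 ^ (d - 2) * Kc * 4 * 2) * (C * 3 ^ d * 2 ^ (d - 2) * Kc * 4) :=
          mul_le_mul_of_nonneg_right h2 h3.le
      _ = 1 / 2 := by
          field_simp
  have h10 : K * (C * fk (d - 2) x0 y0) ≤ (1 + K / 2) * (C * fk (d - 2) x0 y0) := by
    refine hfin.trans ?_
    have h11 : s * (3 ^ d * (C * (K * (C * (2 ^ (d - 2) * (Kc * (4 * ((R : ℝ) + 1) ^ 2 * fk (d - 2) x0 y0))))))) =
        (s * ((R : ℝ) + 1) ^ 2 * (C * 3 ^ d * 2 ^ (d - 2) * Kc * 4)) * (K * (C * fk (d - 2) x0 y0)) := by ring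
    rw [h11]
    have h12 : (s * ((R : ℝ) + 1) ^ 2 * (C * 3 ^ d * 2 ^ (d - 2) * Kc * 4)) * (K * (C * fk (d - 2) x0 y0)) ≤
        1 / 2 * (K * (C * fk (d - 2) x0 y0)) :=
      mul_le_mul_of_nonneg_right hsR (mul_nonneg hK0 (hf x0 y0).le)
    linarith
  have h13 := le_of_mul_le_mul_right h10 (hf x0 y0)
  linarith

private lemma A4a_sum (K : ℕ) : ∑ j ∈ Finset.range K, 1 / Real.sqrt ((j : ℝ) + 1) ≤ 2 * Real.sqrt K := by
  induction K with
  | zero => simp
  | succ K ih =>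
    rw [Finset.sum_range_succ]
    have h1 : 0 < Real.sqrt ((K : ℝ) + 1) := Real.sqrt_pos.2 (by positivity)
    have h2 : 0 ≤ Real.sqrt (K : ℝ) := Real.sqrt_nonneg _
    have h3 : Real.sqrt ((K : ℝ) + 1) ^ 2 = (K : ℝ) + 1 := Real.sq_sqrt (by positivity)
    have h4 : Real.sqrt (K : ℝ) ^ 2 = (K : ℝ) := Real.sq_sqrt (by positivity)
    have h5 : 1 / Real.sqrt ((K : ℝ) + 1) ≤ 2 * (Real.sqrt ((K : ℝ) + 1) - Real.sqrt K) := by
      rw [div_le_iff₀ h1]
      linarith [sq_nonneg (Real.sqrt ((K : ℝ) + 1) - Real.sqrt K)]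
    push_cast
    linarith

private lemma A4a_gh {h : ℝ} (h0 : 0 < h) (h1 : h < 1) (K k : ℕ) :
    gh h k ≤ h * (∑ j ∈ Finset.range K, if ((j + 1 : ℕ) : ℝ) ≤ (k : ℝ) then (1 : ℝ) else 0) +
      (if (K : ℝ) ≤ (k : ℝ) then (1 : ℝ) else 0) := by
  have hs : 0 ≤ ∑ j ∈ Finset.range K, (if ((j + 1 : ℕ) : ℝ) ≤ (k : ℝ) then (1 : ℝ) else 0) :=
    Finset.sum_nonneg (fun j _ => by split_ifs <;> norm_num)
  by_cases hk : K ≤ k
  · rw [if_pos (by exact_mod_cast hk)]
    have := gh_le_one h0.le h1.le k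
    nlinarith
  · rw [if_neg (by push Not at hk ⊢; exact_mod_cast hk)]
    have h3 := gh_le h0.le h1.le k
    have h4 : (k : ℝ) ≤ ∑ j ∈ Finset.range K, (if ((j + 1 : ℕ) : ℝ) ≤ (k : ℝ) then (1 : ℝ) else 0) := by
      rw [← Finset.sum_filter]
      simp only [Finset.sum_const, nsmul_eq_mul, mul_one]
      have h5 : Finset.range k ⊆ Finset.filter (fun j : ℕ => ((j + 1 : ℕ) : ℝ) ≤ (k : ℝ)) (Finset.range K) := by
        intro j hj
        rw [Finset.mem_range] at hj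
        rw [Finset.mem_filter, Finset.mem_range]
        refine ⟨by omega, ?_⟩
        exact_mod_cast hj
      have h6 := Finset.card_le_card h5
      rw [Finset.card_range] at h6
      exact_mod_cast h6
    nlinarith

/-- Row A4. `gh h k = ∑_{j=1}^k h (1-h)^(j-1)`, so `E gh |C| = ∑_{j ≥ 1} h (1-h)^(j-1) P(|C| ≥ j) ≤ C ∑_j h (1-h)^(j-1) j^(-1/2) + C (p-pc)` (finite sums up to the number of vertices), and
`∑_{j ≥ 1} h (1-h)^(j-1) j^(-1/2) ≤ ∑_{j ≤ 1/h} h j^(-1/2) + √h ∑_{j > 1/h} h (1-h)^(j-1) ≤ 3 √h`. Supremum over the boxes. -/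
lemma Mh_up {C c e pc : ℝ} (ht : HT d C c e pc) : ∃ C' : ℝ, 1 ≤ C' ∧ ∀ (p h : ℝ), pc ≤ p → p ≤ pc + e → 0 < h → h < 1 →
    Mh d p h ≤ C' * (Real.sqrt h + (p - pc)) := by
  classical
  have hC := ht.hp.C1
  refine ⟨4 * C, by linarith, ?_⟩
  intro p h hp hpe h0 h1
  have hp0 : 0 ≤ p := ht.hp.p0.le.trans hp
  have hp1 : p ≤ 1 := by linarith [ht.e1]
  have hne : {r : ℝ | ∃ (l : ℕ) (x : Fin d → Fin l), r = piF l x p h ∅ {0}}.Nonempty :=
    ⟨_, 1, fun _ => 0, rfl⟩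
  unfold Mh
  refine csSup_le hne ?_
  rintro r ⟨l, x, rfl⟩
  rw [piF_one]
  obtain ⟨K, hK1, hK2⟩ : ∃ K : ℕ, 1 / h ≤ (K : ℝ) ∧ (K : ℝ) ≤ 2 / h := by
    refine ⟨⌈1 / h⌉₊, Nat.le_ceil _, ?_⟩
    have h2 := (Nat.ceil_lt_add_one (show (0 : ℝ) ≤ 1 / h by positivity)).le
    have h3 : (1 : ℝ) ≤ 1 / h := by rw [le_div_iff₀ h0]; linarith
    have h4 : 2 / h = 1 / h + 1 / h := by ring
    linarith
  have hKpos : (0 : ℝ) < K := lt_of_lt_of_le (by positivity) hK1
  have hKn : 1 ≤ K := by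
    have : 0 < K := by exact_mod_cast hKpos
    omega
  have e1 : Ex p (fun ω => gh h (cu (gends (boxG d l)) ω x).card) ≤
      Ex p (fun ω => h * (∑ j ∈ Finset.range K, if ((j + 1 : ℕ) : ℝ) ≤ cz (gends (boxG d l)) ω x then (1 : ℝ) else 0) +
        (if (K : ℝ) ≤ cz (gends (boxG d l)) ω x then (1 : ℝ) else 0)) := by
    refine Ex_mono hp0 hp1 (fun ω => ?_)
    exact A4a_gh h0 h1 K _
  have e2 : Ex p (fun ω => h * (∑ j ∈ Finset.range K, if ((j + 1 : ℕ) : ℝ) ≤ cz (gends (boxG d l)) ω x then (1 : ℝ) else 0) +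
        (if (K : ℝ) ≤ cz (gends (boxG d l)) ω x then (1 : ℝ) else 0)) =
      h * (∑ j ∈ Finset.range K, Ex p (fun ω => if ((j + 1 : ℕ) : ℝ) ≤ cz (gends (boxG d l)) ω x then (1 : ℝ) else 0)) +
        Ex p (fun ω => if (K : ℝ) ≤ cz (gends (boxG d l)) ω x then (1 : ℝ) else 0) := by
    rw [Ex_add, Ex_mul_left, Ex_sum]
  have e3 : ∑ j ∈ Finset.range K, Ex p (fun ω => if ((j + 1 : ℕ) : ℝ) ≤ cz (gends (boxG d l)) ω x then (1 : ℝ) else 0) ≤
      ∑ j ∈ Finset.range K, (C * (1 / Real.sqrt ((j : ℝ) + 1)) + C * (p - pc)) := by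
    refine Finset.sum_le_sum (fun j _ => ?_)
    have := ht.T l x p (j + 1) hp hpe (by omega)
    push_cast at this ⊢
    linarith
  have e4 : ∑ j ∈ Finset.range K, (C * (1 / Real.sqrt ((j : ℝ) + 1)) + C * (p - pc)) ≤
      C * (2 * Real.sqrt K) + (K : ℝ) * (C * (p - pc)) := by
    rw [Finset.sum_add_distrib, ← Finset.mul_sum, Finset.sum_const, Finset.card_range, nsmul_eq_mul]
    have := mul_le_mul_of_nonneg_left (A4a_sum K) (show (0 : ℝ) ≤ C by linarith)
    linarith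
  have e5 := ht.T l x p K hp hpe hKn
  have hsq : Real.sqrt h ^ 2 = h := Real.sq_sqrt h0.le
  have hsp : 0 < Real.sqrt h := Real.sqrt_pos.2 h0
  have hKs : Real.sqrt K ^ 2 = K := Real.sq_sqrt hKpos.le
  have hKsp : 0 < Real.sqrt K := Real.sqrt_pos.2 hKpos
  -- √h √K ≥ 1 and ≤ √2
  have g1 : 1 ≤ Real.sqrt h * Real.sqrt K := by
    rw [← Real.sqrt_mul h0.le]
    refine Real.le_sqrt_of_sq_le ?_
    rw [div_le_iff₀ h0] at hK1
    linarith
  have g2 : Real.sqrt h * Real.sqrt K ≤ 3 / 2 := by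
    rw [← Real.sqrt_mul h0.le]
    refine Real.sqrt_le_iff.2 ⟨by norm_num, ?_⟩
    rw [le_div_iff₀ h0] at hK2
    linarith
  have g3 : h * Real.sqrt K ≤ 3 / 2 * Real.sqrt h := by
    have : h * Real.sqrt K = Real.sqrt h * (Real.sqrt h * Real.sqrt K) := by
      rw [← mul_assoc, ← sq, hsq]
    rw [this]
    nlinarith
  have g4 : 1 / Real.sqrt K ≤ Real.sqrt h := by
    rw [div_le_iff₀ hKsp]; exact g1
  have g5 : h * (K : ℝ) ≤ 2 := by
    rw [le_div_iff₀ h0] at hK2; linarith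
  have hd : 0 ≤ p - pc := by linarith
  have g6 : h * (K : ℝ) * (C * (p - pc)) ≤ 2 * (C * (p - pc)) :=
    mul_le_mul_of_nonneg_right g5 (mul_nonneg (by linarith) hd)
  have g7 : C * (h * Real.sqrt K) ≤ C * (3 / 2 * Real.sqrt h) :=
    mul_le_mul_of_nonneg_left g3 (by linarith)
  have g8 : C * (1 / Real.sqrt K) ≤ C * Real.sqrt h := mul_le_mul_of_nonneg_left g4 (by linarith)
  have g9 : h * (∑ j ∈ Finset.range K, Ex p (fun ω => if ((j + 1 : ℕ) : ℝ) ≤ cz (gends (boxG d l)) ω x then (1 : ℝ) else 0)) ≤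
      h * (C * (2 * Real.sqrt K) + (K : ℝ) * (C * (p - pc))) :=
    mul_le_mul_of_nonneg_left (e3.trans e4) h0.le
  calc Ex p (fun ω => gh h (cu (gends (boxG d l)) ω x).card) ≤ _ := e1
    _ = _ := e2
    _ ≤ h * (C * (2 * Real.sqrt K) + (K : ℝ) * (C * (p - pc))) + C * (1 / Real.sqrt K + (p - pc)) := add_le_add g9 e5
    _ ≤ 4 * C * (Real.sqrt h + (p - pc)) := by nlinarith

/-- Row A4. `HT.Tm` with `k = ⌈1/h⌉`: `gh h j ≥ 1 - (1-h)^k ≥ 1 - e^(-1) ≥ 1/2` for `j ≥ k`; `Ex_mono_p`. -/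
lemma Mh_low {C c e pc : ℝ} (ht : HT d C c e pc) : ∃ c' : ℝ, 0 < c' ∧ ∀ (p h : ℝ), pc ≤ p → p ≤ 1 → 0 < h → h < 1 →
    c' * Real.sqrt h ≤ Mh d p h := by
  have hc := ht.c0
  refine ⟨c / 4, by positivity, fun p h hp hp1 h0 h1 => ?_⟩
  have hpc := ht.hp.p0
  have hp0 : 0 ≤ p := by linarith
  set k : ℕ := ⌈1 / h⌉₊ with hk
  have hk1 : 1 ≤ k := Nat.one_le_ceil_iff.2 (by positivity)
  have hkh : 1 ≤ (k : ℝ) * h := by
    have h2 : 1 / h ≤ (k : ℝ) := Nat.le_ceil _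
    rw [div_le_iff₀ h0] at h2
    exact h2
  have hkh2 : (k : ℝ) * h ≤ 2 := by
    have h2 : (k : ℝ) < 1 / h + 1 := Nat.ceil_lt_add_one (by positivity)
    have h3 := mul_lt_mul_of_pos_right h2 h0
    have h4 : (1 / h + 1) * h = 1 + h := by field_simp
    linarith
  obtain ⟨l, x, hx⟩ := ht.Tm k hk1
  have hmono : Ex pc (fun ω => if (k : ℝ) ≤ cz (gends (boxG d l)) ω x then (1 : ℝ) else 0) ≤
      Ex p (fun ω => if (k : ℝ) ≤ cz (gends (boxG d l)) ω x then (1 : ℝ) else 0) := by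
    refine Ex_mono_p hpc.le hp hp1 _ fun ω ω' hω => ?_
    by_cases h2 : (k : ℝ) ≤ cz (gends (boxG d l)) ω x
    · rw [if_pos h2, if_pos (h2.trans (cz_mono hω))]
    · rw [if_neg h2]
      split_ifs <;> norm_num
  have hghk : 1 / 2 ≤ gh h k := by
    unfold gh
    have h2 : (1 - h) ^ k ≤ Real.exp (-h) ^ k := by
      refine pow_le_pow_left₀ (by linarith) ?_ k
      have := Real.add_one_le_exp (-h)
      linarith
    have h3 : Real.exp (-h) ^ k ≤ Real.exp (-1) := by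
      rw [← Real.exp_nat_mul]
      apply Real.exp_le_exp.2
      have : (k : ℝ) * -h = -((k : ℝ) * h) := by ring
      rw [this]
      linarith
    have h4 : Real.exp (-1) ≤ 1 / 2 := by
      rw [Real.exp_neg, one_div]
      apply inv_anti₀ (by norm_num)
      have := Real.add_one_le_exp (1 : ℝ)
      linarith
    linarith
  have hgh : 1 / 2 * Ex p (fun ω => if (k : ℝ) ≤ cz (gends (boxG d l)) ω x then (1 : ℝ) else 0) ≤
      piF l x p h ∅ {0} := by
    rw [piF_one, ← Ex_mul_left]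
    refine Ex_mono hp0 hp1 fun ω => ?_
    by_cases h2 : (k : ℝ) ≤ cz (gends (boxG d l)) ω x
    · rw [if_pos h2, mul_one]
      refine hghk.trans (gh_mono h0.le h1.le ?_)
      unfold cz at h2
      exact_mod_cast h2
    · rw [if_neg h2, mul_zero]
      exact gh_nonneg h0.le h1.le _
  have hM := Mh_ub x p h hp0 hp1 h0.le h1.le
  have hk0 : (0 : ℝ) < k := by exact_mod_cast hk1
  have hsk : 0 < Real.sqrt k := Real.sqrt_pos.2 hk0
  have hnum : c / 4 * Real.sqrt h ≤ 1 / 2 * (c / Real.sqrt k) := by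
    have h2 : Real.sqrt k * Real.sqrt h ≤ 2 := by
      rw [← Real.sqrt_mul hk0.le, Real.sqrt_le_left (by norm_num)]
      linarith
    have h3 : 1 / 2 * (c / Real.sqrt k) = c / (2 * Real.sqrt k) := by
      field_simp
    rw [h3, le_div_iff₀ (by positivity)]
    have h4 : c / 4 * Real.sqrt h * (2 * Real.sqrt k) = c / 2 * (Real.sqrt k * Real.sqrt h) := by
      ring
    rw [h4]
    have h5 := mul_le_mul_of_nonneg_left h2 (show (0 : ℝ) ≤ c / 2 by positivity)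
    linarith
  linarith

/-- The pointwise inequality for row A5. -/
lemma A5_point {h : ℝ} (h0 : 0 < h) (h1 : h < 1) {m K : ℕ} (hK : (K : ℝ) * h ≤ 1 / 2) (N : ℕ) :
    (1 / 2 : ℝ) * ∑ k ∈ Finset.Icc 1 m, ((if (k : ℝ) ≤ (N : ℝ) then (1 : ℝ) else 0) -
      (if ((K + 1 : ℕ) : ℝ) ≤ (N : ℝ) then (1 : ℝ) else 0)) ≤ fh h N := by
  have hf := fh_nonneg h0.le h1.le N
  by_cases hN : N ≤ K
  · have e2 : ¬ ((K + 1 : ℕ) : ℝ) ≤ (N : ℝ) := by
      rw [Nat.cast_le]; omega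
    have e3 : ∑ k ∈ Finset.Icc 1 m, ((if (k : ℝ) ≤ (N : ℝ) then (1 : ℝ) else 0) -
        (if ((K + 1 : ℕ) : ℝ) ≤ (N : ℝ) then (1 : ℝ) else 0)) ≤ (N : ℝ) := by
      have e4 : ∑ k ∈ Finset.Icc 1 m, ((if (k : ℝ) ≤ (N : ℝ) then (1 : ℝ) else 0) -
          (if ((K + 1 : ℕ) : ℝ) ≤ (N : ℝ) then (1 : ℝ) else 0)) =
          ∑ k ∈ Finset.Icc 1 m, (if k ≤ N then (1 : ℝ) else 0) := by
        apply Finset.sum_congr rfl
        intro k _
        rw [if_neg e2, sub_zero]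
        simp only [Nat.cast_le]
      rw [e4, Finset.sum_boole]
      have e5 : (Finset.filter (fun k => k ≤ N) (Finset.Icc 1 m)).card ≤ (Finset.Icc 1 N).card := by
        apply Finset.card_le_card
        intro k hk
        rw [Finset.mem_filter, Finset.mem_Icc] at hk
        rw [Finset.mem_Icc]
        exact ⟨hk.1.1, hk.2⟩
      rw [Nat.card_Icc, Nat.add_sub_cancel] at e5
      exact_mod_cast e5
    have e6 : (1 / 2 : ℝ) ≤ (1 - h) ^ N := by
      have e7 := one_add_mul_le_pow (a := -h) (by linarith) N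
      have e8 : (N : ℝ) * h ≤ 1 / 2 := by
        have : (N : ℝ) ≤ (K : ℝ) := by exact_mod_cast hN
        nlinarith
      have e9 : (1 + -h) = 1 - h := by ring
      rw [e9] at e7
      linarith
    have e10 : (0 : ℝ) ≤ (N : ℝ) := Nat.cast_nonneg N
    unfold fh
    nlinarith
  · have e1 : ((K + 1 : ℕ) : ℝ) ≤ (N : ℝ) := by
      rw [Nat.cast_le]; omega
    have e2 : ∑ k ∈ Finset.Icc 1 m, ((if (k : ℝ) ≤ (N : ℝ) then (1 : ℝ) else 0) -
        (if ((K + 1 : ℕ) : ℝ) ≤ (N : ℝ) then (1 : ℝ) else 0)) ≤ 0 := by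
      apply Finset.sum_nonpos
      intro k _
      rw [if_pos e1]
      split_ifs <;> norm_num
    linarith

/-- Row A5. `K = ⌈1/h⌉`. `E fh |C| ≥ (1-h)^K E[|C|; |C| ≤ K] ≥ (1/10) ∑_{k=1}^K (P(|C| ≥ k) - P(|C| ≥ K+1))` (for `h ≤ 1/2`: `(1-h)^K ≥ 1/16`, whatever), all terms are nonnegative, keep `k ≤ μ K`. `P_p(|C(u)| ≥ k) ≥ P_pc(|C(u)| ≥ k) ≥ c k^(-1/2)` (`Ex_mono_p`, `HT.Tm`, `deep_tail`:
`Dp u k` for `k ≤ 1/h^2`) `≥ c (μ K)^(-1/2)`; `P_p(|C| ≥ K+1) ≤ C(K^(-1/2) + sqrt(h/δ)) ≤ C (1 + δ^(-1/2)) 2 h^(1/2)`: for `μ = μ(δ)` small the difference is at least half of `c (μK)^(-1/2)`: the sum is at least `(μ K - 1) c (μK)^(-1/2)/2 ≥ c' h^(-1/2)` for `h` small. -/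
lemma sg_low {C c e pc : ℝ} (ht : HT d C c e pc) (δ : ℝ) (hδ : 0 < δ) (hδ1 : δ ≤ 1) : ∃ c' h0 : ℝ, 0 < c' ∧ 0 < h0 ∧ ∀ (l : ℕ) (u : Fin d → Fin l) (p h : ℝ),
    Rg d pc δ l u p h → h ≤ h0 → c' / Real.sqrt h ≤ sgF l u p h ∅ {0} := by
  have hC1 := ht.hp.C1
  have hc0 := ht.c0
  have he0 := ht.e0
  have hp0' := ht.hp.p0
  have hp1' := ht.hp.p1
  have he1 := ht.e1
  have hsδ : 0 < Real.sqrt δ := Real.sqrt_pos.2 hδ
  set D : ℝ := C * (2 + 1 / Real.sqrt δ) with hD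
  have hD0 : 0 < D := by rw [hD]; positivity
  set μ : ℝ := min (1 / 2) ((c / (2 * D)) ^ 2) with hμ
  have hμ0 : 0 < μ := by rw [hμ]; apply lt_min <;> positivity
  have hμh : μ ≤ 1 / 2 := min_le_left _ _
  have hμc : Real.sqrt μ ≤ c / (2 * D) := by
    have : μ ≤ (c / (2 * D)) ^ 2 := min_le_right _ _
    calc Real.sqrt μ ≤ Real.sqrt ((c / (2 * D)) ^ 2) := Real.sqrt_le_sqrt this
      _ = c / (2 * D) := Real.sqrt_sq (by positivity)
  have hsμ : 0 < Real.sqrt μ := Real.sqrt_pos.2 hμ0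
  have hDc : D ≤ c / (2 * Real.sqrt μ) := by
    rw [le_div_iff₀ (by positivity)]
    rw [le_div_iff₀ (by positivity)] at hμc
    linarith
  refine ⟨c * Real.sqrt μ / 8, min (μ / 2) (δ * e ^ 2), by positivity,
    lt_min (by positivity) (by positivity), ?_⟩
  intro l u p h hR hh
  have h0 := hR.h0
  have h1 := hR.h1
  have hhμ : h ≤ μ / 2 := hh.trans (min_le_left _ _)
  have hhe : h ≤ δ * e ^ 2 := hh.trans (min_le_right _ _)
  set s : ℝ := Real.sqrt h with hs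
  have hs0 : 0 < s := Real.sqrt_pos.2 h0
  have hs2 : s * s = h := Real.mul_self_sqrt h0.le
  have hpb : p - pc ≤ s / Real.sqrt δ := by
    have := hR.pb
    rw [Real.sqrt_div h0.le] at this
    linarith
  have hpe : p ≤ pc + e := by
    have h2 : Real.sqrt (h / δ) ≤ e := by
      rw [Real.sqrt_le_left he0.le, div_le_iff₀ hδ]
      linarith
    linarith [hR.pb]
  have hpp0 : 0 ≤ p := by linarith [hR.pa]
  have hpp1 : p ≤ 1 := by linarith
  set K : ℕ := ⌊1 / (2 * h)⌋₊ with hK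
  set m : ℕ := ⌊μ / h⌋₊ with hm
  have hKh : (K : ℝ) * h ≤ 1 / 2 := by
    have h2 : (K : ℝ) ≤ 1 / (2 * h) := Nat.floor_le (by positivity)
    calc (K : ℝ) * h ≤ 1 / (2 * h) * h := mul_le_mul_of_nonneg_right h2 h0.le
      _ = 1 / 2 := by field_simp
  have hK1 : 1 / (2 * h) < (K : ℝ) + 1 := Nat.lt_floor_add_one _
  have hmle : (m : ℝ) ≤ μ / h := Nat.floor_le (by positivity)
  have hmge : μ / (2 * h) ≤ (m : ℝ) := by
    have h2 : μ / h < (m : ℝ) + 1 := Nat.lt_floor_add_one _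
    have h3 : (2 : ℝ) ≤ μ / h := by
      rw [le_div_iff₀ h0]; linarith
    have h4 : μ / (2 * h) = μ / h / 2 := by rw [div_div, mul_comm h 2]
    rw [h4]
    linarith
  -- the tail at `K + 1`
  have hT : Ex p (fun ω => if ((K + 1 : ℕ) : ℝ) ≤ cz (gends (boxG d l)) ω u then (1 : ℝ) else 0) ≤ D * s := by
    have h2 := ht.T l u p (K + 1) hR.pa hpe (by omega)
    have h3 : 1 / Real.sqrt ((K + 1 : ℕ) : ℝ) ≤ 2 * s := by
      have h4 : (1 : ℝ) ≤ ((K + 1 : ℕ) : ℝ) * (2 * s) ^ 2 := by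
        push_cast
        have h5 : 1 / (2 * h) * (2 * s) ^ 2 ≤ ((K : ℝ) + 1) * (2 * s) ^ 2 :=
          mul_le_mul_of_nonneg_right hK1.le (by positivity)
        have h6 : 1 / (2 * h) * (2 * s) ^ 2 = 2 := by
          have : (2 * s) ^ 2 = 4 * h := by rw [← hs2]; ring
          rw [this]
          field_simp
          norm_num
        linarith
      have h7 : 0 < Real.sqrt ((K + 1 : ℕ) : ℝ) := Real.sqrt_pos.2 (by positivity)
      rw [div_le_iff₀ h7]
      have h8 : Real.sqrt 1 ≤ Real.sqrt (((K + 1 : ℕ) : ℝ) * (2 * s) ^ 2) := Real.sqrt_le_sqrt h4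
      rw [Real.sqrt_one, Real.sqrt_mul (by positivity), Real.sqrt_sq (by positivity)] at h8
      linarith
    calc _ ≤ C * (1 / Real.sqrt ((K + 1 : ℕ) : ℝ) + (p - pc)) := h2
      _ ≤ C * (2 * s + s / Real.sqrt δ) := by
          apply mul_le_mul_of_nonneg_left _ (by linarith)
          linarith
      _ = D * s := by rw [hD]; ring
  -- the tails at `k ≤ m`
  have hk : ∀ k ∈ Finset.Icc 1 m, c * s / Real.sqrt μ ≤
      Ex p (fun ω => if (k : ℝ) ≤ cz (gends (boxG d l)) ω u then (1 : ℝ) else 0) := by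
    intro k hk
    rw [Finset.mem_Icc] at hk
    have hkm : (k : ℝ) ≤ μ / h := le_trans (by exact_mod_cast hk.2) hmle
    have hk0 : (0 : ℝ) < (k : ℝ) := by exact_mod_cast hk.1
    have hDp : Dp u k := by
      apply hR.dp
      calc (k : ℝ) ≤ μ / h := hkm
        _ ≤ 1 / h := by gcongr; linarith
        _ ≤ 1 / h ^ 2 := by
          apply one_div_le_one_div_of_le (by positivity)
          exact pow_le_of_le_one hR.h0.le hR.h1.le two_ne_zero
    obtain ⟨l', x', hx'⟩ := ht.Tm k hk.1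
    have h2 := deep_tail x' u k hDp pc hp0'.le hp1'.le
    have h3 : Ex pc (fun ω => if (k : ℝ) ≤ cz (gends (boxG d l)) ω u then (1 : ℝ) else 0) ≤
        Ex p (fun ω => if (k : ℝ) ≤ cz (gends (boxG d l)) ω u then (1 : ℝ) else 0) := by
      apply Ex_mono_p hp0'.le hR.pa hpp1
      intro ω ω' hω
      have h4 : cz (gends (boxG d l)) ω u ≤ cz (gends (boxG d l)) ω' u := by
        unfold cz cu
        exact_mod_cast Finset.card_le_card (cl_mono hω (subset_refl _))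
      split_ifs with h5 h6 h6
      · exact le_refl _
      · exact absurd (h5.trans h4) h6
      · norm_num
      · exact le_refl _
    have h7 : c * s / Real.sqrt μ ≤ c / Real.sqrt k := by
      have h8 : Real.sqrt k ≤ Real.sqrt μ / s := by
        rw [hs, ← Real.sqrt_div hμ0.le]
        exact Real.sqrt_le_sqrt hkm
      have h9 : 0 < Real.sqrt (k : ℝ) := Real.sqrt_pos.2 hk0
      rw [div_le_div_iff₀ hsμ h9]
      rw [le_div_iff₀ hs0] at h8
      have h10 := mul_le_mul_of_nonneg_left h8 (by positivity : (0 : ℝ) ≤ c)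
      linarith
    linarith
  -- conclusion
  rw [sgF_one]
  have hpt : ∀ ω : (boxG d l).edgeSet → Bool, (1 / 2 : ℝ) * ∑ k ∈ Finset.Icc 1 m,
      ((if (k : ℝ) ≤ cz (gends (boxG d l)) ω u then (1 : ℝ) else 0) -
        (if ((K + 1 : ℕ) : ℝ) ≤ cz (gends (boxG d l)) ω u then (1 : ℝ) else 0)) ≤
      fh h (cu (gends (boxG d l)) ω u).card := fun ω => A5_point h0 h1 hKh _
  have hE := Ex_mono hpp0 hpp1 hpt
  refine le_trans ?_ hE
  rw [Ex_mul_left, Ex_sum]
  have hterm : ∀ k ∈ Finset.Icc 1 m, c * s / (2 * Real.sqrt μ) ≤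
      Ex p (fun ω => (if (k : ℝ) ≤ cz (gends (boxG d l)) ω u then (1 : ℝ) else 0) -
        (if ((K + 1 : ℕ) : ℝ) ≤ cz (gends (boxG d l)) ω u then (1 : ℝ) else 0)) := by
    intro k hk'
    have h2 := hk k hk'
    have h3 : Ex p (fun ω => (if (k : ℝ) ≤ cz (gends (boxG d l)) ω u then (1 : ℝ) else 0) -
        (if ((K + 1 : ℕ) : ℝ) ≤ cz (gends (boxG d l)) ω u then (1 : ℝ) else 0)) =
        Ex p (fun ω => if (k : ℝ) ≤ cz (gends (boxG d l)) ω u then (1 : ℝ) else 0) -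
        Ex p (fun ω => if ((K + 1 : ℕ) : ℝ) ≤ cz (gends (boxG d l)) ω u then (1 : ℝ) else 0) := by
      have h4 := Ex_add p (fun ω => (if (k : ℝ) ≤ cz (gends (boxG d l)) ω u then (1 : ℝ) else 0) -
        (if ((K + 1 : ℕ) : ℝ) ≤ cz (gends (boxG d l)) ω u then (1 : ℝ) else 0))
        (fun ω => if ((K + 1 : ℕ) : ℝ) ≤ cz (gends (boxG d l)) ω u then (1 : ℝ) else 0)
      simp only [sub_add_cancel] at h4
      linarith
    rw [h3]
    have h5 : D * s ≤ c / (2 * Real.sqrt μ) * s := mul_le_mul_of_nonneg_right hDc hs0.le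
    have h6 : c * s / Real.sqrt μ = 2 * (c * s / (2 * Real.sqrt μ)) := by
      field_simp
    have h7 : c / (2 * Real.sqrt μ) * s = c * s / (2 * Real.sqrt μ) := by ring
    rw [h6] at h2
    rw [h7] at h5
    linarith
  have hsum := Finset.card_nsmul_le_sum (Finset.Icc 1 m) _ _ hterm
  rw [Nat.card_Icc, Nat.add_sub_cancel, nsmul_eq_mul] at hsum
  have h10 : c * Real.sqrt μ / 8 / s ≤ 1 / 2 * ((m : ℝ) * (c * s / (2 * Real.sqrt μ))) := by
    have h11 : μ / (2 * h) * (c * s / (2 * Real.sqrt μ)) ≤ (m : ℝ) * (c * s / (2 * Real.sqrt μ)) :=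
      mul_le_mul_of_nonneg_right hmge (by positivity)
    have h12 : μ / (2 * h) * (c * s / (2 * Real.sqrt μ)) = c * Real.sqrt μ / 4 / s := by
      have h13 : Real.sqrt μ * Real.sqrt μ = μ := Real.mul_self_sqrt hμ0.le
      rw [← hs2]
      rw [div_mul_div_comm, div_div, div_eq_div_iff (by positivity) (by positivity)]
      calc μ * (c * s) * (4 * s) = (Real.sqrt μ * Real.sqrt μ) * (c * s) * (4 * s) := by rw [h13]
        _ = c * Real.sqrt μ * (2 * (s * s) * (2 * Real.sqrt μ)) := by ring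
    rw [h12] at h11
    have h14 : c * Real.sqrt μ / 8 / s = 1 / 2 * (c * Real.sqrt μ / 4 / s) := by ring
    rw [h14]
    linarith
  linarith

/-- Row A6. The region: all that is used of it. For `η > 0`, `N` there is `h0` such that in the region with `h ≤ h0`: `p ≤ pc + e`, `p ≤ (1+pc)/2`, `p - pc ≤ η`, `M ≤ η`, `M ≤ C' √h`, `M ≥ c' √h`, `M^2/h ≤ C'`, `1 ≤ η sgF`, `M / h ≤ L sgF`. (`Mh_up`, `Mh_low`, `sg_low`, `p - pc ≤ sqrt(h/δ)`.) -/
lemma rg_num {C c e pc : ℝ} (ht : HT d C c e pc) (δ : ℝ) (hδ : 0 < δ) (hδ1 : δ ≤ 1) : ∃ L : ℝ, 1 ≤ L ∧ ∀ η : ℝ, 0 < η → ∀ N : ℕ, ∃ h0 : ℝ, 0 < h0 ∧ ∀ (l : ℕ) (u : Fin d → Fin l) (p h : ℝ),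
    Rg d pc δ l u p h → h ≤ h0 → (p ≤ pc + e ∧ p ≤ (1 + pc) / 2 ∧ p - pc ≤ η) ∧ h ≤ η ∧ 0 < Mh d p h ∧ Mh d p h ≤ η ∧ h ≤ η * Mh d p h ∧ Mh d p h ^ 2 / h ≤ L ∧
      0 < sgF l u p h ∅ {0} ∧ 1 ≤ η * sgF l u p h ∅ {0} ∧ Mh d p h / h ≤ L * sgF l u p h ∅ {0} ∧ Dp u N := by
  obtain ⟨C', hC1, hup⟩ := Mh_up ht
  obtain ⟨c', hc', hlow⟩ := Mh_low ht
  obtain ⟨c2, h2, hc2, hh2, hsg⟩ := sg_low ht δ hδ hδ1
  have he := ht.e0
  have hpc1 := ht.hp.p1
  have hpe1 := ht.e1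
  obtain ⟨q, hq⟩ : ∃ q, q = Real.sqrt δ := ⟨_, rfl⟩
  have hq0 : 0 < q := by rw [hq]; exact Real.sqrt_pos.2 hδ
  obtain ⟨A, hA⟩ : ∃ A, A = C' * (1 + 1 / q) := ⟨_, rfl⟩
  have hC0 : 0 < C' := by linarith
  have hA0 : 0 < A := by rw [hA]; positivity
  have hAc : 0 < A / c2 := div_pos hA0 hc2
  refine ⟨1 + A ^ 2 + A / c2, by linarith [sq_nonneg A], ?_⟩
  intro η hη N
  have hN : (0 : ℝ) ≤ N := Nat.cast_nonneg N
  obtain ⟨t0, ht0⟩ : ∃ t0, t0 = min (min (e * q) ((1 - pc) / 2 * q)) (min (min (η * q) (η / A)) (min (η * c') (η * c2))) :=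
    ⟨_, rfl⟩
  have ht1 : t0 ≤ e * q := by rw [ht0]; exact (min_le_left _ _).trans (min_le_left _ _)
  have ht2 : t0 ≤ (1 - pc) / 2 * q := by rw [ht0]; exact (min_le_left _ _).trans (min_le_right _ _)
  have ht3 : t0 ≤ η * q := by
    rw [ht0]; exact (min_le_right _ _).trans ((min_le_left _ _).trans (min_le_left _ _))
  have ht4 : t0 ≤ η / A := by
    rw [ht0]; exact (min_le_right _ _).trans ((min_le_left _ _).trans (min_le_right _ _))
  have ht5 : t0 ≤ η * c' := by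
    rw [ht0]; exact (min_le_right _ _).trans ((min_le_right _ _).trans (min_le_left _ _))
  have ht6 : t0 ≤ η * c2 := by
    rw [ht0]; exact (min_le_right _ _).trans ((min_le_right _ _).trans (min_le_right _ _))
  have htp : 0 < t0 := by
    rw [ht0]
    refine lt_min (lt_min (by positivity) (mul_pos (by linarith) hq0))
      (lt_min (lt_min (by positivity) (by positivity)) (lt_min (by positivity) (by positivity)))
  clear ht0
  refine ⟨min (min h2 η) (min (1 / ((N : ℝ) + 1)) (t0 ^ 2)),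
    lt_min (lt_min hh2 hη) (lt_min (by positivity) (by positivity)), ?_⟩
  intro l u p h hR hh0
  have k1 : h ≤ h2 := hh0.trans ((min_le_left _ _).trans (min_le_left _ _))
  have k2 : h ≤ η := hh0.trans ((min_le_left _ _).trans (min_le_right _ _))
  have k3 : h ≤ 1 / ((N : ℝ) + 1) := hh0.trans ((min_le_right _ _).trans (min_le_left _ _))
  have k4 : h ≤ t0 ^ 2 := hh0.trans ((min_le_right _ _).trans (min_le_right _ _))
  have hpos := hR.h0
  have hlt := hR.h1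
  obtain ⟨s, hs⟩ : ∃ s, s = Real.sqrt h := ⟨_, rfl⟩
  have hs0 : 0 < s := by rw [hs]; exact Real.sqrt_pos.2 hpos
  have hss : s * s = h := by rw [hs]; exact Real.mul_self_sqrt hpos.le
  have hst : s ≤ t0 := by rw [hs]; exact Real.sqrt_le_iff.2 ⟨htp.le, k4⟩
  have hpb : p - pc ≤ s / q := by
    have h1 := hR.pb
    rw [Real.sqrt_div hpos.le, ← hs, ← hq] at h1
    linarith
  have hpa := hR.pa
  have g1 : s / q ≤ e := by rw [div_le_iff₀ hq0]; linarith
  have g2 : s / q ≤ (1 - pc) / 2 := by rw [div_le_iff₀ hq0]; linarith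
  have g3 : s / q ≤ η := by rw [div_le_iff₀ hq0]; linarith
  have hpe : p ≤ pc + e := by linarith
  have hp1 : p ≤ 1 := by linarith
  have hM1 : Mh d p h ≤ A * s := by
    have h1 := hup p h hpa hpe hpos hlt
    rw [← hs] at h1
    have h3 : C' * (s + (p - pc)) ≤ C' * (s + s / q) := mul_le_mul_of_nonneg_left (by linarith) hC0.le
    have h4 : C' * (s + s / q) = A * s := by rw [hA]; field_simp
    linarith
  have hM0 : c' * s ≤ Mh d p h := by
    have h1 := hlow p h hpa hp1 hpos hlt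
    rw [← hs] at h1
    exact h1
  have hMp : 0 < Mh d p h := lt_of_lt_of_le (mul_pos hc' hs0) hM0
  have hS : c2 / s ≤ sgF l u p h ∅ {0} := by
    have h1 := hsg l u p h hR k1
    rw [← hs] at h1
    exact h1
  have hS0 : 0 < sgF l u p h ∅ {0} := lt_of_lt_of_le (div_pos hc2 hs0) hS
  generalize sgF l u p h ∅ {0} = S at hS hS0 ⊢
  generalize Mh d p h = M at hM1 hM0 hMp ⊢
  refine ⟨⟨hpe, by linarith, by linarith⟩, k2, hMp, ?_, ?_, ?_, hS0, ?_, ?_, ?_⟩
  · have h1 : A * s ≤ A * (η / A) := mul_le_mul_of_nonneg_left (hst.trans ht4) hA0.le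
    have h3 : A * (η / A) = η := by field_simp
    linarith
  · have h1 : η * (c' * s) ≤ η * M := mul_le_mul_of_nonneg_left hM0 hη.le
    have h3 : s * s ≤ η * c' * s := mul_le_mul_of_nonneg_right (hst.trans ht5) hs0.le
    linarith
  · rw [div_le_iff₀ hpos, ← hss]
    have h1 : M ^ 2 ≤ (A * s) ^ 2 := pow_le_pow_left₀ hMp.le hM1 2
    have h3 : 0 ≤ (1 + A / c2) * (s * s) := by positivity
    linarith
  · have h1 : η * (c2 / s) ≤ η * S := mul_le_mul_of_nonneg_left hS hη.le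
    have h3 : 1 ≤ η * (c2 / s) := by
      rw [← mul_div_assoc, le_div_iff₀ hs0]
      linarith
    linarith
  · rw [div_le_iff₀ hpos, ← hss]
    have h1 : c2 ≤ S * s := by rwa [div_le_iff₀ hs0] at hS
    have h3 : A * s ≤ A / c2 * S * (s * s) := by
      have h4 : A * s = A / c2 * c2 * s := by field_simp
      rw [h4]
      have h5 : A / c2 * c2 * s ≤ A / c2 * (S * s) * s :=
        mul_le_mul_of_nonneg_right (mul_le_mul_of_nonneg_left h1 hAc.le) hs0.le
      linarith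
    have h6 : 0 ≤ (1 + A ^ 2) * S * (s * s) := by positivity
    linarith
  · refine hR.dp N ?_
    rw [le_div_iff₀ (by positivity)]
    have h1 : h * ((N : ℝ) + 1) ≤ 1 := by rwa [le_div_iff₀ (by positivity)] at k3
    have h3 : h ^ 2 ≤ h := pow_le_of_le_one hR.h0.le hR.h1.le two_ne_zero
    have h4 : (N : ℝ) * h ^ 2 ≤ N * h := mul_le_mul_of_nonneg_left h3 hN
    linarith

/-- Row A6. Two-point function near the base point: `ta = tS (Qb u R) + P(x ↔ y, not inside)`; if `y ∈ cu ω x` but not in `cS ω (Qb u R)ᶜ {x}` then `cS ω (Qb u R)ᶜ {x}` meets `Pb u R`: `arm_le` with `R` large (`C/√(R-N) ≤ η/2`), `near_two`, `h0` small. -/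
lemma ta_near {C c e pc : ℝ} (ht : HT d C c e pc) (δ : ℝ) (hδ : 0 < δ) (hδ1 : δ ≤ 1) (η : ℝ) (hη : 0 < η) (N : ℕ) : ∃ h0 : ℝ, 0 < h0 ∧ ∀ (l : ℕ) (u : Fin d → Fin l) (p h : ℝ),
    Rg d pc δ l u p h → h ≤ h0 → ∀ x y, nz (rel u x) ≤ N → nz (rel u y) ≤ N → ta (gends (boxG d l)) p x y ≤ 2 * (C * fk (d - 2) x y) + η := by
  classical
  obtain ⟨b0, hb0, hnt⟩ := near_two ht.hp
  obtain ⟨L, hL1, hL⟩ := rg_num ht δ hδ hδ1
  have hC1 : 1 ≤ C := ht.hp.C1
  have hC0 : 0 < C := by linarith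
  obtain ⟨k, hk⟩ := exists_nat_gt ((2 * C / η) ^ 2)
  have hk0 : (0 : ℝ) < k := lt_of_le_of_lt (sq_nonneg _) hk
  have hkn : 1 ≤ k := by exact_mod_cast hk0
  have hsk : 2 * C / η ≤ Real.sqrt k := by
    rw [Real.le_sqrt (by positivity) (by positivity)]
    exact hk.le
  have hsk0 : 0 < Real.sqrt k := Real.sqrt_pos.mpr hk0
  have hCk : C * (1 / Real.sqrt k) ≤ η / 2 := by
    have h1 : 2 * C ≤ Real.sqrt k * η := by
      rw [div_le_iff₀ hη] at hsk
      exact hsk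
    rw [mul_one_div, div_le_iff₀ hsk0]
    linarith
  set R : ℕ := N + k with hR
  have hη' : 0 < min (η / (2 * C)) (b0 / ((R : ℝ) + 1) ^ 2) := lt_min (by positivity) (by positivity)
  obtain ⟨h0, hh0, hreg⟩ := hL _ hη' N
  refine ⟨h0, hh0, fun l u p h hrg hhh x y hx hy => ?_⟩
  obtain ⟨⟨hpe, hp2, hpη⟩, _⟩ := hreg l u p h hrg hhh
  have hpc : pc ≤ p := hrg.pa
  have hp0 : 0 ≤ p := le_trans ht.hp.p0.le hpc
  have hp1 : p ≤ 1 := by
    have := ht.hp.p1
    linarith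
  have hpa : C * (p - pc) ≤ η / 2 := by
    have h1 : p - pc ≤ η / (2 * C) := hpη.trans (min_le_left _ _)
    rw [le_div_iff₀ (by positivity)] at h1
    linarith
  have hpb : (p - pc) * ((R : ℝ) + 1) ^ 2 ≤ b0 := by
    have h1 : p - pc ≤ b0 / ((R : ℝ) + 1) ^ 2 := hpη.trans (min_le_right _ _)
    rwa [le_div_iff₀ (by positivity)] at h1
  have h2 := hnt l u R p hpc hp2 hpb x y
  have harm := arm_le ht u R N (by omega) (Qb u R)ᶜ x hx p hpc hpe
  have hRN : (R : ℝ) - N = k := by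
    rw [hR]
    push_cast
    ring
  rw [hRN] at harm
  have hxQ : x ∈ Qb u R := by
    show nz (rel u x) ≤ R
    omega
  have hpt : ∀ ω : (boxG d l).edgeSet → Bool,
      (if y ∈ cu (gends (boxG d l)) ω x then (1 : ℝ) else 0) ≤
        (if y ∈ cS (gends (boxG d l)) ω (Qb u R)ᶜ {x} then (1 : ℝ) else 0) +
        (if ∃ y ∈ cS (gends (boxG d l)) ω (Qb u R)ᶜ {x}, y ∈ Pb u R then (1 : ℝ) else 0) := by
    intro ω
    by_cases hP : ∃ y ∈ cS (gends (boxG d l)) ω (Qb u R)ᶜ {x}, y ∈ Pb u R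
    · rw [if_pos hP]
      split_ifs <;> norm_num
    · rw [if_neg hP, add_zero]
      by_cases hyc : y ∈ cu (gends (boxG d l)) ω x
      · have hyS : y ∈ cS (gends (boxG d l)) ω (Qb u R)ᶜ {x} := by
          have hr := mem_cu.1 hyc
          clear hyc h2 hy
          induction hr with
          | refl =>
            exact mem_cS.2 ⟨x, Set.mem_singleton x, fun hn => hn hxQ, Rch.refl x⟩
          | tail _ hbc ih =>
            obtain ⟨_, _, e, ho, he⟩ := hbc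
            refine cS_step ih e he ho ?_
            intro hn
            have hbQ := cS_off ih
            rw [Set.mem_compl_iff, not_not] at hbQ
            exact hP ⟨_, ih, Qb_out u R e _ _ he hbQ hn⟩
        rw [if_pos hyc, if_pos hyS]
      · rw [if_neg hyc]
        split_ifs <;> norm_num
  have hE : ta (gends (boxG d l)) p x y ≤ tS (gends (boxG d l)) (Qb u R) p x y +
      Ex p (fun ω => if ∃ y ∈ cS (gends (boxG d l)) ω (Qb u R)ᶜ {x}, y ∈ Pb u R then (1 : ℝ) else 0) := by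
    unfold ta tS
    rw [← Ex_add]
    exact Ex_mono hp0 hp1 hpt
  have harm' : Ex p (fun ω => if ∃ y ∈ cS (gends (boxG d l)) ω (Qb u R)ᶜ {x}, y ∈ Pb u R then (1 : ℝ) else 0) ≤
      C * (1 / Real.sqrt k + (p - pc)) := by
    convert harm
  have hfin : C * (1 / Real.sqrt k + (p - pc)) ≤ η := by
    rw [mul_add]
    linarith
  linarith

/-- Row A6. `su_ex` in the box: `Q = Qb u R`, `P = Pb u R`, `near_two`, `tt_conv`, `arm_le`, `M ≤ η`. (`K = 4 C^2 Kc`.) -/
lemma su_near {C c e pc : ℝ} (ht : HT d C c e pc) : ∃ K : ℝ, 1 ≤ K ∧ ∀ δ : ℝ, 0 < δ → δ ≤ 1 → ∀ η : ℝ, 0 < η → ∀ N : ℕ, ∃ h0 : ℝ, 0 < h0 ∧ ∀ (l : ℕ) (u : Fin d → Fin l) (p h : ℝ),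
    Rg d pc δ l u p h → h ≤ h0 → ∀ (D : Set (Fin d → Fin l)) (A : Finset (Fin d → Fin l)), (∀ a ∈ A, nz (rel u a) ≤ N) →
    Ex p (fun ω => ∑ a ∈ A, ∑ a' ∈ A.erase a, (if a' ∈ cS (gends (boxG d l)) ω D {a} then gh h (cS (gends (boxG d l)) ω D {a}).card
      else gh h (cS (gends (boxG d l)) ω D {a}).card * gh h (cS (gends (boxG d l)) ω D {a'}).card)) ≤
      Mh d p h * ∑ a ∈ A, ∑ a' ∈ A.erase a, (K * fk (d - 4) a a' + η) := by
  classical
  obtain ⟨Kc, hKc, htt⟩ := tt_conv (d := d) ht.hp.d11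
  obtain ⟨b0, hb0, hnt⟩ := near_two ht.hp
  have hC1 : 1 ≤ C := ht.hp.C1
  have hC0 : 0 < C := by linarith
  refine ⟨4 * C ^ 2 * Kc, ?_, ?_⟩
  · nlinarith [mul_le_mul hC1 hKc (by norm_num) (by linarith), sq_nonneg (C - 1), mul_pos hC0 hC0]
  intro δ hδ hδ1 η hη N
  obtain ⟨R, hNR, hRpi⟩ : ∃ R : ℕ, N < R ∧ C * (1 / Real.sqrt ((R : ℝ) - N)) ≤ η / 8 := by
    obtain ⟨m, hm⟩ := exists_nat_ge ((8 * C / η) ^ 2)
    refine ⟨N + (m + 1), by omega, ?_⟩
    have h1 : ((N + (m + 1) : ℕ) : ℝ) - N = m + 1 := by push_cast; ring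
    rw [h1]
    have h2 : 8 * C / η ≤ Real.sqrt ((m : ℝ) + 1) := by
      apply Real.le_sqrt_of_sq_le
      linarith
    have h3 : 0 < 8 * C / η := by positivity
    have h4 : 1 / Real.sqrt ((m : ℝ) + 1) ≤ 1 / (8 * C / η) := one_div_le_one_div_of_le h3 h2
    calc C * (1 / Real.sqrt ((m : ℝ) + 1)) ≤ C * (1 / (8 * C / η)) :=
          mul_le_mul_of_nonneg_left h4 hC0.le
      _ = η / 8 := by field_simp
  set η1 : ℝ := min (η / 2) (min (η / (8 * C)) (b0 / ((R : ℝ) + 1) ^ 2)) with hη1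
  have hη1p : 0 < η1 := by
    rw [hη1]
    refine lt_min (by positivity) (lt_min (by positivity) (by positivity))
  obtain ⟨L, hL, hrg⟩ := rg_num ht δ hδ hδ1
  obtain ⟨h0, hh0, hreg⟩ := hrg η1 hη1p N
  refine ⟨h0, hh0, ?_⟩
  intro l u p h hR hh D A hA
  obtain ⟨⟨hpe, hp2, hpc⟩, _, hM0, hM1, _⟩ := hreg l u p h hR hh
  have hpcp : pc ≤ p := hR.pa
  have hp0 : 0 ≤ p := le_trans ht.hp.p0.le hpcp
  have hp1 : p ≤ 1 := by linarith [ht.hp.p1]
  have hh01 : 0 ≤ h ∧ h ≤ 1 := ⟨hR.h0.le, hR.h1.le⟩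
  have hMb := Mh_Mb (d := d) l p h hp0 hp1 hh01.1 hh01.2
  have hη1a : η1 ≤ η / 2 := min_le_left _ _
  have hη1b : η1 ≤ η / (8 * C) := le_trans (min_le_right _ _) (min_le_left _ _)
  have hη1c : η1 ≤ b0 / ((R : ℝ) + 1) ^ 2 := le_trans (min_le_right _ _) (min_le_right _ _)
  have hnear : ∀ x y, tS (gends (boxG d l)) (Qb u R) p x y ≤ 2 * (C * fk (d - 2) x y) := by
    apply hnt l u R p hpcp hp2
    have : (p - pc) ≤ b0 / ((R : ℝ) + 1) ^ 2 := le_trans hpc hη1c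
    calc (p - pc) * ((R : ℝ) + 1) ^ 2 ≤ b0 / ((R : ℝ) + 1) ^ 2 * ((R : ℝ) + 1) ^ 2 :=
          mul_le_mul_of_nonneg_right this (by positivity)
      _ = b0 := by field_simp
  have hpi0 : C * (1 / Real.sqrt ((R : ℝ) - N) + (p - pc)) ≤ η / 4 := by
    have h1 : C * (p - pc) ≤ η / 8 := by
      calc C * (p - pc) ≤ C * (η / (8 * C)) :=
            mul_le_mul_of_nonneg_left (le_trans hpc hη1b) hC0.le
        _ = η / 8 := by field_simp
    rw [mul_add]
    linarith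
  have hmain := su_ex (ends := gends (boxG d l)) (M := Mh d p h) (pi0 := η / 4) hp0 hp1 hh01.1 hh01.2 hMb D (Qb u R) (Pb u R) A
    (fun a ha => le_trans (hA a ha) hNR.le)
    (fun e x y he hx hy => Qb_out u R e x y he hx hy)
    (fun a ha => by
      refine le_trans ?_ hpi0
      exact arm_le ht u R N hNR (D ∪ (Qb u R)ᶜ) a (hA a ha) p hpcp hpe)
  refine le_trans hmain ?_
  refine mul_le_mul_of_nonneg_left ?_ hM0.le
  refine Finset.sum_le_sum (fun a _ => Finset.sum_le_sum (fun a' _ => ?_))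
  have h5 := htt C hC0.le l (Qb u R) p hp0 hp1 hnear a a'
  have h6 : Mh d p h ≤ η / 2 := le_trans hM1 hη1a
  linarith

end Pool.Agent.PERC29.DZ
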