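import Pool.Agent.Lib.MP_29e17e_pr.Z.Wi

set_option autoImplicit false
set_option linter.unusedSectionVars false

/-! Rows 29d-L1 .. 29d-L9: the functionals in finite boxes. -/

open Finset

namespace Pool.Agent.PERC29.DZ

open Pool.Agent.PERC29 Pool.Agent.PERC29.AE

variable {d : ℕ}

/-- The base point has distance at least `n` from the boundary of the box. -/
def Dp {l : ℕ} (u : Fin d → Fin l) (n : ℕ) : Prop := ∀ i, n ≤ (u i : ℕ) ∧ (u i : ℕ) + n < l

/-- The magnetisation: supremum over all boxes and vertices. -/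
noncomputable def Mh (d : ℕ) (p h : ℝ) : ℝ := sSup {r | ∃ (l : ℕ) (x : Fin d → Fin l), r = piF l x p h ∅ {0}}

/-- The hypotheses with the tail bounds. -/
structure HT (d : ℕ) (C c e pc : ℝ) : Prop where
  hp : HP d C pc
  c0 : 0 < c
  e0 : 0 < e
  e1 : pc + e < 1
  T : ∀ (l : ℕ) (x : Fin d → Fin l) (p : ℝ) (k : ℕ), pc ≤ p → p ≤ pc + e → 1 ≤ k →
    Ex p (fun ω => if (k : ℝ) ≤ cz (gends (boxG d l)) ω x then (1 : ℝ) else 0) ≤ C * (1 / Real.sqrt k + (p - pc))
  Tm : ∀ k : ℕ, 1 ≤ k → ∃ (l : ℕ) (x : Fin d → Fin l),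
    c / Real.sqrt k ≤ Ex pc (fun ω => if (k : ℝ) ≤ cz (gends (boxG d l)) ω x then (1 : ℝ) else 0)

/-- The region. -/
structure Rg (d : ℕ) (pc δ : ℝ) (l : ℕ) (u : Fin d → Fin l) (p h : ℝ) : Prop where
  h0 : 0 < h
  h1 : h < 1
  pa : pc ≤ p
  pb : p ≤ pc + Real.sqrt (h / δ)
  dp : ∀ n : ℕ, (n : ℝ) ≤ 1 / h ^ 2 → Dp u n

/-! ### Row L1: numbers -/

/-- Row L1a. `0 ≤ h ≤ 1`. -/
lemma gh_nonneg {h : ℝ} (h0 : 0 ≤ h) (h1 : h ≤ 1) (k : ℕ) : 0 ≤ gh h k := by
  unfold gh
  have h2 : (1 - h) ^ k ≤ 1 := pow_le_one₀ (by linarith) (by linarith)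
  linarith

lemma gh_le_one {h : ℝ} (h0 : 0 ≤ h) (h1 : h ≤ 1) (k : ℕ) : gh h k ≤ 1 := by
  unfold gh
  have h2 : 0 ≤ (1 - h) ^ k := pow_nonneg (by linarith) k
  linarith

lemma gh_mono {h : ℝ} (h0 : 0 ≤ h) (h1 : h ≤ 1) {k m : ℕ} (hkm : k ≤ m) : gh h k ≤ gh h m := by
  unfold gh
  have h2 : (1 - h) ^ m ≤ (1 - h) ^ k := pow_le_pow_of_le_one (by linarith) (by linarith) hkm
  linarith

lemma gh_add {h : ℝ} (h0 : 0 ≤ h) (h1 : h ≤ 1) (k m : ℕ) : gh h (k + m) ≤ gh h k + gh h m := by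
  have h2 := gh_nonneg h0 h1 k
  have h3 := gh_nonneg h0 h1 m
  unfold gh at h2 h3 ⊢
  rw [pow_add]
  nlinarith [mul_nonneg h2 h3]

/-- Row L1a. Bernoulli. -/
lemma gh_le {h : ℝ} (h0 : 0 ≤ h) (h1 : h ≤ 1) (k : ℕ) : gh h k ≤ (k : ℝ) * h := by
  unfold gh
  have h2 := one_add_mul_le_pow (show (-2 : ℝ) ≤ -h by linarith) k
  have h3 : (1 : ℝ) + -h = 1 - h := by ring
  rw [h3] at h2
  linarith

lemma fh_nonneg {h : ℝ} (h0 : 0 ≤ h) (h1 : h ≤ 1) (k : ℕ) : 0 ≤ fh h k := by
  unfold fh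
  have h2 : 0 ≤ (1 - h) ^ k := pow_nonneg (by linarith) k
  positivity

/-- Row L1a. `1 - q^k = h ∑_{i<k} q^i ≥ h k q^k`. -/
lemma fh_le {h : ℝ} (h0 : 0 ≤ h) (h1 : h ≤ 1) (k : ℕ) : h * fh h k ≤ gh h k := by
  unfold fh gh
  induction k with
  | zero => simp
  | succ k ih =>
    have h2 : 0 ≤ (1 - h) ^ k := pow_nonneg (by linarith) k
    have h3 : (1 - h) ^ (k + 1) = (1 - h) ^ k - h * (1 - h) ^ k := by rw [pow_succ]; ring
    have h4 : (1 - h) ^ (k + 1) ≤ (1 - h) ^ k := by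
      rw [h3]
      have := mul_nonneg h0 h2
      linarith
    have h5 : 0 ≤ h * ((k : ℝ) + 1) := by positivity
    have h6 := mul_le_mul_of_nonneg_left h4 h5
    push_cast
    linarith

/-- Row L1a. `gh (b+k) = gh b + (1-h)^b gh k`, so the difference is at most `b h`. -/
lemma gh_split {h : ℝ} (h0 : 0 ≤ h) (h1 : h ≤ 1) (b k : ℕ) : |gh h (b + k) - gh h k| ≤ (b : ℝ) * h := by
  have h2 : 0 ≤ (1 - h) ^ k := pow_nonneg (by linarith) k
  have h3 : (1 - h) ^ k ≤ 1 := pow_le_one₀ (by linarith) (by linarith)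
  have h4 := gh_nonneg h0 h1 b
  have h5 := gh_le h0 h1 b
  have h6 : gh h (b + k) - gh h k = (1 - h) ^ k * gh h b := by
    unfold gh
    rw [pow_add]
    ring
  rw [h6, abs_of_nonneg (mul_nonneg h2 h4)]
  calc (1 - h) ^ k * gh h b ≤ 1 * gh h b := mul_le_mul_of_nonneg_right h3 h4
    _ ≤ (b : ℝ) * h := by linarith

/-- Row L1a. `fh (b+k) = q^b fh k + b q^(b+k)` and `(1 - q^b) fh k ≤ b h fh k ≤ b`. -/
lemma fh_split {h : ℝ} (h0 : 0 < h) (h1 : h ≤ 1) (b k : ℕ) : |fh h (b + k) - fh h k| ≤ 2 * (b : ℝ) := by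
  have g0 := fh_nonneg h0.le h1 k
  have h2 := fh_le h0.le h1 k
  have h3 := gh_le_one h0.le h1 k
  have h4 := gh_nonneg h0.le h1 b
  have h5 := gh_le h0.le h1 b
  have h6 : fh h (b + k) - fh h k = (b : ℝ) * (1 - h) ^ (b + k) - fh h k * gh h b := by
    unfold fh gh
    push_cast
    rw [pow_add]
    ring
  have h7 : 0 ≤ (1 - h) ^ (b + k) := pow_nonneg (by linarith) _
  have h8 : (1 - h) ^ (b + k) ≤ 1 := pow_le_one₀ (by linarith) (by linarith)
  have hb : (0 : ℝ) ≤ b := Nat.cast_nonneg _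
  have h9 : (b : ℝ) * (1 - h) ^ (b + k) ≤ b := by nlinarith
  have h10 : 0 ≤ (b : ℝ) * (1 - h) ^ (b + k) := mul_nonneg hb h7
  have h11 : fh h k * gh h b ≤ b := by
    calc fh h k * gh h b ≤ fh h k * ((b : ℝ) * h) := mul_le_mul_of_nonneg_left h5 g0
      _ = (b : ℝ) * (h * fh h k) := by ring
      _ ≤ (b : ℝ) * 1 := mul_le_mul_of_nonneg_left (h2.trans h3) hb
      _ = b := mul_one _
  have h12 : 0 ≤ fh h k * gh h b := mul_nonneg g0 h4
  rw [h6, abs_le]
  constructor <;> linarith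

/-- Row L1a. `fh (x+y) - fh x = y q^(x+y) - x q^x (1 - q^y)`. -/
lemma fh_up {h : ℝ} (h0 : 0 < h) (h1 : h ≤ 1) (x y : ℕ) : fh h (x + y) - fh h x ≤ gh h y / h := by
  have h2 : 0 ≤ fh h x * gh h y := mul_nonneg (fh_nonneg h0.le h1 x) (gh_nonneg h0.le h1 y)
  have h3 : fh h (x + y) - fh h x = (1 - h) ^ x * fh h y - fh h x * gh h y := by
    unfold fh gh
    push_cast
    rw [pow_add]
    ring
  have h4 : (1 - h) ^ x ≤ 1 := pow_le_one₀ (by linarith) (by linarith)
  have h5 := fh_nonneg h0.le h1 y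
  have h6 : (1 - h) ^ x * fh h y ≤ fh h y := by nlinarith
  have h7 : fh h y ≤ gh h y / h := by
    rw [le_div_iff₀ h0, mul_comm]
    exact fh_le h0.le h1 y
  rw [h3]
  linarith

lemma fh_dn {h : ℝ} (h0 : 0 < h) (h1 : h ≤ 1) (x y : ℕ) : -(gh h x * gh h y / h) ≤ fh h (x + y) - fh h x := by
  have h3 : fh h (x + y) - fh h x = (1 - h) ^ x * fh h y - fh h x * gh h y := by
    unfold fh gh
    push_cast
    rw [pow_add]
    ring
  have h4 : 0 ≤ (1 - h) ^ x * fh h y :=
    mul_nonneg (pow_nonneg (by linarith) _) (fh_nonneg h0.le h1 y)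
  have h7 : fh h x ≤ gh h x / h := by
    rw [le_div_iff₀ h0, mul_comm]
    exact fh_le h0.le h1 x
  have h8 := mul_le_mul_of_nonneg_right h7 (gh_nonneg h0.le h1 y)
  have h9 : gh h x / h * gh h y = gh h x * gh h y / h := by ring
  rw [h3]
  linarith

private lemma L1a_gh_sum {ι : Type*} {h : ℝ} (h0 : 0 ≤ h) (h1 : h ≤ 1) (s : Finset ι)
    (k : ι → ℕ) : gh h (∑ i ∈ s, k i) ≤ ∑ i ∈ s, gh h (k i) := by
  classical
  induction s using Finset.induction_on with
  | empty => simp [gh]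
  | insert a s ha ih =>
    rw [Finset.sum_insert ha, Finset.sum_insert ha]
    have := gh_add h0 h1 (k a) (∑ i ∈ s, k i)
    linarith

/-- Row L1a. Sum of sizes: `|fh (∑ k_i) - ∑ fh k_i| ≤ ∑_{i ≠ j} gh k_i gh k_j / h`: `∑ k_i q^(k_i) (1 - q^(rest))`, `k q^k ≤ gh k / h`, `1 - q^(∑ k_j) ≤ ∑ gh k_j`. -/
lemma fh_sum {ι : Type*} [DecidableEq ι] {h : ℝ} (h0 : 0 < h) (h1 : h ≤ 1) (s : Finset ι) (k : ι → ℕ) :
    |fh h (∑ i ∈ s, k i) - ∑ i ∈ s, fh h (k i)| ≤ ∑ i ∈ s, ∑ j ∈ s.erase i, gh h (k i) * gh h (k j) / h := by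
  have key : fh h (∑ i ∈ s, k i) =
      ∑ i ∈ s, fh h (k i) - ∑ i ∈ s, fh h (k i) * gh h (∑ j ∈ s.erase i, k j) := by
    rw [← Finset.sum_sub_distrib]
    unfold fh gh
    push_cast
    rw [Finset.sum_mul]
    refine Finset.sum_congr rfl fun i hi => ?_
    rw [← Finset.add_sum_erase s k hi, pow_add]
    ring
  have h2 : 0 ≤ ∑ i ∈ s, fh h (k i) * gh h (∑ j ∈ s.erase i, k j) :=
    Finset.sum_nonneg fun i _ => mul_nonneg (fh_nonneg h0.le h1 _) (gh_nonneg h0.le h1 _)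
  have h3 : ∑ i ∈ s, fh h (k i) * gh h (∑ j ∈ s.erase i, k j) ≤
      ∑ i ∈ s, ∑ j ∈ s.erase i, gh h (k i) * gh h (k j) / h := by
    refine Finset.sum_le_sum fun i _ => ?_
    have h7 : fh h (k i) ≤ gh h (k i) / h := by
      rw [le_div_iff₀ h0, mul_comm]
      exact fh_le h0.le h1 _
    calc fh h (k i) * gh h (∑ j ∈ s.erase i, k j)
        ≤ gh h (k i) / h * ∑ j ∈ s.erase i, gh h (k j) :=
          mul_le_mul h7 (L1a_gh_sum h0.le h1 _ _) (gh_nonneg h0.le h1 _)
            (div_nonneg (gh_nonneg h0.le h1 _) h0.le)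
      _ = ∑ j ∈ s.erase i, gh h (k i) * gh h (k j) / h := by
          rw [Finset.mul_sum]
          exact Finset.sum_congr rfl fun j _ => by ring
  rw [key, sub_sub_cancel_left, abs_neg, abs_of_nonneg h2]
  exact h3

/-! ### Row L1: the functionals -/

section basic

private lemma L1b_pre_empty {l : ℕ} (u : Fin d → Fin l) : pre u (∅ : Finset (Zd d)) = ∅ := by
  ext x
  simp [pre]

private lemma L1b_pre_one {l : ℕ} (u x : Fin d → Fin l) : pre u {rel u x} = {x} := by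
  ext y
  simp only [pre, Set.mem_ofPred_eq, Finset.mem_singleton, Set.mem_singleton_iff]
  exact ⟨fun hy => rel_inj u hy, fun hy => by rw [hy]⟩

private lemma L1b_pre_zero {l : ℕ} (u : Fin d → Fin l) : pre u {(0 : Zd d)} = {u} := by
  have h0 : rel u u = (0 : Zd d) := by
    funext i
    simp [rel]
  rw [← h0]
  exact L1b_pre_one u u

private lemma L1b_pre_union {l : ℕ} (u : Fin d → Fin l) (A A' : Finset (Zd d)) :
    pre u (A ∪ A') = pre u A ∪ pre u A' := by
  ext x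
  simp [pre]

private lemma L1b_cu {V : Type*} [Fintype V] [DecidableEq V] {E : Type*} [Fintype E] [DecidableEq E]
    (ends : E → Sym2 V) (ω : E → Bool) (u : V) : cS ends ω ∅ {u} = cu ends ω u := by
  ext y
  rw [mem_cS, mem_cu]
  constructor
  · rintro ⟨a, ha, -, h⟩
    rw [Set.mem_singleton_iff] at ha
    rw [ha, Set.compl_empty] at h
    exact h
  · intro h
    refine ⟨u, rfl, Set.notMem_empty u, ?_⟩
    rw [Set.compl_empty]
    exact h

private lemma L1b_sub {V : Type*} [Fintype V] [DecidableEq V] {E : Type*} [Fintype E] [DecidableEq E]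
    (ends : E → Sym2 V) (ω : E → Bool) (D : Set V) (u : V) : cS ends ω D {u} ⊆ cu ends ω u := by
  intro y hy
  rw [mem_cS] at hy
  obtain ⟨a, ha, -, h⟩ := hy
  rw [Set.mem_singleton_iff] at ha
  rw [ha] at h
  rw [mem_cu]
  exact h.mono (fun _ he => he) (Set.subset_univ _)

private lemma L1b_cS_empty {V : Type*} [Fintype V] [DecidableEq V] {E : Type*} [Fintype E]
    [DecidableEq E] (ends : E → Sym2 V) (ω : E → Bool) (D : Set V) : cS ends ω D ∅ = ∅ := by
  rw [Finset.eq_empty_iff_forall_notMem]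
  intro y hy
  rw [mem_cS] at hy
  obtain ⟨a, ha, -⟩ := hy
  exact ha

private lemma L1b_gh0 (h : ℝ) : gh h 0 = 0 := by
  simp [gh]

private lemma L1b_fh0 (h : ℝ) : fh h 0 = 0 := by
  simp [fh]

variable {l : ℕ} (u : Fin d → Fin l) (p h : ℝ)

/-- Row L1b. `pre u {0} = {u}`, `cS ω ∅ {u} = cu ω u`. -/
lemma piF_one : piF l u p h ∅ {0} = Ex p (fun ω => gh h (cu (gends (boxG d l)) ω u).card) := by
  unfold piF piS
  rw [L1b_pre_empty, L1b_pre_zero]
  exact Ex_congr fun ω => by rw [L1b_cu]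

lemma sgF_one : sgF l u p h ∅ {0} = Ex p (fun ω => fh h (cu (gends (boxG d l)) ω u).card) := by
  unfold sgF sgS
  rw [L1b_pre_empty, L1b_pre_zero]
  exact Ex_congr fun ω => by rw [L1b_cu]

lemma piF_nonneg (hp0 : 0 ≤ p) (hp1 : p ≤ 1) (h0 : 0 ≤ h) (h1 : h ≤ 1) (D A : Finset (Zd d)) : 0 ≤ piF l u p h D A := by
  unfold piF piS
  exact Ex_nonneg hp0 hp1 fun ω => gh_nonneg h0 h1 _

lemma sgF_nonneg (hp0 : 0 ≤ p) (hp1 : p ≤ 1) (h0 : 0 ≤ h) (h1 : h ≤ 1) (D A : Finset (Zd d)) : 0 ≤ sgF l u p h D A := by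
  unfold sgF sgS
  exact Ex_nonneg hp0 hp1 fun ω => fh_nonneg h0 h1 _

/-- Row L1b. The set in the definition of `Mh` is bounded by one. -/
lemma Mh_ub (hp0 : 0 ≤ p) (hp1 : p ≤ 1) (h0 : 0 ≤ h) (h1 : h ≤ 1) : piF l u p h ∅ {0} ≤ Mh d p h := by
  refine le_csSup ⟨1, ?_⟩ ⟨l, u, rfl⟩
  rintro r ⟨l', x, rfl⟩
  unfold piF piS
  have h2 := Ex_mono hp0 hp1 (g := fun _ => (1 : ℝ))
    (f := fun ω => gh h (cS (gends (boxG d l')) ω (pre x ∅) (pre x {0})).card)
    (fun ω => gh_le_one h0 h1 _)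
  rwa [Ex_const] at h2

/-- Row L1b. `piF D {v}`: if `v` is not the relative position of a vertex, or `v ∈ D`, it is zero; otherwise `cS ω D {x} ⊆ cu ω x`, `gh_mono`, `Mh_ub`. -/
lemma piF_single (hp0 : 0 ≤ p) (hp1 : p ≤ 1) (h0 : 0 ≤ h) (h1 : h ≤ 1) (D : Finset (Zd d)) (v : Zd d) : piF l u p h D {v} ≤ Mh d p h := by
  by_cases hv : ∃ x, rel u x = v
  · obtain ⟨x, rfl⟩ := hv
    refine le_trans ?_ (Mh_ub x p h hp0 hp1 h0 h1)
    rw [piF_one]
    unfold piF piS
    rw [L1b_pre_one]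
    exact Ex_mono hp0 hp1 fun ω => gh_mono h0 h1 (Finset.card_le_card (L1b_sub _ ω _ x))
  · have he : pre u {v} = ∅ := by
      rw [Set.eq_empty_iff_forall_notMem]
      intro x hx
      simp only [pre, Set.mem_ofPred_eq, Finset.mem_singleton] at hx
      exact hv ⟨x, hx⟩
    have h2 : piF l u p h D {v} = 0 := by
      unfold piF piS
      rw [he]
      exact Ex_zero_of fun ω => by rw [L1b_cS_empty, Finset.card_empty, L1b_gh0]
    rw [h2]
    exact le_trans (piF_nonneg u p h hp0 hp1 h0 h1 ∅ {0}) (Mh_ub u p h hp0 hp1 h0 h1)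

lemma piF_empty (D : Finset (Zd d)) : piF l u p h D ∅ = 0 := by
  unfold piF piS
  rw [L1b_pre_empty]
  exact Ex_zero_of fun ω => by rw [L1b_cS_empty, Finset.card_empty, L1b_gh0]

lemma sgF_empty (D : Finset (Zd d)) : sgF l u p h D ∅ = 0 := by
  unfold sgF sgS
  rw [L1b_pre_empty]
  exact Ex_zero_of fun ω => by rw [L1b_cS_empty, Finset.card_empty, L1b_fh0]

/-- Row L1b. `cS_mono`, `gh_mono`. -/
lemma piF_lo0 (hp0 : 0 ≤ p) (hp1 : p ≤ 1) (h0 : 0 ≤ h) (h1 : h ≤ 1) (D D' A : Finset (Zd d)) : piF l u p h (D ∪ D') A ≤ piF l u p h D A := by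
  unfold piF piS
  refine Ex_mono hp0 hp1 fun ω => gh_mono h0 h1 (Finset.card_le_card ?_)
  refine cS_mono (fun _ he => he) ?_ (subset_refl _)
  rw [L1b_pre_union]
  exact Set.subset_union_left

lemma piF_mo (hp0 : 0 ≤ p) (hp1 : p ≤ 1) (h0 : 0 ≤ h) (h1 : h ≤ 1) (D A A' : Finset (Zd d)) : piF l u p h D A ≤ piF l u p h D (A ∪ A') := by
  unfold piF piS
  refine Ex_mono hp0 hp1 fun ω => gh_mono h0 h1 (Finset.card_le_card ?_)
  refine cS_mono (fun _ he => he) (subset_refl _) ?_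
  rw [L1b_pre_union]
  exact Set.subset_union_left

private lemma L1b_two (hp0 : 0 ≤ p) (hp1 : p ≤ 1) (h0 : 0 ≤ h) (h1 : h ≤ 1) (D A A' : Finset (Zd d)) :
    piF l u p h D (A ∪ A') ≤ piF l u p h D A + piF l u p h D A' := by
  unfold piF piS
  rw [← Ex_add]
  refine Ex_mono hp0 hp1 fun ω => ?_
  rw [L1b_pre_union, cS_union]
  exact le_trans (gh_mono h0 h1 (Finset.card_union_le _ _)) (gh_add h0 h1 _ _)

/-- Row L1b. `cS_union`, `gh_add` (`gh` of a union is at most the sum; induction on `A'`). -/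
lemma piF_sb (hp0 : 0 ≤ p) (hp1 : p ≤ 1) (h0 : 0 ≤ h) (h1 : h ≤ 1) (D A A' : Finset (Zd d)) :
    piF l u p h D (A ∪ A') ≤ piF l u p h D A + ∑ a ∈ A', piF l u p h D {a} := by
  induction A' using Finset.induction_on with
  | empty => simp
  | insert a s ha ih =>
    rw [Finset.sum_insert ha]
    have he : A ∪ insert a s = (A ∪ s) ∪ {a} := by
      ext x
      simp only [Finset.mem_union, Finset.mem_insert, Finset.mem_singleton]
      tauto
    rw [he]
    have h2 := L1b_two u p h hp0 hp1 h0 h1 D (A ∪ s) {a}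
    linarith

/-- Row L1b. `fh_le`. -/
lemma sg_pi (hp0 : 0 ≤ p) (hp1 : p ≤ 1) (h0 : 0 < h) (h1 : h ≤ 1) (D A : Finset (Zd d)) : sgF l u p h D A ≤ piF l u p h D A / h := by
  rw [le_div_iff₀ h0, mul_comm]
  unfold sgF sgS piF piS
  rw [← Ex_mul_left]
  exact Ex_mono hp0 hp1 fun ω => fh_le h0.le h1 _

end basic

/-! ### Row L2: the window inside the box -/

/-- Row L2a. `box_box` with `z i = u i - (R+1)`. -/
lemma win_emb {l : ℕ} (u : Fin d → Fin l) (R : ℕ) (hu : Dp u (R + 1)) : ∃ φ : boxG d (2 * R + 3) ↪g boxG d l,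
    (∀ x, rel u (φ x) = rel (cR d R) x) ∧ ∀ y : Fin d → Fin l, nz (rel u y) ≤ R + 1 → ∃ x, φ x = y := by
  obtain ⟨φ, hφ⟩ := box_box (d := d) (l := 2 * R + 3) (n := l) (fun i => (u i : ℕ) - (R + 1)) (by
    intro i
    have := hu i
    omega)
  refine ⟨φ, ?_, ?_⟩
  · intro x
    funext i
    have h1 := hu i
    have h2 := hφ x i
    simp only [rel, cR, h2]
    push_cast
    omega
  · intro y hy
    have h : ∀ i, (rel u y i).natAbs ≤ R + 1 := by
      intro i
      exact le_trans (Finset.le_sup (f := fun i => (rel u y i).natAbs) (Finset.mem_univ i)) hy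
    refine ⟨fun i => ⟨(y i : ℕ) - ((u i : ℕ) - (R + 1)), ?_⟩, ?_⟩
    · have h1 := h i
      have h2 := hu i
      simp only [rel] at h1
      omega
    · funext i
      apply Fin.ext
      rw [hφ]
      have h1 := h i
      have h2 := hu i
      simp only [rel] at h1
      dsimp only
      omega

section L2a

variable {V V' : Type} {G : SimpleGraph V} {G' : SimpleGraph V'}

private lemma L2a_step (φ : G ↪g G') (ω : G'.edgeSet → Bool) (S : Set V) (a b : V) :
    Step (gends G') ω (φ '' S) (φ a) (φ b) ↔ Step (gends G) (pul φ ω) S a b := by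
  constructor
  · rintro ⟨ha, hb, e, he, hend⟩
    obtain ⟨a', ha', haa⟩ := ha
    obtain ⟨b', hb', hbb⟩ := hb
    have h1 : a' = a := φ.injective haa
    have h2 : b' = b := φ.injective hbb
    subst h1 h2
    have h3 : s(φ a', φ b') ∈ G'.edgeSet := hend ▸ e.2
    have h4 : G.Adj a' b' := φ.map_rel_iff.1 (show G'.Adj (φ a') (φ b') from h3)
    refine ⟨ha', hb', ⟨s(a', b'), h4⟩, ?_, rfl⟩
    have h5 : φ.mapEdgeSet ⟨s(a', b'), h4⟩ = e := by
      apply Subtype.ext
      exact hend.symm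
    unfold pul
    rw [h5]
    exact he
  · rintro ⟨ha, hb, e, he, hend⟩
    refine ⟨⟨a, ha, rfl⟩, ⟨b, hb, rfl⟩, φ.mapEdgeSet e, he, ?_⟩
    change Sym2.map φ (e : Sym2 V) = s(φ a, φ b)
    rw [show (e : Sym2 V) = s(a, b) from hend]
    rfl

private lemma L2a_rch (φ : G ↪g G') (ω : G'.edgeSet → Bool) (S : Set V) (x : V) {y' : V'} :
    Rch (gends G') ω (φ '' S) (φ x) y' ↔ ∃ y, φ y = y' ∧ Rch (gends G) (pul φ ω) S x y := by
  constructor
  · intro h
    induction h with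
    | refl => exact ⟨x, rfl, Rch.refl x⟩
    | tail _ hbc ih =>
      obtain ⟨y, hy, hr⟩ := ih
      obtain ⟨z, hz, hzz⟩ := hbc.2.1
      subst hy
      subst hzz
      exact ⟨z, rfl, hr.tail ((L2a_step φ ω S y z).1 hbc)⟩
  · rintro ⟨y, rfl, h⟩
    induction h with
    | refl => exact Rch.refl _
    | tail _ hbc ih => exact Relation.ReflTransGen.tail ih ((L2a_step φ ω S _ _).2 hbc)

private lemma L2a_edge (φ : G ↪g G') (e : G'.edgeSet) (a b : V) (he : gends G' e = s(φ a, φ b)) :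
    ∃ e0 : G.edgeSet, φ.mapEdgeSet e0 = e ∧ gends G e0 = s(a, b) := by
  have h3 : s(φ a, φ b) ∈ G'.edgeSet := he ▸ e.2
  have h4 : G.Adj a b := φ.map_rel_iff.1 (show G'.Adj (φ a) (φ b) from h3)
  refine ⟨⟨s(a, b), h4⟩, ?_, rfl⟩
  apply Subtype.ext
  exact he.symm

end L2a

private lemma L2a_BB {l : ℕ} (u : Fin d → Fin l) (R : ℕ) (φ : boxG d (2 * R + 3) ↪g boxG d l)
    (h1 : ∀ x, rel u (φ x) = rel (cR d R) x) (h2 : ∀ y : Fin d → Fin l, nz (rel u y) ≤ R + 1 → ∃ x, φ x = y)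
    (D A : Finset (Zd d)) (ω : (boxG d l).edgeSet → Bool) (y : Fin d → Fin l) :
    y ∈ BB u R D A ω ↔ ∃ x, φ x = y ∧ x ∈ BB (cR d R) R D A (pul φ ω) := by
  have hS : (pre u D ∪ {x | rel u x ∉ (bz R : Finset (Zd d))})ᶜ =
      φ '' ((pre (cR d R) D ∪ {x | rel (cR d R) x ∉ (bz R : Finset (Zd d))})ᶜ) := by
    ext z
    simp only [Set.mem_compl_iff, Set.mem_union, pre, Set.mem_ofPred_eq, Set.mem_image, not_or, not_not]
    constructor
    · rintro ⟨ha, hb⟩
      obtain ⟨x, rfl⟩ := h2 z (((mem_bz R _).1 hb).trans (Nat.le_succ R))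
      rw [h1] at ha hb
      exact ⟨x, ⟨ha, hb⟩, rfl⟩
    · rintro ⟨x, ⟨ha, hb⟩, rfl⟩
      rw [h1]
      exact ⟨ha, hb⟩
  unfold BB
  rw [mem_cS, hS]
  constructor
  · rintro ⟨a, ha, haD, hr⟩
    have haS : a ∈ (pre u D ∪ {x | rel u x ∉ (bz R : Finset (Zd d))})ᶜ := haD
    rw [hS] at haS
    obtain ⟨a0, ha0, rfl⟩ := haS
    obtain ⟨x, hx, hr'⟩ := (L2a_rch φ ω _ a0).1 hr
    refine ⟨x, hx, mem_cS.2 ⟨a0, ?_, ha0, hr'⟩⟩
    change rel (cR d R) a0 ∈ A
    rw [← h1]
    exact ha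
  · rintro ⟨x, rfl, hx⟩
    obtain ⟨a0, ha0, ha0D, hr⟩ := mem_cS.1 hx
    refine ⟨φ a0, ?_, ?_, (L2a_rch φ ω _ a0).2 ⟨x, rfl, hr⟩⟩
    · change rel u (φ a0) ∈ A
      rw [h1]
      exact ha0
    · have h3 : φ a0 ∈ φ '' ((pre (cR d R) D ∪ {x | rel (cR d R) x ∉ (bz R : Finset (Zd d))})ᶜ) :=
        ⟨a0, ha0D, rfl⟩
      rw [← hS] at h3
      exact h3

private lemma L2a_NB {l : ℕ} (u : Fin d → Fin l) (R : ℕ) (φ : boxG d (2 * R + 3) ↪g boxG d l)
    (h1 : ∀ x, rel u (φ x) = rel (cR d R) x) (h2 : ∀ y : Fin d → Fin l, nz (rel u y) ≤ R + 1 → ∃ x, φ x = y)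
    (D A : Finset (Zd d)) (ω η : (boxG d l).edgeSet → Bool) (y : Fin d → Fin l) :
    y ∈ NB u R D A ω η ↔ ∃ x, φ x = y ∧ x ∈ NB (cR d R) R D A (pul φ ω) (pul φ η) := by
  have hBB := L2a_BB u R φ h1 h2 D A ω
  have hB' : ∀ x, φ x ∈ BB u R D A ω ↔ x ∈ BB (cR d R) R D A (pul φ ω) := by
    intro x
    rw [hBB]
    constructor
    · rintro ⟨x', hx', h⟩
      rw [← φ.injective hx']
      exact h
    · intro h
      exact ⟨x, rfl, h⟩
  have hD' : ∀ x, φ x ∈ pre u D ↔ x ∈ pre (cR d R) D := by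
    intro x
    change rel u (φ x) ∈ D ↔ rel (cR d R) x ∈ D
    rw [h1]
  unfold NB
  simp only [Finset.mem_filter, Finset.mem_univ, true_and]
  constructor
  · rintro ⟨hyD, hyB, a, ha, e, he, ho⟩
    obtain ⟨a0, rfl, ha0⟩ := (hBB a).1 ha
    have hn : nz (rel u (φ a0)) ≤ R := by
      rw [← mem_bz, h1]
      exact Bz_ball (cR d R) R D A (pul φ ω) (Finset.mem_image_of_mem _ ha0)
    have hadj : (boxG d l).Adj (φ a0) y := by
      have h3 : s(φ a0, y) ∈ (boxG d l).edgeSet := he ▸ e.2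
      exact h3
    have hy : nz (rel u y) ≤ R + 1 := by
      have h4 := adj_nz u _ _ hadj
      have h5 := nz_tri (rel u y) (rel u (φ a0)) 0
      rw [sub_zero, sub_zero, nz_sub (rel u y), h4] at h5
      omega
    obtain ⟨x, rfl⟩ := h2 y hy
    obtain ⟨e0, he0, he0'⟩ := L2a_edge φ e a0 x he
    refine ⟨x, rfl, fun h => hyD ((hD' x).2 h), fun h => hyB ((hB' x).2 h), a0, ha0, e0, he0', ?_⟩
    unfold pul
    rw [he0, ← h1]
    exact ho
  · rintro ⟨x, rfl, hxD, hxB, a0, ha0, e0, he0, ho⟩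
    refine ⟨fun h => hxD ((hD' x).1 h), fun h => hxB ((hB' x).1 h), φ a0, (hB' a0).2 ha0,
      φ.mapEdgeSet e0, ?_, ?_⟩
    · change Sym2.map φ (e0 : Sym2 _) = s(φ a0, φ x)
      rw [show (e0 : Sym2 _) = s(a0, x) from he0]
      rfl
    · rw [h1]
      exact ho

/-- Row L2a. The cluster inside the ball only uses edges inside the ball, which are images of edges of the window (`B3_rch` is private in V/Bx: prove the small induction again, or use
`cl_emb` for every starting point: `cS ω D A` is the union of the sets `cl ω Dᶜ a`). -/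
lemma Bz_emb {l : ℕ} (u : Fin d → Fin l) (R : ℕ) (φ : boxG d (2 * R + 3) ↪g boxG d l)
    (h1 : ∀ x, rel u (φ x) = rel (cR d R) x) (h2 : ∀ y : Fin d → Fin l, nz (rel u y) ≤ R + 1 → ∃ x, φ x = y)
    (D A : Finset (Zd d)) (ω : (boxG d l).edgeSet → Bool) : Bz u R D A ω = Wb R D A (pul φ ω) := by
  ext v
  unfold Wb Bz
  simp only [Finset.mem_image]
  constructor
  · rintro ⟨y, hy, rfl⟩
    obtain ⟨x, rfl, hx⟩ := (L2a_BB u R φ h1 h2 D A ω y).1 hy
    exact ⟨x, hx, (h1 x).symm⟩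
  · rintro ⟨x, hx, rfl⟩
    exact ⟨φ x, (L2a_BB u R φ h1 h2 D A ω (φ x)).2 ⟨x, rfl, hx⟩, h1 x⟩

lemma Nz_emb {l : ℕ} (u : Fin d → Fin l) (R : ℕ) (φ : boxG d (2 * R + 3) ↪g boxG d l)
    (h1 : ∀ x, rel u (φ x) = rel (cR d R) x) (h2 : ∀ y : Fin d → Fin l, nz (rel u y) ≤ R + 1 → ∃ x, φ x = y)
    (D A : Finset (Zd d)) (ω η : (boxG d l).edgeSet → Bool) : Nz u R D A ω η = Wn R D A (pul φ ω) (pul φ η) := by
  ext v
  unfold Wn Nz
  simp only [Finset.mem_image]
  constructor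
  · rintro ⟨y, hy, rfl⟩
    obtain ⟨x, rfl, hx⟩ := (L2a_NB u R φ h1 h2 D A ω η y).1 hy
    exact ⟨x, hx, (h1 x).symm⟩
  · rintro ⟨x, hx, rfl⟩
    exact ⟨φ x, (L2a_NB u R φ h1 h2 D A ω η (φ x)).2 ⟨x, rfl, hx⟩, h1 x⟩

/-- Row L2b. Transfer of expectations: `win_emb`, `Bz_emb`, `Nz_emb`, `Ex_pul` twice. -/
lemma win_ex {l : ℕ} (u : Fin d → Fin l) (R : ℕ) (hu : Dp u (R + 1)) (p1 s : ℝ) (D A : Finset (Zd d))
    (G : Finset (Zd d) → Finset (Zd d) → ℝ) :
    Ex p1 (fun ω : (boxG d l).edgeSet → Bool => Ex s (fun η : (boxG d l).edgeSet → Bool => G (Bz u R D A ω) (Nz u R D A ω η))) =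
      Ex p1 (fun ω : Om d R => Ex s (fun η : Om d R => G (Wb R D A ω) (Wn R D A ω η))) := by
  classical
  obtain ⟨φ, hφ1, hφ2⟩ := win_emb u R hu
  have e1 : ∀ ω : (boxG d l).edgeSet → Bool,
      Ex s (fun η : (boxG d l).edgeSet → Bool => G (Bz u R D A ω) (Nz u R D A ω η)) =
      Ex s (fun η : Om d R => G (Wb R D A (pul φ ω)) (Wn R D A (pul φ ω) η)) := by
    intro ω
    rw [← Ex_pul φ s (fun η : Om d R => G (Wb R D A (pul φ ω)) (Wn R D A (pul φ ω) η))]
    refine Ex_congr fun η => ?_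
    rw [Bz_emb u R φ hφ1 hφ2 D A ω, Nz_emb u R φ hφ1 hφ2 D A ω η]
  rw [Ex_congr e1]
  exact Ex_pul φ p1 (fun ω : Om d R => Ex s (fun η : Om d R => G (Wb R D A ω) (Wn R D A ω η)))

/-! ### Row L3: exploration -/

section L3gen

variable {V : Type*} [Fintype V] [DecidableEq V] {E : Type*} [Fintype E] [DecidableEq E]
  {ends : E → Sym2 V}

private lemma L3_gen {α : Type*} [Fintype α] [DecidableEq α] (p1 s : ℝ)
    (X : (E → Bool) → (E → Bool) → α) (K : α → Set E)
    (hX : ∀ ω ω' η η' : E → Bool, (∀ e ∈ K (X ω η), ω e = ω' e) → (∀ e ∈ K (X ω η), η e = η' e) →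
      X ω' η' = X ω η)
    (Fn : α → (E → Bool) → ℝ)
    (hF : ∀ a, ∀ ω ω' : E → Bool, (∀ e, e ∉ K a → ω e = ω' e) → Fn a ω = Fn a ω') :
    Ex p1 (fun ω => Ex s (fun η => Fn (X ω η) (orc ω η))) =
      Ex p1 (fun ω => Ex s (fun η => Ex (1 - (1 - p1) * (1 - s)) (fun ζ => Fn (X ω η) ζ))) := by
  have hdec : ∀ ω η : E → Bool, Fn (X ω η) (orc ω η) =
      ∑ a : α, (if X ω η = a then (1 : ℝ) else 0) * Fn a (orc ω η) := by
    intro ω η
    rw [Finset.sum_eq_single (X ω η)]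
    · rw [if_pos rfl, one_mul]
    · intro a _ ha
      rw [if_neg (Ne.symm ha), zero_mul]
    · intro hh
      exact absurd (Finset.mem_univ _) hh
  have hdec2 : ∀ ω η : E → Bool, Ex (1 - (1 - p1) * (1 - s)) (fun ζ => Fn (X ω η) ζ) =
      ∑ a : α, Ex (1 - (1 - p1) * (1 - s)) (fun ζ => Fn a ζ) * (if X ω η = a then (1 : ℝ) else 0) := by
    intro ω η
    rw [Finset.sum_eq_single (X ω η)]
    · rw [if_pos rfl, mul_one]
    · intro a _ ha
      rw [if_neg (Ne.symm ha), mul_zero]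
    · intro hh
      exact absurd (Finset.mem_univ _) hh
  have e1 : ∀ ω : E → Bool, Ex s (fun η => Fn (X ω η) (orc ω η)) =
      ∑ a : α, Ex s (fun η => (if X ω η = a then (1 : ℝ) else 0) * Fn a (orc ω η)) := by
    intro ω
    rw [Ex_congr (hdec ω), Ex_sum]
  have e2 : ∀ ω : E → Bool, Ex s (fun η => Ex (1 - (1 - p1) * (1 - s)) (fun ζ => Fn (X ω η) ζ)) =
      ∑ a : α, Ex (1 - (1 - p1) * (1 - s)) (fun ζ => Fn a ζ) *
        Ex s (fun η => if X ω η = a then (1 : ℝ) else 0) := by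
    intro ω
    rw [Ex_congr (hdec2 ω), Ex_sum]
    exact Finset.sum_congr rfl fun a _ => Ex_mul_left _ _ _
  rw [Ex_congr e1, Ex_sum, Ex_congr e2, Ex_sum]
  refine Finset.sum_congr rfl fun a _ => ?_
  rw [Ex_mul_left, E2_indep p1 s (K a) (fun ω η => if X ω η = a then (1 : ℝ) else 0)
    (fun ω η => Fn a (orc ω η)), mul_comm, ← Ex_orc]
  · intro ω ω' η η' h1 h2
    have key : ∀ ω ω' η η' : E → Bool, (∀ e ∈ K a, ω e = ω' e) → (∀ e ∈ K a, η e = η' e) →
        X ω η = a → X ω' η' = a := by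
      intro ω ω' η η' h1 h2 hA
      rw [← hA]
      exact hX ω ω' η η' (by rw [hA]; exact h1) (by rw [hA]; exact h2)
    by_cases hc : X ω η = a
    · rw [if_pos hc, if_pos (key ω ω' η η' h1 h2 hc)]
    · rw [if_neg hc, if_neg]
      intro hc'
      exact hc (key ω' ω η' η (fun e he => (h1 e he).symm) (fun e he => (h2 e he).symm) hc')
  · intro ω ω' η η' h1 h2
    apply hF
    intro e he
    unfold orc
    rw [h1 e he, h2 e he]

open scoped Classical in
/-- The next vertices in a general graph. -/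
private noncomputable def L3_N (ends : E → Sym2 V) (D O : Set V) (B : Finset V) (ω η : E → Bool) : Finset V :=
  Finset.univ.filter (fun v => v ∉ D ∧ v ∉ B ∧ ∃ a ∈ B, ∃ e,
    ends e = s(a, v) ∧ (if v ∉ O then η e = true else (ω e = true ∨ η e = true)))

open scoped Classical in
private lemma L3_memN (D O : Set V) (B : Finset V) (ω η : E → Bool) (v : V) :
    v ∈ L3_N ends D O B ω η ↔ (v ∉ D ∧ v ∉ B ∧ ∃ a ∈ B, ∃ e,
    ends e = s(a, v) ∧ (if v ∉ O then η e = true else (ω e = true ∨ η e = true))) := by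
  unfold L3_N
  simp only [Finset.mem_filter, Finset.mem_univ, true_and]

private lemma L3_split (D O A : Set V) (hA : ∀ a ∈ A, a ∉ O) (ω η : E → Bool) :
    (cS ends (orc ω η) D A).card = (cS ends ω (D ∪ O) A).card +
      (cS ends (orc ω η) (D ∪ (cS ends ω (D ∪ O) A : Set V))
        (L3_N ends D O (cS ends ω (D ∪ O) A) ω η : Set V)).card := by
  classical
  have hB : cS ends ω (D ∪ O) A ⊆ cS ends (orc ω η) D A := by
    apply cS_mono _ Set.subset_union_left (Set.Subset.refl _)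
    intro e he
    unfold orc
    rw [he, Bool.true_or]
  have hopen : ∀ e, orc ω η e = true ↔ (ω e = true ∨ η e = true) := by
    intro e
    unfold orc
    rw [Bool.or_eq_true]
  have h := cS_split (ends := ends) (ω := orc ω η) (D := D) (A := A)
    (N := (L3_N ends D O (cS ends ω (D ∪ O) A) ω η : Set V)) (B := cS ends ω (D ∪ O) A)
    (by
      intro a ha haD
      rw [mem_cS]
      refine ⟨a, ha, ?_, Rch.refl a⟩
      rintro (h | h)
      · exact haD h
      · exact hA a ha h)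
    hB
    (by
      intro a ha v e he ho hvD hvB
      have ho' := (hopen e).1 ho
      unfold L3_N
      rw [Finset.mem_coe, Finset.mem_filter]
      refine ⟨Finset.mem_univ _, hvD, hvB, a, ha, e, he, ?_⟩
      by_cases hvO : v ∈ O
      · rw [if_neg (not_not.2 hvO)]
        exact ho'
      · rw [if_pos hvO]
        rcases ho' with h1 | h1
        · exfalso
          apply hvB
          refine cS_step ha e he h1 ?_
          rintro (h | h)
          · exact hvD h
          · exact hvO h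
        · exact h1)
    (by
      intro v hv
      unfold L3_N at hv
      rw [Finset.mem_coe, Finset.mem_filter] at hv
      obtain ⟨-, hvD, hvB, a, ha, e, he, ho⟩ := hv
      refine cS_step (hB ha) e he ((hopen e).2 ?_) hvD
      by_cases hvO : v ∈ O
      · rw [if_neg (not_not.2 hvO)] at ho
        exact ho
      · rw [if_pos hvO] at ho
        exact Or.inr ho)
    (by
      intro v hv
      unfold L3_N at hv
      rw [Finset.mem_coe, Finset.mem_filter] at hv
      exact ⟨hv.2.1, hv.2.2.1⟩)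
  obtain ⟨h1, h2⟩ := h
  conv_lhs => rw [h1]
  exact Finset.card_union_of_disjoint h2

private lemma L3_expl (D O A : Set V) (hA : ∀ a ∈ A, a ∉ O) (p1 s : ℝ) (F : ℕ → ℝ) :
    Ex (1 - (1 - p1) * (1 - s)) (fun ω => F (cS ends ω D A).card) =
      Ex p1 (fun ω => Ex s (fun η => Ex (1 - (1 - p1) * (1 - s)) (fun ζ =>
        F ((cS ends ω (D ∪ O) A).card + (cS ends ζ (D ∪ (cS ends ω (D ∪ O) A : Set V))
          (L3_N ends D O (cS ends ω (D ∪ O) A) ω η : Set V)).card)))) := by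
  classical
  rw [Ex_orc]
  have h := L3_gen (E := E) p1 s
    (fun ω η => ((cS ends ω (D ∪ O) A, L3_N ends D O (cS ends ω (D ∪ O) A) ω η) : Finset V × Finset V))
    (fun a => {e | ∃ v ∈ a.1, v ∈ ends e})
    (by
      intro ω ω' η η' h1 h2
      have hb : cS ends ω' (D ∪ O) A = cS ends ω (D ∪ O) A := by
        apply cS_dep
        intro e a b he ha _
        exact h1 e ⟨a, ha, by rw [he]; exact Sym2.mem_mk_left a b⟩
      have hn : L3_N ends D O (cS ends ω (D ∪ O) A) ω' η' = L3_N ends D O (cS ends ω (D ∪ O) A) ω η := by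
        unfold L3_N
        apply Finset.filter_congr
        intro v _
        apply and_congr_right
        intro _
        apply and_congr_right
        intro _
        apply exists_congr
        intro a
        apply and_congr_right
        intro ha
        apply exists_congr
        intro e
        apply and_congr_right
        intro he
        have hK : ∃ v ∈ cS ends ω (D ∪ O) A, v ∈ ends e := ⟨a, ha, by rw [he]; exact Sym2.mem_mk_left a v⟩
        rw [h1 e hK, h2 e hK]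
      change (cS ends ω' (D ∪ O) A, L3_N ends D O (cS ends ω' (D ∪ O) A) ω' η') = _
      rw [hb, hn])
    (fun a ζ => F (a.1.card + (cS ends ζ (D ∪ (a.1 : Set V)) (a.2 : Set V)).card))
    (by
      intro a ω ω' h1
      have hc : cS ends ω' (D ∪ (a.1 : Set V)) (a.2 : Set V) = cS ends ω (D ∪ (a.1 : Set V)) (a.2 : Set V) := by
        apply cS_dep
        intro e x y he hx hy
        apply h1
        rintro ⟨v, hv, hve⟩
        rw [he, Sym2.mem_iff] at hve
        rcases hve with rfl | rfl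
        · exact cS_off hx (Or.inr hv)
        · exact hy (Or.inr hv)
      change F (a.1.card + (cS ends ω (D ∪ (a.1 : Set V)) (a.2 : Set V)).card) =
        F (a.1.card + (cS ends ω' (D ∪ (a.1 : Set V)) (a.2 : Set V)).card)
      rw [hc])
  refine Eq.trans ?_ h
  apply Ex_congr
  intro ω
  apply Ex_congr
  intro η
  rw [L3_split D O A hA ω η]

end L3gen

private lemma L3_memNB {l : ℕ} (u : Fin d → Fin l) (R : ℕ) (D A : Finset (Zd d))
    (ω η : (boxG d l).edgeSet → Bool) (v : Fin d → Fin l) :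
    v ∈ NB u R D A ω η ↔ (v ∉ pre u D ∧ v ∉ BB u R D A ω ∧ ∃ a ∈ BB u R D A ω, ∃ e,
    gends (boxG d l) e = s(a, v) ∧ (if rel u v ∈ (bz R : Finset (Zd d)) then η e = true
      else (ω e = true ∨ η e = true))) := by
  unfold NB
  simp only [Finset.mem_filter, Finset.mem_univ, true_and]

private lemma L3_hN {l : ℕ} (u : Fin d → Fin l) (R : ℕ) (D A : Finset (Zd d))
    (ω η : (boxG d l).edgeSet → Bool) :
    L3_N (gends (boxG d l)) (pre u D) {x : Fin d → Fin l | rel u x ∉ (bz R : Finset (Zd d))}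
      (BB u R D A ω) ω η = NB u R D A ω η := by
  ext v
  rw [L3_memN, L3_memNB]
  apply and_congr_right
  intro _
  apply and_congr_right
  intro _
  apply exists_congr
  intro a
  apply and_congr_right
  intro _
  apply exists_congr
  intro e
  apply and_congr_right
  intro _
  by_cases hv : rel u v ∈ (bz R : Finset (Zd d))
  · have hv' : v ∉ {x : Fin d → Fin l | rel u x ∉ (bz R : Finset (Zd d))} := fun h => h hv
    rw [if_pos hv, if_pos hv']
  · have hv' : ¬ (v ∉ {x : Fin d → Fin l | rel u x ∉ (bz R : Finset (Zd d))}) := fun h => h hv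
    rw [if_neg hv, if_neg hv']

private lemma L3_hB {l : ℕ} (u : Fin d → Fin l) (R : ℕ) (D A : Finset (Zd d))
    (ω : (boxG d l).edgeSet → Bool) :
    pre u D ∪ (BB u R D A ω : Set (Fin d → Fin l)) = pre u (D ∪ Bz u R D A ω) := by
  ext x
  constructor
  · rintro (h | h)
    · exact Finset.mem_union_left _ h
    · exact Finset.mem_union_right _ (Finset.mem_image_of_mem _ h)
  · intro h
    rcases Finset.mem_union.1 (show rel u x ∈ D ∪ Bz u R D A ω from h) with h | h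
    · exact Or.inl h
    · obtain ⟨y, hy, hyx⟩ := Finset.mem_image.1 h
      rw [rel_inj u hyx] at hy
      exact Or.inr hy

private lemma L3_hS {l : ℕ} (u : Fin d → Fin l) (N : Finset (Fin d → Fin l)) :
    (N : Set (Fin d → Fin l)) = pre u (N.image (rel u)) := by
  ext x
  constructor
  · intro h
    exact Finset.mem_image_of_mem (rel u) h
  · intro h
    obtain ⟨y, hy, hyx⟩ := Finset.mem_image.1 (show rel u x ∈ N.image (rel u) from h)
    rw [rel_inj u hyx] at hy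
    exact hy

/-- Row L3. (0.2). `Ex_orc`: `Ex p f = Ex p1 (fun ω => Ex s (fun η => f (orc ω η)))`. Pointwise, for `ξ = orc ω η`, `B = BB u R D A ω`, `N = NB u R D A ω η`: `cS_split` (with `D := pre u D`; `A ⊆ bz R` gives `hAB`):
`cS ξ (pre u D) (pre u A) = B ∪ cS ξ (pre u D ∪ B) N`, disjoint. The pair `(B, N)` is determined by the pairs `(ω e, η e)` for the edges `e` with an end in `B` (`cS_dep`); the second cluster depends only on the edges without an end in
`pre u D ∪ B`. So (as in `explore_gen`, with `E2_indep` for pairs of configurations: sum over the values of `(B, N)`) the second cluster can be computed with fresh configurations, and `Ex_orc` back: `Ex p`. `B` has as many elements as `Bz`, `pre u (Bz) = B` (`rel_inj`). -/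
lemma expl {l : ℕ} (u : Fin d → Fin l) (R : ℕ) (D A : Finset (Zd d)) (hA : A ⊆ bz R) (p p1 s : ℝ) (hps : 1 - p = (1 - p1) * (1 - s)) (F : ℕ → ℝ) :
    Ex p (fun ω => F (cS (gends (boxG d l)) ω (pre u D) (pre u A)).card) =
      Ex p1 (fun ω => Ex s (fun η => Ex p (fun ω' => F ((Bz u R D A ω).card +
        (cS (gends (boxG d l)) ω' (pre u (D ∪ Bz u R D A ω)) (pre u (Nz u R D A ω η))).card)))) := by
  classical
  have hp : p = 1 - (1 - p1) * (1 - s) := by linarith
  rw [hp]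
  have hA' : ∀ a ∈ pre u A, a ∉ {x : Fin d → Fin l | rel u x ∉ (bz R : Finset (Zd d))} := by
    intro a ha h
    exact h (hA ha)
  rw [L3_expl (pre u D) {x : Fin d → Fin l | rel u x ∉ (bz R : Finset (Zd d))} (pre u A) hA' p1 s F]
  apply Ex_congr
  intro ω
  apply Ex_congr
  intro η
  apply Ex_congr
  intro ζ
  have hcard : (Bz u R D A ω).card = (BB u R D A ω).card := by
    unfold Bz
    exact Finset.card_image_of_injective _ (rel_inj u)
  have hS : pre u (Nz u R D A ω η) = (NB u R D A ω η : Set (Fin d → Fin l)) := (L3_hS u _).symm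
  rw [hcard, ← L3_hB, hS, ← L3_hN]
  rfl

private lemma L4_avg {E1 E2 : Type*} [Fintype E1] [DecidableEq E1] [Fintype E2] [DecidableEq E2] {p1 s c : ℝ}
    (ha0 : 0 ≤ p1) (ha1 : p1 ≤ 1) (hs0 : 0 ≤ s) (hs1 : s ≤ 1)
    {f g : (E1 → Bool) → (E2 → Bool) → ℝ} (h : ∀ ω η, |f ω η - g ω η| ≤ c) :
    |Ex p1 (fun ω => Ex s (fun η => f ω η)) - Ex p1 (fun ω => Ex s (fun η => g ω η))| ≤ c := by
  have k1 : ∀ ω, |Ex s (fun η => f ω η) - Ex s (fun η => g ω η)| ≤ c := by
    intro ω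
    rw [abs_sub_le_iff]
    constructor
    · have h2 := Ex_mono hs0 hs1 (f := fun η => f ω η) (g := fun η => g ω η + c)
        (fun η => by have := (abs_sub_le_iff.1 (h ω η)).1; linarith)
      rw [Ex_add, Ex_const] at h2
      linarith
    · have h2 := Ex_mono hs0 hs1 (f := fun η => g ω η) (g := fun η => f ω η + c)
        (fun η => by have := (abs_sub_le_iff.1 (h ω η)).2; linarith)
      rw [Ex_add, Ex_const] at h2
      linarith
  rw [abs_sub_le_iff]
  constructor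
  · have h2 := Ex_mono ha0 ha1 (f := fun ω => Ex s (fun η => f ω η)) (g := fun ω => Ex s (fun η => g ω η) + c)
      (fun ω => by have := (abs_sub_le_iff.1 (k1 ω)).1; linarith)
    rw [Ex_add, Ex_const] at h2
    linarith
  · have h2 := Ex_mono ha0 ha1 (f := fun ω => Ex s (fun η => g ω η)) (g := fun ω => Ex s (fun η => f ω η) + c)
      (fun ω => by have := (abs_sub_le_iff.1 (k1 ω)).2; linarith)
    rw [Ex_add, Ex_const] at h2
    linarith

private lemma L4_avg1 {E1 : Type*} [Fintype E1] [DecidableEq E1] {p c : ℝ}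
    (hp0 : 0 ≤ p) (hp1 : p ≤ 1) {f g : (E1 → Bool) → ℝ} (h : ∀ ω, |f ω - g ω| ≤ c) :
    |Ex p f - Ex p g| ≤ c := by
  rw [abs_sub_le_iff]
  constructor
  · have h2 := Ex_mono hp0 hp1 (f := f) (g := fun ω => g ω + c)
      (fun ω => by have := (abs_sub_le_iff.1 (h ω)).1; linarith)
    rw [Ex_add, Ex_const] at h2
    linarith
  · have h2 := Ex_mono hp0 hp1 (f := g) (g := fun ω => f ω + c)
      (fun ω => by have := (abs_sub_le_iff.1 (h ω)).2; linarith)
    rw [Ex_add, Ex_const] at h2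
    linarith

private lemma L4_card {l : ℕ} (u : Fin d → Fin l) (R : ℕ) (D A : Finset (Zd d)) (ω : (boxG d l).edgeSet → Bool) :
    ((Bz u R D A ω).card : ℝ) ≤ (2 * (R : ℝ) + 1) ^ d := by
  have h1 : (bz R : Finset (Zd d)).card = (2 * R + 1) ^ d := by
    have h2 : (bz R : Finset (Zd d)) = bv (0 : Zd d) R := by
      unfold bz bv
      congr 1
      · funext i
        simp
      · funext i
        simp
    rw [h2, card_bv]
  have h3 := Finset.card_le_card (Bz_ball u R D A ω)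
  rw [h1] at h3
  calc ((Bz u R D A ω).card : ℝ) ≤ (((2 * R + 1) ^ d : ℕ) : ℝ) := by exact_mod_cast h3
    _ = (2 * (R : ℝ) + 1) ^ d := by push_cast; ring

/-- Row L4. Exploration for `piF`: `expl` with `F = gh h`, `gh_split` (`|Bz| ≤ (2R+1)^d`), `win_ex`. -/
lemma ex_pi {l : ℕ} (u : Fin d → Fin l) (R : ℕ) (hu : Dp u (R + 1)) (D A : Finset (Zd d)) (hA : A ⊆ bz R) (p p1 s h : ℝ) (hps : 1 - p = (1 - p1) * (1 - s))
    (hp0 : 0 ≤ p) (hp1 : p ≤ 1) (ha0 : 0 ≤ p1) (ha1 : p1 ≤ 1) (hs0 : 0 ≤ s) (hs1 : s ≤ 1) (h0 : 0 < h) (h1 : h ≤ 1) :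
    |piF l u p h D A - Ex p1 (fun ω : Om d R => Ex s (fun η : Om d R => piF l u p h (D ∪ Wb R D A ω) (Wn R D A ω η)))| ≤ (2 * (R : ℝ) + 1) ^ d * h := by
  have e1 : piF l u p h D A = Ex p (fun ω => gh h (cS (gends (boxG d l)) ω (pre u D) (pre u A)).card) := rfl
  have e2 := expl u R D A hA p p1 s hps (gh h)
  have e3 := win_ex u R hu p1 s D A (fun S T => piF l u p h (D ∪ S) T)
  rw [e1, e2, ← e3]
  apply L4_avg ha0 ha1 hs0 hs1
  intro ω η
  have e4 : piF l u p h (D ∪ Bz u R D A ω) (Nz u R D A ω η) =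
    Ex p (fun ω' => gh h (cS (gends (boxG d l)) ω' (pre u (D ∪ Bz u R D A ω)) (pre u (Nz u R D A ω η))).card) := rfl
  rw [e4]
  apply L4_avg1 hp0 hp1
  intro ω'
  refine (gh_split h0.le h1 _ _).trans ?_
  exact mul_le_mul_of_nonneg_right (L4_card u R D A ω) h0.le

/-- Row L4. The same for `sgF` with `fh_split`. -/
lemma ex_sg {l : ℕ} (u : Fin d → Fin l) (R : ℕ) (hu : Dp u (R + 1)) (D A : Finset (Zd d)) (hA : A ⊆ bz R) (p p1 s h : ℝ) (hps : 1 - p = (1 - p1) * (1 - s))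
    (hp0 : 0 ≤ p) (hp1 : p ≤ 1) (ha0 : 0 ≤ p1) (ha1 : p1 ≤ 1) (hs0 : 0 ≤ s) (hs1 : s ≤ 1) (h0 : 0 < h) (h1 : h ≤ 1) :
    |sgF l u p h D A - Ex p1 (fun ω : Om d R => Ex s (fun η : Om d R => sgF l u p h (D ∪ Wb R D A ω) (Wn R D A ω η)))| ≤ 2 * (2 * (R : ℝ) + 1) ^ d := by
  have e1 : sgF l u p h D A = Ex p (fun ω => fh h (cS (gends (boxG d l)) ω (pre u D) (pre u A)).card) := rfl
  have e2 := expl u R D A hA p p1 s hps (fh h)
  have e3 := win_ex u R hu p1 s D A (fun S T => sgF l u p h (D ∪ S) T)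
  rw [e1, e2, ← e3]
  apply L4_avg ha0 ha1 hs0 hs1
  intro ω η
  have e4 : sgF l u p h (D ∪ Bz u R D A ω) (Nz u R D A ω η) =
    Ex p (fun ω' => fh h (cS (gends (boxG d l)) ω' (pre u (D ∪ Bz u R D A ω)) (pre u (Nz u R D A ω η))).card) := rfl
  rw [e4]
  apply L4_avg1 hp0 hp1
  intro ω'
  refine (fh_split h0 h1 _ _).trans ?_
  exact mul_le_mul_of_nonneg_left (L4_card u R D A ω) (by norm_num)

/-! ### Row L5: deep points -/

private lemma L5a_nz (v : Zd d) (i : Fin d) : (v i).natAbs ≤ nz v :=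
  Finset.le_sup (f := fun i => (v i).natAbs) (Finset.mem_univ i)

private lemma L5a_pre {l : ℕ} (u u' : Fin d → Fin l) (v : Zd d) (h : rel u u' = v) :
    pre u {v} = pre u' {0} := by
  ext x
  show rel u x ∈ ({v} : Finset (Zd d)) ↔ rel u' x ∈ ({0} : Finset (Zd d))
  rw [Finset.mem_singleton, Finset.mem_singleton, ← h]
  constructor
  · intro h1
    funext i
    have h2 := congrFun h1 i
    simp only [rel] at h2
    show ((x i : ℕ) : ℤ) - ((u' i : ℕ) : ℤ) = 0
    omega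
  · intro h1
    funext i
    have h2 : ((x i : ℕ) : ℤ) - ((u' i : ℕ) : ℤ) = 0 := congrFun h1 i
    simp only [rel]
    omega

/-- Row L5a. Another base point: `u' = u + v`. -/
lemma shift {l : ℕ} (u : Fin d → Fin l) (n : ℕ) (v : Zd d) (hv : nz v ≤ n) (hu : Dp u n) : ∃ u' : Fin d → Fin l,
    rel u u' = v ∧ Dp u' (n - nz v) ∧ ∀ p h, piF l u p h ∅ {v} = piF l u' p h ∅ {0} ∧ sgF l u p h ∅ {v} = sgF l u' p h ∅ {0} := by
  have h1 : ∀ i, (v i).natAbs ≤ nz v := L5a_nz v
  have h2 : ∀ i, 0 ≤ ((u i : ℕ) : ℤ) + v i ∧ (((u i : ℕ) : ℤ) + v i).toNat < l := by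
    intro i
    have a1 := h1 i
    have a2 := (hu i).1
    have a3 := (hu i).2
    omega
  have h3 : rel u (fun i => (⟨(((u i : ℕ) : ℤ) + v i).toNat, (h2 i).2⟩ : Fin l)) = v := by
    funext i
    have a1 := (h2 i).1
    show (((((u i : ℕ) : ℤ) + v i).toNat : ℕ) : ℤ) - ((u i : ℕ) : ℤ) = v i
    omega
  refine ⟨fun i => ⟨(((u i : ℕ) : ℤ) + v i).toNat, (h2 i).2⟩, h3, ?_, ?_⟩
  · intro i
    have a1 := h1 i
    have a2 := (hu i).1
    have a3 := (hu i).2
    have a4 := (h2 i).1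
    show n - nz v ≤ (((u i : ℕ) : ℤ) + v i).toNat ∧ (((u i : ℕ) : ℤ) + v i).toNat + (n - nz v) < l
    omega
  · intro p h
    have e1 := L5a_pre u _ v h3
    have e2 : pre u (∅ : Finset (Zd d)) =
        pre (fun i => (⟨(((u i : ℕ) : ℤ) + v i).toNat, (h2 i).2⟩ : Fin l)) ∅ := by
      ext x
      simp [pre]
    unfold piF sgF
    rw [e1, e2]
    exact ⟨rfl, rfl⟩

private lemma L5a_mid {l : ℕ} (ω : (boxG d l).edgeSet → Bool) (i : Fin d) {x y : Fin d → Fin l}
    (h : Rch (gends (boxG d l)) ω Set.univ x y) : ∀ k : ℕ, min (x i : ℕ) (y i : ℕ) ≤ k →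
    k ≤ max (x i : ℕ) (y i : ℕ) → ∃ z, Rch (gends (boxG d l)) ω Set.univ x z ∧ (z i : ℕ) = k := by
  induction h with
  | refl =>
    intro k h1 h2
    exact ⟨x, Rch.refl x, by omega⟩
  | @tail b c hb hbc ih =>
    intro k h1 h2
    by_cases hk : min (x i : ℕ) (b i : ℕ) ≤ k ∧ k ≤ max (x i : ℕ) (b i : ℕ)
    · exact ih k hk.1 hk.2
    · refine ⟨c, Relation.ReflTransGen.tail hb hbc, ?_⟩
      obtain ⟨-, -, e, -, he⟩ := hbc
      have hadj : (boxG d l).Adj b c := by
        have h3 : (e : Sym2 (Fin d → Fin l)) = s(b, c) := he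
        have h4 := e.2
        rw [h3] at h4
        exact (SimpleGraph.mem_edgeSet _).1 h4
      obtain ⟨j, hj, hj'⟩ := hadj
      by_cases hij : i = j
      · subst hij
        omega
      · have h5 := hj' i hij
        rw [h5] at hk
        omega

private lemma L5a_far {l : ℕ} (ω : (boxG d l).edgeSet → Bool) (i : Fin d) {x y : Fin d → Fin l}
    (h : y ∈ cu (gends (boxG d l)) ω x) :
    max (x i : ℕ) (y i : ℕ) + 1 ≤ (cu (gends (boxG d l)) ω x).card + min (x i : ℕ) (y i : ℕ) := by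
  classical
  have h1 : Finset.Icc (min (x i : ℕ) (y i : ℕ)) (max (x i : ℕ) (y i : ℕ)) ⊆
      (cu (gends (boxG d l)) ω x).image (fun z => (z i : ℕ)) := by
    intro k hk
    rw [Finset.mem_Icc] at hk
    obtain ⟨z, hz, hzk⟩ := L5a_mid ω i (mem_cu.1 h) k hk.1 hk.2
    exact Finset.mem_image.2 ⟨z, mem_cu.2 hz, hzk⟩
  have h2 := (Finset.card_le_card h1).trans Finset.card_image_le
  rw [Nat.card_Icc] at h2
  omega

private lemma L5a_sub {V V' : Type} [Fintype V] [DecidableEq V] [Fintype V'] [DecidableEq V']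
    {G : SimpleGraph V} {G' : SimpleGraph V'} [Fintype G.edgeSet] [Fintype G'.edgeSet]
    (φ : G ↪g G') (ω : G'.edgeSet → Bool) (x : V) :
    (cu (gends G) (pul φ ω) x).map φ.toEmbedding ⊆ cu (gends G') ω (φ x) := by
  have h1 := cl_emb φ ω Set.univ x
  have h2 : cl (gends G') ω (φ '' Set.univ) (φ x) ⊆ cl (gends G') ω Set.univ (φ x) :=
    cl_mono (fun _ h => h) (Set.subset_univ _)
  rw [h1] at h2
  exact h2

private lemma L5a_card {V V' : Type} [Fintype V] [DecidableEq V] [Fintype V'] [DecidableEq V']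
    {G : SimpleGraph V} {G' : SimpleGraph V'} [Fintype G.edgeSet] [Fintype G'.edgeSet]
    (φ : G ↪g G') (ω : G'.edgeSet → Bool) (x : V) :
    (cu (gends G) (pul φ ω) x).card ≤ (cu (gends G') ω (φ x)).card := by
  have h1 := Finset.card_le_card (L5a_sub φ ω x)
  rwa [Finset.card_map] at h1

private lemma L5a_loc {l n : ℕ} (z : Fin d → ℕ) (φ : boxG d n ↪g boxG d l)
    (hφ : ∀ x i, ((φ x i : Fin l) : ℕ) = z i + (x i : ℕ)) (x : Fin d → Fin n)
    (hx : ∀ i, (x i : ℕ) ≠ 0 ∧ (x i : ℕ) + 1 ≠ n) {w : Fin d → Fin l}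
    (hw : (boxG d l).Adj (φ x) w) : ∃ y, φ y = w := by
  obtain ⟨i, hi, hj⟩ := hw
  have hi0 := (hx i).1
  have hi1 := (hx i).2
  have hi2 := (x i).isLt
  have hi3 := hφ x i
  rcases hi with hi | hi
  · refine ⟨Function.update x i ⟨(x i : ℕ) + 1, by omega⟩, ?_⟩
    funext j
    apply Fin.ext
    rw [hφ]
    by_cases hji : j = i
    · subst hji
      rw [Function.update_self]
      simp only
      omega
    · rw [Function.update_of_ne hji, ← hj j hji, hφ]
  · refine ⟨Function.update x i ⟨(x i : ℕ) - 1, by omega⟩, ?_⟩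
    funext j
    apply Fin.ext
    rw [hφ]
    by_cases hji : j = i
    · subst hji
      rw [Function.update_self]
      simp only
      omega
    · rw [Function.update_of_ne hji, ← hj j hji, hφ]

private lemma L5a_eq {l n : ℕ} (z : Fin d → ℕ) (φ : boxG d n ↪g boxG d l)
    (hφ : ∀ x i, ((φ x i : Fin l) : ℕ) = z i + (x i : ℕ)) (ω : (boxG d l).edgeSet → Bool)
    (x : Fin d → Fin n)
    (hx : ∀ y ∈ cu (gends (boxG d n)) (pul φ ω) x, ∀ i, (y i : ℕ) ≠ 0 ∧ (y i : ℕ) + 1 ≠ n) :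
    cu (gends (boxG d l)) ω (φ x) = (cu (gends (boxG d n)) (pul φ ω) x).map φ.toEmbedding := by
  apply Finset.Subset.antisymm _ (L5a_sub φ ω x)
  have key : ∀ y', Rch (gends (boxG d l)) ω Set.univ (φ x) y' →
      ∃ y, φ y = y' ∧ Rch (gends (boxG d n)) (pul φ ω) Set.univ x y := by
    intro y' h
    induction h with
    | refl => exact ⟨x, rfl, Rch.refl x⟩
    | @tail b c hb hbc ih =>
      obtain ⟨y, rfl, hy⟩ := ih
      obtain ⟨-, -, e, he, hend⟩ := hbc
      have h3 : (e : Sym2 (Fin d → Fin l)) = s(φ y, c) := hend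
      have hadj : (boxG d l).Adj (φ y) c := by
        have h4 := e.2
        rw [h3] at h4
        exact (SimpleGraph.mem_edgeSet _).1 h4
      obtain ⟨y2, rfl⟩ := L5a_loc z φ hφ y (hx y (mem_cu.2 hy)) hadj
      refine ⟨y2, rfl, Relation.ReflTransGen.tail hy ⟨Set.mem_univ _, Set.mem_univ _, ?_⟩⟩
      have h4 : (boxG d n).Adj y y2 := φ.map_rel_iff.1 hadj
      refine ⟨⟨s(y, y2), h4⟩, ?_, rfl⟩
      have h5 : φ.mapEdgeSet ⟨s(y, y2), h4⟩ = e := by
        apply Subtype.ext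
        rw [h3]
        rfl
      show ω (φ.mapEdgeSet ⟨s(y, y2), h4⟩) = true
      rw [h5]
      exact he
  intro y' hy'
  obtain ⟨y, rfl, hy⟩ := key y' (mem_cu.1 hy')
  exact Finset.mem_map.2 ⟨y, mem_cu.2 hy, rfl⟩

private lemma L5a_one {l : ℕ} (u : Fin d → Fin l) (n : ℕ) (hu : Dp u n) (p : ℝ) (F : ℕ → ℝ)
    (hF : ∀ k, n ≤ k → F k = 0) : Ex p (fun ω => F (cu (gends (boxG d l)) ω u).card) =
      Ex p (fun ω => F (cu (gends (boxG d (2 * n + 1))) ω (fun _ => ⟨n, by omega⟩)).card) := by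
  obtain ⟨φ, hφ⟩ := box_box (d := d) (l := 2 * n + 1) (n := l) (fun i => (u i : ℕ) - n) (by
    intro i
    have h1 := (hu i).1
    have h2 := (hu i).2
    show (u i : ℕ) - n + (2 * n + 1) ≤ l
    omega)
  have hc : φ (fun _ => ⟨n, by omega⟩) = u := by
    funext i
    apply Fin.ext
    rw [hφ]
    have h1 := (hu i).1
    show (u i : ℕ) - n + n = (u i : ℕ)
    omega
  have h0 := Ex_pul φ p (fun ω => F (cu (gends (boxG d (2 * n + 1))) ω (fun _ => ⟨n, by omega⟩)).card)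
  rw [← h0]
  apply Ex_congr
  intro ω
  by_cases hb : ∀ y ∈ cu (gends (boxG d (2 * n + 1))) (pul φ ω) (fun _ => ⟨n, by omega⟩), ∀ i,
      (y i : ℕ) ≠ 0 ∧ (y i : ℕ) + 1 ≠ 2 * n + 1
  · have h1 := L5a_eq (fun i => (u i : ℕ) - n) φ hφ ω (fun _ => ⟨n, by omega⟩) hb
    rw [hc] at h1
    rw [h1, Finset.card_map]
  · push Not at hb
    obtain ⟨y, hy, i, hi⟩ := hb
    have h1 := L5a_far (pul φ ω) i hy
    have h2 := L5a_card φ ω (fun _ => ⟨n, by omega⟩)
    rw [hc] at h2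
    have h3 : n ≤ (cu (gends (boxG d (2 * n + 1))) (pul φ ω) (fun _ => ⟨n, by omega⟩)).card := by
      by_cases h4 : (y i : ℕ) = 0
      · rw [h4] at h1
        simp only at h1
        omega
      · have h5 := hi h4
        have h6 : (y i : ℕ) = 2 * n := by omega
        rw [h6] at h1
        simp only at h1
        omega
    rw [hF _ h3, hF _ (h3.trans h2)]

/-- Row L5a. Clusters with fewer than `n` vertices: the probability that the cluster of `u` has exactly `k < n` vertices is the same for all boxes and base points with `Dp u n`: it is the same in the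
window of radius `n` (`win_emb` with `R = n - 1`: a cluster with at most `n - 1`... a cluster with fewer than `n` vertices stays inside the ball of radius `n - 1`). State: for `F` with `F k = 0` for `k ≥ n`. -/
lemma small_same {l l' : ℕ} (u : Fin d → Fin l) (u' : Fin d → Fin l') (n : ℕ) (hu : Dp u n) (hu' : Dp u' n) (p : ℝ) (F : ℕ → ℝ) (hF : ∀ k, n ≤ k → F k = 0) :
    Ex p (fun ω => F (cu (gends (boxG d l)) ω u).card) = Ex p (fun ω => F (cu (gends (boxG d l')) ω u').card) := by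
  rw [L5a_one u n hu p F hF, L5a_one u' n hu' p F hF]

/-- Row L5a. Boxes inside of boxes: for an increasing function of the cluster size the expectation at a vertex `x` of any box is at most the expectation at a point `u` with `Dp u n` if the function is constant for `k ≥ n` (the law of `min(|C|, n)`):
embed the box of `x` translated such that `x` goes to `u`, restricted to the ball.. simpler: `F(min(|C(x)|, n))` is a function of the edges within distance `n` of `x`; the box of `x` intersected with this ball is embedded in the big box around `u`. (E.g. via the box `Fin d → Fin (l + 2n+2)`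
in which the box of `x` is embedded at a deep place (`box_box`, clusters grow), and `small_same` for the deep point.) -/
lemma deep_max {l l' : ℕ} (x : Fin d → Fin l) (u : Fin d → Fin l') (n : ℕ) (hu : Dp u n) (p : ℝ) (hp0 : 0 ≤ p) (hp1 : p ≤ 1) (F : ℕ → ℝ) (hF : Monotone F) (hFn : ∀ k, n ≤ k → F k = F n) :
    Ex p (fun ω => F (cu (gends (boxG d l)) ω x).card) ≤ Ex p (fun ω => F (cu (gends (boxG d l')) ω u).card) := by
  obtain ⟨φ, hφ⟩ := box_box (d := d) (l := l) (n := l + 2 * n) (fun _ => n) (by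
    intro i
    show n + l ≤ l + 2 * n
    omega)
  have hd : Dp (φ x) n := by
    intro i
    rw [hφ]
    have h1 := (x i).isLt
    constructor
    · show n ≤ n + (x i : ℕ)
      omega
    · show n + (x i : ℕ) + n < l + 2 * n
      omega
  have h1 : Ex p (fun ω => F (cu (gends (boxG d l)) ω x).card) ≤
      Ex p (fun ω => F (cu (gends (boxG d (l + 2 * n))) ω (φ x)).card) := by
    rw [← Ex_pul φ p (fun ω => F (cu (gends (boxG d l)) ω x).card)]
    apply Ex_mono hp0 hp1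
    intro ω
    exact hF (L5a_card φ ω x)
  have h2 := small_same (φ x) u n hd hu p (fun k => F k - F n) (by
    intro k hk
    show F k - F n = 0
    rw [hFn k hk, sub_self])
  have h3 : ∀ {m : ℕ} (y : Fin d → Fin m), Ex p (fun ω => F (cu (gends (boxG d m)) ω y).card) =
      Ex p (fun ω => F (cu (gends (boxG d m)) ω y).card - F n) + F n := by
    intro m y
    have h4 := Ex_add p (fun ω : (boxG d m).edgeSet → Bool => F (cu (gends (boxG d m)) ω y).card - F n)
      (fun _ => F n)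
    rw [Ex_const] at h4
    rw [← h4]
    apply Ex_congr
    intro ω
    ring
  rw [h3 u, ← h2, ← h3 (φ x)]
  exact h1

private lemma L5b_fh_anti {h : ℝ} (h0 : 0 < h) (h1 : h ≤ 1) (n : ℕ) (hn : 1 / h ≤ (n : ℝ)) (k : ℕ)
    (hk : n ≤ k) : fh h k ≤ fh h n := by
  induction k, hk using Nat.le_induction with
  | base => exact le_refl _
  | succ k hk ih =>
    refine le_trans ?_ ih
    have hq : 0 ≤ (1 - h) ^ k := pow_nonneg (by linarith) k
    have hkr : (n : ℝ) ≤ (k : ℝ) := by exact_mod_cast hk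
    have h2 : 1 ≤ (k : ℝ) * h := by
      have h3 : 1 / h * h ≤ (k : ℝ) * h := mul_le_mul_of_nonneg_right (hn.trans hkr) h0.le
      rwa [one_div_mul_cancel h0.ne'] at h3
    unfold fh
    push_cast
    rw [pow_succ]
    have h4 : ((k : ℝ) + 1) * (1 - h) ≤ (k : ℝ) := by nlinarith
    have h5 := mul_le_mul_of_nonneg_right h4 hq
    calc ((k : ℝ) + 1) * ((1 - h) ^ k * (1 - h)) = ((k : ℝ) + 1) * (1 - h) * (1 - h) ^ k := by ring
      _ ≤ (k : ℝ) * (1 - h) ^ k := h5

private lemma L5b_gh_min {h : ℝ} (h0 : 0 ≤ h) (h1 : h ≤ 1) (n k : ℕ) :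
    gh h k ≤ gh h (min k n) + (1 - h) ^ n := by
  have hq : 0 ≤ (1 - h) ^ n := pow_nonneg (by linarith) n
  rcases le_total k n with hk | hk
  · rw [min_eq_left hk]
    linarith
  · rw [min_eq_right hk]
    have := gh_le_one h0 h1 k
    have h3 : gh h n = 1 - (1 - h) ^ n := rfl
    linarith

/-- Row L5b. `gh h k ≤ gh h (min k n) + (1-h)^n`, `deep_max`; supremum over the boxes. -/
lemma deep_pi {l : ℕ} (u : Fin d → Fin l) (n : ℕ) (hu : Dp u n) (p h : ℝ) (hp0 : 0 ≤ p) (hp1 : p ≤ 1) (h0 : 0 ≤ h) (h1 : h ≤ 1) :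
    Mh d p h - (1 - h) ^ n ≤ piF l u p h ∅ {0} := by
  rw [sub_le_iff_le_add]
  unfold Mh
  refine csSup_le ⟨_, l, u, rfl⟩ ?_
  rintro r ⟨l', x, rfl⟩
  rw [piF_one, piF_one]
  have hF : Monotone (fun k : ℕ => gh h (min k n)) := fun a b hab =>
    gh_mono h0 h1 (min_le_min_right n hab)
  have hFn : ∀ k, n ≤ k → (fun k : ℕ => gh h (min k n)) k = (fun k : ℕ => gh h (min k n)) n := by
    intro k hk
    simp only [min_eq_right hk, min_self]
  have e1 := deep_max x u n hu p hp0 hp1 (fun k : ℕ => gh h (min k n)) hF hFn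
  have e2 : Ex p (fun ω => gh h (cu (gends (boxG d l')) ω x).card) ≤
      Ex p (fun ω => gh h (min (cu (gends (boxG d l')) ω x).card n)) + (1 - h) ^ n := by
    have := Ex_mono (E := (boxG d l').edgeSet) hp0 hp1
      (f := fun ω => gh h (cu (gends (boxG d l')) ω x).card)
      (g := fun ω => gh h (min (cu (gends (boxG d l')) ω x).card n) + (1 - h) ^ n)
      (fun ω => L5b_gh_min h0 h1 n _)
    rwa [Ex_add, Ex_const] at this
  have e3 : Ex p (fun ω => gh h (min (cu (gends (boxG d l)) ω u).card n)) ≤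
      Ex p (fun ω => gh h (cu (gends (boxG d l)) ω u).card) :=
    Ex_mono hp0 hp1 (fun ω => gh_mono h0 h1 (min_le_left _ _))
  linarith

/-- Row L5b. `fh h k ≤ n (1-h)^n` for `k ≥ n ≥ 1/h` (`fh` decreases there: `(k+1) q ≤ k` iff `k ≥ q/h`), `small_same` for `fh` cut at `n`. -/
lemma deep_sg {l l' : ℕ} (u : Fin d → Fin l) (u' : Fin d → Fin l') (n : ℕ) (hu : Dp u n) (hu' : Dp u' n) (p h : ℝ) (hp0 : 0 ≤ p) (hp1 : p ≤ 1) (h0 : 0 < h) (h1 : h ≤ 1)
    (hn : 1 / h ≤ (n : ℝ)) : |sgF l u p h ∅ {0} - sgF l' u' p h ∅ {0}| ≤ 2 * ((n : ℝ) * (1 - h) ^ n) := by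
  have hs := small_same u u' n hu hu' p (fun k => if k < n then fh h k else 0)
    (fun k hk => if_neg (by omega))
  have hc : fh h n = (n : ℝ) * (1 - h) ^ n := rfl
  have key : ∀ (m : ℕ) (w : Fin d → Fin m),
      Ex p (fun ω => if (cu (gends (boxG d m)) ω w).card < n then fh h (cu (gends (boxG d m)) ω w).card else 0) ≤
        sgF m w p h ∅ {0} ∧
      sgF m w p h ∅ {0} ≤ Ex p (fun ω => if (cu (gends (boxG d m)) ω w).card < n then
        fh h (cu (gends (boxG d m)) ω w).card else 0) + fh h n := by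
    intro m w
    rw [sgF_one]
    constructor
    · refine Ex_mono hp0 hp1 (fun ω => ?_)
      split_ifs
      · exact le_refl _
      · exact fh_nonneg h0.le h1 _
    · have := Ex_mono (E := (boxG d m).edgeSet) hp0 hp1
        (f := fun ω => fh h (cu (gends (boxG d m)) ω w).card)
        (g := fun ω => (if (cu (gends (boxG d m)) ω w).card < n then
          fh h (cu (gends (boxG d m)) ω w).card else 0) + fh h n) (fun ω => by
          split_ifs with hlt
          · have := fh_nonneg h0.le h1 n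
            linarith
          · have := L5b_fh_anti h0 h1 n hn _ (not_lt.1 hlt)
            linarith)
      rwa [Ex_add, Ex_const] at this
  obtain ⟨a1, a2⟩ := key l u
  obtain ⟨b1, b2⟩ := key l' u'
  have hnn := fh_nonneg h0.le h1 n
  rw [← hc, abs_le]
  constructor <;> linarith

/-- Row L5b. Deep tails: for `Dp u k` the tail probability is at least the one in any box (`deep_max` with `F j = [k ≤ j]`). -/
lemma deep_tail {l l' : ℕ} (x : Fin d → Fin l) (u : Fin d → Fin l') (k : ℕ) (hu : Dp u k) (p : ℝ) (hp0 : 0 ≤ p) (hp1 : p ≤ 1) :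
    Ex p (fun ω => if (k : ℝ) ≤ cz (gends (boxG d l)) ω x then (1 : ℝ) else 0) ≤
      Ex p (fun ω => if (k : ℝ) ≤ cz (gends (boxG d l')) ω u then (1 : ℝ) else 0) := by
  have hF : Monotone (fun j : ℕ => if (k : ℝ) ≤ (j : ℝ) then (1 : ℝ) else 0) := by
    intro a b hab
    have hab' : (a : ℝ) ≤ (b : ℝ) := by exact_mod_cast hab
    simp only
    split_ifs with h2 h3
    · exact le_refl _
    · exact absurd (h2.trans hab') h3
    · exact zero_le_one
    · exact le_refl _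
  have hFn : ∀ j, k ≤ j → (fun j : ℕ => if (k : ℝ) ≤ (j : ℝ) then (1 : ℝ) else 0) j =
      (fun j : ℕ => if (k : ℝ) ≤ (j : ℝ) then (1 : ℝ) else 0) k := by
    intro j hj
    have hj' : (k : ℝ) ≤ (j : ℝ) := by exact_mod_cast hj
    simp only [if_pos hj', if_pos (le_refl (k : ℝ))]
  exact deep_max x u k hu p hp0 hp1 _ hF hFn

end Pool.Agent.PERC29.DZ
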