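import Pool.Agent.Lib.MP_29e17e_pr.Y.Th
import Pool.Agent.Lib.MP_29e17e_pr.Z.Cs

namespace Pool.Agent.PERC29
end Pool.Agent.PERC29
namespace Pool.Agent.PERC29.AE
end Pool.Agent.PERC29.AE

set_option autoImplicit false
set_option linter.unusedSectionVars false

/-! Rows 29s-S1 .. 29s-S7: Section 5 of the page 29e17e_derivative_helper41.md (critical magnetisation, barrier, comparison with θ). -/

open Finset Filter Topology

namespace Pool.Agent.PERC29.DZ

open Pool.Agent.PERC29 Pool.Agent.PERC29.AE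

/-- The relation A for the constant `a`. -/
def RA (d : ℕ) (pc a : ℝ) : Prop := ∀ δ : ℝ, 0 < δ → δ ≤ 1 → ∀ η : ℝ, 0 < η → ∃ h0 : ℝ, 0 < h0 ∧ ∀ (p h : ℝ) (l : ℕ),
    pc ≤ p → p ≤ pc + Real.sqrt (h / δ) → 0 < h → h ≤ h0 → 1 / h ^ 5 ≤ (l : ℝ) →
    |mP d l p h - a * (mB d l p h * mH d l p h)| ≤ η * (mB d l p h * mH d l p h)

/-- The relation B for the constant `b`. -/
def RB (d : ℕ) (pc b : ℝ) : Prop := ∀ η : ℝ, 0 < η → ∃ h0 : ℝ, 0 < h0 ∧ ∀ (h : ℝ) (l : ℕ),
    0 < h → h ≤ h0 → 1 / h ^ 5 ≤ (l : ℝ) →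
    |mB d l pc h - h * mH d l pc h - b * (mB d l pc h ^ 2 * mH d l pc h)| ≤ η * (mB d l pc h ^ 2 * mH d l pc h)

lemma S1_prod {ι : Type*} (s : Finset ι) (f : ι → ℝ × ℝ → ℝ) (hf : ∀ i, Differentiable ℝ (f i)) :
    Differentiable ℝ (fun q : ℝ × ℝ => ∏ i ∈ s, f i q) := by
  classical
  induction s using Finset.induction_on with
  | empty => simp
  | @insert a s ha ih =>
    simp only [Finset.prod_insert ha]
    exact (hf a).mul ih

lemma S1_diff (d l : ℕ) : Differentiable ℝ (fun q : ℝ × ℝ => mB d l q.1 q.2) := by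
  unfold mB Ex wt gh
  simp only [div_eq_mul_inv]
  refine Differentiable.mul_const ?_ _
  refine Differentiable.fun_sum fun x _ => ?_
  refine Differentiable.fun_sum fun ω _ => ?_
  refine Differentiable.fun_mul ?_ ?_
  · refine S1_prod _ _ fun e => ?_
    by_cases he : ω e = true
    · simp only [he, if_true]
      exact differentiable_fst
    · simp only [he, if_false]
      exact (differentiable_const _).sub differentiable_fst
  · exact (differentiable_const _).sub (((differentiable_const _).sub differentiable_snd).pow _)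

/-- Row S1. Chain rule. `mB d l p h = (∑ x, ∑ ω, wt p ω * gh h |cu ω x|) / l^d` (`Ex`). Every `wt p ω` has a derivative `w' ω` at `p = pc + t` (it is a product of `p`, `1 - p`: for example
`Differentiable`, `HasDerivAt` of a finite product), `gh h k` has the derivative `k (1-h)^(k-1)` in `h`. The path has the derivative `∑ (w' gh - κ wt gh')`; by `HasDerivAt.unique` and
`mB_p`, `mB_h` the two parts are `mP` and `mH`. -/
lemma mB_path (d l : ℕ) (pc h0 κ t : ℝ) (hp : pc + t ≠ 1) (hh : h0 - κ * t ≠ 1) :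
    HasDerivAt (fun t : ℝ => mB d l (pc + t) (h0 - κ * t))
      (mP d l (pc + t) (h0 - κ * t) - κ * mH d l (pc + t) (h0 - κ * t)) t := by
  have hF := (S1_diff d l (pc + t, h0 - κ * t)).hasFDerivAt
  set L := fderiv ℝ (fun q : ℝ × ℝ => mB d l q.1 q.2) (pc + t, h0 - κ * t) with hL
  have h1 : HasDerivAt (fun p : ℝ => mB d l p (h0 - κ * t)) (L (1, 0)) (pc + t) :=
    HasFDerivAt.comp_hasDerivAt (l := fun q : ℝ × ℝ => mB d l q.1 q.2) (f := fun p : ℝ => (p, h0 - κ * t)) (pc + t) hF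
      ((hasDerivAt_id' (pc + t)).prodMk (hasDerivAt_const (pc + t) (h0 - κ * t)))
  have h2 : HasDerivAt (fun h : ℝ => mB d l (pc + t) h) (L (0, 1)) (h0 - κ * t) :=
    HasFDerivAt.comp_hasDerivAt (l := fun q : ℝ × ℝ => mB d l q.1 q.2) (f := fun h : ℝ => (pc + t, h)) (h0 - κ * t) hF
      ((hasDerivAt_const (h0 - κ * t) (pc + t)).prodMk (hasDerivAt_id' (h0 - κ * t)))
  have e1 : L (1, 0) = mP d l (pc + t) (h0 - κ * t) := h1.unique (mB_p d l _ _ hp)
  have e2 : L (0, 1) = mH d l (pc + t) (h0 - κ * t) := h2.unique (mB_h d l _ _ hh)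
  have h3 : HasDerivAt (fun t : ℝ => (pc + t, h0 - κ * t)) ((1 : ℝ), -κ) t := by
    refine HasDerivAt.prodMk ?_ ?_
    · have := (hasDerivAt_id t).const_add pc
      exact this
    · have := ((hasDerivAt_id t).const_mul κ).const_sub h0
      rw [mul_one] at this
      exact this
  have h4 : HasDerivAt (fun t : ℝ => mB d l (pc + t) (h0 - κ * t)) (L (1, -κ)) t :=
    HasFDerivAt.comp_hasDerivAt (l := fun q : ℝ × ℝ => mB d l q.1 q.2) (f := fun t : ℝ => (pc + t, h0 - κ * t)) t hF h3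
  have e3 : ((1 : ℝ), -κ) = ((1 : ℝ), (0 : ℝ)) + (-κ) • ((0 : ℝ), (1 : ℝ)) := by
    ext <;> simp
  have e4 : L (1, -κ) = mP d l (pc + t) (h0 - κ * t) - κ * mH d l (pc + t) (h0 - κ * t) := by
    rw [e3, map_add, map_smul, e1, e2, smul_eq_mul]
    ring
  rw [← e4]
  exact h4

/-- Row S2. (5.1). On an interval `[λ h, h]` below the `h0` of `RB` (for `η1`), with `1/(λ h)^5 ≤ l`, the function `F x = x / mB d l pc x` has the derivative `(mB - x mH)/mB^2`, which
lies between `(b - η1) mH` and `(b + η1) mH` (`mB > 0` by `mB_Mh`, `Mh_low`). So `F - (b + η1) mB` is antitone and `F - (b - η1) mB` is monotone on `[λ h, h]` (`antitoneOn_of_deriv_nonpos`,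
`monotoneOn_of_deriv_nonneg`). At `λ h`: `0 ≤ F ≤ λ h / ((1 - η1) c' √(λ h)) ≤ 2 √(λ h)/c'` and `0 ≤ mB ≤ C' √(λ h)`. So
`|h / mB - b mB| ≤ η1 mB + (2/c' + (b + η1) C') √(λ h)` at `h`; multiply by `mB`, use `√h ≤ 2 mB/c'` and `(1 - η1) Mh ≤ mB ≤ Mh`; `η1`, `λ` small depending on `η`. -/
lemma crit_h {d : ℕ} {C c e pc : ℝ} (ht : HT d C c e pc) {b : ℝ} (hb : 0 ≤ b) (hB : RB d pc b) (η : ℝ) (hη : 0 < η) :
    ∃ h0 : ℝ, 0 < h0 ∧ ∀ h : ℝ, 0 < h → h ≤ h0 → |h - b * Mh d pc h ^ 2| ≤ η * Mh d pc h ^ 2 := by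
  have hpc0 : 0 < pc := ht.hp.p0
  have hpc1 : pc < 1 := ht.hp.p1
  have he : 0 < e := ht.e0
  obtain ⟨C', hC'1, hup⟩ := Mh_up ht
  obtain ⟨c', hc'0, hlow⟩ := Mh_low ht
  -- the constants
  set η1 : ℝ := min (1 / 2) (η / (2 * (1 + 2 * b))) with hη1
  have hη1pos : 0 < η1 := lt_min (by norm_num) (by positivity)
  have hη1half : η1 ≤ 1 / 2 := min_le_left _ _
  have hη1b : η1 * (1 + 2 * b) ≤ η / 2 := by
    have h1 : η1 ≤ η / (2 * (1 + 2 * b)) := min_le_right _ _
    rw [le_div_iff₀ (by positivity)] at h1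
    linarith
  set κ : ℝ := 2 / c' + b * C' with hκ
  have hκ0 : 0 < κ := by
    have h1 : 0 < 2 / c' := by positivity
    have h2 : 0 ≤ b * C' := mul_nonneg hb (by linarith)
    linarith
  set sl : ℝ := min 1 (η * c' / (2 * κ)) with hsl
  have hsl0 : 0 < sl := lt_min one_pos (by positivity)
  have hsl1 : sl ≤ 1 := min_le_left _ _
  have hslb : κ * sl / c' ≤ η / 2 := by
    have h1 : sl ≤ η * c' / (2 * κ) := min_le_right _ _
    rw [le_div_iff₀ (by positivity)] at h1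
    rw [div_le_iff₀ hc'0]
    linarith
  obtain ⟨hB0, hB0pos, hRB⟩ := hB η1 hη1pos
  obtain ⟨hM0, hM0pos, hMB⟩ := mB_Mh ht η1 hη1pos
  refine ⟨min (1 / 2) (min hB0 hM0), lt_min (by norm_num) (lt_min hB0pos hM0pos), ?_⟩
  intro h hh0 hh
  have hh2 : h ≤ 1 / 2 := hh.trans (min_le_left _ _)
  have hhB : h ≤ hB0 := hh.trans ((min_le_right _ _).trans (min_le_left _ _))
  have hhM : h ≤ hM0 := hh.trans ((min_le_right _ _).trans (min_le_right _ _))
  -- the left end
  set x0 : ℝ := sl ^ 2 * h with hx0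
  have hx0pos : 0 < x0 := by positivity
  have hx0h : x0 ≤ h := by
    have h1 : sl ^ 2 ≤ 1 := pow_le_one₀ hsl0.le hsl1
    calc x0 = sl ^ 2 * h := rfl
      _ ≤ 1 * h := mul_le_mul_of_nonneg_right h1 hh0.le
      _ = h := one_mul h
  have hsqx0 : Real.sqrt x0 = sl * Real.sqrt h := by
    rw [hx0, Real.sqrt_mul (by positivity), Real.sqrt_sq hsl0.le]
  obtain ⟨l, hl⟩ := exists_nat_ge (1 / x0 ^ 5)
  have hlx : ∀ x : ℝ, x0 ≤ x → 1 / x ^ 5 ≤ (l : ℝ) := by
    intro x hx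
    have h1 : x0 ^ 5 ≤ x ^ 5 := pow_le_pow_left₀ hx0pos.le hx 5
    exact (one_div_le_one_div_of_le (by positivity) h1).trans hl
  have hMlow : ∀ x : ℝ, 0 < x → x ≤ h → c' * Real.sqrt x ≤ Mh d pc x := fun x hx hxh =>
    hlow pc x le_rfl hpc1.le hx (by linarith)
  have hMup : ∀ x : ℝ, 0 < x → x ≤ h → Mh d pc x ≤ C' * Real.sqrt x := by
    intro x hx hxh
    have h1 := hup pc x le_rfl (by linarith) hx (by linarith)
    rw [sub_self, add_zero] at h1
    exact h1
  have hmlow : ∀ x : ℝ, x0 ≤ x → x ≤ h → (1 - η1) * Mh d pc x ≤ mB d l pc x := fun x hx hxh =>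
    hMB pc x l le_rfl (by linarith) (lt_of_lt_of_le hx0pos hx) (hxh.trans hhM) (hlx x hx)
  have hmup : ∀ x : ℝ, 0 < x → x ≤ h → mB d l pc x ≤ Mh d pc x := fun x hx hxh =>
    mB_ub d l pc x hpc0.le hpc1.le hx.le (by linarith)
  have hm2 : ∀ x : ℝ, x0 ≤ x → x ≤ h → c' * Real.sqrt x / 2 ≤ mB d l pc x := by
    intro x hx hxh
    have hxp : 0 < x := lt_of_lt_of_le hx0pos hx
    have h1 := hMlow x hxp hxh
    have h2 := hmlow x hx hxh
    have h3 : 0 ≤ c' * Real.sqrt x := by positivity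
    have h4 : 1 / 2 * Mh d pc x ≤ (1 - η1) * Mh d pc x :=
      mul_le_mul_of_nonneg_right (by linarith) (h3.trans h1)
    linarith
  have hmpos : ∀ x : ℝ, x0 ≤ x → x ≤ h → 0 < mB d l pc x := by
    intro x hx hxh
    have hxp : 0 < x := lt_of_lt_of_le hx0pos hx
    have h1 : 0 < c' * Real.sqrt x / 2 := by
      have := Real.sqrt_pos.2 hxp
      positivity
    exact lt_of_lt_of_le h1 (hm2 x hx hxh)
  -- derivatives
  have hder : ∀ x : ℝ, x0 ≤ x → x ≤ h → HasDerivAt (fun x : ℝ => x / mB d l pc x)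
      ((mB d l pc x - x * mH d l pc x) / mB d l pc x ^ 2) x := by
    intro x hx hxh
    have h1 := (hasDerivAt_id x).div (mB_h d l pc x (by linarith)) (hmpos x hx hxh).ne'
    have h2 : (1 * mB d l pc x - id x * mH d l pc x) / mB d l pc x ^ 2 =
        (mB d l pc x - x * mH d l pc x) / mB d l pc x ^ 2 := by simp
    rw [← h2]
    exact h1
  have hbd : ∀ x : ℝ, x0 ≤ x → x ≤ h → |(mB d l pc x - x * mH d l pc x) / mB d l pc x ^ 2 - b * mH d l pc x| ≤
      η1 * mH d l pc x := by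
    intro x hx hxh
    have hxp : 0 < x := lt_of_lt_of_le hx0pos hx
    have h1 := hRB x l hxp (hxh.trans hhB) (hlx x hx)
    have h2 := hmpos x hx hxh
    have h3 : (mB d l pc x - x * mH d l pc x) / mB d l pc x ^ 2 - b * mH d l pc x =
        (mB d l pc x - x * mH d l pc x - b * (mB d l pc x ^ 2 * mH d l pc x)) / mB d l pc x ^ 2 := by
      field_simp
    rw [h3, abs_div, abs_of_pos (by positivity : (0 : ℝ) < mB d l pc x ^ 2), div_le_iff₀ (by positivity)]
    refine h1.trans (le_of_eq ?_)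
    ring
  have hcontF : ContinuousOn (fun x : ℝ => x / mB d l pc x) (Set.Icc x0 h) := fun x hx =>
    (hder x hx.1 hx.2).continuousAt.continuousWithinAt
  have hcontm : ContinuousOn (fun x : ℝ => mB d l pc x) (Set.Icc x0 h) := fun x hx =>
    (mB_h d l pc x (by linarith [hx.2])).continuousAt.continuousWithinAt
  have hanti : AntitoneOn (fun x : ℝ => x / mB d l pc x - (b + η1) * mB d l pc x) (Set.Icc x0 h) := by
    refine antitoneOn_of_deriv_nonpos (convex_Icc _ _) (hcontF.sub (hcontm.const_smul (b + η1))) ?_ ?_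
    · intro x hx
      rw [interior_Icc] at hx
      exact ((hder x hx.1.le hx.2.le).sub ((mB_h d l pc x (by linarith [hx.2])).const_mul (b + η1))).differentiableAt.differentiableWithinAt
    · intro x hx
      rw [interior_Icc] at hx
      have h1 := ((hder x hx.1.le hx.2.le).sub ((mB_h d l pc x (by linarith [hx.2])).const_mul (b + η1))).deriv
      have h2 := (abs_le.1 (hbd x hx.1.le hx.2.le)).2
      have h3 : deriv (fun x : ℝ => x / mB d l pc x - (b + η1) * mB d l pc x) x =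
          (mB d l pc x - x * mH d l pc x) / mB d l pc x ^ 2 - (b + η1) * mH d l pc x := h1
      rw [h3]
      linarith
  have hmono : MonotoneOn (fun x : ℝ => x / mB d l pc x - (b - η1) * mB d l pc x) (Set.Icc x0 h) := by
    refine monotoneOn_of_deriv_nonneg (convex_Icc _ _) (hcontF.sub (hcontm.const_smul (b - η1))) ?_ ?_
    · intro x hx
      rw [interior_Icc] at hx
      exact ((hder x hx.1.le hx.2.le).sub ((mB_h d l pc x (by linarith [hx.2])).const_mul (b - η1))).differentiableAt.differentiableWithinAt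
    · intro x hx
      rw [interior_Icc] at hx
      have h1 := ((hder x hx.1.le hx.2.le).sub ((mB_h d l pc x (by linarith [hx.2])).const_mul (b - η1))).deriv
      have h2 := (abs_le.1 (hbd x hx.1.le hx.2.le)).1
      have h3 : deriv (fun x : ℝ => x / mB d l pc x - (b - η1) * mB d l pc x) x =
          (mB d l pc x - x * mH d l pc x) / mB d l pc x ^ 2 - (b - η1) * mH d l pc x := h1
      rw [h3]
      linarith
  have hl0 : x0 ∈ Set.Icc x0 h := ⟨le_rfl, hx0h⟩
  have hr0 : h ∈ Set.Icc x0 h := ⟨hx0h, le_rfl⟩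
  have hA1 : h / mB d l pc h - (b + η1) * mB d l pc h ≤ x0 / mB d l pc x0 - (b + η1) * mB d l pc x0 := hanti hl0 hr0 hx0h
  have hA2 : x0 / mB d l pc x0 - (b - η1) * mB d l pc x0 ≤ h / mB d l pc h - (b - η1) * mB d l pc h := hmono hl0 hr0 hx0h
  -- the left end is small
  have hm0pos := hmpos x0 le_rfl hx0h
  have hsqh := Real.sqrt_pos.2 hh0
  have hF0 : x0 / mB d l pc x0 ≤ 2 / c' * (sl * Real.sqrt h) := by
    have h1 := hm2 x0 le_rfl hx0h
    rw [div_le_iff₀ hm0pos]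
    have h2 : x0 = Real.sqrt x0 * Real.sqrt x0 := (Real.mul_self_sqrt hx0pos.le).symm
    have h3 : 2 / c' * Real.sqrt x0 * (c' * Real.sqrt x0 / 2) = Real.sqrt x0 * Real.sqrt x0 := by
      field_simp
    rw [← hsqx0]
    calc x0 = 2 / c' * Real.sqrt x0 * (c' * Real.sqrt x0 / 2) := by rw [h3]; exact h2
      _ ≤ 2 / c' * Real.sqrt x0 * mB d l pc x0 := mul_le_mul_of_nonneg_left h1 (by positivity)
  have hF0' : 0 ≤ x0 / mB d l pc x0 := by positivity
  have hm0 : mB d l pc x0 ≤ C' * (sl * Real.sqrt h) := by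
    rw [← hsqx0]
    exact (hmup x0 hx0pos hx0h).trans (hMup x0 hx0pos hx0h)
  set m : ℝ := mB d l pc h with hm
  set M : ℝ := Mh d pc h with hM
  have hmp : 0 < m := hmpos h hx0h le_rfl
  have hmM : m ≤ M := hmup h hh0 le_rfl
  have hMm : (1 - η1) * M ≤ m := hmlow h hx0h le_rfl
  have hMp : 0 < M := lt_of_lt_of_le hmp hmM
  have hsM : c' * Real.sqrt h ≤ M := hMlow h hh0 le_rfl
  -- the quotient at h
  have hq : |h / m - b * m| ≤ η1 * m + κ * (sl * Real.sqrt h) := by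
    have hs0 : 0 ≤ sl * Real.sqrt h := by positivity
    rw [abs_le]
    constructor
    · have h1 : (b - η1) * mB d l pc x0 ≤ b * (C' * (sl * Real.sqrt h)) := by
        have h2 : (b - η1) * mB d l pc x0 ≤ b * mB d l pc x0 := by nlinarith
        exact h2.trans (mul_le_mul_of_nonneg_left hm0 hb)
      have h3 : κ * (sl * Real.sqrt h) = 2 / c' * (sl * Real.sqrt h) + b * (C' * (sl * Real.sqrt h)) := by
        rw [hκ]; ring
      have h4 : 0 ≤ 2 / c' * (sl * Real.sqrt h) := by positivity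
      rw [h3]
      linarith
    · have h1 : 0 ≤ (b + η1) * mB d l pc x0 := by positivity
      have h3 : κ * (sl * Real.sqrt h) = 2 / c' * (sl * Real.sqrt h) + b * (C' * (sl * Real.sqrt h)) := by
        rw [hκ]; ring
      have h4 : 0 ≤ b * (C' * (sl * Real.sqrt h)) := by
        have : 0 ≤ C' := by linarith
        positivity
      rw [h3]
      linarith
  have hq2 : |h - b * m ^ 2| ≤ (η1 + κ * sl / c') * M ^ 2 := by
    have h1 : h - b * m ^ 2 = (h / m - b * m) * m := by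
      field_simp
    rw [h1, abs_mul, abs_of_pos hmp]
    have h2 : Real.sqrt h ≤ M / c' := by
      rw [le_div_iff₀ hc'0]
      linarith
    have h3 : κ * (sl * Real.sqrt h) ≤ κ * sl / c' * M := by
      have h4 : κ * (sl * Real.sqrt h) ≤ κ * (sl * (M / c')) :=
        mul_le_mul_of_nonneg_left (mul_le_mul_of_nonneg_left h2 hsl0.le) hκ0.le
      refine h4.trans (le_of_eq ?_)
      ring
    have h4 : η1 * m ≤ η1 * M := mul_le_mul_of_nonneg_left hmM hη1pos.le
    have h5 : |h / m - b * m| ≤ (η1 + κ * sl / c') * M := by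
      refine hq.trans ?_
      linarith
    have h6 : 0 ≤ (η1 + κ * sl / c') * M := by positivity
    calc |h / m - b * m| * m ≤ ((η1 + κ * sl / c') * M) * M := mul_le_mul h5 hmM hmp.le h6
      _ = (η1 + κ * sl / c') * M ^ 2 := by ring
  have hsq : M ^ 2 - m ^ 2 ≤ 2 * η1 * M ^ 2 := by
    have h1 : ((1 - η1) * M) ^ 2 ≤ m ^ 2 := pow_le_pow_left₀ (mul_nonneg (by linarith) hMp.le) hMm 2
    have h2 : 0 ≤ η1 ^ 2 * M ^ 2 := by positivity
    have h3 : ((1 - η1) * M) ^ 2 = M ^ 2 - 2 * η1 * M ^ 2 + η1 ^ 2 * M ^ 2 := by ring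
    rw [h3] at h1
    linarith
  have hsq0 : 0 ≤ M ^ 2 - m ^ 2 := by
    have h1 : m ^ 2 ≤ M ^ 2 := pow_le_pow_left₀ hmp.le hmM 2
    linarith
  calc |h - b * M ^ 2| = |(h - b * m ^ 2) - b * (M ^ 2 - m ^ 2)| := by
        congr 1
        ring
    _ ≤ |h - b * m ^ 2| + |b * (M ^ 2 - m ^ 2)| := abs_sub _ _
    _ ≤ (η1 + κ * sl / c') * M ^ 2 + b * (2 * η1 * M ^ 2) := by
        refine add_le_add hq2 ?_
        rw [abs_of_nonneg (mul_nonneg hb hsq0)]
        exact mul_le_mul_of_nonneg_left hsq hb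
    _ = (η1 * (1 + 2 * b) + κ * sl / c') * M ^ 2 := by ring
    _ ≤ η * M ^ 2 := by
        refine mul_le_mul_of_nonneg_right ?_ (by positivity)
        linarith

/-- Row S3. `Mh_up` at `p = pc`: `Mh ≤ C' √h`, so `h ≥ Mh²/C'²`; with `crit_h` (`η = 1/(2 C'²)`, `Mh > 0` by `Mh_low`): `b ≥ 1/(2 C'²)`. -/
lemma b_pos {d : ℕ} {C c e pc : ℝ} (ht : HT d C c e pc) {b : ℝ} (hb : 0 ≤ b) (hB : RB d pc b) : 0 < b := by
  obtain ⟨C', hC1, hup⟩ := Mh_up ht
  obtain ⟨c', hc', hlow⟩ := Mh_low ht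
  have hC0 : 0 < C' := by linarith
  have hη : 0 < 1 / (2 * C' ^ 2) := by positivity
  obtain ⟨h0, hh0, hcr⟩ := crit_h ht hb hB (1 / (2 * C' ^ 2)) hη
  have e0 := ht.e0
  have e1 := ht.e1
  set h : ℝ := min h0 (1 / 2) with hdef
  have hpos : 0 < h := lt_min hh0 (by norm_num)
  have hlt : h < 1 := lt_of_le_of_lt (min_le_right _ _) (by norm_num)
  have h1 := hcr h hpos (min_le_left _ _)
  have h2 := hup pc h le_rfl (by linarith) hpos hlt
  have h3 := hlow pc h le_rfl (by linarith) hpos hlt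
  have hs : 0 < Real.sqrt h := Real.sqrt_pos.mpr hpos
  have hM : 0 < Mh d pc h := lt_of_lt_of_le (mul_pos hc' hs) h3
  have h4 : Mh d pc h ≤ C' * Real.sqrt h := by simpa using h2
  have h5 : Mh d pc h ^ 2 ≤ C' ^ 2 * h := by
    have := pow_le_pow_left₀ hM.le h4 2
    rwa [mul_pow, Real.sq_sqrt hpos.le] at this
  by_contra hcon
  have hb0 : b = 0 := le_antisymm (not_lt.mp hcon) hb
  rw [hb0] at h1
  have h6 : h ≤ 1 / (2 * C' ^ 2) * Mh d pc h ^ 2 := by
    have := (abs_le.mp h1).2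
    linarith
  have h7 : 1 / (2 * C' ^ 2) * Mh d pc h ^ 2 ≤ 1 / (2 * C' ^ 2) * (C' ^ 2 * h) :=
    mul_le_mul_of_nonneg_left h5 hη.le
  have h8 : 1 / (2 * C' ^ 2) * (C' ^ 2 * h) = h / 2 := by
    field_simp
  linarith

private lemma S4_core {m0 mB' mP' mH' a a' : ℝ} (h0 : 0 < m0) (hH : 0 < mH') (haa : a' < a)
    (hR : |mP' - a * (mB' * mH')| ≤ (a - a') / 2 * (mB' * mH')) (hG : mB' = m0) :
    -(mP' - a' * m0 * mH') < 0 := by
  subst hG
  have h1 := (abs_le.1 hR).1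
  have h2 : 0 < mB' * mH' := mul_pos h0 hH
  nlinarith [mul_pos (sub_pos.2 haa) h2]

private lemma S4_pos {d : ℕ} {C c e pc : ℝ} (ht : HT d C c e pc) :
    ∃ h0 : ℝ, 0 < h0 ∧ ∀ (h : ℝ) (l : ℕ), 0 < h → h ≤ h0 → 1 / h ^ 5 ≤ (l : ℝ) → 0 < mB d l pc h := by
  obtain ⟨c', hc', hlow⟩ := Mh_low ht
  obtain ⟨h1, hh1, hM⟩ := mB_Mh ht (1 / 2) (by norm_num)
  refine ⟨min h1 (1 / 2), lt_min hh1 (by norm_num), ?_⟩
  intro h l h0 hle hl
  have ha : h ≤ h1 := hle.trans (min_le_left _ _)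
  have hb : h ≤ 1 / 2 := hle.trans (min_le_right _ _)
  have h2 := hM pc h l le_rfl (by linarith [ht.e0]) h0 ha hl
  have h3 := hlow pc h le_rfl ht.hp.p1.le h0 (by linarith)
  have h4 : 0 < c' * Real.sqrt h := mul_pos hc' (Real.sqrt_pos.2 h0)
  linarith

/-- the region for the points of the path -/
private lemma S4_reg {δ ε h κ t : ℝ} {l : ℕ} (hδ : 0 < δ) (hε : 0 < ε) (hκ : 0 ≤ κ)
    (hb : δ * ε ^ 2 ≤ h - κ * ε) (hl : 1 / (δ * ε ^ 2) ^ 5 ≤ (l : ℝ)) (t0 : 0 ≤ t) (t1 : t ≤ ε) :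
    0 < h - κ * t ∧ h - κ * t ≤ h ∧ t ≤ Real.sqrt ((h - κ * t) / δ) ∧ 1 / (h - κ * t) ^ 5 ≤ (l : ℝ) := by
  have h1 : 0 < δ * ε ^ 2 := by positivity
  have h2 : κ * t ≤ κ * ε := mul_le_mul_of_nonneg_left t1 hκ
  have h3 : δ * ε ^ 2 ≤ h - κ * t := by linarith
  have h4 : 0 < h - κ * t := h1.trans_le h3
  refine ⟨h4, ?_, ?_, ?_⟩
  · have := mul_nonneg hκ t0
    linarith
  · refine Real.le_sqrt_of_sq_le ?_
    rw [le_div_iff₀ hδ]
    have h5 : t ^ 2 ≤ ε ^ 2 := pow_le_pow_left₀ t0 t1 2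
    nlinarith
  · refine le_trans ?_ hl
    exact one_div_le_one_div_of_le (pow_pos h1 5) (pow_le_pow_left₀ h1.le h3 5)

/-- Row S4. Barrier from below. `κ = a' mB d l pc h`, `G t = mB d l (pc + t) (h - κ t)`, `t ∈ [0, ε]`. `image_le_of_deriv_right_lt_deriv_boundary` for `f = -G` and the constant `B = -G 0`
(`mB_path`): if `G t = G 0` then `G' = mP - κ mH ≥ ((a - η) G - a' G 0) mH = (a - η - a') (G 0) mH > 0`, `η = (a - a')/2` (`RA`; `mH > 0` by `mH_size`, `G 0 > 0` by `mB_Mh`, `Mh_low`).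
The conditions: `h - κ t ≥ h - κ ε ≥ δ ε² ≥ δ t²`, so `t ≤ √((h - κ t)/δ)` and `1/(h - κ t)^5 ≤ 1/(δ ε²)^5 ≤ l`; `h - κ t ≤ h ≤ ε0`. -/
lemma bar_low {d : ℕ} {C c e pc : ℝ} (ht : HT d C c e pc) {a : ℝ} (hA : RA d pc a) (a' δ : ℝ) (ha' : 0 ≤ a') (haa : a' < a) (hδ : 0 < δ) (hδ1 : δ ≤ 1) :
    ∃ ε0 : ℝ, 0 < ε0 ∧ ∀ (ε h : ℝ) (l : ℕ), 0 < ε → ε ≤ ε0 → 0 < h → h ≤ ε0 → δ * ε ^ 2 ≤ h - a' * mB d l pc h * ε → 1 / (δ * ε ^ 2) ^ 5 ≤ (l : ℝ) →
      mB d l pc h ≤ mB d l (pc + ε) (h - a' * mB d l pc h * ε) := by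
  obtain ⟨hA0, hhA, hR⟩ := hA δ hδ hδ1 ((a - a') / 2) (by linarith)
  obtain ⟨cH, hH0, hcH, hhH, hS⟩ := mH_size ht δ hδ hδ1
  obtain ⟨hB0, hhB, hP⟩ := S4_pos ht
  refine ⟨min (min hA0 hH0) (min hB0 (min e (1 / 2))), ?_, ?_⟩
  · exact lt_min (lt_min hhA hhH) (lt_min hhB (lt_min ht.e0 (by norm_num)))
  intro ε h l hε hεle hh0 hle hb hl
  have e1 : h ≤ hA0 := hle.trans ((min_le_left _ _).trans (min_le_left _ _))
  have e2 : h ≤ hH0 := hle.trans ((min_le_left _ _).trans (min_le_right _ _))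
  have e3 : h ≤ hB0 := hle.trans ((min_le_right _ _).trans (min_le_left _ _))
  have e4 : h ≤ 1 / 2 := hle.trans ((min_le_right _ _).trans ((min_le_right _ _).trans (min_le_right _ _)))
  have e5 : ε ≤ e := hεle.trans ((min_le_right _ _).trans ((min_le_right _ _).trans (min_le_left _ _)))
  have hd0 : 0 < δ * ε ^ 2 := by positivity
  have hpe := ht.e1
  have hG0 : 0 < mB d l pc h := by
    refine hP h l hh0 e3 ?_
    refine le_trans (one_div_le_one_div_of_le (pow_pos hd0 5) (pow_le_pow_left₀ hd0.le ?_ 5)) hl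
    have := mB_nonneg d l pc h ht.hp.p0.le ht.hp.p1.le hh0.le (by linarith)
    have : 0 ≤ a' * mB d l pc h * ε := by positivity
    linarith
  have hκ : 0 ≤ a' * mB d l pc h := mul_nonneg ha' hG0.le
  have key := image_le_of_deriv_right_lt_deriv_boundary
    (f := fun t : ℝ => -mB d l (pc + t) (h - a' * mB d l pc h * t))
    (f' := fun t : ℝ => -(mP d l (pc + t) (h - a' * mB d l pc h * t) -
      a' * mB d l pc h * mH d l (pc + t) (h - a' * mB d l pc h * t)))
    (a := 0) (b := ε) (B := fun _ => -mB d l pc h) (B' := fun _ => 0) ?_ ?_ ?_ ?_ ?_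
  · have h5 := key (Set.right_mem_Icc.2 hε.le)
    linarith
  · intro t ht'
    obtain ⟨r1, r2, r3, r4⟩ := S4_reg hδ hε hκ hb hl ht'.1 ht'.2
    exact (mB_path d l pc h (a' * mB d l pc h) t (by linarith [ht'.2]) (by linarith)).neg.continuousAt.continuousWithinAt
  · intro t ht'
    obtain ⟨r1, r2, r3, r4⟩ := S4_reg hδ hε hκ hb hl ht'.1 ht'.2.le
    exact (mB_path d l pc h (a' * mB d l pc h) t (by linarith [ht'.2]) (by linarith)).neg.hasDerivWithinAt
  · simp
  · intro t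
    exact hasDerivAt_const t _
  · intro t ht' hG
    obtain ⟨r1, r2, r3, r4⟩ := S4_reg hδ hε hκ hb hl ht'.1 ht'.2.le
    simp only [neg_inj] at hG
    have hs := hS (pc + t) (h - a' * mB d l pc h * t) l (by linarith [ht'.1]) (by linarith) r1 (by linarith) r4
    have hr := hR (pc + t) (h - a' * mB d l pc h * t) l (by linarith [ht'.1]) (by linarith) r1 (by linarith) r4
    have hHpos : 0 < mH d l (pc + t) (h - a' * mB d l pc h * t) :=
      lt_of_lt_of_le (div_pos hcH (Real.sqrt_pos.2 r1)) hs.1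
    exact S4_core hG0 hHpos haa hr hG

/-- Row S5. Barrier from above: the same with `f = G`, `B = G 0`: if `G t = G 0` then `G' ≤ (a + η - a') (G 0) mH < 0`, `η = (a' - a)/2`. -/
lemma bar_up {d : ℕ} {C c e pc : ℝ} (ht : HT d C c e pc) {a : ℝ} (ha : 0 ≤ a) (hA : RA d pc a) (a' δ : ℝ) (haa : a < a') (hδ : 0 < δ) (hδ1 : δ ≤ 1) :
    ∃ ε0 : ℝ, 0 < ε0 ∧ ∀ (ε h : ℝ) (l : ℕ), 0 < ε → ε ≤ ε0 → 0 < h → h ≤ ε0 → δ * ε ^ 2 ≤ h - a' * mB d l pc h * ε → 1 / (δ * ε ^ 2) ^ 5 ≤ (l : ℝ) →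
      mB d l (pc + ε) (h - a' * mB d l pc h * ε) ≤ mB d l pc h := by
  obtain ⟨h0, hh0, hrel⟩ := hA δ hδ hδ1 ((a' - a) / 2) (by linarith)
  obtain ⟨c', h1, hc', hh1, hsize⟩ := mH_size ht δ hδ hδ1
  obtain ⟨h2, hh2, hmB⟩ := mB_Mh ht (1 / 2) (by norm_num)
  obtain ⟨c'', hc'', hlow⟩ := Mh_low ht
  have hp0 : 0 < pc := ht.hp.p0
  have hp1 : pc < 1 := ht.hp.p1
  have he0 : 0 < e := ht.e0
  have he1 : pc + e < 1 := ht.e1
  refine ⟨min (min h0 h1) (min (min h2 e) (1 / 2)), lt_min (lt_min hh0 hh1) (lt_min (lt_min hh2 he0) (by norm_num)), ?_⟩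
  intro ε h l hε hεle hpos hhle hreg hl
  have hεe : ε ≤ e := hεle.trans ((min_le_right _ _).trans ((min_le_left _ _).trans (min_le_right _ _)))
  have hha : h ≤ h0 := hhle.trans ((min_le_left _ _).trans (min_le_left _ _))
  have hhb : h ≤ h1 := hhle.trans ((min_le_left _ _).trans (min_le_right _ _))
  have hhc : h ≤ h2 := hhle.trans ((min_le_right _ _).trans ((min_le_left _ _).trans (min_le_left _ _)))
  have hhd : h ≤ 1 / 2 := hhle.trans ((min_le_right _ _).trans (min_le_right _ _))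
  have hmn : 0 ≤ mB d l pc h := mB_nonneg d l pc h hp0.le hp1.le hpos.le (by linarith)
  have ha' : 0 ≤ a' := by linarith
  obtain ⟨κ, hκ⟩ : ∃ κ, κ = a' * mB d l pc h := ⟨_, rfl⟩
  have hκ0 : 0 ≤ κ := by rw [hκ]; exact mul_nonneg ha' hmn
  rw [← hκ] at hreg ⊢
  have hδε : 0 < δ * ε ^ 2 := by positivity
  -- the size of the field on the path
  have hfield : ∀ t : ℝ, 0 ≤ t → t ≤ ε → δ * ε ^ 2 ≤ h - κ * t ∧ h - κ * t ≤ h := by
    intro t ht0 ht1
    have k1 : κ * t ≤ κ * ε := mul_le_mul_of_nonneg_left ht1 hκ0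
    have k2 : 0 ≤ κ * t := mul_nonneg hκ0 ht0
    constructor <;> linarith
  have hlt : ∀ x : ℝ, δ * ε ^ 2 ≤ x → 1 / x ^ 5 ≤ (l : ℝ) := by
    intro x hx
    refine le_trans ?_ hl
    apply one_div_le_one_div_of_le (by positivity)
    exact pow_le_pow_left₀ hδε.le hx 5
  have hsq : ∀ t x : ℝ, 0 ≤ t → t ≤ ε → δ * ε ^ 2 ≤ x → pc + t ≤ pc + Real.sqrt (x / δ) := by
    intro t x ht0 ht1 hx
    have k1 : ε ^ 2 ≤ x / δ := by
      rw [le_div_iff₀ hδ]
      linarith
    have k2 : ε ≤ Real.sqrt (x / δ) := Real.le_sqrt_of_sq_le k1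
    linarith
  -- positivity at the start
  have hF0 : 0 < mB d l pc h := by
    have hx : δ * ε ^ 2 ≤ h := by
      have := (hfield 0 le_rfl hε.le).1
      simpa using this
    have k1 := hmB pc h l le_rfl (by linarith) hpos hhc (hlt h hx)
    have k2 := hlow pc h le_rfl hp1.le hpos (by linarith)
    have k3 : 0 < c'' * Real.sqrt h := mul_pos hc'' (Real.sqrt_pos.2 hpos)
    linarith
  have hder : ∀ t : ℝ, 0 ≤ t → t ≤ ε → HasDerivAt (fun t : ℝ => mB d l (pc + t) (h - κ * t))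
      (mP d l (pc + t) (h - κ * t) - κ * mH d l (pc + t) (h - κ * t)) t := by
    intro t ht0 ht1
    apply mB_path
    · have : pc + t < 1 := by linarith
      exact this.ne
    · have : h - κ * t < 1 := by linarith [(hfield t ht0 ht1).2]
      exact this.ne
  have hmain := image_le_of_deriv_right_lt_deriv_boundary
    (f := fun t : ℝ => mB d l (pc + t) (h - κ * t))
    (f' := fun t : ℝ => mP d l (pc + t) (h - κ * t) - κ * mH d l (pc + t) (h - κ * t))
    (a := 0) (b := ε)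
    (fun t ht => (hder t ht.1 ht.2).continuousAt.continuousWithinAt)
    (fun t ht => (hder t ht.1 ht.2.le).hasDerivWithinAt)
    (B := fun _ => mB d l pc h) (B' := fun _ => 0)
    (by simp) (fun x => hasDerivAt_const x _) (by
      intro t ht heq
      have heq' : mB d l (pc + t) (h - κ * t) = mB d l pc h := heq
      obtain ⟨f1, f2⟩ := hfield t ht.1 ht.2.le
      have f0 : 0 < h - κ * t := lt_of_lt_of_le hδε f1
      have f3 := hsq t (h - κ * t) ht.1 ht.2.le f1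
      have r1 := hrel (pc + t) (h - κ * t) l (by linarith [ht.1]) f3 f0 (by linarith) (hlt _ f1)
      have r2 := hsize (pc + t) (h - κ * t) l (by linarith [ht.1]) f3 f0 (by linarith) (hlt _ f1)
      have r3 : 0 < mH d l (pc + t) (h - κ * t) :=
        lt_of_lt_of_le (div_pos hc' (Real.sqrt_pos.2 f0)) r2.1
      rw [heq'] at r1
      have r4 := (abs_le.1 r1).2
      have r5 : 0 < mB d l pc h * mH d l (pc + t) (h - κ * t) := mul_pos hF0 r3
      have r6 : 0 < (a' - a) / 2 * (mB d l pc h * mH d l (pc + t) (h - κ * t)) :=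
        mul_pos (by linarith) r5
      show mP d l (pc + t) (h - κ * t) - κ * mH d l (pc + t) (h - κ * t) < 0
      rw [hκ] at r4 r6 ⊢
      nlinarith [r4, r6])
  exact hmain ⟨hε.le, le_rfl⟩

/-- Row S6. If the centre of the box of side `2 N + 1` is joined to the boundary then its cluster has at least `N + 1` points (`cl_nd`, Z/La.lean). So (`piF_one`, `Mh_ub`)
`Mh ≥ Ex (gh h |cu (ctr)|) ≥ (1 - (1-h)^(N+1)) aM d N p ≥ (1 - (1-h)^(N+1)) th d p` (`th_le`); let `N → ∞`. -/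
lemma th_le_Mh (d : ℕ) {p h : ℝ} (hp0 : 0 ≤ p) (hp1 : p ≤ 1) (h0 : 0 < h) (h1 : h ≤ 1) : th d p ≤ Mh d p h := by
  classical
  have hth0 : 0 ≤ th d p := by
    apply le_th
    intro M
    unfold aM
    exact Ex_nonneg hp0 hp1 fun ω => by split_ifs <;> norm_num
  have hM0 : ∀ N : ℕ, gh h (N + 1) * th d p ≤ Mh d p h := by
    intro N
    have hg0 : 0 ≤ gh h (N + 1) := gh_nonneg h0.le h1 _
    have hstep : gh h (N + 1) * aM d N p ≤
        Ex p (fun ω => gh h (cu (gends (boxG d (2 * N + 1))) ω (ctr d N)).card) := by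
      unfold aM
      rw [← Ex_mul_left]
      apply Ex_mono hp0 hp1
      intro ω
      by_cases harm : arm d N ω
      · rw [if_pos harm, mul_one]
        apply gh_mono h0.le h1
        unfold arm at harm
        obtain ⟨y, hy, hb⟩ := Finset.not_disjoint_iff.1 harm
        have hcl := cl_nd ω (ctr d N) y hy
        obtain ⟨-, i, hi⟩ := Finset.mem_filter.1 hb
        have hnd : ((ctr d N i : ℕ) - (y i : ℕ)) + ((y i : ℕ) - (ctr d N i : ℕ)) ≤ nd (ctr d N) y :=
          Finset.le_sup (f := fun i => ((ctr d N i : ℕ) - (y i : ℕ)) + ((y i : ℕ) - (ctr d N i : ℕ)))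
            (Finset.mem_univ i)
        have hc : (ctr d N i : ℕ) = N := rfl
        rw [hc] at hnd
        have hlt := (y i).isLt
        rcases hi with hi | hi <;> omega
      · rw [if_neg harm, mul_zero]
        exact gh_nonneg h0.le h1 _
    have h2 := Mh_ub (ctr d N) p h hp0 hp1 h0.le h1
    rw [piF_one] at h2
    exact le_trans (mul_le_mul_of_nonneg_left (th_le hp0 hp1 N) hg0) (le_trans hstep h2)
  have hlim : Tendsto (fun N : ℕ => gh h (N + 1) * th d p) atTop (𝓝 ((1 - 0) * th d p)) := by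
    apply Tendsto.mul_const
    unfold gh
    apply Tendsto.const_sub
    exact (tendsto_pow_atTop_nhds_zero_of_lt_one (by linarith) (by linarith)).comp
      (tendsto_add_atTop_nat 1)
  have := le_of_tendsto' hlim hM0
  linarith

/-- Row S7. For a box and a vertex `x` (`piF_one`; `Mh` is a supremum over a nonempty set, `csSup_le`): `gh h k ≤ 1` and `gh h k ≤ k h` (`gh_le`), so `gh h |cu x| ≤ 1[K ≤ cz x] + h min (cz x) K`;
`min_tail2` (Pro.lean) with `w = p - pc`. (If `l = 0` and `0 < d` there is no vertex.) -/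
lemma Mh_le_th {d : ℕ} {C c e pc : ℝ} (ht : HT d C c e pc) {p h K θ : ℝ} (hp : pc ≤ p) (hpe : p ≤ pc + e) (h0 : 0 ≤ h) (h1 : h ≤ 1) (hK : 1 ≤ K)
    (hU : ∀ (l : ℕ) (x : Fin d → Fin l), Ex p (fun ω => open scoped Classical in if K ≤ cz (gends (boxG d l)) ω x then (1 : ℝ) else 0) ≤ θ) :
    Mh d p h ≤ θ + h * (3 * C * Real.sqrt K + 2 * C * (p - pc) * K) := by
  classical
  have hp0 : 0 ≤ p := le_trans ht.hp.p0.le hp
  have hp1 : p ≤ 1 := le_trans hpe ht.e1.le
  have hK0 : (0 : ℝ) ≤ K := le_trans zero_le_one hK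
  apply csSup_le
  · exact ⟨_, 1, fun _ => 0, rfl⟩
  · rintro r ⟨l, x, rfl⟩
    rw [piF_one]
    have hpt : ∀ ω : (boxG d l).edgeSet → Bool, gh h (cu (gends (boxG d l)) ω x).card ≤
        (if K ≤ cz (gends (boxG d l)) ω x then (1 : ℝ) else 0) + h * min (cz (gends (boxG d l)) ω x) K := by
      intro ω
      have hz : cz (gends (boxG d l)) ω x = ((cu (gends (boxG d l)) ω x).card : ℝ) := rfl
      have hz0 : 0 ≤ cz (gends (boxG d l)) ω x := by rw [hz]; positivity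
      by_cases hc : K ≤ cz (gends (boxG d l)) ω x
      · rw [if_pos hc]
        have h2 := gh_le_one h0 h1 (cu (gends (boxG d l)) ω x).card
        have h3 : 0 ≤ h * min (cz (gends (boxG d l)) ω x) K := mul_nonneg h0 (le_min hz0 hK0)
        linarith
      · rw [if_neg hc, zero_add, min_eq_left (not_le.1 hc).le]
        have h2 := gh_le h0 h1 (cu (gends (boxG d l)) ω x).card
        rw [hz, mul_comm]
        exact h2
    have hE := Ex_mono hp0 hp1 hpt
    rw [Ex_add, Ex_mul_left] at hE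
    have hmin := min_tail2 (ends := gends (boxG d l)) (p := p) (C := C) (w := p - pc) hp0 hp1
      (le_trans zero_le_one ht.hp.C1) (sub_nonneg.2 hp) x
      (fun k hk => by
        have := ht.T l x p k hp hpe hk
        exact this) hK
    have hU' := hU l x
    have h4 := mul_le_mul_of_nonneg_left hmin h0
    have h5 : Ex p (fun ω => if K ≤ cz (gends (boxG d l)) ω x then (1 : ℝ) else 0) ≤ θ := by
      refine le_trans (le_of_eq ?_) hU'
      congr!
    linarith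

/-- Row S8. `gh` is monotone in `h`. -/
lemma Mh_mono (d : ℕ) {p h h' : ℝ} (hp0 : 0 ≤ p) (hp1 : p ≤ 1) (h0 : 0 ≤ h) (hh : h ≤ h') (h1 : h' ≤ 1) : Mh d p h ≤ Mh d p h' := by
  unfold Mh
  refine csSup_le ⟨_, 1, fun _ => 0, rfl⟩ ?_
  rintro r ⟨l, x, rfl⟩
  refine le_trans ?_ (Mh_ub x p h' hp0 hp1 (h0.trans hh) h1)
  rw [piF_one, piF_one]
  refine Ex_mono hp0 hp1 fun ω => ?_
  unfold gh
  have h2 : (1 - h') ^ (cu (gends (boxG d l)) ω x).card ≤ (1 - h) ^ (cu (gends (boxG d l)) ω x).card :=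
    pow_le_pow_left₀ (by linarith) (by linarith) _
  linarith

end Pool.Agent.PERC29.DZ
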