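import Pool.Agent.Lib.MP_29e17e_pr.V.Bx
import Pool.Agent.Lib.MP_29e17e_pr.Z.Gn
import Pool.Agent.Lib.MP_29e17e_pr.Z.Kz

namespace Pool.Agent.PERC29
end Pool.Agent.PERC29
namespace Pool.Agent.PERC29.AE
end Pool.Agent.PERC29.AE

set_option autoImplicit false
set_option linter.unusedSectionVars false

/-! Rows 29d-W1 .. 29d-W8: the window of radius `R`. -/

open Finset

namespace Pool.Agent.PERC29.DZ

open Pool.Agent.PERC29 Pool.Agent.PERC29.AE

variable {d : ℕ}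

/-- Row W1. Every lattice point of norm `≤ R+1` is the relative position of a vertex of the window. -/
lemma ex_rel (R : ℕ) (v : Zd d) (hv : nz v ≤ R + 1) : ∃ x, rel (cR d R) x = v := by
  have h : ∀ i, (v i).natAbs ≤ R + 1 := by
    intro i
    exact le_trans (Finset.le_sup (f := fun i => (v i).natAbs) (Finset.mem_univ i)) hv
  refine ⟨fun i => ⟨(v i + (R : ℤ) + 1).toNat, ?_⟩, ?_⟩
  · have := h i
    omega
  · funext i
    have := h i
    simp only [rel, cR]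
    push_cast
    omega

lemma nz_cR (R : ℕ) (x : Fin d → Fin (2 * R + 3)) : nz (rel (cR d R) x) ≤ R + 1 := by
  unfold nz
  refine Finset.sup_le ?_
  intro i _
  have := (x i).isLt
  simp only [rel, cR]
  omega

/-- Row W1. Adjacent vertices: the relative positions differ by a unit vector; conversely two points whose difference is `± e_i` are joined by an edge. -/
lemma adj_rel {l : ℕ} (u x y : Fin d → Fin l) : (boxG d l).Adj x y ↔
    ∃ i, rel u y = rel u x + Pi.single i 1 ∨ rel u x = rel u y + Pi.single i 1 := by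
  have key : ∀ (a b : Fin d → Fin l) (i : Fin d), rel u b = rel u a + Pi.single i 1 ↔
      ((a i : ℕ) + 1 = (b i : ℕ) ∧ ∀ j, j ≠ i → a j = b j) := by
    intro a b i
    constructor
    · intro h
      have h1 := fun j => congrFun h j
      refine ⟨?_, ?_⟩
      · have h2 := h1 i
        simp only [rel, Pi.add_apply, Pi.single_eq_same] at h2
        omega
      · intro j hj
        have h2 := h1 j
        simp only [rel, Pi.add_apply, Pi.single_eq_of_ne hj] at h2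
        apply Fin.ext
        omega
    · rintro ⟨h1, h2⟩
      funext j
      by_cases hj : j = i
      · subst hj
        simp only [rel, Pi.add_apply, Pi.single_eq_same]
        omega
      · have h3 := h2 j hj
        simp only [rel, Pi.add_apply, Pi.single_eq_of_ne hj, h3]
        omega
  constructor
  · rintro ⟨i, h, h'⟩
    refine ⟨i, ?_⟩
    rcases h with h | h
    · left
      exact (key x y i).2 ⟨h, h'⟩
    · right
      exact (key y x i).2 ⟨h, fun j hj => (h' j hj).symm⟩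
  · rintro ⟨i, h | h⟩
    · obtain ⟨h1, h2⟩ := (key x y i).1 h
      exact ⟨i, Or.inl h1, h2⟩
    · obtain ⟨h1, h2⟩ := (key y x i).1 h
      exact ⟨i, Or.inr h1, fun j hj => (h2 j hj).symm⟩

lemma adj_nz {l : ℕ} (u x y : Fin d → Fin l) (h : (boxG d l).Adj x y) : nz (rel u x - rel u y) = 1 := by
  obtain ⟨i, h, h'⟩ := h
  unfold nz
  apply le_antisymm
  · refine Finset.sup_le ?_
    intro j _
    by_cases hj : j = i
    · subst hj
      simp only [rel, Pi.sub_apply]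
      omega
    · have h3 := h' j hj
      simp only [rel, Pi.sub_apply, h3]
      omega
  · refine le_trans ?_ (Finset.le_sup (f := fun j => ((rel u x - rel u y) j).natAbs) (Finset.mem_univ i))
    simp only [rel, Pi.sub_apply]
    omega

/-- Row W1. `mem_cS`, `cS_off`. -/
lemma Bz_ball {l : ℕ} (u : Fin d → Fin l) (R : ℕ) (D A : Finset (Zd d)) (ω : (boxG d l).edgeSet → Bool) :
    Bz u R D A ω ⊆ bz R := by
  intro v hv
  unfold Bz at hv
  obtain ⟨x, hx, rfl⟩ := Finset.mem_image.1 hv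
  have h := cS_off hx
  by_contra hn
  exact h (Or.inr hn)

lemma Bz_off {l : ℕ} (u : Fin d → Fin l) (R : ℕ) (D A : Finset (Zd d)) (ω : (boxG d l).edgeSet → Bool) (v : Zd d)
    (hv : v ∈ Bz u R D A ω) : v ∉ D := by
  unfold Bz at hv
  obtain ⟨x, hx, rfl⟩ := Finset.mem_image.1 hv
  have h := cS_off hx
  intro hn
  exact h (Or.inl hn)

lemma Wb_start (R : ℕ) (D A : Finset (Zd d)) (ω : Om d R) (a : Zd d) (ha : a ∈ A) (haD : a ∉ D) (haR : nz a ≤ R) :
    a ∈ Wb R D A ω := by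
  obtain ⟨x, rfl⟩ := ex_rel R a (by omega)
  unfold Wb Bz
  refine Finset.mem_image.2 ⟨x, ?_, rfl⟩
  unfold BB
  refine mem_cS.2 ⟨x, ha, ?_, Rch.refl x⟩
  rintro (h | h)
  · exact haD h
  · exact h ((mem_bz R _).2 haR)

lemma mem_Wb (R : ℕ) (D A : Finset (Zd d)) (ω : Om d R) (x : Fin d → Fin (2 * R + 3)) :
    rel (cR d R) x ∈ Wb R D A ω ↔ x ∈ BB (cR d R) R D A ω := by
  unfold Wb Bz
  constructor
  · intro h
    obtain ⟨y, hy, hyx⟩ := Finset.mem_image.1 h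
    rwa [← rel_inj (cR d R) hyx]
  · intro h
    exact Finset.mem_image.2 ⟨x, h, rfl⟩

/-- Row W1. A point of `Nz` is off `D` and off `Bz`, at distance one from a point of `Bz`, of norm at most `R+1`. -/
lemma Nz_pt {l : ℕ} (u : Fin d → Fin l) (R : ℕ) (D A : Finset (Zd d)) (ω η : (boxG d l).edgeSet → Bool) (v : Zd d)
    (hv : v ∈ Nz u R D A ω η) : v ∉ D ∧ v ∉ Bz u R D A ω ∧ nz v ≤ R + 1 ∧ ∃ a ∈ Bz u R D A ω, nz (v - a) = 1 := by
  unfold Nz at hv
  obtain ⟨y, hy, rfl⟩ := Finset.mem_image.1 hv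
  unfold NB at hy
  simp only [Finset.mem_filter] at hy
  obtain ⟨-, hyD, hyB, a, ha, e, he, -⟩ := hy
  have hadj : (boxG d l).Adj a y := by
    have h := e.2
    change (e : Sym2 (Fin d → Fin l)) = s(a, y) at he
    rw [he, SimpleGraph.mem_edgeSet] at h
    exact h
  have h1 : nz (rel u y - rel u a) = 1 := adj_nz u y a hadj.symm
  have haB : rel u a ∈ Bz u R D A ω := by
    unfold Bz
    exact Finset.mem_image.2 ⟨a, ha, rfl⟩
  have haR : nz (rel u a) ≤ R := (mem_bz R _).1 (Bz_ball u R D A ω haB)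
  refine ⟨hyD, ?_, ?_, rel u a, haB, h1⟩
  · intro h
    unfold Bz at h
    obtain ⟨z, hz, hzy⟩ := Finset.mem_image.1 h
    rw [rel_inj u hzy] at hz
    exact hyB hz
  · have h2 := nz_add (rel u y - rel u a) (rel u a)
    rw [sub_add_cancel] at h2
    omega

/-- Row W2. `two_cS`, `fz_rel`, the hypothesis `HP.U` and `ta_mono_p`. (If `nz v > R` the left side is zero.) -/
lemma Wb_two {C pc : ℝ} (hp : HP d C pc) (R : ℕ) (D A : Finset (Zd d)) (hA : A ⊆ bz R) (p1 : ℝ) (h0 : 0 < p1) (h1 : p1 ≤ pc) (v : Zd d) :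
    Ex p1 (fun ω => if v ∈ Wb R D A ω then (1 : ℝ) else 0) ≤ ∑ a ∈ A, C * fz (d - 2) (a - v) := by
  classical
  have hC : (0 : ℝ) ≤ C := le_trans zero_le_one hp.C1
  have hnn : 0 ≤ ∑ a ∈ A, C * fz (d - 2) (a - v) :=
    Finset.sum_nonneg fun a _ => mul_nonneg hC (fz_pos _ _).le
  by_cases hx : ∃ x, rel (cR d R) x = v
  · obtain ⟨x0, rfl⟩ := hx
    have e1 : Ex p1 (fun ω : Om d R => if rel (cR d R) x0 ∈ Wb R D A ω then (1 : ℝ) else 0)
        = Ex p1 (fun ω : Om d R => if x0 ∈ cS (gends (boxG d (2 * R + 3))) ω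
            (pre (cR d R) D ∪ {x | rel (cR d R) x ∉ (bz R : Finset (Zd d))})
            ((Finset.univ.filter (fun x => rel (cR d R) x ∈ A) : Finset (Fin d → Fin (2 * R + 3))) : Set (Fin d → Fin (2 * R + 3)))
            then (1 : ℝ) else 0) := by
      congr 1
      funext ω
      have h1 := mem_Wb R D A ω x0
      have h2 : ((Finset.univ.filter (fun x => rel (cR d R) x ∈ A) : Finset (Fin d → Fin (2 * R + 3))) : Set (Fin d → Fin (2 * R + 3)))
          = pre (cR d R) A := by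
        ext x
        simp [pre]
      rw [h2]
      have h3 : (rel (cR d R) x0 ∈ Wb R D A ω) ↔ (x0 ∈ cS (gends (boxG d (2 * R + 3))) ω
            (pre (cR d R) D ∪ {x | rel (cR d R) x ∉ (bz R : Finset (Zd d))}) (pre (cR d R) A)) := h1
      by_cases h4 : rel (cR d R) x0 ∈ Wb R D A ω
      · rw [if_pos h4, if_pos (h3.mp h4)]
      · rw [if_neg h4, if_neg (fun h5 => h4 (h3.mpr h5))]
    rw [e1]
    refine le_trans (two_cS (ends := gends (boxG d (2 * R + 3))) h0.le (h1.trans hp.p1.le) _ _ _) ?_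
    have e2 : ∑ a ∈ (Finset.univ.filter (fun x => rel (cR d R) x ∈ A) : Finset (Fin d → Fin (2 * R + 3))),
        ta (gends (boxG d (2 * R + 3))) p1 a x0 ≤
        ∑ a ∈ (Finset.univ.filter (fun x => rel (cR d R) x ∈ A) : Finset (Fin d → Fin (2 * R + 3))),
          C * fz (d - 2) (rel (cR d R) a - rel (cR d R) x0) := by
      refine Finset.sum_le_sum fun a _ => ?_
      refine le_trans (ta_mono_p h0.le h1 hp.p1.le _ _) ?_
      rw [fz_rel]
      exact hp.U _ _ _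
    refine le_trans e2 ?_
    have e3 : ∑ a ∈ (Finset.univ.filter (fun x => rel (cR d R) x ∈ A) : Finset (Fin d → Fin (2 * R + 3))),
          C * fz (d - 2) (rel (cR d R) a - rel (cR d R) x0)
        = ∑ b ∈ (Finset.univ.filter (fun x => rel (cR d R) x ∈ A) : Finset (Fin d → Fin (2 * R + 3))).image (rel (cR d R)),
          C * fz (d - 2) (b - rel (cR d R) x0) :=
      (Finset.sum_image (f := fun b : Zd d => C * fz (d - 2) (b - rel (cR d R) x0))
        (fun a _ b _ hab => rel_inj (cR d R) hab)).symm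
    rw [e3]
    refine Finset.sum_le_sum_of_subset_of_nonneg ?_ fun a _ _ => mul_nonneg hC (fz_pos _ _).le
    intro b hb
    rw [Finset.mem_image] at hb
    obtain ⟨a, ha, rfl⟩ := hb
    exact (Finset.mem_filter.mp ha).2
  · have e1 : (fun ω : Om d R => if v ∈ Wb R D A ω then (1 : ℝ) else 0) = fun _ => 0 := by
      funext ω
      refine if_neg fun h => hx ?_
      have h' : v ∈ (BB (cR d R) R D A ω).image (rel (cR d R)) := h
      rw [Finset.mem_image] at h'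
      obtain ⟨x, _, hx2⟩ := h'
      exact ⟨x, hx2⟩
    rw [e1]
    have e2 : Ex p1 (fun _ : Om d R => (0 : ℝ)) = 0 := by
      unfold Ex
      simp
    rw [e2]
    exact hnn

/-- Row W2. `tree_cS` in the window (the sum over `z` only over the ball, otherwise the first factor vanishes). -/
lemma Wb_tree {C pc : ℝ} (hp : HP d C pc) (R : ℕ) (D A : Finset (Zd d)) (hA : A ⊆ bz R) (p1 : ℝ) (h0 : 0 < p1) (h1 : p1 ≤ pc) (u w : Zd d) :
    Ex p1 (fun ω => (if u ∈ Wb R D A ω then (1 : ℝ) else 0) * (if w ∈ Wb R D A ω then 1 else 0)) ≤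
      ∑ z ∈ bz R, Ex p1 (fun ω => if z ∈ Wb R D A ω then (1 : ℝ) else 0) * (C ^ 2 * (fz (d - 2) (z - u) * fz (d - 2) (z - w))) +
      ∑ a ∈ A, ∑ a' ∈ A, C ^ 2 * (fz (d - 2) (a - u) * fz (d - 2) (a' - w)) := by
  classical
  have hC : 0 ≤ C := by linarith [hp.C1]
  have hp1 : p1 ≤ 1 := h1.trans hp.p1.le
  have hpn : 0 ≤ p1 := h0.le
  have hE : ∀ z, 0 ≤ Ex p1 (fun ω : Om d R => if z ∈ Wb R D A ω then (1 : ℝ) else 0) := fun z =>
    Ex_nonneg hpn hp1 (fun ω => by split_ifs <;> norm_num)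
  have hF : ∀ z, 0 ≤ Ex p1 (fun ω : Om d R => if z ∈ Wb R D A ω then (1 : ℝ) else 0) *
      (C ^ 2 * (fz (d - 2) (z - u) * fz (d - 2) (z - w))) := fun z =>
    mul_nonneg (hE z) (mul_nonneg (by positivity)
      (mul_nonneg (fz_pos _ _).le (fz_pos _ _).le))
  have hG : ∀ a a', 0 ≤ C ^ 2 * (fz (d - 2) (a - u) * fz (d - 2) (a' - w)) := fun a a' =>
    mul_nonneg (by positivity) (mul_nonneg (fz_pos _ _).le (fz_pos _ _).le)
  have hRHS : 0 ≤ ∑ z ∈ bz R, Ex p1 (fun ω : Om d R => if z ∈ Wb R D A ω then (1 : ℝ) else 0) *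
      (C ^ 2 * (fz (d - 2) (z - u) * fz (d - 2) (z - w))) +
      ∑ a ∈ A, ∑ a' ∈ A, C ^ 2 * (fz (d - 2) (a - u) * fz (d - 2) (a' - w)) :=
    add_nonneg (Finset.sum_nonneg fun z _ => hF z)
      (Finset.sum_nonneg fun a _ => Finset.sum_nonneg fun a' _ => hG a a')
  by_cases hu : nz u ≤ R
  swap
  · have h : ∀ ω : Om d R, u ∉ Wb R D A ω := fun ω h =>
      hu ((mem_bz R u).1 (Bz_ball _ _ _ _ _ h))
    rw [Ex_zero_of (fun ω => by rw [if_neg (h ω), zero_mul])]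
    exact hRHS
  by_cases hw : nz w ≤ R
  swap
  · have h : ∀ ω : Om d R, w ∉ Wb R D A ω := fun ω h =>
      hw ((mem_bz R w).1 (Bz_ball _ _ _ _ _ h))
    rw [Ex_zero_of (fun ω => by rw [if_neg (h ω), mul_zero])]
    exact hRHS
  obtain ⟨x, rfl⟩ := ex_rel R u (by omega)
  obtain ⟨y, rfl⟩ := ex_rel R w (by omega)
  let S : Set (Fin d → Fin (2 * R + 3)) :=
    pre (cR d R) D ∪ {x | rel (cR d R) x ∉ (bz R : Finset (Zd d))}
  let A' : Finset (Fin d → Fin (2 * R + 3)) := Finset.univ.filter (fun x => rel (cR d R) x ∈ A)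
  have hA' : (A' : Set (Fin d → Fin (2 * R + 3))) = pre (cR d R) A := by
    ext z
    simp [A', pre]
  have hBB : ∀ (ω : Om d R) (z : Fin d → Fin (2 * R + 3)), rel (cR d R) z ∈ Wb R D A ω ↔
      z ∈ cS (gends (boxG d (2 * R + 3))) ω S (A' : Set (Fin d → Fin (2 * R + 3))) := by
    intro ω z
    rw [mem_Wb, hA']
    rfl
  have key := tree_cS (ends := gends (boxG d (2 * R + 3))) Subtype.val_injective hpn hp1 S A' x y
  have hta : ∀ a b, ta (gends (boxG d (2 * R + 3))) p1 a b ≤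
      C * fz (d - 2) (rel (cR d R) a - rel (cR d R) b) := by
    intro a b
    rw [fz_rel]
    exact (ta_mono_p hpn h1 hp.p1.le a b).trans (hp.U _ a b)
  have ht2 : ∀ a b a' b', ta (gends (boxG d (2 * R + 3))) p1 a b *
      ta (gends (boxG d (2 * R + 3))) p1 a' b' ≤
      C ^ 2 * (fz (d - 2) (rel (cR d R) a - rel (cR d R) b) *
        fz (d - 2) (rel (cR d R) a' - rel (cR d R) b')) := by
    intro a b a' b'
    calc ta (gends (boxG d (2 * R + 3))) p1 a b * ta (gends (boxG d (2 * R + 3))) p1 a' b'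
        ≤ (C * fz (d - 2) (rel (cR d R) a - rel (cR d R) b)) *
          (C * fz (d - 2) (rel (cR d R) a' - rel (cR d R) b')) :=
          mul_le_mul (hta a b) (hta a' b') (ta_nonneg hpn hp1 _ _)
            (mul_nonneg hC (fz_pos _ _).le)
      _ = _ := by ring
  have hL : Ex p1 (fun ω : Om d R => (if rel (cR d R) x ∈ Wb R D A ω then (1 : ℝ) else 0) *
      (if rel (cR d R) y ∈ Wb R D A ω then 1 else 0)) =
      Ex p1 (fun ω => (if x ∈ cS (gends (boxG d (2 * R + 3))) ω S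
        (A' : Set (Fin d → Fin (2 * R + 3))) then (1 : ℝ) else 0) *
      (if y ∈ cS (gends (boxG d (2 * R + 3))) ω S
        (A' : Set (Fin d → Fin (2 * R + 3))) then 1 else 0)) :=
    Ex_congr fun ω => by simp only [hBB]
  rw [hL]
  refine key.trans (add_le_add ?_ ?_)
  · let F : Zd d → ℝ := fun z => Ex p1 (fun ω : Om d R => if z ∈ Wb R D A ω then (1 : ℝ) else 0) *
      (C ^ 2 * (fz (d - 2) (z - rel (cR d R) x) * fz (d - 2) (z - rel (cR d R) y)))
    have s1 : ∀ z, Ex p1 (fun ω => if z ∈ cS (gends (boxG d (2 * R + 3))) ω S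
        (A' : Set (Fin d → Fin (2 * R + 3))) then (1 : ℝ) else 0) *
        (ta (gends (boxG d (2 * R + 3))) p1 z x * ta (gends (boxG d (2 * R + 3))) p1 z y) ≤
        if rel (cR d R) z ∈ (bz R : Finset (Zd d)) then F (rel (cR d R) z) else 0 := by
      intro z
      split_ifs with hz
      · have e1 : Ex p1 (fun ω => if z ∈ cS (gends (boxG d (2 * R + 3))) ω S
            (A' : Set (Fin d → Fin (2 * R + 3))) then (1 : ℝ) else 0) =
            Ex p1 (fun ω : Om d R => if rel (cR d R) z ∈ Wb R D A ω then (1 : ℝ) else 0) :=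
          Ex_congr fun ω => by simp only [hBB]
        rw [e1]
        exact mul_le_mul_of_nonneg_left (ht2 z x z y) (hE _)
      · have hzS : z ∈ S := Or.inr hz
        have e2 : Ex p1 (fun ω => if z ∈ cS (gends (boxG d (2 * R + 3))) ω S
            (A' : Set (Fin d → Fin (2 * R + 3))) then (1 : ℝ) else 0) = 0 :=
          Ex_zero_of fun ω => if_neg fun h => cS_off h hzS
        rw [e2, zero_mul]
    calc _ ≤ ∑ z, (if rel (cR d R) z ∈ (bz R : Finset (Zd d)) then F (rel (cR d R) z) else 0) :=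
          Finset.sum_le_sum fun z _ => s1 z
      _ = ∑ z ∈ (Finset.univ.filter fun z => rel (cR d R) z ∈ (bz R : Finset (Zd d))).image
          (rel (cR d R)), F z := by
          rw [← Finset.sum_filter, Finset.sum_image fun a _ b _ h => rel_inj _ h]
      _ ≤ ∑ z ∈ bz R, F z := by
          refine Finset.sum_le_sum_of_subset_of_nonneg ?_ (fun z _ _ => hF z)
          intro z hz
          obtain ⟨a, ha, rfl⟩ := Finset.mem_image.1 hz
          exact (Finset.mem_filter.1 ha).2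
  · have himg : A'.image (rel (cR d R)) ⊆ A := by
      intro z hz
      obtain ⟨a, ha, rfl⟩ := Finset.mem_image.1 hz
      exact (Finset.mem_filter.1 ha).2
    calc _ ≤ ∑ a ∈ A', ∑ a' ∈ A', C ^ 2 * (fz (d - 2) (rel (cR d R) a - rel (cR d R) x) *
          fz (d - 2) (rel (cR d R) a' - rel (cR d R) y)) :=
          Finset.sum_le_sum fun a _ => Finset.sum_le_sum fun a' _ => ht2 a x a' y
      _ = ∑ a ∈ A'.image (rel (cR d R)), ∑ a' ∈ A'.image (rel (cR d R)),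
          C ^ 2 * (fz (d - 2) (a - rel (cR d R) x) * fz (d - 2) (a' - rel (cR d R) y)) := by
          rw [Finset.sum_image fun a _ b _ h => rel_inj _ h]
          refine Finset.sum_congr rfl fun a _ => ?_
          rw [Finset.sum_image fun a _ b _ h => rel_inj _ h]
      _ ≤ ∑ a ∈ A'.image (rel (cR d R)), ∑ a' ∈ A,
          C ^ 2 * (fz (d - 2) (a - rel (cR d R) x) * fz (d - 2) (a' - rel (cR d R) y)) :=
          Finset.sum_le_sum fun a _ =>
            Finset.sum_le_sum_of_subset_of_nonneg himg (fun a' _ _ => hG a a')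
      _ ≤ _ := Finset.sum_le_sum_of_subset_of_nonneg himg
          (fun a _ _ => Finset.sum_nonneg fun a' _ => hG a a')

/-- Row W3a. One coordinate. -/
lemma W3a_one {E : Type*} [Fintype E] [DecidableEq E] (s : ℝ) (e : E) :
    Ex s (fun η => if η e = true then (1 : ℝ) else 0) = s := by
  have h2 := Ex_coord s e (fun _ : E → Bool => (1 : ℝ)) (fun _ _ _ => rfl)
  rw [Ex_const, mul_one] at h2
  refine Eq.trans ?_ h2
  exact Ex_congr fun η => (mul_one _).symm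

/-- Row W3a. A vertex of `Wr` is the end of an open edge which starts in `Wb`. -/
lemma W3a_pt (R : ℕ) (D A : Finset (Zd d)) (ω η : Om d R) (v : Zd d) (hv : v ∈ Wr R D A ω η) :
    ∃ u ∈ Wb R D A ω, v ∈ bv u 1 ∧
      ∃ a x : Fin d → Fin (2 * R + 3), rel (cR d R) a = u ∧ rel (cR d R) x = v ∧
        ∃ e, gends (boxG d (2 * R + 3)) e = s(a, x) ∧ η e = true := by
  classical
  unfold Wr at hv
  rw [Finset.mem_filter] at hv
  obtain ⟨hv, hvR⟩ := hv
  unfold Wn Nz at hv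
  rw [Finset.mem_image] at hv
  obtain ⟨x, hx, rfl⟩ := hv
  unfold NB at hx
  rw [Finset.mem_filter] at hx
  obtain ⟨-, -, hxB, a, haB, e, he, hη⟩ := hx
  rw [if_pos hvR] at hη
  have hadj : (boxG d (2 * R + 3)).Adj a x := by
    have := e.2
    have he' : e.1 = s(a, x) := he
    rw [he', SimpleGraph.mem_edgeSet] at this
    exact this
  refine ⟨rel (cR d R) a, ?_, ?_, a, x, rfl, rfl, e, he, hη⟩
  · exact Finset.mem_image_of_mem _ haB
  · rw [mem_bv]
    exact (adj_nz (cR d R) x a hadj.symm).le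

open scoped Classical in
/-- Row W3a. The probability of one open edge. -/
lemma W3a_ex (R : ℕ) (s : ℝ) (h0 : 0 ≤ s) (h1 : s ≤ 1) (u v : Zd d) :
    Ex s (fun η : Om d R => if (∃ a x : Fin d → Fin (2 * R + 3), rel (cR d R) a = u ∧ rel (cR d R) x = v ∧
        ∃ e, gends (boxG d (2 * R + 3)) e = s(a, x) ∧ η e = true) then (1 : ℝ) else 0) ≤ s := by
  by_cases hex : ∃ a x : Fin d → Fin (2 * R + 3), rel (cR d R) a = u ∧ rel (cR d R) x = v ∧
        ∃ e, gends (boxG d (2 * R + 3)) e = s(a, x)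
  · obtain ⟨a, x, hau, hxv, e, he⟩ := hex
    conv_rhs => rw [← W3a_one s e]
    apply Ex_mono h0 h1
    intro η
    by_cases hη : ∃ a x : Fin d → Fin (2 * R + 3), rel (cR d R) a = u ∧ rel (cR d R) x = v ∧
        ∃ e, gends (boxG d (2 * R + 3)) e = s(a, x) ∧ η e = true
    · rw [if_pos hη]
      obtain ⟨b, y, hbu, hyv, f, hf, hηf⟩ := hη
      have h1 : f = e := by
        apply Subtype.ext
        have hb : b = a := rel_inj _ (hbu.trans hau.symm)
        have hy : y = x := rel_inj _ (hyv.trans hxv.symm)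
        calc f.1 = s(b, y) := hf
          _ = s(a, x) := by rw [hb, hy]
          _ = e.1 := he.symm
      rw [if_pos (h1 ▸ hηf)]
    · rw [if_neg hη]
      split_ifs <;> norm_num
  · have hz : Ex s (fun η : Om d R => if (∃ a x : Fin d → Fin (2 * R + 3), rel (cR d R) a = u ∧
        rel (cR d R) x = v ∧
        ∃ e, gends (boxG d (2 * R + 3)) e = s(a, x) ∧ η e = true) then (1 : ℝ) else 0) = 0 := by
      apply Ex_zero_of
      intro η
      rw [if_neg]
      rintro ⟨a, x, hau, hxv, e, he, -⟩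
      exact hex ⟨a, x, hau, hxv, e, he⟩
    rw [hz]
    exact h0

/-- Row W3. For fixed `ω`: a vertex `v` of `Wr` is the end of an edge `(a, v)`, `a ∈ Wb`, open in `η` (probability `s`); `v ∈ bv a 1`. Union bound. -/
lemma Wr_le (R : ℕ) (D A : Finset (Zd d)) (ω : Om d R) (s : ℝ) (h0 : 0 ≤ s) (h1 : s ≤ 1) (F : Zd d → ℝ) (hF : ∀ v, 0 ≤ F v) :
    Ex s (fun η => ∑ v ∈ Wr R D A ω η, F v) ≤ s * ∑ u ∈ Wb R D A ω, ∑ v ∈ bv u 1, F v := by
  classical
  set B := Wb R D A ω with hB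
  set op : Zd d → Zd d → Om d R → Prop := fun u v η =>
    ∃ a x : Fin d → Fin (2 * R + 3), rel (cR d R) a = u ∧ rel (cR d R) x = v ∧
      ∃ e, gends (boxG d (2 * R + 3)) e = s(a, x) ∧ η e = true with hop
  have hpt : ∀ η : Om d R, ∑ v ∈ Wr R D A ω η, F v ≤
      ∑ u ∈ B, ∑ v ∈ bv u 1, F v * (if op u v η then (1 : ℝ) else 0) := by
    intro η
    have hnn : ∀ u v, 0 ≤ F v * (if op u v η then (1 : ℝ) else 0) := by
      intro u v
      apply mul_nonneg (hF _)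
      split_ifs <;> norm_num
    calc ∑ v ∈ Wr R D A ω η, F v
        ≤ ∑ v ∈ Wr R D A ω η, ∑ u ∈ B, (if v ∈ bv u 1 then F v * (if op u v η then (1 : ℝ) else 0) else 0) := by
          apply Finset.sum_le_sum
          intro v hv
          obtain ⟨u, hu, h1, h2⟩ := W3a_pt R D A ω η v hv
          have h3 : (if v ∈ bv u 1 then F v * (if op u v η then (1 : ℝ) else 0) else 0) = F v := by
            rw [if_pos h1, if_pos h2, mul_one]
          refine h3.symm.le.trans ?_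
          apply Finset.single_le_sum (f := fun u => if v ∈ bv u 1 then F v * (if op u v η then (1 : ℝ) else 0) else 0) _ hu
          intro w _
          split_ifs
          · exact mul_nonneg (hF _) zero_le_one
          · exact mul_nonneg (hF _) le_rfl
          · exact le_rfl
      _ = ∑ u ∈ B, ∑ v ∈ Wr R D A ω η, (if v ∈ bv u 1 then F v * (if op u v η then (1 : ℝ) else 0) else 0) :=
          Finset.sum_comm
      _ ≤ ∑ u ∈ B, ∑ v ∈ bv u 1, F v * (if op u v η then (1 : ℝ) else 0) := by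
          apply Finset.sum_le_sum
          intro u _
          rw [← Finset.sum_filter]
          apply Finset.sum_le_sum_of_subset_of_nonneg
          · intro v hv
            exact (Finset.mem_filter.mp hv).2
          · intro v _ _
            exact hnn u v
  calc Ex s (fun η => ∑ v ∈ Wr R D A ω η, F v)
      ≤ Ex s (fun η => ∑ u ∈ B, ∑ v ∈ bv u 1, F v * (if op u v η then (1 : ℝ) else 0)) := Ex_mono h0 h1 hpt
    _ = ∑ u ∈ B, ∑ v ∈ bv u 1, Ex s (fun η => F v * (if op u v η then (1 : ℝ) else 0)) := by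
        rw [Ex_sum B s (fun u η => ∑ v ∈ bv u 1, F v * (if op u v η then (1 : ℝ) else 0))]
        refine Finset.sum_congr rfl fun u _ => ?_
        rw [Ex_sum (bv u 1) s (fun v η => F v * (if op u v η then (1 : ℝ) else 0))]
    _ ≤ ∑ u ∈ B, ∑ v ∈ bv u 1, s * F v := by
        apply Finset.sum_le_sum
        intro u _
        apply Finset.sum_le_sum
        intro v _
        rw [Ex_mul_left, mul_comm s]
        apply mul_le_mul_of_nonneg_left _ (hF _)
        exact W3a_ex R s h0 h1 u v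
    _ = s * ∑ u ∈ B, ∑ v ∈ bv u 1, F v := by
        rw [Finset.mul_sum]
        refine Finset.sum_congr rfl fun u _ => ?_
        rw [Finset.mul_sum]

/-- Row W3b. The two different coordinates. -/
lemma W3b_two {E : Type*} [Fintype E] [DecidableEq E] (s : ℝ) (e e' : E) (h : e ≠ e') :
    Ex s (fun η => (if η e = true then (1 : ℝ) else 0) * (if η e' = true then (1 : ℝ) else 0)) = s ^ 2 := by
  have h1 := Ex_coord s e (fun η : E → Bool => if η e' = true then (1 : ℝ) else 0) (by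
    intro η η' hη
    simp only [hη e' (Ne.symm h)])
  have h2 := Ex_coord s e' (fun _ : E → Bool => (1 : ℝ)) (fun _ _ _ => rfl)
  have h3 : Ex s (fun η : E → Bool => if η e' = true then (1 : ℝ) else 0) = s := by
    rw [Ex_const, mul_one] at h2
    refine Eq.trans ?_ h2
    exact Ex_congr fun η => (mul_one _).symm
  rw [h1, h3]
  ring

/-- Row W3b. A vertex of `Wr` is the end of an open edge which starts in `Wb`. -/
lemma W3b_pt (R : ℕ) (D A : Finset (Zd d)) (ω η : Om d R) (v : Zd d) (hv : v ∈ Wr R D A ω η) :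
    ∃ u ∈ Wb R D A ω, v ∈ bv u 1 ∧ v ∉ Wb R D A ω ∧
      ∃ a x : Fin d → Fin (2 * R + 3), rel (cR d R) a = u ∧ rel (cR d R) x = v ∧
        ∃ e, gends (boxG d (2 * R + 3)) e = s(a, x) ∧ η e = true := by
  classical
  unfold Wr at hv
  rw [Finset.mem_filter] at hv
  obtain ⟨hv, hvR⟩ := hv
  unfold Wn Nz at hv
  rw [Finset.mem_image] at hv
  obtain ⟨x, hx, rfl⟩ := hv
  unfold NB at hx
  rw [Finset.mem_filter] at hx
  obtain ⟨-, -, hxB, a, haB, e, he, hη⟩ := hx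
  rw [if_pos hvR] at hη
  have hadj : (boxG d (2 * R + 3)).Adj a x := by
    have := e.2
    have he' : e.1 = s(a, x) := he
    rw [he', SimpleGraph.mem_edgeSet] at this
    exact this
  refine ⟨rel (cR d R) a, ?_, ?_, ?_, a, x, rfl, rfl, e, he, hη⟩
  · exact Finset.mem_image_of_mem _ haB
  · rw [mem_bv]
    exact (adj_nz (cR d R) x a hadj.symm).le
  · intro hmem
    obtain ⟨y, hy, hyx⟩ := Finset.mem_image.mp hmem
    exact hxB (rel_inj _ hyx ▸ hy)

open scoped Classical in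
/-- Row W3b. The probability of two open edges. -/
lemma W3b_ex (R : ℕ) (D A : Finset (Zd d)) (ω : Om d R) (s : ℝ) (h0 : 0 ≤ s) (h1 : s ≤ 1)
    (u u' v w : Zd d) (hu' : u' ∈ Wb R D A ω) :
    Ex s (fun η : Om d R => if v ≠ w ∧ v ∉ Wb R D A ω ∧ w ∉ Wb R D A ω ∧
      (∃ a x : Fin d → Fin (2 * R + 3), rel (cR d R) a = u ∧ rel (cR d R) x = v ∧
        ∃ e, gends (boxG d (2 * R + 3)) e = s(a, x) ∧ η e = true) ∧
      (∃ a x : Fin d → Fin (2 * R + 3), rel (cR d R) a = u' ∧ rel (cR d R) x = w ∧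
        ∃ e, gends (boxG d (2 * R + 3)) e = s(a, x) ∧ η e = true) then (1 : ℝ) else 0) ≤ s ^ 2 := by
  by_cases hex : v ≠ w ∧ v ∉ Wb R D A ω ∧ w ∉ Wb R D A ω ∧
      (∃ a x : Fin d → Fin (2 * R + 3), rel (cR d R) a = u ∧ rel (cR d R) x = v ∧
        ∃ e, gends (boxG d (2 * R + 3)) e = s(a, x)) ∧
      (∃ a x : Fin d → Fin (2 * R + 3), rel (cR d R) a = u' ∧ rel (cR d R) x = w ∧
        ∃ e, gends (boxG d (2 * R + 3)) e = s(a, x))
  · obtain ⟨hvw, hv, hw, ⟨a, x, hau, hxv, e, he⟩, a', x', hau', hxw, e', he'⟩ := hex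
    have hne : e ≠ e' := by
      rintro rfl
      rw [he] at he'
      rw [Sym2.eq_iff] at he'
      rcases he' with ⟨-, hxx⟩ | ⟨-, hxa⟩
      · apply hvw
        rw [← hxv, ← hxw, hxx]
      · apply hv
        rw [← hxv, hxa, hau']
        exact hu'
    rw [← W3b_two s e e' hne]
    apply Ex_mono h0 h1
    intro η
    by_cases hη : v ≠ w ∧ v ∉ Wb R D A ω ∧ w ∉ Wb R D A ω ∧
      (∃ a x : Fin d → Fin (2 * R + 3), rel (cR d R) a = u ∧ rel (cR d R) x = v ∧
        ∃ e, gends (boxG d (2 * R + 3)) e = s(a, x) ∧ η e = true) ∧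
      (∃ a x : Fin d → Fin (2 * R + 3), rel (cR d R) a = u' ∧ rel (cR d R) x = w ∧
        ∃ e, gends (boxG d (2 * R + 3)) e = s(a, x) ∧ η e = true)
    · rw [if_pos hη]
      obtain ⟨-, -, -, ⟨b, y, hbu, hyv, f, hf, hηf⟩, b', y', hbu', hyw, f', hf', hηf'⟩ := hη
      have h1 : f = e := by
        apply Subtype.ext
        have hb : b = a := rel_inj _ (hbu.trans hau.symm)
        have hy : y = x := rel_inj _ (hyv.trans hxv.symm)
        calc f.1 = s(b, y) := hf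
          _ = s(a, x) := by rw [hb, hy]
          _ = e.1 := he.symm
      have h2 : f' = e' := by
        apply Subtype.ext
        have hb : b' = a' := rel_inj _ (hbu'.trans hau'.symm)
        have hy : y' = x' := rel_inj _ (hyw.trans hxw.symm)
        calc f'.1 = s(b', y') := hf'
          _ = s(a', x') := by rw [hb, hy]
          _ = e'.1 := he'.symm
      rw [if_pos (h1 ▸ hηf), if_pos (h2 ▸ hηf')]
      norm_num
    · rw [if_neg hη]
      apply mul_nonneg <;> split_ifs <;> norm_num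
  · have hz : Ex s (fun η : Om d R => if v ≠ w ∧ v ∉ Wb R D A ω ∧ w ∉ Wb R D A ω ∧
      (∃ a x : Fin d → Fin (2 * R + 3), rel (cR d R) a = u ∧ rel (cR d R) x = v ∧
        ∃ e, gends (boxG d (2 * R + 3)) e = s(a, x) ∧ η e = true) ∧
      (∃ a x : Fin d → Fin (2 * R + 3), rel (cR d R) a = u' ∧ rel (cR d R) x = w ∧
        ∃ e, gends (boxG d (2 * R + 3)) e = s(a, x) ∧ η e = true) then (1 : ℝ) else 0) = 0 := by
      apply Ex_zero_of
      intro η
      rw [if_neg]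
      rintro ⟨hvw, hv, hw, ⟨a, x, hau, hxv, e, he, -⟩, a', x', hau', hxw, e', he', -⟩
      exact hex ⟨hvw, hv, hw, ⟨a, x, hau, hxv, e, he⟩, a', x', hau', hxw, e', he'⟩
    rw [hz]
    positivity

/-- Row W3b. The sum over the pairs of a set is at most the sum over the pairs of a larger index set. -/
lemma W3b_sum {α β : Type*} [DecidableEq α] [DecidableEq β] (W : Finset α) (S : Finset β) (i : α → β)
    (hi : ∀ v ∈ W, i v ∈ S) (hinj : ∀ v ∈ W, ∀ w ∈ W, i v = i w → v = w) (F : α → α → ℝ) (H : β → β → ℝ)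
    (hH : ∀ x ∈ S, ∀ y ∈ S, 0 ≤ H x y) (hF : ∀ v ∈ W, ∀ w ∈ W, v ≠ w → F v w ≤ H (i v) (i w)) :
    ∑ v ∈ W, ∑ w ∈ W.erase v, F v w ≤ ∑ x ∈ S, ∑ y ∈ S, H x y := by
  have hsub : W.image i ⊆ S := by
    intro x hx
    obtain ⟨v, hv, rfl⟩ := Finset.mem_image.mp hx
    exact hi v hv
  have hinj' : Set.InjOn i W := fun v hv w hw h => hinj v hv w hw h
  calc ∑ v ∈ W, ∑ w ∈ W.erase v, F v w ≤ ∑ v ∈ W, ∑ w ∈ W, H (i v) (i w) := by
        apply Finset.sum_le_sum
        intro v hv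
        calc ∑ w ∈ W.erase v, F v w ≤ ∑ w ∈ W.erase v, H (i v) (i w) := by
              apply Finset.sum_le_sum
              intro w hw
              exact hF v hv w (Finset.mem_of_mem_erase hw) (Finset.ne_of_mem_erase hw).symm
          _ ≤ ∑ w ∈ W, H (i v) (i w) := by
              apply Finset.sum_le_sum_of_subset_of_nonneg (Finset.erase_subset _ _)
              intro w hw _
              exact hH _ (hi v hv) _ (hi w hw)
    _ = ∑ x ∈ W.image i, ∑ y ∈ W.image i, H x y := by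
        rw [Finset.sum_image hinj']
        refine Finset.sum_congr rfl fun v _ => ?_
        rw [Finset.sum_image hinj']
    _ ≤ ∑ x ∈ S, ∑ y ∈ S, H x y := by
        calc ∑ x ∈ W.image i, ∑ y ∈ W.image i, H x y ≤ ∑ x ∈ W.image i, ∑ y ∈ S, H x y := by
              apply Finset.sum_le_sum
              intro x hx
              apply Finset.sum_le_sum_of_subset_of_nonneg hsub
              intro y hy _
              exact hH _ (hsub hx) _ hy
          _ ≤ _ := by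
              apply Finset.sum_le_sum_of_subset_of_nonneg hsub
              intro x hx _
              exact Finset.sum_nonneg fun y hy => hH _ hx _ hy

/-- Row W3. Two different vertices `v ≠ v'` of `Wr` come from two different edges `(a,v)`, `(a',v')` (`v, v' ∉ Wb`), both open in `η`: probability `s^2`
(`Ex_closed` of the library or `Ex_indep` for the two coordinates). -/
lemma Wr_le2 (R : ℕ) (D A : Finset (Zd d)) (ω : Om d R) (s : ℝ) (h0 : 0 ≤ s) (h1 : s ≤ 1) (F : Zd d → Zd d → ℝ) (hF : ∀ v w, 0 ≤ F v w) :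
    Ex s (fun η => ∑ v ∈ Wr R D A ω η, ∑ w ∈ (Wr R D A ω η).erase v, F v w) ≤
      s ^ 2 * ∑ u ∈ Wb R D A ω, ∑ u' ∈ Wb R D A ω, ∑ v ∈ bv u 1, ∑ w ∈ bv u' 1, F v w := by
  classical
  set B := Wb R D A ω with hB
  set op : Zd d → Zd d → Om d R → Prop := fun u v η =>
    ∃ a x : Fin d → Fin (2 * R + 3), rel (cR d R) a = u ∧ rel (cR d R) x = v ∧
      ∃ e, gends (boxG d (2 * R + 3)) e = s(a, x) ∧ η e = true with hop
  set S : Finset (Zd d × Zd d) := B.biUnion (fun u => (bv u 1).image (fun v => (u, v))) with hS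
  set H : Om d R → Zd d × Zd d → Zd d × Zd d → ℝ := fun η x y =>
    F x.2 y.2 * (if x.2 ≠ y.2 ∧ x.2 ∉ B ∧ y.2 ∉ B ∧ op x.1 x.2 η ∧ op y.1 y.2 η then (1 : ℝ) else 0) with hH
  have hmemS : ∀ x : Zd d × Zd d, x ∈ S ↔ x.1 ∈ B ∧ x.2 ∈ bv x.1 1 := by
    intro x
    rw [hS, Finset.mem_biUnion]
    constructor
    · rintro ⟨u, hu, hx⟩
      obtain ⟨v, hv, rfl⟩ := Finset.mem_image.mp hx
      exact ⟨hu, hv⟩
    · rintro ⟨h1, h2⟩
      exact ⟨x.1, h1, Finset.mem_image.mpr ⟨x.2, h2, rfl⟩⟩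
  have hsumS : ∀ G : Zd d × Zd d → ℝ, ∑ x ∈ S, G x = ∑ u ∈ B, ∑ v ∈ bv u 1, G (u, v) := by
    intro G
    rw [hS, Finset.sum_biUnion]
    · refine Finset.sum_congr rfl fun u _ => ?_
      rw [Finset.sum_image]
      intro v _ w _ h
      exact (Prod.mk.inj h).2
    · intro u _ u' _ huu
      rw [Function.onFun, Finset.disjoint_left]
      intro x hx hx'
      obtain ⟨v, -, rfl⟩ := Finset.mem_image.mp hx
      obtain ⟨w, -, h⟩ := Finset.mem_image.mp hx'
      exact huu (Prod.mk.inj h).1.symm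
  have hHnn : ∀ η x y, 0 ≤ H η x y := by
    intro η x y
    apply mul_nonneg (hF _ _)
    split_ifs <;> norm_num
  have hpt : ∀ η : Om d R, ∑ v ∈ Wr R D A ω η, ∑ w ∈ (Wr R D A ω η).erase v, F v w ≤
      ∑ x ∈ S, ∑ y ∈ S, H η x y := by
    intro η
    have hch : ∀ v : Zd d, ∃ u : Zd d, v ∈ Wr R D A ω η → (u ∈ B ∧ v ∈ bv u 1 ∧ v ∉ B ∧ op u v η) := by
      intro v
      by_cases hv : v ∈ Wr R D A ω η
      · obtain ⟨u, hu, h1, h2, h3⟩ := W3b_pt R D A ω η v hv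
        exact ⟨u, fun _ => ⟨hu, h1, h2, h3⟩⟩
      · exact ⟨0, fun h => absurd h hv⟩
    choose uu huu using hch
    apply W3b_sum (Wr R D A ω η) S (fun v => (uu v, v))
    · intro v hv
      rw [hmemS]
      exact ⟨(huu v hv).1, (huu v hv).2.1⟩
    · intro v _ w _ h
      exact (Prod.mk.inj h).2
    · intro x _ y _
      exact hHnn η x y
    · intro v hv w hw hvw
      rw [hH]
      dsimp only
      rw [if_pos ⟨hvw, (huu v hv).2.2.1, (huu w hw).2.2.1, (huu v hv).2.2.2, (huu w hw).2.2.2⟩, mul_one]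
  calc Ex s (fun η => ∑ v ∈ Wr R D A ω η, ∑ w ∈ (Wr R D A ω η).erase v, F v w)
      ≤ Ex s (fun η => ∑ x ∈ S, ∑ y ∈ S, H η x y) := Ex_mono h0 h1 hpt
    _ = ∑ x ∈ S, ∑ y ∈ S, Ex s (fun η => H η x y) := by
        rw [Ex_sum S s (fun x η => ∑ y ∈ S, H η x y)]
        refine Finset.sum_congr rfl fun x _ => ?_
        rw [Ex_sum S s (fun y η => H η x y)]
    _ ≤ ∑ x ∈ S, ∑ y ∈ S, s ^ 2 * F x.2 y.2 := by
        apply Finset.sum_le_sum
        intro x hx
        apply Finset.sum_le_sum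
        intro y hy
        rw [hH]
        dsimp only
        rw [Ex_mul_left, mul_comm (s ^ 2)]
        apply mul_le_mul_of_nonneg_left _ (hF _ _)
        exact W3b_ex R D A ω s h0 h1 x.1 y.1 x.2 y.2 ((hmemS y).mp hy).1
    _ = s ^ 2 * ∑ u ∈ B, ∑ u' ∈ B, ∑ v ∈ bv u 1, ∑ w ∈ bv u' 1, F v w := by
        rw [hsumS, Finset.mul_sum]
        refine Finset.sum_congr rfl fun u _ => ?_
        rw [Finset.sum_comm, hsumS, Finset.mul_sum]
        refine Finset.sum_congr rfl fun u' _ => ?_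
        rw [Finset.sum_comm, Finset.mul_sum]
        refine Finset.sum_congr rfl fun v _ => ?_
        rw [Finset.mul_sum]

/-- Row W3. The exits: every vertex of `We` has norm `R+1` and a neighbour in `Wb` of norm `R`, `|bv u 1| = 3^d`. -/
lemma We_card (R : ℕ) (D A : Finset (Zd d)) (ω η : Om d R) :
    ((We R D A ω η).card : ℝ) ≤ 3 ^ d * (((Wb R D A ω).filter (fun v => R ≤ nz v)).card : ℝ) := by
  classical
  have h1 : We R D A ω η ⊆ ((Wb R D A ω).filter (fun v => R ≤ nz v)).biUnion (fun a => bv a 1) := by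
    intro v hv
    unfold We at hv
    rw [Finset.mem_filter, mem_bz] at hv
    obtain ⟨-, -, -, a, ha, hva⟩ := Nz_pt (cR d R) R D A ω η v hv.1
    rw [Finset.mem_biUnion]
    refine ⟨a, Finset.mem_filter.2 ⟨ha, ?_⟩, (mem_bv a 1 v).2 hva.le⟩
    have h2 := nz_tri v a 0
    rw [sub_zero, sub_zero] at h2
    omega
  have h2 : (We R D A ω η).card ≤ ((Wb R D A ω).filter (fun v => R ≤ nz v)).card * 3 ^ d := by
    refine (Finset.card_le_card h1).trans (Finset.card_biUnion_le_card_mul _ _ _ fun a _ => ?_)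
    rw [card_bv]
  calc ((We R D A ω η).card : ℝ) ≤ ((((Wb R D A ω).filter (fun v => R ≤ nz v)).card * 3 ^ d : ℕ) : ℝ) :=
        Nat.cast_le.2 h2
    _ = 3 ^ d * (((Wb R D A ω).filter (fun v => R ≤ nz v)).card : ℝ) := by push_cast; ring

/-- Row W4. `∑_{v ∈ Wr} 1`. -/
lemma en0 (R : ℕ) (D A : Finset (Zd d)) (p1 s : ℝ) (hp0 : 0 ≤ p1) (hp1 : p1 ≤ 1) (h0 : 0 ≤ s) (h1 : s ≤ 1) :
    Ex p1 (fun ω => Ex s (fun η => ((Wr R D A ω η).card : ℝ))) ≤ 3 ^ d * (s * Ex p1 (fun ω => ((Wb R D A ω).card : ℝ))) := by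
  have key : ∀ ω : Om d R, Ex s (fun η => ((Wr R D A ω η).card : ℝ)) ≤
      (3 ^ d * s) * ((Wb R D A ω).card : ℝ) := by
    intro ω
    have h := Wr_le R D A ω s h0 h1 (fun _ => (1 : ℝ)) (fun _ => zero_le_one)
    have e1 : Ex s (fun η => ∑ v ∈ Wr R D A ω η, (1 : ℝ)) =
        Ex s (fun η => ((Wr R D A ω η).card : ℝ)) := by
      refine Ex_congr fun η => ?_
      rw [Finset.sum_const, nsmul_eq_mul, mul_one]
    have e2 : ∑ u ∈ Wb R D A ω, ∑ v ∈ bv u 1, (1 : ℝ) = ((Wb R D A ω).card : ℝ) * 3 ^ d := by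
      have e3 : ∀ u ∈ Wb R D A ω, ∑ v ∈ bv u 1, (1 : ℝ) = 3 ^ d := by
        intro u _
        rw [Finset.sum_const, nsmul_eq_mul, mul_one, card_bv]
        push_cast
        norm_num
      rw [Finset.sum_congr rfl e3, Finset.sum_const, nsmul_eq_mul]
    rw [e1, e2] at h
    calc Ex s (fun η => ((Wr R D A ω η).card : ℝ)) ≤ s * (((Wb R D A ω).card : ℝ) * 3 ^ d) := h
      _ = (3 ^ d * s) * ((Wb R D A ω).card : ℝ) := by ring
  calc Ex p1 (fun ω => Ex s (fun η => ((Wr R D A ω η).card : ℝ)))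
      ≤ Ex p1 (fun ω => (3 ^ d * s) * ((Wb R D A ω).card : ℝ)) := Ex_mono hp0 hp1 key
    _ = 3 ^ d * (s * Ex p1 (fun ω => ((Wb R D A ω).card : ℝ))) := by
      rw [Ex_mul_left]
      ring

/-- Row W4. Pairs of points of the cluster, general kernel form. `∑_{u,w} F u w P(u, w ∈ Wb)`, by `Wb_tree`: if
`∑_{u,w} F u w fz(z-u) fz(z-w) ≤ K1` for all `z` and `∑_{u,w} F u w fz(a-u) fz(a'-w) ≤ K2` for all `a, a'`, then
`E ∑_{u,w ∈ Wb} F u w ≤ C^2 (K1 E|Wb| + K2 |A|^2)`. -/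
lemma pair_gen {C pc : ℝ} (hp : HP d C pc) (R : ℕ) (D A : Finset (Zd d)) (hA : A ⊆ bz R) (p1 : ℝ) (h0 : 0 < p1) (h1 : p1 ≤ pc)
    (F : Zd d → Zd d → ℝ) (hF : ∀ u w, 0 ≤ F u w) (K1 K2 : ℝ)
    (hK1 : ∀ z, ∑ u ∈ bz R, ∑ w ∈ bz R, F u w * (fz (d - 2) (z - u) * fz (d - 2) (z - w)) ≤ K1)
    (hK2 : ∀ a a', ∑ u ∈ bz R, ∑ w ∈ bz R, F u w * (fz (d - 2) (a - u) * fz (d - 2) (a' - w)) ≤ K2) :
    Ex p1 (fun ω => ∑ u ∈ Wb R D A ω, ∑ w ∈ Wb R D A ω, F u w) ≤
      C ^ 2 * (K1 * Ex p1 (fun ω => ((Wb R D A ω).card : ℝ)) + K2 * (A.card : ℝ) ^ 2) := by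
  classical
  have hpp0 : (0 : ℝ) ≤ p1 := h0.le
  have hpp1 : p1 ≤ 1 := h1.trans hp.p1.le
  have hB : ∀ ω : Om d R, Wb R D A ω ⊆ bz R := fun ω => Bz_ball (cR d R) R D A ω
  have hfil : ∀ ω : Om d R, (bz R : Finset (Zd d)).filter (fun z => z ∈ Wb R D A ω) = Wb R D A ω := by
    intro ω
    ext z
    simp only [Finset.mem_filter]
    exact ⟨fun h => h.2, fun h => ⟨hB ω h, h⟩⟩
  have hsum : ∀ (ω : Om d R) (G : Zd d → ℝ),
      ∑ u ∈ Wb R D A ω, G u = ∑ u ∈ bz R, (if u ∈ Wb R D A ω then (1 : ℝ) else 0) * G u := by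
    intro ω G
    rw [← Finset.sum_filter_add_sum_filter_not (bz R : Finset (Zd d)) (fun z => z ∈ Wb R D A ω), hfil ω]
    have e2 : ∑ u ∈ (bz R : Finset (Zd d)).filter (fun z => z ∉ Wb R D A ω),
        (if u ∈ Wb R D A ω then (1 : ℝ) else 0) * G u = 0 := by
      apply Finset.sum_eq_zero
      intro u hu
      rw [if_neg (Finset.mem_filter.1 hu).2, zero_mul]
    rw [e2, add_zero]
    apply Finset.sum_congr rfl
    intro u hu
    rw [if_pos hu, one_mul]
  have hcard : Ex p1 (fun ω => ((Wb R D A ω).card : ℝ)) =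
      ∑ z ∈ bz R, Ex p1 (fun ω : Om d R => if z ∈ Wb R D A ω then (1 : ℝ) else 0) := by
    rw [← Ex_sum]
    apply Ex_congr
    intro ω
    rw [Finset.sum_ite_mem, Finset.sum_const, nsmul_eq_mul, mul_one,
      Finset.inter_eq_right.2 (hB ω)]
  have hL : Ex p1 (fun ω => ∑ u ∈ Wb R D A ω, ∑ w ∈ Wb R D A ω, F u w) =
      ∑ u ∈ bz R, ∑ w ∈ bz R, F u w *
        Ex p1 (fun ω : Om d R => (if u ∈ Wb R D A ω then (1 : ℝ) else 0) * (if w ∈ Wb R D A ω then 1 else 0)) := by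
    have e1 : Ex p1 (fun ω => ∑ u ∈ Wb R D A ω, ∑ w ∈ Wb R D A ω, F u w) =
        Ex p1 (fun ω : Om d R => ∑ u ∈ bz R, ∑ w ∈ bz R,
          F u w * ((if u ∈ Wb R D A ω then (1 : ℝ) else 0) * (if w ∈ Wb R D A ω then 1 else 0))) := by
      apply Ex_congr
      intro ω
      rw [hsum ω]
      apply Finset.sum_congr rfl
      intro u _
      rw [hsum ω, Finset.mul_sum]
      apply Finset.sum_congr rfl
      intro w _
      ring
    rw [e1, Ex_sum]
    apply Finset.sum_congr rfl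
    intro u _
    rw [Ex_sum]
    apply Finset.sum_congr rfl
    intro w _
    rw [Ex_mul_left]
  rw [hL, hcard]
  set P : Zd d → ℝ := fun z => Ex p1 (fun ω : Om d R => if z ∈ Wb R D A ω then (1 : ℝ) else 0) with hP
  have hP0 : ∀ z, 0 ≤ P z := by
    intro z
    apply Ex_nonneg hpp0 hpp1
    intro ω
    split_ifs <;> norm_num
  have hstep : ∀ u w : Zd d, F u w *
      Ex p1 (fun ω : Om d R => (if u ∈ Wb R D A ω then (1 : ℝ) else 0) * (if w ∈ Wb R D A ω then 1 else 0)) ≤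
      C ^ 2 * (∑ z ∈ bz R, P z * (F u w * (fz (d - 2) (z - u) * fz (d - 2) (z - w))) +
        ∑ a ∈ A, ∑ a' ∈ A, F u w * (fz (d - 2) (a - u) * fz (d - 2) (a' - w))) := by
    intro u w
    have ht := mul_le_mul_of_nonneg_left (Wb_tree hp R D A hA p1 h0 h1 u w) (hF u w)
    refine ht.trans (le_of_eq ?_)
    rw [mul_add, mul_add, Finset.mul_sum, Finset.mul_sum, Finset.mul_sum, Finset.mul_sum]
    congr 1
    · apply Finset.sum_congr rfl
      intro z _
      simp only [hP]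
      ring
    · apply Finset.sum_congr rfl
      intro a _
      rw [Finset.mul_sum, Finset.mul_sum]
      apply Finset.sum_congr rfl
      intro a' _
      ring
  calc ∑ u ∈ bz R, ∑ w ∈ bz R, F u w *
        Ex p1 (fun ω : Om d R => (if u ∈ Wb R D A ω then (1 : ℝ) else 0) * (if w ∈ Wb R D A ω then 1 else 0))
      ≤ ∑ u ∈ bz R, ∑ w ∈ bz R, C ^ 2 * (∑ z ∈ bz R, P z * (F u w * (fz (d - 2) (z - u) * fz (d - 2) (z - w))) +
        ∑ a ∈ A, ∑ a' ∈ A, F u w * (fz (d - 2) (a - u) * fz (d - 2) (a' - w))) :=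
        Finset.sum_le_sum fun u _ => Finset.sum_le_sum fun w _ => hstep u w
    _ = C ^ 2 * (∑ z ∈ bz R, P z * (∑ u ∈ bz R, ∑ w ∈ bz R, F u w * (fz (d - 2) (z - u) * fz (d - 2) (z - w))) +
        ∑ a ∈ A, ∑ a' ∈ A, ∑ u ∈ bz R, ∑ w ∈ bz R, F u w * (fz (d - 2) (a - u) * fz (d - 2) (a' - w))) := by
        simp only [← Finset.mul_sum, Finset.sum_add_distrib]
        congr 2
        · rw [show (∑ u ∈ (bz R : Finset (Zd d)), ∑ w ∈ (bz R : Finset (Zd d)), ∑ z ∈ (bz R : Finset (Zd d)), P z * (F u w * (fz (d - 2) (z - u) * fz (d - 2) (z - w)))) =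
            ∑ u ∈ (bz R : Finset (Zd d)), ∑ z ∈ (bz R : Finset (Zd d)), ∑ w ∈ (bz R : Finset (Zd d)), P z * (F u w * (fz (d - 2) (z - u) * fz (d - 2) (z - w))) from
            Finset.sum_congr rfl fun u _ => Finset.sum_comm]
          rw [Finset.sum_comm]
          apply Finset.sum_congr rfl
          intro z _
          rw [Finset.mul_sum]
          apply Finset.sum_congr rfl
          intro u _
          rw [Finset.mul_sum]
        · have c1 : ∀ u : Zd d, ∑ w ∈ (bz R : Finset (Zd d)), ∑ a ∈ A, ∑ a' ∈ A, F u w * (fz (d - 2) (a - u) * fz (d - 2) (a' - w)) =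
              ∑ a ∈ A, ∑ a' ∈ A, ∑ w ∈ (bz R : Finset (Zd d)), F u w * (fz (d - 2) (a - u) * fz (d - 2) (a' - w)) := by
            intro u
            rw [Finset.sum_comm]
            apply Finset.sum_congr rfl
            intro a _
            rw [Finset.sum_comm]
          simp only [Finset.mul_sum] at c1 ⊢
          rw [Finset.sum_congr rfl fun u _ => c1 u, Finset.sum_comm]
          apply Finset.sum_congr rfl
          intro a _
          rw [Finset.sum_comm]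
    _ ≤ C ^ 2 * (∑ z ∈ bz R, P z * K1 + ∑ a ∈ A, ∑ a' ∈ A, K2) := by
        apply mul_le_mul_of_nonneg_left _ (sq_nonneg C)
        apply add_le_add
        · exact Finset.sum_le_sum fun z _ => mul_le_mul_of_nonneg_left (hK1 z) (hP0 z)
        · exact Finset.sum_le_sum fun a _ => Finset.sum_le_sum fun a' _ => hK2 a a'
    _ = C ^ 2 * (K1 * ∑ z ∈ bz R, P z + K2 * (A.card : ℝ) ^ 2) := by
        rw [← Finset.sum_mul]
        simp only [Finset.sum_const, nsmul_eq_mul]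
        ring

/-- The kernel of the first estimate. -/
private noncomputable def w5a_F (ρ : ℕ) (u w : Zd d) : ℝ := if ρ - 1 ≤ nz (w - u) then fz (d - 2) (u - w) else 0

private lemma w5a_F_nonneg (ρ : ℕ) (u w : Zd d) : 0 ≤ w5a_F ρ u w := by
  unfold w5a_F
  split_ifs
  · exact (fz_pos _ _).le
  · exact le_rfl

private lemma w5a_inner (W : Finset (Zd d)) (ρ : ℕ) (u v : Zd d) (huv : nz (v - u) ≤ 1) :
    ∑ w ∈ W.filter (fun w => ρ ≤ nz (w - v)), fz (d - 2) (v - w) ≤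
      2 ^ (d - 2) * ∑ w ∈ W, w5a_F ρ u w := by
  rw [Finset.mul_sum, Finset.sum_filter]
  refine Finset.sum_le_sum fun w _ => ?_
  split_ifs with h
  · have h1 : nz (w - v) ≤ nz (w - u) + nz (u - v) := nz_tri w u v
    have h2 : nz (u - v) ≤ 1 := by rw [nz_sub]; exact huv
    have h3 : ρ - 1 ≤ nz (w - u) := by omega
    have h4 : nz ((u - w) - (v - w)) ≤ 1 := by
      have e : (u - w) - (v - w) = u - v := by abel
      rw [e]; exact h2
    have h5 := fz_near (d - 2) (u - w) (v - w) h4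
    unfold w5a_F
    rw [if_pos h3]
    exact h5
  · exact mul_nonneg (by positivity) (w5a_F_nonneg _ _ _)

private lemma w5a_tri {Kc : ℝ} (x y : Zd d) (R ρ : ℕ)
    (hK : ∑ u ∈ bz R, ∑ w ∈ (bz R : Finset (Zd d)).filter (fun w => ρ - 1 ≤ nz (w - u)),
      fz (d - 2) (x - u) * fz (d - 2) (y - w) * fz (d - 2) (u - w) ≤ Kc) :
    ∑ u ∈ bz R, ∑ w ∈ bz R, w5a_F ρ u w * (fz (d - 2) (x - u) * fz (d - 2) (y - w)) ≤ Kc := by
  refine le_trans (le_of_eq ?_) hK
  refine Finset.sum_congr rfl fun u _ => ?_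
  rw [Finset.sum_filter]
  refine Finset.sum_congr rfl fun w _ => ?_
  unfold w5a_F
  split_ifs
  · ring
  · ring

/-- Row W5. (2.1), first estimate: `Wr_le` with `F v = ∑_{w ∈ Wb, ρ ≤ |w-v|} fz (v-w)` for fixed `ω`; `fz (d-2) (v-w) ≤ 2^(d-2) fz (d-2) (u-w)` for `|v-u| ≤ 1` (`fz_near`),
`ρ ≤ |w-v|` implies `ρ - 1 ≤ |w-u|`; then `pair_gen` with `F u w = [ρ-1 ≤ |w-u|] fz (d-2) (u-w)` and `tri_z` (`K1 = Kc/(1+(ρ-1)) ≤ 2Kc/(1+ρ)`, `K2 = Kc`; `3^d` points `v`). -/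
lemma en1 {C pc : ℝ} (hp : HP d C pc) : ∃ K : ℝ, 1 ≤ K ∧ ∀ (R : ℕ) (D A : Finset (Zd d)), A ⊆ bz R → ∀ (p1 s : ℝ) (ρ : ℕ), 0 < p1 → p1 ≤ pc → 0 ≤ s → s ≤ 1 →
    Ex p1 (fun ω => Ex s (fun η => ∑ v ∈ Wr R D A ω η, ∑ w ∈ (Wb R D A ω).filter (fun w => ρ ≤ nz (w - v)), fz (d - 2) (v - w))) ≤
      K * s * (Ex p1 (fun ω => ((Wb R D A ω).card : ℝ)) / (1 + (ρ : ℝ)) + (A.card : ℝ) ^ 2) := by
  have hd := hp.d11
  obtain ⟨Kc, hKc1, hKc⟩ := tri_z (d := d) (by omega)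
  have hC1 := hp.C1
  have hM1 : (1 : ℝ) ≤ 3 ^ d * 2 ^ (d - 2) :=
    one_le_mul_of_one_le_of_one_le (one_le_pow₀ (by norm_num)) (one_le_pow₀ (by norm_num))
  refine ⟨3 ^ d * 2 ^ (d - 2) * C ^ 2 * (2 * Kc), ?_, ?_⟩
  · have h2 : (1 : ℝ) ≤ C ^ 2 := one_le_pow₀ hC1
    exact one_le_mul_of_one_le_of_one_le (one_le_mul_of_one_le_of_one_le hM1 h2) (by linarith)
  intro R D A hA p1 s ρ h0 h1 hs0 hs1
  have hp11 : p1 ≤ 1 := le_trans h1 hp.p1.le
  set W : Om d R → Finset (Zd d) := fun ω => Wb R D A ω with hW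
  have step1 : ∀ ω : Om d R, Ex s (fun η => ∑ v ∈ Wr R D A ω η,
      ∑ w ∈ (Wb R D A ω).filter (fun w => ρ ≤ nz (w - v)), fz (d - 2) (v - w)) ≤
      s * (3 ^ d * 2 ^ (d - 2)) * ∑ u ∈ Wb R D A ω, ∑ w ∈ Wb R D A ω, w5a_F ρ u w := by
    intro ω
    refine le_trans (Wr_le R D A ω s hs0 hs1
      (fun v => ∑ w ∈ (Wb R D A ω).filter (fun w => ρ ≤ nz (w - v)), fz (d - 2) (v - w))
      (fun v => Finset.sum_nonneg fun w _ => (fz_pos _ _).le)) ?_
    rw [mul_assoc]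
    refine mul_le_mul_of_nonneg_left ?_ hs0
    rw [Finset.mul_sum]
    refine Finset.sum_le_sum fun u _ => ?_
    have hc : ((bv u 1 : Finset (Zd d)).card : ℝ) = 3 ^ d := by
      rw [card_bv]; norm_num
    calc ∑ v ∈ bv u 1, ∑ w ∈ (Wb R D A ω).filter (fun w => ρ ≤ nz (w - v)), fz (d - 2) (v - w)
        ≤ ∑ v ∈ bv u 1, 2 ^ (d - 2) * ∑ w ∈ Wb R D A ω, w5a_F ρ u w :=
          Finset.sum_le_sum fun v hv => w5a_inner _ ρ u v ((mem_bv u 1 v).mp hv)
      _ = 3 ^ d * 2 ^ (d - 2) * ∑ w ∈ Wb R D A ω, w5a_F ρ u w := by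
          rw [Finset.sum_const, nsmul_eq_mul, hc]; ring
  have step2 : Ex p1 (fun ω => Ex s (fun η => ∑ v ∈ Wr R D A ω η,
      ∑ w ∈ (Wb R D A ω).filter (fun w => ρ ≤ nz (w - v)), fz (d - 2) (v - w))) ≤
      s * (3 ^ d * 2 ^ (d - 2)) * Ex p1 (fun ω => ∑ u ∈ Wb R D A ω, ∑ w ∈ Wb R D A ω, w5a_F ρ u w) := by
    rw [← Ex_mul_left]
    exact Ex_mono h0.le hp11 step1
  have hρ1 : (0 : ℝ) < 1 + ((ρ - 1 : ℕ) : ℝ) := by positivity
  have hK2a : ∀ x y : Zd d, ∑ u ∈ bz R, ∑ w ∈ bz R, w5a_F ρ u w * (fz (d - 2) (x - u) * fz (d - 2) (y - w)) ≤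
      Kc / (1 + ((ρ - 1 : ℕ) : ℝ)) := fun x y => w5a_tri x y R ρ (hKc x y (bz R) (bz R) (ρ - 1))
  have hle : Kc / (1 + ((ρ - 1 : ℕ) : ℝ)) ≤ Kc := by
    apply div_le_self (by linarith)
    have : (0 : ℝ) ≤ ((ρ - 1 : ℕ) : ℝ) := by positivity
    linarith
  have hle2 : Kc / (1 + ((ρ - 1 : ℕ) : ℝ)) ≤ 2 * Kc / (1 + (ρ : ℝ)) := by
    rw [div_le_div_iff₀ hρ1 (by positivity)]
    have h3 : (1 + (ρ : ℝ)) ≤ 2 * (1 + ((ρ - 1 : ℕ) : ℝ)) := by
      have : ρ + 1 ≤ 2 * (1 + (ρ - 1)) := by omega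
      have h4 : ((ρ + 1 : ℕ) : ℝ) ≤ ((2 * (1 + (ρ - 1)) : ℕ) : ℝ) := by exact_mod_cast this
      push_cast at h4
      linarith
    nlinarith
  have step3 := pair_gen hp R D A hA p1 h0 h1 (w5a_F ρ) (w5a_F_nonneg ρ) _ Kc
    (fun z => hK2a z z) (fun a a' => le_trans (hK2a a a') hle)
  have hEn : 0 ≤ Ex p1 (fun ω => ((Wb R D A ω).card : ℝ)) :=
    Ex_nonneg h0.le hp11 fun ω => by positivity
  have hsM : 0 ≤ s * (3 ^ d * 2 ^ (d - 2) : ℝ) := by positivity
  refine le_trans step2 (le_trans (mul_le_mul_of_nonneg_left step3 hsM) ?_)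
  have h6 : Kc / (1 + ((ρ - 1 : ℕ) : ℝ)) * Ex p1 (fun ω => ((Wb R D A ω).card : ℝ)) + Kc * (A.card : ℝ) ^ 2 ≤
      2 * Kc * (Ex p1 (fun ω => ((Wb R D A ω).card : ℝ)) / (1 + (ρ : ℝ)) + (A.card : ℝ) ^ 2) := by
    have h7 := mul_le_mul_of_nonneg_right hle2 hEn
    have h8 : 2 * Kc / (1 + (ρ : ℝ)) * Ex p1 (fun ω => ((Wb R D A ω).card : ℝ)) =
        2 * Kc * (Ex p1 (fun ω => ((Wb R D A ω).card : ℝ)) / (1 + (ρ : ℝ))) := by ring
    have h9 : Kc * (A.card : ℝ) ^ 2 ≤ 2 * Kc * (A.card : ℝ) ^ 2 := by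
      have : 0 ≤ (A.card : ℝ) ^ 2 := by positivity
      nlinarith
    rw [mul_add, ← h8]
    linarith
  have h10 : 0 ≤ s * (3 ^ d * 2 ^ (d - 2)) * C ^ 2 := by positivity
  calc s * (3 ^ d * 2 ^ (d - 2)) * (C ^ 2 * (Kc / (1 + ((ρ - 1 : ℕ) : ℝ)) *
        Ex p1 (fun ω => ((Wb R D A ω).card : ℝ)) + Kc * (A.card : ℝ) ^ 2))
      = s * (3 ^ d * 2 ^ (d - 2)) * C ^ 2 * (Kc / (1 + ((ρ - 1 : ℕ) : ℝ)) *
        Ex p1 (fun ω => ((Wb R D A ω).card : ℝ)) + Kc * (A.card : ℝ) ^ 2) := by ring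
    _ ≤ s * (3 ^ d * 2 ^ (d - 2)) * C ^ 2 * (2 * Kc * (Ex p1 (fun ω => ((Wb R D A ω).card : ℝ)) / (1 + (ρ : ℝ)) +
        (A.card : ℝ) ^ 2)) := mul_le_mul_of_nonneg_left h6 h10
    _ = _ := by ring

private lemma W5b_near (k : ℕ) (u u' v w : Zd d) (hv : v ∈ bv u 1) (hw : w ∈ bv u' 1) :
    fz k (v - w) ≤ (2 ^ k) ^ 2 * fz k (u - u') := by
  rw [mem_bv] at hv hw
  have h1 : fz k (v - w) ≤ 2 ^ k * fz k (u - w) := by
    refine fz_near k (u - w) (v - w) ?_
    have e : u - w - (v - w) = u - v := by abel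
    rw [e, nz_sub]
    exact hv
  have h2 : fz k (u - w) ≤ 2 ^ k * fz k (u - u') := by
    refine fz_near k (u - u') (u - w) ?_
    have e : u - u' - (u - w) = w - u' := by abel
    rw [e]
    exact hw
  calc fz k (v - w) ≤ 2 ^ k * fz k (u - w) := h1
    _ ≤ 2 ^ k * (2 ^ k * fz k (u - u')) := mul_le_mul_of_nonneg_left h2 (by positivity)
    _ = _ := by ring

private lemma W5b_inner (k : ℕ) (u u' : Zd d) :
    ∑ v ∈ bv u 1, ∑ w ∈ bv u' 1, fz k (v - w) ≤ (3 ^ d) ^ 2 * (2 ^ k) ^ 2 * fz k (u - u') := by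
  have hc : ∀ u : Zd d, ((bv u 1 : Finset (Zd d)).card : ℝ) = 3 ^ d := by
    intro u
    rw [card_bv]
    norm_num
  calc ∑ v ∈ bv u 1, ∑ w ∈ bv u' 1, fz k (v - w)
      ≤ ∑ v ∈ bv u 1, ∑ w ∈ bv u' 1, (2 ^ k) ^ 2 * fz k (u - u') :=
        Finset.sum_le_sum fun v hv => Finset.sum_le_sum fun w hw => W5b_near k u u' v w hv hw
    _ = _ := by
        rw [Finset.sum_const, Finset.sum_const, nsmul_eq_mul, nsmul_eq_mul, hc, hc]
        ring

/-- Row W5. (2.1), second estimate: `Wr_le2`, `fz (d-4) (v-w) ≤ 4^(d-4) fz (d-4) (u-u')`, `pair_gen` with `F u w = fz (d-4) (u-w)` and `sq_z`. -/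
lemma en2 {C pc : ℝ} (hp : HP d C pc) : ∃ K : ℝ, 1 ≤ K ∧ ∀ (R : ℕ) (D A : Finset (Zd d)), A ⊆ bz R → ∀ (p1 s : ℝ), 0 < p1 → p1 ≤ pc → 0 ≤ s → s ≤ 1 →
    Ex p1 (fun ω => Ex s (fun η => ∑ v ∈ Wr R D A ω η, ∑ w ∈ (Wr R D A ω η).erase v, fz (d - 4) (v - w))) ≤
      K * s ^ 2 * (Ex p1 (fun ω => ((Wb R D A ω).card : ℝ)) + (A.card : ℝ) ^ 2) := by
  have hd := hp.d11
  obtain ⟨Kc, hKc1, hKc⟩ := sq_z (d := d) (by omega)
  have hC1 := hp.C1
  have hM1 : (1 : ℝ) ≤ (3 ^ d) ^ 2 * (2 ^ (d - 4)) ^ 2 :=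
    one_le_mul_of_one_le_of_one_le (one_le_pow₀ (one_le_pow₀ (by norm_num))) (one_le_pow₀ (one_le_pow₀ (by norm_num)))
  refine ⟨(3 ^ d) ^ 2 * (2 ^ (d - 4)) ^ 2 * C ^ 2 * Kc, ?_, ?_⟩
  · exact one_le_mul_of_one_le_of_one_le (one_le_mul_of_one_le_of_one_le hM1 (one_le_pow₀ hC1)) hKc1
  intro R D A hA p1 s h0 h1 hs0 hs1
  have hp11 : p1 ≤ 1 := le_trans h1 hp.p1.le
  have step1 : ∀ ω : Om d R, Ex s (fun η => ∑ v ∈ Wr R D A ω η, ∑ w ∈ (Wr R D A ω η).erase v, fz (d - 4) (v - w)) ≤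
      s ^ 2 * ((3 ^ d) ^ 2 * (2 ^ (d - 4)) ^ 2) * ∑ u ∈ Wb R D A ω, ∑ u' ∈ Wb R D A ω, fz (d - 4) (u - u') := by
    intro ω
    refine le_trans (Wr_le2 R D A ω s hs0 hs1 (fun v w => fz (d - 4) (v - w)) (fun v w => (fz_pos _ _).le)) ?_
    rw [mul_assoc]
    refine mul_le_mul_of_nonneg_left ?_ (by positivity)
    rw [Finset.mul_sum]
    refine Finset.sum_le_sum fun u _ => ?_
    rw [Finset.mul_sum]
    exact Finset.sum_le_sum fun u' _ => W5b_inner _ u u'
  have step2 : Ex p1 (fun ω => Ex s (fun η => ∑ v ∈ Wr R D A ω η, ∑ w ∈ (Wr R D A ω η).erase v, fz (d - 4) (v - w))) ≤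
      s ^ 2 * ((3 ^ d) ^ 2 * (2 ^ (d - 4)) ^ 2) *
        Ex p1 (fun ω => ∑ u ∈ Wb R D A ω, ∑ u' ∈ Wb R D A ω, fz (d - 4) (u - u')) := by
    rw [← Ex_mul_left]
    exact Ex_mono h0.le hp11 step1
  have hK : ∀ x y : Zd d, ∑ u ∈ bz R, ∑ w ∈ bz R, fz (d - 4) (u - w) * (fz (d - 2) (x - u) * fz (d - 2) (y - w)) ≤ Kc := by
    intro x y
    refine le_trans (le_of_eq ?_) (hKc x y (bz R) (bz R))
    refine Finset.sum_congr rfl fun u _ => Finset.sum_congr rfl fun w _ => ?_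
    ring
  have step3 := pair_gen hp R D A hA p1 h0 h1 (fun u w => fz (d - 4) (u - w)) (fun u w => (fz_pos _ _).le) Kc Kc
    (fun z => hK z z) hK
  have hsM : 0 ≤ s ^ 2 * ((3 ^ d) ^ 2 * (2 ^ (d - 4)) ^ 2 : ℝ) := by positivity
  refine le_trans step2 (le_trans (mul_le_mul_of_nonneg_left step3 hsM) (le_of_eq ?_))
  ring

/-- the sum over the neighbours of `u` -/
private lemma W5c_near (D : Finset (Zd d)) (u : Zd d) :
    ∑ v ∈ bv u 1, ∑ w ∈ D, fz (d - 2) (v - w) ≤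
      (3 ^ d * 2 ^ (d - 2) : ℝ) * ∑ w ∈ D, fz (d - 2) (u - w) := by
  have h1 : ∀ v ∈ bv u 1, ∑ w ∈ D, fz (d - 2) (v - w) ≤
      (2 ^ (d - 2) : ℝ) * ∑ w ∈ D, fz (d - 2) (u - w) := by
    intro v hv
    rw [Finset.mul_sum]
    refine Finset.sum_le_sum fun w _ => ?_
    refine fz_near (d - 2) (u - w) (v - w) ?_
    rw [mem_bv] at hv
    have e : u - w - (v - w) = u - v := by abel
    rw [e, nz_sub]
    exact hv
  refine (Finset.sum_le_sum h1).trans ?_
  rw [Finset.sum_const, card_bv, nsmul_eq_mul]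
  have e : ((((2 * 1 + 1) ^ d : ℕ)) : ℝ) = 3 ^ d := by push_cast; norm_num
  rw [e, mul_assoc]

private lemma W5c_out {C pc : ℝ} (hp : HP d C pc) {Kc : ℝ}
    (hK : ∀ (a b : ℕ), a < d → b < d → d < a + b → ∀ (x y : Zd d) (S : Finset (Zd d)),
      ∑ z ∈ S, fz a (x - z) * fz b (z - y) ≤ Kc * fz (a + b - d) (x - y)) (hKc : 1 ≤ Kc)
    (R : ℕ) (D A : Finset (Zd d)) (hA : A ⊆ bz R) (p1 : ℝ) (h0 : 0 < p1) (h1 : p1 ≤ pc) :
    Ex p1 (fun ω => ∑ u ∈ Wb R D A ω, ∑ w ∈ D, fz (d - 2) (u - w)) ≤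
      C * Kc * ((A.card : ℝ) * (D.card : ℝ)) := by
  classical
  have hC := hp.C1
  have hd := hp.d11
  have hG : ∀ u : Zd d, 0 ≤ ∑ w ∈ D, fz (d - 2) (u - w) := fun u =>
    Finset.sum_nonneg fun w _ => (fz_pos _ _).le
  have e1 : ∀ ω : Om d R, ∑ u ∈ Wb R D A ω, ∑ w ∈ D, fz (d - 2) (u - w) =
      ∑ u ∈ bz R, (∑ w ∈ D, fz (d - 2) (u - w)) * (if u ∈ Wb R D A ω then (1 : ℝ) else 0) := by
    intro ω
    have hsub : Wb R D A ω ⊆ bz R := Bz_ball (cR d R) R D A ω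
    rw [← Finset.sum_subset hsub (f := fun u => (∑ w ∈ D, fz (d - 2) (u - w)) *
      (if u ∈ Wb R D A ω then (1 : ℝ) else 0))]
    · refine Finset.sum_congr rfl fun u hu => ?_
      rw [if_pos hu, mul_one]
    · intro u _ hu
      rw [if_neg hu, mul_zero]
  rw [Ex_congr e1, Ex_sum]
  have e2 : ∀ u ∈ (bz R : Finset (Zd d)), Ex p1 (fun ω : Om d R =>
      (∑ w ∈ D, fz (d - 2) (u - w)) * (if u ∈ Wb R D A ω then (1 : ℝ) else 0)) ≤
      ∑ a ∈ A, ∑ w ∈ D, C * (fz (d - 2) (a - u) * fz (d - 2) (u - w)) := by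
    intro u _
    rw [Ex_mul_left]
    refine (mul_le_mul_of_nonneg_left (Wb_two hp R D A hA p1 h0 h1 u) (hG u)).trans (le_of_eq ?_)
    rw [Finset.mul_sum]
    refine Finset.sum_congr rfl fun a _ => ?_
    rw [Finset.sum_mul]
    refine Finset.sum_congr rfl fun w _ => ?_
    ring
  refine (Finset.sum_le_sum e2).trans ?_
  rw [Finset.sum_comm]
  have e3 : ∀ a ∈ A, ∑ u ∈ (bz R : Finset (Zd d)), ∑ w ∈ D,
      C * (fz (d - 2) (a - u) * fz (d - 2) (u - w)) ≤ (D.card : ℝ) * (C * Kc) := by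
    intro a _
    rw [Finset.sum_comm]
    have e4 : ∀ w ∈ D, ∑ u ∈ (bz R : Finset (Zd d)),
        C * (fz (d - 2) (a - u) * fz (d - 2) (u - w)) ≤ C * Kc := by
      intro w _
      rw [← Finset.mul_sum]
      refine mul_le_mul_of_nonneg_left ?_ (by linarith)
      refine (hK (d - 2) (d - 2) (by omega) (by omega) (by omega) a w (bz R)).trans ?_
      have h5 := fz_le_one (d - 2 + (d - 2) - d) (a - w)
      nlinarith
    refine (Finset.sum_le_sum e4).trans (le_of_eq ?_)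
    rw [Finset.sum_const, nsmul_eq_mul]
  refine (Finset.sum_le_sum e3).trans (le_of_eq ?_)
  rw [Finset.sum_const, nsmul_eq_mul]
  ring

/-- Row W5. (2.1), third estimate: `Wr_le` with `F v = ∑_{w ∈ D} fz (d-2) (v-w)`, `Wb_two`, `conv_z` (`fz (d-4) ≤ 1`). -/
lemma en3 {C pc : ℝ} (hp : HP d C pc) : ∃ K : ℝ, 1 ≤ K ∧ ∀ (R : ℕ) (D A : Finset (Zd d)), A ⊆ bz R → ∀ (p1 s : ℝ), 0 < p1 → p1 ≤ pc → 0 ≤ s → s ≤ 1 →
    Ex p1 (fun ω => Ex s (fun η => ∑ v ∈ Wr R D A ω η, ∑ w ∈ D, fz (d - 2) (v - w))) ≤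
      K * s * ((A.card : ℝ) * (D.card : ℝ)) := by
  obtain ⟨Kc, hKc, hK⟩ := conv_z (d := d) (by have := hp.d11; omega)
  have hC := hp.C1
  refine ⟨(3 ^ d * 2 ^ (d - 2) : ℝ) * (C * Kc), ?_, ?_⟩
  · have h1 : (1 : ℝ) ≤ 3 ^ d := one_le_pow₀ (by norm_num)
    have h2 : (1 : ℝ) ≤ 2 ^ (d - 2) := one_le_pow₀ (by norm_num)
    have h3 : (1 : ℝ) ≤ 3 ^ d * 2 ^ (d - 2) := one_le_mul_of_one_le_of_one_le h1 h2
    have h4 : (1 : ℝ) ≤ C * Kc := one_le_mul_of_one_le_of_one_le hC hKc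
    exact one_le_mul_of_one_le_of_one_le h3 h4
  · intro R D A hA p1 s h0 h1 hs0 hs1
    have hp1 : p1 ≤ 1 := h1.trans hp.p1.le
    have hstep : ∀ ω : Om d R, Ex s (fun η => ∑ v ∈ Wr R D A ω η, ∑ w ∈ D, fz (d - 2) (v - w)) ≤
        (s * (3 ^ d * 2 ^ (d - 2) : ℝ)) * ∑ u ∈ Wb R D A ω, ∑ w ∈ D, fz (d - 2) (u - w) := by
      intro ω
      refine (Wr_le R D A ω s hs0 hs1 (fun v => ∑ w ∈ D, fz (d - 2) (v - w))
        (fun v => Finset.sum_nonneg fun w _ => (fz_pos _ _).le)).trans ?_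
      rw [mul_assoc]
      refine mul_le_mul_of_nonneg_left ?_ hs0
      rw [Finset.mul_sum]
      exact Finset.sum_le_sum fun u _ => W5c_near D u
    refine (Ex_mono h0.le hp1 hstep).trans ?_
    rw [Ex_mul_left]
    have h2 := W5c_out hp hK hKc R D A hA p1 h0 h1
    have h3 : (0 : ℝ) ≤ s * (3 ^ d * 2 ^ (d - 2) : ℝ) := by positivity
    refine (mul_le_mul_of_nonneg_left h2 h3).trans (le_of_eq ?_)
    ring

/-- Row W5. The energy of the points of the cluster itself: `pair_gen`, `tri_z`. -/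
lemma en4 {C pc : ℝ} (hp : HP d C pc) : ∃ K : ℝ, 1 ≤ K ∧ ∀ (R : ℕ) (D A : Finset (Zd d)), A ⊆ bz R → ∀ (p1 : ℝ) (ρ : ℕ), 0 < p1 → p1 ≤ pc →
    Ex p1 (fun ω => ∑ v ∈ Wb R D A ω, ∑ w ∈ (Wb R D A ω).filter (fun w => ρ ≤ nz (w - v)), fz (d - 2) (v - w)) ≤
      K * (Ex p1 (fun ω => ((Wb R D A ω).card : ℝ)) / (1 + (ρ : ℝ)) + (A.card : ℝ) ^ 2) := by
  obtain ⟨Kc, hKc, htri⟩ := tri_z (d := d) (by have := hp.d11; omega)
  have hC := hp.C1
  refine ⟨C ^ 2 * Kc, ?_, ?_⟩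
  · nlinarith [one_le_pow₀ (n := 2) hC]
  · intro R D A hA p1 ρ h0 h1
    have key : ∀ x y : Zd d, ∑ u ∈ bz R, ∑ w ∈ bz R,
        (if ρ ≤ nz (w - u) then fz (d - 2) (u - w) else 0) * (fz (d - 2) (x - u) * fz (d - 2) (y - w)) ≤
          Kc / (1 + (ρ : ℝ)) := by
      intro x y
      refine le_trans (le_of_eq ?_) (htri x y (bz R) (bz R) ρ)
      refine Finset.sum_congr rfl fun u _ => ?_
      rw [Finset.sum_filter]
      refine Finset.sum_congr rfl fun w _ => ?_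
      by_cases hc : ρ ≤ nz (w - u)
      · rw [if_pos hc, if_pos hc]; ring
      · rw [if_neg hc, if_neg hc, zero_mul]
    have hF : ∀ u w : Zd d, 0 ≤ (if ρ ≤ nz (w - u) then fz (d - 2) (u - w) else 0) := by
      intro u w
      by_cases hc : ρ ≤ nz (w - u)
      · rw [if_pos hc]; exact (fz_pos _ _).le
      · rw [if_neg hc]
    have h := pair_gen hp R D A hA p1 h0 h1 (fun u w => if ρ ≤ nz (w - u) then fz (d - 2) (u - w) else 0) hF
      (Kc / (1 + (ρ : ℝ))) (Kc / (1 + (ρ : ℝ))) (fun z => key z z) (fun a a' => key a a')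
    have e : (fun ω : Om d R => ∑ v ∈ Wb R D A ω, ∑ w ∈ (Wb R D A ω).filter (fun w => ρ ≤ nz (w - v)), fz (d - 2) (v - w)) =
        (fun ω : Om d R => ∑ u ∈ Wb R D A ω, ∑ w ∈ Wb R D A ω, if ρ ≤ nz (w - u) then fz (d - 2) (u - w) else 0) := by
      funext ω
      exact Finset.sum_congr rfl fun v _ => Finset.sum_filter _ _
    rw [e]
    refine h.trans ?_
    have hρ : (1 : ℝ) ≤ 1 + (ρ : ℝ) := by have : (0 : ℝ) ≤ ρ := Nat.cast_nonneg _; linarith
    have hd : Kc / (1 + (ρ : ℝ)) ≤ Kc := div_le_self (by linarith) hρ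
    have hA2 : (0 : ℝ) ≤ (A.card : ℝ) ^ 2 := by positivity
    have e2 : C ^ 2 * Kc * (Ex p1 (fun ω => ((Wb R D A ω).card : ℝ)) / (1 + (ρ : ℝ)) + (A.card : ℝ) ^ 2) =
        C ^ 2 * (Kc / (1 + (ρ : ℝ)) * Ex p1 (fun ω => ((Wb R D A ω).card : ℝ)) + Kc * (A.card : ℝ) ^ 2) := by
      ring
    rw [e2]
    refine mul_le_mul_of_nonneg_left ?_ (by positivity)
    have := mul_le_mul_of_nonneg_right hd hA2
    linarith

/-- Row W6. The windows grow: for `R ≤ R'` and a point `v`, `P(v ∈ Wb R D A) ≤ P(v ∈ Wb R' D A)`. (The window of radius `R` is embedded in the window of radius `R'` by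
`x ↦ x + (R' - R)`, `pul`, `Ex_pul`, `cl_emb` / `B3_rch`; or first row F1 below with `l = 2R'+3`.) -/
lemma Wb_grow (R R' : ℕ) (hR : R ≤ R') (D A : Finset (Zd d)) (p1 : ℝ) (h0 : 0 ≤ p1) (h1 : p1 ≤ 1) (v : Zd d) :
    Ex p1 (fun ω => if v ∈ Wb R D A ω then (1 : ℝ) else 0) ≤ Ex p1 (fun ω => if v ∈ Wb R' D A ω then (1 : ℝ) else 0) := by
  obtain ⟨φ, hφ⟩ := box_box (d := d) (l := 2 * R + 3) (n := 2 * R' + 3) (fun _ => R' - R) (fun _ => by omega)
  have hrel : ∀ x, rel (cR d R') (φ x) = rel (cR d R) x := by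
    intro x
    funext i
    show (((φ x i : Fin (2 * R' + 3)) : ℕ) : ℤ) - ((R' + 1 : ℕ) : ℤ) = ((x i : ℕ) : ℤ) - ((R + 1 : ℕ) : ℤ)
    rw [hφ]
    push_cast [Nat.cast_sub hR]
    ring
  have hbz : (bz R : Finset (Zd d)) ⊆ bz R' := by
    intro w hw
    unfold bz at hw ⊢
    rw [Finset.mem_Icc] at hw ⊢
    have hRR : (R : ℤ) ≤ (R' : ℤ) := by exact_mod_cast hR
    refine ⟨fun i => ?_, fun i => ?_⟩
    · have h2 : -(R : ℤ) ≤ w i := hw.1 i
      show -(R' : ℤ) ≤ w i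
      linarith
    · have h2 : w i ≤ (R : ℤ) := hw.2 i
      show w i ≤ (R' : ℤ)
      linarith
  rw [← Ex_pul φ p1 (fun ω => if v ∈ Wb R D A ω then (1 : ℝ) else 0)]
  refine Ex_mono h0 h1 fun ω => ?_
  have key : v ∈ Wb R D A (pul φ ω) → v ∈ Wb R' D A ω := by
    intro hv
    unfold Wb Bz at hv ⊢
    rw [Finset.mem_image] at hv ⊢
    obtain ⟨x, hx, rfl⟩ := hv
    refine ⟨φ x, ?_, hrel x⟩
    unfold BB at hx ⊢
    rw [mem_cS] at hx ⊢
    obtain ⟨a, ha, haD, hax⟩ := hx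
    have hD : ∀ y, y ∉ (pre (cR d R) D ∪ {x | rel (cR d R) x ∉ (bz R : Finset (Zd d))}) →
        φ y ∉ (pre (cR d R') D ∪ {x | rel (cR d R') x ∉ (bz R' : Finset (Zd d))}) := by
      intro y hy hy'
      apply hy
      rcases hy' with h | h
      · left
        show rel (cR d R) y ∈ D
        have h' : rel (cR d R') (φ y) ∈ D := h
        rwa [hrel] at h'
      · right
        show rel (cR d R) y ∉ (bz R : Finset (Zd d))
        have h' : rel (cR d R') (φ y) ∉ (bz R' : Finset (Zd d)) := h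
        rw [hrel] at h'
        exact fun h3 => h' (hbz h3)
    refine ⟨φ a, ?_, hD a haD, ?_⟩
    · show rel (cR d R') (φ a) ∈ A
      rw [hrel]
      exact ha
    · have hstep : ∀ y z, Step (gends (boxG d (2 * R + 3))) (pul φ ω)
          (pre (cR d R) D ∪ {x | rel (cR d R) x ∉ (bz R : Finset (Zd d))})ᶜ y z →
          Step (gends (boxG d (2 * R' + 3))) ω
            (pre (cR d R') D ∪ {x | rel (cR d R') x ∉ (bz R' : Finset (Zd d))})ᶜ (φ y) (φ z) := by
        rintro y z ⟨hy, hz, e, he, hend⟩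
        refine ⟨hD y hy, hD z hz, φ.mapEdgeSet e, he, ?_⟩
        have h1 : (e : Sym2 (Fin d → Fin (2 * R + 3))) = s(y, z) := hend
        show Sym2.map φ (e : Sym2 (Fin d → Fin (2 * R + 3))) = s(φ y, φ z)
        rw [h1]
        rfl
      induction hax with
      | refl => exact Rch.refl _
      | tail _ hbc ih => exact Relation.ReflTransGen.tail ih (hstep _ _ hbc)
  by_cases hv : v ∈ Wb R D A (pul φ ω)
  · rw [if_pos hv, if_pos (key hv)]
  · rw [if_neg hv]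
    split_ifs <;> norm_num

/-- Row W7. `E|Wb| ≤ ∑_{a ∈ A} E cz(a) ≤ |A| C/(pc - p1)` (`Wb` is contained in the union of the clusters of the points of `A`; `HP.X`). -/
lemma Wb_card {C pc : ℝ} (hp : HP d C pc) (R : ℕ) (D A : Finset (Zd d)) (p1 : ℝ) (h0 : 0 < p1) (h1 : p1 < pc) :
    Ex p1 (fun ω => ((Wb R D A ω).card : ℝ)) ≤ (A.card : ℝ) * (C / (pc - p1)) := by
  classical
  have hp11 : p1 ≤ 1 := le_trans h1.le hp.p1.le
  set K : Zd d → Om d R → Finset (Fin d → Fin (2 * R + 3)) := fun a ω =>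
    if h : ∃ x, rel (cR d R) x = a then cu (gends (boxG d (2 * R + 3))) ω (Classical.choose h) else ∅ with hK
  have hsub : ∀ ω : Om d R, BB (cR d R) R D A ω ⊆ A.biUnion (fun a => K a ω) := by
    intro ω y hy
    obtain ⟨x, hxA, -, hr⟩ := mem_cS.1 hy
    have hxA' : rel (cR d R) x ∈ A := hxA
    refine Finset.mem_biUnion.2 ⟨rel (cR d R) x, hxA', ?_⟩
    have hex : ∃ x', rel (cR d R) x' = rel (cR d R) x := ⟨x, rfl⟩
    have hch : Classical.choose hex = x := rel_inj (cR d R) (Classical.choose_spec hex)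
    simp only [hK]
    rw [dif_pos hex, hch]
    exact mem_cu.2 (hr.mono (fun _ h => h) (Set.subset_univ _))
  have hcard : ∀ ω : Om d R, ((Wb R D A ω).card : ℝ) ≤ ∑ a ∈ A, ((K a ω).card : ℝ) := by
    intro ω
    have e1 : (Wb R D A ω).card ≤ (BB (cR d R) R D A ω).card := Finset.card_image_le
    have e2 : (BB (cR d R) R D A ω).card ≤ ∑ a ∈ A, (K a ω).card :=
      le_trans (Finset.card_le_card (hsub ω)) Finset.card_biUnion_le
    exact_mod_cast le_trans e1 e2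
  have hC : 0 ≤ C / (pc - p1) := div_nonneg (le_trans zero_le_one hp.C1) (sub_nonneg.2 h1.le)
  have hone : ∀ a ∈ A, Ex p1 (fun ω : Om d R => ((K a ω).card : ℝ)) ≤ C / (pc - p1) := by
    intro a _
    by_cases hex : ∃ x, rel (cR d R) x = a
    · have hX := hp.X (2 * R + 3) (Classical.choose hex) p1 h0 h1
      refine le_trans (le_of_eq ?_) hX
      refine Ex_congr (fun ω => ?_)
      simp only [hK]
      rw [dif_pos hex]
      rfl
    · refine le_trans (le_of_eq ?_) hC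
      refine Ex_zero_of (fun ω => ?_)
      simp only [hK]
      rw [dif_neg hex]
      simp
  calc Ex p1 (fun ω : Om d R => ((Wb R D A ω).card : ℝ))
      ≤ Ex p1 (fun ω : Om d R => ∑ a ∈ A, ((K a ω).card : ℝ)) := Ex_mono h0.le hp11 hcard
    _ = ∑ a ∈ A, Ex p1 (fun ω : Om d R => ((K a ω).card : ℝ)) := Ex_sum A p1 _
    _ ≤ ∑ _a ∈ A, C / (pc - p1) := Finset.sum_le_sum hone
    _ = (A.card : ℝ) * (C / (pc - p1)) := by rw [Finset.sum_const, nsmul_eq_mul]

private lemma W7b_card (R : ℕ) (D A : Finset (Zd d)) (p1 : ℝ) (r : ℕ) :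
    Ex p1 (fun ω => (((Wb R D A ω).filter (fun v => R ≤ nz v + r)).card : ℝ)) =
      ∑ v ∈ (bz R : Finset (Zd d)).filter (fun v => R ≤ nz v + r),
        Ex p1 (fun ω => if v ∈ Wb R D A ω then (1 : ℝ) else 0) := by
  rw [← Ex_sum]
  refine Ex_congr fun ω => ?_
  rw [Finset.sum_ite, Finset.sum_const_zero, add_zero, Finset.sum_const, nsmul_eq_mul, mul_one]
  congr 2
  ext v
  simp only [Finset.mem_filter]
  constructor
  · rintro ⟨h1, h2⟩
    exact ⟨⟨Bz_ball (cR d R) R D A ω h1, h2⟩, h1⟩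
  · rintro ⟨⟨_, h2⟩, h3⟩
    exact ⟨h3, h2⟩

private lemma W7b_card' (R : ℕ) (D A : Finset (Zd d)) (p1 : ℝ) :
    Ex p1 (fun ω => ((Wb R D A ω).card : ℝ)) =
      ∑ v ∈ (bz R : Finset (Zd d)), Ex p1 (fun ω => if v ∈ Wb R D A ω then (1 : ℝ) else 0) := by
  rw [← Ex_sum]
  refine Ex_congr fun ω => ?_
  rw [Finset.sum_ite, Finset.sum_const_zero, add_zero, Finset.sum_const, nsmul_eq_mul, mul_one]
  congr 2
  ext v
  simp only [Finset.mem_filter]
  constructor
  · intro h1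
    exact ⟨Bz_ball (cR d R) R D A ω h1, h1⟩
  · rintro ⟨_, h3⟩
    exact h3

private lemma W7b_sum (n : ℕ) (D A : Finset (Zd d)) (p1 : ℝ) (h0 : 0 ≤ p1) (h1 : p1 ≤ 1) (r R0 : ℕ) :
    ∑ i ∈ Finset.range n, Ex p1 (fun ω => (((Wb (R0 + i * (r + 1)) D A ω).filter
      (fun v => R0 + i * (r + 1) ≤ nz v + r)).card : ℝ)) ≤
      Ex p1 (fun ω => ((Wb (R0 + n * (r + 1)) D A ω).card : ℝ)) := by
  rw [W7b_card']
  have hle : ∀ i ∈ Finset.range n, R0 + i * (r + 1) ≤ R0 + n * (r + 1) := by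
    intro i hi
    have := (Finset.mem_range.1 hi).le
    exact Nat.add_le_add_left (Nat.mul_le_mul_right _ this) _
  calc ∑ i ∈ Finset.range n, Ex p1 (fun ω => (((Wb (R0 + i * (r + 1)) D A ω).filter
        (fun v => R0 + i * (r + 1) ≤ nz v + r)).card : ℝ))
      ≤ ∑ i ∈ Finset.range n, ∑ v ∈ (bz (R0 + i * (r + 1)) : Finset (Zd d)).filter
          (fun v => R0 + i * (r + 1) ≤ nz v + r),
          Ex p1 (fun ω => if v ∈ Wb (R0 + n * (r + 1)) D A ω then (1 : ℝ) else 0) := by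
        refine Finset.sum_le_sum fun i hi => ?_
        rw [W7b_card]
        exact Finset.sum_le_sum fun v _ => Wb_grow _ _ (hle i hi) D A p1 h0 h1 v
    _ = ∑ v ∈ (Finset.range n).biUnion (fun i => (bz (R0 + i * (r + 1)) : Finset (Zd d)).filter
          (fun v => R0 + i * (r + 1) ≤ nz v + r)),
          Ex p1 (fun ω => if v ∈ Wb (R0 + n * (r + 1)) D A ω then (1 : ℝ) else 0) := by
        rw [Finset.sum_biUnion]
        intro i _ j _ hij
        rw [Function.onFun, Finset.disjoint_left]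
        intro v hv hv'
        rw [Finset.mem_filter, mem_bz] at hv hv'
        rcases Nat.lt_or_gt_of_ne hij with h | h
        · have h2 : (i + 1) * (r + 1) ≤ j * (r + 1) := Nat.mul_le_mul_right _ h
          have h3 : (i + 1) * (r + 1) = i * (r + 1) + (r + 1) := by ring
          omega
        · have h2 : (j + 1) * (r + 1) ≤ i * (r + 1) := Nat.mul_le_mul_right _ h
          have h3 : (j + 1) * (r + 1) = j * (r + 1) + (r + 1) := by ring
          omega
    _ ≤ ∑ v ∈ (bz (R0 + n * (r + 1)) : Finset (Zd d)),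
          Ex p1 (fun ω => if v ∈ Wb (R0 + n * (r + 1)) D A ω then (1 : ℝ) else 0) := by
        refine Finset.sum_le_sum_of_subset_of_nonneg ?_ ?_
        · intro v hv
          rw [Finset.mem_biUnion] at hv
          obtain ⟨i, hi, hv⟩ := hv
          rw [Finset.mem_filter, mem_bz] at hv
          rw [mem_bz]
          exact hv.1.trans (hle i hi)
        · intro v _ _
          refine Ex_nonneg h0 h1 fun ω => ?_
          split_ifs <;> norm_num

/-- Row W7. The shells. Take radii `R_0 < R_1 < .. < R_n`, `R_(i+1) > R_i + r + 1`: by `Wb_grow` the expected numbers of points of `Wb R_i` in the shell `R_i - r ≤ |v| ≤ R_i` are at most the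
same for `Wb R_n`; these shells are disjoint, the sum is at most `E|Wb R_n| ≤ |A| C/(pc-p1)` (`Wb_card`); so one of them is at most `δ` if `n` is large. -/
lemma shell_small {C pc : ℝ} (hp : HP d C pc) (D A : Finset (Zd d)) (p1 : ℝ) (h0 : 0 < p1) (h1 : p1 < pc) (r R0 : ℕ) (δ : ℝ) (hδ : 0 < δ) :
    ∃ R : ℕ, R0 ≤ R ∧ Ex p1 (fun ω => (((Wb R D A ω).filter (fun v => R ≤ nz v + r)).card : ℝ)) ≤ δ := by
  by_contra hcon
  push Not at hcon
  have hpc := hp.p1
  have h1' : p1 ≤ 1 := by linarith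
  set B : ℝ := (A.card : ℝ) * (C / (pc - p1)) with hB
  obtain ⟨n, hn⟩ := exists_nat_gt (B / δ)
  have h2 := W7b_sum n D A p1 h0.le h1' r R0
  have h3 := Wb_card hp (R0 + n * (r + 1)) D A p1 h0 h1
  have h4 : ∑ i ∈ Finset.range n, δ ≤ ∑ i ∈ Finset.range n, Ex p1 (fun ω => (((Wb (R0 + i * (r + 1)) D A ω).filter
      (fun v => R0 + i * (r + 1) ≤ nz v + r)).card : ℝ)) :=
    Finset.sum_le_sum fun i _ => (hcon (R0 + i * (r + 1)) (Nat.le_add_right _ _)).le
  rw [Finset.sum_const, Finset.card_range, nsmul_eq_mul] at h4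
  rw [div_lt_iff₀ hδ] at hn
  linarith

private lemma W8_eq (R : ℕ) (D A : Finset (Zd d)) (ω : Om d R) :
    Wn R D A ω (fun _ => false) = We R D A ω (fun _ => false) := by
  classical
  unfold We
  rw [Finset.filter_true_of_mem]
  intro v hv
  unfold Wn Nz at hv
  obtain ⟨x, hx, rfl⟩ := Finset.mem_image.1 hv
  unfold NB at hx
  obtain ⟨_, _, _, a, _, e, _, h⟩ := Finset.mem_filter.1 hx
  by_contra hc
  rw [if_pos hc] at h
  exact absurd h (by simp)

private lemma W8_card (R : ℕ) (D A : Finset (Zd d)) (ω : Om d R) :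
    (((Wb R D A ω).filter (fun v => R ≤ nz v)).card : ℝ) =
      ∑ w ∈ (bz R : Finset (Zd d)).filter (fun w => R ≤ nz w), (if w ∈ Wb R D A ω then (1 : ℝ) else 0) := by
  classical
  rw [Finset.sum_ite, Finset.sum_const_zero, add_zero, Finset.sum_const, nsmul_eq_mul, mul_one]
  congr 2
  ext w
  simp only [Finset.mem_filter]
  constructor
  · rintro ⟨h1, h2⟩
    exact ⟨⟨Bz_ball _ _ _ _ _ h1, h2⟩, h1⟩
  · rintro ⟨⟨_, h2⟩, h1⟩
    exact ⟨h1, h2⟩

private lemma W8_sph (hd : 1 ≤ d) (R : ℕ) :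
    ((((bz R : Finset (Zd d)).filter (fun w => R ≤ nz w)).card : ℕ) : ℝ) ≤ (d * 2 ^ d : ℝ) * ((R : ℝ) + 1) ^ (d - 1) := by
  classical
  have h := shz hd (0 : Zd d) ((bz R : Finset (Zd d)).filter (fun w => R ≤ nz w)) R
    (by
      intro z hz
      have := (mem_bz R z).1 (Finset.mem_filter.1 hz).1
      simpa using this)
    (fun k => if k = R then (1 : ℝ) else 0) (by intro k; split_ifs <;> norm_num)
  have h1 : ∑ z ∈ (bz R : Finset (Zd d)).filter (fun w => R ≤ nz w), (fun k => if k = R then (1 : ℝ) else 0) (nz (z - (0 : Zd d)))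
      = ((((bz R : Finset (Zd d)).filter (fun w => R ≤ nz w)).card : ℕ) : ℝ) := by
    rw [Finset.sum_congr rfl (g := fun _ => (1 : ℝ))]
    · rw [Finset.sum_const, nsmul_eq_mul, mul_one]
    · intro z hz
      have h2 := (mem_bz R z).1 (Finset.mem_filter.1 hz).1
      have h3 := (Finset.mem_filter.1 hz).2
      have h4 : nz (z - (0 : Zd d)) = R := by
        rw [sub_zero]; omega
      simp only [h4, if_true]
  rw [h1] at h
  refine h.trans (mul_le_mul_of_nonneg_left ?_ (by positivity))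
  have h5 : ∑ k ∈ Finset.range (R + 1), ((k : ℝ) + 1) ^ (d - 1) * (if k = R then (1 : ℝ) else 0) = ((R : ℝ) + 1) ^ (d - 1) := by
    simp
  exact h5.le

private lemma W8_far (R : ℕ) (v w : Zd d) (hv : 2 * nz v ≤ R) (hw : R ≤ nz w) :
    fz (d - 2) (v - w) ≤ 2 ^ (d - 2) / ((R : ℝ) + 1) ^ (d - 2) := by
  have h1 : nz w ≤ nz (w - v) + nz v := by
    have := nz_tri w v (0 : Zd d)
    simpa using this
  rw [nz_sub] at h1
  have h2 : R + 1 ≤ 2 * (1 + nz (v - w)) := by omega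
  have h3 : ((R : ℝ) + 1) ≤ 2 * (1 + (nz (v - w) : ℝ)) := by exact_mod_cast h2
  unfold fz
  rw [div_le_div_iff₀ (by positivity) (by positivity), one_mul, ← mul_pow]
  exact pow_le_pow_left₀ (by positivity) h3 _

/-- Row W8. At `pc` the expected number of next vertices outside of the ball grows at most linearly: `We_card`, `Wb_two` for `A = {v}`:
`∑_{|w| = R} C fz (d-2) (v-w) ≤ C (2R+1)^(d-1) 2d (1+R-|v|)^(2-d)`; for `R ≥ 2|v|` at most `K (R+1)` (`shz`: number of points of norm `R` is at most `d 2^d (R+1)^(d-1)`). -/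
lemma exit_lin {C pc : ℝ} (hp : HP d C pc) : ∃ K : ℝ, 1 ≤ K ∧ ∀ (R : ℕ) (D : Finset (Zd d)) (v : Zd d), 2 * nz v ≤ R →
    Ex pc (fun ω => Ex 0 (fun η => ((Wn R D {v} ω η).card : ℝ))) ≤ K * ((R : ℝ) + 1) := by
  classical
  have hC := hp.C1
  have hd := hp.d11
  have hC0 : (0 : ℝ) ≤ C := by linarith
  refine ⟨1 + 3 ^ d * (C * 2 ^ (d - 2) * (d * 2 ^ d)), ?_, ?_⟩
  · have : (0 : ℝ) ≤ 3 ^ d * (C * 2 ^ (d - 2) * (d * 2 ^ d)) := by positivity
    linarith
  intro R D v hv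
  have hvR : ({v} : Finset (Zd d)) ⊆ bz R := by
    intro x hx
    rw [Finset.mem_singleton.1 hx, mem_bz]
    omega
  set S := (bz R : Finset (Zd d)).filter (fun w => R ≤ nz w) with hS
  have h1 : ∀ ω : Om d R, Ex 0 (fun η => ((Wn R D {v} ω η).card : ℝ)) ≤
      3 ^ d * ∑ w ∈ S, (if w ∈ Wb R D {v} ω then (1 : ℝ) else 0) := by
    intro ω
    rw [Ex_zero', W8_eq, hS, ← W8_card]
    exact We_card R D {v} ω _
  have hS0 : ∀ w ∈ S, R ≤ nz w := fun w hw => (Finset.mem_filter.1 hw).2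
  have h2 : Ex pc (fun ω => Ex 0 (fun η => ((Wn R D {v} ω η).card : ℝ))) ≤
      3 ^ d * ∑ w ∈ S, Ex pc (fun ω : Om d R => if w ∈ Wb R D {v} ω then (1 : ℝ) else 0) := by
    refine (Ex_mono hp.p0.le hp.p1.le h1).trans (le_of_eq ?_)
    rw [Ex_mul_left, Ex_sum]
  refine h2.trans ?_
  have h3 : ∑ w ∈ S, Ex pc (fun ω : Om d R => if w ∈ Wb R D {v} ω then (1 : ℝ) else 0) ≤
      ∑ w ∈ S, C * (2 ^ (d - 2) / ((R : ℝ) + 1) ^ (d - 2)) := by
    refine Finset.sum_le_sum (fun w hw => ?_)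
    have h4 := Wb_two hp R D {v} hvR pc hp.p0 le_rfl w
    rw [Finset.sum_singleton] at h4
    exact h4.trans (mul_le_mul_of_nonneg_left (W8_far R v w hv (hS0 w hw)) hC0)
  have h5 : ∑ w ∈ S, C * (2 ^ (d - 2) / ((R : ℝ) + 1) ^ (d - 2)) ≤
      ((d * 2 ^ d : ℝ) * ((R : ℝ) + 1) ^ (d - 1)) * (C * (2 ^ (d - 2) / ((R : ℝ) + 1) ^ (d - 2))) := by
    rw [Finset.sum_const, nsmul_eq_mul]
    exact mul_le_mul_of_nonneg_right (W8_sph (by omega) R) (by positivity)
  have hR : (0 : ℝ) < (R : ℝ) + 1 := by positivity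
  have h6 : ((R : ℝ) + 1) ^ (d - 1) = ((R : ℝ) + 1) ^ (d - 2) * ((R : ℝ) + 1) := by
    rw [← pow_succ]; congr 1; omega
  have h7 : ((d * 2 ^ d : ℝ) * ((R : ℝ) + 1) ^ (d - 1)) * (C * (2 ^ (d - 2) / ((R : ℝ) + 1) ^ (d - 2))) =
      (C * 2 ^ (d - 2) * (d * 2 ^ d)) * ((R : ℝ) + 1) := by
    rw [h6]
    have : ((R : ℝ) + 1) ^ (d - 2) ≠ 0 := by positivity
    field_simp
  rw [h7] at h5
  calc 3 ^ d * ∑ w ∈ S, Ex pc (fun ω : Om d R => if w ∈ Wb R D {v} ω then (1 : ℝ) else 0)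
      ≤ 3 ^ d * ((C * 2 ^ (d - 2) * (d * 2 ^ d)) * ((R : ℝ) + 1)) :=
        mul_le_mul_of_nonneg_left (h3.trans h5) (by positivity)
    _ ≤ (1 + 3 ^ d * (C * 2 ^ (d - 2) * (d * 2 ^ d))) * ((R : ℝ) + 1) := by
        nlinarith

end Pool.Agent.PERC29.DZ
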